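import Pool.Agent.P.MP_2b2d3b_ag.AG2

/-!
Package AG: the Pfaffian structure of the Gorenstein algebras with `h`-vector `1, 3, 3, 3, 1`.
-/

namespace Pool.Agent.P.MP_2b2d3b_ag.AGP

open MvPolynomial Module

variable {A : Type} [CommRing A] [Algebra ℂ A] {ev : Pol ℂ →ₐ[ℂ] A} {w : Pol ℂ}
  {lam : A →ₗ[ℂ] ℂ}

theorem V_mul {m n : ℕ} {a b : A} (ha : a ∈ V ev m) (hb : b ∈ V ev n) : a * b ∈ V ev (m + n) := by
  obtain ⟨f, hf, rfl⟩ := mem_V.1 ha
  obtain ⟨g, hg, rfl⟩ := mem_V.1 hb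
  exact mem_V.2 ⟨f * g, hf.mul hg, map_mul _ _ _⟩

theorem V_mono (hw : w.IsHomogeneous 1) (e1 : ev w = 1) (n : ℕ) : V ev n ≤ V ev (n + 1) := by
  intro a ha
  simpa using V_mul ha (mem_V.2 ⟨w, hw, e1⟩)

theorem V_kill (S : Filt ev w lam 3) {a : A} (ha : a ∈ V ev 3) : lam a = 0 := by
  obtain ⟨f, hf, rfl⟩ := mem_V.1 ha
  exact S.kill f hf

/-- the multiplication table in a good frame -/
theorem exists_table (S : Filt ev w lam 3) (G : AGd ev) :
    ∃ (w' o t : Pol ℂ) (a b c d : Polynomial ℂ), Fr w w' o t ∧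
      V ev 3 ≤ U (ev w') (ev o) (ev t) 2 ∧
      Sy lam (V ev 1) (V ev 2) (ev w') (ev o) (ev t) a b c d := by
  obtain ⟨w', hw', l2, l3⟩ := G.lef
  have hne : ∀ c : ℂ, ev w' ≠ c • (1 : A) := fun c hc => by
    have : V ev 2 ≤ V ev 1 := l2.trans (sup_le le_rfl (by
      rintro _ ⟨a, ha, rfl⟩
      rw [LinearMap.mulLeft_apply, hc, smul_mul_assoc, one_mul]
      exact Submodule.smul_mem _ _ ha))
    have := S.fin
    have := Submodule.finrank_mono ‹V ev 2 ≤ V ev 1›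
    rw [G.d1, G.d2] at this
    omega
  have hU : ∀ {o t : Pol ℂ}, Fr w w' o t → V ev 2 ≤ U (ev w') (ev o) (ev t) 1 ∧
      V ev 3 ≤ U (ev w') (ev o) (ev t) 2 := fun h =>
    ⟨l2.trans (U_step (V_one_le h S.hw)), l3.trans (U_step (l2.trans (U_step (V_one_le h S.hw))))⟩
  obtain ⟨o0, t0, h0⟩ := exists_frame S.hw1 hw' S.hw G.d1 hne
  obtain ⟨n0, n1, n2, hn, en⟩ := mem_U.1 ((hU h0).1 (mem_V.2 ⟨_, h0.ho.mul h0.ht, rfl⟩))
  have h := h0.shift n2 n1
  set o := o0 - hm w' w n2 1 with ho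
  set t := t0 - hm w' w n1 1 with ht
  have e0 : ev o * ev t = Polynomial.aeval (ev w') (n0 + n1 * n2) := by
    rw [ho, ht, map_sub, map_sub, aeval_hm ev S.hw hn.h1, aeval_hm ev S.hw hn.h2]
    simp only [io, map_add, map_mul] at en ⊢
    linear_combination -en
  obtain ⟨m, b, a', h1, e1⟩ := mem_U.1 ((hU h).1 (mem_V.2 ⟨_, h.ho.mul h.ho, rfl⟩))
  obtain ⟨l, d, c', h2, e2⟩ := mem_U.1 ((hU h).1 (mem_V.2 ⟨_, h.ht.mul h.ht, rfl⟩))
  obtain ⟨a, rfl⟩ : ∃ a, a' = -a := ⟨-a', (neg_neg _).symm⟩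
  obtain ⟨c, rfl⟩ : ∃ c, c' = -c := ⟨-c', (neg_neg _).symm⟩
  rw [map_mul] at e1 e2
  obtain ⟨k0, k1, k2⟩ := table (fun p0 p1 p2 => io_inj G.d3 (hU h).2)
    (Polynomial.natDegree_add_le_of_degree_le hn.h0 (natDegree_mul_le' hn.h1 hn.h2 le_rfl))
    h1 h2 e0 e1.symm e2.symm
  refine ⟨w', o, t, a, b, c, d, h, (hU h).2, ?_⟩
  refine ⟨fun u hu v hv => V_kill S (V_mul hu hv), V_mono S.hw1 S.hw 1, mem_V.2 ⟨w, S.hw1, S.hw⟩,
    mem_V.2 ⟨w', hw', rfl⟩, mem_V.2 ⟨o, h.ho, rfl⟩, mem_V.2 ⟨t, h.ht, rfl⟩, U_le_V h S.hw 1,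
    by simpa using h1.h2, h1.h1, by simpa using h2.h2, h2.h1, ?_, ?_, ?_⟩
  · rw [e0, k0, map_neg, map_mul]
  · rw [← e1, k1]
    simp only [io, map_neg, map_mul]
    ring
  · rw [← e2, k2]
    simp only [io, map_neg, map_mul]
    ring

/-- generation of the ideal in degrees at least four -/
theorem generation (S : Filt ev w lam 3) (hA : finrank ℂ A = 11) (G : AGd ev) {w' o t : Pol ℂ}
    {a b c d : Polynomial ℂ} {J : Ideal (Pol ℂ)} (h : Fr w w' o t) (hq : Qd w w' o t a b c d J)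
    (hJ : ∀ j ∈ J, ev j = 0) (h3 : V ev 3 ≤ U (ev w') (ev o) (ev t) 2) {D0 D1 D2 E1 E2 : Pol ℂ}
    (hD0 : D0.IsHomogeneous 3) (hD1 : D1.IsHomogeneous 3) (hD2 : D2.IsHomogeneous 3)
    (hE1 : E1.IsHomogeneous 3) (hE2 : E2.IsHomogeneous 3)
    (r1 : w' * D1 - w * E1 ∈ J) (r2 : w' * D2 - w * E2 ∈ J)
    (l00 : lam (ev D0 * ev w') = 1) (l01 : lam (ev D0 * ev o) = 0) (l02 : lam (ev D0 * ev t) = 0)
    (l10 : lam (ev D1 * ev w') = 0) (l11 : lam (ev D1 * ev o) = 1) (l12 : lam (ev D1 * ev t) = 0)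
    (l20 : lam (ev D2 * ev w') = 0) (l21 : lam (ev D2 * ev o) = 0) (l22 : lam (ev D2 * ev t) = 1)
    (n : ℕ) : ∀ f : Pol ℂ, f.IsHomogeneous (n + 4) → ev f = 0 → f ∈ J := by
  have := S.fin
  have cub : ∀ f : Pol ℂ, f.IsHomogeneous 3 → ev f = 0 → f ∈ J := fun f hf h0 =>
    cubic_mem h hq S.hw hJ (fun p0 p1 p2 => io_inj G.d3 h3) hf h0
  have hC : ∀ (r : ℂ) {f : Pol ℂ} {k : ℕ}, f.IsHomogeneous k → (C r * f).IsHomogeneous k :=
    fun r f k hf => by simpa using (isHomogeneous_C _ r).mul hf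
  have C3 : ∀ f : Pol ℂ, f.IsHomogeneous 3 → ∃ (k0 k1 k2 : ℂ) (g : Pol ℂ), g.IsHomogeneous 2 ∧
      f - (C k0 * D0 + C k1 * D1 + C k2 * D2) - w * g ∈ J := fun f hf => by
    set f' := f - (C (lam (ev f * ev w')) * D0 + C (lam (ev f * ev o)) * D1 +
      C (lam (ev f * ev t)) * D2) with hf'
    have h1 : f'.IsHomogeneous 3 := hf.sub (((hC _ hD0).add (hC _ hD1)).add (hC _ hD2))
    have h2 : ∀ e : A, lam (e * ev f') = lam (ev f * e) - (lam (ev f * ev w') * lam (ev D0 * e) +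
        lam (ev f * ev o) * lam (ev D1 * e) + lam (ev f * ev t) * lam (ev D2 * e)) := fun e => by
      simp only [← smul_eq_mul (lam _) (lam _), ← map_smul, ← map_add, ← map_sub]
      congr 1
      simp only [hf', map_sub, map_add, map_mul, algHom_C, Algebra.smul_def]
      ring
    have h4 : ev f' ∈ V ev 2 := perp S.perf (M := V ev 1)
      (fun u hu v hv => V_kill S (V_mul hu hv)) (by rw [G.d1, G.d2, hA]) (by
        rintro _ ⟨l, hl, rfl⟩
        obtain ⟨x0, x1, x2, x3, rfl⟩ := h.span l hl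
        have e : ev.toLinearMap (C x0 * w + C x1 * w' + C x2 * o + C x3 * t) * ev f' =
            x0 • ev f' + x1 • (ev w' * ev f') + x2 • (ev o * ev f') + x3 • (ev t * ev f') := by
          simp only [AlgHom.toLinearMap_apply, map_add, map_mul, algHom_C, Algebra.smul_def, S.hw]
          ring
        rw [e, map_add, map_add, map_add, map_smul, map_smul, map_smul, map_smul, S.kill _ h1,
          h2, h2, h2, l00, l01, l02, l10, l11, l12, l20, l21, l22]
        simp)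
    obtain ⟨g, hg, eg⟩ := mem_V.1 h4
    refine ⟨_, _, _, g, hg, cub _ (h1.sub (S.hw1.mul hg)) ?_⟩
    rw [map_sub, map_mul ev w, S.hw, one_mul, eg, sub_self]
  have C4 : ∀ f : Pol ℂ, f.IsHomogeneous 4 → ∃ g : Pol ℂ, g.IsHomogeneous 3 ∧
      f - C (lam (ev f)) * (w' * D0) - w * g ∈ J := fun f hf => by
    obtain ⟨b1, b2, h1, h2, k⟩ := lf_all h hq 2 f hf
    obtain ⟨k0, k1, k2, g, hg, k'⟩ := C3 b2 h2
    have hg' : (b1 + w' * g + C k1 * E1 + C k2 * E2).IsHomogeneous 3 :=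
      ((h1.add (h.hw'.mul hg)).add (hC _ hE1)).add (hC _ hE2)
    have m : f - C k0 * (w' * D0) - w * (b1 + w' * g + C k1 * E1 + C k2 * E2) ∈ J := by
      convert J.add_mem (J.add_mem (J.add_mem k (J.mul_mem_left w' k'))
        (J.mul_mem_left (C k1) r1)) (J.mul_mem_left (C k2) r2) using 1
      ring
    have e0 := hJ _ m
    rw [map_sub, map_sub, map_mul ev w, S.hw, one_mul, map_mul, algHom_C, ← Algebra.smul_def,
      map_mul, mul_comm (ev w')] at e0
    have e := congrArg lam e0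
    rw [map_sub, map_sub, map_smul, l00, S.kill _ hg', map_zero, smul_eq_mul, mul_one, sub_zero,
      sub_eq_zero] at e
    exact ⟨_, hg', by rw [e]; exact m⟩
  have C5 : ∀ (n : ℕ) (f : Pol ℂ), f.IsHomogeneous (n + 5) → ∃ g : Pol ℂ,
      g.IsHomogeneous (n + 4) ∧ f - w * g ∈ J := fun n => by
    induction n with
    | zero =>
      intro f hf
      obtain ⟨b1, b2, h1, h2, k⟩ := lf_all h hq 3 f hf
      obtain ⟨g, hg, k'⟩ := C4 b2 h2
      obtain ⟨g', hg', k''⟩ := C4 (D1 * o) (hD1.mul h.ho)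
      rw [map_mul, l11, map_one, one_mul] at k''
      refine ⟨b1 + w' * g + C (lam (ev b2)) * (o * E1 - w' * g'),
        (h1.add (h.hw'.mul hg)).add (hC _ ((h.ho.mul hE1).sub (h.hw'.mul hg'))), ?_⟩
      convert J.add_mem (J.add_mem k (J.mul_mem_left w' k')) (J.mul_mem_left (C (lam (ev b2)))
        (J.sub_mem (J.mul_mem_left o r1) (J.mul_mem_left w' k''))) using 1
      ring
    | succ n ih =>
      intro f hf
      obtain ⟨b1, b2, h1, h2, k⟩ := lf_all h hq (n + 4) f hf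
      obtain ⟨g, hg, k'⟩ := ih b2 h2
      refine ⟨b1 + g * w', h1.add (by simpa [add_right_comm] using hg.mul h.hw'), ?_⟩
      convert J.add_mem k (J.mul_mem_left w' k') using 1
      ring
  induction n with
  | zero =>
    intro f hf h0
    obtain ⟨g, hg, k⟩ := C4 f hf
    rw [h0, map_zero, map_zero, zero_mul, sub_zero] at k
    have e := hJ _ k
    rw [map_sub, h0, map_mul, S.hw, one_mul, zero_sub, neg_eq_zero] at e
    simpa using J.add_mem k (J.mul_mem_left w (cub g hg e))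
  | succ n ih =>
    intro f hf h0
    obtain ⟨g, hg, k⟩ := C5 n f hf
    have e := hJ _ k
    rw [map_sub, h0, map_mul, S.hw, one_mul, zero_sub, neg_eq_zero] at e
    simpa using J.add_mem k (J.mul_mem_left w (ih g hg e))

theorem q_hom {p : Pf ℂ} (h : ∀ i j, (p.φ i j).IsHomogeneous 1) (i : Fin 3) :
    (p.q i).IsHomogeneous 2 := by
  fin_cases i <;> exact ((h _ _).mul (h _ _)).sub ((h _ _).mul (h _ _))

theorem u_hom {p : Pf ℂ} (h : ∀ i j, (p.φ i j).IsHomogeneous 1)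
    (h' : ∀ i, (p.ξ i).IsHomogeneous 3) (j : Fin 2) : (p.u j).IsHomogeneous 4 :=
  IsHomogeneous.sum _ _ _ fun i _ => (h' i).mul (h i j)

/-- a sextic in the ideal is a Pfaffian -/
theorem exists_pf {p : Pf ℂ} (h : ∀ i j, (p.φ i j).IsHomogeneous 1)
    (h' : ∀ i, (p.ξ i).IsHomogeneous 3) {F : Pol ℂ} (hF : F.IsHomogeneous 6) (hm : F ∈ p.I) :
    ∃ p' : Pf ℂ, p'.Hom ∧ p'.pf = F ∧ p'.I = p.I := by
  obtain ⟨f1, h1, f2, h2, e⟩ := Submodule.mem_sup.1 hm
  obtain ⟨g, rfl⟩ := Ideal.mem_span_range_iff_exists_fun.1 h1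
  obtain ⟨k, rfl⟩ := Ideal.mem_span_range_iff_exists_fun.1 h2
  refine ⟨⟨p.φ, p.ξ, fun i => homogeneousComponent 4 (g i), fun j => homogeneousComponent 2 (k j)⟩,
    ⟨h, h', fun i => homogeneousComponent_isHomogeneous _ _,
      fun j => homogeneousComponent_isHomogeneous _ _⟩, ?_, rfl⟩
  rw [← homogeneousComponent_eq_self hF, ← e, map_add, map_sum, map_sum]
  refine congrArg₂ (· + ·) (Finset.sum_congr rfl fun i _ => ?_)
    (Finset.sum_congr rfl fun j _ => ?_)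
  · exact (comp_mul (q_hom h i) (g i) 4).symm
  · exact (comp_mul (u_hom h h' j) (k j) 2).symm

end Pool.Agent.P.MP_2b2d3b_ag.AGP

namespace Pool.Agent.P.MP_2b2d3b_ag

open MvPolynomial Module AGP

theorem aG : S_AG := by
  intro A _ _ ev w lam F S hA G hF hF0
  have := S.fin
  obtain ⟨w', o, t, a, b, c, d, h, h3, Y⟩ := exists_table S G
  have inj := fun p0 p1 p2 => io_inj (p0 := p0) (p1 := p1) (p2 := p2) G.d3 h3
  have hli : LinearIndependent ℂ ![(1 : A), ev w', ev o, ev t] := by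
    rw [Fintype.linearIndependent_iff]
    intro g hg
    obtain ⟨k0, k1, k2⟩ := inj (Polynomial.C (g 0) + Polynomial.C (g 1) * Polynomial.X)
      (Polynomial.C (g 2)) (Polynomial.C (g 3)) ⟨by compute_degree!, by simp, by simp⟩ (by
        rw [← hg]
        simp [io, Fin.sum_univ_four, Algebra.smul_def])
    have k3 := congrArg (fun p => p.coeff 0) k0
    have k4 := congrArg (fun p => p.coeff 1) k0
    intro i
    fin_cases i
    · simpa using k3
    · simpa [Polynomial.coeff_C] using k4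
    · simpa using k1
    · simpa using k2
  have kerV : ∀ x : A, lam x = 0 → ∃ p0 p1 p2, Dg 2 p0 p1 p2 ∧
      io (ev w') (ev o) (ev t) p0 p1 p2 = x := fun x hx => by
    refine mem_U.1 (h3 (perp S.perf (M := Submodule.span ℂ {(1 : A)}) (fun u hu v hv => ?_)
      (by rw [finrank_span_singleton (show (1 : A) ≠ 0 from hli.ne_zero 0), G.d3, hA]) fun u hu => ?_))
    · obtain ⟨r, rfl⟩ := Submodule.mem_span_singleton.1 hu
      rw [smul_mul_assoc, one_mul, map_smul, V_kill S hv, smul_zero]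
    · obtain ⟨r, rfl⟩ := Submodule.mem_span_singleton.1 hu
      rw [smul_mul_assoc, one_mul, map_smul, hx, smul_zero]
  obtain ⟨δ0, d0⟩ := exists_dual S.perf hli 1
  obtain ⟨δ1, d1⟩ := exists_dual S.perf hli 2
  obtain ⟨δ2, d2⟩ := exists_dual S.perf hli 3
  have l0 : lam δ0 = 0 := by simpa using d0 0
  have l1 : lam δ1 = 0 := by simpa using d1 0
  have l2 : lam δ2 = 0 := by simpa using d2 0
  have l00 : lam (δ0 * ev w') = 1 := d0 1
  have l01 : lam (δ0 * ev o) = 0 := d0 2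
  have l02 : lam (δ0 * ev t) = 0 := d0 3
  have l10 : lam (δ1 * ev w') = 0 := d1 1
  have l11 : lam (δ1 * ev o) = 1 := d1 2
  have l12 : lam (δ1 * ev t) = 0 := d1 3
  have l20 : lam (δ2 * ev w') = 0 := d2 1
  have l21 : lam (δ2 * ev o) = 0 := d2 2
  have l22 : lam (δ2 * ev t) = 1 := d2 3
  obtain ⟨z0, z1, z2, hz, rfl⟩ := kerV δ0 l0
  obtain ⟨s0, s1, s2, hs, rfl⟩ := kerV δ1 l1
  obtain ⟨s0', s1', s2', hs', rfl⟩ := kerV δ2 l2
  obtain ⟨v0, v1, v2, hv, ev1⟩ := kerV _ l10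
  obtain ⟨v0', v1', v2', hv', ev2⟩ := kerV _ l20
  have hr : io (ev w') (ev o) (ev t) (Polynomial.X * s0 - v0) (Polynomial.X * s1 - v1)
      (Polynomial.X * s2 - v2) = 0 := by
    simp only [io, map_sub, map_mul, Polynomial.aeval_X] at ev1 ⊢
    linear_combination -ev1
  have hr' : io (ev w') (ev o) (ev t) (Polynomial.X * s0' - v0') (Polynomial.X * s1' - v1')
      (Polynomial.X * s2' - v2') = 0 := by
    simp only [io, map_sub, map_mul, Polynomial.aeval_X] at ev2 ⊢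
    linear_combination -ev2
  obtain ⟨y1, y2, y3⟩ := symm Y hs hv hs' hv' hr hr' l1 l11 l12 l2 l21 l22
  have dr := hs.X_mul.sub hv.mono
  have dr' := hs'.X_mul.sub hv'.mono
  let p : Pf ℂ := ⟨![![o, -hm w' w a 1], ![hm w' w d 1, t], ![t + hm w' w c 1, o - hm w' w b 1]],
    ![hm w' w (Polynomial.X * s1 - v1) 3, hm w' w (Polynomial.X * s2' - v2') 3,
      hm w' w (Polynomial.X * s2 - v2) 3], 0, 0⟩
  have hh := fun q n => hm_hom h.hw' h.hw q n
  have hφ : ∀ i j, (p.φ i j).IsHomogeneous 1 := fun i j => by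
    fin_cases i <;> fin_cases j
    exacts [h.ho, (hh _ _).neg, hh _ _, h.ht, h.ht.add (hh _ _), h.ho.sub (hh _ _)]
  have hξ : ∀ i, (p.ξ i).IsHomogeneous 3 := fun i => by
    fin_cases i
    exacts [hh _ _, hh _ _, hh _ _]
  have q0 : p.q 0 = hm w' w d 1 * (o - hm w' w b 1) - t * (t + hm w' w c 1) := rfl
  have q1 : p.q 1 = (t + hm w' w c 1) * -hm w' w a 1 - (o - hm w' w b 1) * o := rfl
  have q2 : p.q 2 = o * t - -hm w' w a 1 * hm w' w d 1 := rfl
  have u0 : p.u 0 = lf w w' o t 3 (Polynomial.X * s0 - v0) (Polynomial.X * s1 - v1)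
      (Polynomial.X * s2 - v2) := by
    rw [lf, y2, hm_add, hm_mul _ _ dr'.h2 Y.hd, hm_mul _ _ dr.h2 Y.hc, Pf.u, Fin.sum_univ_three]
    change hm w' w (Polynomial.X * s1 - v1) 3 * o + hm w' w (Polynomial.X * s2' - v2') 3 *
      hm w' w d 1 + hm w' w (Polynomial.X * s2 - v2) 3 * (t + hm w' w c 1) = _
    ring
  have u1 : p.u 1 = lf w w' o t 3 (Polynomial.X * s0' - v0') (Polynomial.X * s1' - v1')
      (Polynomial.X * s2' - v2') := by
    rw [lf, y3, y1, hm_sub, hm_neg, hm_mul _ _ dr.h1 Y.ha, hm_mul _ _ dr.h2 Y.hb, Pf.u,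
      Fin.sum_univ_three]
    change hm w' w (Polynomial.X * s1 - v1) 3 * -hm w' w a 1 +
      hm w' w (Polynomial.X * s2' - v2') 3 * t +
      hm w' w (Polynomial.X * s2 - v2) 3 * (o - hm w' w b 1) = _
    ring
  have mq : ∀ i, p.q i ∈ p.I := fun i =>
    Ideal.mem_sup_left (Ideal.subset_span ⟨i, rfl⟩)
  have mu : ∀ j, p.u j ∈ p.I := fun j =>
    Ideal.mem_sup_right (Ideal.subset_span ⟨j, rfl⟩)
  have hq : Qd w w' o t a b c d p.I := by
    refine ⟨?_, ?_, ?_⟩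
    · convert mq 2 using 1
      rw [q2]
      ring
    · convert p.I.neg_mem (mq 1) using 1
      rw [q1]
      ring
    · convert p.I.neg_mem (mq 0) using 1
      rw [q0]
      ring
  have hJ : ∀ j ∈ p.I, ev j = 0 := by
    have : p.I ≤ RingHom.ker (ev : Pol ℂ →+* A) := by
      refine sup_le (Ideal.span_le.2 ?_) (Ideal.span_le.2 ?_)
      · rintro _ ⟨i, rfl⟩
        change ev (p.q i) = 0
        have ea := aeval_hm ev (u := w') S.hw Y.ha
        have eb := aeval_hm ev (u := w') S.hw Y.hb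
        have ec := aeval_hm ev (u := w') S.hw Y.hc
        have ed := aeval_hm ev (u := w') S.hw Y.hd
        fin_cases i
        · change ev (p.q 0) = 0
          simp only [q0, map_sub, map_add, map_mul, eb, ec, ed]
          linear_combination -Y.e2
        · change ev (p.q 1) = 0
          simp only [q1, map_sub, map_add, map_mul, map_neg, ea, eb, ec]
          linear_combination -Y.e1
        · change ev (p.q 2) = 0
          simp only [q2, map_sub, map_mul, map_neg, ea, ed]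
          linear_combination Y.e0
      · rintro _ ⟨j, rfl⟩
        change ev (p.u j) = 0
        fin_cases j
        · change ev (p.u 0) = 0
          rw [u0, ev_lf S.hw dr, hr]
        · change ev (p.u 1) = 0
          rw [u1, ev_lf S.hw dr', hr']
    exact fun j hj => this hj
  have gen := generation S hA G h hq hJ h3 (lf_hom h 2 z0 z1 z2) (lf_hom h 2 s0 s1 s2)
    (lf_hom h 2 s0' s1' s2') (lf_hom h 2 v0 v1 v2) (lf_hom h 2 v0' v1' v2')
    (by rw [← lf_w' hs, ← lf_w hv, ← lf_sub, ← u0]; exact mu 0)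
    (by rw [← lf_w' hs', ← lf_w hv', ← lf_sub, ← u1]; exact mu 1)
    (by rwa [ev_lf S.hw hz]) (by rwa [ev_lf S.hw hz]) (by rwa [ev_lf S.hw hz])
    (by rwa [ev_lf S.hw hs]) (by rwa [ev_lf S.hw hs]) (by rwa [ev_lf S.hw hs])
    (by rwa [ev_lf S.hw hs']) (by rwa [ev_lf S.hw hs']) (by rwa [ev_lf S.hw hs'])
  obtain ⟨p', k1, k2, k3⟩ := exists_pf hφ hξ hF (gen 2 F hF hF0)
  refine ⟨p', k1, k2, by rwa [k3], fun n hn f hf h0 => ?_⟩
  obtain ⟨n, rfl⟩ := Nat.exists_eq_add_of_le' hn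
  rw [k3]
  exact gen n f hf h0

end Pool.Agent.P.MP_2b2d3b_ag
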