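import Pool.Agent.P.MP_2b2d3b_ag.Bas

/-!
Package AG, first part: linear algebra in the finite dimensional algebra.
-/

namespace Pool.Agent.P.MP_2b2d3b_ag.AGP

open Module Polynomial

variable {A : Type} [CommRing A] [Algebra ℂ A]

/-- the value of a triple of polynomials -/
noncomputable def io (W x y : A) (p0 p1 p2 : ℂ[X]) : A :=
  aeval W p0 + aeval W p1 * x + aeval W p2 * y

/-- degree bounds for a triple of level `n + 1` -/
structure Dg (n : ℕ) (p0 p1 p2 : ℂ[X]) : Prop where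
  h0 : p0.natDegree ≤ n + 1
  h1 : p1.natDegree ≤ n
  h2 : p2.natDegree ≤ n

theorem mem_dLT {n : ℕ} {p : ℂ[X]} : p ∈ degreeLT ℂ (n + 1) ↔ p.natDegree ≤ n := by
  rw [degreeLT_succ_eq_degreeLE, mem_degreeLE, natDegree_le_iff_degree_le]

/-- `io` as a linear map -/
noncomputable def ioD (W x y : A) (n : ℕ) :
    (degreeLT ℂ (n + 2) × degreeLT ℂ (n + 1) × degreeLT ℂ (n + 1)) →ₗ[ℂ] A where
  toFun p := io W x y p.1 p.2.1 p.2.2
  map_add' p q := by
    simp only [io, Prod.fst_add, Prod.snd_add, Submodule.coe_add, map_add]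
    ring
  map_smul' c p := by
    simp only [io, Prod.smul_fst, Prod.smul_snd, Submodule.coe_smul, map_smul, RingHom.id_apply,
      smul_add, smul_mul_assoc]

/-- the values of level `n + 1` -/
noncomputable def U (W x y : A) (n : ℕ) : Submodule ℂ A := LinearMap.range (ioD W x y n)

theorem mem_U {W x y : A} {n : ℕ} {a : A} :
    a ∈ U W x y n ↔ ∃ p0 p1 p2, Dg n p0 p1 p2 ∧ io W x y p0 p1 p2 = a := by
  constructor
  · rintro ⟨⟨p0, p1, p2⟩, rfl⟩
    exact ⟨p0, p1, p2, ⟨mem_dLT.1 p0.2, mem_dLT.1 p1.2, mem_dLT.1 p2.2⟩, rfl⟩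
  · rintro ⟨p0, p1, p2, h, rfl⟩
    exact ⟨(⟨p0, mem_dLT.2 h.h0⟩, ⟨p1, mem_dLT.2 h.h1⟩, ⟨p2, mem_dLT.2 h.h2⟩), rfl⟩

theorem natDegree_X_mul_le {p : ℂ[X]} {n : ℕ} (h : p.natDegree ≤ n) :
    (X * p).natDegree ≤ n + 1 :=
  natDegree_mul_le.trans (by have := natDegree_X_le (R := ℂ); omega)

theorem Dg.mono {n : ℕ} {p0 p1 p2 : ℂ[X]} (h : Dg n p0 p1 p2) : Dg (n + 1) p0 p1 p2 :=
  ⟨h.h0.trans (Nat.le_succ _), h.h1.trans (Nat.le_succ _), h.h2.trans (Nat.le_succ _)⟩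

theorem Dg.X_mul {n : ℕ} {p0 p1 p2 : ℂ[X]} (h : Dg n p0 p1 p2) :
    Dg (n + 1) (X * p0) (X * p1) (X * p2) :=
  ⟨natDegree_X_mul_le h.h0, natDegree_X_mul_le h.h1, natDegree_X_mul_le h.h2⟩

theorem Dg.add {n : ℕ} {p0 p1 p2 q0 q1 q2 : ℂ[X]} (h : Dg n p0 p1 p2) (h' : Dg n q0 q1 q2) :
    Dg n (p0 + q0) (p1 + q1) (p2 + q2) :=
  ⟨natDegree_add_le_of_degree_le h.h0 h'.h0, natDegree_add_le_of_degree_le h.h1 h'.h1,
    natDegree_add_le_of_degree_le h.h2 h'.h2⟩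

theorem natDegree_sub_le' {p q : ℂ[X]} {n : ℕ} (h : p.natDegree ≤ n) (h' : q.natDegree ≤ n) :
    (p - q).natDegree ≤ n :=
  (natDegree_sub_le _ _).trans (max_le h h')

theorem Dg.sub {n : ℕ} {p0 p1 p2 q0 q1 q2 : ℂ[X]} (h : Dg n p0 p1 p2) (h' : Dg n q0 q1 q2) :
    Dg n (p0 - q0) (p1 - q1) (p2 - q2) :=
  ⟨natDegree_sub_le' h.h0 h'.h0, natDegree_sub_le' h.h1 h'.h1, natDegree_sub_le' h.h2 h'.h2⟩

theorem U_step {W x y : A} {n : ℕ} {N : Submodule ℂ A} (h : N ≤ U W x y n) :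
    N ⊔ N.map (LinearMap.mulLeft ℂ W) ≤ U W x y (n + 1) := by
  refine sup_le (fun a ha => ?_) ?_
  · obtain ⟨p0, p1, p2, hp, rfl⟩ := mem_U.1 (h ha)
    exact mem_U.2 ⟨p0, p1, p2, hp.mono, rfl⟩
  · rintro _ ⟨a, ha, rfl⟩
    obtain ⟨p0, p1, p2, hp, rfl⟩ := mem_U.1 (h ha)
    refine mem_U.2 ⟨_, _, _, hp.X_mul, ?_⟩
    simp only [io, map_mul, aeval_X, LinearMap.mulLeft_apply]
    ring

theorem finrank_dLT (n : ℕ) : finrank ℂ (degreeLT ℂ n) = n := by
  rw [finrank_eq_card_basis (degreeLT.basis ℂ n), Fintype.card_fin]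

instance finite_dLT (n : ℕ) : Module.Finite ℂ (degreeLT ℂ n) :=
  Module.Finite.of_basis (degreeLT.basis ℂ n)

theorem io_inj {W x y : A} {N : Submodule ℂ A} (hN : finrank ℂ N = 10) (h : N ≤ U W x y 2)
    {p0 p1 p2 : ℂ[X]} (hp : Dg 2 p0 p1 p2) (h0 : io W x y p0 p1 p2 = 0) :
    p0 = 0 ∧ p1 = 0 ∧ p2 = 0 := by
  have h1 := (ioD W x y 2).finrank_range_add_finrank_ker
  rw [finrank_prod, finrank_prod, finrank_dLT, finrank_dLT] at h1
  have h2 : finrank ℂ N ≤ finrank ℂ (LinearMap.range (ioD W x y 2)) := Submodule.finrank_mono h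
  have h3 : LinearMap.ker (ioD W x y 2) = ⊥ := Submodule.finrank_eq_zero.1 (by omega)
  have h4 : ((⟨p0, mem_dLT.2 hp.h0⟩, ⟨p1, mem_dLT.2 hp.h1⟩, ⟨p2, mem_dLT.2 hp.h2⟩) :
      degreeLT ℂ (2 + 2) × degreeLT ℂ (2 + 1) × degreeLT ℂ (2 + 1)) ∈
      LinearMap.ker (ioD W x y 2) := h0
  rw [h3, Submodule.mem_bot] at h4
  exact ⟨congrArg (fun z => z.1.1) h4, congrArg (fun z => z.2.1.1) h4,
    congrArg (fun z => z.2.2.1) h4⟩

theorem natDegree_mul_le' {p q : ℂ[X]} {m n k : ℕ} (h : p.natDegree ≤ m) (h' : q.natDegree ≤ n)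
    (hk : m + n ≤ k) : (p * q).natDegree ≤ k :=
  natDegree_mul_le.trans ((Nat.add_le_add h h').trans hk)

/-- associativity determines the constant terms of the multiplication table -/
theorem table {W x y : A}
    (inj : ∀ p0 p1 p2 : ℂ[X], Dg 2 p0 p1 p2 → io W x y p0 p1 p2 = 0 → p0 = 0 ∧ p1 = 0 ∧ p2 = 0)
    {N m l a b c d : ℂ[X]} (hN : N.natDegree ≤ 2) (h1 : Dg 1 m b (-a)) (h2 : Dg 1 l d (-c))
    (e0 : x * y = aeval W N) (e1 : x * x = io W x y m b (-a)) (e2 : y * y = io W x y l d (-c)) :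
    N = -(a * d) ∧ m = -(a * c) ∧ l = -(b * d) := by
  have ha : a.natDegree ≤ 1 := by simpa using h1.h2
  have hc : c.natDegree ≤ 1 := by simpa using h2.h2
  have k1 := inj (b * N - a * l) (-(a * d) - N) (m + a * c)
    ⟨natDegree_sub_le' (natDegree_mul_le' h1.h1 hN le_rfl) (natDegree_mul_le' ha h2.h0 le_rfl),
      natDegree_sub_le' (by rw [natDegree_neg]; exact natDegree_mul_le' ha h2.h1 le_rfl) hN,
      natDegree_add_le_of_degree_le h1.h0 (natDegree_mul_le' ha hc le_rfl)⟩ (by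
      simp only [io, map_sub, map_add, map_mul, map_neg] at e1 e2 ⊢
      linear_combination (-y) * e1 + (x - aeval W b) * e0 + aeval W a * e2)
  have k2 := inj (d * m - c * N) (l + b * d) (-(a * d) - N)
    ⟨natDegree_sub_le' (natDegree_mul_le' h2.h1 h1.h0 le_rfl) (natDegree_mul_le' hc hN le_rfl),
      natDegree_add_le_of_degree_le h2.h0 (natDegree_mul_le' h1.h1 h2.h1 le_rfl),
      natDegree_sub_le' (by rw [natDegree_neg]; exact natDegree_mul_le' ha h2.h1 le_rfl) hN⟩ (by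
      simp only [io, map_sub, map_add, map_mul, map_neg] at e1 e2 ⊢
      linear_combination (-x) * e2 + (y + aeval W c) * e0 - aeval W d * e1)
  refine ⟨?_, ?_, ?_⟩
  · linear_combination -k1.2.1
  · linear_combination k1.2.2
  · linear_combination k2.2.1

theorem exists_div (τ : ℂ) {p : ℂ[X]} {n : ℕ} (hp : p.natDegree ≤ n + 1) :
    ∃ z : ℂ[X], z.natDegree ≤ n ∧ p = (X - C τ) * z + C (p.eval τ) := by
  refine ⟨p /ₘ (X - C τ), ?_, ?_⟩
  · rw [natDegree_divByMonic p (monic_X_sub_C τ), natDegree_X_sub_C]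
    omega
  · rw [← modByMonic_X_sub_C_eq_C_eval, add_comm, modByMonic_add_div]

theorem aeval_lin (W : A) {p : ℂ[X]} (hp : p.natDegree ≤ 1) :
    aeval W p = p.coeff 0 • (1 : A) + p.coeff 1 • W := by
  rw [aeval_eq_sum_range' (Nat.lt_succ_of_le hp)]
  simp [Finset.sum_range_succ]

theorem eval_lin (τ : ℂ) {p : ℂ[X]} (hp : p.natDegree ≤ 1) :
    p.eval τ = p.coeff 0 + p.coeff 1 * τ := by
  rw [eval_eq_sum_range' (Nat.lt_succ_of_le hp)]
  simp [Finset.sum_range_succ]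

/-- the data used in the symmetry argument -/
structure Sy (lam : A →ₗ[ℂ] ℂ) (V1 V2 : Submodule ℂ A) (W x y : A) (a b c d : ℂ[X]) : Prop where
  kill : ∀ u ∈ V1, ∀ v ∈ V2, lam (u * v) = 0
  le : V1 ≤ V2
  h1 : (1 : A) ∈ V1
  hW : W ∈ V1
  hx : x ∈ V1
  hy : y ∈ V1
  hU : U W x y 1 ≤ V2
  ha : a.natDegree ≤ 1
  hb : b.natDegree ≤ 1
  hc : c.natDegree ≤ 1
  hd : d.natDegree ≤ 1
  e0 : x * y = -(aeval W a * aeval W d)
  e1 : x * x = -(aeval W a * aeval W c) + aeval W b * x - aeval W a * y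
  e2 : y * y = -(aeval W b * aeval W d) + aeval W d * x - aeval W c * y

theorem exists_Delta {lam : A →ₗ[ℂ] ℂ} {V1 V2 : Submodule ℂ A} {W x y : A} {a b c d : ℂ[X]}
    (S : Sy lam V1 V2 W x y a b c d) (τ : ℂ) {s0 s1 s2 v0 v1 v2 : ℂ[X]} (hs : Dg 2 s0 s1 s2)
    (hv : Dg 2 v0 v1 v2) (hr : io W x y (X * s0 - v0) (X * s1 - v1) (X * s2 - v2) = 0)
    (l1 : lam (io W x y s0 s1 s2) = 0) :
    ∃ Δ : A, (W - τ • (1 : A)) * Δ = -((X * s0 - v0).eval τ • (1 : A) +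
        (X * s1 - v1).eval τ • x + (X * s2 - v2).eval τ • y) ∧ lam Δ = 0 ∧
      lam (Δ * x) = lam (io W x y s0 s1 s2 * x) ∧ lam (Δ * y) = lam (io W x y s0 s1 s2 * y) ∧
      lam (Δ * (x * y)) = 0 ∧
      lam (Δ * (x * x)) = b.eval τ * lam (Δ * x) - a.eval τ * lam (Δ * y) ∧
      lam (Δ * (y * y)) = d.eval τ * lam (Δ * x) - c.eval τ * lam (Δ * y) := by
  have hC : ∀ {p : ℂ[X]} {n : ℕ}, p.natDegree ≤ n → (C τ * p).natDegree ≤ n := fun h =>
    (natDegree_C_mul_le _ _).trans h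
  obtain ⟨z0, hz0, f0⟩ := exists_div τ (natDegree_sub_le' (hC hs.h0) hv.h0)
  obtain ⟨z1, hz1, f1⟩ := exists_div τ (natDegree_sub_le' (hC hs.h1) hv.h1)
  obtain ⟨z2, hz2, f2⟩ := exists_div τ (natDegree_sub_le' (hC hs.h2) hv.h2)
  have hz : io W x y z0 z1 z2 ∈ V2 := S.hU (mem_U.2 ⟨z0, z1, z2, ⟨hz0, hz1, hz2⟩, rfl⟩)
  set Δ := io W x y s0 s1 s2 + io W x y z0 z1 z2 with hΔ
  have key : (W - τ • (1 : A)) * Δ = -((X * s0 - v0).eval τ • (1 : A) +
      (X * s1 - v1).eval τ • x + (X * s2 - v2).eval τ • y) := by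
    have g0 := congrArg (aeval W) f0
    have g1 := congrArg (aeval W) f1
    have g2 := congrArg (aeval W) f2
    simp only [io, map_sub, map_add, map_mul, aeval_X, aeval_C, eval_sub, eval_mul, eval_C, eval_X,
      Algebra.smul_def, mul_one, hΔ] at hr g0 g1 g2 ⊢
    linear_combination hr - g0 - x * g1 - y * g2
  have hV : ∀ u ∈ V1, lam (Δ * u) = lam (io W x y s0 s1 s2 * u) := fun u hu => by
    rw [hΔ, add_mul, map_add, mul_comm (io W x y z0 z1 z2), S.kill u hu _ hz, add_zero]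
  have hW : ∀ v ∈ V2, lam (Δ * (W * v)) = τ * lam (Δ * v) := fun v hv => by
    have h1 := S.kill _ (V1.add_mem (V1.add_mem (V1.smul_mem ((X * s0 - v0).eval τ) S.h1)
      (V1.smul_mem ((X * s1 - v1).eval τ) S.hx)) (V1.smul_mem ((X * s2 - v2).eval τ) S.hy)) v hv
    have h2 : Δ * (W * v) = τ • (Δ * v) + ((W - τ • (1 : A)) * Δ) * v := by
      simp only [Algebra.smul_def]
      ring
    rw [h2, key, neg_mul, map_add, map_neg, h1, map_smul, smul_eq_mul, neg_zero, add_zero]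
  have hp : ∀ {p : ℂ[X]}, p.natDegree ≤ 1 → ∀ v ∈ V2,
      lam (Δ * (aeval W p * v)) = p.eval τ * lam (Δ * v) := fun {p} h v hv => by
    have e : Δ * (aeval W p * v) = p.coeff 0 • (Δ * v) + p.coeff 1 • (Δ * (W * v)) := by
      rw [aeval_lin W h]
      simp only [Algebra.smul_def]
      ring
    rw [e, eval_lin τ h, map_add, map_smul, map_smul, hW v hv]
    simp only [smul_eq_mul]
    ring
  have l0 : lam Δ = 0 := by simpa [l1] using hV 1 S.h1
  have hq : ∀ {p q : ℂ[X]}, p.natDegree ≤ 1 → q.natDegree ≤ 1 →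
      lam (Δ * (aeval W p * aeval W q)) = 0 := fun {p q} h h' => by
    have hm : aeval W q ∈ V2 := by
      rw [aeval_lin W h']
      exact S.le (V1.add_mem (V1.smul_mem _ S.h1) (V1.smul_mem _ S.hW))
    have := hp h' 1 (S.le S.h1)
    rw [mul_one, mul_one, l0, mul_zero] at this
    rw [hp h _ hm, this, mul_zero]
  refine ⟨Δ, key, l0, hV x S.hx, hV y S.hy, ?_, ?_, ?_⟩
  · rw [S.e0, mul_neg, map_neg, hq S.ha S.hd, neg_zero]
  · rw [S.e1, mul_sub, mul_add, mul_neg, map_sub, map_add, map_neg, hq S.ha S.hc,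
      hp S.hb _ (S.le S.hx), hp S.ha _ (S.le S.hy)]
    ring
  · rw [S.e2, mul_sub, mul_add, mul_neg, map_sub, map_add, map_neg, hq S.hb S.hd,
      hp S.hd _ (S.le S.hx), hp S.hc _ (S.le S.hy)]
    ring

/-- the symmetry of the two quartic relations -/
theorem symm {lam : A →ₗ[ℂ] ℂ} {V1 V2 : Submodule ℂ A} {W x y : A} {a b c d : ℂ[X]}
    (S : Sy lam V1 V2 W x y a b c d) {s0 s1 s2 v0 v1 v2 s0' s1' s2' v0' v1' v2' : ℂ[X]}
    (hs : Dg 2 s0 s1 s2) (hv : Dg 2 v0 v1 v2) (hs' : Dg 2 s0' s1' s2') (hv' : Dg 2 v0' v1' v2')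
    (hr : io W x y (X * s0 - v0) (X * s1 - v1) (X * s2 - v2) = 0)
    (hr' : io W x y (X * s0' - v0') (X * s1' - v1') (X * s2' - v2') = 0)
    (l1 : lam (io W x y s0 s1 s2) = 0) (lx : lam (io W x y s0 s1 s2 * x) = 1)
    (ly : lam (io W x y s0 s1 s2 * y) = 0) (l1' : lam (io W x y s0' s1' s2') = 0)
    (lx' : lam (io W x y s0' s1' s2' * x) = 0) (ly' : lam (io W x y s0' s1' s2' * y) = 1) :
    X * s1' - v1' = X * s2 - v2 ∧
      X * s0 - v0 = (X * s2' - v2') * d + (X * s2 - v2) * c ∧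
      X * s0' - v0' = -((X * s1 - v1) * a) - (X * s2 - v2) * b := by
  have main : ∀ τ : ℂ, (X * s1' - v1').eval τ = (X * s2 - v2).eval τ ∧
      (X * s0 - v0).eval τ = ((X * s2' - v2') * d + (X * s2 - v2) * c).eval τ ∧
      (X * s0' - v0').eval τ = (-((X * s1 - v1) * a) - (X * s2 - v2) * b).eval τ := fun τ => by
    obtain ⟨Δ, k, d0, dx, dy, dxy, dxx, dyy⟩ := exists_Delta S τ hs hv hr l1
    obtain ⟨Δ', k', d0', dx', dy', dxy', dxx', dyy'⟩ := exists_Delta S τ hs' hv' hr' l1'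
    rw [lx] at dx
    rw [ly] at dy
    rw [lx'] at dx'
    rw [ly'] at dy'
    rw [dx, dy] at dxx dyy
    rw [dx', dy'] at dxx' dyy'
    generalize (X * s0 - v0).eval τ = r0 at *
    generalize (X * s0' - v0').eval τ = r0' at *
    have sy : ∀ e : A, r0' * lam (Δ * e) + (X * s1' - v1').eval τ * lam (Δ * (x * e)) +
        (X * s2' - v2').eval τ * lam (Δ * (y * e)) = r0 * lam (Δ' * e) +
        (X * s1 - v1).eval τ * lam (Δ' * (x * e)) + (X * s2 - v2).eval τ * lam (Δ' * (y * e)) :=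
      fun e => by
      simp only [← smul_eq_mul, ← map_smul, ← map_add]
      congr 1
      simp only [Algebra.smul_def, mul_one] at k k' ⊢
      linear_combination (Δ * e) * k' - (Δ' * e) * k
    have s1 := sy 1
    have s2 := sy x
    have s3 := sy y
    rw [mul_one, mul_one, mul_one, mul_one, d0, d0', dx, dy, dx', dy'] at s1
    rw [mul_comm y x, dx, dx', dxx, dxy, dxx', dxy'] at s2
    rw [dy, dy', dxy, dyy, dxy', dyy'] at s3
    simp only [eval_add, eval_sub, eval_neg, eval_mul] at s1 s2 s3 ⊢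
    refine ⟨?_, ?_, ?_⟩
    · linear_combination s1
    · linear_combination -s3
    · linear_combination s2 - b.eval τ * s1
  exact ⟨funext fun τ => (main τ).1, funext fun τ => (main τ).2.1, funext fun τ => (main τ).2.2⟩

/-- the bilinear form of `lam` -/
noncomputable def bil (lam : A →ₗ[ℂ] ℂ) : LinearMap.BilinForm ℂ A :=
  (LinearMap.mul ℂ A).compr₂ lam

theorem bil_nondeg {lam : A →ₗ[ℂ] ℂ} (perf : ∀ a, (∀ b, lam (a * b) = 0) → a = 0) :
    (bil lam).Nondegenerate :=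
  ⟨fun a h => perf a h, fun a h => perf a fun b => by rw [mul_comm]; exact h b⟩

theorem perp [Module.Finite ℂ A] {lam : A →ₗ[ℂ] ℂ} (perf : ∀ a, (∀ b, lam (a * b) = 0) → a = 0)
    {M N : Submodule ℂ A} (kill : ∀ u ∈ M, ∀ v ∈ N, lam (u * v) = 0)
    (hd : finrank ℂ M + finrank ℂ N = finrank ℂ A) {a : A} (ha : ∀ u ∈ M, lam (u * a) = 0) :
    a ∈ N := by
  have h1 : N ≤ (bil lam).orthogonal M := fun v hv u hu => kill u hu v hv
  have h2 := LinearMap.BilinForm.finrank_orthogonal (bil_nondeg perf) M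
  have h3 : N = (bil lam).orthogonal M := Submodule.eq_of_le_of_finrank_eq h1 (by omega)
  rw [h3]
  exact fun u hu => ha u hu

theorem exists_dual [Module.Finite ℂ A] {lam : A →ₗ[ℂ] ℂ}
    (perf : ∀ a, (∀ b, lam (a * b) = 0) → a = 0) {n : ℕ} {e : Fin n → A}
    (he : LinearIndependent ℂ e) (i : Fin n) :
    ∃ δ : A, ∀ j, lam (δ * e j) = if j = i then 1 else 0 := by
  obtain ⟨g, hg⟩ := LinearMap.exists_extend he.repr
  obtain ⟨δ, hδ⟩ := ((bil lam).toDual (bil_nondeg perf)).surjective ((Finsupp.lapply i).comp g)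
  refine ⟨δ, fun j => ?_⟩
  have h1 := LinearMap.congr_fun hδ (e j)
  have h2 := LinearMap.congr_fun hg ⟨e j, Submodule.subset_span ⟨j, rfl⟩⟩
  rw [he.repr_eq_single j _ rfl] at h2
  rw [LinearMap.BilinForm.toDual_def] at h1
  simp only [LinearMap.comp_apply, Submodule.subtype_apply, Finsupp.lapply_apply] at h1 h2
  rw [h2, Finsupp.single_apply] at h1
  exact h1

end Pool.Agent.P.MP_2b2d3b_ag.AGP
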