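import Pool.Agent.P.MP_2b2d3b_ag.AG1

/-!
Package AG, second part: normal forms modulo the three quadrics.
-/

namespace Pool.Agent.P.MP_2b2d3b_ag.AGP

open MvPolynomial Module

variable {A : Type} [CommRing A] [Algebra ℂ A]

/-- four linear forms that span -/
structure Fr (w w' o t : Pol ℂ) : Prop where
  hw : w.IsHomogeneous 1
  hw' : w'.IsHomogeneous 1
  ho : o.IsHomogeneous 1
  ht : t.IsHomogeneous 1
  span : ∀ l : Pol ℂ, l.IsHomogeneous 1 →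
    ∃ x0 x1 x2 x3 : ℂ, l = C x0 * w + C x1 * w' + C x2 * o + C x3 * t

theorem mem_V {ev : Pol ℂ →ₐ[ℂ] A} {d : ℕ} {a : A} :
    a ∈ V ev d ↔ ∃ b : Pol ℂ, b.IsHomogeneous d ∧ ev b = a := Iff.rfl

theorem finrank_Hd_one_le : finrank ℂ (Hd 1) ≤ 4 := by
  rw [Hd, homogeneousSubmodule_one_eq_span_X]
  exact (finrank_range_le_card (R := ℂ) (X : Fin 4 → Pol ℂ)).trans (by simp)

instance finite_Hd_one : Module.Finite ℂ (Hd 1) := by
  rw [Hd, homogeneousSubmodule_one_eq_span_X]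
  exact Module.Finite.span_of_finite ℂ (Set.finite_range _)

theorem exists_frame {ev : Pol ℂ →ₐ[ℂ] A} {w w' : Pol ℂ} (hw : w.IsHomogeneous 1)
    (hw' : w'.IsHomogeneous 1) (e1 : ev w = 1) (d1 : finrank ℂ (V ev 1) = 4)
    (hne : ∀ c : ℂ, ev w' ≠ c • (1 : A)) : ∃ o t, Fr w w' o t := by
  have h4 : finrank ℂ (Hd 1) = 4 := le_antisymm finrank_Hd_one_le
    (d1.ge.trans (Submodule.finrank_map_le _ _))
  have hli : LinearIndependent ℂ ![(⟨w', hw'⟩ : Hd 1), ⟨w, hw⟩] := by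
    rw [LinearIndependent.pair_iff]
    intro s r h
    have h1 : s • ev w' + r • (1 : A) = 0 := by
      have := congrArg (fun z : Hd 1 => ev z.1) h
      simpa [e1] using this
    have hs : s = 0 := by
      by_contra hs
      refine hne (-(s⁻¹ * r)) ?_
      have h2 := congrArg (fun z => s⁻¹ • z) h1
      simp only [smul_add, smul_smul, inv_mul_cancel₀ hs, one_smul, smul_zero] at h2
      rw [neg_smul]
      exact eq_neg_of_add_eq_zero_left h2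
    refine ⟨hs, ?_⟩
    by_contra hr
    rw [hs, zero_smul, zero_add] at h1
    have h2 := congrArg (fun z => r⁻¹ • z) h1
    simp only [smul_smul, inv_mul_cancel₀ hr, one_smul, smul_zero] at h2
    refine hne 0 ?_
    rw [zero_smul, ← mul_one (ev w'), h2, mul_zero]
  obtain ⟨o, ho⟩ := exists_linearIndependent_cons_of_lt_finrank hli (by omega)
  obtain ⟨t, ht⟩ := exists_linearIndependent_cons_of_lt_finrank ho (by omega)
  have hsp := ht.span_eq_top_of_card_eq_finrank (by simp [h4])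
  refine ⟨o, t, hw, hw', o.2, t.2, fun l hl => ?_⟩
  have hm : (⟨l, hl⟩ : Hd 1) ∈ (⊤ : Submodule ℂ (Hd 1)) := trivial
  rw [← hsp, Submodule.mem_span_range_iff_exists_fun] at hm
  obtain ⟨c, hc⟩ := hm
  refine ⟨c 3, c 2, c 1, c 0, ?_⟩
  have hc' : c 0 • t + c 1 • o + c 2 • (⟨w', hw'⟩ : Hd 1) + c 3 • (⟨w, hw⟩ : Hd 1) = ⟨l, hl⟩ :=
    (Fin.sum_univ_four fun i : Fin 4 => c i •
      (Fin.cons t (Fin.cons o ![(⟨w', hw'⟩ : Hd 1), ⟨w, hw⟩]) : Fin 4 → Hd 1) i).symm.trans hc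
  have h := congrArg (fun z : Hd 1 => z.1) hc'
  simp only [Submodule.coe_add, Submodule.coe_smul, smul_eq_C_mul] at h
  rw [← h]
  ring

theorem hm_lin (u w : Pol ℂ) (p : Polynomial ℂ) :
    hm u w p 1 = C (p.coeff 0) * w + C (p.coeff 1) * u := by
  simp [hm_eq_sum, Finset.sum_range_succ]

theorem hm_sub (u w : Pol ℂ) (p q : Polynomial ℂ) (n : ℕ) :
    hm u w (p - q) n = hm u w p n - hm u w q n := by
  simp [hm, Polynomial.homogenize_sub]

theorem hm_neg (u w : Pol ℂ) (p : Polynomial ℂ) (n : ℕ) : hm u w (-p) n = -hm u w p n := by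
  simp [hm, Polynomial.homogenize_neg]

theorem hm_succ (u w : Pol ℂ) {p : Polynomial ℂ} {n : ℕ} (hp : p.natDegree ≤ n) :
    hm u w p (n + 1) = w * hm u w p n := by
  rw [hm_add_deg u w hp, pow_one, mul_comm]

theorem hm_X_mul (u w : Pol ℂ) {p : Polynomial ℂ} {n : ℕ} (hp : p.natDegree ≤ n) :
    hm u w (Polynomial.X * p) (n + 1) = u * hm u w p n := by
  rw [mul_comm Polynomial.X, hm_mul u w hp Polynomial.natDegree_X_le, hm_X, mul_comm]

theorem Fr.shift {w w' o t : Pol ℂ} (h : Fr w w' o t) (p q : Polynomial ℂ) :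
    Fr w w' (o - hm w' w p 1) (t - hm w' w q 1) where
  hw := h.hw
  hw' := h.hw'
  ho := h.ho.sub (hm_hom h.hw' h.hw _ _)
  ht := h.ht.sub (hm_hom h.hw' h.hw _ _)
  span l hl := by
    obtain ⟨x0, x1, x2, x3, rfl⟩ := h.span l hl
    refine ⟨x0 + x2 * p.coeff 0 + x3 * q.coeff 0, x1 + x2 * p.coeff 1 + x3 * q.coeff 1, x2, x3, ?_⟩
    simp only [hm_lin, map_add, map_mul]
    ring

/-- the form of degree `n + 1` attached to a triple -/
noncomputable def lf (w w' o t : Pol ℂ) (n : ℕ) (p0 p1 p2 : Polynomial ℂ) : Pol ℂ :=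
  hm w' w p0 (n + 1) + hm w' w p1 n * o + hm w' w p2 n * t

section

variable {w w' o t : Pol ℂ}

theorem lf_hom (h : Fr w w' o t) (n : ℕ) (p0 p1 p2 : Polynomial ℂ) :
    (lf w w' o t n p0 p1 p2).IsHomogeneous (n + 1) :=
  ((hm_hom h.hw' h.hw _ _).add ((hm_hom h.hw' h.hw _ _).mul h.ho)).add
    ((hm_hom h.hw' h.hw _ _).mul h.ht)

theorem ev_lf {ev : Pol ℂ →ₐ[ℂ] A} (e1 : ev w = 1) {n : ℕ} {p0 p1 p2 : Polynomial ℂ}
    (hp : Dg n p0 p1 p2) :
    ev (lf w w' o t n p0 p1 p2) = io (ev w') (ev o) (ev t) p0 p1 p2 := by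
  rw [lf, map_add, map_add, map_mul, map_mul, aeval_hm ev e1 hp.h0, aeval_hm ev e1 hp.h1,
    aeval_hm ev e1 hp.h2, io]

theorem lf_w {n : ℕ} {p0 p1 p2 : Polynomial ℂ} (hp : Dg n p0 p1 p2) :
    lf w w' o t (n + 1) p0 p1 p2 = w * lf w w' o t n p0 p1 p2 := by
  rw [lf, lf, hm_succ _ _ hp.h0, hm_succ _ _ hp.h1, hm_succ _ _ hp.h2]
  ring

theorem lf_w' {n : ℕ} {p0 p1 p2 : Polynomial ℂ} (hp : Dg n p0 p1 p2) :
    lf w w' o t (n + 1) (Polynomial.X * p0) (Polynomial.X * p1) (Polynomial.X * p2) =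
      w' * lf w w' o t n p0 p1 p2 := by
  rw [lf, lf, hm_X_mul _ _ hp.h0, hm_X_mul _ _ hp.h1, hm_X_mul _ _ hp.h2]
  ring

theorem lf_add (n : ℕ) (p0 p1 p2 q0 q1 q2 : Polynomial ℂ) :
    lf w w' o t n (p0 + q0) (p1 + q1) (p2 + q2) =
      lf w w' o t n p0 p1 p2 + lf w w' o t n q0 q1 q2 := by
  simp only [lf, hm_add]
  ring

theorem lf_sub (n : ℕ) (p0 p1 p2 q0 q1 q2 : Polynomial ℂ) :
    lf w w' o t n (p0 - q0) (p1 - q1) (p2 - q2) =
      lf w w' o t n p0 p1 p2 - lf w w' o t n q0 q1 q2 := by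
  simp only [lf, hm_sub]
  ring

theorem nf_one (h : Fr w w' o t) {l : Pol ℂ} (hl : l.IsHomogeneous 1) :
    ∃ p0 p1 p2, Dg 0 p0 p1 p2 ∧ l = lf w w' o t 0 p0 p1 p2 := by
  obtain ⟨x0, x1, x2, x3, rfl⟩ := h.span l hl
  refine ⟨Polynomial.C x0 + Polynomial.C x1 * Polynomial.X, Polynomial.C x2, Polynomial.C x3,
    ⟨by compute_degree, by simp, by simp⟩, ?_⟩
  simp [lf, hm_lin, hm_C, Polynomial.coeff_X, Polynomial.coeff_C]

theorem V_one_le {ev : Pol ℂ →ₐ[ℂ] A} (h : Fr w w' o t) (e1 : ev w = 1) :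
    V ev 1 ≤ U (ev w') (ev o) (ev t) 0 := by
  rintro _ ⟨l, hl, rfl⟩
  obtain ⟨p0, p1, p2, hp, rfl⟩ := nf_one h hl
  exact mem_U.2 ⟨p0, p1, p2, hp, (ev_lf e1 hp).symm⟩

theorem U_le_V {ev : Pol ℂ →ₐ[ℂ] A} (h : Fr w w' o t) (e1 : ev w = 1) (n : ℕ) :
    U (ev w') (ev o) (ev t) n ≤ V ev (n + 1) := fun a ha => by
  obtain ⟨p0, p1, p2, hp, rfl⟩ := mem_U.1 ha
  exact ⟨_, lf_hom h n p0 p1 p2, ev_lf e1 hp⟩

theorem hom_succ_induction {n : ℕ} {Q : Pol ℂ → Prop} {b : Pol ℂ} (hb : b.IsHomogeneous (n + 1))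
    (h1 : ∀ m l : Pol ℂ, m.IsHomogeneous n → l.IsHomogeneous 1 → Q (m * l))
    (h2 : ∀ x y, Q x → Q y → Q (x + y)) : Q b := by
  have hb' : b ∈ homogeneousSubmodule (Fin 4) ℂ (n + 1) := hb
  rw [← homogeneousSubmodule_one_pow, pow_succ, homogeneousSubmodule_one_pow] at hb'
  exact Submodule.mul_induction_on hb' (fun m hm l hl => h1 m l hm hl) h2

/-- `b` lies in `w P_n + w' P_n + J` -/
def Lf (w w' : Pol ℂ) (J : Ideal (Pol ℂ)) (n : ℕ) (b : Pol ℂ) : Prop :=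
  ∃ b1 b2 : Pol ℂ, b1.IsHomogeneous n ∧ b2.IsHomogeneous n ∧ b - w * b1 - w' * b2 ∈ J

variable {J : Ideal (Pol ℂ)}

theorem Lf.add {n : ℕ} {b b' : Pol ℂ} (h : Lf w w' J n b) (h' : Lf w w' J n b') :
    Lf w w' J n (b + b') := by
  obtain ⟨b1, b2, h1, h2, h3⟩ := h
  obtain ⟨c1, c2, k1, k2, k3⟩ := h'
  refine ⟨b1 + c1, b2 + c2, h1.add k1, h2.add k2, ?_⟩
  convert J.add_mem h3 k3 using 1
  ring

theorem Lf.mul {n k : ℕ} {b c : Pol ℂ} (h : Lf w w' J n b) (hc : c.IsHomogeneous k) :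
    Lf w w' J (n + k) (b * c) := by
  obtain ⟨b1, b2, h1, h2, h3⟩ := h
  refine ⟨b1 * c, b2 * c, h1.mul hc, h2.mul hc, ?_⟩
  convert J.mul_mem_right c h3 using 1
  ring

theorem Lf.C_mul {n : ℕ} {b : Pol ℂ} (h : Lf w w' J n b) (r : ℂ) : Lf w w' J n (C r * b) := by
  simpa [mul_comm] using h.mul (isHomogeneous_C _ r)

theorem Lf.of_mem {n : ℕ} {b : Pol ℂ} (h : b ∈ J) : Lf w w' J n b :=
  ⟨0, 0, isHomogeneous_zero _ _ _, isHomogeneous_zero _ _ _, by simpa using h⟩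

theorem Lf.w_mul {n : ℕ} {b : Pol ℂ} (h : b.IsHomogeneous n) : Lf w w' J n (w * b) :=
  ⟨b, 0, h, isHomogeneous_zero _ _ _, by simp⟩

theorem Lf.w'_mul {n : ℕ} {b : Pol ℂ} (h : b.IsHomogeneous n) : Lf w w' J n (w' * b) :=
  ⟨0, b, isHomogeneous_zero _ _ _, h, by simp⟩

theorem Lf.hm_mul {n : ℕ} {b : Pol ℂ} (p : Polynomial ℂ) (h : b.IsHomogeneous n) :
    Lf w w' J n (hm w' w p 1 * b) := by
  rw [hm_lin, add_mul, mul_assoc, mul_assoc]
  exact ((Lf.w_mul h).C_mul _).add ((Lf.w'_mul h).C_mul _)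

/-- the three quadrics lie in `J` -/
structure Qd (w w' o t : Pol ℂ) (a b c d : Polynomial ℂ) (J : Ideal (Pol ℂ)) : Prop where
  e0 : o * t + hm w' w a 1 * hm w' w d 1 ∈ J
  e1 : o * o + hm w' w a 1 * (hm w' w c 1 + t) - hm w' w b 1 * o ∈ J
  e2 : t * t + hm w' w d 1 * (hm w' w b 1 - o) + hm w' w c 1 * t ∈ J

variable {a b c d : Polynomial ℂ}

theorem lf_two (h : Fr w w' o t) (hq : Qd w w' o t a b c d J) {l l' : Pol ℂ}
    (hl : l.IsHomogeneous 1) (hl' : l'.IsHomogeneous 1) : Lf w w' J 1 (l * l') := by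
  have hh := fun p => hm_hom h.hw' h.hw p 1
  have k0 : Lf w w' J 1 (o * t) := by
    convert (Lf.of_mem hq.e0).add (Lf.hm_mul a (hh d).neg) using 1
    ring
  have k1 : Lf w w' J 1 (o * o) := by
    convert ((Lf.of_mem hq.e1).add (Lf.hm_mul a ((hh c).add h.ht).neg)).add
      (Lf.hm_mul b h.ho) using 1
    ring
  have k2 : Lf w w' J 1 (t * t) := by
    convert ((Lf.of_mem hq.e2).add (Lf.hm_mul d ((hh b).sub h.ho).neg)).add
      (Lf.hm_mul c h.ht.neg) using 1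
    ring
  obtain ⟨x0, x1, x2, x3, e⟩ := h.span l hl
  obtain ⟨y0, y1, y2, y3, e'⟩ := h.span l' hl'
  have k3 : Lf w w' J 1 (o * l') := by
    convert ((((Lf.w_mul h.ho).C_mul y0).add ((Lf.w'_mul h.ho).C_mul y1)).add
      (k1.C_mul y2)).add (k0.C_mul y3) using 1
    rw [e']
    ring
  have k4 : Lf w w' J 1 (t * l') := by
    convert ((((Lf.w_mul h.ht).C_mul y0).add ((Lf.w'_mul h.ht).C_mul y1)).add
      (k0.C_mul y2)).add (k2.C_mul y3) using 1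
    rw [e']
    ring
  convert ((((Lf.w_mul hl').C_mul x0).add ((Lf.w'_mul hl').C_mul x1)).add
    (k3.C_mul x2)).add (k4.C_mul x3) using 1
  rw [e]
  ring

theorem lf_all (h : Fr w w' o t) (hq : Qd w w' o t a b c d J) (n : ℕ) :
    ∀ f : Pol ℂ, f.IsHomogeneous (n + 2) → Lf w w' J (n + 1) f := by
  induction n with
  | zero =>
    exact fun f hf => hom_succ_induction hf (fun m l hm hl => lf_two h hq hm hl)
      fun x y hx hy => hx.add hy
  | succ n ih =>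
    exact fun f hf => hom_succ_induction hf (fun m l hm hl => (ih m hm).mul hl)
      fun x y hx hy => hx.add hy

theorem nf (h : Fr w w' o t) (hq : Qd w w' o t a b c d J) (n : ℕ) :
    ∀ f : Pol ℂ, f.IsHomogeneous (n + 1) →
      ∃ p0 p1 p2, Dg n p0 p1 p2 ∧ f - lf w w' o t n p0 p1 p2 ∈ J := by
  induction n with
  | zero =>
    intro f hf
    obtain ⟨p0, p1, p2, hp, e⟩ := nf_one h hf
    exact ⟨p0, p1, p2, hp, by rw [← e, sub_self]; exact J.zero_mem⟩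
  | succ n ih =>
    intro f hf
    obtain ⟨b1, b2, h1, h2, h3⟩ := lf_all h hq n f hf
    obtain ⟨p0, p1, p2, hp, k1⟩ := ih b1 h1
    obtain ⟨q0, q1, q2, hq, k2⟩ := ih b2 h2
    refine ⟨_, _, _, hp.mono.add hq.X_mul, ?_⟩
    rw [lf_add, lf_w hp, lf_w' hq]
    convert J.add_mem (J.add_mem h3 (J.mul_mem_left w k1)) (J.mul_mem_left w' k2) using 1
    ring

theorem cubic_mem {ev : Pol ℂ →ₐ[ℂ] A} (h : Fr w w' o t) (hq : Qd w w' o t a b c d J)
    (e1 : ev w = 1) (hJ : ∀ j ∈ J, ev j = 0)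
    (inj : ∀ p0 p1 p2, Dg 2 p0 p1 p2 → io (ev w') (ev o) (ev t) p0 p1 p2 = 0 →
      p0 = 0 ∧ p1 = 0 ∧ p2 = 0) {f : Pol ℂ} (hf : f.IsHomogeneous 3) (h0 : ev f = 0) : f ∈ J := by
  obtain ⟨p0, p1, p2, hp, k⟩ := nf h hq 2 f hf
  have := hJ _ k
  rw [map_sub, h0, ev_lf e1 hp, zero_sub, neg_eq_zero] at this
  obtain ⟨rfl, rfl, rfl⟩ := inj _ _ _ hp this
  simpa [lf, hm_zero] using k

end

end Pool.Agent.P.MP_2b2d3b_ag.AGP
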