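import Pool.Agent.P.MP_2b2d3b_ag.Param

/-!
Irreducibility of the plane sections over any field, and smoothness as an ideal membership.
-/

namespace Pool.Agent.P.MP_2b2d3b_ag

open Polynomial

theorem exists_algHom (R : Type) [CommRing R] [Algebra ℂ R] [Algebra.FiniteType ℂ R]
    (I : Ideal R) (hI : I ≠ ⊤) : ∃ t : R →ₐ[ℂ] ℂ, ∀ a ∈ I, t a = 0 := by
  obtain ⟨m, hm, hle⟩ := Ideal.exists_le_maximal I hI
  let := Ideal.Quotient.field m
  have h1 : Module.Finite ℂ (R ⧸ m) := finite_of_finite_type_of_isJacobsonRing ℂ (R ⧸ m)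
  have h2 : Function.Bijective (algebraMap ℂ (R ⧸ m)) :=
    IsAlgClosed.algebraMap_bijective_of_isIntegral
  let e : ℂ ≃ₐ[ℂ] (R ⧸ m) := AlgEquiv.ofBijective (Algebra.ofId ℂ (R ⧸ m)) h2
  refine ⟨(e.symm : (R ⧸ m) →ₐ[ℂ] ℂ).comp (Ideal.Quotient.mkₐ ℂ m), fun a ha => ?_⟩
  simp [Ideal.Quotient.eq_zero_iff_mem.mpr (hle ha)]

section Hom

variable {B : Type} [CommRing B] {g g' : Matrix (Fin 4) (Fin 4) B}

/-- homogenisation of an ideal membership -/
theorem hom_mem (hg : g * g' = 1) {P F H : Pol B} {d a b : ℕ} (hP : P.IsHomogeneous d)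
    (hF : F.IsHomogeneous a) (hH : H.IsHomogeneous b) {r s : B[X][X]}
    (h : rho g P = rho g F * r + rho g H * s) :
    ∃ (k : ℕ) (R S T : Pol B), linForm (g' 0) ^ k * P = F * R + H * S + linForm (g' 3) * T ∧
      ∃ n, R.IsHomogeneous n ∧ rho g R = r := by
  obtain ⟨N1, h1⟩ := exists_hom_ge hg r
  obtain ⟨N2, h2⟩ := exists_hom_ge hg s
  obtain ⟨R, hR, hR'⟩ := h1 (N1 + N2 + d + b) (by omega)
  obtain ⟨S, hS, hS'⟩ := h2 (N1 + N2 + d + a) (by omega)
  have h3 : (linForm (g' 0) ^ (N1 + N2 + a + b) * P - (F * R + H * S)).IsHomogeneous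
      (N1 + N2 + a + b + d) := by
    refine MvPolynomial.IsHomogeneous.sub ?_ (MvPolynomial.IsHomogeneous.add ?_ ?_)
    · simpa using ((linForm_hom (g' 0)).pow (N1 + N2 + a + b)).mul hP
    · convert hF.mul hR using 1; omega
    · convert hH.mul hS using 1; omega
  obtain ⟨T, hT⟩ := Ideal.mem_span_singleton'.mp (mem_of_rho_eq_zero hg h3
    (by simp [rho_U0 hg, hR', hS', h]))
  exact ⟨N1 + N2 + a + b, R, S, T, by linear_combination -hT, _, hR, hR'⟩

theorem rho_mem (hg : g * g' = 1) {F P : Pol B} (h : P ∈ Ideal.span {F, linForm (g' 3)}) :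
    rho g F ∣ rho g P := by
  obtain ⟨a, b, rfl⟩ := Ideal.mem_span_pair.mp h
  simp [rho_U3 hg]

theorem linForm_ne_zero [Nontrivial B] (hg : g * g' = 1) (k : Fin 4) : linForm (g' k) ≠ 0 :=
  fun h => one_ne_zero (U_regular hg k 1 (by rw [h, zero_mul]))

end Hom

theorem prime_C {F : Pol ℂ} (hF : GoodSextic F) (v : Pt ℂ) (e1 : v.g * v.g' = 1)
    (e2 : v.tau * MvPolynomial.eval (fun i => v.g i 2) F = 1) : Prime (v.f F) := by
  have hp := hF.sections _ (linForm_hom (v.g' 3)) (linForm_ne_zero e1 3)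
  have hu : IsUnit (C (C v.tau) : ℂ[X][X]) :=
    ((IsUnit.of_mul_eq_one _ e2).map C).map C
  have hm := Pt.f_monic hF.homog e2
  have hd := Pt.natDegree_f hF.homog e2
  have hnu : ¬ IsUnit (v.f F) := fun h => by
    rw [natDegree_eq_zero_of_isUnit h] at hd; omega
  have key : ∀ P, P ∈ Ideal.span {F, linForm (v.g' 3)} → v.f F ∣ rho v.g P := fun P hP =>
    (hu.mul_left_dvd).mpr (rho_mem e1 hP)
  refine ⟨hm.ne_zero, hnu, fun a b ⟨s, hs⟩ => ?_⟩
  obtain ⟨N1, h1⟩ := exists_hom_ge e1 a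
  obtain ⟨N2, h2⟩ := exists_hom_ge e1 b
  obtain ⟨A, hA, rfl⟩ := h1 N1 le_rfl
  obtain ⟨A', hA', rfl⟩ := h2 N2 le_rfl
  obtain ⟨k, R, S, T, h, -⟩ := hom_mem e1 (hA.mul hA') hF.homog
    (MvPolynomial.isHomogeneous_zero _ _ 0) (r := C (C v.tau) * s) (s := 0)
    (by rw [map_mul, hs, Pt.f]; ring)
  have h3 : linForm (v.g' 0) ^ k * (A * A') ∈ Ideal.span {F, linForm (v.g' 3)} :=
    Ideal.mem_span_pair.mpr ⟨R, T, by rw [h]; ring⟩
  rcases hp.mem_or_mem h3 with h4 | h4
  · have := key _ h4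
    rw [map_pow, rho_U0 e1, one_pow] at this
    exact absurd (isUnit_of_dvd_one this) hnu
  · exact (hp.mem_or_mem h4).imp (key _) (key _)

theorem map_e1 {B B' : Type} [CommRing B] [CommRing B'] (φ : B →+* B')
    {g g' : Matrix (Fin 4) (Fin 4) B} (h : g * g' = 1) : g.map φ * g'.map φ = 1 := by
  rw [← Matrix.map_mul, h, Matrix.map_one _ (map_zero φ) (map_one φ)]

theorem eval_map_col {B B' : Type} [CommRing B] [CommRing B'] (φ : B →+* B') (p : Fin 4 → B)
    (F : Pol B) : MvPolynomial.eval (fun i => φ (p i)) (MvPolynomial.map φ F) =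
      φ (MvPolynomial.eval p F) := by
  rw [MvPolynomial.eval_map, MvPolynomial.eval, MvPolynomial.coe_eval₂Hom,
    MvPolynomial.eval₂_comp_left]
  rfl

theorem map_map_alg {R S : Type} [CommRing R] [CommRing S] [Algebra ℂ R] [Algebra ℂ S]
    (φ : R →ₐ[ℂ] S) (F : Pol ℂ) :
    MvPolynomial.map (φ : R →+* S) (MvPolynomial.map (algebraMap ℂ R) F) =
      MvPolynomial.map (algebraMap ℂ S) F := by
  rw [MvPolynomial.map_map, AlgHom.comp_algebraMap]

theorem map_alg_self (F : Pol ℂ) : MvPolynomial.map (algebraMap ℂ ℂ) F = F :=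
  MvPolynomial.map_id F

theorem irreducible_f {F : Pol ℂ} (hF : GoodSextic F) {L : Type} [Field L] [Algebra ℂ L]
    (v : Pt L) (e1 : v.g * v.g' = 1)
    (e2 : v.tau * MvPolynomial.eval (fun i => v.g i 2) (MvPolynomial.map (algebraMap ℂ L) F) = 1) :
    Irreducible (v.f (MvPolynomial.map (algebraMap ℂ L) F)) := by
  classical
  have hm := Pt.f_monic (hF.homog.map _) e2
  have hd := Pt.natDegree_f (hF.homog.map _) e2
  rw [hm.irreducible_iff_natDegree]
  refine ⟨fun h => by rw [h, natDegree_one] at hd; omega, fun a b ha hb hab => ?_⟩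
  let S : Finset L := (Finset.univ.image v.coord ∪ a.coeffs.biUnion coeffs) ∪
    b.coeffs.biUnion coeffs
  let R := Algebra.adjoin ℂ (S : Set L)
  have : Algebra.FiniteType ℂ R := (Subalgebra.fg_iff_finiteType _).mp ⟨S, rfl⟩
  obtain ⟨t, -⟩ := exists_algHom R ⊥ bot_ne_top
  have hl : ∀ p : L[X][X], p.coeffs.biUnion coeffs ⊆ S →
      p ∈ lifts (mapRingHom (R.val : R →+* L)) := fun p hp => by
    rw [lifts_iff_coeffs_subset_range]
    intro q hq
    have : q ∈ lifts (R.val : R →+* L) := by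
      rw [lifts_iff_coeffs_subset_range]
      intro c hc
      exact ⟨⟨c, Algebra.subset_adjoin (hp (Finset.mem_biUnion.mpr ⟨q, hq, hc⟩))⟩, rfl⟩
    exact (mem_lifts _).mp this
  obtain ⟨a', ha0, ha1, ha2⟩ := lifts_and_natDegree_eq_and_monic
    (hl a (Finset.subset_union_right.trans Finset.subset_union_left)) ha
  obtain ⟨b', hb0, hb1, hb2⟩ := lifts_and_natDegree_eq_and_monic
    (hl b Finset.subset_union_right) hb
  let v' : Pt R := Pt.ofCoord fun i => ⟨v.coord i, Algebra.subset_adjoin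
    (Finset.mem_union_left _ (Finset.mem_union_left _ (Finset.mem_image_of_mem _
      (Finset.mem_univ i))))⟩
  have hv : v'.map (R.val : R →+* L) = v := rfl
  have hinj : Function.Injective (R.val : R →+* L) := Subtype.val_injective
  have e1' : v'.g * v'.g' = 1 := by
    apply Matrix.map_injective hinj
    simp only [Matrix.map_mul]
    rw [Matrix.map_one _ (map_zero _) (map_one _)]
    exact e1
  have e2' : v'.tau * MvPolynomial.eval (fun i => v'.g i 2)
      (MvPolynomial.map (algebraMap ℂ R) F) = 1 := by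
    apply hinj
    rw [map_mul, ← eval_map_col, map_map_alg, map_one]
    exact e2
  have hab' : a' * b' = v'.f (MvPolynomial.map (algebraMap ℂ R) F) := by
    apply map_injective (mapRingHom (R.val : R →+* L)) (map_injective _ hinj)
    rw [← Pt.map_f, map_map_alg, hv, Polynomial.map_mul, ha0, hb0, hab]
  have h3 := congrArg (Polynomial.map (mapRingHom (t : R →+* ℂ))) hab'
  rw [← Pt.map_f, map_map_alg, map_alg_self, Polynomial.map_mul] at h3
  have e2'' : (v'.map (t : R →+* ℂ)).tau *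
      MvPolynomial.eval (fun i => (v'.map (t : R →+* ℂ)).g i 2) F = 1 := by
    have := congrArg (t : R →+* ℂ) e2'
    rw [map_mul, ← eval_map_col, map_map_alg, map_alg_self, map_one] at this
    exact this
  have hp := (prime_C hF (v'.map (t : R →+* ℂ)) (map_e1 _ e1') e2'').irreducible
  rw [(Pt.f_monic hF.homog e2'').irreducible_iff_natDegree] at hp
  have := hp.2 _ _ (ha2.map _) (hb2.map _) h3
  rwa [ha2.natDegree_map, hb2.natDegree_map, ha1, hb1] at this

theorem prime_f {F : Pol ℂ} (hF : GoodSextic F) {W : Type} [CommRing W] [IsDomain W] [Algebra ℂ W]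
    (v : Pt W) (e1 : v.g * v.g' = 1)
    (e2 : v.tau * MvPolynomial.eval (fun i => v.g i 2) (MvPolynomial.map (algebraMap ℂ W) F) = 1) :
    Prime (v.f (MvPolynomial.map (algebraMap ℂ W) F)) := by
  let L := FractionRing W
  let φ : W →ₐ[ℂ] L := IsScalarTower.toAlgHom ℂ W L
  have hinj : Function.Injective (φ : W →+* L) := IsFractionRing.injective W L
  have hm := Pt.f_monic (hF.homog.map _) e2
  have hd := Pt.natDegree_f (hF.homog.map _) e2
  have hp := (irreducible_f hF (v.map (φ : W →+* L)) (map_e1 _ e1) (by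
    have := congrArg (φ : W →+* L) e2
    rw [map_mul, ← eval_map_col, map_map_alg, map_one] at this
    exact this)).prime
  rw [← map_map_alg φ, Pt.map_f] at hp
  have key : ∀ a, (v.f (MvPolynomial.map (algebraMap ℂ W) F)).map (mapRingHom (φ : W →+* L)) ∣
      a.map (mapRingHom (φ : W →+* L)) → v.f (MvPolynomial.map (algebraMap ℂ W) F) ∣ a :=
    fun a h => (map_dvd_map _ (map_injective _ hinj) hm).mp h
  refine ⟨hm.ne_zero, fun h => by rw [natDegree_eq_zero_of_isUnit h] at hd; omega,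
    fun a b hab => ?_⟩
  have := map_dvd (mapRingHom (φ : W →+* L)) hab
  rw [Polynomial.map_mul] at this
  exact (hp.dvd_or_dvd this).imp (key _) (key _)

theorem smooth_mem {F : Pol ℂ} (hF : GoodSextic F) (i : Fin 4) :
    ∃ (N : ℕ) (a : Pol ℂ) (b : Fin 4 → Pol ℂ),
      MvPolynomial.X i ^ N = a * F + ∑ j, b j * MvPolynomial.pderiv j F := by
  let I : Ideal (Pol ℂ) := Ideal.span {F} ⊔ Ideal.span (Set.range fun j => MvPolynomial.pderiv j F)
  have : MvPolynomial.X i ∈ I.radical := by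
    rw [← MvPolynomial.vanishingIdeal_zeroLocus_eq_radical (K := ℂ)]
    intro p hp
    by_contra hne
    have hp0 : p ≠ 0 := fun h => hne (by simp [h])
    obtain ⟨j, hj⟩ := hF.smooth p hp0
      (hp F (Ideal.mem_sup_left (Ideal.mem_span_singleton_self F)))
    exact hj (hp _ (Ideal.mem_sup_right (Ideal.subset_span ⟨j, rfl⟩)))
  obtain ⟨N, hN⟩ := this
  obtain ⟨x, hx, y, hy, h⟩ := Submodule.mem_sup.mp hN
  obtain ⟨a, rfl⟩ := Ideal.mem_span_singleton'.mp hx
  obtain ⟨b, rfl⟩ := Ideal.mem_span_range_iff_exists_fun.mp hy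
  exact ⟨N, a, b, h.symm⟩

theorem smooth_field {F : Pol ℂ} (hF : GoodSextic F) {K : Type} [Field K] [Algebra ℂ K]
    (p : Fin 4 → K) (hp : p ≠ 0) (h : MvPolynomial.aeval p F = 0) :
    ∃ i, MvPolynomial.aeval p (MvPolynomial.pderiv i F) ≠ 0 := by
  by_contra hne
  push Not at hne
  apply hp
  funext i
  obtain ⟨N, a, b, hN⟩ := smooth_mem hF i
  have := congrArg (MvPolynomial.aeval p) hN
  simp only [map_pow, MvPolynomial.aeval_X, map_add, map_mul, h, map_sum, hne, mul_zero,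
    Finset.sum_const_zero, add_zero] at this
  exact eq_zero_of_pow_eq_zero this

theorem smooth_prime {F : Pol ℂ} (hF : GoodSextic F) {B : Type} [CommRing B] [Algebra ℂ B]
    (q : Ideal (Pol B)) (hq : q.IsPrime) (hi : ∃ i, MvPolynomial.X i ∉ q)
    (h : MvPolynomial.map (algebraMap ℂ B) F ∈ q) :
    ∃ j, MvPolynomial.pderiv j (MvPolynomial.map (algebraMap ℂ B) F) ∉ q := by
  by_contra hne
  push Not at hne
  obtain ⟨i, hi⟩ := hi
  obtain ⟨N, a, b, hN⟩ := smooth_mem hF i
  have := congrArg (MvPolynomial.map (algebraMap ℂ B)) hN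
  simp only [map_pow, MvPolynomial.map_X, map_add, map_mul, map_sum,
    ← MvPolynomial.pderiv_map] at this
  refine hi (hq.mem_of_pow_mem N ?_)
  rw [this]
  exact q.add_mem (q.mul_mem_left _ h) (q.sum_mem fun j _ => q.mul_mem_left _ (hne j))

end Pool.Agent.P.MP_2b2d3b_ag
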