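import Pool.Agent.P.MP_2b2d3b_ag.Mod
import Pool.Agent.P.MP_2b2d3b_ag.Irr

/-!
The module attached to a point of the parameter space is a bundle.
-/

namespace Pool.Agent.P.MP_2b2d3b_ag

open Polynomial

variable {B : Type} [CommRing B]

theorem mem_three {R : Type} [CommRing R] {F l Y P : R} :
    P ∈ Ideal.span {F, l} ⊔ Ideal.span {Y} ↔ ∃ a b c, P = F * a + Y * b + l * c := by
  constructor
  · intro h
    obtain ⟨x, hx, y, hy, rfl⟩ := Submodule.mem_sup.mp h
    obtain ⟨a, c, rfl⟩ := Ideal.mem_span_pair.mp hx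
    obtain ⟨b, rfl⟩ := Ideal.mem_span_singleton'.mp hy
    exact ⟨a, b, c, by ring⟩
  · rintro ⟨a, b, c, rfl⟩
    exact Submodule.mem_sup.mpr ⟨F * a + l * c, Ideal.mem_span_pair.mpr ⟨a, c, by ring⟩, Y * b,
      Ideal.mem_span_singleton'.mpr ⟨b, by ring⟩, by ring⟩

theorem cancel_mod {R : Type} [CommRing R] {f : R[X]} (hf : f.Monic) {u v : R}
    (h : ∀ a s, u * a = v * s → v ∣ a) {p r s : R[X]} (e : C u * p = f * r + C v * s) :
    ∃ r' s', p = f * r' + C v * s' := by
  have e1 := congrArg (· %ₘ f) e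
  simp only [add_modByMonic, self_mul_modByMonic hf, zero_add, ← smul_eq_C_mul,
    smul_modByMonic] at e1
  obtain ⟨s', hs'⟩ : C v ∣ p %ₘ f := by
    rw [C_dvd_iff_dvd_coeff]
    intro n
    have := congrArg (fun q => q.coeff n) e1
    simp only [coeff_smul, smul_eq_mul] at this
    exact h _ _ this
  exact ⟨p /ₘ f, s', by rw [← hs', add_comm, modByMonic_add_div]⟩

section Frame

variable {g g' : Matrix (Fin 4) (Fin 4) B} {tau : B} {F : Pol B}

theorem fh_monic (hF : F.IsHomogeneous 6) (e2 : tau * MvPolynomial.eval (fun i => g i 2) F = 1) :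
    (C (C (C tau)) * rhoh g F).Monic := by
  refine Pt.f_monic (v := ⟨gw g, gw g, C tau, 0, 0, 0, 0⟩) (F := MvPolynomial.map C F)
    (hF.map _) ?_
  have : (fun i => gw g i 2) = fun i => C (g i 2) := by
    funext i; simp [gw]
  change C tau * MvPolynomial.eval (fun i => gw g i 2) _ = 1
  rw [this, eval_map_col, ← map_mul, e2, map_one]

theorem l_cancel (hg : g * g' = 1) (hF : F.IsHomogeneous 6)
    (e2 : tau * MvPolynomial.eval (fun i => g i 2) F = 1) (a : Pol B)
    (h : linForm (g' 3) * a ∈ Ideal.span {F}) : a ∈ Ideal.span {F} := by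
  obtain ⟨b, hb⟩ := Ideal.mem_span_singleton'.mp h
  have h1 := congrArg (rhoh g) hb
  rw [map_mul, map_mul, rhoh_U hg] at h1
  have h2 : rhoh g b = 0 := (fh_monic hF e2).mul_right_eq_zero_iff.mp (by
    rw [mul_assoc, mul_comm (rhoh g F), h1]; simp)
  have h3 := (mem_iff_rhoh hg ∅ b).mpr (by rw [h2]; exact zero_mem _)
  rw [Ideal.span_empty, bot_sup_eq] at h3
  obtain ⟨c, rfl⟩ := Ideal.mem_span_singleton'.mp h3
  have h4 := U_regular hg 3 (a - c * F) (by linear_combination -hb)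
  exact Ideal.mem_span_singleton'.mpr ⟨c, by linear_combination -h4⟩

theorem U_cancel (hg : g * g' = 1) (hF : F.IsHomogeneous 6)
    (e2 : tau * MvPolynomial.eval (fun i => g i 2) F = 1) {Z Y : Pol B} {u v : B[X][X]}
    (hZ : rhoh g Z = C u) (hY : rhoh g Y = C v) (h : ∀ a s, u * a = v * s → v ∣ a) {P : Pol B}
    (hP : Z * P ∈ Ideal.span {F, linForm (g' 3)} ⊔ Ideal.span {Y}) :
    P ∈ Ideal.span {F, linForm (g' 3)} ⊔ Ideal.span {Y} := by
  obtain ⟨a, b, c, e⟩ := mem_three.mp hP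
  have e1 := congrArg (rhoh g) e
  simp only [map_add, map_mul, hZ, hY, rhoh_U hg] at e1
  have e3 : (C (C (C tau)) * C (C (C (MvPolynomial.eval (fun i => g i 2) F))) : B[X][X][X]) = 1 := by
    rw [← map_mul, ← map_mul, ← map_mul, e2]; simp
  obtain ⟨r, s, e4⟩ := cancel_mod (fh_monic hF e2) h (p := rhoh g P)
    (r := C (C (C (MvPolynomial.eval (fun i => g i 2) F))) * rhoh g a) (s := rhoh g b)
    (by rw [e1]; simp only [Matrix.cons_val]; linear_combination (-rhoh g F * rhoh g a) * e3)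
  have := (mem_iff_rhoh hg {F, Y} P).mpr (by
    rw [e4, ← hY, mul_comm _ r, mul_comm _ s]
    exact add_mem (Ideal.mul_mem_left _ _ (Ideal.mul_mem_left _ _
      (Ideal.mem_map_of_mem _ (left_mem F Y))))
      (Ideal.mul_mem_left _ _ (Ideal.mem_map_of_mem _ (right_mem F Y))))
  obtain ⟨a, b, c, e⟩ := mem_three.mp this
  exact mem_three.mpr ⟨a, c, b, by rw [e]; ring⟩

theorem X_mem_of (hg : g * g' = 1) (hF : F.IsHomogeneous 6)
    (e2 : tau * MvPolynomial.eval (fun i => g i 2) F = 1) {q : Ideal (Pol B)} (hq : q.IsPrime)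
    (h : F ∈ q) (h0 : linForm (g' 0) ∈ q) (h1 : linForm (g' 1) ∈ q) (h3 : linForm (g' 3) ∈ q)
    (i : Fin 4) : MvPolynomial.X i ∈ q := by
  have e := sub_mem_of_X (RingHom.id _) (MvPolynomial.eval₂Hom MvPolynomial.C
    fun i => linForm (g' 2) * MvPolynomial.C (g i 2)) q (by simp) (fun i => by
      simp only [RingHom.id_apply, MvPolynomial.eval₂Hom_X']
      rw [X_eq hg i]
      convert add_mem (add_mem (q.mul_mem_left (MvPolynomial.C (g i 0)) h0)
        (q.mul_mem_left (MvPolynomial.C (g i 1)) h1)) (q.mul_mem_left (MvPolynomial.C (g i 3)) h3)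
        using 1
      ring) F
  rw [MvPolynomial.coe_eval₂Hom, eval₂_scale _ _ _ hF, RingHom.id_apply] at e
  have e4 : MvPolynomial.eval₂ MvPolynomial.C (fun i => (MvPolynomial.C (g i 2) : Pol B)) F =
      MvPolynomial.C (MvPolynomial.eval (fun i => g i 2) F) := by
    rw [← eval_map_col, MvPolynomial.eval_map]
  have h2 : linForm (g' 2) ∈ q := by
    refine hq.mem_of_pow_mem 6 ?_
    have := q.mul_mem_left (MvPolynomial.C tau) (q.sub_mem h e)
    rwa [sub_sub_cancel, e4, mul_left_comm, ← map_mul, e2, map_one, mul_one] at this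
  rw [X_eq hg i]
  exact add_mem (add_mem (add_mem (q.mul_mem_left _ h0) (q.mul_mem_left _ h1))
    (q.mul_mem_left _ h2)) (q.mul_mem_left _ h3)

end Frame

namespace Pt

/-- the homogenisation of `χ` -/
noncomputable def H (v : Pt B) : Pol B := linForm (v.g' 1) ^ 11 +
  ∑ i : Fin 11, MvPolynomial.C (v.cc i) * (linForm (v.g' 0) ^ (11 - (i : ℕ)) *
    linForm (v.g' 1) ^ (i : ℕ))

/-- the homogenisation of `χ` on the plane -/
noncomputable def chih (v : Pt B) : B[X][X] :=
  X ^ 11 + pol fun i => C (v.cc i) * X ^ (11 - (i : ℕ))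

theorem chih_monic (v : Pt B) : v.chih.Monic := monic_X_pow_add (degree_pol _)

theorem map_H {B' : Type} [CommRing B'] (φ : B →+* B') (v : Pt B) :
    MvPolynomial.map φ v.H = (v.map φ).H := by
  simp only [H, map_add, map_pow, map_sum, map_mul, map_linForm, MvPolynomial.map_C]
  rfl

theorem H_hom (v : Pt B) : v.H.IsHomogeneous 11 := by
  refine ((linForm_hom _).pow 11).add (MvPolynomial.IsHomogeneous.sum _ _ _ fun i _ =>
    MvPolynomial.IsHomogeneous.C_mul ?_ _)
  convert ((linForm_hom (v.g' 0)).pow (11 - (i : ℕ))).mul ((linForm_hom (v.g' 1)).pow i) using 1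
  omega

variable {F : Pol B} {v : Pt B}

theorem rho_H (e1 : v.g * v.g' = 1) : rho v.g v.H = C v.chi := by
  simp [H, chi, pol, rho_U0 e1, rho_U1 e1, ← C_mul_X_pow_eq_monomial]

theorem rhoh_H (e1 : v.g * v.g' = 1) : rhoh v.g v.H = C v.chih := by
  simp [H, chih, pol, rhoh_U e1, rhoh_C, ← C_mul_X_pow_eq_monomial, mul_assoc]

theorem H_sub (v : Pt B) : v.H - linForm (v.g' 1) ^ 11 ∈ Ideal.span {linForm (v.g' 0)} := by
  rw [H, add_sub_cancel_left]
  refine Ideal.sum_mem _ fun i _ => Ideal.mul_mem_left _ _ (Ideal.mul_mem_right _ _ ?_)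
  exact Ideal.pow_mem_of_mem _ (Ideal.mem_span_singleton_self _) _ (by omega)

theorem H_cancel (h : v.Eqs F) (hF : F.IsHomogeneous 6) (a : Pol B)
    (ha : v.H * a ∈ Ideal.span {F, linForm (v.g' 3)}) : a ∈ Ideal.span {F, linForm (v.g' 3)} := by
  have := U_cancel h.e1 hF h.e2 (Y := 0) (v := 0) (rhoh_H h.e1) (by simp)
    (fun a s e => by
      rw [zero_mul, v.chih_monic.mul_right_eq_zero_iff] at e
      simp [e]) (Ideal.mem_sup_left ha)
  simpa using this

theorem U0_cancel (h : v.Eqs F) (hF : F.IsHomogeneous 6) (k : ℕ) {P : Pol B}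
    (hP : linForm (v.g' 0) ^ k * P ∈ Ideal.span {F, linForm (v.g' 3)} ⊔ Ideal.span {v.H}) :
    P ∈ Ideal.span {F, linForm (v.g' 3)} ⊔ Ideal.span {v.H} :=
  U_cancel h.e1 hF h.e2 (u := C (X ^ k)) (by simp [rhoh_U h.e1]) (rhoh_H h.e1)
    (fun a s e => dvd_of_C_mul v.chih_monic
      (fun a ha => (monic_X_pow k).mul_right_eq_zero_iff.mp ha) ⟨s, e⟩) hP

theorem Eqs.exists_G (h : v.Eqs F) : ∃ G : Pol B, G.IsHomogeneous 11 ∧ rho v.g G = v.G F :=
  exists_hom h.e1 h.TD_G

theorem rho_F (e2 : v.tau * MvPolynomial.eval (fun i => v.g i 2) F = 1) :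
    rho v.g F = v.f F * C (C (MvPolynomial.eval (fun i => v.g i 2) F)) := by
  rw [f, mul_right_comm, ← map_mul, ← map_mul, e2]; simp

theorem Eqs.adm [Nontrivial B] (h : v.Eqs F) (hF : F.IsHomogeneous 6)
    (hsm : ∀ q : Ideal (Pol B), q.IsPrime → (∃ i, MvPolynomial.X i ∉ q) → F ∈ q →
      ∃ j, MvPolynomial.pderiv j F ∉ q)
    {G : Pol B} (hG : G.IsHomogeneous 11) (eG : rho v.g G = v.G F) :
    Adm F (linForm (v.g' 3)) v.H G where
  hF := hF
  hl := linForm_hom _
  hH := v.H_hom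
  hG := hG
  h1 := l_cancel h.e1 hF h.e2
  h2 := H_cancel h hF
  h0 a b hab := by
    have e := rho_mem h.e1 (mem_Nt.mp hab)
    rw [map_add, map_mul, map_mul, rho_C, rho_C, rho_H h.e1, eG, rho_F h.e2] at e
    have e0 := eq_zero_of_dvd_of_natDegree_lt (f_monic hF h.e2) (dvd_of_mul_right_dvd e) (by
      rw [natDegree_f hF h.e2]
      refine lt_of_le_of_lt (natDegree_add_le _ _) (max_lt ?_ ?_)
      · rw [← map_mul, natDegree_C]; omega
      · exact lt_of_le_of_lt (natDegree_C_mul_le _ _) (Nat.lt_succ_of_le natDegree_G))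
    have e5 := congrArg (fun p => p.coeff 5) e0
    simp only [coeff_add, coeff_C_mul, coeff_C, coeff_G, coeff_zero, Gc_five hF h.e2] at e5
    obtain ⟨k, hk⟩ := h.e4
    have hb : C b = 0 := eq_zero_of_dvd_of_natDegree_lt v.chi_monic
      ⟨-C b * k, by simp at e5; linear_combination v.eps' * e5 - C b * hk⟩
      (by rw [natDegree_C, natDegree_chi]; omega)
    rw [hb, map_zero, zero_mul, add_zero, ← map_mul, C_eq_zero,
      v.chi_monic.mul_left_eq_zero_iff] at e0
    exact ⟨C_eq_zero.mp e0, C_eq_zero.mp hb⟩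
  lf q hq hi := by
    set l := linForm (v.g' 3)
    set U := linForm (v.g' 0)
    have n1 : (l, 0) ∈ Nt F l v.H G := by
      simpa [mem_Nt] using Ideal.mul_mem_right v.H _ (right_mem F l)
    have n2 : (0, l) ∈ Nt F l v.H G := by
      simpa [mem_Nt] using Ideal.mul_mem_right G _ (right_mem F l)
    have n3 : (-G, v.H) ∈ Nt F l v.H G := by
      rw [mem_Nt]; convert Ideal.zero_mem _; ring
    obtain ⟨d, hd⟩ := exists_hom_ge h.e1 (X - C v.eta)
    obtain ⟨Y, hY, eY⟩ := hd d le_rfl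
    obtain ⟨u, hu⟩ := G_sub (v := v) hF
    obtain ⟨w, hw⟩ := h.f_sub
    obtain ⟨k, R, S, T, e, n, hR, eR⟩ := hom_mem h.e1 (hY.mul hG) hF v.H_hom
      (r := C (C v.tau) * C v.eps) (s := (X - C v.eta) * u - C v.eps * w) (by
        rw [map_mul, eY, eG, rho_H h.e1]
        rw [f] at hw
        linear_combination (X - C v.eta) * hu - C v.eps * hw)
    have n4 : (-S, U ^ k * Y) ∈ Nt F l v.H G :=
      Ideal.mem_span_pair.mpr ⟨R, T, by dsimp only; linear_combination -e⟩
    by_cases c1 : l ∈ q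
    swap
    · exact ⟨_, _, _, _, l, n1, n2, c1, by simp⟩
    by_cases c2 : F ∈ q
    swap
    · exact ⟨0, 0, 0, 0, F, zero_mem _, zero_mem _, c2,
        Ideal.mem_span_singleton'.mpr ⟨-l, by ring⟩⟩
    by_cases c3 : v.H ∈ q
    swap
    · exact ⟨_, _, _, _, v.H, n1, n3, c3, by convert Ideal.zero_mem _; ring⟩
    by_cases c4 : G ∈ q
    swap
    · exact ⟨_, _, _, _, -G, n3, n2, by simpa using c4, by simp⟩
    by_cases c5 : S ∈ q
    swap
    · exact ⟨_, _, _, _, -S, n4, n2, by simpa using c5, by simp⟩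
    by_cases c6 : T ∈ q
    swap
    · exact ⟨_, _, _, _, -T, n3, n4, by simpa using c6,
        Ideal.mem_span_singleton'.mpr ⟨-R, by linear_combination e⟩⟩
    have c0 : U ∉ q := fun c0 => by
      obtain ⟨i, hi⟩ := hi
      refine hi (X_mem_of h.e1 hF h.e2 hq c2 c0 (hq.mem_of_pow_mem 11 ?_) c1 i)
      have := q.sub_mem c3 ((Ideal.span_singleton_le_iff_mem q).mpr c0 v.H_sub)
      rwa [sub_sub_cancel] at this
    by_cases c7 : Y ∈ q
    swap
    · exact ⟨_, _, _, _, U ^ k * Y, n1, n4,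
        fun hc => (hq.mem_or_mem hc).elim (fun h => c0 (hq.mem_of_pow_mem _ h)) c7,
        by convert Ideal.zero_mem _; ring⟩
    exfalso
    obtain ⟨j, hj⟩ := hsm q hq hi c2
    have c8 : R ∈ q := by
      refine (hq.mem_or_mem ?_).resolve_left hj
      have := congrArg (MvPolynomial.pderiv j) e
      simp only [map_add, Derivation.leibniz, smul_eq_mul] at this
      have e' : MvPolynomial.pderiv j F * R = U ^ k * (Y * MvPolynomial.pderiv j G +
          G * MvPolynomial.pderiv j Y) + Y * G * MvPolynomial.pderiv j (U ^ k) -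
          F * MvPolynomial.pderiv j R - (v.H * MvPolynomial.pderiv j S +
          S * MvPolynomial.pderiv j v.H) - (l * MvPolynomial.pderiv j T +
          T * MvPolynomial.pderiv j l) := by linear_combination -this
      rw [e']
      exact sub_mem (sub_mem (sub_mem (add_mem (q.mul_mem_left _ (add_mem (q.mul_mem_right _ c7)
        (q.mul_mem_right _ c4))) (q.mul_mem_right _ (q.mul_mem_right _ c7)))
        (q.mul_mem_right _ c2)) (add_mem (q.mul_mem_right _ c3) (q.mul_mem_right _ c5)))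
        (add_mem (q.mul_mem_right _ c1) (q.mul_mem_right _ c6))
    obtain ⟨z, hz⟩ := h.e4
    obtain ⟨k', R', S', T', e', -⟩ := hom_mem h.e1 (MvPolynomial.isHomogeneous_one _ _) hR v.H_hom
      (r := C (C (MvPolynomial.eval (fun i => v.g i 2) F) * v.eps')) (s := -C z) (by
        rw [map_one, eR, rho_H h.e1, ← map_mul, ← map_mul, ← map_neg, ← map_mul, ← map_add,
          ← C_1]
        congr 1
        have := congrArg C h.e2
        rw [map_mul, map_one] at this
        linear_combination (-v.eps * v.eps') * this - hz)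
    refine c0 (hq.mem_of_pow_mem k' ?_)
    rw [← mul_one (U ^ k'), e']
    exact add_mem (add_mem (q.mul_mem_right _ c8) (q.mul_mem_right _ c3)) (q.mul_mem_right _ c1)

end Pt

end Pool.Agent.P.MP_2b2d3b_ag
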