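import Pool.Agent.P.MP_2b2d3b_ag.Bad2

/-!
The bad locus where two independent cubics pass through the scheme, and the dichotomy.
-/

namespace Pool.Agent.P.MP_2b2d3b_ag

open Polynomial

/-- bivariate polynomial with prescribed monomials -/
noncomputable def bp {K : Type} [CommRing K] {ι : Type} [Fintype ι] (e : ι → ℕ × ℕ) (c : ι → K) :
    K[X][X] := ∑ p, monomial (e p).1 (monomial (e p).2 (c p))

theorem coeff_bp {K : Type} [CommRing K] {ι : Type} [Fintype ι] (e : ι → ℕ × ℕ) (c : ι → K)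
    (j i : ℕ) : ((bp e c).coeff j).coeff i = ∑ p, if e p = (j, i) then c p else 0 := by
  simp only [bp, finsetSum_coeff, coeff_monomial]
  refine Finset.sum_congr rfl fun p _ => ?_
  by_cases h1 : (e p).1 = j
  · simp [h1, coeff_monomial, Prod.ext_iff]
  · simp [h1, Prod.ext_iff]

theorem bezout {K : Type} [Field K] {C1 C2 : K[X][X]} (h1 : TD 3 C1) (h2 : TD 3 C2) :
    ∃ a b : K[X][X], (a ≠ 0 ∨ b ≠ 0) ∧ a.natDegree ≤ 2 ∧ b.natDegree ≤ 2 ∧
      ∃ r : K[X], r.natDegree ≤ 9 ∧ a * C1 + b * C2 = C r := by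
  let I := {p : Fin 3 × Fin 7 // (p.1 : ℕ) + p.2 ≤ 6}
  let J := {p : Fin 6 × Fin 10 // 1 ≤ (p.1 : ℕ) ∧ (p.1 : ℕ) + p.2 ≤ 9}
  let e : I → ℕ × ℕ := fun p => (p.1.1, p.1.2)
  have he : Function.Injective e := fun p q h =>
    Subtype.ext (Prod.ext (Fin.ext (congrArg Prod.fst h)) (Fin.ext (congrArg Prod.snd h)))
  have hadd : ∀ a b : I → K, bp e (a + b) = bp e a + bp e b := fun a b => by
    simp [bp, Finset.sum_add_distrib]
  have hsmul : ∀ (c : K) (a : I → K), bp e (c • a) = C (C c) * bp e a := fun c a => by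
    simp [bp, Finset.mul_sum, C_mul_monomial]
  let L : ((I → K) × (I → K)) →ₗ[K] (J → K) :=
    { toFun := fun c q => ((bp e c.1 * C1 + bp e c.2 * C2).coeff q.1.1).coeff q.1.2
      map_add' := fun c c' => by
        ext q
        simp only [Prod.fst_add, Prod.snd_add, hadd, Pi.add_apply, ← coeff_add]
        congr 2
        ring
      map_smul' := fun c c' => by
        ext q
        simp only [Prod.smul_fst, Prod.smul_snd, hsmul, mul_assoc, ← mul_add, coeff_C_mul]
        rfl }
  have hI : Fintype.card I = 18 := by decide +kernel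
  have hJ : Fintype.card J = 35 := by decide +kernel
  obtain ⟨c, hc, hc0⟩ := Submodule.exists_mem_ne_zero_of_ne_bot
    (LinearMap.ker_ne_bot_of_finrank_lt (f := L) (by simp [hI, hJ]))
  have hz : ∀ a : I → K, bp e a = 0 → a = 0 := fun a ha => by
    funext p
    have := coeff_bp e a (e p).1 (e p).2
    rw [ha, Finset.sum_eq_single p (fun q _ hq => if_neg fun h => hq (he h)) (by simp)] at this
    simpa using this.symm
  have hT : ∀ a : I → K, TD 6 (bp e a) := fun a i j hij => by
    rw [coeff_bp]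
    refine Finset.sum_eq_zero fun p _ => if_neg fun h => ?_
    have := p.2
    simp only [e, Prod.mk.injEq] at h
    omega
  have hN : ∀ a : I → K, (bp e a).natDegree ≤ 2 := fun a => by
    rw [natDegree_le_iff_coeff_eq_zero]
    intro n hn
    ext i
    rw [coeff_bp]
    refine Finset.sum_eq_zero fun p _ => if_neg fun h => ?_
    have := p.1.1.2
    simp only [e, Prod.mk.injEq] at h
    omega
  have hs : TD 9 (bp e c.1 * C1 + bp e c.2 * C2) := ((hT _).mul h1).add ((hT _).mul h2)
  have hs' : (bp e c.1 * C1 + bp e c.2 * C2).natDegree ≤ 5 :=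
    (natDegree_add_le _ _).trans (max_le
      (natDegree_mul_le.trans (add_le_add (hN _) h1.natDegree_le))
      (natDegree_mul_le.trans (add_le_add (hN _) h2.natDegree_le)))
  refine ⟨bp e c.1, bp e c.2, ?_, hN _, hN _, _, hs.natDegree_coeff 0, ?_⟩
  · by_contra hcon
    push Not at hcon
    exact hc0 (Prod.ext (hz _ hcon.1) (hz _ hcon.2))
  · apply eq_C_of_natDegree_le_zero
    rw [natDegree_le_iff_coeff_eq_zero]
    intro j hj
    by_cases hj5 : j < 6
    · ext i
      by_cases hi : j + i ≤ 9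
      · exact congrFun (LinearMap.mem_ker.mp hc) ⟨(⟨j, hj5⟩, ⟨i, by omega⟩), hj, hi⟩
      · exact hs _ _ (by omega)
    · exact coeff_eq_zero_of_natDegree_lt (by omega)

namespace Pt

theorem exists_mult {B : Type} [CommRing B] [Nontrivial B] {F : Pol B} {v : Pt B} (h : v.Eqs F)
    (hF : F.IsHomogeneous 6) {c : B[X][X]} (hc : TD 3 c) (hd : v.chi ∣ c.eval v.eta) :
    ∃ c', TD 3 c' ∧ v.f F ∣ c * v.G F - C v.chi * c' := by
  obtain ⟨r, s, e⟩ := (h.mem_iff hF c).mpr hd
  have hm := f_monic hF h.e2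
  have e2 : (c * v.G F) %ₘ v.f F = C v.chi * (r %ₘ v.f F) := by
    rw [e, add_modByMonic, self_mul_modByMonic hm, add_zero, ← smul_eq_C_mul, smul_modByMonic,
      smul_eq_C_mul]
  refine ⟨r %ₘ v.f F, TD.of_C_mul v.chi_monic v.natDegree_chi ?_, ?_⟩
  · rw [← e2]
    exact TD.modByMonic hm (natDegree_f hF h.e2) (TD_f hF) (hc.mul h.TD_G)
  · rw [← e2, modByMonic_eq_sub_mul_div]
    simp

variable {k K : Type} [Field k] [Field K] [Algebra k K] {F0 : Pol k} {v : Pt K} {d : K → K}

theorem exists_conics {F : Pol K} (h : v.Eqs F) (hF : F.IsHomogeneous 6)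
    (hirr : Irreducible (v.f F)) (hW : 2 ≤ Module.finrank K (v.Wsp F)) :
    ∃ H G2 : K[X][X], TD 2 H ∧ TD 2 G2 ∧ H ≠ 0 ∧ v.f F ∣ H * v.G F - C v.chi * G2 := by
  obtain ⟨w, hw⟩ := exists_linearIndependent_of_le_finrank hW
  have hw' := LinearIndependent.pair_iff.mp
    (show LinearIndependent K ![w 0, w 1] by convert hw; ext i; fin_cases i <;> rfl)
  set C1 := cubic (v.f F) (w 0).1
  set C2 := cubic (v.f F) (w 1).1
  have hind : ∀ s t : K, C (C s) * C1 + C (C t) * C2 = 0 → s = 0 ∧ t = 0 := by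
    intro s t hst
    apply hw'
    apply Subtype.ext
    apply cubic_eq_zero (coeff_f hF h.e2)
    rw [← hst]
    simp [C1, C2, cubic, Finset.mul_sum, add_mul, mul_assoc, Finset.sum_add_distrib]
  have h10 : C1 ≠ 0 := fun h0 => by simpa using (hind 1 0 (by simp [h0])).1
  have h20 : C2 ≠ 0 := fun h0 => by simpa using (hind 0 1 (by simp [h0])).2
  have t1 : TD 3 C1 := TD_cubic (TD_f hF) _
  have t2 : TD 3 C2 := TD_cubic (TD_f hF) _
  have d1 : v.chi ∣ C1.eval v.eta := (w 0).2
  have d2 : v.chi ∣ C2.eval v.eta := (w 1).2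
  obtain ⟨D1, u1, e1⟩ := exists_mult h hF t1 d1
  obtain ⟨D2, u2, e2⟩ := exists_mult h hF t2 d2
  have hm := f_monic hF h.e2
  have hn := natDegree_f hF h.e2
  have hdv : v.f F ∣ C1 * D2 - C2 * D1 := by
    refine dvd_of_C_mul (c := v.chi) hm (fun a ha => by simpa [v.chi_monic.ne_zero] using ha) ?_
    have : C v.chi * (C1 * D2 - C2 * D1) =
        C2 * (C1 * v.G F - C v.chi * D1) - C1 * (C2 * v.G F - C v.chi * D2) := by ring
    rw [this]
    exact dvd_sub (e1.mul_left _) (e2.mul_left _)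
  have hzero : C1 * D2 - C2 * D1 = 0 := by
    by_contra hne
    obtain ⟨z, hz⟩ := hdv
    have hz0 : z ≠ 0 := by rintro rfl; simp [hz] at hne
    have t6 : TD 6 (C1 * D2 - C2 * D1) := (t1.mul u2).sub (t2.mul u1)
    have hdeg : (C1 * D2 - C2 * D1).natDegree = 6 + z.natDegree := by
      rw [hz, natDegree_mul hm.ne_zero hz0, hn]
    have hzd : z.natDegree = 0 := by have := t6.natDegree_le; omega
    have hzu : IsUnit z := by
      have hc := t6.natDegree_coeff 6
      rw [eq_C_of_natDegree_eq_zero hzd] at hz hz0 ⊢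
      rw [hz, coeff_mul_C, coeff_f hF h.e2, one_mul] at hc
      rw [isUnit_C, eq_C_of_natDegree_le_zero hc, isUnit_C, isUnit_iff_ne_zero]
      intro h0
      rw [eq_C_of_natDegree_le_zero hc, h0] at hz0
      simp at hz0
    have hrel : IsRelPrime C1 C2 := by
      intro g g1 g2
      have : g ∣ v.f F := by
        rw [← hzu.dvd_mul_right, ← hz]
        exact dvd_sub (g1.mul_right _) (g2.mul_right _)
      rcases hirr.dvd_iff.mp this with hu | ha
      · exact hu
      · exact absurd (ha.dvd.trans g1) (not_f_dvd h hF h10 (t1.natDegree_le.trans_lt (by omega)))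
    obtain ⟨a, b, hab, ha, hb, r, hr, er⟩ := bezout t1 t2
    have hr0 : r = 0 := by
      have := congrArg (eval v.eta) er
      rw [eval_C, eval_add, eval_mul, eval_mul] at this
      refine eq_zero_of_dvd_of_natDegree_lt v.chi_monic ?_ (by rw [natDegree_chi]; omega)
      rw [← this]
      exact dvd_add (d1.mul_left _) (d2.mul_left _)
    rw [hr0, map_zero] at er
    have hb0 : b ≠ 0 := by
      rintro rfl
      simp [h10] at er hab
      exact hab er
    have ha0 : a ≠ 0 := by
      rintro rfl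
      simp [h20] at er
      exact hb0 er
    have n1 := natDegree_le_of_dvd
      (hrel.dvd_of_dvd_mul_right (y := b) ⟨-a, by linear_combination er⟩) hb0
    have n2 := natDegree_le_of_dvd
      (hrel.symm.dvd_of_dvd_mul_right (y := a) ⟨-b, by linear_combination er⟩) ha0
    have n3 := natDegree_sub_le (C1 * D2) (C2 * D1)
    have n4 := natDegree_mul_le (p := C1) (q := D2)
    have n5 := natDegree_mul_le (p := C2) (q := D1)
    have n6 := u1.natDegree_le
    have n7 := u2.natDegree_le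
    omega
  obtain ⟨L1, L2, H, hrel, k1, k2⟩ := UniqueFactorizationMonoid.exists_reduced_factors C1 h10 C2
  have hH : H ≠ 0 := by rintro rfl; simp [← k1] at h10
  have hL1 : L1 ≠ 0 := by rintro rfl; simp [← k1] at h10
  have e3 : L1 * D2 = L2 * D1 := by
    apply mul_left_cancel₀ hH
    rw [← k1, ← k2] at hzero
    linear_combination hzero
  obtain ⟨G2, hG2⟩ := hrel.dvd_of_dvd_mul_left (z := D1) ⟨D2, e3.symm⟩
  have hG2' : D2 = L2 * G2 := by
    apply mul_left_cancel₀ hL1
    rw [e3, hG2]; ring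
  have hTD : TD 2 H ∧ TD 2 G2 := by
    by_cases c1 : TD 0 L1
    · by_cases c2 : TD 0 L2
      · have := hind ((L2.coeff 0).coeff 0) (-(L1.coeff 0).coeff 0) (by
          rw [map_neg, map_neg, ← c1.eq_CC, ← c2.eq_CC, ← k1, ← k2]; ring)
        rw [c1.eq_CC, neg_eq_zero.mp this.2] at hL1
        simp at hL1
      · exact ⟨TD.of_mul (k2 ▸ t2) c2, TD.of_mul (by rwa [mul_comm, ← hG2']) c2⟩
    · exact ⟨TD.of_mul (k1 ▸ t1) c1, TD.of_mul (by rwa [mul_comm, ← hG2]) c1⟩
  refine ⟨H, G2, hTD.1, hTD.2, hH, ?_⟩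
  have : C1 * v.G F - C v.chi * D1 = L1 * (H * v.G F - C v.chi * G2) := by
    rw [← k1, hG2]; ring
  rw [this] at e1
  refine (hirr.prime.dvd_or_dvd e1).resolve_left (not_f_dvd h hF hL1 ?_)
  have := natDegree_le_of_dvd (show L1 ∣ C1 from ⟨H, by rw [← k1, mul_comm]⟩) h10
  have := t1.natDegree_le
  omega

theorem bad_pencil (h : v.Eqs (MvPolynomial.map (algebraMap k K) F0))
    (hF : F0.IsHomogeneous 6) (hirr : Irreducible (v.f (MvPolynomial.map (algebraMap k K) F0)))
    (hW : 2 ≤ Module.finrank K (v.Wsp (MvPolynomial.map (algebraMap k K) F0))) : Bad k v := by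
  classical
  have hF' : (MvPolynomial.map (algebraMap k K) F0).IsHomogeneous 6 := hF.map _
  obtain ⟨H0, G0, tH0, tG0, hH0, e0⟩ := exists_conics h hF' hirr hW
  obtain ⟨j0, hj0⟩ : ∃ j, H0.coeff j ≠ 0 := ⟨_, mt leadingCoeff_eq_zero.mp hH0⟩
  obtain ⟨i0, hi0⟩ : ∃ i, (H0.coeff j0).coeff i ≠ 0 := ⟨_, mt leadingCoeff_eq_zero.mp hj0⟩
  set u := ((H0.coeff j0).coeff i0)⁻¹
  set H := C (C u) * H0
  set G2 := C (C u) * G0
  have tH : TD 2 H := tH0.smul _
  have tG : TD 2 G2 := tG0.smul _
  have h1 : (H.coeff j0).coeff i0 = 1 := by simp [H, u, inv_mul_cancel₀ hi0]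
  have hH : H ≠ 0 := fun h0 => by simp [h0] at h1
  obtain ⟨s, hs⟩ : v.f (MvPolynomial.map (algebraMap k K) F0) ∣
      H * v.G (MvPolynomial.map (algebraMap k K) F0) - C v.chi * G2 := by
    convert e0.mul_left (C (C u)) using 1
    simp only [H, G2]; ring
  let T : Finset (ℕ × ℕ) := (Finset.range 3 ×ˢ Finset.range 3).filter fun p => p.1 + p.2 ≤ 2
  have hT : T.card = 6 := by decide
  have hT' : ∀ j i, ¬ 2 < i + j → (j, i) ∈ T := fun j i hij => by simp [T]; omega
  have h0T : (j0, i0) ∈ T := hT' _ _ fun hlt => by simp [tH _ _ hlt] at h1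
  obtain ⟨G, hG, hG'⟩ := v.exists_gset
  refine ⟨G ∪ ((T.erase (j0, i0)).image (fun p => (H.coeff p.1).coeff p.2) ∪
    T.image (fun p => (G2.coeff p.1).coeff p.2)), ?_, fun d hd hk hz => ?_⟩
  · have c1 : ((T.erase (j0, i0)).image (fun p => (H.coeff p.1).coeff p.2)).card ≤ 5 :=
      Finset.card_image_le.trans (by rw [Finset.card_erase_of_mem h0T, hT])
    have c2 : (T.image (fun p => (G2.coeff p.1).coeff p.2)).card ≤ 6 :=
      Finset.card_image_le.trans hT.le
    exact (Finset.card_union_le _ _).trans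
      (add_le_add hG ((Finset.card_union_le _ _).trans (add_le_add c1 c2)))
  · have hg : ∀ i j, d (v.g i j) = 0 := fun i j => hz _ (by simp [hG'])
    have hf := (frame h hd hk hg).2.2
    set F := MvPolynomial.map (algebraMap k K) F0
    have dH : PD (PD d) H = 0 := by
      rw [PD_eq_zero hd.pd]; intro j
      rw [PD_eq_zero hd]; intro i
      by_cases hij : 2 < i + j
      · rw [tH _ _ hij, hd.zero]
      by_cases h0 : (j, i) = (j0, i0)
      · rw [Prod.mk.injEq] at h0
        rw [h0.1, h0.2, h1, hd.one]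
      · exact hz _ (Finset.mem_union_right _ (Finset.mem_union_left _ (Finset.mem_image.mpr
          ⟨(j, i), Finset.mem_erase.mpr ⟨h0, hT' _ _ hij⟩, rfl⟩)))
    have dG : PD (PD d) G2 = 0 := by
      rw [PD_eq_zero hd.pd]; intro j
      rw [PD_eq_zero hd]; intro i
      by_cases hij : 2 < i + j
      · rw [tG _ _ hij, hd.zero]
      · exact hz _ (Finset.mem_union_right _ (Finset.mem_union_right _ (Finset.mem_image.mpr
          ⟨(j, i), hT' _ _ hij, rfl⟩)))
    have e1 := congrArg (PD (PD d)) hs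
    rw [hd.pd.pd.sub, hd.pd.pd.mul_left dH, hd.pd.pd.mul_right dG, hd.pd.pd.mul_left hf,
      PD_C hd.pd] at e1
    have e2 : v.f F ∣ H * (C v.chi * PD (PD d) (v.G F) - C (PD d v.chi) * v.G F) :=
      ⟨C v.chi * PD (PD d) s - C (PD d v.chi) * s, by
        linear_combination C v.chi * e1 - C (PD d v.chi) * hs⟩
    have e3 := (hirr.prime.dvd_or_dvd e2).resolve_left
      (not_f_dvd h hF' hH (tH.natDegree_le.trans_lt (by omega)))
    have e4 : C v.chi * PD (PD d) (v.G F) - C (PD d v.chi) * v.G F = 0 := by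
      by_contra hne
      refine not_f_dvd h hF' hne ?_ e3
      have n1 := natDegree_sub_le (C v.chi * PD (PD d) (v.G F)) (C (PD d v.chi) * v.G F)
      have n2 := natDegree_C_mul_le v.chi (PD (PD d) (v.G F))
      have n3 := natDegree_C_mul_le (PD d v.chi) (v.G F)
      have n4 := natDegree_le_natDegree (degree_PD_le hd.pd (v.G F))
      have n5 := natDegree_G (F := F) (v := v)
      omega
    have e5 := congrArg (fun p => p.coeff 5) e4
    simp only [coeff_sub, coeff_C_mul, coeff_PD hd.pd, coeff_G, Gc_five hF' h.e2, coeff_zero,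
      show (5 : ℕ) < 6 by omega, if_true] at e5
    have hc : PD d v.chi = 0 := by
      refine eq_zero_of_chi_dvd ((chi_coprime h).dvd_of_dvd_mul_right
        ⟨PD d v.eps, by linear_combination -e5⟩) ?_
      rw [← v.degree_chi]
      exact degree_PD_lt hd v.chi_monic
    rw [hc, zero_mul, sub_zero] at e5
    rw [hc, map_zero, zero_mul, sub_zero] at e4
    have hp : PD d v.eps = 0 := (mul_eq_zero.mp e5).resolve_left v.chi_monic.ne_zero
    have dG' : PD (PD d) (v.G F) = 0 :=
      (mul_eq_zero.mp e4).resolve_left (by simpa using v.chi_monic.ne_zero)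
    have he : PD d v.eta = 0 := by
      obtain ⟨r, s', e⟩ := (h.mem_iff hF' (X - C v.eta)).mpr (by simp)
      have e6 := congrArg (PD (PD d)) e
      rw [hd.pd.pd.mul_right dG', hd.pd.pd.sub, PD_X hd.pd, PD_C hd.pd, hd.pd.pd.add,
        hd.pd.pd.mul_left hf, hd.pd.pd.mul_left (by rw [PD_C hd.pd, hc, map_zero])] at e6
      have := (h.mem_iff hF' _).mp ⟨_, _, e6⟩
      simp only [zero_sub, eval_neg, eval_C, dvd_neg] at this
      exact eq_zero_of_chi_dvd this ((degree_PD_le hd _).trans_lt (degree_pol _))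
    exact killed h hd hk hg hc he hp

theorem good_or_bad [IsAlgClosed K] [CharZero K]
    (h : v.Eqs (MvPolynomial.map (algebraMap k K) F0)) (hF : F0.IsHomogeneous 6)
    (hirr : Irreducible (v.f (MvPolynomial.map (algebraMap k K) F0)))
    (hsm : ∀ p : Fin 4 → K, p ≠ 0 → MvPolynomial.aeval p F0 = 0 →
      ∃ i, MvPolynomial.aeval p (MvPolynomial.pderiv i F0) ≠ 0) :
    (v.chi.roots.Nodup ∧ v.Wsp (MvPolynomial.map (algebraMap k K) F0) = ⊥) ∨ Bad k v := by
  by_cases h2 : 2 ≤ Module.finrank K (v.Wsp (MvPolynomial.map (algebraMap k K) F0))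
  · exact Or.inr (bad_pencil h hF hirr h2)
  by_cases hs : ∃ a, v.Sing (MvPolynomial.map (algebraMap k K) F0) a
  · obtain ⟨a, ha⟩ := hs
    exact Or.inr (bad_sing h hF hsm (by omega) ha)
  push Not at hs
  by_cases h1 : Module.finrank K (v.Wsp (MvPolynomial.map (algebraMap k K) F0)) = 1
  · exact Or.inr (bad_cubic h hF hirr h1 hs)
  by_cases hn : v.chi.roots.Nodup
  · exact Or.inl ⟨hn, Submodule.finrank_eq_zero.mp (by omega)⟩
  · exact Or.inr (bad_mult h hF (by omega) hs hn)

end Pt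

end Pool.Agent.P.MP_2b2d3b_ag
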