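import Pool.Agent.P.MP_2b2d3b_ag.Der

/-!
Krull's height theorem turned into a supply of derivations.
-/

namespace Pool.Agent.P.MP_2b2d3b_ag

open AlgebraicIndependent

theorem height_step {R K : Type} [CommRing R] [IsNoetherianRing R] [Field K] (φ : R →+* K) (z : K) :
    (RingHom.ker φ).height ≤ (RingHom.ker (Polynomial.eval₂RingHom φ z)).height ∧
    ((∃ q : Polynomial R, q.map φ ≠ 0 ∧ q.eval₂ φ z = 0) →
      (RingHom.ker φ).height + 1 ≤ (RingHom.ker (Polynomial.eval₂RingHom φ z)).height) := by
  set p := RingHom.ker φ
  set P := RingHom.ker (Polynomial.eval₂RingHom φ z)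
  have hp : p.IsPrime := RingHom.ker_isPrime φ
  have hP : P.IsPrime := RingHom.ker_isPrime _
  have hlo : (p.map (Polynomial.C : R →+* Polynomial R)).LiesOver p := by
    refine ⟨?_⟩
    ext a
    simp only [Ideal.under, Ideal.mem_comap, Polynomial.algebraMap_eq, Ideal.mem_map_C_iff]
    constructor
    · intro ha n
      rw [Polynomial.coeff_C]
      split_ifs
      · exact ha
      · exact p.zero_mem
    · intro ha
      simpa using ha 0
  have h1 : p.height ≤ (p.map (Polynomial.C : R →+* Polynomial R)).height := by
    rw [Ideal.height_eq_height_add_of_liesOver_of_hasGoingDown p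
      (p.map (Polynomial.C : R →+* Polynomial R))]
    exact le_self_add
  have h2 : p.map (Polynomial.C : R →+* Polynomial R) ≤ P := by
    rw [Ideal.map_le_iff_le_comap]
    intro a ha
    have ha' : φ a = 0 := ha
    simp [P, ha']
  refine ⟨h1.trans (Ideal.height_mono h2), ?_⟩
  rintro ⟨q, hq, hq0⟩
  have h3 : p.map (Polynomial.C : R →+* Polynomial R) < P := by
    refine lt_of_le_of_ne h2 fun h => hq ?_
    have : q ∈ p.map (Polynomial.C : R →+* Polynomial R) := by
      rw [h]; exact hq0
    rw [Ideal.mem_map_C_iff] at this
    ext n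
    rw [Polynomial.coeff_map, Polynomial.coeff_zero]
    exact this n
  exact (add_le_add_left h1 1).trans (Ideal.height_add_one_le_of_lt_of_isPrime h3)

theorem card_le_rank_add_height {k K : Type} [Field k] [Field K] [Algebra k K]
    (σ : Type) [Finite σ] (v : σ → K) :
    (Nat.card σ : ℕ∞) ≤ (matroid k K).eRk (Set.range v) +
      (RingHom.ker (MvPolynomial.aeval (R := k) v : MvPolynomial σ k →+* K)).height := by
  induction σ using Finite.induction_empty_option with
  | @of_equiv α β e H =>
    have h := H (v ∘ e)
    rw [Nat.card_congr e, e.surjective.range_comp] at h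
    refine h.trans (le_of_eq ?_)
    congr 1
    rw [← (MvPolynomial.renameEquiv k e).toRingEquiv.height_comap]
    congr 1
    ext p
    simp [RingHom.mem_ker, MvPolynomial.aeval_rename]
  | h_empty => simp
  | @h_option α _ IH =>
    have h := IH (v ∘ some)
    set φ := (MvPolynomial.aeval (R := k) (v ∘ some) : MvPolynomial α k →+* K) with hφ
    obtain ⟨h1, h2⟩ := height_step φ (v none)
    have e : (RingHom.ker (MvPolynomial.aeval (R := k) v : MvPolynomial (Option α) k →+* K)).height
        = (RingHom.ker (Polynomial.eval₂RingHom φ (v none))).height := by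
      rw [← (MvPolynomial.optionEquivLeft k α).toRingEquiv.height_comap]
      congr 1
      have : (MvPolynomial.aeval (R := k) v : MvPolynomial (Option α) k →+* K) =
          (Polynomial.eval₂RingHom φ (v none)).comp
            (MvPolynomial.optionEquivLeft k α).toRingEquiv.toRingHom := by
        apply MvPolynomial.ringHom_ext
        · intro a
          simp [φ]
        · rintro (_ | i)
          · simp
          · simp [φ]
      rw [this]
      rfl
    have hr : Set.range v = insert (v none) (Set.range (v ∘ some)) := by
      ext x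
      simp only [Set.mem_range, Set.mem_insert_iff, Function.comp]
      constructor
      · rintro ⟨_ | i, rfl⟩
        · exact Or.inl rfl
        · exact Or.inr ⟨i, rfl⟩
      · rintro (rfl | ⟨i, rfl⟩)
        · exact ⟨_, rfl⟩
        · exact ⟨_, rfl⟩
    have hc : (Nat.card (Option α) : ℕ∞) = Nat.card α + 1 := by
      simp [Nat.card_eq_fintype_card]
    rw [hc, e, hr]
    by_cases hq : ∃ q : Polynomial (MvPolynomial α k), q.map φ ≠ 0 ∧ q.eval₂ φ (v none) = 0
    · calc (Nat.card α : ℕ∞) + 1
          ≤ (matroid k K).eRk (Set.range (v ∘ some)) + (RingHom.ker φ).height + 1 := by gcongr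
        _ ≤ _ := by
          rw [add_assoc]
          exact add_le_add ((matroid k K).eRk_mono (Set.subset_insert _ _)) (h2 hq)
    · have hnot : v none ∉ (matroid k K).closure (Set.range (v ∘ some)) := by
        rw [matroid_closure_eq]
        rintro ⟨p, hp0, hp⟩
        apply hq
        have hsurj : ∀ a : Algebra.adjoin k (Set.range (v ∘ some)), ∃ b, φ b = a := by
          rintro ⟨a, ha⟩
          rw [Algebra.adjoin_range_eq_range_aeval] at ha
          obtain ⟨b, rfl⟩ := ha
          exact ⟨b, rfl⟩
        have : p.map (algebraMap _ K) ∈ Polynomial.lifts φ := by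
          rw [Polynomial.lifts_iff_coeff_lifts]
          intro n
          rw [Polynomial.coeff_map]
          exact hsurj _
        obtain ⟨q, hq'⟩ := this
        have hq'' : q.map φ = p.map (algebraMap _ K) := hq'
        refine ⟨q, ?_, ?_⟩
        · rw [hq'']
          exact (Polynomial.map_ne_zero_iff Subtype.val_injective).mpr hp0
        · rw [← Polynomial.eval_map, hq'', Polynomial.eval_map]
          exact hp
      rw [(matroid k K).eRk_insert_eq_add_one ⟨by simp, hnot⟩]
      calc (Nat.card α : ℕ∞) + 1
          ≤ (matroid k K).eRk (Set.range (v ∘ some)) + (RingHom.ker φ).height + 1 := by gcongr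
        _ ≤ _ := by
          rw [add_right_comm]
          gcongr

/-- At a point of `K` whose ideal of relations is minimal over `m` equations, every set of fewer
than `card σ - m` elements is killed by a derivation that does not kill all coordinates. -/
theorem exists_der {k K : Type} [Field k] [CharZero k] [Field K] [Algebra k K]
    {σ : Type} [Fintype σ] (v : σ → K) (E : Finset (MvPolynomial σ k))
    (hmin : RingHom.ker (MvPolynomial.aeval (R := k) v : MvPolynomial σ k →+* K) ∈
      (Ideal.span (E : Set (MvPolynomial σ k))).minimalPrimes)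
    (S : Finset K) (hS : S.card + E.card < Fintype.card σ) :
    ∃ d : K → K, IsDer d ∧ (∀ a : k, d (algebraMap k K a) = 0) ∧ (∀ z ∈ S, d z = 0) ∧
      ∃ i, d (v i) ≠ 0 := by
  have h1 := card_le_rank_add_height (k := k) σ v
  have h2 := Ideal.height_le_card_of_mem_minimalPrimes_span_finset hmin
  have h3 : ∃ i, v i ∉ (matroid k K).closure (S : Set K) := by
    by_contra hcon
    push Not at hcon
    have h4 : (matroid k K).eRk (Set.range v) ≤ S.card := by
      calc (matroid k K).eRk (Set.range v) ≤ (matroid k K).eRk ((matroid k K).closure S) :=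
            (matroid k K).eRk_mono (by rintro _ ⟨i, rfl⟩; exact hcon i)
        _ = (matroid k K).eRk S := (matroid k K).eRk_closure_eq _
        _ ≤ (S : Set K).encard := (matroid k K).eRk_le_encard _
        _ = S.card := Set.encard_coe_eq_coe_finsetCard S
    have h5 := h1.trans (add_le_add h4 h2)
    rw [Nat.card_eq_fintype_card] at h5
    have : Fintype.card σ ≤ S.card + E.card := by exact_mod_cast h5
    omega
  obtain ⟨i, hi⟩ := h3
  rw [matroid_closure_eq] at hi
  have ht : Transcendental (IntermediateField.adjoin k (S : Set K)) (v i) := by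
    intro h
    exact hi (IntermediateField.isAlgebraic_adjoin_iff.mp h)
  have : CharZero (IntermediateField.adjoin k (S : Set K)) := algebraRat.charZero _
  obtain ⟨d, hd, hL, hz⟩ := exists_der_of_transcendental ht
  refine ⟨d, hd, fun a => ?_, fun z hz => ?_, i, by rw [hz]; exact one_ne_zero⟩
  · exact hL ⟨_, IntermediateField.algebraMap_mem _ a⟩
  · exact hL ⟨z, IntermediateField.subset_adjoin _ _ hz⟩

/-- a subspace of dimension at most `m` is detected by at most `m` coordinates -/
theorem exists_coords {K : Type} [Field K] {ι : Type} [Fintype ι] [DecidableEq ι] (m : ℕ)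
    (U : Submodule K (ι → K)) (hU : Module.finrank K U ≤ m) :
    ∃ T : Finset ι, T.card ≤ m ∧ ∀ u ∈ U, (∀ i ∈ T, u i = 0) → u = 0 := by
  induction m generalizing U with
  | zero =>
    refine ⟨∅, by simp, fun u hu _ => ?_⟩
    have : U = ⊥ := Submodule.finrank_eq_zero.mp (by omega)
    rwa [this] at hu
  | succ m ih =>
    by_cases h : U = ⊥
    · exact ⟨∅, by simp, fun u hu _ => by rwa [h] at hu⟩
    obtain ⟨u, hu, hu0⟩ := Submodule.exists_mem_ne_zero_of_ne_bot h
    obtain ⟨i, hi⟩ := Function.ne_iff.mp hu0
    have hlt : U ⊓ LinearMap.ker (LinearMap.proj i : (ι → K) →ₗ[K] K) < U := by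
      refine lt_of_le_of_ne inf_le_left fun h' => hi ?_
      have : u ∈ U ⊓ LinearMap.ker (LinearMap.proj i : (ι → K) →ₗ[K] K) := by rw [h']; exact hu
      exact this.2
    have hlt' := Submodule.finrank_lt_finrank_of_lt hlt
    obtain ⟨T, hT, hT'⟩ := ih (U ⊓ LinearMap.ker (LinearMap.proj i : (ι → K) →ₗ[K] K)) (by omega)
    refine ⟨insert i T, (Finset.card_insert_le _ _).trans (by omega), fun w hw h0 => ?_⟩
    exact hT' w ⟨hw, h0 i (by simp)⟩ fun j hj => h0 j (by simp [hj])

end Pool.Agent.P.MP_2b2d3b_ag
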