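import Pool.Agent.P.MP_2b2d3b_ag.Gen
import Pool.Agent.P.MP_2b2d3b_ag.Bad3
import Pool.Agent.P.MP_2b2d3b_ag.Dim

/-!
The parameter space is irreducible.
-/

namespace Pool.Agent.P.MP_2b2d3b_ag

open Polynomial

theorem gen_RD {F : Pol ℂ} (hF : GoodSextic F) :
    ∃ (W : Type) (_ : CommRing W) (_ : IsDomain W) (_ : Algebra ℂ W) (r : RD W),
      r.Valid (MvPolynomial.map (algebraMap ℂ W) F) ∧ AlgebraicIndependent ℂ (r.g' 3) ∧
      ∀ (K : Type) [Field K] [Algebra ℂ K] (r' : RD K),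
        r'.Valid (MvPolynomial.map (algebraMap ℂ K) F) →
        ∃ φ : W →ₐ[ℂ] K, r.map (φ : W →+* K) = r' := by
  obtain ⟨W, _, _, _, s, h⟩ := gen hF 11
  let r0 : RD W := ⟨s.g, s.g', s.tau, fun i => s.xs i, fun i => s.ys i, s.c, 0⟩
  let F0 := MvPolynomial.map (algebraMap ℂ W) F
  let u : Fin 11 → W := fun i => r0.c * r0.m F0 i * r0.w i * r0.w i
  have hw : ∀ i, r0.w i ≠ 0 := fun i => by
    rw [RD.w, nod, eval_prod, Finset.prod_ne_zero_iff]
    intro j hj
    simp only [eval_sub, eval_X, eval_C, sub_ne_zero]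
    exact fun h' => (Finset.ne_of_mem_erase hj) (Fin.ext (h.inj _ i.2 _ j.2 h')).symm
  have hm : ∀ i, r0.m F0 i ≠ 0 := fun i =>
    mul_ne_zero (pow_ne_zero _ (neg_ne_zero.mpr one_ne_zero))
      (h.minors 10 (fun a => (i.succAbove a : Fin 11)) idx
        (Fin.val_injective.comp Fin.succAbove_right_injective) (fun a => (i.succAbove a).2)
        idx.injective)
  have hu : ∀ i, u i ≠ 0 := fun i => mul_ne_zero (mul_ne_zero (mul_ne_zero h.c (hm i)) (hw i)) (hw i)
  obtain ⟨W', _, _, _, ι, hi, hι, U⟩ := exists_loc W (∏ i, u i)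
    (Finset.prod_ne_zero_iff.mpr fun i _ => hu i)
  have hb : ∀ i, ∃ b, b * ι (u i) = 1 := fun i =>
    (isUnit_of_dvd_unit (map_dvd ι (Finset.dvd_prod_of_mem u (Finset.mem_univ i))) hι).exists_left_inv
  choose b hb using hb
  have hmap : ∀ (K : Type) [CommRing K] [Algebra ℂ K] (φ : W →ₐ[ℂ] K) (i : Fin 11), φ (u i) =
      (r0.map (φ : W →+* K)).c * (r0.map (φ : W →+* K)).m (MvPolynomial.map (algebraMap ℂ K) F) i *
        (r0.map (φ : W →+* K)).w i * (r0.map (φ : W →+* K)).w i := fun K _ _ φ i => by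
    rw [← map_map_alg φ, RD.map_m, RD.map_w]
    simp [u, RD.map, F0]
  let r : RD W' := { r0.map (ι : W →+* W') with b := b }
  refine ⟨W', inferInstance, inferInstance, inferInstance, r, ⟨map_e1 _ h.ok.e1, ?_, fun i => ?_,
    fun i => ?_⟩, h.ind.map' (f := ι) hi, fun K _ _ r' hr => ?_⟩
  · have := congrArg (ι : W →+* W') h.ok.e2
    rw [map_mul, ← eval_map_col, map_map_alg, map_one] at this
    exact this
  · change evalEval (ι _) (ι _) ((r0.map (ι : W →+* W')).f _) = 0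
    rw [← map_map_alg ι, RD.map_f]
    refine (map_mapRingHom_evalEval (ι : W →+* W') _ _ _).trans ?_
    have : (r0.f F0).evalEval (s.xs i) (s.ys i) = 0 := h.ok.e3 i i.2
    rw [this, map_zero]
  · have := hb i
    rw [hmap] at this
    rw [← this]
    simp only [mul_assoc]
    rfl
  · let s' : SD K := ⟨r'.g, r'.g', r'.tau, r'.c, fun i => if h : i < 11 then r'.xs ⟨i, h⟩ else 0,
      fun i => if h : i < 11 then r'.ys ⟨i, h⟩ else 0⟩
    obtain ⟨φ, hφ⟩ := h.univ K s' ⟨hr.e1, hr.e2, fun i hi => by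
      simp only [s', dif_pos hi]
      exact hr.e3 _⟩
    have hx : r'.xs = fun i : Fin 11 => φ (s.xs i) := funext fun i => by
      rw [← hφ.xs i i.2]; simp [s']
    have hy : r'.ys = fun i : Fin 11 => φ (s.ys i) := funext fun i => by
      rw [← hφ.ys i i.2]; simp [s']
    have h4 : ∀ i, r'.b i * φ (u i) = 1 := fun i => by
      rw [hmap, ← hr.e4 i]
      obtain ⟨g, g', tau, xs, ys, c, b'⟩ := r'
      obtain rfl : g = _ := hφ.g
      obtain rfl : g' = _ := hφ.g'
      obtain rfl : tau = _ := hφ.tau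
      obtain rfl : c = _ := hφ.c
      obtain rfl : xs = _ := hx
      obtain rfl : ys = _ := hy
      simp only [mul_assoc]
      rfl
    obtain ⟨φ', hφ'⟩ := U K φ (by
      rw [map_prod, Finset.prod_ne_zero_iff]
      exact fun i _ => right_ne_zero_of_mul_eq_one (h4 i))
    refine ⟨φ', ?_⟩
    have h5 : r'.b = fun i => φ' (b i) := funext fun i => by
      have := congrArg φ' (hb i)
      rw [map_mul, hφ', map_one] at this
      exact mul_right_cancel₀ (right_ne_zero_of_mul_eq_one (h4 i)) ((h4 i).trans this.symm)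
    obtain ⟨g, g', tau, xs, ys, c, b'⟩ := r'
    obtain rfl : g = _ := hφ.g
    obtain rfl : g' = _ := hφ.g'
    obtain rfl : tau = _ := hφ.tau
    obtain rfl : c = _ := hφ.c
    obtain rfl : xs = _ := hx
    obtain rfl : ys = _ := hy
    obtain rfl : b' = _ := h5
    simp only [RD.map, r, r0, RingHom.coe_coe, hφ', Matrix.map_map, RD.mk.injEq, and_true]
    constructor <;> (ext i j; simp [hφ'])

theorem map_univ {R : Type} [CommRing R] [Algebra ℂ R] (v : Pt R) :
    (Pt.ofCoord MvPolynomial.X : Pt (MvPolynomial Var ℂ)).map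
      (MvPolynomial.aeval v.coord : MvPolynomial Var ℂ →ₐ[ℂ] R) = v := by
  rw [Pt.map_ofCoord]
  simp [Pt.ofCoord_coord]

theorem exists_base {F : Pol ℂ} (hF : GoodSextic F) :
    ∃ (B : Type) (_ : CommRing B) (_ : IsDomain B) (_ : Algebra ℂ B) (_ : Algebra.FiniteType ℂ B)
      (v : Pt B), v.Eqs (MvPolynomial.map (algebraMap ℂ B) F) ∧ AlgebraicIndependent ℂ (v.g' 3) ∧
      ∀ w : Pt ℂ, w.Eqs F → ∃ t : B →ₐ[ℂ] ℂ, v.map (t : B →+* ℂ) = w := by
  classical
  obtain ⟨W, _, _, _, r, hr, hind, U⟩ := gen_RD hF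
  let v0 := r.pt (MvPolynomial.map (algebraMap ℂ W) F)
  let e0 : MvPolynomial Var ℂ →ₐ[ℂ] W := MvPolynomial.aeval v0.coord
  let p0 := RingHom.ker e0
  have : p0.IsPrime := RingHom.ker_isPrime _
  let u : Pt (MvPolynomial Var ℂ) := Pt.ofCoord MvPolynomial.X
  let v := u.map (Ideal.Quotient.mkₐ ℂ p0 : MvPolynomial Var ℂ →+* MvPolynomial Var ℂ ⧸ p0)
  have hlift : ∀ (R : Type) [CommRing R] [Algebra ℂ R] (w : Pt R),
      (∀ a ∈ p0, MvPolynomial.aeval w.coord a = 0) →
      ∃ t : (MvPolynomial Var ℂ ⧸ p0) →ₐ[ℂ] R, v.map (t : _ →+* R) = w ∧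
        ∀ a, t (Ideal.Quotient.mk _ a) = MvPolynomial.aeval w.coord a := fun R _ _ w hw =>
    ⟨Ideal.Quotient.liftₐ p0 (MvPolynomial.aeval w.coord) hw, map_univ w, fun a => rfl⟩
  obtain ⟨j, hj, hj'⟩ := hlift W v0 fun a ha => ha
  have hinj : Function.Injective j := by
    rw [injective_iff_map_eq_zero]
    intro a ha
    obtain ⟨a, rfl⟩ := Ideal.Quotient.mk_surjective a
    rw [hj'] at ha
    exact Ideal.Quotient.eq_zero_iff_mem.mpr ha
  refine ⟨MvPolynomial Var ℂ ⧸ p0, inferInstance, inferInstance, inferInstance, inferInstance, v,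
    Pt.Eqs.of_map (j : _ →+* W) hinj ?_, AlgebraicIndependent.of_comp j ?_, fun w hw => ?_⟩
  · rw [hj, map_map_alg]
    exact hr.eqs (hF.homog.map _)
  · have : j ∘ v.g' 3 = (v.map (j : _ →+* W)).g' 3 := rfl
    rw [this, hj]
    exact hind
  suffices h : ∀ a ∈ p0, MvPolynomial.aeval w.coord a = 0 by
    obtain ⟨t, ht, -⟩ := hlift ℂ w h
    exact ⟨t, ht⟩
  let E : Finset (MvPolynomial Var ℂ) :=
    Finset.univ.image (u.eqn (MvPolynomial.map (algebraMap ℂ _) F))
  have hE : ∀ (R : Type) [CommRing R] [Algebra ℂ R] (z : Pt R) (k : EqI),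
      MvPolynomial.aeval z.coord (u.eqn (MvPolynomial.map (algebraMap ℂ _) F) k) =
        z.eqn (MvPolynomial.map (algebraMap ℂ R) F) k := fun R _ _ z k => by
    have := Pt.map_eqn ((MvPolynomial.aeval z.coord : MvPolynomial Var ℂ →ₐ[ℂ] R) :
      MvPolynomial Var ℂ →+* R)
      (MvPolynomial.map (algebraMap ℂ _) F) u k
    rw [map_map_alg, map_univ] at this
    exact this.symm
  have hm : (RingHom.ker (MvPolynomial.aeval w.coord : MvPolynomial Var ℂ →ₐ[ℂ] ℂ)).IsPrime :=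
    RingHom.ker_isPrime _
  obtain ⟨p, hp, hpm⟩ := Ideal.exists_minimalPrimes_le (I := Ideal.span (E : Set _))
    (J := RingHom.ker (MvPolynomial.aeval w.coord : MvPolynomial Var ℂ →ₐ[ℂ] ℂ)) (by
      rw [Ideal.span_le]
      intro a ha
      obtain ⟨k, -, rfl⟩ := Finset.mem_image.mp ha
      change MvPolynomial.aeval w.coord _ = 0
      rw [hE, map_alg_self]
      exact (Pt.eqs_iff _ _).mp hw k)
  have hpp : p.IsPrime := hp.1.1
  let K := AlgebraicClosure (FractionRing (MvPolynomial Var ℂ ⧸ p))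
  let ψ : MvPolynomial Var ℂ →ₐ[ℂ] K :=
    ((IsScalarTower.toAlgHom ℂ (FractionRing (MvPolynomial Var ℂ ⧸ p)) K).comp
      (IsScalarTower.toAlgHom ℂ (MvPolynomial Var ℂ ⧸ p) _)).comp (Ideal.Quotient.mkₐ ℂ p)
  let z := u.map (ψ : _ →+* K)
  have hψ : MvPolynomial.aeval z.coord = ψ := by
    ext i
    simp [z, u, Pt.coord_map, Pt.coord_ofCoord]
  have hker : ∀ a, ψ a = 0 ↔ a ∈ p := fun a => by
    simp [ψ, Ideal.Quotient.eq_zero_iff_mem]
  have hz : z.Eqs (MvPolynomial.map (algebraMap ℂ K) F) := by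
    rw [Pt.eqs_iff]
    intro k
    rw [← hE, hψ, hker]
    exact hp.1.2 (Ideal.subset_span (Finset.mem_image_of_mem _ (Finset.mem_univ k)))
  have : CharZero K := algebraRat.charZero K
  rcases Pt.good_or_bad hz hF.homog (irreducible_f hF z hz.e1 hz.e2) (smooth_field hF) with
    ⟨h1, h2⟩ | ⟨S, hS, hbad⟩
  · obtain ⟨r', hr', h3⟩ := hz.exists_RD (hF.homog.map _) h1 h2
    obtain ⟨φ, rfl⟩ := U K r' hr'
    rw [← map_map_alg φ, RD.map_pt] at h3
    intro a ha
    apply hpm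
    rw [← hker, ← hψ, ← h3]
    have : MvPolynomial.aeval (v0.map (φ : W →+* K)).coord = φ.comp e0 := by
      ext i
      simp [e0, Pt.coord_map]
    rw [this, AlgHom.comp_apply, RingHom.mem_ker.mp ha, map_zero]
  · obtain ⟨d, hd, h1, h2, i, hi⟩ := exists_der (k := ℂ) z.coord E (by
      convert hp
      ext a
      rw [hψ, RingHom.mem_ker]
      exact hker a) S (by
        have : E.card ≤ _ := Finset.card_image_le
        rw [Finset.card_univ, card_EqI] at this
        rw [card_Var]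
        omega)
    exact absurd (hbad d hd h1 h2 i) hi

end Pool.Agent.P.MP_2b2d3b_ag
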