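import Pool.Agent.P.MP_2b2d3b_ag.Curv
import Pool.Agent.P.MP_2b2d3b_ag.Base

/-!
Every planar extension comes from a point of the parameter space.
-/

namespace Pool.Agent.P.MP_2b2d3b_ag

open Polynomial

variable {F l : Pol ℂ} {v : Pt ℂ} {N : Submodule (Pol ℂ) (Pol ℂ × Pol ℂ)}

theorem Pen.hilb (hN : Pen F l N) (hK : ∀ a, (a, 0) ∈ N → a ∈ Ideal.span {F, l}) :
    ∃ d₀, ∀ d ≥ d₀, hilb (snds N) d = 11 := by
  obtain ⟨d0, h⟩ := hN.count
  refine ⟨d0, fun d hd => ?_⟩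
  have h1 := h d hd
  have h2 := count_eq (fun a => ⟨hK a, fun ha => hN.base _ ha _ (zero_mem _)⟩) hN.comp d
  omega

theorem Pen.exists_hom (hF : GoodSextic F) (hl : l.IsHomogeneous 1) (hl0 : l ≠ 0) (hN : Pen F l N)
    (hK : ∀ a, (a, 0) ∈ N → a ∈ Ideal.span {F, l}) :
    ∃ b ∈ snds N, ∃ d, b.IsHomogeneous d ∧ b ∉ Ideal.span {F, l} := by
  obtain ⟨b, hb, hb'⟩ := exists_not_mem hF.homog hF.irred hl hl0 (hN.hilb hK)
  exact exists_hom_not_mem hN.comp_snds hb hb'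

theorem exists_pt (hF : GoodSextic F) (h : Frame F l v) (hN : Pen F l N)
    (hK : ∀ a, (a, 0) ∈ N → a ∈ Ideal.span {F, l}) (hinf : Inf (snds N) (linForm (v.g' 0)))
    (hsep : ∀ x y y', (∀ b ∈ snds N, (rho v.g b).evalEval x y = 0) →
      (∀ b ∈ snds N, (rho v.g b).evalEval x y' = 0) → y = y')
    (hdir : ∀ x y, (∀ b ∈ snds N, (rho v.g b).evalEval x y = 0) →
      ∃ b ∈ snds N, (derivative (rho v.g b)).evalEval x y ≠ 0) :
    ∃ w : Pt ℂ, w.Eqs F ∧ linForm (w.g' 3) = l ∧ ∃ κ : ℂ, ∀ G : Pol ℂ, G.IsHomogeneous 11 →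
      rho w.g G = w.G F → lin 1 κ 0 1 N = Nt F l w.H G := by
  have hl : l.IsHomogeneous 1 := h.e3 ▸ linForm_hom _
  have hl0 : l ≠ 0 := h.e3 ▸ linForm_ne_zero h.e1 3
  have hp := hF.sections l hl hl0
  have hm := Pt.f_monic hF.homog h.e2
  have hd := Pt.natDegree_f hF.homog h.e2
  let J := (snds N).map (rho v.g)
  have hfJ : v.f F ∈ J := J.mul_mem_left _ (Ideal.mem_map_of_mem _ hN.F_mem)
  obtain ⟨b0, hb0, d0, hd0, hb0'⟩ := hN.exists_hom hF hl hl0 hK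
  obtain ⟨r, hr, a1, a2, e⟩ := exists_C_mem hm (prime_C hF v h.e1 h.e2).irreducible
    (c := rho v.g b0) fun e => hb0' (h.mem_of_dvd hF.homog hp hd0 e)
  obtain ⟨χ, η, hχ, hχd, hη, hJ⟩ := exists_chi_eta (J := J)
    (finrank_quot hF.homog h hp hN hinf (hN.hilb hK)) hr
    (by rw [e]; exact add_mem (J.mul_mem_left _ hfJ) (J.mul_mem_left _
      (Ideal.mem_map_of_mem _ hb0)))
    (reduce_one hm hfJ (fun x y y' k1 k2 => hsep x y y'
      (fun b hb => k1 _ (Ideal.mem_map_of_mem _ hb)) fun b hb => k2 _ (Ideal.mem_map_of_mem _ hb))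
      fun x y k1 => by
        obtain ⟨b, hb, e⟩ := hdir x y fun b hb => k1 _ (Ideal.mem_map_of_mem _ hb)
        exact ⟨_, Ideal.mem_map_of_mem _ hb, e⟩)
  let w0 : Pt ℂ := ⟨v.g, v.g', v.tau, fun i => χ.coeff i, fun i => η.coeff i, 0, 0⟩
  have c1 : w0.chi = χ := chi_eq hχ hχd
  have c2 : w0.eta = η := pol_coeff hη
  have c3 : rho v.g w0.H = C χ := c1 ▸ Pt.rho_H (v := w0) h.e1
  obtain ⟨a, ha, haH⟩ : ∃ a : Pol ℂ, a.IsHomogeneous 11 ∧ (a, w0.H) ∈ N := by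
    obtain ⟨a, ha⟩ := mem_snds.mp ((mem_map_iff hF.homog h hp hN hinf w0.H_hom).mp
      ((hJ _).mpr (by rw [c3, eval_C])))
    exact ⟨_, MvPolynomial.homogeneousComponent_isHomogeneous 11 a, by
      simpa [MvPolynomial.homogeneousComponent_eq_self w0.H_hom] using hN.comp _ _ ha 11⟩
  have hmax : ∀ a' b, (a', b) ∈ N ↔ a' * w0.H - a * b ∈ Ideal.span {F, l} := fun a' b =>
    ⟨fun k => hN.det _ _ _ _ k haH, hN.max _ _ _ _ haH
      (Or.inr fun k => hχ.ne_zero (h.C_eq_zero hF.homog k c3))⟩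
  let g0 := rho v.g (-a) %ₘ v.f F
  have eg0 : g0 + v.f F * (rho v.g (-a) /ₘ v.f F) = rho v.g (-a) := modByMonic_add_div _ _
  have hT : TD 11 g0 := TD.modByMonic hm hd (Pt.TD_f hF.homog) (TD_rho _ ha.neg)
  have hg5 : g0.natDegree < 6 := by
    have := natDegree_modByMonic_lt (rho v.g (-a)) hm (by
      intro e; rw [e, natDegree_one] at hd; omega)
    rwa [hd] at this
  have e3 : χ ∣ (v.f F).eval η := (hJ _).mp hfJ
  have hβ : (w0.beta F).Monic := Pt.beta_monic hF.homog h.e2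
  have hβ5 : (w0.beta F).coeff 5 = 1 := Pt.coeff_beta hF.homog h.e2
  have hβd : (w0.beta F).natDegree ≤ 5 := Pt.natDegree_beta hF.homog
  obtain ⟨u, hu⟩ : C χ ∣ g0 - C (g0.coeff 5) * w0.beta F := by
    obtain ⟨n, hn⟩ := exists_hom_ge h.e1 (X - C η)
    obtain ⟨Y, hY, eY⟩ := hn n le_rfl
    obtain ⟨a', ha'⟩ := mem_snds.mp ((mem_map_iff hF.homog h hp hN hinf hY).mp
      ((hJ _).mpr (by simp [eY])))
    obtain ⟨s, hs⟩ := h.dvd ((hmax _ _).mp ha')
    rw [map_sub, map_mul, map_mul, c3, eY] at hs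
    rw [map_neg] at eg0
    obtain ⟨q, hq⟩ := e3
    have ef : v.f F = (X - C η) * w0.beta F + C χ * C q := by
      have := Pt.f_eq (F := F) (v := w0)
      rw [c2] at this
      rw [← map_mul, ← hq]
      exact this
    have k1 : C χ ∣ (X - C η) * (g0 - w0.beta F * (s - (X - C η) * (-rho v.g a /ₘ v.f F))) :=
      ⟨C q * (s - (X - C η) * (-rho v.g a /ₘ v.f F)) - rho v.g a', by
        linear_combination (X - C η) * eg0 + hs + (s - (X - C η) * (-rho v.g a /ₘ v.f F)) * ef⟩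
    replace k1 := (Pt.map_mk_eq_zero_iff _ _).mpr k1
    rw [Polynomial.map_mul,
      ((monic_X_sub_C η).map _).mul_right_eq_zero_iff, Polynomial.map_sub, Polynomial.map_mul,
      sub_eq_zero] at k1
    have : Nontrivial (AdjoinRoot χ) := AdjoinRoot.nontrivial _ (by
      rw [degree_eq_natDegree hχ.ne_zero, hχd]; norm_num)
    refine (Pt.map_mk_eq_zero_iff _ _).mp ?_
    refine eq_zero_of_dvd_of_natDegree_lt (hβ.map (AdjoinRoot.mk χ)) ?_ ?_
    · rw [Polynomial.map_sub, k1, Polynomial.map_mul]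
      exact dvd_sub (dvd_mul_right _ _) (dvd_mul_left _ _)
    · rw [hβ.natDegree_map, natDegree_eq_of_le_of_coeff_ne_zero hβd (by simp [hβ5])]
      refine lt_of_le_of_lt natDegree_map_le (Nat.lt_succ_of_le (n := _) (m := 4) ?_)
      rw [natDegree_le_iff_coeff_eq_zero]
      intro i hi
      rw [coeff_sub, coeff_C_mul]
      rcases Nat.lt_or_ge 5 i with hi | hi
      · rw [coeff_eq_zero_of_natDegree_lt (p := g0) (by omega),
          coeff_eq_zero_of_natDegree_lt (p := w0.beta F) (by omega)]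
        simp
      · obtain rfl : i = 5 := by omega
        simp [hβ5]
  obtain ⟨k1, k2, hk⟩ : IsCoprime χ (g0.coeff 5) := by
    rw [isCoprime_iff_aeval_ne_zero_of_isAlgClosed ℂ ℂ]
    intro x
    by_contra hne
    push Not at hne
    obtain ⟨χ1, e1⟩ : X - C x ∣ χ := dvd_iff_isRoot.mpr hne.1
    obtain ⟨ε1, e2⟩ : X - C x ∣ g0.coeff 5 := dvd_iff_isRoot.mpr hne.2
    obtain ⟨n, hn⟩ := exists_hom_ge h.e1 (C χ1)
    obtain ⟨Z, hZ, eZ⟩ := hn n le_rfl
    have e1' := congrArg (C : ℂ[X] → ℂ[X][X]) e1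
    have e2' := congrArg (C : ℂ[X] → ℂ[X][X]) e2
    rw [map_mul] at e1' e2'
    obtain ⟨k, R, S, T, e', -⟩ := hom_mem h.e1 (hZ.mul ha.neg) hF.homog w0.H_hom
      (r := C (C v.tau) * C χ1 * (rho v.g (-a) /ₘ v.f F)) (s := C ε1 * w0.beta F + C χ1 * u) (by
        rw [map_mul, eZ, c3]
        have ef : v.f F = C (C v.tau) * rho v.g F := rfl
        linear_combination (-C χ1) * eg0 + C χ1 * hu + C χ1 * w0.beta F * e2' -
          C ε1 * w0.beta F * e1' + C χ1 * (rho v.g (-a) /ₘ v.f F) * ef)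
    have k3 := (hJ _).mp (Ideal.mem_map_of_mem (rho v.g) (mem_snds.mpr ⟨-S,
      (hmax _ (linForm (v.g' 0) ^ k * Z)).mpr (Ideal.mem_span_pair.mpr ⟨R, T, by
        rw [← h.e3]; linear_combination -e'⟩)⟩))
    rw [map_mul, map_pow, rho_U0 h.e1, one_pow, one_mul, eZ, eval_C] at k3
    have h0 : χ1 ≠ 0 := right_ne_zero_of_mul (e1 ▸ hχ.ne_zero)
    have k4 := natDegree_le_of_dvd k3 h0
    have k5 := congrArg natDegree e1
    rw [natDegree_mul (X_sub_C_ne_zero x) h0, natDegree_X_sub_C] at k5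
    omega
  let w : Pt ℂ := ⟨v.g, v.g', v.tau, fun i => χ.coeff i, fun i => η.coeff i,
    fun i => (g0.coeff 5).coeff i, fun i => (k2 %ₘ χ).coeff i⟩
  have d1 : w.chi = χ := c1
  have hlt : ∀ j, 1 ≤ j → (g0.coeff j).degree < 11 := fun j hj =>
    lt_of_le_of_lt (degree_le_of_natDegree_le ((hT.natDegree_coeff j).trans
      (show 11 - j ≤ 10 by omega))) (by norm_num)
  have d3 : w.eps = g0.coeff 5 := pol_coeff (hlt 5 (by omega))
  have d4 : w.eps' = k2 %ₘ χ := pol_coeff (c1 ▸ w0.degree_mod k2)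
  have d5 : ∀ j, w.Gc F j = g0.coeff j %ₘ χ := fun j => by
    rw [Pt.Gc, d1, d3]
    refine (modByMonic_eq_of_dvd_sub hχ ⟨u.coeff j, ?_⟩).symm
    have := congrArg (fun p => p.coeff j) hu
    simp only [coeff_sub, coeff_C_mul] at this
    exact this
  have d6 : ∀ j, 1 ≤ j → w.Gc F j = g0.coeff j := fun j hj => by
    rw [d5, (modByMonic_eq_self_iff hχ).mpr]
    rw [degree_eq_natDegree hχ.ne_zero, hχd]
    exact hlt j hj
  obtain ⟨κ, hκ⟩ : ∃ κ, g0.coeff 0 /ₘ χ = C κ := ⟨_, eq_C_of_natDegree_eq_zero (by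
    have := hT.natDegree_coeff 0
    rw [natDegree_divByMonic _ hχ]
    omega)⟩
  have d7 : g0 = w.G F + C (χ * C κ) := by
    ext1 j
    rw [coeff_add, Pt.coeff_G, coeff_C]
    rcases Nat.eq_zero_or_pos j with rfl | hj
    · rw [if_pos (by omega), if_pos rfl, d5, ← hκ, modByMonic_add_div]
    · rw [if_neg hj.ne', add_zero]
      split_ifs with hj'
      · rw [d6 j hj]
      · exact coeff_eq_zero_of_natDegree_lt (by omega)
  refine ⟨w, ⟨h.e1, h.e2, ?_, ?_, fun p => ?_⟩, h.e3, -κ, fun G hG eG => ?_⟩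
  · rw [d1, show w.eta = η from c2]
    exact e3
  · rw [d1, d3, d4, modByMonic_eq_sub_mul_div]
    exact ⟨-k1 - g0.coeff 5 * (k2 /ₘ χ), by linear_combination hk⟩
  · have := p.2
    have := p.1.2.2
    rw [d6 _ (by omega)]
    exact hT _ _ (by omega)
  · have hH : w.H = w0.H := rfl
    have k3 : -a - MvPolynomial.C κ * w0.H - G ∈ Ideal.span {F, l} :=
      h.mem_of_dvd hF.homog hp ((ha.neg.sub (w0.H_hom.C_mul κ)).sub hG)
        ⟨rho v.g (-a) /ₘ v.f F, by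
          have eG' : rho v.g G = w.G F := eG
          rw [map_sub, map_sub, map_mul, c3, rho_C, eG']
          rw [map_mul] at d7
          linear_combination d7 - eg0⟩
    ext ⟨a', b⟩
    rw [mem_lin, hmax, mem_Nt, hH]
    constructor
    · intro k
      convert sub_mem k (Ideal.mul_mem_left _ b k3) using 1
      simp only [map_one, map_neg, map_zero]; ring
    · intro k
      convert add_mem k (Ideal.mul_mem_left _ b k3) using 1
      simp only [map_one, map_neg, map_zero]; ring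

theorem IsExtension.exists_pt (hF : GoodSextic F) {M : Type} [AddCommGroup M] [Module (Pol ℂ) M]
    {GM : Grading ℂ M} {I : Ideal (Pol ℂ)} (hE : IsExtension F GM I) (hl : l.IsHomogeneous 1)
    (hl0 : l ≠ 0) (hI : l ∈ I) : ∃ w : Pt ℂ, w.Eqs F ∧ ∀ (G : Pol ℂ), rho w.g G = w.G F →
      ∀ ha : Adm F (linForm (w.g' 3)) w.H G,
      ∃ e : Qm F (Nt F (linForm (w.g' 3)) w.H G) →ₗ[Pol ℂ] M, Function.Bijective e ∧
        ∀ d u, u ∈ ha.gr.piece d → e u ∈ GM.piece d := by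
  have hp := hF.sections l hl hl0
  obtain ⟨s, m, h1, h2, h3⟩ := hE.pencil hF.homog hF.irred hl hl0 hI
  have hN := hE.pen hF.irred hl0 hp h1 h2 h3
  obtain ⟨v0, hv0⟩ := exists_frame_l hF.homog hF.irred hl hl0
  obtain ⟨b, hb, d, hd, hb'⟩ := hN.exists_hom hF hl hl0 h3
  obtain ⟨v1, hv1, hinf⟩ := frame_inf hF hv0 hp hN.F_mem hN.l_mem hb hd hb'
  obtain ⟨t, k1, k2, k3⟩ := exists_t hF hv1 hN hp hinf
  have hN1 := hN.lin (p := 1) (q := 0) (r := -t) (w := 1) (by simp)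
  obtain ⟨b, hb, d, hd, hb'⟩ := hN1.exists_hom hF hl hl0 k1
  obtain ⟨v2, hv2, e0, hsep, hdir⟩ := frame_sep hF hv1 hp hN1.F_mem hb hd hb' k3
  obtain ⟨w, hw, rfl, κ, hκ⟩ := MP_2b2d3b_ag.exists_pt hF hv2 hN1 k1 (e0 ▸ k2) hsep hdir
  refine ⟨w, hw, fun G eG ha => ?_⟩
  have hP := (h1.lin 1 0 (-t) 1 (by simp)).lin 1 κ 0 1 (by simp)
  obtain ⟨e, he, he'⟩ := hP.exists_equiv (N := Nt F (linForm (w.g' 3)) w.H G)
    (by rw [Nof_lin, Nof_lin, hκ G ha.hG eG])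
  refine ⟨e, he, ?_⟩
  rintro d _ ⟨a, b, hab, ha, hb, rfl⟩
  exact hP.to_piece ha hb (he' a b hab)

theorem main (hF : GoodSextic F) :
    ∃ (B : Type) (_ : CommRing B) (_ : IsDomain B) (_ : Algebra ℂ B) (_ : Algebra.FiniteType ℂ B)
      (𝓜 : Type) (_ : AddCommGroup 𝓜) (_ : Module (Pol B) 𝓜) (G : Grading B 𝓜) (c : Fin 4 → B),
      IsRankTwoBundle (MvPolynomial.map (algebraMap ℂ B) F) 𝓜 ∧ AlgebraicIndependent ℂ c ∧
      (∀ t : B →ₐ[ℂ] ℂ, ∃ (M : Type) (_ : AddCommGroup M) (_ : Module (Pol ℂ) M)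
        (GM : Grading ℂ M) (I : Ideal (Pol ℂ)), IsExtension F GM I ∧
        linForm (fun i => t (c i)) ≠ 0 ∧ linForm (fun i => t (c i)) ∈ I ∧ IsFibre t G GM) ∧
      ∀ (M : Type) [AddCommGroup M] [Module (Pol ℂ) M] (GM : Grading ℂ M) (I : Ideal (Pol ℂ)),
        IsExtension F GM I → (∃ l ∈ I, l.IsHomogeneous 1 ∧ l ≠ 0) →
        ∃ t : B →ₐ[ℂ] ℂ, IsFibre t G GM := by
  obtain ⟨B, _, _, _, _, v, hv, hind, U⟩ := exists_base hF
  obtain ⟨G, hG, eG⟩ := hv.exists_G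
  have : IsNoetherianRing B := Algebra.FiniteType.isNoetherianRing ℂ B
  have ha := hv.adm (hF.homog.map _) (smooth_prime hF) hG eG
  have key : ∀ t : B →ₐ[ℂ] ℂ, (v.map (t : B →+* ℂ)).Eqs F ∧
      rho (v.map (t : B →+* ℂ)).g (MvPolynomial.map (t : B →+* ℂ) G) =
        (v.map (t : B →+* ℂ)).G F ∧
      ∃ ha' : Adm F (linForm ((v.map (t : B →+* ℂ)).g' 3)) (v.map (t : B →+* ℂ)).H
        (MvPolynomial.map (t : B →+* ℂ) G), IsFibre t ha.gr ha'.gr := fun t => by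
    have eF : MvPolynomial.map (t : B →+* ℂ) (MvPolynomial.map (algebraMap ℂ B) F) = F := by
      rw [map_map_alg, map_alg_self]
    have h1 : (v.map (t : B →+* ℂ)).Eqs F := eF ▸ hv.map (t : B →+* ℂ)
    have h2 : rho (v.map (t : B →+* ℂ)).g (MvPolynomial.map (t : B →+* ℂ) G) =
        (v.map (t : B →+* ℂ)).G F := by
      conv_rhs => rw [← eF, Pt.map_G, ← eG]
      exact rho_map _ _ _
    have h3 := h1.adm hF.homog (fun q hq hi h => by
      simpa only [map_alg_self] using smooth_prime hF q hq hi (by rwa [map_alg_self]))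
      (hG.map _) h2
    exact ⟨h1, h2, h3, fibre t ha h3 eF (map_linForm _ _) (Pt.map_H _ _) rfl⟩
  refine ⟨B, inferInstance, inferInstance, inferInstance, inferInstance, _, inferInstance,
    inferInstance, ha.gr, v.g' 3, ha.bundle, hind, fun t => ?_, ?_⟩
  · obtain ⟨h1, h2, h3, h4⟩ := key t
    obtain ⟨h5, h6⟩ := h1.extension h2 h3
    exact ⟨_, inferInstance, inferInstance, h3.gr, _, h5, linForm_ne_zero h1.e1 3, h6, h4⟩
  · rintro M _ _ GM I hE ⟨l, hI, hl, hl0⟩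
    obtain ⟨w, hw, h⟩ := hE.exists_pt hF hl hl0 hI
    obtain ⟨t, rfl⟩ := U w hw
    obtain ⟨-, h2, h3, h4⟩ := key t
    obtain ⟨e, he, he'⟩ := h _ h2 h3
    exact ⟨t, h4.trans e he he'⟩

end Pool.Agent.P.MP_2b2d3b_ag
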