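import Pool.Agent.P.MP_2b2d3b_ag.VG

/-!
A sextic with algebraically independent coefficients is smooth, its plane sections are integral
and have no point of multiplicity four.
-/

namespace Pool.Agent.P.MP_2b2d3b_ag

open Polynomial

theorem exists_evalEval_nat {p : ℂ[X][X]} (hp : p ≠ 0) : ∃ x y : ℕ, p.evalEval (x : ℂ) (y : ℂ) ≠ 0 := by
  have key : ∀ q : ℂ[X], (∀ n : ℕ, q.eval (n : ℂ) = 0) → q = 0 := fun q h =>
    eq_zero_of_infinite_isRoot q ((Set.infinite_range_of_injective Nat.cast_injective).mono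
      (by rintro _ ⟨n, rfl⟩; exact h n))
  by_contra h
  push Not at h
  apply hp
  ext1 n
  refine key _ fun x => ?_
  have : p.map (evalRingHom (x : ℂ)) = 0 := key _ fun y => by rw [map_evalRingHom_eval, h]
  simpa using congrArg (fun q => q.coeff n) this

theorem TD_factor {a b : ℂ[X][X]} (ha : a.Monic) (hb : b.Monic) (h : TD 6 (a * b))
    (hd : (a * b).natDegree = 6) : TD a.natDegree a ∧ TD b.natDegree b := by
  rw [TD_iff, map_mul, natDegree_mul ((map_ne_zero_iff _ theta_injective).mpr ha.ne_zero)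
    ((map_ne_zero_iff _ theta_injective).mpr hb.ne_zero)] at h
  rw [ha.natDegree_mul hb] at hd
  have h1 := (TD_iff.mpr (le_refl (theta a).natDegree)).natDegree_le
  have h2 := (TD_iff.mpr (le_refl (theta b).natDegree)).natDegree_le
  exact ⟨TD_iff.mpr (by omega), TD_iff.mpr (by omega)⟩

theorem prime_of_irr {R : Type} [CommRing R] [IsDomain R] [UniqueFactorizationMonoid R]
    {p : R[X]} (h : Irreducible p) : Prime p := h.prime

theorem gmat_three (σ : Equiv.Perm (Fin 4)) (z r1 r2 : ℂ) (c : Fin 4 → ℂ) :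
    gmat σ z r1 r2 c 3 = c := rfl

theorem span_prime {F l : Pol ℂ} {v : Pt ℂ} (hF : F.IsHomogeneous 6) (h : Frame F l v)
    (hirr : Irreducible (v.f F)) : (Ideal.span {F, l}).IsPrime := by
  have hm := fh_monic hF h.e2
  let φ : ℂ[X][X] →+* ℂ[X] := mapRingHom (evalRingHom 1)
  have e : (C (C (C v.tau)) * rhoh v.g F).map φ = v.f F := by
    have e1 : (gw v.g).map (evalRingHom 1) = v.g := by
      ext i j
      simp only [gw, Matrix.map_apply]
      split_ifs with hj <;> simp [*]
    have e2 : MvPolynomial.map (evalRingHom (1 : ℂ)) (MvPolynomial.map C F) = F := by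
      have : (evalRingHom (1 : ℂ)).comp C = RingHom.id ℂ := by ext; simp
      rw [MvPolynomial.map_map, this, MvPolynomial.map_id]
    rw [Polynomial.map_mul, rhoh_apply, ← rho_map, e1, e2, Pt.f]
    simp [φ]
  have h1 : Irreducible (C (C (C v.tau)) * rhoh v.g F) := by
    rw [hm.irreducible_iff_natDegree]
    refine ⟨fun h1 => hirr.ne_one (by rw [← e, h1, Polynomial.map_one]), fun a b ha hb hab => ?_⟩
    have := ((Pt.f_monic hF h.e2).irreducible_iff_natDegree.mp hirr).2 _ _ (ha.map φ) (hb.map φ)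
      (by rw [← Polynomial.map_mul, hab, e])
    rwa [ha.natDegree_map, hb.natDegree_map] at this
  have h2 := (Ideal.span_singleton_prime h1.ne_zero).mpr (prime_of_irr h1)
  have hu : IsUnit (C (C (C v.tau)) : ℂ[X][X][X]) :=
    (((IsUnit.of_mul_eq_one _ h.e2).map C).map C).map C
  convert Ideal.comap_isPrime (rhoh v.g) (Ideal.span {C (C (C v.tau)) * rhoh v.g F})
  ext P
  rw [Ideal.span_insert, ← h.e3, mem_iff_rhoh h.e1, Ideal.map_span, Set.image_singleton,
    Ideal.mem_comap, Ideal.span_singleton_mul_left_unit hu]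

namespace IndepCoeff

variable {F : Pol ℂ}

theorem smooth (hF : IndepCoeff F) (p : Fin 4 → ℂ) (hp : p ≠ 0) :
    ∃ i, MvPolynomial.eval p (MvPolynomial.pderiv i F) ≠ 0 := by
  classical
  by_contra hne
  push Not at hne
  obtain ⟨i, hi⟩ := Function.ne_iff.mp hp
  let σ := Equiv.swap (0 : Fin 4) i
  have h0 : σ 0 = i := by simp [σ]
  let r : Fin 4 → ℂ := fun k => p (σ k) / p i
  let c : Fin 4 → ℂ := Pi.single (σ 3) 1 - Pi.single (σ 0) (r 3)
  obtain ⟨g, hg⟩ := exists_g σ one_ne_zero (r 1) (r 2) (c := c) (by simp [c])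
  have e := col_zero hg (p := p) (w := p i) (by
    have hi' : p i ≠ 0 := hi
    rw [gmat_mulVec]
    simp [h0, r, c, sub_mul, Pi.single_apply, hi'])
  let φ : Fin 4 → (Fin 4 →₀ ℕ) := fun k => Finsupp.single 0 5 + Finsupp.single k 1
  have hφ : Function.Injective φ := fun a b h =>
    Finsupp.single_left_injective one_ne_zero (add_left_cancel h)
  refine hF.key hg {r 1, r 2, r 3} (Finset.univ.image φ) ?_ ?_ (gmat_mem _ σ (one_mem _)
    (Algebra.subset_adjoin (by simp)) (Algebra.subset_adjoin (by simp)) fun j => ?_) ?_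
  · intro m hm
    obtain ⟨k, -, rfl⟩ := Finset.mem_image.mp hm
    simp [φ]
  · rw [Finset.card_image_of_injective _ hφ]
    exact Nat.lt_succ_of_le Finset.card_le_three
  · simp only [c, Pi.sub_apply, Pi.single_apply]
    refine sub_mem ?_ ?_ <;> split_ifs
    exacts [one_mem _, zero_mem _, Algebra.subset_adjoin (by simp), zero_mem _]
  · intro m hm
    obtain ⟨k, -, rfl⟩ := Finset.mem_image.mp hm
    have h1 := MvPolynomial.coeff_pderiv (i := k) (kap g F) (Finsupp.single 0 5)
    have h2 : IsDer fun P : Pol ℂ => MvPolynomial.pderiv k P :=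
      ⟨fun a b => map_add _ a b, fun a b => by simp⟩
    rw [coeff_rho_one (d := 5) (kap_hom g hF.1).pderiv (by simp) (by simp),
      kap, h2.aeval (A := ℂ) (by simp)] at h1
    have h3 : ∀ j, ((rho (1 : Matrix (Fin 4) (Fin 4) ℂ)
        (kap g (MvPolynomial.pderiv j F))).coeff 0).coeff 0 = 0 := fun j => by
      have h4 := hne j
      rw [e, eval_scale _ _ hF.1.pderiv, mul_eq_zero] at h4
      rw [rho_kap, coeff_zero_eq_eval_zero, coeff_zero_eq_eval_zero, ← C_0, ← evalEval,
        evalEval_rho]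
      simpa using h4.resolve_left (pow_ne_zero _ hi)
    simp only [kap] at h3
    simp only [map_sum, map_mul, Finsupp.single_apply, finsetSum_coeff] at h1
    simp only [Fin.reduceEq, if_false, mul_coeff_zero, h3, zero_mul, Finset.sum_const_zero] at h1
    have h5 : MvPolynomial.coeff (φ k) (kap g F) = 0 :=
      (mul_eq_zero.mp h1.symm).resolve_right (Nat.cast_add_one_ne_zero _)
    rw [h5]
    exact zero_mem _

theorem mult (hF : IndepCoeff F) (l : Pol ℂ) (p : Fin 4 → ℂ) (hl : l.IsHomogeneous 1)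
    (hl0 : l ≠ 0) (hp : p ≠ 0) (hlp : MvPolynomial.eval p l = 0) :
    F ∉ Ideal.span {l} ⊔ RingHom.ker (MvPolynomial.eval p) ^ 4 := by
  classical
  intro h
  obtain ⟨c, rfl⟩ := exists_linForm hl
  obtain ⟨i, hi⟩ := Function.ne_iff.mp hp
  have hi' : p i ≠ 0 := hi
  have hs : ∑ k, c k * p k = 0 := by simpa [linForm] using hlp
  obtain ⟨j, hj, hc⟩ : ∃ j, j ≠ i ∧ c j ≠ 0 := by
    by_contra hne
    push Not at hne
    rw [Finset.sum_eq_single i (fun j _ hj => by rw [hne j hj, zero_mul]) (by simp),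
      mul_eq_zero] at hs
    have : c = 0 := funext fun j => by
      by_cases hj : j = i
      · rw [hj]; exact hs.resolve_right hi'
      · exact hne j hj
    exact hl0 (by simp [linForm, this])
  obtain ⟨σ, hσ⟩ := Equiv.Perm.exists_extending_pair (![0, 3] : Fin 2 → Fin 4) ![i, j]
    (by decide) (by
      intro a b hab
      fin_cases a <;> fin_cases b <;> simp_all [eq_comm])
  have h0 : σ 0 = i := hσ 0
  have h3 : σ 3 = j := hσ 1
  obtain ⟨g, hg⟩ := exists_g σ (inv_ne_zero hi') (p (σ 1) / p i) (p (σ 2) / p i) (h3 ▸ hc)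
  have e := col_zero hg (p := p) (w := 1) (by
    rw [gmat_mulVec]
    simp [h0, hs, hi'])
  refine hF.key2 hg ({(p i)⁻¹, p (σ 1) / p i, p (σ 2) / p i} ∪ Finset.univ.image c) (k := 3)
    (by omega) ?_ (gmat_mem _ σ (Algebra.subset_adjoin (by simp)) (Algebra.subset_adjoin (by simp))
    (Algebra.subset_adjoin (by simp)) fun j => Algebra.subset_adjoin (by simp)) fun a b hab => ?_
  · have h1 : (tri 3).card = 10 := by decide
    have h2 := Finset.card_union_le ({(p i)⁻¹, p (σ 1) / p i, p (σ 2) / p i} : Finset ℂ)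
      (Finset.univ.image c)
    have h3 := Finset.card_le_three (a := (p i)⁻¹) (b := p (σ 1) / p i) (c := p (σ 2) / p i)
    have h4 := Finset.card_image_le (s := Finset.univ) (f := c)
    rw [Finset.card_univ, Fintype.card_fin] at h4
    omega
  · let φ : Pol ℂ →+* ℂ[X][X] := theta.comp (rho g : Pol ℂ →+* ℂ[X][X])
    have h1 : (RingHom.ker (MvPolynomial.eval p)).map φ ≤ Ideal.span {X} := by
      rw [Ideal.map_le_iff_le_comap]
      intro P hP
      rw [Ideal.mem_comap, Ideal.mem_span_singleton, X_dvd_iff]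
      ext n
      change ((theta (rho g P)).coeff 0).coeff n = _
      rw [coeff_theta]
      split_ifs with hn
      · obtain rfl : n = 0 := by omega
        rw [coeff_zero_eq_eval_zero, coeff_zero_eq_eval_zero, ← C_0, ← evalEval, evalEval_rho]
        rw [RingHom.mem_ker, e] at hP
        simpa using hP
      · simp
    obtain ⟨_, hx, y, hy, rfl⟩ := Submodule.mem_sup.mp h
    obtain ⟨x, rfl⟩ := Ideal.mem_span_singleton'.mp hx
    have h2 := Ideal.mem_map_of_mem φ hy
    rw [Ideal.map_pow] at h2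
    have h4 := Ideal.pow_right_mono h1 4 h2
    rw [Ideal.span_singleton_pow, Ideal.mem_span_singleton, X_pow_dvd_iff] at h4
    have h5 := coeff_theta (rho g y) (a + b) b
    have h7 : (theta (rho g y)).coeff (a + b) = 0 := h4 (a + b) (by omega)
    rw [h7, if_pos (by omega), Nat.add_sub_cancel, coeff_zero, eq_comm] at h5
    have h6 := rho_U3 hg
    rw [gmat_three] at h6
    have h8 : rho g (x * linForm c + y) = rho g y := by
      rw [map_add, map_mul, h6, mul_zero, zero_add]
    exact (congrArg (fun q : ℂ[X][X] => (q.coeff b).coeff a) h8).trans h5 ▸ zero_mem _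

theorem exists_irr (hF : IndepCoeff F) (c : Fin 4 → ℂ) (j : Fin 4) (hc : c j = 1) :
    ∃ v, Frame F (linForm c) v ∧ Irreducible (v.f F) := by
  classical
  let σ := Equiv.swap (3 : Fin 4) j
  have h3 : σ 3 = j := by simp [σ]
  obtain ⟨g, hg⟩ := exists_g σ one_ne_zero 0 0 (c := c) (by simp [h3, hc])
  let S0 : Finset ℂ := {c (σ 0), c (σ 1), c (σ 2)}
  have hS0 : S0.card ≤ 3 := Finset.card_le_three
  have h28 : (tri 6).card = 28 := by decide
  have hmem : ∀ R : Subalgebra ℚ ℂ, (S0 : Set ℂ) ⊆ R → ∀ i k, gmat σ 1 0 0 c i k ∈ R :=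
    fun R hR => gmat_mem R σ (one_mem _) (zero_mem _) (zero_mem _) fun i => by
      obtain ⟨i, rfl⟩ := σ.surjective i
      fin_cases i
      exacts [hR (by simp [S0]), hR (by simp [S0]), hR (by simp [S0]),
        by simp only [Fin.reduceFinMk, h3, hc]; exact one_mem _]
  have h0 : rho g F ≠ 0 := fun h => hF.key2 hg S0 le_rfl (by omega)
    (hmem _ Algebra.subset_adjoin) fun i k _ => by simp [h]
  obtain ⟨x, y, hxy⟩ := exists_evalEval_nat h0
  rw [evalEval_rho] at hxy
  obtain ⟨v, hv, -, e⟩ := frame_change (F := F) hg (congrArg linForm (gmat_three ..))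
    (T := !![0, 0, 1, 0; 0, 1, x, 0; 1, 0, y, 0; 0, 0, 0, 1])
    (T' := !![-y, 0, 1, 0; -x, 1, 0, 0; 1, 0, 0, 0; 0, 0, 0, 1])
    (by ext i j; fin_cases i <;> fin_cases j <;> simp [Matrix.mul_apply, Fin.sum_univ_four])
    rfl (by simpa [Matrix.mul_apply, Fin.sum_univ_four] using hxy)
  refine ⟨v, hv, ?_⟩
  have hm := Pt.f_monic hF.1 hv.e2
  have hd := Pt.natDegree_f hF.1 hv.e2
  rw [hm.irreducible_iff_natDegree]
  refine ⟨fun h => by rw [h, natDegree_one] at hd; omega, fun a b ha hb hab => ?_⟩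
  by_contra hne
  push Not at hne
  obtain ⟨k1, k2⟩ := TD_factor ha hb (hab ▸ Pt.TD_f hF.1) (hab ▸ hd)
  have k3 := ha.natDegree_mul hb
  rw [hab, hd] at k3
  replace k1 := k1.smul (MvPolynomial.eval (fun i => v.g i 2) F)
  have k4 : rho v.g F = C (C (MvPolynomial.eval (fun i => v.g i 2) F)) * a * b := by
    rw [Pt.rho_F hv.e2, ← hab]; ring
  generalize C (C (MvPolynomial.eval (fun i => v.g i 2) F)) * a = a' at k1 k4
  let co : ℂ[X][X] → ℕ → Finset ℂ := fun p k => (tri k).image fun q => (p.coeff q.2).coeff q.1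
  let S := S0 ∪ (co a' a.natDegree ∪ co b b.natDegree)
  let R := Algebra.adjoin ℚ (S : Set ℂ)
  have hl : ∀ p k, TD k p → co p k ⊆ S → p ∈ lifts (mapRingHom (R.val : R →+* ℂ)) := by
    intro p k hp hs
    rw [lifts_iff_coeff_lifts]
    intro n
    refine (mem_lifts _).mp ((lifts_iff_coeff_lifts _).mpr fun m => ⟨⟨(p.coeff n).coeff m, ?_⟩, rfl⟩)
    by_cases h : m + n ≤ k
    · exact Algebra.subset_adjoin (hs (Finset.mem_image_of_mem _ (a := (m, n)) (mem_tri.mpr h)))
    · rw [hp m n (by omega)]; exact zero_mem _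
  obtain ⟨q, hq⟩ := (mem_lifts _).mp (mul_mem
    (hl _ _ k1 (Finset.subset_union_left.trans Finset.subset_union_right))
    (hl _ _ k2 (Finset.subset_union_right.trans Finset.subset_union_right)))
  refine hF.key2 hv.e1 S le_rfl ?_ (fun i k => ?_) fun i k _ => ?_
  · have j1 : S.card ≤ _ := Finset.card_union_le _ _
    have j2 := Finset.card_union_le (co a' a.natDegree) (co b b.natDegree)
    have j3 : (co a' a.natDegree).card ≤ _ := Finset.card_image_le
    have j4 : (co b b.natDegree).card ≤ _ := Finset.card_image_le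
    have j5 : ∀ k < 6, 0 < k → (tri k).card + (tri (6 - k)).card ≤ 24 := by decide
    have j6 := j5 a.natDegree (by omega) (by omega)
    rw [show 6 - a.natDegree = b.natDegree by omega] at j6
    omega
  · have j1 := hmem R (fun z hz => Algebra.subset_adjoin (Finset.mem_union_left _ hz))
    rw [e, Matrix.mul_apply]
    refine sum_mem fun n _ => mul_mem ?_ (j1 n k)
    fin_cases i <;> fin_cases n <;> simp
  · rw [k4, ← hq, coeff_map, coe_mapRingHom, coeff_map]
    exact Subtype.prop _

theorem good (hF : IndepCoeff F) : GoodSextic F where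
  homog := hF.1
  irred := by
    obtain ⟨v, hv, hirr⟩ := hF.exists_irr (Pi.single 0 1) 0 (by simp)
    have hd := Pt.natDegree_f hF.1 hv.e2
    have hu : IsUnit (C (C v.tau) : ℂ[X][X]) := ((IsUnit.of_mul_eq_one _ hv.e2).map C).map C
    have h0 : F ≠ 0 := fun h => hirr.ne_zero (by simp [Pt.f, h])
    have key : ∀ a b : Pol ℂ, F = a * b → IsUnit (rho v.g a) → IsUnit a := fun a b hab ha => by
      have ha0 : a ≠ 0 := left_ne_zero_of_mul (hab ▸ h0)
      have hb0 : b ≠ 0 := right_ne_zero_of_mul (hab ▸ h0)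
      have h1 : TD b.totalDegree (rho v.g b) := by
        conv => congr; rfl; rw [← MvPolynomial.sum_homogeneousComponent b, map_sum]
        exact TD.sum _ _ fun i hi => (TD_rho _ (MvPolynomial.homogeneousComponent_isHomogeneous
          _ _)).mono (Nat.lt_succ_iff.mp (Finset.mem_range.mp hi))
      have h2 := h1.natDegree_le
      have h3 := hF.1.totalDegree h0
      rw [hab, MvPolynomial.totalDegree_mul_of_isDomain ha0 hb0] at h3
      rw [Pt.f, hab, map_mul, ← mul_assoc, natDegree_mul (hu.mul ha).ne_zero (fun h => by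
        rw [h, mul_zero, natDegree_zero] at hd; omega), natDegree_eq_zero_of_isUnit (hu.mul ha)] at hd
      have h4 := MvPolynomial.totalDegree_eq_zero_iff_eq_C.mp (show a.totalDegree = 0 by omega)
      rw [h4] at ha0 ⊢
      exact (IsUnit.mk0 _ fun h => ha0 (by rw [h, map_zero])).map MvPolynomial.C
    refine ⟨fun h => hirr.not_isUnit (hu.mul (h.map _)), fun a b hab => ?_⟩
    have := ((irreducible_isUnit_mul hu).mp hirr).isUnit_or_isUnit
      (a := rho v.g a) (b := rho v.g b) (by rw [hab, map_mul])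
    exact this.imp (key a b hab) (key b a (by rw [hab, mul_comm]))
  smooth p hp _ := hF.smooth p hp
  sections l hl hl0 := by
    obtain ⟨c, rfl⟩ := exists_linForm hl
    obtain ⟨j, hj⟩ : ∃ j, c j ≠ 0 := by
      by_contra h
      push Not at h
      exact hl0 (by simp [linForm, h])
    obtain ⟨v, hv, hirr⟩ := hF.exists_irr (fun i => (c j)⁻¹ * c i) j (inv_mul_cancel₀ hj)
    have := span_prime hF.1 hv hirr
    have e : linForm (fun i => (c j)⁻¹ * c i) = MvPolynomial.C (c j)⁻¹ * linForm c := by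
      simp [linForm, Finset.mul_sum, mul_assoc]
    rwa [e, Ideal.span_insert, Ideal.span_singleton_mul_left_unit
      ((IsUnit.mk0 _ (inv_ne_zero hj)).map MvPolynomial.C), ← Ideal.span_insert] at this
  mult := hF.mult

end IndepCoeff

end Pool.Agent.P.MP_2b2d3b_ag
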