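import Pool.Agent.P.MP_2b2d3b_ag.Moduli
import Pool.Agent.P.MP_2b2d3b_ag.Extr
import Pool.Agent.P.MP_2b2d3b_ag.VG2

/-!
Auxiliary definitions for the proof of the full statement.
-/

namespace Pool.Agent.P.MP_2b2d3b_ag

open MvPolynomial

section General

variable {B : Type} [CommRing B] {B' : Type} [CommRing B']

/-- monomials of degree `d` -/
abbrev Mon (d : ℕ) : Type := {m : Fin 4 →₀ ℕ // m.degree = d}

instance finite_Mon (d : ℕ) : Finite (Mon d) :=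
  ((Finsupp.finite_of_degree_le (σ := Fin 4) d).subset fun _ h => le_of_eq h).to_subtype

noncomputable instance fintype_Mon (d : ℕ) : Fintype (Mon d) := Fintype.ofFinite _

/-- the form of degree `d` with the given coefficients -/
noncomputable def form {d : ℕ} (c : Mon d → B) : Pol B := ∑ m, monomial m.1 (c m)

/-- the hyperplane at infinity number `c` -/
noncomputable def wc (B : Type) [CommRing B] (c : ℕ) : Pol B :=
  X 3 + (c : Pol B) * X 2 + (c : Pol B) ^ 2 * X 1 + (c : Pol B) ^ 3 * X 0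

/-- the binary form `w ^ n * p (u / w)` -/
noncomputable def hm (u w : Pol B) (p : Polynomial B) (n : ℕ) : Pol B :=
  aeval ![u, w] (p.homogenize n)

/-- the radical of the bilinear form `(a, b) ↦ Λ (a b)` -/
def rad {O : Type} [CommRing O] [Algebra B O] (Λ : O →ₗ[B] B) : Ideal O where
  carrier := {a | ∀ b, Λ (a * b) = 0}
  zero_mem' := fun b => by simp
  add_mem' := fun {a a'} h h' b => by rw [add_mul, map_add, h b, h' b, add_zero]
  smul_mem' := fun c a h b => by rw [smul_eq_mul, mul_comm c, mul_assoc]; exact h _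

theorem mem_rad {O : Type} [CommRing O] [Algebra B O] {Λ : O →ₗ[B] B} {a : O} :
    a ∈ rad Λ ↔ ∀ b, Λ (a * b) = 0 := Iff.rfl

/-- base change of a linear functional on the polynomial ring -/
noncomputable def bcL (φ : B →+* B') (Λ : Pol B →ₗ[B] B) : Pol B' →ₗ[B'] B' :=
  (basisMonomials (Fin 4) B').constr B' fun m => φ (Λ (monomial m 1))

/-- the residue of `p / f` for a monic `f` of degree `n + 1` -/
noncomputable def tau {R : Type} [CommRing R] (f : Polynomial R) (n : ℕ) :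
    Polynomial R →ₗ[R] R :=
  (Polynomial.lcoeff R n).comp (Polynomial.modByMonicHom f)

/-- affine coordinates `z = x₀, y = x₁, x = x₂` on `wc = 1` -/
noncomputable def aff (B : Type) [CommRing B] (c : ℕ) :
    Pol B →ₐ[B] Polynomial (Polynomial (Polynomial B)) :=
  aeval (![Polynomial.X, Polynomial.C Polynomial.X, Polynomial.C (Polynomial.C Polynomial.X),
    1 - (c : Polynomial (Polynomial (Polynomial B))) * Polynomial.C (Polynomial.C Polynomial.X) -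
      (c : Polynomial (Polynomial (Polynomial B))) ^ 2 * Polynomial.C Polynomial.X -
      (c : Polynomial (Polynomial (Polynomial B))) ^ 3 * Polynomial.X] :
    Fin 4 → Polynomial (Polynomial (Polynomial B)))

/-- A complete intersection of `F` with a binary form in `(x₂, w)` and one in `(x₁, w)`. -/
structure Box (B : Type) [CommRing B] where
  c : ℕ
  u : B
  F : Pol B
  a1 : Polynomial B
  a2 : Polynomial B
  n1 : ℕ
  n2 : ℕ

namespace Box

/-- the conditions on the data -/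
structure Ok (x : Box B) : Prop where
  hF : x.F.IsHomogeneous 6
  hu : x.u * eval ![1, 0, 0, -(x.c : B) ^ 3] x.F = 1
  m1 : x.a1.Monic
  d1 : x.a1.natDegree = x.n1 + 1
  m2 : x.a2.Monic
  d2 : x.a2.natDegree = x.n2 + 1

/-- first binary form, of degree `n1 + 1` -/
noncomputable def g1 (x : Box B) : Pol B := hm (X 2) (wc B x.c) x.a1 (x.n1 + 1)

/-- second binary form, of degree `n2 + 1` -/
noncomputable def g2 (x : Box B) : Pol B := hm (X 1) (wc B x.c) x.a2 (x.n2 + 1)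

/-- the global residue -/
noncomputable def mu (x : Box B) : Pol B →ₗ[B] B :=
  (tau x.a1 x.n1).comp <|
    ((tau (x.a2.map Polynomial.C) x.n2).restrictScalars B).comp <|
      ((tau (Polynomial.C (Polynomial.C (Polynomial.C x.u)) * aff B x.c x.F) 5).restrictScalars
        B).comp (aff B x.c).toLinearMap

/-- base change -/
noncomputable def map (φ : B →+* B') (x : Box B) : Box B' :=
  ⟨x.c, φ x.u, MvPolynomial.map φ x.F, x.a1.map φ, x.a2.map φ, x.n1, x.n2⟩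

/-- enlarging the two binary forms -/
noncomputable def mul (x : Box B) (h1 h2 : Polynomial B) : Box B :=
  ⟨x.c, x.u, x.F, x.a1 * h1, x.a2 * h2, x.n1 + h1.natDegree, x.n2 + h2.natDegree⟩

end Box

/-- A family of Gorenstein subschemes of `wc ≠ 0`, with a generator `Λ` of the dualising module that
kills the cubics; the forms `b i` of degree `D` give a basis of the coordinate ring. -/
structure Gor (c : ℕ) {ι : Type} [Fintype ι] [DecidableEq ι] (D : ℕ) (Λ : Pol B →ₗ[B] B)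
    (b : ι → Pol B) : Prop where
  hw : ∀ a, Λ (wc B c * a) = Λ a
  h3 : ∀ a : Pol B, a.IsHomogeneous 3 → Λ a = 0
  hb : ∀ i, (b i).IsHomogeneous D
  span : ∀ a, ∃ r : ι → B, a - ∑ i, C (r i) * b i ∈ rad Λ
  gram : IsUnit (Matrix.of fun i j => Λ (b i * b j)).det

/-- the data of a Pfaffian presentation -/
structure Pf (B : Type) [CommRing B] where
  φ : Fin 3 → Fin 2 → Pol B
  ξ : Fin 3 → Pol B
  G : Fin 3 → Pol B
  H : Fin 2 → Pol B

namespace Pf

/-- base change -/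
noncomputable def map (ψ : B →+* B') (p : Pf B) : Pf B' where
  φ i j := MvPolynomial.map ψ (p.φ i j)
  ξ i := MvPolynomial.map ψ (p.ξ i)
  G i := MvPolynomial.map ψ (p.G i)
  H j := MvPolynomial.map ψ (p.H j)

/-- degrees -/
structure Hom (p : Pf B) : Prop where
  φ : ∀ i j, (p.φ i j).IsHomogeneous 1
  ξ : ∀ i, (p.ξ i).IsHomogeneous 3
  G : ∀ i, (p.G i).IsHomogeneous 4
  H : ∀ j, (p.H j).IsHomogeneous 2

/-- the three quadrics -/
noncomputable def q (p : Pf B) : Fin 3 → Pol B :=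
  ![p.φ 1 0 * p.φ 2 1 - p.φ 1 1 * p.φ 2 0, p.φ 2 0 * p.φ 0 1 - p.φ 2 1 * p.φ 0 0,
    p.φ 0 0 * p.φ 1 1 - p.φ 0 1 * p.φ 1 0]

/-- the two quartics -/
noncomputable def u (p : Pf B) (j : Fin 2) : Pol B := ∑ i, p.ξ i * p.φ i j

/-- the Pfaffian -/
noncomputable def pf (p : Pf B) : Pol B := ∑ i, p.G i * p.q i + ∑ j, p.H j * p.u j

/-- the ideal of the three quadrics -/
noncomputable def qI (p : Pf B) : Ideal (Pol B) := Ideal.span (Set.range p.q)

/-- the ideal of the five Pfaffians -/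
noncomputable def I (p : Pf B) : Ideal (Pol B) := p.qI ⊔ Ideal.span (Set.range p.u)

/-- the skew matrix -/
noncomputable def Th (p : Pf B) : Matrix (Fin 6) (Fin 6) (Pol B) :=
  !![0, -p.G 0, -p.G 1, -p.G 2, -p.H 1, p.H 0;
    p.G 0, 0, p.ξ 2, -p.ξ 1, p.φ 0 0, p.φ 0 1;
    p.G 1, -p.ξ 2, 0, p.ξ 0, p.φ 1 0, p.φ 1 1;
    p.G 2, p.ξ 1, -p.ξ 0, 0, p.φ 2 0, p.φ 2 1;
    p.H 1, -p.φ 0 0, -p.φ 1 0, -p.φ 2 0, 0, 0;
    -p.H 0, -p.φ 0 1, -p.φ 1 1, -p.φ 2 1, 0, 0]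

/-- the upper half of the matrix of `4 × 4` Pfaffians -/
noncomputable def up (p : Pf B) : Matrix (Fin 6) (Fin 6) (Pol B) :=
  !![0, p.q 0, p.q 1, p.q 2, p.u 1, -p.u 0;
    0, 0, -(p.H 0 * p.φ 2 0) - p.H 1 * p.φ 2 1, p.H 0 * p.φ 1 0 + p.H 1 * p.φ 1 1,
      p.G 1 * p.φ 2 1 - p.G 2 * p.φ 1 1 - p.H 0 * p.ξ 0,
      p.G 2 * p.φ 1 0 - p.G 1 * p.φ 2 0 - p.H 1 * p.ξ 0;
    0, 0, 0, -(p.H 0 * p.φ 0 0) - p.H 1 * p.φ 0 1,
      p.G 2 * p.φ 0 1 - p.G 0 * p.φ 2 1 - p.H 0 * p.ξ 1,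
      p.G 0 * p.φ 2 0 - p.G 2 * p.φ 0 0 - p.H 1 * p.ξ 1;
    0, 0, 0, 0, p.G 0 * p.φ 1 1 - p.G 1 * p.φ 0 1 - p.H 0 * p.ξ 2,
      p.G 1 * p.φ 0 0 - p.G 0 * p.φ 1 0 - p.H 1 * p.ξ 2;
    0, 0, 0, 0, 0, p.G 0 * p.ξ 0 + p.G 1 * p.ξ 1 + p.G 2 * p.ξ 2;
    0, 0, 0, 0, 0, 0]

/-- the matrix of `4 × 4` Pfaffians -/
noncomputable def Om (p : Pf B) : Matrix (Fin 6) (Fin 6) (Pol B) := p.up - p.up.transpose

end Pf

/-- degrees of the generators of the Pfaffian module -/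
def pfDeg : Fin 6 → ℕ := ![0, 1, 1, 1, 3, 3]

/-- the ideal of the twisted cubic in the coordinates `y = g x` -/
noncomputable def tcI (g : Matrix (Fin 4) (Fin 4) B) : Ideal (Pol B) :=
  Ideal.span {linForm (g 0) * linForm (g 2) - linForm (g 1) ^ 2,
    linForm (g 0) * linForm (g 3) - linForm (g 1) * linForm (g 2),
    linForm (g 1) * linForm (g 3) - linForm (g 2) ^ 2}

/-- homogeneous ideal -/
def HomI (I : Ideal (Pol B)) : Prop := ∀ b ∈ I, ∀ d, homogeneousComponent d b ∈ I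

/-- saturated ideal -/
def SatI (I : Ideal (Pol B)) : Prop := ∀ b : Pol B, (∀ i, ∃ k : ℕ, X i ^ k * b ∈ I) → b ∈ I

end General

section Filtered

variable {A : Type} [CommRing A] [Algebra ℂ A]

/-- image of the forms of degree `d` -/
noncomputable def V (ev : Pol ℂ →ₐ[ℂ] A) (d : ℕ) : Submodule ℂ A := (Hd d).map ev.toLinearMap

/-- A finite dimensional Gorenstein quotient, with `lam` killing the forms of degree `r`. -/
structure Filt (ev : Pol ℂ →ₐ[ℂ] A) (w : Pol ℂ) (lam : A →ₗ[ℂ] ℂ) (r : ℕ) : Prop where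
  fin : Module.Finite ℂ A
  surj : Function.Surjective ev
  hw1 : w.IsHomogeneous 1
  hw : ev w = 1
  perf : ∀ a, (∀ b, lam (a * b) = 0) → a = 0
  kill : ∀ a : Pol ℂ, a.IsHomogeneous r → lam (ev a) = 0

/-- the sextic equations have no common zero on `w = 0` -/
def Av6 (ev : Pol ℂ →ₐ[ℂ] A) (w : Pol ℂ) : Prop :=
  ∃ D, ∀ a : Pol ℂ, a.IsHomogeneous D →
    a ∈ Ideal.span {b : Pol ℂ | b.IsHomogeneous 6 ∧ ev b = 0} ⊔ Ideal.span {w}

/-- `h`-vector `(1, 3, 3, 3, 1)` -/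
structure AGd (ev : Pol ℂ →ₐ[ℂ] A) : Prop where
  d1 : Module.finrank ℂ (V ev 1) = 4
  d2 : Module.finrank ℂ (V ev 2) = 7
  d3 : Module.finrank ℂ (V ev 3) = 10
  d4 : V ev 4 = ⊤
  lef : ∃ w' : Pol ℂ, w'.IsHomogeneous 1 ∧
    V ev 2 ≤ V ev 1 ⊔ (V ev 1).map (LinearMap.mulLeft ℂ (ev w')) ∧
    V ev 3 ≤ V ev 2 ⊔ (V ev 2).map (LinearMap.mulLeft ℂ (ev w'))

/-- two skew lines or a double line -/
structure Spd (ev : Pol ℂ →ₐ[ℂ] A) : Prop where
  d2 : Module.finrank ℂ (V ev 2) ≤ 6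
  d5 : V ev 5 = ⊤
  str : ∃ (x y : A) (k : ℂ), y * y = k • y ∧ LinearIndependent ℂ ![1, x, y, x * y] ∧
    V ev 1 = Submodule.span ℂ (Set.range ![1, x, y, x * y])

/-- five points on a line and six points on a skew line -/
def TwoLines (c : ℕ) (Λ : Pol ℂ →ₗ[ℂ] ℂ) : Prop :=
  ∃ (e : Matrix (Fin 4) (Fin 4) ℂ) (σ : Fin 5 → ℂ) (r : Fin 6 → ℂ) (α β : ℂ),
    e.det ≠ 0 ∧ Function.Injective σ ∧ Function.Injective r ∧ (∀ j, r j ≠ 0) ∧ α ≠ 0 ∧ β ≠ 0 ∧
    (∀ k, eval (e k) (wc ℂ c) = ![1, 0, 1, 0] k) ∧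
    ∀ a, Λ a = ∑ i, α / (∏ k ∈ Finset.univ.erase i, (σ i - σ k)) * eval (e 0 + σ i • e 1) a +
      ∑ j, β * r j / (∏ k ∈ Finset.univ.erase j, (r j - r k)) * eval (e 2 + r j • e 3) a

/-- the plane section `∑ cᵢ xᵢ = 0` is smooth -/
def SmoothSec (F : Pol ℂ) (c : Fin 4 → ℂ) : Prop :=
  ∀ p : Fin 4 → ℂ, p ≠ 0 → eval p F = 0 → ∀ μ : ℂ, ¬ ∀ i, eval p (pderiv i F) = μ * c i

end Filtered

end Pool.Agent.P.MP_2b2d3b_ag
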