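import Pool.Agent.P.MP_2b2d3b_ag.St

/-!
Hilbert functions, dehomogenisation and regular sequences.
-/

namespace Pool.Agent.P.MP_2b2d3b_ag

open MvPolynomial Module

namespace HilbP

theorem hilb_add_Id (I : Ideal (Pol ℂ)) (d : ℕ) :
    hilb I d + finrank ℂ (Id I d) = finrank ℂ (Hd d) := by
  have h1 := rank_null (Ideal.Quotient.mkₐ ℂ I).toLinearMap (Hd d)
  have e1 : LinearMap.ker (Ideal.Quotient.mkₐ ℂ I).toLinearMap ⊓ Hd d = Id I d := by
    ext x
    simp [mem_Id, Ideal.Quotient.eq_zero_iff_mem]
  rw [e1] at h1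
  exact h1

theorem comp_mul_lt {B : Type} [CommRing B] {F : Pol B} {k : ℕ} (hF : F.IsHomogeneous k)
    (a : Pol B) {n : ℕ} (hn : n < k) : homogeneousComponent n (a * F) = 0 := by
  conv_lhs => rw [← sum_homogeneousComponent a, Finset.sum_mul, map_sum]
  refine Finset.sum_eq_zero fun i _ => ?_
  rw [homogeneousComponent_of_mem ((homogeneousComponent_isHomogeneous i a).mul hF),
    if_neg (by omega)]

theorem hilb_bot (d : ℕ) : hilb ⊥ d = finrank ℂ (Hd d) := by
  have h := hilb_add_Id ⊥ d
  have e : Id ⊥ d = ⊥ := by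
    rw [eq_bot_iff]
    intro x hx
    exact (mem_Id.mp hx).1
  rw [e, finrank_bot] at h
  exact h

theorem six_choose (d : ℕ) : 6 * (d + 3).choose 3 = (d + 1) * (d + 2) * (d + 3) := by
  induction d with
  | zero => simp
  | succ n ih =>
    have h2 : ∀ m : ℕ, 2 * (m + 2).choose 2 = (m + 1) * (m + 2) := by
      intro m
      induction m with
      | zero => simp
      | succ k hk =>
        rw [show k + 1 + 2 = (k + 2) + 1 from rfl, Nat.choose_succ_succ' (k + 2) 1,
          Nat.choose_one_right]
        nlinarith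
    have h3 := h2 (n + 1)
    rw [show n + 1 + 3 = (n + 3) + 1 from rfl, Nat.choose_succ_succ' (n + 3) 2]
    rw [show n + 1 + 2 = n + 3 from rfl] at h3
    nlinarith

theorem coprime_pow {B : Type} [CommRing B] {n : ℕ} {i j : Fin n} (hij : i ≠ j) (k : ℕ)
    (a s : MvPolynomial (Fin n) B) (h : X i ^ k * a = X j ^ k * s) : X j ^ k ∣ a := by
  classical
  rw [X_pow_eq_monomial, monomial_one_dvd_iff_modMonomial_eq_zero]
  ext m
  by_cases hm : Finsupp.single j k ≤ m
  · rw [coeff_modMonomial_of_le _ hm, coeff_zero]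
  · rw [coeff_modMonomial_of_not_le _ hm, coeff_zero]
    have h1 := congrArg (coeff (Finsupp.single i k + m)) h
    rw [X_pow_eq_monomial, X_pow_eq_monomial, coeff_monomial_mul, one_mul,
      coeff_monomial_mul', if_neg] at h1
    · exact h1
    · intro h2
      apply hm
      rw [Finsupp.single_le_iff] at h2 ⊢
      simpa [Finsupp.single_apply, hij] using h2

theorem exists_monic {B : Type} [CommRing B] {F : Pol B} (hF : F.IsHomogeneous 6)
    (hu : IsUnit (coeff (Finsupp.single 0 6) F)) :
    ∃ u v : B, u * v = 1 ∧ (finSuccEquiv B 3 (C v * F)).Monic := by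
  obtain ⟨v, hv⟩ := hu.exists_right_inv
  refine ⟨_, v, hv, ?_⟩
  have hG : (C v * F : Pol B).IsHomogeneous 6 := hF.C_mul v
  refine Polynomial.monic_of_natDegree_le_of_coeff_eq_one 6 ?_ ?_
  · rw [natDegree_finSuccEquiv]
    exact (degreeOf_le_totalDegree _ _).trans hG.totalDegree_le
  · have h0 := hG.finSuccEquiv_coeff_isHomogeneous 6 0 rfl
    rw [← totalDegree_zero_iff_isHomogeneous, totalDegree_eq_zero_iff_eq_C] at h0
    rw [h0, finSuccEquiv_coeff_coeff]
    have e : Finsupp.cons 6 (0 : Fin 3 →₀ ℕ) = Finsupp.single (0 : Fin 4) 6 := by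
      ext i
      refine Fin.cases ?_ (fun j => ?_) i
      · simp
      · simp
    rw [e, coeff_C_mul, mul_comm, hv, map_one]

end HilbP

open HilbP

theorem hd : S_Hd := by
  classical
  intro d
  have e : Hd d = restrictSupport ℂ
      (((Finset.univ : Finset (Fin 4)).finsuppAntidiag d : Finset _) : Set (Fin 4 →₀ ℕ)) := by
    rw [Hd, homogeneousSubmodule_eq_finsupp_supported, restrictSupport]
    congr 1
    ext m
    simp [Finset.mem_finsuppAntidiag, Finsupp.degree_eq_sum]
  rw [e, finrank_eq_card_basis (basisRestrictSupport ℂ _)]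
  simp only [Finset.coe_sort_coe, Fintype.card_coe]
  rw [Finset.card_finsuppAntidiag_nat_eq_choose, Finset.card_univ, Fintype.card_fin,
    show 4 + d - 1 = d + 3 by omega, Nat.choose_symm_add]

theorem hilbAdd : S_HilbAdd := by
  intro I b e hI hb hreg
  refine ⟨fun d => ?_, fun d hd => ?_⟩
  · set J := I ⊔ Ideal.span {b} with hJ
    let mI := (Ideal.Quotient.mkₐ ℂ I).toLinearMap
    let φ : Pol ℂ →ₗ[ℂ] Pol ℂ ⧸ I := mI ∘ₗ LinearMap.mulLeft ℂ b
    let ψ : (Pol ℂ ⧸ I) →ₗ[ℂ] Pol ℂ ⧸ J :=
      (Ideal.Quotient.factorₐ ℂ (le_sup_left : I ≤ J)).toLinearMap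
    have h1 : finrank ℂ ((Hd d).map φ) = hilb I d := by
      refine finrank_map_eq_of_ker φ mI (Hd d) fun x _ => ?_
      simp only [φ, mI, LinearMap.comp_apply, LinearMap.mulLeft_apply, AlgHom.toLinearMap_apply,
        Ideal.Quotient.mkₐ_eq_mk, Ideal.Quotient.eq_zero_iff_mem]
      exact ⟨hreg x, fun h => I.mul_mem_left _ h⟩
    have h2 := rank_null ψ ((Hd (d + e)).map mI)
    have e1 : ((Hd (d + e)).map mI).map ψ =
        (Hd (d + e)).map (Ideal.Quotient.mkₐ ℂ J).toLinearMap := by
      rw [← Submodule.map_comp]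
      rfl
    have e2 : LinearMap.ker ψ ⊓ (Hd (d + e)).map mI = (Hd d).map φ := by
      ext x
      constructor
      · rintro ⟨hx, y, hy, rfl⟩
        have hyJ : y ∈ J := Ideal.Quotient.eq_zero_iff_mem.mp hx
        obtain ⟨i, hi, z, hz, rfl⟩ := Submodule.mem_sup.mp hyJ
        obtain ⟨c, rfl⟩ := Ideal.mem_span_singleton'.mp hz
        refine ⟨homogeneousComponent d c, homogeneousComponent_isHomogeneous d c, ?_⟩
        have h3 : homogeneousComponent (d + e) (i + c * b) = i + c * b :=
          homogeneousComponent_eq_self hy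
        rw [map_add, comp_mul hb] at h3
        change Ideal.Quotient.mk I (b * _) = Ideal.Quotient.mk I _
        rw [← h3, Ideal.Quotient.eq]
        have : b * homogeneousComponent d c -
            (homogeneousComponent (d + e) i + homogeneousComponent d c * b) =
            -homogeneousComponent (d + e) i := by ring
        rw [this]
        exact I.neg_mem (hI i hi _)
      · rintro ⟨y, hy, rfl⟩
        refine ⟨?_, b * y, ?_, rfl⟩
        · change Ideal.Quotient.mk J (b * y) = 0
          rw [Ideal.Quotient.eq_zero_iff_mem]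
          exact Ideal.mem_sup_right (Ideal.mul_mem_right _ _ (Ideal.mem_span_singleton_self b))
        · rw [add_comm]
          exact hb.mul hy
    rw [e1, e2, h1] at h2
    exact h2
  · refine finrank_map_eq_of_ker _ _ (Hd d) fun x hx => ?_
    simp only [AlgHom.toLinearMap_apply, Ideal.Quotient.mkₐ_eq_mk, Ideal.Quotient.eq_zero_iff_mem]
    refine ⟨fun h => ?_, fun h => Ideal.mem_sup_left h⟩
    obtain ⟨i, hi, z, hz, rfl⟩ := Submodule.mem_sup.mp h
    obtain ⟨c, rfl⟩ := Ideal.mem_span_singleton'.mp hz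
    have h3 : homogeneousComponent d (i + c * b) = i + c * b := homogeneousComponent_eq_self hx
    rw [map_add, comp_mul_lt hb c hd, add_zero] at h3
    rw [← h3]
    exact hI i hi _

theorem hilbF : S_HilbF := by
  intro F hF hF0
  have hb : HomI (⊥ : Ideal (Pol ℂ)) := by
    intro b hb d
    rw [Ideal.mem_bot.mp hb, map_zero]
    exact Ideal.zero_mem _
  obtain ⟨h1, h2⟩ := hilbAdd ⊥ F 6 hb hF fun a ha => by
    rw [Ideal.mem_bot] at ha ⊢
    exact (mul_eq_zero.mp ha).resolve_left hF0
  rw [bot_sup_eq] at h1 h2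
  have h3 : ∀ d < 6, hilb (Ideal.span {F}) d = (d + 3).choose 3 := fun d hd' => by
    rw [h2 d hd', hilb_bot, hd d]
  refine ⟨fun d hd3 => ?_, h3⟩
  by_cases hd6 : d < 6
  · rw [h3 d hd6]
    interval_cases d <;> decide
  · obtain ⟨n, rfl⟩ : ∃ n, d = n + 6 := ⟨d - 6, by omega⟩
    have h4 := h1 n
    rw [hilb_bot, hilb_bot, hd, hd] at h4
    have h5 := six_choose n
    have h6 := six_choose (n + 6)
    nlinarith

theorem dehom : S_Dehom := by
  intro B _ I w a d hI hw ha hmem
  obtain ⟨i, hi, z, hz, e⟩ := Submodule.mem_sup.mp hmem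
  obtain ⟨c, rfl⟩ := Ideal.mem_span_singleton'.mp hz
  let q := Ideal.Quotient.mk I
  have hq : ∀ n, q (homogeneousComponent n i) = 0 := fun n =>
    Ideal.Quotient.eq_zero_iff_mem.mpr (hI i hi n)
  have e' : a = i + c * w - c := by rw [← e]; ring
  have h0 : q (homogeneousComponent 0 a) = -q (homogeneousComponent 0 c) := by
    conv_lhs => rw [e']
    rw [map_sub, map_add, comp_mul_lt hw c Nat.zero_lt_one, add_zero, map_sub, hq, zero_sub]
  have hs : ∀ n, q (homogeneousComponent (n + 1) a) =
      q w * q (homogeneousComponent n c) - q (homogeneousComponent (n + 1) c) := fun n => by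
    conv_lhs => rw [e']
    rw [map_sub, map_add, comp_mul hw, map_sub, map_add, hq, zero_add, map_mul, mul_comm]
  have key : ∀ n, q (homogeneousComponent n c) = if n < d then 0 else -(q w ^ (n - d) * q a) := by
    intro n
    induction n with
    | zero =>
      rw [homogeneousComponent_of_mem ha] at h0
      split_ifs at h0 with h1
      · rw [if_neg (by omega), Nat.zero_sub, pow_zero, one_mul, h0, neg_neg]
      · rw [if_pos (by omega)]
        rw [map_zero] at h0
        exact neg_eq_zero.mp h0.symm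
    | succ n ih =>
      have h1 := hs n
      rw [homogeneousComponent_of_mem ha, ih] at h1
      by_cases h2 : n + 1 = d
      · rw [if_pos h2, if_pos (by omega), mul_zero, zero_sub] at h1
        rw [if_neg (by omega), show n + 1 - d = 0 by omega, pow_zero, one_mul, h1, neg_neg]
      · rw [if_neg h2, map_zero] at h1
        have h3 := (sub_eq_zero.mp h1.symm).symm
        by_cases h4 : n < d
        · rw [if_pos h4, mul_zero] at h3
          rw [if_pos (by omega), h3]
        · rw [if_neg h4] at h3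
          rw [if_neg (by omega), h3, show n + 1 - d = n - d + 1 by omega]
          ring
  refine ⟨c.totalDegree + 1, ?_⟩
  have h5 := key (c.totalDegree + 1 + d)
  rw [if_neg (by omega), homogeneousComponent_eq_zero _ _ (by omega), map_zero,
    Nat.add_sub_cancel, eq_comm, neg_eq_zero, ← map_pow, ← map_mul] at h5
  exact Ideal.Quotient.eq_zero_iff_mem.mp h5

theorem reg : S_Reg := by
  intro B _ F hF hu
  obtain ⟨u, v, huv, hm⟩ := exists_monic hF hu
  have hFv : F = C u * (C v * F) := by rw [← mul_assoc, ← map_mul, huv, map_one, one_mul]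
  refine ⟨fun i k a hi h => ?_, fun k a b h => ?_⟩
  · obtain ⟨j, rfl⟩ := Fin.exists_succ_eq.mpr hi
    obtain ⟨r, hr⟩ := Ideal.mem_span_singleton'.mp h
    have e : Polynomial.C (X j ^ k) * finSuccEquiv B 3 a =
        finSuccEquiv B 3 (C v * F) * finSuccEquiv B 3 (C u * r) + Polynomial.C 0 * 0 := by
      rw [mul_zero, add_zero, map_pow, ← finSuccEquiv_X_succ, ← map_pow, ← map_mul, ← map_mul,
        ← hr]
      congr 1
      conv_lhs => rw [hFv]
      ring
    obtain ⟨r', s', h1⟩ := cancel_mod hm (fun x s hx => by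
      rw [zero_mul] at hx
      rw [(isRegular_X.pow k).left (hx.trans (mul_zero _).symm)]) e
    rw [map_zero, zero_mul, add_zero] at h1
    refine Ideal.mem_span_singleton'.mpr ⟨C v * (finSuccEquiv B 3).symm r', ?_⟩
    apply (finSuccEquiv B 3).injective
    rw [h1]
    simp only [map_mul, AlgEquiv.apply_symm_apply]
    ring
  · obtain ⟨r, hr⟩ := Ideal.mem_span_singleton'.mp h
    have e2 : finSuccEquiv B 3 (X 2) = Polynomial.C (X 1) := finSuccEquiv_X_succ (j := 1)
    have e3 : finSuccEquiv B 3 (X 3) = Polynomial.C (X 2) := finSuccEquiv_X_succ (j := 2)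
    have e : Polynomial.C (X 1 ^ k) * finSuccEquiv B 3 a =
        finSuccEquiv B 3 (C v * F) * finSuccEquiv B 3 (C u * r) +
          Polynomial.C (X 2 ^ k) * finSuccEquiv B 3 b := by
      rw [map_pow, map_pow, ← e2, ← e3, ← map_pow, ← map_pow, ← map_mul, ← map_mul, ← map_mul,
        ← map_add]
      congr 1
      rw [← sub_eq_iff_eq_add, ← hr]
      conv_lhs => rw [hFv]
      ring
    obtain ⟨r', s', h1⟩ := cancel_mod hm
      (fun x s hx => coprime_pow (by decide : (1 : Fin 3) ≠ 2) k x s hx) e
    refine ⟨(finSuccEquiv B 3).symm s',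
      Ideal.mem_span_singleton'.mpr ⟨C v * (finSuccEquiv B 3).symm r', ?_⟩⟩
    apply (finSuccEquiv B 3).injective
    rw [map_sub, h1]
    simp only [map_mul, map_pow, e3, AlgEquiv.apply_symm_apply]
    ring

end Pool.Agent.P.MP_2b2d3b_ag
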