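import Pool.Agent.P.MP_2b2d3b_ag.Pull
import Pool.Agent.P.MP_2b2d3b_ag.Hilb

/-!
Definitions for the bundle level part of the proof.
-/

namespace Pool.Agent.P.MP_2b2d3b_ag

open MvPolynomial

/-- the standing hypotheses -/
structure Hyp (F : Pol ℂ) : Prop where
  ind : IndepCoeff F
  ufd : UniqueFactorizationMonoid (Pol ℂ ⧸ Ideal.span {F})

theorem IndepCoeff.eval_ne {F : Pol ℂ} (h : IndepCoeff F) (p : Fin 4 → ℚ) (h0 : p 0 ≠ 0) :
    eval (fun i => (p i : ℂ)) F ≠ 0 := by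
  intro e
  have hl := Fintype.linearIndependent_iff.mp h.2.linearIndependent
    (fun m : Mon 6 => ∏ i, p i ^ m.1 i) (by
      rw [← e]
      conv_rhs => rw [← form_coeff h.1, form, map_sum]
      refine Finset.sum_congr rfl fun m _ => ?_
      rw [eval_monomial, Finsupp.prod_fintype _ _ (by simp), Rat.smul_def, mul_comm]
      push_cast
      rfl) ⟨Finsupp.single 0 6, by simp⟩
  simp [Fin.prod_univ_four, h0] at hl

namespace Hyp

variable {F : Pol ℂ}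

theorem good (h : Hyp F) : GoodSextic F := h.ind.good

theorem hom (h : Hyp F) : F.IsHomogeneous 6 := h.ind.1

theorem ne_zero (h : Hyp F) : F ≠ 0 := h.good.irred.ne_zero

theorem rg (h : Hyp F) : Rg F :=
  Rg.of reg h.hom (h.ind.2.ne_zero ⟨Finsupp.single 0 6, by simp⟩)

theorem prime (h : Hyp F) : (Ideal.span {F}).IsPrime :=
  (Ideal.span_singleton_prime h.ne_zero).mpr h.good.irred.prime

theorem prime' (h : Hyp F) : (Ideal.span {bc F ℂ}).IsPrime := by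
  rw [bc_self]; exact h.prime

theorem dom (h : Hyp F) : IsDomain (Rq F ℂ) := by
  have := h.prime'
  infer_instance

theorem ufd' (h : Hyp F) : UniqueFactorizationMonoid (Rq F ℂ) := by
  have : ∀ G : Pol ℂ, G = F → UniqueFactorizationMonoid (Pol ℂ ⧸ Ideal.span {G}) := by
    rintro G rfl
    exact h.ufd
  exact this _ (bc_self F)

/-- the hypotheses also hold for the base change of `F` to `ℂ`, which is `F` -/
theorem bc (h : Hyp F) : Hyp (bc F ℂ) := by rw [bc_self]; exact h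

theorem eval_ne (h : Hyp F) (c : ℕ) : eval ![1, 0, 0, -(c : ℂ) ^ 3] F ≠ 0 := by
  have := h.ind.eval_ne ![1, 0, 0, -(c : ℚ) ^ 3] (by simp)
  convert this using 3
  funext i
  fin_cases i <;> simp

end Hyp

variable {F : Pol ℂ} {B : Type} [CommRing B] [Algebra ℂ B]

/-- no functional of shift `j` -/
def NoFun (E : Bundle F B) (j : ℕ) : Prop := ∀ s, IsFun E j s → s = 0

/-- stable with `c₂ = 11` -/
def Good (E : Bundle F ℂ) : Prop := NoFun E 0 ∧ E.HasC2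

/-- isomorphic sheaves -/
def Iso (E E' : Bundle F ℂ) : Prop :=
  Relation.EqvGen (fun E E' : Bundle F ℂ => IsPull (AlgHom.id ℂ ℂ) E E') E E'

theorem IsPull.iso {E E' : Bundle F ℂ} (h : IsPull (AlgHom.id ℂ ℂ) E E') : Iso E E' :=
  Relation.EqvGen.rel _ _ h

theorem Iso.refl (E : Bundle F ℂ) : Iso E E := Relation.EqvGen.refl _

theorem Iso.symm {E E' : Bundle F ℂ} (h : Iso E E') : Iso E' E := Relation.EqvGen.symm _ _ h

theorem Iso.trans {E E' E'' : Bundle F ℂ} (h : Iso E E') (h' : Iso E' E'') : Iso E E'' :=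
  Relation.EqvGen.trans _ _ _ h h'

/-- two functionals of shift one that are independent at the point `χ` -/
def TwoAt (E : Bundle F B) (χ : B →ₐ[ℂ] ℂ) : Prop :=
  ∃ s1 s2, IsFun E 1 s1 ∧ IsFun E 1 s2 ∧ ∀ κ1 κ2 : ℂ,
    (∀ u, mq F ℂ (C κ1) * mapR F χ (s1 u) + mq F ℂ (C κ2) * mapR F χ (s2 u) = 0) →
      κ1 = 0 ∧ κ2 = 0

/-- `h⁰(E) ≥ 2` -/
abbrev Two (E : Bundle F ℂ) : Prop := TwoAt E (AlgHom.id ℂ ℂ)

/-- no prime divides all values -/
def Prim {E : Bundle F ℂ} (s : E.M →ₗ[Pol ℂ] Rq F ℂ) : Prop :=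
  ∀ ρ : Rq F ℂ, Prime ρ → ∃ u, ¬ ρ ∣ s u

/-- the saturated ideal of the zero scheme of a functional -/
noncomputable def satI {E : Bundle F B} (s : E.M →ₗ[Pol B] Rq F B) : Ideal (Pol B) :=
  ⨅ i : Fin 4, satM ((LinearMap.range s).comap (Algebra.linearMap (Pol B) (Rq F B))) (X i)

theorem mem_satI {E : Bundle F B} {s : E.M →ₗ[Pol B] Rq F B} {b : Pol B} :
    b ∈ satI s ↔ ∀ i : Fin 4, ∃ (k : ℕ) (u : E.M), s u = mq F B (X i ^ k * b) :=
  Submodule.mem_iInf _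

/-- generators with their Gram matrix -/
structure GramD (E : Bundle F B) (ω : E.M →ₗ[Pol B] E.M →ₗ[Pol B] Rq F B) {ι : Type}
    (a : ι → ℕ) (Ω : Matrix ι ι (Pol B)) (m : ι → E.M) : Prop where
  pair : Pairing E ω
  mem : ∀ i, m i ∈ E.gr.piece (a i)
  span : Submodule.span (Pol B) (Set.range m) = ⊤
  hom : ∀ i j, (Ω i j).IsHomogeneous (a i + a j + 1)
  val : ∀ i j, ω (m i) (m j) = mq F B (Ω i j)

/-- a skew matrix of rank two on `S × Spec B` -/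
structure GD (F : Pol ℂ) {B : Type} [CommRing B] [Algebra ℂ B] {ι : Type} (a : ι → ℕ)
    (Ω : Matrix ι ι (Pol B)) : Prop where
  hom : ∀ i j, (Ω i j).IsHomogeneous (a i + a j + 1)
  skew : ∀ i j, Ω i j + Ω j i ∈ Ideal.span {bc F B}
  diag : ∀ i, Ω i i ∈ Ideal.span {bc F B}
  pl : ∀ i j k l, Ω i j * Ω l k + Ω j k * Ω l i + Ω k i * Ω l j ∈ Ideal.span {bc F B}
  unit : ∀ q : Ideal (Pol B), q.IsPrime → bc F B ∈ q → (∃ i, X i ∉ q) → ∃ i j, Ω i j ∉ q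

/-- Serre data: a functional `s` and two sections whose values form a regular sequence -/
structure Ser (E : Bundle F B) (ω : E.M →ₗ[Pol B] E.M →ₗ[Pol B] Rq F B) (j : ℕ)
    (s : E.M →ₗ[Pol B] Rq F B) (t1 t2 : E.M) (d1 d2 : ℕ) (g1 g2 G : Pol B) : Prop where
  pair : Pairing E ω
  fn : IsFun E j s
  m1 : t1 ∈ E.gr.piece d1
  m2 : t2 ∈ E.gr.piece d2
  h1 : g1.IsHomogeneous (d1 + j)
  h2 : g2.IsHomogeneous (d2 + j)
  hG : G.IsHomogeneous (d1 + d2 + 1)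
  e1 : s t1 = mq F B g1
  e2 : s t2 = mq F B g2
  eG : ω t1 t2 = mq F B G
  r1 : ∀ a, g1 * a ∈ Ideal.span {bc F B} → a ∈ Ideal.span {bc F B}
  r2 : ∀ a, g2 * a ∈ Ideal.span {bc F B, g1} → a ∈ Ideal.span {bc F B, g1}

/-- the module is the full module of pairs -/
structure Refl (E : Bundle F B) (ω : E.M →ₗ[Pol B] E.M →ₗ[Pol B] Rq F B)
    (s : E.M →ₗ[Pol B] Rq F B) (t1 : E.M) (g1 g2 G : Pol B) : Prop where
  inj : ∀ u, ω u t1 = 0 → s u = 0 → u = 0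
  surj : ∀ a b : Pol B, a * g2 + b * G ∈ Ideal.span {bc F B, g1} →
    ∃ u, ω u t1 = mq F B a ∧ s u = mq F B b

/-- admissible data for the module of pairs -/
structure Adm2 (F : Pol ℂ) {B : Type} [CommRing B] [Algebra ℂ B] (n1 n2 : ℕ) (g1 g2 G : Pol B) :
    Prop where
  h1 : g1.IsHomogeneous (n1 + 1)
  h2 : g2.IsHomogeneous (n2 + 1)
  hG : G.IsHomogeneous (n1 + n2 + 1)
  r1 : ∀ a, g1 * a ∈ Ideal.span {bc F B} → a ∈ Ideal.span {bc F B}
  r2 : ∀ a, g2 * a ∈ Ideal.span {bc F B, g1} → a ∈ Ideal.span {bc F B, g1}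
  h0 : ∀ b : B, C b * G ∈ Ideal.span {bc F B, g1, g2} → b = 0
  lf : ∀ q : Ideal (Pol B), q.IsPrime → bc F B ∈ q → (∃ i, X i ∉ q) → ∃ a1 b1 a2 b2 c : Pol B,
    a1 * g2 + b1 * G ∈ Ideal.span {bc F B, g1} ∧ a2 * g2 + b2 * G ∈ Ideal.span {bc F B, g1} ∧
      c ∉ q ∧ a1 * b2 - a2 * b1 - c * g1 ∈ Ideal.span {bc F B}

/-- Serre data in a box, with the functional `Λ` that describes the extension class -/
def Rep (c : ℕ) (E : Bundle F B) (j : ℕ) (s : E.M →ₗ[Pol B] Rq F B) (Λ : Pol B →ₗ[B] B) : Prop :=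
  ∃ (x : Box B) (ω : E.M →ₗ[Pol B] E.M →ₗ[Pol B] Rq F B) (t1 t2 : E.M) (d1 d2 : ℕ) (G : Pol B),
    x.Ok ∧ x.c = c ∧ x.F = bc F B ∧ d1 + j = x.n1 + 1 ∧ d2 + j = x.n2 + 1 ∧
    Ser E ω j s t1 t2 d1 d2 x.g1 x.g2 G ∧ ∀ a, Λ a = x.mu (G * a)

/-- `Rep` together with the Gorenstein algebra of length eleven -/
structure RepF (c : ℕ) (E : Bundle F ℂ) (s : E.M →ₗ[Pol ℂ] Rq F ℂ) (Λ : Pol ℂ →ₗ[ℂ] ℂ)
    (lam : (Pol ℂ ⧸ rad Λ) →ₗ[ℂ] ℂ) : Prop where
  rep : Rep c E 1 s Λ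
  filt : Filt (Ideal.Quotient.mkₐ ℂ (rad Λ)) (wc ℂ c) lam 3
  len : Module.finrank ℂ (Pol ℂ ⧸ rad Λ) = 11
  comp : lam.comp (Ideal.Quotient.mkₐ ℂ (rad Λ)).toLinearMap = Λ
  av : Av6 (Ideal.Quotient.mkₐ ℂ (rad Λ)) (wc ℂ c)
  mem : ∀ (b : Pol ℂ) (d : ℕ), b.IsHomogeneous d → (b ∈ rad Λ ↔ b ∈ satI s)
  hilb : ∀ d, Module.finrank ℂ (V (Ideal.Quotient.mkₐ ℂ (rad Λ)) d) = hilb (satI s) d

/-- the planar model attached to a point of the parameter space -/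
structure PlD (E : Bundle F B) (v : Pt B) (ω : E.M →ₗ[Pol B] E.M →ₗ[Pol B] Rq F B)
    (s : E.M →ₗ[Pol B] Rq F B) (t1 t2 : E.M) (G : Pol B) : Prop where
  eqs : v.Eqs (bc F B)
  eG : rho v.g G = v.G (bc F B)
  ser : Ser E ω 1 s t1 t2 0 10 (linForm (v.g' 3)) v.H G
  refl : Refl E ω s t1 (linForm (v.g' 3)) v.H G

/-- a planar model -/
def PlM (E : Bundle F B) (v : Pt B) : Prop := ∃ ω s t1 t2 G, PlD E v ω s t1 t2 G

/-- the `y` derivative of the plane section at the `i`-th point -/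
noncomputable def RD.fy {B : Type} [CommRing B] (F : Pol B) (r : RD B) (i : Fin 11) : B :=
  (Polynomial.derivative (r.f F)).evalEval (r.xs i) (r.ys i)

/-- the `i`-th point in homogeneous coordinates -/
def RD.p (r : RD ℂ) (i : Fin 11) : Fin 4 → ℂ := cpt r.g 1 (r.xs i) (r.ys i)

/-- reduction modulo `ε` -/
noncomputable abbrev fstE : DualNumber ℂ →ₐ[ℂ] ℂ := TrivSqZeroExt.fstHom ℂ ℂ ℂ

/-- `E` has a first order deformation along which the second section does not extend -/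
def Obs1 (E : Bundle F ℂ) : Prop :=
  ∃ (𝓔 : Family F (DualNumber ℂ)) (E' : Bundle F ℂ), ¬ TwoAt 𝓔.toBundle fstE ∧
    IsPull fstE 𝓔.toBundle E' ∧ Iso E' E

end Pool.Agent.P.MP_2b2d3b_ag
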