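import Pool.Agent.P.MP_2b2d3b_ag.Sys

/-!
Definitions for the construction of the moduli space.
-/

namespace Pool.Agent.P.MP_2b2d3b_ag

open MvPolynomial Matrix

/-! ### Etale neighbourhoods -/

/-- an etale neighbourhood of a complex point -/
structure Nb (B : Type) [CommRing B] [Algebra ℂ B] (t : B →ₐ[ℂ] ℂ) where
  A : Type
  [cr : CommRing A]
  [alg : Algebra ℂ A]
  [ft : Algebra.FiniteType ℂ A]
  ψ : B →ₐ[ℂ] A
  et : (ψ : B →+* A).Etale
  p : A →ₐ[ℂ] ℂ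
  comp : p.comp ψ = t

attribute [instance] Nb.cr Nb.alg Nb.ft

namespace Nb

variable {B : Type} [CommRing B] [Algebra ℂ B] {t : B →ₐ[ℂ] ℂ}

theorem p_ψ (U : Nb B t) (b : B) : U.p (U.ψ b) = t b := AlgHom.congr_fun U.comp b

/-- the whole space -/
def refl [Algebra.FiniteType ℂ B] (t : B →ₐ[ℂ] ℂ) : Nb B t where
  A := B
  ψ := AlgHom.id ℂ B
  et := RingHom.Etale.of_bijective Function.bijective_id
  p := t
  comp := AlgHom.comp_id t

/-- a neighbourhood of a neighbourhood -/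
def trans (U : Nb B t) (V : Nb U.A U.p) : Nb B t where
  A := V.A
  ψ := V.ψ.comp U.ψ
  et := RingHom.Etale.stableUnderComposition _ _ U.et V.et
  p := V.p
  comp := by rw [← AlgHom.comp_assoc, V.comp, U.comp]

/-- a principal open neighbourhood -/
noncomputable def away [Algebra.FiniteType ℂ B] (h : B) (ht : t h ≠ 0) : Nb B t where
  A := Localization.Away h
  ft := Algebra.FiniteType.trans (S := B) inferInstance inferInstance
  ψ := IsScalarTower.toAlgHom ℂ B (Localization.Away h)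
  et := RingHom.etale_algebraMap.mpr (Algebra.Etale.of_isLocalizationAway h)
  p := IsLocalization.liftAlgHom (M := Submonoid.powers h) (f := t) (by
    rintro ⟨_, k, rfl⟩
    simpa using (IsUnit.mk0 _ ht).pow k)
  comp := by
    ext b
    simp

theorem away_unit [Algebra.FiniteType ℂ B] (h : B) (ht : t h ≠ 0) :
    IsUnit ((away h ht).ψ h) :=
  IsLocalization.Away.algebraMap_isUnit (S := Localization.Away h) h

/-- a neighbourhood on which `h` is a unit -/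
theorem exists_unit [Algebra.FiniteType ℂ B] (h : B) (ht : t h ≠ 0) :
    ∃ U : Nb B t, IsUnit (U.ψ h) := ⟨away h ht, away_unit h ht⟩

/-- the same etale algebra with another point -/
def rept (U : Nb B t) (p' : U.A →ₐ[ℂ] ℂ) {t' : B →ₐ[ℂ] ℂ} (h : p'.comp U.ψ = t') : Nb B t' where
  A := U.A
  ψ := U.ψ
  et := U.et
  p := p'
  comp := h

theorem unit_ne {B1 : Type} [CommRing B1] [Algebra ℂ B1] {x : B1} (hx : IsUnit x)
    (p : B1 →ₐ[ℂ] ℂ) : p x ≠ 0 := (hx.map p).ne_zero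

end Nb

/-- pull backs of bundles exist, and pull backs of families are families -/
structure PBk (F : Pol ℂ) : Prop where
  ex : ∀ {B B' : Type} [CommRing B] [Algebra ℂ B] [CommRing B'] [Algebra ℂ B'] (φ : B →ₐ[ℂ] B')
    (E : Bundle F B), ∃ E' : Bundle F B', IsPull φ E E'
  fam : ∀ {B B' : Type} [CommRing B] [Algebra ℂ B] [CommRing B'] [Algebra ℂ B'] (φ : B →ₐ[ℂ] B')
    (E : Family F B) (E' : Bundle F B'), IsPull φ E.toBundle E' →
    ∃ E'' : Family F B', E''.toBundle = E'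

theorem PBk.exf {F : Pol ℂ} (h : PBk F) {B B' : Type} [CommRing B] [Algebra ℂ B] [CommRing B']
    [Algebra ℂ B'] (φ : B →ₐ[ℂ] B') (E : Family F B) :
    ∃ E' : Family F B', IsPull φ E.toBundle E'.toBundle := by
  obtain ⟨E', h1⟩ := h.ex φ E.toBundle
  obtain ⟨E'', rfl⟩ := h.fam φ E E' h1
  exact ⟨E'', h1⟩

/-! ### Abstract atlas -/

/-- affine charts of the moduli functor; `Cl i E y` says that `y` classifies `E` in chart `i`; only
some points of the charts classify a bundle -/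
structure PreAtlas (F : Pol ℂ) where
  ι : Type
  Y : ι → Type
  [cr : ∀ i, CommRing (Y i)]
  [alg : ∀ i, Algebra ℂ (Y i)]
  [ft : ∀ i, Algebra.FiniteType ℂ (Y i)]
  Cl : ∀ (i : ι) {B : Type} [CommRing B] [Algebra ℂ B], Bundle F B → (Y i →ₐ[ℂ] B) → Prop
  pull : ∀ (i : ι) {B B' : Type} [CommRing B] [Algebra ℂ B] [Algebra.FiniteType ℂ B] [CommRing B']
    [Algebra ℂ B'] [Algebra.FiniteType ℂ B'] (φ : B →ₐ[ℂ] B') (E : Bundle F B) (E' : Bundle F B')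
    (y : Y i →ₐ[ℂ] B), Cl i E y → IsPull φ E E' → Cl i E' (φ.comp y)
  loc : ∀ (i : ι) {B : Type} [CommRing B] [Algebra ℂ B] [Algebra.FiniteType ℂ B] (E : Bundle F B)
    (y : Y i →ₐ[ℂ] B), (∀ t : B →ₐ[ℂ] ℂ, ∃ (U : Nb B t) (E' : Bundle F U.A),
      IsPull U.ψ E E' ∧ Cl i E' (U.ψ.comp y)) → Cl i E y
  tr : ∀ (i : ι) {B B' : Type} [CommRing B] [Algebra ℂ B] [Algebra.FiniteType ℂ B] [CommRing B']
    [Algebra ℂ B'] [Algebra.FiniteType ℂ B'] (φ : B →ₐ[ℂ] B') (E : Bundle F B)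
    (E1 E2 : Bundle F B') (y : Y i →ₐ[ℂ] B'), IsPull φ E E1 → IsPull φ E E2 → Cl i E1 y → Cl i E2 y
  uniq : ∀ (i : ι) {B : Type} [CommRing B] [Algebra ℂ B] [Algebra.FiniteType ℂ B] (E : Bundle F B)
    (y y' : Y i →ₐ[ℂ] B), Cl i E y → Cl i E y' → y = y'
  inj : ∀ (i : ι) {B : Type} [CommRing B] [Algebra ℂ B] [Algebra.FiniteType ℂ B]
    (E1 E2 : Bundle F B) (y : Y i →ₐ[ℂ] B), Cl i E1 y → Cl i E2 y → ∀ t : B →ₐ[ℂ] ℂ,
    ∃ (U : Nb B t) (E' : Bundle F U.A), IsPull U.ψ E1 E' ∧ IsPull U.ψ E2 E'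
  surj' : ∀ (i : ι) {B : Type} [CommRing B] [Algebra ℂ B] [Algebra.FiniteType ℂ B]
    (y : Y i →ₐ[ℂ] B) (t : B →ₐ[ℂ] ℂ) (E0 : Bundle F ℂ), Cl i E0 (t.comp y) →
    ∃ (U : Nb B t) (E' : Family F U.A), Cl i E'.toBundle (U.ψ.comp y)
  opn : ∀ (i : ι) {B : Type} [CommRing B] [Algebra ℂ B] [Algebra.FiniteType ℂ B] (E : Family F B)
    (t : B →ₐ[ℂ] ℂ) (E0 : Bundle F ℂ) (y0 : Y i →ₐ[ℂ] ℂ), IsPull t E.toBundle E0 → Cl i E0 y0 →
    ∃ (U : Nb B t) (E' : Bundle F U.A) (y' : Y i →ₐ[ℂ] U.A),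
      IsPull U.ψ E.toBundle E' ∧ Cl i E' y' ∧ U.p.comp y' = y0
  cov : ∀ E0 : Family F ℂ, ∃ (i : ι) (y0 : Y i →ₐ[ℂ] ℂ), Cl i E0.toBundle y0

attribute [instance] PreAtlas.cr PreAtlas.alg PreAtlas.ft

/-- charts all of whose points classify a bundle -/
structure Atlas (F : Pol ℂ) extends PreAtlas F where
  full : ∀ (i : ι) (y0 : Y i →ₐ[ℂ] ℂ), ∃ E0 : Bundle F ℂ, Cl i E0 y0

namespace Atlas

variable {F : Pol ℂ} (𝒜 : Atlas F)

theorem surj (i : 𝒜.ι) {B : Type} [CommRing B] [Algebra ℂ B] [Algebra.FiniteType ℂ B]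
    (y : 𝒜.Y i →ₐ[ℂ] B) (t : B →ₐ[ℂ] ℂ) :
    ∃ (U : Nb B t) (E' : Family F U.A), 𝒜.Cl i E'.toBundle (U.ψ.comp y) := by
  obtain ⟨E0, h⟩ := 𝒜.full i (t.comp y)
  exact 𝒜.surj' i y t E0 h

/-- every point of chart `i` lies in chart `j` -/
def le (i j : 𝒜.ι) : Prop :=
  ∀ (E : Family F ℂ) (y : 𝒜.Y i →ₐ[ℂ] ℂ), 𝒜.Cl i E.toBundle y → ∃ y', 𝒜.Cl j E.toBundle y'

/-- `τ` is the transition map from chart `i` to chart `j` -/
def Tau {i j : 𝒜.ι} (τ : 𝒜.Y j →ₐ[ℂ] 𝒜.Y i) : Prop :=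
  ∀ (B : Type) [CommRing B] [Algebra ℂ B] [Algebra.FiniteType ℂ B] (E : Bundle F B)
    (y : 𝒜.Y i →ₐ[ℂ] B), 𝒜.Cl i E y ↔ 𝒜.Cl j E (y.comp τ)

/-- principal open subsets of charts are charts -/
def Basis : Prop :=
  ∀ (i : 𝒜.ι) (h : 𝒜.Y i), ∃ (l : 𝒜.ι) (τ : 𝒜.Y i →ₐ[ℂ] 𝒜.Y l), 𝒜.Tau τ ∧
    @IsLocalization.Away (𝒜.Y i) _ h (𝒜.Y l) _ (τ : 𝒜.Y i →+* 𝒜.Y l).toAlgebra

/-- classifying maps that exist locally exist globally -/
def Desc : Prop :=
  ∀ (i : 𝒜.ι) (B : Type) [CommRing B] [Algebra ℂ B] [Algebra.FiniteType ℂ B] (E : Bundle F B),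
    (∀ t : B →ₐ[ℂ] ℂ, ∃ (U : Nb B t) (E' : Bundle F U.A) (y' : 𝒜.Y i →ₐ[ℂ] U.A),
      IsPull U.ψ E E' ∧ 𝒜.Cl i E' y') → ∃ y, 𝒜.Cl i E y

end Atlas

/-- the spectrum of an algebra map -/
noncomputable abbrev spA {B B' : Type} [CommRing B] [Algebra ℂ B] [CommRing B'] [Algebra ℂ B']
    (φ : B →ₐ[ℂ] B') : AlgebraicGeometry.Spec (.of B') ⟶ AlgebraicGeometry.Spec (.of B) :=
  AlgebraicGeometry.Spec.map (CommRingCat.ofHom (φ : B →+* B'))

open AlgebraicGeometry CategoryTheory in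
/-- the charts glued to a scheme -/
structure Glued {F : Pol ℂ} (𝒜 : Atlas F) where
  M : Scheme.{0}
  π : M ⟶ Spec (.of ℂ)
  lft : LocallyOfFiniteType π
  ι : ∀ i, Spec (.of (𝒜.Y i)) ⟶ M
  overC : ∀ i, ι i ≫ π = Spec.map (CommRingCat.ofHom (algebraMap ℂ (𝒜.Y i)))
  oi : ∀ i, IsOpenImmersion (ι i)
  cover : ∀ x : M, ∃ (i : 𝒜.ι) (z : Spec (.of (𝒜.Y i))), ι i z = x
  compat : ∀ (i j : 𝒜.ι) (B : Type) [CommRing B] [Algebra ℂ B] [Algebra.FiniteType ℂ B]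
    (E : Family F B) (y : 𝒜.Y i →ₐ[ℂ] B) (y' : 𝒜.Y j →ₐ[ℂ] B), 𝒜.Cl i E.toBundle y →
    (𝒜.Cl j E.toBundle y' ↔ spA y ≫ ι i = spA y' ≫ ι j)

/-! ### Matrices -/

section Mat

variable {B : Type} [CommRing B] [Algebra ℂ B] {B' : Type} [CommRing B'] [Algebra ℂ B']
  {Ψ : Type} [Fintype Ψ] {n : Type} [Fintype n] [DecidableEq n]

/-- the distinguished form -/
noncomputable def Hm (φ : Ψ → ℂ) (G : Ψ → Matrix n n B) : Matrix n n B := ∑ ψ, φ ψ • G ψ

/-- the endomorphisms defined by the forms -/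
noncomputable def Am (φ : Ψ → ℂ) (G : Ψ → Matrix n n B) (ψ : Ψ) : Matrix n n B :=
  (Hm φ G)⁻¹ * G ψ

/-- a word in the matrices `A` -/
def wd {R : Type} [Monoid R] (A : Ψ → R) (l : List Ψ) : R := (l.map A).prod

/-- the image of a family of matrices -/
def mpM {m : Type} (σ : B →ₐ[ℂ] B') (G : Ψ → Matrix m m B) : Ψ → Matrix m m B' :=
  fun ψ => (G ψ).map σ

/-- change of frame and of the pairing -/
def cj (g : Matrix n n B) (κ : B) (G : Ψ → Matrix n n B) : Ψ → Matrix n n B :=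
  fun ψ => κ • (gᵀ * G ψ * g)

/-- the determinant of the words `w` in the matrices `A` -/
noncomputable def wdet (w : n × n → List Ψ) (A : Ψ → Matrix n n B) : B :=
  (Matrix.of fun p q : n × n => wd A (w p) q.1 q.2).det

/-- the words `w` form a basis of the matrix algebra, with structure constants `L`, `e` -/
structure Bs (w : n × n → List Ψ) (A : Ψ → Matrix n n B) (L : Ψ → Matrix (n × n) (n × n) B)
    (e : n × n → B) : Prop where
  bas : IsUnit (wdet w A)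
  mul : ∀ ψ p, A ψ * wd A (w p) = ∑ q, L ψ q p • wd A (w q)
  one : ∑ p, e p • wd A (w p) = 1

/-- `L`, `e` are the invariants of the alternating forms `G` -/
structure Inv (φ : Ψ → ℂ) (w : n × n → List Ψ) (G : Ψ → Matrix n n B)
    (L : Ψ → Matrix (n × n) (n × n) B) (e : n × n → B) : Prop where
  alt : ∀ ψ, (G ψ)ᵀ = -G ψ
  unit : IsUnit (Hm φ G).det
  bs : Bs w (Am φ G) L e

/-- structure constants of an algebra -/
structure Rel0 (w : n × n → List Ψ) (L : Ψ → Matrix (n × n) (n × n) B) (e : n × n → B) :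
    Prop where
  r1 : ∀ p, (wd L (w p)).mulVec e = Pi.single p 1
  r2 : ∀ ψ p, L ψ * wd L (w p) = ∑ q, L ψ q p • wd L (w q)
  r3 : ∑ p, e p • wd L (w p) = 1

/-- structure constants of an algebra with involution -/
structure Rel1 (φ : Ψ → ℂ) (w : n × n → List Ψ) (L : Ψ → Matrix (n × n) (n × n) B)
    (e : n × n → B) : Prop extends Rel0 w L e where
  r4 : ∀ ψ p, ∑ q, L ψ q p • wd L (w q).reverse = wd L (w p).reverse * L ψ
  r5 : ∑ p, e p • wd L (w p).reverse = 1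
  r6 : ∑ ψ, φ ψ • L ψ = 1

/-- the matrix of forms with coefficients `G` -/
noncomputable def Og (β : Ψ → Pol ℂ) (G : Ψ → Matrix n n B) : Matrix n n (Pol B) :=
  Matrix.of fun a b => ∑ ψ, C (G ψ a b) * bc (β ψ) B

/-- the Pluecker relations modulo `F` -/
def PlG (F : Pol ℂ) {m : Type} (Ω : Matrix m m (Pol B)) : Prop :=
  ∀ i j k l, Ω i j * Ω l k + Ω j k * Ω l i + Ω k i * Ω l j ∈ Ideal.span {bc F B}

/-- the coefficients of the invariant form of the Pluecker relations -/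
noncomputable def Zm (w : n × n → List Ψ) (L : Ψ → Matrix (n × n) (n × n) B) (p : n × n)
    (ψ ψ' : Ψ) : Matrix (n × n) (n × n) B :=
  (Fintype.card n : B) • (L ψ * (wd L (w p) + wd L (w p).reverse) * L ψ') -
    (wd L (w p) * L ψ).trace • L ψ'

/-- the invariant form of the Pluecker relations -/
def RelP (F : Pol ℂ) (β : Ψ → Pol ℂ) (w : n × n → List Ψ) (L : Ψ → Matrix (n × n) (n × n) B)
    (e : n × n → B) : Prop :=
  ∀ p r, ∑ ψ, ∑ ψ', C ((Zm w L p ψ ψ').mulVec e r) * (bc (β ψ) B * bc (β ψ') B) ∈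
    Ideal.span {bc F B}

omit [Fintype Ψ] in
theorem wd_nil {R : Type} [Monoid R] (A : Ψ → R) : wd A [] = 1 := rfl

omit [Fintype Ψ] in
theorem wd_cons {R : Type} [Monoid R] (A : Ψ → R) (ψ : Ψ) (l : List Ψ) :
    wd A (ψ :: l) = A ψ * wd A l := by simp [wd]

omit [Fintype Ψ] in
theorem wd_append {R : Type} [Monoid R] (A : Ψ → R) (l l' : List Ψ) :
    wd A (l ++ l') = wd A l * wd A l' := by simp [wd]

omit [Fintype Ψ] in
theorem map_wd {R R' : Type} [Monoid R] [Monoid R'] (f : R →* R') (A : Ψ → R) (l : List Ψ) :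
    f (wd A l) = wd (fun ψ => f (A ψ)) l := by
  induction l with
  | nil => simp [wd]
  | cons ψ l ih => rw [wd_cons, wd_cons, map_mul, ih]

omit [Fintype Ψ] in
theorem wd_mpM {m : Type} [Fintype m] [DecidableEq m] (σ : B →ₐ[ℂ] B') (A : Ψ → Matrix m m B)
    (l : List Ψ) : wd (mpM σ A) l = (wd A l).map σ :=
  (map_wd (σ.mapMatrix : Matrix m m B →ₐ[ℂ] Matrix m m B').toRingHom.toMonoidHom A l).symm

omit [Fintype Ψ] in
theorem mpM_mpM {B'' : Type} [CommRing B''] [Algebra ℂ B''] {m : Type} (σ : B →ₐ[ℂ] B')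
    (τ : B' →ₐ[ℂ] B'') (G : Ψ → Matrix m m B) : mpM τ (mpM σ G) = mpM (τ.comp σ) G := rfl

omit [Fintype n] [DecidableEq n] in
theorem Hm_mpM (σ : B →ₐ[ℂ] B') (φ : Ψ → ℂ) (G : Ψ → Matrix n n B) :
    Hm φ (mpM σ G) = (Hm φ G).map σ := by
  ext a b
  simp [Hm, mpM, Matrix.sum_apply]

omit [Fintype n] [DecidableEq n] in
theorem Og_mpM (σ : B →ₐ[ℂ] B') (β : Ψ → Pol ℂ) (G : Ψ → Matrix n n B) :
    Og β (mpM σ G) = (Og β G).map (map (σ : B →+* B')) := by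
  ext a b : 2
  simp only [Og, mpM, Matrix.of_apply, Matrix.map_apply, map_sum, map_mul, map_C, map_map_alg]
  rfl

theorem det_map_alg (σ : B →ₐ[ℂ] B') (M : Matrix n n B) : (M.map σ).det = σ M.det :=
  (AlgHom.map_det σ M).symm

theorem Am_mpM (σ : B →ₐ[ℂ] B') {φ : Ψ → ℂ} {G : Ψ → Matrix n n B} (h : IsUnit (Hm φ G).det) :
    Am φ (mpM σ G) = mpM σ (Am φ G) := by
  funext ψ
  have h1 : ((Hm φ G).map σ)⁻¹ = ((Hm φ G)⁻¹).map σ := by
    apply Matrix.inv_eq_left_inv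
    rw [← Matrix.map_mul, Matrix.nonsing_inv_mul _ h, Matrix.map_one _ (map_zero σ) (map_one σ)]
  simp only [Am, Hm_mpM, h1, mpM, Matrix.map_mul]

omit [Fintype Ψ] in
theorem wdet_mpM (σ : B →ₐ[ℂ] B') (w : n × n → List Ψ) (A : Ψ → Matrix n n B) :
    wdet w (mpM σ A) = σ (wdet w A) := by
  rw [wdet, wdet, ← det_map_alg]
  congr 1
  ext p q
  simp [wd_mpM]

omit [Fintype Ψ] [DecidableEq n] in
theorem mpM_cj (σ : B →ₐ[ℂ] B') (g : Matrix n n B) (κ : B) (G : Ψ → Matrix n n B) :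
    mpM σ (cj g κ G) = cj (g.map σ) (σ κ) (mpM σ G) := by
  funext ψ
  ext a b
  simp [mpM, cj, Matrix.mul_apply, Finset.mul_sum]

omit [DecidableEq n] in
theorem Hm_cj (φ : Ψ → ℂ) (g : Matrix n n B) (κ : B) (G : Ψ → Matrix n n B) :
    Hm φ (cj g κ G) = κ • (gᵀ * Hm φ G * g) := by
  simp only [Hm, cj, Matrix.mul_sum, Matrix.sum_mul, Finset.smul_sum, Matrix.mul_smul,
    Matrix.smul_mul]
  exact Finset.sum_congr rfl fun ψ _ => smul_comm _ _ _

omit [Fintype Ψ] in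
theorem Bs.map {w : n × n → List Ψ} {A : Ψ → Matrix n n B} {L : Ψ → Matrix (n × n) (n × n) B}
    {e : n × n → B} (h : Bs w A L e) (σ : B →ₐ[ℂ] B') : Bs w (mpM σ A) (mpM σ L) (σ ∘ e) where
  bas := by rw [wdet_mpM]; exact h.bas.map σ
  mul ψ p := by
    have := congrArg (σ.mapMatrix : Matrix n n B →ₐ[ℂ] Matrix n n B') (h.mul ψ p)
    simp only [map_mul, map_sum, AlgHom.mapMatrix_apply] at this
    simp only [wd_mpM]
    refine this.trans (Finset.sum_congr rfl fun q _ => ?_)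
    ext a b
    simp [mpM]
  one := by
    have := congrArg (σ.mapMatrix : Matrix n n B →ₐ[ℂ] Matrix n n B') h.one
    simp only [map_one, map_sum, AlgHom.mapMatrix_apply] at this
    simp only [wd_mpM]
    refine Eq.trans (Finset.sum_congr rfl fun q _ => ?_) this
    ext a b
    simp

theorem Inv.map {φ : Ψ → ℂ} {w : n × n → List Ψ} {G : Ψ → Matrix n n B}
    {L : Ψ → Matrix (n × n) (n × n) B} {e : n × n → B} (h : Inv φ w G L e) (σ : B →ₐ[ℂ] B') :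
    Inv φ w (mpM σ G) (mpM σ L) (σ ∘ e) where
  alt ψ := by
    ext a b
    have := congrFun (congrFun (h.alt ψ) a) b
    simp only [Matrix.transpose_apply, Matrix.neg_apply] at this
    simp [mpM, this]
  unit := by rw [Hm_mpM, det_map_alg]; exact h.unit.map σ
  bs := by rw [Am_mpM σ h.unit]; exact h.bs.map σ

end Mat

/-! ### Frames -/

section Frame

variable {F : Pol ℂ} {B : Type} [CommRing B] [Algebra ℂ B] {n : Type}

/-- functionals of shift `j` with their wedge products -/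
structure Frm (E : Bundle F B) (j : ℕ) (ω : E.M →ₗ[Pol B] E.M →ₗ[Pol B] Rq F B)
    (s : n → E.M →ₗ[Pol B] Rq F B) (Ω : Matrix n n (Pol B)) : Prop where
  pair : Pairing E ω
  fn : ∀ a, IsFun E j (s a)
  wedge : ∀ a b u v, s a u * s b v - s a v * s b u = mq F B (Ω a b) * ω u v

/-- a pull back that is compatible with given functionals -/
def FP {B' : Type} [CommRing B'] [Algebra ℂ B'] (φ : B →ₐ[ℂ] B') (E : Bundle F B)
    (E' : Bundle F B') (s : n → E.M →ₗ[Pol B] Rq F B) (s' : n → E'.M →ₗ[Pol B'] Rq F B') : Prop :=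
  ∃ θ, Pull φ E E' θ ∧ ∀ a u, s' a (θ u) = mapR F φ (s a u)

theorem FP.isPull {B' : Type} [CommRing B'] [Algebra ℂ B'] {φ : B →ₐ[ℂ] B'} {E : Bundle F B}
    {E' : Bundle F B'} {s : n → E.M →ₗ[Pol B] Rq F B} {s' : n → E'.M →ₗ[Pol B'] Rq F B'}
    (h : FP φ E E' s s') : IsPull φ E E' := h.choose_spec.1.isPull

theorem FP.refl (E : Bundle F B) (s : n → E.M →ₗ[Pol B] Rq F B) : FP (AlgHom.id ℂ B) E E s s :=
  ⟨_, Pull.refl E, fun _ _ => (mapR_id _).symm⟩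

theorem FP.comp {B' B'' : Type} [CommRing B'] [Algebra ℂ B'] [CommRing B''] [Algebra ℂ B'']
    {φ : B →ₐ[ℂ] B'} {ψ : B' →ₐ[ℂ] B''} {E : Bundle F B} {E' : Bundle F B'} {E'' : Bundle F B''}
    {s : n → E.M →ₗ[Pol B] Rq F B} {s' : n → E'.M →ₗ[Pol B'] Rq F B'}
    {s'' : n → E''.M →ₗ[Pol B''] Rq F B''} (h : FP φ E E' s s') (h' : FP ψ E' E'' s' s'') :
    FP (ψ.comp φ) E E'' s s'' := by
  obtain ⟨θ, h1, h2⟩ := h
  obtain ⟨θ', h1', h2'⟩ := h'
  exact ⟨_, h1.comp h1', fun a u => by rw [AddMonoidHom.comp_apply, h2', h2, mapR_mapR]⟩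

/-- the functionals `s` span all functionals of shift `j` -/
def Spans [Fintype n] (E : Bundle F B) (j : ℕ) (s : n → E.M →ₗ[Pol B] Rq F B) : Prop :=
  ∀ s', IsFun E j s' → ∃ c : n → B, ∀ u, s' u = ∑ a, mq F B (C (c a)) * s a u

/-- linear independence over the complex numbers -/
def Indep [Fintype n] {E : Bundle F ℂ} (s : n → E.M →ₗ[Pol ℂ] Rq F ℂ) : Prop :=
  ∀ c : n → ℂ, (∀ u, ∑ a, mq F ℂ (C (c a)) * s a u = 0) → c = 0

/-- the fibres are stable and the frame is complete -/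
def Fib (F : Pol ℂ) [Fintype n] (j : ℕ) (Ω : Matrix n n (Pol B)) : Prop :=
  ∀ t : B →ₐ[ℂ] ℂ, ∃ (E0 : Bundle F ℂ) (ω : _) (s : n → E0.M →ₗ[Pol ℂ] Rq F ℂ),
    Frm E0 j ω s (Ω.map (map (t : B →+* ℂ))) ∧ Spans E0 j s ∧ Good E0

/-- the entries have no common zero on `S × Spec B` -/
def NoZ (F : Pol ℂ) (Ω : Matrix n n (Pol B)) : Prop :=
  ∀ q : Ideal (Pol B), q.IsPrime → bc F B ∈ q → (∃ i, X i ∉ q) → ∃ i j, Ω i j ∉ q

/-- the value of the matrix of forms on two constant vectors -/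
noncomputable def bil [Fintype n] (Ω : Matrix n n (Pol ℂ)) (u v : n → ℂ) : Pol ℂ :=
  ∑ a, ∑ b, C (u a * v b) * Ω a b

/-- no kernel and small isotropic subspaces -/
structure Sep (F : Pol ℂ) [Fintype n] (Ω : Matrix n n (Pol ℂ)) : Prop where
  nd : ∀ v : n → ℂ, (∀ b, ∑ a, C (v a) * Ω a b ∈ Ideal.span {bc F ℂ}) → v = 0
  isot : ∀ W : Submodule ℂ (n → ℂ), (∀ u ∈ W, ∀ v ∈ W, bil Ω u v ∈ Ideal.span {bc F ℂ}) →
    2 * Module.finrank ℂ W < Fintype.card n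

/-- a free basis of the coordinate ring of the zero scheme -/
structure Gor' {ι : Type} [Fintype ι] [DecidableEq ι] (D : ℕ) (Λ : Pol B →ₗ[B] B)
    (b : ι → Pol ℂ) : Prop where
  hb : ∀ i, (b i).IsHomogeneous D
  span : ∀ a, ∃ r : ι → B, a - ∑ i, C (r i) * bc (b i) B ∈ rad Λ
  gram : IsUnit (Matrix.of fun i j => Λ (bc (b i) B * bc (b j) B)).det

end Frame

/-! ### Charts -/

/-- chosen coordinates on the forms of degree `d` on `S` -/
noncomputable def cb (F : Pol ℂ) (d : ℕ) : SysP.Co F d := (SysP.exists_co F d).some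

/-- the number of sections -/
def NN (k : ℕ) : ℕ := 6 * k * (k - 1) + 8

/-- the data of a chart -/
structure CD (F : Pol ℂ) where
  k : ℕ
  hk : 3 ≤ k
  φ : Fin (cb F (k + k + 1)).r → ℂ
  w : Fin (NN k) × Fin (NN k) → List (Fin (cb F (k + k + 1)).r)

namespace CD

variable {F : Pol ℂ} (D : CD F)

/-- the index set of the forms -/
abbrev Ψ : Type := Fin (cb F (D.k + D.k + 1)).r

/-- the index set of the frame -/
abbrev n : Type := Fin (NN D.k)

/-- the basis of the forms of degree `2 k + 1` -/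
noncomputable abbrev β : D.Ψ → Pol ℂ := (cb F (D.k + D.k + 1)).b

/-- all closed conditions -/
def Rel {B : Type} [CommRing B] [Algebra ℂ B] (L : D.Ψ → Matrix (D.n × D.n) (D.n × D.n) B)
    (e : D.n × D.n → B) : Prop := Rel1 D.φ D.w L e ∧ RelP F D.β D.w L e

/-- the variables -/
abbrev Var : Type := (D.Ψ × (D.n × D.n) × (D.n × D.n)) ⊕ (D.n × D.n)

/-- the universal matrices -/
noncomputable def uL : D.Ψ → Matrix (D.n × D.n) (D.n × D.n) (MvPolynomial D.Var ℂ) :=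
  fun ψ => Matrix.of fun q p => X (Sum.inl (ψ, q, p))

/-- the universal vector -/
noncomputable def ue : D.n × D.n → MvPolynomial D.Var ℂ := fun p => X (Sum.inr p)

/-- the ideal of relations -/
noncomputable def I : Ideal (MvPolynomial D.Var ℂ) :=
  sInf {J | D.Rel (mpM (Ideal.Quotient.mkₐ ℂ J) D.uL) (Ideal.Quotient.mkₐ ℂ J ∘ D.ue)}

/-- the coordinate ring -/
abbrev Y : Type := MvPolynomial D.Var ℂ ⧸ D.I

/-- the universal structure constants -/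
noncomputable def L : D.Ψ → Matrix (D.n × D.n) (D.n × D.n) D.Y :=
  mpM (Ideal.Quotient.mkₐ ℂ D.I) D.uL

/-- the universal unit -/
noncomputable def e : D.n × D.n → D.Y := Ideal.Quotient.mkₐ ℂ D.I ∘ D.ue

theorem hom_ext {B : Type} [CommRing B] [Algebra ℂ B] {y y' : D.Y →ₐ[ℂ] B}
    (h1 : mpM y D.L = mpM y' D.L) (h2 : y ∘ D.e = y' ∘ D.e) : y = y' := by
  refine Ideal.Quotient.algHom_ext ℂ (MvPolynomial.algHom_ext fun v => ?_)
  rcases v with ⟨ψ, q, p⟩ | p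
  · exact congrFun (congrFun (congrFun h1 ψ) q) p
  · exact congrFun h2 p

variable {B : Type} [CommRing B] [Algebra ℂ B]

/-- `E` has a global frame with invariants `y` -/
def Cl0 (E : Bundle F B) (y : D.Y →ₐ[ℂ] B) : Prop :=
  ∃ (ω : _) (s : D.n → E.M →ₗ[Pol B] Rq F B) (G : D.Ψ → Matrix D.n D.n B),
    Frm E (D.k + 1) ω s (Og D.β G) ∧ GD F (fun _ => D.k) (Og D.β G) ∧
    Inv D.φ D.w G (mpM y D.L) (y ∘ D.e) ∧ Fib F (D.k + 1) (Og D.β G)

/-- `E` has local frames with invariants `y` -/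
def Cl (E : Bundle F B) (y : D.Y →ₐ[ℂ] B) : Prop :=
  ∀ t : B →ₐ[ℂ] ℂ, ∃ (U : Nb B t) (E' : Bundle F U.A), IsPull U.ψ E E' ∧ D.Cl0 E' (U.ψ.comp y)

theorem Cl0.cl [Algebra.FiniteType ℂ B] {D : CD F} {E : Bundle F B} {y : D.Y →ₐ[ℂ] B}
    (h : D.Cl0 E y) : D.Cl E y := fun t => ⟨Nb.refl t, E, IsPull.refl E, h⟩

instance : Algebra.FiniteType ℂ D.Y := inferInstance

instance : Nonempty D.n := ⟨⟨0, by unfold NN; omega⟩⟩

theorem even_n : Even (Fintype.card D.n) := by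
  rw [Fintype.card_fin, NN]
  exact ⟨3 * D.k * (D.k - 1) + 4, by ring⟩

end CD

end Pool.Agent.P.MP_2b2d3b_ag
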