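import Pool.Agent.P.MP_2b2d3b_ag.Api2

/-!
Definitions for the proof of the Noether-Lefschetz theorem for the very general sextic.
-/

namespace Pool.Agent.P.MP_2b2d3b_ag

open MvPolynomial

theorem IndepCoeff.coeff_ne {F : Pol ℂ} (h : IndepCoeff F) : coeff (Finsupp.single 0 6) F ≠ 0 :=
  h.2.ne_zero ⟨Finsupp.single 0 6, by simp⟩

theorem IndepCoeff.rg {F : Pol ℂ} (h : IndepCoeff F) : Rg F := Rg.of reg h.1 h.coeff_ne

theorem IndepCoeff.prime {F : Pol ℂ} (h : IndepCoeff F) : (Ideal.span {F}).IsPrime :=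
  (Ideal.span_singleton_prime h.good.irred.ne_zero).mpr h.good.irred.prime

theorem IndepCoeff.eval_wc_ne {F : Pol ℂ} (h : IndepCoeff F) (c : ℕ) :
    eval ![1, 0, 0, -(c : ℂ) ^ 3] F ≠ 0 := by
  have := h.eval_ne ![1, 0, 0, -(c : ℚ) ^ 3] (by simp)
  convert this using 3
  funext i
  fin_cases i <;> simp

section Laurent

variable {B : Type} [CommRing B] {B' : Type} [CommRing B']

/-- a form of degree `n` whose coefficient of `x₀ ^ n` is a unit -/
structure Mn (G : Pol B) (n : ℕ) : Prop where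
  hom : G.IsHomogeneous n
  unit : IsUnit (coeff (Finsupp.single 0 n) G)

theorem Mn.map {G : Pol B} {n : ℕ} (h : Mn G n) (φ : B →+* B') : Mn (map φ G) n :=
  ⟨h.hom.map φ, by rw [coeff_map]; exact h.unit.map φ⟩

theorem IndepCoeff.mn {F : Pol ℂ} (h : IndepCoeff F) : Mn F 6 := ⟨h.1, IsUnit.mk0 _ h.coeff_ne⟩

/-- Laurent polynomials in `x₁, x₂, x₃` -/
abbrev Lau (B : Type) [CommRing B] : Type := AddMonoidAlgebra B (Fin 3 → ℤ)

/-- polynomials in `x₀` over Laurent polynomials in `x₁, x₂, x₃` -/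
abbrev Lr (B : Type) [CommRing B] : Type := Polynomial (Lau B)

/-- the monomial `r x₀ ^ a x ^ β` -/
noncomputable def mo (a : ℕ) (β : Fin 3 → ℤ) (r : B) : Lr B :=
  Polynomial.monomial a (AddMonoidAlgebra.single β r)

/-- the power `x_{i+1} ^ z` -/
noncomputable def xv (B : Type) [CommRing B] (i : Fin 3) (z : ℤ) : Lr B := mo 0 (Pi.single i z) 1

/-- the coefficient of `x₀ ^ a x ^ β` -/
noncomputable def co (a : ℕ) (β : Fin 3 → ℤ) : Lr B →ₗ[B] B where
  toFun p := (p.coeff a).coeff β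
  map_add' p q := by simp
  map_smul' r p := by simp

/-- the inclusion of the polynomial ring -/
noncomputable def io (B : Type) [CommRing B] : Pol B →ₐ[B] Lr B :=
  aeval (Fin.cons Polynomial.X fun i => xv B i 1)

/-- change of coefficients -/
noncomputable def mapL (φ : B →+* B') : Lr B →+* Lr B' :=
  Polynomial.mapRingHom (AddMonoidAlgebra.mapRingHom (Fin 3 → ℤ) φ)

/-- forms of degree `e` with poles along the `x_{i+1}`, `i ∈ S` -/
def T (B : Type) [CommRing B] (S : Finset (Fin 3)) (e : ℤ) : Submodule B (Lr B) where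
  carrier := {p | ∀ a β, co a β p ≠ 0 → (a : ℤ) + ∑ i, β i = e ∧ ∀ i ∉ S, 0 ≤ β i}
  zero_mem' a β h := absurd (map_zero _) h
  add_mem' := fun {p q} hp hq a β h => by
    by_cases h1 : co a β p = 0
    · exact hq a β (by rwa [map_add, h1, zero_add] at h)
    · exact hp a β h1
  smul_mem' r p hp a β h := hp a β fun h1 => h (by rw [map_smul, h1, smul_zero])

theorem mem_T {S : Finset (Fin 3)} {e : ℤ} {p : Lr B} : p ∈ T B S e ↔
    ∀ a β, co a β p ≠ 0 → (a : ℤ) + ∑ i, β i = e ∧ ∀ i ∉ S, 0 ≤ β i := Iff.rfl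

theorem co_mo (a a' : ℕ) (β β' : Fin 3 → ℤ) (r : B) :
    co a β (mo a' β' r) = if a' = a ∧ β' = β then r else 0 := by
  change ((Polynomial.monomial a' (AddMonoidAlgebra.single β' r)).coeff a).coeff β = _
  rw [Polynomial.coeff_monomial]
  by_cases h : a' = a <;> simp [h, Finsupp.single_apply]

theorem mo_mul (a a' : ℕ) (β β' : Fin 3 → ℤ) (r r' : B) :
    mo a β r * mo a' β' r' = mo (a + a') (β + β') (r * r') := by
  simp [mo, Polynomial.monomial_mul_monomial, AddMonoidAlgebra.single_mul_single]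

theorem mo_one : mo 0 0 (1 : B) = 1 := rfl

theorem mo_smul (a : ℕ) (β : Fin 3 → ℤ) (r : B) : mo a β r = r • mo a β 1 := by
  simp [mo, Polynomial.smul_monomial]

theorem ext_co {p q : Lr B} (h : ∀ a β, co a β p = co a β q) : p = q :=
  Polynomial.ext fun a => AddMonoidAlgebra.ext (Finsupp.ext fun β => h a β)

theorem mo_mem {S : Finset (Fin 3)} {e : ℤ} {a : ℕ} {β : Fin 3 → ℤ} (r : B)
    (h1 : (a : ℤ) + ∑ i, β i = e) (h2 : ∀ i ∉ S, 0 ≤ β i) : mo a β r ∈ T B S e := by
  intro a' β' h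
  rw [co_mo] at h
  obtain ⟨rfl, rfl⟩ : a = a' ∧ β = β' := by
    by_contra h3
    exact h (if_neg h3)
  exact ⟨h1, h2⟩

/-- every element is the sum of its monomials -/
theorem sum_mo (p : Lr B) :
    ∑ a ∈ p.support, ∑ β ∈ (p.coeff a).coeff.support, mo a β (co a β p) = p := by
  conv_rhs => rw [p.as_sum_support]
  refine Finset.sum_congr rfl fun a _ => ?_
  conv_rhs => rw [← AddMonoidAlgebra.sum_coeff_single (p.coeff a), Finsupp.sum, map_sum]
  rfl

/-- induction over the monomials of an element -/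
theorem T_induction {S : Finset (Fin 3)} {e : ℤ} {P : Lr B → Prop} (h0 : P 0)
    (hadd : ∀ p q, P p → P q → P (p + q))
    (hmo : ∀ (a : ℕ) (β : Fin 3 → ℤ) (r : B), (a : ℤ) + ∑ i, β i = e → (∀ i ∉ S, 0 ≤ β i) →
      P (mo a β r)) {p : Lr B} (hp : p ∈ T B S e) : P p := by
  rw [← sum_mo p]
  refine Finset.sum_induction _ P hadd h0 fun a _ => Finset.sum_induction _ P hadd h0 fun β hβ => ?_
  obtain ⟨h1, h2⟩ := hp a β (Finsupp.mem_support_iff.mp hβ)
  exact hmo a β _ h1 h2

theorem T_mono {S S' : Finset (Fin 3)} (h : S ⊆ S') (e : ℤ) : T B S e ≤ T B S' e :=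
  fun _ hp a β h1 => ⟨(hp a β h1).1, fun i hi => (hp a β h1).2 i fun h2 => hi (h h2)⟩

theorem T_mul {S : Finset (Fin 3)} {e e' : ℤ} {p q : Lr B} (hp : p ∈ T B S e)
    (hq : q ∈ T B S e') : p * q ∈ T B S (e + e') := by
  refine T_induction (P := fun p => p * q ∈ T B S (e + e')) (by simp)
    (fun p p' h h' => by rw [add_mul]; exact add_mem h h') (fun a β r h1 h2 => ?_) hp
  refine T_induction (P := fun q => mo a β r * q ∈ T B S (e + e')) (by simp)
    (fun p p' h h' => by rw [mul_add]; exact add_mem h h') (fun a' β' r' h3 h4 => ?_) hq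
  rw [mo_mul]
  refine mo_mem _ ?_ fun i hi => add_nonneg (h2 i hi) (h4 i hi)
  simp only [Pi.add_apply, Finset.sum_add_distrib]
  push_cast
  omega

theorem one_mem_T (S : Finset (Fin 3)) : (1 : Lr B) ∈ T B S 0 :=
  mo_mem (a := 0) (β := 0) 1 (by simp) (by simp)

theorem T_pow {S : Finset (Fin 3)} {e : ℤ} {p : Lr B} (hp : p ∈ T B S e) (k : ℕ) :
    p ^ k ∈ T B S (k * e) := by
  induction k with
  | zero => simpa using one_mem_T S
  | succ k ih =>
    rw [pow_succ, show ((k + 1 : ℕ) : ℤ) * e = k * e + e by push_cast; ring]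
    exact T_mul ih hp

theorem xv_mem {S : Finset (Fin 3)} {i : Fin 3} {z : ℤ} (h : i ∈ S ∨ 0 ≤ z) :
    xv B i z ∈ T B S z :=
  mo_mem 1 (by simp) fun j hj => by
    by_cases h1 : j = i
    · subst h1
      simpa using h.resolve_left hj
    · simp [h1]

theorem xv_add (i : Fin 3) (z z' : ℤ) : xv B i (z + z') = xv B i z * xv B i z' := by
  rw [xv, xv, xv, mo_mul, Pi.single_add, mul_one]

theorem xv_zero (i : Fin 3) : xv B i 0 = 1 := by rw [xv, Pi.single_zero, mo_one]

theorem xv_pow (i : Fin 3) (z : ℤ) (k : ℕ) : xv B i z ^ k = xv B i (k * z) := by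
  induction k with
  | zero => simp [xv_zero]
  | succ k ih => rw [pow_succ, ih, ← xv_add]; congr 1; push_cast; ring

theorem io_X_zero : io B (X 0) = Polynomial.X := by simp [io]

theorem io_X_succ (i : Fin 3) : io B (X i.succ) = xv B i 1 := by simp [io]

theorem io_monomial (m : Fin 4 →₀ ℕ) (r : B) :
    io B (monomial m r) = mo (m 0) (fun i => (m i.succ : ℤ)) r := by
  rw [io, aeval_monomial, Finsupp.prod_fintype _ _ (by simp), Fin.prod_univ_succ]
  simp only [Fin.cons_zero, Fin.cons_succ, xv_pow, mul_one, Fin.prod_univ_three]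
  have h1 : (Polynomial.X : Lr B) ^ m 0 = mo (m 0) 0 1 := by
    rw [mo, Polynomial.X_pow_eq_monomial]; rfl
  rw [h1, xv, xv, xv, mo_mul, mo_mul, mo_mul, ← Algebra.smul_def, mo_smul _ _ r]
  congr 2
  · funext i
    fin_cases i <;> simp
  · simp

theorem io_mem {b : Pol B} {n : ℕ} (hb : b.IsHomogeneous n) (S : Finset (Fin 3)) :
    io B b ∈ T B S n := by
  rw [← form_coeff hb, form, map_sum]
  refine Submodule.sum_mem _ fun m _ => ?_
  rw [io_monomial]
  refine mo_mem _ ?_ fun i _ => Int.natCast_nonneg _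
  have := m.2
  rw [Finsupp.degree_eq_sum, Fin.sum_univ_succ] at this
  exact_mod_cast this

theorem co_io (b : Pol B) (m : Fin 4 →₀ ℕ) :
    co (m 0) (fun i => (m i.succ : ℤ)) (io B b) = coeff m b := by
  classical
  induction b using MvPolynomial.induction_on' with
  | monomial m' r =>
    rw [io_monomial, co_mo, coeff_monomial]
    refine if_congr ⟨fun ⟨h1, h2⟩ => ?_, by rintro rfl; exact ⟨rfl, rfl⟩⟩ rfl rfl
    ext i
    refine Fin.cases h1 (fun i => ?_) i
    exact_mod_cast congrFun h2 i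
  | add p q hp hq => rw [map_add, map_add, hp, hq, coeff_add]

theorem io_injective : Function.Injective (io B) := fun a b h =>
  MvPolynomial.ext _ _ fun m => by rw [← co_io, h, co_io]

/-- forms without poles are polynomials -/
theorem exists_io {e : ℤ} {p : Lr B} (hp : p ∈ T B ∅ e) :
    ∃ b : Pol B, io B b = p ∧ (∀ n : ℕ, (n : ℤ) = e → b.IsHomogeneous n) ∧ (e < 0 → b = 0) := by
  refine T_induction (P := fun p => ∃ b : Pol B, io B b = p ∧
    (∀ n : ℕ, (n : ℤ) = e → b.IsHomogeneous n) ∧ (e < 0 → b = 0))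
    ⟨0, map_zero _, fun n _ => isHomogeneous_zero _ _ _, fun _ => rfl⟩ ?_ ?_ hp
  · rintro _ _ ⟨b, rfl, h1, h2⟩ ⟨b', rfl, h3, h4⟩
    exact ⟨b + b', map_add _ _ _, fun n hn => (h1 n hn).add (h3 n hn),
      fun h => by rw [h2 h, h4 h, add_zero]⟩
  · intro a β r h1 h2
    have h3 : ∀ i, 0 ≤ β i := fun i => h2 i (by simp)
    refine ⟨monomial (Finsupp.equivFunOnFinite.symm (Fin.cons a fun i => (β i).toNat)) r, ?_,
      fun n hn => isHomogeneous_monomial _ ?_, fun h => ?_⟩
    · rw [io_monomial]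
      simp [Int.toNat_of_nonneg, h3]
    · rw [Finsupp.degree_eq_sum, Fin.sum_univ_succ]
      have : ((a + ∑ i, (β i).toNat : ℕ) : ℤ) = n := by
        rw [hn, ← h1]
        push_cast
        simp [Int.toNat_of_nonneg, h3]
      exact_mod_cast this
    · have := Finset.sum_nonneg (s := Finset.univ) fun i _ => h3 i
      omega

theorem mapL_mo (φ : B →+* B') (a : ℕ) (β : Fin 3 → ℤ) (r : B) :
    mapL φ (mo a β r) = mo a β (φ r) := by
  simp [mapL, mo]

theorem co_mapL (φ : B →+* B') (a : ℕ) (β : Fin 3 → ℤ) (p : Lr B) :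
    co a β (mapL φ p) = φ (co a β p) := by
  change ((Polynomial.map (AddMonoidAlgebra.mapRingHom (Fin 3 → ℤ) φ) p).coeff a).coeff β = _
  rw [Polynomial.coeff_map, AddMonoidAlgebra.coeff_mapRingHom]
  rfl

theorem mapL_mem (φ : B →+* B') {S : Finset (Fin 3)} {e : ℤ} {p : Lr B} (hp : p ∈ T B S e) :
    mapL φ p ∈ T B' S e := fun a β h =>
  hp a β fun h1 => h (by rw [co_mapL, h1, map_zero])

theorem mapL_io (φ : B →+* B') (b : Pol B) : mapL φ (io B b) = io B' (map φ b) := by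
  induction b using MvPolynomial.induction_on' with
  | monomial m r => rw [map_monomial, io_monomial, io_monomial, mapL_mo]
  | add p q hp hq => simp only [map_add, hp, hq]

theorem mapL_mapL {B'' : Type} [CommRing B''] (φ : B →+* B') (ψ : B' →+* B'') (p : Lr B) :
    mapL ψ (mapL φ p) = mapL (ψ.comp φ) p :=
  ext_co fun a β => by simp only [co_mapL, RingHom.comp_apply]

theorem mapL_id (p : Lr B) : mapL (RingHom.id B) p = p :=
  ext_co fun a β => by simp only [co_mapL, RingHom.id_apply]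

/-- the functions on `D(x_{i+1}) ∩ D(x_{j+1})` -/
def R0 (B : Type) [CommRing B] (i j : Fin 3) : Subring (Lr B) where
  carrier := T B {i, j} 0
  mul_mem' h h' := by simpa using T_mul h h'
  one_mem' := one_mem_T _
  add_mem' := add_mem
  zero_mem' := zero_mem _
  neg_mem' := neg_mem

theorem mem_R0 {i j : Fin 3} {p : Lr B} : p ∈ R0 B i j ↔ p ∈ T B {i, j} 0 := Iff.rfl

/-- coboundaries in degree two -/
noncomputable def BB (B : Type) [CommRing B] (e : ℤ) : Submodule B (Lr B) :=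
  T B {0, 1} e ⊔ T B {1, 2} e ⊔ T B {2, 0} e

end Laurent

section Coc

variable {A : Type} [CommRing A] {n : Type} [Fintype n] [DecidableEq n]

/-- a system of subrings -/
structure Sys3 (R : Fin 3 → Fin 3 → Subring A) : Prop where
  symm : ∀ i j, R i j = R j i
  le : ∀ i j, R i i ≤ R i j

theorem sys3_R0 (B : Type) [CommRing B] : Sys3 (R0 B) where
  symm i j := by ext p; rw [mem_R0, mem_R0, Finset.pair_comm]
  le i j p hp := T_mono (by simp) 0 hp

/-- entries in the subrings -/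
def Ent (R : Fin 3 → Fin 3 → Subring A) (φ : Fin 3 → Fin 3 → Matrix n n A) : Prop :=
  ∀ i j a b, φ i j a b ∈ R i j

/-- congruent matrices -/
def Cong (J : Ideal A) (M M' : Matrix n n A) : Prop := ∀ a b, M a b - M' a b ∈ J

/-- a cocycle of rank one modulo `J` -/
structure Coc (J : Ideal A) (φ : Fin 3 → Fin 3 → Matrix n n A) : Prop where
  mul : ∀ i j l, Cong J (φ i j * φ j l) (φ i l)
  tr : ∀ i, (φ i i).trace - 1 ∈ J
  rk : ∀ i a b c d, φ i i a b * φ i i c d - φ i i a d * φ i i c b ∈ J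

/-- isomorphic cocycles modulo `J` -/
def IsoM (R : Fin 3 → Fin 3 → Subring A) (J : Ideal A) (φ ψ : Fin 3 → Fin 3 → Matrix n n A) :
    Prop :=
  ∃ α β : Fin 3 → Matrix n n A, (∀ i a b, α i a b ∈ R i i ∧ β i a b ∈ R i i) ∧
    ∀ i j, Cong J (α i * ψ i j * β j) (φ i j) ∧ Cong J (β i * φ i j * α j) (ψ i j)

/-- the dual cocycle -/
def tp (φ : Fin 3 → Fin 3 → Matrix n n A) : Fin 3 → Fin 3 → Matrix n n A :=
  fun i j => (φ j i).transpose

/-- a cocycle of rank one up to the triple product -/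
structure Pre (J : Ideal A) (φ : Fin 3 → Fin 3 → Matrix n n A) : Prop where
  left : ∀ i j, Cong J (φ i i * φ i j) (φ i j)
  right : ∀ i j, Cong J (φ i j * φ j j) (φ i j)
  inv : ∀ i j, Cong J (φ i j * φ j i) (φ i i)
  tr : ∀ i, (φ i i).trace - 1 ∈ J
  rk : ∀ i a b c d, φ i i a b * φ i i c d - φ i i a d * φ i i c b ∈ J

/-- the obstruction -/
def ob (φ : Fin 3 → Fin 3 → Matrix n n A) : A := (φ 0 1 * φ 1 2 * φ 2 0).trace - 1

/-- vanishing of the first cohomology of `J / J'` -/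
def H1J (R : Fin 3 → Fin 3 → Subring A) (J J' : Ideal A) : Prop :=
  ∀ c : Fin 3 → Fin 3 → A, (∀ i j, c i j ∈ R i j ∧ c i j ∈ J) →
    (∀ i j l, c i l - (c i j + c j l) ∈ J') →
    ∃ b : Fin 3 → A, (∀ i, b i ∈ R i i ∧ b i ∈ J) ∧ ∀ i j, c i j - (b i - b j) ∈ J'

variable {J J' : Ideal A} {M M' M'' N N' : Matrix n n A}
  {φ ψ φ' : Fin 3 → Fin 3 → Matrix n n A} {R : Fin 3 → Fin 3 → Subring A}

theorem cong_iff : Cong J M M' ↔
    (Ideal.Quotient.mk J).mapMatrix M = (Ideal.Quotient.mk J).mapMatrix M' := by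
  simp only [Cong, ← Matrix.ext_iff, RingHom.mapMatrix_apply, Matrix.map_apply, Ideal.Quotient.eq]

omit [Fintype n] [DecidableEq n] in
theorem Cong.refl (J : Ideal A) (M : Matrix n n A) : Cong J M M := fun a b => by simp

omit [Fintype n] [DecidableEq n] in
theorem Cong.symm (h : Cong J M M') : Cong J M' M := fun a b => by
  simpa using J.neg_mem (h a b)

omit [Fintype n] [DecidableEq n] in
theorem Cong.trans (h : Cong J M M') (h' : Cong J M' M'') : Cong J M M'' := fun a b => by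
  simpa using J.add_mem (h a b) (h' a b)

omit [Fintype n] [DecidableEq n] in
theorem Cong.mono (h : Cong J' M M') (hJ : J' ≤ J) : Cong J M M' := fun a b => hJ (h a b)

theorem Cong.mul (h : Cong J M M') (h' : Cong J N N') : Cong J (M * N) (M' * N') := by
  rw [cong_iff] at h h' ⊢
  rw [map_mul, map_mul, h, h']

omit [DecidableEq n] in
theorem Cong.trace (h : Cong J M M') : M.trace - M'.trace ∈ J := by
  rw [Matrix.trace, Matrix.trace, ← Finset.sum_sub_distrib]
  exact J.sum_mem fun a _ => h a a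

omit [Fintype n] [DecidableEq n] in
theorem Cong.smul {r r' : A} (hr : r - r' ∈ J) (h : Cong J M M') : Cong J (r • M) (r' • M') :=
  fun a b => by
    have := J.add_mem (J.mul_mem_right (M a b) hr) (J.mul_mem_left r' (h a b))
    convert this using 1
    simp only [Matrix.smul_apply, smul_eq_mul]
    ring

omit [DecidableEq n] in
theorem Cong.mulVec (h : Cong J M M') {v v' : n → A} (hv : ∀ a, v a - v' a ∈ J) (a : n) :
    M.mulVec v a - M'.mulVec v' a ∈ J := by
  simp only [Matrix.mulVec, dotProduct, ← Finset.sum_sub_distrib]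
  refine J.sum_mem fun b _ => ?_
  convert J.add_mem (J.mul_mem_right (v b) (h a b)) (J.mul_mem_left (M' a b) (hv b)) using 1
  ring

omit [Fintype n] [DecidableEq n] in
theorem Cong.map {A' : Type} [CommRing A'] (p : A →+* A') {K : Ideal A'} (hp : ∀ a ∈ J, p a ∈ K)
    (h : Cong J M M') : Cong K (M.map p) (M'.map p) := fun a b => by
  simpa using hp _ (h a b)

omit [DecidableEq n] in
/-- the basic property of rank one idempotents -/
theorem rk_mul {e : Matrix n n A} (h : ∀ a b c d, e a b * e c d - e a d * e c b ∈ J)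
    (M : Matrix n n A) : Cong J (e * M * e) ((e * M).trace • e) := fun a d => by
  have : (e * M * e) a d - ((e * M).trace • e) a d =
      ∑ b, ∑ c, M b c * (e a b * e c d - e a d * e c b) := by
    simp only [Matrix.mul_apply, Matrix.trace, Matrix.diag, Matrix.smul_apply, smul_eq_mul,
      Finset.sum_mul, ← Finset.sum_sub_distrib]
    rw [Finset.sum_comm]
    exact Finset.sum_congr rfl fun b _ => Finset.sum_congr rfl fun c _ => by ring
  rw [this]
  exact J.sum_mem fun b _ => J.sum_mem fun c _ => J.mul_mem_left _ (h a b c d)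

omit [DecidableEq n] in
theorem Coc.pre (h : Coc J φ) : Pre J φ :=
  ⟨fun i j => h.mul i i j, fun i j => h.mul i j j, fun i j => h.mul i j i, h.tr, h.rk⟩

omit [DecidableEq n] in
theorem Coc.mono (h : Coc J' φ) (hJ : J' ≤ J) : Coc J φ :=
  ⟨fun i j l => (h.mul i j l).mono hJ, fun i => hJ (h.tr i), fun i a b c d => hJ (h.rk i a b c d)⟩

theorem Coc.congr (h : Coc J φ) (h' : ∀ i j, Cong J (φ' i j) (φ i j)) : Coc J φ' where
  mul i j l := (((h' i j).mul (h' j l)).trans (h.mul i j l)).trans (h' i l).symm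
  tr i := by simpa using J.add_mem (h' i i).trace (h.tr i)
  rk i a b c d := by
    have e := fun a b => Ideal.Quotient.eq.mpr (h' i i a b)
    rw [← Ideal.Quotient.eq, map_mul, map_mul, e, e, e, e, ← map_mul, ← map_mul,
      Ideal.Quotient.eq]
    exact h.rk i a b c d

theorem Coc.ob_mem (h : Coc J φ) : ob φ ∈ J := by
  have := (((h.mul 0 1 2).mul (Cong.refl J (φ 2 0))).trans (h.mul 0 2 0)).trace
  simpa [ob] using J.add_mem this (h.tr 0)

omit [DecidableEq n] in
theorem Coc.tp (h : Coc J φ) : Coc J (tp φ) where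
  mul i j l a b := by
    have := h.mul l j i b a
    rwa [← Matrix.transpose_apply (φ l j * φ j i), Matrix.transpose_mul] at this
  tr i := h.tr i
  rk i a b c d := by
    simpa [Pool.Agent.P.MP_2b2d3b_ag.tp, mul_comm] using h.rk i b a d c

omit [Fintype n] [DecidableEq n] in
theorem Ent.tp (hR : Sys3 R) (h : Ent R φ) : Ent R (tp φ) := fun i j a b =>
  hR.symm j i ▸ h j i b a

theorem IsoM.congr (h : IsoM R J φ ψ) (h' : ∀ i j, Cong J (φ' i j) (φ i j)) : IsoM R J φ' ψ := by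
  obtain ⟨α, β, h1, h2⟩ := h
  exact ⟨α, β, h1, fun i j => ⟨(h2 i j).1.trans (h' i j).symm,
    (((Cong.refl J _).mul (h' i j)).mul (Cong.refl J _)).trans (h2 i j).2⟩⟩

theorem IsoM.of_cong (h : ∀ i j, Cong J (φ i j) (ψ i j)) : IsoM R J φ ψ := by
  refine ⟨fun _ => 1, fun _ => 1, fun i a b => ?_, fun i j => ?_⟩
  · have : (1 : Matrix n n A) a b ∈ R i i := by
      rw [Matrix.one_apply]
      split_ifs
      exacts [one_mem _, zero_mem _]
    exact ⟨this, this⟩
  · simpa using ⟨(h i j).symm, h i j⟩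

section Map

variable {A' : Type} [CommRing A'] (p : A →+* A') {K : Ideal A'}

/-- image of a system of matrices -/
def mp (φ : Fin 3 → Fin 3 → Matrix n n A) : Fin 3 → Fin 3 → Matrix n n A' :=
  fun i j => (φ i j).map p

omit [DecidableEq n] in
theorem trace_map (M : Matrix n n A) : (M.map p).trace = p M.trace := by
  simp [Matrix.trace]

omit [DecidableEq n] in
theorem ob_mp (φ : Fin 3 → Fin 3 → Matrix n n A) : ob (mp p φ) = p (ob φ) := by
  simp only [ob, mp, ← Matrix.map_mul, trace_map, map_sub, map_one]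

omit [DecidableEq n] in
theorem Coc.map (hp : ∀ a ∈ J, p a ∈ K) (h : Coc J φ) : Coc K (mp p φ) where
  mul i j l := by simpa only [mp, Matrix.map_mul] using (h.mul i j l).map p hp
  tr i := by simpa only [mp, trace_map, map_sub, map_one] using hp _ (h.tr i)
  rk i a b c d := by simpa [mp] using hp _ (h.rk i a b c d)

omit [DecidableEq n] in
theorem Pre.map (hp : ∀ a ∈ J, p a ∈ K) (h : Pre J φ) : Pre K (mp p φ) where
  left i j := by simpa only [mp, Matrix.map_mul] using (h.left i j).map p hp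
  right i j := by simpa only [mp, Matrix.map_mul] using (h.right i j).map p hp
  inv i j := by simpa only [mp, Matrix.map_mul] using (h.inv i j).map p hp
  tr i := by simpa only [mp, trace_map, map_sub, map_one] using hp _ (h.tr i)
  rk i a b c d := by simpa [mp] using hp _ (h.rk i a b c d)

end Map

omit [Fintype n] [DecidableEq n] in
theorem Ent.mapL {B B' : Type} [CommRing B] [CommRing B'] (σ : B →+* B')
    {φ : Fin 3 → Fin 3 → Matrix n n (Lr B)} (h : Ent (R0 B) φ) : Ent (R0 B') (mp (mapL σ) φ) :=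
  fun i j a b => mapL_mem σ (h i j a b)

end Coc

section Sec

variable {n : Type} [Fintype n]

/-- sections of degree `e` modulo `f ^ k` -/
def Sec (f : Lr ℂ) (φ : Fin 3 → Fin 3 → Matrix n n (Lr ℂ)) (k : ℕ) (e : ℤ)
    (s : Fin 3 → n → Lr ℂ) : Prop :=
  (∀ i a, s i a ∈ T ℂ {i} e) ∧ ∀ i j a, s i a - (φ i j).mulVec (s j) a ∈ Ideal.span {f ^ k}

/-- one-cocycles of degree `e` modulo `f` -/
def Z1 (f : Lr ℂ) (φ : Fin 3 → Fin 3 → Matrix n n (Lr ℂ)) (e : ℤ)
    (z : Fin 3 → Fin 3 → n → Lr ℂ) : Prop :=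
  (∀ i j a, z i j a ∈ T ℂ {i, j} e) ∧
    (∀ i j a, z i j a - (φ i i).mulVec (z i j) a ∈ Ideal.span {f}) ∧
    ∀ i j l a, z i l a - (z i j a + (φ i j).mulVec (z j l) a) ∈ Ideal.span {f}

/-- one-coboundaries of degree `e` modulo `f` -/
def B1 (f : Lr ℂ) (φ : Fin 3 → Fin 3 → Matrix n n (Lr ℂ)) (e : ℤ)
    (z : Fin 3 → Fin 3 → n → Lr ℂ) : Prop :=
  ∃ y : Fin 3 → n → Lr ℂ, (∀ i a, y i a ∈ T ℂ {i} e) ∧
    ∀ i j a, z i j a - (y i a - (φ i j).mulVec (y j) a) ∈ Ideal.span {f}

/-- the first cohomology has finite length -/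
def H1fin (f : Lr ℂ) (φ : Fin 3 → Fin 3 → Matrix n n (Lr ℂ)) : Prop :=
  ∃ (a b : ℤ) (L : ℕ), ∀ e : ℤ, ((e < a ∨ b < e) → ∀ z, Z1 f φ e z → B1 f φ e z) ∧
    ∃ U : Fin L → Fin 3 → Fin 3 → n → Lr ℂ, ∀ z, Z1 f φ e z →
      ∃ c : Fin L → ℂ, B1 f φ e (z - ∑ r, c r • U r)

/-- a compatible system of liftings to the thickenings -/
structure Tow (f : Lr ℂ) (φ : Fin 3 → Fin 3 → Matrix n n (Lr ℂ))
    (Φ : ℕ → Fin 3 → Fin 3 → Matrix n n (Lr ℂ)) : Prop where
  zero : Φ 0 = φ
  ent : ∀ k, Ent (R0 ℂ) (Φ k)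
  coc : ∀ k, Coc (Ideal.span {f ^ (k + 1)}) (Φ k)
  cmp : ∀ k i j, Cong (Ideal.span {f ^ (k + 1)}) (Φ (k + 1) i j) (Φ k i j)

theorem Tow.tp {f : Lr ℂ} {φ : Fin 3 → Fin 3 → Matrix n n (Lr ℂ)}
    {Φ : ℕ → Fin 3 → Fin 3 → Matrix n n (Lr ℂ)} (h : Tow f φ Φ) :
    Tow f (tp φ) fun k => tp (Φ k) :=
  ⟨by rw [h.zero], fun k => (h.ent k).tp (sys3_R0 ℂ), fun k => (h.coc k).tp,
    fun k i j a b => h.cmp k j i b a⟩

end Sec

/-- a rank one matrix on `S` whose entries have no common zero -/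
structure InvD (F : Pol ℂ) {ι : Type} [Fintype ι] (N : ℕ) (h : ι → Fin 3 × ι → Pol ℂ) : Prop where
  hom : ∀ a β, (h a β).IsHomogeneous N
  rk : ∀ a a' β β', h a β * h a' β' - h a β' * h a' β ∈ Ideal.span {F}
  sum : ∀ i : Fin 3, ∑ a, h a (i, a) - X i.succ ^ N ∈ Ideal.span {F}

end Pool.Agent.P.MP_2b2d3b_ag
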