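import Pool.Agent.P.MP_2b2d3b_ag.Hilb

/-!
Finiteness on a twisted cubic, plane sections of a twisted cubic, and Bertini's theorem.
-/

namespace Pool.Agent.P.MP_2b2d3b_ag

open MvPolynomial Module

namespace FinAP

/-- the parametrisation `x = Γ (1, t, t², t³)` -/
noncomputable def th (Γ : Matrix (Fin 4) (Fin 4) ℂ) : Pol ℂ →ₐ[ℂ] Polynomial ℂ :=
  aeval fun i => ∑ k : Fin 4, Polynomial.C (Γ i k) * Polynomial.X ^ (k : ℕ)

theorem th_X (Γ : Matrix (Fin 4) (Fin 4) ℂ) (i : Fin 4) :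
    th Γ (X i) = ∑ k : Fin 4, Polynomial.C (Γ i k) * Polynomial.X ^ (k : ℕ) := by
  simp [th]

theorem th_C (Γ : Matrix (Fin 4) (Fin 4) ℂ) (c : ℂ) : th Γ (C c) = Polynomial.C c := by
  simp [th]

theorem th_linForm (Γ : Matrix (Fin 4) (Fin 4) ℂ) (c : Fin 4 → ℂ) :
    th Γ (linForm c) =
      ∑ k : Fin 4, Polynomial.C (∑ i, c i * Γ i k) * Polynomial.X ^ (k : ℕ) := by
  simp only [linForm, map_sum, map_mul, th_C, th_X, Finset.mul_sum, Finset.sum_mul]
  rw [Finset.sum_comm]
  refine Finset.sum_congr rfl fun k _ => Finset.sum_congr rfl fun i _ => by ring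

variable {g Γ : Matrix (Fin 4) (Fin 4) ℂ}

theorem th_y (hg : g * Γ = 1) (k : Fin 4) :
    th Γ (linForm (g k)) = Polynomial.X ^ (k : ℕ) := by
  rw [th_linForm]
  simp only [sum_inv (mul_eq_one_comm.mp hg)]
  rw [Finset.sum_eq_single k]
  · simp
  · intro l _ hl
    rw [if_neg (Ne.symm hl)]
    simp
  · simp

theorem th_lin_inj (hg : g * Γ = 1) {c : Fin 4 → ℂ} (h : th Γ (linForm c) = 0) : c = 0 := by
  rw [th_linForm] at h
  have h1 : ∀ k : Fin 4, ∑ i, c i * Γ i k = 0 := fun k => by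
    have := congrArg (fun p => Polynomial.coeff p k) h
    simp only [Polynomial.finsetSum_coeff, Polynomial.coeff_C_mul, Polynomial.coeff_X_pow,
      Polynomial.coeff_zero] at this
    rw [Finset.sum_eq_single k] at this
    · simpa using this
    · intro l _ hl
      rw [if_neg (fun e => hl (Fin.ext e).symm), mul_zero]
    · simp
  have h2 : Matrix.vecMul c Γ = 0 := funext h1
  have h3 := congrArg (fun v => Matrix.vecMul v g) h2
  simpa [Matrix.vecMul_vecMul, mul_eq_one_comm.mp hg] using h3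

theorem th_top (Γ : Matrix (Fin 4) (Fin 4) ℂ) {F : Pol ℂ} {d : ℕ} (hF : F.IsHomogeneous d) :
    (th Γ F).coeff (3 * d) = eval (fun i => Γ i 3) F := by
  have hd : ∀ i, (th Γ (X i)).natDegree ≤ 3 := fun i => by
    rw [th_X]
    refine Polynomial.natDegree_sum_le_of_forall_le _ _ fun k _ => ?_
    exact (Polynomial.natDegree_C_mul_X_pow_le _ _).trans (by omega)
  have hc : ∀ i, (th Γ (X i)).coeff 3 = Γ i 3 := fun i => by
    rw [th_X]
    simp [Fin.sum_univ_four]
  have := hom_induction ((th Γ : Pol ℂ →+* Polynomial ℂ).prod (eval fun i => Γ i 3))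
    (fun d a => a.1.natDegree ≤ 3 * d ∧ a.1.coeff (3 * d) = a.2) (fun _ => by simp)
    (fun d a b ha hb => ⟨(Polynomial.natDegree_add_le _ _).trans (max_le ha.1 hb.1), by
      simp [ha.2, hb.2]⟩)
    (fun c => by simp)
    (fun d a i ha => by
      refine ⟨Polynomial.natDegree_mul_le.trans ?_, ?_⟩
      · have := hd i
        have := ha.1
        simp only [RingHom.prod_apply, RingHom.coe_coe]
        omega
      · simp only [RingHom.prod_apply, RingHom.coe_coe, Prod.fst_mul, Prod.snd_mul, eval_X]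
        rw [mul_add, mul_one, Polynomial.coeff_mul_add_eq_of_natDegree_le ha.1 (hd i), ha.2, hc])
    hF
  simpa using this.2

theorem q0_mem (g : Matrix (Fin 4) (Fin 4) ℂ) :
    linForm (g 0) * linForm (g 2) - linForm (g 1) ^ 2 ∈ tcI g :=
  Ideal.subset_span (by simp)

theorem q1_mem (g : Matrix (Fin 4) (Fin 4) ℂ) :
    linForm (g 0) * linForm (g 3) - linForm (g 1) * linForm (g 2) ∈ tcI g :=
  Ideal.subset_span (by simp)

theorem q2_mem (g : Matrix (Fin 4) (Fin 4) ℂ) :
    linForm (g 1) * linForm (g 3) - linForm (g 2) ^ 2 ∈ tcI g :=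
  Ideal.subset_span (by simp)

/-- the affine twisted cubic is a quotient of the line -/
theorem mem_of_map (hg : g * Γ = 1) {I : Ideal (Pol ℂ)} (hI : tcI g ≤ I) {a : Pol ℂ}
    (ha : th Γ a ∈ I.map (th Γ)) : a ∈ I ⊔ Ideal.span {linForm (g 0) - 1} := by
  set T := I ⊔ Ideal.span {linForm (g 0) - 1} with hT
  let π := Ideal.Quotient.mkₐ ℂ T
  let ψ : Polynomial ℂ →ₐ[ℂ] Pol ℂ ⧸ T := Polynomial.aeval (π (linForm (g 1)))
  have hz : ∀ b ∈ T, π b = 0 := fun b hb => Ideal.Quotient.eq_zero_iff_mem.mpr hb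
  have e0 : π (linForm (g 0)) = 1 := by
    have := hz _ (Ideal.mem_sup_right (Ideal.mem_span_singleton_self _))
    rwa [map_sub, map_one, sub_eq_zero] at this
  have e2 : π (linForm (g 2)) = π (linForm (g 1)) ^ 2 := by
    have := hz _ (Ideal.mem_sup_left (hI (q0_mem g)))
    rwa [map_sub, map_mul, map_pow, e0, one_mul, sub_eq_zero] at this
  have e3 : π (linForm (g 3)) = π (linForm (g 1)) ^ 3 := by
    have := hz _ (Ideal.mem_sup_left (hI (q1_mem g)))
    rw [map_sub, map_mul, map_mul, e0, one_mul, sub_eq_zero, e2] at this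
    rw [this]
    ring
  have key : ψ.comp (th Γ) = π := by
    refine algHom_ext fun i => ?_
    rw [AlgHom.comp_apply, th_X, X_eq_sum (mul_eq_one_comm.mp hg) i, Fin.sum_univ_four,
      Fin.sum_univ_four]
    simp only [map_add, map_mul, map_pow, ψ, Polynomial.aeval_C, Polynomial.aeval_X, e0, e2, e3,
      algHom_C]
    simp
  have h1 : I.map (th Γ) ≤ RingHom.ker ψ := by
    rw [Ideal.map_le_iff_le_comap]
    intro b hb
    rw [Ideal.mem_comap, RingHom.mem_ker, ← AlgHom.comp_apply, key]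
    exact hz b (Ideal.mem_sup_left hb)
  have h2 := h1 ha
  rw [RingHom.mem_ker, ← AlgHom.comp_apply, key] at h2
  exact Ideal.Quotient.eq_zero_iff_mem.mp h2

/-- `y₀` is a non-zero-divisor modulo a saturated ideal containing `F` and the cubic -/
theorem cancel_y0 (hg : g * Γ = 1) {F : Pol ℂ} (hF : F.IsHomogeneous 6)
    (hne : eval (fun i => Γ i 3) F ≠ 0) {I : Ideal (Pol ℂ)} (hs : SatI I) (hFI : F ∈ I)
    (hI : tcI g ≤ I) {a : Pol ℂ} {k : ℕ} (ha : linForm (g 0) ^ k * a ∈ I) : a ∈ I := by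
  refine hs a fun i => ?_
  let K : Ideal (Pol ℂ) := I.colon {a}
  have hK : ∀ b, b ∈ K ↔ b * a ∈ I := fun b => by
    simp [K, Submodule.mem_colon_singleton]
  have hX : X i ∈ K.radical := by
    rw [Ideal.radical_eq_sInf, Submodule.mem_sInf]
    rintro q ⟨h1, h2⟩
    have hIq : I ≤ q := fun b hb => h1 ((hK b).mpr (I.mul_mem_right _ hb))
    let π := Ideal.Quotient.mk q
    have hz : ∀ b ∈ q, π b = 0 := fun b hb => Ideal.Quotient.eq_zero_iff_mem.mpr hb
    have e0 : π (linForm (g 0)) = 0 := hz _ (h2.mem_of_pow_mem k (h1 ((hK _).mpr ha)))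
    have e1 : π (linForm (g 1)) = 0 := by
      have := hz _ (hIq (hI (q0_mem g)))
      rw [map_sub, map_mul, map_pow, e0, zero_mul, zero_sub, neg_eq_zero] at this
      exact pow_eq_zero_iff (two_ne_zero) |>.mp this
    have e2 : π (linForm (g 2)) = 0 := by
      have := hz _ (hIq (hI (q2_mem g)))
      rw [map_sub, map_mul, map_pow, e1, zero_mul, zero_sub, neg_eq_zero] at this
      exact pow_eq_zero_iff (two_ne_zero) |>.mp this
    have eX : ∀ j, π (X j) = π (linForm (g 3)) * π (C (Γ j 3)) := fun j => by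
      rw [X_eq (mul_eq_one_comm.mp hg) j]
      simp only [map_add, map_mul, e0, e1, e2]
      ring
    have eF : π F = π (linForm (g 3)) ^ 6 * π (C (eval (fun i => Γ i 3) F)) := by
      have h3 : π F = eval₂ (π.comp C) (fun j => π (X j)) F := by
        conv_lhs => rw [← eval₂_eta F]
        rw [eval₂_comp_left]
        rfl
      have h4 : π (C (eval (fun i => Γ i 3) F)) =
          eval₂ (π.comp C) (fun j => π (C (Γ j 3))) F := by
        rw [← RingHom.comp_apply, ← eval₂_id, eval₂_comp_left]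
        rfl
      rw [h3, h4, ← eval₂_scale _ _ _ hF]
      simp only [eX]
    rw [hz F (hIq hFI)] at eF
    have hu : π (C (eval (fun i => Γ i 3) F)) ≠ 0 :=
      ((IsUnit.mk0 _ hne).map (π.comp C)).ne_zero
    have e3 : π (linForm (g 3)) = 0 :=
      pow_eq_zero_iff (by norm_num) |>.mp ((mul_eq_zero.mp eF.symm).resolve_right hu)
    refine Ideal.Quotient.eq_zero_iff_mem.mp ?_
    change π (X i) = 0
    rw [eX, e3, zero_mul]
  obtain ⟨n, hn⟩ := hX
  exact ⟨n, (hK _).mp hn⟩

theorem eval_y (hg : g * Γ = 1) (e : Fin 4 → ℂ) (k : Fin 4) :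
    eval (Γ.mulVec e) (linForm (g k)) = e k := by
  have h : g.mulVec (Γ.mulVec e) = e := by rw [Matrix.mulVec_mulVec, hg, Matrix.one_mulVec]
  have := congrFun h k
  rw [← this]
  simp [linForm, Matrix.mulVec, dotProduct]

theorem eval_aeval (p : Fin 4 → ℂ) (f : Fin 4 → Pol ℂ) (h : Pol ℂ) :
    eval p (aeval f h) = eval (fun i => eval p (f i)) h := by
  induction h using MvPolynomial.induction_on with
  | C a => simp
  | add a b ha hb => simp only [map_add, ha, hb]
  | mul_X a i ha => simp only [map_mul, ha, aeval_X, eval_X]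

/-- `linForm` as a linear map -/
noncomputable def linL : (Fin 4 → ℂ) →ₗ[ℂ] Pol ℂ where
  toFun := linForm
  map_add' c c' := by simp [linForm, add_mul, Finset.sum_add_distrib]
  map_smul' r c := by simp [linForm, smul_eq_C_mul, Finset.mul_sum, mul_assoc]

end FinAP

open FinAP HilbP

theorem tcFin : S_TcFin := by
  classical
  intro F g Γ hF hg hne
  have h0 : th Γ F ≠ 0 := fun h => hne (by rw [← th_top Γ hF, h, Polynomial.coeff_zero])
  have h1 : (Ideal.span {th Γ F} : Ideal (Polynomial ℂ)) ≠ 0 := by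
    simpa [Ideal.span_singleton_eq_bot] using h0
  have h2 : {J : Ideal (Polynomial ℂ) | J ∣ Ideal.span {th Γ F}}.Finite := by
    have := UniqueFactorizationMonoid.fintypeSubtypeDvd _ h1
    exact Set.finite_coe_iff.mp (Finite.of_fintype {J // J ∣ Ideal.span {th Γ F}})
  have key : ∀ I I' : Ideal (Pol ℂ), HomI I → HomI I' → SatI I' → F ∈ I' → tcI g ≤ I' →
      I.map (th Γ) = I'.map (th Γ) → I ≤ I' := by
    intro I I' hI hI' hs hF' ht e a ha
    rw [← sum_homogeneousComponent a]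
    refine Ideal.sum_mem _ fun d _ => ?_
    have h3 : th Γ (homogeneousComponent d a) ∈ I'.map (th Γ) :=
      e ▸ Ideal.mem_map_of_mem _ (hI a ha d)
    obtain ⟨k, hk⟩ := dehom ℂ I' _ _ d hI' (linForm_hom (g 0))
      (homogeneousComponent_isHomogeneous d a) (mem_of_map hg ht h3)
    exact cancel_y0 hg hF hne hs hF' ht hk
  refine Set.Finite.of_finite_image (f := fun I => I.map (th Γ)) (h2.subset ?_) ?_
  · rintro _ ⟨I, hI, rfl⟩
    rw [Set.mem_ofPred_eq, Ideal.dvd_iff_le, Ideal.span_singleton_le_iff_mem]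
    exact Ideal.mem_map_of_mem _ hI.2.2.1
  · intro I hI I' hI' e
    exact le_antisymm (key I I' hI.1 hI'.1 hI'.2.1 hI'.2.2.1 hI'.2.2.2 e)
      (key I' I hI'.1 hI.1 hI.2.1 hI.2.2.1 hI.2.2.2 e.symm)

theorem tcPlane : S_TcPlane := by
  intro g I l hdet hI hl hl0 hlI
  have hg : g * g⁻¹ = 1 := Matrix.mul_nonsing_inv g (IsUnit.mk0 _ hdet)
  let q : Fin 3 → Pol ℂ := ![linForm (g 0) * linForm (g 2) - linForm (g 1) ^ 2,
    linForm (g 0) * linForm (g 3) - linForm (g 1) * linForm (g 2),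
    linForm (g 1) * linForm (g 3) - linForm (g 2) ^ 2]
  have hq : ∀ i, q i ∈ Id I 2 := fun i => by
    fin_cases i
    · exact ⟨hI (q0_mem g), ((linForm_hom _).mul (linForm_hom _)).sub ((linForm_hom _).pow 2)⟩
    · exact ⟨hI (q1_mem g), ((linForm_hom _).mul (linForm_hom _)).sub
        ((linForm_hom _).mul (linForm_hom _))⟩
    · exact ⟨hI (q2_mem g), ((linForm_hom _).mul (linForm_hom _)).sub ((linForm_hom _).pow 2)⟩
  let L : ((Fin 4 → ℂ) × (Fin 3 → ℂ)) →ₗ[ℂ] Pol ℂ :=
    ((LinearMap.mulLeft ℂ l).comp linL).coprod (Fintype.linearCombination ℂ q)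
  have hL : ∀ m a, L (m, a) = l * linForm m + ∑ i, a i • q i := fun m a => by
    simp [L, linL, Fintype.linearCombination_apply]
  have hr : LinearMap.range L ≤ Id I 2 := by
    rintro _ ⟨⟨m, a⟩, rfl⟩
    rw [hL]
    refine Submodule.add_mem _ ⟨I.mul_mem_right _ hlI, hl.mul (linForm_hom m)⟩ ?_
    exact Submodule.sum_mem _ fun i _ => Submodule.smul_mem _ _ (hq i)
  have hinj : Function.Injective L := by
    rw [injective_iff_map_eq_zero]
    rintro ⟨m, a⟩ h
    rw [hL] at h
    have h1 := congrArg (th g⁻¹) h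
    have h2 : ∀ i, th g⁻¹ (q i) = 0 := fun i => by
      fin_cases i <;> simp [q, th_y hg] <;> ring
    simp only [map_add, map_mul, map_sum, map_smul, h2, smul_zero, Finset.sum_const_zero,
      add_zero, map_zero] at h1
    obtain ⟨c, rfl⟩ := exists_linForm hl
    have h3 : th g⁻¹ (linForm c) ≠ 0 := fun h3 => hl0 (by
      rw [th_lin_inj hg h3]
      simp [linForm])
    have h4 : m = 0 := th_lin_inj hg ((mul_eq_zero.mp h1).resolve_left h3)
    subst h4
    have h5 : ∑ i, a i • q i = 0 := by simpa [linForm] using h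
    have h6 : ∀ e : Fin 4 → ℂ, a 0 * (e 0 * e 2 - e 1 ^ 2) + a 1 * (e 0 * e 3 - e 1 * e 2) +
        a 2 * (e 1 * e 3 - e 2 ^ 2) = 0 := fun e => by
      have := congrArg (eval (g⁻¹.mulVec e)) h5
      simpa [Fin.sum_univ_three, q, smul_eval, eval_y hg] using this
    have a0 := h6 ![0, 1, 0, 0]
    have a1 := h6 ![1, 0, 0, 1]
    have a2 := h6 ![0, 0, 1, 0]
    simp at a0 a1 a2
    refine Prod.ext rfl (funext fun i => ?_)
    fin_cases i
    exacts [a0, a1, a2]
  have hfin : Module.Finite ℂ (Id I 2) :=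
    Module.Finite.of_injective (Submodule.inclusion (inf_le_right : Id I 2 ≤ Hd 2))
      (Submodule.inclusion_injective _)
  have h7 := Submodule.finrank_mono hr
  rw [LinearMap.finrank_range_of_inj hinj] at h7
  have h8 := hilb_add_Id I 2
  rw [hd 2] at h8
  simp only [finrank_prod, finrank_fin_fun] at h7
  have : (2 + 3).choose 3 = 10 := by decide
  omega

theorem bertini : S_Bertini := by
  intro F hF
  have hF0 : F ≠ 0 := hF.irred.ne_zero
  let π := (Ideal.Quotient.mkₐ ℂ (Ideal.span {F})).toLinearMap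
  let D : Pol ℂ →ₐ[ℂ] Pol ℂ := aeval fun i => pderiv i F
  have hD : ∀ {n : ℕ} {h : Pol ℂ}, h.IsHomogeneous n → (D h).IsHomogeneous (5 * n) :=
    fun hh => hh.aeval _ fun i => hF.homog.pderiv
  obtain ⟨n, hn⟩ : ∃ n : ℕ, n = 500 := ⟨_, rfl⟩
  have h1 := rank_null (π.comp D.toLinearMap) (Hd n)
  have h2 : (Hd n).map (π.comp D.toLinearMap) ≤ (Hd (5 * n)).map π := by
    rintro _ ⟨h, hh, rfl⟩
    exact ⟨D h, hD hh, rfl⟩
  have h3 : finrank ℂ ((Hd n).map (π.comp D.toLinearMap)) ≤ hilb (Ideal.span {F}) (5 * n) :=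
    Submodule.finrank_mono h2
  have h4 := (hilbF F hF.homog hF0).1 (5 * n) (by omega)
  have h5 := six_choose n
  rw [hd n] at h1
  have h6 : (LinearMap.ker (π.comp D.toLinearMap) ⊓ Hd n : Submodule ℂ (Pol ℂ)) ≠ ⊥ := by
    intro e
    rw [e, finrank_bot] at h1
    subst hn
    omega
  obtain ⟨h, ⟨hk, hh⟩, h0⟩ := Submodule.exists_mem_ne_zero_of_ne_bot h6
  refine ⟨h, h0, fun c hc p hp hpF μ hμ => ?_⟩
  have h7 : D h ∈ Ideal.span {F} := Ideal.Quotient.eq_zero_iff_mem.mp hk
  obtain ⟨r, hr⟩ := Ideal.mem_span_singleton'.mp h7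
  have h8 : eval p (D h) = μ ^ n * eval c h := by
    rw [← eval_scale μ c hh, ← funext hμ]
    exact eval_aeval p _ h
  rw [← hr, map_mul, hpF, mul_zero] at h8
  have h9 : μ = 0 := pow_eq_zero_iff (by omega) |>.mp
    ((mul_eq_zero.mp h8.symm).resolve_right hc)
  obtain ⟨i, hi⟩ := hF.smooth p hp hpF
  exact hi (by rw [hμ i, h9, zero_mul])

end Pool.Agent.P.MP_2b2d3b_ag
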