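import Pool.Agent.P.MP_2b2d3b_ag.PtM
import Pool.Agent.P.MP_2b2d3b_ag.FinA

/-!
Assembly of the packages.
-/

namespace Pool.Agent.P.MP_2b2d3b_ag

open MvPolynomial CategoryTheory AlgebraicGeometry

theorem hilb_one_le {I : Ideal (Pol ℂ)} {l : Pol ℂ} (hl : l.IsHomogeneous 1) (h0 : l ≠ 0)
    (hI : l ∈ I) : hilb I 1 ≤ 3 := by
  have h1 := rank_null (Ideal.Quotient.mkₐ ℂ I).toLinearMap (Hd 1)
  rw [hd 1] at h1
  have h2 : Module.finrank ℂ (LinearMap.ker (Ideal.Quotient.mkₐ ℂ I).toLinearMap ⊓ Hd 1 :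
      Submodule ℂ (Pol ℂ)) ≠ 0 := fun h => by
    have : Module.Finite ℂ (LinearMap.ker (Ideal.Quotient.mkₐ ℂ I).toLinearMap ⊓ Hd 1 :
      Submodule ℂ (Pol ℂ)) := Submodule.finiteDimensional_of_le inf_le_right
    have h3 := Submodule.finrank_eq_zero.mp h
    have h4 : l ∈ (LinearMap.ker (Ideal.Quotient.mkₐ ℂ I).toLinearMap ⊓ Hd 1 :
      Submodule ℂ (Pol ℂ)) := ⟨Ideal.Quotient.eq_zero_iff_mem.mpr hI, hl⟩
    rw [h3] at h4
    exact h0 h4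
  change hilb I 1 + _ = 4 at h1
  omega

theorem exists_lin_of_hilb {I : Ideal (Pol ℂ)} (h : hilb I 1 ≤ 3) :
    ∃ l ∈ I, l.IsHomogeneous 1 ∧ l ≠ 0 := by
  have h1 := rank_null (Ideal.Quotient.mkₐ ℂ I).toLinearMap (Hd 1)
  rw [hd 1] at h1
  change hilb I 1 + _ = 4 at h1
  obtain ⟨l, hl, h0⟩ := Submodule.exists_mem_ne_zero_of_ne_bot
    (p := LinearMap.ker (Ideal.Quotient.mkₐ ℂ I).toLinearMap ⊓ Hd 1) fun h2 => by
      rw [h2, finrank_bot] at h1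
      omega
  exact ⟨l, Ideal.Quotient.eq_zero_iff_mem.mp hl.1, hl.2, h0⟩

theorem linForm_ne {c : Fin 4 → ℂ} (hc : c ≠ 0) : linForm c ≠ 0 := fun h => hc (funext fun i => by
  have := congrArg (eval (Pi.single i 1)) h
  simpa [linForm, Pi.single_apply] using this)

theorem asm (hT : S_Tr) (hPt : S_Pt) (hC : S_CStep) (hL : S_Len) (hE : S_Ext) (hZ : S_Z1)
    (hN : S_NP) (hJ : S_J) (hR : S_NonRed) (hO : S_Obs) (hB : S_PlBase) (hX : S_PlEx)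
    (hV : S_PlCover) (hD : S_PlDef) (hLo : S_PlLow) (hU : S_PlUp) (F : Pol ℂ) (hF : Hyp F)
    (𝓜 : ModuliSpace F) (U : Set (Fin 4 → ℂ))
    (hU0 : ∃ h : Pol ℂ, h ≠ 0 ∧ ∀ c, eval c h ≠ 0 → c ∈ U) :
    irreducibleComponents 𝓜.M = {closure 𝓜.F₁, closure (𝓜.F₂ U)} ∧
    topologicalKrullDim (closure (𝓜.F₂ U)) = 13 ∧
    (∃ η : 𝓜.M, IsGenericPoint η (closure (𝓜.F₂ U)) ∧
      ¬ IsReduced (𝓜.M.presheaf.stalk η)) ∧
    ∀ E : Family F ℂ, 𝓜.pt E ∈ closure (𝓜.F₂ U) → E.Obstructed := by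
  obtain ⟨-, t2, t3, -, -, t6, -⟩ := hT F hF
  obtain ⟨q1, q2, q3⟩ := hPt F hF 𝓜
  obtain ⟨-, -, -, p4, p5, p6, -⟩ := pts nS 𝓜.M 𝓜.π 𝓜.lft
  obtain ⟨x1, x2, x3⟩ := hX F hF
  obtain ⟨Z1, z1, z2, z3, z4, z5, E0, z6, z7⟩ := hZ F hF 𝓜
  have np := hN F hF 𝓜 Z1 z1 z5
  obtain ⟨B, _, _, _, _, D, _, _, _, _, v, r, j, hj, hv, hr, hvr, hind, hfy, hall⟩ := hB F hF
  obtain ⟨EB, hEB⟩ := x1 B v hv
  obtain ⟨ED, hED⟩ := x1 D (r.pt (bc F D)) (hr.eqs (hF.hom.map _))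
  have hcl : closure (Set.range (𝓜.cl D ED)) = closure (Set.range (𝓜.cl B EB)) := by
    rw [𝓜.natural B D j EB ED (x2 B D j _ _ v hEB (hvr ▸ hED))]
    exact p6 B D j _ hj
  set Z2 := closure (Set.range (𝓜.cl D ED)) with hZ2
  have hind3 : AlgebraicIndependent ℂ (r.g' 3) :=
    hind.comp (fun i : Fin 4 => Sum.inl ((3 : Fin 4), i)) fun a b h => by simpa using h
  have planar : ∀ (E : Family F ℂ) s, IsFun E.toBundle 1 s → s ≠ 0 → hilb (satI s) 1 ≤ 3 →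
      𝓜.pt E ∈ Z2 := fun E s h1 h2 h3 => by
    obtain ⟨w, N, hN, hI⟩ := hV F hF E.toBundle s (t2 E) h1 h2 h3
    obtain ⟨N', rfl⟩ := t3 N ((t6 _ _ hI).1 (t2 E))
    obtain ⟨ω, s', t1, t2', G, hd⟩ := id hN
    obtain ⟨t, rfl⟩ := hall w hd.eqs
    rw [(q2 E N').mpr hI, q1 B EB t N' (x2 B ℂ t _ _ v hEB hN), hcl]
    exact subset_closure ⟨_, rfl⟩
  have fibre : ∀ t : D →ₐ[ℂ] ℂ, ∃ E : Family F ℂ, 𝓜.pt E = 𝓜.cl D ED (kp t) ∧
      PlM E.toBundle ((r.map (t : D →+* ℂ)).pt (bc F ℂ)) ∧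
      (r.map (t : D →+* ℂ)).Valid (bc F ℂ) := fun t => by
    have h1 : (r.map (t : D →+* ℂ)).Valid (bc F ℂ) := map_bc (F := F) t ▸ hr.map (t : D →+* ℂ)
    obtain ⟨E, hE⟩ := x1 ℂ _ (h1.eqs (hF.hom.map _))
    refine ⟨E, q1 D ED t E (x2 D ℂ t _ _ _ hED ?_), hE, h1⟩
    rwa [← RD.map_pt, map_bc]
  have dense : ∀ (δ : D) (T : Set 𝓜.M), δ ≠ 0 →
      (∀ t : D →ₐ[ℂ] ℂ, t δ ≠ 0 → 𝓜.cl D ED (kp t) ∈ T) → Z2 ⊆ closure T := fun δ T h0 hT =>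
    closure_minimal ((p4 D (𝓜.cl D ED) δ fun x hx => (mul_eq_zero.mp hx).resolve_left h0).trans
      (closure_mono (by rintro _ ⟨t, ht, rfl⟩; exact hT t ht))) isClosed_closure
  have e2 : closure (𝓜.F₂ U) = Z2 := by
    refine Set.Subset.antisymm (closure_minimal ?_ isClosed_closure) ?_
    · rintro _ ⟨E, I, c, h1, -, h2, h3, rfl⟩
      obtain ⟨s, k1, k2, rfl⟩ := (hE F hF E.toBundle).2 I h1
      exact planar E s k1 k2 (hilb_one_le (linForm_hom c) (linForm_ne h2) h3)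
    · obtain ⟨h, h0, hh⟩ := hU0
      refine dense (aeval (r.g' 3) h) _ (fun e => h0 (hind3.eq_zero_of_aeval_eq_zero h e))
        fun t ht => ?_
      obtain ⟨E, k1, ⟨ω, s, t1, t2', G, hd⟩, k3⟩ := fibre t
      obtain ⟨g1, -, g3, g4, -⟩ := x3 _ _ ω s t1 t2' G hd
      obtain ⟨N, k4, k5⟩ := (hE F hF E.toBundle).1 s g1 hd.ser.fn g3
      obtain ⟨N', rfl⟩ := t3 N ((t6 _ _ k4.iso).1 g1)
      refine ⟨N', satI s, fun i => t (r.g' 3 i), k5, hh _ ?_, fun e => ?_, g4, ?_⟩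
      · rwa [← coe_aeval_eq_eval, RingHom.coe_coe, ← comp_aeval]
      · refine linForm_ne_zero k3.e1 3 ?_
        have : (r.map (t : D →+* ℂ)).g' 3 = 0 := e
        rw [this]; simp [linForm]
      · rw [← k1]; exact ((q2 _ _).mpr k4.iso).symm
  have e1 : closure 𝓜.F₁ = Z1 := by
    refine Set.Subset.antisymm (closure_minimal ?_ z1) z4
    rintro _ ⟨E, I, g, h1, h2, h3, h4, h5, rfl⟩
    obtain ⟨s, k1, k2, rfl⟩ := (hE F hF E.toBundle).2 I h1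
    refine np E s k1 k2 ?_
    by_contra h6
    obtain ⟨l, l1, l2, l3⟩ := exists_lin_of_hilb (I := satI s) (by omega)
    have h7 := tcPlane g _ l h2 (by
      rw [tcI, Ideal.span_le]
      rintro _ (rfl | rfl | rfl)
      exacts [h3, h4, h5]) l2 l3 l1
    have h8 := (hL F hF E.toBundle s (t2 E) k1 k2).2.2.1
    omega
  have dimeq : topologicalKrullDim Z2 = 13 :=
    le_antisymm (hU F hF 𝓜 D r ED hr hind3 hED) (hLo F hF 𝓜 D r ED hr hind hfy hED)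
  have irr : IsIrreducible Z2 := p5 D _
  have hcomp : irreducibleComponents 𝓜.M = {Z1, Z2} := by
    refine comp _ Z1 Z2 z1 isClosed_closure z2 irr (q3 _ (z1.union isClosed_closure) fun E => ?_)
      (fun h => ?_) fun h => ?_
    · obtain ⟨s, k1, k2⟩ := hC F hF E.toBundle (t2 E)
      by_cases h : hilb (satI s) 1 ≤ 3
      · exact Or.inr (planar E s k1 k2 h)
      · exact Or.inl (np E s k1 k2 (by omega))
    · refine hJ F hF 𝓜 E0 z6 (dense 1 _ one_ne_zero (fun t _ => ?_) (h z7))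
      obtain ⟨E, k1, ⟨ω, s, t1, t2', G, hd⟩, -⟩ := fibre t
      exact ⟨E, (x3 _ _ ω s t1 t2' G hd).2.1, k1⟩
    · have h1 : topologicalKrullDim Z2 ≤ topologicalKrullDim Z1 :=
        (Topology.IsEmbedding.inclusion h).isInducing.topologicalKrullDim_le
      rw [dimeq] at h1
      exact absurd (h1.trans z3) (by decide)
  rw [e1, e2]
  refine ⟨hcomp, dimeq, ?_, fun E _ => ?_⟩
  · obtain ⟨η, hη⟩ := QuasiSober.sober irr isClosed_closure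
    refine ⟨η, hη, hR F hF 𝓜 η ?_ (dense (∏ i, r.fy (bc F D) i) _
      (Finset.prod_ne_zero_iff.mpr fun i _ => hfy i) (fun t ht => ?_) hη.mem)⟩
    · rw [hη.def, hcomp]; simp
    · obtain ⟨E, k1, k2, k3⟩ := fibre t
      obtain ⟨ω, s, t1, t2', G, hd⟩ := id k2
      refine ⟨E, (x3 _ _ ω s t1 t2' G hd).2.1, hD F hF _ _ k3 (fun i => ?_) k2, k1⟩
      rw [map_prod, Finset.prod_ne_zero_iff] at ht
      have := ht i (Finset.mem_univ i)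
      rw [RD.fy, ← map_bc t, RD.map_f, Polynomial.derivative_map]
      exact fun e => this (((Polynomial.map_mapRingHom_evalEval (t : D →+* ℂ) _ _ _).symm).trans e)
  · obtain ⟨s, k1, k2⟩ := hC F hF E.toBundle (t2 E)
    exact hO F hF _ s k1 k2 (hL F hF _ s (t2 E) k1 k2).2.1

end Pool.Agent.P.MP_2b2d3b_ag
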