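import Pool.Agent.P.MP_2b2d3b_ag.Kn

/-!
Assembly of the existence of the moduli space.
-/

namespace Pool.Agent.P.MP_2b2d3b_ag

open MvPolynomial

/-- the charts -/
noncomputable def preAtlas (h1 : S_C1) (h4 : S_C4) (h5 : S_C5) (h6 : S_C6) (h7 : S_C7) (h8 : S_C8)
    {F : Pol ℂ} (hF : Hyp F) : PreAtlas F where
  ι := CD F
  Y D := D.Y
  Cl D _ _ _ E y := D.Cl E y
  pull D _ _ _ _ _ _ _ _ φ E E' y h hp := (h1 F hF D _ _ φ E).1 E' y h hp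
  loc D _ _ _ _ E y h t := by
    obtain ⟨U, E', hp, hc⟩ := h t
    obtain ⟨V, E'', hp', hc'⟩ := hc U.p
    exact ⟨U.trans V, E'', hp.comp hp', hc'⟩
  tr D _ _ _ _ _ _ _ _ φ E E1 E2 y a b c := (h1 F hF D _ _ φ E).2 E1 E2 y a b c
  uniq D _ _ _ _ E y y' := h4 F hF D _ E y y'
  inj D _ _ _ _ E1 E2 y := h5 F hF D _ E1 E2 y
  surj' D _ _ _ _ y t E0 := h6 F hF D _ y t E0
  opn D _ _ _ _ E t E0 y0 := h7 F hF D _ E t E0 y0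
  cov E0 := h8 F hF E0.toBundle ((Kn.hTr F hF).2.1 E0)

theorem exists_moduli (h1 : S_C1) (h4 : S_C4) (h5 : S_C5) (h6 : S_C6) (h7 : S_C7) (h8 : S_C8)
    (g1 : S_GA1) (gb : S_GB) (gc : S_GC2) {F : Pol ℂ} (hF : Hyp F) :
    Nonempty (ModuliSpace F) := by
  obtain ⟨𝒜, hB⟩ := g1 F (Kn.pbk hF) (preAtlas h1 h4 h5 h6 h7 h8 hF)
  obtain ⟨G⟩ := gb F (Kn.pbk hF) 𝒜 hB
  exact gc F (Kn.pbk hF) 𝒜 G

end Pool.Agent.P.MP_2b2d3b_ag
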