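import Pool.Agent.P.MP_2b2d3b_ag.Cub
import Pool.Agent.P.MP_2b2d3b_ag.Dim

/-!
Derivations acting on a point of the parameter space.
-/

namespace Pool.Agent.P.MP_2b2d3b_ag

open Polynomial

theorem PD_pol {R : Type} [CommRing R] {d : R → R} (hd : IsDer d) (c : Fin 11 → R) :
    PD d (pol c) = pol fun i => d (c i) := by
  ext n
  rw [coeff_PD hd]
  by_cases hn : n < 11
  · rw [coeff_pol c ⟨n, hn⟩, coeff_pol (fun i => d (c i)) ⟨n, hn⟩]
  · rw [coeff_pol_ge _ (by omega), coeff_pol_ge _ (by omega), hd.zero]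

theorem pol_eq_zero {R : Type} [CommRing R] {c : Fin 11 → R} (h : pol c = 0) (i : Fin 11) :
    c i = 0 := by rw [← coeff_pol c i, h, coeff_zero]

namespace Pt

variable {k K : Type} [Field k] [Field K] [Algebra k K] {F0 : Pol k} {v : Pt K} {d : K → K}

theorem rho_map_algebraMap (g : Matrix (Fin 4) (Fin 4) K) (P : Pol k) :
    rho g (MvPolynomial.map (algebraMap k K) P) = MvPolynomial.aeval (pt g) P := by
  rw [rho, MvPolynomial.aeval_map_algebraMap]

theorem eval_map_algebraMap' (p : Fin 4 → K) (P : Pol k) :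
    MvPolynomial.eval p (MvPolynomial.map (algebraMap k K) P) = MvPolynomial.aeval p P := by
  rw [MvPolynomial.eval_map, MvPolynomial.aeval_def]

theorem frame (h : v.Eqs (MvPolynomial.map (algebraMap k K) F0)) (hd : IsDer d)
    (hk : ∀ a, d (algebraMap k K a) = 0) (hg : ∀ i j, d (v.g i j) = 0) :
    (∀ i j, d (v.g' i j) = 0) ∧ d v.tau = 0 ∧
      PD (PD d) (v.f (MvPolynomial.map (algebraMap k K) F0)) = 0 := by
  have ht : d v.tau = 0 := by
    have e := congrArg d h.e2
    have e2 : d (MvPolynomial.eval (fun i => v.g i 2) (MvPolynomial.map (algebraMap k K) F0)) = 0 := by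
      rw [eval_map_algebraMap', hd.aeval hk]
      simp [hg]
    rw [hd.mul_right e2, hd.one] at e
    have := h.e2
    linear_combination v.tau * e - d v.tau * this
  refine ⟨?_, ht, ?_⟩
  · have e : v.g * (v.g'.map d) = 0 := by
      ext i j
      have := congrArg d (congrFun (congrFun h.e1 i) j)
      rw [Matrix.mul_apply, hd.sum, Matrix.one_apply] at this
      simp only [hd.mul_left (hg _ _)] at this
      rw [Matrix.mul_apply]
      split_ifs at this
      · simpa [hd.one] using this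
      · simpa [hd.zero] using this
    have e2 : v.g'.map d = 0 := by
      have h' : v.g' * v.g = 1 := mul_eq_one_comm.mp h.e1
      rw [← Matrix.one_mul (v.g'.map d), ← h', Matrix.mul_assoc, e, Matrix.mul_zero]
    intro i j
    exact congrFun (congrFun e2 i) j
  · rw [f, rho_map_algebraMap]
    refine hd.pd.pd.mul_zero' (by rw [PD_C hd.pd, PD_C hd, ht]; simp) ?_
    rw [hd.pd.pd.aeval (A := k) (fun a => by
      change PD (PD d) (C (C (algebraMap k K a))) = 0
      rw [PD_C hd.pd, PD_C hd, hk]; simp)]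
    refine Finset.sum_eq_zero fun i _ => ?_
    simp [pt, hd.pd.pd.add, hd.pd.pd.mul, PD_C hd.pd, PD_C hd, PD_X hd.pd, PD_X hd, hg]

variable {F : Pol K}

theorem eta_root [CharZero K] (h : v.Eqs F) (hF : F.IsHomogeneous 6) (hd : IsDer d)
    (hf : PD (PD d) (v.f F) = 0) {a : K} (ha : v.chi.IsRoot a) (hda : d a = 0) :
    (PD d v.eta).eval a = 0 := by
  have h1 : d (v.eta.eval a) = 0 := by
    refine hd.root ((v.f F).map (evalRingHom a)) ((f_monic hF h.e2).map _).ne_zero ?_ ?_
    · rw [PD_eq_zero hd]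
      intro n
      rw [coeff_map, coe_evalRingHom, hd.eval, (PD_eq_zero hd.pd).mp hf n, hda]
      simp
    · rw [eval_map, ← coe_evalRingHom, eval₂_hom, coe_evalRingHom]
      obtain ⟨q, hq⟩ := h.e3
      rw [hq, eval_mul, ha.eq_zero, zero_mul]
  rw [hd.eval, hda] at h1
  simpa using h1

theorem PD_chi [IsAlgClosed K] (hd : IsDer d) (hr : ∀ a, v.chi.IsRoot a → d a = 0) :
    PD d v.chi = 0 := by
  rw [(IsAlgClosed.splits v.chi).eq_prod_roots_of_monic v.chi_monic]
  refine hd.pd.prod_zero _ fun p hp => ?_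
  obtain ⟨a, ha, rfl⟩ := Multiset.mem_map.mp hp
  rw [hd.pd.sub, PD_X hd, PD_C hd, hr a (isRoot_of_mem_roots ha)]
  simp

theorem chi_dvd_fy (h : v.Eqs F) (hd : IsDer d) (hf : PD (PD d) (v.f F) = 0)
    (hc : PD d v.chi = 0) : v.chi ∣ (derivative (v.f F)).eval v.eta * PD d v.eta := by
  obtain ⟨q, hq⟩ := h.e3
  have := congrArg (PD d) hq
  rw [hd.pd.eval, hf, hd.pd.mul_left hc] at this
  exact ⟨PD d q, by simpa using this⟩

theorem pow_dvd_eta (h : v.Eqs F) (hd : IsDer d) (hf : PD (PD d) (v.f F) = 0)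
    (hc : PD d v.chi = 0) {a : K} {n : ℕ} (hn : (X - C a) ^ n ∣ v.chi)
    (ha : ((derivative (v.f F)).eval v.eta).eval a ≠ 0) : (X - C a) ^ n ∣ PD d v.eta := by
  refine IsCoprime.dvd_of_dvd_mul_left ?_ (hn.trans (chi_dvd_fy h hd hf hc))
  exact ((irreducible_X_sub_C a).coprime_iff_not_dvd.mpr (by rwa [dvd_iff_isRoot])).pow_left

theorem eta_step [DecidableEq K] (hd : IsDer d) (s : Multiset K)
    (hs : ∀ a, (X - C a) ^ s.count a ∣ PD d v.eta)
    (he : ∀ i : Fin 11, s.card ≤ i → d (v.ce i) = 0) : PD d v.eta = 0 := by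
  by_contra hne
  have h1 : (s.map fun a => X - C a).prod ∣ PD d v.eta := by
    rw [Multiset.prod_X_sub_C_dvd_iff_le_roots hne, Multiset.le_iff_count]
    intro a
    rw [count_roots, le_rootMultiplicity_iff hne]
    exact hs a
  have h2 := natDegree_le_of_dvd h1 hne
  rw [natDegree_multiset_prod_X_sub_C_eq_card] at h2
  apply mt leadingCoeff_eq_zero.mp hne
  rw [leadingCoeff, coeff_PD hd, eta]
  by_cases hn : (PD d (pol v.ce)).natDegree < 11
  · rw [coeff_pol _ ⟨_, hn⟩]
    exact he _ h2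
  · rw [coeff_pol_ge _ (by omega), hd.zero]

theorem eps_mem (h : v.Eqs F) (hd : IsDer d) (hf : PD (PD d) (v.f F) = 0)
    (hc : PD d v.chi = 0) (he : PD d v.eta = 0) : (fun i => d (v.cp i)) ∈ v.Usp F := by
  intro p
  have hb : PD (PD d) (v.beta F) = 0 := by
    rw [beta, PD_divByMonic hd.pd (monic_X_sub_C _), hf, zero_divByMonic]
    rw [hd.pd.pd.sub, PD_X hd.pd, PD_C hd.pd, he]
    simp
  have := congrArg d (h.e5 p)
  rw [hd.zero, ← coeff_PD hd, Gc, PD_modByMonic hd v.chi_monic hc,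
    hd.pd.mul_right ((PD_eq_zero hd.pd).mp hb _), eps, PD_pol hd] at this
  exact this

theorem chi_coprime (h : v.Eqs F) : IsCoprime v.chi v.eps := by
  obtain ⟨q, hq⟩ := h.e4
  exact ⟨-q, v.eps', by linear_combination hq⟩

theorem eq_zero_of_chi_dvd {p : K[X]} (hp : v.chi ∣ p) (hd : p.degree < 11) : p = 0 :=
  eq_zero_of_dvd_of_degree_lt hp (by rwa [degree_chi])

theorem killed (h : v.Eqs (MvPolynomial.map (algebraMap k K) F0)) (hd : IsDer d)
    (hk : ∀ a, d (algebraMap k K a) = 0) (hg : ∀ i j, d (v.g i j) = 0)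
    (hc : PD d v.chi = 0) (he : PD d v.eta = 0) (hp : PD d v.eps = 0) (i : Var) :
    d (v.coord i) = 0 := by
  obtain ⟨h1, h2, -⟩ := frame h hd hk hg
  have hq : PD d v.eps' = 0 := by
    obtain ⟨q, hq⟩ := h.e4
    have := congrArg (PD d) hq
    rw [hd.pd.sub, hd.pd.one, sub_zero, hd.pd.mul_left hp, hd.pd.mul_left hc] at this
    refine eq_zero_of_chi_dvd ((chi_coprime h).dvd_of_dvd_mul_left ⟨_, this⟩) ?_
    exact (degree_PD_le hd _).trans_lt (degree_pol _)
  rw [chi, hd.pd.add, hd.pd.pow_zero' (PD_X hd), zero_add, PD_pol hd] at hc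
  rw [eta, PD_pol hd] at he
  rw [eps, PD_pol hd] at hp
  rw [eps', PD_pol hd] at hq
  rcases i with p | p | _ | i | i | i | i
  · exact hg _ _
  · exact h1 _ _
  · exact h2
  · exact pol_eq_zero hc i
  · exact pol_eq_zero he i
  · exact pol_eq_zero hp i
  · exact pol_eq_zero hq i

/-- at most 27 elements control all coordinates -/
def Bad (k : Type) [Field k] [Algebra k K] (v : Pt K) : Prop :=
  ∃ S : Finset K, S.card ≤ 27 ∧ ∀ d : K → K, IsDer d → (∀ a, d (algebraMap k K a) = 0) →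
    (∀ z ∈ S, d z = 0) → ∀ i, d (v.coord i) = 0

/-- common last step: `S` controls the frame, `χ` and `η` -/
theorem bad_of (h : v.Eqs (MvPolynomial.map (algebraMap k K) F0)) (hF : F0.IsHomogeneous 6)
    (S : Finset K)
    (hS : S.card + Module.finrank K (v.Wsp (MvPolynomial.map (algebraMap k K) F0)) + 1 ≤ 27)
    (H : ∀ d : K → K, IsDer d → (∀ a, d (algebraMap k K a) = 0) → (∀ z ∈ S, d z = 0) →
      (∀ i j, d (v.g i j) = 0) ∧ PD d v.chi = 0 ∧ PD d v.eta = 0) : Bad k v := by
  classical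
  obtain ⟨T, hT, hT'⟩ := exists_coords _ _ (finrank_Usp (hF.map _) h.e2)
  refine ⟨S ∪ T.image v.cp, ?_, fun d hd hk hz => ?_⟩
  · have h1 := Finset.card_union_le S (T.image v.cp)
    have h2 : (T.image v.cp).card ≤ T.card := Finset.card_image_le
    omega
  · obtain ⟨hg, hc, he⟩ := H d hd hk fun z hz' => hz z (by simp [hz'])
    refine killed h hd hk hg hc he ?_
    have := hT' _ (eps_mem h hd (frame h hd hk hg).2.2 hc he) fun i hi =>
      hz _ (Finset.mem_union_right _ (Finset.mem_image_of_mem _ hi))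
    rw [eps, PD_pol hd, this]
    simp [pol]

omit [Field K] in
theorem exists_gset (v : Pt K) : ∃ S : Finset K, S.card ≤ 16 ∧ ∀ i j, v.g i j ∈ S := by
  classical
  refine ⟨Finset.univ.image fun p : Fin 4 × Fin 4 => v.g p.1 p.2,
    Finset.card_image_le.trans (by simp), fun i j => ?_⟩
  exact Finset.mem_image.mpr ⟨(i, j), Finset.mem_univ _, rfl⟩

omit [Field K] in
theorem exists_eset (v : Pt K) (n : ℕ) :
    ∃ S : Finset K, S.card ≤ 11 - n ∧ ∀ i : Fin 11, n ≤ i → v.ce i ∈ S := by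
  classical
  have h1 : (Finset.univ.filter fun i : Fin 11 => n ≤ i).card ≤ (Finset.Ico n 11).card :=
    Finset.card_le_card_of_injOn (fun i => (i : ℕ))
      (fun i hi => by simpa using hi) fun _ _ _ _ h => Fin.ext h
  rw [Nat.card_Ico] at h1
  refine ⟨(Finset.univ.filter fun i : Fin 11 => n ≤ i).image v.ce,
    Finset.card_image_le.trans h1, fun i hi => ?_⟩
  exact Finset.mem_image.mpr ⟨i, by simpa using hi, rfl⟩

end Pt

end Pool.Agent.P.MP_2b2d3b_ag
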