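import Pool.Agent.P.MP_2b2d3b_ag.Bad1

/-!
The bad loci where at most one cubic passes through the scheme.
-/

namespace Pool.Agent.P.MP_2b2d3b_ag

open Polynomial

theorem eval_eval {R : Type} [CommRing R] (p : R[X][X]) (q : R[X]) (a : R) :
    (p.eval q).eval a = p.evalEval a (q.eval a) := by
  induction p using Polynomial.induction_on' with
  | add p p' ih ih' => simp [evalEval_add, ih, ih']
  | monomial n c => simp [evalEval, eval_monomial]

theorem exists_C_mem {K : Type} [Field K] {f c : K[X][X]} (hm : f.Monic) (hf : Irreducible f)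
    (hc : ¬ f ∣ c) : ∃ r : K[X], r ≠ 0 ∧ ∃ a b, C r = a * f + b * c := by
  have : IsDomain (AdjoinRoot f) := AdjoinRoot.isDomain_of_prime hf.prime
  have : Module.Finite K[X] (AdjoinRoot f) := hm.finite_adjoinRoot
  have h0 : AdjoinRoot.mk f c ≠ 0 := by rwa [Ne, AdjoinRoot.mk_eq_zero]
  have := Ideal.comap_ne_bot_of_integral_mem (R := K[X]) h0
    (Ideal.mem_span_singleton_self _) (Algebra.IsIntegral.isIntegral _)
  obtain ⟨r, hr, hr0⟩ := Submodule.exists_mem_ne_zero_of_ne_bot this
  obtain ⟨b, hb⟩ := Ideal.mem_span_singleton'.mp (Ideal.mem_comap.mp hr)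
  obtain ⟨b, rfl⟩ := AdjoinRoot.mk_surjective b
  have e : AdjoinRoot.mk f (C r - b * c) = 0 := by
    rw [map_sub, map_mul, hb, AdjoinRoot.mk_C]
    exact sub_self _
  obtain ⟨a, ha⟩ := AdjoinRoot.mk_eq_zero.mp e
  exact ⟨r, hr0, a, b, by linear_combination ha⟩

namespace Pt

variable {k K : Type} [Field k] [Field K] [Algebra k K] {F0 : Pol k} {v : Pt K} {d : K → K}

/-- the point of the scheme over the root `a` is a singular point of the plane section -/
def Sing (F : Pol K) (v : Pt K) (a : K) : Prop :=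
  v.chi.IsRoot a ∧ (derivative (v.f F)).evalEval a (v.eta.eval a) = 0 ∧
    (PD (fun p : K[X] => derivative p) (v.f F)).evalEval a (v.eta.eval a) = 0

theorem fy_ne_zero {F : Pol K} (h : v.Eqs F) {a : K} (ha : (X - C a) ^ 2 ∣ v.chi)
    (hs : ¬ v.Sing F a) : ((derivative (v.f F)).eval v.eta).eval a ≠ 0 := by
  intro h0
  apply hs
  have hr : v.chi.IsRoot a := dvd_iff_isRoot.mp ((dvd_pow_self _ two_ne_zero).trans ha)
  refine ⟨hr, by rwa [← eval_eval], ?_⟩
  obtain ⟨q, hq⟩ := ha.trans h.e3
  have e := isDer_derivative.eval (v.f F) v.eta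
  have e2 := congrArg (eval a) e
  rw [hq, eval_add, eval_mul, h0, zero_mul, add_zero, eval_eval] at e2
  rw [← e2]
  simp [derivative_mul, derivative_pow]

theorem card_toFinset_le [DecidableEq K] (v : Pt K) : v.chi.roots.toFinset.card ≤ 11 :=
  (Multiset.toFinset_card_le _).trans ((card_roots' _).trans v.natDegree_chi.le)

theorem simple_dvd [CharZero K] [DecidableEq K] {F : Pol K} (h : v.Eqs F) (hF : F.IsHomogeneous 6)
    (hd : IsDer d) (hf : PD (PD d) (v.f F) = 0) (hr : ∀ a, v.chi.IsRoot a → d a = 0) (a : K) :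
    (X - C a) ^ v.chi.roots.toFinset.val.count a ∣ PD d v.eta := by
  by_cases ha : a ∈ v.chi.roots.toFinset
  · rw [Multiset.count_eq_one_of_mem (Finset.nodup _) ha, pow_one, dvd_iff_isRoot]
    have ha' := isRoot_of_mem_roots (Multiset.mem_toFinset.mp ha)
    exact eta_root h hF hd hf ha' (hr a ha')
  · rw [Multiset.count_eq_zero_of_notMem ha, pow_zero]
    exact one_dvd _

theorem bad_sing [IsAlgClosed K] [CharZero K] (h : v.Eqs (MvPolynomial.map (algebraMap k K) F0))
    (hF : F0.IsHomogeneous 6)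
    (hsm : ∀ p : Fin 4 → K, p ≠ 0 → MvPolynomial.aeval p F0 = 0 →
      ∃ i, MvPolynomial.aeval p (MvPolynomial.pderiv i F0) ≠ 0)
    (hW : Module.finrank K (v.Wsp (MvPolynomial.map (algebraMap k K) F0)) ≤ 1) {a : K}
    (ha : v.Sing (MvPolynomial.map (algebraMap k K) F0) a) : Bad k v := by
  classical
  obtain ⟨hr, hy, hx⟩ := ha
  set y := v.eta.eval a with hy0
  set p : Fin 4 → K := fun i => v.g i 0 + v.g i 1 * a + v.g i 2 * y with hp
  have htau : v.tau ≠ 0 := left_ne_zero_of_mul_eq_one h.e2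
  have hev : ∀ P : Pol k, (rho v.g (MvPolynomial.map (algebraMap k K) P)).evalEval a y =
      MvPolynomial.aeval p P := fun P => by rw [evalEval_rho, eval_map_algebraMap']
  have h0 : MvPolynomial.aeval p F0 = 0 := by
    obtain ⟨q, hq⟩ := h.e3
    have := congrArg (eval a) hq
    rw [eval_eval, eval_mul, hr.eq_zero, zero_mul, f, evalEval_mul, hev] at this
    simpa [evalEval_C, htau] using this
  have h2 : ∑ i, MvPolynomial.aeval p (MvPolynomial.pderiv i F0) * v.g i 2 = 0 := by
    rw [f, derivative_C_mul, derivative_rho, evalEval_mul, evalEval_finsetSum] at hy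
    simp only [evalEval_mul, MvPolynomial.pderiv_map, hev, evalEval_C, eval_C] at hy
    exact (mul_eq_zero.mp hy).resolve_left htau
  have h1 : ∑ i, MvPolynomial.aeval p (MvPolynomial.pderiv i F0) * v.g i 1 = 0 := by
    rw [f, isDer_derivative.pd.mul_left (by simp [PD_C isDer_derivative]), PD_derivative_rho,
      evalEval_mul, evalEval_finsetSum] at hx
    simp only [evalEval_mul, MvPolynomial.pderiv_map, hev, evalEval_C, eval_C] at hx
    exact (mul_eq_zero.mp hx).resolve_left htau
  have hp0 : p ≠ 0 := by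
    intro hp0
    have := evalEval_rho v.g a y (linForm (v.g' 0))
    rw [rho_U0 h.e1, evalEval_one, ← hp, hp0] at this
    simp [linForm] at this
  obtain ⟨i0, hi0⟩ := hsm p hp0 h0
  obtain ⟨E, hE, hE'⟩ := v.exists_eset v.chi.roots.toFinset.card
  have hmem : a ∈ v.chi.roots.toFinset :=
    Multiset.mem_toFinset.mpr ((mem_roots v.chi_monic.ne_zero).mpr hr)
  let T : Finset (Fin 4) := Finset.univ.erase i0
  have hT : T.card = 3 := by simp [T]
  let S : Finset K := T.image p ∪ (T.image (fun i => v.g i 1) ∪ (T.image (fun i => v.g i 2) ∪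
    (Finset.univ.image (fun i => v.g i 3) ∪ ({y} ∪ (v.chi.roots.toFinset ∪ E)))))
  refine bad_of h hF S ?_ fun d hd hk hz => ?_
  · have c1 : (T.image p).card ≤ 3 := Finset.card_image_le.trans hT.le
    have c2 : (T.image (fun i => v.g i 1)).card ≤ 3 := Finset.card_image_le.trans hT.le
    have c3 : (T.image (fun i => v.g i 2)).card ≤ 3 := Finset.card_image_le.trans hT.le
    have c4 : (Finset.univ.image (fun i => v.g i 3)).card ≤ 4 :=
      Finset.card_image_le.trans (by simp)
    have c5 := v.card_toFinset_le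
    have c6 : S.card ≤ _ := (Finset.card_union_le _ _).trans (add_le_add c1
      ((Finset.card_union_le _ _).trans (add_le_add c2
      ((Finset.card_union_le _ _).trans (add_le_add c3
      ((Finset.card_union_le _ _).trans (add_le_add c4
      ((Finset.card_union_le _ _).trans (add_le_add (Finset.card_singleton _).le
      (Finset.card_union_le _ _))))))))))
    omega
  · have key : ∀ (u : Fin 4 → K), ∑ i, MvPolynomial.aeval p (MvPolynomial.pderiv i F0) * u i = 0 →
        (∀ i ∈ T, u i = 0) → ∀ i, u i = 0 := by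
      intro u hu hT' i
      by_cases hi : i = i0
      · rw [Finset.sum_eq_single i0 (fun j _ hj => by rw [hT' j (by simp [T, hj]), mul_zero])
          (by simp)] at hu
        rw [hi]
        exact (mul_eq_zero.mp hu).resolve_left hi0
      · exact hT' i (by simp [T, hi])
    have hdp : ∀ i, d (p i) = 0 := key _ (by rw [← hd.aeval hk, h0, hd.zero])
      fun i hi => hz _ (by simp only [S, Finset.mem_union]; exact Or.inl (Finset.mem_image_of_mem _ hi))
    have hdn : ∀ i, d (MvPolynomial.aeval p (MvPolynomial.pderiv i F0)) = 0 := fun i => by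
      rw [hd.aeval hk]; simp [hdp]
    have hd1 : ∀ i, d (v.g i 1) = 0 := key _ (by
      have := congrArg d h1
      rw [hd.sum, hd.zero] at this
      simpa only [hd.mul_left (hdn _)] using this)
      fun i hi => hz _ (by
        simp only [S, Finset.mem_union]
        exact Or.inr (Or.inl (Finset.mem_image_of_mem (fun i => v.g i 1) hi)))
    have hd2 : ∀ i, d (v.g i 2) = 0 := key _ (by
      have := congrArg d h2
      rw [hd.sum, hd.zero] at this
      simpa only [hd.mul_left (hdn _)] using this)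
      fun i hi => hz _ (by
        simp only [S, Finset.mem_union]
        exact Or.inr (Or.inr (Or.inl (Finset.mem_image_of_mem (fun i => v.g i 2) hi))))
    have hd3 : ∀ i, d (v.g i 3) = 0 := fun i => hz _ (by simp [S])
    have hroots : ∀ b, v.chi.IsRoot b → d b = 0 := fun b hb => hz _ (by
      simp [S, v.chi_monic.ne_zero, hb.eq_zero])
    have hdy : d y = 0 := hz _ (by simp [S])
    have hd0 : ∀ i, d (v.g i 0) = 0 := fun i => by
      have := hdp i
      rwa [hp, hd.add, hd.add, hd.mul_zero' (hd1 i) (hroots a hr), hd.mul_zero' (hd2 i) hdy,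
        add_zero, add_zero] at this
    have hg : ∀ i j, d (v.g i j) = 0 := fun i j => by
      fin_cases j
      exacts [hd0 i, hd1 i, hd2 i, hd3 i]
    have hf := (frame h hd hk hg).2.2
    exact ⟨hg, PD_chi hd hroots, eta_step hd _ (simple_dvd h (hF.map _) hd hf hroots)
      fun i hi => hz _ (by simp [S, hE' i hi])⟩

theorem bad_mult [IsAlgClosed K] [CharZero K] (h : v.Eqs (MvPolynomial.map (algebraMap k K) F0))
    (hF : F0.IsHomogeneous 6)
    (hW : Module.finrank K (v.Wsp (MvPolynomial.map (algebraMap k K) F0)) = 0)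
    (hs : ∀ a, ¬ v.Sing (MvPolynomial.map (algebraMap k K) F0) a)
    (hn : ¬ v.chi.roots.Nodup) : Bad k v := by
  classical
  rw [Multiset.nodup_iff_count_le_one] at hn
  push Not at hn
  obtain ⟨a, ha⟩ := hn
  have ha2 : (X - C a) ^ 2 ∣ v.chi := by
    rwa [count_roots, Nat.lt_iff_add_one_le, le_rootMultiplicity_iff v.chi_monic.ne_zero] at ha
  have hmem : a ∈ v.chi.roots.toFinset :=
    Multiset.mem_toFinset.mpr (Multiset.count_pos.mp (by omega))
  have hcard : v.chi.roots.toFinset.card + 1 ≤ 11 := by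
    have h1 : v.chi.roots.toFinset.card ≠ v.chi.roots.card := fun h' => by
      have := Multiset.nodup_iff_count_le_one.mp (Multiset.toFinset_card_eq_card_iff_nodup.mp h') a
      omega
    have h2 := Multiset.toFinset_card_le v.chi.roots
    have h3 := (card_roots' v.chi).trans v.natDegree_chi.le
    omega
  obtain ⟨E, hE, hE'⟩ := v.exists_eset (v.chi.roots.toFinset.card + 1)
  obtain ⟨G, hG, hG'⟩ := v.exists_gset
  refine bad_of h hF (G ∪ (v.chi.roots.toFinset ∪ E)) ?_ fun d hd hk hz => ?_
  · have := (Finset.card_union_le G _).trans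
      (add_le_add hG (Finset.card_union_le v.chi.roots.toFinset E))
    omega
  · have hg : ∀ i j, d (v.g i j) = 0 := fun i j => hz _ (by simp [hG'])
    have hroots : ∀ b, v.chi.IsRoot b → d b = 0 := fun b hb => hz _ (by
      simp [v.chi_monic.ne_zero, hb.eq_zero])
    have hf := (frame h hd hk hg).2.2
    have hc := PD_chi hd hroots
    refine ⟨hg, hc, eta_step hd (a ::ₘ v.chi.roots.toFinset.val) (fun b => ?_)
      fun i hi => hz _ (by simp [hE' i (by rwa [Multiset.card_cons] at hi)])⟩
    by_cases hb : b = a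
    · subst hb
      rw [Multiset.count_cons_self, Multiset.count_eq_one_of_mem (Finset.nodup _) hmem]
      exact pow_dvd_eta h hd hf hc ha2 (fy_ne_zero h ha2 (hs b))
    · rw [Multiset.count_cons_of_ne hb]
      exact simple_dvd h (hF.map _) hd hf hroots b

theorem PD_cub {R : Type} [CommRing R] {d : R → R} (hd : IsDer d) {f : R[X][X]}
    (hf : PD (PD d) f = 0) (p : Idx) : PD (PD d) (cub f p) = 0 := by
  refine hd.pd.pd.mul_zero' ?_ ?_
  · rw [PD_C hd.pd, hd.pd.pow_zero' (PD_X hd), map_zero]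
  · rw [PD_eq_zero hd.pd]
    intro n
    rw [coeff_tail]
    split_ifs
    · exact (PD_eq_zero hd.pd).mp hf _
    · exact hd.pd.zero

theorem not_f_dvd {F : Pol K} (h : v.Eqs F) (hF : F.IsHomogeneous 6) {p : K[X][X]} (hp : p ≠ 0)
    (hd : p.natDegree < 6) : ¬ v.f F ∣ p := fun hdv =>
  hp (eq_zero_of_dvd_of_natDegree_lt (f_monic hF h.e2) hdv (by rwa [natDegree_f hF h.e2]))

theorem bad_cubic [IsAlgClosed K] [CharZero K] (h : v.Eqs (MvPolynomial.map (algebraMap k K) F0))
    (hF : F0.IsHomogeneous 6) (hirr : Irreducible (v.f (MvPolynomial.map (algebraMap k K) F0)))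
    (hW : Module.finrank K (v.Wsp (MvPolynomial.map (algebraMap k K) F0)) = 1)
    (hs : ∀ a, ¬ v.Sing (MvPolynomial.map (algebraMap k K) F0) a) : Bad k v := by
  classical
  set F := MvPolynomial.map (algebraMap k K) F0
  have hF' : F.IsHomogeneous 6 := hF.map _
  obtain ⟨c0, hc0, hc0'⟩ := Submodule.exists_mem_ne_zero_of_ne_bot
    (p := v.Wsp F) (fun h' => by rw [h', finrank_bot] at hW; omega)
  obtain ⟨p0, hp0⟩ := Function.ne_iff.mp hc0'
  set c := (c0 p0)⁻¹ • c0
  have hc : v.chi ∣ (cubic (v.f F) c).eval v.eta := (v.Wsp F).smul_mem _ hc0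
  have hc1 : c p0 = 1 := by simp [c, inv_mul_cancel₀ hp0]
  have hC0 : cubic (v.f F) c ≠ 0 := fun h' => by
    rw [cubic_eq_zero (coeff_f hF' h.e2) h'] at hc1
    simp at hc1
  obtain ⟨r, hr0, hr⟩ := exists_C_mem (f_monic hF' h.e2) hirr
    (not_f_dvd h hF' hC0 ((TD_cubic (TD_f hF') c).natDegree_le.trans_lt (by omega)))
  let J : Ideal K[X] := (Ideal.span {v.f F, cubic (v.f F) c}).comap C
  have hJ : ∀ s, s ∈ J ↔ ∃ a b, C s = a * v.f F + b * cubic (v.f F) c := fun s => by
    simp only [J, Ideal.mem_comap, Ideal.mem_span_pair]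
    exact ⟨fun ⟨a, b, e⟩ => ⟨a, b, e.symm⟩, fun ⟨a, b, e⟩ => ⟨a, b, e.symm⟩⟩
  obtain ⟨r0, hr0m, hr0J, hr0'⟩ : ∃ r0 : K[X], r0.Monic ∧ r0 ∈ J ∧ ∀ s ∈ J, r0 ∣ s := by
    obtain ⟨r1, hr1⟩ := (IsPrincipalIdealRing.principal J).principal
    have hr1' : ∀ s, s ∈ J ↔ r1 ∣ s := fun s => by
      rw [hr1]; exact Ideal.mem_span_singleton
    have : r1 ≠ 0 := fun h' => hr0 (by simpa [h'] using (hr1' r).mp ((hJ r).mpr hr))
    exact ⟨normalize r1, monic_normalize this, (hr1' _).mpr (by simp),
      fun s hs => by simpa using (hr1' s).mp hs⟩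
  obtain ⟨a, b, hab⟩ := (hJ r0).mp hr0J
  have hchi : v.chi ∣ r0 := by
    have := congrArg (eval v.eta) hab
    rw [eval_C, eval_add, eval_mul, eval_mul] at this
    rw [this]
    exact dvd_add (h.e3.mul_left _) (hc.mul_left _)
  obtain ⟨G, hG, hG'⟩ := v.exists_gset
  refine bad_of h hF (G ∪ (Finset.univ.erase p0).image c) ?_ fun d hd hk hz => ?_
  · have h1 : ((Finset.univ.erase p0).image c).card ≤ 9 :=
      Finset.card_image_le.trans (by simp [card_Idx])
    have := (Finset.card_union_le G _).trans (add_le_add hG h1)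
    rw [hW]
    omega
  · have hg : ∀ i j, d (v.g i j) = 0 := fun i j => hz _ (by simp [hG'])
    have hf := (frame h hd hk hg).2.2
    have hdc : ∀ p, d (c p) = 0 := fun p => by
      by_cases hp : p = p0
      · rw [hp, hc1, hd.one]
      · exact hz _ (Finset.mem_union_right _ (Finset.mem_image_of_mem _ (by simp [hp])))
    have hdC : PD (PD d) (cubic (v.f F) c) = 0 := by
      rw [cubic, hd.pd.pd.sum]
      exact Finset.sum_eq_zero fun p _ => hd.pd.pd.mul_zero'
        (by rw [PD_C hd.pd, PD_C hd, hdc]; simp) (PD_cub hd hf p)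
    have hdr : PD d r0 = 0 := by
      have := congrArg (PD (PD d)) hab
      rw [PD_C hd.pd, hd.pd.pd.add, hd.pd.pd.mul_right hf, hd.pd.pd.mul_right hdC] at this
      exact eq_zero_of_dvd_of_degree_lt (hr0' _ ((hJ _).mpr ⟨_, _, this⟩)) (degree_PD_lt hd hr0m)
    have hroots : ∀ z, v.chi.IsRoot z → d z = 0 := fun z hz' =>
      hd.root r0 hr0m.ne_zero hdr (hz'.dvd hchi)
    have hdchi := PD_chi hd hroots
    refine ⟨hg, hdchi, eta_step hd v.chi.roots (fun z => ?_) fun i hi => ?_⟩
    · have hz' : (X - C z) ^ v.chi.roots.count z ∣ v.chi := by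
        rw [count_roots]; exact pow_rootMultiplicity_dvd _ _
      rcases Nat.lt_or_ge (v.chi.roots.count z) 2 with hlt | hge
      · interval_cases hcount : v.chi.roots.count z
        · simp
        · rw [pow_one, dvd_iff_isRoot] at hz' ⊢
          exact eta_root h hF' hd hf hz' (hroots z hz')
      · exact pow_dvd_eta h hd hf hdchi hz'
          (fy_ne_zero h ((pow_dvd_pow _ hge).trans hz') (hs z))
    · rw [← (IsAlgClosed.splits v.chi).natDegree_eq_card_roots, natDegree_chi] at hi
      have := i.2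
      omega

end Pt

end Pool.Agent.P.MP_2b2d3b_ag
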