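import Pool.Agent.P.MP_2b2d3b_ag.St

/-!
Small lemmas on the auxiliary definitions.
-/

namespace Pool.Agent.P.MP_2b2d3b_ag

open MvPolynomial

variable {B : Type} [CommRing B] {B' : Type} [CommRing B']

theorem form_hom {d : ℕ} (c : Mon d → B) : (form c).IsHomogeneous d :=
  IsHomogeneous.sum _ _ _ fun m _ => isHomogeneous_monomial _ m.2

theorem coeff_form {d : ℕ} (c : Mon d → B) (m : Mon d) : coeff m.1 (form c) = c m := by
  classical
  rw [form, coeff_sum, Finset.sum_eq_single m]
  · simp
  · intro b _ hb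
    rw [coeff_monomial, if_neg fun h => hb (Subtype.ext h)]
  · simp

theorem form_coeff {d : ℕ} {a : Pol B} (ha : a.IsHomogeneous d) :
    form (fun m : Mon d => coeff m.1 a) = a := by
  ext m
  by_cases h : m.degree = d
  · exact coeff_form (fun m : Mon d => coeff m.1 a) ⟨m, h⟩
  · rw [(form_hom _).coeff_eq_zero h, ha.coeff_eq_zero h]

theorem map_form (φ : B →+* B') {d : ℕ} (c : Mon d → B) :
    map φ (form c) = form fun m => φ (c m) := by
  simp [form, map_monomial]

theorem form_add {d : ℕ} (c c' : Mon d → B) : form (c + c') = form c + form c' := by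
  simp [form, Finset.sum_add_distrib]

theorem form_smul {d : ℕ} (r : B) (c : Mon d → B) : form (r • c) = C r * form c := by
  simp [form, Finset.mul_sum, C_mul_monomial]

theorem form_zero {d : ℕ} : form (0 : Mon d → B) = 0 := by simp [form]

theorem form_inj {d : ℕ} {c c' : Mon d → B} (h : form c = form c') : c = c' := by
  funext m
  rw [← coeff_form c m, h, coeff_form]

/-- `form` as a linear map -/
noncomputable def formL (B : Type) [CommRing B] (d : ℕ) : (Mon d → B) →ₗ[B] Pol B where
  toFun := form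
  map_add' := form_add
  map_smul' r c := by rw [form_smul, RingHom.id_apply, smul_eq_C_mul]

theorem natCast_hom (c : ℕ) : (c : Pol B).IsHomogeneous 0 := by
  rw [← map_natCast (C : B →+* Pol B)]
  exact isHomogeneous_C _ _

theorem wc_hom (c : ℕ) : (wc B c).IsHomogeneous 1 := by
  unfold wc
  refine (((isHomogeneous_X _ _).add ?_).add ?_).add ?_
  · simpa using (natCast_hom c).mul (isHomogeneous_X B 2)
  · simpa using ((natCast_hom (B := B) c).pow 2).mul (isHomogeneous_X B 1)
  · simpa using ((natCast_hom (B := B) c).pow 3).mul (isHomogeneous_X B 0)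

theorem map_wc (φ : B →+* B') (c : ℕ) : map φ (wc B c) = wc B' c := by
  simp [wc]

theorem eval_wc (p : Fin 4 → B) (c : ℕ) :
    eval p (wc B c) = p 3 + c * p 2 + (c : B) ^ 2 * p 1 + (c : B) ^ 3 * p 0 := by
  simp [wc]

theorem hm_hom {u w : Pol B} (hu : u.IsHomogeneous 1) (hw : w.IsHomogeneous 1)
    (p : Polynomial B) (n : ℕ) : (hm u w p n).IsHomogeneous n := by
  have := (Polynomial.isHomogeneous_homogenize p (n := n)).aeval ![u, w] (n := 1) (by
    intro i
    fin_cases i
    · exact hu
    · exact hw)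
  simpa [hm] using this

theorem hm_add (u w : Pol B) (p q : Polynomial B) (n : ℕ) :
    hm u w (p + q) n = hm u w p n + hm u w q n := by
  simp [hm, Polynomial.homogenize_add]

theorem hm_zero (u w : Pol B) (n : ℕ) : hm u w 0 n = 0 := by simp [hm]

theorem hm_mul (u w : Pol B) {p q : Polynomial B} {m n : ℕ} (hp : p.natDegree ≤ m)
    (hq : q.natDegree ≤ n) : hm u w (p * q) (m + n) = hm u w p m * hm u w q n := by
  rw [hm, Polynomial.homogenize_mul p q hp hq, map_mul]
  rfl

theorem hm_eq_sum (u w : Pol B) (p : Polynomial B) (n : ℕ) :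
    hm u w p n = ∑ k ∈ Finset.range (n + 1), C (p.coeff k) * u ^ k * w ^ (n - k) := by
  rw [hm, Polynomial.homogenize, map_sum, Finset.Nat.sum_antidiagonal_eq_sum_range_succ_mk]
  refine Finset.sum_congr rfl fun k _ => ?_
  rw [aeval_monomial, Finsupp.prod_fintype _ _ (by simp)]
  simp [Fin.prod_univ_two, mul_assoc]

theorem map_hm (φ : B →+* B') (u w : Pol B) (p : Polynomial B) (n : ℕ) :
    map φ (hm u w p n) = hm (map φ u) (map φ w) (p.map φ) n := by
  simp [hm_eq_sum]

theorem hm_C (u w : Pol B) (r : B) (n : ℕ) : hm u w (Polynomial.C r) n = C r * w ^ n := by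
  rw [hm_eq_sum, Finset.sum_eq_single 0]
  · simp
  · intro k _ hk
    simp [Polynomial.coeff_C, hk]
  · simp

theorem hm_one (u w : Pol B) (n : ℕ) : hm u w 1 n = w ^ n := by
  simpa using hm_C u w 1 n

theorem hm_add_deg (u w : Pol B) {p : Polynomial B} {n : ℕ} (hp : p.natDegree ≤ n) (k : ℕ) :
    hm u w p (n + k) = hm u w p n * w ^ k := by
  have := hm_mul u w (q := 1) (n := k) hp (by simp)
  rwa [mul_one, hm_one] at this

theorem hm_X (u w : Pol B) : hm u w Polynomial.X 1 = u := by
  simp [hm_eq_sum, Finset.sum_range_succ, Polynomial.coeff_X]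

theorem hm_X_pow (u w : Pol B) (n : ℕ) : hm u w (Polynomial.X ^ n) n = u ^ n := by
  induction n with
  | zero => simpa using hm_one u w 0
  | succ n ih =>
    rw [pow_succ, hm_mul u w (Polynomial.natDegree_X_pow_le n) Polynomial.natDegree_X_le, ih,
      hm_X, pow_succ]

/-- dehomogenisation of a binary form -/
theorem ringHom_hm {A : Type} [CommRing A] (ev : Pol B →+* A) {u w : Pol B} (hw : ev w = 1)
    {p : Polynomial B} {n : ℕ} (hp : p.natDegree ≤ n) :
    ev (hm u w p n) = p.eval₂ (ev.comp C) (ev u) := by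
  rw [hm_eq_sum, map_sum, Polynomial.eval₂_eq_sum_range' _ (Nat.lt_succ_of_le hp)]
  simp [hw]

theorem aeval_hm {A : Type} [CommRing A] [Algebra B A] (ev : Pol B →ₐ[B] A) {u w : Pol B}
    (hw : ev w = 1) {p : Polynomial B} {n : ℕ} (hp : p.natDegree ≤ n) :
    ev (hm u w p n) = Polynomial.aeval (ev u) p := by
  have := ringHom_hm (ev : Pol B →+* A) (u := u) hw hp
  rw [RingHom.coe_coe] at this
  rw [this, Polynomial.aeval_def]
  congr 1
  ext r
  simp

/-- a monic binary form is a power of `u` modulo `w` -/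
theorem hm_sub_pow (u w : Pol B) {p : Polynomial B} {n : ℕ} (hp : p.Monic)
    (hn : p.natDegree = n) : hm u w p n - u ^ n ∈ Ideal.span {w} := by
  rw [hm_eq_sum, Finset.sum_range_succ]
  have : p.coeff n = 1 := by rw [← hn]; exact hp.coeff_natDegree
  rw [this, Nat.sub_self, pow_zero, mul_one, map_one, one_mul, add_sub_cancel_right]
  refine Ideal.sum_mem _ fun k hk => Ideal.mul_mem_left _ _ ?_
  exact Ideal.pow_mem_of_mem _ (Ideal.mem_span_singleton_self _) _
    (by have := Finset.mem_range.1 hk; omega)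

theorem bcL_monomial (φ : B →+* B') (Λ : Pol B →ₗ[B] B) (m : Fin 4 →₀ ℕ) (r : B') :
    bcL φ Λ (monomial m r) = r * φ (Λ (monomial m 1)) := by
  have h1 : (monomial m r : Pol B') = r • basisMonomials (Fin 4) B' m := by
    rw [coe_basisMonomials]; simp [smul_monomial]
  rw [h1, map_smul, bcL, Module.Basis.constr_basis, smul_eq_mul]

theorem bcL_map (φ : B →+* B') (Λ : Pol B →ₗ[B] B) (a : Pol B) :
    bcL φ Λ (map φ a) = φ (Λ a) := by
  induction a using MvPolynomial.induction_on' with
  | monomial m r =>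
    rw [map_monomial, bcL_monomial]
    have : (monomial m r : Pol B) = r • monomial m 1 := by simp [smul_monomial]
    rw [this, map_smul, smul_eq_mul, map_mul]
  | add p q hp hq => simp only [map_add, hp, hq]

theorem lin_ext {N : Type} [AddCommGroup N] [Module B N] {f g : Pol B →ₗ[B] N}
    (h : ∀ m, f (monomial m 1) = g (monomial m 1)) : f = g := by
  refine (basisMonomials (Fin 4) B).ext fun m => ?_
  rw [coe_basisMonomials]
  exact h m

theorem bcL_eq (φ : B →+* B') {Λ : Pol B →ₗ[B] B} {Λ' : Pol B' →ₗ[B'] B'}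
    (h : ∀ a, Λ' (map φ a) = φ (Λ a)) : bcL φ Λ = Λ' := by
  refine lin_ext fun m => ?_
  rw [bcL_monomial, one_mul, ← h, map_monomial, map_one]

theorem bcL_comp {B'' : Type} [CommRing B''] (φ : B →+* B') (ψ : B' →+* B'')
    (Λ : Pol B →ₗ[B] B) : bcL ψ (bcL φ Λ) = bcL (ψ.comp φ) Λ := by
  refine lin_ext fun m => ?_
  simp [bcL_monomial]

theorem bcL_id (Λ : Pol B →ₗ[B] B) : bcL (RingHom.id B) Λ = Λ :=
  bcL_eq _ fun a => by rw [map_id, RingHom.id_apply]

/-- two linear maps that agree on the image of `map φ` agree -/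
theorem lin_ext_map (φ : B →+* B') {N : Type} [AddCommGroup N] [Module B' N]
    {f g : Pol B' →ₗ[B'] N} (h : ∀ a : Pol B, f (map φ a) = g (map φ a)) : f = g :=
  lin_ext fun m => by simpa using h (monomial m 1)

theorem map_mem_rad (φ : B →+* B') {Λ : Pol B →ₗ[B] B} {a : Pol B} (ha : a ∈ rad Λ) :
    map φ a ∈ rad (bcL φ Λ) := by
  intro b
  have : (bcL φ Λ).comp (LinearMap.mulLeft B' (map φ a)) = 0 :=
    lin_ext_map φ fun b => by
      rw [LinearMap.comp_apply, LinearMap.mulLeft_apply, ← map_mul, bcL_map, ha b, map_zero,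
        LinearMap.zero_apply]
  exact LinearMap.congr_fun this b

theorem bcL_hom (φ : B →+* B') {Λ : Pol B →ₗ[B] B} {d : ℕ}
    (h : ∀ a : Pol B, a.IsHomogeneous d → Λ a = 0) {a : Pol B'} (ha : a.IsHomogeneous d) :
    bcL φ Λ a = 0 := by
  rw [← form_coeff ha, form, map_sum]
  refine Finset.sum_eq_zero fun m _ => ?_
  rw [bcL_monomial, h _ (isHomogeneous_monomial _ m.2), map_zero, mul_zero]

theorem tau_apply {R : Type} [CommRing R] (f : Polynomial R) (n : ℕ) (p : Polynomial R) :
    tau f n p = (p %ₘ f).coeff n := rfl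

theorem tau_mul_self {R : Type} [CommRing R] {f : Polynomial R} (hf : f.Monic) (n : ℕ)
    (p : Polynomial R) : tau f n (f * p) = 0 := by
  rw [tau_apply, Polynomial.self_mul_modByMonic hf, Polynomial.coeff_zero]

theorem tau_map {R S : Type} [CommRing R] [CommRing S] (φ : R →+* S) {f : Polynomial R}
    (hf : f.Monic) (n : ℕ) (p : Polynomial R) :
    tau (f.map φ) n (p.map φ) = φ (tau f n p) := by
  rw [tau_apply, tau_apply, ← Polynomial.map_modByMonic φ hf, Polynomial.coeff_map]

theorem tau_of_lt {R : Type} [CommRing R] {f : Polynomial R} (hf : f.Monic) (n : ℕ)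
    {p : Polynomial R} (hp : p.degree < f.degree) : tau f n p = p.coeff n := by
  rcases subsingleton_or_nontrivial R with h | h
  · exact Subsingleton.elim _ _
  · rw [tau_apply, (Polynomial.modByMonic_eq_self_iff hf).2 hp]

theorem Gor.map {c D : ℕ} {ι : Type} [Fintype ι] [DecidableEq ι] {Λ : Pol B →ₗ[B] B}
    {b : ι → Pol B} (h : Gor c D Λ b) (φ : B →+* B') :
    Gor c D (bcL φ Λ) (fun i => map φ (b i)) where
  hw a := by
    have : (bcL φ Λ).comp (LinearMap.mulLeft B' (wc B' c)) = bcL φ Λ :=
      lin_ext_map φ fun a => by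
        rw [LinearMap.comp_apply, LinearMap.mulLeft_apply, ← map_wc φ, ← map_mul, bcL_map,
          bcL_map, h.hw]
    exact LinearMap.congr_fun this a
  h3 a ha := bcL_hom φ h.h3 ha
  hb i := (h.hb i).map φ
  span a := by
    induction a using MvPolynomial.induction_on' with
    | monomial m r =>
      obtain ⟨s, hs⟩ := h.span (monomial m 1)
      refine ⟨fun i => r * φ (s i), ?_⟩
      have := Ideal.mul_mem_left _ (C r) (map_mem_rad φ hs)
      convert this using 1
      simp [mul_sub, Finset.mul_sum, C_mul_monomial, mul_assoc]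
    | add p q hp hq =>
      obtain ⟨r, hr⟩ := hp
      obtain ⟨s, hs⟩ := hq
      refine ⟨r + s, ?_⟩
      convert Ideal.add_mem _ hr hs using 1
      simp [add_mul, Finset.sum_add_distrib]
      ring
  gram := by
    have := h.gram.map φ
    rw [RingHom.map_det] at this
    convert this using 2
    ext i j
    simp [← bcL_map φ Λ]

/-- If `β` spans modulo the radical and the Gram matrix of `b` (same index set) is invertible, then
`b` spans modulo the radical. -/
theorem span_of_gram {O : Type} [CommRing O] [Algebra B O] (lam : O →ₗ[B] B) {ι : Type}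
    [Fintype ι] [DecidableEq ι] (β b : ι → O)
    (hβ : ∀ o, ∃ r : ι → B, o - ∑ i, r i • β i ∈ rad lam)
    (hg : IsUnit (Matrix.of fun i j => lam (b i * b j)).det) (o : O) :
    ∃ r : ι → B, o - ∑ i, r i • b i ∈ rad lam := by
  choose M hM using fun i => hβ (b i)
  have key : (Matrix.of fun i j => lam (b i * b j)) =
      Matrix.of M * Matrix.of fun k j => lam (β k * b j) := by
    ext i j
    have := hM i (b j)
    rw [sub_mul, map_sub, sub_eq_zero] at this
    rw [Matrix.of_apply, this, Matrix.mul_apply, Finset.sum_mul, map_sum]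
    simp
  rw [key, Matrix.det_mul] at hg
  have hM' : IsUnit (Matrix.of M).det := isUnit_of_mul_isUnit_left hg
  obtain ⟨s, hs⟩ := hβ o
  refine ⟨Matrix.vecMul s (Matrix.of M)⁻¹, ?_⟩
  have h1 : ∑ i, Matrix.vecMul s (Matrix.of M)⁻¹ i • (b i - ∑ k, M i k • β k) ∈ rad lam :=
    Submodule.sum_mem _ fun i _ => Submodule.smul_of_tower_mem _ _ (hM i)
  have h2 : ∑ i, Matrix.vecMul s (Matrix.of M)⁻¹ i • ∑ k, M i k • β k = ∑ k, s k • β k := by
    simp_rw [Finset.smul_sum, smul_smul]
    rw [Finset.sum_comm]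
    refine Finset.sum_congr rfl fun k _ => ?_
    rw [← Finset.sum_smul]
    congr 1
    have : Matrix.vecMul (Matrix.vecMul s (Matrix.of M)⁻¹) (Matrix.of M) = s := by
      rw [Matrix.vecMul_vecMul, Matrix.nonsing_inv_mul _ hM', Matrix.vecMul_one]
    exact congrFun this k
  simp_rw [smul_sub, Finset.sum_sub_distrib, h2] at h1
  convert Ideal.sub_mem _ hs h1 using 1
  ring

/-- A Gorenstein family from an algebra `O` with a functional. -/
theorem Gor.of_algebra {O : Type} [CommRing O] [Algebra B O] (lam : O →ₗ[B] B)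
    (ev : Pol B →ₐ[B] O) {c D : ℕ} {ι : Type} [Fintype ι] [DecidableEq ι] (β : ι → O)
    (b : ι → Pol B) (hw : ev (wc B c) = 1)
    (h3 : ∀ a : Pol B, a.IsHomogeneous 3 → lam (ev a) = 0) (hb : ∀ i, (b i).IsHomogeneous D)
    (hβ : ∀ o, ∃ r : ι → B, o - ∑ i, r i • β i ∈ rad lam)
    (hg : IsUnit (Matrix.of fun i j => lam (ev (b i) * ev (b j))).det) :
    Gor c D (lam.comp ev.toLinearMap) b where
  hw a := by simp [hw]
  h3 := h3
  hb := hb
  span a := by
    obtain ⟨r, hr⟩ := span_of_gram lam β (fun i => ev (b i)) hβ hg (ev a)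
    refine ⟨r, fun e => ?_⟩
    have := hr (ev e)
    simpa [Algebra.smul_def] using this
  gram := by simpa using hg

end Pool.Agent.P.MP_2b2d3b_ag
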