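import Mathlib

/-!
Total degree bounds for polynomials in `B[x][y]`.
-/

namespace Pool.Agent.P.MP_2b2d3b_ag

open Polynomial

variable {B : Type} [CommRing B]

/-- total degree at most `d` -/
def TD (d : ℕ) (p : B[X][X]) : Prop := ∀ i j, d < i + j → (p.coeff j).coeff i = 0

/-- `x ↦ t`, `y ↦ s t` -/
noncomputable def theta : B[X][X] →+* B[X][X] :=
  eval₂RingHom (mapRingHom C) (C X * X)

theorem coeff_theta (p : B[X][X]) (n j : ℕ) :
    ((theta p).coeff n).coeff j = if j ≤ n then (p.coeff j).coeff (n - j) else 0 := by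
  induction p using Polynomial.induction_on' with
  | add p q ih ih' =>
    simp only [map_add, coeff_add, ih, ih']
    split_ifs <;> simp
  | monomial k q =>
    have e : theta (monomial k q) = (q.map C * C (X ^ k)) * X ^ k := by
      simp only [theta, coe_eval₂RingHom, eval₂_monomial, coe_mapRingHom, mul_pow, map_pow]
      ring
    rw [e, coeff_mul_X_pow', coeff_monomial]
    by_cases hk : k = j
    · subst hk
      split_ifs with h1 h2
      · rw [coeff_mul_C, coeff_map, coeff_C_mul, coeff_X_pow, if_pos rfl, mul_one]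
      · exact absurd rfl h2
      · simp
    · rw [if_neg hk]
      split_ifs with h1 h2
      · rw [coeff_mul_C, coeff_map, coeff_C_mul, coeff_X_pow, if_neg (Ne.symm hk)]; simp
      · rw [coeff_mul_C, coeff_map, coeff_C_mul, coeff_X_pow, if_neg (Ne.symm hk)]; simp
      · simp
      · simp

theorem TD_iff {d : ℕ} {p : B[X][X]} : TD d p ↔ (theta p).natDegree ≤ d := by
  rw [natDegree_le_iff_coeff_eq_zero]
  constructor
  · intro h n hn
    ext j
    rw [coeff_theta, coeff_zero]
    split_ifs with hj
    · exact h _ _ (by omega)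
    · rfl
  · intro h i j hij
    have := coeff_theta p (i + j) j
    rw [h _ hij, if_pos (by omega), Nat.add_sub_cancel] at this
    simpa using this.symm

theorem theta_injective : Function.Injective (theta : B[X][X] → B[X][X]) := by
  rw [injective_iff_map_eq_zero]
  intro p hp
  ext j i
  have := coeff_theta p (i + j) j
  rw [hp, if_pos (by omega), Nat.add_sub_cancel] at this
  simpa using this.symm

namespace TD

variable {a b d : ℕ} {p q : B[X][X]}

theorem mono (h : TD a p) (hab : a ≤ b) : TD b p := fun i j hij => h i j (by omega)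

theorem zero : TD d (0 : B[X][X]) := fun _ _ _ => by simp

theorem add (h : TD d p) (h' : TD d q) : TD d (p + q) := fun i j hij => by
  simp [h i j hij, h' i j hij]

theorem neg (h : TD d p) : TD d (-p) := fun i j hij => by simp [h i j hij]

theorem sub (h : TD d p) (h' : TD d q) : TD d (p - q) := fun i j hij => by
  simp [h i j hij, h' i j hij]

theorem mul (h : TD a p) (h' : TD b q) : TD (a + b) (p * q) := by
  rw [TD_iff] at *
  rw [map_mul]
  exact natDegree_mul_le.trans (add_le_add h h')

theorem sum {ι : Type*} (s : Finset ι) (f : ι → B[X][X]) (h : ∀ i ∈ s, TD d (f i)) :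
    TD d (∑ i ∈ s, f i) := fun i j hij => by
  rw [finsetSum_coeff, finsetSum_coeff]
  exact Finset.sum_eq_zero fun k hk => h k hk i j hij

theorem C_of_natDegree {r : B[X]} (h : r.natDegree ≤ d) : TD d (C r) := fun i j hij => by
  rw [coeff_C]
  split_ifs with hj
  · exact coeff_eq_zero_of_natDegree_lt (by omega)
  · simp

theorem CC (c : B) : TD 0 (C (C c) : B[X][X]) := C_of_natDegree (by simp)

theorem one : TD 0 (1 : B[X][X]) := by simpa using CC (1 : B)

theorem Y : TD 1 (X : B[X][X]) := fun i j hij => by
  rw [coeff_X]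
  split_ifs with hj
  · rw [coeff_one, if_neg (by omega)]
  · simp

theorem pow (h : TD a p) (n : ℕ) : TD (a * n) (p ^ n) := by
  induction n with
  | zero => simpa using one
  | succ n ih => rw [pow_succ, Nat.mul_succ]; exact ih.mul h

theorem Y_pow (n : ℕ) : TD n (X ^ n : B[X][X]) := by simpa using (Y (B := B)).pow n

theorem smul (h : TD d p) (c : B) : TD d (C (C c) * p) := by simpa using (CC c).mul h

theorem natDegree_le (h : TD d p) : p.natDegree ≤ d := by
  rw [natDegree_le_iff_coeff_eq_zero]
  intro n hn
  ext i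
  exact h i n (by omega)

theorem natDegree_coeff (h : TD d p) (j : ℕ) : (p.coeff j).natDegree ≤ d - j := by
  rw [natDegree_le_iff_coeff_eq_zero]
  intro n hn
  exact h n j (by omega)

theorem map {B' : Type} [CommRing B'] (h : TD d p) (φ : B →+* B') :
    TD d (p.map (mapRingHom φ)) := fun i j hij => by
  simp [coeff_map, h i j hij]

theorem modByMonic [Nontrivial B] {f : B[X][X]} {k : ℕ} (hf : f.Monic) (hk : f.natDegree = k)
    (hfk : TD k f) (h : TD d p) : TD d (p %ₘ f) := by
  induction hn : p.natDegree using Nat.strong_induction_on generalizing p with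
  | _ n ih =>
    by_cases hlt : p.degree < f.degree
    · rwa [(modByMonic_eq_self_iff hf).mpr hlt]
    have hp0 : p ≠ 0 := by
      rintro rfl
      exact hlt (by simpa [bot_lt_iff_ne_bot] using hf.ne_zero)
    have hle : k ≤ p.natDegree := hk ▸ natDegree_le_natDegree (not_lt.mp hlt)
    set z := C p.leadingCoeff * X ^ (p.natDegree - k)
    have e : p %ₘ f = (p - f * z) %ₘ f := by
      rw [sub_modByMonic, self_mul_modByMonic hf, sub_zero]
    have hd : p.natDegree ≤ d := h.natDegree_le
    have hz : TD d (p - f * z) := by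
      refine h.sub ?_
      have h1 : TD (d - p.natDegree) (C p.leadingCoeff) := C_of_natDegree (h.natDegree_coeff _)
      exact (hfk.mul (h1.mul (Y_pow _))).mono (by omega)
    rw [e]
    by_cases h0 : p - f * z = 0
    · rw [h0]; simpa using zero
    have hdeg : (p - f * z).degree < p.degree := by
      have := div_wf_lemma (p := p) (q := f) ⟨not_lt.mp hlt, hp0⟩ hf
      rwa [hk] at this
    exact ih _ (hn ▸ natDegree_lt_natDegree h0 hdeg) hz rfl

theorem of_C_mul {χ : B[X]} {k : ℕ} (hχ : χ.Monic) (hk : χ.natDegree = k)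
    (h : TD (d + k) (C χ * p)) : TD d p := by
  intro i j hij
  by_contra hne
  have h0 : p.coeff j ≠ 0 := fun h0 => hne (by simp [h0])
  have hi : i ≤ (p.coeff j).natDegree := le_natDegree_of_ne_zero hne
  have := h (k + (p.coeff j).natDegree) j (by omega)
  rw [coeff_C_mul, ← hk, coeff_mul_degree_add_degree, hχ.leadingCoeff, one_mul] at this
  exact h0 (leadingCoeff_eq_zero.mp this)

theorem of_mul [IsDomain B] {L : B[X][X]} (h : TD (d + 1) (p * L)) (hL : ¬ TD 0 L) : TD d p := by
  rw [TD_iff] at *
  by_cases hp : theta p = 0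
  · simp [hp]
  have hL0 : theta L ≠ 0 := fun h0 => hL (by simp [h0])
  rw [map_mul, natDegree_mul hp hL0] at h
  omega

theorem eq_CC (h : TD 0 p) : p = C (C ((p.coeff 0).coeff 0)) := by
  ext j i
  rw [coeff_C]
  split_ifs with hj
  · subst hj
    rw [coeff_C]
    split_ifs with hi
    · rw [hi]
    · exact h _ _ (by omega)
  · rw [h _ _ (by omega)]; simp

end TD

theorem exists_TD (p : B[X][X]) : ∃ d, TD d p := ⟨_, TD_iff.mpr le_rfl⟩

theorem TD.eq_sum {d : ℕ} {p : B[X][X]} (h : TD d p) :
    p = ∑ j ∈ Finset.range (d + 1), ∑ i ∈ Finset.range (d + 1 - j),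
      C (C ((p.coeff j).coeff i)) * C X ^ i * X ^ j := by
  conv_lhs => rw [p.as_sum_range' (d + 1) (Nat.lt_succ_of_le h.natDegree_le)]
  refine Finset.sum_congr rfl fun j hj => ?_
  have hj' : j < d + 1 := Finset.mem_range.mp hj
  rw [← C_mul_X_pow_eq_monomial, ← Finset.sum_mul]
  congr 1
  conv_lhs => rw [(p.coeff j).as_sum_range' (d + 1 - j) (by have := h.natDegree_coeff j; omega)]
  rw [map_sum]
  refine Finset.sum_congr rfl fun i _ => ?_
  rw [← C_mul_X_pow_eq_monomial, map_mul, map_pow]

/-- reduction modulo a monic polynomial: a regular constant stays regular -/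
theorem dvd_of_C_mul {R : Type} [CommRing R] {f p : R[X]} {c : R} (hf : f.Monic)
    (hc : ∀ a, c * a = 0 → a = 0) (h : f ∣ C c * p) : f ∣ p := by
  nontriviality R
  rw [← modByMonic_eq_zero_iff_dvd hf] at h ⊢
  rw [← smul_eq_C_mul, smul_modByMonic] at h
  ext n
  have := congrArg (fun q => q.coeff n) h
  simp only [coeff_smul, smul_eq_mul, coeff_zero] at this
  simpa using hc _ this

theorem eq_zero_of_dvd_of_natDegree_lt {R : Type} [CommRing R] {f p : R[X]} (hf : f.Monic)
    (h : f ∣ p) (hd : p.natDegree < f.natDegree) : p = 0 := by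
  nontriviality R
  by_contra hp
  have : p.degree < f.degree := degree_lt_degree hd
  rw [← modByMonic_eq_zero_iff_dvd hf, (modByMonic_eq_self_iff hf).mpr this] at h
  exact hp h

end Pool.Agent.P.MP_2b2d3b_ag
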