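import Pool.Agent.P.MP_2b2d3b_ag.Bas

/-!
Package Box, items 4, 5, 6: normal forms and dual forms.
-/

namespace Pool.Agent.P.MP_2b2d3b_ag

open MvPolynomial

namespace BoxBP

section Tau

variable {R : Type} [CommRing R]

theorem tau_le {f : Polynomial R} {n : ℕ} (hf : f.Monic) (hn : f.natDegree = n + 1)
    {p : Polynomial R} (hp : p.natDegree ≤ n) : tau f n p = p.coeff n :=
  tau_of_lt hf n (Polynomial.degree_lt_degree (by omega))

theorem tau_C_mul (f : Polynomial R) (n : ℕ) (s : R) (p : Polynomial R) :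
    tau f n (Polynomial.C s * p) = s * tau f n p := by
  rw [← Polynomial.smul_eq_C_mul, map_smul, smul_eq_mul]

theorem tau_X_pow {f : Polynomial R} {n : ℕ} (hf : f.Monic) (hn : f.natDegree = n + 1)
    {k : ℕ} (hk : k ≤ n) : tau f n (Polynomial.X ^ k) = if k = n then 1 else 0 := by
  rw [tau_le hf hn ((Polynomial.natDegree_X_pow_le k).trans hk), Polynomial.coeff_X_pow]
  by_cases h : k = n
  · rw [if_pos h, if_pos h.symm]
  · rw [if_neg h, if_neg fun h' => h h'.symm]

theorem quot_coeff {f q r : Polynomial R} {k : ℕ} (h : f = Polynomial.X ^ (k + 1) * q + r)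
    (hr : r.natDegree ≤ k) (t : ℕ) : q.coeff t = f.coeff (t + (k + 1)) := by
  rw [h, Polynomial.coeff_add, Polynomial.coeff_X_pow_mul,
    Polynomial.coeff_eq_zero_of_natDegree_lt (p := r) (by omega), add_zero]

theorem quot_deg {f q r : Polynomial R} {k n : ℕ} (hn : f.natDegree = n + 1)
    (h : f = Polynomial.X ^ (k + 1) * q + r) (hr : r.natDegree ≤ k) : q.natDegree ≤ n - k := by
  rw [Polynomial.natDegree_le_iff_coeff_eq_zero]
  intro t ht
  rw [quot_coeff h hr, Polynomial.coeff_eq_zero_of_natDegree_lt (by omega)]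

theorem tau_dual {f q r : Polynomial R} {k n : ℕ} (hf : f.Monic) (hn : f.natDegree = n + 1)
    (h : f = Polynomial.X ^ (k + 1) * q + r) (hr : r.natDegree ≤ k) (hk : k ≤ n) {k' : ℕ}
    (hk' : k' ≤ n) : tau f n (Polynomial.X ^ k' * q) = if k' = k then 1 else 0 := by
  have hq := quot_deg hn h hr
  rcases le_or_gt k' k with hle | hlt
  · have h1 : (Polynomial.X ^ k' * q).natDegree ≤ n :=
      Polynomial.natDegree_mul_le.trans (by
        have := Polynomial.natDegree_X_pow_le (R := R) k'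
        omega)
    rw [tau_le hf hn h1]
    obtain ⟨t, ht⟩ : ∃ t, n = t + k' := ⟨n - k', by omega⟩
    have h2 : (Polynomial.X ^ k' * q).coeff n = q.coeff t := by
      rw [ht, Polynomial.coeff_X_pow_mul]
    rw [h2]
    by_cases hkk : k' = k
    · rw [if_pos hkk, quot_coeff h hr, show t + (k + 1) = f.natDegree by omega]
      exact hf.coeff_natDegree
    · rw [if_neg hkk]
      exact Polynomial.coeff_eq_zero_of_natDegree_lt (by omega)
  · obtain ⟨t, ht⟩ : ∃ t, k' = t + (k + 1) := ⟨k' - (k + 1), by omega⟩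
    have h1 : Polynomial.X ^ k' * q = f * Polynomial.X ^ t - Polynomial.X ^ t * r := by
      rw [ht, h, pow_add]; ring
    have h2 : (Polynomial.X ^ t * r).natDegree < n :=
      lt_of_le_of_lt Polynomial.natDegree_mul_le (by
        have := Polynomial.natDegree_X_pow_le (R := R) t
        omega)
    rw [h1, map_sub, tau_mul_self hf, tau_le hf hn h2.le,
      Polynomial.coeff_eq_zero_of_natDegree_lt h2, if_neg (by omega), sub_zero]

theorem ex_split (f : Polynomial R) (k : ℕ) :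
    ∃ q r : Polynomial R, f = Polynomial.X ^ (k + 1) * q + r ∧ r.natDegree ≤ k := by
  rcases subsingleton_or_nontrivial R with h | h
  · exact ⟨0, 0, Subsingleton.elim _ _, by simp⟩
  · have hm : (Polynomial.X ^ (k + 1) : Polynomial R).Monic := Polynomial.monic_X_pow _
    refine ⟨f /ₘ Polynomial.X ^ (k + 1), f %ₘ Polynomial.X ^ (k + 1), ?_, ?_⟩
    · rw [add_comm, Polynomial.modByMonic_add_div]
    · have := Polynomial.degree_modByMonic_lt f hm
      rw [Polynomial.degree_X_pow] at this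
      exact Polynomial.natDegree_le_iff_degree_le.2 (Order.le_of_lt_succ (by exact_mod_cast this))

end Tau

variable {B : Type} [CommRing B]

/-- monomials in the coordinates `w, x₂, x₁, x₀` -/
noncomputable def mono (B : Type) [CommRing B] (c l i j k : ℕ) : Pol B :=
  wc B c ^ l * X 2 ^ i * X 1 ^ j * X 0 ^ k

theorem mono_hom (c l i j k : ℕ) : (mono B c l i j k).IsHomogeneous (l + i + j + k) := by
  have h1 := (wc_hom (B := B) c).pow l
  have h2 := (isHomogeneous_X B (2 : Fin 4)).pow i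
  have h3 := (isHomogeneous_X B (1 : Fin 4)).pow j
  have h4 := (isHomogeneous_X B (0 : Fin 4)).pow k
  simpa [mono] using ((h1.mul h2).mul h3).mul h4

theorem mono_mul (c l i j k l' i' j' k' : ℕ) :
    mono B c l i j k * mono B c l' i' j' k' = mono B c (l + l') (i + i') (j + j') (k + k') := by
  simp only [mono, pow_add]; ring

theorem aff_wc (c : ℕ) : aff B c (wc B c) = 1 := by
  simp [aff, wc]
  ring

theorem aff_X0 (c : ℕ) : aff B c (X 0) = Polynomial.X := by simp [aff]

theorem aff_X1 (c : ℕ) : aff B c (X 1) = Polynomial.C Polynomial.X := by simp [aff]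

theorem aff_X2 (c : ℕ) : aff B c (X 2) = Polynomial.C (Polynomial.C Polynomial.X) := by simp [aff]

theorem aff_C (c : ℕ) (r : B) :
    aff B c (C r) = Polynomial.C (Polynomial.C (Polynomial.C r)) := by
  simp [aff]

theorem aff_mono (c l i j k : ℕ) : aff B c (mono B c l i j k) =
    Polynomial.C (Polynomial.C (Polynomial.X ^ i) * Polynomial.X ^ j) * Polynomial.X ^ k := by
  simp only [mono, map_mul, map_pow, aff_wc, aff_X0, aff_X1, aff_X2, one_pow, one_mul]

theorem aff_hm2 (c : ℕ) {p : Polynomial B} {n : ℕ} (hp : p.natDegree ≤ n) :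
    aff B c (hm (X 2) (wc B c) p n) = Polynomial.C (Polynomial.C p) := by
  conv_rhs => rw [p.as_sum_range_C_mul_X_pow' (Nat.lt_succ_of_le hp)]
  rw [hm_eq_sum, map_sum, map_sum, map_sum]
  refine Finset.sum_congr rfl fun k _ => ?_
  simp only [map_mul, map_pow, aff_C, aff_wc, aff_X2, one_pow, mul_one]

theorem aff_hm1 (c : ℕ) {p : Polynomial B} {n : ℕ} (hp : p.natDegree ≤ n) :
    aff B c (hm (X 1) (wc B c) p n) = Polynomial.C (p.map Polynomial.C) := by
  conv_rhs => rw [p.as_sum_range_C_mul_X_pow' (Nat.lt_succ_of_le hp)]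
  rw [hm_eq_sum, map_sum, Polynomial.map_sum, map_sum]
  refine Finset.sum_congr rfl fun k _ => ?_
  simp only [map_mul, map_pow, aff_C, aff_wc, aff_X1, one_pow, mul_one, Polynomial.map_mul,
    Polynomial.map_pow, Polynomial.map_C, Polynomial.map_X]

/-- forms of degree `d` of degree at most `K` in `x₀` -/
noncomputable def L (B : Type) [CommRing B] (c d K : ℕ) : Submodule B (Pol B) :=
  Submodule.span B {a | ∃ l i j k, l + i + j + k = d ∧ k ≤ K ∧ a = mono B c l i j k}

theorem mono_mem {c d K l i j k : ℕ} (h : l + i + j + k = d) (hk : k ≤ K) :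
    mono B c l i j k ∈ L B c d K := Submodule.subset_span ⟨l, i, j, k, h, hk, rfl⟩

theorem L_le {c d K : ℕ} {W : Submodule B (Pol B)}
    (h : ∀ l i j k, l + i + j + k = d → k ≤ K → mono B c l i j k ∈ W) : L B c d K ≤ W := by
  refine Submodule.span_le.2 ?_
  rintro _ ⟨l, i, j, k, h1, h2, rfl⟩
  exact h l i j k h1 h2

theorem L_mul {c d K d' K' : ℕ} {a b : Pol B} (ha : a ∈ L B c d K) (hb : b ∈ L B c d' K') :
    a * b ∈ L B c (d + d') (K + K') := by
  have : L B c d K * L B c d' K' ≤ L B c (d + d') (K + K') := by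
    rw [L, L, Submodule.span_mul_span]
    refine Submodule.span_le.2 ?_
    rintro _ ⟨_, ⟨l, i, j, k, h1, h2, rfl⟩, _, ⟨l', i', j', k', h1', h2', rfl⟩, rfl⟩
    change mono B c l i j k * mono B c l' i' j' k' ∈ L B c (d + d') (K + K')
    rw [mono_mul]
    exact mono_mem (by omega) (by omega)
  exact this (Submodule.mul_mem_mul ha hb)

theorem L_hom {c d K : ℕ} {a : Pol B} (ha : a ∈ L B c d K) : a.IsHomogeneous d := by
  have : L B c d K ≤ homogeneousSubmodule (Fin 4) B d :=
    L_le fun l i j k h _ => by rw [← h]; exact mono_hom c l i j k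
  exact this ha

theorem L_deg {c d K : ℕ} {a : Pol B} (ha : a ∈ L B c d K) : (aff B c a).natDegree ≤ K := by
  induction ha using Submodule.span_induction with
  | mem a h =>
    obtain ⟨l, i, j, k, _, h2, rfl⟩ := h
    rw [aff_mono]
    exact (Polynomial.natDegree_C_mul_le _ _).trans ((Polynomial.natDegree_X_pow_le k).trans h2)
  | zero => simp
  | add a b _ _ ha hb =>
    rw [map_add]
    exact Polynomial.natDegree_add_le_of_degree_le ha hb
  | smul r a _ ha =>
    rw [smul_eq_C_mul, map_mul, aff_C]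
    exact (Polynomial.natDegree_C_mul_le _ _).trans ha

theorem X3_mem (c : ℕ) : (X 3 : Pol B) ∈ L B c 1 1 := by
  have h : (X 3 : Pol B) = mono B c 1 0 0 0 - (c : B) • mono B c 0 1 0 0 -
      ((c : B) ^ 2) • mono B c 0 0 1 0 - ((c : B) ^ 3) • mono B c 0 0 0 1 := by
    simp only [mono, wc, smul_eq_C_mul, map_pow, map_natCast]
    ring
  rw [h]
  refine Submodule.sub_mem _ (Submodule.sub_mem _ (Submodule.sub_mem _ ?_ ?_) ?_) ?_
  · exact mono_mem rfl (by omega)
  · exact Submodule.smul_mem _ _ (mono_mem rfl (by omega))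
  · exact Submodule.smul_mem _ _ (mono_mem rfl (by omega))
  · exact Submodule.smul_mem _ _ (mono_mem rfl (by omega))

theorem X3_pow_mem (c n : ℕ) : (X 3 : Pol B) ^ n ∈ L B c n n := by
  induction n with
  | zero =>
    have : (X 3 : Pol B) ^ 0 = mono B c 0 0 0 0 := by simp [mono]
    rw [this]
    exact mono_mem rfl le_rfl
  | succ n ih =>
    rw [pow_succ]
    exact L_mul ih (X3_mem c)

theorem L_mono {c d K K' : ℕ} (h : K ≤ K') : L B c d K ≤ L B c d K' :=
  L_le fun _ _ _ _ h1 h2 => mono_mem h1 (h2.trans h)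

theorem hom_mem (c : ℕ) {d : ℕ} {a : Pol B} (ha : a.IsHomogeneous d) : a ∈ L B c d d := by
  rw [← form_coeff ha, form]
  refine Submodule.sum_mem _ fun m _ => ?_
  obtain ⟨m, hm⟩ := m
  have hd : m 0 + m 1 + m 2 + m 3 = d := by
    rw [← hm, Finsupp.degree_eq_sum, Fin.sum_univ_four]
  have h1 : (monomial m (coeff m a) : Pol B) =
      coeff m a • (mono B c 0 (m 2) (m 1) (m 0) * X 3 ^ m 3) := by
    rw [monomial_eq, Finsupp.prod_fintype _ _ (by simp), Fin.prod_univ_four, smul_eq_C_mul, mono]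
    ring
  change (monomial m (coeff m a) : Pol B) ∈ _
  rw [h1]
  refine Submodule.smul_mem _ _ ?_
  have h2 := L_mul (mono_mem (B := B) (c := c) (l := 0) (i := m 2) (j := m 1) (k := m 0) rfl le_rfl)
    (X3_pow_mem (B := B) c (m 3))
  rw [show 0 + m 2 + m 1 + m 0 + m 3 = d by omega] at h2
  exact L_mono (by omega) h2

theorem L_split {c d K : ℕ} (k : ℕ) {a : Pol B} (ha : a ∈ L B c d K) :
    ∃ q r : Pol B, a = X 0 ^ (k + 1) * q + r ∧ q.IsHomogeneous (d - (k + 1)) ∧ r ∈ L B c d k := by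
  induction ha using Submodule.span_induction with
  | mem a h =>
    obtain ⟨l, i, j, k', h1, _, rfl⟩ := h
    rcases le_or_gt k' k with hle | hlt
    · exact ⟨0, _, by simp, isHomogeneous_zero _ _ _, mono_mem h1 hle⟩
    · obtain ⟨t, rfl⟩ : ∃ t, k' = t + (k + 1) := ⟨k' - (k + 1), by omega⟩
      refine ⟨mono B c l i j t, 0, ?_, ?_, Submodule.zero_mem _⟩
      · simp only [mono, pow_add _ t]; ring
      · rw [show d - (k + 1) = l + i + j + t by omega]
        exact mono_hom c l i j t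
  | zero => exact ⟨0, 0, by simp, isHomogeneous_zero _ _ _, Submodule.zero_mem _⟩
  | add a b _ _ ha hb =>
    obtain ⟨q, r, h1, h2, h3⟩ := ha
    obtain ⟨q', r', h1', h2', h3'⟩ := hb
    exact ⟨q + q', r + r', by rw [h1, h1']; ring, h2.add h2', Submodule.add_mem _ h3 h3'⟩
  | smul s a _ ha =>
    obtain ⟨q, r, h1, h2, h3⟩ := ha
    refine ⟨C s * q, s • r, ?_, h2.C_mul s, Submodule.smul_mem _ _ h3⟩
    rw [h1, smul_eq_C_mul, smul_eq_C_mul]; ring

theorem L_eval {c d : ℕ} {a : Pol B} (ha : a ∈ L B c (d + 1) d) :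
    eval ![1, 0, 0, -(c : B) ^ 3] a = 0 := by
  induction ha using Submodule.span_induction with
  | mem a h =>
    obtain ⟨l, i, j, k, h1, h2, rfl⟩ := h
    have hw : eval ![1, 0, 0, -(c : B) ^ 3] (wc B c) = 0 := by simp [eval_wc]
    have h0 : l ≠ 0 ∨ i ≠ 0 ∨ j ≠ 0 := by omega
    rcases h0 with h | h | h <;> simp [mono, hw, h]
  | zero => simp
  | add a b _ _ ha hb => rw [map_add, ha, hb, add_zero]
  | smul r a _ ha => rw [smul_eq_C_mul, map_mul, ha, mul_zero]

variable {x : Box B}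

theorem F_split (hx : x.Ok) : ∃ r ∈ L B x.c 6 5, C x.u * x.F = X 0 ^ 6 + r := by
  obtain ⟨q, r, h1, h2, h3⟩ := L_split 5 (hom_mem x.c (hx.hF.C_mul x.u))
  have h4 : q = C (coeff 0 q) := by
    rw [← totalDegree_eq_zero_iff_eq_C]
    exact Nat.le_zero.1 h2.totalDegree_le
  have h5 := congrArg (eval ![1, 0, 0, -(x.c : B) ^ 3]) h1
  rw [map_add, L_eval h3, h4, map_mul, eval_C, hx.hu] at h5
  have h6 : coeff 0 q = 1 := by simpa using h5.symm
  refine ⟨r, h3, ?_⟩
  rw [h1, h4, h6, map_one, mul_one]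

/-- the monic sextic in the last affine coordinate -/
noncomputable def f6 (x : Box B) : Polynomial (Polynomial (Polynomial B)) :=
  Polynomial.C (Polynomial.C (Polynomial.C x.u)) * aff B x.c x.F

theorem f6_eq (x : Box B) : f6 x = aff B x.c (C x.u * x.F) := by rw [map_mul, aff_C, f6]

theorem mu_apply (x : Box B) (a : Pol B) : x.mu a =
    tau x.a1 x.n1 (tau (x.a2.map Polynomial.C) x.n2 (tau (f6 x) 5 (aff B x.c a))) := rfl

theorem nontriv (hx : x.Ok) : Nontrivial B := by
  by_contra h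
  rw [not_nontrivial_iff_subsingleton] at h
  have := hx.d1
  rw [Subsingleton.elim x.a1 0, Polynomial.natDegree_zero] at this
  omega

theorem f6_monic (hx : x.Ok) : (f6 x).Monic ∧ (f6 x).natDegree = 5 + 1 := by
  have := nontriv hx
  obtain ⟨r, hr, h⟩ := F_split hx
  have h1 := L_deg hr
  rw [f6_eq, h, map_add, map_pow, aff_X0]
  refine ⟨Polynomial.monic_X_pow_add ?_, ?_⟩
  · exact lt_of_le_of_lt (Polynomial.degree_le_of_natDegree_le h1) (by exact_mod_cast (by norm_num))
  · rw [Polynomial.natDegree_add_eq_left_of_natDegree_lt, Polynomial.natDegree_X_pow]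
    rw [Polynomial.natDegree_X_pow]
    omega

theorem a2_monic (hx : x.Ok) : (x.a2.map (Polynomial.C : B →+* Polynomial B)).Monic ∧
    (x.a2.map (Polynomial.C : B →+* Polynomial B)).natDegree = x.n2 + 1 := by
  have := nontriv hx
  exact ⟨hx.m2.map _, by rw [hx.m2.natDegree_map, hx.d2]⟩

theorem mu_F (hx : x.Ok) (a : Pol B) : x.mu (x.F * a) = 0 := by
  have h : x.F * a = C x.u * x.F * (C (eval ![1, 0, 0, -(x.c : B) ^ 3] x.F) * a) := by
    have h1 : (C x.u * C (eval ![1, 0, 0, -(x.c : B) ^ 3] x.F) : Pol B) = 1 := by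
      rw [← map_mul, hx.hu, map_one]
    linear_combination (-(x.F * a)) * h1
  rw [mu_apply, h, map_mul, ← f6_eq, tau_mul_self (f6_monic hx).1, map_zero, map_zero]

theorem mu_g1 (hx : x.Ok) (a : Pol B) : x.mu (x.g1 * a) = 0 := by
  rw [mu_apply, map_mul, Box.g1, aff_hm2 _ hx.d1.le, tau_C_mul, tau_C_mul, tau_mul_self hx.m1]

theorem mu_g2 (hx : x.Ok) (a : Pol B) : x.mu (x.g2 * a) = 0 := by
  rw [mu_apply, map_mul, Box.g2, aff_hm1 _ hx.d2.le, tau_C_mul, tau_mul_self (a2_monic hx).1,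
    map_zero]

theorem mu_w (x : Box B) (a : Pol B) : x.mu (wc B x.c * a) = x.mu a := by
  rw [mu_apply, map_mul, aff_wc, one_mul, mu_apply]

theorem lam_w_pow {Λ : Pol B →ₗ[B] B} {w : Pol B} (h : ∀ a, Λ (w * a) = Λ a) (l : ℕ) (a : Pol B) :
    Λ (w ^ l * a) = Λ a := by
  induction l with
  | zero => rw [pow_zero, one_mul]
  | succ l ih => rw [pow_succ', mul_assoc, h, ih]

theorem mu_delta {a : Pol B} {p1 : Polynomial B} {p2 : Polynomial (Polynomial B)}
    {p3 : Polynomial (Polynomial (Polynomial B))} {c1 c2 c3 : Prop} [Decidable c1] [Decidable c2]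
    [Decidable c3] (h : aff B x.c a = Polynomial.C (Polynomial.C p1 * p2) * p3)
    (h1 : tau x.a1 x.n1 p1 = if c1 then 1 else 0)
    (h2 : tau (x.a2.map Polynomial.C) x.n2 p2 = if c2 then 1 else 0)
    (h3 : tau (f6 x) 5 p3 = if c3 then 1 else 0) :
    x.mu a = if c1 ∧ c2 ∧ c3 then 1 else 0 := by
  rw [mu_apply, h, tau_C_mul, h3]
  by_cases e3 : c3
  · rw [if_pos e3, mul_one, tau_C_mul, h2]
    by_cases e2 : c2
    · rw [if_pos e2, mul_one, h1]
      simp [e2, e3]
    · simp [e2]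
  · simp [e3]

theorem mu_mono (hx : x.Ok) (l : ℕ) {i j k : ℕ} (hi : i ≤ x.n1) (hj : j ≤ x.n2) (hk : k ≤ 5) :
    x.mu (mono B x.c l i j k) = if i = x.n1 ∧ j = x.n2 ∧ k = 5 then 1 else 0 :=
  mu_delta (aff_mono _ _ _ _ _) (tau_X_pow hx.m1 hx.d1 hi)
    (tau_X_pow (a2_monic hx).1 (a2_monic hx).2 hj) (tau_X_pow (f6_monic hx).1 (f6_monic hx).2 hk)

theorem dual1 (hx : x.Ok) {i : ℕ} (hi : i ≤ x.n1) : ∃ (b : Pol B) (q : Polynomial B),
    b.IsHomogeneous (x.n1 - i) ∧ aff B x.c b = Polynomial.C (Polynomial.C q) ∧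
      ∀ i' ≤ x.n1, tau x.a1 x.n1 (Polynomial.X ^ i' * q) = if i' = i then 1 else 0 := by
  obtain ⟨q, r, h, hr⟩ := ex_split x.a1 i
  exact ⟨hm (X 2) (wc B x.c) q (x.n1 - i), q, hm_hom (isHomogeneous_X _ _) (wc_hom _) _ _,
    aff_hm2 _ (quot_deg hx.d1 h hr), fun i' hi' => tau_dual hx.m1 hx.d1 h hr hi hi'⟩

theorem dual2 (hx : x.Ok) {j : ℕ} (hj : j ≤ x.n2) :
    ∃ (b : Pol B) (q : Polynomial (Polynomial B)),
    b.IsHomogeneous (x.n2 - j) ∧ aff B x.c b = Polynomial.C q ∧
      ∀ j' ≤ x.n2, tau (x.a2.map Polynomial.C) x.n2 (Polynomial.X ^ j' * q) =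
        if j' = j then 1 else 0 := by
  obtain ⟨q, r, h, hr⟩ := ex_split x.a2 j
  refine ⟨hm (X 1) (wc B x.c) q (x.n2 - j), q.map Polynomial.C,
    hm_hom (isHomogeneous_X _ _) (wc_hom _) _ _, aff_hm1 _ (quot_deg hx.d2 h hr),
    fun j' hj' => tau_dual (r := r.map Polynomial.C) (a2_monic hx).1 (a2_monic hx).2 ?_
      (Polynomial.natDegree_map_le.trans hr) hj hj'⟩
  conv_lhs => rw [h]
  simp only [Polynomial.map_add, Polynomial.map_mul, Polynomial.map_pow, Polynomial.map_X]

theorem dual3 (hx : x.Ok) {k : ℕ} (hk : k ≤ 5) : ∃ b : Pol B, b.IsHomogeneous (5 - k) ∧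
    ∀ k' ≤ 5, tau (f6 x) 5 (Polynomial.X ^ k' * aff B x.c b) = if k' = k then 1 else 0 := by
  obtain ⟨q, r, h1, h2, h3⟩ := L_split k (hom_mem x.c (hx.hF.C_mul x.u))
  refine ⟨q, by rwa [show 5 - k = 6 - (k + 1) by omega], fun k' hk' =>
    tau_dual (r := aff B x.c r) (f6_monic hx).1 (f6_monic hx).2 ?_ (L_deg h3) hk hk'⟩
  rw [f6_eq, h1, map_add, map_mul, map_pow, aff_X0]

theorem dual (hx : x.Ok) (i j k : ℕ) : ∃ b : Pol B, i ≤ x.n1 → j ≤ x.n2 → k ≤ 5 →
    b.IsHomogeneous (x.n1 - i + (x.n2 - j) + (5 - k)) ∧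
    ∀ l i' j' k', i' ≤ x.n1 → j' ≤ x.n2 → k' ≤ 5 →
      x.mu (b * mono B x.c l i' j' k') = if i' = i ∧ j' = j ∧ k' = k then 1 else 0 := by
  by_cases h : i ≤ x.n1 ∧ j ≤ x.n2 ∧ k ≤ 5
  · obtain ⟨b1, q1, e1, f1, t1⟩ := dual1 hx h.1
    obtain ⟨b2, q2, e2, f2, t2⟩ := dual2 hx h.2.1
    obtain ⟨b3, e3, t3⟩ := dual3 hx h.2.2
    refine ⟨b1 * b2 * b3, fun _ _ _ => ⟨(e1.mul e2).mul e3, fun l i' j' k' hi hj hk => ?_⟩⟩
    refine mu_delta ?_ (t1 i' hi) (t2 j' hj) (t3 k' hk)
    rw [map_mul, map_mul, map_mul, f1, f2, aff_mono]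
    simp only [map_mul]
    ring
  · exact ⟨0, fun h1 h2 h3 => absurd ⟨h1, h2, h3⟩ h⟩

theorem hm_top (u w : Pol B) {p : Polynomial B} {n : ℕ} (hp : p.Monic)
    (hn : p.natDegree = n + 1) : u ^ (n + 1) = hm u w p (n + 1) -
      ∑ t ∈ Finset.range (n + 1), p.coeff t • (w ^ (n + 1 - t) * u ^ t) := by
  rw [hm_eq_sum, Finset.sum_range_succ]
  have : p.coeff (n + 1) = 1 := by rw [← hn]; exact hp.coeff_natDegree
  rw [this, Nat.sub_self, pow_zero, mul_one, map_one, one_mul, eq_sub_iff_add_eq, add_comm]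
  congr 1
  refine Finset.sum_congr rfl fun t _ => ?_
  rw [smul_eq_C_mul]; ring

/-- the normal form, as an induction principle -/
theorem nf_ind (hx : x.Ok) (W : Submodule B (Pol B)) (d : ℕ) (hF : ∀ a, x.F * a ∈ W)
    (h1 : ∀ a, x.g1 * a ∈ W) (h2 : ∀ a, x.g2 * a ∈ W)
    (hm0 : ∀ l i j k, l + i + j + k = d → i ≤ x.n1 → j ≤ x.n2 → k ≤ 5 → mono B x.c l i j k ∈ W)
    {a : Pol B} (ha : a.IsHomogeneous d) : a ∈ W := by
  have s1 : ∀ i l j k, l + i + j + k = d → j ≤ x.n2 → k ≤ 5 → mono B x.c l i j k ∈ W := by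
    intro i
    induction i using Nat.strong_induction_on with
    | _ i ih =>
      intro l j k hd hj hk
      rcases le_or_gt i x.n1 with hi | hi
      · exact hm0 l i j k hd hi hj hk
      · obtain ⟨s, rfl⟩ : ∃ s, i = s + (x.n1 + 1) := ⟨i - (x.n1 + 1), by omega⟩
        have e : mono B x.c l (s + (x.n1 + 1)) j k = x.g1 * mono B x.c l s j k -
            ∑ t ∈ Finset.range (x.n1 + 1),
              x.a1.coeff t • mono B x.c (l + (x.n1 + 1 - t)) (s + t) j k := by
          have e1 : mono B x.c l (s + (x.n1 + 1)) j k = X 2 ^ (x.n1 + 1) * mono B x.c l s j k := by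
            simp only [mono, pow_add _ s]; ring
          rw [e1, hm_top (X 2) (wc B x.c) hx.m1 hx.d1, sub_mul, Finset.sum_mul, Box.g1]
          congr 1
          refine Finset.sum_congr rfl fun t _ => ?_
          rw [smul_mul_assoc]
          congr 1
          simp only [mono, pow_add _ s, pow_add _ l]; ring
        rw [e]
        refine W.sub_mem (h1 _) (W.sum_mem fun t ht => W.smul_mem _ ?_)
        have := Finset.mem_range.1 ht
        exact ih _ (by omega) _ _ _ (by omega) hj hk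
  have s2 : ∀ j l i k, l + i + j + k = d → k ≤ 5 → mono B x.c l i j k ∈ W := by
    intro j
    induction j using Nat.strong_induction_on with
    | _ j ih =>
      intro l i k hd hk
      rcases le_or_gt j x.n2 with hj | hj
      · exact s1 i l j k hd hj hk
      · obtain ⟨s, rfl⟩ : ∃ s, j = s + (x.n2 + 1) := ⟨j - (x.n2 + 1), by omega⟩
        have e : mono B x.c l i (s + (x.n2 + 1)) k = x.g2 * mono B x.c l i s k -
            ∑ t ∈ Finset.range (x.n2 + 1),
              x.a2.coeff t • mono B x.c (l + (x.n2 + 1 - t)) i (s + t) k := by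
          have e1 : mono B x.c l i (s + (x.n2 + 1)) k = X 1 ^ (x.n2 + 1) * mono B x.c l i s k := by
            simp only [mono, pow_add _ s]; ring
          rw [e1, hm_top (X 1) (wc B x.c) hx.m2 hx.d2, sub_mul, Finset.sum_mul, Box.g2]
          congr 1
          refine Finset.sum_congr rfl fun t _ => ?_
          rw [smul_mul_assoc]
          congr 1
          simp only [mono, pow_add _ s, pow_add _ l]; ring
        rw [e]
        refine W.sub_mem (h2 _) (W.sum_mem fun t ht => W.smul_mem _ ?_)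
        have := Finset.mem_range.1 ht
        exact ih _ (by omega) _ _ _ (by omega) hk
  obtain ⟨r, hr, hFr⟩ := F_split hx
  have s3 : ∀ K, L B x.c d K ≤ W := by
    intro K
    induction K with
    | zero => exact L_le fun l i j k hd hk => s2 j l i k hd (by omega)
    | succ K ih =>
      refine L_le fun l i j k hd hk => ?_
      rcases le_or_gt k 5 with h5 | h5
      · exact s2 j l i k hd h5
      · obtain ⟨s, rfl⟩ : ∃ s, k = s + 6 := ⟨k - 6, by omega⟩
        have e : mono B x.c l i j (s + 6) =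
            x.F * (C x.u * mono B x.c l i j s) - mono B x.c l i j s * r := by
          have e1 : mono B x.c l i j (s + 6) = X 0 ^ 6 * mono B x.c l i j s := by
            simp only [mono, pow_add _ s]; ring
          rw [e1]
          linear_combination (-mono B x.c l i j s) * hFr
        rw [e]
        refine W.sub_mem (hF _) (ih ?_)
        have h3 := L_mul (mono_mem (B := B) (c := x.c) (l := l) (i := i) (j := j) (k := s)
          rfl le_rfl) hr
        rw [show l + i + j + s + 6 = d by omega] at h3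
        exact L_mono (by omega) h3
  exact s3 d (hom_mem x.c ha)

/-- the index set of the monomial basis -/
def box (x : Box B) : Finset (ℕ × ℕ × ℕ) :=
  Finset.range (x.n1 + 1) ×ˢ Finset.range (x.n2 + 1) ×ˢ Finset.range 6

theorem mem_box {α : ℕ × ℕ × ℕ} : α ∈ box x ↔ α.1 ≤ x.n1 ∧ α.2.1 ≤ x.n2 ∧ α.2.2 ≤ 5 := by
  simp only [box, Finset.mem_product, Finset.mem_range]
  omega

theorem dual' (hx : x.Ok) : ∃ b : ℕ × ℕ × ℕ → Pol B, ∀ α ∈ box x,
    (b α).IsHomogeneous (x.n1 - α.1 + (x.n2 - α.2.1) + (5 - α.2.2)) ∧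
    ∀ l, ∀ β ∈ box x, x.mu (b α * mono B x.c l β.1 β.2.1 β.2.2) = if β = α then 1 else 0 := by
  choose b hb using dual hx
  refine ⟨fun α => b α.1 α.2.1 α.2.2, fun α hα => ?_⟩
  obtain ⟨h1, h2, h3⟩ := mem_box.1 hα
  refine ⟨(hb _ _ _ h1 h2 h3).1, fun l β hβ => ?_⟩
  obtain ⟨h1', h2', h3'⟩ := mem_box.1 hβ
  rw [(hb _ _ _ h1 h2 h3).2 l _ _ _ h1' h2' h3']
  congr 1
  simp only [Prod.ext_iff]

end BoxBP

open BoxBP

theorem boxB4 (B : Type) [CommRing B] (x : Box B) (hx : x.Ok) :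
    ∀ (a : Pol B) (d : ℕ), a.IsHomogeneous d → d < x.n1 + x.n2 + 5 → x.mu a = 0 := by
  intro a d ha hd
  refine nf_ind hx (LinearMap.ker x.mu) d (mu_F hx) (mu_g1 hx) (mu_g2 hx) ?_ ha
  intro l i j k h hi hj hk
  rw [LinearMap.mem_ker, mu_mono hx l hi hj hk, if_neg (by omega)]

theorem boxB5 (B : Type) [CommRing B] (x : Box B) (hx : x.Ok) :
    ∀ (a : Pol B) (d : ℕ), a.IsHomogeneous d → (∀ b, x.mu (a * b) = 0) →
      a ∈ Ideal.span {x.F, x.g1, x.g2} := by
  intro a d ha h0
  obtain ⟨b, hb⟩ := dual' hx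
  let T : Pol B →ₗ[B] Pol B := ∑ α ∈ box x,
    (LinearMap.toSpanSingleton B (Pol B)
      (mono B x.c (d - (α.1 + α.2.1 + α.2.2)) α.1 α.2.1 α.2.2)).comp
        (x.mu.comp (LinearMap.mulLeft B (b α)))
  have hT : ∀ e, T e = ∑ α ∈ box x,
      x.mu (b α * e) • mono B x.c (d - (α.1 + α.2.1 + α.2.2)) α.1 α.2.1 α.2.2 := by
    intro e
    simp only [T, LinearMap.sum_apply, LinearMap.comp_apply, LinearMap.mulLeft_apply,
      LinearMap.toSpanSingleton_apply]
  let J : Ideal (Pol B) := Ideal.span {x.F, x.g1, x.g2}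
  have key : ∀ g ∈ J, (∀ e, x.mu (g * e) = 0) → ∀ e,
      g * e ∈ (J.restrictScalars B).comap (LinearMap.id - T) := by
    intro g hg hmu e
    have : T (g * e) = 0 := by
      rw [hT]
      refine Finset.sum_eq_zero fun α _ => ?_
      rw [mul_left_comm, hmu, zero_smul]
    rw [Submodule.mem_comap, LinearMap.sub_apply, this, sub_zero]
    exact J.mul_mem_right _ hg
  have h := nf_ind hx ((J.restrictScalars B).comap (LinearMap.id - T)) d
    (key _ (Ideal.subset_span (by simp)) (mu_F hx))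
    (key _ (Ideal.subset_span (by simp)) (mu_g1 hx))
    (key _ (Ideal.subset_span (by simp)) (mu_g2 hx)) ?_ ha
  · have : T a = 0 := by
      rw [hT]
      refine Finset.sum_eq_zero fun α _ => ?_
      rw [mul_comm, h0, zero_smul]
    rwa [Submodule.mem_comap, LinearMap.sub_apply, this, sub_zero] at h
  · intro l i j k hd hi hj hk
    have hβ : (i, j, k) ∈ box x := mem_box.2 ⟨hi, hj, hk⟩
    have : T (mono B x.c l i j k) = mono B x.c l i j k := by
      rw [hT, Finset.sum_eq_single_of_mem (i, j, k) hβ]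
      · rw [(hb _ hβ).2 l _ hβ, if_pos rfl, one_smul, show d - (i + j + k) = l by omega]
      · intro α hα hne
        rw [(hb _ hα).2 l _ hβ, if_neg hne.symm, zero_smul]
    rw [Submodule.mem_comap, LinearMap.sub_apply, this, LinearMap.id_apply, sub_self]
    exact Submodule.zero_mem _

theorem boxB6 (B : Type) [CommRing B] (x : Box B) (hx : x.Ok) :
    ∀ (Λ : Pol B →ₗ[B] B) (r s : ℕ), r + 1 + s = x.n1 + x.n2 + 5 →
      (∀ a, Λ (x.F * a) = 0 ∧ Λ (x.g1 * a) = 0 ∧ Λ (x.g2 * a) = 0 ∧ Λ (wc B x.c * a) = Λ a) →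
      (∀ a : Pol B, a.IsHomogeneous r → Λ a = 0) →
      ∃ G : Pol B, G.IsHomogeneous s ∧ ∀ a, x.mu (G * a) = Λ a := by
  intro Λ r s hrs hΛ hr
  obtain ⟨b, hb⟩ := dual' hx
  have hw : ∀ l a, Λ (wc B x.c ^ l * a) = Λ a := lam_w_pow fun a => (hΛ a).2.2.2
  have hmono : ∀ l i j k, mono B x.c l i j k = wc B x.c ^ l * mono B x.c 0 i j k := by
    intro l i j k
    simp only [mono]; ring
  let S := (box x).filter fun α => r < α.1 + α.2.1 + α.2.2
  let G : Pol B := ∑ α ∈ S, C (Λ (mono B x.c 0 α.1 α.2.1 α.2.2)) *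
    (wc B x.c ^ (α.1 + α.2.1 + α.2.2 - (r + 1)) * b α)
  have hG : ∀ e, x.mu (G * e) = ∑ α ∈ S, Λ (mono B x.c 0 α.1 α.2.1 α.2.2) * x.mu (b α * e) := by
    intro e
    rw [Finset.sum_mul, map_sum]
    refine Finset.sum_congr rfl fun α _ => ?_
    rw [mul_assoc, ← smul_eq_C_mul, map_smul, smul_eq_mul, mul_assoc, lam_w_pow (mu_w x)]
  refine ⟨G, IsHomogeneous.sum _ _ _ fun α hα => ?_, fun a => ?_⟩
  · obtain ⟨h1, h2⟩ := Finset.mem_filter.1 hα
    obtain ⟨h3, h4, h5⟩ := mem_box.1 h1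
    have := (((wc_hom (B := B) x.c).pow (α.1 + α.2.1 + α.2.2 - (r + 1))).mul (hb α h1).1).C_mul
      (Λ (mono B x.c 0 α.1 α.2.1 α.2.2))
    rwa [show 1 * (α.1 + α.2.1 + α.2.2 - (r + 1)) + (x.n1 - α.1 + (x.n2 - α.2.1) + (5 - α.2.2)) = s
      by omega] at this
  · let W : Submodule B (Pol B) := LinearMap.ker (x.mu.comp (LinearMap.mulLeft B G) - Λ)
    have hW : ∀ e, e ∈ W ↔ x.mu (G * e) = Λ e := by
      intro e
      simp only [W, LinearMap.mem_ker, LinearMap.sub_apply, LinearMap.comp_apply,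
        LinearMap.mulLeft_apply, sub_eq_zero]
    have key : ∀ d, ∀ e : Pol B, e.IsHomogeneous d → e ∈ W := by
      intro d e he
      refine nf_ind hx W d (fun e => ?_) (fun e => ?_) (fun e => ?_) ?_ he
      · rw [hW, mul_left_comm, mu_F hx, (hΛ e).1]
      · rw [hW, mul_left_comm, mu_g1 hx, (hΛ e).2.1]
      · rw [hW, mul_left_comm, mu_g2 hx, (hΛ e).2.2.1]
      · intro l i j k _ hi hj hk
        have hβ : (i, j, k) ∈ box x := mem_box.2 ⟨hi, hj, hk⟩
        rw [hW, hG, hmono l, hw, ← hmono l]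
        by_cases hlt : r < i + j + k
        · rw [Finset.sum_eq_single_of_mem (i, j, k) (Finset.mem_filter.2 ⟨hβ, hlt⟩)]
          · rw [(hb _ hβ).2 l _ hβ, if_pos rfl, mul_one]
          · intro α hα hne
            rw [(hb _ (Finset.mem_filter.1 hα).1).2 l _ hβ, if_neg hne.symm, mul_zero]
        · rw [← hw (r - (i + j + k)), ← hmono, hr]
          · refine Finset.sum_eq_zero fun α hα => ?_
            obtain ⟨h1, h2⟩ := Finset.mem_filter.1 hα
            rw [(hb _ h1).2 l _ hβ, if_neg, mul_zero]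
            rintro rfl
            exact hlt h2
          · have := mono_hom (B := B) x.c (r - (i + j + k)) i j k
            rwa [show r - (i + j + k) + i + j + k = r by omega] at this
    rw [← hW, ← sum_homogeneousComponent a]
    exact W.sum_mem fun d _ => key d _ (homogeneousComponent_isHomogeneous d a)

end Pool.Agent.P.MP_2b2d3b_ag
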