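import Pool.Agent.P.MP_2b2d3b_ag.BoxA
import Pool.Agent.P.MP_2b2d3b_ag.BoxB

/-!
Package Box, assembled.
-/

namespace Pool.Agent.P.MP_2b2d3b_ag

theorem box : S_Box := fun B _ x hx =>
  ⟨boxA1 x hx, boxA2 x hx, boxA3 x hx, boxB4 B x hx, boxB5 B x hx, boxB6 B x hx,
    fun B' _ φ a => boxA7 x hx B' φ a, fun h1 h2 m1 m2 a => boxA8 x hx h1 h2 m1 m2 a⟩

end Pool.Agent.P.MP_2b2d3b_ag
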