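import Pool.Agent.P.MP_2b2d3b_ag.Bas

/-!
Package BoxA: regular sequences and the elementary properties of the global residue.
-/

set_option maxSynthPendingDepth 3

namespace Pool.Agent.P.MP_2b2d3b_ag

open Polynomial

namespace BoxAP

section One

variable {R : Type} [CommRing R]

theorem tau_C_mul (f : R[X]) (n : ℕ) (r : R) (p : R[X]) : tau f n (C r * p) = r * tau f n p := by
  rw [← smul_eq_C_mul, map_smul, smul_eq_mul]

theorem tau_mul_mul {f h : R[X]} (hf : f.Monic) (hh : h.Monic) {n : ℕ} (hn : f.natDegree = n + 1)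
    (q : R[X]) : tau (f * h) (n + h.natDegree) (h * q) = tau f n q := by
  nontriviality R
  have h1 : (h * q) %ₘ (f * h) = (q %ₘ f) * h := by
    refine (div_modByMonic_unique (q /ₘ f) _ (hf.mul hh) ⟨?_, ?_⟩).2
    · linear_combination h * modByMonic_add_div q f
    · rw [hh.degree_mul, hh.degree_mul]
      exact WithBot.add_lt_add_right (degree_eq_bot.not.2 hh.ne_zero) (degree_modByMonic_lt q hf)
  have h2 : (q %ₘ f).natDegree ≤ n := by
    have := natDegree_modByMonic_lt q hf (by rintro rfl; simp at hn)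
    omega
  rw [tau_apply, tau_apply, h1, coeff_mul_add_eq_of_natDegree_le h2 le_rfl, hh.coeff_natDegree,
    mul_one]

theorem C_dvd_of_monic {m : R[X]} (hm : m.Monic) (v : R) (a s : R[X]) (h : m * a = C v * s) :
    C v ∣ a := by
  have h1 := congrArg (map (Ideal.Quotient.mk (Ideal.span {v}))) h
  rw [Polynomial.map_mul, Polynomial.map_mul, map_C,
    Ideal.Quotient.eq_zero_iff_mem.2 (Ideal.mem_span_singleton_self v), C_0, zero_mul,
    (hm.map _).mul_right_eq_zero_iff] at h1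
  rw [C_dvd_iff_dvd_coeff]
  intro n
  have := congrArg (fun p => coeff p n) h1
  simp only [coeff_map, coeff_zero] at this
  exact Ideal.mem_span_singleton.1 (Ideal.Quotient.eq_zero_iff_mem.1 this)

theorem reg1 {f : R[X][X][X]} (hf : f.Monic) {a1 : R[X]} (h1 : a1.Monic) {p r : R[X][X][X]}
    (e : C (C a1) * p = f * r) : ∃ r', p = f * r' := by
  obtain ⟨r', s', h⟩ := cancel_mod hf (u := C a1) (v := 0) (p := p) (r := r) (s := 0)
    (fun a s h => by
      rw [zero_mul] at h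
      rw [zero_dvd_iff]
      ext1 n
      have := congrArg (fun p => coeff p n) h
      simp only [coeff_C_mul, coeff_zero] at this
      exact h1.mul_right_eq_zero_iff.1 this) (by simpa using e)
  exact ⟨r', by simpa using h⟩

theorem reg2 {f : R[X][X][X]} (hf : f.Monic) {m : R[X][X]} (hm : m.Monic) (a1 : R[X])
    {p r s : R[X][X][X]} (e : C m * p = f * r + C (C a1) * s) :
    ∃ r' s', p = f * r' + C (C a1) * s' :=
  cancel_mod hf (C_dvd_of_monic hm a1) e

end One

variable {B : Type} [CommRing B] {R : Type} [CommRing R] [Algebra B R]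

/-- the coordinates `z = x₀, y = x₁, x = x₂` with `wc` sent to `ω` -/
noncomputable def evw (B : Type) [CommRing B] {R : Type} [CommRing R] [Algebra B R] (ω : R)
    (c : ℕ) : Pol B →ₐ[B] R[X][X][X] :=
  MvPolynomial.aeval (![X, C X, C (C X), C (C (C ω)) - (c : R[X][X][X]) * C (C X) -
    (c : R[X][X][X]) ^ 2 * C X - (c : R[X][X][X]) ^ 3 * X] : Fin 4 → R[X][X][X])

theorem aff_eq (B : Type) [CommRing B] (c : ℕ) : aff B c = evw B (1 : B) c := by
  simp [aff, evw]

theorem evw_C (ω : R) (c : ℕ) (b : B) :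
    evw B ω c (MvPolynomial.C b) = C (C (C (algebraMap B R b))) := by
  simp [evw]

theorem evw_X0 (ω : R) (c : ℕ) : evw B ω c (MvPolynomial.X 0) = X := by simp [evw]

theorem evw_X1 (ω : R) (c : ℕ) : evw B ω c (MvPolynomial.X 1) = C X := by simp [evw]

theorem evw_X2 (ω : R) (c : ℕ) : evw B ω c (MvPolynomial.X 2) = C (C X) := by simp [evw]

theorem evw_X3 (ω : R) (c : ℕ) : evw B ω c (MvPolynomial.X 3) = C (C (C ω)) -
    (c : R[X][X][X]) * C (C X) - (c : R[X][X][X]) ^ 2 * C X - (c : R[X][X][X]) ^ 3 * X := by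
  simp [evw]

theorem evw_wc (ω : R) (c : ℕ) : evw B ω c (wc B c) = C (C (C ω)) := by
  simp only [wc, map_add, map_mul, map_pow, map_natCast, evw_X0, evw_X1, evw_X2, evw_X3]
  ring

/-- the polynomial `ω ^ n * p (X / ω)` -/
noncomputable def hz (ω : R) (p : B[X]) (n : ℕ) : R[X] :=
  ∑ k ∈ Finset.range (n + 1), C (algebraMap B R (p.coeff k) * ω ^ (n - k)) * X ^ k

theorem coeff_hz (ω : R) (p : B[X]) (n k : ℕ) :
    (hz ω p n).coeff k = if k ≤ n then algebraMap B R (p.coeff k) * ω ^ (n - k) else 0 := by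
  simp only [hz, finsetSum_coeff, coeff_C_mul_X_pow, Finset.sum_ite_eq, Finset.mem_range,
    Nat.lt_succ_iff]

theorem natDegree_hz (ω : R) (p : B[X]) (n : ℕ) : (hz ω p n).natDegree ≤ n :=
  natDegree_le_iff_coeff_eq_zero.2 fun k hk => by rw [coeff_hz, if_neg (by omega)]

theorem hz_monic (ω : R) {p : B[X]} {n : ℕ} (hp : p.Monic) (hn : p.natDegree = n) :
    (hz ω p n).Monic := by
  refine monic_of_natDegree_le_of_coeff_eq_one n (natDegree_hz ω p n) ?_
  rw [coeff_hz, if_pos le_rfl, ← hn, hp.coeff_natDegree]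
  simp

theorem hz_one {p : B[X]} {n : ℕ} (hn : p.natDegree ≤ n) : hz (1 : B) p n = p := by
  ext k
  rw [coeff_hz]
  split_ifs with h
  · simp
  · exact (coeff_eq_zero_of_natDegree_lt (by omega)).symm

theorem evw_hm2 (ω : R) (c : ℕ) (p : B[X]) (n : ℕ) :
    evw B ω c (hm (MvPolynomial.X 2) (wc B c) p n) = C (C (hz ω p n)) := by
  simp only [hm_eq_sum, hz, map_sum, map_mul, map_pow, evw_C, evw_X2, evw_wc]
  exact Finset.sum_congr rfl fun k _ => by ring

theorem evw_hm1 (ω : R) (c : ℕ) (p : B[X]) (n : ℕ) :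
    evw B ω c (hm (MvPolynomial.X 1) (wc B c) p n) = C ((hz ω p n).map C) := by
  simp only [hm_eq_sum, hz, map_sum, map_mul, map_pow, evw_C, evw_X1, evw_wc,
    Polynomial.map_sum, Polynomial.map_mul, Polynomial.map_pow, map_C, map_X]
  exact Finset.sum_congr rfl fun k _ => by ring

/-- degree and top coefficient in the variable `z` -/
theorem evw_top (ω : R) (c : ℕ) {a : Pol B} {d : ℕ} (ha : a.IsHomogeneous d) :
    (evw B ω c a).natDegree ≤ d ∧ (evw B ω c a).coeff d =
      C (C (algebraMap B R (MvPolynomial.eval ![1, 0, 0, -(c : B) ^ 3] a))) := by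
  have hX : ∀ i, (evw B ω c (MvPolynomial.X i)).natDegree ≤ 1 ∧
      (evw B ω c (MvPolynomial.X i)).coeff 1 =
        C (C (algebraMap B R ((![1, 0, 0, -(c : B) ^ 3] : Fin 4 → B) i))) := by
    intro i
    fin_cases i
    · simp [evw_X0, natDegree_X_le]
    · simp [evw_X1]
    · simp [evw_X2]
    · have e : evw B ω c (MvPolynomial.X 3) = C (-(c : R[X][X]) ^ 3) * X +
          C (C (C ω) - (c : R[X][X]) * C X - (c : R[X][X]) ^ 2 * X) := by
        rw [evw_X3]
        simp only [map_sub, map_mul, map_pow, map_neg, map_natCast]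
        ring
      refine ⟨?_, ?_⟩
      · change (evw B ω c (MvPolynomial.X 3)).natDegree ≤ 1
        rw [e]
        exact natDegree_linear_le
      · change (evw B ω c (MvPolynomial.X 3)).coeff 1 = _
        rw [e, coeff_add, coeff_C_mul, coeff_X_one, coeff_C]
        simp
  have := hom_induction
    ((evw B ω c : Pol B →+* R[X][X][X]).prod (MvPolynomial.eval ![1, 0, 0, -(c : B) ^ 3]))
    (fun d (a : R[X][X][X] × B) => a.1.natDegree ≤ d ∧ a.1.coeff d = C (C (algebraMap B R a.2)))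
    (fun _ => by simp)
    (fun d a b ha hb => ⟨natDegree_add_le_of_degree_le ha.1 hb.1, by
      simp only [Prod.fst_add, Prod.snd_add, coeff_add, ha.2, hb.2, map_add]⟩)
    (fun b => by simp)
    (fun d a i ha => by
      simp only [Prod.fst_mul, Prod.snd_mul, RingHom.prod_apply, RingHom.coe_coe,
        MvPolynomial.eval_X]
      exact ⟨natDegree_mul_le_of_le ha.1 (hX i).1, by
        rw [coeff_mul_add_eq_of_natDegree_le ha.1 (hX i).1, ha.2, (hX i).2, map_mul, map_mul,
          map_mul]⟩) ha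
  simpa using this

/-- the monic equation of the surface -/
noncomputable def fw (x : Box B) (ω : R) : R[X][X][X] :=
  C (C (C (algebraMap B R x.u))) * evw B ω x.c x.F

theorem fw_top {x : Box B} (h : x.Ok) (ω : R) :
    (fw x ω).natDegree ≤ 6 ∧ (fw x ω).coeff 6 = 1 := by
  refine ⟨(natDegree_C_mul_le _ _).trans (evw_top ω x.c h.hF).1, ?_⟩
  rw [fw, coeff_C_mul, (evw_top ω x.c h.hF).2, ← map_mul, ← map_mul, ← map_mul, h.hu]
  simp

theorem fw_monic {x : Box B} (h : x.Ok) (ω : R) : (fw x ω).Monic :=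
  monic_of_natDegree_le_of_coeff_eq_one 6 (fw_top h ω).1 (fw_top h ω).2

theorem evw_F {x : Box B} (h : x.Ok) (ω : R) : evw B ω x.c x.F = fw x ω *
    C (C (C (algebraMap B R (MvPolynomial.eval ![1, 0, 0, -(x.c : B) ^ 3] x.F)))) := by
  have : (C (C (C (algebraMap B R x.u))) : R[X][X][X]) *
      C (C (C (algebraMap B R (MvPolynomial.eval ![1, 0, 0, -(x.c : B) ^ 3] x.F)))) = 1 := by
    rw [← map_mul, ← map_mul, ← map_mul, ← map_mul, h.hu]
    simp
  rw [fw]
  linear_combination (-evw B ω x.c x.F) * this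

theorem fw_eq (x : Box B) (ω : R) : fw x ω = evw B ω x.c (MvPolynomial.C x.u * x.F) := by
  rw [map_mul, evw_C, fw]

/-- the way back -/
noncomputable def sec (ρ : R →+* Pol B) : R[X][X][X] →+* Pol B :=
  eval₂RingHom (eval₂RingHom (eval₂RingHom ρ (MvPolynomial.X 2)) (MvPolynomial.X 1))
    (MvPolynomial.X 0)

theorem sec_evw (ρ : R →+* Pol B) (hρ : ∀ b, ρ (algebraMap B R b) = MvPolynomial.C b) (ω : R)
    (c : ℕ) (a : Pol B) : sec ρ (evw B ω c a) - a ∈ Ideal.span {ρ ω - wc B c} := by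
  refine sub_mem_of_X ((sec ρ).comp (evw B ω c : Pol B →+* R[X][X][X])) (RingHom.id _) _
    (fun b => by simp [sec, hρ]) (fun i => ?_) a
  fin_cases i
  · simp [evw_X0, sec]
  · simp [evw_X1, sec]
  · simp [evw_X2, sec]
  · refine Ideal.mem_span_singleton'.2 ⟨1, ?_⟩
    change _ = sec ρ (evw B ω c (MvPolynomial.X 3)) - MvPolynomial.X 3
    simp only [evw_X3, map_sub, map_mul, map_pow, map_natCast]
    simp only [sec, wc, coe_eval₂RingHom, eval₂_C, eval₂_X]
    ring

/-- transfer of the first regularity statement -/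
theorem gen1 {x : Box B} (h : x.Ok) (ρ : R →+* Pol B)
    (hρ : ∀ b, ρ (algebraMap B R b) = MvPolynomial.C b) (ω : R) {k : Pol B}
    (hk : evw B ω x.c k = 0) (hk' : ρ ω - wc B x.c ∈ Ideal.span {k}) (a : Pol B)
    (ha : x.g1 * a ∈ Ideal.span {x.F, k}) : a ∈ Ideal.span {x.F, k} := by
  obtain ⟨r, s, e⟩ := Ideal.mem_span_pair.1 ha
  have e1 := congrArg (evw B ω x.c) e
  rw [map_add, map_mul, map_mul, map_mul, hk, mul_zero, add_zero, Box.g1, evw_hm2,
    evw_F h] at e1
  obtain ⟨r', e2⟩ := reg1 (fw_monic h ω) (hz_monic ω h.m1 h.d1) (p := evw B ω x.c a)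
    (r := C (C (C (algebraMap B R (MvPolynomial.eval ![1, 0, 0, -(x.c : B) ^ 3] x.F)))) *
      evw B ω x.c r) (by linear_combination -e1)
  have hle : Ideal.span {ρ ω - wc B x.c} ≤ Ideal.span {x.F, k} :=
    (Ideal.span_singleton_le_iff_mem _).2
      (Ideal.span_mono (by simp) hk')
  have e3 := congrArg (sec ρ) e2
  rw [map_mul, fw_eq] at e3
  have m1 := hle (sec_evw ρ hρ ω x.c a)
  have m2 := hle (sec_evw ρ hρ ω x.c (MvPolynomial.C x.u * x.F))
  have m3 : x.F ∈ Ideal.span {x.F, k} := Ideal.subset_span (by simp)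
  have := Ideal.sub_mem _ (Ideal.add_mem _ (Ideal.mul_mem_right (sec ρ r') _ m2)
    (Ideal.mul_mem_left _ (MvPolynomial.C x.u * sec ρ r') m3)) m1
  convert this using 1
  linear_combination e3

/-- transfer of the second regularity statement -/
theorem gen2 {x : Box B} (h : x.Ok) (ρ : R →+* Pol B)
    (hρ : ∀ b, ρ (algebraMap B R b) = MvPolynomial.C b) (ω : R) {k : Pol B}
    (hk : evw B ω x.c k = 0) (hk' : ρ ω - wc B x.c ∈ Ideal.span {k}) {g : Pol B} {m : R[X][X]}
    (hm : m.Monic) (hg : evw B ω x.c g = C m) (a : Pol B)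
    (ha : g * a ∈ Ideal.span {x.F, x.g1, k}) : a ∈ Ideal.span {x.F, x.g1, k} := by
  obtain ⟨r, y, hy, e⟩ := Ideal.mem_span_insert.1 ha
  obtain ⟨s, t, rfl⟩ := Ideal.mem_span_pair.1 hy
  have e1 := congrArg (evw B ω x.c) e
  have hg1 : evw B ω x.c x.g1 = C (C (hz ω x.a1 (x.n1 + 1))) := evw_hm2 _ _ _ _
  rw [map_add, map_add, map_mul, map_mul, map_mul, map_mul, hk, mul_zero, add_zero, hg, hg1,
    evw_F h] at e1
  obtain ⟨r', s', e2⟩ := reg2 (fw_monic h ω) hm (hz ω x.a1 (x.n1 + 1)) (p := evw B ω x.c a)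
    (r := C (C (C (algebraMap B R (MvPolynomial.eval ![1, 0, 0, -(x.c : B) ^ 3] x.F)))) *
      evw B ω x.c r) (s := evw B ω x.c s) (by linear_combination e1)
  have hle : Ideal.span {ρ ω - wc B x.c} ≤ Ideal.span {x.F, x.g1, k} :=
    (Ideal.span_singleton_le_iff_mem _).2
      (Ideal.span_mono (by simp) hk')
  have e3 := congrArg (sec ρ) e2
  rw [map_add, map_mul, map_mul, fw_eq, ← hg1] at e3
  have m1 := hle (sec_evw ρ hρ ω x.c a)
  have m2 := hle (sec_evw ρ hρ ω x.c (MvPolynomial.C x.u * x.F))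
  have m2' := hle (sec_evw ρ hρ ω x.c x.g1)
  have m3 : x.F ∈ Ideal.span {x.F, x.g1, k} := Ideal.subset_span (by simp)
  have m4 : x.g1 ∈ Ideal.span {x.F, x.g1, k} := Ideal.subset_span (by simp)
  have := Ideal.sub_mem _ (Ideal.add_mem _ (Ideal.add_mem _ (Ideal.mul_mem_right (sec ρ r') _ m2)
    (Ideal.mul_mem_left _ (MvPolynomial.C x.u * sec ρ r') m3))
    (Ideal.add_mem _ (Ideal.mul_mem_right (sec ρ s') _ m2')
      (Ideal.mul_mem_left _ (sec ρ s') m4))) m1
  convert this using 1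
  linear_combination e3

theorem mu_apply (x : Box B) (a : Pol B) : x.mu a =
    tau x.a1 x.n1 (tau (x.a2.map C) x.n2 (tau (fw x (1 : B)) 5 (evw B (1 : B) x.c a))) := by
  rw [fw, ← aff_eq]
  rfl

theorem aff_hm2 (c : ℕ) {p : B[X]} {n : ℕ} (hn : p.natDegree ≤ n) :
    evw B (1 : B) c (hm (MvPolynomial.X 2) (wc B c) p n) = C (C p) := by
  rw [evw_hm2, hz_one hn]

theorem aff_hm1 (c : ℕ) {p : B[X]} {n : ℕ} (hn : p.natDegree ≤ n) :
    evw B (1 : B) c (hm (MvPolynomial.X 1) (wc B c) p n) = C (p.map C) := by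
  rw [evw_hm1, hz_one hn]

theorem evw_map {B' : Type} [CommRing B'] (φ : B →+* B') (c : ℕ) (a : Pol B) :
    evw B' (1 : B') c (MvPolynomial.map φ a) =
      (evw B (1 : B) c a).map (mapRingHom (mapRingHom φ)) := by
  have : (evw B' (1 : B') c : Pol B' →+* B'[X][X][X]).comp (MvPolynomial.map φ) =
      (mapRingHom (mapRingHom (mapRingHom φ))).comp (evw B (1 : B) c : Pol B →+* B[X][X][X]) := by
    apply MvPolynomial.ringHom_ext
    · intro b; simp
    · intro i
      fin_cases i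
      · simp [evw_X0]
      · simp [evw_X1]
      · simp [evw_X2]
      · simp [evw_X3]
  exact RingHom.congr_fun this a

end BoxAP

open BoxAP

theorem boxAff : S_BoxAff := by
  intro B _ x h
  have hk : evw B (1 : B) x.c (wc B x.c - 1) = 0 := by simp [evw_wc]
  have hk' : MvPolynomial.C (1 : B) - wc B x.c ∈ Ideal.span {wc B x.c - 1} :=
    Ideal.mem_span_singleton'.2 ⟨-1, by simp⟩
  refine ⟨gen1 h MvPolynomial.C (fun _ => rfl) 1 hk hk',
    gen2 h MvPolynomial.C (fun _ => rfl) 1 hk hk' (h.m2.map C) (aff_hm1 _ h.d2.le),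
    fun κ y => gen2 h MvPolynomial.C (fun _ => rfl) 1 hk hk'
      (monic_X_sub_C (C κ * X + C y)) ?_⟩
  simp only [map_sub, map_add, map_mul, evw_C, evw_X1, evw_X2]
  simp only [Algebra.algebraMap_self, RingHom.id_apply]
  ring

variable {B : Type} [CommRing B]

theorem boxA1 (x : Box B) (h : x.Ok) (a : Pol B) (ha : x.g1 * a ∈ Ideal.span {x.F}) :
    a ∈ Ideal.span {x.F} := by
  have := gen1 h (R := B[X]) (eval₂RingHom MvPolynomial.C (wc B x.c)) (fun b => by simp) X (k := 0)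
    (map_zero _) (by simp) a (Ideal.span_mono (by simp) ha)
  obtain ⟨r, s, e⟩ := Ideal.mem_span_pair.1 this
  exact Ideal.mem_span_singleton'.2 ⟨r, by simpa using e⟩

theorem boxA2 (x : Box B) (h : x.Ok) (a : Pol B) (ha : x.g2 * a ∈ Ideal.span {x.F, x.g1}) :
    a ∈ Ideal.span {x.F, x.g1} := by
  have := gen2 h (R := B[X]) (eval₂RingHom MvPolynomial.C (wc B x.c)) (fun b => by simp) X (k := 0)
    (map_zero _) (by simp) ((hz_monic X h.m2 h.d2).map C) (evw_hm1 _ _ _ _) a
    (Ideal.span_mono (Set.insert_subset_insert (by simp)) ha)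
  obtain ⟨r, y, hy, e⟩ := Ideal.mem_span_insert.1 this
  obtain ⟨s, t, rfl⟩ := Ideal.mem_span_pair.1 hy
  exact Ideal.mem_span_pair.2 ⟨r, s, by simpa using e.symm⟩

theorem boxA3 (x : Box B) (h : x.Ok) (a : Pol B) :
    x.mu (x.F * a) = 0 ∧ x.mu (x.g1 * a) = 0 ∧ x.mu (x.g2 * a) = 0 ∧
      x.mu (wc B x.c * a) = x.mu a := by
  refine ⟨?_, ?_, ?_, ?_⟩
  · rw [mu_apply, map_mul, evw_F h, mul_assoc, tau_mul_self (fw_monic h 1), map_zero, map_zero]
  · rw [mu_apply, map_mul, Box.g1, aff_hm2 _ h.d1.le, tau_C_mul, tau_C_mul, tau_mul_self h.m1]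
  · rw [mu_apply, map_mul, Box.g2, aff_hm1 _ h.d2.le, tau_C_mul, tau_mul_self (h.m2.map C),
      map_zero]
  · rw [mu_apply, mu_apply, map_mul, evw_wc]
    simp

theorem boxA7 (x : Box B) (h : x.Ok) (B' : Type) [CommRing B'] (φ : B →+* B') (a : Pol B) :
    (x.map φ).mu (MvPolynomial.map φ a) = φ (x.mu a) := by
  have e1 : fw (x.map φ) (1 : B') = (fw x (1 : B)).map (mapRingHom (mapRingHom φ)) := by
    rw [fw_eq, fw_eq, ← evw_map, map_mul (MvPolynomial.map φ), MvPolynomial.map_C]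
    rfl
  have e2 : (x.a2.map φ).map C = (x.a2.map C).map (mapRingHom φ) := by
    rw [Polynomial.map_map, Polynomial.map_map]
    congr 1
    ext b
    simp
  rw [mu_apply, mu_apply, e1]
  change tau (x.a1.map φ) x.n1 (tau ((x.a2.map φ).map C) x.n2
    (tau _ 5 (evw B' (1 : B') x.c (MvPolynomial.map φ a)))) = _
  rw [evw_map, tau_map _ (fw_monic h 1), e2, coe_mapRingHom, tau_map _ (h.m2.map C),
    coe_mapRingHom, tau_map _ h.m1]

theorem boxA8 (x : Box B) (h : x.Ok) (h1 h2 : B[X]) (m1 : h1.Monic) (m2 : h2.Monic) (a : Pol B) :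
    (x.mul h1 h2).mu (hm (MvPolynomial.X 2) (wc B x.c) h1 h1.natDegree *
      hm (MvPolynomial.X 1) (wc B x.c) h2 h2.natDegree * a) = x.mu a := by
  rw [mu_apply, mu_apply]
  change tau (x.a1 * h1) (x.n1 + h1.natDegree) (tau ((x.a2 * h2).map C) (x.n2 + h2.natDegree)
    (tau (fw x (1 : B)) 5 (evw B (1 : B) x.c _))) = _
  rw [map_mul (evw B (1 : B) x.c), map_mul (evw B (1 : B) x.c), aff_hm2 _ le_rfl, aff_hm1 _ le_rfl,
    mul_assoc, tau_C_mul, tau_C_mul,
    tau_C_mul, Polynomial.map_mul, ← natDegree_map_eq_of_injective C_injective h2,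
    tau_mul_mul (h.m2.map C) (m2.map C)
      (by rw [natDegree_map_eq_of_injective C_injective, h.d2]), tau_mul_mul h.m1 m1 h.d1]

end Pool.Agent.P.MP_2b2d3b_ag
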