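import Pool.Agent.P.MP_2b2d3b_ag.Gr

/-!
Pairings, functionals, local frames and pull backs of rank two bundles.
-/

namespace Pool.Agent.P.MP_2b2d3b_ag

open MvPolynomial

variable {F : Pol ℂ} {B : Type} [CommRing B] [Algebra ℂ B] {B' : Type} [CommRing B'] [Algebra ℂ B']

/-- the determinant pairing of a bundle -/
structure Pairing (E : Bundle F B) (ω : E.M →ₗ[Pol B] E.M →ₗ[Pol B] Rq F B) : Prop where
  alt : ∀ u, ω u u = 0
  hom : ∀ (d e : ℕ), ∀ u ∈ E.gr.piece d, ∀ v ∈ E.gr.piece e, ω u v ∈ HomR F B (d + e + 1)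
  unit : ∀ q : Ideal (Pol B), q.IsPrime → bc F B ∈ q → (∃ i, X i ∉ q) →
    ∃ (u v : E.M) (b : Pol B), b ∉ q ∧ ω u v = mq F B b

theorem Bundle.exists_pairing (E : Bundle F B) : ∃ ω, Pairing E ω := by
  obtain ⟨ω, h1, h2, h3⟩ := E.det
  exact ⟨ω, h1, h2, h3⟩

/-- a graded functional of shift `j` -/
def IsFun (E : Bundle F B) (j : ℕ) (s : E.M →ₗ[Pol B] Rq F B) : Prop :=
  ∀ d, ∀ u ∈ E.gr.piece d, s u ∈ HomR F B (d + j)

/-- local generators -/
def Gens (E : Bundle F B) (q : Ideal (Pol B)) (m1 m2 : E.M) : Prop :=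
  ∀ u, ∃ c ∉ q, ∃ α β : Pol B, c • u = α • m1 + β • m2

/-- torsion elements -/
def Tor (B : Type) [CommRing B] {M : Type} [AddCommGroup M] [Module (Pol B) M] (u : M) : Prop :=
  ∀ i : Fin 4, ∃ k : ℕ, (X i : Pol B) ^ k • u = 0

/-- semilinear maps -/
def Semi (φ : B →ₐ[ℂ] B') {M M' : Type} [AddCommGroup M] [Module (Pol B) M] [AddCommGroup M']
    [Module (Pol B') M'] (θ : M →+ M') : Prop :=
  ∀ (a : Pol B) (u : M), θ (a • u) = map (φ : B →+* B') a • θ u

theorem Bundle.exists_gens (E : Bundle F B) {q : Ideal (Pol B)} (hq : q.IsPrime)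
    (hi : ∃ i, X i ∉ q) : ∃ m1 m2, Gens E q m1 m2 := by
  obtain ⟨m1, m2, h, -⟩ := E.rankTwo.locFree q hq hi
  exact ⟨m1, m2, h⟩

theorem Bundle.kill (E : Bundle F B) {a : Pol B} (ha : mq F B a = 0) (u : E.M) : a • u = 0 := by
  obtain ⟨c, rfl⟩ := Ideal.mem_span_singleton'.mp (mq_zero.mp ha)
  rw [mul_smul, E.rankTwo.kill, smul_zero]

theorem Bundle.smul_congr (E : Bundle F B) {a b : Pol B} (h : mq F B a = mq F B b) (u : E.M) :
    a • u = b • u := by
  rw [← sub_eq_zero, ← sub_smul]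
  exact E.kill (by rw [map_sub, h, sub_self]) u

theorem not_mem_mul {R : Type} [CommRing R] {q : Ideal R} (hq : q.IsPrime) {a b : R} (ha : a ∉ q)
    (hb : b ∉ q) : a * b ∉ q := fun h => (hq.mem_or_mem h).elim ha hb

theorem mem_of_mq {q : Ideal (Pol B)} (hF : bc F B ∈ q) {a b : Pol B}
    (h : mq F B a = mq F B b) (hb : b ∈ q) : a ∈ q := by
  have := (Ideal.span_singleton_le_iff_mem q).mpr hF (mq_eq.mp h)
  simpa using q.add_mem this hb

theorem alt_skew {M : Type} [AddCommGroup M] [Module (Pol B) M]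
    {ω : M →ₗ[Pol B] M →ₗ[Pol B] Rq F B} (h : ∀ u, ω u u = 0) (u v : M) : ω v u = -ω u v := by
  have := h (u + v)
  simp only [map_add, LinearMap.add_apply, h u, h v] at this
  linear_combination this

theorem alt_frame {M : Type} [AddCommGroup M] [Module (Pol B) M]
    {ω : M →ₗ[Pol B] M →ₗ[Pol B] Rq F B} (h : ∀ u, ω u u = 0) {m1 m2 u v : M}
    {c α β c' α' β' : Pol B} (e : c • u = α • m1 + β • m2) (e' : c' • v = α' • m1 + β' • m2) :
    mq F B c * mq F B c' * ω u v =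
      (mq F B α * mq F B β' - mq F B β * mq F B α') * ω m1 m2 := by
  have : ω (c • u) (c' • v) = ω (α • m1 + β • m2) (α' • m1 + β' • m2) := by rw [e, e']
  simp only [map_add, map_smul, LinearMap.add_apply, LinearMap.smul_apply, h, smul_mq,
    alt_skew h m1 m2] at this
  linear_combination this

section Pairing

variable {E : Bundle F B} {ω : E.M →ₗ[Pol B] E.M →ₗ[Pol B] Rq F B}

theorem Pairing.skew (h : Pairing E ω) (u v : E.M) : ω v u = -ω u v := alt_skew h.alt u v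

theorem Pairing.isFun (h : Pairing E ω) {t : E.M} {d : ℕ} (ht : t ∈ E.gr.piece d) :
    IsFun E (d + 1) (ω t) := fun e u hu => by
  have := h.hom d e t ht u hu
  rwa [show d + e + 1 = e + (d + 1) by omega] at this

theorem Pairing.unit_gens (h : Pairing E ω) {q : Ideal (Pol B)} (hq : q.IsPrime)
    (hF : bc F B ∈ q) (hi : ∃ i, X i ∉ q) {m1 m2 : E.M} (hg : Gens E q m1 m2) :
    ∃ b ∉ q, ω m1 m2 = mq F B b := by
  obtain ⟨u, v, b, hb, e⟩ := h.unit q hq hF hi
  obtain ⟨c, hc, α, β, e1⟩ := hg u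
  obtain ⟨c', hc', α', β', e2⟩ := hg v
  obtain ⟨b', hb'⟩ := mq_surj (ω m1 m2)
  refine ⟨b', fun hq' => ?_, hb'.symm⟩
  have := alt_frame h.alt e1 e2
  rw [e, ← hb'] at this
  simp only [← map_mul, ← map_sub] at this
  exact not_mem_mul hq (not_mem_mul hq hc hc') hb (mem_of_mq hF this (q.mul_mem_left _ hq'))

/-- an element killed by all values of the pairing vanishes -/
theorem Pairing.zero_of_mul (hR : Rg F) (h : Pairing E ω) (φ : B →ₐ[ℂ] B') {r : Rq F B'}
    (hr : ∀ u v, mapR F φ (ω u v) * r = 0) : r = 0 :=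
  hR.zero_of_loc fun q hq hF h3 => by
    obtain ⟨u, v, b, hb, e⟩ := h.unit (q.comap (map (φ : B →+* B'))) (Ideal.comap_isPrime _ _)
      (by rwa [Ideal.mem_comap, map_bc]) ⟨3, by simpa using h3⟩
    exact ⟨_, hb, by rw [← mapR_mq, ← e, hr]⟩

theorem Pairing.zero_of_mul' (hR : Rg F) (h : Pairing E ω) {r : Rq F B}
    (hr : ∀ u v, ω u v * r = 0) : r = 0 :=
  h.zero_of_mul hR (AlgHom.id ℂ B) fun u v => by rw [mapR_id, hr]

/-- the Pluecker relation for a semilinear functional -/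
theorem pluecker_semi (hR : Rg F) (h : ∀ u, ω u u = 0) (φ : B →ₐ[ℂ] B') {σ : E.M →+ Rq F B'}
    (hσ : Semi φ σ) (u v w : E.M) :
    σ u * mapR F φ (ω v w) + σ v * mapR F φ (ω w u) + σ w * mapR F φ (ω u v) = 0 :=
  hR.zero_of_loc fun q hq hF h3 => by
    have hq' : (q.comap (map (φ : B →+* B'))).IsPrime := Ideal.comap_isPrime _ _
    obtain ⟨m1, m2, hg⟩ := E.exists_gens hq' ⟨3, by simpa using h3⟩
    obtain ⟨c1, h1, α1, β1, e1⟩ := hg u
    obtain ⟨c2, h2, α2, β2, e2⟩ := hg v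
    obtain ⟨c3, h3, α3, β3, e3⟩ := hg w
    refine ⟨_, not_mem_mul hq' (not_mem_mul hq' h1 h2) h3, ?_⟩
    have f1 := congrArg σ e1
    have f2 := congrArg σ e2
    have f3 := congrArg σ e3
    rw [map_add, hσ, hσ, hσ, smul_mq, smul_mq, smul_mq] at f1 f2 f3
    have g1 := congrArg (mapR F φ) (alt_frame h e2 e3)
    have g2 := congrArg (mapR F φ) (alt_frame h e3 e1)
    have g3 := congrArg (mapR F φ) (alt_frame h e1 e2)
    simp only [map_mul, map_sub, mapR_mq] at g1 g2 g3 ⊢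
    linear_combination (mq F B' (map (φ : B →+* B') c1) * σ u) * g1 +
      (mq F B' (map (φ : B →+* B') c2) * σ v) * g2 + (mq F B' (map (φ : B →+* B') c3) * σ w) * g3 +
      ((mq F B' (map (φ : B →+* B') α2) * mq F B' (map (φ : B →+* B') β3) -
        mq F B' (map (φ : B →+* B') β2) * mq F B' (map (φ : B →+* B') α3)) *
          mapR F φ (ω m1 m2)) * f1 +
      ((mq F B' (map (φ : B →+* B') α3) * mq F B' (map (φ : B →+* B') β1) -
        mq F B' (map (φ : B →+* B') β3) * mq F B' (map (φ : B →+* B') α1)) *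
          mapR F φ (ω m1 m2)) * f2 +
      ((mq F B' (map (φ : B →+* B') α1) * mq F B' (map (φ : B →+* B') β2) -
        mq F B' (map (φ : B →+* B') β1) * mq F B' (map (φ : B →+* B') α2)) *
          mapR F φ (ω m1 m2)) * f3

theorem semi_id {M M' : Type} [AddCommGroup M] [Module (Pol B) M] [AddCommGroup M']
    [Module (Pol B) M'] (s : M →ₗ[Pol B] M') : Semi (AlgHom.id ℂ B) s.toAddMonoidHom :=
  fun a u => by rw [map_algId]; exact s.map_smul a u

/-- the Pluecker relation -/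
theorem pluecker (hR : Rg F) (h : ∀ u, ω u u = 0) (s : E.M →ₗ[Pol B] Rq F B) (u v w : E.M) :
    s u * ω v w + s v * ω w u + s w * ω u v = 0 := by
  have := pluecker_semi hR h (AlgHom.id ℂ B) (semi_id s) u v w
  simp only [mapR_id] at this
  exact this

theorem Pairing.tor (h : Pairing E ω) {u : E.M} (hu : ∀ v, ω u v = 0) : Tor B u := fun i =>
  exists_pow_mem (LinearMap.ker (LinearMap.toSpanSingleton (Pol B) _ u)) (X i) fun q hq hi => by
    by_cases hF : bc F B ∈ q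
    · obtain ⟨m1, m2, hg⟩ := E.exists_gens hq ⟨i, hi⟩
      obtain ⟨b, hb, e⟩ := h.unit_gens hq hF ⟨i, hi⟩ hg
      obtain ⟨c, hc, α, β, e1⟩ := hg u
      have h1 := congrArg (fun x => ω x m2) e1
      have h2 := congrArg (fun x => ω x m1) e1
      simp only [map_add, map_smul, LinearMap.add_apply, LinearMap.smul_apply, hu, h.alt, smul_mq,
        h.skew m1 m2, e] at h1 h2
      refine ⟨b * c, ?_, not_mem_mul hq hb hc⟩
      change (b * c) • u = 0
      rw [mul_smul, e1, smul_add, ← mul_smul, ← mul_smul, E.kill, E.kill, add_zero]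
      · rw [map_mul]; linear_combination h2
      · rw [map_mul]; linear_combination -h1
    · exact ⟨_, E.rankTwo.kill u, hF⟩

theorem fun_tor (hR : Rg F) {M : Type} [AddCommGroup M] [Module (Pol B) M]
    (s : M →ₗ[Pol B] Rq F B) {u : M} (hu : Tor B u) : s u = 0 := by
  obtain ⟨k, hk⟩ := hu 3
  apply hR.nzdR (i := 3) (by decide) k
  rw [← smul_mq, ← map_smul, hk, map_zero]

/-- the vector form of the Pluecker relation -/
theorem Pairing.tor_pl (hR : Rg F) (h : Pairing E ω) {u v w : E.M} {a b c : Pol B}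
    (ha : ω v w = mq F B a) (hb : ω w u = mq F B b) (hc : ω u v = mq F B c) :
    Tor B (a • u + b • v + c • w) := h.tor fun x => by
  have := pluecker hR h.alt (ω.flip x) u v w
  simp only [LinearMap.flip_apply, ha, hb, hc] at this
  simp only [map_add, map_smul, LinearMap.add_apply, LinearMap.smul_apply, smul_mq]
  linear_combination this

theorem Pairing.exists_pow (h : Pairing E ω) (i : Fin 4) : ∃ k : ℕ,
    mq F B (X i ^ k) ∈ Ideal.span (Set.range fun p : E.M × E.M => ω p.1 p.2) :=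
  exists_pow_mem (Ideal.comap (mq F B) (Ideal.span (Set.range fun p : E.M × E.M => ω p.1 p.2)))
    (X i) fun q hq hi => by
    by_cases hF : bc F B ∈ q
    · obtain ⟨u, v, b, hb, e⟩ := h.unit q hq hF ⟨i, hi⟩
      exact ⟨b, Ideal.subset_span ⟨(u, v), e⟩, hb⟩
    · exact ⟨_, by rw [Ideal.mem_comap, mq_F]; exact Ideal.zero_mem _, hF⟩

/-- every alternating form is a multiple of the pairing -/
theorem Pairing.wedge (hR : Rg F) (h : Pairing E ω) {β : E.M →ₗ[Pol B] E.M →ₗ[Pol B] Rq F B}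
    (hβ : ∀ u, β u u = 0) : ∃ b, ∀ u v, β u v = b * ω u v := by
  have key : ∀ u v u' v', ω u' v' * β u v = β u' v' * ω u v := fun u v u' v' => by
    rw [← sub_eq_zero]
    refine hR.zero_of_loc fun q hq hF h3 => ?_
    obtain ⟨m1, m2, hg⟩ := E.exists_gens hq ⟨3, h3⟩
    obtain ⟨c1, h1, α1, β1, e1⟩ := hg u
    obtain ⟨c2, h2, α2, β2, e2⟩ := hg v
    obtain ⟨c3, h3, α3, β3, e3⟩ := hg u'
    obtain ⟨c4, h4, α4, β4, e4⟩ := hg v'
    refine ⟨_, not_mem_mul hq (not_mem_mul hq h1 h2) (not_mem_mul hq h3 h4), ?_⟩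
    have f1 := alt_frame h.alt e1 e2
    have f2 := alt_frame h.alt e3 e4
    have g1 := alt_frame hβ e1 e2
    have g2 := alt_frame hβ e3 e4
    simp only [map_mul]
    linear_combination (mq F B c1 * mq F B c2 * β u v) * f2 -
      (mq F B c3 * mq F B c4 * β u' v') * f1 +
      ((mq F B α3 * mq F B β4 - mq F B β3 * mq F B α4) * ω m1 m2) * g1 -
      ((mq F B α1 * mq F B β2 - mq F B β1 * mq F B α2) * ω m1 m2) * g2
  have ex : ∀ i : Fin 4, ∃ (k : ℕ) (b : Rq F B), ∀ u v,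
      mq F B (X i ^ k) * β u v = b * ω u v := fun i => by
    obtain ⟨k, hk⟩ := h.exists_pow i
    refine ⟨k, ?_⟩
    refine Submodule.span_induction (p := fun x _ => ∃ b, ∀ u v, x * β u v = b * ω u v)
      ?_ ⟨0, by simp⟩ ?_ ?_ hk
    · rintro _ ⟨p, rfl⟩
      exact ⟨_, fun u v => key u v p.1 p.2⟩
    · rintro x y - - ⟨b, hb⟩ ⟨c, hc⟩
      exact ⟨b + c, fun u v => by rw [add_mul, add_mul, hb, hc]⟩
    · rintro a x - ⟨b, hb⟩
      exact ⟨a * b, fun u v => by rw [smul_eq_mul, mul_assoc, mul_assoc, hb]⟩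
  obtain ⟨k, b2, h2⟩ := ex 2
  obtain ⟨l, b3, h3⟩ := ex 3
  obtain ⟨b, hb⟩ := hR.regR (k + l) (r := mq F B (X 3 ^ k) * b3) (r' := mq F B (X 2 ^ l) * b2) (by
    rw [← sub_eq_zero]
    refine h.zero_of_mul' hR fun u v => ?_
    simp only [pow_add, map_mul]
    linear_combination (mq F B (X 2 ^ l) * mq F B (X 3 ^ k) * mq F B (X 3 ^ l)) * h2 u v -
      (mq F B (X 2 ^ l) * mq F B (X 3 ^ k) * mq F B (X 2 ^ k)) * h3 u v)
  refine ⟨b, fun u v => ?_⟩
  rw [← sub_eq_zero]
  apply hR.nzdR (i := 3) (by decide) (k + l)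
  simp only [pow_add, map_mul] at hb ⊢
  linear_combination mq F B (X 3 ^ k) * h3 u v + ω u v * hb

end Pairing

end Pool.Agent.P.MP_2b2d3b_ag
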