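import Pool.Agent.P.MP_2b2d3b_ag.Pts

/-!
Choice of the section in the pencil and of the frame.
-/

namespace Pool.Agent.P.MP_2b2d3b_ag

open Polynomial

variable {F l : Pol ℂ} {v : Pt ℂ}

/-- the zero scheme has no point on the line `u = 0` -/
def Inf (I : Ideal (Pol ℂ)) (u : Pol ℂ) : Prop :=
  ∀ p : Fin 4 → ℂ, p ≠ 0 → (∀ b ∈ I, MvPolynomial.eval p b = 0) → MvPolynomial.eval p u ≠ 0

theorem exists_hom_not_mem {I P : Ideal (Pol ℂ)}
    (hI : ∀ b ∈ I, ∀ d, MvPolynomial.homogeneousComponent d b ∈ I) {b : Pol ℂ} (hb : b ∈ I)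
    (hb' : b ∉ P) : ∃ b ∈ I, ∃ d, b.IsHomogeneous d ∧ b ∉ P := by
  by_contra h
  push Not at h
  apply hb'
  rw [← MvPolynomial.sum_homogeneousComponent b]
  exact Ideal.sum_mem _ fun d _ => h _ (hI b hb d) d
    (MvPolynomial.homogeneousComponent_isHomogeneous _ _)

theorem exists_not_mem_finite {s : Set ℂ} (h : s.Finite) : ∃ t, t ∉ s := h.exists_notMem

theorem frame_inf (hF : GoodSextic F) (h : Frame F l v) (hp : (Ideal.span {F, l}).IsPrime)
    {I : Ideal (Pol ℂ)} (h1 : F ∈ I) (h2 : l ∈ I) {b : Pol ℂ} {d : ℕ} (hb : b ∈ I)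
    (hd : b.IsHomogeneous d) (hb' : b ∉ Ideal.span {F, l}) :
    ∃ v', Frame F l v' ∧ Inf I (linForm (v'.g' 0)) := by
  obtain ⟨x0, hx0⟩ := exists_not_mem_finite (((h.finite_zero hF (c := rho v.g b)
    fun e => hb' (h.mem_of_dvd hF.homog hp hd e)).image Prod.fst).insert 0)
  simp only [Set.mem_insert_iff, not_or] at hx0
  obtain ⟨v', hv', -, e⟩ := frame_change (F := F) h.e1 h.e3
    (T := !![1, x0⁻¹, 0, 0; 0, 1, 0, 0; 0, 0, 1, 0; 0, 0, 0, 1])
    (T' := !![1, -x0⁻¹, 0, 0; 0, 1, 0, 0; 0, 0, 1, 0; 0, 0, 0, 1])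
    (by ext i j; fin_cases i <;> fin_cases j <;> simp [Matrix.mul_apply, Fin.sum_univ_four])
    rfl (by simpa [Matrix.mul_apply, Fin.sum_univ_four] using right_ne_zero_of_mul_eq_one h.e2)
  refine ⟨v', hv', fun p hp0 hz e0 => ?_⟩
  have e1 : MvPolynomial.eval p (linForm (v.g' 1)) =
      MvPolynomial.eval p (linForm (v.g' 0)) * x0 := by
    simp only [e, linForm, Matrix.mul_apply, Fin.sum_univ_four, map_add, map_mul,
      MvPolynomial.eval_C, MvPolynomial.eval_X] at e0 ⊢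
    simp at e0
    have := mul_inv_cancel₀ hx0.1
    linear_combination (-x0) * e0 - (v.g' 1 0 * p 0 + v.g' 1 1 * p 1 + v.g' 1 2 * p 2 +
      v.g' 1 3 * p 3) * this
  have e2 := eq_cpt h.e1 (p := p) (by rw [h.e3]; exact hz l h2)
  rw [e1] at e2
  generalize MvPolynomial.eval p (linForm (v.g' 0)) = w at e2
  generalize MvPolynomial.eval p (linForm (v.g' 2)) = y at e2
  subst e2
  by_cases hw : w = 0
  · subst hw
    rw [zero_mul] at hz hp0
    exact hp0 (h.cpt_eq_zero hF.homog (hz F h1))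
  · obtain ⟨y, rfl⟩ : ∃ y', y = w * y' := ⟨w⁻¹ * y, by field_simp⟩
    have k1 := eval_cpt_scale (g := v.g) w 1 x0 y hF.homog
    have k2 := eval_cpt_scale (g := v.g) w 1 x0 y hd
    rw [mul_one, hz _ h1, eq_comm, mul_eq_zero] at k1
    rw [mul_one, hz _ hb, eq_comm, mul_eq_zero] at k2
    exact hx0.2 ⟨(x0, y), ⟨k1.resolve_left (pow_ne_zero _ hw),
      (evalEval_cpt _ _ _).trans (k2.resolve_left (pow_ne_zero _ hw))⟩, rfl⟩

/-- the zero scheme is curvilinear -/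
def Cur (I : Ideal (Pol ℂ)) (g : Matrix (Fin 4) (Fin 4) ℂ) : Prop :=
  ∀ x y, ∃ b ∈ I, MvPolynomial.eval (cpt g 1 x y) b ≠ 0 ∨ dir g 1 (cpt g 1 x y) b ≠ 0 ∨
    dir g 2 (cpt g 1 x y) b ≠ 0

theorem Pen.comp_snds {N : Submodule (Pol ℂ) (Pol ℂ × Pol ℂ)} (hN : Pen F l N) :
    ∀ b ∈ snds N, ∀ d, MvPolynomial.homogeneousComponent d b ∈ snds N := fun b hb d => by
  obtain ⟨a, ha⟩ := mem_snds.mp hb
  exact mem_snds.mpr ⟨_, hN.comp a b ha d⟩

theorem Pen.F_mem {N : Submodule (Pol ℂ) (Pol ℂ × Pol ℂ)} (hN : Pen F l N) : F ∈ snds N :=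
  mem_snds.mpr ⟨0, hN.base _ (zero_mem _) _ (left_mem _ _)⟩

theorem Pen.l_mem {N : Submodule (Pol ℂ) (Pol ℂ × Pol ℂ)} (hN : Pen F l N) : l ∈ snds N :=
  mem_snds.mpr ⟨0, hN.base _ (zero_mem _) _ (right_mem _ _)⟩

theorem exists_t (hF : GoodSextic F) (h : Frame F l v) {N : Submodule (Pol ℂ) (Pol ℂ × Pol ℂ)}
    (hN : Pen F l N) (hp : (Ideal.span {F, l}).IsPrime) (hinf : Inf (snds N) (linForm (v.g' 0))) :
    ∃ t : ℂ, (∀ a, (a, 0) ∈ lin 1 0 (-t) 1 N → a ∈ Ideal.span {F, l}) ∧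
      Inf (snds (lin 1 0 (-t) 1 N)) (linForm (v.g' 0)) ∧ Cur (snds (lin 1 0 (-t) 1 N)) v.g := by
  have hl : l.IsHomogeneous 1 := h.e3 ▸ linForm_hom _
  have hl0 : l ≠ 0 := h.e3 ▸ linForm_ne_zero h.e1 3
  have hmem : ∀ t a b, (a, b) ∈ N → b + MvPolynomial.C t * a ∈ snds (lin 1 0 (-t) 1 N) :=
    fun t a b hab => mem_snds.mpr ⟨a, mem_lin.mpr (by simpa using hab)⟩
  have f1 : {t : ℂ | ∃ a ∉ Ideal.span {F, l}, (a, -MvPolynomial.C t * a) ∈ N}.Finite := by
    refine Set.Subsingleton.finite ?_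
    rintro t ⟨a, ha, hta⟩ t' ⟨a', ha', hta'⟩
    by_contra hne
    have e := hN.det _ _ _ _ hta hta'
    have e' : a * a' * MvPolynomial.C (t - t') ∈ Ideal.span {F, l} := by
      convert e using 1; rw [map_sub]; ring
    rcases hp.mem_or_mem e' with e1 | e1
    · exact (hp.mem_or_mem e1).elim ha ha'
    · exact hp.ne_top (Ideal.eq_top_of_isUnit_mem _ e1
        ((IsUnit.mk0 _ (sub_ne_zero.mpr hne)).map MvPolynomial.C))
  have f2 : (⋃ y ∈ {y | MvPolynomial.eval (cpt v.g 0 1 y) F = 0}, {t : ℂ | ∀ d, ∀ n ∈ Nd N d,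
      MvPolynomial.eval (cpt v.g 0 1 y) (n.2 + MvPolynomial.C t * n.1) = 0}).Finite := by
    refine (h.finite_y hF.homog 0 1).biUnion fun y _ => Set.Subsingleton.finite ?_
    intro t ht t' ht'
    by_contra hne
    refine hinf (cpt v.g 0 1 y) (fun e => ?_) (fun b hb => ?_) (by simp [eval_U h.e1])
    · have := eval_U h.e1 0 1 y 1
      rw [e] at this
      simp [linForm] at this
    · refine eval_eq_zero_of_hom hN.comp_snds (φ := (MvPolynomial.eval _ : Pol ℂ →+* ℂ))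
        (fun b hb d hd => ?_) hb
      obtain ⟨a, ha⟩ := mem_snds.mp hb
      have hn : (MvPolynomial.homogeneousComponent d a, b) ∈ Nd N d :=
        ⟨by simpa [MvPolynomial.homogeneousComponent_eq_self hd] using hN.comp _ _ ha d,
          MvPolynomial.homogeneousComponent_isHomogeneous _ _, hd⟩
      have k1 := ht d _ hn
      have k2 := ht' d _ hn
      simp only [map_add, map_mul, MvPolynomial.eval_C] at k1 k2
      exact mul_left_cancel₀ (sub_ne_zero.mpr hne) (by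
        change _ * MvPolynomial.eval _ b = _
        linear_combination t * k2 - t' * k1)
  have f3 : (⋃ p ∈ {p : ℂ × ℂ | MvPolynomial.eval (cpt v.g 1 p.1 p.2) F = 0 ∧
      (derivative (v.f F)).evalEval p.1 p.2 = 0}, {t : ℂ | ∀ d, ∀ n ∈ Nd N d,
      MvPolynomial.eval (cpt v.g 1 p.1 p.2) (n.2 + MvPolynomial.C t * n.1) = 0 ∧
      dir v.g 1 (cpt v.g 1 p.1 p.2) (n.2 + MvPolynomial.C t * n.1) = 0 ∧
      dir v.g 2 (cpt v.g 1 p.1 p.2) (n.2 + MvPolynomial.C t * n.1) = 0}).Finite := by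
    have hd := Pt.natDegree_f hF.homog h.e2
    refine (h.finite_zero hF fun e => ?_).biUnion fun p hp => Set.Subsingleton.finite ?_
    · have := eq_zero_of_dvd_of_natDegree_lt (Pt.f_monic hF.homog h.e2) e
        (natDegree_derivative_lt (by omega))
      rw [derivative_eq_zero.mp this] at hd
      omega
    intro t ht t' ht'
    by_contra hne
    have hu : (MvPolynomial.C (t - t')⁻¹ * (MvPolynomial.C t - MvPolynomial.C t') : Pol ℂ) = 1 := by
      rw [← map_sub, ← map_mul, inv_mul_cancel₀ (sub_ne_zero.mpr hne), map_one]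
    have key : ∀ d, ∀ n ∈ Nd N d, n.1 ∈ Ideal.span {l} ⊔
        RingHom.ker (MvPolynomial.eval (cpt v.g 1 p.1 p.2)) ^ 2 ∧ n.2 ∈ Ideal.span {l} ⊔
        RingHom.ker (MvPolynomial.eval (cpt v.g 1 p.1 p.2)) ^ 2 := fun d n hn => by
      have k1 := mem_sq h.e1 (hn.2.2.add (hn.2.1.C_mul t)) (ht d n hn).1 (ht d n hn).2.1
        (ht d n hn).2.2
      have k2 := mem_sq h.e1 (hn.2.2.add (hn.2.1.C_mul t')) (ht' d n hn).1 (ht' d n hn).2.1
        (ht' d n hn).2.2
      rw [h.e3] at k1 k2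
      have k3 : n.1 ∈ Ideal.span {l} ⊔ RingHom.ker (MvPolynomial.eval (cpt v.g 1 p.1 p.2)) ^ 2 := by
        convert Ideal.mul_mem_left _ (MvPolynomial.C (t - t')⁻¹) (sub_mem k1 k2) using 1
        linear_combination (-n.1) * hu
      exact ⟨k3, by simpa using sub_mem k1 (Ideal.mul_mem_left _ (MvPolynomial.C t) k3)⟩
    have hp0 : cpt v.g 1 p.1 p.2 ≠ 0 := fun e => by
      have := eval_U h.e1 1 p.1 p.2 0
      rw [e] at this
      simp [linForm] at this
    obtain ⟨d1, d2, n1, n2, c, k1, k2, hc, e⟩ := hN.lf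
      (RingHom.ker (MvPolynomial.eval (cpt v.g 1 p.1 p.2))) (RingHom.ker_isPrime _)
      (by simpa [RingHom.mem_ker, Function.ne_iff] using hp0) hp.1
    exact mult_contra hF hl hl0 hp0 (by rw [← h.e3, eval_U h.e1]; rfl) hp.1 (key _ _ k1).1
      (key _ _ k1).2 (key _ _ k2).1 (key _ _ k2).2 hc e
  obtain ⟨t, ht⟩ := exists_not_mem_finite ((f1.union f2).union f3)
  simp only [Set.mem_union, not_or] at ht
  obtain ⟨⟨t1, t2⟩, t3⟩ := ht
  have hN' := hN.lin (p := 1) (q := 0) (r := -t) (w := 1) (by simp)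
  refine ⟨t, fun a ha => ?_, fun p hp0 hz e0 => ?_, fun x y => ?_⟩
  · by_contra hne
    exact t1 ⟨a, hne, by simpa using mem_lin.mp ha⟩
  · have e2 := eq_cpt h.e1 (p := p) (by rw [h.e3]; exact hz l hN'.l_mem)
    rw [e0] at e2
    generalize MvPolynomial.eval p (linForm (v.g' 1)) = w at e2
    generalize MvPolynomial.eval p (linForm (v.g' 2)) = y at e2
    subst e2
    by_cases hw : w = 0
    · subst hw
      exact hp0 (h.cpt_eq_zero hF.homog (hz F hN'.F_mem))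
    · obtain ⟨y, rfl⟩ : ∃ y', y = w * y' := ⟨w⁻¹ * y, by field_simp⟩
      have key : ∀ b ∈ snds (lin 1 0 (-t) 1 N), ∀ d, b.IsHomogeneous d →
          MvPolynomial.eval (cpt v.g 0 1 y) b = 0 := fun b hb d hd => by
        have k1 := eval_cpt_scale (g := v.g) w 0 1 y hd
        rw [mul_one, mul_zero, hz _ hb, eq_comm, mul_eq_zero] at k1
        exact k1.resolve_left (pow_ne_zero _ hw)
      exact t2 (Set.mem_biUnion (key _ hN'.F_mem _ hF.homog) fun d n hn =>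
        key _ (hmem t _ _ hn.1) d (hn.2.2.add (hn.2.1.C_mul t)))
  · by_contra hne
    push Not at hne
    refine t3 (Set.mem_biUnion (x := (x, y)) ⟨(hne F hN'.F_mem).1, ?_⟩ fun d n hn =>
      hne _ (hmem t _ _ hn.1))
    rw [Pt.f, derivative_C_mul, evalEval_mul, evalEval_derivative, (hne F hN'.F_mem).2.2, mul_zero]

theorem frame_sep (hF : GoodSextic F) (h : Frame F l v) (hp : (Ideal.span {F, l}).IsPrime)
    {I : Ideal (Pol ℂ)} (h1 : F ∈ I) {b : Pol ℂ} {d : ℕ} (hb : b ∈ I)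
    (hd : b.IsHomogeneous d) (hb' : b ∉ Ideal.span {F, l}) (hc : Cur I v.g) :
    ∃ v', Frame F l v' ∧ v'.g' 0 = v.g' 0 ∧
      (∀ x y y', (∀ b ∈ I, (rho v'.g b).evalEval x y = 0) →
        (∀ b ∈ I, (rho v'.g b).evalEval x y' = 0) → y = y') ∧
      ∀ x y, (∀ b ∈ I, (rho v'.g b).evalEval x y = 0) →
        ∃ b ∈ I, (derivative (rho v'.g b)).evalEval x y ≠ 0 := by
  let V : Set (ℂ × ℂ) := {p | ∀ b ∈ I, MvPolynomial.eval (cpt v.g 1 p.1 p.2) b = 0}
  have hV : V.Finite := (h.finite_zero hF (c := rho v.g b)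
    fun e => hb' (h.mem_of_dvd hF.homog hp hd e)).subset fun p hp =>
      ⟨hp F h1, (evalEval_cpt _ _ _).trans (hp b hb)⟩
  have f1 : {t : ℂ | MvPolynomial.eval (cpt v.g 0 t 1) F = 0}.Finite := by
    let φ : ℂ[X] := MvPolynomial.aeval (fun i => C (v.g i 1) * X + C (v.g i 2)) F
    have hφ : ∀ t, φ.eval t = MvPolynomial.eval (cpt v.g 0 t 1) F := fun t => by
      rw [← coe_aeval_eq_eval, ← AlgHom.comp_apply, MvPolynomial.comp_aeval,
        MvPolynomial.aeval_eq_eval]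
      congr 2
      funext i
      simp [cpt]
    refine (finite_setOfPred_isRoot (p := φ) fun e => ?_).subset fun t ht => (hφ t).trans ht
    have := hφ 0
    rw [e, eval_zero] at this
    refine right_ne_zero_of_mul_eq_one h.e2 ?_
    rw [this]
    congr 2
    funext i
    simp [cpt]
  have f2 : (⋃ p ∈ V, ⋃ q ∈ V, {t : ℂ | p.2 ≠ q.2 ∧ p.1 - t * p.2 = q.1 - t * q.2}).Finite :=
    hV.biUnion fun p _ => hV.biUnion fun q _ => Set.Subsingleton.finite fun t ht t' ht' =>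
      mul_right_cancel₀ (sub_ne_zero.mpr ht.1) (by linear_combination ht'.2 - ht.2)
  have f3 : (⋃ p ∈ V, {t : ℂ | ∀ b ∈ I, dir v.g 2 (cpt v.g 1 p.1 p.2) b +
      t * dir v.g 1 (cpt v.g 1 p.1 p.2) b = 0}).Finite := by
    refine hV.biUnion fun p hp => Set.Subsingleton.finite fun t ht t' ht' => ?_
    by_contra hne
    obtain ⟨b, hb, e⟩ := hc p.1 p.2
    have k1 : dir v.g 1 (cpt v.g 1 p.1 p.2) b = 0 :=
      mul_left_cancel₀ (sub_ne_zero.mpr hne) (by linear_combination ht b hb - ht' b hb)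
    have k2 := ht b hb
    rw [k1, mul_zero, add_zero] at k2
    simp [hp b hb, k1, k2] at e
  obtain ⟨t, ht⟩ := exists_not_mem_finite ((f1.union f2).union f3)
  simp only [Set.mem_union, not_or] at ht
  obtain ⟨⟨t1, t2⟩, t3⟩ := ht
  obtain ⟨v', hv', e, e'⟩ := frame_change (F := F) h.e1 h.e3
    (T := !![1, 0, 0, 0; 0, 1, t, 0; 0, 0, 1, 0; 0, 0, 0, 1])
    (T' := !![1, 0, 0, 0; 0, 1, -t, 0; 0, 0, 1, 0; 0, 0, 0, 1])
    (by ext i j; fin_cases i <;> fin_cases j <;> simp [Matrix.mul_apply, Fin.sum_univ_four])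
    rfl (fun e => t1 (by
      have : cpt v.g 0 t 1 = fun i => v.g i 1 * t + v.g i 2 := by funext i; simp [cpt]
      simpa [Matrix.mul_apply, Fin.sum_univ_four, this] using e))
  have hcpt : ∀ x y, cpt v'.g 1 x y = cpt v.g 1 (x + t * y) y := fun x y => by
    funext i
    simp [e, cpt, Matrix.mul_apply, Fin.sum_univ_four]
    ring
  have hmem : ∀ x y, (∀ b ∈ I, (rho v'.g b).evalEval x y = 0) → (x + t * y, y) ∈ V :=
    fun x y hxy b hb => by rw [← hcpt, ← evalEval_cpt, hxy b hb]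
  refine ⟨v', hv', ?_, fun x y y' k1 k2 => ?_, fun x y k1 => ?_⟩
  · funext j
    simp [e', Matrix.mul_apply, Fin.sum_univ_four]
  · by_contra hne
    exact t2 (Set.mem_biUnion (hmem _ _ k1) (Set.mem_biUnion (hmem _ _ k2) ⟨hne, by ring⟩))
  · by_contra hne
    push Not at hne
    refine t3 (Set.mem_biUnion (hmem _ _ k1) fun b hb => ?_)
    rw [← hne b hb, evalEval_derivative, hcpt]
    simp [dir, e, Matrix.mul_apply, Fin.sum_univ_four]
    ring

end Pool.Agent.P.MP_2b2d3b_ag
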