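import Pool.Agent.P.MP_2b2d3b_ag.Pen

/-!
Twelve independent traceless endomorphisms of degree two.
-/

namespace Pool.Agent.P.MP_2b2d3b_ag

open MvPolynomial

variable {M : Type} [AddCommGroup M] [Module (Pol ℂ) M] {F l : Pol ℂ} {G : Grading ℂ M} {s m : M}

theorem Pencil.exists_end (h : Pencil F l G s m) (p q r : Pol ℂ) :
    ∃ ψ : M →ₗ[Pol ℂ] M, ∀ (u : M) (a b : Pol ℂ), l • u = a • s + b • m →
      ψ u = (p * a + q * b) • s + (r * a - p * b) • m := by
  choose α β e using h.all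
  have key : ∀ (u : M) (a b : Pol ℂ), l • u = a • s + b • m →
      (p * α u + q * β u) • s + (r * α u - p * β u) • m =
        (p * a + q * b) • s + (r * a - p * b) • m := fun u a b e' => by
    obtain ⟨h1, h2⟩ := h.ind (α u - a) (β u - b) (by
      linear_combination (norm := module) e' - e u)
    have k1 := h.kill' h1 s
    have k2 := h.kill' h1 m
    have k3 := h.kill' h2 s
    have k4 := h.kill' h2 m
    linear_combination (norm := module) p • k1 + r • k2 + q • k3 - p • k4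
  refine ⟨⟨⟨fun u => (p * α u + q * β u) • s + (r * α u - p * β u) • m, fun u u' => ?_⟩,
    fun c u => ?_⟩, key⟩
  · rw [key (u + u') (α u + α u') (β u + β u') (by rw [smul_add, e, e]; module)]
    module
  · dsimp only
    rw [key (c • u) (c * α u) (c * β u) (by rw [smul_comm, e]; module), RingHom.id_apply]
    module

theorem Pencil.traceless (h : Pencil F l G s m) (hirr : Irreducible F) (hl0 : l ≠ 0)
    {p q r : Pol ℂ} {ψ : M →ₗ[Pol ℂ] M}
    (hψ : ∀ (u : M) (a b : Pol ℂ), l • u = a • s + b • m →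
      ψ u = (p * a + q * b) • s + (r * a - p * b) • m)
    (m₁ m₂ : M) (σ a b c d : Pol ℂ)
    (hind : ∀ x y : Pol ℂ, x • m₁ + y • m₂ = 0 → x ∈ Ideal.span {F} ∧ y ∈ Ideal.span {F})
    (e1 : σ • ψ m₁ = a • m₁ + c • m₂) (e2 : σ • ψ m₂ = b • m₁ + d • m₂) :
    a + d ∈ Ideal.span {F} := by
  have hp : (Ideal.span {F}).IsPrime := (Ideal.span_singleton_prime hirr.ne_zero).mpr hirr.prime
  obtain ⟨a1, b1, f1⟩ := h.all m₁
  obtain ⟨a2, b2, f2⟩ := h.all m₂
  rw [hψ _ _ _ f1] at e1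
  rw [hψ _ _ _ f2] at e2
  obtain ⟨k1, k2⟩ := h.ind (l * σ * (p * a1 + q * b1) - (a * a1 + c * a2))
    (l * σ * (r * a1 - p * b1) - (a * b1 + c * b2))
    (by linear_combination (norm := module) l • e1 + a • f1 + c • f2)
  obtain ⟨k3, k4⟩ := h.ind (l * σ * (p * a2 + q * b2) - (b * a1 + d * a2))
    (l * σ * (r * a2 - p * b2) - (b * b1 + d * b2))
    (by linear_combination (norm := module) l • e2 + b • f1 + d • f2)
  have k5 : (a1 * b2 - a2 * b1) * (a + d) ∈ Ideal.span {F} := by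
    convert Ideal.sub_mem _ (Ideal.add_mem _ (Ideal.mul_mem_left _ a2 k2)
      (Ideal.mul_mem_left _ b1 k3)) (Ideal.add_mem _ (Ideal.mul_mem_left _ b2 k1)
      (Ideal.mul_mem_left _ a1 k4)) using 1
    ring
  refine (hp.mem_or_mem k5).resolve_left fun hD => ?_
  have k6 := h.kill' hD s
  have k7 := h.kill' hD m
  obtain ⟨-, j1⟩ := hind b2 (-b1) (h.reg _ (by
    linear_combination (norm := module) b2 • f1 - b1 • f2 + k6))
  obtain ⟨-, j2⟩ := hind (-a2) a1 (h.reg _ (by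
    linear_combination (norm := module) a1 • f2 - a2 • f1 + k7))
  have j3 : m₁ = 0 := h.reg _ (by
    rw [f1, h.kill' j2, h.kill' (neg_mem_iff.mp j1), add_zero])
  exact hp.ne_top ((Ideal.eq_top_iff_one _).mpr (hind 1 0 (by simp [j3])).1)

theorem lin_eq_zero {c : Fin 4 → ℂ} (h : ∑ j, C (c j) * (X j : Pol ℂ) = 0) (j : Fin 4) :
    c j = 0 := by
  have := congrArg (eval (Pi.single j 1)) h
  simpa [Pi.single_apply] using this

theorem Pencil.twelve (h : Pencil F l G s m) (hirr : Irreducible F) (hl0 : l ≠ 0) :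
    ∃ ψ : Fin 12 → (M →ₗ[Pol ℂ] M),
      (∀ i d u, u ∈ G.piece d → ψ i u ∈ G.piece (d + 2)) ∧
      (∀ (i : Fin 12) (m₁ m₂ : M) (σ a b c d : Pol ℂ),
        (∀ x y : Pol ℂ, x • m₁ + y • m₂ = 0 → x ∈ Ideal.span {F} ∧ y ∈ Ideal.span {F}) →
        σ • ψ i m₁ = a • m₁ + c • m₂ → σ • ψ i m₂ = b • m₁ + d • m₂ →
        a + d ∈ Ideal.span {F}) ∧
      ∀ c : Fin 12 → ℂ, (∀ (u : M) (j : Fin 4), ∃ k : ℕ,
        (X j : Pol ℂ) ^ k • ∑ i, (C (c i) : Pol ℂ) • ψ i u = 0) → c = 0 := by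
  let e : Fin 3 × Fin 4 ≃ Fin 12 := finProdFinEquiv
  let L : Fin 3 → Fin 3 × Fin 4 → Pol ℂ := fun k x => if x.1 = k then X x.2 else 0
  have hL : ∀ k x, (L k x).IsHomogeneous 1 := fun k x => by
    dsimp only [L]
    split_ifs
    exacts [isHomogeneous_X _ _, isHomogeneous_zero _ _ _]
  choose ψ hψ using fun x => h.exists_end (L 0 x) (L 1 x) (L 2 x)
  refine ⟨fun i => ψ (e.symm i), fun i d u hu => ?_,
    fun i => h.traceless hirr hl0 (hψ _), fun c hc => ?_⟩
  · obtain ⟨a, b, ha, hb, f⟩ := h.of_piece hu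
    rw [hψ _ _ _ _ f]
    have k : ∀ {x y : Pol ℂ}, x.IsHomogeneous 1 → y.IsHomogeneous (d + 1) →
        (x * y).IsHomogeneous (d + 2) := fun hx hy => by convert hx.mul hy using 1; omega
    exact h.piece ((k (hL _ _) ha).add (k (hL _ _) hb)) ((k (hL _ _) ha).sub (k (hL _ _) hb))
  · let P : Fin 3 → Pol ℂ := fun k => ∑ j, C (c (e (k, j))) * X j
    have hP : ∀ k, ∑ x, C (c (e x)) * L k x = P k := fun k => by
      rw [Fintype.sum_prod_type, Finset.sum_eq_single k]
      · simp [L, P]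
      · intro b _ hb; simp [L, hb]
      · simp
    have hsum : ∀ (u : M) (a b : Pol ℂ), l • u = a • s + b • m →
        ∑ i, (C (c i) : Pol ℂ) • ψ (e.symm i) u =
          (P 0 * a + P 1 * b) • s + (P 2 * a - P 0 * b) • m := fun u a b f => by
      rw [← e.sum_comp]
      simp only [Equiv.symm_apply_apply, hψ _ _ _ _ f, ← hP, Finset.sum_mul,
        ← Finset.sum_add_distrib, ← Finset.sum_sub_distrib, Finset.sum_smul]
      exact Finset.sum_congr rfl fun x _ => by module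
    have hp : (Ideal.span {F}).IsPrime := (Ideal.span_singleton_prime hirr.ne_zero).mpr hirr.prime
    have hz : ∀ (k n : ℕ) (hk : k < 3), X 0 ^ n * (P ⟨k, hk⟩ * l) ∈ Ideal.span {F} →
        ∀ j, c (e (⟨k, hk⟩, j)) = 0 := fun k n hk h0 => by
      have h1 : P ⟨k, hk⟩ * l ∈ Ideal.span {F} := (hp.mem_or_mem h0).resolve_left fun h2 =>
        X_ne_zero _ (eq_zero_of_hom h.hF (isHomogeneous_X _ _) (by omega) (hp.mem_of_pow_mem _ h2))
      rw [mul_comm] at h1
      exact lin_eq_zero (eq_zero_of_hom h.hF (IsHomogeneous.sum _ _ _ fun i _ =>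
        isHomogeneous_C_mul_X _ _) (by omega) (l_reg h.hF hirr h.hl hl0 _ h1))
    obtain ⟨k1, h1⟩ := hc s 0
    obtain ⟨k2, h2⟩ := hc m 0
    rw [hsum s l 0 (by simp), smul_add, smul_smul, smul_smul] at h1
    rw [hsum m 0 l (by simp), smul_add, smul_smul, smul_smul] at h2
    obtain ⟨h3, h4⟩ := h.ind _ _ h1
    obtain ⟨h5, -⟩ := h.ind _ _ h2
    funext i
    obtain ⟨⟨k, j⟩, rfl⟩ := e.surjective i
    fin_cases k
    · exact hz 0 k1 (by omega) (by simpa using h3) j
    · exact hz 1 k2 (by omega) (by simpa using h5) j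
    · exact hz 2 k1 (by omega) (by simpa using h4) j

end Pool.Agent.P.MP_2b2d3b_ag
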