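import Pool.Agent.P.MP_2b2d3b_ag.St

/-!
Étale covers of affine schemes of finite type over `ℂ`.
-/

namespace Pool.Agent.P.MP_2b2d3b_ag

open CategoryTheory AlgebraicGeometry

namespace CoverP

/-- lifting along a nilpotent thickening, stated with ring homomorphisms -/
theorem lift_ring {A A' B C : Type} [CommRing A] [CommRing A'] [CommRing B] [CommRing C]
    [Algebra A A'] [Algebra.FormallySmooth A A'] (τ : A →+* B) (t : A' →+* C) (g : B →+* C)
    (hg : Function.Surjective g) (hn : IsNilpotent (RingHom.ker g))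
    (h : t.comp (algebraMap A A') = g.comp τ) :
    ∃ τ' : A' →+* B, τ'.comp (algebraMap A A') = τ ∧ g.comp τ' = t := by
  let _ : Algebra A B := τ.toAlgebra
  let _ : Algebra A C := (g.comp τ).toAlgebra
  let f' : A' →ₐ[A] C := ⟨t, fun a => RingHom.congr_fun h a⟩
  let g' : B →ₐ[A] C := ⟨g, fun _ => rfl⟩
  refine ⟨(Algebra.FormallySmooth.liftOfSurjective f' g' hg hn : A' →ₐ[A] B), ?_, ?_⟩
  · ext a
    exact (Algebra.FormallySmooth.liftOfSurjective f' g' hg hn).commutes a
  · ext a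
    exact Algebra.FormallySmooth.liftOfSurjective_apply f' g' hg hn a

theorem point_over (hNS : S_NS) {A A' : Type} [CommRing A] [Algebra ℂ A] [CommRing A']
    [Algebra ℂ A'] [Algebra.FiniteType ℂ A'] (ψ : A →ₐ[ℂ] A') (t : A →ₐ[ℂ] ℂ)
    (q : PrimeSpectrum A') (hq : PrimeSpectrum.comap (ψ : A →+* A') q = kp t) (h' : A')
    (hh : h' ∉ q.asIdeal) : ∃ t' : A' →ₐ[ℂ] ℂ, t'.comp ψ = t ∧ t' h' ≠ 0 := by
  obtain ⟨t', h1, h2⟩ := hNS A' q.asIdeal h' (by rwa [q.isPrime.radical])
  refine ⟨t', AlgHom.ext fun a => ?_, h2⟩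
  have h3 : a - algebraMap ℂ A (t a) ∈ (PrimeSpectrum.comap (ψ : A →+* A') q).asIdeal := by
    rw [hq]
    change t (a - algebraMap ℂ A (t a)) = 0
    simp
  have h4 := h1 _ h3
  simp only [RingHom.coe_coe, map_sub, AlgHom.commutes, Algebra.algebraMap_self,
    RingHom.id_apply] at h4
  exact sub_eq_zero.1 h4

theorem ginv {K : Type} [Field K] {m n : Type} [Fintype m] [Fintype n] (Φ : Matrix m n K) :
    ∃ Ψ : Matrix n m K, Φ * Ψ * Φ = Φ := by
  classical
  let f := Matrix.toLin' Φ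
  obtain ⟨s, hs⟩ := f.rangeRestrict.exists_rightInverse_of_surjective f.range_rangeRestrict
  obtain ⟨g, hg⟩ := LinearMap.exists_extend s
  refine ⟨LinearMap.toMatrix' g, Matrix.toLin'.injective ?_⟩
  rw [Matrix.toLin'_mul, Matrix.toLin'_mul, Matrix.toLin'_toMatrix']
  refine LinearMap.ext fun v => ?_
  have h1 := LinearMap.congr_fun hg ⟨f v, v, rfl⟩
  have h2 := congrArg Subtype.val (LinearMap.congr_fun hs ⟨f v, v, rfl⟩)
  change g (f v) = _ at h1
  change f (g (f v)) = f v
  rw [h1]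
  exact h2

theorem ginv_local {A : Type} [CommRing A] (q : Ideal A) [q.IsPrime]
    (hK : IsField (Localization.AtPrime q)) {m n : Type} [Fintype m] [Fintype n]
    (Φ : Matrix m n A) : ∃ (h : A) (Ψ : Matrix n m A), h ∉ q ∧ h • Φ = Φ * Ψ * Φ := by
  let _ := hK.toField
  obtain ⟨Ψ0, hΨ0⟩ := ginv (Φ.map (algebraMap A (Localization.AtPrime q)))
  obtain ⟨b, hb⟩ := IsLocalization.exist_integer_multiples_of_finite q.primeCompl
    (fun x : n × m => Ψ0 x.1 x.2)
  choose c hc using hb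
  let Ψ1 : Matrix n m A := Matrix.of fun i j => c (i, j)
  have h1 : Ψ1.map (algebraMap A (Localization.AtPrime q)) = (b : A) • Ψ0 := by
    ext i j
    exact hc (i, j)
  have h2 : ∀ x : m × n, ∃ s : q.primeCompl,
      (s : A) * ((b : A) • Φ - Φ * Ψ1 * Φ) x.1 x.2 = 0 := by
    intro x
    rw [← IsLocalization.map_eq_zero_iff q.primeCompl (Localization.AtPrime q)]
    have h3 : (Φ * Ψ1 * Φ).map (algebraMap A (Localization.AtPrime q)) =
        (b : A) • Φ.map (algebraMap A (Localization.AtPrime q)) := by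
      rw [Matrix.map_mul, Matrix.map_mul, h1, Matrix.mul_smul, Matrix.smul_mul, hΨ0]
    have h4 := congrFun (congrFun h3 x.1) x.2
    simp only [Matrix.map_apply, Matrix.smul_apply] at h4
    rw [Matrix.sub_apply, map_sub, h4, Matrix.smul_apply, smul_eq_mul, map_mul, Algebra.smul_def,
      sub_self]
  choose s hs using h2
  refine ⟨((∏ x, s x) * b : q.primeCompl), ((∏ x, s x : q.primeCompl) : A) • Ψ1,
    ((∏ x, s x) * b : q.primeCompl).2, ?_⟩
  rw [Matrix.mul_smul, Matrix.smul_mul, Submonoid.coe_mul, mul_smul, ← sub_eq_zero, ← smul_sub]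
  ext i j
  obtain ⟨y, hy⟩ : s (i, j) ∣ ∏ x, s x := Finset.dvd_prod_of_mem _ (Finset.mem_univ _)
  rw [Matrix.smul_apply, hy, smul_eq_mul, Submonoid.coe_mul, mul_comm (s (i, j) : A), mul_assoc,
    hs (i, j), mul_zero, Matrix.zero_apply]

theorem isField_of {A A' : Type} [CommRing A] [CommRing A'] [Algebra A A'] [Algebra.Etale A A']
    (p : Ideal A) [p.IsPrime] (q : Ideal A') [q.IsPrime] [q.LiesOver p]
    (hp : p ∈ minimalPrimes A) (hr : _root_.IsReduced (Localization.AtPrime p)) :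
    IsField (Localization.AtPrime q) := by
  let _ := Localization.AtPrime.algebraOfLiesOver p q
  have hu : Algebra.IsUnramifiedAt A q :=
    Algebra.formallyUnramified_iff_forall.1 inferInstance ⟨q, inferInstance⟩
  have h1 := ((Algebra.isUnramifiedAt_iff_map_eq A p q).1 hu).2
  have h2 := IsLocalization.AtPrime.radical_map_of_mem_minimalPrimes
    (Localization.AtPrime p) p ⊥ hp
  rw [Ideal.map_bot, ← Ideal.zero_eq_bot, ← nilradical, nilradical_eq_zero] at h2
  rw [IsLocalRing.isField_iff_maximalIdeal_eq, ← h1,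
    IsScalarTower.algebraMap_eq A (Localization.AtPrime p) (Localization.AtPrime q),
    ← Ideal.map_map, ← h2, Ideal.zero_eq_bot, Ideal.map_bot]

end CoverP

open CoverP

theorem cover (hNS : S_NS) : S_Cover := by
  intro A A' _ _ _ _ _ ψ hψ
  let _ : Algebra A A' := (ψ : A →+* A').toAlgebra
  have : IsScalarTower ℂ A A' := IsScalarTower.of_algebraMap_eq fun c => (ψ.commutes c).symm
  have : Algebra.Etale A A' := hψ.1
  have : Module.FaithfullyFlat A A' := hψ.2
  have hft : Algebra.FiniteType ℂ A' := Algebra.FiniteType.trans (S := A) inferInstance inferInstance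
  have hsurj : Function.Surjective (PrimeSpectrum.comap (ψ : A →+* A')) :=
    PrimeSpectrum.comap_surjective_of_faithfullyFlat (A := A) (B := A')
  have hopen : IsOpenMap (PrimeSpectrum.comap (ψ : A →+* A')) :=
    PrimeSpectrum.isOpenMap_comap_of_hasGoingDown_of_finitePresentation (R := A) (S := A')
  refine ⟨hft, fun t => ?_, fun τ t' h => ?_, fun X j hj h' => ?_⟩
  · obtain ⟨q, hq⟩ := hsurj (kp t)
    obtain ⟨t', h1, -⟩ := point_over hNS ψ t q hq 1 (Ideal.ne_top_iff_one _ |>.1 q.isPrime.ne_top)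
    exact ⟨t', h1⟩
  · obtain ⟨τ', h1, h2⟩ := lift_ring (τ : A →+* DualNumber ℂ) (t' : A' →+* ℂ)
      (TrivSqZeroExt.fstHom ℂ ℂ ℂ : DualNumber ℂ →+* ℂ) (fun c => ⟨TrivSqZeroExt.inl c, rfl⟩)
      ⟨2, TrivSqZeroExt.kerIdeal_sq ℂ ℂ⟩ (RingHom.ext fun a => AlgHom.congr_fun h a)
    refine ⟨⟨τ', fun c => ?_⟩, AlgHom.ext fun a => RingHom.congr_fun h1 a,
      AlgHom.ext fun a => RingHom.congr_fun h2 a⟩
    have := RingHom.congr_fun h1 (algebraMap ℂ A c)
    rw [RingHom.comp_apply, ← IsScalarTower.algebraMap_apply] at this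
    exact this.trans (τ.commutes c)
  · refine ⟨j '' (PrimeSpectrum.comap (ψ : A →+* A') '' PrimeSpectrum.basicOpen h'),
      j.isOpenEmbedding.isOpenMap _ (hopen _ (PrimeSpectrum.basicOpen h').2),
      fun q hq => ⟨_, ⟨q, hq, rfl⟩, rfl⟩, ?_⟩
    rintro t ⟨_, ⟨q, hq, rfl⟩, he⟩
    exact point_over hNS ψ t q (j.isOpenEmbedding.injective he) h' hq

theorem red : S_Red := by
  intro X A A' _ _ _ _ _ ψ j p hψ hj hc hr m n _ _ Φ
  let _ : Algebra A A' := (ψ : A →+* A').toAlgebra
  have : Algebra.Etale A A' := hψ.1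
  have : Module.FaithfullyFlat A A' := hψ.2
  obtain ⟨q, hq⟩ := PrimeSpectrum.comap_surjective_of_faithfullyFlat (A := A) (B := A') p
  have hmin : p.asIdeal ∈ minimalPrimes A := by
    refine ⟨⟨p.isPrime, bot_le⟩, fun p' hp' hle => ?_⟩
    let x : PrimeSpectrum A := ⟨p', hp'.1⟩
    have h1 : x ⤳ p := (PrimeSpectrum.le_iff_specializes x p).1 hle
    have h2 : j x ⤳ j p := h1.map j.continuous
    have h3 : closure {j x} ⊆ closure {j p} :=
      hc.2 isIrreducible_singleton.closure (specializes_iff_closure_subset.1 h2)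
    have h4 : j p ⤳ j x := specializes_iff_closure_subset.2 h3
    have h5 : p ⤳ x := j.isOpenEmbedding.isInducing.specializes_iff.1 h4
    exact (PrimeSpectrum.le_iff_specializes p x).2 h5
  have hred : _root_.IsReduced (Localization.AtPrime p.asIdeal) :=
    isReduced_of_injective
      ((asIso (j.stalkMap p) ≪≫ Spec.stalkIso (.of A) p).commRingCatIsoToRingEquiv.symm)
      (RingEquiv.injective _)
  have : q.asIdeal.LiesOver p.asIdeal := ⟨by rw [← hq]; rfl⟩
  obtain ⟨h, Ψ, h1, h2⟩ := ginv_local q.asIdeal (isField_of p.asIdeal q.asIdeal hmin hred) Φ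
  exact ⟨q, h, Ψ, hq, h1, h2⟩

end Pool.Agent.P.MP_2b2d3b_ag
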