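import Pool.Agent.P.MP_2b2d3b_ag.Param

/-!
A basis of the plane cubics adapted to the ten degree conditions, and the duality between cubics
through the scheme and extension classes.
-/

namespace Pool.Agent.P.MP_2b2d3b_ag

open Polynomial

variable {B : Type} [CommRing B] {B' : Type} [CommRing B']

/-- the polynomial part of `f / y ^ (j + 1)` -/
noncomputable def tail (f : B[X][X]) (j : ℕ) : B[X][X] :=
  ∑ l ∈ Finset.Icc (j + 1) 6, C (f.coeff l) * X ^ (l - (j + 1))

/-- the basis of cubics -/
noncomputable def cub (f : B[X][X]) (p : Idx) : B[X][X] := C (X ^ (10 - (p.1.2 : ℕ))) * tail f p.1.1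

/-- the cubic with coefficients `c` -/
noncomputable def cubic (f : B[X][X]) (c : Idx → B) : B[X][X] := ∑ p, C (C (c p)) * cub f p

theorem coeff_tail (f : B[X][X]) (j n : ℕ) :
    (tail f j).coeff n = if n + j + 1 ≤ 6 then f.coeff (n + j + 1) else 0 := by
  simp only [tail, finsetSum_coeff, coeff_C_mul, coeff_X_pow, mul_ite, mul_one, mul_zero]
  split_ifs with h
  · rw [Finset.sum_eq_single (n + j + 1)]
    · rw [if_pos (by omega)]
    · intro l hl hne
      rw [Finset.mem_Icc] at hl
      rw [if_neg (by omega)]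
    · intro hl
      exact absurd (Finset.mem_Icc.mpr ⟨by omega, h⟩) hl
  · refine Finset.sum_eq_zero fun l hl => ?_
    rw [Finset.mem_Icc] at hl
    rw [if_neg (by omega)]

theorem TD_tail {f : B[X][X]} (hf : TD 6 f) {j : ℕ} (hj : j < 6) : TD (5 - j) (tail f j) := by
  intro i n h
  rw [coeff_tail]
  split_ifs
  · exact hf _ _ (by omega)
  · simp

theorem TD_cub {f : B[X][X]} (hf : TD 6 f) (p : Idx) : TD 3 (cub f p) := by
  have h1 := p.2
  have h2 := p.1.1.2
  have h3 := p.1.2.2
  exact ((TD.C_of_natDegree (natDegree_X_pow_le _)).mul (TD_tail hf h2)).mono (by omega)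

theorem TD_cubic {f : B[X][X]} (hf : TD 6 f) (c : Idx → B) : TD 3 (cubic f c) :=
  TD.sum _ _ fun p _ => (TD_cub hf p).smul _

theorem map_cub (φ : B →+* B') (f : B[X][X]) (p : Idx) :
    cub (f.map (mapRingHom φ)) p = (cub f p).map (mapRingHom φ) := by
  simp [cub, tail, Polynomial.map_sum, coeff_map]

theorem cubic_eq_zero {f : B[X][X]} (hf : f.coeff 6 = 1) {c : Idx → B} (h : cubic f c = 0) :
    c = 0 := by
  have key : ∀ j : ℕ, ∀ p : Idx, (p.1.1 : ℕ) = j → c p = 0 := by
    intro j
    induction j using Nat.strong_induction_on with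
    | _ j ih =>
      intro p hp
      have h2 := p.1.1.2
      have := congrArg (fun q : B[X][X] => (q.coeff (5 - j)).coeff (10 - (p.1.2 : ℕ))) h
      simp only [cubic, cub, finsetSum_coeff, coeff_C_mul, coeff_zero, coeff_tail] at this
      rw [Finset.sum_eq_single p] at this
      · rw [hp, if_pos (by omega), show 5 - j + j + 1 = 6 by omega, hf] at this
        simpa using this
      · intro q _ hq
        have h3 := q.1.1.2
        rcases lt_trichotomy (q.1.1 : ℕ) j with hlt | heq | hgt
        · rw [ih _ hlt q rfl, zero_mul]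
        · rw [heq, if_pos (by omega), show 5 - j + j + 1 = 6 by omega, hf, mul_one, coeff_X_pow,
            if_neg, mul_zero]
          intro h4
          apply hq
          have h5 := p.1.2.2
          have h6 := q.1.2.2
          exact Subtype.ext (Prod.ext (Fin.ext (by omega)) (Fin.ext (by omega)))
        · rw [if_neg (by omega)]; simp
      · simp
  funext p
  exact key _ p rfl

namespace Pt

variable {F : Pol B} {v : Pt B}

theorem eval_tail (hF : F.IsHomogeneous 6)
    (e2 : v.tau * MvPolynomial.eval (fun i => v.g i 2) F = 1) (j : ℕ) :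
    (tail (v.f F) j).eval v.eta = (v.beta F).coeff j := by
  nontriviality B
  rw [beta, coeff_divByMonic_X_sub_C, natDegree_f hF e2, tail, eval_finsetSum]
  exact Finset.sum_congr rfl fun l _ => by rw [eval_mul, eval_C, eval_pow, eval_X, mul_comm]

/-- the residue pairing on `B[x] / χ` -/
noncomputable def pr (v : Pt B) (e h : B[X]) : B := ((e * h) %ₘ v.chi).coeff 10

theorem coeff_X_pow_mod (v : Pt B) {p : B[X]} {i : ℕ} (hi : i ≤ 10)
    (hp : ∀ k, 10 - i < k → p.coeff k = 0) : ((X ^ i * p) %ₘ v.chi).coeff 10 = p.coeff (10 - i) := by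
  nontriviality B
  rw [(modByMonic_eq_self_iff v.chi_monic).mpr, coeff_X_pow_mul', if_pos hi]
  rw [degree_chi]
  refine (degree_lt_iff_coeff_zero _ 11).mpr fun m hm => ?_
  rw [coeff_X_pow_mul', if_pos (by omega), hp _ (by omega)]

theorem pr_X_pow (v : Pt B) (e h : B[X]) (i : ℕ) :
    v.pr e (X ^ i * h) = ((X ^ i * ((e * h) %ₘ v.chi)) %ₘ v.chi).coeff 10 := by
  rw [pr]
  congr 1
  apply modByMonic_eq_of_dvd_sub v.chi_monic
  rw [modByMonic_eq_sub_mul_div]
  exact ⟨X ^ i * (e * h /ₘ v.chi), by ring⟩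

theorem cond_iff (v : Pt B) (e : B[X]) (β : ℕ → B[X]) :
    (∀ p : Idx, ((e * β p.1.1) %ₘ v.chi).coeff p.1.2 = 0) ↔
      ∀ p : Idx, v.pr e (X ^ (10 - (p.1.2 : ℕ)) * β p.1.1) = 0 := by
  have hge : ∀ (j k : ℕ), 11 ≤ k → ((e * β j) %ₘ v.chi).coeff k = 0 := fun j k hk =>
    (degree_lt_iff_coeff_zero _ 11).mp (v.degree_mod _) k hk
  constructor
  · intro h p
    have h3 := p.1.2.2
    have h1 := p.2
    rw [pr_X_pow, v.coeff_X_pow_mod (by omega), show 10 - (10 - (p.1.2 : ℕ)) = p.1.2 by omega, h]
    intro k hk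
    by_cases hk' : k < 11
    · exact h ⟨(p.1.1, ⟨k, hk'⟩), by simp only; omega⟩
    · exact hge _ _ (by omega)
  · intro h
    have key : ∀ n : ℕ, ∀ p : Idx, 10 - (p.1.2 : ℕ) = n →
        ((e * β p.1.1) %ₘ v.chi).coeff p.1.2 = 0 := by
      intro n
      induction n using Nat.strong_induction_on with
      | _ n ih =>
        intro p hp
        have h3 := p.1.2.2
        have h1 := p.2
        have := h p
        rwa [pr_X_pow, v.coeff_X_pow_mod (by omega),
          show 10 - (10 - (p.1.2 : ℕ)) = p.1.2 by omega] at this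
        intro k hk
        by_cases hk' : k < 11
        · exact ih (10 - k) (by omega) ⟨(p.1.1, ⟨k, hk'⟩), by simp only; omega⟩ rfl
        · exact hge _ _ (by omega)
    exact fun p => key _ p rfl

theorem pr_add_left (v : Pt B) (e e' h : B[X]) : v.pr (e + e') h = v.pr e h + v.pr e' h := by
  simp [pr, add_mul, add_modByMonic]

theorem pr_C_left (v : Pt B) (c : B) (e h : B[X]) : v.pr (C c * e) h = c * v.pr e h := by
  rw [pr, pr, mul_assoc, ← smul_eq_C_mul, smul_modByMonic]; simp

theorem pr_comm (v : Pt B) (e h : B[X]) : v.pr e h = v.pr h e := by rw [pr, pr, mul_comm]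

theorem pr_sum_left (v : Pt B) {ι : Type} (s : Finset ι) (c : ι → B) (e : ι → B[X]) (h : B[X]) :
    v.pr (∑ i ∈ s, C (c i) * e i) h = ∑ i ∈ s, c i * v.pr (e i) h := by
  classical
  induction s using Finset.induction_on with
  | empty => simp [pr]
  | insert a s ha ih => rw [Finset.sum_insert ha, Finset.sum_insert ha, pr_add_left, pr_C_left, ih]

theorem dvd_of_pr (v : Pt B) {h : B[X]} (hh : ∀ i : Fin 11, v.pr (X ^ (i : ℕ)) h = 0) :
    v.chi ∣ h := by
  rw [← modByMonic_eq_zero_iff_dvd v.chi_monic]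
  by_contra hne
  have hd : (h %ₘ v.chi).natDegree < 11 := (natDegree_lt_iff_degree_lt hne).mpr (v.degree_mod _)
  have := hh ⟨10 - (h %ₘ v.chi).natDegree, by omega⟩
  rw [pr_comm, ← mul_one (X ^ _), pr_X_pow, mul_one, v.coeff_X_pow_mod (by simp)] at this
  · simp only at this
    rw [show 10 - (10 - (h %ₘ v.chi).natDegree) = (h %ₘ v.chi).natDegree by omega] at this
    exact hne (leadingCoeff_eq_zero.mp this)
  · intro k hk
    simp only at hk
    exact coeff_eq_zero_of_natDegree_lt (by omega)

theorem eval_cubic (hF : F.IsHomogeneous 6)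
    (e2 : v.tau * MvPolynomial.eval (fun i => v.g i 2) F = 1) (c : Idx → B) :
    (cubic (v.f F) c).eval v.eta =
      ∑ p : Idx, C (c p) * (X ^ (10 - (p.1.2 : ℕ)) * (v.beta F).coeff p.1.1) := by
  simp [cubic, cub, eval_finsetSum, eval_tail hF e2]

/-- admissible extension classes -/
def Usp (F : Pol B) (v : Pt B) : Submodule B (Fin 11 → B) where
  carrier := {e | ∀ p : Idx, ((pol e * (v.beta F).coeff p.1.1) %ₘ v.chi).coeff p.1.2 = 0}
  zero_mem' := fun p => by simp [pol]
  add_mem' := fun {a b} ha hb p => by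
    have : pol (a + b) = pol a + pol b := by simp [pol, Finset.sum_add_distrib]
    rw [this, add_mul, add_modByMonic, coeff_add, ha p, hb p, add_zero]
  smul_mem' := fun c a ha p => by
    have : pol (c • a) = c • pol a := by simp [pol, Finset.smul_sum, smul_monomial]
    rw [this, smul_mul_assoc, smul_modByMonic, coeff_smul, ha p, smul_zero]

/-- cubics through the scheme -/
def Wsp (F : Pol B) (v : Pt B) : Submodule B (Idx → B) where
  carrier := {c | v.chi ∣ (cubic (v.f F) c).eval v.eta}
  zero_mem' := by simp [cubic]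
  add_mem' := fun {a b} ha hb => by
    have : cubic (v.f F) (a + b) = cubic (v.f F) a + cubic (v.f F) b := by
      simp [cubic, add_mul, Finset.sum_add_distrib]
    simpa [this] using dvd_add ha hb
  smul_mem' := fun c a ha => by
    have : cubic (v.f F) (c • a) = C (C c) * cubic (v.f F) a := by
      simp [cubic, Finset.mul_sum, mul_assoc]
    simpa [this] using Dvd.dvd.mul_left ha (C c)

theorem finrank_Usp {K : Type} [Field K] {F : Pol K} {v : Pt K} (hF : F.IsHomogeneous 6)
    (e2 : v.tau * MvPolynomial.eval (fun i => v.g i 2) F = 1) :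
    Module.finrank K (v.Usp F) ≤ Module.finrank K (v.Wsp F) + 1 := by
  let Θ : Matrix Idx (Fin 11) K := fun p i =>
    v.pr (X ^ (i : ℕ)) (X ^ (10 - (p.1.2 : ℕ)) * (v.beta F).coeff p.1.1)
  have h1 : v.Usp F ≤ LinearMap.ker Θ.mulVecLin := by
    intro e he
    have := (v.cond_iff (pol e) fun j => (v.beta F).coeff j).mp he
    ext p
    have e1 := this p
    simp only [pol, ← C_mul_X_pow_eq_monomial] at e1
    rw [pr_sum_left] at e1
    simpa [Θ, Matrix.mulVec, dotProduct, mul_comm] using e1
  have h2 : LinearMap.ker Θ.transpose.mulVecLin ≤ v.Wsp F := by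
    intro c hc
    refine v.dvd_of_pr fun i => ?_
    rw [eval_cubic hF e2, pr_comm, pr_sum_left]
    have := congrFun (LinearMap.mem_ker.mp hc) i
    simpa [Θ, Matrix.mulVec, Matrix.vecMul, dotProduct, mul_comm, pr_comm] using this
  have h3 := LinearMap.finrank_range_add_finrank_ker Θ.mulVecLin
  have h4 := LinearMap.finrank_range_add_finrank_ker Θ.transpose.mulVecLin
  have h5 : Θ.transpose.rank = Θ.rank := Matrix.rank_transpose Θ
  rw [Matrix.rank, Matrix.rank] at h5
  have h6 := Submodule.finrank_mono h1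
  have h7 := Submodule.finrank_mono h2
  rw [Module.finrank_fintype_fun_eq_card] at h3 h4
  rw [card_Idx] at h4
  rw [Fintype.card_fin] at h3
  omega

end Pt

end Pool.Agent.P.MP_2b2d3b_ag
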