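import Pool.Agent.P.MP_2b2d3b_ag.Choose

/-!
The zero scheme in an adapted frame is given by `χ(x) = 0`, `y = η(x)`.
-/

namespace Pool.Agent.P.MP_2b2d3b_ag

open Polynomial

variable {F l : Pol ℂ} {v : Pt ℂ} {N : Submodule (Pol ℂ) (Pol ℂ × Pol ℂ)}

theorem U0_sat (hF : F.IsHomogeneous 6) (h : Frame F l v) (hp : (Ideal.span {F, l}).IsPrime)
    (hN : Pen F l N) (hinf : Inf (snds N) (linForm (v.g' 0))) (k : ℕ) {b : Pol ℂ}
    (hb : linForm (v.g' 0) ^ k * b ∈ snds N) : b ∈ snds N := by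
  have : linForm (v.g' 1) ∈ (snds N ⊔ Ideal.span {linForm (v.g' 0)}).radical := by
    rw [← MvPolynomial.vanishingIdeal_zeroLocus_eq_radical (K := ℂ)]
    intro p hp
    obtain rfl : p = 0 := by
      by_contra hne
      exact hinf p hne (fun b hb => hp b (Ideal.mem_sup_left hb))
        (hp _ (Ideal.mem_sup_right (Ideal.mem_span_singleton_self _)))
    simp [linForm]
  obtain ⟨n, hn⟩ := this
  obtain ⟨b1, hb1, _, he, e⟩ := Submodule.mem_sup.mp hn
  obtain ⟨c, rfl⟩ := Ideal.mem_span_singleton'.mp he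
  obtain ⟨a1, h1⟩ := mem_snds.mp hb1
  have key : ∀ b, linForm (v.g' 0) * b ∈ snds N → b ∈ snds N := fun b hb => by
    obtain ⟨a, ha⟩ := mem_snds.mp hb
    obtain ⟨x, y, hxy⟩ := Ideal.mem_span_pair.mp (hN.det _ _ _ _ ha h1)
    have := U_cancel h.e1 hF h.e2 (Z := linForm (v.g' 1) ^ n) (Y := linForm (v.g' 0))
      (u := X ^ n) (v := C X) (by simp [rhoh_U h.e1]) (by simp [rhoh_U h.e1]) (fun a s e => by
        rw [C_dvd_iff_dvd_coeff]
        intro i
        rw [← coeff_X_pow_mul a n i, e, coeff_C_mul]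
        exact dvd_mul_right _ _) (P := a)
      (mem_three.mpr ⟨x, a1 * b + c * a, y, by rw [h.e3]; linear_combination -hxy - a * e⟩)
    obtain ⟨x', a', y', e'⟩ := mem_three.mp this
    rw [h.e3] at e'
    have h2 : (linForm (v.g' 0) * a', linForm (v.g' 0) * b) ∈ N := by
      convert N.sub_mem ha (hN.base (F * x' + l * y') (Ideal.mem_span_pair.mpr
        ⟨x', y', by ring⟩) 0 (zero_mem _)) using 1
      ext1
      · simp only [Prod.fst_sub]; linear_combination -e'
      · simp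
    refine mem_snds.mpr ⟨a', ?_⟩
    by_cases hc : linForm (v.g' 0) * a' ∉ Ideal.span {F, l} ∨
        linForm (v.g' 0) * b ∉ Ideal.span {F, l}
    · exact hN.max _ _ _ _ h2 hc (by convert Ideal.zero_mem _; ring)
    · push Not at hc
      exact hN.base _ ((hp.mem_or_mem hc.1).resolve_left (h.U0_not_mem hF)) _
        ((hp.mem_or_mem hc.2).resolve_left (h.U0_not_mem hF))
  induction k generalizing b with
  | zero => simpa using hb
  | succ k ih => exact key _ (ih (by rwa [← mul_assoc, ← pow_succ]))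

theorem mem_map_iff (hF : F.IsHomogeneous 6) (h : Frame F l v) (hp : (Ideal.span {F, l}).IsPrime)
    (hN : Pen F l N) (hinf : Inf (snds N) (linForm (v.g' 0))) {b : Pol ℂ} {d : ℕ}
    (hd : b.IsHomogeneous d) : rho v.g b ∈ (snds N).map (rho v.g) ↔ b ∈ snds N := by
  refine ⟨fun hb => ?_, Ideal.mem_map_of_mem _⟩
  obtain ⟨b', hb', e⟩ := (Ideal.mem_map_iff_of_surjective _ (rho_surjective h.e1)).mp hb
  let n := b'.totalDegree + 1 + d
  let c := ∑ k ∈ Finset.range n, linForm (v.g' 0) ^ (n - k) * MvPolynomial.homogeneousComponent k b'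
  have hc : c ∈ snds N := Ideal.sum_mem _ fun k _ => Ideal.mul_mem_left _ _ (hN.comp_snds _ hb' k)
  have h1 : (linForm (v.g' 0) ^ (n - d) * b - c).IsHomogeneous n := by
    refine MvPolynomial.IsHomogeneous.sub ?_ (MvPolynomial.IsHomogeneous.sum _ _ _ fun k hk => ?_)
    · convert ((linForm_hom (v.g' 0)).pow (n - d)).mul hd using 1; omega
    · have := Finset.mem_range.mp hk
      convert ((linForm_hom (v.g' 0)).pow (n - k)).mul
        (MvPolynomial.homogeneousComponent_isHomogeneous k b') using 1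
      omega
  have h2 := mem_of_rho_eq_zero h.e1 h1 (by
    simp only [c, map_sub, map_mul, map_pow, map_sum, rho_U0 h.e1, one_pow, one_mul]
    rw [← map_sum, sum_comp b' (by omega), e, sub_self])
  rw [h.e3] at h2
  have := add_mem ((Ideal.span_singleton_le_iff_mem _).mpr hN.l_mem h2) hc
  rw [sub_add_cancel] at this
  exact U0_sat hF h hp hN hinf _ this

theorem finrank_quot (hF : F.IsHomogeneous 6) (h : Frame F l v) (hp : (Ideal.span {F, l}).IsPrime)
    (hN : Pen F l N) (hinf : Inf (snds N) (linForm (v.g' 0)))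
    (hl : ∃ d₀, ∀ d ≥ d₀, hilb (snds N) d = 11) :
    Module.finrank ℂ (ℂ[X][X] ⧸ (snds N).map (rho v.g)) = 11 := by
  obtain ⟨d0, hd0⟩ := hl
  let ψ := ((Ideal.Quotient.mkₐ ℂ ((snds N).map (rho v.g))).comp (rho v.g)).toLinearMap
  have h1 : ∀ d ≥ d0, Module.finrank ℂ ((Hd d).map ψ) = 11 := fun d hd => by
    rw [← hd0 d hd, hilb]
    refine finrank_map_eq_of_ker _ _ _ fun b hb => ?_
    simp only [ψ, AlgHom.toLinearMap_apply, AlgHom.comp_apply, Ideal.Quotient.mkₐ_eq_mk,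
      Ideal.Quotient.eq_zero_iff_mem]
    exact mem_map_iff hF h hp hN hinf hb
  have h2 : (Hd d0).map ψ = ⊤ := by
    rw [eq_top_iff]
    rintro z -
    obtain ⟨p, rfl⟩ := Ideal.Quotient.mk_surjective z
    obtain ⟨n, hn⟩ := exists_hom_ge h.e1 p
    obtain ⟨P, hP, rfl⟩ := hn (n + d0) (by omega)
    rw [Submodule.eq_of_le_of_finrank_eq (S₁ := (Hd d0).map ψ) (S₂ := (Hd (n + d0)).map ψ) ?_
      (by rw [h1 _ le_rfl, h1 _ (by omega)])]
    · exact ⟨P, hP, rfl⟩
    · rintro _ ⟨b, hb, rfl⟩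
      refine ⟨linForm (v.g' 0) ^ n * b, by simpa using ((linForm_hom (v.g' 0)).pow n).mul hb, ?_⟩
      simp [ψ, rho_U0 h.e1]
  rw [← h1 d0 le_rfl, h2, finrank_top]

theorem reduce_one {J : Ideal ℂ[X][X]} {f : ℂ[X][X]} (hf : f.Monic) (hJ : f ∈ J)
    (hsep : ∀ x y y', (∀ b ∈ J, b.evalEval x y = 0) → (∀ b ∈ J, b.evalEval x y' = 0) → y = y')
    (hdir : ∀ x y, (∀ b ∈ J, b.evalEval x y = 0) → ∃ b ∈ J, (derivative b).evalEval x y ≠ 0)
    (p : ℂ[X][X]) (x : ℂ) : ∃ c p', p - C (C c) - C (X - C x) * p' ∈ J := by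
  let φ : ℂ[X][X] →+* ℂ[X] := mapRingHom (evalRingHom x)
  have hφ : Function.Surjective φ := map_surjective _ fun c => ⟨C c, by simp⟩
  let j := Submodule.IsPrincipal.generator (J.map φ)
  have hj : ∀ u, u ∈ J.map φ ↔ j ∣ u := fun u => Submodule.IsPrincipal.mem_iff_generator_dvd _
  have hj0 : j ≠ 0 := fun e => (hf.map (evalRingHom x)).ne_zero
    (zero_dvd_iff.mp (e ▸ (hj _).mp (Ideal.mem_map_of_mem φ hJ)))
  have hroot : ∀ y, j.IsRoot y → ∀ b ∈ J, b.evalEval x y = 0 := fun y hy b hb => by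
    rw [← map_evalRingHom_eval]
    exact hy.dvd ((hj _).mp (Ideal.mem_map_of_mem φ hb))
  have hunit : ∀ u : ℂ[X], u ≠ 0 → (∀ y, ¬ u.IsRoot y) → IsUnit u := fun u hu hy => by
    rw [isUnit_iff_degree_eq_zero]
    by_contra hne
    obtain ⟨y, hy'⟩ := IsAlgClosed.exists_root u hne
    exact hy y hy'
  obtain ⟨c, hc⟩ : ∃ c, φ p - C c ∈ J.map φ := by
    by_cases hy : ∃ y, j.IsRoot y
    · obtain ⟨y, hy⟩ := hy
      obtain ⟨j', e⟩ := dvd_iff_isRoot.mpr hy
      have hu : IsUnit j' := hunit _ (right_ne_zero_of_mul (e ▸ hj0)) fun y' hy' => by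
        obtain rfl : y = y' := hsep x y y' (hroot y hy) (hroot y' (by
          rw [e]; exact hy'.dvd (dvd_mul_left _ _)))
        obtain ⟨b, hb, hb'⟩ := hdir x y (hroot y hy)
        obtain ⟨k, hk⟩ := (hj _).mp (Ideal.mem_map_of_mem φ hb)
        apply hb'
        rw [← map_evalRingHom_eval, ← derivative_map]
        change eval y (derivative (φ b)) = 0
        rw [hk, e]
        simp [hy'.eq_zero]
      refine ⟨(φ p).eval y, (hj _).mpr ?_⟩
      rw [e, hu.mul_right_dvd]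
      exact X_sub_C_dvd_sub_C_eval
    · push Not at hy
      exact ⟨0, (hj _).mpr (hunit j hj0 hy).dvd⟩
  obtain ⟨b, hb, e⟩ := (Ideal.mem_map_iff_of_surjective φ hφ).mp hc
  obtain ⟨p', hp'⟩ : C (X - C x) ∣ p - C (C c) - b := by
    rw [C_dvd_iff_dvd_coeff]
    intro i
    have : φ (p - C (C c) - b) = 0 := by rw [map_sub, map_sub, e]; simp [φ]
    rw [dvd_iff_isRoot]
    have h2 : (φ (p - C (C c) - b)).coeff i = 0 := by rw [this, coeff_zero]
    rwa [coe_mapRingHom, coeff_map] at h2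
  exact ⟨c, p', by convert hb using 1; linear_combination hp'⟩

theorem reduce_all {J : Ideal ℂ[X][X]}
    (h : ∀ (p : ℂ[X][X]) (x : ℂ), ∃ c p', p - C (C c) - C (X - C x) * p' ∈ J) (s : Multiset ℂ)
    (p : ℂ[X][X]) : ∃ q p', p - C q - C (s.map fun x => X - C x).prod * p' ∈ J := by
  induction s using Multiset.induction_on generalizing p with
  | empty => exact ⟨0, p, by simp⟩
  | cons x s ih =>
    obtain ⟨c, p1, h1⟩ := h p x
    obtain ⟨q, p2, h2⟩ := ih p1
    refine ⟨C c + (X - C x) * q, p2, ?_⟩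
    convert add_mem h1 (J.mul_mem_left (C (X - C x)) h2) using 1
    simp only [Multiset.map_cons, Multiset.prod_cons, map_add, map_mul]
    ring

theorem exists_chi_eta {J : Ideal ℂ[X][X]} (hr : Module.finrank ℂ (ℂ[X][X] ⧸ J) = 11)
    {r : ℂ[X]} (hr0 : r ≠ 0) (hrJ : C r ∈ J)
    (h : ∀ (p : ℂ[X][X]) (x : ℂ), ∃ c p', p - C (C c) - C (X - C x) * p' ∈ J) :
    ∃ χ η : ℂ[X], χ.Monic ∧ χ.natDegree = 11 ∧ η.degree < 11 ∧ ∀ p, p ∈ J ↔ χ ∣ p.eval η := by
  classical
  let j := Submodule.IsPrincipal.generator (J.comap (C : ℂ[X] →+* ℂ[X][X]))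
  have hj : ∀ u, C u ∈ J ↔ normalize j ∣ u := fun u => by
    rw [normalize_dvd_iff]
    exact Submodule.IsPrincipal.mem_iff_generator_dvd (J.comap (C : ℂ[X] →+* ℂ[X][X]))
  have hm : (normalize j).Monic := monic_normalize fun e => hr0 (by simpa [e] using (hj r).mp hrJ)
  generalize normalize j = χ at hj hm
  have hχ : C χ ∈ J := (hj χ).mpr dvd_rfl
  have hs : ∀ p, ∃ q, p - C q ∈ J := fun p => by
    obtain ⟨q, p', e⟩ := reduce_all h χ.roots p
    rw [← (IsAlgClosed.splits χ).eq_prod_roots_of_monic hm] at e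
    exact ⟨q, by simpa using add_mem e (J.mul_mem_right p' hχ)⟩
  let ψ : ℂ[X] →ₐ[ℂ] ℂ[X][X] ⧸ J := (Ideal.Quotient.mkₐ ℂ J).comp CAlgHom
  have hψ : Function.Surjective ψ := fun z => by
    obtain ⟨p, rfl⟩ := Ideal.Quotient.mk_surjective z
    obtain ⟨q, hq⟩ := hs p
    exact ⟨q, (Ideal.Quotient.eq.mpr hq).symm⟩
  have hk : RingHom.ker ψ = Ideal.span {χ} := by
    ext u
    rw [Ideal.mem_span_singleton, ← hj, RingHom.mem_ker]
    exact Ideal.Quotient.eq_zero_iff_mem
  have hd : χ.natDegree = 11 := by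
    rw [← finrank_quotient_span_eq_natDegree, ← hk,
      (Ideal.quotientKerAlgEquivOfSurjective hψ).toLinearEquiv.finrank_eq, hr]
  obtain ⟨q, hq⟩ := hs X
  have hη : X - C (q %ₘ χ) ∈ J := by
    convert add_mem hq (J.mul_mem_right (C (q /ₘ χ)) hχ) using 1
    rw [modByMonic_eq_sub_mul_div, map_sub, map_mul]
    ring
  refine ⟨χ, q %ₘ χ, hm, hd, ?_, fun p => ?_⟩
  · have := degree_modByMonic_lt q hm
    rwa [degree_eq_natDegree hm.ne_zero, hd] at this
  · rw [← hj]
    have e := modByMonic_add_div p (X - C (q %ₘ χ))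
    rw [modByMonic_X_sub_C_eq_C_eval] at e
    have := J.mul_mem_right (p /ₘ (X - C (q %ₘ χ))) hη
    constructor
    · intro hp
      convert sub_mem hp this using 1
      linear_combination e
    · intro hp
      rw [← e]
      exact add_mem hp this

end Pool.Agent.P.MP_2b2d3b_ag
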