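import Pool.Agent.P.MP_2b2d3b_ag.Bas

/-!
First order deformation of eleven coplanar points out of the plane.
-/

namespace Pool.Agent.P.MP_2b2d3b_ag

open MvPolynomial

namespace DefP

/-- directional derivative -/
noncomputable def dd (p v : Fin 4 → ℂ) : Pol ℂ →ₗ[ℂ] ℂ where
  toFun a := ∑ k, eval p (pderiv k a) * v k
  map_add' a b := by simp [add_mul, Finset.sum_add_distrib]
  map_smul' r a := by simp [Finset.mul_sum, mul_assoc]

theorem dd_apply (p v : Fin 4 → ℂ) (a : Pol ℂ) : dd p v a = ∑ k, eval p (pderiv k a) * v k := rfl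

theorem dd_mul (p v : Fin 4 → ℂ) (a b : Pol ℂ) :
    dd p v (a * b) = eval p a * dd p v b + dd p v a * eval p b := by
  simp only [dd_apply, pderiv_mul, map_add, map_mul, Finset.mul_sum, Finset.sum_mul,
    ← Finset.sum_add_distrib]
  exact Finset.sum_congr rfl fun k _ => by ring

theorem dd_X (p v : Fin 4 → ℂ) (k : Fin 4) : dd p v (X k) = v k := by
  classical
  simp [dd_apply, pderiv_X, Pi.single_apply, apply_ite]

theorem dd_C (p v : Fin 4 → ℂ) (c : ℂ) : dd p v (C c) = 0 := by simp [dd_apply]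

theorem dd_self (p : Fin 4 → ℂ) {a : Pol ℂ} {n : ℕ} (h : a.IsHomogeneous n) :
    dd p p a = n * eval p a := by
  have := congrArg (eval p) h.sum_X_mul_pderiv
  simp only [map_sum, map_mul, eval_X, nsmul_eq_mul, map_natCast] at this
  rw [← this, dd_apply]
  exact Finset.sum_congr rfl fun k _ => mul_comm _ _

theorem exists_lin {B : Type} [CommRing B] {l : Pol B} (hl : l.IsHomogeneous 1) :
    ∃ c, linForm c = l := by
  have : l ∈ homogeneousSubmodule (Fin 4) B 1 := hl
  rw [homogeneousSubmodule_one_eq_span_X, Submodule.mem_span_range_iff_exists_fun] at this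
  obtain ⟨c, hc⟩ := this
  exact ⟨c, by simpa [linForm, smul_eq_C_mul] using hc⟩

theorem eval_lin {B : Type} [CommRing B] (c x : Fin 4 → B) :
    eval x (linForm c) = ∑ k, c k * x k := by simp [linForm]

theorem dd_lin (p v : Fin 4 → ℂ) {l : Pol ℂ} (hl : l.IsHomogeneous 1) : dd p v l = eval v l := by
  obtain ⟨c, rfl⟩ := exists_lin hl
  rw [eval_lin, linForm, map_sum]
  exact Finset.sum_congr rfl fun k _ => by rw [dd_mul, dd_X, dd_C]; simp

theorem eval_comb {l : Pol ℂ} (hl : l.IsHomogeneous 1) (r s t : ℂ) (x y z : Fin 4 → ℂ) :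
    eval (fun k => r * x k + s * y k + t * z k) l = r * eval x l + s * eval y l + t * eval z l := by
  obtain ⟨c, rfl⟩ := exists_lin hl
  simp only [eval_lin, Finset.mul_sum, ← Finset.sum_add_distrib]
  exact Finset.sum_congr rfl fun k _ => by ring

theorem dd_comb (p : Fin 4 → ℂ) (a : Pol ℂ) (r s t : ℂ) (x y z : Fin 4 → ℂ) :
    dd p (fun k => r * x k + s * y k + t * z k) a = r * dd p x a + s * dd p y a + t * dd p z a := by
  simp only [dd_apply, Finset.mul_sum, ← Finset.sum_add_distrib]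
  exact Finset.sum_congr rfl fun k _ => by ring

/-- a point over the dual numbers -/
noncomputable def pt2 (p v : Fin 4 → ℂ) (k : Fin 4) : DualNumber ℂ :=
  TrivSqZeroExt.inl (p k) + TrivSqZeroExt.inr (v k)

theorem fst_eval (p v : Fin 4 → ℂ) (a : Pol (DualNumber ℂ)) :
    (eval (pt2 p v) a).fst =
      eval p (map (TrivSqZeroExt.fstHom ℂ ℂ ℂ : DualNumber ℂ →+* ℂ) a) := by
  induction a using MvPolynomial.induction_on with
  | C c => simp
  | add a b ha hb => simp [ha, hb]
  | mul_X a k ha => simp [ha, pt2]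

theorem fst_bc (p v : Fin 4 → ℂ) (a : Pol ℂ) :
    (eval (pt2 p v) (bc a (DualNumber ℂ))).fst = eval p a := by
  induction a using MvPolynomial.induction_on with
  | C c => simp [TrivSqZeroExt.algebraMap_eq_inl]
  | add a b ha hb => simp only [map_add, TrivSqZeroExt.fst_add, ha, hb]
  | mul_X a k ha => simp only [map_mul, TrivSqZeroExt.fst_mul, ha]; simp [pt2]

theorem snd_bc (p v : Fin 4 → ℂ) (a : Pol ℂ) :
    (eval (pt2 p v) (bc a (DualNumber ℂ))).snd = dd p v a := by
  induction a using MvPolynomial.induction_on with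
  | C c => simp [TrivSqZeroExt.algebraMap_eq_inl, dd_C]
  | add a b ha hb => simp only [map_add, TrivSqZeroExt.snd_add, ha, hb]
  | mul_X a k ha =>
    simp only [map_mul, DualNumber.snd_mul, ha, fst_bc, dd_mul, dd_X]
    simp [pt2]

theorem exists_u (p : Fin 11 → Fin 4 → ℂ) (c : Fin 4 → ℂ) (k0 : Fin 4) (hc : c k0 ≠ 0)
    (hp : ∀ i, ∑ k, c k * p i k = 0) (lam : Fin 11 → ℂ) :
    ∃ u : Fin 11 → ℂ, (∀ q : Pol ℂ, q.IsHomogeneous 2 → ∑ i, lam i * u i * eval (p i) q = 0) ∧
      ∀ e : Fin 4 → ℂ, ¬ ∀ i, u i = ∑ k, e k * p i k := by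
  let y : Fin 3 → Fin 11 → ℂ := fun j i => p i (k0.succAbove j)
  let T : Matrix (Fin 6) (Fin 11) ℂ := Matrix.of fun s i =>
    lam i * (y (![0, 0, 0, 1, 1, 2] s) i * y (![0, 1, 2, 1, 2, 2] s) i)
  have h1 : ¬ LinearMap.ker T.mulVecLin ≤ LinearMap.range (Matrix.of p).mulVecLin := fun h => by
    have a1 := Submodule.finrank_mono h
    have a2 := T.mulVecLin.finrank_range_add_finrank_ker
    have a3 := (LinearMap.range T.mulVecLin).finrank_le
    have a4 := (Matrix.of p).mulVecLin.finrank_range_le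
    simp only [Module.finrank_fin_fun] at a2 a3 a4
    omega
  obtain ⟨u, hu, hu'⟩ := SetLike.not_le_iff_exists.1 h1
  have h2 : ∀ s, ∑ i, lam i * u i *
      (y (![0, 0, 0, 1, 1, 2] s) i * y (![0, 1, 2, 1, 2, 2] s) i) = 0 := fun s => by
    refine Eq.trans ?_ (congrFun (LinearMap.mem_ker.1 hu) s)
    rw [Matrix.mulVecLin_apply, Matrix.mulVec, dotProduct]
    exact Finset.sum_congr rfl fun i _ => by simp only [T, Matrix.of_apply]; ring
  have h3 : ∀ a b, ∑ i, lam i * u i * (y a i * y b i) = 0 := by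
    have sy : ∀ a b, ∑ i, lam i * u i * (y a i * y b i) = 0 →
        ∑ i, lam i * u i * (y b i * y a i) = 0 := fun a b h => by
      simpa only [mul_comm (y a _)] using h
    intro a b
    fin_cases a <;> fin_cases b
    exacts [h2 0, h2 1, h2 2, sy _ _ (h2 1), h2 3, h2 4, sy _ _ (h2 2), sy _ _ (h2 4), h2 5]
  have h4 : ∀ k, ∃ m : Fin 3 → ℂ, ∀ i, p i k = ∑ a, m a * y a i := fun k => by
    by_cases hk : k = k0
    · refine ⟨fun a => -c (k0.succAbove a) / c k0, fun i => ?_⟩
      have := hp i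
      rw [Fin.sum_univ_succAbove _ k0, Fin.sum_univ_three] at this
      rw [hk, Fin.sum_univ_three]
      field_simp
      linear_combination this
    · obtain ⟨a, rfl⟩ := Fin.exists_succAbove_eq hk
      exact ⟨Pi.single a 1, fun i => by simp [Pi.single_apply, y]⟩
  choose m hm using h4
  have h5 : ∀ j k, ∑ i, lam i * u i * (p i j * p i k) = 0 := fun j k => by
    have : ∑ i, lam i * u i * (p i j * p i k) =
        ∑ a, ∑ b, m j a * m k b * ∑ i, lam i * u i * (y a i * y b i) := by
      simp only [Finset.mul_sum]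
      rw [Finset.sum_comm_cycle (s := Finset.univ) (t := Finset.univ)]
      refine Finset.sum_congr rfl fun i _ => ?_
      rw [hm j i, hm k i]
      simp only [Fin.sum_univ_three]
      ring
    simp [this, h3]
  refine ⟨u, fun q hq => ?_, fun e he => hu' ⟨e, funext fun i => ?_⟩⟩
  · choose e he using fun k => exists_lin (hq.pderiv (i := k))
    have : 2 * ∑ i, lam i * u i * eval (p i) q =
        ∑ k, ∑ j, e k j * ∑ i, lam i * u i * (p i j * p i k) := by
      simp only [Finset.mul_sum]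
      rw [Finset.sum_comm_cycle (s := Finset.univ) (t := Finset.univ)]
      refine Finset.sum_congr rfl fun i _ => ?_
      have := dd_self (p i) hq
      simp only [dd_apply, ← he, eval_lin, Fin.sum_univ_four, Nat.cast_ofNat] at this ⊢
      linear_combination (-(lam i * u i)) * this
    simpa [h5] using this
  · rw [he i, Matrix.mulVecLin_apply, Matrix.mulVec, dotProduct]
    exact Finset.sum_congr rfl fun k _ => mul_comm _ _

theorem exists_w {ι : Type} [Fintype ι] (p : ι → Fin 4 → ℂ) (ψ : Pol ℂ →ₗ[ℂ] ℂ) (d : ℕ)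
    (h : ∀ a : Pol ℂ, a.IsHomogeneous d → (∀ i, eval (p i) a = 0) → ψ a = 0) :
    ∃ w : ι → ℂ, ∀ a : Pol ℂ, a.IsHomogeneous d → ∑ i, w i * eval (p i) a = ψ a := by
  classical
  let φ : Hd d →ₗ[ℂ] ι → ℂ := (LinearMap.pi fun i => (aeval (p i)).toLinearMap).comp (Hd d).subtype
  have h1 : ψ.comp (Hd d).subtype ∈ LinearMap.range φ.dualMap := by
    rw [LinearMap.range_dualMap_eq_dualAnnihilator_ker, Submodule.mem_dualAnnihilator]
    exact fun a ha => h a a.2 fun i => by simpa [φ] using congrFun (LinearMap.mem_ker.1 ha) i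
  obtain ⟨g, hg⟩ := h1
  refine ⟨fun i => g fun j => if i = j then 1 else 0, fun a ha => ?_⟩
  have := LinearMap.congr_fun hg ⟨a, ha⟩
  rw [LinearMap.dualMap_apply, LinearMap.pi_apply_eq_sum_univ] at this
  simpa [φ, mul_comm] using this

end DefP

open DefP in
theorem deform : S_Def := by
  intro F l c D p v2 v3 lam b hF hl hp h2 h3 hk hc hb
  classical
  obtain ⟨cl, hcl⟩ := exists_lin hl
  obtain ⟨k0, hk0⟩ : ∃ k0, cl k0 ≠ 0 := by
    by_contra h
    push Not at h
    rw [← hcl, eval_lin] at h3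
    simp [h] at h3
  obtain ⟨u, hu, hu'⟩ := exists_u p cl k0 hk0 (fun i => by rw [← eval_lin, hcl]; exact (hp i).2.1) lam
  obtain ⟨v, vl, vF, vw⟩ : ∃ v : Fin 11 → Fin 4 → ℂ, (∀ i, eval (v i) l = u i) ∧
      (∀ i, dd (p i) (v i) F = 0) ∧ ∀ i, eval (v i) (wc ℂ c) = 0 := by
    let s : Fin 11 → ℂ := fun i => -(u i * dd (p i) v3 F) / dd (p i) v2 F
    refine ⟨fun i k => u i * v3 k + s i * v2 k +
      -(u i * eval v3 (wc ℂ c) + s i * eval v2 (wc ℂ c)) * p i k, fun i => ?_, fun i => ?_, fun i => ?_⟩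
    · rw [eval_comb hl, h2, h3, (hp i).2.1]; ring
    · have : dd (p i) v2 F ≠ 0 := (hp i).2.2.2.2
      rw [dd_comb, dd_self _ hF, (hp i).2.2.1, div_mul_cancel₀ _ this]; ring
    · rw [eval_comb (wc_hom c), (hp i).1]; ring
  obtain ⟨w, hw⟩ := exists_w p (-∑ i, lam i • dd (p i) (v i)) 3 fun a ha h0 => by
    obtain ⟨q, hq⟩ := hc a ha h0
    have e : a = homogeneousComponent 2 q * l := by
      rw [← comp_mul hl, mul_comm, ← hq, homogeneousComponent_eq_self ha]
    rw [e, LinearMap.neg_apply, LinearMap.sum_apply, neg_eq_zero,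
      ← hu _ (homogeneousComponent_isHomogeneous 2 q)]
    refine Finset.sum_congr rfl fun i _ => ?_
    rw [LinearMap.smul_apply, dd_mul, dd_lin _ _ hl, vl, (hp i).2.1, smul_eq_mul]
    ring
  let W : Fin 11 → DualNumber ℂ := fun i => TrivSqZeroExt.inl (lam i) + TrivSqZeroExt.inr (w i)
  let L : (Fin 11 → DualNumber ℂ) →ₗ[DualNumber ℂ] DualNumber ℂ :=
    Fintype.linearCombination (DualNumber ℂ) W
  let ev : Pol (DualNumber ℂ) →ₐ[DualNumber ℂ] Fin 11 → DualNumber ℂ :=
    AlgHom.pi fun i => aeval (pt2 (p i) (v i))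
  have hev : ∀ a i, ev a i = eval (pt2 (p i) (v i)) a := fun a i => rfl
  have hL : ∀ o, L o = ∑ i, o i * W i := fun o => by simp [L, Fintype.linearCombination_apply]
  have W1 : ∀ i, (W i).fst = lam i := fun i => by simp [W]
  have W2 : ∀ i, (W i).snd = w i := fun i => by simp [W]
  have hf : ∀ o, (L o).fst = ∑ i, lam i * (o i).fst := fun o => by
    simp [hL, TrivSqZeroExt.fst_sum, W1, mul_comm]
  have hb0 : ∀ i j, i ≠ j → eval (p j) (b i) = 0 := fun i j h => ((hb i).2 j).2 h
  have hb1 : ∀ i, eval (p i) (b i) ≠ 0 := fun i h => ((hb i).2 i).1 h rfl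
  have unit : ∀ M : Matrix (Fin 11) (Fin 11) (DualNumber ℂ), (∀ i, (M i i).fst ≠ 0) →
      (∀ i j, i ≠ j → (M i j).fst = 0) → IsUnit M.det := fun M h h' => by
    rw [TrivSqZeroExt.isUnit_iff_isUnit_fst, isUnit_iff_ne_zero]
    have e := (TrivSqZeroExt.fstHom ℂ ℂ ℂ : DualNumber ℂ →+* ℂ).map_det M
    have e' : (TrivSqZeroExt.fstHom ℂ ℂ ℂ : DualNumber ℂ →+* ℂ).mapMatrix M =
        Matrix.diagonal fun i => (M i i).fst := by
      ext i j
      by_cases hij : i = j
      · subst hij; simp
      · simp [Matrix.diagonal_apply_ne _ hij, h' i j hij]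
    rw [e', Matrix.det_diagonal] at e
    exact e.trans_ne (Finset.prod_ne_zero_iff.2 fun i _ => h i)
  refine ⟨L.comp ev.toLinearMap, Gor.of_algebra L ev (fun i => Pi.single i 1) _ ?_ ?_
    (fun i => (hb i).1.map _) (fun o => ⟨o, ?_⟩) (unit _ (fun i => ?_) fun i j hij => ?_),
    fun e => ?_, fun a => ?_, fun a ha h1 => ?_⟩
  · funext i
    rw [hev, ← map_wc (algebraMap ℂ (DualNumber ℂ))]
    ext
    · rw [fst_bc, (hp i).1]; simp
    · rw [snd_bc, dd_lin _ _ (wc_hom c), vw]; simp
  · intro a ha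
    rw [← form_coeff ha, form, map_sum, map_sum]
    refine Finset.sum_eq_zero fun m _ => ?_
    have e : (monomial m.1 (coeff m.1 a) : Pol (DualNumber ℂ)) =
        coeff m.1 a • bc (monomial m.1 1) (DualNumber ℂ) := by simp [smul_monomial]
    have hm : (monomial m.1 1 : Pol ℂ).IsHomogeneous 3 := isHomogeneous_monomial _ m.2
    rw [e, map_smul, map_smul]
    refine smul_eq_zero_of_right _ ?_
    ext
    · simp only [hf, hev, fst_bc]
      exact hk _ hm
    · have := hw _ hm
      simp only [LinearMap.neg_apply, LinearMap.sum_apply, LinearMap.smul_apply, smul_eq_mul] at this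
      simp only [hL, TrivSqZeroExt.snd_sum, DualNumber.snd_mul, hev, fst_bc, snd_bc, W1, W2,
        Finset.sum_add_distrib, TrivSqZeroExt.snd_zero]
      simp only [mul_comm _ (w _), mul_comm _ (lam _), this, neg_add_cancel]
  · have : ∑ i, o i • (Pi.single i 1 : Fin 11 → DualNumber ℂ) = o := by
      funext j
      simp [Pi.single_apply]
    rw [this, sub_self]
    exact zero_mem _
  · simp only [Matrix.of_apply, hf, Pi.mul_apply, TrivSqZeroExt.fst_mul, hev, fst_bc]
    rw [Finset.sum_eq_single i (fun j _ hj => by rw [hb0 i j hj.symm]; simp) (by simp)]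
    exact mul_ne_zero (hp i).2.2.2.1 (mul_ne_zero (hb1 i) (hb1 i))
  · simp only [Matrix.of_apply, hf, Pi.mul_apply, TrivSqZeroExt.fst_mul, hev, fst_bc]
    refine Finset.sum_eq_zero fun k _ => ?_
    by_cases h : i = k
    · rw [hb0 j k fun h' => hij (h.trans h'.symm)]; simp
    · rw [hb0 i k h]; simp
  · have : ev (bc F (DualNumber ℂ)) = 0 := by
      funext i
      rw [hev]
      ext
      · rw [fst_bc, (hp i).2.2.1]; simp
      · rw [snd_bc, vF]; simp
    simp [this]
  · let L0 : Pol ℂ →ₗ[ℂ] ℂ := ∑ i, lam i • (aeval (p i)).toLinearMap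
    have e0 : ∀ a, L0 a = ∑ i, lam i * eval (p i) a := fun a => by simp [L0]
    rw [bcL_eq _ (Λ' := L0) fun a => ?_, e0]
    rw [e0]
    exact (Finset.sum_congr rfl fun i _ => by rw [← fst_eval _ (v i), ← hev]; rfl).trans (hf _).symm
  · have z : ∀ i, eval (pt2 (p i) (v i)) a = 0 := by
      let M : Matrix (Fin 11) (Fin 11) (DualNumber ℂ) :=
        Matrix.of fun i j => ev (bc (b i) (DualNumber ℂ)) j * W j
      have hM : IsUnit M.det := unit M
        (fun i => by
          simp only [M, Matrix.of_apply, TrivSqZeroExt.fst_mul, hev, fst_bc, W1]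
          exact mul_ne_zero (hb1 i) (hp i).2.2.2.1)
        fun i j hij => by
          simp only [M, Matrix.of_apply, TrivSqZeroExt.fst_mul, hev, fst_bc, hb0 i j hij, zero_mul]
      have h0 : M.mulVec (ev a) = 0 := by
        funext i
        refine Eq.trans ?_ (ha (bc (b i) (DualNumber ℂ)))
        rw [LinearMap.comp_apply, AlgHom.toLinearMap_apply, hL, map_mul, Matrix.mulVec, dotProduct]
        exact Finset.sum_congr rfl fun j _ => by simp only [M, Matrix.of_apply, Pi.mul_apply]; ring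
      have h4 : ev a = 0 := by
        rw [← Matrix.one_mulVec (ev a), ← Matrix.nonsing_inv_mul M hM, ← Matrix.mulVec_mulVec, h0,
          Matrix.mulVec_zero]
      exact fun i => congrFun h4 i
    obtain ⟨e, rfl⟩ := exists_lin h1
    rw [map_linForm]
    set a0 := linForm fun k => (TrivSqZeroExt.fstHom ℂ ℂ ℂ : DualNumber ℂ →+* ℂ) (e k) with ha0
    have h0 : a0.IsHomogeneous 1 := linForm_hom _
    have z1 : ∀ i, eval (p i) a0 = 0 := fun i => by
      rw [ha0, ← map_linForm, ← fst_eval _ (v i), z]; rfl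
    have z2 : ∀ i, eval (v i) a0 + ∑ k, (e k).snd * p i k = 0 := fun i => by
      have := congrArg TrivSqZeroExt.snd (z i)
      rw [eval_lin] at this
      simpa [TrivSqZeroExt.snd_sum, pt2, ha0, eval_lin, Finset.sum_add_distrib] using this
    have z3 : ∀ x, eval x a0 = eval x l * eval v3 a0 := fun x => by
      let y : Fin 4 → ℂ := fun k => 1 * x k + -eval x l * v3 k + 0 * x k
      have y1 : eval y l = 0 := by rw [eval_comb hl, h3]; ring
      have y2 : ∀ k, eval y a0 * y k ^ 2 = 0 := fun k => by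
        obtain ⟨q, hq⟩ := hc (a0 * X k ^ 2) (h0.mul ((isHomogeneous_X ℂ k).pow 2))
          fun i => by rw [map_mul, z1, zero_mul]
        have := congrArg (eval y) hq
        simpa only [map_mul, map_pow, eval_X, y1, zero_mul] using this
      have y3 : eval y a0 = 0 := by
        by_contra h
        refine h ?_
        rw [ha0, eval_lin]
        exact Finset.sum_eq_zero fun k _ => by
          rw [pow_eq_zero_iff two_ne_zero |>.1 ((mul_eq_zero.1 (y2 k)).resolve_left h), mul_zero]
      rw [eval_comb h0] at y3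
      linear_combination y3
    by_cases hκ : eval v3 a0 = 0
    · exact MvPolynomial.funext fun x => by rw [z3, hκ]; simp
    · refine (hu' (fun k => -(e k).snd / eval v3 a0) fun i => ?_).elim
      have := z2 i
      rw [z3, vl] at this
      simp only [div_mul_eq_mul_div, ← Finset.sum_div, neg_mul, Finset.sum_neg_distrib]
      rw [eq_div_iff hκ]
      linear_combination this

end Pool.Agent.P.MP_2b2d3b_ag
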