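import Mathlib

/-!
Definitions for MP_2b2d3b_ag.  Coherent sheaves on `S × Spec B`, with `S = {F = 0} ⊂ ℙ³`, are
given by finitely generated graded modules over `B[x₀,…,x₃]` killed by `F`.
-/

namespace Pool.Agent.P.MP_2b2d3b_ag

open MvPolynomial

/-- The homogeneous coordinate ring of `ℙ³` over `B`. -/
abbrev Pol (B : Type) [CommRing B] : Type := MvPolynomial (Fin 4) B

/-- The properties of a very general sextic surface `S = {F = 0}` that are used: `S` is smooth and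
irreducible, every plane section is an integral curve, and no plane section has a point of
multiplicity at least `4`. -/
structure GoodSextic (F : Pol ℂ) : Prop where
  homog : F.IsHomogeneous 6
  irred : Irreducible F
  smooth : ∀ p : Fin 4 → ℂ, p ≠ 0 → eval p F = 0 → ∃ i, eval p (pderiv i F) ≠ 0
  sections : ∀ l : Pol ℂ, l.IsHomogeneous 1 → l ≠ 0 → (Ideal.span {F, l}).IsPrime
  mult : ∀ (l : Pol ℂ) (p : Fin 4 → ℂ), l.IsHomogeneous 1 → l ≠ 0 → p ≠ 0 → eval p l = 0 →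
    F ∉ Ideal.span {l} ⊔ RingHom.ker (eval p) ^ 4

/-- A grading `M = ⨁_{d ≥ 0} piece d` of a module over `B[x₀,…,x₃]`. -/
structure Grading (B : Type) [CommRing B] (M : Type) [AddCommGroup M] [Module (Pol B) M] where
  piece : ℕ → AddSubgroup M
  span : ∀ m : M, ∃ (N : ℕ) (c : ℕ → M), (∀ d, c d ∈ piece d) ∧ m = ∑ d ∈ Finset.range N, c d
  indep : ∀ (N : ℕ) (c : ℕ → M), (∀ d, c d ∈ piece d) → ∑ d ∈ Finset.range N, c d = 0 →
    ∀ d < N, c d = 0
  smul_mem : ∀ (n d : ℕ) (a : Pol B) (m : M), a.IsHomogeneous n → m ∈ piece d →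
    a • m ∈ piece (d + n)

/-- `M` is a finitely generated module over `R = B[x₀,…,x₃]/(F)` whose localisation at every prime
`q` not containing all the variables is free of rank two over `R_q` (with basis `m₁, m₂`). -/
structure IsRankTwoBundle {B : Type} [CommRing B] (F : Pol B) (M : Type) [AddCommGroup M]
    [Module (Pol B) M] : Prop where
  finite : Module.Finite (Pol B) M
  kill : ∀ m : M, F • m = 0
  locFree : ∀ q : Ideal (Pol B), q.IsPrime → (∃ i, X i ∉ q) → ∃ m₁ m₂ : M,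
    (∀ m : M, ∃ s ∉ q, ∃ a b : Pol B, s • m = a • m₁ + b • m₂) ∧
    (∀ a b : Pol B, a • m₁ + b • m₂ = 0 →
      ∃ s ∉ q, s * a ∈ Ideal.span {F} ∧ s * b ∈ Ideal.span {F})

/-- The value in degree `d` of the Hilbert function of `ℂ[x₀,…,x₃]/I`. -/
noncomputable def hilb (I : Ideal (Pol ℂ)) (d : ℕ) : ℕ :=
  Module.finrank ℂ
    ((homogeneousSubmodule (Fin 4) ℂ d).map (Ideal.Quotient.mkₐ ℂ I).toLinearMap)

/-- The graded module `M` is a rank two bundle `E` on `S = {F = 0}` with an exact sequence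
`0 → R → M → (I/F)(1) → 0` (`R = ℂ[x]/F`), where `I` is the saturated homogeneous ideal of a
zero-dimensional subscheme `P ⊂ S` of length `11`; this is `H⁰_*` of `0 → O_S → E → J_P(1) → 0`. -/
structure IsExtension (F : Pol ℂ) {M : Type} [AddCommGroup M] [Module (Pol ℂ) M]
    (G : Grading ℂ M) (I : Ideal (Pol ℂ)) : Prop where
  bundle : IsRankTwoBundle F M
  mem : F ∈ I
  homog : ∀ b ∈ I, ∀ d, homogeneousComponent d b ∈ I
  sat : ∀ b : Pol ℂ, (∀ i, ∃ k : ℕ, X i ^ k * b ∈ I) → b ∈ I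
  length : ∃ d₀, ∀ d ≥ d₀, hilb I d = 11
  seq : ∃ s ∈ G.piece 0, ∃ π : M →ₗ[Pol ℂ] Pol ℂ ⧸ Ideal.span {F},
    (∀ a : Pol ℂ, a • s = 0 → a ∈ Ideal.span {F}) ∧
    (∀ m : M, π m = 0 ↔ ∃ a : Pol ℂ, m = a • s) ∧
    (∀ b : Pol ℂ, b ∈ I ↔ ∃ m : M, π m = Ideal.Quotient.mk _ b) ∧
    (∀ (d : ℕ) (m : M), m ∈ G.piece d →
      ∃ b : Pol ℂ, b.IsHomogeneous (d + 1) ∧ π m = Ideal.Quotient.mk _ b)

/-- The sheaf of the graded module `M` is the fibre at the point `t` of the sheaf of the graded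
module `N` over `B`: there is a degree preserving map `N → M` over `t` such that
`N / (ker t) N → M` becomes bijective after inverting any variable. -/
def IsFibre {B : Type} [CommRing B] [Algebra ℂ B] (t : B →ₐ[ℂ] ℂ)
    {N : Type} [AddCommGroup N] [Module (Pol B) N] (GN : Grading B N)
    {M : Type} [AddCommGroup M] [Module (Pol ℂ) M] (GM : Grading ℂ M) : Prop :=
  ∃ θ : N →+ M,
    (∀ (a : Pol B) (u : N), θ (a • u) = MvPolynomial.map (t : B →+* ℂ) a • θ u) ∧
    (∀ (d : ℕ) (u : N), u ∈ GN.piece d → θ u ∈ GM.piece d) ∧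
    (∀ (m : M) (i : Fin 4), ∃ (k : ℕ) (u : N), (X i : Pol ℂ) ^ k • m = θ u) ∧
    (∀ (u : N) (i : Fin 4), θ u = 0 → ∃ k : ℕ,
      (X i : Pol B) ^ k • u ∈
        ((RingHom.ker (t : B →+* ℂ)).map C : Ideal (Pol B)) • (⊤ : Submodule (Pol B) N))

/-- The linear form with coefficients `c`. -/
noncomputable def linForm {B : Type} [CommRing B] (c : Fin 4 → B) : Pol B :=
  ∑ i, C (c i) * X i

end Pool.Agent.P.MP_2b2d3b_ag
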