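import Mathlib

/-!
Derivations as plain maps, their coefficientwise extension to polynomial rings, and existence of
derivations on fields of characteristic zero.
-/

namespace Pool.Agent.P.MP_2b2d3b_ag

open Polynomial

/-- `d` is additive and satisfies the Leibniz rule. -/
structure IsDer {R : Type} [CommRing R] (d : R → R) : Prop where
  add : ∀ a b, d (a + b) = d a + d b
  mul : ∀ a b, d (a * b) = a * d b + b * d a

namespace IsDer

variable {R : Type} [CommRing R] {d : R → R}

theorem zero (h : IsDer d) : d 0 = 0 := by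
  have := h.add 0 0
  simpa using this

theorem one (h : IsDer d) : d 1 = 0 := by
  have := h.mul 1 1
  simpa using this

theorem neg (h : IsDer d) (a : R) : d (-a) = -d a := by
  have := h.add a (-a)
  rw [add_neg_cancel, h.zero] at this
  linear_combination -this

theorem sub (h : IsDer d) (a b : R) : d (a - b) = d a - d b := by
  rw [sub_eq_add_neg, h.add, h.neg, sub_eq_add_neg]

theorem sum (h : IsDer d) {ι : Type*} (s : Finset ι) (f : ι → R) :
    d (∑ i ∈ s, f i) = ∑ i ∈ s, d (f i) := by
  classical
  induction s using Finset.induction_on with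
  | empty => simpa using h.zero
  | insert a s ha ih => rw [Finset.sum_insert ha, Finset.sum_insert ha, h.add, ih]

theorem mul_zero' (h : IsDer d) {a b : R} (ha : d a = 0) (hb : d b = 0) : d (a * b) = 0 := by
  rw [h.mul, ha, hb]; simp

theorem mul_left (h : IsDer d) {a : R} (ha : d a = 0) (b : R) : d (a * b) = a * d b := by
  rw [h.mul, ha]; simp

theorem mul_right (h : IsDer d) {b : R} (hb : d b = 0) (a : R) : d (a * b) = d a * b := by
  rw [h.mul, hb]; ring

theorem pow_zero' (h : IsDer d) {a : R} (ha : d a = 0) (n : ℕ) : d (a ^ n) = 0 := by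
  induction n with
  | zero => simpa using h.one
  | succ n ih => rw [pow_succ]; exact h.mul_zero' ih ha

theorem natCast (h : IsDer d) (n : ℕ) : d (n : R) = 0 := by
  induction n with
  | zero => simpa using h.zero
  | succ n ih => rw [Nat.cast_succ, h.add, ih, h.one, add_zero]

theorem prod_zero (h : IsDer d) (s : Multiset R) (hs : ∀ a ∈ s, d a = 0) : d s.prod = 0 := by
  induction s using Multiset.induction_on with
  | empty => simpa using h.one
  | cons a s ih =>
    rw [Multiset.prod_cons]
    exact h.mul_zero' (hs a (by simp)) (ih fun b hb => hs b (by simp [hb]))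

/-- chain rule -/
theorem aeval {A : Type} [CommRing A] [Algebra A R] {σ : Type} [Fintype σ] [DecidableEq σ]
    (h : IsDer d) (hA : ∀ a : A, d (algebraMap A R a) = 0) (q : σ → R) (P : MvPolynomial σ A) :
    d (MvPolynomial.aeval q P) =
      ∑ i, MvPolynomial.aeval q (MvPolynomial.pderiv i P) * d (q i) := by
  induction P using MvPolynomial.induction_on with
  | C a => simp [hA]
  | add p p' ih ih' => simp [h.add, ih, ih', add_mul, Finset.sum_add_distrib]
  | mul_X p i ih =>
    rw [map_mul, MvPolynomial.aeval_X, h.mul, ih]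
    simp only [Derivation.leibniz, MvPolynomial.pderiv_X, smul_eq_mul, map_add, map_mul,
      MvPolynomial.aeval_X, add_mul, Finset.sum_add_distrib, Finset.mul_sum]
    congr 1
    · rw [Finset.sum_eq_single i]
      · simp
      · intro j _ hj
        simp [hj.symm]
      · simp
    · exact Finset.sum_congr rfl fun j _ => by ring

end IsDer

/-- coefficientwise extension of `d` to polynomials -/
noncomputable def PD {R : Type} [CommRing R] (d : R → R) (p : R[X]) : R[X] :=
  ∑ n ∈ p.support, monomial n (d (p.coeff n))

section PD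

variable {R : Type} [CommRing R] {d : R → R}

theorem coeff_PD (h : IsDer d) (p : R[X]) (n : ℕ) : (PD d p).coeff n = d (p.coeff n) := by
  classical
  simp only [PD, finsetSum_coeff, coeff_monomial]
  rw [Finset.sum_ite_eq']
  split_ifs with hn
  · rfl
  · rw [notMem_support_iff.mp hn, h.zero]

theorem IsDer.pd (h : IsDer d) : IsDer (PD d) where
  add a b := by ext n; simp [coeff_PD h, h.add]
  mul a b := by
    ext n
    simp only [coeff_PD h, coeff_add, coeff_mul, h.sum, h.mul, Finset.sum_add_distrib]
    congr 1
    rw [← Finset.Nat.sum_antidiagonal_swap]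
    rfl

theorem PD_C (h : IsDer d) (a : R) : PD d (C a) = C (d a) := by
  ext n
  rw [coeff_PD h, coeff_C, coeff_C]
  split_ifs
  · rfl
  · exact h.zero

theorem PD_X (h : IsDer d) : PD d (X : R[X]) = 0 := by
  ext n
  rw [coeff_PD h, coeff_X, coeff_zero]
  split_ifs
  · exact h.one
  · exact h.zero

theorem PD_eq_zero (h : IsDer d) {p : R[X]} : PD d p = 0 ↔ ∀ n, d (p.coeff n) = 0 := by
  constructor
  · intro hp n
    rw [← coeff_PD h, hp, coeff_zero]
  · intro hp
    ext n
    rw [coeff_PD h, hp, coeff_zero]

theorem degree_PD_le (h : IsDer d) (p : R[X]) : (PD d p).degree ≤ p.degree := by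
  rw [degree_le_iff_coeff_zero]
  intro m hm
  rw [coeff_PD h, coeff_eq_zero_of_degree_lt hm, h.zero]

theorem degree_PD_lt (h : IsDer d) {p : R[X]} (hp : p.Monic) [Nontrivial R] :
    (PD d p).degree < p.degree := by
  rw [degree_eq_natDegree hp.ne_zero, degree_lt_iff_coeff_zero]
  intro m hm
  rw [coeff_PD h]
  rcases hm.eq_or_lt with rfl | hm
  · rw [hp.coeff_natDegree, h.one]
  · rw [coeff_eq_zero_of_natDegree_lt hm, h.zero]

theorem IsDer.eval (h : IsDer d) (p : R[X]) (z : R) :
    d (p.eval z) = (PD d p).eval z + p.derivative.eval z * d z := by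
  induction p using Polynomial.induction_on with
  | C a => simp [PD_C h]
  | add p q ih ih' => simp only [eval_add, h.add, h.pd.add, ih, ih', derivative_add]; ring
  | monomial n a ih =>
    have e : C a * X ^ (n + 1) = (C a * X ^ n) * X := by ring
    rw [e, eval_mul, h.mul, ih, h.pd.mul (C a * X ^ n) X, PD_X h, derivative_mul (f := C a * X ^ n)]
    simp only [eval_X, eval_mul, eval_add, derivative_X, mul_zero, zero_add, mul_one]
    ring

theorem PD_derivative (h : IsDer d) (p : R[X]) : PD d p.derivative = (PD d p).derivative := by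
  ext n
  rw [coeff_PD h, coeff_derivative, coeff_derivative, coeff_PD h, h.mul_right]
  have := h.natCast (n + 1)
  simpa using this

theorem isDer_derivative : IsDer (fun p : R[X] => derivative p) where
  add a b := by simp
  mul a b := by simp only [derivative_mul]; ring

theorem PD_modByMonic [Nontrivial R] (h : IsDer d) {q : R[X]} (hq : q.Monic) (hd : PD d q = 0)
    (p : R[X]) : PD d (p %ₘ q) = PD d p %ₘ q := by
  have e := modByMonic_add_div p q
  have e2 : PD d (p %ₘ q) + q * PD d (p /ₘ q) = PD d p := by
    conv_rhs => rw [← e]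
    rw [h.pd.add, h.pd.mul_left hd]
  exact ((div_modByMonic_unique (PD d (p /ₘ q)) (PD d (p %ₘ q)) hq
    ⟨e2, (degree_PD_le h _).trans_lt (degree_modByMonic_lt p hq)⟩).2).symm

theorem PD_divByMonic [Nontrivial R] (h : IsDer d) {q : R[X]} (hq : q.Monic) (hd : PD d q = 0)
    (p : R[X]) : PD d (p /ₘ q) = PD d p /ₘ q := by
  have e := modByMonic_add_div p q
  have e2 : PD d (p %ₘ q) + q * PD d (p /ₘ q) = PD d p := by
    conv_rhs => rw [← e]
    rw [h.pd.add, h.pd.mul_left hd]
  exact ((div_modByMonic_unique (PD d (p /ₘ q)) (PD d (p %ₘ q)) hq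
    ⟨e2, (degree_PD_le h _).trans_lt (degree_modByMonic_lt p hq)⟩).1).symm

/-- roots of polynomials with constant coefficients are constant -/
theorem IsDer.root {K : Type} [Field K] [CharZero K] {d : K → K} (h : IsDer d) (r : K[X])
    (hr : r ≠ 0) (hd : PD d r = 0) {z : K} (hz : r.eval z = 0) : d z = 0 := by
  by_contra hne
  induction hn : r.natDegree using Nat.strong_induction_on generalizing r with
  | _ n ih =>
    have e := h.eval r z
    rw [hz, h.zero, hd, eval_zero, zero_add] at e
    have e' : r.derivative.eval z = 0 := (mul_eq_zero.mp e.symm).resolve_right hne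
    by_cases h0 : r.natDegree = 0
    · rw [eq_C_of_natDegree_eq_zero h0] at hz hr
      simp only [eval_C] at hz
      simp [hz] at hr
    · have hr' : r.derivative ≠ 0 := fun h' => h0 (derivative_eq_zero.mp h')
      exact ih _ (hn ▸ natDegree_derivative_lt h0) r.derivative hr'
        (by rw [PD_derivative h, hd, derivative_zero]) e' rfl

end PD

/-- dual numbers, as a type synonym carrying only the ring structure -/
def Dual (K : Type) [Field K] : Type := TrivSqZeroExt K K

noncomputable instance (K : Type) [Field K] : CommRing (Dual K) :=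
  inferInstanceAs (CommRing (TrivSqZeroExt K K))

open scoped IntermediateField.algebraAdjoinAdjoin in
theorem exists_der_of_transcendental {L K : Type} [Field L] [Field K] [Algebra L K] [CharZero L]
    {z : K} (hz : Transcendental L z) :
    ∃ d : K → K, IsDer d ∧ (∀ a : L, d (algebraMap L K a) = 0) ∧ d z = 1 := by
  classical
  have key0 : ∀ a b : TrivSqZeroExt K K, a.fst = 0 → b.fst = 0 → a * b = 0 := by
    intro a b ha hb
    apply TrivSqZeroExt.ext
    · simp [ha]
    · simp [ha, hb]
  have key1 : ∀ a b : TrivSqZeroExt K K, (a * b).snd = a.fst * b.snd + b.fst * a.snd := by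
    intro a b
    simp [mul_comm]
  have h1 : AlgebraicIndepOn L id ({z} : Set K) := by
    rw [AlgebraicIndepOn, algebraicIndependent_unique_type_iff]
    simpa using hz
  obtain ⟨t, hzt, ht⟩ := exists_isTranscendenceBasis_superset h1
  have hb : AlgebraicIndependent L ((↑) : t → K) := ht.1
  set A0 := Algebra.adjoin L (Set.range ((↑) : t → K))
  set E := IntermediateField.adjoin L (Set.range ((↑) : t → K))
  have halg : Algebra.IsAlgebraic E K := ht.isAlgebraic_field
  have : CharZero E := algebraRat.charZero _
  have hsep : Algebra.IsSeparable E K := inferInstance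
  have s1 : Algebra.FormallySmooth A0 E := .of_isLocalization (nonZeroDivisors _)
  have s2 : Algebra.FormallyEtale E K := Algebra.FormallyEtale.of_isSeparable _ K
  have s3 : Algebra.FormallySmooth A0 K := .comp _ E _
  let j0 : MvPolynomial t L →ₐ[L] TrivSqZeroExt K K :=
    MvPolynomial.aeval fun s => TrivSqZeroExt.inl (s : K) +
      TrivSqZeroExt.inr (if (s : K) = z then 1 else 0)
  let j1 : A0 →+* Dual K := (j0.comp hb.aevalEquiv.symm.toAlgHom).toRingHom
  let _ : Algebra A0 (Dual K) := j1.toAlgebra
  have hfst : ∀ p : MvPolynomial t L,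
      (j0 p).fst = MvPolynomial.aeval ((↑) : t → K) p := by
    intro p
    have : (TrivSqZeroExt.fstHom L K K).comp j0 = MvPolynomial.aeval ((↑) : t → K) := by
      ext s
      simp only [j0, AlgHom.comp_apply, MvPolynomial.aeval_X, TrivSqZeroExt.fstHom_apply,
        TrivSqZeroExt.fst_add, TrivSqZeroExt.fst_inl, TrivSqZeroExt.fst_inr, add_zero]
    exact AlgHom.congr_fun this p
  let g : Dual K →ₐ[A0] K :=
    { toRingHom := (TrivSqZeroExt.fstHom L K K).toRingHom
      commutes' := fun a => by
        obtain ⟨p, rfl⟩ := hb.aevalEquiv.surjective a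
        change (j0 (hb.aevalEquiv.symm (hb.aevalEquiv p))).fst = _
        rw [AlgEquiv.symm_apply_apply, hfst]
        rfl }
  have hg : Function.Surjective g := fun x => ⟨TrivSqZeroExt.inl x, rfl⟩
  have hn : IsNilpotent (RingHom.ker (g : Dual K →+* K)) := by
    refine ⟨2, ?_⟩
    rw [pow_two, Ideal.zero_eq_bot, eq_bot_iff, Ideal.mul_le]
    intro a ha b hb'
    have ha' : TrivSqZeroExt.fst (a : TrivSqZeroExt K K) = 0 := ha
    have hb'' : TrivSqZeroExt.fst (b : TrivSqZeroExt K K) = 0 := hb'
    exact key0 a b ha' hb''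
  let j := Algebra.FormallySmooth.liftOfSurjective (AlgHom.id A0 K) g hg hn
  have hj : ∀ x, TrivSqZeroExt.fst (j x : TrivSqZeroExt K K) = x := fun x =>
    Algebra.FormallySmooth.liftOfSurjective_apply (AlgHom.id A0 K) g hg hn x
  have hjA : ∀ p : MvPolynomial t L, j (MvPolynomial.aeval ((↑) : t → K) p) = j0 p := by
    intro p
    have := j.commutes (hb.aevalEquiv p)
    change j (MvPolynomial.aeval ((↑) : t → K) p) =
      j0 (hb.aevalEquiv.symm (hb.aevalEquiv p)) at this
    rwa [AlgEquiv.symm_apply_apply] at this
  refine ⟨fun x => TrivSqZeroExt.snd (j x : TrivSqZeroExt K K), ⟨fun a b => ?_, fun a b => ?_⟩,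
    fun a => ?_, ?_⟩
  · rw [map_add]; rfl
  · rw [map_mul]
    have := key1 (j a) (j b)
    rw [hj, hj] at this
    exact this
  · have := hjA (MvPolynomial.C a)
    rw [MvPolynomial.aeval_C] at this
    simp only [this, j0, MvPolynomial.aeval_C]
    simp [TrivSqZeroExt.algebraMap_eq_inl']
  · have := hjA (MvPolynomial.X ⟨z, hzt rfl⟩)
    rw [MvPolynomial.aeval_X] at this
    simp only [this, j0, MvPolynomial.aeval_X]
    simp

end Pool.Agent.P.MP_2b2d3b_ag
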