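import Pool.Agent.P.MP_2b2d3b_ag.St

/-!
Package Dim: Nullstellensatz, generic fibres, dimension counts, semicontinuity of the rank.
-/

namespace Pool.Agent.P.MP_2b2d3b_ag

open MvPolynomial Module Topology

namespace DimP

theorem pt_of_ne_top (R : Type) [CommRing R] [Algebra ℂ R] [Algebra.FiniteType ℂ R]
    (I : Ideal R) (hI : I ≠ ⊤) : ∃ t : R →ₐ[ℂ] ℂ, ∀ a ∈ I, t a = 0 := by
  obtain ⟨m, hm, hle⟩ := Ideal.exists_le_maximal I hI
  let := Ideal.Quotient.field m
  have h1 : Module.Finite ℂ (R ⧸ m) := finite_of_finite_type_of_isJacobsonRing ℂ (R ⧸ m)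
  have h2 : Function.Bijective (algebraMap ℂ (R ⧸ m)) :=
    IsAlgClosed.algebraMap_bijective_of_isIntegral
  let e : ℂ ≃ₐ[ℂ] (R ⧸ m) := AlgEquiv.ofBijective (Algebra.ofId ℂ (R ⧸ m)) h2
  refine ⟨(e.symm : (R ⧸ m) →ₐ[ℂ] ℂ).comp (Ideal.Quotient.mkₐ ℂ m), fun a ha => ?_⟩
  have : Ideal.Quotient.mk m a = 0 := Ideal.Quotient.eq_zero_iff_mem.2 (hle ha)
  simp [this]

end DimP

theorem nS : S_NS := by
  intro A _ _ _ J h hh
  have : IsJacobsonRing A := isJacobsonRing_of_finiteType (A := ℂ)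
  rw [Ideal.radical_eq_jacobson, Ideal.jacobson, Ideal.mem_sInf] at hh
  push Not at hh
  obtain ⟨m, ⟨hJ, hm⟩, hhm⟩ := hh
  obtain ⟨t, ht⟩ := DimP.pt_of_ne_top A m hm.ne_top
  refine ⟨t, fun a ha => ht a (hJ ha), fun h0 => hhm ?_⟩
  have h1 : m ≤ RingHom.ker (t : A →+* ℂ) := fun a ha => ht a ha
  rw [hm.eq_of_le (RingHom.ker_ne_top _) h1]
  exact h0

namespace DimP

theorem pt_of_ne_zero (D : Type) [CommRing D] [IsDomain D] [Algebra ℂ D] [Algebra.FiniteType ℂ D]
    {h : D} (hh : h ≠ 0) : ∃ t : D →ₐ[ℂ] ℂ, t h ≠ 0 := by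
  obtain ⟨t, -, ht⟩ := nS D ⊥ h (by
    rw [Ideal.radical_bot_of_isReduced]; simpa using hh)
  exact ⟨t, ht⟩

theorem nhds_of_constructible {X : Type} [TopologicalSpace X] {η : X} (hη : ∀ x, η ⤳ x)
    {s : Set X} (hs : IsConstructible s) : s ∈ 𝓝 η ∨ sᶜ ∈ 𝓝 η := by
  induction hs using IsConstructible.empty_union_induction with
  | open_retrocompact U hU _ =>
    by_cases h : η ∈ U
    · exact Or.inl (hU.mem_nhds h)
    · right
      have : Uᶜ = Set.univ := Set.eq_univ_of_forall fun x hx => h ((hη x).mem_open hU hx)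
      rw [this]; exact Filter.univ_mem
  | union s _ t _ h1 h2 =>
    rcases h1 with h1 | h1
    · exact Or.inl (Filter.mem_of_superset h1 Set.subset_union_left)
    rcases h2 with h2 | h2
    · exact Or.inl (Filter.mem_of_superset h2 Set.subset_union_right)
    · right; rw [Set.compl_union]; exact Filter.inter_mem h1 h2
  | compl s _ h1 =>
    rcases h1 with h1 | h1
    · right; rwa [compl_compl]
    · exact Or.inl h1

/-- points off a hypersurface lift along a dominant map -/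
theorem exists_lift (R S : Type) [CommRing R] [IsDomain R] [Algebra ℂ R] [Algebra.FiniteType ℂ R]
    [CommRing S] [Algebra ℂ S] [Algebra.FiniteType ℂ S] (φ : R →ₐ[ℂ] S)
    (hφ : Function.Injective φ) :
    ∃ r : R, r ≠ 0 ∧ ∀ s : R →ₐ[ℂ] ℂ, s r ≠ 0 → ∃ t : S →ₐ[ℂ] ℂ, t.comp φ = s := by
  have hN : IsNoetherianRing R := Algebra.FiniteType.isNoetherianRing ℂ R
  have hft : (φ : R →+* S).FiniteType := by
    refine RingHom.FiniteType.of_comp_finiteType (f := algebraMap ℂ R) ?_
    rw [φ.comp_algebraMap]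
    exact RingHom.finiteType_algebraMap.2 inferInstance
  have hfp : (φ : R →+* S).FinitePresentation := RingHom.FinitePresentation.of_finiteType.1 hft
  have hc := PrimeSpectrum.isConstructible_range_comap hfp
  set η : PrimeSpectrum R := ⟨⊥, Ideal.isPrime_bot⟩ with hηd
  have hη : ∀ x, η ⤳ x := fun x => (PrimeSpectrum.le_iff_specializes η x).1 bot_le
  have hmem : η ∈ Set.range (PrimeSpectrum.comap (φ : R →+* S)) := by
    obtain ⟨q, hq, hq'⟩ := Ideal.exists_comap_eq_of_mem_minimalPrimes_of_injective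
      (f := (φ : R →+* S)) hφ ⊥ (by rw [IsDomain.minimalPrimes_eq_singleton_bot]; rfl)
    exact ⟨⟨q, hq⟩, PrimeSpectrum.ext hq'⟩
  have hn := (nhds_of_constructible hη hc).resolve_right fun h => mem_of_mem_nhds h hmem
  obtain ⟨_, ⟨r, rfl⟩, hr1, hr2⟩ := PrimeSpectrum.isTopologicalBasis_basic_opens.mem_nhds_iff.1 hn
  refine ⟨r, fun h0 => hr1 (by simp [h0]), fun s hs => ?_⟩
  obtain ⟨q, hq⟩ := hr2 (a := ⟨RingHom.ker (s : R →+* ℂ), RingHom.ker_isPrime _⟩) hs
  obtain ⟨t, ht⟩ := pt_of_ne_top S q.asIdeal q.2.ne_top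
  refine ⟨t, AlgHom.ext fun a => ?_⟩
  have h1 : a - algebraMap ℂ R (s a) ∈ RingHom.ker (s : R →+* ℂ) := by
    simp [RingHom.mem_ker]
  have h2 : Ideal.comap (φ : R →+* S) q.asIdeal = RingHom.ker (s : R →+* ℂ) :=
    congrArg PrimeSpectrum.asIdeal hq
  rw [← h2, Ideal.mem_comap] at h1
  have h3 := ht _ h1
  simpa [sub_eq_zero] using h3

end DimP

theorem alg : S_Alg := by
  intro D _ _ _ _ h ζ ι _ y hh hfin
  by_contra htr
  set R0 := Algebra.adjoin ℂ (Set.range y) with hR0
  have hft : Algebra.FiniteType ℂ R0 :=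
    (Subalgebra.fg_iff_finiteType _).1 (Subalgebra.fg_def.2 ⟨_, Set.finite_range y, rfl⟩)
  let S := Localization.Away h
  have hS0 : Algebra.FinitePresentation D S := IsLocalization.Away.finitePresentation h
  have hS : Algebra.FiniteType ℂ S := Algebra.FiniteType.trans (S := D) inferInstance inferInstance
  let φ0 : Polynomial R0 →ₐ[ℂ] D := (Polynomial.aeval ζ).restrictScalars ℂ
  let ι0 : D →ₐ[ℂ] S := IsScalarTower.toAlgHom ℂ D S
  have h1 : Function.Injective φ0 := transcendental_iff_injective.1 htr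
  have h2 : Function.Injective ι0 :=
    IsLocalization.injective S (powers_le_nonZeroDivisors_of_noZeroDivisors hh)
  obtain ⟨r, hr, hlift⟩ := DimP.exists_lift (Polynomial R0) S (ι0.comp φ0) (h2.comp h1)
  obtain ⟨t0, ht0⟩ := DimP.pt_of_ne_zero R0 (Polynomial.leadingCoeff_ne_zero.2 hr)
  have hr0 : r.map (t0 : R0 →+* ℂ) ≠ 0 := fun h0 => ht0 (by
    have := congrArg (fun p => Polynomial.coeff p r.natDegree) h0
    simpa using this)
  have hinf : {z : ℂ | ¬ (r.map (t0 : R0 →+* ℂ)).IsRoot z}.Infinite :=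
    (Polynomial.finite_setOfPred_isRoot hr0).infinite_compl
  refine hinf ((hfin fun i => t0 ⟨y i, Algebra.subset_adjoin ⟨i, rfl⟩⟩).subset fun z hz => ?_)
  let s : Polynomial R0 →ₐ[ℂ] ℂ := Polynomial.eval₂AlgHom t0 z fun a => Commute.all _ _
  have hs : ∀ p, s p = p.eval₂ (t0 : R0 →+* ℂ) z := fun p => rfl
  obtain ⟨t, ht⟩ := hlift s (by rw [hs, Polynomial.eval₂_eq_eval_map]; exact hz)
  refine ⟨t.comp ι0, ?_, fun i => ?_, ?_⟩
  · exact ((IsLocalization.Away.algebraMap_isUnit (S := S) h).map t).ne_zero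
  · have := DFunLike.congr_fun ht (Polynomial.C ⟨y i, Algebra.subset_adjoin ⟨i, rfl⟩⟩)
    rw [hs, Polynomial.eval₂_C] at this
    simpa [φ0] using this
  · have := DFunLike.congr_fun ht Polynomial.X
    rw [hs, Polynomial.eval₂_X] at this
    simpa [φ0] using this

namespace DimP

theorem mem_cl {E : Type} [CommRing E] [IsDomain E] [Algebra ℂ E] {s : Set E} {a : E} :
    a ∈ (AlgebraicIndependent.matroid ℂ E).closure s ↔ IsAlgebraic (Algebra.adjoin ℂ s) a := by
  rw [AlgebraicIndependent.matroid_closure_eq]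
  exact Subalgebra.mem_algebraicClosure _ _

theorem card_le {E : Type} [CommRing E] [IsDomain E] [Algebra ℂ E] {ι κ : Type} [Fintype ι]
    [Fintype κ] {x : ι → E} (hx : AlgebraicIndependent ℂ x) (y : κ → E)
    (h : ∀ i, x i ∈ (AlgebraicIndependent.matroid ℂ E).closure (Set.range y)) :
    Fintype.card ι ≤ Fintype.card κ := by
  set M := AlgebraicIndependent.matroid ℂ E
  have hI : M.Indep (Set.range x) := AlgebraicIndependent.matroid_indep_iff.2 hx.to_subtype_range
  have h1 : (Set.range x).encard ≤ M.eRk (M.closure (Set.range y)) :=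
    hI.encard_le_eRk_of_subset (by rintro _ ⟨i, rfl⟩; exact h i)
  rw [M.eRk_closure_eq] at h1
  have h2 := hx.injective.encard_range.trans (h1.trans (M.eRk_le_encard _))
  have h3 : (Set.range y).encard ≤ Fintype.card κ := by
    rw [← Set.image_univ]
    exact (Set.encard_image_le _ _).trans (by simp)
  have h4 := h2.trans h3
  simpa using h4

theorem noether (B : Type) [CommRing B] [IsDomain B] [Algebra ℂ B] [Algebra.FiniteType ℂ B] :
    ∃ (d : ℕ) (u : Fin d → B), AlgebraicIndependent ℂ u ∧ ringKrullDim B = d ∧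
      ∀ b : B, IsAlgebraic (Algebra.adjoin ℂ (Set.range u)) b := by
  obtain ⟨d, g, hg, hint⟩ := exists_integral_inj_algHom_of_fg ℂ B
  have hgu : g = aeval fun i => g (X i) := by ext i; simp
  let : Algebra (MvPolynomial (Fin d) ℂ) B := g.toRingHom.toAlgebra
  have hI : Algebra.IsIntegral (MvPolynomial (Fin d) ℂ) B := ⟨hint⟩
  have hP : ringKrullDim (MvPolynomial (Fin d) ℂ) = d := by
    rw [MvPolynomial.ringKrullDim_of_isNoetherianRing, ringKrullDim_eq_zero_of_field]; simp
  refine ⟨d, fun i => g (X i), by rw [AlgebraicIndependent, ← hgu]; exact hg, ?_, fun b => ?_⟩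
  · rw [← hP]
    refine le_antisymm ?_ ?_
    · refine Order.krullDim_le_of_strictMono
        (PrimeSpectrum.comap (algebraMap (MvPolynomial (Fin d) ℂ) B)) fun p q hpq => ?_
      exact Ideal.IsIntegral.comap_lt_comap (R := MvPolynomial (Fin d) ℂ) hpq
    · refine iSup_le fun l => ?_
      obtain ⟨P, -, hP1, hP2⟩ := Ideal.exists_ideal_over_prime_of_isIntegral
        (S := B) l.head.asIdeal ⊥ (by
          intro a ha
          have : a = 0 := hg (by rw [map_zero]; exact ha)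
          simp [this])
      have : P.LiesOver l.head.asIdeal := ⟨hP2.symm⟩
      obtain ⟨L, hL, -⟩ := Ideal.exists_ltSeries_of_hasGoingUp l P
      rw [← hL]
      exact Order.LTSeries.length_le_krullDim L
  · obtain ⟨p, hp, hp0⟩ := hint b
    let g' : MvPolynomial (Fin d) ℂ →+* Algebra.adjoin ℂ (Set.range fun i => g (X i)) :=
      g.toRingHom.codRestrict _ fun a => by
        rw [Algebra.adjoin_range_eq_range_aeval, ← hgu]; exact ⟨a, rfl⟩
    refine IsIntegral.isAlgebraic ⟨p.map g', hp.map _, ?_⟩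
    rw [Polynomial.eval₂_map]
    exact hp0

theorem alg_map {B E : Type} [CommRing B] [Algebra ℂ B] [CommRing E] [Algebra ℂ E]
    (f : B →ₐ[ℂ] E) (hf : Function.Injective f) {κ : Type} {u : κ → B} {b : B}
    (h : IsAlgebraic (Algebra.adjoin ℂ (Set.range u)) b) :
    IsAlgebraic (Algebra.adjoin ℂ (Set.range (f ∘ u))) (f b) := by
  let g : Algebra.adjoin ℂ (Set.range u) →+* Algebra.adjoin ℂ (Set.range (f ∘ u)) :=
    (f.toRingHom.comp (Algebra.adjoin ℂ (Set.range u)).val.toRingHom).codRestrict _ fun a => by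
      rw [Set.range_comp, Algebra.adjoin_image]
      exact ⟨a, a.2, rfl⟩
  refine h.ringHom_of_comp_eq g (f : B →+* E) (fun a a' haa => ?_) (RingHom.ext fun a => rfl)
  exact Subtype.ext (hf (congrArg Subtype.val haa))

end DimP

theorem dimLe : S_DimLe := by
  intro A D W _ _ _ _ _ _ _ _ _ _ ψ ρ h k y hh hlift hfin
  have hpr : (RingHom.ker ψ).IsPrime := RingHom.ker_isPrime _
  obtain ⟨d, u, hu, hd, -⟩ := DimP.noether (A ⧸ RingHom.ker ψ)
  rw [hd]
  have hρ : Function.Injective ρ := by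
    rw [injective_iff_map_eq_zero]
    intro a ha
    by_contra h0
    obtain ⟨t, ht⟩ := DimP.pt_of_ne_zero D (mul_ne_zero h0 hh)
    rw [map_mul] at ht
    obtain ⟨t', rfl⟩ := hlift t (right_ne_zero_of_mul ht)
    simp [ha] at ht
  obtain ⟨q, hq, hq'⟩ := Ideal.exists_comap_eq_of_mem_minimalPrimes_of_injective
    (f := (ρ : D →+* W)) hρ ⊥ (by rw [IsDomain.minimalPrimes_eq_singleton_bot]; rfl)
  let π : W →ₐ[ℂ] W ⧸ q := Ideal.Quotient.mkₐ ℂ q
  have hρ' : Function.Injective (π.comp ρ) := by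
    rw [injective_iff_map_eq_zero]
    intro a ha
    have : a ∈ Ideal.comap (ρ : D →+* W) q := (Ideal.Quotient.eq_zero_iff_mem (I := q)).1 ha
    rwa [hq'] at this
  let ψ' : (A ⧸ RingHom.ker ψ) →ₐ[ℂ] D := Ideal.kerLiftAlg ψ
  have hψ' : Function.Injective ψ' := Ideal.kerLiftAlg_injective ψ
  have hind : AlgebraicIndependent ℂ (((π.comp ρ).comp ψ') ∘ u) := hu.map' (hρ'.comp hψ')
  have := DimP.card_le hind (fun i => π (y i)) fun i => by
    rw [DimP.mem_cl]
    obtain ⟨a, ha⟩ := Ideal.Quotient.mk_surjective (u i)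
    refine alg (W ⧸ q) (π (ρ h)) _ (Fin k) _ (fun h0 => hh (hρ' (by simpa using h0))) fun y0 => ?_
    refine (hfin y0 a).subset ?_
    rintro z ⟨t, h1, h2, h3⟩
    refine ⟨t.comp π, h1, h2, ?_⟩
    rw [← h3, Function.comp_apply, ← ha]
    rfl
  simpa using this

theorem dimGe : S_DimGe := by
  intro A D _ _ _ _ _ _ _ ψ h s k ζ y hh hζ hfin
  have hpr : (RingHom.ker ψ).IsPrime := RingHom.ker_isPrime _
  obtain ⟨d, u, -, hd, hu⟩ := DimP.noether (A ⧸ RingHom.ker ψ)
  rw [hd]
  let ψ' : (A ⧸ RingHom.ker ψ) →ₐ[ℂ] D := Ideal.kerLiftAlg ψ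
  have hψ' : Function.Injective ψ' := Ideal.kerLiftAlg_injective ψ
  obtain ⟨n, f, hf⟩ := Algebra.FiniteType.iff_quotient_mvPolynomial''.1
    (inferInstance : Algebra.FiniteType ℂ A)
  set M := AlgebraicIndependent.matroid ℂ D
  have := DimP.card_le hζ (Sum.elim (ψ' ∘ u) y) fun i => by
    have h1 : ζ i ∈ M.closure (Set.range (Sum.elim (fun j => ψ (f (X j))) y)) := by
      rw [DimP.mem_cl]
      refine alg D h _ _ _ hh fun y0 => ?_
      rcases Set.eq_empty_or_nonempty {z | ∃ t : D →ₐ[ℂ] ℂ, t h ≠ 0 ∧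
        (∀ j, t (Sum.elim (fun j => ψ (f (X j))) y j) = y0 j) ∧ t (ζ i) = z} with he | he
      · rw [he]; exact Set.finite_empty
      obtain ⟨_, t0, h01, h02, -⟩ := he
      refine (hfin t0 i h01).subset ?_
      rintro z ⟨t, h1, h2, h3⟩
      refine ⟨t, h1, AlgHom.ext fun a => ?_, fun j => (h2 (.inr j)).trans (h02 (.inr j)).symm, h3⟩
      obtain ⟨p, rfl⟩ := hf a
      have : (t.comp ψ).comp f = (t0.comp ψ).comp f :=
        MvPolynomial.algHom_ext fun j => (h2 (.inl j)).trans (h02 (.inl j)).symm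
      exact DFunLike.congr_fun this p
    refine M.closure_subset_closure_of_subset_closure ?_ h1
    rintro _ ⟨j | j, rfl⟩
    · have h2 := DimP.mem_cl.2 (DimP.alg_map ψ' hψ' (hu (Ideal.Quotient.mk _ (f (X j)))))
      refine M.closure_subset_closure ?_ h2
      rintro _ ⟨l, rfl⟩
      exact ⟨.inl l, rfl⟩
    · exact M.subset_closure _ (Set.subset_univ _) ⟨.inr j, rfl⟩
  simp only [Fintype.card_fin, Fintype.card_sum] at this
  exact_mod_cast this

theorem semi : S_Semi := by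
  intro A _ _ m n _ _ Φ t0
  classical
  set f := (Φ.map t0).mulVecLin with hf
  let b := Module.finBasis ℂ (LinearMap.range f)
  choose q hq using fun i => (b i).2
  let Q : (Fin (finrank ℂ (LinearMap.range f)) → ℂ) →ₗ[ℂ] (n → ℂ) :=
    (Pi.basisFun ℂ _).constr ℂ q
  have hinj : LinearMap.ker (f.comp Q) = ⊥ := by
    have : f.comp Q = (LinearMap.range f).subtype.comp b.equivFun.symm.toLinearMap := by
      refine (Pi.basisFun ℂ _).ext fun i => ?_
      simp [Q, hq, Pi.single_apply]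
    rw [this, LinearMap.ker_eq_bot]
    exact (Submodule.injective_subtype _).comp b.equivFun.symm.injective
  obtain ⟨P, hP⟩ := LinearMap.exists_leftInverse_of_injective _ hinj
  let Pm := LinearMap.toMatrix' P
  let Qm := LinearMap.toMatrix' Q
  have h1 : Pm * Φ.map t0 * Qm = 1 := by
    have := congrArg LinearMap.toMatrix' hP
    have h0 : LinearMap.toMatrix' f = Φ.map t0 := LinearMap.toMatrix'_toLin' (Φ.map t0)
    rw [LinearMap.toMatrix'_comp, LinearMap.toMatrix'_comp, LinearMap.toMatrix'_id, h0] at this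
    rw [Matrix.mul_assoc]; exact this
  have hmap : ∀ t : A →ₐ[ℂ] ℂ,
      t (Pm.map (algebraMap ℂ A) * Φ * Qm.map (algebraMap ℂ A)).det = (Pm * Φ.map t * Qm).det := by
    intro t
    rw [AlgHom.map_det]
    congr 1
    ext i j
    simp [Matrix.mul_apply, map_sum]
  refine ⟨(Pm.map (algebraMap ℂ A) * Φ * Qm.map (algebraMap ℂ A)).det, ?_, fun t ht => ?_⟩
  · rw [hmap, h1]; simp
  · rw [hmap] at ht
    have h2 : (Pm * Φ.map t * Qm).rank = finrank ℂ (LinearMap.range f) := by
      rw [Matrix.rank_of_isUnit _ ((Matrix.isUnit_iff_isUnit_det _).2 (Ne.isUnit ht))]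
      simp
    have h3 : (Pm * Φ.map t * Qm).rank ≤ (Φ.map t).rank :=
      (Matrix.rank_mul_le_left _ _).trans (Matrix.rank_mul_le_right _ _)
    have h4 := LinearMap.finrank_range_add_finrank_ker f
    have h5 := LinearMap.finrank_range_add_finrank_ker (Φ.map t).mulVecLin
    have h6 : (Φ.map t).rank = finrank ℂ (LinearMap.range (Φ.map t).mulVecLin) := rfl
    omega

end Pool.Agent.P.MP_2b2d3b_ag
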