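import Pool.Agent.P.MP_2b2d3b_ag.StE

/-!
The theorem of Burnside: an irreducible family of matrices generates the matrix algebra.
-/

namespace Pool.Agent.P.MP_2b2d3b_ag

open Matrix

namespace EBurnP

/-- an irreducible subalgebra of the endomorphism algebra is everything -/
theorem eq_top {V : Type} [AddCommGroup V] [Module ℂ V] [FiniteDimensional ℂ V] [Nontrivial V]
    (R : Subalgebra ℂ (Module.End ℂ V))
    (h : ∀ W : Submodule ℂ V, (∀ r ∈ R, ∀ v ∈ W, r v ∈ W) → W = ⊥ ∨ W = ⊤) (f : Module.End ℂ V) :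
    f ∈ R := by
  classical
  have hs : IsSimpleModule R V := by
    rw [isSimpleModule_iff]
    refine ⟨fun W => ?_⟩
    rcases h (W.restrictScalars ℂ) (fun r hr v hv => W.smul_mem (⟨r, hr⟩ : R) hv) with h1 | h1
    · exact Or.inl (Submodule.restrictScalars_injective ℂ R V (by simpa using h1))
    · exact Or.inr (Submodule.restrictScalars_injective ℂ R V (by simpa using h1))
  let f' : Module.End (Module.End R V) V :=
    { toFun := f
      map_add' := f.map_add
      map_smul' := fun g v => by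
        obtain ⟨c, rfl⟩ := (IsSimpleModule.algebraMap_end_bijective_of_isAlgClosed ℂ).2 g
        simp }
  obtain ⟨s, hs'⟩ := Module.Finite.fg_top (R := ℂ) (M := V)
  obtain ⟨r, hr⟩ := jacobson_density f' s
  have : f = r.1 := LinearMap.ext_on hs' fun m hm => hr m hm
  rw [this]
  exact r.2

theorem wd_mem {Ψ R : Type} [Monoid R] (A : Ψ → R) {x : R}
    (hx : x ∈ Submonoid.closure (Set.range A)) : x ∈ Set.range (wd A) := by
  induction hx using Submonoid.closure_induction with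
  | mem x hx =>
    obtain ⟨ψ, rfl⟩ := hx
    exact ⟨[ψ], by simp [wd]⟩
  | one => exact ⟨[], by simp [wd]⟩
  | mul x y _ _ hx hy =>
    obtain ⟨l, rfl⟩ := hx
    obtain ⟨l', rfl⟩ := hy
    exact ⟨l ++ l', by simp [wd]⟩

theorem span_top {Ψ n : Type} [Fintype n] [DecidableEq n] [Nonempty n] (A : Ψ → Matrix n n ℂ)
    (h : ∀ W : Submodule ℂ (n → ℂ), (∀ ψ, ∀ v ∈ W, (A ψ).mulVec v ∈ W) → W = ⊥ ∨ W = ⊤) :
    Submodule.span ℂ (Set.range (wd A)) = ⊤ := by
  let e : Matrix n n ℂ ≃ₐ[ℂ] Module.End ℂ (n → ℂ) := Matrix.toLinAlgEquiv'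
  have key : ∀ f, f ∈ (Algebra.adjoin ℂ (Set.range A)).map e.toAlgHom := by
    refine eq_top _ fun W hW => h W fun ψ v hv => ?_
    exact hW (e (A ψ)) ⟨A ψ, Algebra.subset_adjoin ⟨ψ, rfl⟩, rfl⟩ v hv
  rw [eq_top_iff]
  intro x _
  obtain ⟨y, hy, hxy⟩ := key (e x)
  have : y = x := e.injective hxy
  subst this
  have h1 : y ∈ Subalgebra.toSubmodule (Algebra.adjoin ℂ (Set.range A)) := hy
  rw [Algebra.adjoin_eq_span] at h1
  exact Submodule.span_mono (fun z hz => wd_mem A hz) h1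

/-- a matrix as a vector -/
def flat (n : Type) : Matrix n n ℂ →ₗ[ℂ] (n × n → ℂ) where
  toFun x q := x q.1 q.2
  map_add' _ _ := rfl
  map_smul' _ _ := rfl

theorem flat_ker (n : Type) : LinearMap.ker (flat n) = ⊥ :=
  LinearMap.ker_eq_bot.2 fun _ _ h => Matrix.ext fun a b => congrFun h (a, b)

end EBurnP

theorem burn : S_Burn := by
  intro Ψ n _ _ A h
  rcases isEmpty_or_nonempty n with hn | hn
  · exact ⟨fun _ => [], by simp [wdet]⟩
  obtain ⟨κ, a, -, h1, h2⟩ := exists_linearIndependent' ℂ (wd A)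
  rw [EBurnP.span_top A h] at h1
  let b : Module.Basis κ ℂ (Matrix n n ℂ) := Module.Basis.mk h2 h1.ge
  let σ : n × n ≃ κ := (Matrix.stdBasis ℂ n n).indexEquiv b
  refine ⟨fun p => a (σ p), ?_⟩
  rw [wdet, ← Matrix.isUnit_iff_isUnit_det, ← Matrix.linearIndependent_rows_iff_isUnit]
  exact (h2.comp σ σ.injective).map' (EBurnP.flat n) (EBurnP.flat_ker n)

end Pool.Agent.P.MP_2b2d3b_ag
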