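import Pool.Agent.P.MP_2b2d3b_ag.Kn

/-!
Pull back, transfer and local injectivity of the charts.
-/

namespace Pool.Agent.P.MP_2b2d3b_ag

open MvPolynomial

theorem c0 (hP : S_FrPull) (hT : S_FrTr) : S_C0 := by
  intro F hF D B B' _ _ _ _ φ E
  refine ⟨fun E' y h hp => ?_, fun E1 E2 y h1 h2 h => ?_⟩
  · obtain ⟨ω, s, G, hf, hg, hi, hb⟩ := h
    obtain ⟨θ, hθ⟩ := hp.exists
    obtain ⟨ω', s', hf', -⟩ := hP F hF.rg B B' _ φ E E' θ _ ω s _ hθ hf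
    refine ⟨ω', s', mpM φ G, ?_, ?_, hi.map φ, fun t => ?_⟩
    · rwa [Og_mpM]
    · rw [Og_mpM]; exact GramP.map_gd hg φ
    · obtain ⟨E0, ω0, s0, h0⟩ := hb (t.comp φ)
      refine ⟨E0, ω0, s0, ?_⟩
      rwa [← Og_mpM, mpM_mpM, Og_mpM]
  · obtain ⟨ω, s, G, hf, hr⟩ := h
    obtain ⟨ω', s', hf', -⟩ := (hT F hF.rg B B' _ φ E E1 E2 _ s h1 h2).1 ω _ hf
    exact ⟨ω', s', G, hf', hr⟩

theorem c1 (hB : S_NbBC) (h0 : S_C0) : S_C1 := by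
  intro F hF D B B' _ _ _ _ _ φ E
  refine ⟨fun E' y h hp t => ?_, fun E1 E2 y h1 h2 h t => ?_⟩
  · obtain ⟨U, E1, hp1, hc⟩ := h (t.comp φ)
    obtain ⟨V, χ, e, -⟩ := hB B B' φ _ t U rfl
    obtain ⟨E2, hp2⟩ := (Kn.pbk hF).ex V.ψ E'
    obtain ⟨E3, hp3⟩ := (Kn.pbk hF).ex χ E1
    have h3 := (h0 F hF D _ _ χ E1).1 E3 _ hc hp3
    have h4 := hp1.comp hp3
    rw [← AlgHom.comp_assoc, e] at h3
    rw [e] at h4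
    exact ⟨V, E2, hp2, (h0 F hF D _ _ _ E).2 E3 E2 _ h4 (hp.comp hp2) h3⟩
  · obtain ⟨U, E3, hp3, hc⟩ := h t
    obtain ⟨E4, hp4⟩ := (Kn.pbk hF).ex U.ψ E2
    exact ⟨U, E4, hp4, (h0 F hF D _ _ _ E).2 E3 E4 _ (h1.comp hp3) (h2.comp hp4) hc⟩

/-- two local frames on a common neighbourhood -/
theorem common (hB : S_NbBC) (h0 : S_C0) {F : Pol ℂ} (hF : Hyp F) (D : CD F) {B : Type}
    [CommRing B] [Algebra ℂ B] {E1 E2 : Bundle F B} {y1 y2 : D.Y →ₐ[ℂ] B} (h1 : D.Cl E1 y1)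
    (h2 : D.Cl E2 y2) (t : B →ₐ[ℂ] ℂ) : ∃ (U : Nb B t) (E1' E2' : Bundle F U.A),
      IsPull U.ψ E1 E1' ∧ IsPull U.ψ E2 E2' ∧ D.Cl0 E1' (U.ψ.comp y1) ∧
        D.Cl0 E2' (U.ψ.comp y2) := by
  obtain ⟨U1, N1, p1, c1⟩ := h1 t
  obtain ⟨U2, N2, p2, c2⟩ := h2 t
  obtain ⟨V, χ, e, -⟩ := hB B U1.A U1.ψ t U1.p U2 U1.comp
  obtain ⟨M1, q1⟩ := (Kn.pbk hF).ex V.ψ N1
  obtain ⟨M2, q2⟩ := (Kn.pbk hF).ex χ N2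
  have h3 := (h0 F hF D _ _ χ N2).1 M2 _ c2 q2
  have h4 := p2.comp q2
  rw [← AlgHom.comp_assoc, e] at h3
  rw [e] at h4
  exact ⟨U1.trans V, M1, M2, p1.comp q1, h4, (h0 F hF D _ _ V.ψ N1).1 M1 _ c1 q1, h3⟩

theorem c5 (hB : S_NbBC) (h0 : S_C0) (hP : S_FrPull) (hI : S_MIso) (hC : S_FrChg)
    (hS : S_FrSat) : S_C5 := by
  intro F hF D B _ _ _ E1 E2 y h1 h2 t
  obtain ⟨U, N1, N2, p1, p2, ⟨ω1, s1, G1, f1, -, i1, -⟩, ⟨ω2, s2, G2, f2, g2, i2, -⟩⟩ :=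
    common hB h0 hF D h1 h2 t
  obtain ⟨V, g, κ, hκ, e⟩ := hI U.A _ _ D.φ D.w G1 G2 _ _ U.p i1 i2
  obtain ⟨M1, θ1, q1⟩ := Kn.pull hF.rg V.ψ N1
  obtain ⟨M2, θ2, q2⟩ := Kn.pull hF.rg V.ψ N2
  obtain ⟨ω1', s1', f1', -⟩ := hP F hF.rg _ _ _ V.ψ N1 M1 θ1 _ ω1 s1 _ q1 f1
  obtain ⟨ω2', s2', f2', -⟩ := hP F hF.rg _ _ _ V.ψ N2 M2 θ2 _ ω2 s2 _ q2 f2
  rw [← Og_mpM] at f1'
  obtain ⟨ω3, f3⟩ := hC F V.A _ _ D.β M1 _ ω1' s1' _ g κ f1' hκ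
  rw [← e, Og_mpM] at f3
  have : IsNoetherianRing V.A := Algebra.FiniteType.isNoetherianRing ℂ V.A
  obtain ⟨N, ωN, sN, -, hN⟩ := hS F hF.rg V.A _ D.k _ (GramP.map_gd g2 V.ψ)
  have r1 := q1.isPull.comp (hN _ _ _ f3).isPull
  have r2 := q2.isPull.comp (hN _ _ _ f2').isPull
  rw [AlgHom.id_comp] at r1 r2
  exact ⟨U.trans V, N, p1.comp r1, p2.comp r2⟩

end Pool.Agent.P.MP_2b2d3b_ag
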