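import Pool.Agent.P.MP_2b2d3b_ag.Kn

/-!
Uniqueness of the chart coordinates, and every good bundle lies in a chart.
-/

namespace Pool.Agent.P.MP_2b2d3b_ag

open MvPolynomial Matrix

namespace EC4P

theorem core (h4 : S_FrPull) (h5 : S_FibPt) (h6 : S_SpanO) (h7 : S_FrTwo) (h8 : S_MConj)
    (h9 : S_MEx) {F : Pol ℂ} (hF : Hyp F) (D : CD F) {A : Type} [CommRing A] [Algebra ℂ A]
    [Algebra.FiniteType ℂ A] {E : Bundle F A} {y y' : D.Y →ₐ[ℂ] A} (h : D.Cl0 E y)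
    (h' : D.Cl0 E y') (p : A →ₐ[ℂ] ℂ) : ∃ V : Nb A p, V.ψ.comp y = V.ψ.comp y' := by
  have hR := hF.rg
  obtain ⟨ω, s, G, hfr, hgd, hinv, hfib⟩ := h
  obtain ⟨ω', s', G', hfr', -, hinv', -⟩ := h'
  obtain ⟨E1, θ1, hp1⟩ := Kn.pull hR p E
  obtain ⟨ω1, s1, -, -, hs1⟩ := h4 F hR A ℂ D.n p E E1 θ1 _ ω s _ hp1 hfr
  obtain ⟨E0, ω0, s0, hf0, hsp0, hg0⟩ := hfib p
  have hFP : FP p E E1 s s1 := ⟨θ1, hp1, hs1⟩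
  obtain ⟨hsp1, -⟩ := h5 F hF A D.n E D.k ω s _ p E0 E1 ω0 s0 s1 hfr (GramP.map_gd hgd p) hf0 hsp0
    hg0 hFP
  obtain ⟨a, ha, hspan⟩ := h6 F hR A D.n E _ s p E1 s1 hfr.fn hFP hsp1
  obtain ⟨V, hV⟩ := Nb.exists_unit a ha
  refine ⟨V, ?_⟩
  obtain ⟨E2, θ2, hp2⟩ := Kn.pull hR V.ψ E
  obtain ⟨ω2, s2, hf2, -, hs2⟩ := h4 F hR A V.A D.n V.ψ E E2 θ2 _ ω s _ hp2 hfr
  obtain ⟨ω2', s2', hf2', -, -⟩ := h4 F hR A V.A D.n V.ψ E E2 θ2 _ ω' s' _ hp2 hfr'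
  have hsp2 := hspan V.A V.ψ E2 s2 hV ⟨θ2, hp2, hs2⟩
  choose c hc using fun b => hsp2 (s2' b) (hf2'.fn b)
  rw [← Og_mpM] at hf2 hf2'
  obtain ⟨κ, -, hκ⟩ := h7 F hR V.A D.n _ (cb F (D.k + D.k + 1)) E2 _ ω2 ω2' s2 s2' _ _
    (Matrix.of fun a b => c b a) hf2 hf2' fun b u => hc b u
  have i1 := hinv.map V.ψ
  have i2 := hinv'.map V.ψ
  rw [hκ] at i2
  have i3 := h8 V.A D.Ψ D.n D.φ D.w _ _ _ _ κ i1 i2.unit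
  obtain ⟨e1, e2⟩ := (h9 V.A D.Ψ D.n D.w _).2 _ _ _ _ i3.bs i2.bs
  exact D.hom_ext e1 e2

end EC4P

theorem c4 (h1 : S_NbEq) (h2 : S_NbBC) (h3 : S_C0) (h4 : S_FrPull) (h5 : S_FibPt) (h6 : S_SpanO)
    (h7 : S_FrTwo) (h8 : S_MConj) (h9 : S_MEx) : S_C4 := by
  intro F hF D B _ _ _ E y y' h h'
  refine AlgHom.coe_fn_injective (h1 B D.Y y y' fun t => ?_)
  obtain ⟨U, E1, hp1, hc1⟩ := h t
  obtain ⟨U', E1', hp1', hc1'⟩ := h' t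
  obtain ⟨V, χ, hχ, -⟩ := h2 B U.A U.ψ t U.p U' U.comp
  obtain ⟨E3, hp3⟩ := (Kn.pbk hF).ex V.ψ E1
  obtain ⟨E3', hp3'⟩ := (Kn.pbk hF).ex χ E1'
  have k1 := (h3 F hF D U.A V.A V.ψ E1).1 E3 _ hc1 hp3
  have k2 := (h3 F hF D U'.A V.A χ E1').1 E3' _ hc1' hp3'
  have k3 := hp1'.comp hp3'
  rw [hχ] at k3
  have k4 := (h3 F hF D B V.A _ E).2 E3' E3 _ k3 (hp1.comp hp3) k2
  obtain ⟨W, hW⟩ := EC4P.core h4 h5 h6 h7 h8 h9 hF D k1 k4 V.p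
  refine ⟨(U.trans V).trans W, fun a => ?_⟩
  have k5 := AlgHom.congr_fun hW a
  have k6 := AlgHom.congr_fun hχ (y' a)
  simp only [AlgHom.comp_apply] at k5 k6
  rw [k6] at k5
  exact k5

theorem c8 (h1 : S_Frame0) (h2 : S_Sep) (h3 : S_FrG) (h4 : S_FrGD) (h5 : S_MPar) (h6 : S_Burn)
    (h7 : S_MRel) (h8 : S_Univ) (h9 : S_MEx) : S_C8 := by
  intro F hF E hE
  obtain ⟨k, hk, s, hfn, hsp, hind, hnz⟩ := h1 F hF E hE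
  obtain ⟨ω, hω⟩ := E.exists_pairing
  obtain ⟨a1, a2⟩ := h3 F hF.rg ℂ (Fin (NN k)) k (cb F (k + k + 1)) E ω s
  obtain ⟨G, hfr⟩ := a1 hω hfn
  obtain ⟨halt, hpl⟩ := a2 G hfr
  have hz := hnz ω _ hfr
  have hgd := h4 F ℂ _ k _ G halt hpl hz
  have hsep := h2 F hF E k ω s _ hE.1 hk hfr hind hz
  obtain ⟨⟨φ, hφ⟩, hirr⟩ := h5 F _ _ _ G hF.prime'
    (CD.even_n (⟨k, hk, 0, fun _ => []⟩ : CD F)) halt hpl hsep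
  obtain ⟨w, hw⟩ := h6 _ _ (Am φ G) (hirr φ hφ)
  obtain ⟨L, e, hbs⟩ := (h9 ℂ _ _ w (Am φ G)).1 hw
  have hinv : Inv φ w G L e := ⟨halt, hφ, hbs⟩
  obtain ⟨r1, r2⟩ := h7 F ℂ _ _ φ (cb F (k + k + 1)).b w G L e hinv
  obtain ⟨y, e1, e2⟩ := (h8 F ⟨k, hk, φ, w⟩ ℂ).2 L e ⟨r1, r2.1 hpl⟩
  refine ⟨⟨k, hk, φ, w⟩, y, CD.Cl0.cl ⟨ω, s, G, hfr, hgd, by rw [e1, e2]; exact hinv, fun t => ?_⟩⟩
  obtain rfl : t = AlgHom.id ℂ ℂ := Subsingleton.elim _ _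
  refine ⟨E, ω, s, ?_, hsp, hE⟩
  have e3 : ∀ Ω : Matrix (Fin (NN k)) (Fin (NN k)) (Pol ℂ),
      Ω.map (map (AlgHom.id ℂ ℂ : ℂ →+* ℂ)) = Ω := fun Ω => by
    refine Matrix.ext fun a b => ?_
    exact map_algId (B := ℂ) (Ω a b)
  rw [e3]
  exact hfr

end Pool.Agent.P.MP_2b2d3b_ag
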