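import Pool.Agent.P.MP_2b2d3b_ag.Kn

/-!
Every point of a chart that classifies a bundle has a neighbourhood carrying a family.
-/

namespace Pool.Agent.P.MP_2b2d3b_ag

open MvPolynomial Matrix

namespace EC6P

variable {F : Pol ℂ}

theorem og_hom (D : CD F) {B : Type} [CommRing B] [Algebra ℂ B] (G : D.Ψ → Matrix D.n D.n B)
    (i j : D.n) : (Og D.β G i j).IsHomogeneous (D.k + D.k + 1) := by
  simp only [Og, Matrix.of_apply]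
  exact IsHomogeneous.sum _ _ _ fun ψ _ => (((cb F (D.k + D.k + 1)).hb ψ).map _).C_mul _

/-- the last shrinking: the fibre at the point is complete and good -/
theorem last (hP : S_FrPull) (hS : S_SpanO) (hG : S_GoodO) (hF : Hyp F) (D : CD F) {B : Type}
    [CommRing B] [Algebra ℂ B] [Algebra.FiniteType ℂ B] (y : D.Y →ₐ[ℂ] B) (t : B →ₐ[ℂ] ℂ)
    (G : D.Ψ → Matrix D.n D.n B) (inv : Inv D.φ D.w G (mpM y D.L) (y ∘ D.e))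
    (gd : GD F (fun _ => D.k) (Og D.β G)) (N : Bundle F B) (ω : _) (s : D.n → _)
    (fr : Frm N (D.k + 1) ω s (Og D.β G)) (N0 : Bundle F ℂ) (s0 : D.n → _) (fp : FP t N N0 s s0)
    (sp : Spans N0 (D.k + 1) s0) (go : Good N0) :
    ∃ (U : Nb B t) (E' : Family F U.A), D.Cl E'.toBundle (U.ψ.comp y) := by
  obtain ⟨h2, n2, k2⟩ := hS F hF.rg B D.n N (D.k + 1) s t N0 s0 fr.fn fp sp
  obtain ⟨h3, n3, k3⟩ := hG F hF B N t N0 fp.isPull go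
  obtain ⟨U, hU⟩ := Nb.exists_unit (t := t) (h2 * h3) (by rw [map_mul]; exact mul_ne_zero n2 n3)
  rw [map_mul] at hU
  have u2 := isUnit_of_mul_isUnit_left hU
  have u3 := isUnit_of_mul_isUnit_right hU
  obtain ⟨N4, θ4, p4⟩ := Kn.pull hF.rg U.ψ N
  obtain ⟨ω4, s4, fr4, -, c4⟩ := hP F hF.rg B U.A D.n U.ψ N N4 θ4 _ ω s _ p4 fr
  have good : ∀ (t' : U.A →ₐ[ℂ] ℂ) (E1 : Bundle F ℂ), IsPull t' N4 E1 → Good E1 :=
    fun t' E1 h => k3 (t'.comp U.ψ) E1 (Nb.unit_ne u3 t') (p4.isPull.comp h)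
  obtain ⟨E', rfl⟩ := Kn.family hF N4 good
  refine ⟨U, E', CD.Cl0.cl ⟨ω4, s4, mpM U.ψ G, ?_, ?_, inv.map U.ψ, fun t' => ?_⟩⟩
  · rwa [Og_mpM]
  · rw [Og_mpM]
    exact GramP.map_gd gd U.ψ
  · obtain ⟨N5, θ5, p5⟩ := Kn.pull hF.rg t' E'.toBundle
    obtain ⟨ω5, s5, fr5, -, c5⟩ := hP F hF.rg U.A ℂ D.n t' _ N5 θ5 _ ω4 s4 _ p5 fr4
    refine ⟨N5, ω5, s5, by rwa [Og_mpM], ?_, good t' N5 p5.isPull⟩
    exact k2 ℂ (t'.comp U.ψ) N5 s5 (u2.map t') (FP.comp ⟨θ4, p4, c4⟩ ⟨θ5, p5, c5⟩)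

/-- from the lifted forms to a family -/
theorem mid (hUn : S_Univ) (hR : S_MRel) (hU : S_Unit) (hD : S_FrGD) (hSat : S_FrSat)
    (hP : S_FrPull) (hFib : S_FibPt) (hS : S_SpanO) (hG : S_GoodO) (hF : Hyp F) (D : CD F)
    {B : Type} [CommRing B] [Algebra ℂ B] [Algebra.FiniteType ℂ B] (y : D.Y →ₐ[ℂ] B)
    (t : B →ₐ[ℂ] ℂ) (G : D.Ψ → Matrix D.n D.n B) (inv : Inv D.φ D.w G (mpM y D.L) (y ∘ D.e))
    (gd0 : GD F (fun _ => D.k) (Og D.β (mpM t G))) (fib : Fib F (D.k + 1) (Og D.β (mpM t G))) :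
    ∃ (U : Nb B t) (E' : Family F U.A), D.Cl E'.toBundle (U.ψ.comp y) := by
  obtain ⟨h1, n1, k1⟩ := hU F hF.rg.hom B D.n _ (Og D.β G) t (og_hom D G)
    (by rw [← Og_mpM]; exact gd0.unit)
  obtain ⟨U, u1⟩ := Nb.exists_unit (t := t) h1 n1
  have inv3 : Inv D.φ D.w (mpM U.ψ G) (mpM (U.ψ.comp y) D.L) (U.ψ.comp y ∘ D.e) := inv.map U.ψ
  have pl := (hR F U.A D.Ψ D.n D.φ D.β D.w _ _ _ inv3).2.2 ((hUn F D U.A).1 (U.ψ.comp y)).2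
  have gd := hD F U.A D.n D.k (cb F (D.k + D.k + 1)) (mpM U.ψ G) inv3.alt pl
    (by rw [Og_mpM]; exact k1 U.A U.ψ u1)
  have : IsNoetherianRing U.A := Algebra.FiniteType.isNoetherianRing ℂ U.A
  obtain ⟨N, ω, s, fr, -⟩ := hSat F hF.rg U.A D.n D.k _ gd
  obtain ⟨N0, θ, p0⟩ := Kn.pull hF.rg U.p N
  obtain ⟨ω0, s0, -, -, c0⟩ := hP F hF.rg U.A ℂ D.n U.p N N0 θ _ ω s _ p0 fr
  have e : (Og D.β (mpM U.ψ G)).map (map (U.p : U.A →+* ℂ)) = Og D.β (mpM t G) := by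
    rw [← Og_mpM, mpM_mpM, U.comp]
  obtain ⟨E1, ω1, s1, fr1, sp1, go1⟩ := fib (AlgHom.id ℂ ℂ)
  rw [← Og_mpM, mpM_mpM, AlgHom.id_comp, ← e] at fr1
  obtain ⟨sp, go⟩ := hFib F hF U.A D.n N D.k ω s _ U.p E1 N0 ω1 s1 s0 fr (by rwa [e]) fr1 sp1 go1
    ⟨θ, p0, c0⟩
  obtain ⟨V, E', h⟩ := last hP hS hG hF D (U.ψ.comp y) U.p _ inv3 gd N ω s fr N0 s0 ⟨θ, p0, c0⟩
    sp go
  exact ⟨U.trans V, E', h⟩

end EC6P

theorem c6 (h0 : S_C0) (hUn : S_Univ) (hSp : S_MSplit) (hL : S_MLift) (hR : S_MRel) (hU : S_Unit)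
    (hD : S_FrGD) (hSat : S_FrSat) (hP : S_FrPull) (hFib : S_FibPt) (hS : S_SpanO)
    (hG : S_GoodO) : S_C6 := by
  intro F hF D B _ _ _ y t E0 hE
  obtain ⟨U0, E', -, c'⟩ := hE (AlgHom.id ℂ ℂ)
  obtain ⟨E00, θ, p0⟩ := Kn.pull hF.rg U0.p E'
  have c0 := (h0 F hF D U0.A ℂ U0.p E').1 E00 _ c' p0.isPull
  rw [← AlgHom.comp_assoc, U0.comp, AlgHom.id_comp] at c0
  obtain ⟨-, -, G0, -, gd0, inv0, fib0⟩ := c0
  obtain ⟨U1, A, bs, eA⟩ := hSp B D.Ψ D.n D.w (mpM y D.L) (y ∘ D.e) t (Am D.φ G0)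
    ((hUn F D B).1 y).1.toRel0 inv0.bs
  obtain ⟨U2, G, inv, eG⟩ := hL U1.A D.Ψ D.n D.φ D.w A _ _ U1.p G0
    ((hUn F D U1.A).1 (U1.ψ.comp y)).1 bs inv0.alt inv0.unit eA.symm
  subst eG
  obtain ⟨V, E'', h⟩ := EC6P.mid hUn hR hU hD hSat hP hFib hS hG hF D (U2.ψ.comp (U1.ψ.comp y))
    U2.p G inv gd0 fib0
  exact ⟨(U1.trans U2).trans V, E'', h⟩

end Pool.Agent.P.MP_2b2d3b_ag
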