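import Pool.Agent.P.MP_2b2d3b_ag.Kn

/-!
The charts are open.
-/

namespace Pool.Agent.P.MP_2b2d3b_ag

open MvPolynomial Matrix

namespace EC7P

variable {F : Pol ℂ}

theorem mapId {n : Type} (Ω : Matrix n n (Pol ℂ)) :
    Ω.map (map (AlgHom.id ℂ ℂ : ℂ →+* ℂ)) = Ω :=
  Matrix.ext fun a b => map_algId (Ω a b)

theorem Og_hom {B n : Type} [CommRing B] [Algebra ℂ B] {d : ℕ} (c : SysP.Co F d)
    (G : Fin c.r → Matrix n n B) (a b : n) : (Og c.b G a b).IsHomogeneous d := by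
  have := c.W_hom (B := B) fun ψ => G ψ a b
  rwa [SysP.Co.W_apply] at this

theorem Og_cj {B n Ψ : Type} [CommRing B] [Algebra ℂ B] [Fintype Ψ] [Fintype n] [DecidableEq n]
    (β : Ψ → Pol ℂ) (G : Ψ → Matrix n n B) (κ : B) (a b : n) :
    Og β (cj 1 κ G) a b = C κ * Og β G a b := by
  simp only [Og, cj, Matrix.of_apply, transpose_one, Matrix.one_mul, Matrix.mul_one,
    Matrix.smul_apply, smul_eq_mul, map_mul, Finset.mul_sum, mul_assoc]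

theorem noZ_cj {B n Ψ : Type} [CommRing B] [Algebra ℂ B] [Fintype Ψ] [Fintype n] [DecidableEq n]
    {β : Ψ → Pol ℂ} {G : Ψ → Matrix n n B} {κ : B} (hκ : IsUnit κ) (h : NoZ F (Og β G)) :
    NoZ F (Og β (cj 1 κ G)) := fun q hq hF hi => by
  obtain ⟨a, b, hab⟩ := h q hq hF hi
  refine ⟨a, b, fun hm => hab ?_⟩
  rw [Og_cj] at hm
  exact (Ideal.unit_mul_mem_iff_mem q (hκ.map C)).1 hm

theorem det_cj {B n Ψ : Type} [CommRing B] [Algebra ℂ B] [Fintype Ψ] [Fintype n] [DecidableEq n]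
    {φ : Ψ → ℂ} {G : Ψ → Matrix n n B} {κ : B} (hκ : IsUnit κ) (h : IsUnit (Hm φ G).det) :
    IsUnit (Hm φ (cj 1 κ G)).det := by
  rw [Hm_cj, transpose_one, Matrix.one_mul, Matrix.mul_one, det_smul]
  exact (hκ.pow _).mul h

/-- a neighbourhood on which all open conditions hold -/
theorem shrink {B n Ψ : Type} [CommRing B] [Algebra ℂ B] [Algebra.FiniteType ℂ B] [Fintype Ψ]
    [Fintype n] [DecidableEq n] {φ : Ψ → ℂ} {w : n × n → List Ψ} {G : Ψ → Matrix n n B}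
    {p : B →ₐ[ℂ] ℂ} {h2 h3 : B} (p1 : IsUnit (Hm φ (mpM p G)).det)
    (p4 : IsUnit (wdet w (Am φ (mpM p G)))) (p2 : p h2 ≠ 0) (p3 : p h3 ≠ 0) :
    ∃ V : Nb B p, IsUnit (V.ψ h2) ∧ IsUnit (V.ψ h3) ∧ IsUnit (Hm φ (mpM V.ψ G)).det ∧
      IsUnit (wdet w (Am φ (mpM V.ψ G))) := by
  rw [Hm_mpM, det_map_alg] at p1
  obtain ⟨V, hV⟩ := Nb.exists_unit (t := p) ((Hm φ G).det * h2 * h3) (by
    rw [map_mul, map_mul]
    exact mul_ne_zero (mul_ne_zero p1.ne_zero p2) p3)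
  rw [map_mul, map_mul, IsUnit.mul_iff, IsUnit.mul_iff] at hV
  obtain ⟨⟨u1, u2⟩, u3⟩ := hV
  rw [← det_map_alg, ← Hm_mpM] at u1
  obtain ⟨W, hW⟩ := Nb.exists_unit (t := V.p) (wdet w (Am φ (mpM V.ψ G))) (by
    rw [← wdet_mpM, ← Am_mpM _ u1, mpM_mpM, V.comp]
    exact p4.ne_zero)
  refine ⟨V.trans W, u2.map W.ψ, u3.map W.ψ, ?_, ?_⟩
  · have := u1.map W.ψ
    rwa [← det_map_alg, ← Hm_mpM] at this
  · rwa [← wdet_mpM, ← Am_mpM _ u1] at hW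

end EC7P

open EC7P in
theorem c7 (hC0 : S_C0) (hFib : S_FibPt) (hLift : S_Lift2) (hTr : S_FrTr) (hG : S_FrG)
    (hPull : S_FrPull) (hTwo : S_FrTwo) (hConj : S_MConj) (hEx : S_MEx) (hRel : S_MRel)
    (hUniv : S_Univ) (hUnit : S_Unit) (hGD : S_FrGD) (hSp : S_SpanO) : S_C7 := by
  intro F hF D B _ _ _ E t E0 y0 h0 hCl
  have hR := hF.rg
  -- a fibre with a global frame
  obtain ⟨E00, h00, ω0, s0, G0, f0, g0, i0, b0⟩ :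
      ∃ E00 : Bundle F ℂ, IsPull t E.toBundle E00 ∧ D.Cl0 E00 y0 := by
    obtain ⟨U0, E0', a1, a2⟩ := hCl (AlgHom.id ℂ ℂ)
    obtain ⟨E00, θ, a3⟩ := Kn.pull hR U0.p E0'
    have a4 := (hC0 F hF D _ _ U0.p E0').1 E00 _ a2 a3.isPull
    have a5 := h0.comp (a1.comp a3.isPull)
    rw [U0.comp, AlgHom.id_comp] at a5
    rw [← AlgHom.comp_assoc, U0.comp, AlgHom.id_comp] at a4
    exact ⟨E00, a5, a4⟩
  have sp0 : Spans E00 (D.k + 1) s0 := by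
    obtain ⟨E'', ω'', s'', a1, a2, a3⟩ := b0 (AlgHom.id ℂ ℂ)
    exact (hFib F hF ℂ _ E00 D.k ω0 s0 _ (AlgHom.id ℂ ℂ) E'' E00 ω'' s'' s0 f0
      (by rwa [mapId]) a1 a2 a3 (FP.refl E00 s0)).1
  -- lift the frame
  obtain ⟨U, E', hU, hl⟩ := hLift F hF B E.toBundle t E00 D.k s0 (by have := D.hk; omega) h00
    (Kn.good_fibre hF E h00) sp0
  obtain ⟨E1, θ1, hθ1⟩ := Kn.pull hR U.p E'
  have h1 : IsPull t E.toBundle E1 := by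
    have := hU.comp hθ1.isPull
    rwa [U.comp] at this
  obtain ⟨ω1, s1, f1, sp1⟩ := (hTr F hR B ℂ _ t E.toBundle E00 E1 (D.k + 1) s0 h00 h1).1 ω0 _ f0
  have sp1 := sp1 sp0
  choose s' hs' es' using fun a => hl E1 θ1 hθ1 (s1 a) (f1.fn a)
  have fp1 : FP U.p E' E1 s' s1 := ⟨θ1, hθ1, es'⟩
  obtain ⟨ω', hω'⟩ := E'.exists_pairing
  obtain ⟨G', f'⟩ := (hG F hR U.A _ D.k (cb F _) E' ω' s').1 hω' hs'
  obtain ⟨κ, hκ, eκ⟩ : ∃ κ : ℂ, IsUnit κ ∧ mpM U.p G' = cj 1 κ G0 := by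
    obtain ⟨ω2, s2, f2, -, e2⟩ := hPull F hR _ _ _ U.p E' E1 θ1 _ ω' s' _ hθ1 f'
    rw [← Og_mpM] at f2
    refine hTwo F hR ℂ _ _ (cb F _) E1 _ ω1 ω2 s1 s2 G0 _ 1 f1 f2 fun b u => ?_
    have e : s2 b = s1 b := sub_eq_zero.1 (hθ1.fun_zero hR fun v => by
      rw [LinearMap.sub_apply, e2, es', sub_self])
    rw [e, Finset.sum_eq_single b]
    · simp
    · intro a _ hab
      simp [Matrix.one_apply_ne hab]
    · simp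
  have i1 : Inv D.φ D.w (mpM U.p G') (mpM y0 D.L) (y0 ∘ D.e) := by
    rw [eκ]
    exact hConj _ _ _ _ _ _ _ _ _ _ i0 (det_cj hκ i0.unit)
  -- the open conditions
  obtain ⟨h2, p2, H2⟩ := hUnit F hR.hom U.A _ _ (Og D.β G') U.p (Og_hom _ G') (by
    rw [← Og_mpM, eκ]
    exact noZ_cj hκ g0.unit)
  obtain ⟨h3, p3, H3⟩ := hSp F hR U.A _ E' _ s' U.p E1 s1 hs' fp1 sp1
  obtain ⟨V, u2, u3, u1, u4⟩ := shrink i1.unit i1.bs.bas p2 p3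
  obtain ⟨E3, θ3, hθ3⟩ := Kn.pull hR V.ψ E'
  obtain ⟨ω3, s3, f3, -, e3⟩ := hPull F hR _ _ _ V.ψ E' E3 θ3 _ ω' s' _ hθ3 f'
  have nz := H2 _ V.ψ u2
  rw [← Og_mpM] at f3 nz
  obtain ⟨alt3, pl3⟩ := (hG F hR V.A _ D.k (cb F _) E3 ω3 s3).2 _ f3
  obtain ⟨L, e, bs3⟩ := (hEx _ _ _ D.w _).1 u4
  have i3 : Inv D.φ D.w (mpM V.ψ G') L e := ⟨alt3, u1, bs3⟩
  obtain ⟨r1, r2⟩ := hRel F _ _ _ D.φ D.β D.w _ L e i3
  obtain ⟨y', rfl, rfl⟩ := (hUniv F D V.A).2 L e ⟨r1, r2.1 pl3⟩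
  have h3' : IsPull (V.ψ.comp U.ψ) E.toBundle E3 := hU.comp hθ3.isPull
  refine ⟨U.trans V, E3, y', h3', CD.Cl0.cl ⟨ω3, s3, _, f3,
    hGD F _ _ D.k (cb F _) _ alt3 pl3 nz, i3, fun t' => ?_⟩, ?_⟩
  · obtain ⟨E4, θ4, hθ4⟩ := Kn.pull hR t' E3
    obtain ⟨ω4, s4, f4, -, e4⟩ := hPull F hR _ _ _ t' E3 E4 θ4 _ ω3 s3 _ hθ4 f3
    exact ⟨E4, ω4, s4, f4, H3 ℂ (t'.comp V.ψ) E4 s4 (u3.map t')
      (FP.comp ⟨θ3, hθ3, e3⟩ ⟨θ4, hθ4, e4⟩), Kn.good_fibre hF E (h3'.comp hθ4.isPull)⟩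
  · have i4 := i3.map V.p
    rw [mpM_mpM, V.comp] at i4
    obtain ⟨q1, q2⟩ := (hEx _ _ _ D.w _).2 _ _ _ _ i4.bs i1.bs
    exact D.hom_ext q1 q2

end Pool.Agent.P.MP_2b2d3b_ag
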