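import Pool.Agent.P.MP_2b2d3b_ag.StE

/-!
Package Fr1: frames are transported along pull backs.
-/

namespace Pool.Agent.P.MP_2b2d3b_ag

open MvPolynomial

namespace EFr1P

variable {F : Pol ℂ} {B : Type} [CommRing B] [Algebra ℂ B] {B' : Type} [CommRing B'] [Algebra ℂ B']
  {φ : B →ₐ[ℂ] B'} {E : Bundle F B} {E' : Bundle F B'} {θ : E.M →+ E'.M}

/-- a bilinear form that vanishes on the image vanishes -/
theorem bil_zero (hR : Rg F) (h : Pull φ E E' θ) (β : E'.M →ₗ[Pol B'] E'.M →ₗ[Pol B'] Rq F B')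
    (h0 : ∀ u v, β (θ u) (θ v) = 0) (x y : E'.M) : β x y = 0 := by
  have h1 : ∀ v, β.flip (θ v) = 0 := fun v => h.fun_zero hR fun u => h0 u v
  have h2 : β x = 0 := h.fun_zero hR fun v => LinearMap.congr_fun (h1 v) x
  rw [h2, LinearMap.zero_apply]

/-- two functionals that agree on the image agree -/
theorem fun_eq (hR : Rg F) (h : Pull φ E E' θ) {s s' : E'.M →ₗ[Pol B'] Rq F B'}
    (h0 : ∀ u, s (θ u) = s' (θ u)) : s = s' :=
  sub_eq_zero.mp (h.fun_zero hR fun u => by rw [LinearMap.sub_apply, h0, sub_self])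

theorem zero_of_two {r : Rq F B'} (h : r = -r) : r = 0 := by
  have h2 : IsUnit (2 : Rq F B') := by
    have := (IsUnit.mk0 (2 : ℂ) two_ne_zero).map ((mq F B').comp (C.comp (algebraMap ℂ B')))
    rwa [map_ofNat] at this
  apply h2.mul_left_cancel
  linear_combination h

/-- extension of a skew semilinear form to a pairing on the pull back -/
theorem ext2 (hR : Rg F) (h : Pull φ E E' θ) (τ : E.M → E.M → Rq F B')
    (h1 : ∀ u u' v, τ (u + u') v = τ u v + τ u' v)
    (h2 : ∀ (a : Pol B) u v, τ (a • u) v = mq F B' (map (φ : B →+* B') a) * τ u v)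
    (h3 : ∀ u v, τ v u = -τ u v)
    (h4 : ∀ (d e : ℕ), ∀ u ∈ E.gr.piece d, ∀ v ∈ E.gr.piece e, τ u v ∈ HomR F B' (d + e + 1))
    (h5 : ∀ q : Ideal (Pol B'), q.IsPrime → bc F B' ∈ q → (∃ i, X i ∉ q) →
      ∃ (u v : E.M) (b : Pol B'), b ∉ q ∧ τ u v = mq F B' b) :
    ∃ ω', Pairing E' ω' ∧ ∀ u v, ω' (θ u) (θ v) = τ u v := by
  have e1 := fun v : E.M => h.ext hR (σ := AddMonoidHom.mk' (fun u => τ u v) fun u u' => h1 u u' v)
    (fun a u => h2 a u v)
  choose f hf hfg using e1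
  replace hf : ∀ v u, f v (θ u) = τ u v := hf
  have fadd : ∀ v v', f (v + v') = f v + f v' := fun v v' => fun_eq hR h fun u => by
    rw [LinearMap.add_apply, hf, hf, hf, h3, h1, h3 u v, h3 u v']
    ring
  have fsmul : ∀ (a : Pol B) v, f (a • v) = (map (φ : B →+* B') a) • f v := fun a v =>
    fun_eq hR h fun u => by
      rw [LinearMap.smul_apply, hf, hf, h3, h2, smul_mq, h3 u v]
      ring
  have e2 := fun x : E'.M => h.ext hR
    (σ := AddMonoidHom.mk' (fun v => f v x) fun v v' => by rw [fadd, LinearMap.add_apply])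
    (fun a v => LinearMap.congr_fun (fsmul a v) x)
  choose g hg hgg using e2
  replace hg : ∀ x v, g x (θ v) = f v x := hg
  let ω' : E'.M →ₗ[Pol B'] E'.M →ₗ[Pol B'] Rq F B' :=
    { toFun := g
      map_add' := fun x y => fun_eq hR h fun v => by
        rw [LinearMap.add_apply, hg, hg, hg, map_add]
      map_smul' := fun a x => fun_eq hR h fun v => by
        rw [RingHom.id_apply, LinearMap.smul_apply, hg, hg, map_smul] }
  have hω : ∀ u v, ω' (θ u) (θ v) = τ u v := fun u v => (hg _ _).trans (hf _ _)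
  refine ⟨ω', ⟨fun x => ?_, fun d e x hx y hy => ?_, fun q hq hF hi => ?_⟩, hω⟩
  · apply zero_of_two
    have := bil_zero hR h (ω' + ω'.flip) (fun u v => by
      rw [LinearMap.add_apply, LinearMap.add_apply, LinearMap.flip_apply, hω, hω, h3 u v]
      ring) x x
    rw [LinearMap.add_apply, LinearMap.add_apply, LinearMap.flip_apply] at this
    linear_combination this
  · have := hgg x (d + 1) (fun e v hv => by
      have := hfg v (e + 1) (fun d u hu => h4 d e u hu v hv) d x hx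
      rwa [show d + (e + 1) = e + (d + 1) by omega] at this) e y hy
    rwa [show e + (d + 1) = d + e + 1 by omega] at this
  · obtain ⟨u, v, b, hb, e⟩ := h5 q hq hF hi
    exact ⟨θ u, θ v, b, hb, (hω u v).trans e⟩

/-- the wedge identity extends from the image -/
theorem wedge_ext (hR : Rg F) (h : Pull φ E E' θ) (ω : E'.M →ₗ[Pol B'] E'.M →ₗ[Pol B'] Rq F B')
    (s t : E'.M →ₗ[Pol B'] Rq F B') (r : Rq F B')
    (h0 : ∀ u v, s (θ u) * t (θ v) - s (θ v) * t (θ u) = r * ω (θ u) (θ v)) (x y : E'.M) :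
    s x * t y - s y * t x = r * ω x y := by
  have := bil_zero hR h (LinearMap.mk₂ (Pol B') (fun x y => s x * t y - s y * t x - r * ω x y)
    (fun x x' y => by simp only [map_add, LinearMap.add_apply]; ring)
    (fun a x y => by simp only [map_smul, LinearMap.smul_apply, smul_mq]; ring)
    (fun x y y' => by simp only [map_add]; ring)
    (fun a x y => by simp only [map_smul, smul_mq]; ring))
    (fun u v => sub_eq_zero.mpr (h0 u v)) x y
  exact sub_eq_zero.mp this

variable {E1 E2 : Bundle F B'} {θ1 : E.M →+ E1.M} {θ2 : E.M →+ E2.M}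

/-- transport of a functional between two pull backs -/
theorem fun_tr (hR : Rg F) (h1 : Pull φ E E1 θ1) (h2 : Pull φ E E2 θ2)
    (s : E1.M →ₗ[Pol B'] Rq F B') : ∃ s' : E2.M →ₗ[Pol B'] Rq F B', (∀ u, s' (θ2 u) = s (θ1 u)) ∧
      ∀ j, IsFun E1 j s → IsFun E2 j s' := by
  obtain ⟨s', e, hs⟩ := h2.ext hR (σ := s.toAddMonoidHom.comp θ1) (fun a u => by
    change s (θ1 (a • u)) = _ • s (θ1 u)
    rw [h1.semi, map_smul])
  exact ⟨s', e, fun j hj => hs j fun d u hu => hj d _ (h1.hom d u hu)⟩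

/-- transport of completeness between two pull backs -/
theorem spans_tr (hR : Rg F) (h1 : Pull φ E E1 θ1) (h2 : Pull φ E E2 θ2) {n : Type} [Fintype n]
    {j : ℕ} {s : n → E1.M →ₗ[Pol B'] Rq F B'} {s' : n → E2.M →ₗ[Pol B'] Rq F B'}
    (e : ∀ a u, s' a (θ2 u) = s a (θ1 u)) (hs : Spans E1 j s) : Spans E2 j s' := fun l2 hl => by
  obtain ⟨l1, e1, hl1⟩ := fun_tr hR h2 h1 l2
  obtain ⟨c, hc⟩ := hs l1 (hl1 j hl)
  have : l2 = ∑ a, (C (c a) : Pol B') • s' a := fun_eq hR h2 fun u => by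
    rw [← e1, hc, LinearMap.sum_apply]
    exact Finset.sum_congr rfl fun a _ => by rw [LinearMap.smul_apply, smul_mq, e]
  refine ⟨c, fun u => ?_⟩
  rw [this, LinearMap.sum_apply]
  rfl

end EFr1P

open EFr1P

theorem frPull : S_FrPull := by
  intro F hR B B' n _ _ _ _ φ E E' θ j ω s Ω h hf
  obtain ⟨ω', hω', e⟩ := ext2 hR h (fun u v => mapR F φ (ω u v))
    (fun u u' v => by rw [map_add, LinearMap.add_apply, map_add])
    (fun a u v => by rw [map_smul, LinearMap.smul_apply, smul_mq, map_mul, mapR_mq])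
    (fun u v => by rw [hf.pair.skew u v, map_neg])
    (fun d e u hu v hv => HomR.map φ (hf.pair.hom d e u hu v hv))
    (fun q hq hF hi => by
      obtain ⟨u, v, b, hb, e⟩ := hf.pair.unit (q.comap (map (φ : B →+* B')))
        (Ideal.comap_isPrime _ _) (by rwa [Ideal.mem_comap, map_bc]) (comap_X hi)
      exact ⟨u, v, _, hb, by rw [e, mapR_mq]⟩)
  choose s' hs' e' using fun a => h.ext_fun hR (hf.fn a)
  refine ⟨ω', s', ⟨hω', hs', fun a b => wedge_ext hR h ω' _ _ _ fun u v => ?_⟩, e, e'⟩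
  have := congrArg (mapR F φ) (hf.wedge a b u v)
  rw [map_sub, map_mul, map_mul, map_mul, mapR_mq] at this
  rw [e, e', e', e', e', Matrix.map_apply]
  exact this

theorem frTr : S_FrTr := by
  intro F hR B B' n _ _ _ _ _ φ E E1 E2 j s h1 h2
  obtain ⟨θ1, h1⟩ := h1.exists
  obtain ⟨θ2, h2⟩ := h2.exists
  choose s' e' hs' using fun a => fun_tr hR h1 h2 (s a)
  refine ⟨fun ω Ω hf => ?_, fun hs => ⟨s', spans_tr hR h1 h2 e' hs⟩⟩
  obtain ⟨ω', hω', e⟩ := ext2 hR h2 (fun u v => ω (θ1 u) (θ1 v))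
    (fun u u' v => by rw [map_add, map_add, LinearMap.add_apply])
    (fun a u v => by rw [h1.semi, map_smul, LinearMap.smul_apply, smul_mq])
    (fun u v => hf.pair.skew _ _)
    (fun d e u hu v hv => hf.pair.hom d e _ (h1.hom d u hu) _ (h1.hom e v hv))
    (fun q hq hF hi => by
      obtain ⟨m1, m2, hg⟩ := E.exists_gens (Ideal.comap_isPrime (map (φ : B →+* B')) q)
        (comap_X hi)
      obtain ⟨b, hb, e⟩ := hf.pair.unit_gens hq hF hi (h1.gens hq hi hg)
      exact ⟨m1, m2, b, hb, e⟩)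
  refine ⟨ω', s', ⟨hω', fun a => hs' a j (hf.fn a),
    fun a b => wedge_ext hR h2 ω' _ _ _ fun u v => ?_⟩, spans_tr hR h1 h2 e'⟩
  rw [e, e', e', e', e']
  exact hf.wedge a b _ _

theorem frSp : S_FrSp := by
  intro F hR B n _ _ _ E E' j s s' h
  obtain ⟨θ, h, e⟩ := h
  have e' : ∀ a u, s' a (θ u) = s a (AddMonoidHom.id _ u) := fun a u => by
    rw [e, mapR_id]; rfl
  exact ⟨spans_tr hR (Pull.refl E) h e', spans_tr hR h (Pull.refl E) fun a u => (e' a u).symm⟩

end Pool.Agent.P.MP_2b2d3b_ag
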