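import Pool.Agent.P.MP_2b2d3b_ag.St2

/-!
Package Lam: wedge products of functionals and the linked ideal.
-/

namespace Pool.Agent.P.MP_2b2d3b_ag

open MvPolynomial

namespace LamP

variable {F : Pol ℂ} {B : Type} [CommRing B] [Algebra ℂ B]

theorem mem2 {a g : Pol B} :
    a ∈ Ideal.span {bc F B, g} ↔ ∃ y : Rq F B, mq F B a = mq F B g * y := by
  rw [Ideal.mem_span_pair]
  constructor
  · rintro ⟨x, y, rfl⟩
    exact ⟨mq F B y, by simp only [map_add, map_mul, mq_F]; ring⟩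
  · rintro ⟨y, hy⟩
    obtain ⟨y, rfl⟩ := mq_surj y
    rw [← map_mul, mq_eq, Ideal.mem_span_singleton'] at hy
    obtain ⟨x, hx⟩ := hy
    exact ⟨x, y, by linear_combination hx⟩

theorem mem3 {a g g' : Pol B} : a ∈ Ideal.span {bc F B, g, g'} ↔
    ∃ y y' : Rq F B, mq F B a = mq F B g * y + mq F B g' * y' := by
  rw [Ideal.mem_span_insert]
  constructor
  · rintro ⟨x, z, hz, rfl⟩
    obtain ⟨y, y', rfl⟩ := Ideal.mem_span_pair.1 hz
    exact ⟨mq F B y, mq F B y', by simp only [map_add, map_mul, mq_F]; ring⟩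
  · rintro ⟨y, y', hy⟩
    obtain ⟨y, rfl⟩ := mq_surj y
    obtain ⟨y', rfl⟩ := mq_surj y'
    rw [← map_mul, ← map_mul, ← map_add, mq_eq, Ideal.mem_span_singleton'] at hy
    obtain ⟨x, hx⟩ := hy
    exact ⟨x, y * g + y' * g', Ideal.mem_span_pair.2 ⟨y, y', rfl⟩, by linear_combination -hx⟩

theorem cp_mq (hF : F.IsHomogeneous 6) (d : ℕ) (a : Pol B) :
    (grR hF B).cp d (mq F B a) = mq F B (homogeneousComponent d a) := by
  conv_lhs => rw [← sum_homogeneousComponent a]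
  rw [map_sum, map_sum, Finset.sum_eq_single d]
  · exact Grading.cp_self (G := grR hF B) (mq_mem (homogeneousComponent_isHomogeneous d a))
  · exact fun e _ he => Grading.cp_ne (G := grR hF B)
      (mq_mem (homogeneousComponent_isHomogeneous e a)) he.symm
  · intro h
    rw [homogeneousComponent_eq_zero d a (by simpa using h), map_zero, map_zero]

theorem cp_mul (hF : F.IsHomogeneous 6) {x : Rq F B} {n : ℕ} (hx : x ∈ HomR F B n) (d : ℕ)
    (r : Rq F B) : (grR hF B).cp (d + n) (x * r) = x * (grR hF B).cp d r := by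
  obtain ⟨a, ha, rfl⟩ := hx
  exact (grR hF B).cp_smul ha d r

theorem hom_zero {r : Rq F B} (h : r ∈ HomR F B 0) : ∃ κ : B, r = mq F B (C κ) := by
  obtain ⟨a, ha, rfl⟩ := h
  exact ⟨coeff 0 a, by rw [← homogeneousComponent_zero, homogeneousComponent_eq_self ha]⟩

variable {E : Bundle F B} {ω : E.M →ₗ[Pol B] E.M →ₗ[Pol B] Rq F B}

theorem fun_cp (hF : F.IsHomogeneous 6) {j : ℕ} {s : E.M →ₗ[Pol B] Rq F B} (hs : IsFun E j s)
    (e : ℕ) (u : E.M) : s (E.gr.cp e u) = (grR hF B).cp (e + j) (s u) := by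
  induction u using E.gr.induction with
  | h0 => simp
  | hadd u v hu hv => simp only [map_add, hu, hv]
  | hom d u hu =>
    rw [Grading.cp_of_mem hu, Grading.cp_of_mem (G := grR hF B) (hs d u hu)]
    by_cases h : e = d <;> simp [h]

theorem hom_of_mul (hR : Rg F) (h : Pairing E ω) {r : Rq F B} {i : ℕ}
    (H : ∀ d e, ∀ u ∈ E.gr.piece d, ∀ v ∈ E.gr.piece e,
      r * ω u v ∈ HomR F B (i + (d + e + 1))) : r ∈ HomR F B i := by
  have key : ∀ n, n ≠ i → (grR hR.hom B).cp n r = 0 := fun n hn => h.zero_of_mul' hR fun u v => by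
    induction u using E.gr.induction with
    | h0 => simp
    | hadd u u' hu hu' => rw [map_add, LinearMap.add_apply, add_mul, hu, hu', add_zero]
    | hom d u hu =>
      induction v using E.gr.induction with
      | h0 => simp
      | hadd v v' hv hv' => rw [map_add, add_mul, hv, hv', add_zero]
      | hom e v hv =>
        rw [← cp_mul hR.hom (h.hom d e u hu v hv), mul_comm]
        exact Grading.cp_ne (G := grR hR.hom B) (H d e u hu v hv) (by omega)
  obtain ⟨N, -, hN⟩ := (grR hR.hom B).sum_cp r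
  rw [← hN N le_rfl]
  refine sum_mem fun d _ => ?_
  by_cases hd : d = i
  · exact hd ▸ (grR hR.hom B).cp_mem d r
  · rw [key d hd]; exact zero_mem _

theorem mem_satI_of (h : Pairing E ω) {l s : E.M →ₗ[Pol B] Rq F B} {b : Pol B}
    (H : ∀ u v, l u * s v - l v * s u = mq F B b * ω u v) : b ∈ satI s := by
  refine mem_satI.2 fun i => ?_
  obtain ⟨k, hk⟩ := h.exists_pow i
  refine ⟨k, ?_⟩
  rw [map_mul]
  refine Submodule.span_induction (p := fun x _ => ∃ u, s u = x * mq F B b) ?_ ⟨0, by simp⟩ ?_ ?_ hk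
  · rintro _ ⟨⟨u, v⟩, rfl⟩
    obtain ⟨a, ha⟩ := mq_surj (l u)
    obtain ⟨a', ha'⟩ := mq_surj (l v)
    refine ⟨a • v - a' • u, ?_⟩
    rw [map_sub, map_smul, map_smul, smul_mq, smul_mq, ha, ha', H, mul_comm]
  · rintro x y - - ⟨u, hu⟩ ⟨v, hv⟩
    exact ⟨u + v, by rw [map_add, hu, hv, add_mul]⟩
  · rintro a x - ⟨u, hu⟩
    obtain ⟨a, rfl⟩ := mq_surj a
    exact ⟨a • u, by rw [map_smul, smul_mq, hu, smul_eq_mul, mul_assoc]⟩

variable {j : ℕ} {s : E.M →ₗ[Pol B] Rq F B} {t1 t2 : E.M} {d1 d2 : ℕ} {g1 g2 G : Pol B}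

theorem nz1 (h : Ser E ω j s t1 t2 d1 d2 g1 g2 G) (x : Rq F B) (hx : mq F B g1 * x = 0) :
    x = 0 := by
  obtain ⟨a, rfl⟩ := mq_surj x
  rw [← map_mul, mq_zero] at hx
  exact mq_zero.2 (h.r1 a hx)

theorem cancel1 (h : Ser E ω j s t1 t2 d1 d2 g1 g2 G) {x y : Rq F B}
    (hx : mq F B g1 * x = mq F B g1 * y) : x = y :=
  sub_eq_zero.1 (nz1 h _ (by rw [mul_sub, hx, sub_self]))

theorem reg2 (h : Ser E ω j s t1 t2 d1 d2 g1 g2 G) {x y : Rq F B}
    (hx : mq F B g2 * x = mq F B g1 * y) : ∃ z, x = mq F B g1 * z := by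
  obtain ⟨a, rfl⟩ := mq_surj x
  exact mem2.1 (h.r2 a (mem2.2 ⟨y, by rw [map_mul, hx]⟩))

theorem pl12 (hR : Rg F) (h : Ser E ω j s t1 t2 d1 d2 g1 g2 G) (u : E.M) :
    mq F B g1 * ω t2 u + mq F B g2 * ω u t1 + s u * mq F B G = 0 := by
  have := pluecker hR h.pair.alt s t1 t2 u
  rwa [h.e1, h.e2, h.eG] at this

theorem pl1 (hR : Rg F) (h : Ser E ω j s t1 t2 d1 d2 g1 g2 G) (u v : E.M) :
    mq F B g1 * ω u v + s u * ω v t1 - s v * ω u t1 = 0 := by
  have := pluecker hR h.pair.alt s t1 u v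
  rw [h.e1, h.pair.skew u t1] at this
  linear_combination this

theorem core (hR : Rg F) (h : Ser E ω j s t1 t2 d1 d2 g1 g2 G) {b y1 y2 : Rq F B}
    (e : b * mq F B G = mq F B g1 * y1 + mq F B g2 * y2) : ∃ l : E.M →ₗ[Pol B] Rq F B,
      (∀ u, mq F B g1 * l u = b * ω u t1 + y2 * s u) ∧
        ∀ u v, l u * s v - l v * s u = b * ω u v := by
  have ex : ∀ u, ∃ z, b * ω u t1 + y2 * s u = mq F B g1 * z := fun u =>
    reg2 h (y := -(y1 * s u) - b * ω t2 u) (by linear_combination b * pl12 hR h u - s u * e)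
  choose l hl using ex
  refine ⟨⟨⟨l, fun u v => cancel1 h ?_⟩, fun a u => cancel1 h ?_⟩, fun u => (hl u).symm,
    fun u v => cancel1 h ?_⟩
  · rw [mul_add, ← hl, ← hl, ← hl]
    simp only [map_add, LinearMap.add_apply]
    ring
  · change _ = _ * (mq F B a * l u)
    rw [mul_left_comm, ← hl, ← hl]
    simp only [map_smul, LinearMap.smul_apply, smul_mq]
    ring
  · change _ * (l u * s v - l v * s u) = _
    linear_combination -(s v) * hl u + s u * hl v - b * pl1 hR h u v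

theorem split (h : Ser E ω j s t1 t2 d1 d2 g1 g2 G) {s' : E.M →ₗ[Pol B] Rq F B}
    (H : ∀ u v, s' u * s v = s' v * s u) :
    ∃ x, s' t1 = mq F B g1 * x ∧ ∀ u, s' u = x * s u := by
  have e := H t1 t2
  rw [h.e1, h.e2] at e
  obtain ⟨x, hx⟩ := reg2 h (x := s' t1) (y := s' t2) (by linear_combination e)
  refine ⟨x, hx, fun u => cancel1 h ?_⟩
  have e' := H u t1
  rw [h.e1, hx] at e'
  linear_combination e'

end LamP

open LamP

theorem wedge : S_Wedge := by
  intro F hR B _ _ E ω h l s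
  let β : E.M →ₗ[Pol B] E.M →ₗ[Pol B] Rq F B := LinearMap.mk₂ (Pol B)
    (fun u v => l u * s v - l v * s u)
    (fun u u' v => by simp only [map_add]; ring)
    (fun a u v => by simp only [map_smul, smul_mq]; ring)
    (fun u v v' => by simp only [map_add]; ring)
    (fun a u v => by simp only [map_smul, smul_mq]; ring)
  obtain ⟨b, hb⟩ := h.wedge hR (β := β) fun u => sub_self _
  obtain ⟨b, rfl⟩ := mq_surj b
  replace hb : ∀ u v, l u * s v - l v * s u = mq F B b * ω u v := hb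
  refine ⟨b, hb, mem_satI_of h hb, fun k j i hl hs hi => hom_of_mul hR h fun d e u hu v hv => ?_⟩
  rw [← hb]
  have h1 := HomR.mul (hl d u hu) (hs e v hv)
  have h2 := HomR.mul (hl e v hv) (hs d u hu)
  rw [show d + k + (e + j) = i + (d + e + 1) by omega] at h1
  rw [show e + k + (d + j) = i + (d + e + 1) by omega] at h2
  exact sub_mem h1 h2

theorem lam : S_Lam := by
  intro F hR B _ _ E ω j s t1 t2 d1 d2 g1 g2 G h
  refine ⟨fun b i k hb hi hJ => ?_, fun b hJ => ?_, fun b u hu => ?_, fun b hb d => ?_,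
    fun b hb => ?_, ?_⟩
  · obtain ⟨y1, y2, e⟩ := mem3.1 hJ
    have e' := congrArg ((grR hR.hom B).cp (i + (d1 + d2 + 1))) e
    rw [Grading.cp_self (G := grR hR.hom B) (mq_mem (hb.mul h.hG)), map_add, map_mul] at e'
    nth_rw 1 [show i + (d1 + d2 + 1) = d2 + k + (d1 + j) by omega] at e'
    rw [show i + (d1 + d2 + 1) = d1 + k + (d2 + j) by omega, cp_mul hR.hom (mq_mem h.h1),
      cp_mul hR.hom (mq_mem h.h2)] at e'
    obtain ⟨l, h1, h2⟩ := core hR h e'
    refine ⟨l, fun d u hu => ?_, h2⟩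
    refine (HomR.cancel hR.hom (mq_mem h.h1) (nz1 h) (n := d + k + (d1 + j)) ?_).1 _ rfl
    rw [h1]
    have a1 := HomR.mul (mq_mem hb) (h.pair.hom d d1 u hu t1 h.m1)
    have a2 := HomR.mul ((grR hR.hom B).cp_mem (d1 + k) y2) (h.fn d u hu)
    rw [show i + (d + d1 + 1) = d + k + (d1 + j) by omega] at a1
    rw [show d1 + k + (d + j) = d + k + (d1 + j) by omega] at a2
    exact add_mem a1 a2
  · obtain ⟨y1, y2, e⟩ := mem3.1 hJ
    rw [map_mul] at e
    obtain ⟨l, -, h2⟩ := core hR h e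
    exact mem_satI_of h.pair h2
  · refine mem3.2 ⟨-ω t2 u, -ω u t1, ?_⟩
    rw [map_mul, ← hu]
    linear_combination pl12 hR h u
  · refine mem_satI.2 fun i => ?_
    obtain ⟨k, u, hu⟩ := mem_satI.1 hb i
    have hX : ∀ n, (X i ^ n : Pol B).IsHomogeneous n := fun n => by
      simpa using (isHomogeneous_X B i).pow n
    refine ⟨k + j, E.gr.cp (d + k) ((X i ^ j : Pol B) • u), ?_⟩
    rw [fun_cp hR.hom h.fn, map_smul, smul_mq, hu, map_mul (mq F B), ← mul_assoc, ← map_mul,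
      ← pow_add, add_comm j k, add_assoc, cp_mul hR.hom (mq_mem (hX _)), cp_mq, map_mul (mq F B)]
  · refine mem_satI.2 fun i => ?_
    obtain ⟨k, hk⟩ := hb i
    obtain ⟨k', u, hu⟩ := mem_satI.1 hk i
    exact ⟨k' + k, u, by rw [hu, pow_add, mul_assoc]⟩
  · exact mem_satI.2 fun i => ⟨0, 0, by rw [map_zero, map_mul, mq_F, mul_zero]⟩

theorem serAdm : S_SerAdm := by
  intro F hR B _ _ E ω s t1 t2 d1 d2 g1 g2 G h
  refine ⟨fun hN => ⟨h.h1, h.h2, h.hG, h.r1, h.r2, fun b hb => ?_, fun q hq hF hi => ?_⟩,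
    fun h0 s' hs' => ?_, fun s' hs' H => ?_⟩
  · obtain ⟨l, hl, e⟩ := (lam F hR B E ω 1 s t1 t2 d1 d2 g1 g2 G h).1 (C b) 0 0
      (isHomogeneous_C _ b) rfl hb
    rw [hN l hl] at e
    have h1 : mq F B (C b) = 0 := h.pair.zero_of_mul' hR fun u v => by
      rw [mul_comm, ← e]; simp
    exact C_injective (Fin 4) B ((eq_zero_of_hom (hR.hom.map _) (isHomogeneous_C _ b) (by omega)
      (mq_zero.1 h1)).trans (map_zero _).symm)
  · obtain ⟨u, v, c, hc, e⟩ := h.pair.unit q hq hF hi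
    obtain ⟨a1, ha1⟩ := mq_surj (ω u t1)
    obtain ⟨a2, ha2⟩ := mq_surj (ω v t1)
    obtain ⟨b1, hb1⟩ := mq_surj (s u)
    obtain ⟨b2, hb2⟩ := mq_surj (s v)
    refine ⟨a1, b1, a2, b2, c, mem2.2 ⟨-ω t2 u, ?_⟩, mem2.2 ⟨-ω t2 v, ?_⟩, hc, mq_zero.1 ?_⟩
    · simp only [map_add, map_mul, ha1, hb1]
      linear_combination pl12 hR h u
    · simp only [map_add, map_mul, ha2, hb2]
      linear_combination pl12 hR h v
    · simp only [map_sub, map_mul, ha1, hb1, ha2, hb2, ← e]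
      linear_combination -pl1 hR h u v
  · obtain ⟨b, e, -, hb⟩ := wedge F hR B E ω h.pair s' s
    obtain ⟨κ, hκ⟩ := hom_zero (hb 0 1 0 hs' h.fn rfl)
    rw [hκ] at e
    have e1 := e t1 t2
    rw [h.e1, h.e2, h.eG] at e1
    obtain rfl := h0 κ (mem3.2 ⟨-s' t2, s' t1, by rw [map_mul]; linear_combination -e1⟩)
    obtain ⟨x, hx, H⟩ := split h (s' := s') fun u v => by simpa [sub_eq_zero] using e u v
    have h1 := hs' d1 t1 h.m1
    rw [hx] at h1
    obtain rfl := (HomR.cancel hR.hom (mq_mem h.h1) (nz1 h) h1).2 (by omega)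
    ext u
    simp [H u]
  · obtain ⟨x, hx, H'⟩ := split h H
    have h1 := hs' d1 t1 h.m1
    rw [hx] at h1
    obtain ⟨κ, rfl⟩ := hom_zero ((HomR.cancel hR.hom (mq_mem h.h1) (nz1 h) h1).1 0 (by omega))
    exact ⟨κ, H'⟩

end Pool.Agent.P.MP_2b2d3b_ag
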