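import Pool.Agent.P.MP_2b2d3b_ag.StE
import Pool.Agent.P.MP_2b2d3b_ag.Lam

/-!
Frames: change of frame, comparison of two frames, the matrix of forms.
-/

namespace Pool.Agent.P.MP_2b2d3b_ag

open MvPolynomial Matrix

namespace EFr2P

variable {F : Pol ℂ} {B : Type} [CommRing B] [Algebra ℂ B] {n : Type}

theorem Og_eq {d : ℕ} (c : SysP.Co F d) (G : Fin c.r → Matrix n n B) (a b : n) :
    Og c.b G a b = c.W B fun ψ => G ψ a b := (c.W_apply _).symm

theorem W_inj {d : ℕ} (c : SysP.Co F d) {y y' : Fin c.r → B}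
    (h : mq F B (c.W B y) = mq F B (c.W B y')) : y = y' := by
  funext ψ
  have := c.PB_kill ψ (mq_eq.1 h)
  rwa [map_sub, c.PB_W, c.PB_W, sub_eq_zero] at this

theorem Og_cj {Ψ : Type} [Fintype Ψ] [Fintype n] (β : Ψ → Pol ℂ) (G : Ψ → Matrix n n B)
    (g : Matrix n n B) (κ : B) (a b : n) :
    Og β (cj g κ G) a b = C κ * ∑ a', ∑ b', C (g a' a) * C (g b' b) * Og β G a' b' := by
  simp only [Og, cj, Matrix.of_apply, Matrix.smul_apply, Matrix.mul_apply, Matrix.transpose_apply,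
    smul_eq_mul, map_mul, map_sum, Finset.mul_sum, Finset.sum_mul]
  rw [Finset.sum_comm, Finset.sum_comm (γ := n) (α := n)]
  refine Finset.sum_congr rfl fun b' _ => ?_
  rw [Finset.sum_comm]
  refine Finset.sum_congr rfl fun a' _ => Finset.sum_congr rfl fun ψ _ => ?_
  ring

theorem wedge_sum [Fintype n] {E : Bundle F B} {j : ℕ} {ω : E.M →ₗ[Pol B] E.M →ₗ[Pol B] Rq F B}
    {s : n → E.M →ₗ[Pol B] Rq F B} {Ω : Matrix n n (Pol B)} (h : Frm E j ω s Ω)
    (g : Matrix n n B) (a b : n) (u v : E.M) :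
    (∑ a', mq F B (C (g a' a)) * s a' u) * (∑ b', mq F B (C (g b' b)) * s b' v) -
      (∑ a', mq F B (C (g a' a)) * s a' v) * (∑ b', mq F B (C (g b' b)) * s b' u) =
      mq F B (∑ a', ∑ b', C (g a' a) * C (g b' b) * Ω a' b') * ω u v := by
  rw [Finset.sum_mul_sum, Finset.sum_mul_sum, ← Finset.sum_sub_distrib, map_sum, Finset.sum_mul]
  refine Finset.sum_congr rfl fun a' _ => ?_
  rw [← Finset.sum_sub_distrib, map_sum, Finset.sum_mul]
  refine Finset.sum_congr rfl fun b' _ => ?_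
  rw [map_mul, map_mul]
  linear_combination (mq F B (C (g a' a)) * mq F B (C (g b' b))) * h.wedge a' b' u v

theorem C_zero (hF : F.IsHomogeneous 6) {x : B} (h : mq F B (C x) = 0) : x = 0 := by
  obtain ⟨a, ha⟩ := Ideal.mem_span_singleton'.1 (mq_zero.1 h)
  have h0 : constantCoeff (bc F B) = 0 :=
    (hF.map (algebraMap ℂ B)).coeff_eq_zero (d := 0) (by simp)
  have := congrArg constantCoeff ha
  rw [map_mul, h0, mul_zero, constantCoeff_C] at this
  exact this.symm

variable {E : Bundle F B} {ω ω' : E.M →ₗ[Pol B] E.M →ₗ[Pol B] Rq F B}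

theorem two (hR : Rg F) (h : Pairing E ω) (h' : Pairing E ω') :
    ∃ κ : B, ∀ u v, ω u v = mq F B (C κ) * ω' u v := by
  obtain ⟨b, hb⟩ := h'.wedge hR h.alt
  obtain ⟨κ, rfl⟩ := LamP.hom_zero (LamP.hom_of_mul hR h' (r := b) (i := 0)
    fun d e u hu v hv => by rw [← hb, zero_add]; exact h.hom d e u hu v hv)
  exact ⟨κ, hb⟩

theorem zero_of_sq (hR : Rg F) (h : Pairing E ω) {r : Rq F B}
    (hr : ∀ u v, ω u v * ω u v * r = 0) : r = 0 :=
  hR.zero_of_loc fun q hq hF h3 => by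
    obtain ⟨u, v, b, hb, e⟩ := h.unit q hq hF ⟨3, h3⟩
    exact ⟨b * b, not_mem_mul hq hb hb, by rw [map_mul, ← e, hr]⟩

end EFr2P

open EFr2P

theorem frChg : S_FrChg := by
  intro F B Ψ n _ _ _ _ β E j ω s G g κ h hκ
  obtain ⟨κ', hκ'⟩ := hκ.exists_right_inv
  have e1 : mq F B (C κ) * mq F B (C κ') = 1 := by
    rw [← map_mul, ← map_mul, hκ', map_one, map_one]
  have es : ∀ b u, (∑ a, (C (g a b) : Pol B) • s a) u = ∑ a, mq F B (C (g a b)) * s a u :=
    fun b u => by simp only [LinearMap.sum_apply, LinearMap.smul_apply, smul_mq]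
  have eω : ∀ u v, ((C κ' : Pol B) • ω) u v = mq F B (C κ') * ω u v := fun u v => rfl
  refine ⟨(C κ' : Pol B) • ω, ⟨fun u => ?_, fun d e u hu v hv => ?_, fun q hq hF hi => ?_⟩,
    fun b d u hu => ?_, fun a b u v => ?_⟩
  · rw [eω, h.pair.alt, mul_zero]
  · have := HomR.mul (mq_mem (F := F) (isHomogeneous_C (Fin 4) κ')) (h.pair.hom d e u hu v hv)
    rwa [zero_add] at this
  · obtain ⟨u, v, b, hb, e⟩ := h.pair.unit q hq hF hi
    refine ⟨u, v, C κ' * b, not_mem_mul hq (fun hq' => hq.ne_top ?_) hb, by rw [eω, e, map_mul]⟩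
    rw [Ideal.eq_top_iff_one, ← map_one (C : B →+* Pol B), ← hκ', map_mul]
    exact q.mul_mem_left _ hq'
  · rw [es]
    refine sum_mem fun a _ => ?_
    have := HomR.mul (mq_mem (F := F) (isHomogeneous_C (Fin 4) (g a b))) (h.fn a d u hu)
    rwa [zero_add] at this
  · rw [es, es, es, es, wedge_sum h, Og_cj, eω, map_mul]
    linear_combination
      (-(mq F B (∑ a', ∑ b', C (g a' a) * C (g b' b) * Og β G a' b') * ω u v)) * e1

theorem frTwo : S_FrTwo := by
  intro F hR B n _ _ _ d c E j ω ω' s s' G G' g h h' hs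
  obtain ⟨κ, hκ⟩ := two hR h.pair h'.pair
  obtain ⟨κ', hκ'⟩ := two hR h'.pair h.pair
  have e1 : κ * κ' - 1 = 0 := C_zero hR.hom (h.pair.zero_of_mul' hR fun u v => by
    rw [map_sub, map_sub, map_mul, map_mul, map_one, map_one]
    linear_combination (-1 : Rq F B) * hκ u v - mq F B (C κ) * hκ' u v)
  refine ⟨κ, IsUnit.of_mul_eq_one κ' (sub_eq_zero.1 e1), ?_⟩
  funext ψ
  ext a b
  refine congrFun (W_inj c (y := fun ψ => G' ψ a b) (y' := fun ψ => cj g κ G ψ a b) ?_) ψ
  rw [← Og_eq, ← Og_eq, ← sub_eq_zero]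
  refine h'.pair.zero_of_mul' hR fun u v => ?_
  have e2 := h'.wedge a b u v
  rw [hs, hs, hs, hs, wedge_sum h, hκ] at e2
  rw [Og_cj, map_mul]
  linear_combination (-1 : Rq F B) * e2

theorem frG : S_FrG := by
  intro F hR B n _ _ k c E ω s
  refine ⟨fun h hs => ?_, fun G h => ⟨fun ψ => ?_, fun i j k l => ?_⟩⟩
  · have key : ∀ a b, ∃ p : Pol B, p.IsHomogeneous (k + k + 1) ∧
        ∀ u v, s a u * s b v - s a v * s b u = mq F B p * ω u v := fun a b => by
      obtain ⟨x, h1, -, h2⟩ := wedge F hR B E ω h (s a) (s b)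
      obtain ⟨p, hp, e⟩ := h2 (k + 1) (k + 1) (k + k + 1) (hs a) (hs b) (by omega)
      exact ⟨p, hp, fun u v => by rw [h1, e]⟩
    choose p hp e using key
    refine ⟨fun ψ => Matrix.of fun a b => c.PB B ψ (p a b), h, hs, fun a b u v => ?_⟩
    rw [e, Og_eq, ← c.W_PB (hp a b)]
    rfl
  · ext a b
    refine congrFun (W_inj c (y := fun ψ => G ψ b a) (y' := -fun ψ => G ψ a b) ?_) ψ
    rw [map_neg, map_neg, ← Og_eq, ← Og_eq, ← sub_eq_zero]
    refine h.pair.zero_of_mul' hR fun u v => ?_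
    linear_combination (-1 : Rq F B) * h.wedge a b u v - h.wedge b a u v
  · refine mq_zero.1 (zero_of_sq hR h.pair fun u v => ?_)
    simp only [map_add, map_mul]
    have e := fun a b => h.wedge a b u v
    have e' : ω u v * ω u v * (mq F B (Og c.b G i j) * mq F B (Og c.b G l k) +
        mq F B (Og c.b G j k) * mq F B (Og c.b G l i) +
        mq F B (Og c.b G k i) * mq F B (Og c.b G l j)) =
        mq F B (Og c.b G i j) * ω u v * (mq F B (Og c.b G l k) * ω u v) +
        mq F B (Og c.b G j k) * ω u v * (mq F B (Og c.b G l i) * ω u v) +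
        mq F B (Og c.b G k i) * ω u v * (mq F B (Og c.b G l j) * ω u v) := by ring
    rw [e', ← e, ← e, ← e, ← e, ← e, ← e]
    ring

theorem frGD : S_FrGD := by
  intro F B n _ _ k c G hG hP hN
  have e : ∀ ψ a b, G ψ b a = -G ψ a b := fun ψ a b => congrFun (congrFun (hG ψ) a) b
  refine ⟨fun i j => ?_, fun i j => ?_, fun i => ?_, hP, hN⟩
  · rw [Og_eq]
    exact c.W_hom _
  · rw [Og_eq, Og_eq, ← map_add, show ((fun ψ => G ψ i j) + fun ψ => G ψ j i) = 0 from
      funext fun ψ => by simp [e ψ i j], map_zero]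
    exact Ideal.zero_mem _
  · have : ∀ ψ, G ψ i i = 0 := fun ψ => by
      have h2 : (2 : ℂ) • G ψ i i = 0 := by
        rw [two_smul]
        linear_combination e ψ i i
      exact (smul_eq_zero.1 h2).resolve_left two_ne_zero
    rw [Og_eq, show (fun ψ => G ψ i i) = 0 from funext this, map_zero]
    exact Ideal.zero_mem _

end Pool.Agent.P.MP_2b2d3b_ag
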