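import Pool.Agent.P.MP_2b2d3b_ag.Lam

/-!
Package NB: the module of pairs attached to admissible data, and its universal property.
-/

namespace Pool.Agent.P.MP_2b2d3b_ag

open MvPolynomial LamP

namespace NBP

variable {F : Pol ℂ} {B : Type} [CommRing B] [Algebra ℂ B]

/-- pairs `(a, b)` in `R × R` with `a g₂ + b G ∈ (g₁)` -/
noncomputable def NN (F : Pol ℂ) (g1 g2 G : Pol B) : Submodule (Pol B) (Rq F B × Rq F B) where
  carrier := {p | ∃ y, p.1 * mq F B g2 + p.2 * mq F B G = mq F B g1 * y}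
  zero_mem' := ⟨0, by simp⟩
  add_mem' := by
    rintro p q ⟨y, hy⟩ ⟨z, hz⟩
    refine ⟨y + z, ?_⟩
    rw [Prod.fst_add, Prod.snd_add]
    linear_combination hy + hz
  smul_mem' := by
    rintro c p ⟨y, hy⟩
    refine ⟨mq F B c * y, ?_⟩
    rw [Prod.smul_fst, Prod.smul_snd, smul_mq, smul_mq]
    linear_combination mq F B c * hy

variable {n1 n2 : ℕ} {g1 g2 G : Pol B}

theorem mem_NN {a b : Pol B} (h : a * g2 + b * G ∈ Ideal.span {bc F B, g1}) :
    (mq F B a, mq F B b) ∈ NN F g1 g2 G := by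
  obtain ⟨y, hy⟩ := mem2.1 h
  exact ⟨y, by rw [← hy, map_add, map_mul, map_mul]⟩

theorem az (h : Adm2 F n1 n2 g1 g2 G) (x : Rq F B) (hx : mq F B g1 * x = 0) : x = 0 := by
  obtain ⟨a, rfl⟩ := mq_surj x
  rw [← map_mul, mq_zero] at hx
  exact mq_zero.2 (h.r1 a hx)

theorem ac (h : Adm2 F n1 n2 g1 g2 G) {x y : Rq F B} (hx : mq F B g1 * x = mq F B g1 * y) :
    x = y :=
  sub_eq_zero.1 (az h _ (by rw [mul_sub, hx, sub_self]))

theorem ar (h : Adm2 F n1 n2 g1 g2 G) {x y : Rq F B} (hx : mq F B g2 * x = mq F B g1 * y) :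
    ∃ z, x = mq F B g1 * z := by
  obtain ⟨a, rfl⟩ := mq_surj x
  exact mem2.1 (h.r2 a (mem2.2 ⟨y, by rw [map_mul, hx]⟩))

theorem cp_mul_lt (hF : F.IsHomogeneous 6) {x : Rq F B} {n : ℕ} (hx : x ∈ HomR F B n) {d : ℕ}
    (hd : d < n) (r : Rq F B) : (grR hF B).cp d (x * r) = 0 := by
  obtain ⟨a, ha, rfl⟩ := hx
  exact (grR hF B).cp_smul_lt ha hd r

theorem cp_div (hF : F.IsHomogeneous 6) {x : Rq F B} {n : ℕ} (hx : x ∈ HomR F B n) (d : ℕ)
    (r : Rq F B) : ∃ z, (grR hF B).cp d (x * r) = x * z := by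
  by_cases hd : d < n
  · exact ⟨0, by rw [cp_mul_lt hF hx hd, mul_zero]⟩
  · obtain ⟨e, rfl⟩ := Nat.exists_eq_add_of_le' (not_lt.mp hd)
    exact ⟨_, cp_mul hF hx e r⟩

theorem cp_mem_NN (hF : F.IsHomogeneous 6) (h : Adm2 F n1 n2 g1 g2 G) (p : NN F g1 g2 G)
    (d : ℕ) : ((grR hF B).cp (d + (n1 + 1)) p.1.1, (grR hF B).cp (d + 1) p.1.2) ∈
      NN F g1 g2 G := by
  obtain ⟨y, hy⟩ := p.2
  obtain ⟨z, hz⟩ := cp_div hF (mq_mem h.h1) (d + (n1 + 1) + (n2 + 1)) y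
  refine ⟨z, ?_⟩
  rw [← hz, ← hy, map_add, mul_comm p.1.1, mul_comm p.1.2, cp_mul hF (mq_mem h.h2),
    show d + (n1 + 1) + (n2 + 1) = d + 1 + (n1 + n2 + 1) by omega, cp_mul hF (mq_mem h.hG)]
  ring

theorem low2 (hF : F.IsHomogeneous 6) (h : Adm2 F n1 n2 g1 g2 G) (p : NN F g1 g2 G) :
    (grR hF B).cp 0 p.1.2 = 0 := by
  obtain ⟨y, hy⟩ := p.2
  obtain ⟨z, hz⟩ := cp_div hF (mq_mem h.h1) (n1 + (n2 + 1)) y
  rw [← hy, map_add, mul_comm p.1.1, mul_comm p.1.2, cp_mul hF (mq_mem h.h2),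
    show n1 + (n2 + 1) = 0 + (n1 + n2 + 1) by omega, cp_mul hF (mq_mem h.hG)] at hz
  obtain ⟨κ, hκ⟩ := hom_zero ((grR hF B).cp_mem 0 p.1.2)
  have := h.h0 κ (mem3.2 ⟨z, -(grR hF B).cp n1 p.1.1, by
    rw [map_mul, ← hκ]; linear_combination hz⟩)
  rw [hκ, this, map_zero, map_zero]

theorem low1 (hF : F.IsHomogeneous 6) (h : Adm2 F n1 n2 g1 g2 G) (p : NN F g1 g2 G) {e : ℕ}
    (he : e < n1 + 1) : (grR hF B).cp e p.1.1 = 0 := by
  obtain ⟨y, hy⟩ := p.2
  obtain ⟨z, hz⟩ := cp_div hF (mq_mem h.h1) (e + (n2 + 1)) y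
  have h2 : (grR hF B).cp (e + (n2 + 1)) (mq F B G * p.1.2) = 0 := by
    by_cases h1 : e = n1
    · rw [show e + (n2 + 1) = 0 + (n1 + n2 + 1) by omega, cp_mul hF (mq_mem h.hG), low2 hF h p,
        mul_zero]
    · exact cp_mul_lt hF (mq_mem h.hG) (by omega) _
  rw [← hy, map_add, mul_comm p.1.1, mul_comm p.1.2, cp_mul hF (mq_mem h.h2), h2, add_zero] at hz
  obtain ⟨w, hw⟩ := ar h hz
  have h3 := (grR hF B).cp_mem e p.1.1
  rw [hw] at h3 ⊢
  rw [(HomR.cancel hF (mq_mem h.h1) (az h) h3).2 he, mul_zero]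

theorem sum_shift (hF : F.IsHomogeneous 6) (r : Rq F B) (k : ℕ)
    (h : ∀ e < k, (grR hF B).cp e r = 0) :
    ∃ N, ∀ n ≥ N, ∑ d ∈ Finset.range n, (grR hF B).cp (d + k) r = r := by
  obtain ⟨N, -, hN⟩ := (grR hF B).sum_cp r
  refine ⟨N, fun n hn => ?_⟩
  have := hN (k + n) (by omega)
  rw [Finset.sum_range_add, Finset.sum_eq_zero fun e he => h e (Finset.mem_range.mp he),
    zero_add] at this
  simpa only [add_comm k] using this

theorem shift_indep (hF : F.IsHomogeneous 6) {c : ℕ → Rq F B} {k N : ℕ}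
    (hc : ∀ d, c d ∈ HomR F B (d + k)) (h : ∑ d ∈ Finset.range N, c d = 0) {d : ℕ}
    (hd : d < N) : c d = 0 := by
  have := congrArg ((grR hF B).cp (d + k)) h
  rwa [map_sum, map_zero, Finset.sum_eq_single d, Grading.cp_self (G := grR hF B) (hc d)] at this
  · exact fun e _ he => Grading.cp_ne (G := grR hF B) (hc e) (by omega)
  · exact fun h => absurd (Finset.mem_range.mpr hd) h

/-- the first coordinate -/
noncomputable def c1 (F : Pol ℂ) (g1 g2 G : Pol B) : NN F g1 g2 G →ₗ[Pol B] Rq F B :=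
  (LinearMap.fst _ _ _).comp (NN F g1 g2 G).subtype

/-- the second coordinate -/
noncomputable def c2 (F : Pol ℂ) (g1 g2 G : Pol B) : NN F g1 g2 G →ₗ[Pol B] Rq F B :=
  (LinearMap.snd _ _ _).comp (NN F g1 g2 G).subtype

theorem ext12 {u v : NN F g1 g2 G} (h1 : c1 F g1 g2 G u = c1 F g1 g2 G v)
    (h2 : c2 F g1 g2 G u = c2 F g1 g2 G v) : u = v :=
  Subtype.ext (Prod.ext h1 h2)

/-- the grading of the module of pairs -/
noncomputable def grN (hF : F.IsHomogeneous 6) (h : Adm2 F n1 n2 g1 g2 G) :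
    Grading B (NN F g1 g2 G) where
  piece d := ((HomR F B (d + (n1 + 1))).comap (c1 F g1 g2 G).toAddMonoidHom) ⊓
    ((HomR F B (d + 1)).comap (c2 F g1 g2 G).toAddMonoidHom)
  span p := by
    obtain ⟨N1, h1⟩ := sum_shift hF p.1.1 (n1 + 1) fun e he => low1 hF h p he
    obtain ⟨N2, h2⟩ := sum_shift hF p.1.2 1 fun e he => by
      obtain rfl : e = 0 := by omega
      exact low2 hF h p
    refine ⟨N1 + N2, fun d => ⟨_, cp_mem_NN hF h p d⟩,
      fun d => ⟨(grR hF B).cp_mem _ _, (grR hF B).cp_mem _ _⟩, ext12 ?_ ?_⟩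
    · rw [map_sum]
      exact (h1 _ (by omega)).symm
    · rw [map_sum]
      exact (h2 _ (by omega)).symm
  indep N c hc hs d hd := by
    have e1 := congrArg (c1 F g1 g2 G) hs
    have e2 := congrArg (c2 F g1 g2 G) hs
    rw [map_sum, map_zero] at e1 e2
    refine ext12 ?_ ?_
    · rw [map_zero]
      exact shift_indep hF (c := fun d => c1 F g1 g2 G (c d)) (fun d => (hc d).1) e1 hd
    · rw [map_zero]
      exact shift_indep hF (c := fun d => c2 F g1 g2 G (c d)) (fun d => (hc d).2) e2 hd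
  smul_mem n d a u ha hu := by
    refine ⟨?_, ?_⟩
    · change c1 F g1 g2 G (a • u) ∈ HomR F B (d + n + (n1 + 1))
      rw [map_smul, smul_mq, show d + n + (n1 + 1) = n + (d + (n1 + 1)) by omega]
      exact HomR.mul (mq_mem ha) hu.1
    · change c2 F g1 g2 G (a • u) ∈ HomR F B (d + n + 1)
      rw [map_smul, smul_mq, show d + n + 1 = n + (d + 1) by omega]
      exact HomR.mul (mq_mem ha) hu.2

theorem mem_grN (hF : F.IsHomogeneous 6) (h : Adm2 F n1 n2 g1 g2 G) {d : ℕ} {u : NN F g1 g2 G} :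
    u ∈ (grN hF h).piece d ↔
      c1 F g1 g2 G u ∈ HomR F B (d + (n1 + 1)) ∧ c2 F g1 g2 G u ∈ HomR F B (d + 1) := Iff.rfl

theorem exists_om (h : Adm2 F n1 n2 g1 g2 G) :
    ∃ ω : NN F g1 g2 G →ₗ[Pol B] NN F g1 g2 G →ₗ[Pol B] Rq F B, ∀ u v,
      mq F B g1 * ω u v = c1 F g1 g2 G u * c2 F g1 g2 G v - c1 F g1 g2 G v * c2 F g1 g2 G u := by
  have ex : ∀ u v : NN F g1 g2 G, ∃ z,
      c1 F g1 g2 G u * c2 F g1 g2 G v - c1 F g1 g2 G v * c2 F g1 g2 G u = mq F B g1 * z := by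
    intro u v
    obtain ⟨y, hy⟩ := u.2
    obtain ⟨z, hz⟩ := v.2
    refine ar h (y := v.1.2 * y - u.1.2 * z) ?_
    change _ * (u.1.1 * v.1.2 - v.1.1 * u.1.2) = _
    linear_combination v.1.2 * hy - u.1.2 * hz
  choose w hw using ex
  refine ⟨LinearMap.mk₂ (Pol B) w (fun u u' v => ac h ?_) (fun a u v => ac h ?_)
    (fun u v v' => ac h ?_) (fun a u v => ac h ?_), fun u v => (hw u v).symm⟩
  · rw [mul_add, ← hw, ← hw, ← hw]
    simp only [map_add]
    ring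
  · rw [smul_mq, mul_left_comm, ← hw, ← hw]
    simp only [map_smul, smul_mq]
    ring
  · rw [mul_add, ← hw, ← hw, ← hw]
    simp only [map_add]
    ring
  · rw [smul_mq, mul_left_comm, ← hw, ← hw]
    simp only [map_smul, smul_mq]
    ring

section Om

variable {ω : NN F g1 g2 G →ₗ[Pol B] NN F g1 g2 G →ₗ[Pol B] Rq F B}

theorem om_alt (h : Adm2 F n1 n2 g1 g2 G) (hω : ∀ u v, mq F B g1 * ω u v =
      c1 F g1 g2 G u * c2 F g1 g2 G v - c1 F g1 g2 G v * c2 F g1 g2 G u) (u : NN F g1 g2 G) :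
    ω u u = 0 :=
  az h _ (by rw [hω, sub_self])

theorem om_hom (hF : F.IsHomogeneous 6) (h : Adm2 F n1 n2 g1 g2 G)
    (hω : ∀ u v, mq F B g1 * ω u v =
      c1 F g1 g2 G u * c2 F g1 g2 G v - c1 F g1 g2 G v * c2 F g1 g2 G u) (d e : ℕ)
    (u : NN F g1 g2 G) (hu : u ∈ (grN hF h).piece d) (v : NN F g1 g2 G)
    (hv : v ∈ (grN hF h).piece e) : ω u v ∈ HomR F B (d + e + 1) := by
  refine (HomR.cancel hF (mq_mem h.h1) (az h) (n := d + e + 1 + (n1 + 1)) ?_).1 _ rfl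
  rw [hω]
  have a1 := HomR.mul hu.1 hv.2
  have a2 := HomR.mul hv.1 hu.2
  rw [show d + (n1 + 1) + (e + 1) = d + e + 1 + (n1 + 1) by omega] at a1
  rw [show e + (n1 + 1) + (d + 1) = d + e + 1 + (n1 + 1) by omega] at a2
  exact sub_mem a1 a2

theorem om_unit (h : Adm2 F n1 n2 g1 g2 G) (hω : ∀ u v, mq F B g1 * ω u v =
      c1 F g1 g2 G u * c2 F g1 g2 G v - c1 F g1 g2 G v * c2 F g1 g2 G u) (q : Ideal (Pol B))
    (hq : q.IsPrime) (hF : bc F B ∈ q) (hi : ∃ i, X i ∉ q) :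
    ∃ (u v : NN F g1 g2 G) (b : Pol B), b ∉ q ∧ ω u v = mq F B b := by
  obtain ⟨a1, b1, a2, b2, c, m1, m2, hc, e⟩ := h.lf q hq hF hi
  refine ⟨⟨_, mem_NN m1⟩, ⟨_, mem_NN m2⟩, c, hc, ac h ?_⟩
  rw [hω]
  have := mq_zero.2 e
  simp only [map_sub, map_mul] at this
  change mq F B a1 * mq F B b2 - mq F B a2 * mq F B b1 = _
  linear_combination this

theorem om_vec (h : Adm2 F n1 n2 g1 g2 G) (hω : ∀ u v, mq F B g1 * ω u v =
      c1 F g1 g2 G u * c2 F g1 g2 G v - c1 F g1 g2 G v * c2 F g1 g2 G u)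
    {u m1 m2 : NN F g1 g2 G} {c α β : Pol B} (hc : ω m1 m2 = mq F B c) (hα : ω u m2 = mq F B α)
    (hβ : ω m1 u = mq F B β) : c • u = α • m1 + β • m2 := by
  have e1 := hω m1 m2
  have e2 := hω u m2
  have e3 := hω m1 u
  rw [hc] at e1
  rw [hα] at e2
  rw [hβ] at e3
  refine ext12 (ac h ?_) (ac h ?_)
  · simp only [map_add, map_smul, smul_mq]
    linear_combination c1 F g1 g2 G u * e1 - c1 F g1 g2 G m1 * e2 - c1 F g1 g2 G m2 * e3
  · simp only [map_add, map_smul, smul_mq]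
    linear_combination c2 F g1 g2 G u * e1 - c2 F g1 g2 G m1 * e2 - c2 F g1 g2 G m2 * e3

theorem kill_NN (u : NN F g1 g2 G) : bc F B • u = 0 :=
  ext12 (by rw [map_smul, smul_mq, mq_F, zero_mul, map_zero])
    (by rw [map_smul, smul_mq, mq_F, zero_mul, map_zero])

theorem rank2 [IsNoetherianRing B] (h : Adm2 F n1 n2 g1 g2 G) (hω : ∀ u v, mq F B g1 * ω u v =
      c1 F g1 g2 G u * c2 F g1 g2 G v - c1 F g1 g2 G v * c2 F g1 g2 G u) :
    IsRankTwoBundle (bc F B) (NN F g1 g2 G) where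
  finite := inferInstance
  kill := kill_NN
  locFree q hq hi := by
    by_cases hF : bc F B ∈ q
    · obtain ⟨m1, m2, c, hc, e⟩ := om_unit h hω q hq hF hi
      refine ⟨m1, m2, fun u => ?_, fun α β e0 => ⟨c, hc, mq_zero.1 ?_, mq_zero.1 ?_⟩⟩
      · obtain ⟨α, hα⟩ := mq_surj (ω u m2)
        obtain ⟨β, hβ⟩ := mq_surj (ω m1 u)
        exact ⟨c, hc, α, β, om_vec h hω e hα.symm hβ.symm⟩
      · have := congrArg (fun x => ω x m2) e0
        simp only [map_add, map_smul, LinearMap.add_apply, LinearMap.smul_apply, om_alt h hω,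
          smul_mq, e, map_zero, LinearMap.zero_apply] at this
        rw [map_mul]
        linear_combination this
      · have := congrArg (ω m1) e0
        simp only [map_add, map_smul, om_alt h hω, smul_mq, e, map_zero] at this
        rw [map_mul]
        linear_combination this
    · refine ⟨0, 0, fun u => ⟨_, hF, 0, 0, by rw [kill_NN]; simp⟩, fun α β _ => ⟨_, hF, ?_, ?_⟩⟩
      · exact Ideal.mul_mem_right _ _ (Ideal.mem_span_singleton_self _)
      · exact Ideal.mul_mem_right _ _ (Ideal.mem_span_singleton_self _)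

end Om

end NBP

open NBP

theorem nB : S_NB := by
  intro F hR B _ _ _ n1 n2 g1 g2 G h
  obtain ⟨ω, hω⟩ := exists_om h
  let E : Bundle F B :=
    { M := NN F g1 g2 G
      gr := grN hR.hom h
      rankTwo := rank2 h hω
      det := ⟨ω, om_alt h hω, om_hom hR.hom h hω, om_unit h hω⟩ }
  let t1 : NN F g1 g2 G := ⟨(0, mq F B g1), mq F B G, by simp⟩
  let t2 : NN F g1 g2 G := ⟨(-mq F B G, mq F B g2), 0, by simp only; ring⟩
  have e1 : ∀ u, ω u t1 = c1 F g1 g2 G u := fun u => ac h (by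
    rw [hω]
    change c1 F g1 g2 G u * mq F B g1 - 0 * _ = _
    ring)
  refine ⟨E, ω, c2 F g1 g2 G, t1, t2,
    ⟨⟨om_alt h hω, om_hom hR.hom h hω, om_unit h hω⟩, fun d u hu => hu.2,
      ⟨(HomR F B (n1 + (n1 + 1))).zero_mem, mq_mem h.h1⟩, ⟨?_, mq_mem h.h2⟩, h.h1, h.h2, h.hG, rfl, rfl, ac h ?_, h.r1,
      h.r2⟩, fun u h1 h2 => ?_, fun a b hab => ⟨⟨_, mem_NN hab⟩, e1 _, rfl⟩⟩
  · change -mq F B G ∈ HomR F B (n2 + (n1 + 1))
    rw [show n2 + (n1 + 1) = n1 + n2 + 1 by omega]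
    exact neg_mem (mq_mem h.hG)
  · change mq F B g1 * ω t1 t2 = _
    rw [hω]
    change 0 * mq F B g2 - -mq F B G * mq F B g1 = _
    ring
  · exact ext12 ((e1 u).symm.trans (h1.trans (map_zero _).symm)) (h2.trans (map_zero _).symm)

theorem nPull : S_NPull := by
  intro F hR B B' _ _ _ _ φ E E' ω ω' j s s' t1 t2 t1' t2' d1 d2 g1 g2 G G' h h' hr hG
  have inj : ∀ x y : E'.M, ω' x t1' = ω' y t1' → s' x = s' y → x = y := fun x y a b =>
    sub_eq_zero.1 (hr.inj _ (by rw [map_sub, LinearMap.sub_apply, a, sub_self])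
      (by rw [map_sub, b, sub_self]))
  have ex : ∀ u, ∃ x : E'.M, ω' x t1' = mapR F φ (ω u t1) ∧ s' x = mapR F φ (s u) := fun u => by
    obtain ⟨a, ha⟩ := mq_surj (mapR F φ (ω u t1))
    obtain ⟨b, hb⟩ := mq_surj (mapR F φ (s u))
    obtain ⟨y, hy⟩ := mem2.1 hG
    have e := congrArg (mapR F φ) (pl12 hR h u)
    simp only [map_add, map_mul, mapR_mq, map_zero] at e
    rw [← ha, ← hb]
    refine hr.surj a b (mem2.2 ⟨mq F B' b * y - mapR F φ (ω t2 u), ?_⟩)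
    rw [map_sub] at hy
    rw [map_add, map_mul, map_mul, ha, hb]
    linear_combination e + mapR F φ (s u) * hy
  choose f hf1 hf2 using ex
  let θ : E.M →+ E'.M := AddMonoidHom.mk' f fun u v => inj _ _
    (by simp only [hf1, map_add, LinearMap.add_apply]) (by simp only [hf2, map_add])
  have hθ1 : ∀ u, ω' (θ u) t1' = mapR F φ (ω u t1) := hf1
  have hθ2 : ∀ u, s' (θ u) = mapR F φ (s u) := hf2
  have hom : ∀ u v, ω' (θ u) (θ v) = mapR F φ (ω u v) := fun u v => cancel1 h' (by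
    have e := congrArg (mapR F φ) (pl1 hR h u v)
    have e' := pl1 hR h' (θ u) (θ v)
    simp only [map_add, map_sub, map_mul, mapR_mq, map_zero] at e
    rw [hθ1, hθ1, hθ2, hθ2] at e'
    linear_combination e' - e)
  refine ⟨θ, ⟨fun a u => inj _ _ ?_ ?_, fun d u hu => ?_, fun u i => ?_⟩, hθ2, hθ1⟩
  · simp only [hθ1, map_smul, LinearMap.smul_apply, smul_mq, map_mul, mapR_mq]
  · simp only [hθ2, map_smul, smul_mq, map_mul, mapR_mq]
  · have hf : IsFun E' (d1 + 1) (ω'.flip t1') := fun e x hx => h'.pair.hom e d1 x hx t1' h'.m1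
    have a1 : ω'.flip t1' (θ u) ∈ HomR F B' (d + (d1 + 1)) := by
      rw [LinearMap.flip_apply, hθ1]
      exact HomR.map φ (h.pair.hom d d1 u hu t1 h.m1)
    have a2 : s' (θ u) ∈ HomR F B' (d + j) := by
      rw [hθ2]
      exact HomR.map φ (h.fn d u hu)
    rw [← inj (E'.gr.cp d (θ u)) (θ u) ?_ ?_]
    · exact E'.gr.cp_mem d _
    · have := fun_cp hR.hom hf d (θ u)
      rw [Grading.cp_self (G := grR hR.hom B') a1] at this
      exact this
    · rw [fun_cp hR.hom h'.fn, Grading.cp_self (G := grR hR.hom B') a2]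
  · refine exists_pow_mem ((Submodule.span (Pol B') (Set.range θ)).comap
      (LinearMap.toSpanSingleton (Pol B') _ u)) (X i) fun q hq hi => ?_
    by_cases hF : bc F B' ∈ q
    · obtain ⟨m1, m2, a, ha, e⟩ := h.pair.unit (q.comap (map (φ : B →+* B')))
        (Ideal.comap_isPrime _ _) (by rwa [Ideal.mem_comap, map_bc]) (comap_X ⟨i, hi⟩)
      obtain ⟨b, hb⟩ := mq_surj (ω' (θ m2) u)
      obtain ⟨c, hc⟩ := mq_surj (ω' u (θ m1))
      have ht := h'.pair.tor_pl hR (u := u) (v := θ m1) (w := θ m2)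
        (a := map (φ : B →+* B') a) (by rw [hom, e, mapR_mq]) hb.symm hc.symm
      have h0 := hr.inj _ (fun_tor hR (ω'.flip t1') ht) (fun_tor hR s' ht)
      refine ⟨_, ?_, ha⟩
      change map (φ : B →+* B') a • u ∈ Submodule.span (Pol B') (Set.range θ)
      rw [add_assoc, add_eq_zero_iff_eq_neg] at h0
      rw [h0]
      exact neg_mem (add_mem (Submodule.smul_mem _ _ (Submodule.subset_span ⟨m1, rfl⟩))
        (Submodule.smul_mem _ _ (Submodule.subset_span ⟨m2, rfl⟩)))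
    · refine ⟨_, ?_, hF⟩
      change bc F B' • u ∈ Submodule.span (Pol B') (Set.range θ)
      rw [E'.rankTwo.kill]
      exact zero_mem _

end Pool.Agent.P.MP_2b2d3b_ag
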