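import Pool.Agent.P.MP_2b2d3b_ag.StE
import Pool.Agent.P.MP_2b2d3b_ag.NB

/-!
Package FrSat: the bundle defined by a skew matrix of rank two, and its universal property.
-/

namespace Pool.Agent.P.MP_2b2d3b_ag

open MvPolynomial LamP

namespace EFrSatP

variable {F : Pol ℂ} {B : Type} [CommRing B] [Algebra ℂ B] {n : Type} {k : ℕ}
  {Ω : Matrix n n (Pol B)}

/-- elements without components of degree below `j` -/
noncomputable def Low (hF : F.IsHomogeneous 6) (B : Type) [CommRing B] [Algebra ℂ B] (j : ℕ) :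
    Submodule (Pol B) (Rq F B) :=
  (grR hF B).sub (fun d => if d < j then ⊥ else ⊤) fun m d a _ u _ hu => by
    split_ifs with h
    · rw [if_pos (by omega), AddSubgroup.mem_bot] at hu
      rw [hu, smul_zero]
      exact zero_mem _
    · exact AddSubgroup.mem_top _

theorem mem_Low {hF : F.IsHomogeneous 6} {j : ℕ} {r : Rq F B} :
    r ∈ Low hF B j ↔ ∀ e < j, (grR hF B).cp e r = 0 := by
  refine forall_congr' fun e => ?_
  by_cases h : e < j <;> simp [h]

theorem low_of_hom (hF : F.IsHomogeneous 6) {j d : ℕ} {r : Rq F B} (h : r ∈ HomR F B (d + j)) :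
    r ∈ Low hF B j :=
  mem_Low.2 fun e he => Grading.cp_ne (G := grR hF B) h (by omega)

/-- the module defined by the matrix -/
noncomputable def NS (hF : F.IsHomogeneous 6) (k : ℕ) (Ω : Matrix n n (Pol B)) :
    Submodule (Pol B) (n → Rq F B) where
  carrier := {x | (∀ i j l, x i * mq F B (Ω j l) + x j * mq F B (Ω l i) +
    x l * mq F B (Ω i j) = 0) ∧ ∀ i, x i ∈ Low hF B (k + 1)}
  zero_mem' := ⟨fun i j l => by simp, fun _ => zero_mem _⟩
  add_mem' := by
    rintro x y ⟨h1, h2⟩ ⟨h3, h4⟩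
    refine ⟨fun i j l => ?_, fun i => add_mem (h2 i) (h4 i)⟩
    simp only [Pi.add_apply]
    linear_combination h1 i j l + h3 i j l
  smul_mem' := by
    rintro c x ⟨h1, h2⟩
    refine ⟨fun i j l => ?_, fun i => Submodule.smul_mem _ c (h2 i)⟩
    simp only [Pi.smul_apply, smul_mq]
    linear_combination mq F B c * h1 i j l

variable {hF : F.IsHomogeneous 6}

/-- the coordinates -/
noncomputable def co (hF : F.IsHomogeneous 6) (k : ℕ) (Ω : Matrix n n (Pol B)) (a : n) :
    NS hF k Ω →ₗ[Pol B] Rq F B := (LinearMap.proj a).comp (NS hF k Ω).subtype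

theorem co_ext {u v : NS hF k Ω} (h : ∀ a, co hF k Ω a u = co hF k Ω a v) : u = v :=
  Subtype.ext (funext h)

theorem rel (u : NS hF k Ω) (i j l : n) : co hF k Ω i u * mq F B (Ω j l) +
    co hF k Ω j u * mq F B (Ω l i) + co hF k Ω l u * mq F B (Ω i j) = 0 := u.2.1 i j l

theorem sk (h : GD F (fun _ => k) Ω) (i j : n) : mq F B (Ω i j) + mq F B (Ω j i) = 0 := by
  rw [← map_add]; exact mq_zero.2 (h.skew i j)

theorem dg (h : GD F (fun _ => k) Ω) (i : n) : mq F B (Ω i i) = 0 := mq_zero.2 (h.diag i)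

theorem pl (h : GD F (fun _ => k) Ω) (i j l m : n) : mq F B (Ω i j) * mq F B (Ω m l) +
    mq F B (Ω j l) * mq F B (Ω m i) + mq F B (Ω l i) * mq F B (Ω m j) = 0 := by
  simp only [← map_mul, ← map_add]
  exact mq_zero.2 (h.pl i j l m)

theorem hm (h : GD F (fun _ => k) Ω) (i j : n) : mq F B (Ω i j) ∈ HomR F B (k + k + 1) :=
  mq_mem (h.hom i j)

/-- the grading -/
noncomputable def grS [Fintype n] (hF : F.IsHomogeneous 6) (h : GD F (fun _ => k) Ω) :
    Grading B (NS hF k Ω) where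
  piece d := ⨅ a, (HomR F B (d + (k + 1))).comap (co hF k Ω a).toAddMonoidHom
  span x := by
    choose N hN using fun a => NBP.sum_shift hF (co hF k Ω a x) (k + 1) (mem_Low.1 (x.2.2 a))
    refine ⟨∑ a, N a, fun d => ⟨fun a => (grR hF B).cp (d + (k + 1)) (co hF k Ω a x),
      fun i j l => ?_, fun a => low_of_hom hF ((grR hF B).cp_mem _ _)⟩,
      fun d => AddSubgroup.mem_iInf.2 fun a => (grR hF B).cp_mem _ _, co_ext fun a => ?_⟩
    · have := congrArg ((grR hF B).cp (d + (k + 1) + (k + k + 1))) (rel x i j l)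
      rw [map_add, map_add, map_zero, mul_comm _ (mq F B (Ω j l)), mul_comm _ (mq F B (Ω l i)),
        mul_comm _ (mq F B (Ω i j)), cp_mul hF (hm h _ _), cp_mul hF (hm h _ _),
        cp_mul hF (hm h _ _)] at this
      linear_combination this
    · rw [map_sum]
      exact (hN a _ (Finset.single_le_sum (f := N) (fun _ _ => Nat.zero_le _)
        (Finset.mem_univ a))).symm
  indep N c hc hs d hd := co_ext fun a => by
    have e := congrArg (co hF k Ω a) hs
    rw [map_sum, map_zero] at e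
    rw [map_zero]
    exact NBP.shift_indep hF (c := fun d => co hF k Ω a (c d))
      (fun d => AddSubgroup.mem_iInf.1 (hc d) a) e hd
  smul_mem m d c u hc hu := AddSubgroup.mem_iInf.2 fun a => by
    change co hF k Ω a (c • u) ∈ HomR F B (d + m + (k + 1))
    rw [map_smul, smul_mq, show d + m + (k + 1) = m + (d + (k + 1)) by omega]
    exact HomR.mul (mq_mem hc) (AddSubgroup.mem_iInf.1 hu a)

theorem mem_grS [Fintype n] (h : GD F (fun _ => k) Ω) {d : ℕ} {u : NS hF k Ω} :
    u ∈ (grS hF h).piece d ↔ ∀ a, co hF k Ω a u ∈ HomR F B (d + (k + 1)) :=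
  AddSubgroup.mem_iInf

theorem zero_of_W (hR : Rg F) (h : GD F (fun _ => k) Ω) {r : Rq F B}
    (hr : ∀ a b, mq F B (Ω a b) * r = 0) : r = 0 :=
  hR.zero_of_loc fun q hq hF h3 => by
    obtain ⟨a, b, hab⟩ := h.unit q hq hF ⟨3, h3⟩
    exact ⟨_, hab, hr a b⟩

theorem eq_of_W (hR : Rg F) (h : GD F (fun _ => k) Ω) {r r' : Rq F B}
    (hr : ∀ a b, mq F B (Ω a b) * r = mq F B (Ω a b) * r') : r = r' :=
  sub_eq_zero.1 (zero_of_W hR h fun a b => by rw [mul_sub, hr, sub_self])

theorem hom_of_W (hR : Rg F) (h : GD F (fun _ => k) Ω) {r : Rq F B} {m : ℕ}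
    (hr : ∀ a b, mq F B (Ω a b) * r ∈ HomR F B (m + (k + k + 1))) : r ∈ HomR F B m := by
  obtain ⟨N, -, hN⟩ := (grR hR.hom B).sum_cp r
  rw [← hN N le_rfl]
  refine sum_mem fun d _ => ?_
  by_cases hd : d = m
  · exact hd ▸ (grR hR.hom B).cp_mem d r
  · rw [zero_of_W hR h (r := (grR hR.hom B).cp d r) fun a b => by
      rw [← cp_mul hR.hom (hm h a b)]
      exact Grading.cp_ne (G := grR hR.hom B) (hr a b) (by omega)]
    exact zero_mem _

/-- a matrix proportional to `Ω` is a multiple of `Ω` -/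
theorem divide (hR : Rg F) (h : GD F (fun _ => k) Ω) {β : n → n → Rq F B}
    (key : ∀ a b c d, mq F B (Ω c d) * β a b = β c d * mq F B (Ω a b)) :
    ∃ r, ∀ a b, mq F B (Ω a b) * r = β a b := by
  have ex : ∀ i : Fin 4, ∃ (m : ℕ) (r : Rq F B), ∀ a b,
      mq F B (X i ^ m) * β a b = r * mq F B (Ω a b) := fun i => by
    obtain ⟨m, hm⟩ : ∃ m : ℕ, mq F B (X i ^ m) ∈
        Ideal.span (Set.range fun p : n × n => mq F B (Ω p.1 p.2)) :=
      exists_pow_mem (Ideal.comap (mq F B) (Ideal.span (Set.range fun p : n × n =>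
        mq F B (Ω p.1 p.2)))) (X i) fun q hq hi => by
        by_cases hF : bc F B ∈ q
        · obtain ⟨a, b, hab⟩ := h.unit q hq hF ⟨i, hi⟩
          exact ⟨_, Ideal.subset_span ⟨(a, b), rfl⟩, hab⟩
        · exact ⟨_, by rw [Ideal.mem_comap, mq_F]; exact Ideal.zero_mem _, hF⟩
    refine ⟨m, ?_⟩
    refine Submodule.span_induction (p := fun x _ => ∃ r, ∀ a b, x * β a b = r * mq F B (Ω a b))
      ?_ ⟨0, by simp⟩ ?_ ?_ hm
    · rintro _ ⟨p, rfl⟩
      exact ⟨_, fun a b => key a b p.1 p.2⟩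
    · rintro x y - - ⟨r, hr⟩ ⟨c, hc⟩
      exact ⟨r + c, fun a b => by rw [add_mul, add_mul, hr, hc]⟩
    · rintro c x - ⟨r, hr⟩
      exact ⟨c * r, fun a b => by rw [smul_eq_mul, mul_assoc, mul_assoc, hr]⟩
  obtain ⟨m, b2, h2⟩ := ex 2
  obtain ⟨l, b3, h3⟩ := ex 3
  obtain ⟨r, hr⟩ := hR.regR (m + l) (r := mq F B (X 3 ^ m) * b3) (r' := mq F B (X 2 ^ l) * b2) (by
    rw [← sub_eq_zero]
    refine zero_of_W hR h fun a b => ?_
    simp only [pow_add, map_mul]
    linear_combination (mq F B (X 2 ^ l) * mq F B (X 3 ^ m) * mq F B (X 3 ^ l)) * h2 a b -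
      (mq F B (X 2 ^ l) * mq F B (X 3 ^ m) * mq F B (X 2 ^ m)) * h3 a b)
  refine ⟨r, fun a b => ?_⟩
  rw [eq_comm, ← sub_eq_zero]
  apply hR.nzdR (i := 3) (by decide) (m + l)
  simp only [pow_add, map_mul] at hr ⊢
  linear_combination mq F B (X 3 ^ m) * h3 a b + mq F B (Ω a b) * hr

theorem exists_om (hR : Rg F) (h : GD F (fun _ => k) Ω) :
    ∃ ω : NS hF k Ω →ₗ[Pol B] NS hF k Ω →ₗ[Pol B] Rq F B, ∀ u v a b, mq F B (Ω a b) * ω u v =
      co hF k Ω a u * co hF k Ω b v - co hF k Ω a v * co hF k Ω b u := by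
  have ex : ∀ u v : NS hF k Ω, ∃ r, ∀ a b, mq F B (Ω a b) * r =
      co hF k Ω a u * co hF k Ω b v - co hF k Ω a v * co hF k Ω b u := fun u v =>
    divide hR h fun a b c d => by
      linear_combination co hF k Ω b v * rel u a c d - co hF k Ω a v * rel u b c d -
        co hF k Ω c u * rel v a b d + co hF k Ω d u * rel v a b c +
        co hF k Ω a v * co hF k Ω c u * sk h d b - co hF k Ω b v * co hF k Ω d u * sk h a c
  choose w hw using ex
  refine ⟨LinearMap.mk₂ (Pol B) w (fun u u' v => eq_of_W hR h fun a b => ?_)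
    (fun c u v => eq_of_W hR h fun a b => ?_) (fun u v v' => eq_of_W hR h fun a b => ?_)
    (fun c u v => eq_of_W hR h fun a b => ?_), hw⟩
  · rw [mul_add, hw, hw, hw]
    simp only [map_add]
    ring
  · rw [smul_mq, mul_left_comm, hw, hw]
    simp only [map_smul, smul_mq]
    ring
  · rw [mul_add, hw, hw, hw]
    simp only [map_add]
    ring
  · rw [smul_mq, mul_left_comm, hw, hw]
    simp only [map_smul, smul_mq]
    ring

/-- a row of the matrix -/
noncomputable def row (hF : F.IsHomogeneous 6) (h : GD F (fun _ => k) Ω) (a : n) : NS hF k Ω :=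
  ⟨fun i => mq F B (Ω a i), fun i j l => by linear_combination pl h i j l a,
    fun i => low_of_hom hF (d := k) (hm h a i)⟩

theorem co_row (h : GD F (fun _ => k) Ω) (a i : n) :
    co hF k Ω i (row hF h a) = mq F B (Ω a i) := rfl

theorem kill_NS (u : NS hF k Ω) : bc F B • u = 0 :=
  co_ext fun a => by rw [map_smul, smul_mq, mq_F, zero_mul, map_zero]

theorem rank2 [IsNoetherianRing B] [Fintype n] (h : GD F (fun _ => k) Ω) :
    IsRankTwoBundle (bc F B) (NS hF k Ω) where
  finite := inferInstance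
  kill := kill_NS
  locFree q hq hi := by
    by_cases hq' : bc F B ∈ q
    · obtain ⟨a, b, hab⟩ := h.unit q hq hq' hi
      refine ⟨row hF h a, row hF h b, fun u => ?_,
        fun α β e0 => ⟨Ω a b, hab, mq_zero.1 ?_, mq_zero.1 ?_⟩⟩
      · obtain ⟨α, hα⟩ := mq_surj (co hF k Ω b u)
        obtain ⟨β, hβ⟩ := mq_surj (-co hF k Ω a u)
        refine ⟨Ω a b, hab, α, β, co_ext fun i => ?_⟩
        simp only [map_add, map_smul, smul_mq, co_row, hα, hβ]
        linear_combination rel u i a b - co hF k Ω b u * sk h i a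
      · have := congrArg (co hF k Ω b) e0
        simp only [map_add, map_smul, smul_mq, co_row, map_zero, dg h] at this
        rw [map_mul]
        linear_combination this
      · have := congrArg (co hF k Ω a) e0
        simp only [map_add, map_smul, smul_mq, co_row, map_zero, dg h] at this
        rw [map_mul]
        linear_combination mq F B β * sk h a b - this
    · refine ⟨0, 0, fun u => ⟨_, hq', 0, 0, by rw [kill_NS]; simp⟩, fun α β _ => ⟨_, hq', ?_, ?_⟩⟩
      · exact Ideal.mul_mem_right _ _ (Ideal.mem_span_singleton_self _)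
      · exact Ideal.mul_mem_right _ _ (Ideal.mem_span_singleton_self _)

theorem fun_low (hF : F.IsHomogeneous 6) {E : Bundle F B} {j : ℕ} {s : E.M →ₗ[Pol B] Rq F B}
    (hs : IsFun E j s) (u : E.M) : s u ∈ Low hF B j := by
  induction u using E.gr.induction with
  | h0 => rw [map_zero]; exact zero_mem _
  | hadd u v hu hv => rw [map_add]; exact add_mem hu hv
  | hom e u hu => exact low_of_hom hF (hs e u hu)

end EFrSatP

open EFrSatP

theorem frSat : S_FrSat := by
  intro F hR B n _ _ _ _ k Ω h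
  have hF := hR.hom
  obtain ⟨ωN, hω⟩ := exists_om (hF := hF) hR h
  have alt : ∀ u, ωN u u = 0 := fun u => zero_of_W hR h fun a b => by rw [hω, sub_self]
  have hom : ∀ (d e : ℕ), ∀ u ∈ (grS hF h).piece d, ∀ v ∈ (grS hF h).piece e,
      ωN u v ∈ HomR F B (d + e + 1) := fun d e u hu v hv => hom_of_W hR h fun a b => by
    rw [hω]
    have a1 := HomR.mul ((mem_grS h).1 hu a) ((mem_grS h).1 hv b)
    have a2 := HomR.mul ((mem_grS h).1 hv a) ((mem_grS h).1 hu b)
    rw [show d + (k + 1) + (e + (k + 1)) = d + e + 1 + (k + k + 1) by omega] at a1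
    rw [show e + (k + 1) + (d + (k + 1)) = d + e + 1 + (k + k + 1) by omega] at a2
    exact sub_mem a1 a2
  have unit : ∀ q : Ideal (Pol B), q.IsPrime → bc F B ∈ q → (∃ i, X i ∉ q) →
      ∃ (u v : NS hF k Ω) (b : Pol B), b ∉ q ∧ ωN u v = mq F B b := fun q hq hq' hi => by
    obtain ⟨a, b, hab⟩ := h.unit q hq hq' hi
    refine ⟨row hF h a, row hF h b, _, hab, eq_of_W hR h fun i j => ?_⟩
    rw [hω]
    simp only [co_row]
    linear_combination mq F B (Ω a i) * sk h j b - pl h i j b a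
  let N : Bundle F B :=
    { M := NS hF k Ω
      gr := grS hF h
      rankTwo := rank2 h
      det := ⟨ωN, alt, hom, unit⟩ }
  refine ⟨N, ωN, co hF k Ω, ⟨⟨alt, hom, unit⟩, fun a d u hu => (mem_grS h).1 hu a,
    fun a b u v => (hω u v a b).symm⟩, fun E ω s hE => ?_⟩
  have mem : ∀ u, (fun a => s a u) ∈ NS hF k Ω := fun u =>
    ⟨fun i j l => hE.pair.zero_of_mul' hR fun x y => by
      linear_combination mq F B (Ω j l) * pluecker hR hE.pair.alt (s i) u x y -
        s j u * hE.wedge l i x y - s l u * hE.wedge i j x y + s i x * hE.wedge j l y u +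
        s i y * hE.wedge j l u x, fun a => fun_low hF (hE.fn a) u⟩
  let θ : E.M →+ NS hF k Ω := AddMonoidHom.mk' (fun u => ⟨_, mem u⟩) fun u v =>
    co_ext fun a => map_add (s a) u v
  have hθ : ∀ a u, co hF k Ω a (θ u) = s a u := fun _ _ => rfl
  refine ⟨θ, ⟨fun c u => co_ext fun a => ?_, fun d u hu => (mem_grS h).2 fun a => hE.fn a d u hu,
    fun x i => ?_⟩, fun a u => (mapR_id _).symm⟩
  · rw [map_algId]
    exact map_smul (s a) c u
  · refine exists_pow_mem ((Submodule.span (Pol B) (Set.range θ)).comap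
      (LinearMap.toSpanSingleton (Pol B) _ x)) (X i) fun q hq hi => ?_
    by_cases hq' : bc F B ∈ q
    · obtain ⟨m1, m2, c, hc, e⟩ := hE.pair.unit q hq hq' ⟨i, hi⟩
      have e1 : ωN (θ m1) (θ m2) = mq F B c := eq_of_W hR h fun a b => by
        rw [hω, hθ, hθ, hθ, hθ, hE.wedge, e]
      obtain ⟨α, hα⟩ := mq_surj (-ωN (θ m2) x)
      obtain ⟨β, hβ⟩ := mq_surj (-ωN x (θ m1))
      have e2 : c • (x : NS hF k Ω) = α • θ m1 + β • θ m2 := co_ext fun a => by
        have := pluecker (E := N) hR alt (co hF k Ω a) x (θ m1) (θ m2)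
        simp only [map_add, map_smul, smul_mq, hα, hβ, ← e1]
        linear_combination this
      refine ⟨c, ?_, hc⟩
      change c • (x : NS hF k Ω) ∈ Submodule.span (Pol B) (Set.range θ)
      rw [e2]
      exact add_mem (Submodule.smul_mem _ _ (Submodule.subset_span ⟨m1, rfl⟩))
        (Submodule.smul_mem _ _ (Submodule.subset_span ⟨m2, rfl⟩))
    · refine ⟨_, ?_, hq'⟩
      change bc F B • (x : NS hF k Ω) ∈ Submodule.span (Pol B) (Set.range θ)
      rw [kill_NS]
      exact zero_mem _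

end Pool.Agent.P.MP_2b2d3b_ag
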