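import Pool.Agent.P.MP_2b2d3b_ag.Kn

/-!
Package Frame0: a good bundle has a complete frame.
-/

namespace Pool.Agent.P.MP_2b2d3b_ag

open MvPolynomial Module

namespace EFrame0P

variable {F : Pol ℂ} {E : Bundle F ℂ}

theorem csmul (c : ℂ) (r : Rq F ℂ) : c • r = mq F ℂ (C c) * r :=
  (algebraMap_smul (Pol ℂ) c r).symm

/-- the functionals of shift `j` -/
def Fn (E : Bundle F ℂ) (j : ℕ) : Submodule ℂ (E.M →ₗ[Pol ℂ] Rq F ℂ) where
  carrier := {l | IsFun E j l}
  zero_mem' := fun _ _ _ => zero_mem _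
  add_mem' := fun h h' d u hu => add_mem (h d u hu) (h' d u hu)
  smul_mem' c l h d u hu := by
    have := HomR.mul (mq_mem (F := F) (isHomogeneous_C (Fin 4) c)) (h d u hu)
    rw [zero_add] at this
    rwa [LinearMap.smul_apply, csmul]

theorem mem_Fn {j : ℕ} {l : E.M →ₗ[Pol ℂ] Rq F ℂ} : l ∈ Fn E j ↔ IsFun E j l := Iff.rfl

variable {ω : E.M →ₗ[Pol ℂ] E.M →ₗ[Pol ℂ] Rq F ℂ}

theorem uniq (hR : Rg F) (h : Pairing E ω) {x y : Rq F ℂ} (e : ∀ u v, x * ω u v = y * ω u v) :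
    x = y :=
  sub_eq_zero.1 (h.zero_of_mul' hR fun u v => by linear_combination e u v)

/-- the wedge product with `s` -/
theorem exists_wd (hR : Rg F) (h : Pairing E ω) (s : E.M →ₗ[Pol ℂ] Rq F ℂ) :
    ∃ w : (E.M →ₗ[Pol ℂ] Rq F ℂ) →ₗ[ℂ] Rq F ℂ,
      ∀ l u v, l u * s v - l v * s u = w l * ω u v := by
  choose b hb _ using wedge F hR ℂ E ω h
  refine ⟨⟨⟨fun l => mq F ℂ (b l s), fun l l' => uniq hR h fun u v => ?_⟩,
    fun c l => uniq hR h fun u v => ?_⟩, fun l => hb l s⟩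
  · rw [add_mul, ← hb, ← hb, ← hb]
    simp only [LinearMap.add_apply]
    ring
  · simp only [RingHom.id_apply]
    rw [csmul, mul_assoc, ← hb, ← hb]
    simp only [LinearMap.smul_apply, csmul]
    ring

/-- multiples of `s` -/
noncomputable def mulS (s : E.M →ₗ[Pol ℂ] Rq F ℂ) : Rq F ℂ →ₗ[ℂ] (E.M →ₗ[Pol ℂ] Rq F ℂ) where
  toFun x := (LinearMap.mulLeft (Pol ℂ) x).comp s
  map_add' x y := LinearMap.ext fun u => add_mul x y (s u)
  map_smul' c x := LinearMap.ext fun u => smul_mul_assoc c x (s u)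

theorem mulS_apply (s : E.M →ₗ[Pol ℂ] Rq F ℂ) (x : Rq F ℂ) (u : E.M) : mulS s x u = x * s u := rfl

theorem rank_Fn (hF : Hyp F) {c : ℕ} {s : E.M →ₗ[Pol ℂ] Rq F ℂ} {Λ} (h : Rep c E 1 s Λ) (k : ℕ) :
    Module.Finite ℂ (Fn E (k + 1)) ∧ finrank ℂ (Fn E (k + 1)) + hilb (satI s) (k + 1) =
      hilb (Ideal.span {F}) (k + 1) + hilb (Ideal.span {F}) k := by
  have hR := hF.rg
  have hr := (Kn.hRad F hR ℂ E c 1 s Λ h).2.2
  obtain ⟨x, ω, t1, t2, d1, d2, G, hx, -, hxF, -, -, hser, hΛ⟩ := h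
  have hl := lam F hR ℂ E ω 1 s t1 t2 d1 d2 _ _ G hser
  have hFs : bc F ℂ ∈ satI s := hl.2.2.2.2.2
  obtain ⟨w, hw⟩ := exists_wd hR hser.pair s
  have e1 : (Fn E (k + 1)).map w = (Id (satI s) (k + 1)).map (HfP.mk F) := by
    apply le_antisymm
    · rintro _ ⟨l, hl', rfl⟩
      obtain ⟨b, e, hb, hb'⟩ := wedge F hR ℂ E ω hser.pair l s
      obtain ⟨b', hb1, hb2⟩ := hb' (k + 1) 1 (k + 1) hl' hser.fn (by omega)
      have h1 : b - b' ∈ satI s :=
        (Ideal.span_singleton_le_iff_mem _).2 hFs (mq_eq.1 hb2)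
      refine ⟨b', mem_Id.2 ⟨by simpa using (satI s).sub_mem hb h1, hb1⟩, ?_⟩
      exact uniq hR hser.pair fun u v => by rw [← hw, e, hb2]; rfl
    · rintro _ ⟨b, hb, rfl⟩
      obtain ⟨hbs, hb⟩ := mem_Id.1 hb
      have h1 := (hr b _ hb).mpr hbs
      have h2 := (box ℂ x hx).2.2.2.2.1 (b * G) _ (hb.mul hser.hG) fun a => by
        have := h1 a
        rw [hΛ] at this
        rw [← this]
        congr 1
        ring
      rw [hxF] at h2
      obtain ⟨l, hl', e⟩ := hl.1 b (k + 1) (k + 1) hb (by omega) h2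
      exact ⟨l, hl', uniq hR hser.pair fun u v => by rw [← hw, e]; rfl⟩
  have e2 : LinearMap.ker w ⊓ Fn E (k + 1) = ((Hd k).map (HfP.mk F)).map (mulS s) := by
    apply le_antisymm
    · rintro l ⟨h0, hl'⟩
      obtain ⟨y, hy, H⟩ := LamP.split hser (s' := l) fun u v => by
        have := hw l u v
        rw [LinearMap.mem_ker.1 h0, zero_mul] at this
        exact sub_eq_zero.1 this
      have h1 := hl' d1 t1 hser.m1
      rw [hy] at h1
      exact ⟨y, HfP.mem_RH.2 ((HomR.cancel hR.hom (mq_mem hser.h1) (LamP.nz1 hser) h1).1 k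
        (by omega)), LinearMap.ext fun u => (H u).symm⟩
    · rintro _ ⟨y, hy, rfl⟩
      refine ⟨LinearMap.mem_ker.2 (uniq hR hser.pair fun u v => ?_), fun d u hu => ?_⟩
      · rw [← hw, mulS_apply, mulS_apply]
        ring
      · have := HomR.mul (HfP.mem_RH.1 hy) (hser.fn d u hu)
        rwa [show k + (d + 1) = d + (k + 1) by omega] at this
  have hinj : Function.Injective (mulS s) := by
    rw [injective_iff_map_eq_zero]
    intro y hy
    have := LinearMap.congr_fun hy t1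
    rw [mulS_apply, hser.e1, mul_comm] at this
    exact LamP.nz1 hser y this
  have : Module.Finite ℂ (Id (satI s) (k + 1)) :=
    Submodule.finiteDimensional_of_le (S₂ := Hd _) inf_le_right
  have hfin : Module.Finite ℂ (Fn E (k + 1)) := by
    refine Module.Finite.iff_fg.mpr (Submodule.fg_of_fg_map_of_fg_inf_ker w ?_ ?_)
    · rw [e1]; exact Module.Finite.iff_fg.mp inferInstance
    · rw [inf_comm, e2]; exact Module.Finite.iff_fg.mp inferInstance
  refine ⟨hfin, ?_⟩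
  have h1 := rank_null w (Fn E (k + 1))
  have h2 := HfP.image_rank (satI s) hFs (k + 1)
  rw [e1, e2, ← (Submodule.equivMapOfInjective _ hinj _).finrank_eq, StabP.rank_RH] at h1
  have e3 : hilb (Ideal.span {F}) (k + 1) = hilb (Ideal.span {bc F ℂ}) (k + 1) := by rw [bc_self]
  omega

theorem exists_basis {V : Type} [AddCommGroup V] [Module ℂ V] (S : Submodule ℂ V)
    [Module.Finite ℂ S] {N : ℕ} (h : finrank ℂ S = N) : ∃ b : Fin N → V, (∀ x, b x ∈ S) ∧
      (∀ l ∈ S, ∃ c : Fin N → ℂ, l = ∑ x, c x • b x) ∧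
      ∀ c : Fin N → ℂ, ∑ x, c x • b x = 0 → c = 0 := by
  let b := Module.finBasisOfFinrankEq ℂ S h
  refine ⟨fun x => b x, fun x => (b x).2, fun l hl => ⟨b.repr ⟨l, hl⟩, ?_⟩, fun c hc => ?_⟩
  · have := (congrArg Subtype.val (b.sum_repr ⟨l, hl⟩)).symm
    rwa [Submodule.coe_sum] at this
  · funext x
    exact Fintype.linearIndependent_iff.1 b.linearIndependent c (Subtype.ext (by simpa using hc)) x

theorem sum_ap {n : Type} [Fintype n] (c : n → ℂ) (b : n → E.M →ₗ[Pol ℂ] Rq F ℂ) (u : E.M) :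
    (∑ x, c x • b x) u = ∑ x, mq F ℂ (C (c x)) * b x u := by
  rw [LinearMap.sum_apply]
  exact Finset.sum_congr rfl fun x _ => csmul _ _

/-- complete frames of large shift have no common zero -/
theorem noZ {n : Type} [Fintype n] {k m : ℕ} {a : Fin m → ℕ} {g : Fin m → E.M}
    (hg : ∀ i, g i ∈ E.gr.piece (a i)) (hs : Submodule.span (Pol ℂ) (Set.range g) = ⊤)
    (ha : ∀ i, a i ≤ k) {s : n → E.M →ₗ[Pol ℂ] Rq F ℂ} (hS : Spans E (k + 1) s)
    {Ω : Matrix n n (Pol ℂ)} (h : Frm E (k + 1) ω s Ω) : NoZ F Ω := by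
  intro q hq hF ⟨i, hi⟩
  by_contra hn
  push Not at hn
  set Q : Ideal (Rq F ℂ) := q.map (mq F ℂ) with hQ
  have hmem : ∀ b, mq F ℂ b ∈ Q ↔ b ∈ q := fun b => ⟨fun hb => by
    obtain ⟨b', hb', e⟩ := (Ideal.mem_map_iff_of_surjective _ mq_surj).1 hb
    exact mem_of_mq hF e.symm hb', Ideal.mem_map_of_mem _⟩
  have hQp : Q.IsPrime := Ideal.map_isPrime_of_surjective mq_surj (by
    rw [Ideal.mk_ker]
    exact (Ideal.span_singleton_le_iff_mem _).2 hF)
  have key : ∀ u ∈ E.gr.piece k, ∀ v ∈ E.gr.piece k, ω u v ∈ Q := by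
    intro u hu v hv
    obtain ⟨c, hc⟩ := hS _ (h.pair.isFun hu)
    obtain ⟨c', hc'⟩ := hS _ (h.pair.isFun hv)
    have e : ω u v * ω v u - ω u u * ω v v =
        ∑ x, ∑ y, mq F ℂ (C (c x)) * mq F ℂ (C (c' y)) * (mq F ℂ (Ω x y) * ω v u) := by
      rw [hc v, hc u, hc' v, hc' u, Finset.sum_mul_sum, Finset.sum_mul_sum, ← Finset.sum_sub_distrib]
      refine Finset.sum_congr rfl fun x _ => ?_
      rw [← Finset.sum_sub_distrib]
      refine Finset.sum_congr rfl fun y _ => ?_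
      rw [← hc' u, ← h.wedge]
      ring
    have h1 : ω u v * ω v u - ω u u * ω v v ∈ Q := by
      rw [e]
      exact Q.sum_mem fun x _ => Q.sum_mem fun y _ =>
        Q.mul_mem_left _ (Q.mul_mem_right _ ((hmem _).2 (hn x y)))
    rw [h.pair.alt u, zero_mul, sub_zero] at h1
    exact (hQp.mem_or_mem h1).elim id fun h2 => h.pair.skew v u ▸ Q.neg_mem h2
  have hX : ∀ l, (X i ^ (k - a l) : Pol ℂ) • g l ∈ E.gr.piece k := fun l => by
    have := E.gr.smul_mem (k - a l) (a l) (X i ^ (k - a l)) (g l)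
      (by simpa using (isHomogeneous_X ℂ i).pow (k - a l)) (hg l)
    rwa [show a l + (k - a l) = k by have := ha l; omega] at this
  have hnX : ∀ e : ℕ, mq F ℂ (X i ^ e) ∉ Q := fun e he => hi (hq.mem_of_pow_mem e ((hmem _).1 he))
  have key2 : ∀ l l', ω (g l) (g l') ∈ Q := fun l l' => by
    have := key _ (hX l) _ (hX l')
    simp only [map_smul, LinearMap.smul_apply, smul_mq] at this
    exact ((hQp.mem_or_mem ((hQp.mem_or_mem this).resolve_left (hnX _))).resolve_left (hnX _))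
  have key3 : ∀ u v, ω u v ∈ Q := fun u v => by
    have hu : u ∈ Submodule.span (Pol ℂ) (Set.range g) := hs ▸ Submodule.mem_top
    have hv : v ∈ Submodule.span (Pol ℂ) (Set.range g) := hs ▸ Submodule.mem_top
    induction hu using Submodule.span_induction with
    | zero => simp
    | add u u' _ _ h1 h2 => rw [map_add, LinearMap.add_apply]; exact Q.add_mem h1 h2
    | smul c u _ h1 => rw [map_smul, LinearMap.smul_apply, smul_mq]; exact Q.mul_mem_left _ h1
    | mem u hu =>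
      obtain ⟨l, rfl⟩ := hu
      induction hv using Submodule.span_induction with
      | zero => simp
      | add v v' _ _ h1 h2 => rw [map_add]; exact Q.add_mem h1 h2
      | smul c v _ h1 => rw [map_smul, smul_mq]; exact Q.mul_mem_left _ h1
      | mem v hv =>
        obtain ⟨l', rfl⟩ := hv
        exact key2 l l'
  obtain ⟨u, v, b, hb, e⟩ := h.pair.unit q hq hF ⟨i, hi⟩
  exact hb ((hmem b).1 (e ▸ key3 u v))

end EFrame0P

open EFrame0P in
theorem frame0 : S_Frame0 := by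
  intro F hF E hG
  obtain ⟨s, hs, hs0⟩ := Kn.hC F hF E hG
  obtain ⟨h11, -, -, hfin⟩ := Kn.hLen F hF E s hG hs hs0
  obtain ⟨c, hc⟩ := hfin.exists_notMem
  simp only [Set.mem_ofPred_eq, not_not] at hc
  obtain ⟨Λ, lam, hrep⟩ := hc
  obtain ⟨d0, hd0⟩ := Filter.eventually_atTop.mp h11
  have := E.rankTwo.finite
  obtain ⟨m, a, g, hg, hsp⟩ := E.gr.exists_gens
  obtain ⟨k, hk3, hkd, hka⟩ : ∃ k, 3 ≤ k ∧ d0 ≤ k ∧ ∀ i, a i ≤ k :=
    ⟨3 + d0 + ∑ i, a i, by omega, by omega, fun i => by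
      have := Finset.single_le_sum (f := a) (fun _ _ => Nat.zero_le _) (Finset.mem_univ i)
      omega⟩
  obtain ⟨hf, hr⟩ := rank_Fn hF hrep.rep k
  have hH := (hilbF F hF.hom hF.ne_zero).1
  have hN : finrank ℂ (Fn E (k + 1)) = NN k := by
    have h1 := hH k hk3
    have h2 := hH (k + 1) (by omega)
    rw [hd0 (k + 1) (by omega)] at hr
    obtain ⟨k, rfl⟩ : ∃ k', k = k' + 1 := ⟨k - 1, by omega⟩
    rw [NN, Nat.add_sub_cancel]
    zify at h1 h2 hr ⊢
    linear_combination hr + h1 + h2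
  obtain ⟨b, hb1, hb2, hb3⟩ := exists_basis (Fn E (k + 1)) hN
  have hS : Spans E (k + 1) b := fun l hl => by
    obtain ⟨c, hc⟩ := hb2 l hl
    exact ⟨c, fun u => by rw [hc, sum_ap]⟩
  exact ⟨k, hk3, b, hb1, hS, fun c hc => hb3 c (LinearMap.ext fun u => (sum_ap c b u).trans (hc u)),
    fun ω Ω h => noZ hg hsp hka hS h⟩

end Pool.Agent.P.MP_2b2d3b_ag
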