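import Pool.Agent.P.MP_2b2d3b_ag.Kn

/-!
Package FunLift: functionals on a fibre lift to the family.
-/

namespace Pool.Agent.P.MP_2b2d3b_ag

open MvPolynomial Module

namespace EFunLiftP

variable {F : Pol ℂ}

/-- the number of coordinates is the value of the Hilbert function -/
theorem co_r {d : ℕ} (c : SysP.Co F d) : c.r = hilb (Ideal.span {F}) d := by
  let π := (Ideal.Quotient.mkₐ ℂ (Ideal.span {F})).toLinearMap
  have hmem : ∀ a : Pol ℂ, π a = 0 ↔ a ∈ Ideal.span {bc F ℂ} := fun a => by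
    rw [bc_self]; exact Ideal.Quotient.eq_zero_iff_mem
  have inj : Function.Injective (π.comp (c.W ℂ)) := by
    rw [injective_iff_map_eq_zero]
    intro y hy
    funext k
    have := c.PB_kill k ((hmem _).1 hy)
    rwa [c.PB_W] at this
  have rg : LinearMap.range (π.comp (c.W ℂ)) = (homogeneousSubmodule (Fin 4) ℂ d).map π := by
    apply le_antisymm
    · rintro _ ⟨y, rfl⟩
      exact ⟨c.W ℂ y, c.W_hom y, rfl⟩
    · rintro _ ⟨a, ha, rfl⟩
      refine ⟨fun k => c.PB ℂ k a, ?_⟩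
      rw [LinearMap.comp_apply, ← sub_eq_zero, ← map_sub, hmem]
      exact mq_eq.1 (c.W_PB ha)
  have := LinearMap.finrank_range_of_inj inj
  rw [rg, finrank_fintype_fun_eq_card, Fintype.card_fin] at this
  exact this.symm

section

variable {B : Type} [CommRing B] [Algebra ℂ B] {E : Bundle F B}

/-- a form in the radical is a wedge product -/
theorem fun_of_rad (hR : Rg F) {x : Box B} (hx : x.Ok) (hxF : x.F = bc F B) {ω} {j : ℕ} {s}
    {t1 t2 : E.M} {d1 d2 : ℕ} {G : Pol B} (ser : Ser E ω j s t1 t2 d1 d2 x.g1 x.g2 G)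
    {Λ : Pol B →ₗ[B] B} (hΛ : ∀ a, Λ a = x.mu (G * a)) {b : Pol B} {n k : ℕ}
    (hb : b.IsHomogeneous n) (hn : n + 1 = j + k) (hr : b ∈ rad Λ) :
    ∃ l, IsFun E k l ∧ ∀ u v, l u * s v - l v * s u = mq F B b * ω u v := by
  have h2 := (box B x hx).2.2.2.2.1 (b * G) _ (hb.mul ser.hG) fun a => by
    have := hr a
    rw [hΛ] at this
    rw [← this]
    congr 1
    ring
  rw [hxF] at h2
  exact (lam F hR B E ω j s t1 t2 d1 d2 _ _ G ser).1 b n k hb hn h2

/-- a functional of smaller shift with vanishing wedge product is zero -/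
theorem zero_of_wedge (hR : Rg F) {ω} {j : ℕ} {s} {t1 t2 : E.M} {d1 d2 : ℕ} {g1 g2 G : Pol B}
    (ser : Ser E ω j s t1 t2 d1 d2 g1 g2 G) {k : ℕ} (hk : k < j) {l} (hl : IsFun E k l)
    (H : ∀ u v, l u * s v = l v * s u) : l = 0 := by
  obtain ⟨x, hx, H'⟩ := LamP.split ser H
  have h1 := hl d1 t1 ser.m1
  rw [hx] at h1
  obtain rfl := (HomR.cancel hR.hom (mq_mem ser.h1) (LamP.nz1 ser) h1).2 (by omega)
  ext u
  simp [H' u]

variable {ι : Type} [Fintype ι] [DecidableEq ι] {D : ℕ} {Λ : Pol B →ₗ[B] B} {b : ι → Pol ℂ}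

theorem gor_indep (h : Gor' D Λ b) {r : ι → B} (hr : ∑ i, C (r i) * bc (b i) B ∈ rad Λ) :
    r = 0 := by
  have h2 : Matrix.vecMul r (Matrix.of fun i j => Λ (bc (b i) B * bc (b j) B)) = 0 := by
    funext j
    have := hr (bc (b j) B)
    rw [Finset.sum_mul, map_sum] at this
    rw [Pi.zero_apply, ← this]
    refine Finset.sum_congr rfl fun i _ => ?_
    rw [mul_assoc, ← smul_eq_C_mul, map_smul, smul_eq_mul]
    rfl
  have h3 := congrArg (fun v => Matrix.vecMul v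
    (Matrix.of fun i j => Λ (bc (b i) B * bc (b j) B))⁻¹) h2
  simpa only [Matrix.vecMul_vecMul, Matrix.mul_nonsing_inv _ h.gram, Matrix.vecMul_one,
    Matrix.zero_vecMul] using h3

theorem gor_rad (h : Gor' D Λ b) {a : Pol B} (ha : ∀ i, Λ (a * bc (b i) B) = 0) : a ∈ rad Λ := by
  intro e
  obtain ⟨r, hr⟩ := h.span e
  have h1 := hr a
  rw [sub_mul, map_sub, Finset.sum_mul, map_sum, Finset.sum_eq_zero, sub_zero, mul_comm] at h1
  · exact h1
  · intro i _
    rw [mul_assoc, ← smul_eq_C_mul, map_smul, mul_comm, ha, smul_zero]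

omit [DecidableEq ι] in
/-- the coordinates of a form modulo the radical -/
theorem W_sub {d : ℕ} (c : SysP.Co F d) {V : Matrix ι (Fin c.r) B}
    (hV : ∀ y, bc (c.b y) B - ∑ i, C (V i y) * bc (b i) B ∈ rad Λ) (v : Fin c.r → B) :
    c.W B v - ∑ i, C (V.mulVec v i) * bc (b i) B ∈ rad Λ := by
  have := Ideal.sum_mem (rad Λ) (t := Finset.univ) fun y _ =>
    Ideal.mul_mem_left _ (C (v y)) (hV y)
  have e : ∑ i, C (V.mulVec v i) * bc (b i) B =
      ∑ y, C (v y) * ∑ i, C (V i y) * bc (b i) B := by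
    have e1 : ∀ i, C (V.mulVec v i) * bc (b i) B =
        ∑ y, C (v y) * (C (V i y) * bc (b i) B) := fun i => by
      rw [show V.mulVec v i = ∑ y, V i y * v y from rfl, map_sum, Finset.sum_mul]
      refine Finset.sum_congr rfl fun y _ => ?_
      rw [map_mul]
      ring
    rw [Finset.sum_congr rfl fun i _ => e1 i, Finset.sum_comm]
    exact Finset.sum_congr rfl fun y _ => (Finset.mul_sum _ _ _).symm
  rw [e, c.W_apply, ← Finset.sum_sub_distrib]
  simpa only [mul_sub] using this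

theorem W_mem_iff (h : Gor' D Λ b) {d : ℕ} (c : SysP.Co F d) {V : Matrix ι (Fin c.r) B}
    (hV : ∀ y, bc (c.b y) B - ∑ i, C (V i y) * bc (b i) B ∈ rad Λ) (v : Fin c.r → B) :
    c.W B v ∈ rad Λ ↔ V.mulVec v = 0 := by
  have h1 := W_sub c hV v
  constructor
  · intro hv
    refine gor_indep h ?_
    have := Ideal.sub_mem _ hv h1
    rwa [sub_sub_cancel] at this
  · intro hv
    simpa [hv] using h1

end

/-- the dimension count -/
theorem ker_le_range {l m n N : ℕ} (V : Matrix (Fin l) (Fin m) ℂ) (Φ : Matrix (Fin n) (Fin l) ℂ)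
    (h0 : Φ * V = 0) (h1 : ∀ y, Matrix.vecMul y Φ = 0 → y = 0) (w : Fin N → Fin m → ℂ)
    (h2 : ∀ v, V.mulVec v = 0 → ∃ c : Fin N → ℂ, v = ∑ a, c a • w a) (h3 : m + n = l + N) :
    ∀ y, Φ.mulVec y = 0 → ∃ c, y = V.mulVec c := by
  have r1 : Φ.rank = n := by
    rw [← Matrix.rank_transpose, Matrix.rank, LinearMap.finrank_range_of_inj,
      finrank_fintype_fun_eq_card, Fintype.card_fin]
    rw [injective_iff_map_eq_zero]
    intro y hy
    exact h1 y (by rwa [Matrix.mulVecLin_apply, Matrix.mulVec_transpose] at hy)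
  have r2 := LinearMap.finrank_range_add_finrank_ker Φ.mulVecLin
  have r3 := LinearMap.finrank_range_add_finrank_ker V.mulVecLin
  rw [finrank_fintype_fun_eq_card, Fintype.card_fin] at r2 r3
  have r4 : finrank ℂ (LinearMap.ker V.mulVecLin) ≤ N := by
    have : LinearMap.ker V.mulVecLin ≤ Submodule.span ℂ (Set.range w) := by
      intro v hv
      obtain ⟨c, rfl⟩ := h2 v hv
      exact Submodule.sum_mem _ fun a _ => Submodule.smul_mem _ _ (Submodule.subset_span ⟨a, rfl⟩)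
    exact (Submodule.finrank_mono this).trans ((finrank_range_le_card w).trans_eq
      (Fintype.card_fin N))
  have r5 : LinearMap.range V.mulVecLin ≤ LinearMap.ker Φ.mulVecLin := by
    rintro _ ⟨c, rfl⟩
    rw [LinearMap.mem_ker, Matrix.mulVecLin_apply, Matrix.mulVecLin_apply, Matrix.mulVec_mulVec,
      h0, Matrix.zero_mulVec]
  have r6 := Submodule.eq_of_le_of_finrank_le r5 (by
    rw [Matrix.rank] at r1
    omega)
  intro y hy
  have : y ∈ LinearMap.range V.mulVecLin := r6 ▸ hy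
  obtain ⟨c, hc⟩ := this
  exact ⟨c, hc.symm⟩

theorem count (hF : Hyp F) {i k : ℕ} (hki : k < i) (cm : SysP.Co F (k + 1 + i))
    (cr : SysP.Co F (i + 2 - k)) (hk : 2 ≤ k) :
    cm.r + cr.r = 6 * i ^ 2 + 6 * i + 11 + NN k := by
  obtain ⟨hH, -⟩ := hilbF F hF.hom hF.ne_zero
  have h1 := hH (k + 1 + i) (by omega)
  have h2 := hH (i + 2 - k) (by omega)
  rw [co_r cm, co_r cr]
  clear cm cr
  obtain ⟨k, rfl⟩ : ∃ k', k = k' + 1 := ⟨k - 1, by omega⟩
  obtain ⟨e, rfl⟩ : ∃ e, i = k + 1 + e := ⟨i - (k + 1), by omega⟩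
  rw [show k + 1 + e + 2 - (k + 1) = e + 2 by omega] at h2 ⊢
  rw [NN, Nat.add_sub_cancel]
  zify at h1 h2 ⊢
  linear_combination h1 + h2

end EFunLiftP

open EFunLiftP in
theorem funLift (h1 : S_FrPull) (h2 : S_RepPull) (h3 : S_LinA) : S_FunLift := by
  intro F hF B _ _ E c i D k s Λ b p E1 θ s1 hk hki hrep hg hθ hN hS l1 hl1
  have hR := hF.rg
  obtain ⟨-, kill, -⟩ := Kn.hRad F hR B E c (i + 1) s Λ hrep
  obtain ⟨p1, p2⟩ := h2 F hR B ℂ p Λ
  have hrep' := hrep
  obtain ⟨x, ω, t1, t2, d1, d2, G, hx, -, hxF, -, -, ser, hΛ⟩ := hrep'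
  obtain ⟨s', hs', es⟩ := hθ.ext_fun hR ser.fn
  have rep1 := p1 E E1 θ c (i + 1) s s' hθ hrep es
  have g1 := p2 D _ b hg
  obtain ⟨-, -, hr1⟩ := Kn.hRad F hR ℂ E1 c (i + 1) s' _ rep1
  obtain ⟨x1, ω2, u1, u2, e1, e2, G1, hx1, -, hxF1, -, -, ser1, hΛ1⟩ := rep1
  obtain ⟨ω1, -, ⟨hω1, -, -⟩, eω, -⟩ := h1 F hR B ℂ Empty p E E1 θ (i + 1) ω (fun a => a.elim)
    (Matrix.of fun a => a.elim) hθ ⟨ser.pair, fun a => a.elim, fun a => a.elim⟩
  obtain ⟨cm⟩ := SysP.exists_co F (k + 1 + i)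
  obtain ⟨cr⟩ := SysP.exists_co F (i + 2 - k)
  choose R hR' using fun y => hg.span (bc (cm.b y) B)
  let V : Matrix (Fin (6 * i ^ 2 + 6 * i + 11)) (Fin cm.r) B := Matrix.of fun a y => R y a
  let Φ : Matrix (Fin cr.r) (Fin (6 * i ^ 2 + 6 * i + 11)) B :=
    Matrix.of fun z a => Λ (bc (cr.b z) B * bc (b a) B)
  have hV : ∀ y, bc (cm.b y) B - ∑ a, C (V a y) * bc (b a) B ∈ rad Λ := hR'
  have hV1 : ∀ y, bc (cm.b y) ℂ - ∑ a, C (V.map p a y) * bc (b a) ℂ ∈
      rad (bcL (p : B →+* ℂ) Λ) := fun y => by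
    have := map_mem_rad (p : B →+* ℂ) (hV y)
    simpa only [map_sub, map_sum, map_mul, map_C, map_bc, RingHom.coe_coe, Matrix.map_apply]
      using this
  have h0 : Φ * V = 0 := by
    ext z y
    have a1 := hV y (bc (cr.b z) B)
    rw [sub_mul, map_sub, kill _ (by
      have := ((cm.hb y).map (algebraMap ℂ B)).mul ((cr.hb z).map (algebraMap ℂ B))
      rwa [show k + 1 + i + (i + 2 - k) = 2 * (i + 1) + 1 by omega] at this), zero_sub,
      neg_eq_zero, Finset.sum_mul, map_sum] at a1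
    rw [Matrix.zero_apply, ← a1, Matrix.mul_apply]
    refine Finset.sum_congr rfl fun a _ => ?_
    rw [mul_assoc, ← smul_eq_C_mul, map_smul, smul_eq_mul, mul_comm (bc (b a) B), mul_comm]
    rfl
  have h01 : Φ.map p * V.map p = 0 := by
    rw [← Matrix.map_mul, h0, Matrix.map_zero _ (map_zero p)]
  have rows : ∀ y, Matrix.vecMul y (Φ.map p) = 0 → y = 0 := by
    intro y hy
    have a1 : cr.W ℂ y ∈ rad (bcL (p : B →+* ℂ) Λ) := gor_rad g1 fun a => by
      have := congrFun hy a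
      rw [Pi.zero_apply] at this
      rw [← this, cr.W_apply, Finset.sum_mul, map_sum]
      refine Finset.sum_congr rfl fun z _ => ?_
      rw [mul_assoc, ← smul_eq_C_mul, map_smul, smul_eq_mul, ← map_bc (F := cr.b z) p,
        ← map_bc (F := b a) p, ← map_mul, bcL_map]
      rfl
    have a2 : (X 3 ^ (k - 2) * cr.W ℂ y : Pol ℂ).IsHomogeneous i := by
      have := ((isHomogeneous_X ℂ (3 : Fin 4)).pow (k - 2)).mul (cr.W_hom y)
      rwa [show 1 * (k - 2) + (i + 2 - k) = i by omega] at this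
    obtain ⟨l0, hl0, e⟩ := fun_of_rad hR hx1 hxF1 ser1 hΛ1 (k := 0) a2 rfl
      (Ideal.mul_mem_left _ _ a1)
    have a3 : mq F ℂ (X 3 ^ (k - 2) * cr.W ℂ y) = 0 :=
      ser1.pair.zero_of_mul' hR fun u v => by
        rw [mul_comm, ← e, hN l0 hl0]
        simp
    have a4 := hR.nzd ℂ 3 _ _ (by decide) (mq_zero.mp a3)
    funext z
    have := cr.PB_kill z a4
    rwa [cr.PB_W] at this
  choose w hw _ _ using fun a => wedge F hR ℂ E1 ω2 ser1.pair (s1 a) s'
  have cols : ∀ v, (V.map p).mulVec v = 0 →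
      ∃ γ : Fin (NN k) → ℂ, v = ∑ a, γ a • fun y => cm.PB ℂ y (w a) := by
    intro v hv
    obtain ⟨l0, hl0, e⟩ := fun_of_rad hR hx1 hxF1 ser1 hΛ1 (k := k + 1) (cm.W_hom v) (by omega)
      ((W_mem_iff g1 cm hV1 v).2 hv)
    obtain ⟨γ, hγ⟩ := hS l0 hl0
    refine ⟨γ, funext fun y => ?_⟩
    have a1 : mq F ℂ (cm.W ℂ v - ∑ a, C (γ a) * w a) = 0 :=
      ser1.pair.zero_of_mul' hR fun u u' => by
        rw [mul_comm, map_sub, sub_mul, ← e, hγ, hγ, map_sum, Finset.sum_mul, Finset.sum_mul,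
          Finset.sum_mul, ← Finset.sum_sub_distrib, ← Finset.sum_sub_distrib]
        refine Finset.sum_eq_zero fun a _ => ?_
        rw [map_mul, mul_assoc _ (mq F ℂ (w a)), ← hw]
        ring
    have a2 := cm.PB_kill y (mq_zero.1 a1)
    rw [map_sub, cm.PB_W, sub_eq_zero, map_sum] at a2
    rw [a2, Finset.sum_apply]
    refine Finset.sum_congr rfl fun a _ => ?_
    rw [← smul_eq_C_mul, map_smul]
    rfl
  have key := ker_le_range (V.map p) (Φ.map p) h01 rows _ cols (count hF hki cm cr hk)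
  obtain ⟨b1, e1', hb1, hb1'⟩ := wedge F hR ℂ E1 ω1 hω1 l1 s'
  obtain ⟨b2, hb2, eb⟩ := hb1' (k + 1) (i + 1) (k + 1 + i) hl1 hs' (by omega)
  have hb2' : b2 ∈ satI s' := by
    have hFm := (lam F hR ℂ E1 ω2 (i + 1) s' u1 u2 e1 e2 _ _ G1 ser1).2.2.2.2.2
    have := Ideal.sub_mem _ hb1 ((Ideal.span_singleton_le_iff_mem _).2 hFm (mq_eq.1 eb))
    rwa [sub_sub_cancel] at this
  have hW : mq F ℂ (cm.W ℂ fun y => cm.PB ℂ y b2) = mq F ℂ b2 := cm.W_PB hb2
  have hv0 : (V.map p).mulVec (fun y => cm.PB ℂ y b2) = 0 := by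
    rw [← W_mem_iff g1 cm hV1, hr1 _ _ (cm.W_hom _)]
    have hFm := (lam F hR ℂ E1 ω2 (i + 1) s' u1 u2 e1 e2 _ _ G1 ser1).2.2.2.2.2
    have := Ideal.add_mem _ hb2' ((Ideal.span_singleton_le_iff_mem _).2 hFm (mq_eq.1 hW))
    rwa [add_sub_cancel] at this
  obtain ⟨v, hv, ev⟩ := (h3 B _ _ _ V Φ p h0 key).2 _ hv0
  obtain ⟨l, hl, el⟩ := fun_of_rad hR hx hxF ser hΛ (k := k + 1) (cm.W_hom v) (by omega)
    ((W_mem_iff hg cm hV v).2 hv)
  refine ⟨l, hl, ?_⟩
  obtain ⟨l', hl', el'⟩ := hθ.ext_fun hR hl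
  have hδ : IsFun E1 (k + 1) (l1 - l') := fun d u hu => sub_mem (hl1 d u hu) (hl' d u hu)
  have a1 : ∀ u u', (l1 - l') (θ u) * s' (θ u') - (l1 - l') (θ u') * s' (θ u) = 0 := by
    intro u u'
    have c1 := e1' (θ u) (θ u')
    have c2 := congrArg (mapR F p) (el u u')
    rw [map_sub, map_mul, map_mul, map_mul, ← el', ← el', ← es, ← es, ← eω, mapR_mq, cm.map_W, ev,
      hW, ← eb] at c2
    simp only [LinearMap.sub_apply]
    linear_combination c1 - c2
  have a2 : ∀ u u', (l1 - l') (θ u) * s' u' - (l1 - l') u' * s' (θ u) = 0 := by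
    intro u u'
    obtain ⟨a, ha⟩ := mq_surj ((l1 - l') (θ u))
    obtain ⟨a', ha'⟩ := mq_surj (s' (θ u))
    have := hθ.fun_zero hR (s := a • s' - a' • (l1 - l')) fun u' => by
      rw [LinearMap.sub_apply, LinearMap.smul_apply, LinearMap.smul_apply, smul_mq, smul_mq, ha,
        ha']
      linear_combination a1 u u'
    have := LinearMap.congr_fun this u'
    rw [LinearMap.sub_apply, LinearMap.smul_apply, LinearMap.smul_apply, smul_mq, smul_mq, ha,
      ha', LinearMap.zero_apply] at this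
    linear_combination this
  have a3 : ∀ u u', (l1 - l') u * s' u' = (l1 - l') u' * s' u := by
    intro u u'
    obtain ⟨a, ha⟩ := mq_surj ((l1 - l') u')
    obtain ⟨a', ha'⟩ := mq_surj (s' u')
    have := hθ.fun_zero hR (s := a' • (l1 - l') - a • s') fun u => by
      rw [LinearMap.sub_apply, LinearMap.smul_apply, LinearMap.smul_apply, smul_mq, smul_mq, ha,
        ha']
      linear_combination a2 u u'
    have := LinearMap.congr_fun this u
    rw [LinearMap.sub_apply, LinearMap.smul_apply, LinearMap.smul_apply, smul_mq, smul_mq, ha,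
      ha', LinearMap.zero_apply] at this
    linear_combination this
  have a4 := zero_of_wedge hR ser1 (by omega) hδ a3
  intro u
  rw [← el', sub_eq_zero.1 a4]

end Pool.Agent.P.MP_2b2d3b_ag
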