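import Pool.Agent.P.MP_2b2d3b_ag.StE

/-!
From a pre-atlas to an atlas whose principal open subsets are charts.
-/

namespace Pool.Agent.P.MP_2b2d3b_ag

namespace EGA1P

section Loc

/-- the localisation map as a map of complex algebras -/
noncomputable abbrev al {R : Type} [CommRing R] [Algebra ℂ R] (f : R) :
    R →ₐ[ℂ] Localization.Away f :=
  IsScalarTower.toAlgHom ℂ R (Localization.Away f)

variable {R : Type} [CommRing R] [Algebra ℂ R]

theorem al_unit (f : R) : IsUnit (al f f) :=
  IsLocalization.Away.algebraMap_isUnit (S := Localization.Away f) f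

theorem al_ext {B : Type} [CommRing B] [Algebra ℂ B] (f : R)
    (y y' : Localization.Away f →ₐ[ℂ] B) (h : y.comp (al f) = y'.comp (al f)) : y = y' :=
  IsLocalization.algHom_ext (Submonoid.powers f) h

/-- the lift of a map along which `f` becomes a unit -/
noncomputable def lf {B : Type} [CommRing B] [Algebra ℂ B] (f : R) (y : R →ₐ[ℂ] B)
    (hy : IsUnit (y f)) : Localization.Away f →ₐ[ℂ] B :=
  IsLocalization.Away.liftAlgHom (S := Localization.Away f) f hy

theorem lf_comp {B : Type} [CommRing B] [Algebra ℂ B] (f : R) (y : R →ₐ[ℂ] B)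
    (hy : IsUnit (y f)) : (lf f y hy).comp (al f) = y := by
  ext a
  exact IsLocalization.Away.lift_eq (S := Localization.Away f) f (g := (y : R →+* B)) hy a

theorem away_step {R S T : Type} [CommRing R] [CommRing S] [CommRing T] [Algebra R S]
    [Algebra R T] [Algebra S T] [IsScalarTower R S T] (f a : R) [IsLocalization.Away f S]
    [IsLocalization.Away (f * a) T] : IsLocalization.Away (algebraMap R S a) T := by
  have h1 : IsLocalization ((Submonoid.powers (f * a)).map (algebraMap R S)) T := by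
    refine ⟨⟨?_, ?_, ?_⟩⟩
    · rintro ⟨_, ⟨y, hy, rfl⟩⟩
      have := IsLocalization.map_units T (⟨y, hy⟩ : Submonoid.powers (f * a))
      rwa [IsScalarTower.algebraMap_apply R S T] at this
    · intro z
      obtain ⟨⟨x, s⟩, e⟩ := IsLocalization.surj (Submonoid.powers (f * a)) z
      refine ⟨⟨algebraMap R S x, ⟨algebraMap R S s, s, s.2, rfl⟩⟩, ?_⟩
      simpa only [IsScalarTower.algebraMap_apply R S T] using e
    · intro x y hxy
      obtain ⟨n, x', y', hx, hy⟩ : ∃ (n : ℕ) (x' y' : R), x * algebraMap R S f ^ n =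
          algebraMap R S x' ∧ y * algebraMap R S f ^ n = algebraMap R S y' := by
        obtain ⟨n, x', hx⟩ := IsLocalization.Away.surj f x
        obtain ⟨m, y', hy⟩ := IsLocalization.Away.surj f y
        refine ⟨n + m, x' * f ^ m, y' * f ^ n, ?_, ?_⟩
        · rw [pow_add, ← mul_assoc, hx, map_mul, map_pow]
        · rw [add_comm, pow_add, ← mul_assoc, hy, map_mul, map_pow]
      have h2 : algebraMap R T x' = algebraMap R T y' := by
        rw [IsScalarTower.algebraMap_apply R S T, IsScalarTower.algebraMap_apply R S T, ← hx, ← hy,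
          map_mul, map_mul, hxy]
      obtain ⟨k, hk⟩ := IsLocalization.Away.exists_of_eq (f * a) h2
      refine ⟨⟨algebraMap R S ((f * a) ^ k), (f * a) ^ k, ⟨k, rfl⟩, rfl⟩, ?_⟩
      have h3 := congrArg (algebraMap R S) hk
      rw [map_mul, map_mul, ← hx, ← hy, ← mul_assoc, ← mul_assoc] at h3
      exact (IsLocalization.Away.algebraMap_pow_isUnit (S := S) f n).mul_right_cancel h3
  rw [Submonoid.map_powers] at h1
  have h2 : IsLocalization.Away (algebraMap R S (f * a)) T := h1
  refine IsLocalization.Away.of_associated (r := algebraMap R S (f * a)) ?_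
  rw [map_mul]
  exact associated_unit_mul_left _ _ (IsLocalization.Away.algebraMap_isUnit (S := S) f)

end Loc

variable {F : Pol ℂ} (P : PreAtlas F)

/-- principal open subsets of charts all of whose points classify a bundle -/
def Ix : Type :=
  {p : Σ α : P.ι, P.Y α // ∀ y0 : P.Y p.1 →ₐ[ℂ] ℂ, y0 p.2 ≠ 0 → ∃ E0, P.Cl p.1 E0 y0}

/-- the refined pre-atlas -/
noncomputable def pre (hN : S_NbImg) (hP : PBk F) : PreAtlas F where
  ι := Ix P
  Y i := Localization.Away i.1.2
  ft i := Algebra.FiniteType.trans (S := P.Y i.1.1) inferInstance inferInstance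
  Cl i _ _ _ E y := P.Cl i.1.1 E (y.comp (al i.1.2))
  pull i _ _ _ _ _ _ _ _ φ E E' y h1 h2 := P.pull i.1.1 φ E E' _ h1 h2
  loc i _ _ _ _ E y h := P.loc i.1.1 E _ h
  tr i _ _ _ _ _ _ _ _ φ E E1 E2 y h1 h2 h3 := P.tr i.1.1 φ E E1 E2 _ h1 h2 h3
  uniq i _ _ _ _ E y y' h1 h2 := al_ext _ _ _ (P.uniq i.1.1 E _ _ h1 h2)
  inj i _ _ _ _ E1 E2 y h1 h2 := P.inj i.1.1 E1 E2 _ h1 h2
  surj' i _ _ _ _ y t E0 h := P.surj' i.1.1 (y.comp (al i.1.2)) t E0 h
  opn i B _ _ _ E t E0 y0 h1 h2 := by
    obtain ⟨U, E', y', h3, h4, h5⟩ := P.opn i.1.1 E t E0 _ h1 h2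
    have h6 : U.p (y' i.1.2) ≠ 0 := by
      have := AlgHom.congr_fun h5 i.1.2
      rw [AlgHom.comp_apply] at this
      rw [this]
      exact Nb.unit_ne (al_unit i.1.2) y0
    obtain ⟨W, hW⟩ := Nb.exists_unit (y' i.1.2) h6
    obtain ⟨E'', h7⟩ := hP.ex W.ψ E'
    refine ⟨U.trans W, E'', lf i.1.2 (W.ψ.comp y') hW, h3.comp h7, ?_, ?_⟩
    · have := P.pull i.1.1 W.ψ E' E'' y' h4 h7
      rw [← lf_comp i.1.2 (W.ψ.comp y') hW] at this
      exact this
    · apply al_ext
      rw [AlgHom.comp_assoc, lf_comp, ← h5]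
      exact congrArg (fun z => AlgHom.comp z y') W.comp
  cov E0 := by
    obtain ⟨α, y0, h0⟩ := P.cov E0
    obtain ⟨U, E', h1⟩ := P.surj' α (AlgHom.id ℂ (P.Y α)) y0 E0.toBundle h0
    obtain ⟨f, hf, h2⟩ := hN (P.Y α) y0 U
    refine ⟨⟨⟨α, f⟩, fun y1 hy1 => ?_⟩, lf f y0 (IsUnit.mk0 _ hf), ?_⟩
    · obtain ⟨p', hp'⟩ := h2 y1 hy1
      obtain ⟨E1, h3⟩ := hP.ex p' E'.toBundle
      refine ⟨E1, ?_⟩
      have := P.pull α p' E'.toBundle E1 _ h1 h3
      rwa [AlgHom.comp_id, hp'] at this
    · rw [← lf_comp f y0 (IsUnit.mk0 _ hf)] at h0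
      exact h0

/-- the refined atlas -/
noncomputable def atl (hN : S_NbImg) (hP : PBk F) : Atlas F where
  toPreAtlas := pre P hN hP
  full i y0 := i.2 (y0.comp (al i.1.2)) (Nb.unit_ne (al_unit i.1.2) y0)

theorem basis (hN : S_NbImg) (hP : PBk F) : (atl P hN hP).Basis := by
  rintro ⟨⟨α, f⟩, hf⟩ h
  let a : P.Y α := (IsLocalization.Away.sec (S := Localization.Away f) f h).1
  have ha : Associated (algebraMap (P.Y α) (Localization.Away f) a) h :=
    IsLocalization.Away.associated_sec_fst (S := Localization.Away f) f h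
  have hu : IsUnit (al (f * a) f) :=
    IsLocalization.Away.isUnit_of_dvd (S := Localization.Away (f * a)) (f * a) (dvd_mul_right f a)
  let l : Ix P := ⟨⟨α, f * a⟩, fun y0 hy0 => hf y0 fun h0 => hy0 (by
    change y0 (f * a) = 0
    rw [map_mul, show y0 f = 0 from h0, zero_mul])⟩
  let τ : Localization.Away f →ₐ[ℂ] Localization.Away (f * a) := lf f (al (f * a)) hu
  have hτ : τ.comp (al f) = al (f * a) := lf_comp _ _ _
  refine ⟨l, τ, fun B _ _ _ E y => ?_, ?_⟩
  · have key : ∀ y : Localization.Away (f * a) →ₐ[ℂ] B,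
        P.Cl α E (y.comp (al (f * a))) ↔ P.Cl α E ((y.comp τ).comp (al f)) := fun y => by
      rw [AlgHom.comp_assoc, hτ]
    exact key y
  · let _ : Algebra (Localization.Away f) (Localization.Away (f * a)) :=
      (τ : Localization.Away f →+* Localization.Away (f * a)).toAlgebra
    have : IsScalarTower (P.Y α) (Localization.Away f) (Localization.Away (f * a)) :=
      IsScalarTower.of_algebraMap_eq fun x => (AlgHom.congr_fun hτ x).symm
    have h1 := away_step (S := Localization.Away f) (T := Localization.Away (f * a)) f a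
    exact IsLocalization.Away.of_associated (R := Localization.Away f)
      (S := Localization.Away (f * a)) ha

end EGA1P

theorem gA1 (h : S_NbImg) : S_GA1 := fun _ hP P =>
  ⟨EGA1P.atl P h hP, EGA1P.basis P h hP⟩

end Pool.Agent.P.MP_2b2d3b_ag
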