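import Pool.Agent.P.MP_2b2d3b_ag.StE

/-!
Descent of classifying maps, uniqueness of transition maps, openness of chart intersections.
-/

namespace Pool.Agent.P.MP_2b2d3b_ag

namespace EGA2P

/-- bundles with the same coordinates in one chart have the same coordinates in every chart -/
theorem move {F : Pol ℂ} (𝒜 : Atlas F) {i j : 𝒜.ι} {B : Type} [CommRing B] [Algebra ℂ B]
    [Algebra.FiniteType ℂ B] {E E' : Bundle F B} {y : 𝒜.Y i →ₐ[ℂ] B} {z : 𝒜.Y j →ₐ[ℂ] B}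
    (h : 𝒜.Cl i E y) (h' : 𝒜.Cl i E' y) (hz : 𝒜.Cl j E' z) : 𝒜.Cl j E z := by
  refine 𝒜.loc j E z fun t => ?_
  obtain ⟨V, E5, h1, h2⟩ := 𝒜.inj i E E' y h h' t
  exact ⟨V, E5, h1, 𝒜.pull j V.ψ E' E5 z hz h2⟩

end EGA2P

theorem gA2 (hC : S_NbCov) (hP : S_PiNb) (hD : S_Desc) : S_GA2 := by
  intro F hb 𝒜 i B _ _ _ E h
  choose U E' y' h1 h2 using h
  obtain ⟨m, ts, hcov, hft, hpt⟩ := hC B U
  obtain ⟨het, hp⟩ := hP m fun k => (U (ts k)).A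
  obtain ⟨EB, hEB⟩ := hb.ex (AlgHom.pi fun k => (U (ts k)).ψ) E
  have hcl : 𝒜.Cl i EB (AlgHom.pi fun k => y' (ts k)) := by
    refine 𝒜.loc i EB _ fun t => ?_
    obtain ⟨k, p', hk⟩ := hp t
    obtain ⟨E2, hE2⟩ := hb.ex (Pi.evalAlgHom ℂ (fun k => (U (ts k)).A) k) EB
    have e1 : (Pi.evalAlgHom ℂ (fun k => (U (ts k)).A) k).comp
        (AlgHom.pi fun k => (U (ts k)).ψ) = (U (ts k)).ψ := AlgHom.ext fun _ => rfl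
    have e2 : (Pi.evalAlgHom ℂ (fun k => (U (ts k)).A) k).comp
        (AlgHom.pi fun k => y' (ts k)) = y' (ts k) := AlgHom.ext fun _ => rfl
    have h3 := hEB.comp hE2
    rw [e1] at h3
    have h4 := 𝒜.tr i (U (ts k)).ψ E (E' (ts k)) E2 (y' (ts k)) (h1 _) h3 (h2 _)
    rw [← e2] at h4
    exact ⟨⟨(U (ts k)).A, Pi.evalAlgHom ℂ (fun k => (U (ts k)).A) k, het k, p', hk⟩, E2, hE2, h4⟩
  obtain ⟨y, hy⟩ := hD (𝒜.Y i) B _ _ (AlgHom.pi fun k => y' (ts k)) hcov (by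
    intro C _ _ _ i1 i2 e
    obtain ⟨E1, hE1⟩ := hb.ex i1 EB
    obtain ⟨E2, hE2⟩ := hb.ex i2 EB
    have h3 := hEB.comp hE1
    rw [e] at h3
    exact 𝒜.uniq i E2 _ _ (𝒜.tr i _ E E1 E2 _ h3 (hEB.comp hE2)
      (𝒜.pull i i1 EB E1 _ hcl hE1)) (𝒜.pull i i2 EB E2 _ hcl hE2))
  refine ⟨y, 𝒜.loc i E y fun t => ?_⟩
  obtain ⟨k, p', hk⟩ := hpt t
  have e : (U (ts k)).ψ.comp y = y' (ts k) :=
    AlgHom.ext fun a => congrFun (AlgHom.congr_fun hy a) k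
  have h3 := h2 (ts k)
  rw [← e] at h3
  exact ⟨(U (ts k)).rept p' hk, E' (ts k), h1 (ts k), h3⟩

theorem gAU (hE : S_NbEq) : S_GAU := by
  intro F 𝒜 i j τ hτ
  refine ⟨fun τ' hτ' => ?_, fun C _ _ _ y y' e => ?_⟩
  · refine AlgHom.ext (congrFun (hE (𝒜.Y i) (𝒜.Y j) τ τ' fun t => ?_))
    obtain ⟨U, E', h⟩ := 𝒜.surj i (AlgHom.id ℂ _) t
    exact ⟨U, AlgHom.congr_fun (𝒜.uniq j E'.toBundle _ _ ((hτ _ _ _).1 h) ((hτ' _ _ _).1 h))⟩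
  · refine AlgHom.ext (congrFun (hE C (𝒜.Y i) y y' fun t => ?_))
    obtain ⟨U, E', h⟩ := 𝒜.surj i y t
    have h1 := (hτ _ _ _).1 h
    rw [AlgHom.comp_assoc, e, ← AlgHom.comp_assoc] at h1
    exact ⟨U, AlgHom.congr_fun (𝒜.uniq i E'.toBundle _ _ h ((hτ _ _ _).2 h1))⟩

open EGA2P in
theorem gAL (hI : S_NbImg) : S_GAL := by
  intro F hb 𝒜 i j E0 y0 y0' h0 h0'
  obtain ⟨U, E', hU⟩ := 𝒜.surj i (AlgHom.id ℂ _) y0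
  rw [AlgHom.comp_id] at hU
  obtain ⟨E1, hE1⟩ := hb.ex U.p E'.toBundle
  have h1 := 𝒜.pull i U.p _ E1 _ hU hE1
  rw [U.comp] at h1
  obtain ⟨W, E'', y'', k1, k2, -⟩ := 𝒜.opn j E' U.p E1 y0' hE1 (move 𝒜 h1 h0 h0')
  obtain ⟨h, hh, hl⟩ := hI (𝒜.Y i) y0 (U.trans W)
  refine ⟨h, hh, fun E y hy hE => ?_⟩
  obtain ⟨p', hp'⟩ : ∃ p' : W.A →ₐ[ℂ] ℂ, p'.comp (W.ψ.comp U.ψ) = y := hl y hy
  obtain ⟨E4, hE4⟩ := hb.ex p' E''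
  have h2 := 𝒜.pull i p' E'' E4 _ (𝒜.pull i W.ψ _ E'' _ hU k1) hE4
  rw [hp'] at h2
  exact ⟨_, move 𝒜 hE h2 (𝒜.pull j p' E'' E4 _ k2 hE4)⟩

end Pool.Agent.P.MP_2b2d3b_ag
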