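import Pool.Agent.P.MP_2b2d3b_ag.StE

/-!
Existence of the transition maps between charts.
-/

namespace Pool.Agent.P.MP_2b2d3b_ag

open MvPolynomial

namespace EGA3P

variable {F : Pol ℂ}

/-- near every point of chart `i` there is a bundle classified in both charts -/
theorem near (hP : PBk F) (𝒜 : Atlas F) {i j : 𝒜.ι} (hle : 𝒜.le i j) (t : 𝒜.Y i →ₐ[ℂ] ℂ) :
    ∃ (W : Nb (𝒜.Y i) t) (E : Bundle F W.A) (y : 𝒜.Y j →ₐ[ℂ] W.A),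
      𝒜.Cl i E W.ψ ∧ 𝒜.Cl j E y := by
  obtain ⟨U, E', hc⟩ := 𝒜.surj i (AlgHom.id ℂ (𝒜.Y i)) t
  obtain ⟨E0, h0⟩ := hP.exf U.p E'
  obtain ⟨y0, hy0⟩ := hle E0 _ (𝒜.pull i U.p _ _ _ hc h0)
  obtain ⟨W, E'', y', hp, hc', -⟩ := 𝒜.opn j E' U.p E0.toBundle y0 h0 hy0
  exact ⟨U.trans W, E'', y', 𝒜.pull i W.ψ _ _ _ hc hp, hc'⟩

/-- two maps that locally classify the same bundle classify the same bundles -/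
theorem transfer (hP : PBk F) (𝒜 : Atlas F) {a b : 𝒜.ι} {B : Type} [CommRing B] [Algebra ℂ B]
    [Algebra.FiniteType ℂ B] (E : Bundle F B) (ya : 𝒜.Y a →ₐ[ℂ] B) (yb : 𝒜.Y b →ₐ[ℂ] B)
    (h : ∀ t : B →ₐ[ℂ] ℂ, ∃ (V : Nb B t) (E3 : Bundle F V.A),
      𝒜.Cl a E3 (V.ψ.comp ya) ∧ 𝒜.Cl b E3 (V.ψ.comp yb)) (hE : 𝒜.Cl a E ya) : 𝒜.Cl b E yb := by
  refine 𝒜.loc b E yb fun t => ?_
  obtain ⟨V, E3, ha, hb⟩ := h t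
  obtain ⟨EV, hV⟩ := hP.ex V.ψ E
  obtain ⟨U, E', h1, h2⟩ := 𝒜.inj a EV E3 _ (𝒜.pull a V.ψ _ _ _ hE hV) ha V.p
  exact ⟨V.trans U, E', hV.comp h1, 𝒜.pull b U.ψ _ _ _ hb h2⟩

/-- a bundle over a finite product is classified componentwise -/
theorem cl_pi (hPi : S_PiNb) (𝒜 : Atlas F) (a : 𝒜.ι) {m : ℕ} (A : Fin m → Type)
    [∀ k, CommRing (A k)] [∀ k, Algebra ℂ (A k)] [∀ k, Algebra.FiniteType ℂ (A k)]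
    [Algebra.FiniteType ℂ (∀ k, A k)] (E : ∀ k, Bundle F (A k)) (𝓔 : Bundle F (∀ k, A k))
    (h𝓔 : ∀ k, IsPull (Pi.evalAlgHom ℂ A k) 𝓔 (E k)) (y : ∀ k, 𝒜.Y a →ₐ[ℂ] A k)
    (hy : ∀ k, 𝒜.Cl a (E k) (y k)) : 𝒜.Cl a 𝓔 (AlgHom.pi y) := by
  refine 𝒜.loc a 𝓔 _ fun p => ?_
  obtain ⟨het, hpt⟩ := hPi m A
  obtain ⟨k, p', hp'⟩ := hpt p
  exact ⟨{ A := A k, ψ := Pi.evalAlgHom ℂ A k, et := het k, p := p', comp := hp' }, E k, h𝓔 k,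
    hy k⟩

end EGA3P

theorem gA3 (hBC : S_NbBC) (hEq : S_NbEq) (hCov : S_NbCov) (hPi : S_PiNb) (hDesc : S_Desc)
    (hProd : S_Prod) : S_GA3 := by
  intro F hP 𝒜 i j hle
  choose W E y hi hj using EGA3P.near hP 𝒜 hle
  obtain ⟨m, ts, hcov, hft, hpt⟩ := hCov (𝒜.Y i) W
  obtain ⟨𝓔, h𝓔, -⟩ := hProd F m (fun k => (W (ts k)).A) (fun k => E (ts k))
  have hci := EGA3P.cl_pi hPi 𝒜 i (fun k => (W (ts k)).A) (fun k => E (ts k)) 𝓔 h𝓔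
    (fun k => (W (ts k)).ψ) (fun k => hi (ts k))
  have hcj := EGA3P.cl_pi hPi 𝒜 j (fun k => (W (ts k)).A) (fun k => E (ts k)) 𝓔 h𝓔
    (fun k => y (ts k)) (fun k => hj (ts k))
  obtain ⟨τ, hτ⟩ := hDesc (𝒜.Y j) (𝒜.Y i) (∀ k, (W (ts k)).A) _
    (AlgHom.pi fun k => y (ts k)) hcov (by
      intro C _ _ _ i1 i2 h12
      obtain ⟨E1, h1⟩ := hP.ex i1 𝓔
      obtain ⟨E2, h2⟩ := hP.ex i2 𝓔
      have a1 := 𝒜.pull i i1 _ _ _ hci h1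
      have a2 := 𝒜.pull i i2 _ _ _ hci h2
      have b1 := 𝒜.pull j i1 _ _ _ hcj h1
      have b2 := 𝒜.pull j i2 _ _ _ hcj h2
      rw [← h12] at a2
      refine DFunLike.coe_injective (hEq C (𝒜.Y j) _ _ fun t => ?_)
      obtain ⟨U, E', p1, p2⟩ := 𝒜.inj i E1 E2 _ a1 a2 t
      exact ⟨U, fun a => AlgHom.congr_fun
        (𝒜.uniq j E' _ _ (𝒜.pull j U.ψ _ _ _ b1 p1) (𝒜.pull j U.ψ _ _ _ b2 p2)) a⟩)
  have hτk : ∀ k, (W (ts k)).ψ.comp τ = y (ts k) := fun k =>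
    AlgHom.ext fun a => congrFun (AlgHom.congr_fun hτ a) k
  refine ⟨τ, fun B _ _ _ EB z => ?_⟩
  have key : ∀ t : B →ₐ[ℂ] ℂ, ∃ (V : Nb B t) (E3 : Bundle F V.A),
      𝒜.Cl i E3 (V.ψ.comp z) ∧ 𝒜.Cl j E3 (V.ψ.comp (z.comp τ)) := by
    intro t
    obtain ⟨k, p', hp'⟩ := hpt (t.comp z)
    obtain ⟨V, χ, hχ, -⟩ := hBC (𝒜.Y i) B z (t.comp z) t ((W (ts k)).rept p' hp') rfl
    change (W (ts k)).A →ₐ[ℂ] V.A at χ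
    change χ.comp (W (ts k)).ψ = V.ψ.comp z at hχ
    obtain ⟨E3, h3⟩ := hP.ex χ (E (ts k))
    have c1 := 𝒜.pull i χ _ _ _ (hi (ts k)) h3
    have c2 := 𝒜.pull j χ _ _ _ (hj (ts k)) h3
    rw [hχ] at c1
    rw [← hτk k, ← AlgHom.comp_assoc, hχ, AlgHom.comp_assoc] at c2
    exact ⟨V, E3, c1, c2⟩
  exact ⟨EGA3P.transfer hP 𝒜 EB z (z.comp τ) key,
    EGA3P.transfer hP 𝒜 EB (z.comp τ) z fun t => by
      obtain ⟨V, E3, c1, c2⟩ := key t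
      exact ⟨V, E3, c2, c1⟩⟩

end Pool.Agent.P.MP_2b2d3b_ag
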