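import Pool.Agent.P.MP_2b2d3b_ag.StE
import Pool.Agent.P.MP_2b2d3b_ag.DimP

/-!
Package GA4: the transition maps are open immersions.
-/

namespace Pool.Agent.P.MP_2b2d3b_ag

open MvPolynomial CategoryTheory AlgebraicGeometry

namespace EGA4P

theorem spA_comp {A B C : Type} [CommRing A] [Algebra ℂ A] [CommRing B] [Algebra ℂ B] [CommRing C]
    [Algebra ℂ C] (f : A →ₐ[ℂ] B) (g : B →ₐ[ℂ] C) : spA g ≫ spA f = spA (g.comp f) := by
  rw [← Spec.map_comp]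
  rfl

theorem oi_of_bij {A B : Type} [CommRing A] [Algebra ℂ A] [CommRing B] [Algebra ℂ B]
    (f : A →ₐ[ℂ] B) (hf : Function.Bijective f) : IsOpenImmersion (spA f) := by
  have : IsIso (CommRingCat.ofHom (f : A →+* B)) :=
    (ConcreteCategory.isIso_iff_bijective _).2 hf
  infer_instance

theorem oi_of_away {A B : Type} [CommRing A] [Algebra ℂ A] [CommRing B] [Algebra ℂ B]
    (f : A →ₐ[ℂ] B) (h : A) (hf : @IsLocalization.Away A _ h B _ (f : A →+* B).toAlgebra) :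
    IsOpenImmersion (spA f) := by
  let := (f : A →+* B).toAlgebra
  exact IsOpenImmersion.of_isLocalization (S := B) h

/-- the universal property of a localisation given by an algebra map -/
theorem lift_away {A B C : Type} [CommRing A] [Algebra ℂ A] [CommRing B] [Algebra ℂ B]
    [CommRing C] [Algebra ℂ C] (f : A →ₐ[ℂ] B) (h : A)
    (hf : @IsLocalization.Away A _ h B _ (f : A →+* B).toAlgebra) (g : A →ₐ[ℂ] C)
    (hg : IsUnit (g h)) : ∃ k : B →ₐ[ℂ] C, k.comp f = g := by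
  let := (f : A →+* B).toAlgebra
  have : IsScalarTower ℂ A B := IsScalarTower.of_algebraMap_eq fun x => (f.commutes x).symm
  refine ⟨IsLocalization.liftAlgHom (M := Submonoid.powers h) (f := g) ?_, ?_⟩
  · rintro ⟨_, k, rfl⟩
    simpa using hg.pow k
  · ext a
    exact IsLocalization.lift_eq (M := Submonoid.powers h) _ a

theorem ext_away {A B C : Type} [CommRing A] [Algebra ℂ A] [CommRing B] [Algebra ℂ B]
    [CommRing C] [Algebra ℂ C] (f : A →ₐ[ℂ] B) (h : A)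
    (hf : @IsLocalization.Away A _ h B _ (f : A →+* B).toAlgebra) (k k' : B →ₐ[ℂ] C)
    (hk : k.comp f = k'.comp f) : k = k' := by
  let := (f : A →+* B).toAlgebra
  have : (k : B →+* C) = k' :=
    IsLocalization.ringHom_ext (Submonoid.powers h) (RingHom.ext fun a => AlgHom.congr_fun hk a)
  exact AlgHom.coe_ringHom_injective this

theorem unit_away {A B : Type} [CommRing A] [Algebra ℂ A] [CommRing B] [Algebra ℂ B]
    (f : A →ₐ[ℂ] B) (h : A) (hf : @IsLocalization.Away A _ h B _ (f : A →+* B).toAlgebra) :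
    IsUnit (f h) := by
  let := (f : A →+* B).toAlgebra
  exact IsLocalization.Away.algebraMap_isUnit (S := B) h

theorem range_away {A B : Type} [CommRing A] [Algebra ℂ A] [CommRing B] [Algebra ℂ B]
    (f : A →ₐ[ℂ] B) (h : A) (hf : @IsLocalization.Away A _ h B _ (f : A →+* B).toAlgebra)
    (x : Spec (.of A)) (hx : h ∉ x.asIdeal) : ∃ z, spA f z = x := by
  let := (f : A →+* B).toAlgebra
  have h1 := PrimeSpectrum.localization_away_comap_range B h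
  have h2 : x ∈ Set.range (PrimeSpectrum.comap (algebraMap A B)) := by
    rw [h1]
    exact hx
  exact h2

/-- the transition map is an open immersion near every point -/
theorem loc (h3 : S_GA3) (hU : S_GAU) (hL : S_GAL) {F : Pol ℂ} (hP : PBk F) (𝒜 : Atlas F)
    (hB : 𝒜.Basis) {i j : 𝒜.ι} (τ : 𝒜.Y j →ₐ[ℂ] 𝒜.Y i) (hτ : 𝒜.Tau τ) (t : 𝒜.Y i →ₐ[ℂ] ℂ) :
    ∃ (h : 𝒜.Y j) (l : 𝒜.ι) (ρ : 𝒜.Y i →ₐ[ℂ] 𝒜.Y l), t (τ h) ≠ 0 ∧
      @IsLocalization.Away (𝒜.Y i) _ (τ h) (𝒜.Y l) _ (ρ : 𝒜.Y i →+* 𝒜.Y l).toAlgebra ∧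
      IsOpenImmersion (spA ρ ≫ spA τ) := by
  obtain ⟨E0, hE0⟩ := 𝒜.full i t
  obtain ⟨h, hh, hle⟩ := hL F hP 𝒜 j i E0 (t.comp τ) t ((hτ ℂ E0 t).1 hE0) hE0
  obtain ⟨l, ρ, hρ, hρl⟩ := hB j h
  have hli : 𝒜.le l i := fun E y hy =>
    hle E.toBundle (y.comp ρ) (Nb.unit_ne (unit_away ρ h hρl) y) ((hρ ℂ _ y).1 hy)
  obtain ⟨τ', hτ'⟩ := h3 F hP 𝒜 l i hli
  have hc : ρ = τ'.comp τ := (hU F 𝒜 l j ρ hρ).1 _ fun B _ _ _ E y =>
    (hτ' B E y).trans (hτ B E (y.comp τ'))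
  obtain ⟨l', ρ', -, hρl'⟩ := hB i (τ h)
  obtain ⟨α, hα⟩ := lift_away ρ h hρl (ρ'.comp τ) (unit_away ρ' (τ h) hρl')
  obtain ⟨β, hβ⟩ := lift_away ρ' (τ h) hρl' τ' (by
    have := unit_away ρ h hρl
    rwa [hc] at this)
  have h1 : β.comp α = AlgHom.id ℂ _ := ext_away ρ h hρl _ _ (by
    rw [AlgHom.comp_assoc, hα, ← AlgHom.comp_assoc, hβ, AlgHom.id_comp, hc])
  have h2 : α.comp τ' = ρ' := (hU F 𝒜 i j τ hτ).2 _ _ _ (by rw [AlgHom.comp_assoc, ← hc, hα])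
  have h4 : α.comp β = AlgHom.id ℂ _ := ext_away ρ' (τ h) hρl' _ _ (by
    rw [AlgHom.comp_assoc, hβ, h2, AlgHom.id_comp])
  have hbij : Function.Bijective α :=
    ⟨Function.LeftInverse.injective (g := β) fun x => AlgHom.congr_fun h1 x,
      Function.RightInverse.surjective (g := β) fun x => AlgHom.congr_fun h4 x⟩
  refine ⟨h, l', ρ', hh, hρl', ?_⟩
  rw [spA_comp, ← hα, ← spA_comp]
  have := oi_of_bij α hbij
  have := oi_of_away ρ h hρl
  infer_instance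

end EGA4P

open EGA4P in
theorem gA4 (h3 : S_GA3) (hU : S_GAU) (hL : S_GAL) : S_GA4 := by
  intro F hP 𝒜 hB i j τ hτ
  have key : ∀ x : Spec (.of (𝒜.Y i)), ∃ (h : 𝒜.Y j) (l : 𝒜.ι) (ρ : 𝒜.Y i →ₐ[ℂ] 𝒜.Y l),
      τ h ∉ x.asIdeal ∧
      @IsLocalization.Away (𝒜.Y i) _ (τ h) (𝒜.Y l) _ (ρ : 𝒜.Y i →+* 𝒜.Y l).toAlgebra ∧
      IsOpenImmersion (spA ρ ≫ spA τ) := by
    intro x
    obtain ⟨t, ht, -⟩ := nS (𝒜.Y i) x.asIdeal 1 (by
      rw [x.isPrime.radical]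
      exact (Ideal.ne_top_iff_one _).1 x.isPrime.ne_top)
    obtain ⟨h, l, ρ, h1, h2, h4⟩ := loc h3 hU hL hP 𝒜 hB τ hτ t
    exact ⟨h, l, ρ, fun hx => h1 (ht _ hx), h2, h4⟩
  refine IsOpenImmersion.of_forall_source_exists _ ?_ ?_
  · intro x x' hxx
    obtain ⟨h, l, ρ, h1, h2, h4⟩ := key x
    have h5 : τ h ∉ x'.asIdeal := by
      intro h6
      have h7 : h ∈ (spA τ x').asIdeal := h6
      rw [← hxx] at h7
      exact h1 h7
    obtain ⟨z, rfl⟩ := range_away ρ (τ h) h2 x h1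
    obtain ⟨z', rfl⟩ := range_away ρ (τ h) h2 x' h5
    have h8 : (spA ρ ≫ spA τ) z = (spA ρ ≫ spA τ) z' := by
      rw [Scheme.Hom.comp_apply, Scheme.Hom.comp_apply]
      exact hxx
    rw [(spA ρ ≫ spA τ).isOpenEmbedding.injective h8]
  · intro x
    obtain ⟨h, l, ρ, h1, h2, h4⟩ := key x
    exact ⟨_, spA ρ, oi_of_away ρ (τ h) h2, range_away ρ (τ h) h2 x h1, h4⟩

end Pool.Agent.P.MP_2b2d3b_ag
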