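import Pool.Agent.P.MP_2b2d3b_ag.StE

/-!
Gluing the charts of an atlas.
-/

namespace Pool.Agent.P.MP_2b2d3b_ag

open CategoryTheory CategoryTheory.Limits AlgebraicGeometry

namespace EGBP

section Alg

variable {A C D : Type} [CommRing A] [Algebra ℂ A] [CommRing C] [Algebra ℂ C] [CommRing D]
  [Algebra ℂ D]

theorem spA_comp (τ : A →ₐ[ℂ] C) (σ : C →ₐ[ℂ] D) : spA (σ.comp τ) = spA σ ≫ spA τ := by
  rw [spA, spA, spA, ← Spec.map_comp, ← CommRingCat.ofHom_comp]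
  rfl

theorem spA_id : spA (AlgHom.id ℂ A) = 𝟙 _ := by
  rw [spA, ← Spec.map_id]
  rfl

theorem spA_inj {g g' : A →ₐ[ℂ] C} (h : spA g = spA g') : g = g' := by
  have h1 := Spec.map_injective h
  ext a
  exact congr(($h1).hom a)

theorem spA_over (g : A →ₐ[ℂ] C) :
    spA g ≫ Spec.map (CommRingCat.ofHom (algebraMap ℂ A)) =
      Spec.map (CommRingCat.ofHom (algebraMap ℂ C)) := by
  rw [spA, ← Spec.map_comp, ← CommRingCat.ofHom_comp, AlgHom.comp_algebraMap]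

theorem liftA (τ : A →ₐ[ℂ] C) [IsOpenImmersion (spA τ)] (g : A →ₐ[ℂ] D)
    (h : Set.range (spA g) ⊆ Set.range (spA τ)) : ∃ σ : C →ₐ[ℂ] D, σ.comp τ = g := by
  obtain ⟨l, h1⟩ : ∃ l, l ≫ spA τ = spA g := ⟨_, IsOpenImmersion.lift_fac (spA τ) (spA g) h⟩
  have h2 : CommRingCat.ofHom (algebraMap ℂ C) ≫ Spec.preimage l =
      CommRingCat.ofHom (algebraMap ℂ D) := by
    apply Spec.map_injective
    rw [Spec.map_comp, Spec.map_preimage, ← spA_over τ, ← Category.assoc, h1, spA_over]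
  refine ⟨⟨(Spec.preimage l).hom, fun c => congr(($h2).hom c)⟩, spA_inj ?_⟩
  rw [spA_comp, ← h1]
  congr 1
  exact Spec.map_preimage l

theorem range_unit (ρ : A →ₐ[ℂ] C) {h : A} (hu : IsUnit (ρ h)) (x : Spec (.of C)) :
    h ∉ PrimeSpectrum.asIdeal (spA ρ x) := fun hx =>
  x.isPrime.ne_top (Ideal.eq_top_of_isUnit_mem _ (show ρ h ∈ x.asIdeal from hx) hu)

theorem range_away (ρ : A →ₐ[ℂ] C) (h : A)
    (hl : @IsLocalization.Away A _ h C _ (ρ : A →+* C).toAlgebra) (z : Spec (.of A))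
    (hz : h ∉ PrimeSpectrum.asIdeal z) : ∃ x, spA ρ x = z := by
  let _ : Algebra A C := (ρ : A →+* C).toAlgebra
  have h1 := PrimeSpectrum.localization_away_comap_range C h
  have h2 : (z : PrimeSpectrum A) ∈ Set.range (PrimeSpectrum.comap (algebraMap A C)) := by
    rw [h1]; exact hz
  exact h2

theorem away_unit (ρ : A →ₐ[ℂ] C) (h : A)
    (hl : @IsLocalization.Away A _ h C _ (ρ : A →+* C).toAlgebra) : IsUnit (ρ h) := by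
  let _ : Algebra A C := (ρ : A →+* C).toAlgebra
  exact IsLocalization.Away.algebraMap_isUnit (S := C) h

theorem away_lift (ρ : A →ₐ[ℂ] C) (h : A)
    (hl : @IsLocalization.Away A _ h C _ (ρ : A →+* C).toAlgebra) (g : A →ₐ[ℂ] D)
    (hg : IsUnit (g h)) : ∃ σ : C →ₐ[ℂ] D, σ.comp ρ = g := by
  let _ : Algebra A C := (ρ : A →+* C).toAlgebra
  have hg' : IsUnit ((g : A →+* D) h) := hg
  have key : ∀ a, IsLocalization.Away.lift (S := C) h hg' (ρ a) = g a := fun a =>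
    IsLocalization.Away.lift_eq (S := C) h hg' a
  refine ⟨⟨IsLocalization.Away.lift (S := C) h hg', fun c => ?_⟩, ?_⟩
  · rw [← ρ.commutes c]
    exact (key _).trans (g.commutes c)
  · ext a
    exact key a

omit [Algebra ℂ A] in
theorem exists_basic {U : Set (Spec (.of A))} (hU : IsOpen U) {z : Spec (.of A)} (hz : z ∈ U) :
    ∃ h : A, h ∉ PrimeSpectrum.asIdeal z ∧
      ∀ z' : Spec (.of A), h ∉ PrimeSpectrum.asIdeal z' → z' ∈ U := by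
  obtain ⟨_, ⟨h, rfl⟩, h1, h2⟩ :=
    (PrimeSpectrum.isTopologicalBasis_basic_opens (R := A)).exists_subset_of_mem_open hz hU
  exact ⟨h, h1, fun z' hz' => h2 hz'⟩

end Alg

variable {F : Pol ℂ} (𝒜 : Atlas F)

theorem tau_id (i : 𝒜.ι) : 𝒜.Tau (AlgHom.id ℂ (𝒜.Y i)) := fun _ _ _ _ _ _ => Iff.rfl

variable {𝒜} in
theorem tau_comp {i j k : 𝒜.ι} {τ : 𝒜.Y j →ₐ[ℂ] 𝒜.Y i} {σ : 𝒜.Y k →ₐ[ℂ] 𝒜.Y j} (h1 : 𝒜.Tau τ)
    (h2 : 𝒜.Tau σ) : 𝒜.Tau (τ.comp σ) := fun B _ _ _ E y =>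
  (h1 B E y).trans (h2 B E (y.comp τ))

variable {𝒜} in
theorem tau_cancel {i j k : 𝒜.ι} {τ : 𝒜.Y j →ₐ[ℂ] 𝒜.Y i} {σ : 𝒜.Y k →ₐ[ℂ] 𝒜.Y j}
    (h1 : 𝒜.Tau (τ.comp σ)) (h2 : 𝒜.Tau σ) : 𝒜.Tau τ := fun B _ _ _ E y =>
  (h1 B E y).trans (h2 B E (y.comp τ)).symm

/-- the index set with its preorder -/
structure J where
  i : 𝒜.ι

instance : Preorder (J 𝒜) where
  le a b := ∃ τ : 𝒜.Y b.i →ₐ[ℂ] 𝒜.Y a.i, 𝒜.Tau τ
  le_refl a := ⟨_, tau_id 𝒜 a.i⟩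
  le_trans _ _ _ := fun ⟨_, h1⟩ ⟨_, h2⟩ => ⟨_, tau_comp h1 h2⟩

variable {𝒜}

/-- the transition map -/
noncomputable def tau {a b : J 𝒜} (f : a ⟶ b) : 𝒜.Y b.i →ₐ[ℂ] 𝒜.Y a.i :=
  Classical.choose (show ∃ τ : 𝒜.Y b.i →ₐ[ℂ] 𝒜.Y a.i, 𝒜.Tau τ from f.le)

theorem tau_spec {a b : J 𝒜} (f : a ⟶ b) : 𝒜.Tau (tau f) :=
  Classical.choose_spec (show ∃ τ : 𝒜.Y b.i →ₐ[ℂ] 𝒜.Y a.i, 𝒜.Tau τ from f.le)

/-- the arrow given by a transition map -/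
def arr {i j : 𝒜.ι} {τ : 𝒜.Y j →ₐ[ℂ] 𝒜.Y i} (h : 𝒜.Tau τ) : (⟨i⟩ : J 𝒜) ⟶ ⟨j⟩ :=
  homOfLE (show ∃ τ : 𝒜.Y j →ₐ[ℂ] 𝒜.Y i, 𝒜.Tau τ from ⟨τ, h⟩)

theorem tau_eq (hU : S_GAU) {a b : J 𝒜} (f : a ⟶ b) {τ : 𝒜.Y b.i →ₐ[ℂ] 𝒜.Y a.i}
    (h : 𝒜.Tau τ) : tau f = τ := (hU F 𝒜 a.i b.i _ (tau_spec f)).1 τ h

variable (𝒜) in
/-- the diagram of charts -/
noncomputable def diag (hU : S_GAU) : J 𝒜 ⥤ Scheme.{0} where
  obj a := Spec (.of (𝒜.Y a.i))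
  map f := spA (tau f)
  map_id a := by rw [tau_eq hU _ (tau_id 𝒜 a.i), spA_id]
  map_comp f g := by rw [tau_eq hU _ (tau_comp (tau_spec f) (tau_spec g)), spA_comp]

theorem directed (hU : S_GAU) (hB : 𝒜.Basis)
    (hO : ∀ (i j : 𝒜.ι) (τ : 𝒜.Y j →ₐ[ℂ] 𝒜.Y i), 𝒜.Tau τ → IsOpenImmersion (spA τ)) :
    (diag 𝒜 hU ⋙ Scheme.forget).IsLocallyDirected := by
  refine ⟨fun {a b c} fa fb xa xb hx => ?_⟩
  have := hO _ _ _ (tau_spec fa)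
  have := hO _ _ _ (tau_spec fb)
  have hx' : spA (tau fa) xa = spA (tau fb) xb := hx
  obtain ⟨h, h1, h2⟩ := exists_basic
    (U := Set.range (spA (tau fa)) ∩ Set.range (spA (tau fb)))
    ((spA (tau fa)).isOpenEmbedding.isOpen_range.inter (spA (tau fb)).isOpenEmbedding.isOpen_range)
    (z := spA (tau fa) xa) ⟨⟨xa, rfl⟩, ⟨xb, hx'.symm⟩⟩
  obtain ⟨l, ρ, hρ, hl⟩ := hB c.i h
  have h3 : ∀ z ∈ Set.range (spA ρ), z ∈ Set.range (spA (tau fa)) ∩ Set.range (spA (tau fb)) := by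
    rintro _ ⟨x, rfl⟩
    exact h2 _ (range_unit ρ (away_unit ρ h hl) x)
  obtain ⟨σa, ha⟩ := liftA (tau fa) ρ fun z hz => (h3 z hz).1
  obtain ⟨σb, hb⟩ := liftA (tau fb) ρ fun z hz => (h3 z hz).2
  have ta : 𝒜.Tau σa := tau_cancel (by rw [ha]; exact hρ) (tau_spec fa)
  have tb : 𝒜.Tau σb := tau_cancel (by rw [hb]; exact hρ) (tau_spec fb)
  obtain ⟨x, hx1⟩ := range_away ρ h hl _ h1
  refine ⟨⟨l⟩, arr ta, arr tb, x, ?_, ?_⟩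
  · change spA (tau (arr ta)) x = xa
    rw [tau_eq hU _ ta]
    apply (spA (tau fa)).isOpenEmbedding.injective
    rw [← Scheme.Hom.comp_apply, ← spA_comp, ha, hx1]
  · change spA (tau (arr tb)) x = xb
    rw [tau_eq hU _ tb]
    apply (spA (tau fb)).isOpenEmbedding.injective
    rw [← Scheme.Hom.comp_apply, ← spA_comp, hb, hx1, hx']

/-- charts mapping compatibly to a scheme -/
structure Co (𝒜 : Atlas F) (M : Scheme.{0}) (ι : ∀ i, Spec (.of (𝒜.Y i)) ⟶ M) : Prop where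
  w : ∀ (i j : 𝒜.ι) (τ : 𝒜.Y j →ₐ[ℂ] 𝒜.Y i), 𝒜.Tau τ → spA τ ≫ ι j = ι i
  oi : ∀ i, IsOpenImmersion (ι i)
  eq : ∀ (i j : 𝒜.ι) xi xj, ι i xi = ι j xj → ∃ (l : 𝒜.ι) (τi : 𝒜.Y i →ₐ[ℂ] 𝒜.Y l)
    (τj : 𝒜.Y j →ₐ[ℂ] 𝒜.Y l) (x : Spec (.of (𝒜.Y l))), 𝒜.Tau τi ∧ 𝒜.Tau τj ∧ spA τi x = xi

theorem compat1 (h3 : S_GA3) (hL : S_GAL) (hH : S_NbHom) (hP : PBk F) (hB : 𝒜.Basis)
    {M : Scheme.{0}} {ι : ∀ i, Spec (.of (𝒜.Y i)) ⟶ M} (hc : Co 𝒜 M ι) (i j : 𝒜.ι) (B : Type)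
    [CommRing B] [Algebra ℂ B] [Algebra.FiniteType ℂ B] (E : Bundle F B) (y : 𝒜.Y i →ₐ[ℂ] B)
    (y' : 𝒜.Y j →ₐ[ℂ] B) (hy : 𝒜.Cl i E y) (hy' : 𝒜.Cl j E y') :
    spA y ≫ ι i = spA y' ≫ ι j := by
  refine hH B M _ _ fun t => ?_
  obtain ⟨E0, hE0⟩ := hP.ex t E
  obtain ⟨h, ht, hh⟩ := hL F hP 𝒜 i j E0 _ _ (𝒜.pull i t E E0 y hy hE0) (𝒜.pull j t E E0 y' hy' hE0)
  obtain ⟨l, ρ, hρ, hl⟩ := hB i h
  have hle : 𝒜.le l j := fun E1 y1 h1 =>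
    hh E1.toBundle (y1.comp ρ) (Nb.unit_ne (away_unit ρ h hl) y1) ((hρ ℂ _ y1).1 h1)
  obtain ⟨τ, hτ⟩ := h3 F hP 𝒜 l j hle
  obtain ⟨U, hU⟩ := Nb.exists_unit (t := t) (y h) ht
  obtain ⟨yl, hyl⟩ := away_lift ρ h hl (U.ψ.comp y) hU
  obtain ⟨E', hE'⟩ := hP.ex U.ψ E
  have c1 : 𝒜.Cl l E' yl := (hρ U.A E' yl).2 (by rw [hyl]; exact 𝒜.pull i U.ψ E E' y hy hE')
  have c2 : yl.comp τ = U.ψ.comp y' :=
    𝒜.uniq j E' _ _ ((hτ U.A E' yl).1 c1) (𝒜.pull j U.ψ E E' y' hy' hE')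
  refine ⟨U, ?_⟩
  rw [← Category.assoc, ← Category.assoc, ← spA_comp, ← spA_comp, ← hyl, ← c2, spA_comp, spA_comp,
    Category.assoc, Category.assoc, hc.w _ _ _ hρ, hc.w _ _ _ hτ]

theorem compat2 (hP : PBk F)
    (hO : ∀ (i j : 𝒜.ι) (τ : 𝒜.Y j →ₐ[ℂ] 𝒜.Y i), 𝒜.Tau τ → IsOpenImmersion (spA τ))
    {M : Scheme.{0}} {ι : ∀ i, Spec (.of (𝒜.Y i)) ⟶ M} (hc : Co 𝒜 M ι) (i j : 𝒜.ι) (B : Type)
    [CommRing B] [Algebra ℂ B] [Algebra.FiniteType ℂ B] (E : Bundle F B) (y : 𝒜.Y i →ₐ[ℂ] B)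
    (y' : 𝒜.Y j →ₐ[ℂ] B) (hy : 𝒜.Cl i E y) (he : spA y ≫ ι i = spA y' ≫ ι j) :
    𝒜.Cl j E y' := by
  refine 𝒜.loc j E y' fun t => ?_
  have h1 : ι i (spA y (kp t)) = ι j (spA y' (kp t)) := by
    rw [← Scheme.Hom.comp_apply, he, Scheme.Hom.comp_apply]
  obtain ⟨l, τi, τj, x, hi, hj, hx⟩ := hc.eq i j _ _ h1
  have := hO _ _ _ hi
  have := hc.oi j
  obtain ⟨b, hb, hb'⟩ := exists_basic (U := spA y ⁻¹' Set.range (spA τi))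
    ((spA τi).isOpenEmbedding.isOpen_range.preimage (spA y).continuous) (z := kp t) ⟨x, hx⟩
  obtain ⟨U, hU⟩ := Nb.exists_unit (t := t) b hb
  obtain ⟨yl, hyl⟩ := liftA τi (U.ψ.comp y) (by
    rintro _ ⟨z, rfl⟩
    rw [spA_comp, Scheme.Hom.comp_apply]
    exact hb' _ (range_unit U.ψ hU z))
  have c2 : yl.comp τj = U.ψ.comp y' := by
    apply spA_inj
    rw [← cancel_mono (ι j), spA_comp, spA_comp, Category.assoc, Category.assoc, hc.w _ _ _ hj,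
      ← he, ← Category.assoc, ← spA_comp, ← hyl, spA_comp, Category.assoc, hc.w _ _ _ hi]
  obtain ⟨E', hE'⟩ := hP.ex U.ψ E
  refine ⟨U, E', hE', ?_⟩
  rw [← c2]
  exact (hj U.A E' yl).1 ((hi U.A E' yl).2 (by rw [hyl]; exact 𝒜.pull i U.ψ E E' y hy hE'))

theorem glue {I : Type} [Preorder I] (D : I ⥤ Scheme.{0})
    [∀ {a b : I} (f : a ⟶ b), IsOpenImmersion (D.map f)] [(D ⋙ Scheme.forget).IsLocallyDirected]
    {S : Scheme.{0}} (p : ∀ a, D.obj a ⟶ S) (hp : ∀ (a b : I) (f : a ⟶ b), D.map f ≫ p b = p a)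
    (hl : ∀ a, LocallyOfFiniteType (p a)) :
    ∃ (M : Scheme.{0}) (q : M ⟶ S) (ι : ∀ a, D.obj a ⟶ M), LocallyOfFiniteType q ∧
      (∀ a, ι a ≫ q = p a) ∧ (∀ a, IsOpenImmersion (ι a)) ∧ (∀ x : M, ∃ a z, ι a z = x) ∧
      (∀ (a b : I) (f : a ⟶ b), D.map f ≫ ι b = ι a) ∧
      ∀ (a b : I) xa xb, ι a xa = ι b xb → ∃ (k : I) (fa : k ⟶ a) (_ : k ⟶ b) (x : D.obj k),
        D.map fa x = xa := by
  let c : Cocone D := Cocone.mk S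
    { app := p
      naturality := fun a b f => (hp a b f).trans (Category.comp_id _).symm }
  have hov : ∀ a, colimit.ι D a ≫ colimit.desc D c = p a := fun a => colimit.ι_desc c a
  refine ⟨colimit D, colimit.desc D c, colimit.ι D, ?_, hov, fun a => inferInstance,
    Scheme.IsLocallyDirected.ι_jointly_surjective D, fun a b f => colimit.w D f,
    fun a b xa xb h => ?_⟩
  · rw [IsZariskiLocalAtSource.iff_of_openCover (P := @LocallyOfFiniteType)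
      (Scheme.IsLocallyDirected.openCover D)]
    intro a
    have h1 := hl a
    rw [← hov a] at h1
    exact h1
  · obtain ⟨k, fi, fj, x, h1, -⟩ := (Scheme.IsLocallyDirected.ι_eq_ι_iff D).1 h
    exact ⟨k, fi, fj, x, h1⟩

theorem glue' (hU : S_GAU) (hB : 𝒜.Basis)
    (hO : ∀ (i j : 𝒜.ι) (τ : 𝒜.Y j →ₐ[ℂ] 𝒜.Y i), 𝒜.Tau τ → IsOpenImmersion (spA τ)) :
    ∃ (M : Scheme.{0}) (q : M ⟶ Spec (.of ℂ)) (ι : ∀ i, Spec (.of (𝒜.Y i)) ⟶ M),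
      LocallyOfFiniteType q ∧
      (∀ i, ι i ≫ q = Spec.map (CommRingCat.ofHom (algebraMap ℂ (𝒜.Y i)))) ∧
      (∀ x : M, ∃ i z, ι i z = x) ∧ Co 𝒜 M ι := by
  obtain ⟨M, q, ι, h1, h2, h3, h4, h5, h6⟩ := @glue (J 𝒜) _ (diag 𝒜 hU)
    (fun f => hO _ _ _ (tau_spec f)) (directed hU hB hO) (Spec (.of ℂ))
    (fun a => Spec.map (CommRingCat.ofHom (algebraMap ℂ (𝒜.Y a.i))))
    (fun a b f => spA_over (tau f))
    (fun a => (HasRingHomProperty.Spec_iff (P := @LocallyOfFiniteType)).2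
      (RingHom.finiteType_algebraMap.2 inferInstance))
  refine ⟨M, q, fun i => ι ⟨i⟩, h1, fun i => h2 ⟨i⟩, fun x => ?_, fun i j τ hτ => ?_,
    fun i => h3 ⟨i⟩, fun i j xi xj h => ?_⟩
  · obtain ⟨a, z, hz⟩ := h4 x
    exact ⟨a.i, z, hz⟩
  · have h7 : spA (tau (arr hτ)) ≫ ι ⟨j⟩ = ι ⟨i⟩ := h5 _ _ (arr hτ)
    rw [tau_eq hU _ hτ] at h7
    exact h7
  · obtain ⟨k, fi, fj, x, hx⟩ := h6 ⟨i⟩ ⟨j⟩ xi xj h
    exact ⟨k.i, tau fi, tau fj, x, tau_spec fi, tau_spec fj, hx⟩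

end EGBP

open EGBP in
theorem gB (h3 : S_GA3) (hU : S_GAU) (hL : S_GAL) (h4 : S_GA4) (hH : S_NbHom) : S_GB := by
  intro F hP 𝒜 hB
  have hO := h4 F hP 𝒜 hB
  obtain ⟨M, q, ι, h1, h2, h5, hc⟩ := glue' hU hB hO
  exact ⟨{ M := M
           π := q
           lft := h1
           ι := ι
           overC := h2
           oi := hc.oi
           cover := h5
           compat := fun i j B _ _ _ E y y' hy =>
             ⟨compat1 h3 hL hH hP hB hc i j B E.toBundle y y' hy,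
               compat2 hP hO hc i j B E.toBundle y y' hy⟩ }⟩

end Pool.Agent.P.MP_2b2d3b_ag
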