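import Pool.Agent.P.MP_2b2d3b_ag.StE
import Pool.Agent.P.MP_2b2d3b_ag.DimP

/-!
Package GC1: existence of the classifying maps.
-/

namespace Pool.Agent.P.MP_2b2d3b_ag

open CategoryTheory AlgebraicGeometry Limits TensorProduct

namespace EGC1P

theorem spA_comp {A B C : Type} [CommRing A] [Algebra ℂ A] [CommRing B] [Algebra ℂ B] [CommRing C]
    [Algebra ℂ C] (f : A →ₐ[ℂ] B) (g : B →ₐ[ℂ] C) : spA (g.comp f) = spA g ≫ spA f := by
  rw [spA, spA, spA, ← Spec.map_comp]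
  rfl

/-- the localisation map -/
noncomputable abbrev lc {B : Type} [CommRing B] [Algebra ℂ B] (h : B) :
    B →ₐ[ℂ] Localization.Away h := IsScalarTower.toAlgHom ℂ B (Localization.Away h)

instance ftAway {B : Type} [CommRing B] [Algebra ℂ B] [Algebra.FiniteType ℂ B] (h : B) :
    Algebra.FiniteType ℂ (Localization.Away h) :=
  Algebra.FiniteType.trans (S := B) inferInstance inferInstance

variable {F : Pol ℂ} {𝒜 : Atlas F} {B : Type} [CommRing B] [Algebra ℂ B] [Algebra.FiniteType ℂ B]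

/-- two local classifying maps agree on a common refinement -/
theorem agree (hP : PBk F) (G : Glued 𝒜) (E : Family F B) {C1 C2 C : Type} [CommRing C1]
    [Algebra ℂ C1] [Algebra.FiniteType ℂ C1] [CommRing C2] [Algebra ℂ C2] [Algebra.FiniteType ℂ C2]
    [CommRing C] [Algebra ℂ C] [Algebra.FiniteType ℂ C] {φ1 : B →ₐ[ℂ] C1} {φ2 : B →ₐ[ℂ] C2}
    {E1 : Family F C1} {E2 : Family F C2} {i j : 𝒜.ι} {y1 : 𝒜.Y i →ₐ[ℂ] C1} {y2 : 𝒜.Y j →ₐ[ℂ] C2}
    (p1 : IsPull φ1 E.toBundle E1.toBundle) (p2 : IsPull φ2 E.toBundle E2.toBundle)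
    (c1 : 𝒜.Cl i E1.toBundle y1) (c2 : 𝒜.Cl j E2.toBundle y2) (α1 : C1 →ₐ[ℂ] C) (α2 : C2 →ₐ[ℂ] C)
    (h : α1.comp φ1 = α2.comp φ2) :
    spA α1 ≫ spA y1 ≫ G.ι i = spA α2 ≫ spA y2 ≫ G.ι j := by
  obtain ⟨E1', q1⟩ := hP.exf α1 E1
  obtain ⟨E2', q2⟩ := hP.exf α2 E2
  have d1 := 𝒜.pull i α1 _ _ y1 c1 q1
  have d2 := 𝒜.pull j α2 _ _ y2 c2 q2
  have r1 := p1.comp q1
  have r2 := p2.comp q2
  rw [← h] at r2
  have d3 := 𝒜.tr j _ _ _ _ _ r2 r1 d2
  have := (G.compat i j C E1' _ _ d1).1 d3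
  rwa [spA_comp, spA_comp, Category.assoc, Category.assoc] at this

/-- the compatibility on a fibre product -/
theorem overlap (hP : PBk F) (G : Glued 𝒜) (E : Family F B) {C1 C2 : Type} [CommRing C1]
    [Algebra ℂ C1] [Algebra B C1] [IsScalarTower ℂ B C1] [Algebra.FiniteType B C1] [CommRing C2]
    [Algebra ℂ C2] [Algebra B C2] [IsScalarTower ℂ B C2] [Algebra.FiniteType B C2]
    {E1 : Family F C1} {E2 : Family F C2} {i j : 𝒜.ι} {y1 : 𝒜.Y i →ₐ[ℂ] C1} {y2 : 𝒜.Y j →ₐ[ℂ] C2}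
    (p1 : IsPull (IsScalarTower.toAlgHom ℂ B C1) E.toBundle E1.toBundle)
    (p2 : IsPull (IsScalarTower.toAlgHom ℂ B C2) E.toBundle E2.toBundle)
    (c1 : 𝒜.Cl i E1.toBundle y1) (c2 : 𝒜.Cl j E2.toBundle y2) :
    pullback.fst (Spec.map (CommRingCat.ofHom (algebraMap B C1)))
        (Spec.map (CommRingCat.ofHom (algebraMap B C2))) ≫ (spA y1 ≫ G.ι i) =
      pullback.snd _ _ ≫ (spA y2 ≫ G.ι j) := by
  have f1 : Algebra.FiniteType ℂ C1 := Algebra.FiniteType.trans (S := B) inferInstance inferInstance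
  have f2 : Algebra.FiniteType ℂ C2 := Algebra.FiniteType.trans (S := B) inferInstance inferInstance
  have f3 : Algebra.FiniteType ℂ (C1 ⊗[B] C2) :=
    Algebra.FiniteType.trans (S := C1) inferInstance inferInstance
  let α1 : C1 →ₐ[ℂ] C1 ⊗[B] C2 := Algebra.TensorProduct.includeLeft
  let α2 : C2 →ₐ[ℂ] C1 ⊗[B] C2 := (Algebra.TensorProduct.includeRight (R := B)).restrictScalars ℂ
  have hα : α1.comp (IsScalarTower.toAlgHom ℂ B C1) = α2.comp (IsScalarTower.toAlgHom ℂ B C2) := by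
    refine AlgHom.ext fun b => ?_
    change (algebraMap B C1 b) ⊗ₜ[B] (1 : C2) = (1 : C1) ⊗ₜ[B] (algebraMap B C2 b)
    rw [Algebra.algebraMap_eq_smul_one, Algebra.algebraMap_eq_smul_one, TensorProduct.smul_tmul]
  have e1 : (pullbackSpecIso B C1 C2).inv ≫ pullback.fst _ _ = spA α1 :=
    pullbackSpecIso_inv_fst B C1 C2
  have e2 : (pullbackSpecIso B C1 C2).inv ≫ pullback.snd _ _ = spA α2 :=
    pullbackSpecIso_inv_snd B C1 C2
  rw [← cancel_epi (pullbackSpecIso B C1 C2).inv, reassoc_of% e1, reassoc_of% e2]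
  exact agree hP G E p1 p2 c1 c2 α1 α2 hα

/-- classifying maps on principal open sets -/
theorem locl (h1 : S_GA2) (h2 : S_NbImg) (h3 : S_NbBC) (hP : PBk F) (𝒜 : Atlas F) (E : Family F B)
    (t : B →ₐ[ℂ] ℂ) : ∃ h : B, t h ≠ 0 ∧ ∃ (i : 𝒜.ι) (Eh : Family F (Localization.Away h))
      (y : 𝒜.Y i →ₐ[ℂ] Localization.Away h),
      IsPull (lc h) E.toBundle Eh.toBundle ∧ 𝒜.Cl i Eh.toBundle y := by
  obtain ⟨E0, p0⟩ := hP.exf t E
  obtain ⟨i, y0, c0⟩ := 𝒜.cov E0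
  obtain ⟨U, E', y', p', c', -⟩ := 𝒜.opn i E t _ y0 p0 c0
  obtain ⟨h, ht, hl⟩ := h2 B t U
  obtain ⟨Eh, ph⟩ := hP.exf (lc h) E
  refine ⟨h, ht, i, Eh, ?_⟩
  obtain ⟨y, hy⟩ := h1 F hP 𝒜 i (Localization.Away h) Eh.toBundle fun t1 => by
    have hu : IsUnit (lc h h) := IsLocalization.Away.algebraMap_isUnit (S := Localization.Away h) h
    obtain ⟨q, hq⟩ := hl (t1.comp (lc h)) (Nb.unit_ne hu t1)
    obtain ⟨V, χ, hχ, -⟩ := h3 B (Localization.Away h) (lc h) _ t1 (U.rept q hq) rfl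
    obtain ⟨E3, p3⟩ := hP.ex χ E'
    obtain ⟨E4, p4⟩ := hP.ex V.ψ Eh.toBundle
    have c3 := 𝒜.pull i χ _ _ y' c' p3
    have r3 := p'.comp p3
    have r4 := ph.comp p4
    rw [← hχ] at r4
    exact ⟨V, E4, χ.comp y', p4, 𝒜.tr i _ _ _ _ _ r3 r4 c3⟩
  exact ⟨y, ph, hy⟩

end EGC1P

open EGC1P in
theorem gC1 (h1 : S_GA2) (h2 : S_NbImg) (h3 : S_NbBC) (h4 : S_NbHom) : S_GC1 := by
  intro F hP 𝒜 G B _ _ _ E
  choose h ht i Eh y pl cl using locl h1 h2 h3 hP 𝒜 E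
  have hs : Ideal.span (Set.range h) = ⊤ := by
    by_contra hn
    obtain ⟨t, h0⟩ := DimP.pt_of_ne_top B _ hn
    exact ht t (h0 _ (Ideal.subset_span ⟨t, rfl⟩))
  let 𝒰 := (Scheme.affineOpenCoverOfSpanRangeEqTop (R := .of B) h hs).openCover
  have hf : ∀ s t : B →ₐ[ℂ] ℂ,
      pullback.fst (Spec.map (CommRingCat.ofHom (algebraMap B (Localization.Away (h s)))))
          (Spec.map (CommRingCat.ofHom (algebraMap B (Localization.Away (h t))))) ≫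
          (spA (y s) ≫ G.ι (i s)) =
        pullback.snd _ _ ≫ (spA (y t) ≫ G.ι (i t)) := by
    intro s t
    exact overlap hP G E (pl s) (pl t) (cl s) (cl t)
  refine ⟨𝒰.glueMorphisms (fun t => spA (y t) ≫ G.ι (i t)) hf, ?_⟩
  intro C _ _ _ φ E' j z p' c'
  refine h4 C G.M _ _ fun c => ?_
  have hc : c (φ (h (c.comp φ))) ≠ 0 := ht (c.comp φ)
  let U := Nb.away (φ (h (c.comp φ))) hc
  let α : Localization.Away (h (c.comp φ)) →ₐ[ℂ] U.A :=
    IsLocalization.liftAlgHom (M := Submonoid.powers (h (c.comp φ))) (f := U.ψ.comp φ) (by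
      rintro ⟨_, k, rfl⟩
      simpa using (Nb.away_unit _ hc).pow k)
  have hα : α.comp (lc (h (c.comp φ))) = U.ψ.comp φ := by
    ext b
    simp [α]
  refine ⟨U, ?_⟩
  have e1 : spA (lc (h (c.comp φ))) ≫ 𝒰.glueMorphisms (fun t => spA (y t) ≫ G.ι (i t)) hf =
      spA (y (c.comp φ)) ≫ G.ι (i (c.comp φ)) :=
    𝒰.ι_glueMorphisms (fun t => spA (y t) ≫ G.ι (i t)) hf (c.comp φ)
  rw [← Category.assoc, ← spA_comp, ← hα, spA_comp, Category.assoc, e1]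
  exact agree hP G E (pl _) p' (cl _) c' α U.ψ hα

end Pool.Agent.P.MP_2b2d3b_ag
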