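import Pool.Agent.P.MP_2b2d3b_ag.StE

/-!
The glued scheme is the moduli space.
-/

namespace Pool.Agent.P.MP_2b2d3b_ag

open MvPolynomial CategoryTheory AlgebraicGeometry

namespace EGC2P

variable {F : Pol ℂ} {𝒜 : Atlas F} {B : Type} [CommRing B] [Algebra ℂ B] {B' : Type} [CommRing B']
  [Algebra ℂ B'] {B'' : Type} [CommRing B''] [Algebra ℂ B'']

theorem spA_comp (φ : B →ₐ[ℂ] B') (ψ : B' →ₐ[ℂ] B'') : spA (ψ.comp φ) = spA ψ ≫ spA φ := by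
  rw [spA, spA, spA, ← Spec.map_comp]
  rfl

theorem spA_id : spA (AlgHom.id ℂ B) = 𝟙 _ := Spec.map_id _

theorem spA_alg (φ : B →ₐ[ℂ] B') : spA φ ≫ Spec.map (CommRingCat.ofHom (algebraMap ℂ B)) =
    Spec.map (CommRingCat.ofHom (algebraMap ℂ B')) := by
  rw [spA, ← Spec.map_comp, ← CommRingCat.ofHom_comp, AlgHom.comp_algebraMap]

/-- every family is locally in a chart -/
theorem key (hP : PBk F) (𝒜 : Atlas F) [Algebra.FiniteType ℂ B] (E : Family F B)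
    (t : B →ₐ[ℂ] ℂ) : ∃ (U : Nb B t) (E' : Family F U.A) (i : 𝒜.ι) (y : 𝒜.Y i →ₐ[ℂ] U.A),
      IsPull U.ψ E.toBundle E'.toBundle ∧ 𝒜.Cl i E'.toBundle y := by
  obtain ⟨E0, h0⟩ := hP.exf t E
  obtain ⟨i, y0, hy0⟩ := 𝒜.cov E0
  obtain ⟨U, E', y, h1, h2, -⟩ := 𝒜.opn i E t E0.toBundle y0 h0 hy0
  obtain ⟨E'', rfl⟩ := hP.fam U.ψ E E' h1
  exact ⟨U, E'', i, y, h1, h2⟩

theorem uniq (hH : S_NbHom) (hP : PBk F) {G : Glued 𝒜} [Algebra.FiniteType ℂ B] {E : Family F B}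
    {f g : Spec (.of B) ⟶ G.M} (hf : G.Cls E f) (hg : G.Cls E g) : f = g :=
  hH B G.M f g fun t => by
    obtain ⟨U, E', i, y, h1, h2⟩ := key hP 𝒜 E t
    exact ⟨U, (hf _ U.ψ E' i y h1 h2).trans (hg _ U.ψ E' i y h1 h2).symm⟩

theorem ovC (hH : S_NbHom) (hP : PBk F) {G : Glued 𝒜} [Algebra.FiniteType ℂ B] {E : Family F B}
    {f : Spec (.of B) ⟶ G.M} (hf : G.Cls E f) :
    f ≫ G.π = Spec.map (CommRingCat.ofHom (algebraMap ℂ B)) :=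
  hH B _ _ _ fun t => by
    obtain ⟨U, E', i, y, h1, h2⟩ := key hP 𝒜 E t
    refine ⟨U, ?_⟩
    rw [← Category.assoc, hf _ U.ψ E' i y h1 h2, Category.assoc, G.overC, spA_alg, spA_alg]

theorem nat {G : Glued 𝒜} {E : Family F B} {E' : Family F B'} {f : Spec (.of B) ⟶ G.M}
    (hf : G.Cls E f) {φ : B →ₐ[ℂ] B'} (h : IsPull φ E.toBundle E'.toBundle) :
    G.Cls E' (spA φ ≫ f) := fun C _ _ _ χ E'' i y h1 h2 => by
  rw [← Category.assoc, ← spA_comp]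
  exact hf C _ E'' i y (h.comp h1) h2

theorem loc_inj (hP : PBk F) {G : Glued 𝒜} [Algebra.FiniteType ℂ B] {E1 E2 : Family F B}
    {f : Spec (.of B) ⟶ G.M} (h1 : G.Cls E1 f) (h2 : G.Cls E2 f) (t : B →ₐ[ℂ] ℂ) :
    ∃ (U : Nb B t) (E' : Bundle F U.A), IsPull U.ψ E1.toBundle E' ∧ IsPull U.ψ E2.toBundle E' := by
  obtain ⟨U, E1', i, y1, p1, c1⟩ := key hP 𝒜 E1 t
  obtain ⟨E2', p2⟩ := hP.exf U.ψ E2
  obtain ⟨V, E2'', j, y2, q2, c2⟩ := key hP 𝒜 E2' U.p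
  obtain ⟨E1'', q1⟩ := hP.exf V.ψ E1'
  have c1' := 𝒜.pull i V.ψ _ _ y1 c1 q1
  have e1 := h1 _ _ E1'' i _ (p1.comp q1) c1'
  have e2 := h2 _ _ E2'' j _ (p2.comp q2) c2
  have c2' := (G.compat j i _ E2'' y2 _ c2).mpr (e2.symm.trans e1)
  obtain ⟨W, E3, r1, r2⟩ := 𝒜.inj i _ _ _ c1' c2' V.p
  exact ⟨(U.trans V).trans W, E3, (p1.comp q1).comp r1, (p2.comp q2).comp r2⟩

theorem loc_lift (G : Glued 𝒜) [Algebra.FiniteType ℂ B] (f : Spec (.of B) ⟶ G.M)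
    (hf : f ≫ G.π = Spec.map (CommRingCat.ofHom (algebraMap ℂ B))) (t : B →ₐ[ℂ] ℂ) :
    ∃ (U : Nb B t) (i : 𝒜.ι) (y : 𝒜.Y i →ₐ[ℂ] U.A), spA y ≫ G.ι i = spA U.ψ ≫ f := by
  obtain ⟨i, z, hz⟩ := G.cover (f (kp t))
  haveI := G.oi i
  have ho : IsOpen (f ⁻¹' Set.range (G.ι i)) :=
    (G.ι i).isOpenEmbedding.isOpen_range.preimage f.continuous
  obtain ⟨_, ⟨h, rfl⟩, hm, hs⟩ :=
    (PrimeSpectrum.isTopologicalBasis_basic_opens (R := B)).exists_subset_of_mem_open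
      (a := kp t) (u := f ⁻¹' Set.range (G.ι i)) ⟨z, hz⟩ ho
  have ht : t h ≠ 0 := hm
  have hr : Set.range (spA (Nb.away h ht).ψ ≫ f) ⊆ Set.range (G.ι i) := by
    rintro _ ⟨q, rfl⟩
    rw [Scheme.Hom.comp_apply]
    refine hs ?_
    intro hq
    exact q.2.ne_top (Ideal.eq_top_of_isUnit_mem _ hq (Nb.away_unit h ht))
  obtain ⟨φ, hφ⟩ := Spec.map_surjective (IsOpenImmersion.lift (G.ι i) _ hr)
  have e1 : Spec.map φ ≫ G.ι i = spA (Nb.away h ht).ψ ≫ f := by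
    rw [hφ, IsOpenImmersion.lift_fac]
  have e2 : CommRingCat.ofHom (algebraMap ℂ (𝒜.Y i)) ≫ φ =
      CommRingCat.ofHom (algebraMap ℂ (Nb.away h ht).A) := by
    apply Spec.map_injective
    rw [Spec.map_comp, ← G.overC, ← Category.assoc, e1, Category.assoc, hf, spA_alg]
  exact ⟨Nb.away h ht, i, ⟨φ.hom, fun c => congrArg (fun ρ => ρ.hom c) e2⟩, e1⟩

theorem loc_surj (G : Glued 𝒜) [Algebra.FiniteType ℂ B] (f : Spec (.of B) ⟶ G.M)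
    (hf : f ≫ G.π = Spec.map (CommRingCat.ofHom (algebraMap ℂ B))) (t : B →ₐ[ℂ] ℂ) :
    ∃ (U : Nb B t) (E' : Family F U.A) (i : 𝒜.ι) (y : 𝒜.Y i →ₐ[ℂ] U.A),
      𝒜.Cl i E'.toBundle y ∧ spA y ≫ G.ι i = spA U.ψ ≫ f := by
  obtain ⟨U, i, y, h⟩ := loc_lift G f hf t
  obtain ⟨V, E', h'⟩ := 𝒜.surj i y U.p
  refine ⟨U.trans V, E', i, V.ψ.comp y, h', ?_⟩
  show spA (V.ψ.comp y) ≫ G.ι i = spA (V.ψ.comp U.ψ) ≫ f
  rw [spA_comp, spA_comp, Category.assoc, Category.assoc, h]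

end EGC2P

open EGC2P

theorem gC2 (h1 : S_GC1) (hH : S_NbHom) (hC : S_NbCov) (hPi : S_PiNb) (hPr : S_Prod) : S_GC2 := by
  intro F hP 𝒜 G
  choose cl hcl using h1 F hP 𝒜 G
  refine ⟨⟨G.M, G.π, G.lft, cl, fun B _ _ _ E => ovC hH hP (hcl B E),
    fun B B' _ _ _ _ _ _ φ E E' h => uniq hH hP (hcl B' E') (nat (hcl B E) h),
    fun B _ _ _ E1 E2 h => ?_, fun B _ _ _ f hf => ?_⟩⟩
  · choose U E' p1 p2 using loc_inj hP (hcl B E1) (h ▸ hcl B E2)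
    obtain ⟨m, ts, hcov, -, -⟩ := hC B U
    obtain ⟨𝓔, -, hu⟩ := hPr F m (fun i => (U (ts i)).A) fun i => E' (ts i)
    exact ⟨_, inferInstance, inferInstance, _, 𝓔, hcov, hu B _ _ fun i => p1 _,
      hu B _ _ fun i => p2 _⟩
  · choose U E' j y c e using loc_surj G f hf
    obtain ⟨m, ts, hcov, hft, -⟩ := hC B U
    obtain ⟨𝓔, hp, -⟩ := hPr F m (fun i => (U (ts i)).A) fun i => (E' (ts i)).toBundle
    obtain ⟨het, hpt⟩ := hPi m fun i => (U (ts i)).A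
    let 𝓕 : Family F (∀ i, (U (ts i)).A) := ⟨𝓔, fun p => by
      obtain ⟨i, p', rfl⟩ := hpt p
      obtain ⟨E0, k1, k2⟩ := (E' (ts i)).fibre p'
      exact ⟨E0, (hp i).comp k1, k2⟩⟩
    refine ⟨_, inferInstance, inferInstance, hft, _, 𝓕, hcov, hH _ _ _ _ fun p => ?_⟩
    obtain ⟨i, p', hp'⟩ := hpt p
    refine ⟨⟨(U (ts i)).A, Pi.evalAlgHom ℂ (fun i => (U (ts i)).A) i, het i, p', hp'⟩, ?_⟩
    have k := hcl _ 𝓕 _ _ (E' (ts i)) _ _ (hp i) (c (ts i))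
    refine k.trans ((e (ts i)).trans ?_)
    exact (congrArg (· ≫ f) (spA_comp (AlgHom.pi fun i => (U (ts i)).ψ)
      (Pi.evalAlgHom ℂ (fun i => (U (ts i)).A) i))).trans (Category.assoc _ _ _)

end Pool.Agent.P.MP_2b2d3b_ag
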