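import Pool.Agent.P.MP_2b2d3b_ag.Kn

/-!
Openness of good fibres, lifting of functionals, and the fibre of a frame.
-/

namespace Pool.Agent.P.MP_2b2d3b_ag

open MvPolynomial

namespace EGoodP

variable {F : Pol ℂ} {B : Type} [CommRing B] [Algebra ℂ B]

theorem spans_empty (E : Bundle F B) (j : ℕ) (s : Empty → E.M →ₗ[Pol B] Rq F B) :
    Spans E j s ↔ NoFun E j := by
  constructor
  · intro h s' hs'
    obtain ⟨c, hc⟩ := h s' hs'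
    ext u
    simpa using hc u
  · intro h s' hs'
    exact ⟨Empty.elim, fun u => by simp [h s' hs']⟩

theorem c2_tr {t : B →ₐ[ℂ] ℂ} {E : Bundle F B} {E1 E2 : Bundle F ℂ} (h1 : IsPull t E E1)
    (h2 : IsPull t E E2) (h : E1.HasC2) : E2.HasC2 := by
  filter_upwards [hfEq F B t E E1 E2 h1 h2, h] with d e1 e2
  rw [← e1]
  exact e2

/-- a neighbourhood with Serre data of the right length -/
theorem exists_rep (hP : S_Prim) (hR : S_RepFam) (hE : S_Ell) (hF : Hyp F)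
    [Algebra.FiniteType ℂ B] {E : Bundle F B} {t : B →ₐ[ℂ] ℂ} {E0 : Bundle F ℂ}
    (h0 : IsPull t E E0) (hG : Good E0) (D0 : ℕ) :
    ∃ i ≥ D0, ∃ (U : Nb B t) (E' : Bundle F U.A) (s' : _) (c D : ℕ) (Λ : _)
      (b : Fin (6 * i ^ 2 + 6 * i + 11) → Pol ℂ),
      IsPull U.ψ E E' ∧ Rep c E' (i + 1) s' Λ ∧ Gor' D Λ b := by
  obtain ⟨θ, hθ⟩ := h0.exists
  obtain ⟨i, hi, s, s0, h1, h2, h3, h4⟩ := hP F hF B E t E0 θ hθ D0
  obtain ⟨U, E', s', c, D, l, Λ, b, g1, g2, g3⟩ := hR F hF B E (i + 1) s t E0 θ s0 hθ h1 h2 h3 h4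
  obtain ⟨E2, θ2, h5⟩ := Kn.pull hF.rg U.p E'
  have h6 : IsPull t E E2 := by
    have := g1.comp h5.isPull
    rwa [U.comp] at this
  have hl := (hE F hF U.A E' c i D l s' Λ b U.p E2 g2 g3 h5.isPull).1 (c2_tr h0 h6 hG.2)
  subst hl
  exact ⟨i, hi, U, E', s', c, D, Λ, b, g1, g2, g3⟩

end EGoodP

open EGoodP

theorem goodO (hP : S_Prim) (hR : S_RepFam) (hE : S_Ell) (hI : S_NbImg) (hS : S_SpanO) :
    S_GoodO := by
  intro F hF B _ _ _ E t E0 h0 hG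
  obtain ⟨i, -, U, E', s', c, D, Λ, b, g1, g2, g3⟩ := exists_rep hP hR hE hF h0 hG 0
  obtain ⟨h2, ht2, H2⟩ := hI B t U
  obtain ⟨θ, hθ⟩ := h0.exists
  obtain ⟨h1, ht1, H1⟩ := hS F hF.rg B Empty E 0 Empty.elim t E0 Empty.elim
    (fun a => a.elim) ⟨θ, hθ, fun a => a.elim⟩ ((spans_empty _ _ _).2 hG.1)
  refine ⟨h1 * h2, by rw [map_mul]; exact mul_ne_zero ht1 ht2, fun t' E1 hh hE1 => ?_⟩
  rw [map_mul] at hh
  obtain ⟨θ1, hθ1⟩ := hE1.exists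
  refine ⟨(spans_empty E1 0 Empty.elim).1 (H1 ℂ t' E1 Empty.elim
    (IsUnit.mk0 _ (left_ne_zero_of_mul hh)) ⟨θ1, hθ1, fun a => a.elim⟩), ?_⟩
  obtain ⟨p', hp'⟩ := H2 t' (right_ne_zero_of_mul hh)
  obtain ⟨E3, θ3, h3⟩ := Kn.pull hF.rg p' E'
  have h4 : IsPull t' E E3 := by
    have := g1.comp h3.isPull
    rwa [hp'] at this
  exact c2_tr h4 hE1 ((hE F hF U.A E' c i D _ s' Λ b p' E3 g2 g3 h3.isPull).2 rfl)

theorem lift2 (hP : S_Prim) (hR : S_RepFam) (hE : S_Ell) (hT : S_FrTr) (hL : S_FunLift) :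
    S_Lift2 := by
  intro F hF B _ _ _ E t E0 k s0 hk h0 hG hS
  obtain ⟨i, hi, U, E', s', c, D, Λ, b, g1, g2, g3⟩ := exists_rep hP hR hE hF h0 hG (k + 1)
  refine ⟨U, E', g1, fun E1 θ hθ l1 hl1 => ?_⟩
  have h1 : IsPull t E E1 := by
    have := g1.comp hθ.isPull
    rwa [U.comp] at this
  obtain ⟨s1, hs1⟩ := (hT F hF.rg B ℂ _ t E E0 E1 (k + 1) s0 h0 h1).2 hS
  have hG1 : Good E1 := (Kn.hTr F hF).1 B t E E0 E1 h0 h1 hG
  exact hL F hF U.A E' c i D k s' Λ b U.p E1 θ s1 hk hi g2 g3 hθ hG1.1 hs1 l1 hl1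

theorem fibPt (h1 : S_FrPull) (h2 : S_FrSat) (h3 : S_FrSp) : S_FibPt := by
  intro F hF B n _ _ _ E k ω s Ω t E0 E1 ω0 s0 s1 hE hGD hE0 hS hG hFP
  obtain ⟨θ, hθ, hs⟩ := hFP
  obtain ⟨ω', s', f1, -, f3⟩ := h1 F hF.rg B ℂ n t E E1 θ (k + 1) ω s Ω hθ hE
  have e : s' = s1 := funext fun a => sub_eq_zero.1 (hθ.fun_zero hF.rg fun u => by
    rw [LinearMap.sub_apply, f3, hs, sub_self])
  subst e
  obtain ⟨N, ωN, sN, -, hN⟩ := h2 F hF.rg ℂ n k _ hGD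
  have a0 := hN E0 ω0 s0 hE0
  have a1 := hN E1 ω' s' f1
  exact ⟨(h3 F hF.rg ℂ n E1 N _ s' sN a1).2 ((h3 F hF.rg ℂ n E0 N _ s0 sN a0).1 hS),
    Kn.good_iso hF (a0.isPull.iso.trans a1.isPull.iso.symm) hG⟩

end Pool.Agent.P.MP_2b2d3b_ag
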