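import Pool.Agent.P.MP_2b2d3b_ag.StE

/-!
Idempotent matrices lift to an etale neighbourhood.
-/

namespace Pool.Agent.P.MP_2b2d3b_ag

open Polynomial

namespace EIdemP

/-- a coprime factorisation at a point lifts to an etale algebra -/
theorem fac0 {B : Type} [CommRing B] (t : B →+* ℂ) (p : B[X]) (hp : p.Monic) (f0 g0 : ℂ[X])
    (hf : f0.Monic) (hg : g0.Monic) (h : f0 * g0 = p.map t) (hc : IsCoprime f0 g0) :
    ∃ (A : Type) (_ : CommRing A) (_ : Algebra B A) (_ : Algebra.Etale B A) (φ : A →+* ℂ)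
      (f g : A[X]), φ.comp (algebraMap B A) = t ∧ f * g = p.map (algebraMap B A) ∧
        IsCoprime f g ∧ f.map φ = f0 ∧ g.map φ = g0 := by
  let : Algebra B ℂ := t.toAlgebra
  have hn : p.natDegree = f0.natDegree + g0.natDegree := by
    rw [← hf.natDegree_mul hg, h, hp.natDegree_map]
  let P : MonicDegreeEq B p.natDegree := .mk p hp rfl
  let F : MonicDegreeEq ℂ f0.natDegree := .mk f0 hf rfl
  let G : MonicDegreeEq ℂ g0.natDegree := .mk g0 hg rfl
  let A := UniversalCoprimeFactorizationRing f0.natDegree g0.natDegree hn P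
  let φ : A →ₐ[B] ℂ :=
    (UniversalCoprimeFactorizationRing.homEquiv ℂ _ _ hn P).symm ⟨(F, G), h, hc⟩
  have e : UniversalCoprimeFactorizationRing.homEquiv ℂ _ _ hn P (φ.comp (AlgHom.id B A)) =
      ⟨(F, G), h, hc⟩ := by
    rw [AlgHom.comp_id]
    exact Equiv.apply_symm_apply _ _
  have e1 := UniversalCoprimeFactorizationRing.homEquiv_comp_fst A _ _ hn P (AlgHom.id B A) φ
  have e2 := UniversalCoprimeFactorizationRing.homEquiv_comp_snd A _ _ hn P (AlgHom.id B A) φ
  rw [e] at e1 e2
  let q := UniversalCoprimeFactorizationRing.homEquiv A _ _ hn P (AlgHom.id B A)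
  refine ⟨A, inferInstance, inferInstance, inferInstance, φ.toRingHom, q.1.1.1, q.1.2.1,
    φ.comp_algebraMap, q.2.1, q.2.2, ?_, ?_⟩
  · exact (congrArg Subtype.val e1).symm
  · exact (congrArg Subtype.val e2).symm

/-- a coprime factorisation at a point lifts to an etale neighbourhood -/
theorem fac {B : Type} [CommRing B] [Algebra ℂ B] [Algebra.FiniteType ℂ B] (t : B →ₐ[ℂ] ℂ)
    (p : B[X]) (hp : p.Monic) (f0 g0 : ℂ[X]) (hf : f0.Monic) (hg : g0.Monic)
    (h : f0 * g0 = p.map (t : B →+* ℂ)) (hc : IsCoprime f0 g0) :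
    ∃ (U : Nb B t) (f g : U.A[X]), f * g = p.map (U.ψ : B →+* U.A) ∧ IsCoprime f g ∧
      f.map (U.p : U.A →+* ℂ) = f0 ∧ g.map (U.p : U.A →+* ℂ) = g0 := by
  obtain ⟨A, _, _, _, φ, f, g, h1, h2, h3, h4, h5⟩ := fac0 (t : B →+* ℂ) p hp f0 g0 hf hg h hc
  let : Algebra ℂ A := ((algebraMap B A).comp (algebraMap ℂ B)).toAlgebra
  have : IsScalarTower ℂ B A := IsScalarTower.of_algebraMap_eq fun _ => rfl
  have : Algebra.FiniteType ℂ A := Algebra.FiniteType.trans (S := B) inferInstance inferInstance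
  let φ' : A →ₐ[ℂ] ℂ :=
    { φ with
      commutes' := fun c => by
        have := RingHom.congr_fun h1 (algebraMap ℂ B c)
        exact this.trans (t.commutes c) }
  refine ⟨⟨A, IsScalarTower.toAlgHom ℂ B A, ?_, φ', ?_⟩, f, g, h2, h3, h4, h5⟩
  · exact RingHom.etale_algebraMap.2 inferInstance
  · ext b
    exact RingHom.congr_fun h1 b

/-- a polynomial with values `0`, `1` at `0`, `1` fixes idempotents -/
theorem aeval_idem {R : Type} [Ring R] [Algebra ℂ R] {e : R} (he : IsIdempotentElem e)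
    {r : ℂ[X]} (h0 : r.eval 0 = 0) (h1 : r.eval 1 = 1) : aeval e r = e := by
  have d0 : X ∣ r - X := by
    rw [X_dvd_iff, coeff_zero_eq_eval_zero]
    simp [h0]
  obtain ⟨s, hs⟩ := d0
  have d1 : X - C 1 ∣ s := by
    rw [dvd_iff_isRoot]
    have := congrArg (eval 1) hs
    simpa [h1] using this.symm
  obtain ⟨s', rfl⟩ := d1
  have := congrArg (aeval e) hs
  rw [← mul_assoc, map_mul, map_mul, map_sub, map_sub, aeval_X, aeval_C, map_one, mul_sub,
    he.eq, mul_one, sub_self, zero_mul] at this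
  exact sub_eq_zero.1 this

theorem map_aeval {A A' m : Type} [CommRing A] [CommRing A'] [Fintype m] [DecidableEq m]
    (φ : A →+* A') (x : Matrix m m A) (q : A[X]) :
    (aeval x q).map φ = aeval (x.map φ) (q.map φ) := by
  induction q using Polynomial.induction_on' with
  | add p q hp hq => rw [map_add, Polynomial.map_add, map_add, ← hp, ← hq, Matrix.map_add _ (map_add φ)]
  | monomial n a =>
    rw [Polynomial.map_monomial, aeval_monomial, aeval_monomial, Matrix.map_mul, Matrix.map_pow]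
    congr 1
    ext i j
    simp [Matrix.algebraMap_matrix_apply, apply_ite φ]

end EIdemP

open EIdemP in
theorem idem : S_Idem := by
  intro B m _ _ _ _ _ x t hx
  have hm : (X * (X - C 1) * x.charpoly : B[X]).Monic :=
    (monic_X.mul (monic_X_sub_C 1)).mul x.charpoly_monic
  have hm0 := hm.map (t : B →+* ℂ)
  obtain ⟨g0, h1, h2⟩ := exists_eq_pow_rootMultiplicity_mul_and_not_dvd _ hm0.ne_zero 0
  set a := rootMultiplicity 0 ((X * (X - C 1) * x.charpoly : B[X]).map (t : B →+* ℂ))
  rw [C_0, sub_zero] at h1 h2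
  have hf : (X ^ a : ℂ[X]).Monic := monic_X_pow a
  have hg : g0.Monic := hf.of_mul_monic_left (h1 ▸ hm0)
  have hc : IsCoprime (X ^ a : ℂ[X]) g0 := (irreducible_X.coprime_iff_not_dvd.2 h2).pow_left
  have hg0 : g0.eval 0 ≠ 0 := by rwa [X_dvd_iff, coeff_zero_eq_eval_zero] at h2
  have hf0 : (X ^ a : ℂ[X]).eval 0 = 0 := by
    have := congrArg (eval 0) h1
    rw [eval_mul] at this
    refine (mul_eq_zero.1 (this.symm.trans ?_)).resolve_right hg0
    simp
  have hg1 : g0.eval 1 = 0 := by
    have := congrArg (eval 1) h1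
    simpa using this.symm
  obtain ⟨U, f, g, k1, ⟨u, v, k2⟩, k3, k4⟩ := fac t _ hm _ g0 hf hg h1.symm hc
  refine ⟨U, u * f, ?_, ?_⟩
  · have e : (u * f) * (u * f) = u * f - u * v * (f * g) := by linear_combination (u * f) * k2
    have z : aeval (x.map U.ψ) (f * g) = 0 := by
      have := Matrix.aeval_self_charpoly (x.map (U.ψ : B →+* U.A))
      rw [Matrix.charpoly_map] at this
      rw [k1, Polynomial.map_mul, map_mul]
      exact mul_eq_zero_of_right _ this
    rw [IsIdempotentElem, ← map_mul, e, map_sub, map_mul _ (u * v), z, mul_zero, sub_zero]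
  · have e : (x.map U.ψ).map (U.p : U.A →+* ℂ) = x.map t := by
      ext i j
      exact U.p_ψ _
    have := map_aeval (U.p : U.A →+* ℂ) (x.map U.ψ) (u * f)
    rw [e] at this
    refine this.trans (aeval_idem hx ?_ ?_)
    · rw [Polynomial.map_mul, k3, eval_mul, hf0, mul_zero]
    · have k5 := congrArg (fun r => eval 1 (r.map (U.p : U.A →+* ℂ))) k2
      simp only [Polynomial.map_add, Polynomial.map_mul, k4, eval_add, eval_mul, hg1, mul_zero,
        add_zero, Polynomial.map_one, eval_one] at k5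
      rw [Polynomial.map_mul, eval_mul]
      exact k5

end Pool.Agent.P.MP_2b2d3b_ag
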