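import Pool.Agent.P.MP_2b2d3b_ag.StE

/-!
Linear algebra near a complex point.
-/

namespace Pool.Agent.P.MP_2b2d3b_ag

open MvPolynomial Matrix

namespace ELinP

theorem ginv {K : Type} [Field K] {m n : Type} [Fintype m] [Fintype n] (Φ : Matrix m n K) :
    ∃ Ψ : Matrix n m K, Φ * Ψ * Φ = Φ := by
  classical
  let f := Matrix.toLin' Φ
  obtain ⟨s, hs⟩ := f.rangeRestrict.exists_rightInverse_of_surjective f.range_rangeRestrict
  obtain ⟨g, hg⟩ := LinearMap.exists_extend s
  refine ⟨LinearMap.toMatrix' g, Matrix.toLin'.injective ?_⟩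
  rw [Matrix.toLin'_mul, Matrix.toLin'_mul, Matrix.toLin'_toMatrix']
  refine LinearMap.ext fun x => ?_
  have h1 := LinearMap.congr_fun hg ⟨f x, LinearMap.mem_range_self f x⟩
  have h2 := congrArg Subtype.val (LinearMap.congr_fun hs ⟨f x, LinearMap.mem_range_self f x⟩)
  simp only [LinearMap.comp_apply, Submodule.subtype_apply] at h1 h2 ⊢
  change f (g (f x)) = f x
  rw [h1]
  exact h2

theorem key {R l m n : Type} [CommRing R] [Fintype l] [Fintype m] [Fintype n] [DecidableEq m]
    (V : Matrix m l R) (Φ : Matrix n m R) (C0 : Matrix l m R) (D0 : Matrix m n R)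
    (h : Φ * V = 0) : ∃ Q : Matrix m m R, ∀ y, Φ.mulVec y = 0 →
      V.mulVec (C0.mulVec (Q.mulVec y)) = (V * C0 + D0 * Φ).det • y := by
  set T := V * C0 + D0 * Φ with hT
  have h1 : ∀ y, Φ.mulVec y = 0 → T.mulVec y = V.mulVec (C0.mulVec y) := by
    intro y hy
    rw [hT, add_mulVec, ← mulVec_mulVec, ← mulVec_mulVec, hy, mulVec_zero, add_zero]
  have h2 : ∀ (k : ℕ) y, Φ.mulVec y = 0 → Φ.mulVec ((T ^ k).mulVec y) = 0 := by
    intro k
    induction k with
    | zero => intro y hy; rwa [pow_zero, one_mulVec]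
    | succ k ih =>
      intro y hy
      rw [pow_succ', ← mulVec_mulVec, h1 _ (ih y hy), mulVec_mulVec, h, zero_mulVec]
  have h3 : ∀ (p : Polynomial R) y, Φ.mulVec y = 0 →
      Φ.mulVec ((Polynomial.aeval T p).mulVec y) = 0 := by
    intro p
    induction p using Polynomial.induction_on' with
    | add p q hp hq =>
      intro y hy
      rw [map_add, add_mulVec, mulVec_add, hp y hy, hq y hy, add_zero]
    | monomial k a =>
      intro y hy
      rw [Polynomial.aeval_monomial, ← Algebra.smul_def, smul_mulVec, mulVec_smul, h2 k y hy,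
        smul_zero]
  have h4 : T * Polynomial.aeval T T.charpoly.divX = -(T.charpoly.coeff 0 • (1 : Matrix m m R)) := by
    have h5 := Matrix.aeval_self_charpoly T
    rw [← Polynomial.X_mul_divX_add T.charpoly, map_add, map_mul, Polynomial.aeval_X,
      Polynomial.aeval_C, Algebra.algebraMap_eq_smul_one] at h5
    exact eq_neg_of_add_eq_zero_left h5
  refine ⟨(-(-1 : R) ^ Fintype.card m) • Polynomial.aeval T T.charpoly.divX, fun y hy => ?_⟩
  rw [smul_mulVec, mulVec_smul, mulVec_smul, ← h1 _ (h3 _ y hy), mulVec_mulVec, h4,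
    Matrix.det_eq_sign_charpoly_coeff, neg_mulVec, smul_mulVec, one_mulVec, smul_neg, neg_smul,
    neg_neg, smul_smul]

theorem map_comp {B B' : Type} [CommRing B] [CommRing B'] (φ : B →+* B') (D : ℕ) (b : Pol B) :
    map φ (homogeneousComponent D b) = homogeneousComponent D (map φ b) := by
  ext m
  simp only [coeff_map, coeff_homogeneousComponent]
  split_ifs
  · rfl
  · exact map_zero φ

end ELinP

theorem linA : S_LinA := by
  intro B l m n _ _ _ _ _ V Φ t hV hk
  classical
  obtain ⟨Ψ, hΨ⟩ := ELinP.ginv (Φ.map t)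
  have hcol : ∀ j : m, ∃ c : l → ℂ,
      (1 - Ψ * Φ.map t).mulVec (Pi.single j 1) = (V.map t).mulVec c := fun j =>
    hk _ (by rw [mulVec_mulVec, Matrix.mul_sub, Matrix.mul_one, ← Matrix.mul_assoc, hΨ, sub_self,
      zero_mulVec])
  choose c hc using hcol
  let C0 : Matrix l m ℂ := Matrix.of fun a j => c j a
  have hC : V.map t * C0 + Ψ * Φ.map t = 1 := by
    have : V.map t * C0 = 1 - Ψ * Φ.map t := by
      ext i j
      have := congrFun (hc j) i
      rw [mulVec_single_one] at this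
      exact this.symm
    rw [this, sub_add_cancel]
  let C1 : Matrix l m B := C0.map (Algebra.ofId ℂ B)
  let D1 : Matrix m n B := Ψ.map (Algebra.ofId ℂ B)
  have hmap : ∀ (B1 : Type) [CommRing B1] [Algebra ℂ B1] (τ : B →ₐ[ℂ] B1),
      τ (V * C1 + D1 * Φ).det = (V.map τ * C1.map τ + D1.map τ * Φ.map τ).det := by
    intro B1 _ _ τ
    rw [← det_map_alg, Matrix.map_add _ (map_add τ), Matrix.map_mul, Matrix.map_mul]
  have hC1 : C1.map t = C0 := by
    ext a j
    simp [C1]
  have hD1 : D1.map t = Ψ := by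
    ext a j
    simp [D1]
  have hdet : t (V * C1 + D1 * Φ).det = 1 := by
    rw [hmap ℂ t, hC1, hD1, hC, det_one]
  refine ⟨⟨(V * C1 + D1 * Φ).det, by rw [hdet]; exact one_ne_zero, ?_⟩, ?_⟩
  · intro B1 _ _ τ hu y hy
    obtain ⟨Q, hQ⟩ := ELinP.key (V.map τ) (Φ.map τ) (C1.map τ) (D1.map τ) (by
      rw [← Matrix.map_mul, hV, Matrix.map_zero _ (map_zero τ)])
    obtain ⟨u, hu⟩ := hu
    refine ⟨(↑u⁻¹ : B1) • (C1.map τ).mulVec (Q.mulVec y), ?_⟩
    rw [mulVec_smul, hQ y hy, ← hmap B1 τ, ← hu, smul_smul, Units.inv_mul, one_smul]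
  · intro v0 hv0
    obtain ⟨Q, hQ⟩ := ELinP.key V Φ C1 D1 hV
    let v1 : l → B := fun a => algebraMap ℂ B (v0 a)
    have hv1 : t ∘ v1 = v0 := by
      funext a
      simp [v1]
    have hm : ∀ {a b : Type} [Fintype b] (M : Matrix a b B) (x : b → B),
        t ∘ M.mulVec x = (M.map t).mulVec (t ∘ x) := by
      intro a b _ M x
      funext i
      simp [mulVec, dotProduct]
    refine ⟨(V * C1 + D1 * Φ).det • v1 - C1.mulVec (Q.mulVec (V.mulVec v1)), ?_, ?_⟩
    · rw [mulVec_sub, hQ _ (by rw [mulVec_mulVec, hV, zero_mulVec]), mulVec_smul, sub_self]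
    · have h1 : t ∘ C1.mulVec (Q.mulVec (V.mulVec v1)) = 0 := by
        rw [hm, hm, hm, hv1, hv0, mulVec_zero, mulVec_zero]
      funext a
      have h2 := congrFun h1 a
      have h3 := congrFun hv1 a
      simp only [Function.comp_apply, Pi.zero_apply] at h2 h3
      simp only [Function.comp_apply, Pi.sub_apply, Pi.smul_apply, smul_eq_mul, map_sub, map_mul,
        hdet, h2, h3, one_mul, sub_zero]

theorem nak : S_Nak := by
  intro B _ _ t D
  classical
  have h1 : ∀ N : Submodule B (Pol B), (∀ a : Pol ℂ, a.IsHomogeneous D →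
        ∃ a' ∈ N, a'.IsHomogeneous D ∧ map (t : B →+* ℂ) a' = a) →
      ∃ h : B, t h ≠ 0 ∧ ∀ a : Pol B, a.IsHomogeneous D → C h * a ∈ N := by
    intro N hN
    choose a' ha1 ha2 ha3 using fun m : Mon D =>
      hN (monomial m.1 1) (isHomogeneous_monomial _ m.2)
    let M : Matrix (Mon D) (Mon D) B := Matrix.of fun m m' => coeff m'.1 (a' m)
    have hM : M.map t = 1 := by
      ext m m'
      have := congrArg (coeff m'.1) (ha3 m)
      rw [coeff_map, coeff_monomial] at this
      rw [Matrix.one_apply]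
      refine Eq.trans this ?_
      simp only [Subtype.ext_iff]
    refine ⟨M.det, by rw [← det_map_alg, hM, det_one]; exact one_ne_zero, fun a ha => ?_⟩
    let c : Mon D → B := fun m => coeff m.1 a
    have h2 : M.det • c = ∑ m, (c ᵥ* M.adjugate) m • M m := by
      rw [← vecMul_eq_sum, vecMul_vecMul, adjugate_mul, vecMul_smul, vecMul_one]
    have h3 : C M.det * a = formL B D (M.det • c) := by
      change _ = form (M.det • c)
      rw [form_smul, form_coeff ha]
    rw [h3, h2, map_sum]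
    refine N.sum_mem fun m _ => ?_
    rw [map_smul]
    refine N.smul_mem _ ?_
    have h4 : formL B D (M m) = a' m := form_coeff (ha2 m)
    rw [h4]
    exact ha1 m
  refine ⟨h1, fun I hI hm => h1 (I.restrictScalars B) fun a ha => ?_⟩
  have hs : Function.Surjective (map (t : B →+* ℂ) : Pol B →+* Pol ℂ) :=
    map_surjective _ fun z => ⟨algebraMap ℂ B z, t.commutes z⟩
  obtain ⟨b, hb, hba⟩ := (Ideal.mem_map_iff_of_surjective _ hs).1 (hm a ha)
  refine ⟨homogeneousComponent D b, hI b hb D, homogeneousComponent_isHomogeneous D b, ?_⟩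
  rw [ELinP.map_comp, hba, homogeneousComponent_eq_self ha]

theorem unit : S_Unit := by
  intro F hF B n _ _ d Ω t hΩ hN
  let I : Ideal (Pol B) := Ideal.span ({bc F B} ∪ Set.range fun p : n × n => Ω p.1 p.2)
  have hFI : bc F B ∈ I := Ideal.subset_span (Or.inl rfl)
  have hΩI : ∀ i j, Ω i j ∈ I := fun i j => Ideal.subset_span (Or.inr ⟨(i, j), rfl⟩)
  have hI : HomI I := by
    intro b hb e
    refine comp_mem_span ?_ hb e
    rintro x (rfl | ⟨p, rfl⟩)
    · exact ⟨6, hF.map _⟩
    · exact ⟨d, hΩ _ _⟩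
  have hp : ∀ i : Fin 4, ∃ k : ℕ, (X i : Pol ℂ) ^ k ∈ I.map (map (t : B →+* ℂ)) := by
    intro i
    refine exists_pow_mem _ _ fun q hq hi => ?_
    by_cases hFq : bc F ℂ ∈ q
    · obtain ⟨a, b, hab⟩ := hN q hq hFq ⟨i, hi⟩
      exact ⟨_, Ideal.mem_map_of_mem _ (hΩI a b), hab⟩
    · exact ⟨_, Ideal.mem_map_of_mem _ hFI, by rwa [map_map_alg]⟩
  choose k hk using hp
  obtain ⟨h, ht, hh⟩ := (nak B t (4 * Finset.univ.sup k)).2 I hI fun a ha => by
    refine (Ideal.span_le.2 ?_ : _ ≤ I.map (map (t : B →+* ℂ))) (hom_mem_pow ha le_rfl)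
    rintro _ ⟨i, rfl⟩
    exact Ideal.pow_mem_of_pow_mem _ (hk i) (Finset.le_sup (Finset.mem_univ i))
  refine ⟨h, ht, fun B1 _ _ τ hu q hq hFq ⟨i, hi⟩ => ?_⟩
  by_contra hn
  push Not at hn
  have hle : I ≤ q.comap (map (τ : B →+* B1)) := by
    refine Ideal.span_le.2 ?_
    rintro x (rfl | ⟨p, rfl⟩)
    · change map (τ : B →+* B1) (bc F B) ∈ q
      rwa [map_map_alg]
    · exact hn p.1 p.2
  have h1 := hle (hh (X i ^ (4 * Finset.univ.sup k)) (by
    simpa using (isHomogeneous_X B i).pow (4 * Finset.univ.sup k)))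
  rw [Ideal.mem_comap, map_mul, map_C, map_pow, map_X] at h1
  rcases hq.mem_or_mem h1 with h2 | h2
  · exact hq.ne_top (Ideal.eq_top_of_isUnit_mem _ h2 (hu.map C))
  · exact hi (hq.mem_of_pow_mem _ h2)

end Pool.Agent.P.MP_2b2d3b_ag
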