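import Pool.Agent.P.MP_2b2d3b_ag.StE

/-!
Package MEx: structure constants of a basis of words, the regular representation, and invariance
under change of frame.
-/

namespace Pool.Agent.P.MP_2b2d3b_ag

open Matrix Module

namespace EMExP

variable {B n : Type} [CommRing B] [Fintype n] [DecidableEq n]

omit [DecidableEq n] in
theorem comb_apply (W : n × n → Matrix n n B) (c : n × n → B) (q : n × n) :
    (∑ p, c p • W p) q.1 q.2 = (c ᵥ* Matrix.of fun p q : n × n => W p q.1 q.2) q := by
  simp [Matrix.sum_apply, Matrix.vecMul, dotProduct]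

theorem exists_basis (W : n × n → Matrix n n B)
    (h : IsUnit (Matrix.of fun p q : n × n => W p q.1 q.2).det) :
    ∃ b : Basis (n × n) B (Matrix n n B), ∀ p, b p = W p := by
  have hu := (Matrix.isUnit_iff_isUnit_det _).2 h
  have h1 : LinearIndependent B W := by
    rw [Fintype.linearIndependent_iff]
    intro c hc
    have h0 : (c ᵥ* Matrix.of fun p q : n × n => W p q.1 q.2) =
        (0 : n × n → B) ᵥ* Matrix.of fun p q : n × n => W p q.1 q.2 := by
      funext q
      rw [← comb_apply, hc, Matrix.zero_vecMul]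
      rfl
    exact congrFun (Matrix.vecMul_injective_of_isUnit hu h0)
  have h2 : ⊤ ≤ Submodule.span B (Set.range W) := by
    intro x _
    obtain ⟨c, hc⟩ := Matrix.vecMul_surjective_iff_isUnit.2 hu fun q => x q.1 q.2
    rw [Submodule.mem_span_range_iff_exists_fun]
    refine ⟨c, ?_⟩
    ext a b
    exact (comb_apply W c (a, b)).trans (congrFun hc (a, b))
  exact ⟨Basis.mk h1 h2, fun p => Basis.mk_apply h1 h2 p⟩

theorem unit_of_span (W : n × n → Matrix n n B) (h : ∀ x, ∃ c : n × n → B, ∑ p, c p • W p = x) :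
    IsUnit (Matrix.of fun p q : n × n => W p q.1 q.2).det := by
  rw [← Matrix.isUnit_iff_isUnit_det, ← Matrix.vecMul_surjective_iff_isUnit]
  intro y
  obtain ⟨c, hc⟩ := h (Matrix.of fun a b => y (a, b))
  refine ⟨c, funext fun q => ?_⟩
  have := comb_apply W c q
  rw [hc] at this
  exact this.symm

omit [DecidableEq n] in
theorem repr_eq (b : Basis (n × n) B (Matrix n n B)) {c : n × n → B} {x : Matrix n n B}
    (h : ∑ p, c p • b p = x) (q : n × n) : b.repr x q = c q := by
  rw [← h, b.repr_sum_self]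

theorem trace_lmul (b : Basis (n × n) B (Matrix n n B)) (x : Matrix n n B) :
    (Algebra.leftMulMatrix b x).trace = (Fintype.card n : B) * x.trace := by
  have h1 : (Algebra.leftMulMatrix b x).trace =
      (Algebra.leftMulMatrix (Matrix.stdBasis B n n) x).trace := by
    rw [Algebra.leftMulMatrix_apply, Algebra.leftMulMatrix_apply,
      ← LinearMap.trace_eq_matrix_trace, ← LinearMap.trace_eq_matrix_trace]
  have h2 : ∀ (y : Matrix n n B) (q : n × n), (Matrix.stdBasis B n n).repr y q = y q.1 q.2 := by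
    intro y q
    apply repr_eq
    ext a b
    simp [Matrix.sum_apply, Fintype.sum_prod_type, Matrix.stdBasis_eq_single, Matrix.single_apply,
      ite_and]
  rw [h1, Matrix.trace, Fintype.sum_prod_type]
  have h3 : ∀ i j, (Algebra.leftMulMatrix (Matrix.stdBasis B n n) x).diag (i, j) = x i i := by
    intro i j
    rw [Matrix.diag_apply, Algebra.leftMulMatrix_eq_repr_mul, h2, Matrix.stdBasis_eq_single]
    simp
  simp only [h3, Finset.sum_const, Finset.card_univ, nsmul_eq_mul, Matrix.trace, Matrix.diag_apply,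
    Finset.mul_sum]

theorem wd_conj {Ψ : Type} (A : Ψ → Matrix n n B) (g g' : Matrix n n B) (h1 : g * g' = 1)
    (h2 : g' * g = 1) (l : List Ψ) : wd (fun ψ => g' * A ψ * g) l = g' * wd A l * g := by
  induction l with
  | nil => rw [wd_nil, wd_nil, mul_one, h2]
  | cons ψ l ih =>
    rw [wd_cons, wd_cons, ih]
    calc g' * A ψ * g * (g' * wd A l * g) = g' * A ψ * (g * g') * wd A l * g := by
          simp only [mul_assoc]
      _ = _ := by simp only [h1, mul_one, mul_assoc]

theorem bs_conj {Ψ : Type} {w : n × n → List Ψ} {A : Ψ → Matrix n n B}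
    {L : Ψ → Matrix (n × n) (n × n) B} {e : n × n → B} (h : Bs w A L e) (g g' : Matrix n n B)
    (h1 : g * g' = 1) (h2 : g' * g = 1) : Bs w (fun ψ => g' * A ψ * g) L e := by
  have hs : ∀ c : n × n → B, ∑ p, c p • wd (fun ψ => g' * A ψ * g) (w p) =
      g' * (∑ p, c p • wd A (w p)) * g := by
    intro c
    simp only [wd_conj A g g' h1 h2, Matrix.mul_sum, Matrix.sum_mul, Matrix.mul_smul,
      Matrix.smul_mul]
  refine ⟨unit_of_span _ fun x => ?_, fun ψ p => ?_, ?_⟩
  · obtain ⟨b, hb⟩ := exists_basis (fun p => wd A (w p)) h.bas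
    refine ⟨b.repr (g * x * g'), ?_⟩
    have := b.sum_repr (g * x * g')
    simp only [hb] at this
    rw [hs, this]
    calc g' * (g * x * g') * g = g' * g * x * (g' * g) := by simp only [mul_assoc]
      _ = x := by rw [h2, one_mul, mul_one]
  · rw [hs, ← h.mul, wd_conj A g g' h1 h2]
    calc g' * A ψ * g * (g' * wd A (w p) * g) = g' * A ψ * (g * g') * wd A (w p) * g := by
          simp only [mul_assoc]
      _ = _ := by simp only [h1, mul_one, mul_assoc]
  · rw [hs, h.one, mul_one, h2]

end EMExP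

open EMExP

theorem mEx : S_MEx := by
  intro B Ψ n _ _ _ w A
  refine ⟨fun h => ?_, fun L e L' e' h h' => ?_⟩
  · obtain ⟨b, hb⟩ := exists_basis (fun p => wd A (w p)) h
    refine ⟨fun ψ => Matrix.of fun q p => b.repr (A ψ * wd A (w p)) q, b.repr 1, h,
      fun ψ p => ?_, ?_⟩
    · have := b.sum_repr (A ψ * wd A (w p))
      simp only [hb] at this
      exact this.symm
    · have := b.sum_repr 1
      simp only [hb] at this
      exact this
  · obtain ⟨b, hb⟩ := exists_basis (fun p => wd A (w p)) h.bas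
    have key : ∀ (c : n × n → B) (x : Matrix n n B), ∑ p, c p • wd A (w p) = x →
        ∀ q, b.repr x q = c q := fun c x hc => repr_eq b (by simpa only [hb] using hc)
    constructor
    · funext ψ
      ext q p
      exact (key _ _ (h.mul ψ p).symm q).symm.trans (key _ _ (h'.mul ψ p).symm q)
    · funext q
      exact (key _ _ h.one q).symm.trans (key _ _ h'.one q)

theorem regRep : S_RegRep := by
  intro B Ψ n _ _ _ w A L e h
  obtain ⟨b, hb⟩ := exists_basis (fun p => wd A (w p)) h.bas
  have key : ∀ (c : n × n → B) (x : Matrix n n B), ∑ p, c p • wd A (w p) = x →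
      ∀ q, b.repr x q = c q := fun c x hc => repr_eq b (by simpa only [hb] using hc)
  refine ⟨Algebra.leftMulMatrix b, Algebra.leftMulMatrix_injective b, fun ψ => ?_, fun x => ?_,
    fun c hc => ?_, trace_lmul b⟩
  · ext q p
    rw [Algebra.leftMulMatrix_eq_repr_mul, hb]
    exact key _ _ (h.mul ψ p).symm q
  · have he : e = b.repr 1 := funext fun q => (key _ _ h.one q).symm
    have := b.sum_repr x
    simp only [hb] at this
    rw [he, Algebra.leftMulMatrix_mulVec_repr, mul_one]
    exact this
  · funext q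
    rw [← key c 0 hc q]
    simp

theorem mConj : S_MConj := by
  intro B Ψ n _ _ _ _ _ φ w G L e g κ h hu
  have halt : ∀ ψ, (cj g κ G ψ)ᵀ = -cj g κ G ψ := by
    intro ψ
    simp only [cj, Matrix.transpose_smul, Matrix.transpose_mul, Matrix.transpose_transpose,
      h.alt ψ, Matrix.neg_mul, Matrix.mul_neg, smul_neg, Matrix.mul_assoc]
  refine ⟨halt, hu, ?_⟩
  have hu' := hu
  rw [Hm_cj, Matrix.det_smul, Matrix.det_mul, Matrix.det_mul] at hu'
  have hg : IsUnit g.det := isUnit_of_mul_isUnit_right (isUnit_of_mul_isUnit_right hu')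
  have hA : Am φ (cj g κ G) = fun ψ => g⁻¹ * Am φ G ψ * g := by
    funext ψ
    have h1 : Hm φ (cj g κ G) * (g⁻¹ * Am φ G ψ * g) = cj g κ G ψ := by
      rw [Hm_cj, Am, cj, Matrix.smul_mul]
      congr 1
      calc gᵀ * Hm φ G * g * (g⁻¹ * ((Hm φ G)⁻¹ * G ψ) * g)
          = gᵀ * (Hm φ G * (g * g⁻¹) * (Hm φ G)⁻¹) * G ψ * g := by simp only [Matrix.mul_assoc]
        _ = _ := by
          rw [Matrix.mul_nonsing_inv _ hg, Matrix.mul_one, Matrix.mul_nonsing_inv _ h.unit,
            Matrix.mul_one]
    rw [Am, ← h1, ← Matrix.mul_assoc, Matrix.nonsing_inv_mul _ hu, Matrix.one_mul]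
  rw [hA]
  exact bs_conj h.bs g g⁻¹ (Matrix.mul_nonsing_inv _ hg) (Matrix.nonsing_inv_mul _ hg)

end Pool.Agent.P.MP_2b2d3b_ag
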