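import Pool.Agent.P.MP_2b2d3b_ag.StE

/-!
Local Skolem-Noether, and two systems of forms with the same invariants are locally conjugate.
-/

namespace Pool.Agent.P.MP_2b2d3b_ag

open MvPolynomial Matrix

namespace EMIsoP

variable {B : Type} [CommRing B] [Algebra ℂ B] {Ψ n : Type} [Fintype n] [DecidableEq n]

omit [DecidableEq n] in
theorem map_mul' (t : B →ₐ[ℂ] ℂ) (x y : Matrix n n B) : (x * y).map t = x.map t * y.map t :=
  Matrix.map_mul

omit [Algebra ℂ B] in
/-- the algebra map that identifies two systems with the same structure constants -/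
theorem exists_tau (hR : S_RegRep) {w : n × n → List Ψ} {A A' : Ψ → Matrix n n B} {L e}
    (h : Bs w A L e) (h' : Bs w A' L e) :
    ∃ τ : Matrix n n B →ₐ[B] Matrix n n B, ∀ ψ, τ (A' ψ) = A ψ := by
  obtain ⟨lam, hi, h1, -, -, -⟩ := hR B Ψ n w A L e h
  obtain ⟨lam', -, h1', h2', -, -⟩ := hR B Ψ n w A' L e h'
  have hw : ∀ l, lam (wd A l) = lam' (wd A' l) := fun l => by
    induction l with
    | nil => simp [wd_nil]
    | cons ψ l ih => rw [wd_cons, wd_cons, map_mul, map_mul, ih, h1, h1']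
  have hr : ∀ x, ∃ y, lam y = lam' x := fun x => ⟨∑ p, (lam' x).mulVec e p • wd A (w p), by
    conv_rhs => rw [← h2' x]
    simp only [map_sum, map_smul, hw]⟩
  choose f hf using hr
  exact ⟨{ toFun := f
           map_one' := hi (by simp [hf])
           map_mul' := fun x y => hi (by simp [hf])
           map_zero' := hi (by simp [hf])
           map_add' := fun x y => hi (by simp [hf])
           commutes' := fun c => hi (by simp [hf]) }, fun ψ => hi ((hf _).trans (by rw [h1, h1']))⟩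

omit [Fintype n] [DecidableEq n] in
theorem Hm_alt [Fintype Ψ] (φ : Ψ → ℂ) {G : Ψ → Matrix n n B} (h : ∀ ψ, (G ψ)ᵀ = -G ψ) :
    (Hm φ G)ᵀ = -Hm φ G := by
  simp only [Hm, transpose_sum, transpose_smul, h, smul_neg, Finset.sum_neg_distrib]

omit [Algebra ℂ B] [DecidableEq n] in
theorem adj {X A : Matrix n n B} (h : Xᵀ = -X) (h' : (X * A)ᵀ = -(X * A)) : Aᵀ * X = X * A := by
  rw [transpose_mul, h, mul_neg] at h'
  exact neg_injective h'

theorem key [Fintype Ψ] [Nonempty n] (hR : S_RegRep) {φ : Ψ → ℂ} {w : n × n → List Ψ}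
    {G G' : Ψ → Matrix n n B} {L e} (h : Inv φ w G L e) (h' : Inv φ w G' L e) {g : Matrix n n B}
    (hg : IsUnit g.det) (hA : ∀ ψ, Am φ G ψ * g = g * Am φ G' ψ) :
    ∃ κ, IsUnit κ ∧ G' = cj g κ G := by
  set X := gᵀ * Hm φ G * g with hX
  have uX : IsUnit X.det := by
    rw [hX, det_mul, det_mul, det_transpose]
    exact (hg.mul h.unit).mul hg
  have e1 : ∀ ψ, Hm φ G' * Am φ G' ψ = G' ψ := fun ψ => mul_nonsing_inv_cancel_left _ _ h'.unit
  have e2 : ∀ ψ, X * Am φ G' ψ = gᵀ * G ψ * g := fun ψ => by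
    rw [hX, mul_assoc, ← hA, ← mul_assoc, mul_assoc gᵀ, Am, mul_nonsing_inv_cancel_left _ _ h.unit]
  have a0 : ∀ {Y : Matrix n n B}, Yᵀ = -Y → (gᵀ * Y * g)ᵀ = -(gᵀ * Y * g) := fun hY => by
    simp only [transpose_mul, transpose_transpose, hY, neg_mul, mul_neg, mul_assoc]
  have a1 : ∀ ψ, (Am φ G' ψ)ᵀ * Hm φ G' = Hm φ G' * Am φ G' ψ := fun ψ =>
    adj (Hm_alt φ h'.alt) (by rw [e1, h'.alt])
  have a2 : ∀ ψ, (Am φ G' ψ)ᵀ * X = X * Am φ G' ψ := fun ψ =>
    adj (a0 (Hm_alt φ h.alt)) (by rw [e2]; exact a0 (h.alt ψ))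
  have c1 : ∀ ψ, Commute (Am φ G' ψ) (X⁻¹ * Hm φ G') := fun ψ => by
    have : Am φ G' ψ * X⁻¹ = X⁻¹ * (Am φ G' ψ)ᵀ := by
      rw [← nonsing_inv_mul_cancel_left X (Am φ G' ψ * X⁻¹) uX, ← mul_assoc X, ← a2,
        mul_nonsing_inv_cancel_right _ _ uX]
    rw [Commute, SemiconjBy, ← mul_assoc, this, mul_assoc, a1, mul_assoc]
  have c2 : ∀ l, Commute (wd (Am φ G') l) (X⁻¹ * Hm φ G') := fun l => by
    induction l with
    | nil => exact Commute.one_left _
    | cons ψ l ih => rw [wd_cons]; exact (c1 ψ).mul_left ih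
  obtain ⟨lam', -, -, h2', -, -⟩ := hR B Ψ n w _ L e h'.bs
  obtain ⟨κ, hκ⟩ := mem_range_scalar_of_commute_single (M := X⁻¹ * Hm φ G') fun i j _ => by
    show Commute (single i j 1) _
    rw [← h2' (single i j 1)]
    exact Commute.sum_left _ _ _ fun p _ => (c2 _).smul_left _
  have e3 : Hm φ G' = κ • X := by
    rw [← mul_nonsing_inv_cancel_left X (Hm φ G') uX, ← hκ, scalar_apply,
      ← smul_eq_mul_diagonal]
  refine ⟨κ, ?_, funext fun ψ => ?_⟩
  · have := h'.unit
    rw [e3, det_smul] at this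
    exact (isUnit_pow_iff Fintype.card_ne_zero).1 (isUnit_of_mul_isUnit_left this)
  · rw [← e1, e3, smul_mul_assoc, e2, cj]

end EMIsoP

open EMIsoP

theorem sN : S_SN := by
  intro B n _ _ _ _ τ t
  cases isEmpty_or_nonempty n
  · exact ⟨1, by simp, fun _ => Subsingleton.elim _ _⟩
  obtain ⟨r⟩ := ‹Nonempty n›
  obtain ⟨a, c, hP⟩ : ∃ a c, t (τ (single r r 1) a c) ≠ 0 := by
    by_contra! hP
    have h0 : (τ (single r r 1)).map t = 0 := Matrix.ext hP
    have h1 : ∀ i, (τ (single i i 1)).map t = 0 := fun i => by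
      rw [show single i i (1 : B) = single i r 1 * single r r 1 * single r i 1 by simp, map_mul,
        map_mul, map_mul', map_mul', h0, mul_zero, zero_mul]
    have h2 : (τ 1).map t = 0 := by
      rw [← sum_single_one, map_sum]
      ext i j
      simp only [map_apply, Matrix.sum_apply, map_sum, Matrix.zero_apply]
      exact Finset.sum_eq_zero fun k _ => congrFun (congrFun (h1 k) i) j
    simpa using congrFun (congrFun h2 r) r
  set g : Matrix n n B := Matrix.of fun b i => τ (single i r 1) b c with hg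
  have key : ∀ x, τ x * g = g * x := fun x => by
    ext b i
    have e : x * single i r 1 = ∑ j, x j i • single j r (1 : B) := by
      ext k l
      by_cases hl : l = r
      · subst hl
        simp [Matrix.sum_apply, single_apply]
      · simp [Matrix.sum_apply, hl, Ne.symm hl]
    have e' := congrFun (congrFun (congrArg τ e) b) c
    simp only [map_mul, map_sum, map_smul] at e'
    simpa [hg, mul_apply, Matrix.sum_apply, mul_comm, -smul_single] using e'
  refine ⟨g, fun h0 => ?_, key⟩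
  rw [← det_map_alg] at h0
  obtain ⟨v, hv, h1⟩ := exists_mulVec_eq_zero_iff.2 h0
  obtain ⟨j, hj⟩ := Function.ne_iff.1 hv
  have h2 := congrArg (fun M : Matrix n n B => (M.map t).mulVec v a) (key (single r j 1))
  simp only [map_mul', ← mulVec_mulVec, h1, mulVec_zero, Pi.zero_apply] at h2
  have h3 : ((single r j (1 : B)).map t).mulVec v = Pi.single r (v j) := by
    rw [map_single, map_one, single_mulVec_eq, ← Pi.single_smul]
    simp
  rw [h3, mulVec_single] at h2
  simp [hg, hP] at h2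
  exact hj h2

theorem mIso (hR : S_RegRep) : S_MIso := by
  intro B Ψ n _ _ _ _ _ _ φ w G G' L e t h h'
  cases isEmpty_or_nonempty n
  · exact ⟨Nb.refl t, 1, 1, isUnit_one, funext fun _ => Subsingleton.elim _ _⟩
  obtain ⟨τ, hτ⟩ := exists_tau hR h.bs h'.bs
  obtain ⟨g, h1, h2⟩ := sN B n τ t
  obtain ⟨U, hU⟩ := Nb.exists_unit g.det h1
  obtain ⟨κ, k1, k2⟩ := key hR (h.map U.ψ) (h'.map U.ψ) (g := g.map U.ψ)
    (by rwa [det_map_alg]) fun ψ => by
      rw [Am_mpM _ h.unit, Am_mpM _ h'.unit, mpM, mpM, ← Matrix.map_mul, ← Matrix.map_mul, ← hτ, h2]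
  exact ⟨U, _, κ, k1, k2⟩

end Pool.Agent.P.MP_2b2d3b_ag
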