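import Pool.Agent.P.MP_2b2d3b_ag.StE

/-!
Lifting alternating forms from a point to a neighbourhood.
-/

namespace Pool.Agent.P.MP_2b2d3b_ag

open Matrix

namespace EMLiftP

variable {B Ψ n : Type} [CommRing B] [Fintype n] [DecidableEq n]

theorem comm_wd {A : Ψ → Matrix n n B} {Z : Matrix n n B} (h : ∀ ψ, A ψ * Z = Z * A ψ)
    (l : List Ψ) : wd A l * Z = Z * wd A l := by
  induction l with
  | nil => simp [wd_nil]
  | cons ψ l ih => rw [wd_cons, mul_assoc, ih, ← mul_assoc, h, mul_assoc]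

/-- two invariant forms are proportional -/
theorem scalar (hR : S_RegRep) {w : n × n → List Ψ} {A : Ψ → Matrix n n B}
    {L : Ψ → Matrix (n × n) (n × n) B} {e : n × n → B} (hb : Bs w A L e) {X Y : Matrix n n B}
    (hX : IsUnit X.det) (h1 : ∀ ψ, (A ψ)ᵀ * X = X * A ψ) (h2 : ∀ ψ, (A ψ)ᵀ * Y = Y * A ψ) :
    ∃ c : B, Y = c • X := by
  obtain ⟨lam, -, -, h3, -⟩ := hR B Ψ n w A L e hb
  have h4 : ∀ ψ, A ψ * (X⁻¹ * Y) = X⁻¹ * Y * A ψ := fun ψ => by
    have h5 : X * (A ψ * (X⁻¹ * Y)) = X * (X⁻¹ * Y * A ψ) := by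
      rw [← mul_assoc, ← h1, mul_assoc, Matrix.mul_nonsing_inv_cancel_left _ _ hX, h2, mul_assoc,
        Matrix.mul_nonsing_inv_cancel_left _ _ hX]
    have h6 := congrArg (fun M => X⁻¹ * M) h5
    simpa only [Matrix.nonsing_inv_mul_cancel_left _ _ hX] using h6
  have h5 : ∀ x : Matrix n n B, x * (X⁻¹ * Y) = X⁻¹ * Y * x := fun x => by
    rw [← h3 x, Finset.sum_mul, Finset.mul_sum]
    exact Finset.sum_congr rfl fun p _ => by
      rw [Matrix.smul_mul, Matrix.mul_smul, comm_wd h4]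
  obtain ⟨c, hc⟩ := Matrix.mem_range_scalar_of_commute_single (M := X⁻¹ * Y) fun i j _ => h5 _
  refine ⟨c, ?_⟩
  rw [← Matrix.mul_nonsing_inv_cancel_left X Y hX, ← hc, Matrix.scalar_apply,
    ← Matrix.smul_eq_mul_diagonal]

variable [Algebra ℂ B] [Fintype Ψ]

/-- the transposed involution -/
theorem exists_tau (hR : S_RegRep) {φ : Ψ → ℂ} {w : n × n → List Ψ} {A : Ψ → Matrix n n B}
    {L : Ψ → Matrix (n × n) (n × n) B} {e : n × n → B} (hr : Rel1 φ w L e) (hb : Bs w A L e) :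
    (∃ τ : Matrix n n B →ₐ[B] Matrix n n B, ∀ ψ, τ (A ψ) = (A ψ)ᵀ) ∧ ∑ ψ, φ ψ • A ψ = 1 := by
  obtain ⟨lam, hi, h1, h2, -⟩ := hR B Ψ n w A L e hb
  have hw : ∀ l, lam (wd A l) = wd L l := fun l => by
    have := map_wd lam.toRingHom.toMonoidHom A l
    simpa [h1] using this
  let σ : Matrix n n B →ₗ[B] Matrix n n B :=
    { toFun := fun x => ∑ p, (lam x).mulVec e p • wd A (w p).reverse
      map_add' := fun x y => by
        simp [Matrix.add_mulVec, add_smul, Finset.sum_add_distrib]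
      map_smul' := fun c x => by
        simp [Matrix.smul_mulVec, Finset.smul_sum, smul_smul] }
  have s1 : ∀ q, σ (wd A (w q)) = wd A (w q).reverse := fun q => by
    change ∑ p, (lam (wd A (w q))).mulVec e p • wd A (w p).reverse = _
    rw [hw, hr.r1]
    simp [Pi.single_apply]
  have s2 : ∀ ψ x, σ (A ψ * x) = σ x * A ψ := fun ψ x => by
    rw [← h2 x, Finset.mul_sum, map_sum, map_sum, Finset.sum_mul]
    refine Finset.sum_congr rfl fun p _ => ?_
    rw [Matrix.mul_smul, map_smul, map_smul, Matrix.smul_mul, hb.mul, map_sum, s1]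
    congr 1
    apply hi
    simp only [map_smul, s1, map_sum, map_mul, hw, h1]
    exact hr.r4 ψ p
  have s3 : σ 1 = 1 := by
    rw [← hb.one, map_sum]
    apply hi
    simp only [map_smul, s1, map_sum, hw]
    rw [hr.r5, hr.r3]
  have s4 : ∀ l x, σ (wd A l * x) = σ x * wd A l.reverse := fun l => by
    induction l with
    | nil => simp [wd_nil]
    | cons ψ l ih =>
      intro x
      rw [wd_cons, mul_assoc, s2, ih, List.reverse_cons, wd_append, wd_cons, wd_nil, mul_one,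
        mul_assoc]
  have s5 : ∀ x y, σ (x * y) = σ y * σ x := fun x y => by
    rw [← h2 x, Finset.sum_mul, map_sum, map_sum, Finset.mul_sum]
    refine Finset.sum_congr rfl fun p _ => ?_
    rw [Matrix.smul_mul, map_smul, map_smul, Matrix.mul_smul, s4, s1]
  refine ⟨⟨AlgHom.ofLinearMap ((Matrix.transposeLinearEquiv n n B B).toLinearMap ∘ₗ σ) ?_ ?_,
    fun ψ => ?_⟩, hi ?_⟩
  · simp [s3]
  · intro x y
    simp [s5, Matrix.transpose_mul]
  · have := s2 ψ 1
    rw [mul_one, s3, one_mul] at this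
    simp [this]
  · rw [map_one, ← hr.r6, map_sum]
    refine Finset.sum_congr rfl fun ψ _ => ?_
    rw [← h1, ← algebraMap_smul B (φ ψ), map_smul, algebraMap_smul]

end EMLiftP

open EMLiftP in
theorem mLift (hR : S_RegRep) (hS : S_SN) : S_MLift := by
  intro B Ψ n _ _ _ _ _ _ φ w A L e t G0 hr hb ha hu hA
  obtain ⟨⟨τ, hτ⟩, h1⟩ := exists_tau hR hr hb
  obtain ⟨g, hg, h2⟩ := hS B n τ t
  have h3 : ∀ ψ, (A ψ)ᵀ * g = g * A ψ := fun ψ => hτ ψ ▸ h2 (A ψ)
  have h4 : ∀ ψ, G0 ψ = Hm φ G0 * mpM t A ψ := fun ψ => by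
    rw [← hA, Am, Matrix.mul_nonsing_inv_cancel_left _ _ hu]
  have h5 : (Hm φ G0)ᵀ = -Hm φ G0 := by
    simp [Hm, Matrix.transpose_sum, ha]
  obtain ⟨c, hc⟩ := scalar hR (hb.map t) (X := g.map t) (Y := Hm φ G0)
    (by rw [det_map_alg]; exact IsUnit.mk0 _ hg)
    (fun ψ => by
      have := congrArg (fun M : Matrix n n B => M.map t) (h3 ψ)
      simpa only [Matrix.map_mul, Matrix.transpose_map, mpM] using this)
    fun ψ => by
      have := ha ψ
      rw [h4 ψ, Matrix.transpose_mul, h5, Matrix.mul_neg] at this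
      exact neg_injective this
  let H : Matrix n n B := (c / 2) • (g - gᵀ)
  have k1 : Hᵀ = -H := by
    simp only [H, Matrix.transpose_smul, Matrix.transpose_sub, Matrix.transpose_transpose,
      ← smul_neg, neg_sub]
  have k2 : ∀ ψ, (A ψ)ᵀ * H = H * A ψ := fun ψ => by
    have := congrArg Matrix.transpose (h3 ψ)
    simp only [Matrix.transpose_mul, Matrix.transpose_transpose] at this
    simp only [H, Matrix.mul_smul, Matrix.smul_mul, Matrix.mul_sub, Matrix.sub_mul, h3, this]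
  have k3 : H.map t = Hm φ G0 := by
    ext a b
    have e1 := congrFun (congrFun h5 a) b
    have e2 := congrFun (congrFun hc a) b
    have e3 := congrFun (congrFun hc b) a
    simp only [Matrix.transpose_apply, Matrix.neg_apply, Matrix.smul_apply, Matrix.map_apply,
      smul_eq_mul] at e1 e2 e3
    simp only [H, Matrix.map_apply, Matrix.smul_apply, Matrix.sub_apply, Matrix.transpose_apply,
      map_smul, map_sub, smul_eq_mul]
    linear_combination (-1 / 2 : ℂ) * e2 + (1 / 2 : ℂ) * e3 - (1 / 2 : ℂ) * e1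
  obtain ⟨U, hU⟩ := Nb.exists_unit (t := t) H.det (by
    rw [← det_map_alg, k3]; exact hu.ne_zero)
  have k4 : Hm φ (fun ψ => H * A ψ) = H := by
    simp only [Hm, ← Matrix.mul_smul, ← Finset.mul_sum, h1, mul_one]
  have k5 : Hm φ (mpM U.ψ fun ψ => H * A ψ) = H.map U.ψ := by rw [Hm_mpM, k4]
  have k6 : IsUnit (H.map U.ψ).det := by rwa [det_map_alg]
  refine ⟨U, mpM U.ψ fun ψ => H * A ψ, ⟨fun ψ => ?_, k5 ▸ k6, ?_⟩, ?_⟩
  · have : (H * A ψ)ᵀ = -(H * A ψ) := by
      rw [Matrix.transpose_mul, k1, Matrix.mul_neg, k2]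
    ext a b
    have e1 := congrFun (congrFun this a) b
    simp only [Matrix.transpose_apply, Matrix.neg_apply] at e1
    simp only [mpM, Matrix.transpose_apply, Matrix.neg_apply, Matrix.map_apply, e1, map_neg]
  · have : Am φ (mpM U.ψ fun ψ => H * A ψ) = mpM U.ψ A := by
      funext ψ
      rw [Am, k5, mpM, Matrix.map_mul, Matrix.nonsing_inv_mul_cancel_left _ _ k6, mpM]
    rw [this]
    exact hb.map U.ψ
  · rw [mpM_mpM, U.comp]
    funext ψ
    rw [h4 ψ, mpM, Matrix.map_mul, k3, mpM]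

end Pool.Agent.P.MP_2b2d3b_ag
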