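import Pool.Agent.P.MP_2b2d3b_ag.StE
import Pool.Agent.P.MP_2b2d3b_ag.DimP

/-!
A system of alternating forms of rank two with small isotropic subspaces contains a nondegenerate
form and is irreducible.
-/

namespace Pool.Agent.P.MP_2b2d3b_ag

open MvPolynomial Matrix Module LinearMap

namespace EMParP

variable {V : Type} [AddCommGroup V] [Module ℂ V] [FiniteDimensional ℂ V]

theorem codim1 (W : Submodule ℂ V) (g : V →ₗ[ℂ] ℂ) :
    finrank ℂ W ≤ finrank ℂ (W ⊓ ker g : Submodule ℂ V) + 1 := by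
  by_cases h : g = 0
  · rw [h, ker_zero, inf_top_eq]
    omega
  · have h1 := Module.Dual.finrank_ker_add_one_of_ne_zero h
    have h2 := Submodule.finrank_sup_add_finrank_inf_eq W (ker g)
    have h3 := Submodule.finrank_le (W ⊔ ker g)
    omega

theorem codim1' (W : Submodule ℂ V) (g : V →ₗ[ℂ] ℂ) {w : V} (hw : w ∈ W) (h : g w ≠ 0) :
    finrank ℂ (W ⊓ ker g : Submodule ℂ V) < finrank ℂ W :=
  Submodule.finrank_lt_finrank_of_lt (lt_of_le_of_ne inf_le_left fun e => h (e ▸ hw :).2)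

/-- alternating forms with the Pluecker relation -/
structure Pl {R : Type} [CommRing R] [Algebra ℂ R] (f : V →ₗ[ℂ] V →ₗ[ℂ] R) : Prop where
  alt : ∀ u v, f u v = -f v u
  pl : ∀ u v w z, f u v * f z w + f v w * f z u + f w u * f z v = 0

section field

variable {f : V →ₗ[ℂ] V →ₗ[ℂ] ℂ} (h : Pl f)
include h

omit [FiniteDimensional ℂ V] in
theorem Pl.self (u : V) : f u u = 0 := by linear_combination (h.alt u u) / 2

omit [FiniteDimensional ℂ V] in
theorem Pl.ker_eq {a b : V} (hab : f a b ≠ 0) : ker f = ker (f a) ⊓ ker (f b) := by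
  ext w
  simp only [Submodule.mem_inf, mem_ker]
  constructor
  · intro hw
    rw [h.alt a, h.alt b, hw]
    simp
  · rintro ⟨h1, h2⟩
    ext z
    have := h.pl a b w z
    rw [h2, h.alt w a, h1, h.alt z w] at this
    simpa [hab] using this

theorem Pl.le2 (W : Submodule ℂ V) :
    finrank ℂ W ≤ finrank ℂ (W ⊓ ker f : Submodule ℂ V) + 2 := by
  by_cases h0 : ∃ a b, f a b ≠ 0
  · obtain ⟨a, b, hab⟩ := h0
    rw [h.ker_eq hab, ← inf_assoc]
    have h1 := codim1 W (f a)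
    have h2 := codim1 (W ⊓ ker (f a)) (f b)
    omega
  · obtain rfl : f = 0 := by
      ext a b
      exact by_contra fun e => h0 ⟨a, b, e⟩
    rw [ker_zero, inf_top_eq]
    omega

theorem Pl.eq2 {W : Submodule ℂ V} {a b : V} (ha : a ∈ W) (hb : b ∈ W) (hab : f a b ≠ 0) :
    finrank ℂ (W ⊓ ker f : Submodule ℂ V) + 2 = finrank ℂ W := by
  refine le_antisymm ?_ (h.le2 W)
  rw [h.ker_eq hab, ← inf_assoc]
  have h1 := codim1' W (f a) hb hab
  have h2 := codim1' (W ⊓ ker (f a)) (f b) ⟨ha, h.self a⟩ (by rw [h.alt]; simpa using hab)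
  omega

theorem Pl.le1 {W : Submodule ℂ V} (hW : ∀ a ∈ W, ∀ b ∈ W, f a b = 0) :
    finrank ℂ W ≤ finrank ℂ (W ⊓ ker f : Submodule ℂ V) + 1 := by
  by_cases h0 : ∃ a ∈ W, ∃ b, f a b ≠ 0
  · obtain ⟨a, ha, b, hab⟩ := h0
    rw [h.ker_eq hab, ← inf_assoc, inf_eq_left.2 (show W ≤ ker (f a) from hW a ha)]
    exact codim1 W (f b)
  · rw [inf_eq_left.2 (show W ≤ ker f from fun a ha => LinearMap.ext fun b =>
      by_contra fun e => h0 ⟨a, ha, b, e⟩)]
    omega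

end field

variable {R : Type} [CommRing R] [Algebra ℂ R] [IsDomain R] {ω : V →ₗ[ℂ] V →ₗ[ℂ] R}

/-- the value at a point -/
def ev (ω : V →ₗ[ℂ] V →ₗ[ℂ] R) (p : R →ₐ[ℂ] ℂ) : V →ₗ[ℂ] V →ₗ[ℂ] ℂ := ω.compr₂ p.toLinearMap

omit [FiniteDimensional ℂ V] [IsDomain R] in
theorem ev_apply (p : R →ₐ[ℂ] ℂ) (u v : V) : ev ω p u v = p (ω u v) := rfl

omit [FiniteDimensional ℂ V] [IsDomain R] in
theorem Pl.ev (h : Pl ω) (p : R →ₐ[ℂ] ℂ) : Pl (ev ω p) :=
  ⟨fun u v => by rw [ev_apply, ev_apply, h.alt, map_neg], fun u v w z => by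
    simpa [ev_apply] using congrArg p (h.pl u v w z)⟩

/-- the common kernel -/
def KK (ω : V →ₗ[ℂ] V →ₗ[ℂ] R) (S : Finset (R →ₐ[ℂ] ℂ)) : Submodule ℂ V :=
  ⨅ p ∈ S, ker (ev ω p)

omit [FiniteDimensional ℂ V] [IsDomain R] in
theorem mem_KK {S : Finset (R →ₐ[ℂ] ℂ)} {v : V} : v ∈ KK ω S ↔ ∀ p ∈ S, ev ω p v = 0 := by
  simp [KK]

omit [FiniteDimensional ℂ V] [IsDomain R] in
theorem KK_insert [DecidableEq (R →ₐ[ℂ] ℂ)] (S : Finset (R →ₐ[ℂ] ℂ)) (q : R →ₐ[ℂ] ℂ) :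
    KK ω (insert q S) = KK ω S ⊓ ker (ev ω q) := by
  ext v
  simp [mem_KK, and_comm]

omit [IsDomain R] in
theorem KK_ge (h : Pl ω) (S : Finset (R →ₐ[ℂ] ℂ)) :
    finrank ℂ V ≤ finrank ℂ (KK ω S) + 2 * S.card := by
  classical
  induction S using Finset.induction_on with
  | empty =>
    have : KK ω ∅ = ⊤ := by simp [KK]
    rw [this, finrank_top]
    omega
  | insert q S hq ih =>
    have := (h.ev q).le2 (KK ω S)
    rw [KK_insert, Finset.card_insert_of_notMem hq]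
    omega

omit [IsDomain R] in
/-- the form of an omitted point is not zero on the kernel of the others -/
theorem exists_ab [DecidableEq (R →ₐ[ℂ] ℂ)] (h : Pl ω) {S : Finset (R →ₐ[ℂ] ℂ)}
    (hS : finrank ℂ (KK ω S) + 2 * S.card = finrank ℂ V) {i : R →ₐ[ℂ] ℂ} (hi : i ∈ S) :
    ∃ a ∈ KK ω (S.erase i), ∃ b ∈ KK ω (S.erase i), ev ω i a b ≠ 0 := by
  by_contra h0
  push Not at h0
  have h1 := (h.ev i).le1 h0
  have h2 := KK_ge h (S.erase i)
  have h3 := Finset.card_erase_add_one hi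
  rw [← KK_insert, Finset.insert_erase hi] at h1
  omega

omit [FiniteDimensional ℂ V] in
theorem Pl.trans (h : Pl ω) (nd : ∀ v, ω v = 0 → v = 0) {u v w : V} (hv : v ≠ 0) (h1 : ω u v = 0)
    (h2 : ω v w = 0) : ω u w = 0 := by
  obtain ⟨z, hz⟩ : ∃ z, ω v z ≠ 0 := by
    by_contra h0
    push Not at h0
    exact hv (nd v (LinearMap.ext h0))
  have := h.pl u v w z
  rw [h1, h2, h.alt w u, h.alt z v] at this
  simpa [hz] using this

theorem rank_add {M K : Submodule ℂ V} {ι : Type} (T : Finset ι) (N : ι → Submodule ℂ V)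
    (m : ι → V) (hK : K ≤ M) (h1 : ∀ i ∈ T, m i ∈ M ∧ m i ∉ N i ∧ K ≤ N i)
    (h2 : ∀ i ∈ T, ∀ j ∈ T, i ≠ j → m i ∈ N j) : finrank ℂ K + T.card ≤ finrank ℂ M := by
  classical
  induction T using Finset.induction_on generalizing M with
  | empty => simpa using Submodule.finrank_mono hK
  | insert q T hq ih =>
    have h3 := h1 q (Finset.mem_insert_self _ _)
    have h4 := ih (M := M ⊓ N q) (le_inf hK h3.2.2) (fun i hi =>
      ⟨⟨(h1 i (Finset.mem_insert_of_mem hi)).1, h2 i (Finset.mem_insert_of_mem hi) q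
        (Finset.mem_insert_self _ _) fun e => hq (e ▸ hi)⟩, (h1 i (Finset.mem_insert_of_mem hi)).2⟩)
      fun i hi j hj => h2 i (Finset.mem_insert_of_mem hi) j (Finset.mem_insert_of_mem hj)
    have h5 : finrank ℂ (M ⊓ N q : Submodule ℂ V) < finrank ℂ M :=
      Submodule.finrank_lt_finrank_of_lt
        (lt_of_le_of_ne inf_le_left fun e => h3.2.1 (e ▸ h3.1 :).2)
    rw [Finset.card_insert_of_notMem hq]
    omega

theorem exists_perfect (h : Pl ω) (nd : ∀ v, ω v = 0 → v = 0)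
    (isot : ∀ W : Submodule ℂ V, (∀ u ∈ W, ∀ v ∈ W, ω u v = 0) → 2 * finrank ℂ W < finrank ℂ V)
    (pts : ∀ x : R, x ≠ 0 → ∃ p : R →ₐ[ℂ] ℂ, p x ≠ 0) (he : Even (finrank ℂ V)) :
    ∃ S : Finset (R →ₐ[ℂ] ℂ), ∀ v, (∀ z, ∑ p ∈ S, p (ω v z) = 0) → v = 0 := by
  classical
  obtain ⟨S, hS, hmax⟩ : ∃ S : Finset (R →ₐ[ℂ] ℂ),
      finrank ℂ (KK ω S) + 2 * S.card = finrank ℂ V ∧ ∀ T : Finset (R →ₐ[ℂ] ℂ),
        finrank ℂ (KK ω T) + 2 * T.card = finrank ℂ V → T.card ≤ S.card := by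
    have h0 : KK ω ∅ = ⊤ := by simp [KK]
    obtain ⟨_, ⟨S, hS, rfl⟩, h1⟩ := Set.Finite.exists_maximal (s := Finset.card ''
      {S : Finset (R →ₐ[ℂ] ℂ) | finrank ℂ (KK ω S) + 2 * S.card = finrank ℂ V})
      ((Set.finite_Iic (finrank ℂ V)).subset (by
        rintro _ ⟨S, hS, rfl⟩
        simp only [Set.mem_ofPred_eq, Set.mem_Iic] at hS ⊢
        omega)) ⟨_, ∅, by rw [Set.mem_ofPred_eq, h0, finrank_top]; rfl, rfl⟩
    exact ⟨S, hS, fun T hT => le_of_not_gt fun e => absurd (h1 ⟨T, hT, rfl⟩ e.le) (not_le.2 e)⟩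
  have iso : ∀ T : Finset (R →ₐ[ℂ] ℂ), finrank ℂ (KK ω T) + 2 * T.card = finrank ℂ V →
      T.card = S.card → ∀ u ∈ KK ω T, ∀ v ∈ KK ω T, ω u v = 0 := by
    intro T h1 h2 u hu v hv
    by_contra h3
    obtain ⟨q, hq⟩ := pts _ h3
    have h4 : q ∉ T := fun e => hq (by rw [← ev_apply, mem_KK.1 hu q e]; rfl)
    have h5 := (h.ev q).eq2 hu hv hq
    have h6 := hmax (insert q T) (by rw [KK_insert, Finset.card_insert_of_notMem h4]; omega)
    rw [Finset.card_insert_of_notMem h4] at h6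
    omega
  have hK : KK ω S = ⊥ := by
    by_contra h0
    obtain ⟨k, hk, hk0⟩ := Submodule.exists_mem_ne_zero_of_ne_bot h0
    have h2 : 2 ≤ finrank ℂ (KK ω S) := by
      have := mt Submodule.finrank_eq_zero.1 h0
      obtain ⟨c, hc⟩ := he
      omega
    obtain ⟨z, hz⟩ : ∃ z, ω k z ≠ 0 := by
      by_contra h0
      push Not at h0
      exact hk0 (nd k (LinearMap.ext h0))
    have key : ∀ i ∈ S, ∃ m, ω k m = 0 ∧ m ∈ KK ω (S.erase i) ∧ m ∉ ker (ev ω i) := by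
      intro i hi
      obtain ⟨a, ha, b, hb, hab⟩ := exists_ab h hS hi
      have h3 : ω a b ≠ 0 := fun e => hab (by rw [ev_apply, e, map_zero])
      obtain ⟨q, hq⟩ := pts _ (mul_ne_zero h3 hz)
      rw [map_mul, mul_ne_zero_iff] at hq
      have h4 : q ∉ S.erase i := fun e => hq.1 (by rw [← ev_apply, mem_KK.1 ha q e]; rfl)
      have h5 := (h.ev q).eq2 ha hb hq.1
      have h6 := (h.ev i).eq2 ha hb hab
      have h7 := Finset.card_erase_add_one hi
      have e : KK ω (S.erase i) ⊓ ker (ev ω i) = KK ω S := by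
        rw [← KK_insert, Finset.insert_erase hi]
      have h8 := iso (insert q (S.erase i))
        (by rw [KK_insert, Finset.card_insert_of_notMem h4]; rw [e] at h6; omega)
        (by rw [Finset.card_insert_of_notMem h4, h7])
      rw [KK_insert] at h8
      have h9 := (h.ev q).le1 (W := KK ω S) fun u hu v hv => by
        rw [ev_apply, iso S hS rfl u hu v hv, map_zero]
      obtain ⟨k', hk', hk0'⟩ := Submodule.exists_mem_ne_zero_of_ne_bot
        (p := KK ω S ⊓ ker (ev ω q)) fun e => by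
          rw [e, finrank_bot] at h9
          omega
      have h10 : ¬ KK ω (S.erase i) ⊓ ker (ev ω q) ≤ KK ω S := fun h10 => by
        have h11 := Submodule.eq_of_le_of_finrank_eq h10 (by rw [e] at h6; omega)
        exact hq.2 (by rw [← ev_apply, (h11 ▸ hk :).2]; rfl)
      obtain ⟨m, hm, hm'⟩ := SetLike.not_le_iff_exists.1 h10
      exact ⟨m, h.trans nd hk0' (iso S hS rfl k hk k' hk'.1)
        (h8 k' ⟨(e ▸ hk'.1 :).1, hk'.2⟩ m hm), hm.1, fun h11 => hm' (e ▸ ⟨hm.1, h11⟩)⟩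
    choose! m h3 h4 h5 using key
    have h6 := rank_add (M := ker (ω k)) (K := KK ω S) S (fun i => ker (ev ω i)) m
      (fun v hv => iso S hS rfl k hk v hv)
      (fun i hi => ⟨h3 i hi, h5 i hi, fun v hv => mem_KK.1 hv i hi⟩)
      fun i hi j hj e => mem_KK.1 (h4 i hi) j (Finset.mem_erase.2 ⟨e.symm, hj⟩)
    have h7 := isot (ker (ω k)) fun u hu v hv =>
      h.trans nd hk0 (by rw [h.alt, mem_ker.1 hu, neg_zero]) hv
    omega
  refine ⟨S, fun v hv => (Submodule.eq_bot_iff _).1 hK v (mem_KK.2 fun i hi => ?_)⟩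
  obtain ⟨a, ha, b, hb, hab⟩ := exists_ab h hS hi
  have h1 : ∀ a ∈ KK ω (S.erase i), ev ω i a v = 0 := fun a ha => by
    have h2 := hv a
    rw [← Finset.add_sum_erase _ _ hi, Finset.sum_eq_zero fun p hp => by
      rw [h.alt, map_neg, ← ev_apply, mem_KK.1 ha p hp]; simp] at h2
    rw [ev_apply, h.alt, map_neg, ← add_zero (i _), h2, neg_zero]
  rw [← mem_ker, (h.ev i).ker_eq hab]
  exact ⟨h1 a ha, h1 b hb⟩

theorem irred (h : Pl ω) (nd : ∀ v, ω v = 0 → v = 0)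
    (isot : ∀ W : Submodule ℂ V, (∀ u ∈ W, ∀ v ∈ W, ω u v = 0) → 2 * finrank ℂ W < finrank ℂ V)
    (H : V →ₗ[ℂ] V →ₗ[ℂ] ℂ) (W : Submodule ℂ V)
    (hW : ∀ v, (∀ w ∈ W, H v w = 0) → ∀ w ∈ W, ω v w = 0) : W = ⊥ ∨ W = ⊤ := by
  by_contra h0
  push Not at h0
  have h1 := finrank_range_add_finrank_ker (H.domRestrict₂ W)
  have h2 := Submodule.finrank_le (range (H.domRestrict₂ W))
  rw [Subspace.dual_finrank_eq] at h2
  have h3 := Submodule.finrank_lt h0.2
  have h4 : ∀ v ∈ ker (H.domRestrict₂ W), ∀ w ∈ W, ω v w = 0 := fun v hv =>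
    hW v fun w hw => LinearMap.congr_fun (mem_ker.1 hv) ⟨w, hw⟩
  obtain ⟨w, hw, hw0⟩ := Submodule.exists_mem_ne_zero_of_ne_bot h0.1
  obtain ⟨v, hv, hv0⟩ := Submodule.exists_mem_ne_zero_of_ne_bot (p := ker (H.domRestrict₂ W))
    fun e => by
      rw [e, finrank_bot] at h1
      omega
  have h5 := isot W fun a ha b hb =>
    h.trans nd hv0 (by rw [h.alt, h4 v hv a ha, neg_zero]) (h4 v hv b hb)
  have h6 := isot (ker (H.domRestrict₂ W)) fun a ha b hb =>
    h.trans nd hw0 (h4 a ha w hw) (by rw [h.alt, h4 b hb w hw, neg_zero])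
  omega

variable {Ψ n : Type} [Fintype Ψ] [Fintype n] [DecidableEq n]

omit [IsDomain R] in
theorem lin0 (g : (n → ℂ) → R) (hg : IsLinearMap ℂ g) (h : ∀ a, g (Pi.single a 1) = 0)
    (u : n → ℂ) : g u = 0 :=
  LinearMap.congr_fun ((Pi.basisFun ℂ n).ext (f₁ := hg.mk' g) (f₂ := 0) fun a => by
    simpa using h a) u

omit [IsDomain R] in
theorem pl_ext (ω : (n → ℂ) →ₗ[ℂ] (n → ℂ) →ₗ[ℂ] R)
    (h : ∀ a b c d, ω (Pi.single a 1) (Pi.single b 1) * ω (Pi.single d 1) (Pi.single c 1) +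
      ω (Pi.single b 1) (Pi.single c 1) * ω (Pi.single d 1) (Pi.single a 1) +
      ω (Pi.single c 1) (Pi.single a 1) * ω (Pi.single d 1) (Pi.single b 1) = 0)
    (u v w z : n → ℂ) : ω u v * ω z w + ω v w * ω z u + ω w u * ω z v = 0 := by
  refine lin0 (fun u => ω u v * ω z w + ω v w * ω z u + ω w u * ω z v)
    ⟨fun _ _ => by simp; ring, fun _ _ => by simp⟩ (fun a => ?_) u
  refine lin0 (fun v => ω _ v * ω z w + ω v w * ω z _ + ω w _ * ω z v)
    ⟨fun _ _ => by simp; ring, fun _ _ => by simp⟩ (fun b => ?_) v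
  refine lin0 (fun w => ω _ _ * ω z w + ω _ w * ω z _ + ω w _ * ω z _)
    ⟨fun _ _ => by simp; ring, fun _ _ => by simp⟩ (fun c => ?_) w
  exact lin0 (fun z => ω _ _ * ω z _ + ω _ _ * ω z _ + ω _ _ * ω z _)
    ⟨fun _ _ => by simp; ring, fun _ _ => by simp⟩ (fun d => h a b c d) z

/-- the wedge product of two constant vectors -/
noncomputable def om (b : Ψ → R) (G : Ψ → Matrix n n ℂ) : (n → ℂ) →ₗ[ℂ] (n → ℂ) →ₗ[ℂ] R :=
  ∑ ψ, (Matrix.toLinearMap₂' ℂ (G ψ)).compr₂ (toSpanSingleton ℂ R (b ψ))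

omit [IsDomain R] in
theorem om_apply (b : Ψ → R) (G : Ψ → Matrix n n ℂ) (u v : n → ℂ) :
    om b G u v = ∑ ψ, (u ⬝ᵥ G ψ *ᵥ v) • b ψ := by
  simp [om, LinearMap.sum_apply, Matrix.toLinearMap₂'_apply']

theorem mq_bil (F : Pol ℂ) (β : Ψ → Pol ℂ) (G : Ψ → Matrix n n ℂ) (u v : n → ℂ) :
    mq F ℂ (bil (Og β G) u v) = om (fun ψ => mq F ℂ (bc (β ψ) ℂ)) G u v := by
  have : bil (Og β G) u v = ∑ ψ, (u ⬝ᵥ G ψ *ᵥ v) • bc (β ψ) ℂ := by
    simp only [bil, Og, Matrix.of_apply, Finset.mul_sum, dotProduct, mulVec, Finset.sum_smul,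
      smul_eq_C_mul, map_mul]
    symm
    rw [Finset.sum_comm]
    refine Finset.sum_congr rfl fun a _ => ?_
    rw [Finset.sum_comm]
    exact Finset.sum_congr rfl fun b _ => Finset.sum_congr rfl fun ψ _ => by ring
  rw [this, om_apply, map_sum]
  rfl

omit [Fintype Ψ] in
theorem bil_single (Ω : Matrix n n (Pol ℂ)) (u : n → ℂ) (b : n) :
    bil Ω u (Pi.single b 1) = ∑ a, C (u a) * Ω a b := by
  refine Finset.sum_congr rfl fun a _ => ?_
  rw [Finset.sum_eq_single b (fun c _ h => by simp [h]) (by simp)]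
  simp

omit [Fintype Ψ] in
theorem bil_single' (Ω : Matrix n n (Pol ℂ)) (a b : n) :
    bil Ω (Pi.single a 1) (Pi.single b 1) = Ω a b := by
  rw [bil_single, Finset.sum_eq_single a (fun c _ h => by simp [h]) (by simp)]
  simp

end EMParP

open EMParP in
theorem mPar : S_MPar := by
  intro F Ψ n _ _ _ β G hF he alt pl sep
  have : IsDomain (Rq F ℂ) := Ideal.Quotient.isDomain _
  set ω := om (fun ψ => mq F ℂ (bc (β ψ) ℂ)) G with hω
  have h1 : ∀ a b, ω (Pi.single a 1) (Pi.single b 1) = mq F ℂ (Og β G a b) := fun a b => by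
    rw [← mq_bil, bil_single']
  have h : Pl ω := by
    refine ⟨fun u v => ?_, fun u v w z => ?_⟩
    · rw [om_apply, om_apply, ← Finset.sum_neg_distrib]
      refine Finset.sum_congr rfl fun ψ _ => ?_
      rw [← neg_smul, dotProduct_mulVec, ← mulVec_transpose, alt, neg_mulVec, neg_dotProduct,
        dotProduct_comm]
    · refine pl_ext ω (fun a b c d => ?_) u v w z
      simpa only [h1, map_add, map_mul] using Ideal.Quotient.eq_zero_iff_mem.2 (pl a b c d)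
  have nd : ∀ v, ω v = 0 → v = 0 := fun v hv => sep.nd v fun b => by
    rw [← bil_single, ← Ideal.Quotient.eq_zero_iff_mem, mq_bil, ← hω, hv]
    rfl
  have isot : ∀ W : Submodule ℂ (n → ℂ), (∀ u ∈ W, ∀ v ∈ W, ω u v = 0) →
      2 * finrank ℂ W < finrank ℂ (n → ℂ) := fun W hW => by
    rw [Module.finrank_fintype_fun_eq_card]
    exact sep.isot W fun u hu v hv => by
      rw [← Ideal.Quotient.eq_zero_iff_mem, mq_bil]
      exact hW u hu v hv
  refine ⟨?_, fun φ hφ W hW => irred h nd isot (Matrix.toLinearMap₂' ℂ (Hm φ G)) W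
    fun v hv w hw => ?_⟩
  · obtain ⟨S, hS⟩ := exists_perfect h nd isot (fun x hx => (nS (Rq F ℂ) ⊥ x fun e =>
      hx (IsNilpotent.eq_zero (mem_nilradical.1 e))).imp fun _ ht => ht.2)
      (by rwa [Module.finrank_fintype_fun_eq_card])
    refine ⟨fun ψ => ∑ p ∈ S, p (mq F ℂ (bc (β ψ) ℂ)), isUnit_iff_ne_zero.2 fun e => ?_⟩
    obtain ⟨v, hv, h2⟩ := Matrix.exists_vecMul_eq_zero_iff.2 e
    refine hv (hS v fun z => ?_)
    have h3 := congrArg (· ⬝ᵥ z) h2
    simp only [← dotProduct_mulVec, zero_dotProduct, Hm, Matrix.sum_mulVec, dotProduct_sum,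
      smul_mulVec, dotProduct_smul, smul_eq_mul, Finset.sum_mul] at h3
    simp only [hω, om_apply, map_sum, map_smul, smul_eq_mul]
    rw [Finset.sum_comm, ← h3]
    exact Finset.sum_congr rfl fun _ _ => Finset.sum_congr rfl fun _ _ => mul_comm _ _
  · rw [om_apply]
    refine Finset.sum_eq_zero fun ψ _ => ?_
    have h2 := hv _ (hW ψ w hw)
    rw [Matrix.toLinearMap₂'_apply', mulVec_mulVec, Am, Matrix.mul_nonsing_inv_cancel_left _ _ hφ]
      at h2
    rw [h2, zero_smul]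

end Pool.Agent.P.MP_2b2d3b_ag
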