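import Pool.Agent.P.MP_2b2d3b_ag.StE

/-!
The relations satisfied by the invariants of a family of alternating forms.
-/

namespace Pool.Agent.P.MP_2b2d3b_ag

open MvPolynomial Matrix

namespace EMRelP

section ring

variable {R n : Type} [CommRing R] [Fintype n] [DecidableEq n]

theorem mul_single_mul (Ω : Matrix n n R) (j k i l : n) (x : R) :
    (Ω * single j k x * Ω) i l = Ω i j * x * Ω k l := by
  simp [mul_apply, single, ite_and, Finset.sum_ite_eq]

theorem entry (Ω : Matrix n n R) (j k i l : n) (x : R) :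
    (Ω * (single j k x - (single j k x)ᵀ) * Ω - (single j k x * Ω).trace • Ω) i l =
      x * (Ω i j * Ω k l - Ω i k * Ω j l - Ω k j * Ω i l) := by
  rw [transpose_single, Matrix.mul_sub, Matrix.sub_mul, Matrix.sub_apply, Matrix.sub_apply,
    mul_single_mul, mul_single_mul, trace_single_mul, Matrix.smul_apply, smul_eq_mul, smul_eq_mul]
  ring

theorem pl_iff (Ω : Matrix n n R) (hΩ : Ωᵀ = -Ω) :
    (∀ i j k l, Ω i j * Ω l k + Ω j k * Ω l i + Ω k i * Ω l j = 0) ↔
      ∀ z, Ω * (z - zᵀ) * Ω - (z * Ω).trace • Ω = 0 := by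
  have h1 : ∀ a b, Ω a b = -Ω b a := fun a b => congrFun (congrFun hΩ b) a
  have h2 : ∀ i j k l, Ω i j * Ω l k + Ω j k * Ω l i + Ω k i * Ω l j =
      -(Ω i j * Ω k l - Ω i k * Ω j l - Ω k j * Ω i l) := fun i j k l => by
    rw [h1 l k, h1 l i, h1 j k, h1 k i, h1 l j]
    ring
  refine ⟨fun h z => ?_, fun h i j k l => ?_⟩
  · induction z using Matrix.induction_on' with
    | h_zero => simp
    | h_add p q hp hq =>
      refine Eq.trans ?_ ((congrArg₂ (· + ·) hp hq).trans (add_zero 0))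
      simp only [transpose_add, Matrix.add_mul, Matrix.mul_add, Matrix.sub_mul, Matrix.mul_sub,
        trace_add, add_smul]
      abel
    | h_std_basis j k x =>
      ext i l
      rw [entry, ← neg_neg (_ - _), ← h2, h, neg_zero, mul_zero, Matrix.zero_apply]
  · have h3 := entry Ω j k i l 1
    rw [h, one_mul, Matrix.zero_apply] at h3
    rw [h2, ← h3, neg_zero]

theorem rel_iff {H K 𝒜 : Matrix n n R} (hK : K * H = 1) (hH : Hᵀ = -H)
    (hΩ : (H * 𝒜)ᵀ = -(H * 𝒜)) :
    (∀ i j k l, (H * 𝒜) i j * (H * 𝒜) l k + (H * 𝒜) j k * (H * 𝒜) l i +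
      (H * 𝒜) k i * (H * 𝒜) l j = 0) ↔
      ∀ y, 𝒜 * (y + K * yᵀ * H) * 𝒜 - (y * 𝒜).trace • 𝒜 = 0 := by
  have h1 : ∀ z, H * (𝒜 * (z * H + K * (z * H)ᵀ * H) * 𝒜 - (z * H * 𝒜).trace • 𝒜) =
      H * 𝒜 * (z - zᵀ) * (H * 𝒜) - (z * (H * 𝒜)).trace • (H * 𝒜) := fun z => by
    rw [transpose_mul, hH, ← Matrix.mul_assoc K, Matrix.mul_neg, hK, Matrix.neg_mul,
      Matrix.one_mul, ← Matrix.add_mul, ← sub_eq_add_neg, Matrix.mul_sub, Matrix.mul_smul]
    simp only [Matrix.mul_assoc]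
  rw [pl_iff _ hΩ]
  refine ⟨fun h y => ?_, fun h z => by rw [← h1, h, Matrix.mul_zero]⟩
  have h2 := h1 (y * K)
  rw [h, Matrix.mul_assoc y K H, hK, Matrix.mul_one] at h2
  rw [← Matrix.one_mul (_ - _), ← hK, Matrix.mul_assoc K, h2, Matrix.mul_zero]

omit [DecidableEq n] in
theorem dbl {Ψ : Type} [Fintype Ψ] (a : Ψ → Matrix n n R) (b : Ψ → R) (y Y : Matrix n n R) :
    (∑ ψ, b ψ • a ψ) * Y * (∑ ψ, b ψ • a ψ) - (y * ∑ ψ, b ψ • a ψ).trace • ∑ ψ, b ψ • a ψ =
      ∑ ψ, ∑ ψ', (b ψ * b ψ') • (a ψ * Y * a ψ' - (y * a ψ).trace • a ψ') := by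
  rw [Matrix.sum_mul, Matrix.sum_mul, Matrix.mul_sum _ _ y, trace_sum, Finset.sum_smul,
    ← Finset.sum_sub_distrib]
  refine Finset.sum_congr rfl fun ψ _ => ?_
  rw [Matrix.mul_sum, Finset.smul_sum, ← Finset.sum_sub_distrib]
  refine Finset.sum_congr rfl fun ψ' _ => ?_
  simp only [Matrix.smul_mul, Matrix.mul_smul, trace_smul, smul_smul, smul_sub, smul_eq_mul]
  congr 2 <;> ring

end ring

variable {B Ψ n : Type} [CommRing B] [Algebra ℂ B] [Fintype Ψ] [Fintype n] [DecidableEq n]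
  {φ : Ψ → ℂ} {w : n × n → List Ψ} {G : Ψ → Matrix n n B} {L : Ψ → Matrix (n × n) (n × n) B}
  {e : n × n → B}

/-- the adjoint with respect to `H` -/
noncomputable def sg (H : Matrix n n B) : Matrix n n B →ₗ[B] Matrix n n B where
  toFun x := H⁻¹ * xᵀ * H
  map_add' x y := by rw [transpose_add, Matrix.mul_add, Matrix.add_mul]
  map_smul' c x := by rw [transpose_smul, Matrix.mul_smul, Matrix.smul_mul, RingHom.id_apply]

omit [Algebra ℂ B] in
theorem sg_apply (H x : Matrix n n B) : sg H x = H⁻¹ * xᵀ * H := rfl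

theorem alt_Hm (h : Inv φ w G L e) : (Hm φ G)ᵀ = -Hm φ G := by
  simp only [Hm, transpose_sum, transpose_smul, h.alt, smul_neg, Finset.sum_neg_distrib]

theorem mul_Am (h : Inv φ w G L e) (ψ : Ψ) : Hm φ G * Am φ G ψ = G ψ :=
  mul_nonsing_inv_cancel_left _ _ h.unit

theorem sg_one (h : Inv φ w G L e) : sg (Hm φ G) 1 = 1 := by
  rw [sg_apply, transpose_one, Matrix.mul_one, nonsing_inv_mul _ h.unit]

theorem sg_mul (h : Inv φ w G L e) (x y : Matrix n n B) :
    sg (Hm φ G) (x * y) = sg (Hm φ G) y * sg (Hm φ G) x := by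
  simp only [sg_apply, transpose_mul, Matrix.mul_assoc, mul_nonsing_inv_cancel_left _ _ h.unit]

theorem sg_Am (h : Inv φ w G L e) (ψ : Ψ) : sg (Hm φ G) (Am φ G ψ) = Am φ G ψ := by
  have h1 := congrArg transpose (mul_Am h ψ)
  rw [transpose_mul, alt_Hm h, h.alt, Matrix.mul_neg, neg_inj] at h1
  rw [sg_apply, Matrix.mul_assoc, h1, Am]

theorem sg_wd (h : Inv φ w G L e) (l : List Ψ) :
    sg (Hm φ G) (wd (Am φ G) l) = wd (Am φ G) l.reverse := by
  induction l with
  | nil => exact sg_one h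
  | cons ψ l ih =>
    rw [wd_cons, sg_mul h, ih, sg_Am h, List.reverse_cons, wd_append, wd_cons, wd_nil, mul_one]

theorem rel1 (hR : S_RegRep) (h : Inv φ w G L e) : Rel1 φ w L e := by
  obtain ⟨lam, -, h1, h2, h3, -⟩ := hR B Ψ n w _ L e h.bs
  have h4 : ∀ l, lam (wd (Am φ G) l) = wd L l := fun l =>
    (map_wd lam.toRingHom.toMonoidHom _ l).trans (congrArg (wd · l) (funext h1))
  refine ⟨⟨fun p => ?_, fun ψ p => ?_, ?_⟩, fun ψ p => ?_, ?_, ?_⟩
  · rw [← sub_eq_zero, ← h4]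
    refine h3 _ ?_
    simp only [Pi.sub_apply, sub_smul, Finset.sum_sub_distrib, h2, Pi.single_apply, ite_smul,
      one_smul, zero_smul, Finset.sum_ite_eq', Finset.mem_univ, if_true, sub_self]
  · simpa only [map_mul, map_sum, map_smul, h1, h4] using congrArg lam (h.bs.mul ψ p)
  · simpa only [map_one, map_sum, map_smul, h4] using congrArg lam h.bs.one
  · simpa only [map_mul, map_sum, map_smul, h1, h4, sg_mul h, sg_Am h, sg_wd h] using
      congrArg (fun x => lam (sg (Hm φ G) x)) (h.bs.mul ψ p).symm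
  · simpa only [map_one, map_sum, map_smul, h4, sg_one h, sg_wd h] using
      congrArg (fun x => lam (sg (Hm φ G) x)) h.bs.one
  · have h5 : ∑ ψ, φ ψ • Am φ G ψ = 1 := by
      rw [← nonsing_inv_mul _ h.unit]
      simp only [Am, ← Matrix.mul_smul, ← Matrix.mul_sum]
      rfl
    simpa only [map_one, map_sum, AlgHom.map_smul_of_tower, h1] using congrArg lam h5

theorem relP (hR : S_RegRep) (h : Inv φ w G L e) {R : Type} [CommRing R] (ι : B →+* R)
    (hN : IsUnit (Fintype.card n : R)) (b : Ψ → R) {Ω : Matrix n n R}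
    (hΩ : Ω = ∑ ψ, b ψ • (G ψ).map ι) :
    (∀ i j k l, Ω i j * Ω l k + Ω j k * Ω l i + Ω k i * Ω l j = 0) ↔
      ∀ p r, ∑ ψ, ∑ ψ', ι ((Zm w L p ψ ψ').mulVec e r) * (b ψ * b ψ') = 0 := by
  obtain ⟨lam, -, h1, h2, -, h3⟩ := hR B Ψ n w _ L e h.bs
  have h4 : ∀ l, lam (wd (Am φ G) l) = wd L l := fun l =>
    (map_wd lam.toRingHom.toMonoidHom _ l).trans (congrArg (wd · l) (funext h1))
  let m : Matrix n n B →+* Matrix n n R := ι.mapMatrix
  have m1 : ∀ c x, m (c • x) = ι c • m x := fun c x => Matrix.ext fun i j => map_mul ι _ _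
  have m2 : ∀ x, m xᵀ = (m x)ᵀ := fun x => rfl
  have m3 : ∀ x : Matrix n n B, ι x.trace = (m x).trace := fun x => AddMonoidHom.map_trace ι x
  let 𝒜 := ∑ ψ, b ψ • m (Am φ G ψ)
  have h5 : Ω = m (Hm φ G) * 𝒜 := by
    simp only [hΩ, 𝒜, Matrix.mul_sum, Matrix.mul_smul, ← map_mul, mul_Am h]
    rfl
  have h6 : Ωᵀ = -Ω := by
    have : ∀ ψ, ((G ψ).map ι)ᵀ = -(G ψ).map ι := fun ψ =>
      (m2 _).symm.trans ((congrArg m (h.alt ψ)).trans (map_neg m _))
    simp only [hΩ, transpose_sum, transpose_smul, this, smul_neg, Finset.sum_neg_distrib]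
  let Z : n × n → Ψ → Ψ → Matrix n n B := fun p ψ ψ' => (Fintype.card n : B) •
    (Am φ G ψ * (wd (Am φ G) (w p) + sg (Hm φ G) (wd (Am φ G) (w p))) * Am φ G ψ' -
      (wd (Am φ G) (w p) * Am φ G ψ).trace • Am φ G ψ')
  have h7 : ∀ p ψ ψ', Zm w L p ψ ψ' = lam (Z p ψ ψ') := fun p ψ ψ' => by
    simp only [Zm, Z, sg_wd h, smul_sub, smul_smul, ← h3, map_sub, map_smul, map_mul, map_add, h1,
      h4]
  let T : Matrix n n R →ₗ[R] Matrix n n R :=
    { toFun := fun y => 𝒜 * (y + m (Hm φ G)⁻¹ * yᵀ * m (Hm φ G)) * 𝒜 - (y * 𝒜).trace • 𝒜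
      map_add' := fun x y => by
        simp only [transpose_add, Matrix.add_mul, Matrix.mul_add, trace_add, add_smul]
        abel
      map_smul' := fun c x => by
        simp only [transpose_smul, Matrix.smul_mul, Matrix.mul_smul, trace_smul, ← smul_add,
          smul_sub, smul_assoc, RingHom.id_apply] }
  have h8 : ∀ p, ∑ ψ, ∑ ψ', (b ψ * b ψ') • m (Z p ψ ψ') =
      (Fintype.card n : R) • T (m (wd (Am φ G) (w p))) := fun p => by
    rw [show T _ = _ from dbl _ _ _ _]
    simp only [Z, m1, map_sub, map_mul, map_add, sg_apply, m2, m3, map_natCast, Finset.smul_sum,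
      smul_comm (Fintype.card n : R)]
  rw [h5] at h6 ⊢
  refine (rel_iff (K := m (Hm φ G)⁻¹) ?_ ?_ h6).trans ⟨fun H p r => ?_, fun H y => ?_⟩
  · rw [← map_mul, nonsing_inv_mul _ h.unit, map_one]
  · rw [← m2, alt_Hm h, map_neg]
  · let Λ : Matrix n n R →ₗ[R] R :=
      ∑ i, ∑ j, ι ((lam (single i j 1)).mulVec e r) • entryLinearMap R R i j
    have h9 : ∀ x : Matrix n n B, ι ((lam x).mulVec e r) = Λ (m x) := fun x => by
      conv_lhs => rw [matrix_eq_sum_single x]
      simp only [Λ, map_sum, sum_mulVec, Finset.sum_apply, LinearMap.sum_apply]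
      refine Finset.sum_congr rfl fun i _ => Finset.sum_congr rfl fun j _ => ?_
      rw [← mul_one (x i j), ← smul_eq_mul, ← smul_single, map_smul, smul_mulVec, Pi.smul_apply,
        smul_eq_mul, map_mul, mul_comm]
      rfl
    have h10 := congrArg Λ (h8 p)
    rw [show T _ = 0 from H _, smul_zero, map_zero] at h10
    simpa only [h7, h9, map_sum, map_smul, smul_eq_mul, mul_comm] using h10
  · have h9 : ∀ p, T (m (wd (Am φ G) (w p))) = 0 := fun p => by
      rw [← hN.smul_eq_zero, ← h8]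
      calc _ = ∑ r, (∑ ψ, ∑ ψ', ι ((Zm w L p ψ ψ').mulVec e r) * (b ψ * b ψ')) •
            m (wd (Am φ G) (w r)) := by
            symm
            simp only [Finset.sum_smul]
            rw [Finset.sum_comm]
            refine Finset.sum_congr rfl fun ψ _ => ?_
            rw [Finset.sum_comm]
            refine Finset.sum_congr rfl fun ψ' _ => ?_
            conv_rhs => rw [← h2 (Z p ψ ψ')]
            simp only [map_sum, m1, Finset.smul_sum, smul_smul, h7, mul_comm]
        _ = 0 := by simp only [H, zero_smul, Finset.sum_const_zero]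
    have h10 : ∀ x, T (m x) = 0 := fun x => by
      rw [← h2 x]
      simp only [map_sum, m1, map_smul, h9, smul_zero, Finset.sum_const_zero]
    change T y = 0
    rw [matrix_eq_sum_single y]
    simp only [map_sum]
    refine Finset.sum_eq_zero fun i _ => Finset.sum_eq_zero fun j _ => ?_
    have h11 : single i j (y i j) = y i j • m (single i j 1) := by
      rw [RingHom.mapMatrix_apply, map_single _ _ _ ι, map_one, smul_single, smul_eq_mul, mul_one]
    rw [h11, map_smul, h10, smul_zero]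

end EMRelP

open EMRelP

theorem mRel (hR : S_RegRep) : S_MRel := by
  intro F B Ψ n _ _ _ _ _ φ β w G L e h
  refine ⟨rel1 hR h, ?_⟩
  rcases isEmpty_or_nonempty n with hn | hn
  · exact iff_of_true (fun i => isEmptyElim i) fun p => isEmptyElim p.1
  have hN : IsUnit (Fintype.card n : B) := by
    rw [← map_natCast (algebraMap ℂ B)]
    exact (Nat.cast_ne_zero.2 Fintype.card_ne_zero).isUnit.map _
  have h1 := relP hR h ((mq F B).comp C) (by simpa using hN.map ((mq F B).comp C))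
    (fun ψ => mq F B (bc (β ψ) B)) (Ω := (Og β G).map (mq F B)) (by
      ext i j
      simp [Og, Matrix.sum_apply, mul_comm])
  simpa only [PlG, RelP, ← mq_zero, map_add, map_mul, map_sum, map_apply, RingHom.comp_apply]
    using h1

end Pool.Agent.P.MP_2b2d3b_ag
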