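import Pool.Agent.P.MP_2b2d3b_ag.StE

/-!
Local splitting of an algebra whose fibre is a matrix algebra.
-/

namespace Pool.Agent.P.MP_2b2d3b_ag

open Matrix

namespace EMSplitP

section Alg

variable {B : Type} [CommRing B] {Ψ n : Type} [Fintype n] [DecidableEq n]
  {w : n × n → List Ψ} {L : Ψ → Matrix (n × n) (n × n) B} {e : n × n → B}

/-- the element with coordinates `c` -/
noncomputable def Lam (w : n × n → List Ψ) (L : Ψ → Matrix (n × n) (n × n) B) :
    (n × n → B) →ₗ[B] Matrix (n × n) (n × n) B :=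
  Fintype.linearCombination B fun p => wd L (w p)

theorem Lam_apply (c : n × n → B) : Lam w L c = ∑ p, c p • wd L (w p) := by
  simp [Lam, Fintype.linearCombination_apply]

theorem Lam_e (h : Rel0 w L e) (c : n × n → B) : (Lam w L c).mulVec e = c := by
  simp only [Lam_apply, Matrix.sum_mulVec, Matrix.smul_mulVec, h.r1]
  ext q
  simp [Pi.single_apply]

theorem L_Lam (h : Rel0 w L e) (ψ : Ψ) (c : n × n → B) :
    L ψ * Lam w L c = Lam w L ((L ψ).mulVec c) := by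
  simp only [Lam_apply, Matrix.mul_sum, Matrix.mul_smul, h.r2, Finset.smul_sum, smul_smul]
  rw [Finset.sum_comm]
  refine Finset.sum_congr rfl fun q _ => ?_
  rw [← Finset.sum_smul]
  congr 1
  simp [Matrix.mulVec, dotProduct, mul_comm]

theorem wd_Lam (h : Rel0 w L e) (l : List Ψ) (c : n × n → B) :
    wd L l * Lam w L c = Lam w L ((wd L l).mulVec c) := by
  induction l with
  | nil => simp [wd_nil]
  | cons ψ l ih => rw [wd_cons, mul_assoc, ih, L_Lam h, Matrix.mulVec_mulVec]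

theorem Lam_Lam (h : Rel0 w L e) (c' c : n × n → B) :
    Lam w L c' * Lam w L c = Lam w L ((Lam w L c').mulVec c) := by
  rw [Lam_apply c', Finset.sum_mul, Matrix.sum_mulVec, map_sum]
  refine Finset.sum_congr rfl fun p _ => ?_
  rw [smul_mul_assoc, wd_Lam h, Matrix.smul_mulVec, map_smul]

theorem Lam_one (h : Rel0 w L e) : Lam w L e = 1 := by rw [Lam_apply, h.r3]

/-- the algebra spanned by the words -/
noncomputable def Sa (h : Rel0 w L e) : Subalgebra B (Matrix (n × n) (n × n) B) :=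
  (LinearMap.range (Lam w L)).toSubalgebra ⟨e, Lam_one h⟩ (by
    rintro _ _ ⟨c', rfl⟩ ⟨c, rfl⟩
    exact ⟨_, (Lam_Lam h c' c).symm⟩)

theorem aeval_mem (h : Rel0 w L e) (c : n × n → B) (q : Polynomial B) :
    ∃ c', Lam w L c' = Polynomial.aeval (Lam w L c) q := by
  have h1 : Algebra.adjoin B {Lam w L c} ≤ Sa h :=
    Algebra.adjoin_le (Set.singleton_subset_iff.mpr ⟨c, rfl⟩)
  exact h1 (Polynomial.aeval_mem_adjoin_singleton B _)

/-- right multiplication by `ε` in coordinates -/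
noncomputable def rmu (w : n × n → List Ψ) (L : Ψ → Matrix (n × n) (n × n) B) (e : n × n → B)
    (ε : Matrix (n × n) (n × n) B) : Matrix (n × n) (n × n) B :=
  Matrix.of fun p q => (wd L (w q) * ε).mulVec e p

theorem rho_mulVec (ε : Matrix (n × n) (n × n) B) (c : n × n → B) :
    (rmu w L e ε).mulVec c = (Lam w L c * ε).mulVec e := by
  rw [Lam_apply, Finset.sum_mul, Matrix.sum_mulVec]
  ext p
  simp only [smul_mul_assoc, Matrix.smul_mulVec, Finset.sum_apply, Pi.smul_apply, smul_eq_mul]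
  exact Finset.sum_congr rfl fun q _ => mul_comm _ _

theorem rho_idem (h : Rel0 w L e) {c0 : n × n → B} (hi : IsIdempotentElem (Lam w L c0)) :
    rmu w L e (Lam w L c0) * rmu w L e (Lam w L c0) = rmu w L e (Lam w L c0) := by
  refine Matrix.ext_iff_mulVec.mpr fun c => ?_
  have e1 : Lam w L ((Lam w L c * Lam w L c0).mulVec e) = Lam w L c * Lam w L c0 := by
    rw [Lam_Lam h, Lam_e h]
  rw [← Matrix.mulVec_mulVec, rho_mulVec _ c, rho_mulVec, e1, mul_assoc, hi.eq]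

theorem rho_comm (h : Rel0 w L e) (ε : Matrix (n × n) (n × n) B) (ψ : Ψ) :
    rmu w L e ε * L ψ = L ψ * rmu w L e ε := by
  refine Matrix.ext_iff_mulVec.mpr fun c => ?_
  rw [← Matrix.mulVec_mulVec, ← Matrix.mulVec_mulVec, rho_mulVec, rho_mulVec, ← L_Lam h,
    Matrix.mulVec_mulVec, mul_assoc]

/-- compression to the image of an idempotent that commutes with the generators -/
theorem compress (h : Rel0 w L e) {P : Matrix n (n × n) B} {Q : Matrix (n × n) n B}
    (h1 : P * Q = 1) (h2 : ∀ ψ, Q * P * L ψ = L ψ * (Q * P)) :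
    (∀ ψ p, (P * L ψ * Q) * wd (fun ψ => P * L ψ * Q) (w p) =
      ∑ q, L ψ q p • wd (fun ψ => P * L ψ * Q) (w q)) ∧
    ∑ p, e p • wd (fun ψ => P * L ψ * Q) (w p) = 1 := by
  have a1 : ∀ ψ, P * L ψ * Q * P = P * L ψ := fun ψ => by
    calc P * L ψ * Q * P = P * (L ψ * (Q * P)) := by simp only [Matrix.mul_assoc]
      _ = P * Q * P * L ψ := by rw [← h2]; simp only [Matrix.mul_assoc]
      _ = P * L ψ := by rw [h1, Matrix.one_mul]
  have a2 : ∀ ψ (M : Matrix (n × n) (n × n) B),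
      P * L ψ * Q * (P * M * Q) = P * (L ψ * M) * Q := fun ψ M => by
    calc P * L ψ * Q * (P * M * Q) = P * L ψ * Q * P * M * Q := by simp only [Matrix.mul_assoc]
      _ = _ := by rw [a1]; simp only [Matrix.mul_assoc]
  have a3 : ∀ l, wd (fun ψ => P * L ψ * Q) l = P * wd L l * Q := fun l => by
    induction l with
    | nil => rw [wd_nil, wd_nil, Matrix.mul_one, h1]
    | cons ψ l ih => rw [wd_cons, wd_cons, ih, a2]
  refine ⟨fun ψ p => ?_, ?_⟩
  · simp only [a3]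
    rw [a2, h.r2, Matrix.mul_sum, Matrix.sum_mul]
    simp only [Matrix.mul_smul, Matrix.smul_mul]
  · simp only [a3]
    have := congrArg (fun M => P * M * Q) h.r3
    simp only [Matrix.mul_sum, Matrix.sum_mul, Matrix.mul_smul, Matrix.smul_mul, Matrix.mul_one,
      h1] at this
    exact this

/-- factorisation of an idempotent -/
theorem factor {m : Type} [Fintype m] [DecidableEq m] {ρ : Matrix m m B} (hρ : ρ * ρ = ρ)
    (P0 : Matrix n m B) (Q0 : Matrix m n B) (hg : IsUnit (P0 * ρ * Q0).det)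
    (hS : IsUnit (1 - ρ + ρ * Q0 * P0 * ρ).det) :
    P0 * ρ * (1 - ρ + ρ * Q0 * P0 * ρ)⁻¹ * (ρ * Q0) = 1 ∧
      ρ * Q0 * (P0 * ρ * (1 - ρ + ρ * Q0 * P0 * ρ)⁻¹) = ρ := by
  set S := 1 - ρ + ρ * Q0 * P0 * ρ with hSd
  have b1 : ρ * S = ρ * Q0 * P0 * ρ := by
    rw [hSd, Matrix.mul_add, Matrix.mul_sub, Matrix.mul_one, hρ, sub_self, zero_add]
    simp only [← Matrix.mul_assoc, hρ]
  have b2 : ρ * Q0 * (P0 * ρ * S⁻¹) = ρ := by
    calc ρ * Q0 * (P0 * ρ * S⁻¹) = ρ * Q0 * P0 * ρ * S⁻¹ := by simp only [Matrix.mul_assoc]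
      _ = ρ := by rw [← b1, Matrix.mul_assoc, Matrix.mul_nonsing_inv _ hS, Matrix.mul_one]
  refine ⟨?_, b2⟩
  have b3 : P0 * ρ * Q0 * (P0 * ρ * S⁻¹ * (ρ * Q0)) = P0 * ρ * Q0 := by
    calc P0 * ρ * Q0 * (P0 * ρ * S⁻¹ * (ρ * Q0))
        = P0 * (ρ * Q0 * (P0 * ρ * S⁻¹)) * (ρ * Q0) := by simp only [Matrix.mul_assoc]
      _ = P0 * (ρ * ρ) * Q0 := by rw [b2]; simp only [Matrix.mul_assoc]
      _ = _ := by rw [hρ]
  calc P0 * ρ * S⁻¹ * (ρ * Q0)
      = (P0 * ρ * Q0)⁻¹ * (P0 * ρ * Q0) * (P0 * ρ * S⁻¹ * (ρ * Q0)) := by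
        rw [Matrix.nonsing_inv_mul _ hg, Matrix.one_mul]
    _ = 1 := by rw [Matrix.mul_assoc, b3, Matrix.nonsing_inv_mul _ hg]

end Alg

section Loc

variable {B : Type} [CommRing B] [Algebra ℂ B] {B' : Type} [CommRing B'] [Algebra ℂ B']
  {Ψ n : Type} [Fintype n] [DecidableEq n]
  {w : n × n → List Ψ} {L : Ψ → Matrix (n × n) (n × n) B} {e : n × n → B}

theorem map_lc {ι m : Type} [Fintype ι] (σ : B →ₐ[ℂ] B') (c : ι → B) (M : ι → Matrix m m B) :
    (∑ p, c p • M p).map σ = ∑ p, σ (c p) • (M p).map σ := by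
  ext a b
  simp [Matrix.sum_apply]

theorem map_one' {m : Type} [DecidableEq m] (σ : B →ₐ[ℂ] B') :
    (1 : Matrix m m B).map σ = 1 := Matrix.map_one _ (map_zero σ) (map_one σ)

theorem map_mulVec' {m : Type} [Fintype m] (σ : B →ₐ[ℂ] B') (M : Matrix m m B) (c : m → B)
    (p : m) : (M.map σ).mulVec (σ ∘ c) p = σ (M.mulVec c p) := by
  simp [Matrix.mulVec, dotProduct]

theorem rel0_map (h : Rel0 w L e) (σ : B →ₐ[ℂ] B') : Rel0 w (mpM σ L) (σ ∘ e) where
  r1 p := by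
    funext q
    rw [wd_mpM, map_mulVec', h.r1]
    simp [Pi.single_apply]
  r2 ψ p := by
    have := congrArg (fun M => M.map σ) (h.r2 ψ p)
    simp only [Matrix.map_mul, map_lc] at this
    simp only [wd_mpM]
    exact this
  r3 := by
    have := congrArg (fun M => M.map σ) h.r3
    simp only [map_lc, map_one'] at this
    simp only [wd_mpM]
    exact this

theorem map_inv' {m : Type} [Fintype m] [DecidableEq m] (σ : B →ₐ[ℂ] B') {M : Matrix m m B}
    (h : IsUnit M.det) : (M⁻¹).map σ = (M.map σ)⁻¹ := by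
  symm
  apply Matrix.inv_eq_left_inv
  rw [← Matrix.map_mul, Matrix.nonsing_inv_mul _ h, map_one']

/-- constants -/
noncomputable def cst (B : Type) [CommRing B] [Algebra ℂ B] {a b : Type} (M : Matrix a b ℂ) :
    Matrix a b B := M.map (algebraMap ℂ B)

theorem cst_map (σ : B →ₐ[ℂ] B') {a b : Type} (M : Matrix a b ℂ) :
    (cst B M).map σ = cst B' M := by
  ext i j
  simp [cst]

theorem cst_self {a b : Type} (M : Matrix a b ℂ) : cst ℂ M = M := by
  ext i j
  simp [cst]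

omit [DecidableEq n] in
theorem map_S {m : Type} [Fintype m] [DecidableEq m] (σ : B →ₐ[ℂ] B') (ρ : Matrix m m B)
    (P0 : Matrix n m ℂ) (Q0 : Matrix m n ℂ) :
    (1 - ρ + ρ * cst B Q0 * cst B P0 * ρ).map σ =
      1 - ρ.map σ + ρ.map σ * cst B' Q0 * cst B' P0 * ρ.map σ := by
  rw [Matrix.map_add _ (map_add σ), Matrix.map_sub _ (map_sub σ), map_one']
  simp only [Matrix.map_mul, cst_map]

theorem step3 [Algebra.FiniteType ℂ B] (t : B →ₐ[ℂ] ℂ) (A : Ψ → Matrix n n B)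
    (h1 : ∀ ψ p, A ψ * wd A (w p) = ∑ q, L ψ q p • wd A (w q))
    (h2 : ∑ p, e p • wd A (w p) = 1) (hu : IsUnit (wdet w (mpM t A))) :
    ∃ (U : Nb B t) (A' : Ψ → Matrix n n U.A), Bs w A' (mpM U.ψ L) (U.ψ ∘ e) ∧
      mpM U.p A' = mpM t A := by
  rw [wdet_mpM] at hu
  obtain ⟨U, hU⟩ := Nb.exists_unit (t := t) (wdet w A) hu.ne_zero
  refine ⟨U, mpM U.ψ A, ⟨by rw [wdet_mpM]; exact hU, fun ψ p => ?_, ?_⟩,
    by rw [mpM_mpM, U.comp]⟩
  · have := congrArg (fun M => M.map U.ψ) (h1 ψ p)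
    simp only [Matrix.map_mul, map_lc] at this
    simp only [wd_mpM]
    exact this
  · have := congrArg (fun M => M.map U.ψ) h2
    simp only [map_lc, map_one'] at this
    simp only [wd_mpM]
    exact this

theorem step2 [Algebra.FiniteType ℂ B] (h : Rel0 w L e) (t : B →ₐ[ℂ] ℂ)
    (A0 : Ψ → Matrix n n ℂ) (hu : IsUnit (wdet w A0)) (ρ : Matrix (n × n) (n × n) B)
    (hρ : ρ * ρ = ρ) (hc : ∀ ψ, ρ * L ψ = L ψ * ρ) (P0 : Matrix n (n × n) ℂ)
    (Q0 : Matrix (n × n) n ℂ) (h1 : P0 * Q0 = 1) (h2 : ρ.map t = Q0 * P0)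
    (h3 : ∀ ψ, P0 * (L ψ).map t * Q0 = A0 ψ) :
    ∃ (U : Nb B t) (A : Ψ → Matrix n n U.A), Bs w A (mpM U.ψ L) (U.ψ ∘ e) ∧
      mpM U.p A = A0 := by
  have c1 : Q0 * P0 * Q0 = Q0 := by rw [Matrix.mul_assoc, h1, Matrix.mul_one]
  have c2 : P0 * (Q0 * P0) = P0 := by rw [← Matrix.mul_assoc, h1, Matrix.one_mul]
  have c3 : 1 - Q0 * P0 + Q0 * P0 * Q0 * P0 * (Q0 * P0) = 1 := by
    rw [c1, Matrix.mul_assoc Q0 P0 (Q0 * P0), c2, sub_add_cancel]
  have t1 : t (cst B P0 * ρ * cst B Q0).det = 1 := by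
    rw [← det_map_alg]
    simp only [Matrix.map_mul, cst_map, cst_self, h2]
    rw [c2, h1, Matrix.det_one]
  have t2 : t (1 - ρ + ρ * cst B Q0 * cst B P0 * ρ).det = 1 := by
    rw [← det_map_alg, map_S, cst_self, cst_self, h2, c3, Matrix.det_one]
  obtain ⟨U, hU⟩ := Nb.exists_unit (t := t)
    ((cst B P0 * ρ * cst B Q0).det * (1 - ρ + ρ * cst B Q0 * cst B P0 * ρ).det)
    (by rw [map_mul, t1, t2]; simp)
  rw [map_mul, IsUnit.mul_iff, ← det_map_alg, ← det_map_alg, map_S] at hU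
  simp only [Matrix.map_mul, cst_map] at hU
  set ρ' := ρ.map U.ψ with hρ'
  have hρ2 : ρ' * ρ' = ρ' := by rw [hρ', ← Matrix.map_mul, hρ]
  have hp : ρ'.map U.p = Q0 * P0 := by
    rw [← h2, hρ', Matrix.map_map]
    congr 1
    funext b
    exact U.p_ψ b
  obtain ⟨f1, f2⟩ := factor hρ2 (cst U.A P0) (cst U.A Q0) hU.1 hU.2
  set P := cst U.A P0 * ρ' * (1 - ρ' + ρ' * cst U.A Q0 * cst U.A P0 * ρ')⁻¹ with hP
  set Q := ρ' * cst U.A Q0 with hQ
  have hPp : P.map U.p = P0 := by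
    rw [hP, Matrix.map_mul, Matrix.map_mul, map_inv' _ hU.2, map_S, cst_map, cst_self, cst_self,
      hp, c3, c2, inv_one, Matrix.mul_one]
  have hQp : Q.map U.p = Q0 := by
    rw [hQ, Matrix.map_mul, cst_map, cst_self, hp, c1]
  obtain ⟨g1, g2⟩ := compress (rel0_map h U.ψ) f1 (fun ψ => by
    rw [f2, hρ']
    simp only [mpM]
    rw [← Matrix.map_mul, ← Matrix.map_mul, hc])
  have hA : mpM U.p (fun ψ => P * mpM U.ψ L ψ * Q) = A0 := by
    funext ψ
    rw [← h3]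
    simp only [mpM]
    rw [Matrix.map_mul, Matrix.map_mul, hPp, hQp, Matrix.map_map]
    congr 3
    funext b
    exact U.p_ψ b
  obtain ⟨V, A', k1, k2⟩ := step3 U.p _ g1 g2 (by rw [hA]; exact hu)
  exact ⟨U.trans V, A', k1, k2.trans hA⟩

end Loc

end EMSplitP

open EMSplitP in
theorem mSplit (h1 : S_Idem) (h2 : S_RegRep) : S_MSplit := by
  intro B Ψ n _ _ _ _ _ _ w L e t A0 h hb
  obtain ⟨lam, -, l1, l2, -, -⟩ := h2 ℂ Ψ n w A0 _ _ hb
  obtain ⟨r⟩ := ‹Nonempty n›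
  have l3 : ∀ l, lam (wd A0 l) = wd (mpM t L) l := fun l => by
    have := map_wd (lam : Matrix n n ℂ →* Matrix (n × n) (n × n) ℂ) A0 l
    simp only [MonoidHom.coe_coe, l1] at this
    exact this
  set v : Matrix n n ℂ → n × n → ℂ := fun x => (lam x).mulVec (t ∘ e) with hv
  set E : Matrix n n ℂ := Matrix.single r r 1 with hE
  have hx : (Lam w L fun p => algebraMap ℂ B (v E p)).map t = lam E := by
    rw [Lam_apply, map_lc]
    conv_rhs => rw [← l2 E, map_sum]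
    refine Finset.sum_congr rfl fun p _ => ?_
    rw [map_smul, l3, wd_mpM, AlgHom.commutes]
    rfl
  have hE2 : E * E = E := by simp [hE]
  obtain ⟨U, q, i1, i2⟩ := h1 B (n × n) (Lam w L fun p => algebraMap ℂ B (v E p)) t (by
    rw [hx, IsIdempotentElem, ← map_mul, hE2])
  have h' := rel0_map h U.ψ
  have hx' : (Lam w L fun p => algebraMap ℂ B (v E p)).map U.ψ =
      Lam w (mpM U.ψ L) fun p => algebraMap ℂ U.A (v E p) := by
    rw [Lam_apply, Lam_apply, map_lc]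
    refine Finset.sum_congr rfl fun p _ => ?_
    rw [wd_mpM, AlgHom.commutes]
  rw [hx] at i2
  rw [hx'] at i1 i2
  obtain ⟨c0, hc0⟩ := aeval_mem h' (fun p => algebraMap ℂ U.A (v E p)) q
  rw [← hc0] at i1 i2
  set P0 : Matrix n (n × n) ℂ := Matrix.of fun i q => wd A0 (w q) i r with hP0
  set Q0 : Matrix (n × n) n ℂ := Matrix.of fun p i => v (Matrix.single i r 1) p with hQ0
  have k1 : ∀ x, P0 * lam x * Q0 = x := fun x => by
    ext i j
    have e1 := congrFun (congrFun (l2 (x * Matrix.single j r 1)) i) r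
    rw [Matrix.mul_single_apply_same, mul_one, Matrix.sum_apply, map_mul,
      ← Matrix.mulVec_mulVec] at e1
    rw [← e1, Matrix.mul_assoc, Matrix.mul_apply]
    refine Finset.sum_congr rfl fun p _ => ?_
    rw [Matrix.smul_apply, smul_eq_mul, mul_comm]
    rfl
  have hte : U.p ∘ U.ψ ∘ e = t ∘ e := funext fun p => U.p_ψ _
  have k2 : (rmu w (mpM U.ψ L) (U.ψ ∘ e) (Lam w (mpM U.ψ L) c0)).map U.p = Q0 * P0 := by
    ext p q
    have e1 : wd A0 (w q) * E = ∑ i, wd A0 (w q) i r • Matrix.single i r (1 : ℂ) := by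
      ext a b
      by_cases hb : b = r
      · subst hb
        rw [hE, Matrix.mul_single_apply_same, Matrix.sum_apply]
        simp [Matrix.single_apply]
      · rw [hE, Matrix.mul_single_apply_of_ne _ _ _ _ _ hb, Matrix.sum_apply]
        simp [Ne.symm hb]
    rw [Matrix.map_apply, rmu, Matrix.of_apply, ← map_mulVec', Matrix.map_mul, i2, ← wd_mpM,
      mpM_mpM, U.comp, ← l3, ← map_mul, hte, e1, map_sum, Matrix.sum_mulVec, Finset.sum_apply,
      Matrix.mul_apply]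
    refine Finset.sum_congr rfl fun i _ => ?_
    rw [map_smul, Matrix.smul_mulVec, Pi.smul_apply, smul_eq_mul, mul_comm]
    rfl
  obtain ⟨V, A, m1, m2⟩ := step2 h' U.p A0 hb.bas _ (rho_idem h' i1) (rho_comm h' _) P0 Q0
    (by simpa using k1 1) k2 (fun ψ => by
      have e1 : mpM U.p (mpM U.ψ L) = mpM t L := by rw [mpM_mpM, U.comp]
      rw [← k1 (A0 ψ), l1, ← e1]
      rfl)
  exact ⟨U.trans V, A, m1, m2⟩

end Pool.Agent.P.MP_2b2d3b_ag
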