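import Pool.Agent.P.MP_2b2d3b_ag.StE
import Pool.Agent.P.MP_2b2d3b_ag.Cover
import Pool.Agent.P.MP_2b2d3b_ag.DimP

/-!
Package NbA: basic facts on etale neighbourhoods.
-/

namespace Pool.Agent.P.MP_2b2d3b_ag

open TensorProduct

theorem nbBC : S_NbBC := by
  intro B B1 _ _ _ _ _ φ t t1 U h
  let _ : Algebra B B1 := (φ : B →+* B1).toAlgebra
  let _ : Algebra B U.A := (U.ψ : B →+* U.A).toAlgebra
  let _ : Algebra B ℂ := (t : B →+* ℂ).toAlgebra
  have : IsScalarTower ℂ B B1 := IsScalarTower.of_algebraMap_eq fun c => (φ.commutes c).symm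
  have : IsScalarTower ℂ B U.A := IsScalarTower.of_algebraMap_eq fun c => (U.ψ.commutes c).symm
  have : IsScalarTower ℂ B ℂ := IsScalarTower.of_algebraMap_eq fun c => (t.commutes c).symm
  have : Algebra.Etale B U.A := U.et
  let f1 : B1 →ₐ[B] ℂ := ⟨t1, fun b => AlgHom.congr_fun h b⟩
  let f2 : U.A →ₐ[B] ℂ := ⟨U.p, fun b => U.p_ψ b⟩
  let p : B1 ⊗[B] U.A →ₐ[ℂ] ℂ := (Algebra.TensorProduct.productMap f1 f2).restrictScalars ℂ
  let V : Nb B1 t1 :=
    { A := B1 ⊗[B] U.A
      ft := Algebra.FiniteType.trans (S := B1) inferInstance inferInstance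
      ψ := IsScalarTower.toAlgHom ℂ B1 (B1 ⊗[B] U.A)
      et := RingHom.etale_algebraMap.mpr inferInstance
      p := p
      comp := AlgHom.ext fun b => by
        change Algebra.TensorProduct.productMap f1 f2 (b ⊗ₜ 1) = t1 b
        rw [Algebra.TensorProduct.productMap_apply_tmul, map_one, mul_one]
        rfl }
  refine ⟨V, (Algebra.TensorProduct.includeRight : U.A →ₐ[B] B1 ⊗[B] U.A).restrictScalars ℂ,
    AlgHom.ext fun b => ?_, AlgHom.ext fun a => ?_⟩
  · change (1 : B1) ⊗ₜ[B] (algebraMap B U.A b) = (algebraMap B B1 b) ⊗ₜ[B] (1 : U.A)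
    rw [Algebra.algebraMap_eq_smul_one, Algebra.algebraMap_eq_smul_one, smul_tmul]
  · change Algebra.TensorProduct.productMap f1 f2 (1 ⊗ₜ a) = U.p a
    rw [Algebra.TensorProduct.productMap_apply_tmul, map_one, one_mul]
    rfl

theorem nbImg : S_NbImg := by
  intro B _ _ _ t U
  let _ : Algebra B U.A := (U.ψ : B →+* U.A).toAlgebra
  have : Algebra.Etale B U.A := U.et
  have hopen : IsOpenMap (PrimeSpectrum.comap (U.ψ : B →+* U.A)) :=
    PrimeSpectrum.isOpenMap_comap_of_hasGoingDown_of_finitePresentation (R := B) (S := U.A)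
  have hmem : (kp t : PrimeSpectrum B) ∈ Set.range (PrimeSpectrum.comap (U.ψ : B →+* U.A)) :=
    ⟨kp U.p, PrimeSpectrum.ext (Ideal.ext fun b => by
      change U.p (U.ψ b) = 0 ↔ t b = 0
      rw [U.p_ψ])⟩
  obtain ⟨_, ⟨h, rfl⟩, h1, h2⟩ :=
    PrimeSpectrum.isTopologicalBasis_basic_opens.exists_subset_of_mem_open hmem
      hopen.isOpen_range
  refine ⟨h, h1, fun t' ht' => ?_⟩
  obtain ⟨q, hq⟩ := h2 (a := kp t') ht'
  obtain ⟨p', hp', -⟩ := CoverP.point_over nS U.ψ t' q hq 1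
    ((Ideal.ne_top_iff_one _).1 q.isPrime.ne_top)
  exact ⟨p', hp'⟩

theorem piNb : S_PiNb := by
  intro m A _ _
  refine ⟨fun i => ?_, fun p => ?_⟩
  · let _ : Algebra (∀ a, A a) (A i) := (Pi.evalAlgHom ℂ A i : (∀ i, A i) →+* A i).toAlgebra
    have : IsLocalization.Away (Pi.single i 1 : ∀ a, A a) (A i) := by
      refine IsLocalization.away_of_isIdempotentElem ?_ (RingHom.ker_evalRingHom _ _)
        ((Pi.evalRingHom A i).surjective)
      simp [IsIdempotentElem, ← Pi.single_mul_left]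
    exact Algebra.Etale.of_isLocalizationAway (Pi.single i 1 : ∀ a, A a)
  · have h1 : ∑ i, p (Pi.single i 1) = 1 := by
      rw [← map_sum, Finset.univ_sum_single (fun _ => 1 : ∀ a, A a)]
      exact map_one p
    obtain ⟨i, -, hi⟩ := Finset.exists_ne_zero_of_sum_ne_zero (h1.trans_ne one_ne_zero)
    have h2 : p (Pi.single i 1) = 1 := by
      refine mul_left_cancel₀ hi ?_
      rw [← map_mul, ← Pi.single_mul, mul_one, mul_one]
    have h3 : ∀ x : ∀ a, A a, p (Pi.single i (x i)) = p x := fun x => by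
      rw [← mul_one (x i), Pi.single_mul_right, map_mul, h2, mul_one]
    refine ⟨i, ⟨⟨⟨⟨fun a => p (Pi.single i a), h2⟩, fun a b => ?_⟩, ?_, fun a b => ?_⟩,
      fun c => ?_⟩, AlgHom.ext h3⟩
    · change p (Pi.single i (a * b)) = p (Pi.single i a) * p (Pi.single i b)
      rw [Pi.single_mul, map_mul]
    · change p (Pi.single i 0) = 0
      rw [Pi.single_zero, map_zero]
    · change p (Pi.single i (a + b)) = p (Pi.single i a) + p (Pi.single i b)
      rw [Pi.single_add, map_add]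
    · exact (h3 (algebraMap ℂ _ c)).trans (p.commutes c)

theorem nbCov : S_NbCov := by
  intro B _ _ _ U
  choose h h1 h2 using fun t => nbImg B t (U t)
  have hs : (1 : B) ∈ Ideal.span (Set.range h) := by
    by_contra hn
    obtain ⟨t, ht, -⟩ := nS B (Ideal.span (Set.range h)) 1 fun hr => hn (by
      obtain ⟨n, hn⟩ := hr
      rwa [one_pow] at hn)
    exact h1 t (ht _ (Ideal.subset_span ⟨t, rfl⟩))
  obtain ⟨T, hT, hT1⟩ := Submodule.mem_span_finite_of_mem_span hs
  choose g hg using fun x : T => hT x.2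
  let ts : Fin T.card → (B →ₐ[ℂ] ℂ) := fun i => g (T.equivFin.symm i)
  have h3 : ∀ t : B →ₐ[ℂ] ℂ, ∃ (i : Fin T.card) (p' : (U (ts i)).A →ₐ[ℂ] ℂ),
      p'.comp (U (ts i)).ψ = t := fun t => by
    have : ∃ x : T, t x ≠ 0 := by
      by_contra hc
      push Not at hc
      have h4 : Ideal.span (T : Set B) ≤ RingHom.ker t :=
        Ideal.span_le.2 fun x hx => hc ⟨x, hx⟩
      exact one_ne_zero ((map_one t).symm.trans (h4 hT1))
    obtain ⟨x, hx⟩ := this
    refine ⟨T.equivFin x, h2 _ t ?_⟩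
    simp only [ts, Equiv.symm_apply_apply]
    rwa [hg]
  let ψ : B →ₐ[ℂ] ∀ i, (U (ts i)).A := AlgHom.pi fun i => (U (ts i)).ψ
  let _ : ∀ i, Algebra B (U (ts i)).A := fun i => ((U (ts i)).ψ : B →+* (U (ts i)).A).toAlgebra
  have : ∀ i, Algebra.Etale B (U (ts i)).A := fun i => (U (ts i)).et
  have : ∀ i, IsScalarTower ℂ B (U (ts i)).A := fun i =>
    IsScalarTower.of_algebraMap_eq fun c => ((U (ts i)).ψ.commutes c).symm
  have e : (ψ : B →+* ∀ i, (U (ts i)).A) = algebraMap B (∀ i, (U (ts i)).A) := rfl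
  refine ⟨T.card, ts, ⟨?_, ?_⟩, Algebra.FiniteType.trans (S := B) inferInstance inferInstance, h3⟩
  · change (ψ : B →+* ∀ i, (U (ts i)).A).Etale
    rw [e]
    exact RingHom.etale_algebraMap.mpr inferInstance
  · change (ψ : B →+* ∀ i, (U (ts i)).A).FaithfullyFlat
    rw [e, RingHom.faithfullyFlat_algebraMap_iff]
    refine ⟨fun M hM hc => ?_⟩
    obtain ⟨t, ht, -⟩ := nS B M 1 (by
      rw [hM.isPrime.radical]
      exact (Ideal.ne_top_iff_one _).1 hM.ne_top)
    obtain ⟨i, p', hp'⟩ := h3 t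
    rw [Ideal.smul_top_eq_map, Submodule.restrictScalars_eq_top_iff] at hc
    have h4 : M.map (algebraMap B (∀ i, (U (ts i)).A)) ≤
        RingHom.ker (p'.comp (Pi.evalAlgHom ℂ (fun i => (U (ts i)).A) i)) :=
      Ideal.map_le_iff_le_comap.2 fun b hb => (AlgHom.congr_fun hp' b).trans (ht b hb)
    rw [hc] at h4
    exact one_ne_zero ((map_one _).symm.trans (h4 Submodule.mem_top))

end Pool.Agent.P.MP_2b2d3b_ag
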