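import Pool.Agent.P.MP_2b2d3b_ag.StE

/-!
Equality and descent along etale covers.
-/

namespace Pool.Agent.P.MP_2b2d3b_ag

open CategoryTheory AlgebraicGeometry Limits
open scoped TensorProduct

theorem nbEq (h : S_NbCov) : S_NbEq := by
  intro B _ _ _ Y y y' H
  choose U hU using H
  obtain ⟨m, ts, hc, -, -⟩ := h B U
  funext a
  exact hc.2.injective (funext fun i => hU (ts i) a)

namespace ENbBP

/-- morphisms out of the spectrum of a finite product -/
theorem pi_ext {m : ℕ} (A : Fin m → Type) [∀ i, CommRing (A i)] {X : Scheme.{0}}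
    (g g' : Spec (.of (∀ i, A i)) ⟶ X)
    (h : ∀ i, Spec.map (CommRingCat.ofHom (Pi.evalRingHom A i)) ≫ g =
      Spec.map (CommRingCat.ofHom (Pi.evalRingHom A i)) ≫ g') : g = g' := by
  rw [← cancel_epi (sigmaSpec fun i => CommRingCat.of (A i))]
  refine Sigma.hom_ext _ _ fun i => ?_
  rw [ι_sigmaSpec_assoc, ι_sigmaSpec_assoc]
  exact h i

theorem epi_spA {B B' : Type} [CommRing B] [Algebra ℂ B] [CommRing B'] [Algebra ℂ B']
    {ψ : B →ₐ[ℂ] B'} (h : IsCover ψ) : Epi (spA ψ) := by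
  obtain ⟨h1, h2⟩ := (flat_and_surjective_SpecMap_iff (CommRingCat.ofHom (ψ : B →+* B'))).2 h.2
  exact Flat.epi_of_flat_of_surjective _

end ENbBP

theorem nbHom (h : S_NbCov) : S_NbHom := by
  intro B _ _ _ X g g' H
  choose U hU using H
  obtain ⟨m, ts, hc, -, -⟩ := h B U
  have := ENbBP.epi_spA hc
  rw [← cancel_epi (spA (AlgHom.pi fun i => (U (ts i)).ψ))]
  refine ENbBP.pi_ext _ _ _ fun i => ?_
  have e : Spec.map (CommRingCat.ofHom (Pi.evalRingHom (fun i => (U (ts i)).A) i)) ≫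
      spA (AlgHom.pi fun i => (U (ts i)).ψ) = spA (U (ts i)).ψ := by
    rw [← Spec.map_comp]
    rfl
  rw [← Category.assoc, ← Category.assoc, e]
  exact hU (ts i)

theorem desc : S_Desc := by
  intro Y B B' _ _ _ _ _ _ _ ψ y' hc H
  let : Algebra B B' := (ψ : B →+* B').toAlgebra
  have : IsScalarTower ℂ B B' := IsScalarTower.of_algebraMap_eq fun c => (ψ.commutes c).symm
  have : Module.FaithfullyFlat B B' := hc.2
  have : Algebra.FiniteType B B' := Algebra.FiniteType.of_restrictScalars_finiteType ℂ B B'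
  have : Algebra.FiniteType ℂ (B' ⊗[B] B') :=
    Algebra.FiniteType.trans (S := B') inferInstance inferInstance
  have h1 := H (B' ⊗[B] B') (Algebra.TensorProduct.includeLeft (R := B) (S := ℂ))
    ((Algebra.TensorProduct.includeRight (R := B)).restrictScalars ℂ) (by
      ext b
      exact (Algebra.TensorProduct.tmul_one_eq_one_tmul (R := B) (A := B') (B := B') b))
  have h2 : ∀ a, y' a ∈ ψ.range := fun a => by
    obtain ⟨b, hb⟩ := (Algebra.IsEffective.of_faithfullyFlat B B' (y' a)).1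
      (sub_eq_zero.2 (AlgHom.congr_fun h1 a))
    exact ⟨b, hb⟩
  have h3 : Function.Injective ψ := hc.2.injective
  refine ⟨((AlgEquiv.ofInjective ψ h3).symm : ψ.range →ₐ[ℂ] B).comp (y'.codRestrict _ h2), ?_⟩
  ext a
  exact congrArg Subtype.val ((AlgEquiv.ofInjective ψ h3).apply_symm_apply ⟨y' a, h2 a⟩)

end Pool.Agent.P.MP_2b2d3b_ag
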