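import Pool.Agent.P.MP_2b2d3b_ag.StE

/-!
A functional of large shift whose fibre has no prime dividing all its values.
-/

namespace Pool.Agent.P.MP_2b2d3b_ag

open MvPolynomial

namespace EPrimP

section Abstract

variable {K R W U : Type} [Field K] [Infinite K] [CommRing R] [IsDomain R]
  [UniqueFactorizationMonoid R] [Algebra K R] [AddCommGroup W] [Module K W]

/-- the vectors all of whose values are divisible by `ρ` -/
def dv (L : W →ₗ[K] U → R) (ρ : R) : Submodule K W where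
  carrier := {w | ∀ u, ρ ∣ L w u}
  zero_mem' u := by simp
  add_mem' := fun h h' u => by
    rw [map_add, Pi.add_apply]
    exact dvd_add (h u) (h' u)
  smul_mem' c w h u := by
    rw [map_smul, Pi.smul_apply, Algebra.smul_def]
    exact Dvd.dvd.mul_left (h u) _

omit [Infinite K] [IsDomain R] [UniqueFactorizationMonoid R] in
theorem mem_dv {L : W →ₗ[K] U → R} {ρ : R} {w : W} : w ∈ dv L ρ ↔ ∀ u, ρ ∣ L w u := Iff.rfl

theorem avoid (L : W →ₗ[K] U → R) (v : W → U) (alt : ∀ w, L w (v w) = 0)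
    (h1 : ∀ ρ : R, Prime ρ → ∃ w u, ¬ ρ ∣ L w u)
    (h2 : ∃ w1 w2 u1, L w2 (v w1) ≠ 0 ∧ L w1 u1 ≠ 0) :
    ∃ w, ∀ ρ : R, Prime ρ → ∃ u, ¬ ρ ∣ L w u := by
  classical
  obtain ⟨w1, w2, u1, hb, hr⟩ := h2
  let S0 : Submodule K W := LinearMap.ker ((LinearMap.proj (v w1)).comp L)
  let T : Finset (Submodule K W) :=
    insert S0 ((UniqueFactorizationMonoid.factors (L w1 u1)).toFinset.image (dv L))
  have hT : ⊤ ∉ T := by
    intro h
    rcases Finset.mem_insert.mp h with h | h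
    · have : w2 ∈ S0 := h ▸ Submodule.mem_top
      exact hb this
    · obtain ⟨ρ, hρ, e⟩ := Finset.mem_image.mp h
      obtain ⟨w, u, hu⟩ := h1 ρ
        (UniqueFactorizationMonoid.prime_of_factor ρ (Multiset.mem_toFinset.mp hρ))
      have : w ∈ dv L ρ := e ▸ Submodule.mem_top
      exact hu (this u)
  obtain ⟨m, hm⟩ := (Set.ne_univ_iff_exists_notMem _).mp
    (Subspace.biUnion_ne_univ_of_top_notMem (k := K) hT)
  simp only [Set.mem_iUnion, not_exists] at hm
  have hb' : L m (v w1) ≠ 0 := hm S0 (Finset.mem_insert_self _ _)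
  have hm' : ∀ ρ : R, Prime ρ → w1 ∈ dv L ρ → m ∉ dv L ρ := by
    intro ρ hρ hw hmm
    obtain ⟨ρ', h', e⟩ :=
      UniqueFactorizationMonoid.exists_mem_factors_of_dvd hr hρ.irreducible (hw u1)
    refine hm (dv L ρ') (Finset.mem_insert_of_mem
      (Finset.mem_image_of_mem _ (Multiset.mem_toFinset.mpr h'))) ?_
    exact fun u => e.symm.dvd.trans (hmm u)
  have hfin : (⋃ ρ ∈ (UniqueFactorizationMonoid.factors (L m (v w1))).toFinset,
      {c : K | m + c • w1 ∈ dv L ρ}).Finite := by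
    refine Set.Finite.biUnion (Finset.finite_toSet _) fun ρ hρ => Set.Subsingleton.finite ?_
    intro c hc c' hc'
    by_contra hne
    have hp := UniqueFactorizationMonoid.prime_of_factor ρ (Multiset.mem_toFinset.mp hρ)
    have e1 : (c - c') • w1 ∈ dv L ρ := by
      have := (dv L ρ).sub_mem hc hc'
      rwa [add_sub_add_left_eq_sub, ← sub_smul] at this
    have e2 : w1 ∈ dv L ρ := ((dv L ρ).smul_mem_iff (sub_ne_zero.mpr hne)).mp e1
    refine hm' ρ hp e2 ?_
    have := (dv L ρ).sub_mem hc ((dv L ρ).smul_mem c e2)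
    rwa [add_sub_cancel_right] at this
  obtain ⟨c, hc⟩ := hfin.exists_notMem
  simp only [Set.mem_iUnion, not_exists] at hc
  refine ⟨m + c • w1, fun ρ hρ => ?_⟩
  by_contra h
  push Not at h
  have e : L (m + c • w1) (v w1) = L m (v w1) := by
    rw [map_add, map_smul, Pi.add_apply, Pi.smul_apply, alt, smul_zero, add_zero]
  obtain ⟨ρ', h', e'⟩ :=
    UniqueFactorizationMonoid.exists_mem_factors_of_dvd hb' hρ.irreducible (e ▸ h (v w1))
  exact hc ρ' (Multiset.mem_toFinset.mpr h') fun u => e'.symm.dvd.trans (h u)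

end Abstract

variable {F : Pol ℂ} {B : Type} [CommRing B] [Algebra ℂ B]

theorem not_dvd_X (hR : Rg F) {ρ : Rq F B} (hρ : ¬IsUnit ρ) :
    ∃ i : Fin 4, ¬ρ ∣ mq F B (X i) := by
  by_contra h
  push Not at h
  obtain ⟨α, hα⟩ := h 2
  obtain ⟨β, hβ⟩ := h 3
  obtain ⟨x, hx⟩ := hR.regR 1 (r := β) (r' := α) (by rw [pow_one, pow_one, hα, hβ]; ring)
  have := hR.nzdR (i := 3) (by decide) 1 (1 - ρ * x) (by
    rw [pow_one] at hx ⊢
    linear_combination hβ + ρ * hx)
  exact hρ (IsUnit.of_mul_eq_one x (sub_eq_zero.mp this).symm)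

variable {B' : Type} [CommRing B'] [Algebra ℂ B'] {φ : B →ₐ[ℂ] B'} {E : Bundle F B}
  {E' : Bundle F B'} {θ : E.M →+ E'.M}

/-- a functional with values in a prime on the images of generators has all values in it -/
theorem all_mem (h : Pull φ E E' θ) {ι : Type} {m : ι → E.M}
    (hm : Submodule.span (Pol B) (Set.range m) = ⊤) {P : Ideal (Rq F B')} (hP : P.IsPrime)
    {x : Fin 4} (hx : mq F B' (X x) ∉ P) (s : E'.M →ₗ[Pol B'] Rq F B')
    (hs : ∀ l, s (θ (m l)) ∈ P) (u : E'.M) : s u ∈ P := by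
  have h1 : ∀ y : E.M, s (θ y) ∈ P := fun y => by
    have hy : y ∈ Submodule.span (Pol B) (Set.range m) := hm ▸ Submodule.mem_top
    refine Submodule.span_induction (p := fun y _ => s (θ y) ∈ P) ?_ ?_ ?_ ?_ hy
    · rintro _ ⟨l, rfl⟩
      exact hs l
    · simp
    · intro a b _ _ ha hb
      rw [map_add, map_add]
      exact P.add_mem ha hb
    · intro a b _ hb
      rw [h.semi, map_smul, smul_mq]
      exact P.mul_mem_left _ hb
  obtain ⟨k, hk⟩ := h.surj u x
  have h2 : s ((X x : Pol B') ^ k • u) ∈ P := by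
    refine Submodule.span_induction (p := fun y _ => s y ∈ P) ?_ ?_ ?_ ?_ hk
    · rintro _ ⟨y, rfl⟩
      exact h1 y
    · simp
    · intro a b _ _ ha hb
      rw [map_add]
      exact P.add_mem ha hb
    · intro a b _ hb
      rw [map_smul, smul_mq]
      exact P.mul_mem_left _ hb
  rw [map_smul, smul_mq, map_pow] at h2
  exact (hP.mem_or_mem h2).resolve_left fun h3 => hx (hP.mem_of_pow_mem _ h3)

theorem gens_unit (h : Pull φ E E' θ) {ι : Type} {m : ι → E.M}
    (hm : Submodule.span (Pol B) (Set.range m) = ⊤) {P : Ideal (Rq F B')} (hP : P.IsPrime)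
    {x : Fin 4} (hx : mq F B' (X x) ∉ P) {ω : E'.M →ₗ[Pol B'] E'.M →ₗ[Pol B'] Rq F B'}
    (hω : Pairing E' ω) : ∃ l l', ω (θ (m l)) (θ (m l')) ∉ P := by
  by_contra hc
  push Not at hc
  obtain ⟨u, v, b, hb, e⟩ := hω.unit (P.comap (mq F B')) (Ideal.comap_isPrime _ _)
    (by rw [Ideal.mem_comap, mq_F]; exact P.zero_mem) ⟨x, hx⟩
  refine hb ?_
  rw [Ideal.mem_comap, ← e]
  exact all_mem h hm hP hx (ω u) (fun l' => all_mem h hm hP hx (ω.flip (θ (m l')))
    (fun l => hc l l') u) v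

end EPrimP

open EPrimP

theorem prim (hP : S_FrPull) : S_Prim := by
  intro F hF B _ _ E t E0 θ h D0
  classical
  have hR := hF.rg
  have := hF.dom
  have := hF.ufd'
  have := E.rankTwo.finite
  obtain ⟨ω, hω⟩ := E.exists_pairing
  obtain ⟨ω0, -, ⟨hω0, -, -⟩, hc, -⟩ := hP F hR B ℂ Empty t E E0 θ 0 ω (fun a => a.elim)
    (fun a => a.elim) h ⟨hω, fun a => a.elim, fun a => a.elim⟩
  obtain ⟨n, a, m, hm, hspan⟩ := E.gr.exists_gens
  let i := D0 + ∑ l, a l
  have hi : ∀ l, a l ≤ i := fun l => le_trans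
    (Finset.single_le_sum (f := a) (fun _ _ => Nat.zero_le _) (Finset.mem_univ l))
    (Nat.le_add_left _ _)
  let mm : (Fin n × Fin 4 → ℂ) → E.M := fun w =>
    ∑ p, (C (algebraMap ℂ B (w p)) * X p.2 ^ (i - a p.1) : Pol B) • m p.1
  have hmm : ∀ w, mm w ∈ E.gr.piece i := fun w => sum_mem fun p _ => by
    have h1 := E.gr.smul_mem _ _ _ _ ((isHomogeneous_C _ (algebraMap ℂ B (w p))).mul
      ((isHomogeneous_X B p.2).pow (i - a p.1))) (hm p.1)
    have h2 := hi p.1
    rwa [show a p.1 + (0 + 1 * (i - a p.1)) = i by omega] at h1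
  let L : (Fin n × Fin 4 → ℂ) →ₗ[ℂ] E0.M → Rq F ℂ := Fintype.linearCombination ℂ
    fun p u => mq F ℂ (X p.2) ^ (i - a p.1) * ω0 (θ (m p.1)) u
  have hL : ∀ w u, L w u = ω0 (θ (mm w)) u := fun w u => by
    simp only [L, mm, Fintype.linearCombination_apply, Finset.sum_apply, Pi.smul_apply, map_sum,
      LinearMap.sum_apply]
    refine Finset.sum_congr rfl fun p _ => ?_
    have e1 : ∀ (c : ℂ) (r : Rq F ℂ), c • r = mq F ℂ (C c) * r := fun c r => Algebra.smul_def c r
    rw [h.semi, map_smul, LinearMap.smul_apply, smul_mq, e1, map_mul, map_C, map_pow,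
      map_X, map_mul, map_pow, mul_assoc, RingHom.coe_coe, AlgHom.commutes]
    rfl
  have key : ∀ P : Ideal (Rq F ℂ), P.IsPrime → ∀ x, mq F ℂ (X x) ∉ P →
      ∃ w w', L w (θ (mm w')) ∉ P := by
    intro P hp x hx
    obtain ⟨l, l', hl⟩ := gens_unit h hspan hp hx hω0
    have e : ∀ l u, L (Pi.single (l, x) 1) u = mq F ℂ (X x) ^ (i - a l) * ω0 (θ (m l)) u :=
      fun l u => by
        simp only [L, Fintype.linearCombination_apply_single, one_smul]
    refine ⟨Pi.single (l, x) 1, Pi.single (l', x) 1, ?_⟩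
    rw [e, hω0.skew, ← hL, e, hω0.skew]
    intro h3
    rw [show ∀ p q r : Rq F ℂ, p * -(q * -r) = p * (q * r) from fun p q r => by ring] at h3
    rcases hp.mem_or_mem h3 with h4 | h4
    · exact hx (hp.mem_of_pow_mem _ h4)
    · rcases hp.mem_or_mem h4 with h5 | h5
      · exact hx (hp.mem_of_pow_mem _ h5)
      · exact hl h5
  obtain ⟨w, hw⟩ := avoid L (fun w => θ (mm w)) (fun w => by rw [hL, hω0.alt])
    (fun ρ hρ => by
      obtain ⟨x, hx⟩ := not_dvd_X hR hρ.not_isUnit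
      obtain ⟨w, w', h1⟩ := key (Ideal.span {ρ}) ((Ideal.span_singleton_prime hρ.ne_zero).mpr hρ)
        x (by rwa [Ideal.mem_span_singleton])
      exact ⟨w, _, by rwa [Ideal.mem_span_singleton] at h1⟩)
    (by
      obtain ⟨w, w', h1⟩ := key ⊥ Ideal.isPrime_bot 3 (by
        rw [Ideal.mem_bot]
        intro h0
        exact one_ne_zero (hR.nzdR (B := ℂ) (i := 3) (by decide) 1 1
          (by rw [pow_one, h0, zero_mul])))
      rw [Ideal.mem_bot] at h1
      refine ⟨w', w, θ (mm w), h1, ?_⟩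
      rw [hL, hω0.skew, ← hL]
      exact neg_ne_zero.mpr h1)
  refine ⟨i, Nat.le_add_right _ _, ω (mm w), ω0 (θ (mm w)), hω.isFun (hmm w),
    hω0.isFun (h.hom _ _ (hmm w)), fun u => hc _ _, fun ρ hρ => ?_⟩
  obtain ⟨u, hu⟩ := hw ρ hρ
  exact ⟨u, by rwa [hL] at hu⟩

end Pool.Agent.P.MP_2b2d3b_ag
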