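import Pool.Agent.P.MP_2b2d3b_ag.StE

/-!
A bundle over a finite product of rings from bundles over the factors.
-/

namespace Pool.Agent.P.MP_2b2d3b_ag

open MvPolynomial

namespace EProdP

variable {F : Pol ℂ} {m : ℕ} {A : Fin m → Type} [∀ i, CommRing (A i)] [∀ i, Algebra ℂ (A i)]

/-- the projection to a factor -/
noncomputable abbrev pr (A : Fin m → Type) [∀ i, CommRing (A i)] [∀ i, Algebra ℂ (A i)]
    (i : Fin m) : Pol (∀ i, A i) →+* Pol (A i) :=
  map (Pi.evalAlgHom ℂ A i : (∀ i, A i) →+* A i)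

theorem coeff_pr (i : Fin m) (b : Pol (∀ i, A i)) (d : Fin 4 →₀ ℕ) :
    coeff d (pr A i b) = coeff d b i := coeff_map _ _ _

theorem pr_ext {a b : Pol (∀ i, A i)} (h : ∀ i, pr A i a = pr A i b) : a = b :=
  MvPolynomial.ext _ _ fun d => funext fun i => by rw [← coeff_pr, ← coeff_pr, h]

theorem exists_glue (a : ∀ i, Pol (A i)) : ∃ b : Pol (∀ i, A i), ∀ i, pr A i b = a i := by
  classical
  refine ⟨∑ d ∈ Finset.univ.biUnion fun i => (a i).support, monomial d fun i => coeff d (a i),
    fun i => MvPolynomial.ext _ _ fun d => ?_⟩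
  rw [coeff_pr, coeff_sum]
  simp only [coeff_monomial, Finset.sum_ite_eq']
  split_ifs with h
  · rfl
  · exact (notMem_support_iff.mp fun h' => h (Finset.mem_biUnion.mpr ⟨i, by simp, h'⟩)).symm

/-- the polynomial with given projections -/
noncomputable def glue (a : ∀ i, Pol (A i)) : Pol (∀ i, A i) := (exists_glue a).choose

theorem pr_glue (a : ∀ i, Pol (A i)) (i : Fin m) : pr A i (glue a) = a i :=
  (exists_glue a).choose_spec i

theorem hom_of_pr {b : Pol (∀ i, A i)} {n : ℕ} (h : ∀ i, (pr A i b).IsHomogeneous n) :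
    b.IsHomogeneous n := fun d hd => by
  obtain ⟨i, hi⟩ := Function.ne_iff.mp hd
  exact h i (by rwa [coeff_pr])

theorem mem_of_pr {b : Pol (∀ i, A i)} (h : ∀ i, pr A i b ∈ Ideal.span {bc F (A i)}) :
    b ∈ Ideal.span {bc F (∀ i, A i)} := by
  choose c hc using fun i => Ideal.mem_span_singleton'.mp (h i)
  exact Ideal.mem_span_singleton'.mpr ⟨glue c, pr_ext fun i => by
    rw [map_mul, pr_glue, map_bc, hc]⟩

theorem mapR_ext {r s : Rq F (∀ i, A i)}
    (h : ∀ i, mapR F (Pi.evalAlgHom ℂ A i) r = mapR F (Pi.evalAlgHom ℂ A i) s) : r = s := by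
  obtain ⟨a, rfl⟩ := mq_surj r
  obtain ⟨b, rfl⟩ := mq_surj s
  exact mq_eq.mpr (mem_of_pr fun i => by rw [map_sub]; exact mq_eq.mp (h i))

/-- the class with given projections -/
noncomputable def glueR (r : ∀ i, Rq F (A i)) : Rq F (∀ i, A i) :=
  mq F _ (glue fun i => (mq_surj (r i)).choose)

theorem mapR_glueR (r : ∀ i, Rq F (A i)) (i : Fin m) :
    mapR F (Pi.evalAlgHom ℂ A i) (glueR r) = r i := by
  rw [glueR, mapR_mq, pr_glue, (mq_surj (r i)).choose_spec]

/-- extension by zero -/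
noncomputable def sec (i : Fin m) (a : Pol (A i)) : Pol (∀ i, A i) :=
  glue (Pi.single (M := fun i => Pol (A i)) i a)

theorem pr_sec (i : Fin m) (a : Pol (A i)) : pr A i (sec i a) = a := by
  rw [sec, pr_glue, Pi.single_eq_same]

theorem pr_sec_ne {i j : Fin m} (h : j ≠ i) (a : Pol (A i)) : pr A j (sec i a) = 0 := by
  rw [sec, pr_glue, Pi.single_eq_of_ne h]

theorem sec_mul (i : Fin m) (a : Pol (A i)) (b : Pol (∀ i, A i)) :
    sec i (a * pr A i b) = sec i a * b := pr_ext fun j => by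
  rcases eq_or_ne j i with rfl | h
  · rw [map_mul, pr_sec, pr_sec]
  · rw [map_mul, pr_sec_ne h, pr_sec_ne h, zero_mul]

theorem prime_data {q : Ideal (Pol (∀ i, A i))} (hq : q.IsPrime) :
    ∃ (i : Fin m) (q' : Ideal (Pol (A i))), q'.IsPrime ∧ (∀ a, a ∈ q' ↔ sec i a ∈ q) ∧
      ∀ b, pr A i b ∈ q' ↔ b ∈ q := by
  have h1 : ∑ i, sec i 1 = (1 : Pol (∀ i, A i)) := pr_ext fun j => by
    rw [map_sum, Finset.sum_eq_single j (fun i _ h => pr_sec_ne h.symm _) (by simp), pr_sec,
      map_one]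
  have h2 : ∃ i, sec i 1 ∉ q := by
    by_contra h
    push Not at h
    exact (Ideal.ne_top_iff_one q).mp hq.ne_top (h1 ▸ q.sum_mem fun i _ => h i)
  obtain ⟨i, hi⟩ := h2
  have mul : ∀ a b : Pol (A i), sec i (a * b) = sec i a * sec i b := fun a b => by
    rw [← sec_mul, pr_sec]
  have add : ∀ a b : Pol (A i), sec i (a + b) = sec i a + sec i b := fun a b => pr_ext fun j => by
    rcases eq_or_ne j i with rfl | h
    · simp only [map_add, pr_sec]
    · simp only [map_add, pr_sec_ne h, add_zero]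
  have zero : sec i 0 = (0 : Pol (∀ i, A i)) := by simpa using sec_mul (A := A) i 0 0
  let q' : Ideal (Pol (A i)) :=
    { carrier := {a | sec i a ∈ q}
      zero_mem' := by change sec i 0 ∈ q; rw [zero]; exact q.zero_mem
      add_mem' := fun {a b} ha hb => by change sec i _ ∈ q; rw [add]; exact q.add_mem ha hb
      smul_mem' := fun c a ha => by
        change sec i (c * a) ∈ q; rw [mul]; exact q.mul_mem_left _ ha }
  refine ⟨i, q', ⟨(Ideal.ne_top_iff_one _).mpr hi, fun {a b} h => ?_⟩, fun _ => Iff.rfl,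
    fun b => ?_⟩
  · exact hq.mem_or_mem (mul a b ▸ h : sec i a * sec i b ∈ q)
  · change sec i _ ∈ q ↔ _
    rw [← one_mul (pr A i b), sec_mul]
    exact ⟨fun h => (hq.mem_or_mem h).resolve_left hi, q.mul_mem_left _⟩

variable (E : ∀ i, Bundle F (A i))

/-- the module structure on the product -/
noncomputable local instance modP : Module (Pol (∀ i, A i)) (∀ i, (E i).M) :=
  Module.compHom _ (RingHom.pi (pr A))

theorem smul_ap (a : Pol (∀ i, A i)) (u : ∀ i, (E i).M) (i : Fin m) :
    (a • u) i = pr A i a • u i := rfl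

theorem sec_smul (i : Fin m) (a : Pol (A i)) (u : ∀ i, (E i).M) :
    sec i a • u = Pi.single (M := fun i => (E i).M) i (a • u i) := funext fun j => by
  rcases eq_or_ne j i with rfl | h
  · rw [smul_ap, pr_sec, Pi.single_eq_same]
  · rw [smul_ap, pr_sec_ne h, zero_smul, Pi.single_eq_of_ne h]

theorem single_mem (N : Submodule (Pol (∀ i, A i)) (∀ i, (E i).M)) (i : Fin m) {T : Set (E i).M}
    (h : ∀ t ∈ T, Pi.single (M := fun i => (E i).M) i t ∈ N) {x : (E i).M}
    (hx : x ∈ Submodule.span (Pol (A i)) T) : Pi.single (M := fun i => (E i).M) i x ∈ N := by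
  refine Submodule.span_induction (p := fun x _ => Pi.single (M := fun i => (E i).M) i x ∈ N)
    h ?_ ?_ ?_ hx
  · rw [Pi.single_zero]; exact N.zero_mem
  · intro x y _ _ hx hy
    rw [Pi.single_add]; exact N.add_mem hx hy
  · intro a x _ hx
    have := N.smul_mem (sec i a) hx
    rwa [sec_smul, Pi.single_eq_same] at this

theorem mem_of_single (N : Submodule (Pol (∀ i, A i)) (∀ i, (E i).M)) {u : ∀ i, (E i).M}
    (h : ∀ i, Pi.single (M := fun i => (E i).M) i (u i) ∈ N) : u ∈ N := by
  rw [← Finset.univ_sum_single u]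
  exact N.sum_mem fun i _ => h i

/-- the grading of the product -/
noncomputable def gr : Grading (∀ i, A i) (∀ i, (E i).M) where
  piece d := AddSubgroup.pi Set.univ fun i => (E i).gr.piece d
  span u := by
    choose N _ hN using fun i => (E i).gr.sum_cp (u i)
    refine ⟨∑ i, N i, fun d i => (E i).gr.cp d (u i), fun d i _ => (E i).gr.cp_mem d _,
      funext fun i => ?_⟩
    rw [Finset.sum_apply, hN i _
      (Finset.single_le_sum (fun _ _ => Nat.zero_le _) (Finset.mem_univ i))]
  indep N c hc h d hd := funext fun i =>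
    (E i).gr.indep N (fun d => c d i) (fun d => hc d i trivial)
      (by rw [← Finset.sum_apply, h]; rfl) d hd
  smul_mem n d a u ha hu i _ := (E i).gr.smul_mem n d _ _ (ha.map _) (hu i trivial)

theorem rank : IsRankTwoBundle (bc F (∀ i, A i)) (∀ i, (E i).M) where
  finite := by
    classical
    choose s hs using fun i => (E i).rankTwo.finite.fg_top
    refine ⟨⟨Finset.univ.biUnion fun i => (s i).image (Pi.single (M := fun i => (E i).M) i),
      eq_top_iff.mpr fun u _ => mem_of_single E _ fun i => single_mem E _ i (T := s i)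
        (fun t ht => Submodule.subset_span ?_) (by rw [hs]; trivial)⟩⟩
    exact Finset.mem_coe.mpr (Finset.mem_biUnion.mpr
      ⟨i, Finset.mem_univ i, Finset.mem_image_of_mem _ ht⟩)
  kill u := funext fun i => by
    rw [smul_ap, map_bc]; exact (E i).rankTwo.kill _
  locFree q hq hX := by
    obtain ⟨i, q', h1, h2, h3⟩ := prime_data hq
    obtain ⟨m1, m2, g1, g2⟩ := (E i).rankTwo.locFree q' h1
      (hX.imp fun j hj h => hj ((h3 _).mp (by rwa [map_X])))
    refine ⟨Pi.single i m1, Pi.single i m2, fun u => ?_, fun a b h => ?_⟩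
    · obtain ⟨s, hs, a, b, e⟩ := g1 (u i)
      refine ⟨sec i s, fun h => hs ((h2 s).mpr h), sec i a, sec i b, ?_⟩
      rw [sec_smul, sec_smul, sec_smul, Pi.single_eq_same, Pi.single_eq_same, e, Pi.single_add]
    · have := congrFun h i
      rw [Pi.add_apply, smul_ap, smul_ap, Pi.single_eq_same, Pi.single_eq_same] at this
      obtain ⟨s, hs, e1, e2⟩ := g2 _ _ this
      have key : ∀ c, s * pr A i c ∈ Ideal.span {bc F (A i)} →
          sec i s * c ∈ Ideal.span {bc F (∀ i, A i)} := fun c hc => mem_of_pr fun j => by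
        rcases eq_or_ne j i with rfl | h
        · rwa [map_mul, pr_sec]
        · rw [map_mul, pr_sec_ne h, zero_mul]; exact Ideal.zero_mem _
      exact ⟨sec i s, fun h => hs ((h2 s).mpr h), key a e1, key b e2⟩

theorem det : (gr E).HasDet (bc F (∀ i, A i)) (Rq F (∀ i, A i)) := by
  choose ω h1 h2 h3 using fun i => (E i).det
  have sm : ∀ (i : Fin m) (c : Pol (∀ i, A i)) (r : Rq F (∀ i, A i)),
      mapR F (Pi.evalAlgHom ℂ A i) (c • r) = pr A i c • mapR F (Pi.evalAlgHom ℂ A i) r :=
    fun i => semi_mapR (Pi.evalAlgHom ℂ A i)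
  refine ⟨LinearMap.mk₂ _ (fun u v => glueR fun i => ω i (u i) (v i))
    (fun u u' v => mapR_ext fun i => ?_) (fun c u v => mapR_ext fun i => ?_)
    (fun u v v' => mapR_ext fun i => ?_) (fun c u v => mapR_ext fun i => ?_),
    fun u => mapR_ext fun i => ?_, fun d e u hu v hv => ?_, fun q hq hF hX => ?_⟩
  · simp only [map_add, mapR_glueR, Pi.add_apply, LinearMap.add_apply]
  · rw [sm, mapR_glueR, mapR_glueR, smul_ap, map_smul, LinearMap.smul_apply]
  · simp only [map_add, mapR_glueR, Pi.add_apply]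
  · rw [sm, mapR_glueR, mapR_glueR, smul_ap, map_smul]
  · rw [LinearMap.mk₂_apply, mapR_glueR, h1, map_zero]
  · choose b hb e using fun i => h2 i d e _ (hu i trivial) _ (hv i trivial)
    refine ⟨glue b, hom_of_pr fun i => by rw [pr_glue]; exact hb i, mapR_ext fun i => ?_⟩
    rw [LinearMap.mk₂_apply, mapR_glueR, e]
    exact (congrArg (mq F (A i)) (pr_glue b i)).symm
  · obtain ⟨i, q', g1, g2, g3⟩ := prime_data hq
    obtain ⟨u, v, b, hb, e⟩ := h3 i q' g1 (by rw [← map_bc (Pi.evalAlgHom ℂ A i)]; exact (g3 _).mpr hF)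
      (hX.imp fun j hj h => hj ((g3 _).mp (by rwa [map_X])))
    refine ⟨Pi.single i u, Pi.single i v, sec i b, fun h => hb ((g2 b).mpr h),
      mapR_ext fun j => ?_⟩
    rw [LinearMap.mk₂_apply, mapR_glueR]
    change _ = mq F (A j) (pr A j (sec i b))
    rcases eq_or_ne j i with rfl | h
    · rw [Pi.single_eq_same, Pi.single_eq_same, e, pr_sec]; rfl
    · rw [Pi.single_eq_of_ne h, Pi.single_eq_of_ne h, h1, pr_sec_ne h, map_zero]

theorem univ {B : Type} [CommRing B] [Algebra ℂ B] (ψ : ∀ i, B →ₐ[ℂ] A i) (E0 : Bundle F B)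
    (h : ∀ i, IsPull (ψ i) E0 (E i)) :
    Grading.MapsOnto (AlgHom.pi ψ : B →+* ∀ i, A i) E0.gr (gr E) := by
  choose θ h1 h2 h3 using h
  refine ⟨AddMonoidHom.pi θ, fun a u => funext fun i => ?_, fun d u hu i _ => h2 i d u hu,
    fun u j => ?_⟩
  · rw [smul_ap, map_map]
    exact h1 i a u
  · choose k hk using fun i => h3 i (u i) j
    refine ⟨∑ i, k i, mem_of_single E _ fun i => single_mem E _ i (T := Set.range (θ i)) ?_ ?_⟩
    · rintro _ ⟨x, rfl⟩
      have := Submodule.smul_mem (Submodule.span (Pol (∀ i, A i)) (Set.range (AddMonoidHom.pi θ)))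
        (sec i 1) (Submodule.subset_span ⟨x, rfl⟩)
      rwa [sec_smul, one_smul] at this
    · obtain ⟨l, hl⟩ := Nat.exists_eq_add_of_le'
        (Finset.single_le_sum (f := k) (fun _ _ => Nat.zero_le _) (Finset.mem_univ i))
      rw [smul_ap, map_pow, map_X, hl, pow_add, mul_smul]
      exact Submodule.smul_mem _ _ (hk i)

theorem proj (i : Fin m) :
    Grading.MapsOnto (Pi.evalAlgHom ℂ A i : (∀ i, A i) →+* A i) (gr E) (E i).gr :=
  ⟨Pi.evalAddMonoidHom (fun i => (E i).M) i, fun _ _ => rfl, fun _ _ hu => hu i trivial,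
    fun u _ => ⟨0, Submodule.subset_span ⟨Pi.single i u, by simp⟩⟩⟩

/-- the bundle over the product -/
noncomputable def bun : Bundle F (∀ i, A i) :=
  { M := ∀ i, (E i).M, gr := gr E, rankTwo := rank E, det := det E }

end EProdP

theorem prod : S_Prod := fun _ _ _ _ _ E =>
  ⟨EProdP.bun E, EProdP.proj E, fun _ _ _ ψ E0 h => EProdP.univ E ψ E0 h⟩

end Pool.Agent.P.MP_2b2d3b_ag
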