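import Pool.Agent.P.MP_2b2d3b_ag.Kn

/-!
Serre data in a box exist near a point where the functional is primitive.
-/

namespace Pool.Agent.P.MP_2b2d3b_ag

open MvPolynomial RepP

namespace ERepFamP

section Poly

variable {B : Type} [CommRing B] {B' : Type} [CommRing B']

/-- the ideal contains all forms of degree at least `D` -/
def Big (J : Ideal (Pol B)) (D : ℕ) : Prop :=
  ∀ n ≥ D, ∀ a : Pol B, a.IsHomogeneous n → a ∈ J

theorem big_of {J : Ideal (Pol B)} {D : ℕ} (h : ∀ a : Pol B, a.IsHomogeneous D → a ∈ J) :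
    Big J (4 * D) := fun n hn a ha => by
  refine Ideal.span_le.mpr ?_ (hom_mem_pow ha hn)
  rintro _ ⟨i, rfl⟩
  exact h _ (by simpa using (isHomogeneous_X B i).pow D)

theorem map_comp (φ : B →+* B') (d : ℕ) (a : Pol B) :
    map φ (homogeneousComponent d a) = homogeneousComponent d (map φ a) := by
  ext m
  simp only [coeff_map, coeff_homogeneousComponent]
  split_ifs <;> simp

theorem hom_map (φ : B →+* B') {h : B} (hh : IsUnit (φ h)) {I : Ideal (Pol B)}
    {J : Ideal (Pol B')} (hJ : I.map (map φ) ≤ J) {D : ℕ}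
    (hD : ∀ a : Pol B, a.IsHomogeneous D → C h * a ∈ I) (a : Pol B') (ha : a.IsHomogeneous D) :
    a ∈ J := by
  obtain ⟨v, hv⟩ := hh.exists_left_inv
  rw [← form_coeff ha, form]
  refine Ideal.sum_mem _ fun m _ => ?_
  have h1 := J.mul_mem_left (C (coeff m.1 a * v))
    (hJ (Ideal.mem_map_of_mem _ (hD _ (isHomogeneous_monomial (1 : B) m.2))))
  rwa [map_mul, map_mul, map_C, map_monomial, map_one, C_mul_monomial, ← map_mul, C_mul_monomial,
    mul_one, mul_assoc, hv, mul_one] at h1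

theorem homI_sup {I : Ideal (Pol B)} (hI : HomI I) {w : Pol B} (h1 : w.IsHomogeneous 1) :
    HomI (I ⊔ Ideal.span {w}) := by
  intro b hb d
  obtain ⟨x, hx, z, hz, rfl⟩ := Submodule.mem_sup.mp hb
  rw [map_add]
  exact add_mem (Ideal.mem_sup_left (hI x hx d)) (Ideal.mem_sup_right (comp_mem_one h1 hz d))

theorem split {I : Ideal (Pol B)} (hI : HomI I) {w : Pol B} (h1 : w.IsHomogeneous 1) {a : Pol B}
    {n : ℕ} (ha : a.IsHomogeneous (n + 1)) (h : a ∈ I ⊔ Ideal.span {w}) :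
    ∃ x ∈ I, ∃ z : Pol B, x.IsHomogeneous (n + 1) ∧ z.IsHomogeneous n ∧ a = x + z * w := by
  obtain ⟨x, hx, z, hz, e⟩ := Submodule.mem_sup.mp h
  obtain ⟨c, rfl⟩ := Ideal.mem_span_singleton'.mp hz
  have e2 := congrArg (homogeneousComponent (n + 1)) e
  rw [map_add, comp_mul h1, homogeneousComponent_eq_self ha] at e2
  exact ⟨_, hI x hx _, _, homogeneousComponent_isHomogeneous _ _,
    homogeneousComponent_isHomogeneous _ _, e2.symm⟩

/-- every polynomial is congruent to a form of given large degree -/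
theorem red {I : Ideal (Pol B)} (hI : HomI I) {w : Pol B} (h1 : w.IsHomogeneous 1) {D D' : ℕ}
    (hD : Big (I ⊔ Ideal.span {w}) D) (hD' : D ≤ D') (a : Pol B) :
    ∃ a' : Pol B, a'.IsHomogeneous D' ∧ a - a' ∈ I ⊔ Ideal.span {w - 1} := by
  let ev := Ideal.Quotient.mk (I ⊔ Ideal.span {w - 1})
  have hw : ev w = 1 := by
    rw [← map_one ev]
    exact Ideal.Quotient.eq.mpr (Ideal.mem_sup_right (Ideal.mem_span_singleton_self _))
  have up : ∀ (k : ℕ) (a : Pol B), a.IsHomogeneous (D' + k) →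
      ∃ a' : Pol B, a'.IsHomogeneous D' ∧ ev a = ev a' := by
    intro k
    induction k with
    | zero => exact fun a ha => ⟨a, ha, rfl⟩
    | succ k ih =>
      intro a ha
      obtain ⟨x, hx, z, -, hz, rfl⟩ := split hI h1 (n := D' + k) ha (hD _ (by omega) a ha)
      obtain ⟨a', h2, h3⟩ := ih z hz
      refine ⟨a', h2, ?_⟩
      rw [map_add, map_mul, hw, mul_one, h3,
        Ideal.Quotient.eq_zero_iff_mem.mpr (Ideal.mem_sup_left hx), zero_add]
  have key : ∀ (n : ℕ) (a : Pol B), a.IsHomogeneous n →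
      ∃ a' : Pol B, a'.IsHomogeneous D' ∧ ev a = ev a' := by
    intro n a ha
    rcases le_total n D' with h | h
    · obtain ⟨k, rfl⟩ := Nat.exists_eq_add_of_le h
      exact ⟨a * w ^ k, ha.mul (by simpa using h1.pow k), by
        rw [map_mul, map_pow, hw, one_pow, mul_one]⟩
    · obtain ⟨k, rfl⟩ := Nat.exists_eq_add_of_le h
      exact up k a ha
  choose f h2 h3 using fun n => key n _ (homogeneousComponent_isHomogeneous n a)
  refine ⟨∑ n ∈ Finset.range (a.totalDegree + 1), f n, IsHomogeneous.sum _ _ _ fun n _ => h2 n,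
    Ideal.Quotient.eq.mp ?_⟩
  change ev a = ev _
  conv_lhs => rw [← sum_homogeneousComponent a]
  rw [map_sum, map_sum]
  exact Finset.sum_congr rfl fun n _ => h3 n

/-- a quotient is spanned by the forms of degree `D` -/
theorem surj_form {K : Ideal (Pol B)} {D : ℕ}
    (h : ∀ a : Pol B, ∃ a' : Pol B, a'.IsHomogeneous D ∧ a - a' ∈ K) :
    Function.Surjective ((Ideal.Quotient.mkₐ B K).toLinearMap ∘ₗ formL B D) := by
  intro y
  obtain ⟨a, rfl⟩ := Ideal.Quotient.mk_surjective y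
  obtain ⟨a', h1, h2⟩ := h a
  refine ⟨fun m => coeff m.1 a', ?_⟩
  change Ideal.Quotient.mk K (form _) = _
  rw [form_coeff h1]
  exact (Ideal.Quotient.eq.mpr h2).symm

/-- a monic binary form in an ideal that has no zero on `w = 0` -/
theorem exists_monic [Nontrivial B] {I : Ideal (Pol B)} (hI : HomI I) {w : Pol B}
    (h1 : w.IsHomogeneous 1) {D : ℕ} (hD : Big (I ⊔ Ideal.span {w}) D) (i : Fin 4) (j : ℕ) :
    ∃ (p : Polynomial B) (n d : ℕ), p.Monic ∧ p.natDegree = n + 1 ∧ d + j = n + 1 ∧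
      hm (X i) w p (n + 1) ∈ I := by
  let K := I ⊔ Ideal.span {w - 1}
  let ev := Ideal.Quotient.mkₐ B K
  have hw : ev w = 1 := by
    rw [← map_one ev]
    exact Ideal.Quotient.eq.mpr (Ideal.mem_sup_right (Ideal.mem_span_singleton_self _))
  have : Module.Finite B (Pol B ⧸ K) :=
    Module.Finite.of_surjective _ (surj_form (red hI h1 hD le_rfl))
  obtain ⟨p, hp, hp0⟩ := IsIntegral.of_finite B (ev (X i))
  have hX : (X i : Pol B).IsHomogeneous 1 := isHomogeneous_X B i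
  have hg : hm (X i) w p p.natDegree ∈ K := by
    rw [← Ideal.Quotient.eq_zero_iff_mem]
    change ev _ = 0
    rw [aeval_hm ev hw le_rfl]
    exact hp0
  obtain ⟨k, hk⟩ := dehom B I w _ _ hI h1 (hm_hom hX h1 p _) hg
  obtain ⟨x, hx, z, hz, e⟩ :=
    Submodule.mem_sup.mp (hD D le_rfl (X i ^ D) (by simpa using hX.pow D))
  obtain ⟨c, rfl⟩ := Ideal.mem_span_singleton'.mp hz
  have h2 : X i ^ (D * k) * hm (X i) w p p.natDegree ∈ I := by
    rw [← Ideal.Quotient.eq_zero_iff_mem] at hk hx ⊢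
    rw [pow_mul, ← e]
    simp only [map_mul, map_pow, map_add, hx, zero_add, mul_pow] at hk ⊢
    rw [mul_assoc, hk, mul_zero]
  refine ⟨Polynomial.X ^ (D * k + j + 1) * p, D * k + j + p.natDegree, D * k + p.natDegree + 1,
    (Polynomial.monic_X_pow _).mul hp, ?_, by omega, ?_⟩
  · rw [(Polynomial.monic_X_pow _).natDegree_mul hp, Polynomial.natDegree_X_pow]; omega
  · rw [show D * k + j + p.natDegree + 1 = D * k + j + 1 + p.natDegree by omega,
      hm_mul _ _ (Polynomial.natDegree_X_pow_le _) le_rfl, hm_X_pow,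
      show D * k + j + 1 = j + 1 + D * k by omega, pow_add, mul_assoc]
    exact I.mul_mem_left _ h2

/-- a basis of a finite Gorenstein algebra by forms -/
theorem exists_basis (Λ : Pol ℂ →ₗ[ℂ] ℂ) {D : ℕ}
    (h : ∀ a : Pol ℂ, ∃ a' : Pol ℂ, a'.IsHomogeneous D ∧ a - a' ∈ rad Λ) :
    ∃ (l : ℕ) (b : Fin l → Pol ℂ), (∀ i, (b i).IsHomogeneous D) ∧
      (∀ a, ∃ r : Fin l → ℂ, a - ∑ i, C (r i) * b i ∈ rad Λ) ∧
      (Matrix.of fun i j => Λ (b i * b j)).det ≠ 0 := by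
  have hs := surj_form h
  have : Module.Finite ℂ (Pol ℂ ⧸ rad Λ) := Module.Finite.of_surjective _ hs
  let β := Module.finBasis ℂ (Pol ℂ ⧸ rad Λ)
  choose c hc using fun i => hs (β i)
  have hb : ∀ i, Ideal.Quotient.mkₐ ℂ (rad Λ) (form (c i)) = β i := hc
  have hsum : ∀ r : Fin (Module.finrank ℂ (Pol ℂ ⧸ rad Λ)) → ℂ,
      Ideal.Quotient.mkₐ ℂ (rad Λ) (∑ i, C (r i) * form (c i)) = ∑ i, r i • β i := fun r => by
    simp only [← smul_eq_C_mul, map_sum, map_smul, hb]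
  have hsp : ∀ a, ∃ r : Fin (Module.finrank ℂ (Pol ℂ ⧸ rad Λ)) → ℂ,
      a - ∑ i, C (r i) * form (c i) ∈ rad Λ := fun a =>
    ⟨β.repr (Ideal.Quotient.mkₐ ℂ (rad Λ) a), Ideal.Quotient.eq.mp (by
      have := hsum (β.repr (Ideal.Quotient.mkₐ ℂ (rad Λ) a))
      rw [β.sum_repr] at this
      exact this.symm)⟩
  refine ⟨_, fun i => form (c i), fun i => form_hom _, hsp, fun hd => ?_⟩
  obtain ⟨v, hv, e⟩ := Matrix.exists_vecMul_eq_zero_iff.mpr hd
  have h1 : ∀ j, Λ ((∑ i, C (v i) * form (c i)) * form (c j)) = 0 := fun j => by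
    have := congrFun e j
    simp only [Matrix.vecMul, dotProduct, Matrix.of_apply, Pi.zero_apply] at this
    simpa only [Finset.sum_mul, map_sum, ← smul_eq_C_mul, smul_mul_assoc, map_smul, smul_eq_mul]
      using this
  have h2 : ∑ i, C (v i) * form (c i) ∈ rad Λ := fun a => by
    obtain ⟨r, hr⟩ := hsp a
    have h3 := hr (∑ i, C (v i) * form (c i))
    generalize ∑ i, C (v i) * form (c i) = y at h1 h3 ⊢
    rw [sub_mul, map_sub, Finset.sum_mul, map_sum, Finset.sum_eq_zero, sub_zero, mul_comm] at h3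
    · exact h3
    · intro j _
      rw [← smul_eq_C_mul, smul_mul_assoc, map_smul, mul_comm, h1, smul_zero]
  have h3 := hsum v
  rw [show Ideal.Quotient.mkₐ ℂ (rad Λ) (∑ i, C (v i) * form (c i)) = 0 from
    Ideal.Quotient.eq_zero_iff_mem.mpr h2] at h3
  exact hv (funext (Fintype.linearIndependent_iff.mp β.linearIndependent v h3.symm))

end Poly

variable {F : Pol ℂ} {B : Type} [CommRing B] [Algebra ℂ B] {B' : Type} [CommRing B'] [Algebra ℂ B']

theorem F_mem {E : Bundle F B} (s : E.M →ₗ[Pol B] Rq F B) : bc F B ∈ vals s :=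
  ⟨0, by rw [map_zero]; exact mq_F.symm⟩

theorem vals_map {φ : B →ₐ[ℂ] B'} {E : Bundle F B} {E' : Bundle F B'} {θ : E.M →+ E'.M}
    {s : E.M →ₗ[Pol B] Rq F B} {s' : E'.M →ₗ[Pol B'] Rq F B'}
    (h : ∀ u, s' (θ u) = mapR F φ (s u)) : (vals s).map (map (φ : B →+* B')) ≤ vals s' := by
  rw [Ideal.map_le_iff_le_comap]
  intro b hb
  obtain ⟨u, hu⟩ := mem_vals.mp hb
  exact mem_vals.mpr ⟨θ u, by rw [h, hu, mapR_mq]⟩

theorem sup_map {φ : B →ₐ[ℂ] B'} {E : Bundle F B} {E' : Bundle F B'} {θ : E.M →+ E'.M}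
    {s : E.M →ₗ[Pol B] Rq F B} {s' : E'.M →ₗ[Pol B'] Rq F B'}
    (h : ∀ u, s' (θ u) = mapR F φ (s u)) (c : ℕ) :
    (vals s ⊔ Ideal.span {wc B c}).map (map (φ : B →+* B')) ≤ vals s' ⊔ Ideal.span {wc B' c} := by
  rw [Ideal.map_sup, Ideal.map_span, Set.image_singleton, map_wc]
  exact sup_le_sup_right (vals_map h) _

/-- in large degree the values of the pull back come from the values -/
theorem vals_large (hF : F.IsHomogeneous 6) {φ : B →ₐ[ℂ] B'} {E : Bundle F B} {E' : Bundle F B'}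
    {θ : E.M →+ E'.M} (hθ : Pull φ E E' θ) {j : ℕ} {s : E.M →ₗ[Pol B] Rq F B}
    {s' : E'.M →ₗ[Pol B'] Rq F B'} (hs' : IsFun E' j s') (h : ∀ u, s' (θ u) = mapR F φ (s u)) :
    ∃ d0, ∀ d ≥ d0, ∀ a : Pol B', a.IsHomogeneous d → a ∈ vals s' →
      a ∈ (vals s).map (map (φ : B →+* B')) := by
  have := E'.rankTwo.finite
  obtain ⟨d0, hd0⟩ := E'.gr.large ⊤ (Submodule.span (Pol B') (Set.range θ)) Module.Finite.fg_top
    fun u _ e i => hθ.surj _ i
  refine ⟨d0 + j, fun d hd a ha hv => ?_⟩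
  obtain ⟨e, rfl⟩ := Nat.exists_eq_add_of_le' (show j ≤ d by omega)
  obtain ⟨u, hu, e1⟩ := RepP.exists_hom hF hs' ha hv
  have key : ∀ v ∈ Submodule.span (Pol B') (Set.range θ),
      ∃ x ∈ (vals s).map (map (φ : B →+* B')), s' v = mq F B' x := by
    intro v hv
    refine Submodule.span_induction
      (p := fun v _ => ∃ x ∈ (vals s).map (map (φ : B →+* B')), s' v = mq F B' x) ?_ ?_ ?_ ?_ hv
    · rintro _ ⟨v, rfl⟩
      obtain ⟨b, hb⟩ := mq_surj (s v)
      exact ⟨_, Ideal.mem_map_of_mem _ (mem_vals.mpr ⟨v, hb.symm⟩), by rw [h, ← hb, mapR_mq]⟩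
    · exact ⟨0, zero_mem _, by simp⟩
    · rintro x y - - ⟨a, ha, e⟩ ⟨b, hb, e'⟩
      exact ⟨a + b, add_mem ha hb, by rw [map_add, map_add, e, e']⟩
    · rintro r x - ⟨a, ha, e⟩
      exact ⟨r * a, Ideal.mul_mem_left _ _ ha, by rw [map_smul, map_mul, e, smul_mq]⟩
  obtain ⟨x, hx, e2⟩ := key u (hd0 e (by omega) u trivial hu)
  have h3 : bc F B' ∈ (vals s).map (map (φ : B →+* B')) := by
    rw [← map_bc φ]
    exact Ideal.mem_map_of_mem _ (F_mem s)
  have h4 := (Ideal.span_singleton_le_iff_mem _).mpr h3 (mq_eq.mp (e1.symm.trans e2))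
  simpa using add_mem h4 hx

theorem homI_sat (hF : F.IsHomogeneous 6) {E : Bundle F B} {j : ℕ} {s : E.M →ₗ[Pol B] Rq F B}
    (hs : IsFun E j s) : HomI (satI s) := fun b hb d => mem_satI.mpr fun i => by
  obtain ⟨k, hk⟩ := mem_satI.mp hb i
  have := homI_vals hF hs _ (mem_vals.mpr hk) (d + k)
  rw [mul_comm, comp_mul (by simpa using (isHomogeneous_X B i).pow k), mul_comm] at this
  exact ⟨k, mem_vals.mp this⟩

/-- in large degree the saturated ideal is the ideal of values -/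
theorem sat_large (hF : F.IsHomogeneous 6) {E : Bundle F ℂ} {j : ℕ} {s : E.M →ₗ[Pol ℂ] Rq F ℂ}
    (hs : IsFun E j s) :
    ∃ d0, ∀ d ≥ d0, ∀ a : Pol ℂ, a.IsHomogeneous d → a ∈ satI s → a ∈ vals s := by
  obtain ⟨d0, hd0⟩ := (grR hF ℂ).large
    (Submodule.map (Algebra.linearMap (Pol ℂ) (Rq F ℂ)) (satI s)) (LinearMap.range s)
    (Submodule.FG.map _ (IsNoetherian.noetherian _)) (by
      rintro _ ⟨b, hb, rfl⟩ e i
      obtain ⟨k, u, hu⟩ := mem_satI.mp (homI_sat hF hs b hb e) i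
      refine ⟨k, u, ?_⟩
      rw [hu, map_mul, smul_mq]
      exact congrArg _ (cp_mq hF e b).symm)
  exact ⟨d0, fun d hd a ha h => hd0 d hd _ ⟨a, h, rfl⟩ (mq_mem ha)⟩

theorem rep_fun {E : Bundle F B} {c j : ℕ} {s : E.M →ₗ[Pol B] Rq F B} {Λ : Pol B →ₗ[B] B}
    (h : Rep c E j s Λ) : IsFun E j s := by
  obtain ⟨x, ω, t1, t2, d1, d2, G, -, -, -, -, -, hS, -⟩ := h
  exact hS.fn

theorem le_rad (hR : Rg F) {E : Bundle F B} {c j : ℕ} {s : E.M →ₗ[Pol B] Rq F B}
    {Λ : Pol B →ₗ[B] B} (h : Rep c E j s Λ) : vals s ⊔ Ideal.span {wc B c - 1} ≤ rad Λ := by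
  obtain ⟨h1, -, h3⟩ := Kn.hRad F hR B E c j s Λ h
  refine sup_le (fun a ha => ?_) ?_
  · rw [← sum_homogeneousComponent a]
    refine Ideal.sum_mem _ fun d _ => ?_
    refine (h3 _ d (homogeneousComponent_isHomogeneous d a)).mpr (mem_satI.mpr fun i => ⟨0, ?_⟩)
    rw [pow_zero, one_mul]
    exact mem_vals.mp (homI_vals hR.hom (rep_fun h) a ha d)
  · rw [Ideal.span_singleton_le_iff_mem]
    intro b
    rw [sub_mul, one_mul, map_sub, h1, sub_self]

/-- Serre data in a box over a ring -/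
theorem rep_of (hF : Hyp F) [Nontrivial B] {E : Bundle F B} {j : ℕ} {s : E.M →ₗ[Pol B] Rq F B}
    (hs : IsFun E j s) {c D : ℕ} (hD : Big (vals s ⊔ Ideal.span {wc B c}) D) :
    ∃ Λ, Rep c E j s Λ := by
  have hI := homI_vals hF.hom hs
  obtain ⟨a1, n1, d1, m1, e1, f1, k1⟩ := exists_monic hI (wc_hom c) hD 2 j
  obtain ⟨a2, n2, d2, m2, e2, f2, k2⟩ := exists_monic hI (wc_hom c) hD 1 j
  let x : Box B :=
    ⟨c, algebraMap ℂ B (eval ![1, 0, 0, -(c : ℂ) ^ 3] F)⁻¹, bc F B, a1, a2, n1, n2⟩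
  have hu : eval ![1, 0, 0, -(c : B) ^ 3] (bc F B) =
      algebraMap ℂ B (eval ![1, 0, 0, -(c : ℂ) ^ 3] F) := by
    rw [eval_map, ← coe_eval₂Hom, ← eval₂_id, eval₂_comp_left, RingHom.comp_id, coe_eval₂Hom]
    congr 1
    funext i
    fin_cases i <;> simp
  have hx : x.Ok := ⟨hF.hom.map _, by
    change algebraMap ℂ B _ * eval ![1, 0, 0, -(c : B) ^ 3] (bc F B) = 1
    rw [hu, ← map_mul, inv_mul_cancel₀ (hF.eval_ne c), map_one], m1, e1, m2, e2⟩
  have g1 : x.g1.IsHomogeneous (d1 + j) := f1 ▸ hm_hom (isHomogeneous_X B 2) (wc_hom c) a1 _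
  have g2 : x.g2.IsHomogeneous (d2 + j) := f2 ▸ hm_hom (isHomogeneous_X B 1) (wc_hom c) a2 _
  obtain ⟨t1, ht1, s1⟩ := RepP.exists_hom hF.hom hs g1 k1
  obtain ⟨t2, ht2, s2⟩ := RepP.exists_hom hF.hom hs g2 k2
  obtain ⟨ω, hω⟩ := E.exists_pairing
  obtain ⟨G, hG, eG⟩ := hω.hom _ _ t1 ht1 t2 ht2
  obtain ⟨r1, r2, -⟩ := box B x hx
  exact ⟨x.mu.comp (LinearMap.mulLeft B G), x, ω, t1, t2, d1, d2, G, hx, rfl, rfl, f1, f2,
    ⟨hω, hs, ht1, ht2, g1, g2, hG, s1, s2, eG, r1, r2⟩, fun _ => rfl⟩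

/-- the basis after inverting an element -/
theorem gor_of {l D : ℕ} {Λ : Pol B →ₗ[B] B} {b : Fin l → Pol ℂ}
    (hb : ∀ i, (b i).IsHomogeneous D) {h : B}
    (hs : ∀ a, ∃ r : Fin l → B, C h * a - ∑ i, C (r i) * bc (b i) B ∈ rad Λ) (ψ : B →ₐ[ℂ] B')
    (hu : IsUnit (ψ h))
    (hg : IsUnit (ψ (Matrix.of fun i j => Λ (bc (b i) B * bc (b j) B)).det)) :
    Gor' D (bcL (ψ : B →+* B') Λ) b where
  hb := hb
  span a := by
    obtain ⟨v, hv⟩ := hu.exists_left_inv
    induction a using MvPolynomial.induction_on' with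
    | monomial m r =>
      obtain ⟨t, ht⟩ := hs (monomial m 1)
      refine ⟨fun i => r * v * ψ (t i), ?_⟩
      have := Ideal.mul_mem_left _ (C (r * v)) (map_mem_rad (ψ : B →+* B') ht)
      convert this using 1
      simp only [map_sub, map_sum, map_mul, map_C, map_monomial, map_map_alg, mul_sub,
        Finset.mul_sum, RingHom.coe_coe, mul_assoc, C_mul_monomial, hv, mul_one]
    | add p q hp hq =>
      obtain ⟨r, hr⟩ := hp
      obtain ⟨s, hs⟩ := hq
      refine ⟨r + s, ?_⟩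
      convert Ideal.add_mem _ hr hs using 1
      simp [add_mul, Finset.sum_add_distrib]
      ring
  gram := by
    rw [← det_map_alg] at hg
    convert hg using 2
    ext i j
    rw [Matrix.map_apply, Matrix.of_apply, Matrix.of_apply, ← map_bc ψ, ← map_bc ψ, ← map_mul,
      bcL_map]
    rfl

/-- the basis of the fibre spreads out -/
theorem spread (hN : S_Nak) (hP : S_RepPull) (hR : Rg F) {E : Bundle F B} {c j D : ℕ}
    {s : E.M →ₗ[Pol B] Rq F B} {Λ : Pol B →ₗ[B] B} (h : Rep c E j s Λ)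
    (hD : Big (vals s ⊔ Ideal.span {wc B c}) D) (p : B →ₐ[ℂ] ℂ) :
    ∃ (D' l : ℕ) (b : Fin l → Pol ℂ) (h : B), (∀ i, (b i).IsHomogeneous D') ∧ p h ≠ 0 ∧
      (∀ a, ∃ r : Fin l → B, C h * a - ∑ i, C (r i) * bc (b i) B ∈ rad Λ) ∧
      p (Matrix.of fun i j => Λ (bc (b i) B * bc (b j) B)).det ≠ 0 := by
  have hs := rep_fun h
  obtain ⟨E0, θ, hθ⟩ := Kn.pull hR p E
  obtain ⟨s0, hs0, e0⟩ := hθ.ext_fun hR hs
  have h0 := (hP F hR B ℂ p Λ).1 E E0 θ c j s s0 hθ h e0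
  obtain ⟨d1, hd1⟩ := vals_large hR.hom hθ hs0 e0
  obtain ⟨d2, hd2⟩ := sat_large hR.hom hs0
  have hD0 : Big (vals s0 ⊔ Ideal.span {wc ℂ c}) D := fun n hn =>
    hom_map (p : B →+* ℂ) (h := 1) (by simp) (sup_map e0 c) fun a ha => by
      rw [map_one, one_mul]
      exact hD n hn a ha
  obtain ⟨l, b, hb, hsp, hdet⟩ := exists_basis (bcL (p : B →+* ℂ) Λ) (D := D + d1 + d2) fun a => by
    obtain ⟨a', h1, h2⟩ := red (homI_vals hR.hom hs0) (wc_hom c) hD0
      (show D ≤ D + d1 + d2 by omega) a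
    exact ⟨a', h1, le_rad hR h0 h2⟩
  have hsurj : Function.Surjective (map (p : B →+* ℂ) : Pol B →+* Pol ℂ) :=
    map_surjective _ fun z => ⟨algebraMap ℂ B z, p.commutes z⟩
  obtain ⟨g, hg, hN1⟩ := (hN B p (D + d1 + d2)).1
    (Submodule.span B (Set.range fun i => bc (b i) B) ⊔ (vals s).restrictScalars B) fun a ha => by
      obtain ⟨r, hr⟩ := hsp a
      have h1 : (a - ∑ i, C (r i) * b i).IsHomogeneous (D + d1 + d2) :=
        ha.sub (IsHomogeneous.sum _ _ _ fun i _ => (hb i).C_mul _)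
      have h2 := hd1 _ (by omega) _ h1 (hd2 _ (by omega) _ h1
        (((Kn.hRad F hR ℂ E0 c j s0 _ h0).2.2 _ _ h1).mp hr))
      obtain ⟨x, hx, e⟩ := (Ideal.mem_map_iff_of_surjective _ hsurj).mp h2
      refine ⟨∑ i, C (algebraMap ℂ B (r i)) * bc (b i) B + homogeneousComponent (D + d1 + d2) x,
        add_mem (Submodule.mem_sup_left (Submodule.sum_mem _ fun i _ => ?_))
          (Submodule.mem_sup_right (homI_vals hR.hom hs x hx _)),
        (IsHomogeneous.sum _ _ _ fun i _ => ((hb i).map _).C_mul _).add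
          (homogeneousComponent_isHomogeneous _ _), ?_⟩
      · rw [← smul_eq_C_mul]
        exact Submodule.smul_mem _ _ (Submodule.subset_span ⟨i, rfl⟩)
      · rw [map_add, map_comp, e, homogeneousComponent_eq_self h1, map_sum]
        simp only [map_mul, map_C, map_map_alg, RingHom.coe_coe, AlgHom.commutes,
          Algebra.algebraMap_self, RingHom.id_apply, map_id]
        ring
  refine ⟨D + d1 + d2, l, b, g, hb, hg, fun a => ?_, ?_⟩
  · obtain ⟨a', h1, h2⟩ := red (homI_vals hR.hom hs) (wc_hom c) hD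
      (show D ≤ D + d1 + d2 by omega) a
    obtain ⟨y, hy, x, hx, e⟩ := Submodule.mem_sup.mp (hN1 a' h1)
    obtain ⟨r, rfl⟩ := (Submodule.mem_span_range_iff_exists_fun B).mp hy
    refine ⟨r, ?_⟩
    have h3 := add_mem ((rad Λ).mul_mem_left (C g) (le_rad hR h h2))
      (le_rad hR h (Ideal.mem_sup_left (show x ∈ vals s from hx)))
    convert h3 using 1
    simp only [smul_eq_C_mul] at e
    rw [mul_sub, ← e]
    ring
  · rw [← det_map_alg]
    convert hdet using 2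
    ext i j
    rw [Matrix.map_apply, Matrix.of_apply, Matrix.of_apply, ← RingHom.coe_coe, ← bcL_map, map_mul,
      map_bc, map_bc, bc_self, bc_self]

end ERepFamP

open ERepFamP

theorem repFam (hN : S_Nak) (hP : S_RepPull) : S_RepFam := by
  intro F hF B _ _ _ E j s t E0 θ s0 hθ hs hs0 e0 hp
  have hR := hF.rg
  obtain ⟨c, hc⟩ := (good_c hF hs0 hp).exists_notMem
  obtain ⟨D, hD⟩ := not_not.mp hc
  obtain ⟨d0, hd0⟩ := vals_large hF.hom hθ hs0 e0
  obtain ⟨h, ht, hh⟩ := (hN B t (4 * D + d0 + 1)).2 (vals s ⊔ Ideal.span {wc B c})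
    (homI_sup (homI_vals hF.hom hs) (wc_hom c)) fun a ha => by
      obtain ⟨x, hx, z, h1, -, rfl⟩ := split (homI_vals hF.hom hs0) (wc_hom c) ha
        (big_of hD _ (by omega) a ha)
      rw [Ideal.map_sup, Ideal.map_span, Set.image_singleton, map_wc]
      exact add_mem (Ideal.mem_sup_left (hd0 _ (by omega) x h1 hx))
        (Ideal.mem_sup_right (Ideal.mul_mem_left _ _ (Ideal.mem_span_singleton_self _)))
  obtain ⟨U, hU⟩ := Nb.exists_unit h ht
  obtain ⟨E1, θ1, hθ1⟩ := Kn.pull hR U.ψ E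
  obtain ⟨s1, hs1, e1⟩ := hθ1.ext_fun hR hs
  have hD1 := big_of (hom_map (U.ψ : B →+* U.A) hU (sup_map e1 c) hh)
  have : Nontrivial U.A := (U.p : U.A →+* ℂ).domain_nontrivial
  obtain ⟨Λ, hΛ⟩ := rep_of hF hs1 hD1
  obtain ⟨D', l, b, g, hb, hg, hsp, hdet⟩ := spread hN hP hR hΛ hD1 U.p
  obtain ⟨V, hV⟩ := Nb.exists_unit (t := U.p) _ (by
    rw [map_mul]
    exact mul_ne_zero hg hdet)
  rw [map_mul] at hV
  obtain ⟨E2, θ2, hθ2⟩ := Kn.pull hR V.ψ E1
  obtain ⟨s2, -, e2⟩ := hθ2.ext_fun hR hs1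
  have : Nontrivial V.A := (V.p : V.A →+* ℂ).domain_nontrivial
  exact ⟨U.trans V, E2, s2, c, D', l, _, b, (hθ1.comp hθ2).isPull,
    (hP F hR U.A V.A V.ψ Λ).1 E1 E2 θ2 c j s1 s2 hθ2 hΛ e2,
    gor_of hb hsp V.ψ (isUnit_of_mul_isUnit_left hV) (isUnit_of_mul_isUnit_right hV)⟩

end Pool.Agent.P.MP_2b2d3b_ag
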