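import Pool.Agent.P.MP_2b2d3b_ag.St2
import Pool.Agent.P.MP_2b2d3b_ag.Box
import Pool.Agent.P.MP_2b2d3b_ag.Bas

/-!
The family of bundles attached to a family of Gorenstein schemes.
-/

namespace Pool.Agent.P.MP_2b2d3b_ag

open MvPolynomial Module

namespace GorFamP

section
variable {B : Type} [CommRing B] {B' : Type} [CommRing B']

theorem ok_map {x : Box B} (h : x.Ok) [Nontrivial B'] (φ : B →+* B') : (x.map φ).Ok where
  hF := h.hF.map φ
  hu := by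
    have := congrArg φ h.hu
    rw [map_mul, map_one, ← eval₂_id, eval₂_comp_left, RingHom.comp_id] at this
    have e : (![1, 0, 0, -(x.c : B') ^ 3] : Fin 4 → B') = φ ∘ ![1, 0, 0, -(x.c : B) ^ 3] := by
      funext i
      fin_cases i <;> simp
    change φ x.u * eval ![1, 0, 0, -(x.c : B') ^ 3] (map φ x.F) = _
    rw [eval_map, e, this]
  m1 := h.m1.map φ
  d1 := by
    change (x.a1.map φ).natDegree = x.n1 + 1
    rw [h.m1.natDegree_map, h.d1]
  m2 := h.m2.map φ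
  d2 := by
    change (x.a2.map φ).natDegree = x.n2 + 1
    rw [h.m2.natDegree_map, h.d2]

theorem g1_map (x : Box B) (φ : B →+* B') : (x.map φ).g1 = map φ x.g1 := by
  simp [Box.g1, Box.map, map_hm, map_wc]

theorem g2_map (x : Box B) (φ : B →+* B') : (x.map φ).g2 = map φ x.g2 := by
  simp [Box.g2, Box.map, map_hm, map_wc]

variable {c D : ℕ} {ι : Type} [Fintype ι] [DecidableEq ι] {Λ : Pol B →ₗ[B] B} {b : ι → Pol B}

theorem mk_wc (h : Gor c D Λ b) : Ideal.Quotient.mkₐ B (rad Λ) (wc B c) = 1 := by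
  rw [Ideal.Quotient.mkₐ_eq_mk, ← map_one (Ideal.Quotient.mk (rad Λ)), Ideal.Quotient.eq]
  intro a
  rw [sub_mul, map_sub, h.hw, one_mul, sub_self]

theorem span_top (h : Gor c D Λ b) :
    ⊤ ≤ Submodule.span B (Set.range fun i => Ideal.Quotient.mkₐ B (rad Λ) (b i)) := by
  rintro v -
  obtain ⟨a, rfl⟩ := Ideal.Quotient.mk_surjective v
  obtain ⟨r, hr⟩ := h.span a
  rw [Ideal.Quotient.eq.2 hr, map_sum]
  refine Submodule.sum_mem _ fun i _ => ?_
  rw [← smul_eq_C_mul, ← Ideal.Quotient.mkₐ_eq_mk B, map_smul]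
  exact Submodule.smul_mem _ (r i) (Submodule.subset_span ⟨i, rfl⟩)

theorem indep (h : Gor c D Λ b) :
    LinearIndependent B fun i => Ideal.Quotient.mkₐ B (rad Λ) (b i) := by
  rw [Fintype.linearIndependent_iff]
  intro r hr
  have h1 : ∑ i, r i • b i ∈ rad Λ := by
    rw [← Ideal.Quotient.eq_zero_iff_mem, ← hr, ← Ideal.Quotient.mkₐ_eq_mk B, map_sum]
    simp only [map_smul]
  have h2 : Matrix.vecMul r (Matrix.of fun i j => Λ (b i * b j)) = 0 := by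
    funext j
    have := h1 (b j)
    rw [Finset.sum_mul, map_sum] at this
    simpa [Matrix.vecMul, dotProduct] using this
  have h3 := Matrix.vecMul_injective_of_isUnit ((Matrix.isUnit_iff_isUnit_det _).2 h.gram)
    (a₁ := r) (a₂ := 0) (by simpa using h2)
  exact congrFun h3

/-- a monic binary form in the radical -/
theorem exists_monic [Nontrivial B] (h : Gor c D Λ b) (u : Pol B) :
    ∃ (a : Polynomial B) (n : ℕ), a.Monic ∧ a.natDegree = n + 1 ∧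
      hm u (wc B c) a (n + 1) ∈ rad Λ := by
  have : Module.Finite B (Pol B ⧸ rad Λ) :=
    ⟨Submodule.fg_def.2 ⟨_, Set.finite_range _, top_le_iff.1 (span_top h)⟩⟩
  obtain ⟨p, hp, e⟩ := Algebra.IsIntegral.isIntegral (R := B) (Ideal.Quotient.mkₐ B (rad Λ) u)
  have hd : (p * Polynomial.X).natDegree = p.natDegree + 1 :=
    Polynomial.natDegree_mul_X hp.ne_zero
  refine ⟨p * Polynomial.X, p.natDegree, hp.mul Polynomial.monic_X, hd, ?_⟩
  rw [← Ideal.Quotient.eq_zero_iff_mem, ← Ideal.Quotient.mkₐ_eq_mk B,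
    aeval_hm _ (mk_wc h) hd.le, map_mul, Polynomial.aeval_def, e, zero_mul]

end

theorem hilb_rad {c D : ℕ} {Λ : Pol ℂ →ₗ[ℂ] ℂ} {b : Fin 11 → Pol ℂ} (h : Gor c D Λ b) {d : ℕ}
    (hd : D ≤ d) : hilb (rad Λ) d = 11 := by
  have e : (homogeneousSubmodule (Fin 4) ℂ d).map (Ideal.Quotient.mkₐ ℂ (rad Λ)).toLinearMap =
      ⊤ := by
    refine top_le_iff.1 ((span_top h).trans (Submodule.span_le.2 ?_))
    rintro _ ⟨i, rfl⟩
    refine ⟨wc ℂ c ^ (d - D) * b i, ?_, ?_⟩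
    · have := ((wc_hom (B := ℂ) c).pow (d - D)).mul (h.hb i)
      rwa [one_mul, Nat.sub_add_cancel hd] at this
    · rw [AlgHom.toLinearMap_apply, map_mul, map_pow, mk_wc h, one_pow, one_mul]
  rw [hilb, e, finrank_top, finrank_eq_card_basis (Basis.mk (indep h) (span_top h)),
    Fintype.card_fin]

theorem hilb_congr {I J : Ideal (Pol ℂ)} {d : ℕ}
    (h : ∀ a : Pol ℂ, a.IsHomogeneous d → (a ∈ I ↔ a ∈ J)) : hilb I d = hilb J d := by
  have e : Id I d = Id J d := by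
    ext a
    exact ⟨fun ha => ⟨(h a ha.2).1 ha.1, ha.2⟩, fun ha => ⟨(h a ha.2).2 ha.1, ha.2⟩⟩
  have h1 := HilbP.hilb_add_Id I d
  have h2 := HilbP.hilb_add_Id J d
  rw [e] at h1
  omega

/-- a box for the family -/
theorem exists_box {F : Pol ℂ} (hF : Hyp F) {B : Type} [CommRing B] [Algebra ℂ B] [Nontrivial B]
    {c D : ℕ} {Λ : Pol B →ₗ[B] B} {b : Fin 11 → Pol B} (h : Gor c D Λ b) (hm : bc F B ∈ rad Λ) :
    ∃ (x : Box B) (G : Pol B), x.Ok ∧ x.c = c ∧ x.F = bc F B ∧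
      G.IsHomogeneous (x.n1 + x.n2 + 1) ∧ ∀ a, Λ a = x.mu (G * a) := by
  obtain ⟨a1, n1, m1, d1, r1⟩ := exists_monic h (X 2)
  obtain ⟨a2, n2, m2, d2, r2⟩ := exists_monic h (X 1)
  let x : Box B := ⟨c, algebraMap ℂ B (eval ![1, 0, 0, -(c : ℂ) ^ 3] F)⁻¹, bc F B, a1, a2, n1, n2⟩
  have hx : x.Ok := by
    refine ⟨hF.hom.map _, ?_, m1, d1, m2, d2⟩
    have e : eval ![1, 0, 0, -(c : B) ^ 3] (bc F B) =
        algebraMap ℂ B (eval ![1, 0, 0, -(c : ℂ) ^ 3] F) := by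
      rw [eval_map, ← eval₂_id, eval₂_comp_left]
      congr 1
      funext i
      fin_cases i <;> simp
    change algebraMap ℂ B _ * eval ![1, 0, 0, -(c : B) ^ 3] (bc F B) = 1
    rw [e, ← map_mul, inv_mul_cancel₀ (hF.eval_ne c), map_one]
  obtain ⟨G, hG, e⟩ := (box B x hx).2.2.2.2.2.1 Λ 3 (n1 + n2 + 1) (by change _ = n1 + n2 + 5; omega)
    (fun a => ⟨hm a, r1 a, r2 a, h.hw a⟩) h.h3
  exact ⟨x, G, hx, rfl, rfl, hG, fun a => (e a).symm⟩

end GorFamP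

open GorFamP in
theorem gorFam (hA : S_GorAdm) (hN : S_NB) (hP : S_NPull) (hS : S_SerAdm) (hR : S_RepRad)
    (hH : S_HfSer) (hT : S_Stab) : S_GorFam := by
  intro F hF B _ _ _ _ c D Λ b h hm
  have : IsNoetherianRing B := Algebra.FiniteType.isNoetherianRing ℂ B
  obtain ⟨x, G, hx, rfl, e2, hG, eΛ⟩ := exists_box hF h hm
  obtain ⟨E, ω, s, t1, t2, ser, -⟩ :=
    hN F hF.rg B _ _ _ _ _ (hA F hF B D Λ b x G hx e2 h hG eΛ)
  have key : ∀ t : B →ₐ[ℂ] ℂ, ∃ (E' : Bundle F ℂ) (s' : _), IsPull t E E' ∧ Good E' ∧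
      IsFun E' 1 s' ∧ s' ≠ 0 ∧ Rep x.c E' 1 s' (bcL (t : B →+* ℂ) Λ) := fun t => by
    have hx' := ok_map hx (t : B →+* ℂ)
    have e2' : (x.map (t : B →+* ℂ)).F = bc F ℂ := by
      change map _ x.F = _
      rw [e2, map_bc]
    have eΛ' : ∀ a, bcL (t : B →+* ℂ) Λ a =
        (x.map (t : B →+* ℂ)).mu (map (t : B →+* ℂ) G * a) := fun a => by
      have : bcL (t : B →+* ℂ) Λ = (x.map (t : B →+* ℂ)).mu.comp
          (LinearMap.mulLeft ℂ (map (t : B →+* ℂ) G)) :=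
        bcL_eq _ fun a => by
          rw [LinearMap.comp_apply, LinearMap.mulLeft_apply, ← map_mul,
            (box B x hx).2.2.2.2.2.2.1, eΛ]
      exact LinearMap.congr_fun this a
    have h' := h.map (t : B →+* ℂ)
    have adm := hA F hF ℂ D _ _ (x.map (t : B →+* ℂ)) _ hx' e2' h' (hG.map _) eΛ'
    obtain ⟨E', ω', s', t1', t2', ser', rf⟩ := hN F hF.rg ℂ _ _ _ _ _ adm
    have rep : Rep x.c E' 1 s' (bcL (t : B →+* ℂ) Λ) :=
      ⟨x.map (t : B →+* ℂ), ω', t1', t2', _, _, _, hx', rfl, e2', rfl, rfl, ser', eΛ'⟩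
    refine ⟨E', s', ?_, ⟨(hS F hF.rg ℂ E' _ _ _ _ _ _ _ _ _ ser').2.1 adm.h0, ?_⟩, ser'.fn, ?_, rep⟩
    · rw [g1_map, g2_map] at ser' rf
      obtain ⟨θ, hθ, -⟩ := hP F hF.rg B ℂ t E E' ω ω' 1 s s' t1 t2 t1' t2' _ _ _ _ _ _ ser ser' rf
        (by rw [sub_self]; exact Ideal.zero_mem _)
      exact hθ.isPull
    · filter_upwards [hH F hF.rg E' ω' 0 s' _ _ _ _ _ _ _ ser', Filter.eventually_ge_atTop D,
        Filter.eventually_ge_atTop 3] with d h1 h2 h3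
      have f1 := (hilbF F hF.hom hF.ne_zero).1 d h3
      have f2 := (hilbF F hF.hom hF.ne_zero).1 (d + 1) (by omega)
      have f3 : hilb (satI s') (d + 1) = 11 := by
        rw [← hilb_congr fun a ha => (hR F hF.rg ℂ E' _ _ _ _ rep).2.2 a _ ha]
        exact hilb_rad h' (by omega)
      simp only [mul_zero, add_zero] at h1
      rw [f3] at h1
      nlinarith
    · intro e
      have h1 := ser'.e1
      rw [e, LinearMap.zero_apply, eq_comm, mq_zero] at h1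
      exact hF.prime'.ne_top ((Ideal.eq_top_iff_one _).2 (ser'.r1 1 (by rwa [mul_one])))
  refine ⟨⟨E, fun t => ?_⟩, s, ⟨x, ω, t1, t2, _, _, G, hx, rfl, e2, rfl, rfl, ser, eΛ⟩, key⟩
  obtain ⟨E', -, h1, h2, -⟩ := key t
  exact ⟨E', h1, (hT F hF E' h2.2).2 h2.1, h2.2⟩

end Pool.Agent.P.MP_2b2d3b_ag
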