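import Pool.Agent.P.MP_2b2d3b_ag.Kn
import Pool.Agent.P.MP_2b2d3b_ag.GorFam

/-!
Package RepP: base change of Serre data in a box, and the length of the zero scheme.
-/

namespace Pool.Agent.P.MP_2b2d3b_ag

open MvPolynomial Module

namespace ERepPP

section

variable {B : Type} [CommRing B] [Algebra ℂ B] {B' : Type} [CommRing B'] [Algebra ℂ B']
  {ι : Type} [Fintype ι] [DecidableEq ι] {D : ℕ} {Λ : Pol B →ₗ[B] B} {b : ι → Pol ℂ}

theorem gor_map (h : Gor' D Λ b) (φ : B →ₐ[ℂ] B') : Gor' D (bcL (φ : B →+* B') Λ) b where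
  hb := h.hb
  span a := by
    induction a using MvPolynomial.induction_on' with
    | monomial m r =>
      obtain ⟨s, hs⟩ := h.span (monomial m 1)
      refine ⟨fun i => r * φ (s i), ?_⟩
      have := Ideal.mul_mem_left _ (C r) (map_mem_rad (φ : B →+* B') hs)
      convert this using 1
      simp only [map_sub, map_sum, map_mul, map_C, map_bc, map_monomial, map_one, mul_sub,
        Finset.mul_sum, C_mul_monomial, mul_one, mul_assoc, RingHom.coe_coe]
    | add p q hp hq =>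
      obtain ⟨r, hr⟩ := hp
      obtain ⟨s, hs⟩ := hq
      refine ⟨r + s, ?_⟩
      convert Ideal.add_mem _ hr hs using 1
      simp only [Pi.add_apply, map_add, add_mul, Finset.sum_add_distrib]
      ring
  gram := by
    have := h.gram.map (φ : B →+* B')
    rw [RingHom.map_det] at this
    convert this using 2
    ext i j
    simp only [Matrix.of_apply, RingHom.mapMatrix_apply, Matrix.map_apply, ← bcL_map, map_mul,
      map_bc]

end

theorem hilb_rad {c D l : ℕ} {Λ : Pol ℂ →ₗ[ℂ] ℂ} {b : Fin l → Pol ℂ} (h : Gor' D Λ b)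
    (hw : ∀ a, Λ (wc ℂ c * a) = Λ a) {d : ℕ} (hd : D ≤ d) : hilb (rad Λ) d = l := by
  have mk_wc : Ideal.Quotient.mkₐ ℂ (rad Λ) (wc ℂ c) = 1 := by
    rw [Ideal.Quotient.mkₐ_eq_mk, ← map_one (Ideal.Quotient.mk (rad Λ)), Ideal.Quotient.eq]
    intro a
    rw [sub_mul, map_sub, hw, one_mul, sub_self]
  have span_top :
      ⊤ ≤ Submodule.span ℂ (Set.range fun i => Ideal.Quotient.mkₐ ℂ (rad Λ) (b i)) := by
    rintro v -
    obtain ⟨a, rfl⟩ := Ideal.Quotient.mk_surjective v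
    obtain ⟨r, hr⟩ := h.span a
    simp only [bc_self] at hr
    rw [Ideal.Quotient.eq.2 hr, map_sum]
    refine Submodule.sum_mem _ fun i _ => ?_
    rw [← smul_eq_C_mul, ← Ideal.Quotient.mkₐ_eq_mk ℂ, map_smul]
    exact Submodule.smul_mem _ (r i) (Submodule.subset_span ⟨i, rfl⟩)
  have indep : LinearIndependent ℂ fun i => Ideal.Quotient.mkₐ ℂ (rad Λ) (b i) := by
    rw [Fintype.linearIndependent_iff]
    intro r hr
    have h1 : ∑ i, r i • b i ∈ rad Λ := by
      rw [← Ideal.Quotient.eq_zero_iff_mem, ← hr, ← Ideal.Quotient.mkₐ_eq_mk ℂ, map_sum]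
      simp only [map_smul]
    have h2 : Matrix.vecMul r (Matrix.of fun i j => Λ (b i * b j)) = 0 := by
      funext j
      have := h1 (b j)
      rw [Finset.sum_mul, map_sum] at this
      simpa [Matrix.vecMul, dotProduct] using this
    have hg := h.gram
    simp only [bc_self] at hg
    have h3 := Matrix.vecMul_injective_of_isUnit ((Matrix.isUnit_iff_isUnit_det _).2 hg)
      (a₁ := r) (a₂ := 0) (by simpa using h2)
    exact congrFun h3
  have e : (homogeneousSubmodule (Fin 4) ℂ d).map (Ideal.Quotient.mkₐ ℂ (rad Λ)).toLinearMap =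
      ⊤ := by
    refine top_le_iff.1 (span_top.trans (Submodule.span_le.2 ?_))
    rintro _ ⟨i, rfl⟩
    refine ⟨wc ℂ c ^ (d - D) * b i, ?_, ?_⟩
    · have := ((wc_hom (B := ℂ) c).pow (d - D)).mul (h.hb i)
      rwa [one_mul, Nat.sub_add_cancel hd] at this
    · rw [AlgHom.toLinearMap_apply, map_mul, map_pow, mk_wc, one_pow, one_mul]
  rw [hilb, e, finrank_top, finrank_eq_card_basis (Basis.mk indep span_top), Fintype.card_fin]

end ERepPP

open ERepPP GorFamP in
theorem repPull (hP : S_FrPull) : S_RepPull := by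
  intro F hR B B' _ _ _ _ _ φ Λ
  refine ⟨fun E E' θ c j s s' hθ h hs => ?_, fun D l b h => gor_map h φ⟩
  obtain ⟨x, ω, t1, t2, d1, d2, G, hx, rfl, hxF, e1, e2, ser, hΛ⟩ := h
  obtain ⟨ω', -, ⟨hω', -, -⟩, hωθ, -⟩ := hP F hR B B' Empty φ E E' θ j ω (fun a => a.elim)
    (Matrix.of fun a => a.elim) hθ ⟨ser.pair, fun a => a.elim, fun a => a.elim⟩
  obtain ⟨s'', h1, h2⟩ := hθ.ext_fun hR ser.fn
  have hss : s' = s'' := sub_eq_zero.mp (hθ.fun_zero hR fun u => by
    rw [LinearMap.sub_apply, hs, h2, sub_self])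
  subst hss
  have hx' := ok_map hx (φ : B →+* B')
  have hF' : (x.map (φ : B →+* B')).F = bc F B' := by
    change map _ x.F = _
    rw [hxF, map_bc]
  have hb := box B' _ hx'
  rw [hF'] at hb
  refine ⟨x.map (φ : B →+* B'), ω', θ t1, θ t2, d1, d2, map (φ : B →+* B') G, hx', rfl, hF', e1,
    e2, ⟨hω', h1, hθ.hom _ _ ser.m1, hθ.hom _ _ ser.m2, ?_, ?_, ser.hG.map _, ?_, ?_, ?_, hb.1,
      hb.2.1⟩, fun a => ?_⟩
  · rw [g1_map]; exact ser.h1.map _
  · rw [g2_map]; exact ser.h2.map _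
  · rw [h2, ser.e1, mapR_mq, g1_map]
  · rw [h2, ser.e2, mapR_mq, g2_map]
  · rw [hωθ, ser.eG, mapR_mq]
  · have : bcL (φ : B →+* B') Λ = (x.map (φ : B →+* B')).mu.comp
        (LinearMap.mulLeft B' (map (φ : B →+* B') G)) :=
      bcL_eq _ fun a => by
        rw [LinearMap.comp_apply, LinearMap.mulLeft_apply, ← map_mul,
          (box B x hx).2.2.2.2.2.2.1, hΛ]
    exact LinearMap.congr_fun this a

open ERepPP GorFamP in
theorem ell (hP : S_RepPull) : S_Ell := by
  intro F hF B _ _ E c i D l s Λ b p E1 h hg hp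
  obtain ⟨θ, hθ⟩ := hp.exists
  have hs : IsFun E (i + 1) s := by
    obtain ⟨x, ω, t1, t2, d1, d2, G, -, -, -, -, -, ser, -⟩ := h
    exact ser.fn
  obtain ⟨s1, -, h2⟩ := hθ.ext_fun hF.rg hs
  obtain ⟨p1, p2⟩ := hP F hF.rg B ℂ p Λ
  have r1 := p1 E E1 θ c (i + 1) s s1 hθ h h2
  have g1 := p2 D l b hg
  obtain ⟨hw, -, h3⟩ := Kn.hRad F hF.rg ℂ E1 c (i + 1) s1 _ r1
  have hl : ∀ d, D ≤ d → hilb (satI s1) d = l := fun d hd => by
    rw [← hilb_congr fun a ha => h3 a _ ha]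
    exact hilb_rad g1 hw hd
  constructor
  · intro hc
    obtain ⟨d, h4, h5⟩ := ((SerreP.ev_len hfSer hF hc r1).and (Filter.eventually_ge_atTop D)).exists
    rw [← hl d h5, h4]
  · rintro rfl
    obtain ⟨x, ω, t1, t2, d1, d2, G, -, -, -, -, -, ser, -⟩ := r1
    obtain ⟨a, ha⟩ := Filter.eventually_atTop.mp (hfSer F hF.rg E1 ω i s1 t1 t2 d1 d2 _ _ G ser)
    obtain ⟨hH, -⟩ := hilbF F hF.hom hF.ne_zero
    refine Filter.eventually_atTop.mpr ⟨a + D + i + 3, fun d hd => ?_⟩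
    obtain ⟨e, rfl⟩ : ∃ e, d = e + i := ⟨d - i, by omega⟩
    have h4 := ha e (by omega)
    have h5 := hH e (by omega)
    have h6 := hH (e + 2 * i + 1) (by omega)
    rw [hl _ (by omega)] at h4
    zify at h4 h5 h6 ⊢
    linear_combination h4 + h5 + h6

end Pool.Agent.P.MP_2b2d3b_ag
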