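import Pool.Agent.P.MP_2b2d3b_ag.Kn

/-!
Package Sep: the matrix of a complete frame has no kernel and small isotropic subspaces.
-/

namespace Pool.Agent.P.MP_2b2d3b_ag

open MvPolynomial Module

namespace ESepP

open HfP StabP

variable {F : Pol ℂ}

theorem exists_prim (hF : Hyp F) {E : Bundle F ℂ} (hN : NoFun E 0) :
    ∀ (j : ℕ) (s : E.M →ₗ[Pol ℂ] Rq F ℂ), IsFun E j s → s ≠ 0 →
      ∃ (i : ℕ) (l : E.M →ₗ[Pol ℂ] Rq F ℂ), IsFun E (i + 1) l ∧ l ≠ 0 ∧ Prim l ∧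
        ∀ u, s u = 0 → l u = 0 := by
  intro j
  induction j with
  | zero => exact fun s hs h0 => absurd (hN s hs) h0
  | succ j ih =>
    intro s hs h0
    by_cases hp : Prim s
    · exact ⟨j, s, hs, h0, hp, fun _ h => h⟩
    · obtain ⟨s', h1, h2, h3⟩ := lower F hF E j s hs h0 hp
      obtain ⟨i, l, a1, a2, a3, a4⟩ := ih s' h1 h2
      exact ⟨i, l, a1, a2, a3, fun u hu => a4 u (h3 u hu)⟩

theorem wedge_ker {E : Bundle F ℂ} {s l : E.M →ₗ[Pol ℂ] Rq F ℂ} (h : ∀ u, s u = 0 → l u = 0)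
    (x y : E.M) : s y * l x = s x * l y := by
  obtain ⟨a, ha⟩ := mq_surj (s x)
  obtain ⟨b, hb⟩ := mq_surj (s y)
  have := h (b • x - a • y) (by
    rw [map_sub, map_smul, map_smul, smul_mq, smul_mq, ha, hb]; ring)
  rw [map_sub, map_smul, map_smul, smul_mq, smul_mq, ha, hb] at this
  linear_combination this

variable {n : Type} [Fintype n] {E : Bundle F ℂ}

/-- a constant combination of the functionals -/
noncomputable def lv (s : n → E.M →ₗ[Pol ℂ] Rq F ℂ) (v : n → ℂ) : E.M →ₗ[Pol ℂ] Rq F ℂ :=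
  ∑ a, (C (v a) : Pol ℂ) • s a

theorem lv_apply (s : n → E.M →ₗ[Pol ℂ] Rq F ℂ) (v : n → ℂ) (u : E.M) :
    lv s v u = ∑ a, mq F ℂ (C (v a)) * s a u := by
  simp only [lv, LinearMap.sum_apply, LinearMap.smul_apply, smul_mq]

theorem lv_fun {s : n → E.M →ₗ[Pol ℂ] Rq F ℂ} {j : ℕ} (hs : ∀ a, IsFun E j (s a)) (v : n → ℂ) :
    IsFun E j (lv s v) := fun d u hu => by
  rw [lv_apply]
  refine sum_mem fun a _ => ?_
  have := HomR.mul (mq_mem (F := F) (isHomogeneous_C (Fin 4) (v a))) (hs a d u hu)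
  rwa [zero_add] at this

theorem lv_zero {s : n → E.M →ₗ[Pol ℂ] Rq F ℂ} (hs : Indep s) {v : n → ℂ} (h : ∀ u, lv s v u = 0) :
    v = 0 := hs v fun u => by rw [← lv_apply, h]

/-- evaluation of the combination at a fixed element is complex linear -/
noncomputable def ev (s : n → E.M →ₗ[Pol ℂ] Rq F ℂ) (x : E.M) : (n → ℂ) →ₗ[ℂ] Rq F ℂ where
  toFun v := lv s v x
  map_add' v w := by
    simp only [lv_apply, Pi.add_apply, map_add, add_mul, Finset.sum_add_distrib]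
  map_smul' c v := by
    simp only [lv_apply, Pi.smul_apply, smul_eq_mul, map_mul, RingHom.id_apply, Finset.smul_sum]
    refine Finset.sum_congr rfl fun a _ => ?_
    rw [mul_assoc]
    exact (Algebra.smul_def c _).symm

variable {j : ℕ} {ω : E.M →ₗ[Pol ℂ] E.M →ₗ[Pol ℂ] Rq F ℂ} {s : n → E.M →ₗ[Pol ℂ] Rq F ℂ}
  {Ω : Matrix n n (Pol ℂ)}

theorem wedge_one (h : Frm E j ω s Ω) (v : n → ℂ) (b : n) (x y : E.M) :
    lv s v x * s b y - lv s v y * s b x = mq F ℂ (∑ a, C (v a) * Ω a b) * ω x y := by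
  simp only [lv_apply, map_sum, map_mul, Finset.sum_mul, ← Finset.sum_sub_distrib]
  refine Finset.sum_congr rfl fun a _ => ?_
  linear_combination mq F ℂ (C (v a)) * h.wedge a b x y

theorem wedge_two (h : Frm E j ω s Ω) (u v : n → ℂ) (x y : E.M) :
    lv s u x * lv s v y - lv s u y * lv s v x = mq F ℂ (bil Ω u v) * ω x y := by
  simp only [bil, lv_apply, map_sum, map_mul, Finset.sum_mul, ← Finset.sum_sub_distrib]
  refine Finset.sum_congr rfl fun a _ => ?_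
  simp only [Finset.mul_sum, ← Finset.sum_sub_distrib]
  refine Finset.sum_congr rfl fun b _ => ?_
  linear_combination mq F ℂ (C (u a)) * mq F ℂ (C (v b)) * h.wedge a b x y

theorem X3_not (hF : Hyp F) : (X 3 : Pol ℂ) ∉ Ideal.span {bc F ℂ} := fun h => by
  have := hF.dom
  exact one_ne_zero (hF.rg.nzdR (i := 3) (by decide) 1 (1 : Rq F ℂ) (by
    rw [pow_one, mq_zero.mpr h, zero_mul]))

theorem nd (hF : Hyp F) (h : Frm E j ω s Ω) (hs : Indep s) (hz : NoZ F Ω) (v : n → ℂ)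
    (hv : ∀ b, ∑ a, C (v a) * Ω a b ∈ Ideal.span {bc F ℂ}) : v = 0 := by
  have := hF.dom
  obtain ⟨a, b, hab⟩ := hz _ hF.prime' (Ideal.mem_span_singleton_self _) ⟨3, X3_not hF⟩
  obtain ⟨x, y, c, hc, e⟩ :=
    h.pair.unit _ hF.prime' (Ideal.mem_span_singleton_self _) ⟨3, X3_not hF⟩
  have hD : s a x * s b y - s a y * s b x ≠ 0 := by
    rw [h.wedge, e]
    exact mul_ne_zero (fun h => hab (mq_zero.mp h)) fun h => hc (mq_zero.mp h)
  have w : ∀ b x y, lv s v x * s b y - lv s v y * s b x = 0 := fun b x y => by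
    rw [wedge_one h, mq_zero.mpr (hv b), zero_mul]
  have h1 : lv s v y = 0 := by
    refine (mul_eq_zero.mp ?_).resolve_right hD
    linear_combination -(s b y) * w a x y + s a y * w b x y
  refine lv_zero hs fun z => (mul_eq_zero.mp ?_).resolve_right hD
  linear_combination s a x * w b z y - s b x * w a z y +
    (s a x * s b z - s b x * s a z) * h1

theorem rank_le (hF : Hyp F) (hN : NoFun E 0) {k : ℕ} (h : Frm E (k + 1) ω s Ω) (hs : Indep s)
    (W : Submodule ℂ (n → ℂ)) (hW : ∀ u ∈ W, ∀ v ∈ W, bil Ω u v ∈ Ideal.span {bc F ℂ}) :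
    finrank ℂ W ≤ hilb (Ideal.span {F}) k := by
  have := hF.dom
  have := hF.ufd'
  by_cases hb : W = ⊥
  · rw [hb, finrank_bot]
    exact Nat.zero_le _
  obtain ⟨v, hv, hv0⟩ := (Submodule.ne_bot_iff W).mp hb
  have hl0 : lv s v ≠ 0 := fun e => hv0 (lv_zero hs fun u => by rw [e]; rfl)
  obtain ⟨i, l, a1, a2, a3, a4⟩ := exists_prim hF hN _ _ (lv_fun h.fn v) hl0
  obtain ⟨_, x0, -, hx0⟩ := ex_hom hl0
  obtain ⟨e, x, hx, hlx⟩ := ex_hom a2
  have w1 : ∀ u ∈ W, ∀ y z, lv s u y * lv s v z - lv s u z * lv s v y = 0 := fun u hu y z => by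
    rw [wedge_two h, mq_zero.mpr (hW u hu v hv), zero_mul]
  have w2 : ∀ u ∈ W, ∀ y, lv s u y * l x = lv s u x * l y := fun u hu y => by
    refine mul_left_cancel₀ (mul_ne_zero hx0 hx0) ?_
    linear_combination (lv s v x0 * l x) * w1 u hu y x0 - (lv s v x0 * l y) * w1 u hu x x0 +
      (lv s u x0 * lv s v y) * wedge_ker a4 x x0 - (lv s u x0 * lv s v x) * wedge_ker a4 y x0
  let μ : Rq F ℂ →ₗ[ℂ] Rq F ℂ := LinearMap.mulLeft ℂ (l x)
  let φ : (n → ℂ) →ₗ[ℂ] Rq F ℂ := (LinearMap.mulLeft ℂ (mq F ℂ (X 3 ^ i))).comp (ev s x)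
  have hφ : ∀ u, φ u = mq F ℂ (X 3 ^ i) * lv s u x := fun _ => rfl
  have key : W.map φ ≤ ((Hd k).map (mk F)).map μ := by
    rintro _ ⟨u, hu, rfl⟩
    obtain ⟨r, hr⟩ := div (Rq F ℂ) (Set.range l) (l x) (lv s u x) (fun ρ hρ => by
      obtain ⟨y, hy⟩ := a3 ρ hρ
      exact ⟨_, ⟨y, rfl⟩, hy⟩) hlx (by
      rintro _ ⟨y, rfl⟩
      exact ⟨lv s u y, by linear_combination -w2 u hu y⟩)
    have b1 := HomR.mul (X3_mem (F := F) i) (lv_fun h.fn u e x hx)
    have b2 : mq F ℂ (X 3 ^ i) * lv s u x = l x * (mq F ℂ (X 3 ^ i) * r) := by rw [hr]; ring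
    rw [b2] at b1
    refine ⟨mq F ℂ (X 3 ^ i) * r, mem_RH.mpr ((HomR.cancel hF.hom (a1 e x hx)
      (fun y hy => (mul_eq_zero.mp hy).resolve_left hlx) b1).1 k (by omega)), ?_⟩
    rw [hφ, b2]
    rfl
  have hinj : Function.Injective (φ.domRestrict W) := by
    rw [injective_iff_map_eq_zero]
    rintro ⟨u, hu⟩ h3
    have h4 : lv s u x = 0 := hF.rg.nzdR (i := 3) (by decide) i _ h3
    refine Subtype.ext (lv_zero hs fun y => ?_)
    have b1 := w2 u hu y
    rw [h4, zero_mul] at b1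
    exact (mul_eq_zero.mp b1).resolve_right hlx
  rw [← rank_RH, ← LinearMap.finrank_range_of_inj hinj, LinearMap.range_domRestrict]
  exact (Submodule.finrank_mono key).trans (Submodule.finrank_map_le _ _)

end ESepP

open ESepP in
theorem sep : S_Sep := by
  intro F hF E k ω s Ω hN hk h hs hz
  refine ⟨nd hF h hs hz, fun W hW => ?_⟩
  have h1 := rank_le hF hN h hs W hW
  have h2 := (hilbF F hF.hom hF.ne_zero).1 k hk
  obtain ⟨m, rfl⟩ : ∃ m, k = m + 1 := ⟨k - 1, by omega⟩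
  rw [Fintype.card_fin]
  change _ < 6 * (m + 1) * m + 8
  nlinarith

end Pool.Agent.P.MP_2b2d3b_ag
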