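import Pool.Agent.P.MP_2b2d3b_ag.StE

/-!
Completeness of a frame of functionals is an open condition.
-/

namespace Pool.Agent.P.MP_2b2d3b_ag

open MvPolynomial Module

namespace ESpanP

open SysP (Co)

variable {F : Pol ℂ} {B : Type} [CommRing B] [Algebra ℂ B] {B' : Type} [CommRing B'] [Algebra ℂ B']
  {N : ℕ} (c : ∀ d, Co F d) (a : Fin N → ℕ) (e : ℕ)

/-- unknowns -/
abbrev Un : Type := Σ i : Fin N, Fin (c (a i + e)).r

/-- equations -/
abbrev Eq : Type := Σ t : Fin N × Fin N × Fin N, Fin (c (a t.1 + a t.2.1 + a t.2.2 + e + 1)).r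

/-- the value at the `i`-th generator -/
noncomputable def w (B : Type) [CommRing B] [Algebra ℂ B] (i : Fin N) :
    (Un c a e → B) →ₗ[B] Pol B :=
  ((c (a i + e)).W B).comp (LinearMap.funLeft B B fun k => ⟨i, k⟩)

theorem w_apply (i : Fin N) (y : Un c a e → B) :
    w c a e B i y = (c (a i + e)).W B fun k => y ⟨i, k⟩ := rfl

theorem map_w (φ : B →ₐ[ℂ] B') (i : Fin N) (y : Un c a e → B) :
    map (φ : B →+* B') (w c a e B i y) = w c a e B' i (φ ∘ y) := Co.map_W _ φ _

theorem w_inj {y : Un c a e → B} (h : ∀ i, mq F B (w c a e B i y) = 0) : y = 0 := by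
  funext ⟨i, k⟩
  have := (c (a i + e)).PB_kill k (mq_zero.1 (h i))
  rwa [w_apply, Co.PB_W] at this

/-- the Pluecker expression -/
noncomputable def pl (Ω : Matrix (Fin N) (Fin N) (Pol B)) (i j l : Fin N) :
    (Un c a e → B) →ₗ[B] Pol B :=
  (LinearMap.mulRight B (Ω j l)).comp (w c a e B i) +
    (LinearMap.mulRight B (Ω l i)).comp (w c a e B j) +
    (LinearMap.mulRight B (Ω i j)).comp (w c a e B l)

theorem pl_apply (Ω : Matrix (Fin N) (Fin N) (Pol B)) (i j l : Fin N) (y : Un c a e → B) :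
    pl c a e Ω i j l y =
      w c a e B i y * Ω j l + w c a e B j y * Ω l i + w c a e B l y * Ω i j := rfl

/-- the system -/
noncomputable def L (Ω : Matrix (Fin N) (Fin N) (Pol B)) : (Un c a e → B) →ₗ[B] (Eq c a e → B) :=
  LinearMap.pi fun q => ((c _).PB B q.2).comp (pl c a e Ω q.1.1 q.1.2.1 q.1.2.2)

theorem L_apply (Ω : Matrix (Fin N) (Fin N) (Pol B)) (y : Un c a e → B) (q : Eq c a e) :
    L c a e Ω y q = (c _).PB B q.2 (pl c a e Ω q.1.1 q.1.2.1 q.1.2.2 y) := rfl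

theorem map_L (φ : B →ₐ[ℂ] B') (Ω : Matrix (Fin N) (Fin N) (Pol B)) (y : Un c a e → B)
    (q : Eq c a e) : φ (L c a e Ω y q) = L c a e (Ω.map (map (φ : B →+* B'))) (φ ∘ y) q := by
  rw [L_apply, L_apply, ← Co.PB_map]
  simp only [pl_apply, map_add, map_mul, map_w, Matrix.map_apply]

theorem map_mat (φ : B →ₐ[ℂ] B') (Ω : Matrix (Fin N) (Fin N) (Pol B)) :
    (LinearMap.toMatrix' (L c a e Ω)).map φ =
      LinearMap.toMatrix' (L c a e (Ω.map (map (φ : B →+* B')))) := by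
  ext q u
  rw [Matrix.map_apply, LinearMap.toMatrix'_apply, LinearMap.toMatrix'_apply, map_L]
  refine congrFun (congrArg _ (funext fun v => ?_)) q
  simp only [Function.comp_apply, Pi.single_apply]
  split_ifs <;> simp

theorem mulVec_iff (φ : B →ₐ[ℂ] B') {Ω : Matrix (Fin N) (Fin N) (Pol B)}
    (hΩ : ∀ i j, (Ω i j).IsHomogeneous (a i + a j + 1)) (y : Un c a e → B') :
    ((LinearMap.toMatrix' (L c a e Ω)).map φ).mulVec y = 0 ↔ ∀ i j l,
      mq F B' (w c a e B' i y) * mapR F φ (mq F B (Ω j l)) +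
        mq F B' (w c a e B' j y) * mapR F φ (mq F B (Ω l i)) +
        mq F B' (w c a e B' l y) * mapR F φ (mq F B (Ω i j)) = 0 := by
  rw [map_mat, LinearMap.toMatrix'_mulVec]
  have hw : ∀ i, (w c a e B' i y).IsHomogeneous (a i + e) := fun i => Co.W_hom _ _
  have hp : ∀ i j l, (pl c a e (Ω.map (map (φ : B →+* B'))) i j l y).IsHomogeneous
      (a i + a j + a l + e + 1) := fun i j l => by
    rw [pl_apply]
    refine (IsHomogeneous.add ?_ ?_).add ?_
    · rw [show a i + a j + a l + e + 1 = a i + e + (a j + a l + 1) by omega]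
      exact (hw i).mul ((hΩ j l).map _)
    · rw [show a i + a j + a l + e + 1 = a j + e + (a l + a i + 1) by omega]
      exact (hw j).mul ((hΩ l i).map _)
    · rw [show a i + a j + a l + e + 1 = a l + e + (a i + a j + 1) by omega]
      exact (hw l).mul ((hΩ i j).map _)
  simp only [mapR_mq, ← map_mul, ← map_add]
  exact ⟨fun h i j l => ((c _).zero_iff (hp i j l)).1 fun k => congrFun h ⟨(i, j, l), k⟩,
    fun h => funext fun q => ((c _).zero_iff (hp _ _ _)).2 (h _ _ _) q.2⟩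

variable {E : Bundle F B} {ω : E.M →ₗ[Pol B] E.M →ₗ[Pol B] Rq F B} {m : Fin N → E.M}

/-- values that satisfy the Pluecker relations define a semilinear functional -/
theorem exists_semi (hR : Rg F) (hω : Pairing E ω) (φ : B →ₐ[ℂ] B')
    (hm : Submodule.span (Pol B) (Set.range m) = ⊤) (hma : ∀ i, m i ∈ E.gr.piece (a i))
    (x : Fin N → Rq F B') (hx : ∀ i, x i ∈ HomR F B' (a i + e))
    (h : ∀ i j l, x i * mapR F φ (ω (m j) (m l)) + x j * mapR F φ (ω (m l) (m i)) +
      x l * mapR F φ (ω (m i) (m j)) = 0) :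
    ∃ σ : E.M →+ Rq F B', Semi φ σ ∧ (∀ i, σ (m i) = x i) ∧
      ∀ d, ∀ u ∈ E.gr.piece d, σ u ∈ HomR F B' (d + e) := by
  let π := Fintype.linearCombination (Pol B) m
  have hπ : Function.Surjective π.toAddMonoidHom := by
    change Function.Surjective π
    rw [← LinearMap.range_eq_top, Fintype.range_linearCombination, hm]
  let g : (Fin N → Pol B) →+ Rq F B' := AddMonoidHom.mk'
    (fun v => ∑ i, mapR F φ (mq F B (v i)) * x i) fun u v => by
      simp only [Pi.add_apply, map_add, add_mul, Finset.sum_add_distrib]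
  have hg : ∀ v, g v = ∑ i, mapR F φ (mq F B (v i)) * x i := fun _ => rfl
  have hker : π.toAddMonoidHom.ker ≤ g.ker := fun v hv => by
    have h0 : ∑ i, v i • m i = 0 := (Fintype.linearCombination_apply (Pol B) m v).symm.trans hv
    refine SysP.zero_of_gens hR hω φ hm fun j l => ?_
    have h1 := congrArg (fun u => mapR F φ (ω (m l) u)) h0
    have h2 := congrArg (fun u => mapR F φ (ω.flip (m j) u)) h0
    simp only [map_sum, map_smul, smul_mq, map_mul, map_zero, LinearMap.flip_apply] at h1 h2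
    rw [hg, Finset.mul_sum, ← neg_zero, ← add_zero (0 : Rq F B')]
    nth_rewrite 1 [← mul_zero (x j), ← h1]
    rw [← mul_zero (x l), ← h2, Finset.mul_sum, Finset.mul_sum, ← Finset.sum_add_distrib,
      ← Finset.sum_neg_distrib]
    exact Finset.sum_congr rfl fun i _ => by
      linear_combination mapR F φ (mq F B (v i)) * h i j l
  let σ := π.toAddMonoidHom.liftOfSurjective hπ ⟨g, hker⟩
  have hσ : ∀ v, σ (π v) = g v := fun v =>
    π.toAddMonoidHom.liftOfRightInverse_comp_apply _ _ ⟨g, hker⟩ v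
  have hs : Semi φ σ := fun p u => by
    obtain ⟨v, rfl⟩ := hπ u
    change σ (p • π v) = _ • σ (π v)
    rw [← map_smul, hσ, hσ, hg, hg, smul_mq, Finset.mul_sum]
    refine Finset.sum_congr rfl fun i _ => ?_
    rw [Pi.smul_apply, smul_eq_mul, map_mul, map_mul, mapR_mq, mul_assoc]
  have hv : ∀ i, σ (m i) = x i := fun i => by
    have : m i = π (Pi.single i 1) := by simp [π]
    rw [this, hσ, hg, Finset.sum_eq_single i] <;> simp +contextual
  refine ⟨σ, hs, hv, fun d u hu => ?_⟩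
  let K := E.gr.sub (fun d => (HomR F B' (d + e)).comap σ) fun n d p hp u _ h => by
    change σ (p • u) ∈ HomR F B' (d + n + e)
    rw [hs, smul_mq, show d + n + e = n + (d + e) by omega]
    exact HomR.mul (mq_mem (hp.map _)) h
  have h1 : Submodule.span (Pol B) (Set.range m) ≤ K := by
    rw [Submodule.span_le]
    rintro _ ⟨i, rfl⟩
    refine (E.gr.mem_sub_of_mem (hma i)).2 ?_
    change σ (m i) ∈ HomR F B' (a i + e)
    rw [hv]
    exact hx i
  exact (E.gr.mem_sub_of_mem hu).1 (h1 (by rw [hm]; trivial))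

variable {Ω : Matrix (Fin N) (Fin N) (Pol B)} {φ : B →ₐ[ℂ] B'} {E' : Bundle F B'} {θ : E.M →+ E'.M}

/-- a functional gives a solution -/
theorem sol_of_fun (hR : Rg F) (hω : Pairing E ω) (hma : ∀ i, m i ∈ E.gr.piece (a i))
    (hΩ : ∀ i j, (Ω i j).IsHomogeneous (a i + a j + 1))
    (eΩ : ∀ i j, ω (m i) (m j) = mq F B (Ω i j)) (hθ : Pull φ E E' θ)
    {s : E'.M →ₗ[Pol B'] Rq F B'} (hs : IsFun E' e s) :
    ∃ y, ((LinearMap.toMatrix' (L c a e Ω)).map φ).mulVec y = 0 ∧
      ∀ i, mq F B' (w c a e B' i y) = s (θ (m i)) := by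
  choose p hp ep using fun i => hs _ _ (hθ.hom _ _ (hma i))
  have e1 : ∀ i, mq F B' (w c a e B' i fun u => (c _).PB B' u.2 (p u.1)) = s (θ (m i)) :=
    fun i => ((c _).W_PB (hp i)).trans (ep i).symm
  refine ⟨_, (mulVec_iff c a e φ hΩ _).2 fun i j l => ?_, e1⟩
  simp only [e1, ← eΩ]
  have := pluecker_semi hR hω.alt _ (hθ.semi.comp (semi_id s)) (m i) (m j) (m l)
  rwa [AlgHom.id_comp] at this

/-- a solution gives a functional -/
theorem fun_of_sol (hR : Rg F) (hω : Pairing E ω)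
    (hm : Submodule.span (Pol B) (Set.range m) = ⊤) (hma : ∀ i, m i ∈ E.gr.piece (a i))
    (hΩ : ∀ i j, (Ω i j).IsHomogeneous (a i + a j + 1))
    (eΩ : ∀ i j, ω (m i) (m j) = mq F B (Ω i j)) (hθ : Pull φ E E' θ) {y : Un c a e → B'}
    (hy : ((LinearMap.toMatrix' (L c a e Ω)).map φ).mulVec y = 0) :
    ∃ s, IsFun E' e s ∧ ∀ i, s (θ (m i)) = mq F B' (w c a e B' i y) := by
  obtain ⟨σ, hs, hv, hd⟩ := exists_semi a e hR hω φ hm hma (fun i => mq F B' (w c a e B' i y))
    (fun i => mq_mem (Co.W_hom _ _)) fun i j l => by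
      simpa only [eΩ] using (mulVec_iff c a e φ hΩ y).1 hy i j l
  obtain ⟨s, e1, hf⟩ := hθ.ext hR hs
  exact ⟨s, hf e hd, fun i => (e1 _).trans (hv i)⟩

/-- the values of a combination of the columns -/
theorem comb {n : Type} [Fintype n] {s : n → E.M →ₗ[Pol B] Rq F B}
    {s' : n → E'.M →ₗ[Pol B'] Rq F B'} {Y : n → Un c a e → B}
    (hY : ∀ b i, mq F B (w c a e B i (Y b)) = s b (m i))
    (hs : ∀ b u, s' b (θ u) = mapR F φ (s b u)) (k : n → B') (i : Fin N) :
    mq F B' (w c a e B' i (((Matrix.of fun u b => Y b u).map φ).mulVec k)) =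
      ∑ b, mq F B' (C (k b)) * s' b (θ (m i)) := by
  have : ((Matrix.of fun u b => Y b u).map φ).mulVec k = ∑ b, k b • (φ ∘ Y b) := by
    funext u
    simp [Matrix.mulVec, dotProduct, mul_comm]
  rw [this, map_sum, map_sum]
  refine Finset.sum_congr rfl fun b _ => ?_
  rw [map_smul, smul_eq_C_mul, map_mul, hs, ← hY, mapR_mq, map_w]

end ESpanP

open ESpanP in
theorem spanO (hL : S_LinA) : S_SpanO := by
  intro F hR B n _ _ _ E j s t E0 s0 hs hp hsp
  obtain ⟨ω, hω⟩ := E.exists_pairing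
  have := E.rankTwo.finite
  obtain ⟨N, a, m, hma, hm⟩ := E.gr.exists_gens
  choose Ω hΩ eΩ using fun i j => hω.hom _ _ _ (hma i) _ (hma j)
  let c : ∀ d, SysP.Co F d := cb F
  choose Y hY eY using fun b =>
    sol_of_fun c a j (Ω := Matrix.of Ω) hR hω hma hΩ eΩ (Pull.refl E) (hs b)
  replace eY : ∀ b i, mq F B (w c a j B i (Y b)) = s b (m i) := eY
  obtain ⟨θ0, hθ0, e0⟩ := hp
  obtain ⟨⟨h, hh, key⟩, -⟩ := hL B n (Un c a j) (ESpanP.Eq c a j) (Matrix.of fun u b => Y b u)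
    (LinearMap.toMatrix' (L c a j (Matrix.of Ω))) t
    (by
      ext q b
      exact congrFun (hY b) q)
    (fun y hy => by
      obtain ⟨s', f', e'⟩ := fun_of_sol c a j (Ω := Matrix.of Ω) hR hω hm hma hΩ eΩ hθ0 hy
      obtain ⟨k, hk⟩ := hsp s' f'
      refine ⟨k, sub_eq_zero.1 (w_inj c a j fun i => ?_)⟩
      rw [map_sub, map_sub, comb c a j eY e0, ← e', hk, sub_self])
  refine ⟨h, hh, fun B1 _ _ τ E1 s1 hu hp1 s' f' => ?_⟩
  obtain ⟨θ, hθ, e1⟩ := hp1
  obtain ⟨y, hy, ey⟩ := sol_of_fun c a j (Ω := Matrix.of Ω) hR hω hma hΩ eΩ hθ f'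
  obtain ⟨k, hk⟩ := key B1 τ hu y hy
  have h0 : s' - ∑ b, (C (k b) : Pol B1) • s1 b = 0 := by
    refine hθ.fun_zero hR fun u => ?_
    refine (mul_one _).symm.trans (SysP.semi_span (hθ.semi.comp
      (semi_id (s' - ∑ b, (C (k b) : Pol B1) • s1 b))) hm (r := 1) (fun i => ?_) u)
    change (s' - ∑ b, (C (k b) : Pol B1) • s1 b) (θ (m i)) * 1 = 0
    rw [mul_one, LinearMap.sub_apply, LinearMap.sum_apply, ← ey, hk, comb c a j eY e1]
    exact sub_self _
  refine ⟨k, fun u => ?_⟩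
  have h1 := LinearMap.congr_fun h0 u
  rw [LinearMap.sub_apply, LinearMap.sum_apply, LinearMap.zero_apply, sub_eq_zero] at h1
  exact h1

end Pool.Agent.P.MP_2b2d3b_ag
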