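import Pool.Agent.P.MP_2b2d3b_ag.StE

/-!
The universal property of the coordinate ring of a chart.
-/

namespace Pool.Agent.P.MP_2b2d3b_ag

open MvPolynomial Matrix

namespace EUnivP

section Nat

variable {B : Type} [CommRing B] [Algebra ℂ B] {B' : Type} [CommRing B'] [Algebra ℂ B']
  {Ψ : Type} {m : Type} [Fintype m] [DecidableEq m]

omit [DecidableEq m] in
theorem map_comb (σ : B →ₐ[ℂ] B') (c : m → B) (M : m → Matrix m m B) :
    (∑ q, c q • M q).map σ = ∑ q, σ (c q) • (M q).map σ := by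
  ext a b
  simp [Matrix.sum_apply]

omit [DecidableEq m] in
theorem map_mulVec' (σ : B →ₐ[ℂ] B') (M : Matrix m m B) (v : m → B) (r : m) :
    σ (M.mulVec v r) = (M.map σ).mulVec (σ ∘ v) r := by
  simp [Matrix.mulVec, dotProduct]

omit [DecidableEq m] in
theorem map_trace' (σ : B →ₐ[ℂ] B') (M : Matrix m m B) : (M.map σ).trace = σ M.trace := by
  simp [Matrix.trace]

omit [Fintype m] in
theorem map_one' (σ : B →ₐ[ℂ] B') : (1 : Matrix m m B).map σ = 1 :=
  Matrix.map_one _ (map_zero σ) (map_one σ)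

omit [Fintype m] [DecidableEq m] in
theorem mpM_apply (σ : B →ₐ[ℂ] B') (L : Ψ → Matrix m m B) (ψ : Ψ) :
    mpM σ L ψ = (L ψ).map σ := rfl

end Nat

variable {B : Type} [CommRing B] [Algebra ℂ B] {B' : Type} [CommRing B'] [Algebra ℂ B']
  {n : Type} [Fintype n] [DecidableEq n]

theorem Zm_mpM {Ψ : Type} (σ : B →ₐ[ℂ] B') (w : n × n → List Ψ)
    (L : Ψ → Matrix (n × n) (n × n) B) (p : n × n) (ψ ψ' : Ψ) :
    Zm w (mpM σ L) p ψ ψ' = (Zm w L p ψ ψ').map σ := by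
  have h1 : wd (mpM σ L) (w p) * mpM σ L ψ = (wd L (w p) * L ψ).map σ := by
    rw [wd_mpM, mpM_apply, Matrix.map_mul]
  have h2 : mpM σ L ψ * (wd (mpM σ L) (w p) + wd (mpM σ L) (w p).reverse) * mpM σ L ψ' =
      (L ψ * (wd L (w p) + wd L (w p).reverse) * L ψ').map σ := by
    rw [wd_mpM, wd_mpM, mpM_apply, mpM_apply, Matrix.map_mul, Matrix.map_mul,
      Matrix.map_add _ (map_add σ)]
  rw [Zm, Zm, h1, h2, map_trace', mpM_apply]
  ext a b
  simp only [Matrix.sub_apply, Matrix.smul_apply, Matrix.map_apply, smul_eq_mul, map_sub, map_mul,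
    map_natCast]

/-- the form in the invariant Pluecker relation -/
noncomputable def fm {Ψ : Type} [Fintype Ψ] (β : Ψ → Pol ℂ) (w : n × n → List Ψ)
    (L : Ψ → Matrix (n × n) (n × n) B) (e : n × n → B) (p r : n × n) : Pol B :=
  ∑ ψ, ∑ ψ', C ((Zm w L p ψ ψ').mulVec e r) * (bc (β ψ) B * bc (β ψ') B)

theorem fm_map {Ψ : Type} [Fintype Ψ] (σ : B →ₐ[ℂ] B') (β : Ψ → Pol ℂ) (w : n × n → List Ψ)
    (L : Ψ → Matrix (n × n) (n × n) B) (e : n × n → B) (p r : n × n) :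
    fm β w (mpM σ L) (σ ∘ e) p r = map (σ : B →+* B') (fm β w L e p r) := by
  simp only [fm, map_sum, map_mul, map_C, map_bc, Zm_mpM, ← map_mulVec']
  rfl

theorem fm_hom {Ψ : Type} [Fintype Ψ] {β : Ψ → Pol ℂ} {d : ℕ} (hβ : ∀ ψ, (β ψ).IsHomogeneous d)
    (w : n × n → List Ψ) (L : Ψ → Matrix (n × n) (n × n) B) (e : n × n → B) (p r : n × n) :
    (fm β w L e p r).IsHomogeneous (d + d) :=
  IsHomogeneous.sum _ _ _ fun ψ _ => IsHomogeneous.sum _ _ _ fun ψ' _ =>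
    (((hβ ψ).map _).mul ((hβ ψ').map _)).C_mul _

/-- the matrices that have to vanish -/
noncomputable def dm {Ψ : Type} [Fintype Ψ] (φ : Ψ → ℂ) (w : n × n → List Ψ)
    (L : Ψ → Matrix (n × n) (n × n) B) (e : n × n → B) :
    (Ψ × (n × n)) ⊕ (Ψ × (n × n)) ⊕ Fin 4 → Matrix (n × n) (n × n) B
  | .inl (ψ, p) => L ψ * wd L (w p) - ∑ q, L ψ q p • wd L (w q)
  | .inr (.inl (ψ, p)) => ∑ q, L ψ q p • wd L (w q).reverse - wd L (w p).reverse * L ψ
  | .inr (.inr 0) => (Matrix.of fun p r => (wd L (w p)).mulVec e r) - 1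
  | .inr (.inr 1) => ∑ p, e p • wd L (w p) - 1
  | .inr (.inr 2) => ∑ p, e p • wd L (w p).reverse - 1
  | .inr (.inr 3) => ∑ ψ, φ ψ • L ψ - 1

theorem dm_map {Ψ : Type} [Fintype Ψ] (σ : B →ₐ[ℂ] B') (φ : Ψ → ℂ) (w : n × n → List Ψ)
    (L : Ψ → Matrix (n × n) (n × n) B) (e : n × n → B) (i) :
    dm φ w (mpM σ L) (σ ∘ e) i = (dm φ w L e i).map σ := by
  rcases i with ⟨ψ, p⟩ | ⟨ψ, p⟩ | i
  · simp only [dm, Matrix.map_sub _ (map_sub σ), Matrix.map_mul, map_comb, wd_mpM, mpM_apply,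
      Matrix.map_apply]
  · simp only [dm, Matrix.map_sub _ (map_sub σ), Matrix.map_mul, map_comb, wd_mpM, mpM_apply,
      Matrix.map_apply]
  · match i with
    | 0 =>
      simp only [dm, Matrix.map_sub _ (map_sub σ), map_one', wd_mpM]
      congr 1
      ext p r
      simp only [Matrix.of_apply, Matrix.map_apply, map_mulVec']
    | 1 => simp only [dm, Matrix.map_sub _ (map_sub σ), map_one', map_comb, wd_mpM,
        Function.comp_apply]
    | 2 => simp only [dm, Matrix.map_sub _ (map_sub σ), map_one', map_comb, wd_mpM,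
        Function.comp_apply]
    | 3 =>
      simp only [dm, Matrix.map_sub _ (map_sub σ), map_one']
      congr 1
      ext a b
      simp [mpM, Matrix.sum_apply]

theorem rel1_iff {Ψ : Type} [Fintype Ψ] (φ : Ψ → ℂ) (w : n × n → List Ψ)
    (L : Ψ → Matrix (n × n) (n × n) B) (e : n × n → B) :
    Rel1 φ w L e ↔ ∀ i, dm φ w L e i = 0 := by
  constructor
  · intro h i
    rcases i with ⟨ψ, p⟩ | ⟨ψ, p⟩ | i
    · exact sub_eq_zero.2 (h.r2 ψ p)
    · exact sub_eq_zero.2 (h.r4 ψ p)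
    · match i with
      | 0 =>
        refine sub_eq_zero.2 ?_
        ext p r
        rw [Matrix.of_apply, h.r1, Matrix.one_apply, Pi.single_apply]
        simp only [eq_comm]
      | 1 => exact sub_eq_zero.2 h.r3
      | 2 => exact sub_eq_zero.2 h.r5
      | 3 => exact sub_eq_zero.2 h.r6
  · intro h
    refine ⟨⟨fun p => ?_, fun ψ p => sub_eq_zero.1 (h (.inl (ψ, p))),
      sub_eq_zero.1 (h (.inr (.inr 1)))⟩, fun ψ p => sub_eq_zero.1 (h (.inr (.inl (ψ, p)))),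
      sub_eq_zero.1 (h (.inr (.inr 2))), sub_eq_zero.1 (h (.inr (.inr 3)))⟩
    funext r
    have := congrFun (congrFun (sub_eq_zero.1 (h (.inr (.inr 0)))) p) r
    rw [Matrix.of_apply, Matrix.one_apply] at this
    rw [this, Pi.single_apply]
    simp only [eq_comm]

variable {F : Pol ℂ} (D : CD F)

theorem relP_iff (L : D.Ψ → Matrix (D.n × D.n) (D.n × D.n) B) (e : D.n × D.n → B) :
    RelP F D.β D.w L e ↔ ∀ p r k,
      (cb F ((D.k + D.k + 1) + (D.k + D.k + 1))).PB B k (fm D.β D.w L e p r) = 0 := by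
  refine forall_congr' fun p => forall_congr' fun r => ?_
  rw [SysP.Co.zero_iff _ (fm_hom (cb F (D.k + D.k + 1)).hb D.w L e p r), mq_zero]
  rfl

/-- the relations are preserved by algebra maps -/
theorem rel_map (σ : B →ₐ[ℂ] B') {L : D.Ψ → Matrix (D.n × D.n) (D.n × D.n) B}
    {e : D.n × D.n → B} (h : D.Rel L e) : D.Rel (mpM σ L) (σ ∘ e) := by
  refine ⟨(rel1_iff _ _ _ _).2 fun i => ?_, (relP_iff D _ _).2 fun p r k => ?_⟩
  · rw [dm_map, (rel1_iff _ _ _ _).1 h.1 i, Matrix.map_zero _ (map_zero σ)]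
  · rw [fm_map, SysP.Co.PB_map, (relP_iff D _ _).1 h.2 p r k, map_zero]

/-- the relations are reflected by jointly injective families -/
theorem rel_of_map {ι : Type} {A : ι → Type} [∀ i, CommRing (A i)] [∀ i, Algebra ℂ (A i)]
    (σ : ∀ i, B →ₐ[ℂ] A i) (hσ : ∀ b, (∀ i, σ i b = 0) → b = 0)
    {L : D.Ψ → Matrix (D.n × D.n) (D.n × D.n) B} {e : D.n × D.n → B}
    (h : ∀ i, D.Rel (mpM (σ i) L) (σ i ∘ e)) : D.Rel L e := by
  refine ⟨(rel1_iff _ _ _ _).2 fun j => ?_, (relP_iff D _ _).2 fun p r k => hσ _ fun i => ?_⟩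
  · ext a b
    refine hσ _ fun i => ?_
    have := (rel1_iff _ _ _ _).1 (h i).1 j
    rw [dm_map] at this
    exact congrFun (congrFun this a) b
  · rw [← SysP.Co.PB_map, ← fm_map]
    exact (relP_iff D _ _).1 (h i).2 p r k

theorem rel_univ : D.Rel D.L D.e := by
  let S : Set (Ideal (MvPolynomial D.Var ℂ)) :=
    {J | D.Rel (mpM (Ideal.Quotient.mkₐ ℂ J) D.uL) (Ideal.Quotient.mkₐ ℂ J ∘ D.ue)}
  have hle : ∀ J : S, D.I ≤ J.1 := fun J => sInf_le J.2
  refine rel_of_map D (ι := S) (A := fun J => MvPolynomial D.Var ℂ ⧸ J.1)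
    (fun J => Ideal.Quotient.factorₐ ℂ (hle J)) (fun b hb => ?_) fun J => J.2
  obtain ⟨a, rfl⟩ := Ideal.Quotient.mk_surjective b
  refine Ideal.Quotient.eq_zero_iff_mem.2 (Submodule.mem_sInf.2 fun J hJ => ?_)
  exact Ideal.Quotient.eq_zero_iff_mem.1 (hb ⟨J, hJ⟩)

end EUnivP

open EUnivP in
theorem univ : S_Univ := by
  intro F D B _ _
  refine ⟨fun y => rel_map D y (rel_univ D), fun L e h => ?_⟩
  let σ : MvPolynomial D.Var ℂ →ₐ[ℂ] B :=
    aeval (Sum.elim (fun v => L v.1 v.2.1 v.2.2) e)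
  have hL : mpM σ D.uL = L := by
    funext ψ
    ext q p
    simp [σ, mpM, CD.uL]
  have he : σ ∘ D.ue = e := by
    funext p
    simp [σ, CD.ue]
  have hJ : D.I ≤ RingHom.ker σ := by
    refine sInf_le ?_
    refine rel_of_map D (ι := Unit) (A := fun _ => B) (fun _ => Ideal.kerLiftAlg σ)
      (fun b hb => Ideal.kerLiftAlg_injective σ (by rw [hb (), map_zero])) fun _ => ?_
    have e1 : (Ideal.kerLiftAlg σ).comp (Ideal.Quotient.mkₐ ℂ (RingHom.ker σ)) = σ :=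
      AlgHom.ext fun a => Ideal.kerLiftAlg_mk σ a
    have e2 : (Ideal.kerLiftAlg σ) ∘ (Ideal.Quotient.mkₐ ℂ (RingHom.ker σ) ∘ D.ue) = e := by
      rw [← he]
      funext p
      exact Ideal.kerLiftAlg_mk σ _
    rw [mpM_mpM, e1, hL, e2]
    exact h
  refine ⟨Ideal.Quotient.liftₐ D.I σ fun a ha => hJ ha, ?_, ?_⟩
  · rw [← hL]
    rfl
  · rw [← he]
    rfl

end Pool.Agent.P.MP_2b2d3b_ag
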