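import Pool.Agent.P.MP_2b2d3b_ag.Adm

/-!
The module attached to a complex point of the parameter space is an extension.
-/

namespace Pool.Agent.P.MP_2b2d3b_ag

open Polynomial

theorem finrank_map_eq_of_ker {V W W' : Type} [AddCommGroup V] [AddCommGroup W] [AddCommGroup W']
    [Module ℂ V] [Module ℂ W] [Module ℂ W'] (φ : V →ₗ[ℂ] W) (ψ : V →ₗ[ℂ] W') (S : Submodule ℂ V)
    (h : ∀ x ∈ S, φ x = 0 ↔ ψ x = 0) :
    Module.finrank ℂ (S.map φ) = Module.finrank ℂ (S.map ψ) := by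
  rw [← LinearMap.range_domRestrict, ← LinearMap.range_domRestrict,
    ← (LinearMap.quotKerEquivRange _).finrank_eq, ← (LinearMap.quotKerEquivRange _).finrank_eq]
  refine (Submodule.quotEquivOfEq _ _ ?_).finrank_eq
  ext x
  simpa using h x.1 x.2

theorem pow_U_mem {B : Type} [CommRing B] (I : Ideal (Pol B)) (b : Pol B) (c : Fin 4 → B)
    (h : ∀ i, ∃ k : ℕ, MvPolynomial.X i ^ k * b ∈ I) : ∃ k : ℕ, linForm c ^ k * b ∈ I := by
  have : linForm c ∈ (I.colon {b}).radical :=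
    Ideal.sum_mem _ fun i _ => Ideal.mul_mem_left _ _ (by
      obtain ⟨k, hk⟩ := h i
      exact ⟨k, by simpa [Submodule.mem_colon_singleton] using hk⟩)
  obtain ⟨k, hk⟩ := this
  exact ⟨k, by simpa [Submodule.mem_colon_singleton] using hk⟩

/-- the ideal of second coordinates -/
noncomputable def snds {B : Type} [CommRing B] (N : Submodule (Pol B) (Pol B × Pol B)) :
    Ideal (Pol B) := N.map (LinearMap.snd _ _ _)

theorem mem_snds {B : Type} [CommRing B] {N : Submodule (Pol B) (Pol B × Pol B)} {b : Pol B} :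
    b ∈ snds N ↔ ∃ a, (a, b) ∈ N :=
  ⟨fun ⟨p, hp, e⟩ => ⟨p.1, by rw [← e]; exact hp⟩, fun ⟨a, h⟩ => ⟨(a, b), h, rfl⟩⟩

theorem mem_snds_Nt {B : Type} [CommRing B] {F l H G b : Pol B} :
    b ∈ snds (Nt F l H G) ↔ b * G ∈ Ideal.span {F, l} ⊔ Ideal.span {H} := by
  rw [mem_snds, mem_three]
  constructor
  · rintro ⟨a, h⟩
    obtain ⟨x, y, e⟩ := Ideal.mem_span_pair.mp (mem_Nt.mp h)
    exact ⟨x, -a, y, by linear_combination -e⟩
  · rintro ⟨x, a, y, e⟩
    exact ⟨-a, Ideal.mem_span_pair.mpr ⟨x, y, by dsimp only; linear_combination -e⟩⟩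

namespace Pt

variable {F G : Pol ℂ} {v : Pt ℂ}

theorem Eqs.hom_mem_iff (h : v.Eqs F) (hF : F.IsHomogeneous 6) (hG : G.IsHomogeneous 11)
    (eG : rho v.g G = v.G F) {b : Pol ℂ} {d : ℕ} (hb : b.IsHomogeneous d) :
    b ∈ snds (Nt F (linForm (v.g' 3)) v.H G) ↔ v.chi ∣ (rho v.g b).eval v.eta := by
  rw [mem_snds_Nt, ← h.mem_iff hF]
  constructor
  · intro hb
    obtain ⟨x, y, z, e⟩ := mem_three.mp hb
    have := congrArg (rho v.g) e
    simp only [map_add, map_mul, eG, rho_H h.e1, rho_U3 h.e1, rho_F h.e2] at this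
    exact ⟨_, _, by rw [this, zero_mul, add_zero, add_comm, mul_assoc]⟩
  · rintro ⟨r, s, e⟩
    obtain ⟨k, R, S, T, e', -⟩ := hom_mem h.e1 (hb.mul hG) hF v.H_hom
      (r := C (C v.tau) * s) (s := r) (by rw [map_mul, eG, e, rho_H h.e1, f]; ring)
    exact U0_cancel h hF k (mem_three.mpr ⟨R, S, T, e'⟩)

theorem Eqs.extension (h : v.Eqs F) (eG : rho v.g G = v.G F)
    (ha : Adm F (linForm (v.g' 3)) v.H G) :
    IsExtension F ha.gr (snds (Nt F (linForm (v.g' 3)) v.H G)) ∧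
      linForm (v.g' 3) ∈ snds (Nt F (linForm (v.g' 3)) v.H G) := by
  set l := linForm (v.g' 3)
  have n1 : (l, 0) ∈ Nt F l v.H G := by
    simpa [mem_Nt] using Ideal.mul_mem_right v.H _ (right_mem F l)
  refine ⟨⟨ha.bundle, mem_snds.mpr ⟨0, ?_⟩, fun b hb d => ?_, fun b hb => ?_, ⟨10, fun d hd => ?_⟩,
    el l 0 n1, ⟨_, _, _, ha.hl, MvPolynomial.isHomogeneous_zero _ _ _, rfl⟩, ?_⟩,
    mem_snds.mpr ⟨0, ?_⟩⟩
  · simpa [mem_Nt] using Ideal.mul_mem_right G _ (left_mem F l)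
  · obtain ⟨a, hab⟩ := mem_snds.mp hb
    exact mem_snds.mpr ⟨_, ha.comp_mem a b hab d⟩
  · obtain ⟨k, hk⟩ := pow_U_mem _ b (v.g' 0) hb
    rw [mem_snds_Nt] at hk ⊢
    exact U0_cancel h ha.hF k (by rwa [← mul_assoc])
  · let ψ : Pol ℂ →ₐ[ℂ] AdjoinRoot v.chi :=
      ((AdjoinRoot.mkₐ v.chi).comp ((aeval v.eta).restrictScalars ℂ)).comp (rho v.g)
    have hψ : ∀ b, ψ b = AdjoinRoot.mk v.chi ((rho v.g b).eval v.eta) := fun b => by
      simp [ψ, coe_aeval_eq_eval]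
    rw [hilb, finrank_map_eq_of_ker _ ψ.toLinearMap _ fun b hb => by
      rw [AlgHom.toLinearMap_apply, AlgHom.toLinearMap_apply, hψ, AdjoinRoot.mk_eq_zero,
        ← h.hom_mem_iff ha.hF ha.hG eG hb]
      exact Ideal.Quotient.eq_zero_iff_mem]
    have : (MvPolynomial.homogeneousSubmodule (Fin 4) ℂ d).map ψ.toLinearMap = ⊤ := by
      rw [eq_top_iff]
      rintro z -
      obtain ⟨p, rfl⟩ := AdjoinRoot.mk_surjective z
      obtain ⟨b, hb, e⟩ := exists_hom h.e1 (d := d) (p := C (p %ₘ v.chi)) (TD.C_of_natDegree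
        ((natDegree_le_iff_degree_le.mpr (Order.le_of_lt_succ (v.degree_mod p))).trans hd))
      refine ⟨b, hb, ?_⟩
      rw [AlgHom.toLinearMap_apply, hψ, e, eval_C, AdjoinRoot.mk_eq_mk, modByMonic_eq_sub_mul_div]
      simp
    rw [this, finrank_top, (AdjoinRoot.powerBasis' v.chi_monic).finrank,
      AdjoinRoot.powerBasis'_dim, natDegree_chi]
  · let π : Qm F (Nt F l v.H G) →ₗ[Pol ℂ] Pol ℂ ⧸ Ideal.span {F} := Submodule.liftQ _
      ((Ideal.span {F}).mkQ ∘ₗ LinearMap.snd _ _ _ ∘ₗ Submodule.subtype _) fun p hp =>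
        Ideal.Quotient.eq_zero_iff_mem.mpr hp.2
    have hπ : ∀ a b hab, π (el a b hab) = Ideal.Quotient.mk _ b := fun _ _ _ => rfl
    refine ⟨π, fun a e => ?_, fun u => ?_, fun b => ?_, ?_⟩
    · rw [smul_el, el_eq_zero, mul_comm] at e
      exact ha.h1 a e.1
    · obtain ⟨a, b, hab, rfl⟩ := el_surj u
      rw [hπ, Ideal.Quotient.eq_zero_iff_mem]
      constructor
      · intro hb
        obtain ⟨x, y, rfl⟩ := Ideal.mem_span_pair.mp (ha.h2 a (by
          have := Ideal.sub_mem _ (mem_Nt.mp hab) (Ideal.mul_mem_right G _ (mem_pair_left hb))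
          rwa [add_sub_cancel_right, mul_comm] at this))
        refine ⟨y, ?_⟩
        rw [smul_el, el_eq]
        exact ⟨Ideal.mem_span_singleton'.mpr ⟨x, by ring⟩, by simpa using hb⟩
      · rintro ⟨y, e⟩
        rw [smul_el, el_eq] at e
        simpa using e.2
    · rw [mem_snds]
      constructor
      · rintro ⟨a, hab⟩
        exact ⟨el a b hab, rfl⟩
      · rintro ⟨u, e⟩
        obtain ⟨a, b', hab, rfl⟩ := el_surj u
        rw [hπ, Ideal.Quotient.eq] at e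
        refine ⟨a, ?_⟩
        have := Ideal.sub_mem _ (mem_Nt.mp hab) (Ideal.mul_mem_right G _ (mem_pair_left e))
        rw [mem_Nt]
        convert this using 1
        ring
    · rintro d _ ⟨a, b, hab, -, hb, rfl⟩
      exact ⟨b, hb, rfl⟩
  · simpa [mem_Nt] using Ideal.mul_mem_right G _ (right_mem F l)

end Pt

end Pool.Agent.P.MP_2b2d3b_ag
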