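import Pool.Agent.P.MP_2b2d3b_ag.Mac

/-!
The filtration of a finite dimensional Gorenstein quotient by the images of the forms.
-/

namespace Pool.Agent.P.MP_2b2d3b_ag

open MvPolynomial Module

namespace FiltP

variable {A : Type} [CommRing A] [Algebra ℂ A] {ev : Pol ℂ →ₐ[ℂ] A} {w : Pol ℂ}
  {lam : A →ₗ[ℂ] ℂ} {r : ℕ}

theorem V_pow (d : ℕ) : V ev d = V ev 1 ^ d := by
  rw [V, V, Hd, ← homogeneousSubmodule_one_pow, Submodule.map_pow]

theorem V_mul (i j : ℕ) : V ev i * V ev j = V ev (i + j) := by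
  rw [V_pow i, V_pow j, V_pow (i + j), pow_add]

theorem mul_mem {i j : ℕ} {a b : A} (ha : a ∈ V ev i) (hb : b ∈ V ev j) :
    a * b ∈ V ev (i + j) := V_mul (ev := ev) i j ▸ Submodule.mul_mem_mul ha hb

theorem mul_mem1 {i : ℕ} {a b : A} (ha : a ∈ V ev 1) (hb : b ∈ V ev i) :
    a * b ∈ V ev (i + 1) := mul_comm a b ▸ mul_mem hb ha

theorem mem_V {d : ℕ} {b : Pol ℂ} (hb : b.IsHomogeneous d) : ev b ∈ V ev d := ⟨b, hb, rfl⟩

theorem pow_mem {a : A} (ha : a ∈ V ev 1) (n : ℕ) : a ^ n ∈ V ev n := by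
  rw [V_pow n]
  exact Submodule.pow_mem_pow _ ha n

theorem V_one : V ev 1 = Submodule.span ℂ (Set.range fun i => ev (X i)) := by
  rw [V, Hd, homogeneousSubmodule_one_eq_span_X, Submodule.map_span, ← Set.range_comp]
  rfl

theorem V_zero : V ev 0 = Submodule.span ℂ {1} := by
  rw [V_pow 0, pow_zero, Submodule.one_eq_span]

theorem X_mem (i : Fin 4) : ev (X i) ∈ V ev 1 := mem_V (isHomogeneous_X ℂ i)

instance finite_V (d : ℕ) : Module.Finite ℂ (V ev d) := Module.Finite.map _ _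

theorem one_mem (h : Filt ev w lam r) : (1 : A) ∈ V ev 1 := h.hw ▸ mem_V h.hw1

theorem V_succ (h : Filt ev w lam r) (d : ℕ) : V ev d ≤ V ev (d + 1) := fun a ha => by
  simpa using mul_mem ha (one_mem h)

theorem V_mono (h : Filt ev w lam r) {i j : ℕ} (hij : i ≤ j) : V ev i ≤ V ev j :=
  monotone_nat_of_le_succ (V_succ h) hij

theorem kill (h : Filt ev w lam r) {d : ℕ} (hd : d ≤ r) {a : A} (ha : a ∈ V ev d) :
    lam a = 0 := by
  obtain ⟨b, hb, rfl⟩ := V_mono h hd ha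
  exact h.kill b hb

theorem exists_mem (h : Filt ev w lam r) (a : A) : ∃ d, a ∈ V ev d := by
  obtain ⟨b, rfl⟩ := h.surj a
  refine ⟨b.totalDegree, ?_⟩
  rw [← sum_homogeneousComponent b, map_sum]
  refine Submodule.sum_mem _ fun i hi => ?_
  rw [sum_homogeneousComponent b]
  exact V_mono h (Nat.lt_succ_iff.mp (Finset.mem_range.mp hi))
    (mem_V (homogeneousComponent_isHomogeneous i b))

theorem V_top (h : Filt ev w lam r) {d : ℕ} (hd : V ev (d + 1) ≤ V ev d) : V ev d = ⊤ := by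
  have key : ∀ n, V ev (d + n) ≤ V ev d := by
    intro n
    induction n with
    | zero => exact le_rfl
    | succ n ih =>
      rw [← add_assoc, ← V_mul]
      refine le_trans ?_ hd
      rw [← V_mul d 1]
      exact Submodule.mul_le.mpr fun a ha b hb => Submodule.mul_mem_mul (ih ha) hb
  rw [eq_top_iff]
  intro a _
  obtain ⟨n, hn⟩ := exists_mem h a
  exact key n (V_mono h (Nat.le_add_left n d) hn)

/-- the dimension of `V d` -/
noncomputable def fd (ev : Pol ℂ →ₐ[ℂ] A) (d : ℕ) : ℕ := finrank ℂ (V ev d)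

theorem fd_succ (h : Filt ev w lam r) (d : ℕ) : fd ev d ≤ fd ev (d + 1) :=
  Submodule.finrank_mono (V_succ h d)

theorem fd_le (h : Filt ev w lam r) (d : ℕ) : fd ev d ≤ finrank ℂ A :=
  have := h.fin
  Submodule.finrank_le _

theorem fd_top {d : ℕ} (hd : V ev d = ⊤) : fd ev d = finrank ℂ A := by
  rw [fd, hd, finrank_top]

theorem top_of_fd (h : Filt ev w lam r) {d : ℕ} (hd : fd ev d = finrank ℂ A) : V ev d = ⊤ :=
  have := h.fin
  Submodule.eq_top_of_finrank_eq hd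

theorem fd_stop (h : Filt ev w lam r) (d : ℕ) (hd : fd ev (d + 1) ≤ fd ev d) :
    fd ev d = finrank ℂ A :=
  fd_top (V_top h (Submodule.eq_of_le_of_finrank_le (V_succ h d) hd).ge)

theorem finrank_quot {K S : Submodule ℂ A} [Module.Finite ℂ S] (h : K ≤ S) :
    finrank ℂ (S.map K.mkQ) + finrank ℂ K = finrank ℂ S := by
  have h1 := rank_null K.mkQ S
  rwa [Submodule.ker_mkQ, inf_eq_left.mpr h] at h1

/-- multiplication by `y` is onto the graded piece of degree `d + 1` -/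
def Lef (ev : Pol ℂ →ₐ[ℂ] A) (y : A) (d : ℕ) : Prop :=
  V ev (d + 1) ≤ V ev d ⊔ (V ev d).map (LinearMap.mulLeft ℂ y)

theorem Lef.dec {y : A} {d : ℕ} (h : Lef ev y d) {a : A} (ha : a ∈ V ev (d + 1)) :
    ∃ p ∈ V ev d, ∃ q ∈ V ev d, a = p + y * q := by
  obtain ⟨p, hp, _, ⟨q, hq, rfl⟩, rfl⟩ := Submodule.mem_sup.mp (h ha)
  exact ⟨p, hp, q, hq, rfl⟩

theorem Lef.succ {y : A} {d : ℕ} (h : Lef ev y d) : Lef ev y (d + 1) := by
  rw [Lef, ← V_mul (d + 1) 1]
  refine Submodule.mul_le.mpr fun a ha b hb => ?_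
  obtain ⟨p, hp, q, hq, rfl⟩ := h.dec ha
  refine Submodule.mem_sup.mpr ⟨p * b, mul_mem hp hb, y * (q * b), ⟨q * b, mul_mem hq hb, rfl⟩, ?_⟩
  ring

theorem Lef.mono {y : A} {d e : ℕ} (h : Lef ev y d) (hde : d ≤ e) : Lef ev y e := by
  induction hde with
  | refl => exact h
  | step _ ih => exact ih.succ

theorem exists_lef (h : Filt ev w lam r) (d : ℕ) (hd : fd ev (d + 1) ≤ fd ev d + (d + 1)) :
    ∃ w' : Pol ℂ, w'.IsHomogeneous 1 ∧ Lef ev (ev w') d := by
  have h1 := mac A 4 (fun i => ev (X i)) d (V ev d) (by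
    rw [← V_one, ← V_pow]
    have := finrank_quot (V_succ h d)
    unfold fd at hd
    omega)
  obtain ⟨c, hc⟩ := h1.exists_notMem
  rw [Set.mem_ofPred_eq, not_not, ← V_one, ← V_pow, ← V_pow] at hc
  refine ⟨∑ i : Fin 4, c ^ (i : ℕ) • X i, ?_, ?_⟩
  · exact (homogeneousSubmodule (Fin 4) ℂ 1).sum_mem fun i _ =>
      Submodule.smul_mem _ _ (isHomogeneous_X ℂ i)
  · simpa only [Lef, map_sum, map_smul] using hc

/-- the graded piece of degree `d + 1` -/
noncomputable abbrev Gr (ev : Pol ℂ →ₐ[ℂ] A) (d : ℕ) : Submodule ℂ (A ⧸ V ev d) :=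
  (V ev (d + 1)).map (V ev d).mkQ

/-- the class of an element in the graded piece -/
noncomputable def cl {d : ℕ} (a : A) (ha : a ∈ V ev (d + 1)) : Gr ev d :=
  ⟨(V ev d).mkQ a, a, ha, rfl⟩

theorem cl_surj {d : ℕ} (u : Gr ev d) : ∃ a ha, u = cl a ha := by
  obtain ⟨_, a, ha, rfl⟩ := u
  exact ⟨a, ha, rfl⟩

theorem cl_eq {d : ℕ} {a b : A} {ha : a ∈ V ev (d + 1)} {hb : b ∈ V ev (d + 1)} :
    cl a ha = cl b hb ↔ a - b ∈ V ev d := by
  rw [cl, cl, Subtype.mk.injEq]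
  exact Submodule.Quotient.eq _

theorem cl_eq_zero {d : ℕ} {a : A} {ha : a ∈ V ev (d + 1)} : cl a ha = 0 ↔ a ∈ V ev d := by
  rw [cl, Subtype.ext_iff]
  exact Submodule.Quotient.mk_eq_zero _

/-- multiplication by an element of `V 1` on the graded pieces -/
noncomputable def mq (x : A) (hx : x ∈ V ev 1) (d : ℕ) : Gr ev d →ₗ[ℂ] Gr ev (d + 1) :=
  ((V ev d).mapQ (V ev (d + 1)) (LinearMap.mulLeft ℂ x) fun _ ha => mul_mem1 hx ha).restrict
    (by
      rintro _ ⟨a, ha, rfl⟩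
      exact ⟨x * a, mul_mem1 hx ha, rfl⟩)

theorem mq_cl {x : A} (hx : x ∈ V ev 1) {d : ℕ} (a : A) (ha : a ∈ V ev (d + 1)) :
    mq x hx d (cl a ha) = cl (x * a) (mul_mem1 hx ha) := rfl

theorem mq_surj {y : A} (hy : y ∈ V ev 1) {d : ℕ} (h : Lef ev y (d + 1)) :
    Function.Surjective (mq y hy d) := by
  intro u
  obtain ⟨a, ha, rfl⟩ := cl_surj u
  obtain ⟨p, hp, q, hq, rfl⟩ := h.dec ha
  exact ⟨cl q hq, by rw [mq_cl, cl_eq]; simpa using hp⟩

theorem finrank_Gr (h : Filt ev w lam r) (d : ℕ) :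
    finrank ℂ (Gr ev d) + fd ev d = fd ev (d + 1) := finrank_quot (V_succ h d)

theorem concave (h : Filt ev w lam r) {y : A} (hy : y ∈ V ev 1) {d : ℕ}
    (hl : Lef ev y (d + 1)) : fd ev (d + 2) + fd ev d ≤ 2 * fd ev (d + 1) := by
  have h1 := LinearMap.finrank_le_finrank_of_surjective (mq_surj hy hl)
  have h2 := finrank_Gr h d
  have h3 := finrank_Gr h (d + 1)
  rw [show d + 1 + 1 = d + 2 from rfl] at h3
  omega

theorem mq_inj (h : Filt ev w lam r) {y : A} (hy : y ∈ V ev 1) {d : ℕ}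
    (hl : Lef ev y (d + 1)) (he : fd ev (d + 2) + fd ev d = 2 * fd ev (d + 1)) :
    Function.Injective (mq y hy d) := by
  have h2 := finrank_Gr h d
  have h3 := finrank_Gr h (d + 1)
  rw [show d + 1 + 1 = d + 2 from rfl] at h3
  exact (LinearMap.injective_iff_surjective_of_finrank_eq_finrank (by omega)).mpr (mq_surj hy hl)

open scoped IsMulCommutative in
theorem exists_theta {E : Type} [Ring E] [Algebra ℂ E] (T : Fin 4 → E)
    (hT : ∀ i j, T i * T j = T j * T i) : ∃ Θ : Pol ℂ →ₐ[ℂ] E, ∀ i, Θ (X i) = T i := by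
  have := Algebra.isMulCommutative_adjoin ℂ (s := Set.range T) (by
    rintro _ ⟨i, rfl⟩ _ ⟨j, rfl⟩
    exact hT i j)
  refine ⟨(Algebra.adjoin ℂ (Set.range T)).val.comp
    (aeval fun i => (⟨T i, Algebra.subset_adjoin ⟨i, rfl⟩⟩ : Algebra.adjoin ℂ (Set.range T))),
    fun i => ?_⟩
  simp

/-- the Hilbert function cannot stall at a positive value -/
theorem stall (h : Filt ev w lam r) (hav : Av6 ev w) {w' : Pol ℂ} (hw' : w'.IsHomogeneous 1)
    {e : ℕ} (he : 4 ≤ e) (hl : Lef ev (ev w') e)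
    (hs : fd ev (e + 2) + fd ev e = 2 * fd ev (e + 1)) : fd ev (e + 1) = finrank ℂ A := by
  have hy : ev w' ∈ V ev 1 := mem_V hw'
  set y := ev w' with hyd
  let ε : Gr ev e ≃ₗ[ℂ] Gr ev (e + 1) :=
    LinearEquiv.ofBijective (mq y hy e) ⟨mq_inj h hy hl.succ hs, mq_surj hy hl.succ⟩
  have hε : ∀ a ha, ε (cl a ha) = cl (y * a) (mul_mem1 hy ha) := fun _ _ => rfl
  let T : Fin 4 → Module.End ℂ (Gr ev e) := fun i =>
    ε.symm.toLinearMap ∘ₗ mq (ev (X i)) (X_mem i) e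
  have hT : ∀ i u, ε (T i u) = mq (ev (X i)) (X_mem i) e u := fun i u => ε.apply_symm_apply _
  have hT2 : ∀ i q (hq : q ∈ V ev e), T i (cl (y * q) (mul_mem1 hy hq)) =
      cl (ev (X i) * q) (mul_mem1 (X_mem i) hq) := fun i q hq => by
    apply ε.injective
    rw [hT, mq_cl, hε, cl_eq, show ev (X i) * (y * q) - y * (ev (X i) * q) = 0 by ring]
    exact Submodule.zero_mem _
  obtain ⟨Θ, hΘ⟩ := exists_theta T fun i j => by
    ext1 u
    obtain ⟨a, ha, rfl⟩ := cl_surj u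
    obtain ⟨p, hp, q, hq, rfl⟩ := hl.dec ha
    have e1 : cl (p + y * q) ha = cl (y * q) (mul_mem1 hy hq) := by
      rw [cl_eq]; simpa using hp
    apply ε.injective
    rw [e1, Module.End.mul_apply, Module.End.mul_apply, hT2 j q hq, hT2 i q hq, hT, hT, mq_cl,
      mq_cl, cl_eq,
      show ev (X i) * (ev (X j) * q) - ev (X j) * (ev (X i) * q) = 0 by ring]
    exact Submodule.zero_mem _
  let ξ : Gr ev e := cl (y ^ (e + 1)) (pow_mem hy _)
  have claim : ∀ (j : ℕ) (b : Pol ℂ), b.IsHomogeneous j → ∀ n, j + n = e + 2 →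
      (ε (Θ b ξ) : A ⧸ V ev (e + 1)) = (V ev (e + 1)).mkQ (ev b * y ^ n) := by
    intro j b hb
    have := hom_induction (RingHom.id (Pol ℂ))
      (fun j b => b.IsHomogeneous j ∧ ∀ n, j + n = e + 2 →
        (ε (Θ b ξ) : A ⧸ V ev (e + 1)) = (V ev (e + 1)).mkQ (ev b * y ^ n))
      (fun d => ⟨isHomogeneous_zero _ _ _, fun n _ => by simp⟩)
      (fun d a b ha hb => ⟨ha.1.add hb.1, fun n hn => by
        rw [map_add, LinearMap.add_apply, map_add, Submodule.coe_add, ha.2 n hn, hb.2 n hn,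
          map_add, add_mul, map_add]⟩)
      (fun c => ⟨isHomogeneous_C _ _, fun n hn => by
        obtain rfl : n = e + 2 := by omega
        rw [RingHom.id_apply, ← algebraMap_eq, AlgHom.commutes, AlgHom.commutes,
          Module.algebraMap_end_apply, map_smul, Submodule.coe_smul, hε, ← Algebra.smul_def,
          map_smul, pow_succ' y (e + 1)]
        rfl⟩)
      (fun d a i ha => ⟨ha.1.mul (isHomogeneous_X ℂ i), fun n hn => by
        have hm : ev a * y ^ n ∈ V ev (e + 1) := by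
          have := mul_mem (mem_V (ev := ev) ha.1) (pow_mem hy n)
          rwa [show d + n = e + 1 by omega] at this
        have e1 : Θ a ξ = cl _ hm := by
          apply ε.injective
          rw [hε]
          apply Subtype.ext
          rw [ha.2 (n + 1) (by omega)]
          change _ = (V ev (e + 1)).mkQ _
          congr 1
          ring
        rw [RingHom.id_apply, mul_comm a, map_mul, Module.End.mul_apply, hΘ, hT, e1, mq_cl]
        change (V ev (e + 1)).mkQ _ = _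
        congr 1
        rw [map_mul]
        ring⟩) hb
    exact this.2
  let 𝔞 : Ideal (Pol ℂ) :=
    { carrier := {b | Θ b ξ = 0}
      add_mem' := fun {a b} ha hb => by
        rw [Set.mem_ofPred_eq] at ha hb ⊢
        rw [map_add, LinearMap.add_apply, ha, hb, add_zero]
      zero_mem' := by simp
      smul_mem' := fun c b hb => by
        rw [Set.mem_ofPred_eq] at hb ⊢
        rw [smul_eq_mul, map_mul, Module.End.mul_apply, hb, map_zero] }
  have hmem : ∀ b, b ∈ 𝔞 ↔ (ε (Θ b ξ) : A ⧸ V ev (e + 1)) = 0 := fun b => by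
    rw [Submodule.coe_eq_zero, map_eq_zero_iff _ ε.injective]
    rfl
  have h6 : Ideal.span {b : Pol ℂ | b.IsHomogeneous 6 ∧ ev b = 0} ⊔ Ideal.span {w} ≤ 𝔞 := by
    refine sup_le (Ideal.span_le.mpr fun b hb => ?_) (Ideal.span_le.mpr ?_)
    · rw [SetLike.mem_coe, hmem, claim 6 b hb.1 (e - 4) (by omega), hb.2, zero_mul, map_zero]
    · rintro _ rfl
      rw [SetLike.mem_coe, hmem, claim 1 _ h.hw1 (e + 1) (by omega), h.hw, one_mul]
      exact (Submodule.Quotient.mk_eq_zero _).mpr (pow_mem hy _)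
  have h1 : w' - 1 ∈ 𝔞 := by
    rw [hmem, map_sub, LinearMap.sub_apply, map_sub, Submodule.coe_sub,
      claim 1 _ hw' (e + 1) (by omega), claim 0 1 (isHomogeneous_one _ _) (e + 2) (by omega),
      map_one, one_mul, ← pow_succ', sub_self]
  obtain ⟨D, hD⟩ := hav
  have h2 : w' ^ D ∈ 𝔞 := h6 (hD _ (by simpa using hw'.pow D))
  have h3 : w' ^ D - 1 ∈ 𝔞 := by
    obtain ⟨c, hc⟩ := sub_one_dvd_pow_sub_one w' D
    rw [hc]
    exact 𝔞.mul_mem_right _ h1
  have h4 : (1 : Pol ℂ) ∈ 𝔞 := by simpa using 𝔞.sub_mem h2 h3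
  refine fd_top (V_top h ?_)
  rintro _ ⟨b, hb, rfl⟩
  have h5 : b ∈ 𝔞 := by simpa using 𝔞.mul_mem_left b h4
  rw [hmem, claim (e + 2) b hb 0 rfl, pow_zero, mul_one] at h5
  exact (Submodule.Quotient.mk_eq_zero _).mp h5

/-- the pairing given by `lam` -/
noncomputable def bil (lam : A →ₗ[ℂ] ℂ) : LinearMap.BilinForm ℂ A :=
  (LinearMap.mul ℂ A).compr₂ lam

/-- the orthogonal of a subspace -/
noncomputable def ort (lam : A →ₗ[ℂ] ℂ) (S : Submodule ℂ A) : Submodule ℂ A :=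
  (bil lam).orthogonal S

theorem mem_ort {S : Submodule ℂ A} {a : A} : a ∈ ort lam S ↔ ∀ b ∈ S, lam (b * a) = 0 :=
  Iff.rfl

theorem finrank_ort (h : Filt ev w lam r) (S : Submodule ℂ A) :
    finrank ℂ S + finrank ℂ (ort lam S) = finrank ℂ A := by
  have := h.fin
  have hn : (bil lam).Nondegenerate :=
    ⟨fun a ha => h.perf a ha, fun a ha => h.perf a fun b => mul_comm a b ▸ ha b⟩
  have h1 := LinearMap.BilinForm.finrank_orthogonal hn S
  have h2 := Submodule.finrank_le S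
  unfold ort
  omega

theorem le_ort (h : Filt ev w lam r) {i j : ℕ} (hij : i + j ≤ r) : V ev j ≤ ort lam (V ev i) :=
  fun _ ha => mem_ort.mpr fun _ hb => kill h hij (mul_mem hb ha)

theorem fd_add (h : Filt ev w lam r) {i j : ℕ} (hij : i + j ≤ r) :
    fd ev i + fd ev j ≤ finrank ℂ A := by
  have := h.fin
  have h1 := finrank_ort h (V ev i)
  have h2 := Submodule.finrank_mono (le_ort h hij)
  unfold fd
  omega

end FiltP

open FiltP

theorem orth : S_Orth := fun _ _ _ _ _ _ _ _ h => fd_add h le_rfl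

theorem k1 : S_K1 := by
  intro A _ _ ev w lam h hA h2 hav
  change fd ev 2 = 10 at h2
  have h3 := fd_add h (i := 2) (j := 3) le_rfl
  obtain ⟨w', hw', hl⟩ := exists_lef h 2 (by change fd ev 3 ≤ _; omega)
  have hy := mem_V (ev := ev) hw'
  have c2 : fd ev 4 + fd ev 2 ≤ 2 * fd ev 3 := concave h hy (hl.mono (by omega))
  have c3 : fd ev 5 + fd ev 3 ≤ 2 * fd ev 4 := concave h hy (hl.mono (by omega))
  have c4 : fd ev 6 + fd ev 4 ≤ 2 * fd ev 5 := concave h hy (hl.mono (by omega))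
  have c5 : fd ev 7 + fd ev 5 ≤ 2 * fd ev 6 := concave h hy (hl.mono (by omega))
  have c6 : fd ev 8 + fd ev 6 ≤ 2 * fd ev 7 := concave h hy (hl.mono (by omega))
  have s4 : fd ev 6 + fd ev 4 = 2 * fd ev 5 → fd ev 5 = _ :=
    stall h hav hw' le_rfl (hl.mono (by omega))
  have s5 : fd ev 7 + fd ev 5 = 2 * fd ev 6 → fd ev 6 = _ :=
    stall h hav hw' (by omega) (hl.mono (by omega))
  have s6 : fd ev 8 + fd ev 6 = 2 * fd ev 7 → fd ev 7 = _ :=
    stall h hav hw' (by omega) (hl.mono (by omega))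
  have t7 : fd ev 8 ≤ fd ev 7 → fd ev 7 = _ := fd_stop h 7
  omega

end Pool.Agent.P.MP_2b2d3b_ag
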