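import Pool.Agent.P.MP_2b2d3b_ag.FiltA

/-!
The trichotomy for Gorenstein quotients of length eleven.
-/

namespace Pool.Agent.P.MP_2b2d3b_ag

open MvPolynomial Module

namespace FiltP

variable {A : Type} [CommRing A] [Algebra ℂ A] {ev : Pol ℂ →ₐ[ℂ] A} {w : Pol ℂ}
  {lam : A →ₗ[ℂ] ℂ} {r : ℕ}

theorem fd_zero (hA : finrank ℂ A = 11) : fd ev 0 = 1 := by
  have : Nontrivial A := nontrivial_of_finrank_pos (R := ℂ) (by omega)
  rw [fd, V_zero, finrank_span_singleton one_ne_zero]

theorem fd_one : fd ev 1 ≤ 4 := by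
  rw [fd, V_one]
  simpa [Set.finrank] using finrank_range_le_card (R := ℂ) fun i : Fin 4 => ev (X i)

theorem exists_not_mem (h : Filt ev w lam r) (hr : 1 ≤ r) {y : A} (hy : y ∈ V ev 1)
    (h0 : y ≠ 0) : ∃ x ∈ V ev 1, x * y ∉ Submodule.span ℂ {y} := by
  by_contra hn
  push Not at hn
  have key : ∀ d, ∀ a ∈ V ev d, a * y ∈ Submodule.span ℂ {y} := by
    intro d
    induction d with
    | zero =>
      intro a ha
      rw [V_zero] at ha
      obtain ⟨c, rfl⟩ := Submodule.mem_span_singleton.mp ha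
      rw [smul_mul_assoc, one_mul]
      exact Submodule.smul_mem _ _ (Submodule.mem_span_singleton_self y)
    | succ n ih =>
      intro a ha
      rw [← V_mul n 1] at ha
      refine Submodule.mul_induction_on ha (fun p hp q hq => ?_) fun p q hp hq => ?_
      · obtain ⟨c, hc⟩ := Submodule.mem_span_singleton.mp (hn q hq)
        rw [mul_assoc, ← hc, mul_smul_comm]
        exact Submodule.smul_mem _ _ (ih p hp)
      · rw [add_mul]
        exact Submodule.add_mem _ hp hq
  refine h0 (h.perf y fun b => ?_)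
  obtain ⟨d, hd⟩ := exists_mem h b
  obtain ⟨c, hc⟩ := Submodule.mem_span_singleton.mp (key d b hd)
  rw [mul_comm, ← hc, map_smul, kill h hr hy, smul_zero]

theorem exists_both {M : Type} [AddCommGroup M] [Module ℂ M] {S P Q : Submodule ℂ M}
    (h1 : ∃ x ∈ S, x ∉ P) (h2 : ∃ x ∈ S, x ∉ Q) : ∃ x ∈ S, x ∉ P ∧ x ∉ Q := by
  obtain ⟨a, ha, ha'⟩ := h1
  obtain ⟨b, hb, hb'⟩ := h2
  by_cases h3 : a ∈ Q
  · by_cases h4 : b ∈ P
    · exact ⟨a + b, S.add_mem ha hb, fun h => ha' ((P.add_mem_iff_left h4).mp h),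
        fun h => hb' ((Q.add_mem_iff_right h3).mp h)⟩
    · exact ⟨b, hb, h4, hb'⟩
  · exact ⟨a, ha, ha', h3⟩

theorem free (h : Filt ev w lam r) (hr : 1 ≤ r) (h4 : fd ev 1 = 4) {y : A} {k : ℂ}
    (hy0 : y ∉ V ev 0) (hyV : ∀ v ∈ V ev 1, y * v ∈ V ev 1) (hk : y * y = k • y) :
    ∃ x : A, LinearIndependent ℂ ![1, x, y, x * y] ∧
      V ev 1 = Submodule.span ℂ (Set.range ![1, x, y, x * y]) := by
  have h1 := one_mem h
  have hy : y ∈ V ev 1 := by simpa using hyV 1 h1
  have hone : (1 : A) ∈ V ev 0 := by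
    rw [V_zero]; exact Submodule.mem_span_singleton_self _
  have hz : y - k • (1 : A) ∈ V ev 1 := Submodule.sub_mem _ hy (Submodule.smul_mem _ _ h1)
  have hy1 : y ≠ 0 := fun e => hy0 (e ▸ Submodule.zero_mem _)
  have hz1 : y - k • (1 : A) ≠ 0 := fun e =>
    hy0 (sub_eq_zero.mp e ▸ Submodule.smul_mem _ _ hone)
  set z := y - k • (1 : A) with hzd
  have hyz : y * z = 0 := by rw [hzd, mul_sub, hk, mul_smul_comm, mul_one, sub_self]
  obtain ⟨x, hx, hx1, hx2⟩ := exists_both (S := V ev 1)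
    (P := (Submodule.span ℂ {y}).comap (LinearMap.mulRight ℂ y))
    (Q := (Submodule.span ℂ {z}).comap (LinearMap.mulRight ℂ z))
    (exists_not_mem h hr hy hy1) (exists_not_mem h hr hz hz1)
  have two : ∀ {u : A}, u ≠ 0 → x * u ∉ Submodule.span ℂ {u} → ∀ a b : ℂ,
      a • u + b • (x * u) = 0 → a = 0 ∧ b = 0 := by
    intro u hu hxu a b hab
    have hb : b = 0 := by
      by_contra hb
      refine hxu (Submodule.mem_span_singleton.mpr ⟨-(b⁻¹ * a), ?_⟩)
      have : b • (x * u) = -(a • u) := eq_neg_of_add_eq_zero_right hab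
      rw [neg_smul, mul_smul, ← smul_neg, ← this, smul_smul, inv_mul_cancel₀ hb, one_smul]
    rw [hb, zero_smul, add_zero] at hab
    exact ⟨(smul_eq_zero.mp hab).resolve_right hu, hb⟩
  have hli : LinearIndependent ℂ ![1, x, y, x * y] := by
    rw [Fintype.linearIndependent_iff]
    intro g hg
    rw [Fin.sum_univ_four] at hg
    change g 0 • (1 : A) + g 1 • x + g 2 • y + g 3 • (x * y) = 0 at hg
    have e1 : g 0 • z + g 1 • (x * z) = 0 := by
      have := congrArg (· * z) hg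
      simp only [add_mul, smul_mul_assoc, one_mul, mul_assoc, hyz, mul_zero, smul_zero,
        add_zero, zero_mul] at this
      exact this
    obtain ⟨a0, a1⟩ := two hz1 hx2 _ _ e1
    rw [a0, a1, zero_smul, zero_smul, zero_add, zero_add] at hg
    obtain ⟨a2, a3⟩ := two hy1 hx1 _ _ hg
    intro i
    fin_cases i
    exacts [a0, a1, a2, a3]
  refine ⟨x, hli, (Submodule.eq_of_le_of_finrank_eq ?_ ?_).symm⟩
  · rw [Submodule.span_le]
    rintro _ ⟨i, rfl⟩
    fin_cases i
    exacts [h1, hx, hy, mul_comm y x ▸ hyV x hx]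
  · rw [finrank_span_eq_card hli]
    exact h4.symm

theorem fd_two_le {x y : A} {k : ℂ} (hk : y * y = k • y)
    (hV : V ev 1 = Submodule.span ℂ (Set.range ![1, x, y, x * y])) : fd ev 2 ≤ 6 := by
  let S := Submodule.span ℂ (Set.range ![1, x, x * x, y, x * y, x * x * y])
  have m : ∀ i, ![1, x, x * x, y, x * y, x * x * y] i ∈ S := fun i =>
    Submodule.subset_span ⟨i, rfl⟩
  have m0 : (1 : A) ∈ S := m 0
  have m1 : x ∈ S := m 1
  have m2 : x * x ∈ S := m 2
  have m3 : y ∈ S := m 3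
  have m4 : x * y ∈ S := m 4
  have m5 : x * x * y ∈ S := m 5
  have n1 : x * (x * y) ∈ S := mul_assoc x x y ▸ m5
  have n2 : y * y ∈ S := hk ▸ S.smul_mem k m3
  have n3 : y * (x * y) ∈ S := by
    rw [show y * (x * y) = x * (y * y) by ring, hk, mul_smul_comm]
    exact S.smul_mem k m4
  have n4 : x * y * (x * y) ∈ S := by
    rw [show x * y * (x * y) = x * x * (y * y) by ring, hk, mul_smul_comm]
    exact S.smul_mem k m5
  have hle : V ev 2 ≤ S := by
    rw [← V_mul 1 1, hV, Submodule.span_mul_span, Submodule.span_le]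
    rintro _ ⟨_, ⟨i, rfl⟩, _, ⟨j, rfl⟩, rfl⟩
    fin_cases i <;> fin_cases j
    · simpa using m0
    · simpa using m1
    · simpa using m3
    · simpa using m4
    · simpa using m1
    · exact m2
    · exact m4
    · exact n1
    · simpa using m3
    · exact mul_comm x y ▸ m4
    · exact n2
    · exact n3
    · simpa using m4
    · exact (mul_comm x (x * y) ▸ n1 : x * y * x ∈ S)
    · exact (mul_comm y (x * y) ▸ n3 : x * y * y ∈ S)
    · exact n4
  have : Module.Finite ℂ S := Module.Finite.span_of_finite ℂ (Set.finite_range _)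
  refine (Submodule.finrank_mono hle).trans ?_
  simpa [Set.finrank] using
    finrank_range_le_card (R := ℂ) ![1, x, x * x, y, x * y, x * x * y]

theorem exists_idem (h : Filt ev w lam r) {u : A} (hu0 : u ∉ V ev 0)
    (huV : ∀ v ∈ V ev 1, u * v ∈ V ev 1) :
    ∃ (y : A) (k : ℂ), y ∉ V ev 0 ∧ (∀ v ∈ V ev 1, y * v ∈ V ev 1) ∧ y * y = k • y := by
  have := h.fin
  have hone : (1 : A) ∈ V ev 0 := by
    rw [V_zero]; exact Submodule.mem_span_singleton_self _
  have : Nontrivial A := ⟨u, 0, fun e => hu0 (e ▸ Submodule.zero_mem _)⟩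
  have hi : IsIntegral ℂ u := Algebra.IsIntegral.isIntegral u
  obtain ⟨ρ, hρ⟩ := IsAlgClosed.exists_root (minpoly ℂ u) (minpoly.degree_pos hi).ne'
  obtain ⟨m, hm⟩ := Polynomial.dvd_iff_isRoot.mpr hρ
  have hm0 : m ≠ 0 := fun e => minpoly.ne_zero hi (by rw [hm, e, mul_zero])
  have hy0 : Polynomial.aeval u m ≠ 0 := fun e => by
    have h1 := minpoly.degree_le_of_ne_zero ℂ u hm0 e
    have h2 := Polynomial.natDegree_le_natDegree h1
    rw [hm, Polynomial.natDegree_mul (Polynomial.X_sub_C_ne_zero ρ) hm0,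
      Polynomial.natDegree_X_sub_C] at h2
    omega
  have huy : u * Polynomial.aeval u m = ρ • Polynomial.aeval u m := by
    have h1 := minpoly.aeval ℂ u
    rw [hm, map_mul, map_sub, Polynomial.aeval_X, Polynomial.aeval_C, sub_mul, sub_eq_zero,
      ← Algebra.smul_def] at h1
    exact h1
  set y := Polynomial.aeval u m with hyd
  have hp : ∀ p : Polynomial ℂ, Polynomial.aeval u p * y = p.eval ρ • y ∧
      ∀ v ∈ V ev 1, Polynomial.aeval u p * v ∈ V ev 1 := by
    intro p
    induction p using Polynomial.induction_on with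
    | C a =>
      rw [Polynomial.aeval_C, Polynomial.eval_C]
      exact ⟨(Algebra.smul_def a y).symm, fun v hv =>
        Algebra.smul_def a v ▸ Submodule.smul_mem _ a hv⟩
    | add p q hp hq =>
      rw [map_add, Polynomial.eval_add]
      exact ⟨by rw [add_mul, hp.1, hq.1, add_smul], fun v hv => by
        rw [add_mul]; exact Submodule.add_mem _ (hp.2 v hv) (hq.2 v hv)⟩
    | monomial n a ih =>
      rw [pow_succ, ← mul_assoc, map_mul, Polynomial.aeval_X, Polynomial.eval_mul,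
        Polynomial.eval_X]
      refine ⟨?_, fun v hv => ?_⟩
      · rw [mul_assoc, huy, mul_smul_comm, ih.1, smul_smul, mul_comm]
      · rw [mul_assoc]
        exact ih.2 _ (huV v hv)
  refine ⟨y, m.eval ρ, fun hy => ?_, (hp m).2, (hp m).1⟩
  rw [V_zero] at hy
  obtain ⟨c, hc⟩ := Submodule.mem_span_singleton.mp hy
  have hc0 : c ≠ 0 := fun e => hy0 (by rw [← hc, e, zero_smul])
  rw [← hc, mul_smul_comm, mul_one, smul_comm] at huy
  rw [smul_right_injective A hc0 huy] at hu0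
  exact hu0 (Submodule.smul_mem _ _ hone)

theorem spd_str (h : Filt ev w lam r) (hr : 1 ≤ r) (h4 : fd ev 1 = 4) {u : A} (hu0 : u ∉ V ev 0)
    (huV : ∀ v ∈ V ev 1, u * v ∈ V ev 1) :
    ∃ (x y : A) (k : ℂ), y * y = k • y ∧ LinearIndependent ℂ ![1, x, y, x * y] ∧
      V ev 1 = Submodule.span ℂ (Set.range ![1, x, y, x * y]) := by
  obtain ⟨y, k, h1, h2, h3⟩ := exists_idem h hu0 huV
  obtain ⟨x, hx⟩ := free h hr h4 h1 h2 h3
  exact ⟨x, y, k, h3, hx⟩

theorem ort_eq (h : Filt ev w lam r) {i j : ℕ} (hij : i + j ≤ r)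
    (he : fd ev i + fd ev j = finrank ℂ A) : ort lam (V ev i) = V ev j := by
  have := h.fin
  have h1 := finrank_ort h (V ev i)
  unfold fd at he
  exact (Submodule.eq_of_le_of_finrank_eq (le_ort h hij) (by omega)).symm

theorem agd (h : Filt ev w lam 3) (hA : finrank ℂ A = 11) (h1 : fd ev 1 = 4)
    (h2 : fd ev 2 = 7) : AGd ev := by
  have := h.fin
  have h0 : fd ev 0 = 1 := fd_zero hA
  have o2 : ort lam (V ev 2) = V ev 1 := ort_eq h le_rfl (by omega)
  have h3 : fd ev 3 = 10 := by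
    have h4 := fd_add h (i := 3) (j := 0) le_rfl
    by_contra hne
    have h5 := finrank_ort h (V ev 3)
    obtain ⟨u, hu, hu0⟩ : ∃ u ∈ ort lam (V ev 3), u ∉ V ev 0 := by
      by_contra hn
      push Not at hn
      have h6 : finrank ℂ (ort lam (V ev 3)) ≤ fd ev 0 := Submodule.finrank_mono hn
      change fd ev 3 + _ = _ at h5
      omega
    obtain ⟨x, y, k, hk, -, hV⟩ := spd_str h (by omega) h1 hu0 fun v hv => by
      rw [← o2]
      refine mem_ort.mpr fun b hb => ?_
      rw [show b * (u * v) = b * v * u by ring]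
      exact mem_ort.mp hu _ (mul_mem hb hv)
    have := fd_two_le hk hV
    omega
  have o3 : ort lam (V ev 3) = V ev 0 := ort_eq h le_rfl (by omega)
  have h4 : fd ev 4 = finrank ℂ A := by
    have h5 := fd_stop h 3
    have h6 := fd_le h 4
    change fd ev 4 ≤ _ → _ at h5
    omega
  obtain ⟨w', hw', hl⟩ := exists_lef h 2 (by change fd ev 3 ≤ _; omega)
  have hy := mem_V (ev := ev) hw'
  refine ⟨h1, h2, h3, top_of_fd h h4, w', hw', ?_, hl⟩
  have hinj : Function.Injective (mq (ev w') hy 0) := by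
    rw [injective_iff_map_eq_zero]
    intro u hu
    obtain ⟨a, ha, rfl⟩ := cl_surj u
    rw [mq_cl, cl_eq_zero] at hu
    rw [cl_eq_zero, ← o3]
    refine mem_ort.mpr fun b hb => ?_
    obtain ⟨p, hp, q, hq, rfl⟩ := hl.dec hb
    rw [show (p + ev w' * q) * a = p * a + q * (ev w' * a) by ring, map_add,
      kill h le_rfl (mul_mem hp ha), kill h le_rfl (mul_mem hq hu), add_zero]
  have g0 := finrank_Gr h 0
  have g1 := finrank_Gr h 1
  have hsurj : Function.Surjective (mq (ev w') hy 0) :=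
    (LinearMap.injective_iff_surjective_of_finrank_eq_finrank (by
      change _ + _ = fd ev 1 at g0
      change _ + _ = fd ev 2 at g1
      change _ = finrank ℂ (Gr ev 1)
      omega)).mp hinj
  intro a ha
  obtain ⟨u, hu⟩ := hsurj (cl a ha)
  obtain ⟨b, hb, rfl⟩ := cl_surj u
  rw [mq_cl, eq_comm, cl_eq] at hu
  exact Submodule.mem_sup.mpr ⟨_, hu, ev w' * b, ⟨b, hb, rfl⟩, by ring⟩

theorem spd (h : Filt ev w lam 3) (hA : finrank ℂ A = 11) (hav : Av6 ev w) (h1 : fd ev 1 = 4)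
    (h2 : fd ev 2 ≤ 6) : Spd ev := by
  have h0 : fd ev 0 = 1 := fd_zero hA
  obtain ⟨w', hw', hl⟩ := exists_lef h 1 (by change fd ev 2 ≤ _; omega)
  have hy := mem_V (ev := ev) hw'
  have c1 : fd ev 3 + fd ev 1 ≤ 2 * fd ev 2 := concave h hy (hl.mono (by omega))
  have c2 : fd ev 4 + fd ev 2 ≤ 2 * fd ev 3 := concave h hy (hl.mono (by omega))
  have c3 : fd ev 5 + fd ev 3 ≤ 2 * fd ev 4 := concave h hy (hl.mono (by omega))
  have c4 : fd ev 6 + fd ev 4 ≤ 2 * fd ev 5 := concave h hy (hl.mono (by omega))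
  have s4 : fd ev 6 + fd ev 4 = 2 * fd ev 5 → fd ev 5 = _ :=
    stall h hav hw' le_rfl (hl.mono (by omega))
  have t5 : fd ev 6 ≤ fd ev 5 → fd ev 5 = _ := fd_stop h 5
  have t4 : fd ev 5 ≤ fd ev 4 → fd ev 4 = _ := fd_stop h 4
  have l5 := fd_le h 5
  have l4 := fd_le h 4
  have h5 : fd ev 5 = finrank ℂ A := by omega
  have h3 : fd ev 3 + fd ev 1 = 2 * fd ev 2 := by omega
  have hinj := mq_inj h hy (d := 1) (hl.mono (by omega)) h3
  have hn : ¬ Function.Injective (mq (ev w') hy 0) := fun hi => by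
    have h6 := LinearMap.finrank_le_finrank_of_injective hi
    have g0 := finrank_Gr h 0
    have g1 := finrank_Gr h 1
    change _ + _ = fd ev 1 at g0
    change _ + _ = fd ev 2 at g1
    change _ ≤ finrank ℂ (Gr ev 1) at h6
    omega
  rw [injective_iff_map_eq_zero] at hn hinj
  push Not at hn
  obtain ⟨u, hu, hu0⟩ := hn
  obtain ⟨a, ha, rfl⟩ := cl_surj u
  rw [mq_cl, cl_eq_zero] at hu
  rw [Ne, cl_eq_zero] at hu0
  refine ⟨h2, top_of_fd h h5, spd_str h (by omega) h1 hu0 fun v hv => ?_⟩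
  have h7 := hinj (cl (a * v) (mul_mem ha hv)) (by
    rw [mq_cl, cl_eq_zero, ← mul_assoc]
    exact mul_mem hu hv)
  exact cl_eq_zero.mp h7

end FiltP

open FiltP

theorem tri : S_Tri := by
  intro A _ _ ev w lam h hA hav
  have h0 : fd ev 0 = 1 := fd_zero hA
  constructor
  · change 4 ≤ fd ev 2
    by_contra hn
    have t0 : fd ev 1 ≤ fd ev 0 → fd ev 0 = _ := fd_stop h 0
    obtain ⟨w', hw', hl⟩ := exists_lef h 1 (by change fd ev 2 ≤ _; omega)
    have hy := mem_V (ev := ev) hw'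
    have c1 : fd ev 3 + fd ev 1 ≤ 2 * fd ev 2 := concave h hy (hl.mono (by omega))
    have c2 : fd ev 4 + fd ev 2 ≤ 2 * fd ev 3 := concave h hy (hl.mono (by omega))
    have c3 : fd ev 5 + fd ev 3 ≤ 2 * fd ev 4 := concave h hy (hl.mono (by omega))
    have c4 : fd ev 6 + fd ev 4 ≤ 2 * fd ev 5 := concave h hy (hl.mono (by omega))
    have s4 : fd ev 6 + fd ev 4 = 2 * fd ev 5 → fd ev 5 = _ :=
      stall h hav hw' le_rfl (hl.mono (by omega))
    have t5 : fd ev 6 ≤ fd ev 5 → fd ev 5 = _ := fd_stop h 5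
    omega
  · by_cases h1 : fd ev 1 ≤ 3
    · exact Or.inl h1
    · have h1' : fd ev 1 = 4 := by have := fd_one (ev := ev); omega
      have h2 := fd_add h (i := 1) (j := 2) le_rfl
      by_cases h3 : fd ev 2 ≤ 6
      · exact Or.inr (Or.inr (spd h hA hav h1' h3))
      · exact Or.inr (Or.inl (agd h hA h1' (by omega)))

end Pool.Agent.P.MP_2b2d3b_ag
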