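import Pool.Agent.P.MP_2b2d3b_ag.Hilb
import Pool.Agent.P.MP_2b2d3b_ag.Bas

/-!
Finiteness of the subschemes of a zero-dimensional subscheme of a smooth plane section.
-/

namespace Pool.Agent.P.MP_2b2d3b_ag

open MvPolynomial

namespace FinBP

section Abstract

variable {R : Type} [CommRing R]

theorem pow_le_step {m J : Ideal R} {y : R} (hy : y ∈ m)
    (h : m ≤ Ideal.span {y} ⊔ (m ^ 2 ⊔ J)) (j : ℕ) :
    m ^ j ≤ Ideal.span {y ^ j} ⊔ (m ^ (j + 1) ⊔ J) := by
  induction j with
  | zero => simp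
  | succ j ih =>
    have h1 : Ideal.span {y ^ j} ≤ m ^ j := by
      rw [Ideal.span_singleton_le_iff_mem]
      exact Ideal.pow_mem_pow hy j
    have h2 : Ideal.span {y ^ j} * m ≤ Ideal.span {y ^ (j + 1)} ⊔ (m ^ (j + 1 + 1) ⊔ J) := by
      refine (Ideal.mul_mono_right h).trans ?_
      rw [Ideal.mul_sup, Ideal.mul_sup, Ideal.span_singleton_mul_span_singleton, ← pow_succ]
      refine sup_le_sup_left (sup_le_sup ?_ Ideal.mul_le_right) _
      rw [add_assoc, pow_add]
      exact Ideal.mul_mono_left h1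
    calc m ^ (j + 1) = m ^ j * m := pow_succ _ _
      _ ≤ (Ideal.span {y ^ j} ⊔ (m ^ (j + 1) ⊔ J)) * m := Ideal.mul_mono_left ih
      _ ≤ _ := by
        rw [Ideal.sup_mul, Ideal.sup_mul, ← pow_succ]
        exact sup_le h2 (le_sup_of_le_right (sup_le_sup_left Ideal.mul_le_left _))

theorem eq_pow_sup {m J L : Ideal R} (hm : m.IsMaximal) {y : R} (hy : y ∈ m)
    (h : m ≤ Ideal.span {y} ⊔ (m ^ 2 ⊔ J)) (hJ : J ≤ L) {N : ℕ} (hN : m ^ N ≤ L) :
    ∃ j ≤ N, L = m ^ j ⊔ J := by
  have key : ∀ j, L ≤ m ^ j ⊔ J → ¬ L ≤ m ^ (j + 1) ⊔ J → m ^ j ≤ L := by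
    intro j h1 h2
    obtain ⟨x, hx, hx'⟩ := SetLike.not_le_iff_exists.1 h2
    have h3 : m ^ j ⊔ J ≤ Ideal.span {y ^ j} ⊔ (m ^ (j + 1) ⊔ J) :=
      sup_le (pow_le_step hy h j) (le_sup_of_le_right le_sup_right)
    obtain ⟨u, hu, z, hz, e⟩ := Submodule.mem_sup.1 (h3 (h1 hx))
    obtain ⟨a, rfl⟩ := Ideal.mem_span_singleton'.1 hu
    have hmy : ∀ b ∈ m, b * y ^ j ∈ m ^ (j + 1) := fun b hb => by
      rw [pow_succ']
      exact Ideal.mul_mem_mul hb (Ideal.pow_mem_pow hy j)
    have ha : a ∉ m := fun ha => hx' (e ▸ add_mem (Ideal.mem_sup_left (hmy a ha)) hz)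
    obtain ⟨b, c, hc, e'⟩ := hm.exists_inv ha
    have h4 : m ^ (j + 1) ⊔ J ≤ L ⊔ m ^ (j + 1) := sup_le le_sup_right (le_sup_of_le_left hJ)
    have h5 : y ^ j ∈ L ⊔ m ^ (j + 1) := by
      have : y ^ j = b * x - b * z + c * y ^ j := by
        rw [← e]
        linear_combination (-(y ^ j)) * e'
      rw [this]
      exact add_mem (sub_mem (Ideal.mul_mem_left _ _ (Ideal.mem_sup_left hx))
        (Ideal.mul_mem_left _ _ (h4 hz))) (Ideal.mem_sup_right (hmy c hc))
    have h6 : m ^ j ≤ L ⊔ m ^ (j + 1) :=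
      (pow_le_step hy h j).trans (sup_le ((Ideal.span_singleton_le_iff_mem _).2 h5) h4)
    have h7 : ∀ t, m ^ j ≤ L ⊔ m ^ (j + t) := by
      intro t
      induction t with
      | zero => exact le_sup_right
      | succ t ih =>
        refine ih.trans (sup_le le_sup_left ?_)
        calc m ^ (j + t) = m ^ j * m ^ t := pow_add _ _ _
          _ ≤ (L ⊔ m ^ (j + 1)) * m ^ t := Ideal.mul_mono_left h6
          _ ≤ _ := by
            rw [Ideal.sup_mul, ← pow_add, show j + 1 + t = j + (t + 1) by ring]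
            exact sup_le_sup_right Ideal.mul_le_left _
    exact (h7 N).trans (sup_le le_rfl ((Ideal.pow_le_pow_right (Nat.le_add_left N j)).trans hN))
  have main : ∀ j, L ≤ m ^ j ⊔ J ∨ ∃ i ≤ j, L = m ^ i ⊔ J := by
    intro j
    induction j with
    | zero => left; simp
    | succ j ih =>
      rcases ih with h1 | ⟨i, hi, e⟩
      · by_cases h2 : L ≤ m ^ (j + 1) ⊔ J
        · exact Or.inl h2
        · exact Or.inr ⟨j, Nat.le_succ j, le_antisymm h1 (sup_le (key j h1 h2) hJ)⟩
      · exact Or.inr ⟨i, hi.trans (Nat.le_succ j), e⟩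
  rcases main N with h1 | h1
  · exact ⟨N, le_rfl, le_antisymm h1 (sup_le hN hJ)⟩
  · exact h1

theorem prod_sup_le {ι : Type} (s : Finset ι) (K : Ideal R) (a : ι → Ideal R) :
    ∏ i ∈ s, (K ⊔ a i) ≤ K ⊔ ∏ i ∈ s, a i := by
  classical
  induction s using Finset.induction with
  | empty => simp
  | insert i s hi ih =>
    rw [Finset.prod_insert hi, Finset.prod_insert hi]
    refine (Ideal.mul_mono_right ih).trans ?_
    rw [Ideal.sup_mul, Ideal.mul_sup (a i)]
    exact sup_le (le_sup_of_le_left Ideal.mul_le_left)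
      (sup_le_sup_right Ideal.mul_le_right _)

theorem finite_over {ι : Type} (s : Finset ι) (m : ι → Ideal R) (J : Ideal R)
    (hm : ∀ i ∈ s, (m i).IsMaximal) (hne : ∀ i ∈ s, ∀ j ∈ s, m i = m j → i = j) {N : ℕ}
    (hN : (∏ i ∈ s, m i) ^ N ≤ J)
    (hy : ∀ i ∈ s, ∃ y ∈ m i, m i ≤ Ideal.span {y} ⊔ (m i ^ 2 ⊔ J)) :
    {K : Ideal R | J ≤ K}.Finite := by
  have hle : ∀ K K' : Ideal R, J ≤ K' → (∀ i ∈ s, K ⊔ m i ^ N = K' ⊔ m i ^ N) → K ≤ K' := by
    intro K K' hK' e
    have hp : (s : Set ι).Pairwise (Function.onFun IsCoprime fun i => K' ⊔ m i ^ N) := by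
      intro i hi j hj hij
      have h1 : IsCoprime (m i) (m j) := Ideal.isCoprime_iff_sup_eq.2
        ((hm i hi).coprime_of_ne (hm j hj) fun h => hij (hne i hi j hj h))
      have h2 := Ideal.isCoprime_iff_sup_eq.1 (h1.pow (m := N) (n := N))
      refine Ideal.isCoprime_iff_sup_eq.2 (top_le_iff.1 ?_)
      rw [← h2]
      exact sup_le_sup le_sup_right le_sup_right
    have h3 : K ≤ ∏ i ∈ s, (K' ⊔ m i ^ N) := by
      rw [Ideal.prod_eq_iInf_of_pairwise_isCoprime hp]
      exact le_iInf₂ fun i hi => (e i hi) ▸ le_sup_left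
    refine h3.trans ((prod_sup_le s K' _).trans (sup_le le_rfl ?_))
    rw [Finset.prod_pow]
    exact hN.trans hK'
  refine Set.Finite.of_finite_image (f := fun K (i : s) => K ⊔ m i ^ N) ?_ ?_
  · refine (Set.Finite.pi' (t := fun i : s => (fun j => m i ^ j ⊔ J) '' {j | j ≤ N})
      fun i => (Set.finite_le_nat N).image _).subset ?_
    rintro _ ⟨K, hK, rfl⟩ i
    obtain ⟨y, hy1, hy2⟩ := hy i i.2
    obtain ⟨j, hj, e⟩ := eq_pow_sup (L := K ⊔ m i ^ N) (hm i i.2) hy1 hy2
      (le_sup_of_le_left hK) le_sup_right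
    exact ⟨j, hj, e.symm⟩
  · intro K hK K' hK' e
    exact le_antisymm (hle K K' hK' fun i hi => congrFun e ⟨i, hi⟩)
      (hle K' K hK fun i hi => (congrFun e ⟨i, hi⟩).symm)

end Abstract


theorem nst (J : Ideal (Pol ℂ)) (a : Pol ℂ)
    (h : ∀ p : Fin 4 → ℂ, (∀ b ∈ J, eval p b = 0) → eval p a = 0) : a ∈ J.radical := by
  rw [← vanishingIdeal_zeroLocus_eq_radical (K := ℂ)]
  intro p hp
  exact h p hp

theorem line_finite {G : Pol ℂ} {n : ℕ} (hG : G.IsHomogeneous n) (a b : Fin 4 → ℂ)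
    (hb : eval b G ≠ 0) : {t : ℂ | eval (fun i => a i + t * b i) G = 0}.Finite := by
  set q : Polynomial ℂ :=
    aeval (fun i => Polynomial.C (a i) * Polynomial.X + Polynomial.C (b i)) G with hq
  have hev : ∀ s, q.eval s = eval (fun i => a i * s + b i) G := by
    intro s
    have : (Polynomial.aeval s).comp
        (aeval (fun i => Polynomial.C (a i) * Polynomial.X + Polynomial.C (b i)) :
          Pol ℂ →ₐ[ℂ] Polynomial ℂ) = aeval (fun i => a i * s + b i) := by
      ext i
      simp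
    have h2 := DFunLike.congr_fun this G
    simpa [hq, Polynomial.coe_aeval_eq_eval, coe_aeval_eq_eval] using h2
  have hq0 : q ≠ 0 := fun h => hb (by simpa [h] using (hev 0).symm)
  refine (((Polynomial.finite_setOfPred_isRoot hq0).image fun s => s⁻¹).insert 0).subset ?_
  intro t ht
  by_cases h0 : t = 0
  · exact Or.inl h0
  · refine Or.inr ⟨t⁻¹, ?_, inv_inv t⟩
    have h1 := eval_scale t⁻¹ (fun i => a i + t * b i) hG
    rw [show eval (fun i => a i + t * b i) G = 0 from ht, mul_zero] at h1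
    show q.eval t⁻¹ = 0
    rw [hev, ← h1]
    congr 2
    funext i
    field_simp

theorem eval_lin (p c : Fin 4 → ℂ) :
    eval p (linForm c) = c 0 * p 0 + c 1 * p 1 + c 2 * p 2 + c 3 * p 3 := by
  simp [linForm, Fin.sum_univ_four]

theorem eval_hm_congr (χ : Polynomial ℂ) (n : ℕ) {p q : Fin 4 → ℂ} (h0 : p 0 = q 0)
    (h1 : p 1 = q 1) : eval p (hm (X 1) (X 0) χ n) = eval q (hm (X 1) (X 0) χ n) := by
  simp [hm_eq_sum, h0, h1]

/-- the linear form with coefficients `v` centred at `p` -/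
noncomputable def cen (p : Fin 4 → ℂ) : (Fin 4 → ℂ) →ₗ[ℂ] Pol ℂ where
  toFun v := ∑ i, C (v i) * (X i - C (p i))
  map_add' v w := by simp [add_mul, Finset.sum_add_distrib]
  map_smul' r v := by simp [Finset.mul_sum, smul_eq_C_mul, mul_assoc]

theorem cen_eq (p v : Fin 4 → ℂ) : cen p v = linForm v - C (eval p (linForm v)) := by
  simp [cen, linForm, mul_sub]

theorem cot (J : Ideal (Pol ℂ)) (p g c u : Fin 4 → ℂ) (hi : LinearIndependent ℂ ![g, c, u])
    (h : ∀ v ∈ Set.range ![g, c, u], cen p v ∈ RingHom.ker (eval p) ^ 2 ⊔ J) :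
    ∃ y ∈ RingHom.ker (eval p),
      RingHom.ker (eval p) ≤ Ideal.span {y} ⊔ (RingHom.ker (eval p) ^ 2 ⊔ J) := by
  set W : Submodule ℂ (Fin 4 → ℂ) := Submodule.span ℂ (Set.range ![g, c, u]) with hW
  have h3 : Module.finrank ℂ W = 3 := by rw [hW, finrank_span_eq_card hi]; simp
  obtain ⟨W', hW'⟩ := W.exists_isCompl
  have h4 := Submodule.finrank_add_eq_of_isCompl hW'
  rw [h3, Module.finrank_fin_fun] at h4
  obtain ⟨w, hw⟩ := finrank_le_one_iff.1 (show Module.finrank ℂ W' ≤ 1 by omega)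
  have hWle : W ≤ ((RingHom.ker (eval p) ^ 2 ⊔ J).restrictScalars ℂ).comap (cen p) :=
    Submodule.span_le.2 fun v hv => h v hv
  refine ⟨cen p w, by simp [RingHom.mem_ker, cen_eq], fun a ha => ?_⟩
  have hv : (fun i => eval p (pderiv i a)) ∈ W ⊔ W' := by
    rw [hW'.sup_eq_top]
    trivial
  obtain ⟨v, hv1, v', hv2, e⟩ := Submodule.mem_sup.1 hv
  obtain ⟨r, hr⟩ := hw ⟨v', hv2⟩
  have hr' : v' = r • (w : Fin 4 → ℂ) := (congrArg Subtype.val hr).symm
  have ht := taylor_mem p a
  rw [show eval p a = 0 from ha, map_zero, sub_zero] at ht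
  have e2 : a = C r * cen p w + (a - cen p (fun i => eval p (pderiv i a)) + cen p v) := by
    rw [← e, hr', map_add, map_smul, smul_eq_C_mul]
    ring
  rw [e2]
  exact add_mem (Ideal.mem_sup_left (Ideal.mul_mem_left _ _ (Ideal.mem_span_singleton_self _)))
    (Ideal.mem_sup_right (add_mem (Ideal.mem_sup_left ht) (hWle hv1)))

end FinBP

open FinBP in
theorem plFin : S_PlFin := by
  intro F c χ hF hc3 hF0 hs hχ hdeg
  obtain ⟨t, ht⟩ : ∃ t : ℂ, χ.eval t ≠ 0 := by
    by_contra! h
    exact hχ (Polynomial.funext fun r => by simpa using h r)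
  set h : Pol ℂ := hm (X 1) (X 0) χ 11 with hh
  have hhom : h.IsHomogeneous 11 := hm_hom (isHomogeneous_X _ _) (isHomogeneous_X _ _) _ _
  set u : Fin 4 → ℂ := ![-t, 1, 0, 0] with hu
  set U : Pol ℂ := linForm u with hU
  have hUev : ∀ p, eval p U = p 1 - t * p 0 := fun p => by
    rw [hU, eval_lin]
    simp [hu]
    ring
  have hUhom : U.IsHomogeneous 1 := by
    rw [hU, linForm]
    exact IsHomogeneous.sum _ _ _ fun i _ => by simpa using (isHomogeneous_X ℂ i).C_mul (u i)
  have hb1 : eval ![1, t, 0, 0] h ≠ 0 := by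
    rw [hh, ringHom_hm (eval ![1, t, 0, 0]) (by simp) hdeg]
    have : (eval ![1, t, 0, 0] : Pol ℂ →+* ℂ).comp C = RingHom.id ℂ := by
      ext r
      simp
    rw [this]
    simpa using ht
  set b2 : Fin 4 → ℂ := ![0, 0, c 3, -c 2] with hb2
  set J : Ideal (Pol ℂ) := Ideal.span {F, linForm c, h} with hJ
  have hFJ : F ∈ J := Ideal.subset_span (by simp)
  have hlJ : linForm c ∈ J := Ideal.subset_span (by simp)
  have hhJ : h ∈ J := Ideal.subset_span (by simp)
  -- no common zero on `U = 0`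
  have hX : ∀ i, ∃ k : ℕ, (X i : Pol ℂ) ^ k ∈ J ⊔ Ideal.span {U} := by
    intro i
    refine nst _ _ fun p hp => ?_
    have e1 := hp F (Ideal.mem_sup_left hFJ)
    have e2 := hp _ (Ideal.mem_sup_left hlJ)
    have e3 := hp h (Ideal.mem_sup_left hhJ)
    have e4 := hp U (Ideal.mem_sup_right (Ideal.mem_span_singleton_self _))
    rw [hUev, sub_eq_zero] at e4
    have e5 := eval_scale (p 0) ![1, t, 0, 0] hhom
    rw [← eval_hm_congr χ 11 (p := p) (by simp) (by simp [e4, mul_comm]), ← hh, e3] at e5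
    have p0 : p 0 = 0 := by simpa [hb1] using e5.symm
    have p1 : p 1 = 0 := by rw [e4, p0, mul_zero]
    rw [eval_lin, p0, p1] at e2
    have e6 : p = fun i => p 2 / c 3 * b2 i := by
      funext j
      fin_cases j
      · simp [hb2, p0]
      · simp [hb2, p1]
      · simp [hb2, hc3]
      · simp only [hb2]
        simp
        field_simp
        linear_combination e2
    have e7 := eval_scale (p 2 / c 3) b2 hF
    rw [← e6, e1] at e7
    have p2 : p 2 / c 3 = 0 := by simpa [hF0] using e7.symm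
    rw [eval_X, congrFun e6 i, p2, zero_mul]
  set J' : Ideal (Pol ℂ) := J ⊔ Ideal.span {U - 1} with hJ'
  have hUJ : U - 1 ∈ J' := Ideal.mem_sup_right (Ideal.mem_span_singleton_self _)
  -- the zero set in the chart `U = 1` is finite
  have hZ : {p : Fin 4 → ℂ | ∀ b ∈ J', eval p b = 0}.Finite := by
    have f1 := line_finite hhom ![0, 1, 0, 0] ![1, t, 0, 0] hb1
    refine (f1.biUnion fun s _ => (line_finite hF
      ![s, 1 + s * t, 0, -(c 0 * s + c 1 * (1 + s * t)) / c 3] b2 hF0).image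
        fun r i => ![s, 1 + s * t, 0, -(c 0 * s + c 1 * (1 + s * t)) / c 3] i +
          r * b2 i).subset ?_
    intro p hp
    have e1 := hp F (Ideal.mem_sup_left hFJ)
    have e2 := hp _ (Ideal.mem_sup_left hlJ)
    have e3 := hp h (Ideal.mem_sup_left hhJ)
    have e4 := hp _ hUJ
    rw [map_sub, hUev, map_one] at e4
    have e5 : p 1 = 1 + p 0 * t := by linear_combination e4
    rw [eval_lin, e5] at e2
    have e6 : (fun i => ![p 0, 1 + p 0 * t, 0, -(c 0 * p 0 + c 1 * (1 + p 0 * t)) / c 3] i +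
        p 2 / c 3 * b2 i) = p := by
      funext j
      fin_cases j
      · simp [hb2]
      · simp [hb2, e5]
      · simp [hb2, hc3]
      · simp only [hb2]
        simp
        field_simp
        linear_combination -e2
    refine Set.mem_biUnion (x := p 0) ?_ ⟨p 2 / c 3, ?_, e6⟩
    · show eval _ h = 0
      exact (eval_hm_congr χ 11 (by simp) (by simp [e5])).trans e3
    · show eval _ F = 0
      rw [e6, e1]
  have hfin : {K : Ideal (Pol ℂ) | J' ≤ K}.Finite := by
    obtain ⟨N, hN⟩ : ∃ N, (∏ p ∈ hZ.toFinset, RingHom.ker (eval p)) ^ N ≤ J' := by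
      refine Ideal.exists_pow_le_of_le_radical_of_fg (fun a ha => nst _ _ fun p hp => ?_)
        (IsNoetherian.noetherian _)
      exact Ideal.prod_le_inf.trans (Finset.inf_le (hZ.mem_toFinset.2 hp)) ha
    refine finite_over hZ.toFinset (fun p => RingHom.ker (eval p)) J' (fun p _ => ?_)
      (fun p _ q _ e => ?_) hN fun p hp => ?_
    · exact RingHom.ker_isMaximal_of_surjective _ fun z => ⟨C z, by simp⟩
    · funext i
      have : (X i - C (p i) : Pol ℂ) ∈ RingHom.ker (eval q) := by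
        rw [← show RingHom.ker (eval p) = RingHom.ker (eval q) from e]
        simp [RingHom.mem_ker]
      have h2 : q i - p i = 0 := by simpa [RingHom.mem_ker] using this
      exact (sub_eq_zero.1 h2).symm
    · have hp := hZ.mem_toFinset.1 hp
      have e1 := hp F (Ideal.mem_sup_left hFJ)
      have e2 := hp _ (Ideal.mem_sup_left hlJ)
      have e4 := hp _ hUJ
      rw [map_sub, map_one, sub_eq_zero] at e4
      have p0 : p ≠ 0 := by
        rintro rfl
        rw [hUev] at e4
        simp at e4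
      have eu := congrArg (eval p) hF.sum_X_mul_pderiv
      simp only [map_mul, eval_X, map_nsmul, e1, smul_zero, Fin.sum_univ_four,
        map_add] at eu
      refine cot J' p (fun i => eval p (pderiv i F)) c u ?_ ?_
      · rw [Fintype.linearIndependent_iff]
        intro r hr
        have hr' : ∀ i, r 0 * eval p (pderiv i F) + r 1 * c i + r 2 * u i = 0 := fun i => by
          simpa [Fin.sum_univ_three] using congrFun hr i
        have e5 := e4
        rw [hU, eval_lin] at e5
        rw [eval_lin] at e2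
        have r2 : r 2 = 0 := by
          linear_combination p 0 * hr' 0 + p 1 * hr' 1 + p 2 * hr' 2 + p 3 * hr' 3 - r 0 * eu -
            r 1 * e2 - r 2 * e5
        have r0 : r 0 = 0 := by
          by_contra r0
          refine hs p p0 e1 (-r 1 / r 0) fun i => ?_
          field_simp
          linear_combination hr' i - u i * r2
        have r1 : r 1 = 0 := by
          have := hr' 3
          rw [r0, r2] at this
          simpa [hc3] using this
        intro i
        fin_cases i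
        exacts [r0, r1, r2]
      · rintro _ ⟨i, rfl⟩
        fin_cases i
        · have ht := taylor_mem p F
          rw [e1, map_zero, sub_zero] at ht
          have : cen p (fun i => eval p (pderiv i F)) =
              F - (F - cen p fun i => eval p (pderiv i F)) := by ring
          show cen p (fun i => eval p (pderiv i F)) ∈ _
          rw [this]
          exact sub_mem (Ideal.mem_sup_right (Ideal.mem_sup_left hFJ)) (Ideal.mem_sup_left ht)
        · show cen p c ∈ _
          rw [cen_eq, e2, map_zero, sub_zero]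
          exact Ideal.mem_sup_right (Ideal.mem_sup_left hlJ)
        · show cen p u ∈ _
          rw [cen_eq, ← hU, e4, map_one]
          exact Ideal.mem_sup_right hUJ
  have hJI : ∀ I : Ideal (Pol ℂ), F ∈ I → linForm c ∈ I → h ∈ I → J ≤ I := by
    intro I h1 h2 h3
    rw [hJ, Ideal.span_le]
    rintro x (rfl | rfl | rfl)
    exacts [h1, h2, h3]
  have hnz : ∀ I : Ideal (Pol ℂ), SatI I → J ≤ I → ∀ (k : ℕ) (b : Pol ℂ), U ^ k * b ∈ I →
      b ∈ I := by
    intro I hI hJ k
    induction k with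
    | zero => simp
    | succ k ih =>
      intro b hb
      refine ih b (hI _ fun i => ?_)
      obtain ⟨n, hn⟩ := hX i
      obtain ⟨j, hj, z, hz, e⟩ := Submodule.mem_sup.1 hn
      obtain ⟨r, rfl⟩ := Ideal.mem_span_singleton'.1 hz
      refine ⟨n, ?_⟩
      have : X i ^ n * (U ^ k * b) = j * (U ^ k * b) + r * (U ^ (k + 1) * b) := by
        rw [← e]
        ring
      rw [this]
      exact add_mem (Ideal.mul_mem_right _ _ (hJ hj)) (Ideal.mul_mem_left _ _ hb)
  have hle : ∀ I I' : Ideal (Pol ℂ), HomI I → HomI I' → SatI I' → J ≤ I' →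
      I ⊔ Ideal.span {U - 1} = I' ⊔ Ideal.span {U - 1} → I ≤ I' := by
    intro I I' h1 h2 h3 h4 e a ha
    rw [← sum_homogeneousComponent a]
    refine Ideal.sum_mem _ fun d _ => ?_
    obtain ⟨k, hk⟩ := dehom ℂ I' U _ d h2 hUhom (homogeneousComponent_isHomogeneous d a)
      (e ▸ Ideal.mem_sup_left (h1 a ha d))
    exact hnz I' h3 h4 k _ hk
  refine Set.Finite.of_finite_image (f := fun I => I ⊔ Ideal.span {U - 1}) (hfin.subset ?_) ?_
  · rintro _ ⟨I, ⟨-, -, h1, h2, h3⟩, rfl⟩
    exact sup_le_sup_right (hJI I h1 h2 h3) _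
  · rintro I ⟨a1, a2, a3, a4, a5⟩ I' ⟨b1, b2, b3, b4, b5⟩ e
    exact le_antisymm (hle I I' a1 b1 b2 (hJI I' b3 b4 b5) e)
      (hle I' I b1 a1 a2 (hJI I a3 a4 a5) e.symm)

end Pool.Agent.P.MP_2b2d3b_ag
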