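import Pool.Agent.P.MP_2b2d3b_ag.Pen2
import Pool.Agent.P.MP_2b2d3b_ag.Bad2

/-!
Points of the plane, directional derivatives and finiteness statements.
-/

namespace Pool.Agent.P.MP_2b2d3b_ag

open Polynomial

/-- the point `w g₀ + x g₁ + y g₂` -/
def cpt (g : Matrix (Fin 4) (Fin 4) ℂ) (w x y : ℂ) : Fin 4 → ℂ :=
  fun i => g i 0 * w + g i 1 * x + g i 2 * y

/-- the derivative in the direction `g_k` -/
noncomputable def dir (g : Matrix (Fin 4) (Fin 4) ℂ) (k : Fin 4) (p : Fin 4 → ℂ) (P : Pol ℂ) : ℂ :=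
  ∑ i, MvPolynomial.eval p (MvPolynomial.pderiv i P) * g i k

variable {g g' : Matrix (Fin 4) (Fin 4) ℂ}

theorem dir_add_mul (k : Fin 4) (p : Fin 4 → ℂ) (a b : Pol ℂ) (t : ℂ) :
    dir g k p (b + MvPolynomial.C t * a) = dir g k p b + t * dir g k p a := by
  simp [dir, add_mul, Finset.sum_add_distrib, Finset.mul_sum, mul_assoc]

theorem evalEval_cpt (x y : ℂ) (P : Pol ℂ) :
    (rho g P).evalEval x y = MvPolynomial.eval (cpt g 1 x y) P := by
  rw [evalEval_rho]
  congr 2
  funext i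
  simp [cpt]

theorem evalEval_derivative (x y : ℂ) (P : Pol ℂ) :
    (derivative (rho g P)).evalEval x y = dir g 2 (cpt g 1 x y) P := by
  simp [derivative_rho, evalEval_finsetSum, evalEval_mul, evalEval_cpt, dir, evalEval_C]

theorem eval_scale (w : ℂ) (p : Fin 4 → ℂ) {P : Pol ℂ} {d : ℕ} (hP : P.IsHomogeneous d) :
    MvPolynomial.eval (fun i => w * p i) P = w ^ d * MvPolynomial.eval p P :=
  eval₂_scale (RingHom.id ℂ) p w hP

theorem eval_cpt_scale (c w x y : ℂ) {P : Pol ℂ} {d : ℕ} (hP : P.IsHomogeneous d) :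
    MvPolynomial.eval (cpt g (c * w) (c * x) (c * y)) P =
      c ^ d * MvPolynomial.eval (cpt g w x y) P := by
  rw [← eval_scale c _ hP]
  congr 2
  funext i
  simp only [cpt]; ring

theorem eval_U (hg : g * g' = 1) (w x y : ℂ) (k : Fin 4) :
    MvPolynomial.eval (cpt g w x y) (linForm (g' k)) = ![w, x, y, 0] k := by
  have : MvPolynomial.eval (cpt g w x y) (linForm (g' k)) = (∑ j, g' k j * g j 0) * w +
      (∑ j, g' k j * g j 1) * x + (∑ j, g' k j * g j 2) * y := by
    simp only [linForm, map_sum, map_mul, MvPolynomial.eval_C, MvPolynomial.eval_X, cpt,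
      Finset.sum_mul, ← Finset.sum_add_distrib]
    exact Finset.sum_congr rfl fun j _ => by ring
  rw [this]
  simp only [sum_inv hg]
  fin_cases k <;> simp

theorem eq_cpt (hg : g * g' = 1) {p : Fin 4 → ℂ} (h : MvPolynomial.eval p (linForm (g' 3)) = 0) :
    p = cpt g (MvPolynomial.eval p (linForm (g' 0))) (MvPolynomial.eval p (linForm (g' 1)))
      (MvPolynomial.eval p (linForm (g' 2))) := by
  funext i
  have := congrArg (MvPolynomial.eval p) (X_eq hg i)
  simpa [h, cpt] using this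

theorem rhoh_eval (w x y : ℂ) (P : Pol ℂ) :
    ((rhoh g P).map (evalEvalRingHom w x)).eval y = MvPolynomial.eval (cpt g w x y) P := by
  induction P using MvPolynomial.induction_on with
  | C a => simp [rhoh_C]
  | add p q ih ih' => simp [ih, ih']
  | mul_X p i ih =>
    rw [map_mul, Polynomial.map_mul, eval_mul, ih, map_mul, MvPolynomial.eval_X]
    simp [rhoh_apply, pt, gw, cpt]

theorem eval_eq_zero_of_hom {I : Ideal (Pol ℂ)}
    (hI : ∀ b ∈ I, ∀ d, MvPolynomial.homogeneousComponent d b ∈ I) {φ : Pol ℂ →+ ℂ}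
    (h : ∀ b ∈ I, ∀ d, b.IsHomogeneous d → φ b = 0) {b : Pol ℂ} (hb : b ∈ I) : φ b = 0 := by
  rw [← MvPolynomial.sum_homogeneousComponent b, map_sum]
  exact Finset.sum_eq_zero fun d _ => h _ (hI b hb d) d
    (MvPolynomial.homogeneousComponent_isHomogeneous _ _)

namespace Frame

variable {F l : Pol ℂ} {v : Pt ℂ}

theorem cpt_eq_zero (h : Frame F l v) (hF : F.IsHomogeneous 6) {y : ℂ}
    (e : MvPolynomial.eval (cpt v.g 0 0 y) F = 0) : cpt v.g 0 0 y = 0 := by
  have := eval_cpt_scale (g := v.g) y 0 0 1 hF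
  simp only [mul_zero, mul_one] at this
  have e2 : cpt v.g 0 0 1 = fun i => v.g i 2 := by funext i; simp [cpt]
  rw [this, e2, mul_eq_zero] at e
  obtain rfl := eq_zero_of_pow_eq_zero (e.resolve_right (right_ne_zero_of_mul_eq_one h.e2))
  funext i; simp [cpt]

theorem finite_y (h : Frame F l v) (hF : F.IsHomogeneous 6) (w x : ℂ) :
    {y | MvPolynomial.eval (cpt v.g w x y) F = 0}.Finite := by
  refine (finite_setOfPred_isRoot ((fh_monic hF h.e2).map (evalEvalRingHom w x)).ne_zero).subset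
    fun y hy => ?_
  change eval y _ = 0
  rw [Polynomial.map_mul, eval_mul, rhoh_eval, hy, mul_zero]

theorem finite_zero (h : Frame F l v) (hF : GoodSextic F) {c : ℂ[X][X]} (hc : ¬ v.f F ∣ c) :
    {p : ℂ × ℂ | MvPolynomial.eval (cpt v.g 1 p.1 p.2) F = 0 ∧ c.evalEval p.1 p.2 = 0}.Finite := by
  obtain ⟨r, hr, a, b, e⟩ := exists_C_mem (Pt.f_monic hF.homog h.e2)
    (prime_C hF v h.e1 h.e2).irreducible hc
  refine ((finite_setOfPred_isRoot hr).biUnion fun x _ =>
    (h.finite_y hF.homog 1 x).image (Prod.mk x)).subset ?_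
  rintro ⟨x, y⟩ ⟨h1, h2⟩
  have := congrArg (evalEval x y) e
  rw [evalEval_C, evalEval_add, evalEval_mul, evalEval_mul, h2, Pt.f, evalEval_mul, evalEval_cpt,
    h1] at this
  simp only [Set.mem_iUnion]
  exact ⟨x, by simpa using this, y, h1, rfl⟩

end Frame

theorem taylor_mem (p : Fin 4 → ℂ) (P : Pol ℂ) :
    P - MvPolynomial.C (MvPolynomial.eval p P) -
      ∑ i, MvPolynomial.C (MvPolynomial.eval p (MvPolynomial.pderiv i P)) *
        (MvPolynomial.X i - MvPolynomial.C (p i)) ∈ RingHom.ker (MvPolynomial.eval p) ^ 2 := by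
  induction P using MvPolynomial.induction_on with
  | C a => simp
  | add P Q ih ih' =>
    convert add_mem ih ih' using 1
    simp only [map_add, add_mul, Finset.sum_add_distrib]
    ring
  | mul_X P j ih =>
    have h1 : ∀ i, (MvPolynomial.X i - MvPolynomial.C (p i) : Pol ℂ) ∈
        RingHom.ker (MvPolynomial.eval p) := fun i => by simp [RingHom.mem_ker]
    have h2 : ∑ i, MvPolynomial.C (MvPolynomial.eval p (MvPolynomial.pderiv i P)) *
        ((MvPolynomial.X i - MvPolynomial.C (p i)) * (MvPolynomial.X j - MvPolynomial.C (p j))) ∈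
        RingHom.ker (MvPolynomial.eval p) ^ 2 :=
      Ideal.sum_mem _ fun i _ => Ideal.mul_mem_left _ _
        (by rw [pow_two]; exact Ideal.mul_mem_mul (h1 i) (h1 j))
    convert add_mem (Ideal.mul_mem_left _ (MvPolynomial.X j) ih) h2 using 1
    simp only [Fin.sum_univ_four, Derivation.leibniz, smul_eq_mul, map_add, map_mul,
      MvPolynomial.eval_X, MvPolynomial.pderiv_X]
    fin_cases j <;> simp <;> ring

theorem mem_sq (hg : g * g' = 1) {x y : ℂ} {P : Pol ℂ} {d : ℕ} (hP : P.IsHomogeneous d)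
    (h0 : MvPolynomial.eval (cpt g 1 x y) P = 0) (h1 : dir g 1 (cpt g 1 x y) P = 0)
    (h2 : dir g 2 (cpt g 1 x y) P = 0) :
    P ∈ Ideal.span {linForm (g' 3)} ⊔ RingHom.ker (MvPolynomial.eval (cpt g 1 x y)) ^ 2 := by
  set p := cpt g 1 x y
  have eu := congrArg (MvPolynomial.eval p) hP.sum_X_mul_pderiv
  simp only [map_sum, map_mul, MvPolynomial.eval_X, nsmul_eq_mul, h0, mul_zero] at eu
  have h3 : dir g 0 p P = 0 := by
    simp only [dir, Fin.sum_univ_four, p, cpt] at *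
    linear_combination eu - x * h1 - y * h2
  have e : ∑ i, MvPolynomial.C (MvPolynomial.eval p (MvPolynomial.pderiv i P)) *
      (MvPolynomial.X i - MvPolynomial.C (p i)) =
      MvPolynomial.C (dir g 3 p P) * linForm (g' 3) := by
    have e0 := congrArg (MvPolynomial.C : ℂ → Pol ℂ) eu
    have e1 := congrArg (MvPolynomial.C : ℂ → Pol ℂ) h1
    have e2 := congrArg (MvPolynomial.C : ℂ → Pol ℂ) h2
    have e3 := congrArg (MvPolynomial.C : ℂ → Pol ℂ) h3
    simp only [dir, Fin.sum_univ_four, map_add, map_mul, map_zero] at e0 e1 e2 e3 ⊢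
    rw [X_eq hg 0, X_eq hg 1, X_eq hg 2, X_eq hg 3]
    linear_combination linForm (g' 0) * e3 + linForm (g' 1) * e1 + linForm (g' 2) * e2 - e0
  have := taylor_mem p P
  rw [h0, map_zero, sub_zero, e] at this
  convert Submodule.add_mem_sup (Ideal.mul_mem_left _ (MvPolynomial.C (dir g 3 p P))
    (Ideal.mem_span_singleton_self _)) this using 1
  ring

theorem mult_contra {F l : Pol ℂ} (hF : GoodSextic F) (hl : l.IsHomogeneous 1) (hl0 : l ≠ 0)
    {p : Fin 4 → ℂ} (hp : p ≠ 0) (hlp : MvPolynomial.eval p l = 0)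
    (hFp : MvPolynomial.eval p F = 0) {a1 b1 a2 b2 c : Pol ℂ}
    (h1 : a1 ∈ Ideal.span {l} ⊔ RingHom.ker (MvPolynomial.eval p) ^ 2)
    (h2 : b1 ∈ Ideal.span {l} ⊔ RingHom.ker (MvPolynomial.eval p) ^ 2)
    (h3 : a2 ∈ Ideal.span {l} ⊔ RingHom.ker (MvPolynomial.eval p) ^ 2)
    (h4 : b2 ∈ Ideal.span {l} ⊔ RingHom.ker (MvPolynomial.eval p) ^ 2)
    (hc : MvPolynomial.eval p c ≠ 0) (hd : a1 * b2 - a2 * b1 - c * l ∈ Ideal.span {F}) : False := by
  have key : ∀ a ∈ Ideal.span {l} ⊔ RingHom.ker (MvPolynomial.eval p) ^ 2, ∃ α a',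
      a' ∈ RingHom.ker (MvPolynomial.eval p) ^ 2 ∧ MvPolynomial.eval p a' = 0 ∧
      a = α * l + a' := fun a ha => by
    obtain ⟨_, hx, a', ha', rfl⟩ := Submodule.mem_sup.mp ha
    obtain ⟨α, rfl⟩ := Ideal.mem_span_singleton'.mp hx
    exact ⟨α, a', ha', Ideal.pow_le_self two_ne_zero ha', rfl⟩
  obtain ⟨α1, x1, k1, j1, rfl⟩ := key _ h1
  obtain ⟨β1, y1, k2, j2, rfl⟩ := key _ h2
  obtain ⟨α2, x2, k3, j3, rfl⟩ := key _ h3
  obtain ⟨β2, y2, k4, j4, rfl⟩ := key _ h4
  obtain ⟨z, hz⟩ := Ideal.mem_span_singleton'.mp hd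
  let c' := c - (α1 * (β2 * l + y2) + x1 * β2 - α2 * (β1 * l + y1) - x2 * β1)
  have hc' : MvPolynomial.eval p c' = MvPolynomial.eval p c := by simp [c', hlp, j1, j2, j3, j4]
  have e : z * F + c' * l = x1 * y2 - x2 * y1 := by simp only [c']; linear_combination hz
  clear_value c'
  by_cases hz0 : MvPolynomial.eval p z = 0
  · obtain ⟨k, rfl⟩ := exists_linForm hl
    apply hl0
    have : ∀ j, k j = 0 := fun j => by
      have := congrArg (fun P => MvPolynomial.eval p (MvPolynomial.pderiv j P)) e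
      simp only [map_add, map_sub, Derivation.leibniz, smul_eq_mul, map_mul, hz0, hFp, hlp, j1, j2,
        j3, j4, hc', zero_mul, add_zero, zero_add, sub_zero, mul_eq_zero, hc, false_or] at this
      simpa [linForm, MvPolynomial.pderiv_X, Pi.single_apply, apply_ite (MvPolynomial.eval p)]
        using this
    simp [linForm, this]
  · apply hF.mult l p hl hl0 hp hlp
    set z0 := MvPolynomial.eval p z
    let n := MvPolynomial.C z0 - z
    have hn : n ∈ RingHom.ker (MvPolynomial.eval p) := by simp [n, z0, RingHom.mem_ker]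
    have h4 : x1 * y2 - x2 * y1 ∈ RingHom.ker (MvPolynomial.eval p) ^ 4 := by
      rw [pow_add _ 2 2]
      exact sub_mem (Ideal.mul_mem_mul k1 k4) (Ideal.mul_mem_mul k3 k2)
    have hu : (MvPolynomial.C z0⁻¹ * MvPolynomial.C z0 : Pol ℂ) = 1 := by
      rw [← map_mul, inv_mul_cancel₀ hz0, map_one]
    let S := MvPolynomial.C z0 ^ 3 + MvPolynomial.C z0 ^ 2 * n + MvPolynomial.C z0 * n ^ 2 + n ^ 3
    convert Submodule.add_mem_sup (Ideal.mul_mem_left _ (-(MvPolynomial.C z0⁻¹ ^ 4 * S * c'))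
      (Ideal.mem_span_singleton_self l)) (Ideal.mul_mem_left _ (MvPolynomial.C z0⁻¹ ^ 4)
      (add_mem (Ideal.mul_mem_left _ F (Ideal.pow_mem_pow hn 4)) (Ideal.mul_mem_left _ S h4)))
      using 1
    have hu4 : (MvPolynomial.C z0⁻¹ ^ 4 * MvPolynomial.C z0 ^ 4 : Pol ℂ) = 1 := by
      rw [← mul_pow, hu, one_pow]
    simp only [S, n]
    linear_combination (-F) * hu4 + MvPolynomial.C z0⁻¹ ^ 4 * (MvPolynomial.C z0 ^ 3 +
      MvPolynomial.C z0 ^ 2 * (MvPolynomial.C z0 - z) + MvPolynomial.C z0 *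
      (MvPolynomial.C z0 - z) ^ 2 + (MvPolynomial.C z0 - z) ^ 3) * e

end Pool.Agent.P.MP_2b2d3b_ag
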