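import Pool.Agent.P.MP_2b2d3b_ag.St
import Pool.Agent.P.MP_2b2d3b_ag.Pts

/-!
Package FinC: the module of relations is free of rank two at a smooth point.
-/

namespace Pool.Agent.P.MP_2b2d3b_ag

open MvPolynomial

namespace FinCP

section Local

open IsLocalRing

variable {O : Type} [CommRing O] [IsLocalRing O] [IsNoetherianRing O] {u v : O}

theorem unit_pow (hm : maximalIdeal O = Ideal.span {u, v}) {b : O} (hb : ¬ u ∣ b) :
    ∃ (k : ℕ) (e : O), IsUnit e ∧ u ∣ b - e * v ^ k := by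
  by_contra hcon
  push Not at hcon
  have h1 : ∀ k : ℕ, ∃ c, u ∣ b - c * v ^ k := by
    intro k
    induction k with
    | zero => exact ⟨b, by simp⟩
    | succ k ih =>
      obtain ⟨c, hc⟩ := ih
      have hc' : c ∈ maximalIdeal O := fun h => hcon k c h hc
      rw [hm, Ideal.mem_span_pair] at hc'
      obtain ⟨α, β, rfl⟩ := hc'
      refine ⟨β, ?_⟩
      convert dvd_add hc (Dvd.intro (α * v ^ k) rfl) using 1
      ring
  have hv : Ideal.span {v} ≠ ⊤ := by
    intro h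
    have : v ∈ maximalIdeal O := hm ▸ Ideal.subset_span (by simp)
    exact this (Ideal.span_singleton_eq_top.1 h)
  have h2 := Ideal.iInf_pow_smul_eq_bot_of_isLocalRing (M := O ⧸ Ideal.span {u}) _ hv
  have h3 : Ideal.Quotient.mk (Ideal.span {u}) b ∈
      (⨅ i : ℕ, Ideal.span {v} ^ i • ⊤ : Submodule O (O ⧸ Ideal.span {u})) := by
    refine (Submodule.mem_iInf _).2 fun k => ?_
    obtain ⟨c, hc⟩ := h1 k
    have e : Ideal.Quotient.mk (Ideal.span {u}) b =
        v ^ k • Ideal.Quotient.mk (Ideal.span {u}) c := by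
      change _ = Ideal.Quotient.mk (Ideal.span {u}) (v ^ k * c)
      rw [Ideal.Quotient.eq, Ideal.mem_span_singleton, mul_comm]
      exact hc
    rw [e]
    exact Submodule.smul_mem_smul (Ideal.pow_mem_pow (Ideal.mem_span_singleton_self v) k) trivial
  rw [h2, Submodule.mem_bot, Ideal.Quotient.eq_zero_iff_mem, Ideal.mem_span_singleton] at h3
  exact hb h3

theorem ideal_gen (hm : maximalIdeal O = Ideal.span {u, v}) (I : Ideal O) :
    ∃ a ∈ I, ∀ b ∈ I, ∃ r, u ∣ b - r * a := by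
  classical
  by_cases h : ∃ k : ℕ, ∃ a ∈ I, ∃ e, IsUnit e ∧ u ∣ a - e * v ^ k
  · obtain ⟨a, ha, e, ⟨e, rfl⟩, he⟩ := Nat.find_spec h
    refine ⟨a, ha, fun b hb => ?_⟩
    by_cases hu : u ∣ b
    · exact ⟨0, by simpa using hu⟩
    · obtain ⟨k, e', h1, h2⟩ := unit_pow hm hu
      obtain ⟨l, hl⟩ := Nat.exists_eq_add_of_le (Nat.find_min' h ⟨b, hb, e', h1, h2⟩)
      refine ⟨e' * v ^ l * (e⁻¹ : Oˣ), ?_⟩
      convert dvd_sub h2 (he.mul_left (e' * v ^ l * (e⁻¹ : Oˣ))) using 1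
      rw [hl, pow_add]
      linear_combination (-(e' * v ^ l * v ^ Nat.find h)) * e.inv_mul
  · refine ⟨0, I.zero_mem, fun b hb => ⟨0, ?_⟩⟩
    by_contra hu
    obtain ⟨k, e, h1, h2⟩ := unit_pow hm (b := b) (by simpa using hu)
    exact h ⟨k, b, hb, e, h1, h2⟩

theorem two_gen (hm : maximalIdeal O = Ideal.span {u, v}) (N : Submodule O (O × O))
    (hN : ∀ n, u • n ∈ N → n ∈ N) : ∃ n1 ∈ N, ∃ n2 ∈ N, N ≤ Submodule.span O {n1, n2} := by
  obtain ⟨_, ⟨n1, h1, rfl⟩, H1⟩ := ideal_gen hm (N.map (LinearMap.fst O O O))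
  obtain ⟨_, ⟨n2, ⟨h2, h2'⟩, rfl⟩, H2⟩ := ideal_gen hm
    ((N ⊓ Submodule.comap (LinearMap.fst O O O) (Ideal.span {u})).map (LinearMap.snd O O O))
  refine ⟨n1, h1, n2, h2, Submodule.le_of_le_smul_of_le_jacobson_bot (I := Ideal.span {u})
    (IsNoetherian.noetherian N) ?_ fun n hn => ?_⟩
  · refine le_trans ?_ (maximalIdeal_le_jacobson _)
    rw [hm]
    exact Ideal.span_mono (by simp)
  · obtain ⟨r, hr⟩ := H1 _ ⟨n, hn, rfl⟩
    have hn' : n - r • n1 ∈ N := N.sub_mem hn (N.smul_mem _ h1)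
    obtain ⟨s, y, hs⟩ := H2 _ ⟨n - r • n1, ⟨hn', Ideal.mem_span_singleton.2 hr⟩, rfl⟩
    obtain ⟨x, hx⟩ := dvd_sub hr ((Ideal.mem_span_singleton.1 h2').mul_left s)
    have e : n - r • n1 - s • n2 = u • (x, y) := Prod.ext hx hs
    have hxy : (x, y) ∈ N := hN _ (e ▸ N.sub_mem hn' (N.smul_mem _ h2))
    have e' : n = (r • n1 + s • n2) + u • (x, y) := by rw [← e]; abel
    rw [e']
    exact Submodule.add_mem_sup (Submodule.mem_span_pair.2 ⟨r, s, rfl⟩)
      (Submodule.smul_mem_smul (Ideal.mem_span_singleton_self u) hxy)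

theorem loc_free (hm : maximalIdeal O = Ideal.span {u, v}) {g1 g2 : O} (G : O)
    (r1 : ∀ a, g1 * a = 0 → a = 0) (r2 : ∀ a, g1 ∣ g2 * a → g1 ∣ a)
    (r3 : ∀ a, g1 ∣ u * a → g1 ∣ a) : ∃ a1 b1 a2 b2 c : O, g1 ∣ G * b1 - g2 * a1 ∧
      g1 ∣ G * b2 - g2 * a2 ∧ a1 * b2 - a2 * b1 = c * g1 ∧ IsUnit c := by
  let N : Submodule O (O × O) := Submodule.comap
    (G • LinearMap.snd O O O - g2 • LinearMap.fst O O O) (Ideal.span {g1})
  have mN : ∀ n : O × O, n ∈ N ↔ g1 ∣ G * n.2 - g2 * n.1 := fun n => Ideal.mem_span_singleton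
  obtain ⟨⟨a1, b1⟩, h1, ⟨a2, b2⟩, h2, H⟩ := two_gen hm N fun n hn => by
    rw [mN] at hn ⊢
    apply r3
    convert hn using 1
    simp only [Prod.smul_fst, Prod.smul_snd, smul_eq_mul]
    ring
  rw [mN] at h1 h2
  obtain ⟨c, hc⟩ : g1 ∣ a1 * b2 - a2 * b1 := r2 _ (by
    convert dvd_sub (h2.mul_left b1) (h1.mul_left b2) using 1
    ring)
  refine ⟨a1, b1, a2, b2, c, h1, h2, by rw [hc, mul_comm], ?_⟩
  obtain ⟨α, β, e1⟩ := Submodule.mem_span_pair.1 (H (show (g1, 0) ∈ N from (mN _).2 (by simp)))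
  obtain ⟨γ, δ, e2⟩ := Submodule.mem_span_pair.1 (H (show (0, g1) ∈ N from (mN _).2 (by simp)))
  obtain ⟨ε, ζ, e3⟩ := Submodule.mem_span_pair.1
    (H (show (G, g2) ∈ N from (mN _).2 (by simp [mul_comm])))
  simp only [Prod.smul_mk, smul_eq_mul, Prod.mk_add_mk, Prod.mk.injEq] at e1 e2 e3
  have k1 : g1 - (α * δ - β * γ) * c = 0 := r1 _ (by
    linear_combination (α * δ - β * γ) * hc - (γ * b1 + δ * b2) * e1.1 - g1 * e2.2 +
      (γ * a1 + δ * a2) * e1.2)
  have k2 : g2 - (α * ζ - β * ε) * c = 0 := r1 _ (by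
    linear_combination (α * ζ - β * ε) * hc - (ε * b1 + ζ * b2) * e1.1 - g1 * e3.2 +
      (ε * a1 + ζ * a2) * e1.2)
  obtain ⟨k, hk⟩ := r2 (α * δ - β * γ) ⟨α * ζ - β * ε, by
    linear_combination (α * δ - β * γ) * k2 - (α * ζ - β * ε) * k1⟩
  have k3 : 1 - k * c = 0 := r1 _ (by linear_combination k1 + c * hk)
  exact IsUnit.of_mul_eq_one_right k (by linear_combination -k3)

end Local

section Global

variable {R : Type} [CommRing R]

theorem reg_loc (M : Submonoid R) (O : Type) [CommRing O] [Algebra R O] [IsLocalization M O]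
    {f g : R} (h : ∀ a, f ∣ g * a → f ∣ a) (a : O) (ha : algebraMap R O f ∣ algebraMap R O g * a) :
    algebraMap R O f ∣ a := by
  obtain ⟨⟨a, s⟩, rfl⟩ := IsLocalization.mk'_surjective M a
  have e : Ideal.span {algebraMap R O f} = (Ideal.span {f}).map (algebraMap R O) := by
    rw [Ideal.map_span, Set.image_singleton]
  rw [← Ideal.mem_span_singleton, e] at ha ⊢
  dsimp only at ha ⊢
  rw [IsLocalization.mul_mk'_eq_mk'_of_mul] at ha
  rw [IsLocalization.mk'_mem_map_algebraMap_iff] at ha ⊢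
  obtain ⟨t, ht, ha⟩ := ha
  refine ⟨t, ht, Ideal.mem_span_singleton.2 (h _ ?_)⟩
  convert Ideal.mem_span_singleton.1 ha using 1
  ring

theorem glob_free [IsNoetherianRing R] (m : Ideal R) [m.IsPrime] {u v g1 g2 : R} (G : R)
    (hu : u ∈ m) (hv : v ∈ m) (hm : m ≤ Ideal.span {u, v} ⊔ m ^ 2)
    (r1 : ∀ a, g1 * a = 0 → a = 0) (r2 : ∀ a, g1 ∣ g2 * a → g1 ∣ a)
    (r3 : ∀ a, g1 ∣ u * a → g1 ∣ a) : ∃ a1 b1 a2 b2 c : R, g1 ∣ G * b1 - g2 * a1 ∧
      g1 ∣ G * b2 - g2 * a2 ∧ a1 * b2 - a2 * b1 = c * g1 ∧ c ∉ m := by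
  let O := Localization.AtPrime m
  let j := algebraMap R O
  have hO : IsLocalRing.maximalIdeal O = Ideal.span {j u, j v} := by
    have e := IsLocalization.AtPrime.map_eq_maximalIdeal m O
    apply le_antisymm
    · refine Submodule.le_of_le_smul_of_le_jacobson_bot (I := IsLocalRing.maximalIdeal O)
        (IsNoetherian.noetherian _) (IsLocalRing.maximalIdeal_le_jacobson _) ?_
      have := Ideal.map_mono (f := j) hm
      rwa [Ideal.map_sup, Ideal.map_pow, Ideal.map_span, Set.image_pair, e, pow_two] at this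
    · rw [← e, Ideal.span_le, Set.pair_subset_iff]
      exact ⟨Ideal.mem_map_of_mem _ hu, Ideal.mem_map_of_mem _ hv⟩
  obtain ⟨a1, b1, a2, b2, c, h1, h2, h3, h4⟩ := loc_free hO (g1 := j g1) (g2 := j g2) (j G)
    (fun a ha => by
      have := reg_loc m.primeCompl O (f := 0) (g := g1) (by simpa using r1) a (by simpa using ha)
      simpa using this)
    (reg_loc m.primeCompl O r2) (reg_loc m.primeCompl O r3)
  obtain ⟨s, hs⟩ := IsLocalization.exist_integer_multiples_of_finite m.primeCompl ![a1, b1, a2, b2, c]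
  obtain ⟨a1', e1⟩ := hs 0
  obtain ⟨b1', e2⟩ := hs 1
  obtain ⟨a2', e3⟩ := hs 2
  obtain ⟨b2', e4⟩ := hs 3
  obtain ⟨c', e5⟩ := hs 4
  simp only [Algebra.smul_def, Matrix.cons_val] at e1 e2 e3 e4 e5
  have e : Ideal.span {j g1} = (Ideal.span {g1}).map j := by
    rw [Ideal.map_span, Set.image_singleton]
  have key : ∀ (a b : O) (a' b' : R), j a' = j s * a → j b' = j s * b →
      j g1 ∣ j G * b - j g2 * a → ∃ t ∈ m.primeCompl, g1 ∣ t * (G * b' - g2 * a') := by
    intro a b a' b' ha hb h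
    have : j (G * b' - g2 * a') ∈ (Ideal.span {g1}).map j := by
      rw [← e, Ideal.mem_span_singleton, map_sub, map_mul, map_mul, ha, hb]
      convert h.mul_left (j s) using 1
      ring
    obtain ⟨t, ht, h'⟩ := (IsLocalization.algebraMap_mem_map_algebraMap_iff m.primeCompl O _ _).1 this
    exact ⟨t, ht, Ideal.mem_span_singleton.1 h'⟩
  obtain ⟨t1, ht1, k1⟩ := key a1 b1 a1' b1' e1 e2 h1
  obtain ⟨t2, ht2, k2⟩ := key a2 b2 a2' b2' e3 e4 h2
  have k3 : j (a1' * b2' - a2' * b1') = j (s * c' * g1) := by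
    simp only [map_sub, map_mul]
    rw [e1, e2, e3, e4, e5]
    linear_combination (j s * j s) * h3
  obtain ⟨t3, k3⟩ := (IsLocalization.eq_iff_exists m.primeCompl O).1 k3
  have hc' : c' ∈ m.primeCompl := by
    rw [← IsLocalization.AtPrime.isUnit_to_map_iff O m, e5]
    exact (IsLocalization.map_units O s).mul h4
  refine ⟨t3 * t1 * a1', t3 * t1 * b1', t2 * a2', t2 * b2', t1 * t2 * t3 * s * c', ?_, ?_, ?_, ?_⟩
  · convert k1.mul_left t3 using 1
    ring
  · convert k2 using 1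
    ring
  · linear_combination (t1 * t2) * k3
  · exact mul_mem (mul_mem (mul_mem (mul_mem ht1 ht2) t3.2) s.2) hc'

end Global

/-- the maximal ideal of a smooth point is generated by two elements -/
theorem max_gen (F : Pol ℂ) (c : ℕ) (p : Fin 4 → ℂ) (hF : F.IsHomogeneous 6)
    (hw : eval p (wc ℂ c) = 1) (h0 : eval p F = 0) (h1 : ∃ i, eval p (pderiv i F) ≠ 0) :
    ∃ (κ : ℂ) (i : Fin 4), RingHom.ker (eval p) ≤
      Ideal.span {F, wc ℂ c - 1} ⊔ Ideal.span {X 1 - C κ * X 2 - C (p 1 - κ * p 2), X i - C (p i)} ⊔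
        RingHom.ker (eval p) ^ 2 := by
  have hw' : p 3 + c * p 2 + (c : ℂ) ^ 2 * p 1 + (c : ℂ) ^ 3 * p 0 = 1 := by
    simpa [wc] using hw
  set f : Fin 4 → ℂ := fun i => eval p (pderiv i F) with hf
  have eul : p 0 * f 0 + p 1 * f 1 + p 2 * f 2 + p 3 * f 3 = 0 := by
    have := congrArg (eval p) hF.sum_X_mul_pderiv
    simpa [Fin.sum_univ_four, h0] using this
  have main : ∀ (κ : ℂ) (i : Fin 4), (∀ j : Fin 4, j ≠ 3 → ∃ α β γ : ℂ, (X j - C (p j) : Pol ℂ) =
      C α * (∑ k, C (f k) * (X k - C (p k)) - C (f 3) * (wc ℂ c - 1)) +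
        C β * (X 1 - C κ * X 2 - C (p 1 - κ * p 2)) + C γ * (X i - C (p i))) →
      RingHom.ker (eval p) ≤ Ideal.span {F, wc ℂ c - 1} ⊔
        Ideal.span {X 1 - C κ * X 2 - C (p 1 - κ * p 2), X i - C (p i)} ⊔
        RingHom.ker (eval p) ^ 2 := by
    intro κ i H
    set J := Ideal.span {F, wc ℂ c - 1} ⊔
        Ideal.span {X 1 - C κ * X 2 - C (p 1 - κ * p 2), X i - C (p i)} ⊔
        RingHom.ker (eval p) ^ 2 with hJ
    have m1 : F ∈ J := Ideal.mem_sup_left (Ideal.mem_sup_left (Ideal.subset_span (by simp)))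
    have m2 : wc ℂ c - 1 ∈ J :=
      Ideal.mem_sup_left (Ideal.mem_sup_left (Ideal.subset_span (by simp)))
    have m3 : X 1 - C κ * X 2 - C (p 1 - κ * p 2) ∈ J :=
      Ideal.mem_sup_left (Ideal.mem_sup_right (Ideal.subset_span (by simp)))
    have m4 : X i - C (p i) ∈ J :=
      Ideal.mem_sup_left (Ideal.mem_sup_right (Ideal.subset_span (by simp)))
    have m5 : ∑ k, C (f k) * (X k - C (p k)) ∈ J := by
      have := J.sub_mem m1 (Ideal.mem_sup_right (taylor_mem p F))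
      rw [h0] at this
      convert this using 1
      simp [hf]
    have m6 : ∀ j : Fin 4, j ≠ 3 → X j - C (p j) ∈ J := fun j hj => by
      obtain ⟨α, β, γ, e⟩ := H j hj
      rw [e]
      exact J.add_mem (J.add_mem (J.mul_mem_left _ (J.sub_mem m5 (J.mul_mem_left _ m2)))
        (J.mul_mem_left _ m3)) (J.mul_mem_left _ m4)
    have m7 : X 3 - C (p 3) ∈ J := by
      have := J.sub_mem (J.sub_mem (J.sub_mem m2 (J.mul_mem_left (c : Pol ℂ) (m6 2 (by decide))))
        (J.mul_mem_left ((c : Pol ℂ) ^ 2) (m6 1 (by decide))))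
        (J.mul_mem_left ((c : Pol ℂ) ^ 3) (m6 0 (by decide)))
      convert this using 1
      have e := congrArg (C : ℂ → Pol ℂ) hw'
      simp only [map_add, map_mul, map_pow, map_natCast, map_one] at e
      unfold wc
      linear_combination -e
    have m8 : ∀ j : Fin 4, X j - C (p j) ∈ J := fun j => by
      by_cases hj : j = 3
      · rw [hj]; exact m7
      · exact m6 j hj
    intro a ha
    have := J.add_mem (Ideal.mem_sup_right (taylor_mem p a))
      (J.sum_mem fun k (_ : k ∈ Finset.univ) => J.mul_mem_left (C (eval p (pderiv k a))) (m8 k))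
    rw [RingHom.mem_ker.1 ha] at this
    simpa using this
  have eL : (∑ k, C (f k) * (X k - C (p k)) - C (f 3) * (wc ℂ c - 1) : Pol ℂ) =
      C (f 0 - c ^ 3 * f 3) * (X 0 - C (p 0)) + C (f 1 - c ^ 2 * f 3) * (X 1 - C (p 1)) +
        C (f 2 - c * f 3) * (X 2 - C (p 2)) := by
    have e := congrArg (C : ℂ → Pol ℂ) hw'
    simp only [map_add, map_mul, map_pow, map_natCast, map_one] at e
    simp only [Fin.sum_univ_four, map_sub, map_mul, map_pow, map_natCast, wc]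
    linear_combination (-C (f 3)) * e
  rw [eL] at main
  have ne : ¬ (f 0 - c ^ 3 * f 3 = 0 ∧ f 1 - c ^ 2 * f 3 = 0 ∧ f 2 - c * f 3 = 0) := by
    rintro ⟨k0, k1, k2⟩
    have k3 : f 3 = 0 := by
      linear_combination eul - p 0 * k0 - p 1 * k1 - p 2 * k2 - f 3 * hw'
    obtain ⟨i, hi⟩ := h1
    apply hi
    rw [k3, mul_zero, sub_zero] at k0 k1 k2
    fin_cases i
    exacts [k0, k1, k2, k3]
  generalize f 0 - c ^ 3 * f 3 = f0 at main ne
  generalize f 1 - c ^ 2 * f 3 = f1 at main ne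
  generalize f 2 - c * f 3 = f2 at main ne
  by_cases z0 : f0 = 0
  · obtain ⟨κ, hκ⟩ : ∃ κ : ℂ, f1 * κ + f2 ≠ 0 := by
      by_cases z2 : f2 = 0
      · exact ⟨1, fun h => ne ⟨z0, by simpa [z2] using h, z2⟩⟩
      · exact ⟨0, by simpa using z2⟩
    have e := congrArg (C : ℂ → Pol ℂ) (inv_mul_cancel₀ hκ)
    simp only [map_add, map_mul, map_one] at e
    refine ⟨κ, 0, main κ 0 fun j hj => ?_⟩
    subst z0
    fin_cases j
    · exact ⟨0, 0, 1, by simp⟩
    · refine ⟨(f1 * κ + f2)⁻¹ * κ, (f1 * κ + f2)⁻¹ * f2, 0, ?_⟩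
      simp only [map_mul, map_sub, map_zero, Fin.mk_one]
      linear_combination (C (p 1) - X 1) * e
    · refine ⟨(f1 * κ + f2)⁻¹, -((f1 * κ + f2)⁻¹ * f1), 0, ?_⟩
      simp only [map_mul, map_sub, map_zero, map_neg, Fin.reduceFinMk]
      linear_combination (C (p 2) - X 2) * e
    · exact absurd rfl hj
  · have e := congrArg (C : ℂ → Pol ℂ) (inv_mul_cancel₀ z0)
    simp only [map_mul, map_one] at e
    refine ⟨0, 2, main 0 2 fun j hj => ?_⟩
    fin_cases j
    · refine ⟨f0⁻¹, -(f0⁻¹ * f1), -(f0⁻¹ * f2), ?_⟩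
      simp only [map_mul, map_sub, map_zero, map_neg, Fin.zero_eta]
      linear_combination (C (p 0) - X 0) * e
    · exact ⟨0, 1, 0, by simp⟩
    · exact ⟨0, 0, 1, by simp⟩
    · exact absurd rfl hj

theorem dvd_iff {P : Type} [CommRing P] (F g w a : P) :
    Ideal.Quotient.mk (Ideal.span {F, w}) g ∣ Ideal.Quotient.mk (Ideal.span {F, w}) a ↔
      a ∈ Ideal.span {F, g, w} := by
  constructor
  · rintro ⟨b, hb⟩
    obtain ⟨b, rfl⟩ := Ideal.Quotient.mk_surjective b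
    rw [← map_mul, Ideal.Quotient.eq, Ideal.mem_span_pair] at hb
    obtain ⟨α, β, e⟩ := hb
    have : a = α * F + b * g + β * w := by linear_combination -e
    rw [this]
    refine add_mem (add_mem ?_ ?_) ?_ <;>
      exact Ideal.mul_mem_left _ _ (Ideal.subset_span (by simp))
  · intro h
    rw [Ideal.mem_span_insert] at h
    obtain ⟨α, z, hz, rfl⟩ := h
    obtain ⟨β, γ, rfl⟩ := Ideal.mem_span_pair.1 hz
    refine ⟨Ideal.Quotient.mk _ β, ?_⟩
    rw [← map_mul, Ideal.Quotient.eq, Ideal.mem_span_pair]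
    exact ⟨α, γ, by ring⟩

end FinCP

open FinCP in
theorem locFree (hB : S_BoxAff) : S_LocFree := by
  intro x G p ok hw h0 h1
  obtain ⟨r1, r2, r3⟩ := hB ℂ x ok
  obtain ⟨κ, i, hm⟩ := max_gen x.F x.c p ok.hF hw h0 h1
  set J : Ideal (Pol ℂ) := Ideal.span {x.F, wc ℂ x.c - 1} with hJ
  have hle : J ≤ RingHom.ker (eval p) := by
    rw [hJ, Ideal.span_le, Set.pair_subset_iff]
    exact ⟨h0, by simp [hw]⟩
  have : (RingHom.ker (eval p)).IsPrime := RingHom.ker_isPrime _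
  have : ((RingHom.ker (eval p)).map (Ideal.Quotient.mk J)).IsPrime :=
    Ideal.map_isPrime_of_surjective Ideal.Quotient.mk_surjective (by rwa [Ideal.mk_ker])
  obtain ⟨a1, b1, a2, b2, c, k1, k2, k3, k4⟩ := glob_free
    ((RingHom.ker (eval p)).map (Ideal.Quotient.mk J))
    (u := Ideal.Quotient.mk J (X 1 - C κ * X 2 - C (p 1 - κ * p 2)))
    (v := Ideal.Quotient.mk J (X i - C (p i))) (g1 := Ideal.Quotient.mk J x.g1)
    (g2 := Ideal.Quotient.mk J x.g2) (Ideal.Quotient.mk J G)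
    (Ideal.mem_map_of_mem _ (by simp [RingHom.mem_ker]))
    (Ideal.mem_map_of_mem _ (by simp [RingHom.mem_ker]))
    (by
      have := Ideal.map_mono (f := Ideal.Quotient.mk J) hm
      rwa [Ideal.map_sup, Ideal.map_sup, Ideal.map_quotient_self, bot_sup_eq, Ideal.map_pow,
        Ideal.map_span, Set.image_pair] at this)
    (fun a ha => by
      obtain ⟨a, rfl⟩ := Ideal.Quotient.mk_surjective a
      rw [← map_mul, Ideal.Quotient.eq_zero_iff_mem] at ha
      exact Ideal.Quotient.eq_zero_iff_mem.2 (r1 a ha))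
    (fun a ha => by
      obtain ⟨a, rfl⟩ := Ideal.Quotient.mk_surjective a
      rw [← map_mul, dvd_iff] at ha
      exact (dvd_iff _ _ _ _).2 (r2 a ha))
    (fun a ha => by
      obtain ⟨a, rfl⟩ := Ideal.Quotient.mk_surjective a
      rw [← map_mul, dvd_iff] at ha
      exact (dvd_iff _ _ _ _).2 (r3 _ _ a ha))
  obtain ⟨a1, rfl⟩ := Ideal.Quotient.mk_surjective a1
  obtain ⟨b1, rfl⟩ := Ideal.Quotient.mk_surjective b1
  obtain ⟨a2, rfl⟩ := Ideal.Quotient.mk_surjective a2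
  obtain ⟨b2, rfl⟩ := Ideal.Quotient.mk_surjective b2
  obtain ⟨c, rfl⟩ := Ideal.Quotient.mk_surjective c
  simp only [← map_mul, ← map_sub] at k1 k2 k3
  exact ⟨a1, b1, a2, b2, c, (dvd_iff _ _ _ _).1 k1, (dvd_iff _ _ _ _).1 k2,
    Ideal.Quotient.eq.1 k3, fun h => k4 (Ideal.mem_map_of_mem _ h)⟩

end Pool.Agent.P.MP_2b2d3b_ag
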