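import Pool.Agent.P.MP_2b2d3b_ag.GIb2

/-!
The family of Gorenstein schemes lying on a very general sextic.
-/

namespace Pool.Agent.P.MP_2b2d3b_ag

open MvPolynomial

namespace GIP

theorem mem_rad_of_gor {B : Type} [CommRing B] {c D : ℕ} {ι : Type} [Fintype ι] [DecidableEq ι]
    {Λ : Pol B →ₗ[B] B} {b : ι → Pol B} (h : Gor c D Λ b) {F : Pol B}
    (hF : ∀ i, Λ (F * b i) = 0) : F ∈ rad Λ := fun a => by
  obtain ⟨r, hr⟩ := h.span a
  have h1 := hr F
  rw [sub_mul, map_sub, Finset.sum_mul, map_sum, Finset.sum_eq_zero, sub_zero, mul_comm] at h1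
  · exact h1
  · intro i _
    rw [mul_assoc, ← smul_eq_C_mul, map_smul, mul_comm (b i), hF, smul_zero]

theorem exists_dual {B : Type} [CommRing B] {c D : ℕ} {ι : Type} [Fintype ι] [DecidableEq ι]
    {Λ : Pol B →ₗ[B] B} {b : ι → Pol B} (h : Gor c D Λ b) :
    ∃ b' : ι → Pol B, (∀ i, (b' i).IsHomogeneous D) ∧
      ∀ i l, Λ (b' i * b l) = if i = l then 1 else 0 := by
  let G : Matrix ι ι B := Matrix.of fun i j => Λ (b i * b j)
  refine ⟨fun i => ∑ j, G⁻¹ i j • b j, fun i => ?_, fun i l => ?_⟩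
  · exact (homogeneousSubmodule (Fin 4) B D).sum_mem fun j _ =>
      (homogeneousSubmodule (Fin 4) B D).smul_mem _ (h.hb j)
  · have h1 := congrFun (congrFun (Matrix.nonsing_inv_mul G h.gram) i) l
    rw [Matrix.mul_apply, Matrix.one_apply] at h1
    rw [← h1, Finset.sum_mul, map_sum]
    refine Finset.sum_congr rfl fun j _ => ?_
    rw [smul_mul_assoc, map_smul, smul_eq_mul]
    rfl

end GIP

open GIP

theorem nzd : S_NZD := by
  intro F hF Q _ _ _ _ c ι _ _ Λ b hG
  let E : ι → MvPolynomial (Mon 6) Q := fun i =>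
    bcL C Λ (form (fun m : Mon 6 => (X m : MvPolynomial (Mon 6) Q)) * map C (b i))
  have hE : ∀ (B' : Type) [CommRing B'] (χ : MvPolynomial (Mon 6) Q →+* B') (i : ι),
      χ (E i) = bcL (χ.comp C) Λ (form (fun m : Mon 6 => χ (X m)) * map (χ.comp C) (b i)) := by
    intro B' _ χ i
    rw [← bcL_comp, ← map_form, ← map_map, ← map_mul, bcL_map]
  obtain ⟨b', hb', hd⟩ := exists_dual hG
  let J : Ideal (MvPolynomial (Mon 6) Q) := Ideal.span (Set.range E)
  have hEJ : ∀ i, E i ∈ J := fun i => Ideal.subset_span ⟨i, rfl⟩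
  let σ : Mon 6 → MvPolynomial (Mon 6) Q := fun m => ∑ i, E i * C (coeff m.1 (b' i))
  let ρ : MvPolynomial (Mon 6) Q →+* MvPolynomial (Mon 6) Q := eval₂Hom C fun m => X m - σ m
  have hρC : ρ.comp C = C := RingHom.ext fun r => by simp [ρ]
  have hρE : ∀ l, ρ (E l) = 0 := fun l => by
    have h1 : form (fun m : Mon 6 => ρ (X m)) =
        form (fun m : Mon 6 => (X m : MvPolynomial (Mon 6) Q)) -
          ∑ i, E i • (map C (b' i) : Pol (MvPolynomial (Mon 6) Q)) := by
      have h2 : ((form (fun m : Mon 6 => (X m : MvPolynomial (Mon 6) Q))) -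
          ∑ i, E i • (map C (b' i) : Pol (MvPolynomial (Mon 6) Q))).IsHomogeneous 6 :=
        (form_hom _).sub ((homogeneousSubmodule (Fin 4) _ 6).sum_mem fun i _ =>
          (homogeneousSubmodule (Fin 4) _ 6).smul_mem _ ((hb' i).map C))
      rw [← form_coeff h2]
      congr 1
      funext m
      simp [ρ, σ, coeff_form, coeff_sum, coeff_map]
    rw [hE, hρC, h1, sub_mul, map_sub, Finset.sum_mul, map_sum, Finset.sum_eq_single l]
    · rw [smul_mul_assoc, map_smul, ← map_mul, bcL_map, hd, if_pos rfl, map_one, smul_eq_mul,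
        mul_one, sub_self]
    · intro i _ hi
      rw [smul_mul_assoc, map_smul, ← map_mul, bcL_map, hd, if_neg hi, map_zero, smul_zero]
    · simp
  have hJ : J = RingHom.ker ρ := by
    refine le_antisymm (Ideal.span_le.2 ?_) fun u hu => ?_
    · rintro _ ⟨i, rfl⟩
      exact hρE i
    · obtain ⟨N, hN⟩ := retract (RingHom.id _) ρ (fun _ _ h => h) J 1 (fun r => by simp [ρ])
        (fun m => ⟨σ m, J.sum_mem fun i _ => J.mul_mem_right _ (hEJ i),
          by simp [ρ]⟩) hu
      rwa [one_pow, one_mul] at hN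
  have : J.IsPrime := hJ ▸ RingHom.ker_isPrime ρ
  have : Algebra.FiniteType ℚ (MvPolynomial (Mon 6) Q) :=
    Algebra.FiniteType.trans (S := Q) inferInstance inferInstance
  obtain ⟨B, _, _, _, j, hj, hnzd, hpt, -⟩ := bc_exists ℚ (Mon 6) (MvPolynomial (Mon 6) Q ⧸ J)
    (fun m => coeff m.1 F) hF.2 fun m => Ideal.Quotient.mk J (X m)
  refine ⟨B, inferInstance, inferInstance, inferInstance,
    (j.comp (Ideal.Quotient.mk J)).comp C, ?_, fun δ hδ => hnzd _ fun x hx => ?_, fun t0 ht0 => ?_⟩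
  · refine mem_rad_of_gor (hG.map _) fun i => ?_
    have h1 := hE B (j.comp (Ideal.Quotient.mk J)) i
    rw [RingHom.comp_apply, Ideal.Quotient.eq_zero_iff_mem.2 (hEJ i), map_zero] at h1
    rw [h1, bc, ← form_coeff hF.1, map_form]
    simp only [RingHom.comp_apply, hj]
  · refine (mul_eq_zero.1 hx).resolve_left fun e => hδ ?_
    rw [Ideal.Quotient.eq_zero_iff_mem, hJ, RingHom.mem_ker] at e
    simpa [ρ] using e
  · let t1 : MvPolynomial (Mon 6) Q →+* ℂ := eval₂Hom t0 fun m => coeff m.1 F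
    have h1 : ∀ a ∈ J, t1 a = 0 := fun a ha => by
      refine (Ideal.span_le (I := RingHom.ker t1)).2 ?_ ha
      rintro _ ⟨i, rfl⟩
      have h2 : t1.comp C = t0 := RingHom.ext fun r => by simp [t1]
      show t1 (E i) = 0
      rw [hE, h2]
      simp only [t1, eval₂Hom_X']
      rw [form_coeff hF.1]
      exact ht0 _
    obtain ⟨t, ht⟩ := hpt (Ideal.Quotient.lift J t1 h1).toRatAlgHom fun m => by simp [t1]
    exact ⟨t, fun q => (ht _).trans (by simp [t1])⟩

end Pool.Agent.P.MP_2b2d3b_ag
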