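import Pool.Agent.P.MP_2b2d3b_ag.GIc

/-!
The family of Pfaffian presentations of a very general sextic is integral.
-/

namespace Pool.Agent.P.MP_2b2d3b_ag

open MvPolynomial

namespace GIP

variable {B : Type} [CommRing B] {B' : Type} [CommRing B']

/-- only the matrix of linear forms -/
noncomputable def mkP (x : IP → B) : Pf B :=
  ⟨fun i j => form fun m => x (i, j, m), 0, 0, 0⟩

theorem mkP_q (x : IP → B) (ψ : B →+* B') (y : IV → B') (h : ∀ f, ψ (x f) = y (Sum.inl f))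
    (i : Fin 3) : map ψ ((mkP x).q i) = (mkPf y).q i := by
  rw [← q_map]
  have : ((mkP x).map ψ).φ = (mkPf y).φ := by
    funext i j
    simp only [mkP, mkPf, Pf.map, map_form, h]
  simp only [Pf.q, this]

theorem exists_delta (k : Type) [Field k] : ∃ (δ : MvPolynomial (IP ⊕ IP) k)
    (a a' : Mon 6 → Fin 3 → Pol (MvPolynomial (IP ⊕ IP) k)), δ ≠ 0 ∧
    (∀ n i, (a n i).IsHomogeneous 4 ∧ (a' n i).IsHomogeneous 4) ∧
    ∀ n, ∑ i, a n i * (mkP fun f => X (Sum.inl f)).q i -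
      ∑ i, a' n i * (mkP fun f => X (Sum.inr f)).q i = C δ * monomial n.1 1 := by
  let q1 := (mkP fun f => (X (Sum.inl f) : MvPolynomial (IP ⊕ IP) k)).q
  let q2 := (mkP fun f => (X (Sum.inr f) : MvPolynomial (IP ⊕ IP) k)).q
  let N : Submodule (MvPolynomial (IP ⊕ IP) k) (Pol (MvPolynomial (IP ⊕ IP) k)) :=
    { carrier := {z | ∃ a a' : Fin 3 → Pol (MvPolynomial (IP ⊕ IP) k),
        (∀ i, (a i).IsHomogeneous 4 ∧ (a' i).IsHomogeneous 4) ∧
          ∑ i, a i * q1 i - ∑ i, a' i * q2 i = z}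
      zero_mem' := ⟨0, 0, fun _ => ⟨isHomogeneous_zero _ _ _, isHomogeneous_zero _ _ _⟩, by simp⟩
      add_mem' := by
        rintro _ _ ⟨a, a', h, rfl⟩ ⟨b, b', h', rfl⟩
        refine ⟨a + b, a' + b', fun i => ⟨(h i).1.add (h' i).1, (h i).2.add (h' i).2⟩, ?_⟩
        simp only [Pi.add_apply, add_mul, Finset.sum_add_distrib]
        ring
      smul_mem' := by
        rintro c _ ⟨a, a', h, rfl⟩
        refine ⟨fun i => C c * a i, fun i => C c * a' i,
          fun i => ⟨(h i).1.C_mul c, (h i).2.C_mul c⟩, ?_⟩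
        simp only [smul_eq_C_mul, mul_sub, Finset.mul_sum, mul_assoc] }
  choose b b' hb hs using surj_pL (B := k)
  let ε : MvPolynomial (IP ⊕ IP) k →+* k :=
    eval (Sum.elim (fun f => cf (pL k 0 1) (Sum.inl f)) fun f => cf (pL k 2 3) (Sum.inl f))
  have h1 : ∀ i, map ε (q1 i) = (pL k 0 1).q i := fun i => by
    rw [mkP_q _ ε (cf (pL k 0 1)) (fun f => by simp [ε]), mkPf_cf (pL_hom 0 1)]
  have h2 : ∀ i, map ε (q2 i) = (pL k 2 3).q i := fun i => by
    rw [mkP_q _ ε (cf (pL k 2 3)) (fun f => by simp [ε]), mkPf_cf (pL_hom 2 3)]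
  have h3 : ∀ z : Pol k, map ε (map C z) = z := fun z => by
    rw [map_map, show ε.comp C = RingHom.id k from RingHom.ext fun r => by simp [ε], map_id]
  have hq : ∀ x : IP → MvPolynomial (IP ⊕ IP) k, ∀ i, ((mkP x).q i).IsHomogeneous 2 :=
    fun x => q_hom fun _ _ => form_hom _
  obtain ⟨δ, hδ, hN⟩ := exists_section ε N
    (fun n => ∑ i, map C (b n i) * q1 i - ∑ i, map C (b' n i) * q2 i)
    (fun n => ⟨_, _, fun i => ⟨(hb n i).1.map _, (hb n i).2.map _⟩, rfl⟩)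
    (fun n => (IsHomogeneous.sum _ _ _ fun i _ => ((hb n i).1.map _).mul (hq _ i)).sub
      (IsHomogeneous.sum _ _ _ fun i _ => ((hb n i).2.map _).mul (hq _ i)))
    (fun n => by simp only [map_sub, map_sum, map_mul, h1, h2, h3, hs])
  choose a a' ha hs' using hN
  refine ⟨δ, a, a', fun e => ?_, ha, fun n => (hs' n).trans (smul_eq_C_mul _ _)⟩
  rw [e, map_zero] at hδ
  exact zero_ne_one hδ

theorem pf_shift (x : IV → B) (Γ : Fin 3 → Pol B) (hΓ : ∀ i, (Γ i).IsHomogeneous 4) (c : B) :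
    (mkPf fun v => x v - c * cf ⟨0, 0, Γ, 0⟩ v).pf =
      (mkPf x).pf - C c * ∑ i, Γ i * (mkPf x).q i := by
  have h1 : (mkPf fun v => x v - c * cf ⟨0, 0, Γ, 0⟩ v) =
      ⟨(mkPf x).φ, (mkPf x).ξ, fun i => (mkPf x).G i - C c * Γ i, (mkPf x).H⟩ := by
    simp only [mkPf, cf, Sum.elim_inl, Sum.elim_inr, Pi.zero_apply, coeff_zero, mul_zero, sub_zero,
      Pf.mk.injEq, true_and, and_true]
    funext i
    rw [← form_coeff (hΓ i), ← form_smul, eq_sub_iff_add_eq, ← form_add]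
    congr 1
    funext m
    simp [coeff_form]
  rw [h1]
  simp only [Pf.pf, Pf.q, Pf.u, sub_mul, Finset.sum_sub_distrib, Finset.mul_sum, mul_assoc]
  ring

theorem cf_map (Γ : Fin 3 → Pol B) (ψ : B →+* B') (v : IV) :
    ψ (cf ⟨0, 0, Γ, 0⟩ v) = cf ⟨0, 0, fun i => map ψ (Γ i), 0⟩ v := by
  rcases v with v | v | v | v <;> simp [cf, coeff_map]

theorem cf_mem (Γ : Fin 3 → Pol B) (J : Ideal B) (h : ∀ i m, coeff m (Γ i) ∈ J) (v : IV) :
    cf ⟨0, 0, Γ, 0⟩ v ∈ J := by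
  rcases v with v | v | v | v <;> simp [cf, h]

theorem gint_gU (k : Type) [Field k] [CharZero k] : GInt k (Mon 6) (MvPolynomial IV k) (gU k) := by
  obtain ⟨δ, a, a', hδ, ha, hs⟩ := exists_delta k
  let r : MvPolynomial (IP ⊕ IP) k →+* MvPolynomial (IV ⊕ IV) k :=
    (rename (Sum.map Sum.inl Sum.inl) : MvPolynomial (IP ⊕ IP) k →ₐ[k] MvPolynomial (IV ⊕ IV) k)
  let E : Mon 6 → MvPolynomial (IV ⊕ IV) k := fun m =>
    rename Sum.inl (gU k m) - rename Sum.inr (gU k m)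
  let Γ : Fin 3 → Pol (MvPolynomial (IV ⊕ IV) k) := fun i => ∑ n, C (E n) * map r (a n i)
  let Γ' : Fin 3 → Pol (MvPolynomial (IV ⊕ IV) k) := fun i => ∑ n, C (E n) * map r (a' n i)
  have hΓ : ∀ i, (Γ i).IsHomogeneous 4 := fun i =>
    IsHomogeneous.sum _ _ _ fun n _ => ((ha n i).1.map r).C_mul _
  have hΓ' : ∀ i, (Γ' i).IsHomogeneous 4 := fun i =>
    IsHomogeneous.sum _ _ _ fun n _ => ((ha n i).2.map r).C_mul _
  let p1 : Pf (MvPolynomial (IV ⊕ IV) k) := mkPf fun v => X (Sum.inl v)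
  let p2 : Pf (MvPolynomial (IV ⊕ IV) k) := mkPf fun v => X (Sum.inr v)
  have hE : form E = p1.pf - p2.pf := by
    rw [← form_coeff ((pf_hom (mkPf_hom _)).sub (pf_hom (mkPf_hom _)) :
      (p1.pf - p2.pf).IsHomogeneous 6)]
    congr 1
    funext m
    have h1 := map_gU (rename Sum.inl : MvPolynomial IV k →ₐ[k] MvPolynomial (IV ⊕ IV) k).toRingHom m
    have h2 := map_gU (rename Sum.inr : MvPolynomial IV k →ₐ[k] MvPolynomial (IV ⊕ IV) k).toRingHom m
    simp only [AlgHom.toRingHom_eq_coe, RingHom.coe_coe, rename_X] at h1 h2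
    simp only [E, h1, h2, coeff_sub]
    rfl
  have hsum : ∑ i, Γ i * p1.q i - ∑ i, Γ' i * p2.q i = C (r δ) * (p1.pf - p2.pf) := by
    have h1 : ∀ n, ∑ i, map r (a n i) * p1.q i - ∑ i, map r (a' n i) * p2.q i =
        C (r δ) * monomial n.1 1 := fun n => by
      have h2 := congrArg (map r) (hs n)
      simp only [map_sub, map_sum, map_mul, map_C, map_monomial, map_one,
        mkP_q (fun f => X (Sum.inl f)) r (fun v => X (Sum.inl v)) (fun f => by simp [r]),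
        mkP_q (fun f => X (Sum.inr f)) r (fun v => X (Sum.inr v)) (fun f => by simp [r])] at h2
      exact h2
    rw [← hE, form, Finset.mul_sum]
    simp only [Γ, Γ', Finset.sum_mul]
    rw [Finset.sum_comm, Finset.sum_comm (s := (Finset.univ : Finset (Fin 3))),
      ← Finset.sum_sub_distrib]
    refine Finset.sum_congr rfl fun n _ => ?_
    simp only [mul_assoc, ← Finset.mul_sum]
    rw [← mul_sub, h1, mul_left_comm, C_mul_monomial, mul_one]
  let Ω := FractionRing (MvPolynomial (IV ⊕ IV) k)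
  let ι0 : MvPolynomial (IV ⊕ IV) k →+* Ω := algebraMap _ _
  have hinj : Function.Injective ι0 := IsFractionRing.injective _ _
  have hr : ι0 (r δ) ≠ 0 := fun e => hδ (rename_injective _
    (Sum.map_injective.2 ⟨Sum.inl_injective, Sum.inl_injective⟩)
    ((hinj (e.trans (map_zero _).symm)).trans (map_zero _).symm))
  let σ : IV ⊕ IV → MvPolynomial (IV ⊕ IV) k := Sum.elim (cf ⟨0, 0, Γ, 0⟩) (cf ⟨0, 0, Γ', 0⟩)
  let ρ : MvPolynomial (IV ⊕ IV) k →+* Ω :=
    eval₂Hom (ι0.comp C) fun w => ι0 (X w) - (ι0 (r δ))⁻¹ * ι0 (σ w)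
  have hρ : ∀ w, ρ (X w) = ι0 (X w) - (ι0 (r δ))⁻¹ * ι0 (σ w) := fun w => eval₂Hom_X' _ _ w
  refine gint_of_retract k (Mon 6) IV IP Ω (gU k) Sum.inl (indep_gU k) δ hδ ι0 ρ hinj
    (fun c => eval₂Hom_C _ _ c) (fun m => ?_) fun w => ⟨σ w, ?_, ?_⟩
  · have h1 := map_gU (ρ.comp
      (rename Sum.inl : MvPolynomial IV k →ₐ[k] MvPolynomial (IV ⊕ IV) k).toRingHom) m
    have h2 := map_gU (ρ.comp
      (rename Sum.inr : MvPolynomial IV k →ₐ[k] MvPolynomial (IV ⊕ IV) k).toRingHom) m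
    simp only [AlgHom.toRingHom_eq_coe, RingHom.comp_apply, RingHom.coe_coe, rename_X, hρ, σ,
      Sum.elim_inl, Sum.elim_inr, cf_map] at h1 h2
    rw [h1, h2, pf_shift _ _ fun i => (hΓ i).map _, pf_shift _ _ fun i => (hΓ' i).map _,
      ← mkPf_map, ← mkPf_map]
    refine congrArg (coeff m.1) ?_
    have h3 := congrArg (map ι0) hsum
    have h4 : (C (ι0 (r δ))⁻¹ : Pol Ω) * C (ι0 (r δ)) = 1 := by
      rw [← map_mul, inv_mul_cancel₀ hr, map_one]
    simp only [map_sub, map_sum, map_mul, map_C] at h3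
    simp only [pf_map, q_map]
    linear_combination (-C (ι0 (r δ))⁻¹) * h3 - (map ι0 p1.pf - map ι0 p2.pf) * h4
  · have hJ : ∀ (b : Mon 6 → Pol (MvPolynomial (IV ⊕ IV) k)) m,
        coeff m (∑ n, C (E n) * b n) ∈ Ideal.span (Set.range E) := fun b m => by
      rw [coeff_sum]
      refine Ideal.sum_mem _ fun n _ => ?_
      rw [coeff_C_mul]
      exact Ideal.mul_mem_right _ _ (Ideal.subset_span ⟨n, rfl⟩)
    rcases w with v | v
    · exact cf_mem Γ _ (fun i m => hJ _ m) v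
    · exact cf_mem Γ' _ (fun i m => hJ _ m) v
  · show ι0 (r δ) * ρ (X w) = ι0 (r δ * X w - σ w)
    rw [hρ, map_sub, map_mul, mul_sub, mul_inv_cancel_left₀ hr]

end GIP

open GIP

theorem pfBase : S_PfBase := by
  intro F hF
  obtain ⟨k, hk, halg⟩ := GIP.exists_base _ hF.2
  obtain ⟨B, _, _, _, j, hj, -, hpt, hdom⟩ := bc_exists k (Mon 6) (MvPolynomial IV k)
    (fun m => coeff m.1 F) hk (gU k)
  obtain ⟨_, hinj⟩ := hdom inferInstance ((indep_gU k).comp Sum.inr Sum.inr_injective) halg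
    (gint_gU k)
  refine ⟨B, inferInstance, inferInstance, inferInstance, inferInstance, MvPolynomial IV k,
    inferInstance, mkPf X, j, mkPf_hom _, hinj, ?_, fun p1 h1 => ?_, fun p1 h1 h2 => ?_⟩
  · rw [pf_map, ← form_coeff (pf_hom (mkPf_hom (X : IV → MvPolynomial IV k))), bc,
      ← form_coeff hF.1, map_form, map_form]
    congr 1
    exact funext hj
  · refine ⟨(aeval (cf p1) : MvPolynomial IV k →ₐ[k] ℂ), ?_⟩
    rw [mkPf_map]
    simp only [RingHom.coe_coe, aeval_X]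
    exact mkPf_cf h1
  · obtain ⟨t, ht⟩ := hpt (aeval (cf p1)) fun m => by
      have h3 := map_gU (aeval (cf p1) : MvPolynomial IV k →ₐ[k] ℂ).toRingHom m
      simp only [AlgHom.toRingHom_eq_coe, RingHom.coe_coe, aeval_X] at h3
      rw [h3, mkPf_cf h1, h2]
    refine ⟨t, ?_⟩
    rw [mkPf_map, mkPf_map]
    simp only [RingHom.coe_coe, ht, aeval_X]
    exact mkPf_cf h1

end Pool.Agent.P.MP_2b2d3b_ag
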