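import Pool.Agent.P.MP_2b2d3b_ag.St2
import Pool.Agent.P.MP_2b2d3b_ag.Box
import Pool.Agent.P.MP_2b2d3b_ag.FinC
import Pool.Agent.P.MP_2b2d3b_ag.DimP

/-!
Package GorAdm: the data of a Gorenstein family are admissible.
-/

namespace Pool.Agent.P.MP_2b2d3b_ag

open MvPolynomial

namespace GorAdmP

variable {B : Type} [CommRing B] {B' : Type} [CommRing B']

theorem mem3 {R : Type} [CommRing R] {a u v w : R} :
    a ∈ Ideal.span {u, v, w} ↔ ∃ x y z : R, x * u + y * v + z * w = a :=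
  Submodule.mem_span_triple

theorem evsm (w : B) (p : Fin 4 → B) {a : Pol B} {d : ℕ} (ha : a.IsHomogeneous d) :
    eval (w • p) a = w ^ d * eval p a := by
  rw [← form_coeff ha, form, map_sum, map_sum, Finset.mul_sum]
  refine Finset.sum_congr rfl fun m _ => ?_
  have hm : ∑ i, m.1 i = d := (Finsupp.degree_eq_sum _).symm.trans m.2
  rw [eval_monomial, eval_monomial, Finsupp.prod_fintype _ _ (by simp),
    Finsupp.prod_fintype _ _ (by simp)]
  simp only [Pi.smul_apply, smul_eq_mul, mul_pow, Finset.prod_mul_distrib,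
    Finset.prod_pow_eq_pow_sum, hm]
  ring

theorem g1_hom (x : Box B) : x.g1.IsHomogeneous (x.n1 + 1) :=
  hm_hom (isHomogeneous_X _ _) (wc_hom _) _ _

theorem g2_hom (x : Box B) : x.g2.IsHomogeneous (x.n2 + 1) :=
  hm_hom (isHomogeneous_X _ _) (wc_hom _) _ _

theorem map_g1 (φ : B →+* B') (x : Box B) : (x.map φ).g1 = map φ x.g1 := by
  rw [Box.g1, Box.g1, map_hm, map_wc, map_X]
  rfl

theorem map_g2 (φ : B →+* B') (x : Box B) : (x.map φ).g2 = map φ x.g2 := by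
  rw [Box.g2, Box.g2, map_hm, map_wc, map_X]
  rfl

theorem ok_map [Nontrivial B'] (φ : B →+* B') {x : Box B} (h : x.Ok) : (x.map φ).Ok where
  hF := h.hF.map φ
  hu := by
    have := congrArg φ h.hu
    rw [map_mul, map_one] at this
    have e : (eval ![1, 0, 0, -(x.c : B') ^ 3]).comp (map φ) =
        φ.comp (eval ![1, 0, 0, -(x.c : B) ^ 3]) :=
      ringHom_ext (fun r => by simp) fun i => by fin_cases i <;> simp
    exact (congrArg (φ x.u * ·) (RingHom.congr_fun e x.F)).trans this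
  m1 := h.m1.map φ
  d1 := (h.m1.natDegree_map φ).trans h.d1
  m2 := h.m2.map φ
  d2 := (h.m2.natDegree_map φ).trans h.d2

theorem w_rad {Λ : Pol B →ₗ[B] B} {w : Pol B} (hw : ∀ a, Λ (w * a) = Λ a) : w - 1 ∈ rad Λ :=
  fun b => by rw [sub_mul, one_mul, map_sub, hw, sub_self]

theorem pow_sub_one (w : Pol B) (k : ℕ) : w ^ k - 1 ∈ Ideal.span {w - 1} :=
  Ideal.mem_span_singleton.2 (sub_one_dvd_pow_sub_one w k)

/-- homogenisation modulo `w - 1` -/
theorem exists_homog {w : Pol B} (hw : w.IsHomogeneous 1) (a : Pol B) {N : ℕ}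
    (hN : a.totalDegree ≤ N) : ∃ a' : Pol B, a'.IsHomogeneous N ∧ a' - a ∈ Ideal.span {w - 1} := by
  refine ⟨∑ i ∈ Finset.range (N + 1), w ^ (N - i) * homogeneousComponent i a, ?_, ?_⟩
  · refine IsHomogeneous.sum _ _ _ fun i hi => ?_
    have := (hw.pow (N - i)).mul (homogeneousComponent_isHomogeneous i a)
    have hi' := Finset.mem_range.1 hi
    rwa [show 1 * (N - i) + i = N by omega] at this
  · have e := sum_comp a (Nat.lt_succ_of_le hN)
    rw [← sub_add_cancel (∑ i ∈ _, _ * _) a, add_sub_cancel_right]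
    nth_rw 2 [← e]
    rw [← Finset.sum_sub_distrib]
    refine Ideal.sum_mem _ fun i _ => ?_
    rw [← sub_one_mul]
    exact Ideal.mul_mem_right _ _ (pow_sub_one w _)

/-- the forms `b i` are independent modulo the radical -/
theorem indep {c D : ℕ} {ι : Type} [Fintype ι] [DecidableEq ι] {Λ : Pol B →ₗ[B] B}
    {b : ι → Pol B} (h : Gor c D Λ b) {r : ι → B} (hr : ∑ i, C (r i) * b i ∈ rad Λ) : r = 0 := by
  have h1 : Matrix.vecMul r (Matrix.of fun i j => Λ (b i * b j)) = 0 := by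
    funext j
    have := hr (b j)
    rw [Finset.sum_mul, map_sum] at this
    rw [Pi.zero_apply, ← this, Matrix.vecMul, dotProduct]
    refine Finset.sum_congr rfl fun i _ => ?_
    rw [mul_assoc, ← smul_eq_C_mul, map_smul, smul_eq_mul, Matrix.of_apply]
  have h2 := congrArg (fun v => Matrix.vecMul v (Matrix.of fun i j => Λ (b i * b j))⁻¹) h1
  simpa [Matrix.vecMul_vecMul, Matrix.mul_nonsing_inv _ h.gram] using h2

/-- forms in the radical of a fibre lift to forms in the radical -/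
theorem lift_rad {c D : ℕ} {ι : Type} [Fintype ι] [DecidableEq ι] {Λ : Pol B →ₗ[B] B}
    {b : ι → Pol B} (h : Gor c D Λ b) (φ : B →+* B') {a : Pol B} {N : ℕ} (hN : D ≤ N)
    (ha : a.IsHomogeneous N) (hr : map φ a ∈ rad (bcL φ Λ)) :
    ∃ a' : Pol B, a'.IsHomogeneous N ∧ a' ∈ rad Λ ∧ map φ a' = map φ a := by
  obtain ⟨r, hr'⟩ := h.span a
  have h0 : (fun i => φ (r i)) = 0 := by
    refine indep (h.map φ) ?_
    have := Ideal.sub_mem _ hr (map_mem_rad φ hr')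
    simpa using this
  have hw : wc B c ^ (N - D) - 1 ∈ rad Λ :=
    (Ideal.span_singleton_le_iff_mem _).2 (w_rad h.hw) (pow_sub_one _ _)
  refine ⟨a - wc B c ^ (N - D) * ∑ i, C (r i) * b i, ha.sub ?_, ?_, ?_⟩
  · have := ((wc_hom (B := B) c).pow (N - D)).mul (IsHomogeneous.sum Finset.univ
      (fun i => C (r i) * b i) D fun i _ => by simpa using (isHomogeneous_C _ (r i)).mul (h.hb i))
    rwa [show 1 * (N - D) + D = N by omega] at this
  · have := Ideal.sub_mem _ hr' (Ideal.mul_mem_right (∑ i, C (r i) * b i) _ hw)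
    convert this using 1
    ring
  · have h1 : ∀ i, φ (r i) = 0 := fun i => congrFun h0 i
    simp [h1]

theorem mu_kill {x : Box B} (hx : x.Ok) {a : Pol B}
    (ha : a ∈ Ideal.span {x.F, x.g1, x.g2}) : x.mu a = 0 := by
  obtain ⟨u, v, w, rfl⟩ := mem3.1 ha
  have h3 := (box B x hx).2.2.1
  rw [map_add, map_add, mul_comm u, mul_comm v, mul_comm w, (h3 u).1, (h3 v).2.1, (h3 w).2.2.1]
  simp

/-- homogeneous elements of the radical have homogeneous partners -/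
theorem partner {x : Box B} (hx : x.Ok) {G : Pol B} (hG : G.IsHomogeneous (x.n1 + x.n2 + 1))
    {Λ : Pol B →ₗ[B] B} (hΛ : ∀ a, Λ a = x.mu (G * a)) {b : Pol B} {N : ℕ}
    (hb : b.IsHomogeneous N) (hr : b ∈ rad Λ) :
    ∃ a : Pol B, a.IsHomogeneous (N + x.n1) ∧ a * x.g2 + b * G ∈ Ideal.span {x.F, x.g1} := by
  have h1 := (box B x hx).2.2.2.2.1 (b * G) _ (hb.mul hG) fun e => by
    rw [mul_comm b, mul_assoc, ← hΛ]
    exact hr e
  obtain ⟨u, v, w, e⟩ := mem3.1 h1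
  have h2 : -w * x.g2 + b * G ∈ Ideal.span {x.F, x.g1} :=
    Ideal.mem_span_pair.2 ⟨u, v, by linear_combination e⟩
  have h3 := comp_mem_two hx.hF (g1_hom x) h2 (N + x.n1 + (x.n2 + 1))
  rw [map_add, comp_mul (g2_hom x), homogeneousComponent_eq_self
    (show (b * G).IsHomogeneous (N + x.n1 + (x.n2 + 1)) by
      have := hb.mul hG
      rwa [show N + (x.n1 + x.n2 + 1) = N + x.n1 + (x.n2 + 1) by omega] at this)] at h3
  exact ⟨_, homogeneousComponent_isHomogeneous _ _, h3⟩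

/-- the determinant of two homogeneous pairs -/
theorem det_pair {x : Box B} (hx : x.Ok) {G a1 b1 a2 b2 : Pol B} {N : ℕ}
    (ha1 : a1.IsHomogeneous (N + 1 + x.n1)) (hb1 : b1.IsHomogeneous (N + 1))
    (ha2 : a2.IsHomogeneous (N + 1 + x.n1)) (hb2 : b2.IsHomogeneous (N + 1))
    (h1 : a1 * x.g2 + b1 * G ∈ Ideal.span {x.F, x.g1})
    (h2 : a2 * x.g2 + b2 * G ∈ Ideal.span {x.F, x.g1}) :
    ∃ c : Pol B, c.IsHomogeneous (2 * N + 1) ∧
      a1 * b2 - a2 * b1 - c * x.g1 ∈ Ideal.span {x.F} := by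
  have h3 : a1 * b2 - a2 * b1 ∈ Ideal.span {x.F, x.g1} := by
    refine (box B x hx).2.1 _ ?_
    have := Ideal.sub_mem _ (Ideal.mul_mem_right b2 _ h1) (Ideal.mul_mem_right b1 _ h2)
    convert this using 1
    ring
  obtain ⟨u, v, e⟩ := Ideal.mem_span_pair.1 h3
  have h4 : a1 * b2 - a2 * b1 - v * x.g1 ∈ Ideal.span {x.F} :=
    Ideal.mem_span_singleton'.2 ⟨u, by linear_combination e⟩
  have h5 := comp_mem_one hx.hF h4 (2 * N + 1 + (x.n1 + 1))
  have hd : (a1 * b2 - a2 * b1).IsHomogeneous (2 * N + 1 + (x.n1 + 1)) := by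
    have := (ha1.mul hb2).sub (ha2.mul hb1)
    rwa [show N + 1 + x.n1 + (N + 1) = 2 * N + 1 + (x.n1 + 1) by omega] at this
  rw [map_sub, comp_mul (g1_hom x), homogeneousComponent_eq_self hd] at h5
  exact ⟨_, homogeneousComponent_isHomogeneous _ _, h5⟩

/-- the box has no point at infinity -/
theorem w_ne {x : Box ℂ} (hx : x.Ok) {p : Fin 4 → ℂ} (hp : p ≠ 0) (hF : eval p x.F = 0)
    (h1 : eval p x.g1 = 0) (h2 : eval p x.g2 = 0) : eval p (wc ℂ x.c) ≠ 0 := by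
  intro hw
  have key : ∀ (i : Fin 4) (a : Polynomial ℂ) (n : ℕ), a.Monic → a.natDegree = n + 1 →
      eval p (hm (X i) (wc ℂ x.c) a (n + 1)) = 0 → p i = 0 := by
    intro i a n hm' hd h0
    obtain ⟨z, hz⟩ := Ideal.mem_span_singleton'.1 (hm_sub_pow (X i) (wc ℂ x.c) hm' hd)
    have := congrArg (eval p) hz
    rw [map_mul, hw, mul_zero, map_sub, h0, map_pow, eval_X, zero_sub, eq_comm, neg_eq_zero] at this
    exact pow_eq_zero_iff (Nat.succ_ne_zero n) |>.1 this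
  have e2 := key 2 _ _ hx.m1 hx.d1 h1
  have e1 := key 1 _ _ hx.m2 hx.d2 h2
  rw [eval_wc, e1, e2] at hw
  have e : p = p 0 • ![1, 0, 0, -(x.c : ℂ) ^ 3] := by
    funext i
    fin_cases i
    · simp
    · simpa using e1
    · simpa using e2
    · simp only [Fin.reduceFinMk, Pi.smul_apply, smul_eq_mul]
      simp only [Matrix.cons_val]
      linear_combination hw
  rw [e, evsm _ _ hx.hF] at hF
  have h3 : eval ![1, 0, 0, -(x.c : ℂ) ^ 3] x.F ≠ 0 := right_ne_zero_of_mul_eq_one hx.hu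
  have h4 : p 0 = 0 := pow_eq_zero_iff (by norm_num) |>.1 ((mul_eq_zero.1 hF).resolve_right h3)
  exact hp (by rw [e, h4, zero_smul])

/-- the homogeneous elements `c` that occur in the local freeness condition -/
def Occ (x : Box B) (G c : Pol B) : Prop :=
  (∃ d, c.IsHomogeneous d) ∧ ∃ a1 b1 a2 b2 : Pol B,
    a1 * x.g2 + b1 * G ∈ Ideal.span {x.F, x.g1} ∧ a2 * x.g2 + b2 * G ∈ Ideal.span {x.F, x.g1} ∧
      a1 * b2 - a2 * b1 - c * x.g1 ∈ Ideal.span {x.F}

theorem occ_of_pair {x : Box B} {G a b : Pol B} {d : ℕ} (hb : b.IsHomogeneous d)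
    (h : a * x.g2 + b * G ∈ Ideal.span {x.F, x.g1}) : Occ x G b :=
  ⟨⟨d, hb⟩, x.g1, 0, a, b, Ideal.mem_span_pair.2 ⟨0, x.g2, by ring⟩, h,
    Ideal.mem_span_singleton'.2 ⟨0, by ring⟩⟩

theorem occ_g1 (x : Box B) (G : Pol B) : Occ x G x.g1 :=
  occ_of_pair (a := 0) (g1_hom x) (Ideal.mem_span_pair.2 ⟨0, G, by ring⟩)

theorem occ_g2 (x : Box B) (G : Pol B) : Occ x G x.g2 :=
  occ_of_pair (a := -G) (g2_hom x) (Ideal.mem_span_pair.2 ⟨0, 0, by ring⟩)

/-- at a point of the affine chart some `c` does not vanish -/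
theorem affine_pt [Algebra ℂ B] {D : ℕ} {Λ : Pol B →ₗ[B] B} {b : Fin 11 → Pol B} {x : Box B}
    {G : Pol B} (hx : x.Ok) (hg : Gor x.c D Λ b) (hG : G.IsHomogeneous (x.n1 + x.n2 + 1))
    (hΛ : ∀ a, Λ a = x.mu (G * a)) (t : B →ₐ[ℂ] ℂ) (p : Fin 4 → ℂ)
    (hw : eval p (wc ℂ x.c) = 1) (hF : eval p (map (t : B →+* ℂ) x.F) = 0)
    (hs : ∃ i, eval p (pderiv i (map (t : B →+* ℂ) x.F)) ≠ 0)
    (h0 : ∀ c, Occ x G c → eval p (map (t : B →+* ℂ) c) = 0) : False := by
  set φ : B →+* ℂ := (t : B →+* ℂ) with hφ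
  have hx' := ok_map φ hx
  obtain ⟨a1, b1, a2, b2, c, h1, h2, h3, h4⟩ :=
    locFree boxAff (x.map φ) (map φ G) p hx' hw hF hs
  have hΛ' : bcL φ Λ = (x.map φ).mu.comp (LinearMap.mulLeft ℂ (map φ G)) :=
    bcL_eq φ fun a => by
      rw [LinearMap.comp_apply, LinearMap.mulLeft_apply, ← map_mul, boxA7 x hx, hΛ]
  have hA := boxAff ℂ (x.map φ) hx'
  have hc : (x.map φ).c = x.c := rfl
  have hFm : (x.map φ).F = map φ x.F := rfl
  rw [hc, hFm, map_g1, map_g2] at h1 h2 hA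
  rw [hc, hFm, map_g1] at h3
  -- lifting of one pair
  have lift : ∀ (a' b' : Pol ℂ) (N : ℕ), D ≤ N → b'.totalDegree ≤ N →
      map φ G * b' - map φ x.g2 * a' ∈ Ideal.span {map φ x.F, map φ x.g1, wc ℂ x.c - 1} →
      ∃ a'' b'' : Pol B, a''.IsHomogeneous (N + x.n1) ∧ b''.IsHomogeneous N ∧
        a'' * x.g2 + b'' * G ∈ Ideal.span {x.F, x.g1} ∧
        map φ b'' - b' ∈ Ideal.span {wc ℂ x.c - 1} ∧
        map φ a'' + a' ∈ Ideal.span {map φ x.F, map φ x.g1, wc ℂ x.c - 1} := by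
    intro a' b' N hD hN h
    obtain ⟨bh, hbh, hbh'⟩ := exists_homog (wc_hom x.c) b' hN
    have hwr : wc ℂ x.c - 1 ∈ rad (bcL φ Λ) := w_rad (hg.map φ).hw
    have e0 : map φ (bc bh B) = bh := by rw [hφ, map_bc, bc_self]
    have hb' : b' ∈ rad (bcL φ Λ) := by
      intro e
      obtain ⟨u, v, z, huv⟩ := mem3.1 h
      have e1 : map φ G * (b' * e) = (u * e * map φ x.F + v * e * map φ x.g1 +
          a' * e * map φ x.g2) + (wc ℂ x.c * (z * e) - z * e) := by
        linear_combination (-e) * huv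
      rw [hΛ', LinearMap.comp_apply, LinearMap.mulLeft_apply, e1, map_add, map_sub,
        mu_kill hx' (mem3.2 ⟨u * e, v * e, a' * e, by rw [hFm, map_g1, map_g2]⟩)]
      have := ((box ℂ _ hx').2.2.1 (z * e)).2.2.2
      rw [hc] at this
      rw [this, sub_self, add_zero]
    have hbr : map φ (bc bh B) ∈ rad (bcL φ Λ) := by
      rw [e0]
      have := Ideal.add_mem _ ((Ideal.span_singleton_le_iff_mem _).2 hwr hbh') hb'
      rwa [sub_add_cancel] at this
    obtain ⟨b'', hb1, hb2, hb3⟩ := lift_rad hg φ hD (hbh.map _) hbr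
    obtain ⟨a'', ha1, ha2⟩ := partner hx hG hΛ hb1 hb2
    rw [e0] at hb3
    refine ⟨a'', b'', ha1, hb1, ha2, hb3 ▸ hbh', hA.2.1 _ ?_⟩
    obtain ⟨u, v, z, huv⟩ := mem3.1 h
    obtain ⟨u', v', huv'⟩ := Ideal.mem_span_pair.1 ha2
    obtain ⟨z', hz'⟩ := Ideal.mem_span_singleton'.1 hbh'
    have e2 := congrArg (map φ) huv'
    simp only [map_add, map_mul, hb3] at e2
    exact mem3.2 ⟨map φ u' - u, map φ v' - v, -z - z' * map φ G, by
      linear_combination e2 - huv - map φ G * hz'⟩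
  obtain ⟨N, hN⟩ : ∃ N, D + b1.totalDegree + b2.totalDegree ≤ N := ⟨_, le_rfl⟩
  obtain ⟨A1, B1, hA1, hB1, r1, s1, t1⟩ := lift a1 b1 (N + 1) (by omega) (by omega) h1
  obtain ⟨A2, B2, hA2, hB2, r2, s2, t2⟩ := lift a2 b2 (N + 1) (by omega) (by omega) h2
  obtain ⟨c', hc1, hc2⟩ := det_pair hx hA1 hB1 hA2 hB2 r1 r2
  have v0 := h0 c' ⟨⟨_, hc1⟩, A1, B1, A2, B2, r1, r2, hc2⟩
  have v1 := h0 B1 (occ_of_pair hB1 r1)
  have v2 := h0 B2 (occ_of_pair hB2 r2)
  obtain ⟨z1, hz1⟩ := Ideal.mem_span_singleton'.1 s1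
  obtain ⟨z2, hz2⟩ := Ideal.mem_span_singleton'.1 s2
  obtain ⟨u1, y1, w1, e1⟩ := mem3.1 t1
  obtain ⟨u2, y2, w2, e2⟩ := mem3.1 t2
  obtain ⟨u3, w3, e3⟩ := Ideal.mem_span_pair.1 h3
  obtain ⟨u4, e4⟩ := Ideal.mem_span_singleton'.1 hc2
  have e5 := congrArg (map φ) e4
  simp only [map_sub, map_mul] at e5
  have h5 : map φ c' + c - y1 * map φ B2 + y2 * map φ B1 ∈
      Ideal.span {map φ x.F, wc ℂ x.c - 1} := by
    refine hA.1 _ (Ideal.mem_span_pair.2 ⟨u1 * map φ B2 - u2 * map φ B1 - u3 - map φ u4,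
      w1 * map φ B2 - w2 * map φ B1 - w3 - a1 * z2 + a2 * z1, ?_⟩)
    linear_combination map φ B2 * e1 - map φ B1 * e2 - e3 - e5 - a1 * hz2 + a2 * hz1
  obtain ⟨u6, w6, e6⟩ := Ideal.mem_span_pair.1 h5
  have e7 := congrArg (eval p) e6
  simp only [map_add, map_sub, map_mul, hF, hw, v0, v1, v2, map_one] at e7
  exact h4 (by linear_combination -e7)

end GorAdmP

open GorAdmP in
theorem gorAdm : S_GorAdm := by
  intro F hF B _ _ _ D Λ b x G hx hxF hg hG hΛ
  have hb := box B x hx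
  refine ⟨g1_hom x, g2_hom x, hG, hxF ▸ hb.1, hxF ▸ hb.2.1, fun β hβ => ?_, fun q hq hFq hi => ?_⟩
  · rw [← hxF] at hβ
    have h1 : (fun i : Fin 11 => if i = 0 then β else 0) = 0 := by
      refine indep hg fun e => ?_
      rw [Finset.sum_eq_single 0 (fun i _ hi => by simp [hi]) (by simp), if_pos rfl, hΛ]
      refine mu_kill hx ?_
      have := Ideal.mul_mem_right (b 0 * e) _ hβ
      convert this using 1
      ring
    simpa using congrFun h1 0
  · rw [← hxF] at hFq ⊢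
    by_contra hcon
    obtain ⟨i, hi⟩ := hi
    have hle : Ideal.span (insert x.F {c | Occ x G c}) ≤ q := by
      rw [Ideal.span_le]
      rintro c (rfl | ⟨-, a1, b1, a2, b2, h1, h2, h3⟩)
      · exact hFq
      · by_contra hc
        exact hcon ⟨a1, b1, a2, b2, c, h1, h2, hc, h3⟩
    have hrad : X i ∉ (Ideal.span (insert x.F {c | Occ x G c})).radical := fun h =>
      hi (hq.radical_le_iff.2 hle h)
    obtain ⟨τ, hτ, hτi⟩ := nS (Pol B) _ _ hrad
    let t : B →ₐ[ℂ] ℂ := τ.comp (IsScalarTower.toAlgHom ℂ B (Pol B))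
    let p : Fin 4 → ℂ := fun j => τ (X j)
    have hev : ∀ a, eval p (map (t : B →+* ℂ) a) = τ a := fun a => by
      have : (eval p).comp (map (t : B →+* ℂ)) = (τ : Pol B →+* ℂ) :=
        ringHom_ext (fun r => by simp [t]) fun j => by simp [p]
      exact RingHom.congr_fun this a
    have hp : p ≠ 0 := fun h => hτi (congrFun h i)
    have hpF : eval p (map (t : B →+* ℂ) x.F) = 0 := by
      rw [hev]
      exact hτ _ (Ideal.subset_span (Set.mem_insert _ _))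
    have hpc : ∀ c, Occ x G c → eval p (map (t : B →+* ℂ) c) = 0 := fun c hc => by
      rw [hev]
      exact hτ _ (Ideal.subset_span (Set.mem_insert_of_mem _ hc))
    have hw : eval p (wc ℂ x.c) ≠ 0 :=
      w_ne (ok_map (t : B →+* ℂ) hx) hp hpF (by rw [map_g1]; exact hpc _ (occ_g1 x G))
        (by rw [map_g2]; exact hpc _ (occ_g2 x G))
    have hmF : map (t : B →+* ℂ) x.F = F := by rw [hxF, map_bc, bc_self]
    have hpF' : eval ((eval p (wc ℂ x.c))⁻¹ • p) (map (t : B →+* ℂ) x.F) = 0 := by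
      rw [evsm _ _ (hx.hF.map _), hpF, mul_zero]
    refine affine_pt hx hg hG hΛ t ((eval p (wc ℂ x.c))⁻¹ • p) ?_ hpF' ?_ fun c hc => ?_
    · rw [evsm _ _ (wc_hom _), pow_one, inv_mul_cancel₀ hw]
    · rw [hmF] at hpF' ⊢
      exact hF.good.smooth _ (smul_ne_zero (inv_ne_zero hw) hp) hpF'
    · obtain ⟨d, hd⟩ := hc.1
      rw [evsm _ _ (hd.map _), hpc c hc, mul_zero]

end Pool.Agent.P.MP_2b2d3b_ag
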