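import Pool.Agent.P.MP_2b2d3b_ag.St2

/-!
Package Gram: bundles given by a skew matrix of rank two, and existence of pull backs.
-/

namespace Pool.Agent.P.MP_2b2d3b_ag

open MvPolynomial

namespace GramP

variable {F : Pol ℂ} {B : Type} [CommRing B] [Algebra ℂ B] {B' : Type} [CommRing B'] [Algebra ℂ B']

theorem dec_add {M : Type} [AddCommGroup M] (p : ℕ → AddSubgroup M) {x y : M}
    (hx : ∃ (N : ℕ) (c : ℕ → M), (∀ d, c d ∈ p d) ∧ x = ∑ d ∈ Finset.range N, c d)
    (hy : ∃ (N : ℕ) (c : ℕ → M), (∀ d, c d ∈ p d) ∧ y = ∑ d ∈ Finset.range N, c d) :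
    ∃ (N : ℕ) (c : ℕ → M), (∀ d, c d ∈ p d) ∧ x + y = ∑ d ∈ Finset.range N, c d := by
  have key : ∀ (N n : ℕ) (c : ℕ → M), N ≤ n →
      ∑ d ∈ Finset.range n, (if d < N then c d else 0) = ∑ d ∈ Finset.range N, c d := by
    intro N n c hn
    rw [← Finset.sum_subset (Finset.range_subset_range.mpr hn) fun i _ hi =>
      if_neg (by simpa using hi)]
    exact Finset.sum_congr rfl fun i hi => if_pos (Finset.mem_range.mp hi)
  obtain ⟨N, c, hc, rfl⟩ := hx
  obtain ⟨N', c', hc', rfl⟩ := hy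
  refine ⟨N + N', fun d => (if d < N then c d else 0) + if d < N' then c' d else 0,
    fun d => add_mem ?_ ?_, ?_⟩
  · split_ifs
    exacts [hc d, zero_mem _]
  · split_ifs
    exacts [hc' d, zero_mem _]
  · rw [Finset.sum_add_distrib, key _ _ _ (by omega), key _ _ _ (by omega)]

theorem dec_hom {M : Type} [AddCommGroup M] (p : ℕ → AddSubgroup M) {x : M} {e : ℕ}
    (hx : x ∈ p e) : ∃ (N : ℕ) (c : ℕ → M), (∀ d, c d ∈ p d) ∧ x = ∑ d ∈ Finset.range N, c d := by
  refine ⟨e + 1, fun d => if d = e then x else 0, fun d => ?_, ?_⟩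
  · dsimp only
    split_ifs with h
    exacts [h ▸ hx, zero_mem _]
  · rw [Finset.sum_ite_eq', if_pos (Finset.mem_range.mpr e.lt_succ_self)]

theorem dec_sum {M : Type} [AddCommGroup M] (p : ℕ → AddSubgroup M) {ι : Type} (s : Finset ι)
    (f : ι → M) (hf : ∀ i ∈ s,
      ∃ (N : ℕ) (c : ℕ → M), (∀ d, c d ∈ p d) ∧ f i = ∑ d ∈ Finset.range N, c d) :
    ∃ (N : ℕ) (c : ℕ → M), (∀ d, c d ∈ p d) ∧ ∑ i ∈ s, f i = ∑ d ∈ Finset.range N, c d :=
  Finset.sum_induction f
    (fun x => ∃ (N : ℕ) (c : ℕ → M), (∀ d, c d ∈ p d) ∧ x = ∑ d ∈ Finset.range N, c d)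
    (fun _ _ => dec_add p) (dec_hom p (e := 0) (zero_mem _)) hf

theorem nd_gens {M : Type} [AddCommGroup M] [Module (Pol B) M] {ι : Type} {m : ι → M}
    {ω : M →ₗ[Pol B] M →ₗ[Pol B] Rq F B} (hs : Submodule.span (Pol B) (Set.range m) = ⊤)
    (nd : ∀ u, (∀ v, ω u v = 0) → u = 0) {u : M} (h : ∀ l, ω u (m l) = 0) : u = 0 :=
  nd u fun v => LinearMap.congr_fun (LinearMap.ext_on_range (g := 0) hs h) v

theorem exists_mod {ι : Type} [Fintype ι] {a : ι → ℕ} {Ω : Matrix ι ι (Pol B)} (h : GD F a Ω) :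
    ∃ (M : Type) (_ : AddCommGroup M) (_ : Module (Pol B) M)
      (ω : M →ₗ[Pol B] M →ₗ[Pol B] Rq F B) (m : ι → M),
      Submodule.span (Pol B) (Set.range m) = ⊤ ∧ (∀ i j, ω (m i) (m j) = mq F B (Ω i j)) ∧
        ∀ u, (∀ v, ω u v = 0) → u = 0 := by
  classical
  let b := Pi.basisFun (Pol B) ι
  let β : (ι → Pol B) →ₗ[Pol B] (ι → Pol B) →ₗ[Pol B] Rq F B :=
    b.constr (Pol B) fun i => b.constr (Pol B) fun j => mq F B (Ω i j)
  have hβ : ∀ i j, β (b i) (b j) = mq F B (Ω i j) := fun i j => by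
    simp only [β, Module.Basis.constr_basis]
  have sk : β.flip = -β := b.ext fun i => b.ext fun j => by
    rw [LinearMap.flip_apply, LinearMap.neg_apply, LinearMap.neg_apply, hβ, hβ,
      eq_neg_iff_add_eq_zero, ← map_add, mq_zero]
    exact h.skew j i
  refine ⟨(ι → Pol B) ⧸ LinearMap.ker β, inferInstance, inferInstance,
    β.liftQ₂ _ _ le_rfl (by rw [sk, LinearMap.ker_neg]), fun i => (LinearMap.ker β).mkQ (b i),
    ?_, hβ, fun u hu => ?_⟩
  · rw [show (fun i => (LinearMap.ker β).mkQ (b i)) = (LinearMap.ker β).mkQ ∘ b from rfl,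
      Set.range_comp, Submodule.span_image, b.span_eq, Submodule.map_top, Submodule.range_mkQ]
  · obtain ⟨v, rfl⟩ := Submodule.Quotient.mk_surjective _ u
    exact (Submodule.Quotient.mk_eq_zero _).mpr
      (LinearMap.ext fun w => hu (Submodule.Quotient.mk w))

theorem map_gd {ι : Type} {a : ι → ℕ} {Ω : Matrix ι ι (Pol B)} (h : GD F a Ω) (φ : B →ₐ[ℂ] B') :
    GD F a (Ω.map (map (φ : B →+* B'))) := by
  have key : ∀ x ∈ Ideal.span {bc F B}, map (φ : B →+* B') x ∈ Ideal.span {bc F B'} :=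
    fun x hx => by rw [← mq_zero, ← mapR_mq, mq_zero.mpr hx, map_zero]
  refine ⟨fun i j => (h.hom i j).map _, fun i j => ?_, fun i => key _ (h.diag i),
    fun i j k l => ?_, fun q hq hF hi => ?_⟩
  · simpa using key _ (h.skew i j)
  · simpa using key _ (h.pl i j k l)
  · exact h.unit (q.comap (map (φ : B →+* B'))) (Ideal.comap_isPrime _ _)
      (by rwa [Ideal.mem_comap, map_bc]) (comap_X hi)

end GramP

open GramP

theorem gram : S_Gram := by
  intro F hR B _ _ ι _ a Ω h
  obtain ⟨M, _, _, ω, m, hs, hv, nd⟩ := exists_mod h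
  have sk0 : ∀ i j, mq F B (Ω j i) = -mq F B (Ω i j) := fun i j => by
    rw [eq_neg_iff_add_eq_zero, ← map_add, mq_zero]
    exact h.skew j i
  have dg : ∀ i, mq F B (Ω i i) = 0 := fun i => mq_zero.mpr (h.diag i)
  have sk : ω.flip = -ω := LinearMap.ext_on_range hs fun i => LinearMap.ext_on_range hs fun j => by
    rw [LinearMap.flip_apply, LinearMap.neg_apply, LinearMap.neg_apply, hv, hv, sk0]
  have top : ∀ u, u ∈ Submodule.span (Pol B) (Set.range m) := fun u => hs ▸ Submodule.mem_top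
  have alt : ∀ u, ω u u = 0 := fun u => by
    refine Submodule.span_induction (p := fun u _ => ω u u = 0) ?_ (by simp) ?_ ?_ (top u)
    · rintro _ ⟨i, rfl⟩
      rw [hv, dg]
    · intro x y _ _ hx hy
      have : ω y x = -ω x y := LinearMap.congr_fun (LinearMap.congr_fun sk x) y
      simp [hx, hy, this]
    · intro c x _ hx
      simp [hx]
  let p : ℕ → AddSubgroup M := fun d =>
    ⨅ l, (HomR F B (d + a l + 1)).comap (ω.flip (m l)).toAddMonoidHom
  have hp : ∀ d u, u ∈ p d ↔ ∀ l, ω u (m l) ∈ HomR F B (d + a l + 1) := fun d u =>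
    AddSubgroup.mem_iInf
  have hm : ∀ i, m i ∈ p (a i) := fun i => (hp _ _).mpr fun l => hv i l ▸ mq_mem (h.hom i l)
  have hsm : ∀ (n d : ℕ) (c : Pol B) (u : M), c.IsHomogeneous n → u ∈ p d → c • u ∈ p (d + n) :=
    fun n d c u hc hu => (hp _ _).mpr fun l => by
      rw [map_smul, LinearMap.smul_apply, smul_mq,
        show d + n + a l + 1 = n + (d + a l + 1) by omega]
      exact HomR.mul (mq_mem hc) ((hp _ _).mp hu l)
  let G : Grading B M :=
    { piece := p
      span := fun u => by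
        obtain ⟨c, rfl⟩ := (Submodule.mem_span_range_iff_exists_fun _).mp (top u)
        refine dec_sum p _ _ fun i _ => ?_
        rw [← sum_homogeneousComponent (c i), Finset.sum_smul]
        exact dec_sum p _ _ fun n _ =>
          dec_hom p (hsm n _ _ _ (homogeneousComponent_isHomogeneous n _) (hm i))
      indep := fun N c hc e d hd => nd_gens hs nd fun l => by
        have h1 := congrArg (fun u => (grR hR.hom B).cp (d + a l + 1) (ω u (m l))) e
        simp only [map_sum, LinearMap.sum_apply, map_zero, LinearMap.zero_apply] at h1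
        rw [Finset.sum_eq_single d (fun e _ he => Grading.cp_ne (G := grR hR.hom B)
          ((hp _ _).mp (hc e) l) (by omega)) fun h => absurd (Finset.mem_range.mpr hd) h,
          Grading.cp_self (G := grR hR.hom B) ((hp _ _).mp (hc d) l)] at h1
        exact h1
      smul_mem := hsm }
  have hom : ∀ (d e : ℕ), ∀ u ∈ G.piece d, ∀ v ∈ G.piece e, ω u v ∈ HomR F B (d + e + 1) := by
    intro d e u hu v hv'
    let K := G.sub (fun e => (HomR F B (d + e + 1)).comap (ω u).toAddMonoidHom)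
      fun n e c hc v _ h => by
        change ω u (c • v) ∈ HomR F B (d + (e + n) + 1)
        rw [map_smul, smul_mq, show d + (e + n) + 1 = n + (d + e + 1) by omega]
        exact HomR.mul (mq_mem hc) h
    have h1 : Submodule.span (Pol B) (Set.range m) ≤ K := Submodule.span_le.mpr <| by
      rintro _ ⟨i, rfl⟩
      exact (G.mem_sub_of_mem (hm i)).mpr ((hp _ _).mp hu i)
    exact (G.mem_sub_of_mem hv').mp (h1 (top v))
  have kill : ∀ u : M, bc F B • u = 0 := fun u => nd _ fun v => by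
    rw [map_smul, LinearMap.smul_apply, smul_mq, mq_F, zero_mul]
  have unit : ∀ q : Ideal (Pol B), q.IsPrime → bc F B ∈ q → (∃ i, X i ∉ q) →
      ∃ (u v : M) (b : Pol B), b ∉ q ∧ ω u v = mq F B b := fun q hq hF hi => by
    obtain ⟨i, j, hij⟩ := h.unit q hq hF hi
    exact ⟨m i, m j, _, hij, hv i j⟩
  have rk : IsRankTwoBundle (bc F B) M := by
    refine ⟨⟨hs ▸ Submodule.fg_span (Set.finite_range m)⟩, kill, fun q hq hi => ?_⟩
    by_cases hF : bc F B ∈ q
    · obtain ⟨i, j, hij⟩ := h.unit q hq hF hi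
      refine ⟨m i, m j, fun u => ⟨_, hij, ?_⟩, fun α β e => ⟨_, hij, ?_⟩⟩
      · have : u ∈ (Submodule.span (Pol B) {m i, m j}).comap (LinearMap.lsmul _ M (Ω i j)) := by
          refine Submodule.span_le.mpr ?_ (top u)
          rintro _ ⟨k, rfl⟩
          refine Submodule.mem_span_pair.mpr ⟨-Ω j k, -Ω k i, ?_⟩
          rw [← sub_eq_zero]
          refine nd_gens hs nd fun l => ?_
          have h1 := mq_zero.mpr (h.pl i j k l)
          simp only [map_add, map_sub, map_smul, LinearMap.add_apply, LinearMap.sub_apply,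
            LinearMap.smul_apply, LinearMap.lsmul_apply, smul_mq, hv, map_mul, map_neg,
            sk0 l] at h1 ⊢
          linear_combination h1
        obtain ⟨α, β, e⟩ := Submodule.mem_span_pair.mp this
        exact ⟨α, β, e.symm⟩
      · have h1 := congrArg (fun x => ω x (m j)) e
        have h2 := congrArg (fun x => ω x (m i)) e
        simp only [map_add, map_smul, LinearMap.add_apply, LinearMap.smul_apply, smul_mq, hv, dg,
          sk0 i j, map_zero, LinearMap.zero_apply] at h1 h2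
        rw [← mq_zero, ← mq_zero, map_mul, map_mul]
        exact ⟨by linear_combination h1, by linear_combination -h2⟩
    · exact ⟨0, 0, fun u => ⟨_, hF, 0, 0, by simp [kill]⟩, fun α β _ => ⟨_, hF,
        Ideal.mul_mem_right _ _ (Ideal.mem_span_singleton_self _),
        Ideal.mul_mem_right _ _ (Ideal.mem_span_singleton_self _)⟩⟩
  exact ⟨⟨M, G, rk, ω, alt, hom, unit⟩, ω, m, ⟨⟨alt, hom, unit⟩, hm, hs, h.hom, hv⟩, nd⟩

theorem gramPull : S_GramPull := by
  intro F _ B B' _ _ _ _ φ ι _ a Ω E E' ω ω' m m' h h' nd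
  have top : ∀ u, u ∈ Submodule.span (Pol B) (Set.range m) := fun u => h.span ▸ Submodule.mem_top
  have ex : ∀ u, ∃ u', ∀ l, ω' u' (m' l) = mapR F φ (ω u (m l)) := fun u => by
    obtain ⟨c, rfl⟩ := (Submodule.mem_span_range_iff_exists_fun _).mp (top u)
    refine ⟨∑ i, map (φ : B →+* B') (c i) • m' i, fun l => ?_⟩
    simp only [map_sum, map_smul, LinearMap.sum_apply, LinearMap.smul_apply, smul_mq, h.val,
      h'.val, map_mul, mapR_mq, Matrix.map_apply]
  choose f hf using ex
  have uq : ∀ u u', (∀ l, ω' u' (m' l) = mapR F φ (ω u (m l))) → f u = u' := fun u u' e =>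
    sub_eq_zero.mp (nd_gens h'.span nd fun l => by
      rw [map_sub, LinearMap.sub_apply, hf, e, sub_self])
  let θ : E.M →+ E'.M := AddMonoidHom.mk' f fun u v => uq _ _ fun l => by
    simp only [map_add, LinearMap.add_apply, hf]
  have semi : Semi φ θ := fun c u => uq _ _ fun l => by
    change ω' (_ • f u) _ = _
    simp only [map_smul, LinearMap.smul_apply, smul_mq, hf, map_mul, mapR_mq]
  have hm : ∀ i, θ (m i) = m' i := fun i => uq _ _ fun l => by
    rw [h.val, h'.val, mapR_mq, Matrix.map_apply]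
  refine ⟨θ, semi, fun d u hu => ?_, fun u _ => ⟨0, ?_⟩⟩
  · let K := E.gr.sub (fun e => (E'.gr.piece e).comap θ) fun n e c hc v _ h => by
      change θ (c • v) ∈ E'.gr.piece (e + n)
      rw [semi]
      exact E'.gr.smul_mem n e _ _ (hc.map _) h
    have h1 : Submodule.span (Pol B) (Set.range m) ≤ K := Submodule.span_le.mpr <| by
      rintro _ ⟨i, rfl⟩
      refine (E.gr.mem_sub_of_mem (h.mem i)).mpr ?_
      change θ (m i) ∈ E'.gr.piece (a i)
      rw [hm]
      exact h'.mem i
    exact (E.gr.mem_sub_of_mem hu).mp (h1 (top u))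
  · refine Submodule.span_mono (s := Set.range m') ?_ (h'.span ▸ Submodule.mem_top)
    rintro _ ⟨i, rfl⟩
    exact ⟨m i, hm i⟩

theorem pullEx : S_PullEx := by
  intro F hR B B' _ _ _ _ φ E
  obtain ⟨ω, hω⟩ := E.exists_pairing
  have := E.rankTwo.finite
  obtain ⟨n, a, m, hm, hs⟩ := E.gr.exists_gens
  choose Ω h1 h2 using fun i j => hω.hom _ _ _ (hm i) _ (hm j)
  have hD : GramD E ω a (Matrix.of Ω) m := ⟨hω, hm, hs, h1, h2⟩
  have hG : GD F a (Matrix.of Ω) := by
    refine ⟨h1, fun i j => ?_, fun i => ?_, fun i j k l => ?_, fun q hq hF hi => ?_⟩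
    · rw [← mq_zero, map_add, ← hD.val, ← hD.val, hω.skew, neg_add_cancel]
    · rw [← mq_zero, ← hD.val, hω.alt]
    · rw [← mq_zero]
      simp only [map_add, map_mul, ← hD.val]
      linear_combination pluecker hR hω.alt (ω (m l)) (m k) (m i) (m j)
    · by_contra hc
      push Not at hc
      obtain ⟨u, v, b, hb, e⟩ := hω.unit q hq hF hi
      obtain ⟨c, rfl⟩ := (Submodule.mem_span_range_iff_exists_fun _).mp
        (hs ▸ Submodule.mem_top : u ∈ Submodule.span (Pol B) (Set.range m))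
      obtain ⟨c', rfl⟩ := (Submodule.mem_span_range_iff_exists_fun _).mp
        (hs ▸ Submodule.mem_top : v ∈ Submodule.span (Pol B) (Set.range m))
      refine hb (mem_of_mq hF (b := ∑ j, c' j * ∑ i, c i * Matrix.of Ω i j) ?_
        (q.sum_mem fun j _ => q.mul_mem_left _ (q.sum_mem fun i _ => q.mul_mem_left _ (hc i j))))
      rw [← e]
      simp only [map_sum, map_smul, LinearMap.sum_apply, LinearMap.smul_apply, smul_mq, hD.val,
        map_mul]
  obtain ⟨E', ω', m', h', nd⟩ := gram F hR B' _ a _ (map_gd hG φ)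
  exact ⟨E', gramPull F hR B B' φ _ a _ E E' ω ω' m m' hD h' nd⟩

end Pool.Agent.P.MP_2b2d3b_ag
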