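import Pool.Agent.P.MP_2b2d3b_ag.St2

/-!
Hilbert functions of pull backs and of Serre extensions.
-/

namespace Pool.Agent.P.MP_2b2d3b_ag

open MvPolynomial Module

namespace HfP

variable {F : Pol ℂ}

/-- the complex structure used in `Bundle.hf` -/
@[reducible] noncomputable def cm (E : Bundle F ℂ) : Module ℂ E.M :=
  Module.compHom E.M (C : ℂ →+* Pol ℂ)

attribute [local instance] cm

theorem cm_smul (E : Bundle F ℂ) (c : ℂ) (u : E.M) : c • u = (C c : Pol ℂ) • u := rfl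

/-- the piece of degree `d` as a complex subspace -/
def pc (E : Bundle F ℂ) (d : ℕ) : Submodule ℂ E.M where
  carrier := E.gr.piece d
  add_mem' := add_mem
  zero_mem' := zero_mem _
  smul_mem' c _ hu := E.gr.C_smul_mem c hu

theorem mem_pc {E : Bundle F ℂ} {d : ℕ} {u : E.M} : u ∈ pc E d ↔ u ∈ E.gr.piece d := Iff.rfl

theorem hf_top (E : Bundle F ℂ) (d : ℕ) : E.hf ⊤ d = finrank ℂ (pc E d) := by
  have e : {u | u ∈ (⊤ : Submodule (Pol ℂ) E.M) ∧ u ∈ E.gr.piece d} = (pc E d : Set E.M) := by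
    ext u; simp [mem_pc]
  unfold Bundle.hf Grading.hf
  rw [e, Submodule.span_eq]

/-- torsion dies in large degree -/
theorem tor_large (E : Bundle F ℂ) :
    ∃ d0, ∀ d ≥ d0, ∀ u ∈ E.gr.piece d, Tor ℂ u → u = 0 := by
  have := E.rankTwo.finite
  obtain ⟨d0, h⟩ := E.gr.large (⨅ i : Fin 4, satM ⊥ (X i)) ⊥ (IsNoetherian.noetherian _)
    fun u hu e i => by
      obtain ⟨k, hk⟩ := (Submodule.mem_iInf _).mp hu i
      refine ⟨k, ?_⟩
      rw [Submodule.mem_bot] at hk ⊢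
      rw [← E.gr.cp_smul (n := k) (by simpa using (isHomogeneous_X ℂ i).pow k), hk, map_zero]
  exact ⟨d0, fun d hd u hu ht => h d hd u ((Submodule.mem_iInf _).mpr ht) hu⟩

theorem onto_large {B : Type} [CommRing B] [Algebra ℂ B] {t : B →ₐ[ℂ] ℂ} {E : Bundle F B}
    {E1 : Bundle F ℂ} {θ : E.M →+ E1.M} (h : Pull t E E1 θ) :
    ∃ d0, ∀ d ≥ d0, ∀ u ∈ E1.gr.piece d, ∃ v ∈ E.gr.piece d, θ v = u := by
  have := E1.rankTwo.finite
  obtain ⟨d0, h0⟩ := E1.gr.large ⊤ (Submodule.span (Pol ℂ) (Set.range θ))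
    Module.Finite.fg_top fun u _ e i => h.surj _ i
  refine ⟨d0, fun d hd u hu => ?_⟩
  have h1 : ∃ v, θ v = u := by
    refine Submodule.span_induction (p := fun x _ => ∃ v, θ v = x) (fun _ hx => hx) ⟨0, map_zero θ⟩
      ?_ ?_ (h0 d hd u trivial hu)
    · rintro _ _ - - ⟨v, rfl⟩ ⟨w, rfl⟩
      exact ⟨v + w, map_add θ v w⟩
    · rintro a _ - ⟨v, rfl⟩
      refine ⟨map (algebraMap ℂ B) a • v, ?_⟩
      rw [h.semi, map_map]
      congr 1
      have e : (t : B →+* ℂ).comp (algebraMap ℂ B) = RingHom.id ℂ := by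
        ext c; simp
      rw [e, map_id]
  obtain ⟨v, rfl⟩ := h1
  exact ⟨E.gr.cp d v, E.gr.cp_mem d v, by rw [← h.cp, Grading.cp_self hu]⟩

/-- a functional as a complex linear map -/
noncomputable def lc {E : Bundle F ℂ} (s : E.M →ₗ[Pol ℂ] Rq F ℂ) : E.M →ₗ[ℂ] Rq F ℂ where
  toFun := s
  map_add' := s.map_add
  map_smul' c u := by
    rw [cm_smul, map_smul]
    exact algebraMap_smul (Pol ℂ) c (s u)

theorem lc_apply {E : Bundle F ℂ} (s : E.M →ₗ[Pol ℂ] Rq F ℂ) (u : E.M) : lc s u = s u := rfl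

theorem fun_cp (hF : F.IsHomogeneous 6) {E : Bundle F ℂ} {j : ℕ} {s : E.M →ₗ[Pol ℂ] Rq F ℂ}
    (hs : IsFun E j s) (d : ℕ) (u : E.M) : (grR hF ℂ).cp (d + j) (s u) = s (E.gr.cp d u) := by
  induction u using E.gr.induction with
  | h0 => simp
  | hadd u v hu hv => simp only [map_add, hu, hv]
  | hom e u hu =>
    rw [Grading.cp_of_mem hu, Grading.cp_of_mem (G := grR hF ℂ) (hs e u hu)]
    by_cases h : d = e <;> simp [h]

theorem range_cp (hF : F.IsHomogeneous 6) {E : Bundle F ℂ} {j : ℕ} {s : E.M →ₗ[Pol ℂ] Rq F ℂ}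
    (hs : IsFun E j s) (n : ℕ) (u : E.M) : (grR hF ℂ).cp n (s u) ∈ LinearMap.range s := by
  induction u using E.gr.induction with
  | h0 => simp
  | hadd u v hu hv => simpa only [map_add] using add_mem hu hv
  | hom e u hu =>
    rw [Grading.cp_of_mem (G := grR hF ℂ) (hs e u hu)]
    split_ifs
    exacts [⟨u, rfl⟩, zero_mem _]

/-- the class map as a complex linear map -/
noncomputable abbrev mk (F : Pol ℂ) : Pol ℂ →ₗ[ℂ] Rq F ℂ :=
  (Ideal.Quotient.mkₐ ℂ (Ideal.span {bc F ℂ})).toLinearMap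

theorem mem_RH {n : ℕ} {r : Rq F ℂ} : r ∈ (Hd n).map (mk F) ↔ r ∈ HomR F ℂ n :=
  ⟨fun ⟨b, hb, e⟩ => ⟨b, hb, e.symm⟩, fun ⟨b, hb, e⟩ => ⟨b, hb, e.symm⟩⟩

theorem image_large (hF : F.IsHomogeneous 6) {E : Bundle F ℂ} {j : ℕ}
    {s : E.M →ₗ[Pol ℂ] Rq F ℂ} (hs : IsFun E j s) :
    ∃ d0, ∀ d ≥ d0, (pc E d).map (lc s) = (Id (satI s) (d + j)).map (mk F) := by
  obtain ⟨d0, h0⟩ := (grR hF ℂ).large (⨅ i : Fin 4, satM (LinearMap.range s) (X i))
    (LinearMap.range s) (IsNoetherian.noetherian _) fun r hr e i => by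
      obtain ⟨k, u, hk⟩ := (Submodule.mem_iInf _).mp hr i
      refine ⟨k, ?_⟩
      rw [← (grR hF ℂ).cp_smul (n := k) (by simpa using (isHomogeneous_X ℂ i).pow k), ← hk]
      exact range_cp hF hs _ u
  refine ⟨d0, fun d hd => le_antisymm ?_ ?_⟩
  · rintro _ ⟨u, hu, rfl⟩
    obtain ⟨b, hb, e⟩ := hs d u hu
    exact ⟨b, mem_Id.mpr ⟨mem_satI.mpr fun i => ⟨0, u, by rw [pow_zero, one_mul, e]⟩, hb⟩, e.symm⟩
  · rintro _ ⟨b, hb, rfl⟩
    obtain ⟨h1, h2⟩ := mem_Id.mp hb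
    obtain ⟨u, hu⟩ := h0 (d + j) (by omega) (mq F ℂ b) ((Submodule.mem_iInf _).mpr fun i => by
      obtain ⟨k, u, e⟩ := mem_satI.mp h1 i
      exact ⟨k, u, by rw [e, smul_mq, map_mul]⟩) (mq_mem h2)
    refine ⟨E.gr.cp d u, E.gr.cp_mem d u, ?_⟩
    rw [lc_apply, ← fun_cp hF hs, hu]
    exact Grading.cp_self (G := grR hF ℂ) (mq_mem h2)

theorem image_rank (I : Ideal (Pol ℂ)) (hI : bc F ℂ ∈ I) (n : ℕ) :
    finrank ℂ ((Id I n).map (mk F)) + hilb I n = hilb (Ideal.span {bc F ℂ}) n := by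
  have h1 := HilbP.hilb_add_Id I n
  have h2 := HilbP.hilb_add_Id (Ideal.span {bc F ℂ}) n
  have : Module.Finite ℂ (Id I n) := Submodule.finiteDimensional_of_le (S₂ := Hd n) inf_le_right
  have h3 := rank_null (mk F) (Id I n)
  have e : LinearMap.ker (mk F) ⊓ Id I n = Id (Ideal.span {bc F ℂ}) n := by
    ext x
    rw [Submodule.mem_inf, mem_Id, mem_Id, LinearMap.mem_ker]
    exact ⟨fun h => ⟨mq_zero.mp h.1, h.2.2⟩, fun h => ⟨mq_zero.mpr h.1,
      (Ideal.span_singleton_le_iff_mem I).mpr hI h.1, h.2⟩⟩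
  rw [e] at h3
  omega

theorem kernel_large (hR : Rg F) {E : Bundle F ℂ} {ω : E.M →ₗ[Pol ℂ] E.M →ₗ[Pol ℂ] Rq F ℂ}
    {i : ℕ} {s : E.M →ₗ[Pol ℂ] Rq F ℂ} {t1 t2 : E.M} {d1 d2 : ℕ} {g1 g2 G : Pol ℂ}
    (h : Ser E ω (i + 1) s t1 t2 d1 d2 g1 g2 G) : ∃ e0, ∀ e ≥ e0,
      Nonempty ((LinearMap.ker (lc s) ⊓ pc E (e + i) : Submodule ℂ E.M) ≃ₗ[ℂ]
        (Hd e).map (mk F)) := by
  have hg : ∀ x : Rq F ℂ, mq F ℂ g1 * x = 0 → x = 0 := fun x hx => by
    obtain ⟨a, rfl⟩ := mq_surj x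
    rw [← map_mul, mq_zero] at hx
    exact mq_zero.mpr (h.r1 a hx)
  have hf : IsFun E (d1 + 1) (ω.flip t1) := fun d u hu => h.pair.hom d d1 u hu t1 h.m1
  let W : Submodule (Pol ℂ) (Rq F ℂ) :=
    { carrier := {r | ∃ u, s u = 0 ∧ ω u t1 = mq F ℂ g1 * r}
      add_mem' := by
        rintro r r' ⟨u, h1, h2⟩ ⟨v, h3, h4⟩
        exact ⟨u + v, by rw [map_add, h1, h3, add_zero], by
          rw [map_add, LinearMap.add_apply, h2, h4, mul_add]⟩
      zero_mem' := ⟨0, map_zero s, by simp⟩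
      smul_mem' := by
        rintro a r ⟨u, h1, h2⟩
        exact ⟨a • u, by rw [map_smul, h1, smul_zero], by
          rw [map_smul, LinearMap.smul_apply, h2, smul_mq, smul_mq]; ring⟩ }
  have hW : ∀ x ∈ Ideal.span (Set.range fun p : E.M × E.M => ω p.1 p.2), ∀ y, y * x ∈ W := by
    intro x hx
    refine Submodule.span_induction (p := fun x _ => ∀ y, y * x ∈ W) ?_ ?_ ?_ ?_ hx
    · rintro _ ⟨p, rfl⟩ y
      obtain ⟨a, rfl⟩ := mq_surj y
      refine W.smul_mem a ?_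
      obtain ⟨b1, e1⟩ := mq_surj (s p.1)
      obtain ⟨b2, e2⟩ := mq_surj (s p.2)
      refine ⟨b2 • p.1 - b1 • p.2, ?_, ?_⟩
      · rw [map_sub, map_smul, map_smul, smul_mq, smul_mq, e1, e2]; ring
      · have a1 := pluecker hR h.pair.alt s p.1 p.2 t1
        rw [h.pair.skew p.1 t1, h.e1] at a1
        simp only [map_sub, map_smul, LinearMap.sub_apply, LinearMap.smul_apply, smul_mq, e1, e2]
        linear_combination -a1
    · intro y; rw [mul_zero]; exact W.zero_mem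
    · intro x x' _ _ h1 h2 y
      rw [mul_add]; exact W.add_mem (h1 y) (h2 y)
    · intro a x _ h1 y
      rw [smul_eq_mul, ← mul_assoc]; exact h1 _
  obtain ⟨e1, he1⟩ := (grR hR.hom ℂ).large ⊤ W Module.Finite.fg_top fun r _ e j => by
    obtain ⟨k, hk⟩ := h.pair.exists_pow j
    exact ⟨k, by rw [smul_mq, mul_comm]; exact hW _ hk _⟩
  obtain ⟨e2, he2⟩ := tor_large E
  refine ⟨e1 + e2, fun e he => ?_⟩
  let μ : Rq F ℂ →ₗ[ℂ] Rq F ℂ := LinearMap.mulLeft ℂ (mq F ℂ g1)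
  have hμ : Function.Injective μ := (injective_iff_map_eq_zero μ).mpr hg
  have key : (LinearMap.ker (lc s) ⊓ pc E (e + i)).map (lc (ω.flip t1)) =
      ((Hd e).map (mk F)).map μ := by
    refine le_antisymm ?_ ?_
    · rintro _ ⟨u, ⟨h1, h2⟩, rfl⟩
      have h1' : s u = 0 := h1
      obtain ⟨a, ha⟩ := mq_surj (ω u t1)
      obtain ⟨a', ha'⟩ := mq_surj (ω t2 u)
      have a1 := pluecker hR h.pair.alt s u t1 t2
      rw [h1', h.e1, h.e2, ← ha, ← ha', zero_mul, zero_add, ← map_mul, ← map_mul, ← map_add,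
        mq_zero] at a1
      obtain ⟨z, hz⟩ := Ideal.mem_span_singleton'.mp a1
      obtain ⟨x, y, hxy⟩ := Ideal.mem_span_pair.mp (h.r2 a (Ideal.mem_span_pair.mpr
        ⟨z, -a', by linear_combination hz⟩))
      have a2 : ω u t1 = mq F ℂ g1 * mq F ℂ y := by
        rw [← ha, ← hxy, map_add, map_mul, map_mul, mq_F]; ring
      have a3 := h.pair.hom _ _ u h2 t1 h.m1
      rw [a2] at a3
      exact ⟨mq F ℂ y, mem_RH.mpr ((HomR.cancel hR.hom (mq_mem h.h1) hg a3).1 e (by omega)),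
        a2.symm⟩
    · rintro _ ⟨r, hr, rfl⟩
      have hr' := mem_RH.mp hr
      obtain ⟨u, h1, h2⟩ := he1 e (by omega) r trivial hr'
      refine ⟨E.gr.cp (e + i) u, ⟨?_, E.gr.cp_mem _ u⟩, ?_⟩
      · change s _ = 0
        rw [← fun_cp hR.hom h.fn, h1, map_zero]
      · rw [lc_apply, ← fun_cp hR.hom hf, LinearMap.flip_apply, h2]
        refine Grading.cp_self (G := grR hR.hom ℂ) ?_
        have a1 := HomR.mul (mq_mem (F := F) h.h1) hr'
        rwa [show d1 + (i + 1) + e = e + i + (d1 + 1) by omega] at a1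
  have hinj : Function.Injective
      ((lc (ω.flip t1)).domRestrict (LinearMap.ker (lc s) ⊓ pc E (e + i))) := by
    rw [injective_iff_map_eq_zero]
    rintro ⟨u, h1, h2⟩ h3
    have h1' : s u = 0 := h1
    have h3' : ω u t1 = 0 := h3
    refine Subtype.ext (he2 (e + i) (by omega) u h2 (h.pair.tor fun v => hg _ ?_))
    have a1 := pluecker hR h.pair.alt s u v t1
    rw [h1', h.pair.skew u t1, h3', h.e1] at a1
    linear_combination a1
  refine ⟨(LinearEquiv.ofInjective _ hinj).trans ((LinearEquiv.ofEq _ _ ?_).trans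
    (Submodule.equivMapOfInjective μ hμ _).symm)⟩
  rw [LinearMap.range_domRestrict, key]

end HfP

open HfP

attribute [local instance] HfP.cm

theorem hfEq : S_HfEq := by
  intro F B _ _ t E E1 E2 h1 h2
  obtain ⟨θ1, h1⟩ := h1.exists
  obtain ⟨θ2, h2⟩ := h2.exists
  obtain ⟨a1, b1⟩ := onto_large h1
  obtain ⟨a2, b2⟩ := onto_large h2
  obtain ⟨a3, b3⟩ := tor_large E1
  obtain ⟨a4, b4⟩ := tor_large E2
  let _ : Module ℂ E.M := Module.compHom E.M ((C : B →+* Pol B).comp (algebraMap ℂ B))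
  have hs : ∀ (c : ℂ) (u : E.M), c • u = (C (algebraMap ℂ B c) : Pol B) • u := fun _ _ => rfl
  let lin : ∀ {E' : Bundle F ℂ} {θ : E.M →+ E'.M}, Pull t E E' θ → E.M →ₗ[ℂ] E'.M :=
    fun {E'} {θ} h =>
    { toFun := θ
      map_add' := θ.map_add
      map_smul' := fun c u => by rw [hs, h.semi, map_C, cm_smul]; simp }
  refine Filter.eventually_atTop.mpr ⟨a1 + a2 + a3 + a4, fun d hd => ?_⟩
  let S : Submodule ℂ E.M :=
    { carrier := E.gr.piece d
      add_mem' := add_mem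
      zero_mem' := zero_mem _
      smul_mem' := fun c _ hu => E.gr.C_smul_mem _ hu }
  have e1 : pc E1 d = S.map (lin h1) :=
    le_antisymm (fun u hu => b1 d (by omega) u hu) (by rintro _ ⟨v, hv, rfl⟩; exact h1.hom d v hv)
  have e2 : pc E2 d = S.map (lin h2) :=
    le_antisymm (fun u hu => b2 d (by omega) u hu) (by rintro _ ⟨v, hv, rfl⟩; exact h2.hom d v hv)
  rw [hf_top, hf_top, e1, e2]
  exact finrank_map_eq_of_ker _ _ S fun x hx =>
    ⟨fun h => b4 d (by omega) _ (h2.hom d x hx) (h1.tor h2.semi h),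
      fun h => b3 d (by omega) _ (h1.hom d x hx) (h2.tor h1.semi h)⟩

theorem hfSer : S_HfSer := by
  intro F hR E ω i s t1 t2 d1 d2 g1 g2 G h
  obtain ⟨a1, b1⟩ := image_large hR.hom h.fn
  obtain ⟨a2, b2⟩ := kernel_large hR h
  refine Filter.eventually_atTop.mpr ⟨a1 + a2, fun e he => ?_⟩
  have e1 := b1 (e + i) (by omega)
  obtain ⟨φ⟩ := b2 e (by omega)
  rw [show e + i + (i + 1) = e + 2 * i + 1 by omega] at e1
  have hF : bc F ℂ ∈ satI s := mem_satI.mpr fun j => ⟨0, 0, by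
    rw [map_zero, pow_zero, one_mul, mq_F]⟩
  have h1 := image_rank (satI s) hF (e + 2 * i + 1)
  have : Module.Finite ℂ (Id (satI s) (e + 2 * i + 1)) :=
    Submodule.finiteDimensional_of_le (S₂ := Hd _) inf_le_right
  have : Module.Finite ℂ (LinearMap.ker (lc s) ⊓ pc E (e + i) : Submodule ℂ E.M) :=
    Module.Finite.equiv φ.symm
  have : Module.Finite ℂ (pc E (e + i)) := by
    refine Module.Finite.iff_fg.mpr (Submodule.fg_of_fg_map_of_fg_inf_ker (lc s) ?_ ?_)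
    · rw [e1]; exact Module.Finite.iff_fg.mp inferInstance
    · rw [inf_comm]; exact Module.Finite.iff_fg.mp inferInstance
  have h2 := rank_null (lc s) (pc E (e + i))
  have h3 : finrank ℂ (LinearMap.ker (lc s) ⊓ pc E (e + i) : Submodule ℂ E.M) =
      hilb (Ideal.span {bc F ℂ}) e := φ.finrank_eq
  rw [e1, h3] at h2
  have e3 : ∀ n, hilb (Ideal.span {F}) n = hilb (Ideal.span {bc F ℂ}) n := fun n => by
    rw [bc_self]
  rw [hf_top, e3, e3]
  omega

end Pool.Agent.P.MP_2b2d3b_ag
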