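import Pool.Agent.P.MP_2b2d3b_ag.StN

/-! Package Cech: division with remainder in the Laurent ring, and its consequences. -/

namespace Pool.Agent.P.MP_2b2d3b_ag

open MvPolynomial

namespace NCechP

variable {B : Type} [CommRing B] {G : Pol B} {n : ℕ}

theorem co_finite (p : Lr B) : {x : ℕ × (Fin 3 → ℤ) | co x.1 x.2 p ≠ 0}.Finite := by
  refine (Set.Finite.biUnion p.support.finite_toSet fun a _ =>
    ((p.coeff a).coeff.support.finite_toSet.image fun β => (a, β))).subset fun x hx => ?_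
  refine Set.mem_biUnion (x := x.1) (Polynomial.mem_support_iff.2 fun h => hx ?_)
    ⟨x.2, Finsupp.mem_support_iff.2 hx, rfl⟩
  change (p.coeff x.1).coeff x.2 = 0
  rw [h]
  rfl

theorem exists_co (c : ℕ → (Fin 3 → ℤ) → B)
    (h : {x : ℕ × (Fin 3 → ℤ) | c x.1 x.2 ≠ 0}.Finite) : ∃ p : Lr B, ∀ a β, co a β p = c a β := by
  classical
  refine ⟨∑ x ∈ h.toFinset, mo x.1 x.2 (c x.1 x.2), fun a β => ?_⟩
  rw [map_sum, Finset.sum_eq_single (a, β)]
  · rw [co_mo, if_pos ⟨rfl, rfl⟩]
  · intro x _ hx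
    rw [co_mo, if_neg fun h1 => hx (Prod.ext h1.1 h1.2)]
  · intro h1
    rw [co_mo, if_pos ⟨rfl, rfl⟩]
    simpa using h1

theorem coeff_eq_zero {p : Lr B} {a : ℕ} (h : ∀ β, co a β p = 0) : p.coeff a = 0 :=
  AddMonoidAlgebra.ext (Finsupp.ext h)

theorem natDegree_io (h : G.IsHomogeneous n) : (io B G).natDegree ≤ n := by
  refine Polynomial.natDegree_le_iff_coeff_eq_zero.2 fun a ha => coeff_eq_zero fun β => ?_
  by_contra h0
  obtain ⟨h1, h2⟩ := io_mem h ∅ a β h0
  have := Finset.sum_nonneg (s := Finset.univ) fun i _ => h2 i (by simp)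
  omega

theorem co_top (G : Pol B) (n : ℕ) : co n 0 (io B G) = coeff (Finsupp.single 0 n) G := by
  have := co_io G (Finsupp.single 0 n)
  simp only [Finsupp.single_eq_same, Finsupp.single_eq_of_ne (Fin.succ_ne_zero _),
    Nat.cast_zero] at this
  exact this

theorem coeff_io (h : G.IsHomogeneous n) :
    (io B G).coeff n = AddMonoidAlgebra.single 0 (coeff (Finsupp.single 0 n) G) := by
  refine AddMonoidAlgebra.ext (Finsupp.ext fun β => ?_)
  change co n β (io B G) = _
  by_cases hβ : β = 0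
  · rw [hβ, co_top]
    simp
  · have h3 : co n β (io B G) = 0 := by
      by_contra h0
      obtain ⟨h1, h2⟩ := io_mem h ∅ n β h0
      exact hβ (funext fun i => (Finset.sum_eq_zero_iff_of_nonneg fun i _ => h2 i (by simp)).1
        (by omega) i (Finset.mem_univ i))
    rw [h3]
    simp [hβ]

theorem top (h : Mn G n) {q : Lr B} (hq : q ≠ 0) :
    ∃ β, co q.natDegree β q ≠ 0 ∧ co (n + q.natDegree) β (io B G * q) ≠ 0 := by
  obtain ⟨β, hβ⟩ : ∃ β, co q.natDegree β q ≠ 0 := by
    by_contra! h0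
    exact Polynomial.leadingCoeff_ne_zero.2 hq (coeff_eq_zero h0)
  refine ⟨β, hβ, fun h0 => hβ ?_⟩
  change ((io B G * q).coeff (n + q.natDegree)).coeff β = 0 at h0
  rw [Polynomial.coeff_mul_add_eq_of_natDegree_le (natDegree_io h.hom) le_rfl, coeff_io h.hom,
    AddMonoidAlgebra.coeff_single_zero_mul] at h0
  exact h.unit.mul_right_eq_zero.1 h0

theorem co_of_degree {r : Lr B} (hr : r.degree < n) (d : ℕ) (β : Fin 3 → ℤ) :
    co (n + d) β r = 0 := by
  change (r.coeff (n + d)).coeff β = 0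
  rw [Polynomial.coeff_eq_zero_of_degree_lt (hr.trans_le (by exact_mod_cast Nat.le_add_right n d))]
  rfl

theorem uniq (h : Mn G n) (q : Lr B) (hq : (io B G * q).degree < n) : q = 0 := by
  by_contra h0
  obtain ⟨β, -, h1⟩ := top h h0
  exact h1 (co_of_degree hq _ β)

theorem eq_zero (h : Mn G n) {r : Lr B} (hr : r.degree < n) (hm : r ∈ Ideal.span {io B G}) :
    r = 0 := by
  obtain ⟨q, rfl⟩ := Ideal.mem_span_singleton.1 hm
  rw [uniq h q hr, mul_zero]

theorem core (h : Mn G n) {S : Finset (Fin 3)} {e : ℤ} {q r : Lr B} (hr : r.degree < n)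
    (hp : io B G * q + r ∈ T B S e) : q ∈ T B S (e - n) := by
  classical
  obtain ⟨q₁, h1⟩ := exists_co
    (fun a β => if (a : ℤ) + ∑ i, β i = e - n ∧ ∀ i ∉ S, 0 ≤ β i then co a β q else 0)
    ((co_finite q).subset fun x hx h0 => hx (by simp [h0]))
  have h2 : q₁ ∈ T B S (e - n) := fun a β h0 => by
    by_contra h3
    exact h0 (by rw [h1, if_neg h3])
  have h3 : io B G * (q - q₁) + r ∈ T B S e := by
    have := T_mul (io_mem h.hom S) h2
    rw [add_sub_cancel] at this
    convert sub_mem hp this using 1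
    ring
  by_cases h0 : q - q₁ = 0
  · rwa [sub_eq_zero.1 h0]
  · obtain ⟨β, h4, h5⟩ := top h h0
    obtain ⟨h6, h7⟩ := h3 (n + (q - q₁).natDegree) β (by rwa [map_add, co_of_degree hr, add_zero])
    refine (h4 ?_).elim
    rw [map_sub, h1, if_pos ⟨by push_cast at h6; omega, h7⟩, sub_self]

theorem div' (h : Mn G n) (p : Lr B) : ∃ q r : Lr B, r.degree < n ∧ p = io B G * q + r := by
  rcases subsingleton_or_nontrivial (Lau B) with _ | _
  · exact ⟨0, 0, by simp, Subsingleton.elim _ _⟩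
  obtain ⟨v, hv⟩ := h.unit.exists_left_inv
  have h1 : (Polynomial.C (AddMonoidAlgebra.single 0 v) * io B G).natDegree ≤ n :=
    (Polynomial.natDegree_C_mul_le _ _).trans (natDegree_io h.hom)
  have h2 : (Polynomial.C (AddMonoidAlgebra.single 0 v) * io B G).Monic :=
    Polynomial.monic_of_natDegree_le_of_coeff_eq_one n h1 (by
      rw [Polynomial.coeff_C_mul, coeff_io h.hom, AddMonoidAlgebra.single_mul_single, hv, add_zero]
      rfl)
  refine ⟨Polynomial.C (AddMonoidAlgebra.single 0 v) *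
    (p /ₘ (Polynomial.C (AddMonoidAlgebra.single 0 v) * io B G)), p %ₘ _,
    (Polynomial.degree_modByMonic_lt p h2).trans_le (Polynomial.degree_le_of_natDegree_le h1), ?_⟩
  rw [← mul_assoc, mul_comm (io B G), add_comm]
  exact (Polynomial.modByMonic_add_div p _).symm

theorem div (h : Mn G n) (S : Finset (Fin 3)) (e : ℤ) (p : Lr B) (hp : p ∈ T B S e) :
    ∃ q ∈ T B S (e - n), ∃ r ∈ T B S e, r.degree < n ∧ p = io B G * q + r := by
  obtain ⟨q, r, hr, rfl⟩ := div' h p
  have hq := core h hr hp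
  have := T_mul (io_mem h.hom S) hq
  rw [add_sub_cancel] at this
  exact ⟨q, hq, r, by simpa using sub_mem hp this, hr, rfl⟩

theorem degree_sub {r r' : Lr B} (h : r.degree < n) (h' : r'.degree < n) : (r - r').degree < n :=
  (Polynomial.degree_sub_le _ _).trans_lt (max_lt h h')

theorem degree_add {r r' : Lr B} (h : r.degree < n) (h' : r'.degree < n) : (r + r').degree < n :=
  (Polynomial.degree_add_le _ _).trans_lt (max_lt h h')

theorem pol (h : Mn G n) (b : Pol B) (hb : io B b ∈ Ideal.span {io B G}) :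
    b ∈ Ideal.span {G} := by
  have h1 : ∀ b : Pol B, ∃ (c : Pol B) (r : Lr B), r.degree < n ∧ io B b = io B G * io B c + r := by
    intro b
    induction b using MvPolynomial.induction_on' with
    | monomial m a =>
      obtain ⟨q, hq, r, -, hr, e⟩ := div h ∅ _ _ (io_mem (isHomogeneous_monomial a rfl) ∅)
      obtain ⟨c, rfl, -⟩ := exists_io hq
      exact ⟨c, r, hr, e⟩
    | add p p' hp hp' =>
      obtain ⟨c, r, hr, e⟩ := hp
      obtain ⟨c', r', hr', e'⟩ := hp'
      exact ⟨c + c', r + r', degree_add hr hr', by rw [map_add, map_add, e, e']; ring⟩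
  obtain ⟨c, r, hr, e⟩ := h1 b
  have h2 : r = 0 := eq_zero h hr (by
    rw [e] at hb
    exact (Ideal.add_mem_iff_right _ (Ideal.mul_mem_right _ _ (Ideal.mem_span_singleton_self _))).1
      hb)
  rw [h2, add_zero, ← map_mul] at e
  exact Ideal.mem_span_singleton.2 ⟨c, io_injective e⟩

theorem h0 (h : Mn G n) (e : ℤ) (p : Fin 3 → Lr B) (hp : ∀ i, p i ∈ T B {i} e)
    (hc : ∀ i j, p i - p j ∈ Ideal.span {io B G}) :
    ∃ b : Pol B, (∀ m : ℕ, (m : ℤ) = e → b.IsHomogeneous m) ∧ (e < 0 → b = 0) ∧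
      ∀ i, io B b - p i ∈ Ideal.span {io B G} := by
  choose q _ r hr hd he using fun i => div h {i} e (p i) (hp i)
  have hg : ∀ w, io B G * w ∈ Ideal.span {io B G} := fun w =>
    Ideal.mul_mem_right _ _ (Ideal.mem_span_singleton_self _)
  have h1 : ∀ i, r 0 = r i := fun i => sub_eq_zero.1 (eq_zero h (degree_sub (hd 0) (hd i)) (by
    convert sub_mem (hc 0 i) (hg (q 0 - q i)) using 1
    rw [he 0, he i]
    ring))
  have h2 : r 0 ∈ T B ∅ e := fun a β h0 => ⟨(hr 0 a β h0).1, fun i _ => by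
    by_cases hi : i = 0
    · exact (hr 1 a β (h1 1 ▸ h0)).2 i (by simp [hi])
    · exact (hr 0 a β h0).2 i (by simp [hi])⟩
  obtain ⟨b, hb, h3, h4⟩ := exists_io h2
  refine ⟨b, h3, h4, fun i => ?_⟩
  convert hg (-q i) using 1
  rw [hb, h1 i, he i]
  ring

theorem h1 (h : Mn G n) (e : ℤ) (c : Fin 3 → Fin 3 → Lr B) (hp : ∀ i j, c i j ∈ T B {i, j} e)
    (hc : ∀ i j l, c i l - (c i j + c j l) ∈ Ideal.span {io B G}) :
    ∃ b : Fin 3 → Lr B, (∀ i, b i ∈ T B {i} e) ∧
      ∀ i j, c i j - (b i - b j) ∈ Ideal.span {io B G} := by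
  choose q _ r hr hd he using fun i j => div h {i, j} e (c i j) (hp i j)
  have hg : ∀ w, io B G * w ∈ Ideal.span {io B G} := fun w =>
    Ideal.mul_mem_right _ _ (Ideal.mem_span_singleton_self _)
  have h1 : ∀ i j l, r i l = r i j + r j l := fun i j l => sub_eq_zero.1 (eq_zero h
    (degree_sub (hd i l) (degree_add (hd i j) (hd j l))) (by
      convert sub_mem (hc i j l) (hg (q i l - (q i j + q j l))) using 1
      rw [he i l, he i j, he j l]
      ring))
  have h2 : ∀ β : Fin 3 → ℤ, ∃ m, (∃ k, 0 ≤ β k) → 0 ≤ β m := fun β => by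
    by_cases h3 : ∃ k, 0 ≤ β k
    · exact ⟨h3.choose, fun _ => h3.choose_spec⟩
    · exact ⟨0, fun h4 => (h3 h4).elim⟩
  choose m hm using h2
  choose b hb using fun i => exists_co (fun a β => co a β (r i (m β)))
    ((Set.finite_iUnion fun j => co_finite (r i j)).subset fun x hx =>
      Set.mem_iUnion.2 ⟨m x.2, hx⟩)
  refine ⟨b, fun i a β h0 => ?_, fun i j => ?_⟩
  · obtain ⟨h3, h4⟩ := hr i (m β) a β (hb i a β ▸ h0)
    refine ⟨h3, fun k hk => ?_⟩
    by_cases h5 : k = m β
    · obtain ⟨k', hk'⟩ :=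
        (by decide : ∀ i j : Fin 3, ∃ k', k' ∉ ({i, j} : Finset (Fin 3))) i (m β)
      exact h5 ▸ hm β ⟨k', h4 k' hk'⟩
    · exact h4 k (by simpa [h5] using hk)
  · have h3 : b i - b j = r i j := ext_co fun a β => by
      rw [map_sub, hb, hb, h1 i j (m β), map_add, add_sub_cancel_right]
    convert hg (q i j) using 1
    rw [h3, he i j]
    ring

theorem mn_pow (h : Mn G n) (k : ℕ) : Mn (G ^ k) (k * n) := by
  refine ⟨mul_comm n k ▸ h.hom.pow k, ?_⟩
  rw [← co_top, map_pow]
  change IsUnit (((io B G ^ k).coeff (k * n)).coeff 0)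
  rw [Polynomial.coeff_pow_of_natDegree_le (natDegree_io h.hom), coeff_io h.hom,
    AddMonoidAlgebra.single_pow]
  simpa using h.unit.pow k

end NCechP

open NCechP

theorem cDiv : S_CDiv := fun _ _ _ _ h =>
  ⟨⟨div h, div' h, uniq h, fun _ _ _ hq => core h (r := 0) (by simp) (by simpa using hq),
    NCechP.pol h, NCechP.h0 h, NCechP.h1 h⟩, mn_pow h⟩

theorem clear : S_Clear := by
  intro B _ S e p i hp
  refine T_induction
    (P := fun p => ∃ K0 : ℕ, ∀ K : ℕ, K0 ≤ K → xv B i K * p ∈ T B (S.erase i) (e + K))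
    ⟨0, fun K _ => by simp⟩ ?_ ?_ hp
  · rintro p q ⟨K1, h1⟩ ⟨K2, h2⟩
    exact ⟨max K1 K2, fun K hK => by
      rw [mul_add]
      exact add_mem (h1 K (le_of_max_le_left hK)) (h2 K (le_of_max_le_right hK))⟩
  · intro a β r h1 h2
    refine ⟨(β i).natAbs, fun K hK => ?_⟩
    rw [xv, mo_mul]
    refine mo_mem _ ?_ fun j hj => ?_
    · simp only [Pi.add_apply, Finset.sum_add_distrib, Finset.sum_pi_single', Finset.mem_univ,
        if_true, zero_add]
      omega
    · by_cases h3 : j = i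
      · subst h3
        simp only [Pi.add_apply, Pi.single_eq_same]
        omega
      · simpa [h3] using h2 j fun h4 => hj (Finset.mem_erase.2 ⟨h3, h4⟩)

end Pool.Agent.P.MP_2b2d3b_ag
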