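import Pool.Agent.P.MP_2b2d3b_ag.StN

/-!
Lifting a rank one cocycle along a square zero extension: the matrix algebra.
-/

namespace Pool.Agent.P.MP_2b2d3b_ag

namespace NCocAP

variable {A : Type} [CommRing A] {n : Type} [Fintype n] [DecidableEq n]
  {J K : Ideal A} {φ : Fin 3 → Fin 3 → Matrix n n A} {R : Fin 3 → Fin 3 → Subring A}

omit [Fintype n] [DecidableEq n] in
theorem cong_bot {M N : Matrix n n A} : Cong ⊥ M N ↔ M = N := by
  simp only [Cong, Ideal.mem_bot, sub_eq_zero, Matrix.ext_iff]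

theorem cong_of_map {M N : Matrix n n A}
    (h : Cong ⊥ (M.map (Ideal.Quotient.mk J)) (N.map (Ideal.Quotient.mk J))) : Cong J M N :=
  cong_iff.2 (cong_bot.1 h)

theorem mem_of_map {a : A} (h : Ideal.Quotient.mk J a ∈ (⊥ : Ideal (A ⧸ J))) : a ∈ J :=
  Ideal.Quotient.eq_zero_iff_mem.1 (Ideal.mem_bot.1 h)

theorem pre_of_map (h : Pre ⊥ (mp (Ideal.Quotient.mk J) φ)) : Pre J φ where
  left i j := cong_of_map (by simpa only [mp, Matrix.map_mul] using h.left i j)
  right i j := cong_of_map (by simpa only [mp, Matrix.map_mul] using h.right i j)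
  inv i j := cong_of_map (by simpa only [mp, Matrix.map_mul] using h.inv i j)
  tr i := mem_of_map (by simpa only [mp, trace_map, map_sub, map_one] using h.tr i)
  rk i a b c d := mem_of_map (by
    simpa only [mp, Matrix.map_apply, map_sub, map_mul] using h.rk i a b c d)

theorem coc_of_map (h : Coc ⊥ (mp (Ideal.Quotient.mk J) φ)) : Coc J φ where
  mul i j l := cong_of_map (by simpa only [mp, Matrix.map_mul] using h.mul i j l)
  tr i := mem_of_map (by simpa only [mp, trace_map, map_sub, map_one] using h.tr i)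
  rk i a b c d := mem_of_map (by
    simpa only [mp, Matrix.map_apply, map_sub, map_mul] using h.rk i a b c d)

theorem sq_zero {J' : Ideal A} (h : J * J ≤ J') :
    ∀ a ∈ J.map (Ideal.Quotient.mk J'), ∀ b ∈ J.map (Ideal.Quotient.mk J'), a * b = 0 := by
  intro a ha b hb
  obtain ⟨a', ha', rfl⟩ := (Ideal.mem_map_iff_of_surjective _ Ideal.Quotient.mk_surjective).1 ha
  obtain ⟨b', hb', rfl⟩ := (Ideal.mem_map_iff_of_surjective _ Ideal.Quotient.mk_surjective).1 hb
  rw [← map_mul, Ideal.Quotient.eq_zero_iff_mem]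
  exact h (Ideal.mul_mem_mul ha' hb')

omit [DecidableEq n] in
theorem ent_mul {S : Subring A} {M N : Matrix n n A} (hM : ∀ a b, M a b ∈ S)
    (hN : ∀ a b, N a b ∈ S) (a b : n) : (M * N) a b ∈ S := by
  rw [Matrix.mul_apply]
  exact sum_mem fun c _ => mul_mem (hM a c) (hN c b)

omit [DecidableEq n] in
theorem ent_trace {S : Subring A} {M : Matrix n n A} (hM : ∀ a b, M a b ∈ S) : M.trace ∈ S :=
  sum_mem fun a _ => hM a a

/-- the idempotent attached to an almost idempotent matrix -/
def idem (M : Matrix n n A) : Matrix n n A := M * M + M * M + M * M - (M * M * M + M * M * M)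

theorem idem_cong {M : Matrix n n A} (h : Cong J (M * M) M) : Cong J (idem M) M := by
  rw [cong_iff, map_mul] at h
  rw [cong_iff, idem]
  simp only [map_sub, map_add, map_mul, h]
  abel

theorem idem_mul (hK : ∀ a ∈ K, ∀ b ∈ K, a * b = 0) {M : Matrix n n A} (h : Cong K (M * M) M) :
    idem M * idem M = idem M := by
  have h1 : (M * M - M) * (M * M - M) = 0 := by
    ext a b
    rw [Matrix.mul_apply]
    exact Finset.sum_eq_zero fun c _ => hK _ (h a c) _ (h c b)
  have h2 : idem M * idem M - idem M = (M * M - M) * (M * M - M) *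
      (M * M + M * M + M * M + M * M - (M + M + M + M) - (1 + 1 + 1)) := by
    unfold idem
    noncomm_ring
  rw [h1, zero_mul] at h2
  exact sub_eq_zero.1 h2

omit [DecidableEq n] in
theorem minor_zero (h2 : IsUnit (2 : A)) (hK : ∀ a ∈ K, ∀ b ∈ K, a * b = 0) {e : Matrix n n A}
    (he : e * e = e) (h : ∀ a b c d, e a b * e c d - e a d * e c b ∈ K) (a b c d : n) :
    e a b * e c d - e a d * e c b = 0 := by
  have hp : ∀ a b, ∑ x, e a x * e x b = e a b := fun a b => by rw [← Matrix.mul_apply, he]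
  have h1 : ∀ a c b d, ∑ x, ∑ y, e a x * e c y * (e x b * e y d) = e a b * e c d := by
    intro a c b d
    rw [← hp a b, ← hp c d, Finset.sum_mul_sum]
    exact Finset.sum_congr rfl fun x _ => Finset.sum_congr rfl fun y _ => by ring
  have h3 : ∑ x, ∑ y, (e a x * e c y - e a y * e c x) * (e x b * e y d - e x d * e y b) = 0 :=
    Finset.sum_eq_zero fun x _ => Finset.sum_eq_zero fun y _ => hK _ (h a x c y) _ (h x b y d)
  have h4 : ∑ x, ∑ y, (e a x * e c y - e a y * e c x) * (e x b * e y d - e x d * e y b) =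
      ∑ x, ∑ y, e a x * e c y * (e x b * e y d) - ∑ x, ∑ y, e a x * e c y * (e x d * e y b) -
        ∑ x, ∑ y, e c x * e a y * (e x b * e y d) + ∑ x, ∑ y, e c x * e a y * (e x d * e y b) := by
    simp only [← Finset.sum_sub_distrib, ← Finset.sum_add_distrib]
    exact Finset.sum_congr rfl fun x _ => Finset.sum_congr rfl fun y _ => by ring
  rw [h4, h1, h1, h1, h1] at h3
  apply h2.mul_left_cancel
  linear_combination h3

omit [DecidableEq n] in
theorem eq_trace_smul {e X : Matrix n n A} (h : ∀ a b c d, e a b * e c d - e a d * e c b = 0)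
    (hl : e * X = X) (hr : X * e = X) : X = X.trace • e := by
  have := cong_bot.1 (rk_mul (J := ⊥) (fun a b c d => Ideal.mem_bot.2 (h a b c d)) X)
  rwa [hl, hr] at this

omit [DecidableEq n] in
theorem trace_eq_one (hK : ∀ a ∈ K, ∀ b ∈ K, a * b = 0) {e : Matrix n n A} (he : e * e = e)
    (h : ∀ a b c d, e a b * e c d - e a d * e c b = 0) (ht : e.trace - 1 ∈ K) : e.trace = 1 := by
  have h1 := congrArg Matrix.trace (eq_trace_smul h he he)
  rw [Matrix.trace_smul, smul_eq_mul] at h1
  linear_combination -h1 - hK _ ht _ ht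

/-- replace the diagonal terms by idempotents -/
def st1 (φ : Fin 3 → Fin 3 → Matrix n n A) : Fin 3 → Fin 3 → Matrix n n A :=
  fun i j => if i = j then idem (φ i i) else φ i j

/-- cut down by the idempotents -/
def cut (ψ : Fin 3 → Fin 3 → Matrix n n A) : Fin 3 → Fin 3 → Matrix n n A :=
  fun i j => ψ i i * ψ i j * ψ j j

/-- rescale so that opposite terms are inverse to each other -/
def st2 (u : Fin 3 → Fin 3 → Matrix n n A) : Fin 3 → Fin 3 → Matrix n n A :=
  fun i j => (if j < i then 1 - ((u i j * u j i).trace - 1) else 1 : A) • u i j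

theorem st1_cong (h : Coc J φ) (i j : Fin 3) : Cong J (st1 φ i j) (φ i j) := by
  unfold st1
  split_ifs with hij
  · subst hij
    exact idem_cong (h.mul i i i)
  · exact Cong.refl _ _

theorem cut_cong (h : Coc J φ) (i j : Fin 3) : Cong J (cut φ i j) (φ i j) :=
  ((h.mul i i j).mul (Cong.refl _ _)).trans (h.mul i j j)

omit [DecidableEq n] in
theorem eta_mem (h : Coc J φ) (i j : Fin 3) : (φ i j * φ j i).trace - 1 ∈ J := by
  simpa using J.add_mem (h.mul i j i).trace (h.tr i)

omit [DecidableEq n] in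
theorem st2_cong (h : Coc J φ) (i j : Fin 3) : Cong J (st2 φ i j) (φ i j) := by
  have : Cong J (st2 φ i j) ((1 : A) • φ i j) := by
    refine Cong.smul ?_ (Cong.refl _ _)
    split_ifs
    · simpa using J.neg_mem (eta_mem h i j)
    · simp
  rwa [one_smul] at this

omit [DecidableEq n] in
theorem st1_ent (h : Ent R φ) : Ent R (st1 φ) := by
  intro i j a b
  unfold st1
  split_ifs with hij
  · subst hij
    have h2 := ent_mul (h i i) (h i i)
    have h3 := ent_mul h2 (h i i)
    simp only [idem, Matrix.sub_apply, Matrix.add_apply]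
    exact sub_mem (add_mem (add_mem (h2 a b) (h2 a b)) (h2 a b)) (add_mem (h3 a b) (h3 a b))
  · exact h i j a b

omit [DecidableEq n] in
theorem cut_ent (hR : Sys3 R) (h : Ent R φ) : Ent R (cut φ) := fun i j =>
  ent_mul (ent_mul (fun a b => hR.le i j (h i i a b)) (h i j))
    fun a b => hR.symm j i ▸ hR.le j i (h j j a b)

omit [DecidableEq n] in
theorem st2_ent (hR : Sys3 R) (h : Ent R φ) : Ent R (st2 φ) := by
  intro i j a b
  simp only [st2, Matrix.smul_apply, smul_eq_mul]
  refine mul_mem ?_ (h i j a b)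
  split_ifs
  · exact sub_mem (one_mem _) (sub_mem
      (ent_trace (ent_mul (h i j) fun a b => hR.symm j i ▸ h j i a b)) (one_mem _))
  · exact one_mem _

section Map

variable {B : Type} [CommRing B] (p : A →+* B)

theorem st1_map : mp p (st1 φ) = st1 (mp p φ) := by
  funext i j
  simp only [mp, st1]
  split_ifs
  · change p.mapMatrix (idem _) = idem (p.mapMatrix _)
    simp only [idem, map_sub, map_add, map_mul]
  · rfl

omit [DecidableEq n] in
theorem cut_map : mp p (cut φ) = cut (mp p φ) := by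
  funext i j
  simp only [mp, cut, Matrix.map_mul]

omit [Fintype n] [DecidableEq n] in
theorem smul_map (r : A) (M : Matrix n n A) : (r • M).map p = p r • M.map p := by
  ext a b
  simp

omit [DecidableEq n] in
theorem st2_map : mp p (st2 φ) = st2 (mp p φ) := by
  funext i j
  simp only [mp, st2, smul_map, ← Matrix.map_mul, trace_map]
  split_ifs <;> simp

end Map

theorem core0 (h2 : IsUnit (2 : A)) (hK : ∀ a ∈ K, ∀ b ∈ K, a * b = 0) (h : Coc K φ) :
    Pre ⊥ (st2 (cut (st1 φ))) := by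
  have h1 : Coc K (st1 φ) := h.congr (st1_cong h)
  have hee : ∀ i, st1 φ i i * st1 φ i i = st1 φ i i := fun i => by
    simp only [st1, if_true]
    exact idem_mul hK (h.mul i i i)
  generalize st1 φ = ψ at h1 hee
  have hrk : ∀ i a b c d, ψ i i a b * ψ i i c d - ψ i i a d * ψ i i c b = 0 := fun i =>
    minor_zero h2 hK (hee i) (h1.rk i)
  have htr : ∀ i, (ψ i i).trace = 1 := fun i => trace_eq_one hK (hee i) (hrk i) (h1.tr i)
  have hu : Coc K (cut ψ) := h1.congr (cut_cong h1)
  have hd : ∀ i, cut ψ i i = ψ i i := fun i => by rw [cut, hee, hee]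
  have hl : ∀ i j, ψ i i * cut ψ i j = cut ψ i j := fun i j => by
    simp only [cut, ← mul_assoc, hee]
  have hr : ∀ i j, cut ψ i j * ψ j j = cut ψ i j := fun i j => by
    simp only [cut, mul_assoc, hee]
  generalize cut ψ = u at hu hd hl hr
  have hd2 : ∀ i, st2 u i i = ψ i i := fun i => by simp [st2, hd]
  refine ⟨fun i j => cong_bot.2 ?_, fun i j => cong_bot.2 ?_, fun i j => cong_bot.2 ?_,
    fun i => ?_, fun i a b c d => ?_⟩
  · rw [hd2, st2, Matrix.mul_smul, hl]
  · rw [hd2, st2, Matrix.smul_mul, hr]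
  · have hX : u i j * u j i = (u i j * u j i).trace • ψ i i :=
      eq_trace_smul (hrk i) (by rw [← mul_assoc, hl]) (by rw [mul_assoc, hr])
    have hη := eta_mem hu i j
    rw [hd2, st2, st2, Matrix.smul_mul, Matrix.mul_smul, Matrix.trace_mul_comm (u j i)]
    generalize ht : (u i j * u j i).trace = t at hX hη
    rw [hX, smul_smul, smul_smul]
    convert one_smul A (ψ i i) using 2
    have hq := hK _ hη _ hη
    rcases lt_trichotomy i j with hij | hij | hij
    · rw [if_neg hij.not_gt, if_pos hij]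
      linear_combination -hq
    · subst hij
      rw [if_neg (lt_irrefl _), ← ht, hd, hee, htr]
      ring
    · rw [if_pos hij, if_neg hij.not_gt]
      linear_combination -hq
  · rw [hd2, htr, sub_self]
    exact zero_mem _
  · rw [hd2, hrk]
    exact zero_mem _

omit [DecidableEq n] in
theorem coc_of_ob (h : Pre ⊥ φ) (h0 : ob φ = 0) : Coc ⊥ φ := by
  have hl : ∀ i j, φ i i * φ i j = φ i j := fun i j => cong_bot.1 (h.left i j)
  have hr : ∀ i j, φ i j * φ j j = φ i j := fun i j => cong_bot.1 (h.right i j)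
  have hi : ∀ i j, φ i j * φ j i = φ i i := fun i j => cong_bot.1 (h.inv i j)
  have hX : φ 0 1 * φ 1 2 * φ 2 0 = φ 0 0 := by
    have := eq_trace_smul (X := φ 0 1 * φ 1 2 * φ 2 0)
      (fun a b c d => Ideal.mem_bot.1 (h.rk 0 a b c d))
      (by simp only [← Matrix.mul_assoc, hl]) (by simp only [Matrix.mul_assoc, hr])
    rwa [sub_eq_zero.1 h0, one_smul] at this
  have h12 : φ 1 2 = φ 1 0 * φ 0 2 := by
    calc φ 1 2 = (φ 1 0 * φ 0 1) * φ 1 2 * (φ 2 0 * φ 0 2) := by rw [hi, hi, hl, hr]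
      _ = φ 1 0 * (φ 0 1 * φ 1 2 * φ 2 0) * φ 0 2 := by simp only [Matrix.mul_assoc]
      _ = φ 1 0 * φ 0 2 := by rw [hX, hr]
  have h21 : φ 2 1 = φ 2 0 * φ 0 1 := by
    calc φ 2 1 = φ 2 0 * (φ 0 1 * φ 1 0) * φ 0 2 * φ 2 1 := by rw [hi, hr, hi, hl]
      _ = φ 2 0 * φ 0 1 * (φ 1 0 * φ 0 2 * φ 2 1) := by simp only [Matrix.mul_assoc]
      _ = φ 2 0 * φ 0 1 := by rw [← h12, hi, Matrix.mul_assoc, hr]
  have hall : ∀ i j, φ i j = φ i 0 * φ 0 j := by
    intro i j
    fin_cases i <;> fin_cases j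
    exacts [(hi 0 0).symm, (hl 0 1).symm, (hl 0 2).symm, (hr 1 0).symm, (hi 1 0).symm, h12,
      (hr 2 0).symm, h21, (hi 2 0).symm]
  refine ⟨fun i j l => cong_bot.2 ?_, h.tr, h.rk⟩
  calc φ i j * φ j l = φ i 0 * φ 0 j * (φ j 0 * φ 0 l) := by rw [← hall, ← hall]
    _ = φ i 0 * (φ 0 j * φ j 0) * φ 0 l := by simp only [Matrix.mul_assoc]
    _ = φ i l := by rw [hi, hr, ← hall]

/-- the scaling factors -/
def sc (c01 c12 c20 : A) : Fin 3 → Fin 3 → A :=
  ![![1, 1 - c01, 1 + c20], ![1 + c01, 1, 1 - c12], ![1 - c20, 1 + c12, 1]]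

theorem sc_diag (c01 c12 c20 : A) (i : Fin 3) : sc c01 c12 c20 i i = 1 := by
  fin_cases i <;> rfl

omit [DecidableEq n] in
theorem core1 (hK : ∀ a ∈ K, ∀ b ∈ K, a * b = 0) {c01 c12 c20 : A} (h : Pre ⊥ φ) (k1 : c01 ∈ K)
    (k2 : c12 ∈ K) (k3 : c20 ∈ K) (h0 : ob φ = c01 + c12 + c20) :
    Coc ⊥ fun i j => sc c01 c12 c20 i j • φ i j := by
  have hinv : ∀ i j, sc c01 c12 c20 i j * sc c01 c12 c20 j i = 1 := by
    have q1 := hK _ k1 _ k1
    have q2 := hK _ k2 _ k2
    have q3 := hK _ k3 _ k3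
    intro i j
    fin_cases i <;> fin_cases j <;> simp [sc] <;>
      first
        | linear_combination -q1
        | linear_combination -q2
        | linear_combination -q3
  refine coc_of_ob ⟨fun i j => cong_bot.2 ?_, fun i j => cong_bot.2 ?_, fun i j => cong_bot.2 ?_,
    fun i => ?_, fun i a b c d => ?_⟩ ?_
  · rw [sc_diag, one_smul, Matrix.mul_smul, cong_bot.1 (h.left i j)]
  · rw [sc_diag, one_smul, Matrix.smul_mul, cong_bot.1 (h.right i j)]
  · rw [sc_diag, one_smul, Matrix.smul_mul, Matrix.mul_smul, smul_smul, hinv, one_smul,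
      cong_bot.1 (h.inv i j)]
  · rw [sc_diag, one_smul]
    exact h.tr i
  · rw [sc_diag, one_smul]
    exact h.rk i a b c d
  · have ht : (φ 0 1 * φ 1 2 * φ 2 0).trace = 1 + (c01 + c12 + c20) := by
      rw [← h0, ob]
      ring
    have ks : c01 + c12 + c20 ∈ K := K.add_mem (K.add_mem k1 k2) k3
    change ((1 - c01) • φ 0 1 * (1 - c12) • φ 1 2 * (1 - c20) • φ 2 0).trace - 1 = 0
    simp only [Matrix.smul_mul, Matrix.mul_smul, Matrix.trace_smul, smul_eq_mul, ht]
    linear_combination (1 + (c01 + c12 + c20)) * ((1 - c20) * hK _ k1 _ k2 + hK _ k1 _ k3 +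
      hK _ k2 _ k3) - hK _ ks _ ks

end NCocAP

open NCocAP

theorem cocA0 : S_CocA0 := by
  intro A _ n _ _ R J J' φ h2 hR _ hJ hE hC
  have h1 : Coc J (st1 φ) := hC.congr (st1_cong hC)
  have h3 : Coc J (cut (st1 φ)) := h1.congr (cut_cong h1)
  refine ⟨st2 (cut (st1 φ)), st2_ent hR (cut_ent hR (st1_ent hE)),
    fun i j => ((st2_cong h3 i j).trans (cut_cong h1 i j)).trans (st1_cong hC i j), pre_of_map ?_⟩
  rw [st2_map, cut_map, st1_map]
  refine core0 ?_ (sq_zero hJ) (hC.map _ fun a ha => Ideal.mem_map_of_mem _ ha)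
  simpa only [map_ofNat] using h2.map (Ideal.Quotient.mk J')

theorem cocA1 : S_CocA1 := by
  intro A _ n _ _ R J J' φ c01 c12 c20 hR _ hJ hE hP r1 r2 r3 k1 k2 k3 h0
  refine ⟨fun i j => sc c01 c12 c20 i j • φ i j, fun i j a b => ?_, fun i j => ?_, coc_of_map ?_⟩
  · simp only [Matrix.smul_apply, smul_eq_mul]
    refine mul_mem ?_ (hE i j a b)
    have r1' : c01 ∈ R 1 0 := hR.symm 0 1 ▸ r1
    have r2' : c12 ∈ R 2 1 := hR.symm 1 2 ▸ r2
    have r3' : c20 ∈ R 0 2 := hR.symm 2 0 ▸ r3
    fin_cases i <;> fin_cases j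
    exacts [one_mem _, sub_mem (one_mem _) r1, add_mem (one_mem _) r3', add_mem (one_mem _) r1',
      one_mem _, sub_mem (one_mem _) r2, sub_mem (one_mem _) r3, add_mem (one_mem _) r2',
      one_mem _]
  · have : Cong J (sc c01 c12 c20 i j • φ i j) ((1 : A) • φ i j) := by
      refine Cong.smul ?_ (Cong.refl _ _)
      fin_cases i <;> fin_cases j <;> simp [sc, k1, k2, k3]
    rwa [one_smul] at this
  · have e : mp (Ideal.Quotient.mk J') (fun i j => sc c01 c12 c20 i j • φ i j) = fun i j =>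
        sc (Ideal.Quotient.mk J' c01) (Ideal.Quotient.mk J' c12) (Ideal.Quotient.mk J' c20) i j •
          mp (Ideal.Quotient.mk J') φ i j := by
      funext i j
      simp only [mp, smul_map]
      congr 1
      fin_cases i <;> fin_cases j <;> simp [sc]
    rw [e]
    refine core1 (sq_zero hJ) (hP.map _ fun a ha => ?_) (Ideal.mem_map_of_mem _ k1)
      (Ideal.mem_map_of_mem _ k2) (Ideal.mem_map_of_mem _ k3) ?_
    · exact Ideal.mem_bot.2 (Ideal.Quotient.eq_zero_iff_mem.2 ha)
    · rw [ob_mp, ← map_add, ← map_add]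
      exact Ideal.Quotient.eq.2 h0

end Pool.Agent.P.MP_2b2d3b_ag
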