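import Pool.Agent.P.MP_2b2d3b_ag.StN

/-! Comparison of a lifted cocycle with an isomorphic cocycle. -/

namespace Pool.Agent.P.MP_2b2d3b_ag

namespace NCocBP

variable {A : Type} [CommRing A] {n : Type} [Fintype n] [DecidableEq n]
  {R : Fin 3 → Fin 3 → Subring A} {J J' : Ideal A} {φ ψ : Fin 3 → Fin 3 → Matrix n n A}

/-- entries in a subring -/
def ME (S : Subring A) (M : Matrix n n A) : Prop := ∀ a b, M a b ∈ S

omit [DecidableEq n] in
theorem ME.mul {S : Subring A} {M N : Matrix n n A} (h : ME S M) (h' : ME S N) : ME S (M * N) :=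
  fun a b => by
    rw [Matrix.mul_apply]
    exact sum_mem fun c _ => mul_mem (h a c) (h' c b)

omit [Fintype n] [DecidableEq n] in
theorem ME.smul {S : Subring A} {M : Matrix n n A} {r : A} (hr : r ∈ S) (h : ME S M) :
    ME S (r • M) := fun a b => mul_mem hr (h a b)

omit [DecidableEq n] in
theorem ME.trace {S : Subring A} {M : Matrix n n A} (h : ME S M) : M.trace ∈ S :=
  sum_mem fun a _ => h a a

omit [Fintype n] [DecidableEq n] in
theorem ME.mono {S S' : Subring A} {M : Matrix n n A} (h : ME S M) (hS : S ≤ S') : ME S' M :=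
  fun a b => hS (h a b)

omit [Fintype n] [DecidableEq n] in
theorem eq_of_cong {M N : Matrix n n A} (h : Cong ⊥ M N) : M = N :=
  Matrix.ext fun a b => sub_eq_zero.1 (Ideal.mem_bot.1 (h a b))

/-- the conclusion of the core lemma -/
structure Out (R : Fin 3 → Fin 3 → Subring A) (J : Ideal A) (φ ψ : Fin 3 → Fin 3 → Matrix n n A)
    (a b : Fin 3 → Matrix n n A) (c : Fin 3 → Fin 3 → A) : Prop where
  am : ∀ i, ME (R i i) (a i)
  bm : ∀ i, ME (R i i) (b i)
  cm : ∀ i j, c i j ∈ R i j ∧ c i j ∈ J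
  ba : ∀ i, b i * a i = ψ i i
  tr : ∀ i, (a i * ψ i i * b i).trace = 1
  co : ∀ i j l, a i * ψ i j * b j * (a j * ψ j l * b l) = a i * ψ i l * b l
  eq : ∀ i j, φ i j = (1 + c i j) • (a i * ψ i j * b j)

theorem core (hR : Sys3 R) (hJ : ∀ x ∈ J, ∀ y ∈ J, x * y = 0) (eφ : Ent R φ) (eψ : Ent R ψ)
    (hφ : Pre ⊥ φ) (hψ : Coc ⊥ ψ) (hI : IsoM R J φ ψ) : ∃ a b c, Out R J φ ψ a b c := by
  obtain ⟨α, β, hm, hc⟩ := hI
  have fl : ∀ i j, φ i i * φ i j = φ i j := fun i j => eq_of_cong (hφ.left i j)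
  have fr : ∀ i j, φ i j * φ j j = φ i j := fun i j => eq_of_cong (hφ.right i j)
  have fi : ∀ i j, φ i j * φ j i = φ i i := fun i j => eq_of_cong (hφ.inv i j)
  have ft : ∀ i, (φ i i).trace = 1 := fun i => sub_eq_zero.1 (Ideal.mem_bot.1 (hφ.tr i))
  have fk : ∀ i M, φ i i * M * φ i i = (φ i i * M).trace • φ i i := fun i M =>
    eq_of_cong (rk_mul (hφ.rk i) M)
  have pm : ∀ i j l, ψ i j * ψ j l = ψ i l := fun i j l => eq_of_cong (hψ.mul i j l)
  have pm' : ∀ i j l M, ψ i j * (ψ j l * M) = ψ i l * M := fun i j l M => by rw [← mul_assoc, pm]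
  have fl' : ∀ i M, φ i i * (φ i i * M) = φ i i * M := fun i M => by rw [← mul_assoc, fl]
  have pk : ∀ i M, ψ i i * M * ψ i i = (ψ i i * M).trace • ψ i i := fun i M =>
    eq_of_cong (rk_mul (hψ.rk i) M)
  have hα : ∀ i, ME (R i i) (α i) := fun i a b => (hm i a b).1
  have hβ : ∀ i, ME (R i i) (β i) := fun i a b => (hm i a b).2
  have eφ' : ∀ i j, ME (R i j) (φ i j) := eφ
  have eψ' : ∀ i j, ME (R i j) (ψ i j) := eψ
  obtain ⟨κ, hκ⟩ : ∃ κ : Fin 3 → A, ∀ i, (φ i i * (α i * ψ i i * β i)).trace = 1 + κ i :=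
    ⟨fun i => (φ i i * (α i * ψ i i * β i)).trace - 1, fun i => by ring⟩
  have κJ : ∀ i, κ i ∈ J := fun i => by
    have h1 := ((Cong.refl J (φ i i)).mul (hc i i).1).trace
    rwa [hκ, fl, ft, add_sub_cancel_left] at h1
  have κR : ∀ i, κ i ∈ R i i := fun i => by
    have h1 := sub_mem ((eφ' i i).mul (((hα i).mul (eψ' i i)).mul (hβ i))).trace (one_mem _)
    rwa [hκ, add_sub_cancel_left] at h1
  have κ1 : ∀ i, (1 - κ i) * (1 + κ i) = 1 := fun i => by
    linear_combination -hJ _ (κJ i) _ (κJ i)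
  obtain ⟨a, ha⟩ : ∃ a : Fin 3 → Matrix n n A, ∀ i, a i = φ i i * α i * ψ i i := ⟨_, fun _ => rfl⟩
  obtain ⟨b, hb⟩ : ∃ b : Fin 3 → Matrix n n A, ∀ i, b i = (1 - κ i) • (ψ i i * β i * φ i i) :=
    ⟨_, fun _ => rfl⟩
  have am : ∀ i, ME (R i i) (a i) := fun i => ha i ▸ ((eφ' i i).mul (hα i)).mul (eψ' i i)
  have bm : ∀ i, ME (R i i) (b i) := fun i => hb i ▸
    ME.smul (sub_mem (one_mem _) (κR i)) (((eψ' i i).mul (hβ i)).mul (eφ' i i))
  have hχ : ∀ i j, a i * ψ i j * b j = (1 - κ j) • (φ i i * (α i * ψ i j * β j) * φ j j) := by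
    intro i j
    rw [ha, hb, mul_smul_comm]
    simp only [mul_assoc, pm']
  have ab : ∀ i, a i * ψ i i * b i = φ i i := fun i => by
    rw [hχ, fk, hκ, smul_smul, κ1, one_smul]
  have ba : ∀ i, b i * a i = ψ i i := fun i => by
    have h1 : ψ i i * β i * φ i i * (φ i i * α i * ψ i i)
        = ψ i i * (β i * φ i i * α i) * ψ i i := by
      simp only [mul_assoc, fl']
    have h2 : (ψ i i * (β i * φ i i * α i)).trace = 1 + κ i := by
      rw [← hκ, show ψ i i * (β i * φ i i * α i) = (ψ i i * β i) * (φ i i * α i) by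
        simp only [mul_assoc], Matrix.trace_mul_comm]
      simp only [mul_assoc]
    rw [ha, hb, smul_mul_assoc, h1, pk, h2, smul_smul, κ1, one_smul]
  have co : ∀ i j l, a i * ψ i j * b j * (a j * ψ j l * b l) = a i * ψ i l * b l := by
    intro i j l
    rw [show a i * ψ i j * b j * (a j * ψ j l * b l)
      = a i * (ψ i j * (b j * a j) * ψ j l) * b l by simp only [mul_assoc], ba, pm, pm]
  have cg : ∀ i j, Cong J (a i * ψ i j * b j) (φ i j) := fun i j => by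
    have h1 := Cong.smul (r := 1 - κ j) (r' := 1) (by simpa using κJ j)
      (((Cong.refl J (φ i i)).mul (hc i j).1).mul (Cong.refl J (φ j j)))
    rwa [← hχ, fl, fr, one_smul] at h1
  refine ⟨a, b, fun i j => (φ j j * (a j * ψ j i * b i * φ i j)).trace - 1, am, bm,
    fun i j => ⟨?_, ?_⟩, ba, fun i => by rw [ab, ft], co, fun i j => ?_⟩
  · have l1 : R i i ≤ R i j := hR.le i j
    have l2 : R j j ≤ R i j := hR.symm j i ▸ hR.le j i
    have l3 : ME (R i j) (ψ j i) := hR.symm j i ▸ eψ' j i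
    exact sub_mem (((eφ' j j).mono l2).mul
      (((((am j).mono l2).mul l3).mul ((bm i).mono l1)).mul (eφ' i j))).trace (one_mem _)
  · have h1 := ((Cong.refl J (φ j j)).mul ((cg j i).mul (Cong.refl J (φ i j)))).trace
    rwa [fi, fl, ft] at h1
  · have h1 := congrArg (a i * ψ i j * b j * ·) (fk j (a j * ψ j i * b i * φ i j))
    have h2 : a i * ψ i j * b j * φ j j = a i * ψ i j * b j := by rw [← ab j, co]
    simp only [mul_smul_comm, h2] at h1
    rw [← mul_assoc, ← mul_assoc, h2, ← mul_assoc, co, ab, fl, fr] at h1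
    rw [add_sub_cancel]
    exact h1

theorem ob_eq (hJ : ∀ x ∈ J, ∀ y ∈ J, x * y = 0) {a b : Fin 3 → Matrix n n A}
    {c : Fin 3 → Fin 3 → A} (O : Out R J φ ψ a b c) : ob φ = c 0 1 + c 1 2 + c 2 0 := by
  rw [ob, O.eq 0 1, O.eq 1 2, O.eq 2 0]
  simp only [smul_mul_smul_comm]
  rw [O.co, O.co, Matrix.trace_smul, O.tr, smul_eq_mul]
  linear_combination (1 + c 2 0) * hJ _ (O.cm 0 1).2 _ (O.cm 1 2).2
    + hJ _ (O.cm 0 1).2 _ (O.cm 2 0).2 + hJ _ (O.cm 1 2).2 _ (O.cm 2 0).2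

theorem iso (hJ : ∀ x ∈ J, ∀ y ∈ J, x * y = 0) (hφ : Coc ⊥ φ) (hψ : Coc ⊥ ψ) (H : H1J R J ⊥)
    {a b : Fin 3 → Matrix n n A} {c : Fin 3 → Fin 3 → A} (O : Out R J φ ψ a b c) :
    IsoM R ⊥ φ ψ := by
  have pm : ∀ i j l, ψ i j * ψ j l = ψ i l := fun i j l => eq_of_cong (hψ.mul i j l)
  obtain ⟨e, he, hc⟩ := H c O.cm fun i j l => by
    have h1 := eq_of_cong (hφ.mul i j l)
    rw [O.eq i j, O.eq j l, O.eq i l, smul_mul_smul_comm, O.co] at h1
    have h2 := congrArg (fun M => (M * (a l * ψ l i * b i)).trace) h1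
    simp only [smul_mul_assoc, O.co, Matrix.trace_smul, O.tr, smul_eq_mul] at h2
    rw [Ideal.mem_bot]
    linear_combination -h2 + hJ _ (O.cm i j).2 _ (O.cm j l).2
  have hc' : ∀ i j, c i j = e i - e j := fun i j => sub_eq_zero.1 (Ideal.mem_bot.1 (hc i j))
  have hee : ∀ i j, e i * e j = 0 := fun i j => hJ _ (he i).2 _ (he j).2
  refine ⟨fun i => (1 + e i) • a i, fun i => (1 - e i) • b i, fun i x y =>
    ⟨ME.smul (add_mem (one_mem _) (he i).1) (O.am i) x y,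
      ME.smul (sub_mem (one_mem _) (he i).1) (O.bm i) x y⟩, fun i j => ⟨?_, ?_⟩⟩
  · have h1 : (1 + e i) * (1 - e j) = 1 + c i j := by
      rw [hc']
      linear_combination -hee i j
    rw [smul_mul_assoc, smul_mul_smul_comm, h1, ← O.eq]
    exact Cong.refl _ _
  · have h1 : (1 - e i) * (1 + c i j) * (1 + e j) = 1 := by
      rw [hc']
      linear_combination (1 + e j) * hee i j - (1 + e j) * hee i i - hee j j
    rw [O.eq i j, smul_mul_smul_comm, smul_mul_smul_comm, h1, one_smul,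
      show b i * (a i * ψ i j * b j) * a j = b i * a i * ψ i j * (b j * a j) by
        simp only [mul_assoc], O.ba, O.ba, pm, pm]
    exact Cong.refl _ _

/-- the images of the subrings -/
def Rq (R : Fin 3 → Fin 3 → Subring A) (J' : Ideal A) (i j : Fin 3) : Subring (A ⧸ J') :=
  (R i j).map (Ideal.Quotient.mk J')

theorem mem_Rq {i j : Fin 3} {x : A} (h : x ∈ R i j) : Ideal.Quotient.mk J' x ∈ Rq R J' i j :=
  ⟨x, h, rfl⟩

theorem lift_mem (hJ : J' ≤ J) {i j : Fin 3} {x : A ⧸ J'} (h1 : x ∈ Rq R J' i j)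
    (h2 : x ∈ J.map (Ideal.Quotient.mk J')) :
    ∃ c, (c ∈ R i j ∧ c ∈ J) ∧ Ideal.Quotient.mk J' c = x := by
  obtain ⟨c, hc, rfl⟩ := h1
  exact ⟨c, ⟨hc, (Ideal.mem_quotient_iff_mem hJ).1 h2⟩, rfl⟩

theorem sq_zero (h : J * J ≤ J') : ∀ x ∈ J.map (Ideal.Quotient.mk J'),
    ∀ y ∈ J.map (Ideal.Quotient.mk J'), x * y = 0 := by
  intro x hx y hy
  obtain ⟨u, hu, rfl⟩ := (Ideal.mem_map_iff_of_surjective _ Ideal.Quotient.mk_surjective).1 hx
  obtain ⟨v, hv, rfl⟩ := (Ideal.mem_map_iff_of_surjective _ Ideal.Quotient.mk_surjective).1 hy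
  rw [← map_mul, Ideal.Quotient.eq_zero_iff_mem]
  exact h (Ideal.mul_mem_mul hu hv)

theorem to_bot : ∀ a ∈ J', Ideal.Quotient.mk J' a ∈ (⊥ : Ideal (A ⧸ J')) := fun _ ha =>
  Ideal.mem_bot.2 (Ideal.Quotient.eq_zero_iff_mem.2 ha)

theorem core' (hR : Sys3 R) (h2 : J * J ≤ J') (eφ : Ent R φ) (eψ : Ent R ψ) (hφ : Pre J' φ)
    (hψ : Coc J' ψ) (hI : IsoM R J φ ψ) :
    ∃ a b c, Out (Rq R J') (J.map (Ideal.Quotient.mk J')) (mp (Ideal.Quotient.mk J') φ)
      (mp (Ideal.Quotient.mk J') ψ) a b c := by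
  refine core ⟨fun i j => by rw [Rq, Rq, hR.symm], fun i j => ?_⟩ (sq_zero h2)
    (fun i j a b => mem_Rq (eφ i j a b)) (fun i j a b => mem_Rq (eψ i j a b))
    (hφ.map _ to_bot) (hψ.map _ to_bot) ?_
  · rintro _ ⟨x, hx, rfl⟩
    exact mem_Rq (hR.le i j hx)
  · obtain ⟨α, β, hm, hc⟩ := hI
    refine ⟨fun i => (α i).map (Ideal.Quotient.mk J'), fun i => (β i).map (Ideal.Quotient.mk J'),
      fun i a b => ⟨mem_Rq (hm i a b).1, mem_Rq (hm i a b).2⟩, fun i j => ⟨?_, ?_⟩⟩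
    · simpa only [mp, Matrix.map_mul] using
        (hc i j).1.map (Ideal.Quotient.mk J') fun _ => Ideal.mem_map_of_mem _
    · simpa only [mp, Matrix.map_mul] using
        (hc i j).2.map (Ideal.Quotient.mk J') fun _ => Ideal.mem_map_of_mem _

end NCocBP

open NCocBP

theorem cocA2 : S_CocA2 := by
  intro A _ n _ _ R J J' φ ψ hR h1 h2 eφ eψ hφ hψ hI
  obtain ⟨a, b, c, O⟩ := core' hR h2 eφ eψ hφ hψ hI
  have h3 := ob_eq (sq_zero h2) O
  choose d hd hd' using fun i j => lift_mem h1 (O.cm i j).1 (O.cm i j).2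
  refine ⟨d 0 1, d 1 2, d 2 0, (hd 0 1).1, (hd 1 2).1, (hd 2 0).1, (hd 0 1).2, (hd 1 2).2,
    (hd 2 0).2, ?_⟩
  rw [← Ideal.Quotient.eq, ← ob_mp, h3, map_add, map_add, hd', hd', hd']

theorem cocB : S_CocB := by
  intro A _ n _ _ R J J' φ ψ hR h1 h2 eφ eψ hφ hψ hI H
  obtain ⟨a, b, c, O⟩ := core' hR h2 eφ eψ hφ.pre hψ hI
  obtain ⟨α, β, hm, hc⟩ := iso (sq_zero h2) (hφ.map _ to_bot) (hψ.map _ to_bot) (fun c hc hco => by
    choose d hd hd' using fun i j => lift_mem h1 (hc i j).1 (hc i j).2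
    obtain ⟨e, he, he'⟩ := H d hd fun i j l => by
      rw [← Ideal.Quotient.eq_zero_iff_mem, map_sub, map_add, hd', hd', hd']
      exact Ideal.mem_bot.1 (hco i j l)
    refine ⟨fun i => Ideal.Quotient.mk J' (e i),
      fun i => ⟨mem_Rq (he i).1, Ideal.mem_map_of_mem _ (he i).2⟩, fun i j => ?_⟩
    have h3 := to_bot _ (he' i j)
    rwa [map_sub, map_sub, hd'] at h3) O
  choose α' hα hα' using fun i x y => (hm i x y).1
  choose β' hβ hβ' using fun i x y => (hm i x y).2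
  have e1 : ∀ i, (Ideal.Quotient.mk J').mapMatrix (Matrix.of (α' i)) = α i := fun i =>
    Matrix.ext fun x y => hα' i x y
  have e2 : ∀ i, (Ideal.Quotient.mk J').mapMatrix (Matrix.of (β' i)) = β i := fun i =>
    Matrix.ext fun x y => hβ' i x y
  refine ⟨fun i => Matrix.of (α' i), fun i => Matrix.of (β' i),
    fun i x y => ⟨hα i x y, hβ i x y⟩, fun i j => ⟨?_, ?_⟩⟩
  · rw [cong_iff, map_mul, map_mul, e1, e2]
    exact eq_of_cong (hc i j).1
  · rw [cong_iff, map_mul, map_mul, e1, e2]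
    exact eq_of_cong (hc i j).2

end Pool.Agent.P.MP_2b2d3b_ag
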