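import Pool.Agent.P.MP_2b2d3b_ag.StN

/-!
Factorisation of rank one matrices on the very general sextic.
-/

namespace Pool.Agent.P.MP_2b2d3b_ag

open MvPolynomial

namespace NFactP

section Alg

variable {A : Type} [CommRing A] {n : Type} [Fintype n]

theorem pair_eq {K : Ideal A} {M : Matrix n n A} {s s' t t' : n → A}
    (hs : ∀ a, s a - M.mulVec s' a ∈ K) (ht : ∀ a, t' a - M.transpose.mulVec t a ∈ K) :
    ∑ c, s c * t c - ∑ c, s' c * t' c ∈ K := by
  have e : ∑ c, M.mulVec s' c * t c = ∑ c, s' c * M.transpose.mulVec t c := by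
    simp only [Matrix.mulVec, dotProduct, Matrix.transpose_apply, Finset.sum_mul, Finset.mul_sum]
    rw [Finset.sum_comm]
    exact Finset.sum_congr rfl fun b _ => Finset.sum_congr rfl fun c _ => by ring
  have h1 : ∑ c, (s c - M.mulVec s' c) * t c ∈ K :=
    K.sum_mem fun c _ => K.mul_mem_right _ (hs c)
  have h2 : ∑ c, s' c * (t' c - M.transpose.mulVec t c) ∈ K :=
    K.sum_mem fun c _ => K.mul_mem_left _ (ht c)
  convert K.sub_mem h1 h2 using 1
  simp only [sub_mul, mul_sub, Finset.sum_sub_distrib, e]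
  ring

theorem wedge_mem {K : Ideal A} {e : Matrix n n A}
    (he : ∀ a b c d, e a b * e c d - e a d * e c b ∈ K) {s s' : n → A}
    (hs : ∀ a, s a - e.mulVec s a ∈ K) (hs' : ∀ a, s' a - e.mulVec s' a ∈ K) (a c : n) :
    s a * s' c - s c * s' a ∈ K := by
  have h1 : e.mulVec s a * e.mulVec s' c - e.mulVec s c * e.mulVec s' a ∈ K := by
    have : e.mulVec s a * e.mulVec s' c - e.mulVec s c * e.mulVec s' a
        = ∑ b, ∑ d, (e a b * e c d - e a d * e c b) * (s b * s' d) := by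
      simp only [Matrix.mulVec, dotProduct, Finset.sum_mul_sum, ← Finset.sum_sub_distrib]
      exact Finset.sum_congr rfl fun b _ => Finset.sum_congr rfl fun d _ => by ring
    rw [this]
    exact K.sum_mem fun b _ => K.sum_mem fun d _ => K.mul_mem_right _ (he a b c d)
  have q := fun a => Ideal.Quotient.eq.mpr (hs a)
  have q' := fun a => Ideal.Quotient.eq.mpr (hs' a)
  rw [← Ideal.Quotient.eq, map_mul, map_mul, q a, q c, q' a, q' c, ← map_mul, ← map_mul,
    Ideal.Quotient.eq]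
  exact h1

theorem minor_mem {K : Ideal A} {e : Matrix n n A}
    (he : ∀ a b c d, e a b * e c d - e a d * e c b ∈ K) {s s' : n → A}
    (hs : ∀ a, s a - e.mulVec s a ∈ K) (hs' : ∀ a, s' a - e.mulVec s' a ∈ K) (t t' : n → A) :
    (∑ c, s c * t c) * (∑ c, s' c * t' c) - (∑ c, s c * t' c) * (∑ c, s' c * t c) ∈ K := by
  have : (∑ c, s c * t c) * (∑ c, s' c * t' c) - (∑ c, s c * t' c) * (∑ c, s' c * t c)
      = ∑ a, ∑ c, (s a * s' c - s c * s' a) * (t a * t' c) := by
    rw [mul_comm (∑ c, s c * t' c)]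
    simp only [Finset.sum_mul_sum, ← Finset.sum_sub_distrib]
    exact Finset.sum_congr rfl fun b _ => Finset.sum_congr rfl fun d _ => by ring
  rw [this]
  exact K.sum_mem fun a _ => K.sum_mem fun c _ => K.mul_mem_right _ (wedge_mem he hs hs' a c)

end Alg

theorem eq_zero_of_lt {G b : Pol ℂ} {k m : ℕ} (hG : G.IsHomogeneous k) (hb : b.IsHomogeneous m)
    (hm : m < k) (h : b ∈ Ideal.span {G}) : b = 0 := by
  obtain ⟨a, rfl⟩ := Ideal.mem_span_singleton'.mp h
  rw [← homogeneousComponent_eq_self hb]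
  conv_lhs => rw [← sum_homogeneousComponent a, Finset.sum_mul, map_sum]
  refine Finset.sum_eq_zero fun i _ => ?_
  rw [homogeneousComponent_of_mem ((homogeneousComponent_isHomogeneous i a).mul hG),
    if_neg (by omega)]

variable {F : Pol ℂ} {ι : Type} [Fintype ι] {N : ℕ} {h : ι → Fin 3 × ι → Pol ℂ}

theorem io_mem_span {b : Pol ℂ} (hb : b ∈ Ideal.span {F}) : io ℂ b ∈ Ideal.span {io ℂ F} := by
  obtain ⟨a, rfl⟩ := Ideal.mem_span_singleton'.mp hb
  rw [map_mul]
  exact Ideal.mul_mem_left _ _ (Ideal.mem_span_singleton_self _)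

/-- the contraction identity -/
theorem contr (H : InvD F N h) (a : ι) (β : Fin 3 × ι) (j : Fin 3) :
    ∑ c, io ℂ (h a (j, c)) * xv ℂ j (-N) * io ℂ (h c β) - io ℂ (h a β)
      ∈ Ideal.span {io ℂ F} := by
  have h1 : ∑ c, io ℂ (h a (j, c) * h c β - h a β * h c (j, c)) * xv ℂ j (-N)
      ∈ Ideal.span {io ℂ F} :=
    Ideal.sum_mem _ fun c _ => Ideal.mul_mem_right _ _ (io_mem_span (H.rk a c (j, c) β))
  have h2 : io ℂ (h a β) * (io ℂ (∑ c, h c (j, c) - X j.succ ^ N) * xv ℂ j (-N))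
      ∈ Ideal.span {io ℂ F} :=
    Ideal.mul_mem_left _ _ (Ideal.mul_mem_right _ _ (io_mem_span (H.sum j)))
  have h3 : io ℂ (X j.succ ^ N : Pol ℂ) * xv ℂ j (-N) = 1 := by
    rw [map_pow, io_X_succ, xv_pow, ← xv_add, mul_one, add_neg_cancel, xv_zero]
  convert Ideal.add_mem _ h1 h2 using 1
  rw [map_sub (io ℂ) (∑ c, h c (j, c)), sub_mul, h3, map_sum, Finset.sum_mul, mul_sub,
    Finset.mul_sum, mul_one, ← add_sub_assoc, ← Finset.sum_add_distrib]
  congr 1
  refine Finset.sum_congr rfl fun c _ => ?_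
  simp only [map_sub, map_mul]
  ring

/-- the cocycle of the rank one matrix -/
noncomputable def ph (N : ℕ) (h : ι → Fin 3 × ι → Pol ℂ) :
    Fin 3 → Fin 3 → Matrix ι ι (Lr ℂ) :=
  fun i _ => Matrix.of fun c a => io ℂ (h a (i, c)) * xv ℂ i (-N)

omit [Fintype ι] in
theorem ph_apply (i j : Fin 3) (c a : ι) :
    ph N h i j c a = io ℂ (h a (i, c)) * xv ℂ i (-N) := rfl

theorem ph_mem (H : InvD F N h) {S : Finset (Fin 3)} {i : Fin 3} (hi : i ∈ S) (j : Fin 3)
    (c a : ι) : ph N h i j c a ∈ T ℂ S 0 := by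
  have := T_mul (io_mem (H.hom a (i, c)) S) (xv_mem (B := ℂ) (z := -N) (Or.inl hi))
  rwa [add_neg_cancel] at this

theorem ph_ent (H : InvD F N h) : Ent (R0 ℂ) (ph N h) := fun i j c a =>
  ph_mem H (by simp) j c a

theorem ph_mul (H : InvD F N h) (i j l m : Fin 3) (c a : ι) :
    (ph N h i j * ph N h j l) c a - ph N h i m c a ∈ Ideal.span {io ℂ F} := by
  have e : ∑ b, ph N h i j c b * ph N h j l b a
      = ∑ b, io ℂ (h a (j, b)) * xv ℂ j (-N) * io ℂ (h b (i, c)) * xv ℂ i (-N) :=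
    Finset.sum_congr rfl fun b _ => by rw [ph_apply, ph_apply]; ring
  have := Ideal.mul_mem_right (xv ℂ i (-N)) _ (contr H a (i, c) j)
  rw [sub_mul, Finset.sum_mul] at this
  rw [Matrix.mul_apply, e, ph_apply]
  exact this

theorem ph_coc (H : InvD F N h) : Coc (Ideal.span {io ℂ F}) (ph N h) where
  mul i j l c a := ph_mul H i j l l c a
  tr i := by
    have h3 : io ℂ (X i.succ ^ N : Pol ℂ) * xv ℂ i (-N) = 1 := by
      rw [map_pow, io_X_succ, xv_pow, ← xv_add, mul_one, add_neg_cancel, xv_zero]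
    convert Ideal.mul_mem_right (xv ℂ i (-N)) _ (io_mem_span (H.sum i)) using 1
    rw [map_sub, sub_mul, h3, map_sum, Finset.sum_mul]
    rfl
  rk i a b c d := by
    convert Ideal.mul_mem_right (xv ℂ i (-N) * xv ℂ i (-N)) _
      (io_mem_span (H.rk b d (i, a) (i, c))) using 1
    simp only [ph_apply, map_sub, map_mul]
    ring

theorem s_sec (H : InvD F N h) (a : ι) :
    Sec (io ℂ F) (ph N h) 1 0 fun i c => ph N h i i c a := by
  refine ⟨fun i c => ph_mem H (by simp) i c a, fun i j c => ?_⟩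
  rw [pow_one]
  have := (Ideal.span {io ℂ F}).neg_mem (ph_mul H i j j i c a)
  rw [neg_sub] at this
  exact this

theorem t_sec (H : InvD F N h) (β : Fin 3 × ι) :
    Sec (io ℂ F) (tp (ph N h)) 1 N fun _ c => io ℂ (h c β) := by
  refine ⟨fun i c => io_mem (H.hom c β) _, fun i j c => ?_⟩
  rw [pow_one]
  have := (Ideal.span {io ℂ F}).neg_mem (contr H c β j)
  rw [neg_sub] at this
  exact this

variable [DecidableEq ι]

theorem h1_ph (h1 : S_H1) (hF : Mn F 6) (H : InvD F N h) : H1fin (io ℂ F) (ph N h) := by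
  refine h1 F hF ι _ (ph_ent H) (ph_coc H) (Fin 3 × ι) N (fun β _ c => io ℂ (h c β))
    (fun β i a => if β = (i, a) then xv ℂ i (-N) else 0) (t_sec H) (fun β i a => ?_)
    fun i a c => ?_
  · split_ifs
    exacts [xv_mem (Or.inl (by simp)), zero_mem _]
  · simp only [ite_mul, zero_mul, Finset.sum_ite_eq', Finset.mem_univ, if_true, ph_apply]
    rw [mul_comm, sub_self]
    exact zero_mem _

theorem h1_tp (h1 : S_H1) (hF : Mn F 6) (H : InvD F N h) : H1fin (io ℂ F) (tp (ph N h)) := by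
  refine h1 F hF ι _ ((ph_ent H).tp (sys3_R0 ℂ)) (ph_coc H).tp ι 0
    (fun a i c => ph N h i i c a) (fun b _ a => if b = a then 1 else 0) (s_sec H)
    (fun b i a => ?_) fun i a c => ?_
  · split_ifs
    exacts [by simpa using one_mem_T (B := ℂ) {i}, zero_mem _]
  · simp only [ite_mul, zero_mul, Finset.sum_ite_eq', Finset.mem_univ, if_true, one_mul]
    change ph N h i i c a - ph N h i i c a ∈ _
    rw [sub_self]
    exact zero_mem _

end NFactP

open NFactP in
theorem fact (hC : S_CDiv) (hT : S_Tower) (h1 : S_H1) (hL : S_Lift) (h2 : S_Two) (hR : S_Rk1) :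
    S_Fact := by
  intro F hF ι _ _ N h H
  obtain ⟨Φ, hΦ⟩ := hT F hF ι (ph N h) (ph_ent H) (ph_coc H)
  choose I hI hIL hIs using fun a : ι =>
    hL F hF.mn ι _ Φ hΦ (h1_ph h1 hF.mn H) 0 _ (s_sec H a)
  choose I' hI' hIL' hIt using fun β : Fin 3 × ι =>
    hL F hF.mn ι _ _ hΦ.tp (h1_tp h1 hF.mn H) N _ (t_sec H β)
  obtain ⟨g, d, hg, hg0, hg1⟩ := h2 F hF (ι ⊕ (Fin 3 × ι)) (Sum.elim I I') (by
    rintro (a | β)
    exacts [⟨hI a, hIL a⟩, ⟨hI' β, hIL' β⟩])
  set k : ℕ := 2 * N + 4 * (d 0 + d 1) with hk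
  choose s hs hs' using fun x : Fin 2 × ι =>
    hIs x.2 (g x.1) ((hg x.1).2 (Sum.inl x.2)) (d x.1) (hg x.1).1 k
  choose t ht ht' using fun y : Fin 2 × (Fin 3 × ι) =>
    hIt y.2 (g y.1) ((hg y.1).2 (Sum.inr y.2)) (d y.1) (hg y.1).1 k
  have hFk := (hC ℂ F 6 hF.mn).2 (k + 1)
  have hD := (hC ℂ _ _ hFk).1
  have hD1 := (hC ℂ F 6 hF.mn).1
  have eK : Ideal.span {io ℂ (F ^ (k + 1))} = Ideal.span {io ℂ F ^ (k + 1)} := by rw [map_pow]
  choose P hP _ hP' using fun (x : Fin 2 × ι) (y : Fin 2 × (Fin 3 × ι)) =>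
    hD.h0 (0 + d x.1 + (N + d y.1)) (fun i => ∑ c, s x i c * t y i c)
      (fun i => Submodule.sum_mem _ fun c _ => T_mul ((hs x).1 i c) ((ht y).1 i c))
      (fun i j => by
        rw [eK]
        exact pair_eq ((hs x).2 i j) ((ht y).2 j i))
  have hd : ∀ r, d r ≤ d 0 + d 1 := fun r => by fin_cases r <;> simp
  have hPh : ∀ x y, (P x y).IsHomogeneous (d x.1 + (N + d y.1)) := fun x y =>
    hP x y _ (by push_cast; ring)
  refine hR F hF.prime ι (Fin 3 × ι) h g P hg0 hg1 (fun x x' y y' => ?_) fun r a r' β => ?_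
  · rw [← sub_eq_zero]
    refine eq_zero_of_lt (m := d x.1 + (N + d y.1) + (d x'.1 + (N + d y'.1))) hFk.hom
      (((hPh x y).mul (hPh x' y')).sub ?_) ?_ (hD.pol _ ?_)
    · convert (hPh x y').mul (hPh x' y) using 1
      ring
    · have := hd x.1
      have := hd x'.1
      have := hd y.1
      have := hd y'.1
      omega
    · have q := fun x y => Ideal.Quotient.eq.mpr (hP' x y 0)
      rw [map_sub, map_mul, map_mul, ← Ideal.Quotient.eq, map_mul, map_mul, q, q, q, q,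
        ← map_mul, ← map_mul, Ideal.Quotient.eq, eK]
      exact minor_mem ((hΦ.coc k).rk 0) ((hs x).2 0 0) ((hs x').2 0 0) _ _
  · refine hD1.pol _ ?_
    have e1 : io ℂ (P (r, a) (r', β)) - ∑ c, s (r, a) 0 c * t (r', β) 0 c
        ∈ Ideal.span {io ℂ F} := by
      have := hP' (r, a) (r', β) 0
      rw [eK] at this
      exact Ideal.span_singleton_le_span_singleton.mpr (dvd_pow_self _ (Nat.succ_ne_zero k)) this
    have e2 : ∑ c, (s (r, a) 0 c * t (r', β) 0 c
        - io ℂ (g r) * ph N h 0 0 c a * (io ℂ (g r') * io ℂ (h c β))) ∈ Ideal.span {io ℂ F} := by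
      refine Ideal.sum_mem _ fun c _ => ?_
      convert Ideal.add_mem _ (Ideal.mul_mem_right (t (r', β) 0 c) _ (hs' (r, a) 0 c))
        (Ideal.mul_mem_left _ (io ℂ (g r) * ph N h 0 0 c a) (ht' (r', β) 0 c)) using 1
      ring
    have e3 := Ideal.mul_mem_left _ (io ℂ (g r) * io ℂ (g r')) (contr H a β 0)
    convert Ideal.add_mem _ (Ideal.add_mem _ e1 e2) e3 using 1
    have e4 : ∑ c, io ℂ (g r) * ph N h 0 0 c a * (io ℂ (g r') * io ℂ (h c β))
        = io ℂ (g r) * io ℂ (g r') * ∑ c, io ℂ (h a (0, c)) * xv ℂ 0 (-N) * io ℂ (h c β) := by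
      rw [Finset.mul_sum]
      exact Finset.sum_congr rfl fun c _ => by rw [ph_apply]; ring
    rw [Finset.sum_sub_distrib, e4, map_sub, map_mul, map_mul]
    ring

end Pool.Agent.P.MP_2b2d3b_ag
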