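import Pool.Agent.P.MP_2b2d3b_ag.StN

/-!
The second cohomology of the structure sheaf, and calculus modulo powers of the parameter.
-/

namespace Pool.Agent.P.MP_2b2d3b_ag

open MvPolynomial

namespace NH2P

/-- powers of linear forms with natural coefficients span the forms of degree `n` -/
theorem mono_mem (W : Submodule ℂ (Pol ℂ)) (n : ℕ)
    (h : ∀ l : Fin 4 → ℕ, (linForm fun i => (l i : ℂ)) ^ n ∈ W) (m : Mon n) :
    monomial m.1 (1 : ℂ) ∈ W := by
  by_contra hm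
  obtain ⟨lam, h1, h2⟩ := Submodule.exists_le_ker_of_notMem hm
  have key : form (fun k : Mon n => (k.1.multinomial : ℂ) * lam (monomial k.1 1)) = 0 := by
    refine MvPolynomial.funext_set (fun _ => Set.range (Nat.cast : ℕ → ℂ))
      (fun _ => Set.infinite_range_of_injective Nat.cast_injective) fun x hx => ?_
    choose l hl using fun i => hx i (Set.mem_univ i)
    have h3 : lam ((linForm fun i => (l i : ℂ)) ^ n) = 0 := h2 (h l)
    have h4 : ((linForm fun i => (l i : ℂ)) ^ n : Pol ℂ).IsHomogeneous n := by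
      have : (linForm fun i => (l i : ℂ) : Pol ℂ).IsHomogeneous 1 :=
        IsHomogeneous.sum _ _ _ fun i _ => (isHomogeneous_X ℂ i).C_mul _
      simpa using this.pow n
    rw [← form_coeff h4, form, map_sum] at h3
    rw [map_zero, ← h3, form, map_sum]
    refine Finset.sum_congr rfl fun k _ => ?_
    have h5 : coeff k.1 ((linForm fun i => (l i : ℂ)) ^ n : Pol ℂ) =
        k.1.multinomial * k.1.prod fun r e => x r ^ e := by
      have h6 := coeff_linearCombination_X_pow_of_fintype x k.1 n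
      rw [if_pos (show (k.1.sum fun _ e => e) = n from k.2)] at h6
      rw [← h6, linForm]
      simp only [hl, smul_eq_C_mul]
    have h8 : ∀ r : ℂ, lam (monomial k.1 r) = r * lam (monomial k.1 1) := fun r => by
      rw [← smul_eq_mul, ← map_smul, smul_monomial, smul_eq_mul, mul_one]
    rw [h5, eval_monomial, h8 (_ * _)]
    ring
  have h7 := coeff_form (fun k : Mon n => (k.1.multinomial : ℂ) * lam (monomial k.1 1)) m
  rw [key, coeff_zero] at h7
  refine mul_ne_zero (Nat.cast_ne_zero.2 ?_) h1 h7.symm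
  rw [Finsupp.multinomial_eq]
  exact (Nat.multinomial_pos _ _).ne'

variable {B : Type} [CommRing B]

theorem BB_induction {e : ℤ} {P : Lr B → Prop} (hadd : ∀ p q, P p → P q → P (p + q))
    (h : ∀ i : Fin 3, ∀ p ∈ T B {i + 1, i + 2} e, P p) {x : Lr B} (hx : x ∈ BB B e) : P x := by
  obtain ⟨y, hy, x2, h2, rfl⟩ := Submodule.mem_sup.1 hx
  obtain ⟨x0, h0, x1, h1, rfl⟩ := Submodule.mem_sup.1 hy
  exact hadd _ _ (hadd _ _ (h 2 _ h0) (h 0 _ h1)) (h 1 _ h2)

theorem T_le_BB (i : Fin 3) (e : ℤ) : T B {i + 1, i + 2} e ≤ BB B e := by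
  fin_cases i
  · exact le_sup_of_le_left le_sup_right
  · exact le_sup_right
  · exact le_sup_of_le_left le_sup_left

theorem fin3 : ∀ i j : Fin 3, j ∉ ({i + 1, i + 2} : Finset (Fin 3)) ↔ j = i := by decide

theorem co_BB {e : ℤ} {x : Lr B} (hx : x ∈ BB B e) (a : ℕ) {β : Fin 3 → ℤ} (hβ : ∀ i, β i < 0) :
    co a β x = 0 := by
  refine BB_induction (P := fun x => co a β x = 0)
    (fun p q hp hq => by rw [map_add, hp, hq, add_zero]) (fun i p hp => ?_) hx
  by_contra h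
  exact absurd ((hp a β h).2 i (fin3 i i |>.2 rfl)) (not_le.2 (hβ i))

theorem mem_BB {e : ℤ} {p : Lr B} (hp : p ∈ T B Finset.univ e)
    (h : ∀ a β, (∀ i, β i < 0) → co a β p = 0) : p ∈ BB B e := by
  rw [← sum_mo p]
  refine Submodule.sum_mem _ fun a _ => Submodule.sum_mem _ fun β hβ => ?_
  have h1 : co a β p ≠ 0 := Finsupp.mem_support_iff.mp hβ
  obtain ⟨i, hi⟩ : ∃ i, 0 ≤ β i := by
    by_contra h2
    exact h1 (h a β fun i => not_le.1 fun h3 => h2 ⟨i, h3⟩)
  refine T_le_BB i e (mo_mem _ (hp a β h1).1 fun j hj => ?_)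
  obtain rfl : j = i := (fin3 i j).1 hj
  exact hi

theorem mul_BB {e e' : ℤ} {g x : Lr B} (hg : ∀ S, g ∈ T B S e') (hx : x ∈ BB B e) :
    g * x ∈ BB B (e' + e) :=
  BB_induction (P := fun x => g * x ∈ BB B (e' + e))
    (fun p q hp hq => by rw [mul_add]; exact add_mem hp hq)
    (fun i _ hp => T_le_BB i _ (T_mul (hg _) hp)) hx

theorem eq_of_degree {G : Pol B} {n : ℕ} (D : CDiv G n) {p q : Lr B}
    (h : p - q ∈ Ideal.span {io B G}) (hp : p.degree < n) (hq : q.degree < n) : p = q := by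
  obtain ⟨u, hu⟩ := Ideal.mem_span_singleton.1 h
  have h1 : (io B G * u).degree < n := by
    rw [← hu]
    exact (Polynomial.degree_sub_le _ _).trans_lt (max_lt hp hq)
  rw [D.uniq u h1, mul_zero, sub_eq_zero] at hu
  exact hu

theorem red_BB {G : Pol B} {n : ℕ} (D : CDiv G n) {e : ℤ} {p x : Lr B} (hx : x ∈ BB B e)
    (h : p - x ∈ Ideal.span {io B G}) (hp : p.degree < n) : p ∈ BB B e := by
  obtain ⟨y, hy, h1, h2⟩ : ∃ y ∈ BB B e, y.degree < n ∧ x - y ∈ Ideal.span {io B G} := by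
    refine BB_induction (P := fun x => ∃ y ∈ BB B e, y.degree < n ∧ x - y ∈ Ideal.span {io B G})
      ?_ (fun i x hx => ?_) hx
    · rintro u v ⟨y, hy, h1, h2⟩ ⟨y', hy', h1', h2'⟩
      refine ⟨y + y', add_mem hy hy', (Polynomial.degree_add_le _ _).trans_lt (max_lt h1 h1'), ?_⟩
      convert add_mem h2 h2' using 1
      ring
    · obtain ⟨q, -, r, hr, h1, rfl⟩ := D.div _ e x hx
      exact ⟨r, T_le_BB i e hr, h1, Ideal.mem_span_singleton.2 ⟨q, by ring⟩⟩
  rw [eq_of_degree D (q := y) (by simpa using add_mem h h2) hp h1]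
  exact hy

theorem co_mo_mul (a a' : ℕ) (β β' : Fin 3 → ℤ) (p : Lr B) :
    co (a' + a) (β' + β) (mo a' β' 1 * p) = co a β p := by
  induction p using Polynomial.induction_on' with
  | add p q hp hq => rw [mul_add, map_add, map_add, hp, hq]
  | monomial k u =>
    induction u using AddMonoidAlgebra.induction_linear with
    | zero => simp
    | add u v hu hv => rw [map_add, mul_add, map_add, map_add, hu, hv]
    | single γ r =>
      change co _ _ (mo a' β' 1 * mo k γ r) = co a β (mo k γ r)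
      rw [mo_mul, co_mo, co_mo, one_mul]
      simp

theorem degree_mo_mul (a : ℕ) (β : Fin 3 → ℤ) {p : Lr B} {k n : ℕ} (hp : p.degree < k)
    (h : a + k ≤ n) : Polynomial.degree (mo a β (1 : B) * p) < (n : WithBot ℕ) := by
  rw [Polynomial.degree_lt_iff_coeff_zero] at hp ⊢
  intro j hj
  obtain ⟨i, rfl⟩ : ∃ i, j = i + a := ⟨j - a, by omega⟩
  rw [mo, Polynomial.coeff_monomial_mul, hp i (by omega), mul_zero]

theorem exists_mon {n a : ℕ} (hn : 3 ≤ n) {β : Fin 3 → ℤ} (hβ : ∀ i, β i < 0)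
    (h : (a : ℤ) + ∑ i, β i = -(n : ℤ)) :
    ∃ m : Mon n, m.1 0 = 3 - a ∧ ∀ i : Fin 3, (m.1 i.succ : ℤ) + β i < 0 := by
  rw [Fin.sum_univ_three] at h
  have h0 := hβ 0
  have h1 := hβ 1
  have h2 := hβ 2
  obtain ⟨g0, g1, g2, e, e0, e1, e2⟩ : ∃ g0 g1 g2 : ℕ, 3 - a + g0 + g1 + g2 = n ∧
      (g0 : ℤ) + β 0 < 0 ∧ (g1 : ℤ) + β 1 < 0 ∧ (g2 : ℤ) + β 2 < 0 :=
    ⟨min (-β 0 - 1).toNat (n - (3 - a)),
      min (-β 1 - 1).toNat (n - (3 - a) - min (-β 0 - 1).toNat (n - (3 - a))),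
      n - (3 - a) - min (-β 0 - 1).toNat (n - (3 - a)) -
        min (-β 1 - 1).toNat (n - (3 - a) - min (-β 0 - 1).toNat (n - (3 - a))),
      by omega, by omega, by omega, by omega⟩
  refine ⟨⟨Finsupp.equivFunOnFinite.symm ![3 - a, g0, g1, g2], ?_⟩, rfl, fun i => ?_⟩
  · rw [Finsupp.degree_eq_sum, Fin.sum_univ_four]
    exact e
  · fin_cases i
    exacts [e0, e1, e2]

end NH2P

open NH2P in
theorem h2 (hC : S_CDiv) : S_H2 := by
  intro F hF n hn c hc h
  have D := (hC ℂ F 6 hF).1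
  let W : Submodule ℂ (Pol ℂ) :=
    { carrier := {g | ∃ x ∈ BB ℂ 0, io ℂ g * c - x ∈ Ideal.span {io ℂ F}}
      zero_mem' := ⟨0, zero_mem _, by simp⟩
      add_mem' := by
        rintro g g' ⟨x, hx, h1⟩ ⟨x', hx', h2⟩
        refine ⟨x + x', add_mem hx hx', ?_⟩
        convert add_mem h1 h2 using 1
        rw [map_add]
        ring
      smul_mem' := by
        rintro r g ⟨x, hx, h1⟩
        refine ⟨r • x, Submodule.smul_mem _ _ hx, ?_⟩
        rw [map_smul, smul_mul_assoc, ← smul_sub, Algebra.smul_def]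
        exact Ideal.mul_mem_left _ _ h1 }
  have hW := mono_mem W n fun l => by
    obtain ⟨x, hx, h1⟩ := h l
    exact ⟨x, hx, by rwa [map_pow]⟩
  have key : ∀ (p y : Lr ℂ) (k : ℕ), y ∈ BB ℂ (-(n : ℤ)) → c - (p + y) ∈ Ideal.span {io ℂ F} →
      p ∈ T ℂ Finset.univ (-(n : ℤ)) → p.degree < k → ∀ a β, 3 - a + k ≤ 6 → (∀ i, β i < 0) →
      co a β p = 0 := by
    intro p y k hy h1 hp hk a β ha hβ
    by_contra h0
    obtain ⟨m, hm0, hm⟩ := exists_mon hn hβ (hp a β h0).1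
    obtain ⟨x, hx, h2⟩ := hW m
    have h3 : io ℂ (monomial m.1 1) * y ∈ BB ℂ 0 := by
      simpa using mul_BB (io_mem (isHomogeneous_monomial (1 : ℂ) m.2)) hy
    have h4 : io ℂ (monomial m.1 1) * p ∈ BB ℂ 0 := by
      refine red_BB D (sub_mem hx h3) ?_ ?_
      · convert sub_mem h2 (Ideal.mul_mem_left _ (io ℂ (monomial m.1 1)) h1) using 1
        ring
      · rw [io_monomial]
        exact degree_mo_mul _ _ hk (by omega)
    rw [io_monomial] at h4
    exact h0 ((co_mo_mul a _ β _ p).symm.trans (co_BB h4 _ hm))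
  obtain ⟨q, -, r, hr, hdeg, e⟩ := D.div _ _ c hc
  have hcr : c - r ∈ Ideal.span {io ℂ F} := Ideal.mem_span_singleton.2 ⟨q, by rw [e]; ring⟩
  have k1 := key r 0 6 (zero_mem _) (by rwa [add_zero]) hr hdeg
  let r' : Lr ℂ := ∑ a ∈ Finset.range 3, Polynomial.monomial a (r.coeff a)
  have hr' : ∀ a, r'.coeff a = if a < 3 then r.coeff a else 0 := by
    intro a
    simp only [r', Polynomial.finsetSum_coeff, Polynomial.coeff_monomial, Finset.sum_ite_eq',
      Finset.mem_range]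
  have hco : ∀ a β, co a β r' = if a < 3 then co a β r else 0 := by
    intro a β
    change (r'.coeff a).coeff β = _
    rw [hr']
    split_ifs
    exacts [rfl, rfl]
  have hT : r' ∈ T ℂ Finset.univ (-(n : ℤ)) := fun a β h0 => hr a β fun h1 => h0 (by
    rw [hco, h1, ite_self])
  have hy : r - r' ∈ BB ℂ (-(n : ℤ)) := mem_BB (sub_mem hr hT) fun a β hβ => by
    rw [map_sub, hco]
    split_ifs with ha
    · exact sub_self _
    · rw [sub_zero]
      exact k1 a β (by omega) hβ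
  have k2 := key r' (r - r') 3 hy (by rwa [add_sub_cancel]) hT
    ((Polynomial.degree_lt_iff_coeff_zero _ _).2 fun a ha => by rw [hr', if_neg (by omega)])
  refine ⟨r, ?_, hcr⟩
  have := add_mem (mem_BB hT fun a β hβ => k2 a β (by omega) hβ) hy
  rwa [add_sub_cancel] at this

namespace NH2P

theorem tt_mul (k : ℕ) (p : Lr (PowerSeries ℂ)) :
    tt ^ k * p = (PowerSeries.X ^ k : PowerSeries ℂ) • p := by
  rw [tt, ← map_pow, Algebra.smul_def]

theorem co_tt (k a : ℕ) (β : Fin 3 → ℤ) (p : Lr (PowerSeries ℂ)) :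
    co a β (tt ^ k * p) = PowerSeries.X ^ k * co a β p := by
  rw [tt_mul, map_smul, smul_eq_mul]

theorem degree_tt (k : ℕ) (p : Lr (PowerSeries ℂ)) : (tt ^ k * p).degree ≤ p.degree := by
  rw [tt_mul]
  exact Polynomial.degree_smul_le _ _

theorem tt_cancel (k : ℕ) {p q : Lr (PowerSeries ℂ)} (h : tt ^ k * p = tt ^ k * q) : p = q :=
  ext_co fun a β => mul_left_cancel₀ (pow_ne_zero k PowerSeries.X_ne_zero) (by
    rw [← co_tt, ← co_tt, h])

theorem tt_mem (k : ℕ) {S : Finset (Fin 3)} {e : ℤ} {p : Lr (PowerSeries ℂ)} :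
    tt ^ k * p ∈ T _ S e ↔ p ∈ T _ S e := by
  refine ⟨fun h a β h0 => h a β ?_, fun h => ?_⟩
  · rw [co_tt]
    exact mul_ne_zero (pow_ne_zero k PowerSeries.X_ne_zero) h0
  · rw [tt_mul]
    exact Submodule.smul_mem _ _ h

theorem tt_dvd (w : Lr (PowerSeries ℂ)) : tt ∣ w - cst (mapL PowerSeries.constantCoeff w) := by
  rw [← sum_mo (w - cst (mapL PowerSeries.constantCoeff w))]
  refine Finset.dvd_sum fun a _ => Finset.dvd_sum fun β _ => ?_
  obtain ⟨u, hu⟩ : PowerSeries.X ∣ co a β (w - cst (mapL PowerSeries.constantCoeff w)) := by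
    rw [PowerSeries.X_dvd_iff, map_sub, cst, co_mapL, co_mapL]
    simp
  refine ⟨mo a β u, ?_⟩
  rw [hu, ← pow_one tt, tt_mul, pow_one, mo_smul, mo_smul a β u, smul_smul]

theorem red_cst (d : Lr ℂ) : mapL PowerSeries.constantCoeff (cst d) = d :=
  ext_co fun a β => by
    rw [cst, co_mapL, co_mapL]
    simp

theorem red_tt : mapL (PowerSeries.constantCoeff : PowerSeries ℂ →+* ℂ) tt = 0 :=
  ext_co fun a β => by
    rw [co_mapL, ← mul_one tt, ← pow_one tt, co_tt]
    simp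

theorem exists_rem {G : Pol (PowerSeries ℂ)} (D : CDiv G 6) {k : ℕ} {r : Lr (PowerSeries ℂ)}
    (hr : r ∈ JJ G k) (hd : r.degree < (6 : ℕ)) : ∃ r', r = tt ^ k * r' := by
  obtain ⟨a, b, e⟩ := Ideal.mem_span_pair.1 hr
  obtain ⟨q, r', h1, rfl⟩ := D.div' b
  exact ⟨r', eq_of_degree D (Ideal.mem_span_singleton.2 ⟨a + q * tt ^ k, by rw [← e]; ring⟩) hd
    ((degree_tt k r').trans_lt h1)⟩

theorem mem_JJ {G : Pol (PowerSeries ℂ)} {k : ℕ} (a b : Lr (PowerSeries ℂ)) :
    io _ G * a + tt ^ k * b ∈ JJ G k :=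
  Ideal.mem_span_pair.2 ⟨a, b, by ring⟩

end NH2P

open NH2P in
theorem tA (hC : S_CDiv) : S_TA := by
  intro G F hG hF
  have D := (hC _ G 6 hG).1
  have D0 := (hC ℂ F 6 (hF ▸ hG.map _)).1
  have hπ : mapL PowerSeries.constantCoeff (io _ G) = io ℂ F := by rw [mapL_io, hF]
  have ha : ∀ (k : ℕ) (S : Finset (Fin 3)) (e : ℤ) (p : Lr (PowerSeries ℂ)), p ∈ T _ S e →
      p ∈ JJ G k → ∃ d ∈ T ℂ S e, p - tt ^ k * cst d ∈ JJ G (k + 1) := by
    intro k S e p hp hJ
    obtain ⟨q, -, r, hr, hd, rfl⟩ := D.div S e p hp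
    have h1 : r ∈ JJ G k := by
      simpa using sub_mem hJ (mem_JJ (k := k) q 0)
    obtain ⟨r', rfl⟩ := exists_rem D h1 hd
    obtain ⟨u, hu⟩ := tt_dvd r'
    refine ⟨_, mapL_mem PowerSeries.constantCoeff ((tt_mem k).1 hr), ?_⟩
    convert mem_JJ (G := G) (k := k + 1) q u using 1
    linear_combination tt ^ k * hu
  have hb : ∀ (k : ℕ) (d : Lr ℂ), tt ^ k * cst d ∈ JJ G (k + 1) ↔ d ∈ Ideal.span {io ℂ F} := by
    intro k d
    constructor
    · intro h
      obtain ⟨q, r, hd, e⟩ := D.div' (cst d)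
      have h1 : tt ^ k * r ∈ JJ G (k + 1) := by
        convert sub_mem h (mem_JJ (k := k + 1) (tt ^ k * q) 0) using 1
        rw [e]
        ring
      obtain ⟨r', h2⟩ := exists_rem D h1 ((degree_tt k r).trans_lt hd)
      rw [pow_succ, mul_assoc] at h2
      rw [← red_cst d, e, tt_cancel k h2, map_add, map_mul, map_mul, hπ, red_tt, zero_mul, add_zero]
      exact Ideal.mul_mem_right _ _ (Ideal.mem_span_singleton_self _)
    · intro h
      obtain ⟨u, rfl⟩ := Ideal.mem_span_singleton.1 h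
      obtain ⟨v, hv⟩ := tt_dvd (io _ G)
      rw [hπ] at hv
      convert mem_JJ (G := G) (k := k + 1) (tt ^ k * cst u) (-(v * cst u)) using 1
      rw [map_mul]
      linear_combination (-(tt ^ k * cst u)) * hv
  refine ⟨ha, hb, tt_dvd, fun k c hc hcoc => ?_⟩
  choose d hd hd' using fun i j => ha k {i, j} 0 (c i j) (hc i j).1 (hc i j).2
  obtain ⟨b, hb1, hb2⟩ := D0.h1 0 d hd fun i j l => (hb k _).1 (by
    convert sub_mem (hcoc i j l) (sub_mem (hd' i l) (add_mem (hd' i j) (hd' j l))) using 1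
    rw [map_sub, map_add]
    ring)
  refine ⟨fun i => tt ^ k * cst (b i), fun i => ⟨?_, ?_⟩, fun i j => ?_⟩
  · exact (tt_mem k).2 (T_mono (by simp) 0 (mapL_mem _ (hb1 i)))
  · simpa using mem_JJ (G := G) (k := k) 0 (cst (b i))
  · convert add_mem (hd' i j) ((hb k _).2 (hb2 i j)) using 1
    rw [map_sub, map_sub]
    ring

end Pool.Agent.P.MP_2b2d3b_ag
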