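import Pool.Agent.P.MP_2b2d3b_ag.StN

/-!
Homogeneous primes of height one of the coordinate ring of the very general sextic are principal.
-/

namespace Pool.Agent.P.MP_2b2d3b_ag

open MvPolynomial

namespace NInvP

section Ring

variable {R : Type} [CommRing R] [IsDomain R] {ι : Type} [Fintype ι]

theorem core (x : Fin 3 → R) (hx : ∀ i, x i ≠ 0)
    (hreg : ∀ a b, x 1 * a = x 2 * b → ∃ r, a = x 2 * r) (σ ρ : ι → R) (ρ' : Fin 3 × ι → R)
    (hs : ∀ i, ∑ a, ρ a * ρ' (i, a) = x i)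
    (hσ : ∀ a b β, σ a * (ρ b * ρ' β) = σ b * (ρ a * ρ' β)) :
    ∃ ϖ, (∀ b, σ b = ρ b * ϖ) ∧ ∀ i, ∑ a, σ a * ρ' (i, a) = x i * ϖ := by
  obtain ⟨a0, -, h0⟩ := Finset.exists_ne_zero_of_sum_ne_zero ((hs 0).symm ▸ hx 0)
  have h1 : ∀ a b, σ a * ρ b = σ b * ρ a := fun a b =>
    mul_right_cancel₀ (right_ne_zero_of_mul h0) (by rw [mul_assoc, mul_assoc]; exact hσ a b _)
  have h2 : ∀ b i, ρ b * ∑ a, σ a * ρ' (i, a) = σ b * x i := fun b i => by
    rw [← hs i, Finset.mul_sum, Finset.mul_sum]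
    exact Finset.sum_congr rfl fun a _ => by linear_combination ρ' (i, a) * h1 a b
  have h3 : ∀ i j, x j * ∑ a, σ a * ρ' (i, a) = x i * ∑ a, σ a * ρ' (j, a) := fun i j => by
    rw [← hs j, Finset.sum_mul, Finset.mul_sum Finset.univ _ (x i)]
    exact Finset.sum_congr rfl fun b _ => by linear_combination ρ' (j, b) * h2 b i
  obtain ⟨ϖ, h4⟩ := hreg _ _ (h3 2 1)
  have h5 : ∀ i, ∑ a, σ a * ρ' (i, a) = x i * ϖ := fun i =>
    mul_left_cancel₀ (hx 2) (by rw [h3 i 2, h4]; ring)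
  exact ⟨ϖ, fun b => mul_right_cancel₀ (hx 0) (by rw [← h2 b 0, h5]; ring), h5⟩

theorem dvd_of (x : Fin 3 → R) (hx : ∀ i, x i ≠ 0)
    (hreg : ∀ a b, x 1 * a = x 2 * b → ∃ r, a = x 2 * r) {ϖ y : R} (h0 : ϖ ≠ 0)
    (h : ∀ i, ϖ ∣ x i * y) : ϖ ∣ y := by
  obtain ⟨c1, h1⟩ := h 1
  obtain ⟨c2, h2⟩ := h 2
  obtain ⟨r, hr⟩ := hreg c2 c1 (mul_left_cancel₀ h0 (by linear_combination x 2 * h1 - x 1 * h2))
  exact ⟨r, mul_left_cancel₀ (hx 2) (by rw [h2, hr]; ring)⟩

end Ring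

/-- a partition of unity subordinate to a family of forms without common zero on the surface -/
theorem cover {F : Pol ℂ} (hF : F.IsHomogeneous 6) {α : Type} (w : α → Pol ℂ) (m : α → ℕ)
    (hw : ∀ a, (w a).IsHomogeneous (m a))
    (h : ∀ p : Fin 4 → ℂ, p ≠ 0 → eval p F = 0 → ∃ a, eval p (w a) ≠ 0) :
    ∃ (Q : Finset α) (M : ℕ) (v : Fin 3 → α → Pol ℂ), (∀ i a, (v i a).IsHomogeneous M) ∧
      (∀ i a, w a ∣ v i a) ∧ ∀ i, ∑ a ∈ Q, v i a - X i.succ ^ M ∈ Ideal.span {F} := by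
  classical
  set J : Ideal (Pol ℂ) := Ideal.span {F} ⊔ Ideal.span (Set.range w) with hJ
  have h1 : ∀ i : Fin 3, ∃ k, (X i.succ : Pol ℂ) ^ k ∈ J := fun i => by
    have : (X i.succ : Pol ℂ) ∈ J.radical := by
      rw [← vanishingIdeal_zeroLocus_eq_radical (K := ℂ), mem_vanishingIdeal_iff]
      intro p hp
      have hp0 : p = 0 := by
        by_contra hn
        obtain ⟨a, ha⟩ := h p hn (hp F (Ideal.mem_sup_left (Ideal.mem_span_singleton_self F)))
        exact ha (hp _ (Ideal.mem_sup_right (Ideal.subset_span ⟨a, rfl⟩)))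
      simp [hp0]
    exact this
  choose k hk using h1
  have h2 : ∀ i : Fin 3, ∃ c : α →₀ Pol ℂ,
      (c.sum fun a r => r * w a) - X i.succ ^ (∑ j, k j) ∈ Ideal.span {F} := fun i => by
    have : (X i.succ : Pol ℂ) ^ (∑ j, k j) ∈ J :=
      Ideal.pow_mem_of_pow_mem J (hk i)
        (Finset.single_le_sum (f := k) (fun _ _ => Nat.zero_le _) (Finset.mem_univ i))
    obtain ⟨a, ha, b, hb, e⟩ := Submodule.mem_sup.mp this
    obtain ⟨c, rfl⟩ := Finsupp.mem_span_range_iff_exists_finsupp.mp hb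
    refine ⟨c, ?_⟩
    rw [← e]
    simpa using ha
  choose c hc using h2
  refine ⟨Finset.univ.biUnion fun i => (c i).support, ∑ j, k j,
    fun i a => homogeneousComponent (∑ j, k j) (c i a * w a),
    fun i a => homogeneousComponent_isHomogeneous _ _, fun i a => Ideal.mem_span_singleton.mp
      (comp_mem_one (hw a) (Ideal.mem_span_singleton.mpr (dvd_mul_left _ _)) _), fun i => ?_⟩
  have h3 := comp_mem_one hF (hc i) (∑ j, k j)
  have h4 : ((X i.succ : Pol ℂ) ^ (∑ j, k j)).IsHomogeneous (∑ j, k j) := by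
    simpa using (isHomogeneous_X ℂ i.succ).pow (∑ j, k j)
  rw [map_sub, homogeneousComponent_eq_self h4,
    Finsupp.sum_of_support_subset _ (Finset.subset_biUnion_of_mem (fun i => (c i).support)
      (Finset.mem_univ i)) _ (by simp), map_sum] at h3
  exact h3

/-- homogeneous cofactors -/
theorem cof {F s y : Pol ℂ} (hF : F.IsHomogeneous 6) {m N : ℕ} (hs : s.IsHomogeneous m)
    (hy : y.IsHomogeneous (N + m)) (h : y ∈ Ideal.span {F, s}) :
    ∃ b : Pol ℂ, b.IsHomogeneous N ∧ s * b - y ∈ Ideal.span {F} := by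
  obtain ⟨a, b, e⟩ := Ideal.mem_span_pair.mp h
  refine ⟨homogeneousComponent N b, homogeneousComponent_isHomogeneous _ _, ?_⟩
  have h1 := comp_mem_one hF (Ideal.mem_span_singleton.mpr (dvd_mul_left F (-a))) (N + m)
  rw [show -a * F = b * s - y by rw [← e]; ring, map_sub, comp_mul hs,
    homogeneousComponent_eq_self hy, mul_comm] at h1
  exact h1

end NInvP

open NInvP in
theorem inv (hHt : S_Ht) (hLoc : S_Loc) (hFact : S_Fact) : S_Inv := by
  classical
  intro F hF π P hπ hP hH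
  have hpr := hF.prime
  have hPp : P.IsPrime := hP.1.1
  have hFP : F ∈ P := hP.1.2 (Ideal.subset_span (by simp))
  have hπP : π ∈ P := hP.1.2 (Ideal.subset_span (by simp))
  choose w s mw ms hw hs hwp hsP hws using
    fun p : {p : Fin 4 → ℂ // p ≠ 0 ∧ eval p F = 0} => hLoc F hF.good π P hP hH p.1 p.2.1 p.2.2
  obtain ⟨Q, M, v, hv, hwv, hQ⟩ := cover hF.1 w mw hw fun p h1 h2 => ⟨⟨p, h1, h2⟩, hwp ⟨p, h1, h2⟩⟩
  obtain ⟨q, hq⟩ : ∃ q : Pol ℂ →+* Pol ℂ ⧸ Ideal.span {F}, q = Ideal.Quotient.mk _ := ⟨_, rfl⟩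
  have qe : ∀ a b, q a = q b ↔ a - b ∈ Ideal.span {F} := fun a b => hq ▸ Ideal.Quotient.eq
  have q0 : ∀ a, q a = 0 ↔ a ∈ Ideal.span {F} := fun a => hq ▸ Ideal.Quotient.eq_zero_iff_mem
  have qP : ∀ a b, q a = q b → a ∈ P → b ∈ P := fun a b h ha => by
    simpa using P.sub_mem ha ((Ideal.span_singleton_le_iff_mem P).mpr hFP ((qe a b).mp h))
  have hs0 : ∀ p, q (s p) ≠ 0 := fun p h => by
    have h1 : w p * π ∈ Ideal.span {F} := by
      refine Ideal.span_le.mpr ?_ (hws p π hπP)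
      rintro _ (rfl | rfl)
      exacts [Ideal.mem_span_singleton_self _, (q0 _).mp h]
    obtain ⟨c, hc⟩ := Ideal.mem_span_singleton.mp ((hpr.mem_or_mem h1).resolve_right hπ)
    exact hwp p (by rw [hc, map_mul, p.2.2, zero_mul])
  have hvs : ∀ i p, ∀ y ∈ P, v i p * y ∈ Ideal.span {F, s p} := fun i p y hy => by
    obtain ⟨c, hc⟩ := hwv i p
    rw [hc, mul_right_comm]
    exact Ideal.mul_mem_right _ _ (hws p y hy)
  set δ := Q.sup ms with hδ
  have hle : ∀ p : Q, ms p.1 ≤ δ := fun p => Finset.le_sup p.2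
  let σ : Q × Fin 3 → Pol ℂ := fun a => X a.2.succ ^ (δ - ms a.1.1) * s a.1.1
  let τ : Fin 3 × Q × Fin 3 → Pol ℂ := fun β =>
    if β.2.2 = β.1 then X β.1.succ ^ ms β.2.1.1 * v β.1 β.2.1.1 else 0
  have hX : ∀ (i : Fin 4) (k : ℕ), ((X i : Pol ℂ) ^ k).IsHomogeneous k := fun i k => by
    simpa using (isHomogeneous_X ℂ i).pow k
  have hσP : ∀ a, σ a ∈ P := fun a => P.mul_mem_left _ (hsP _)
  have h1 : ∀ a β, ∃ b : Pol ℂ, b.IsHomogeneous (δ + M) ∧
      s β.2.1.1 * b - σ a * τ β ∈ Ideal.span {F} := fun a β => by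
    by_cases hβ : β.2.2 = β.1
    · refine cof hF.1 (hs _) ?_ ?_
      · simp only [σ, τ, if_pos hβ]
        have := ((hX a.2.succ (δ - ms a.1.1)).mul (hs a.1.1)).mul
          ((hX β.1.succ (ms β.2.1.1)).mul (hv β.1 β.2.1.1))
        have h2 := hle a.1
        rwa [show δ - ms a.1.1 + ms a.1.1 + (ms β.2.1.1 + M) = δ + M + ms β.2.1.1 by omega] at this
      · simp only [τ, if_pos hβ]
        rw [mul_comm, mul_assoc]
        exact Ideal.mul_mem_left _ _ (hvs _ _ _ (hσP a))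
    · exact ⟨0, isHomogeneous_zero _ _ _, by simp [τ, hβ]⟩
  choose h hh hc using h1
  have hc' : ∀ a β, q (s β.2.1.1) * q (h a β) = q (σ a) * q (τ β) := fun a β => by
    rw [← map_mul, ← map_mul, qe]
    exact hc a β
  have hsum : ∀ i : Fin 3, ∑ a, q (h a (i, a)) = q (X i.succ ^ (δ + M)) := fun i => by
    have h2 : ∀ a : Q × Fin 3, q (h a (i, a)) =
        if a.2 = i then q (X i.succ ^ δ) * q (v i a.1.1) else 0 := fun a => by
      refine mul_left_cancel₀ (hs0 a.1.1) ((hc' a (i, a)).trans ?_)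
      by_cases ha : a.2 = i
      · simp only [σ, τ, if_pos ha, ← map_mul]
        refine congrArg q ?_
        rw [ha]
        conv_rhs => rw [← Nat.sub_add_cancel (hle a.1), pow_add]
        ring
      · simp [τ, ha]
    rw [Finset.sum_congr rfl fun a _ => h2 a, Fintype.sum_prod_type]
    simp only [Finset.sum_ite_eq', Finset.mem_univ, if_true]
    rw [← Finset.mul_sum, ← map_sum, Finset.sum_coe_sort Q (v i), (qe _ _).mpr (hQ i), ← map_mul,
      pow_add]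
  obtain ⟨ρ, ρ', hρ⟩ := hFact F hF (Q × Fin 3) (δ + M) h ⟨hh, fun a a' β β' => by
    rw [← qe, map_mul, map_mul]
    refine mul_left_cancel₀ (mul_ne_zero (hs0 β.2.1.1) (hs0 β'.2.1.1)) ?_
    linear_combination q (s β'.2.1.1) * q (h a' β') * hc' a β + q (σ a) * q (τ β) * hc' a' β' -
      q (s β.2.1.1) * q (h a' β) * hc' a β' - q (σ a) * q (τ β') * hc' a' β,
    fun i => by rw [← qe, map_sum, hsum]⟩
  have hρ' : ∀ a β, q (ρ a) * q (ρ' β) = q (h a β) := fun a β => by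
    rw [← map_mul, eq_comm, qe]
    exact hρ a β
  have hx : ∀ i : Fin 3, q (X i.succ ^ (δ + M)) ≠ 0 := fun i h0 => by
    have := hF.rg.nzd ℂ i.succ (δ + M) 1 (Fin.succ_ne_zero i)
      (by rw [bc_self, mul_one]; exact (q0 _).mp h0)
    rw [bc_self] at this
    exact hpr.ne_top ((Ideal.eq_top_iff_one _).mpr this)
  have hreg : ∀ a b, q (X (1 : Fin 3).succ ^ (δ + M)) * a = q (X (2 : Fin 3).succ ^ (δ + M)) * b →
      ∃ r, a = q (X (2 : Fin 3).succ ^ (δ + M)) * r := fun a b e => by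
    obtain ⟨a, rfl⟩ := Ideal.Quotient.mk_surjective a
    obtain ⟨b, rfl⟩ := Ideal.Quotient.mk_surjective b
    rw [← hq, ← map_mul, ← map_mul, qe] at e
    obtain ⟨r, hr⟩ := hF.rg.reg ℂ (δ + M) a b (by rw [bc_self]; exact e)
    rw [bc_self] at hr
    exact ⟨q r, by rw [← hq, ← map_mul, qe]; exact hr⟩
  obtain ⟨ϖ, h3, h4⟩ := core (fun i => q (X i.succ ^ (δ + M))) hx hreg (fun a => q (σ a))
    (fun a => q (ρ a)) (fun β => q (ρ' β)) (fun i => by simp only [hρ', hsum]) fun a b β => by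
      simp only [hρ']
      refine mul_left_cancel₀ (hs0 β.2.1.1) ?_
      linear_combination q (σ a) * hc' b β - q (σ b) * hc' a β
  obtain ⟨ϖ, rfl⟩ := Ideal.Quotient.mk_surjective ϖ
  rw [← hq] at h3 h4
  have hϖ : ϖ ∈ P := by
    obtain ⟨i, hi, h5⟩ := hHt F π P hP 0 0
    obtain ⟨i, rfl⟩ := Fin.exists_succ_eq.mpr hi
    have h6 : X i.succ ^ (δ + M) * ϖ ∈ P := qP (∑ a, σ a * ρ' (i, a)) _
      (by simpa only [map_sum, map_mul] using h4 i)
      (P.sum_mem fun a _ => P.mul_mem_right _ (hσP a))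
    refine (hPp.mem_or_mem h6).resolve_left fun h7 => h5 ?_
    simpa using hPp.mem_of_pow_mem _ h7
  have hϖ0 : q ϖ ≠ 0 := fun h0 => by
    obtain ⟨a, -, -⟩ := Finset.exists_ne_zero_of_sum_ne_zero ((hsum 0).trans_ne (hx 0))
    have h5 := h3 a
    simp only [σ, h0, mul_zero, map_mul] at h5
    refine hx a.2 ?_
    rw [show δ + M = δ - ms a.1.1 + (ms a.1.1 + M) by have := hle a.1; omega, pow_add, map_mul,
      (mul_eq_zero.mp h5).resolve_right (hs0 _), zero_mul]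
  refine ⟨ϖ, le_antisymm (fun y hy => ?_) (Ideal.span_le.mpr ?_)⟩
  · obtain ⟨r, hr⟩ := dvd_of (fun i => q (X i.succ ^ (δ + M))) hx hreg hϖ0 (y := q y) fun i => by
      rw [pow_add, map_mul, ← (qe _ _).mpr (hQ i), map_sum, Finset.mul_sum, Finset.sum_mul]
      refine Finset.dvd_sum fun p hp => ?_
      obtain ⟨a, b, e⟩ := Ideal.mem_span_pair.mp (hvs i p y hy)
      have h5 : q (v i p) * q y = q b * q (s p) := by
        rw [← map_mul, ← map_mul, ← e, qe]
        simpa using Ideal.mem_span_singleton.mpr (dvd_mul_left F a)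
      have h6 := h3 (⟨p, hp⟩, i)
      simp only [σ, map_mul] at h6
      refine ⟨q b * q (X i.succ ^ ms p) * q (ρ (⟨p, hp⟩, i)), ?_⟩
      conv_lhs => rw [← Nat.sub_add_cancel (hle ⟨p, hp⟩), pow_add, map_mul]
      linear_combination q (X i.succ ^ (δ - ms p)) * q (X i.succ ^ ms p) * h5 +
        q b * q (X i.succ ^ ms p) * h6
    obtain ⟨r, rfl⟩ := Ideal.Quotient.mk_surjective r
    rw [← hq, ← map_mul, qe] at hr
    obtain ⟨c, hc⟩ := Ideal.mem_span_singleton'.mp hr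
    exact Ideal.mem_span_pair.mpr ⟨c, r, by rw [hc]; ring⟩
  · rintro _ (rfl | rfl)
    exacts [hFP, hϖ]

end Pool.Agent.P.MP_2b2d3b_ag
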