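import Pool.Agent.P.MP_2b2d3b_ag.StN

/-!
Lifting multiples of a section to all thickenings.
-/

namespace Pool.Agent.P.MP_2b2d3b_ag

open MvPolynomial Module Matrix

namespace NLiftP

theorem finrank_le {X Y Z : Type} [AddCommGroup X] [Module ℂ X] [AddCommGroup Y] [Module ℂ Y]
    [AddCommGroup Z] [Module ℂ Z] (p : X →ₗ[ℂ] Y) (q : X →ₗ[ℂ] Z) (W : Submodule ℂ X)
    (B : Submodule ℂ Z) (V V' : Submodule ℂ Y) [FiniteDimensional ℂ V'] {L : ℕ} (U : Fin L → Z)
    (hV : V ≤ W.map p) (hU : ∀ w ∈ W, ∃ c : Fin L → ℂ, q w - ∑ r, c r • U r ∈ B)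
    (hB : ∀ w ∈ W, q w ∈ B → p w ∈ V') : finrank ℂ V ≤ finrank ℂ V' + L := by
  let g : W →ₗ[ℂ] Z ⧸ B := B.mkQ ∘ₗ q ∘ₗ W.subtype
  have hr : LinearMap.range g ≤ Submodule.span ℂ (Set.range fun r => B.mkQ (U r)) := by
    rintro _ ⟨w, rfl⟩
    obtain ⟨c, hc⟩ := hU w w.2
    have : g w = ∑ r, c r • B.mkQ (U r) := by
      have h1 : B.mkQ (q w) = B.mkQ (∑ r, c r • U r) := (Submodule.Quotient.eq B).2 hc
      exact h1.trans (by simp only [map_sum, map_smul])
    rw [this]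
    exact Submodule.sum_mem _ fun r _ => Submodule.smul_mem _ _ (Submodule.subset_span ⟨r, rfl⟩)
  have : FiniteDimensional ℂ (Submodule.span ℂ (Set.range fun r => B.mkQ (U r))) :=
    FiniteDimensional.span_of_finite ℂ (Set.finite_range _)
  have : FiniteDimensional ℂ (LinearMap.range g) := Submodule.finiteDimensional_of_le hr
  have hL : finrank ℂ (LinearMap.range g) ≤ L :=
    (Submodule.finrank_mono hr).trans ((finrank_range_le_card _).trans (by simp))
  obtain ⟨σ, hσ⟩ := g.rangeRestrict.exists_rightInverse_of_surjective g.range_rangeRestrict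
  have hle : V ≤ V' ⊔ LinearMap.range (p ∘ₗ W.subtype ∘ₗ σ) := by
    intro a ha
    obtain ⟨w, hw, rfl⟩ := hV ha
    let w' : W := σ (g.rangeRestrict ⟨w, hw⟩)
    have h1 : g w' = g ⟨w, hw⟩ :=
      congrArg Subtype.val (LinearMap.congr_fun hσ (g.rangeRestrict ⟨w, hw⟩))
    have h2 : q (w - w') ∈ B := by
      rw [map_sub]
      exact (Submodule.Quotient.eq B).1 h1.symm
    have h3 := hB _ (W.sub_mem hw w'.2) h2
    rw [show p w = p (w - w') + p w' by rw [map_sub, sub_add_cancel]]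
    exact Submodule.add_mem_sup h3 ⟨_, rfl⟩
  exact (Submodule.finrank_mono hle).trans
    ((Submodule.finrank_add_le_finrank_add_finrank _ _).trans
      (Nat.add_le_add_left ((LinearMap.finrank_range_le _).trans hL) _))

variable {n : Type} [Fintype n]

/-- vectors with entries in an ideal -/
noncomputable def PJ (n : Type) (J : Ideal (Lr ℂ)) : Submodule (Lr ℂ) (n → Lr ℂ) :=
  Submodule.pi Set.univ fun _ => J

omit [Fintype n] in
theorem mem_PJ {J : Ideal (Lr ℂ)} {v : n → Lr ℂ} : v ∈ PJ n J ↔ ∀ c, v c ∈ J :=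
  ⟨fun h c => h c trivial, fun h c _ => h c⟩

theorem mulVec_PJ {J : Ideal (Lr ℂ)} {v : n → Lr ℂ} (M : Matrix n n (Lr ℂ)) (h : v ∈ PJ n J) :
    M *ᵥ v ∈ PJ n J :=
  mem_PJ.2 fun _ => J.sum_mem fun b _ => J.mul_mem_left _ (mem_PJ.1 h b)

theorem cong_PJ {J : Ideal (Lr ℂ)} {M M' : Matrix n n (Lr ℂ)} (h : Cong J M M') (v : n → Lr ℂ) :
    M *ᵥ v - M' *ᵥ v ∈ PJ n J :=
  mem_PJ.2 fun c => h.mulVec (fun _ => by simp) c

omit [Fintype n] in
theorem PJ_mono {f : Lr ℂ} {k k' : ℕ} (h : k ≤ k') {v : n → Lr ℂ}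
    (hv : v ∈ PJ n (Ideal.span {f ^ k'})) : v ∈ PJ n (Ideal.span {f ^ k}) :=
  mem_PJ.2 fun c => Ideal.span_singleton_le_span_singleton.2 (pow_dvd_pow f h) (mem_PJ.1 hv c)

omit [Fintype n] in
theorem cancel {f : Lr ℂ} {k : ℕ} (hf : ∀ q, f ^ k * q = 0 → q = 0) {v : n → Lr ℂ}
    (h : f ^ k • v ∈ PJ n (Ideal.span {f ^ (k + 1)})) : v ∈ PJ n (Ideal.span {f}) := by
  refine mem_PJ.2 fun c => ?_
  obtain ⟨w, hw⟩ := Ideal.mem_span_singleton'.1 (mem_PJ.1 h c)
  refine Ideal.mem_span_singleton'.2 ⟨w, sub_eq_zero.1 (hf _ ?_)⟩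
  have : w * f ^ (k + 1) = f ^ k * v c := hw
  linear_combination this

theorem mulVec_T {S : Finset (Fin 3)} {e : ℤ} {M : Matrix n n (Lr ℂ)} {v : n → Lr ℂ}
    (hM : ∀ a b, M a b ∈ T ℂ S 0) (hv : ∀ b, v b ∈ T ℂ S e) (a : n) : (M *ᵥ v) a ∈ T ℂ S e :=
  Submodule.sum_mem _ fun b _ => by simpa using T_mul (hM a b) (hv b)

/-- the coboundaries -/
def Bs (f : Lr ℂ) (φ : Fin 3 → Fin 3 → Matrix n n (Lr ℂ)) (e : ℤ) :
    Submodule ℂ (Fin 3 → Fin 3 → n → Lr ℂ) where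
  carrier := {z | B1 f φ e z}
  zero_mem' := ⟨0, fun _ _ => zero_mem _, fun i j a => by simp⟩
  add_mem' := by
    rintro z z' ⟨y, h1, h2⟩ ⟨y', h3, h4⟩
    refine ⟨y + y', fun i a => add_mem (h1 i a) (h3 i a), fun i j a => ?_⟩
    convert add_mem (h2 i j a) (h4 i j a) using 1
    simp only [Pi.add_apply, mulVec_add]
    ring
  smul_mem' := by
    rintro r z ⟨y, h1, h2⟩
    refine ⟨r • y, fun i a => Submodule.smul_mem _ r (h1 i a), fun i j a => ?_⟩
    convert Submodule.smul_of_tower_mem _ r (h2 i j a) using 1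
    simp only [Pi.smul_apply, mulVec_smul, smul_sub]

variable (f : Lr ℂ) (Φ : ℕ → Fin 3 → Fin 3 → Matrix n n (Lr ℂ)) (e : ℤ) (s : Fin 3 → n → Lr ℂ)

/-- the forms `a` such that `a s` lifts to the `k`-th thickening -/
def VV (k d : ℕ) : Submodule ℂ (Pol ℂ) where
  carrier := {a | a.IsHomogeneous d ∧ ∃ s' : Fin 3 → n → Lr ℂ, Sec f (Φ k) (k + 1) (e + d) s' ∧
    ∀ i c, s' i c - io ℂ a * s i c ∈ Ideal.span {f}}
  zero_mem' := ⟨isHomogeneous_zero _ _ _, 0, ⟨fun _ _ => zero_mem _, fun i j a => by simp⟩,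
    fun i c => by simp⟩
  add_mem' := by
    rintro a a' ⟨h0, y, ⟨h1, h2⟩, h3⟩ ⟨h0', y', ⟨h1', h2'⟩, h3'⟩
    refine ⟨h0.add h0', y + y', ⟨fun i a => add_mem (h1 i a) (h1' i a), fun i j a => ?_⟩,
      fun i c => ?_⟩
    · convert add_mem (h2 i j a) (h2' i j a) using 1
      simp only [Pi.add_apply, mulVec_add]
      ring
    · convert add_mem (h3 i c) (h3' i c) using 1
      simp only [Pi.add_apply, map_add]
      ring
  smul_mem' := by
    rintro r a ⟨h0, y, ⟨h1, h2⟩, h3⟩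
    refine ⟨(Hd d).smul_mem r h0, r • y,
      ⟨fun i a => Submodule.smul_mem _ r (h1 i a), fun i j a => ?_⟩, fun i c => ?_⟩
    · convert Submodule.smul_of_tower_mem _ r (h2 i j a) using 1
      simp only [Pi.smul_apply, mulVec_smul, smul_sub]
    · convert Submodule.smul_of_tower_mem _ r (h3 i c) using 1
      simp only [Pi.smul_apply, map_smul, smul_sub, smul_mul_assoc]

/-- liftings with their obstruction cocycles -/
def WW (k d : ℕ) : Submodule ℂ (Pol ℂ × (Fin 3 → n → Lr ℂ) × (Fin 3 → Fin 3 → n → Lr ℂ)) where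
  carrier := {w | w.1.IsHomogeneous d ∧ (∀ i c, w.2.1 i c ∈ T ℂ {i} (e + d)) ∧
    (∀ i, w.2.1 i - io ℂ w.1 • s i ∈ PJ n (Ideal.span {f})) ∧
    (∀ i j, w.2.1 i - Φ (k + 1) i j *ᵥ w.2.1 j = f ^ (k + 1) • w.2.2 i j) ∧
    ∀ i, w.2.1 i - Φ (k + 1) i i *ᵥ w.2.1 i ∈ PJ n (Ideal.span {f ^ (k + 1 + 1)})}
  zero_mem' := ⟨isHomogeneous_zero _ _ _, fun _ _ => zero_mem _, fun i => by simp,
    fun i j => by simp, fun i => by simp⟩
  add_mem' := by
    rintro w w' ⟨h0, h1, h2, h3, h4⟩ ⟨h0', h1', h2', h3', h4'⟩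
    refine ⟨h0.add h0', fun i a => add_mem (h1 i a) (h1' i a), fun i => ?_, fun i j => ?_,
      fun i => ?_⟩
    · convert add_mem (h2 i) (h2' i) using 1
      simp only [Prod.fst_add, Prod.snd_add, Pi.add_apply, map_add, add_smul]
      abel
    · simp only [Prod.fst_add, Prod.snd_add, Pi.add_apply, mulVec_add, smul_add, ← h3, ← h3']
      abel
    · convert add_mem (h4 i) (h4' i) using 1
      simp only [Prod.fst_add, Prod.snd_add, Pi.add_apply, mulVec_add]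
      abel
  smul_mem' := by
    rintro r w ⟨h0, h1, h2, h3, h4⟩
    refine ⟨(Hd d).smul_mem r h0, fun i a => Submodule.smul_mem _ r (h1 i a), fun i => ?_,
      fun i j => ?_, fun i => ?_⟩
    · convert Submodule.smul_of_tower_mem _ r (h2 i) using 1
      simp only [Prod.smul_fst, Prod.smul_snd, Pi.smul_apply, map_smul, smul_sub, smul_assoc]
    · simp only [Prod.smul_fst, Prod.smul_snd, Pi.smul_apply, mulVec_smul]
      rw [smul_comm, ← h3, smul_sub]
    · convert Submodule.smul_of_tower_mem _ r (h4 i) using 1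
      simp only [Prod.smul_fst, Prod.smul_snd, Pi.smul_apply, mulVec_smul, smul_sub]

variable {f Φ e s} {φ : Fin 3 → Fin 3 → Matrix n n (Lr ℂ)}

theorem VV_le (k d : ℕ) : VV f Φ e s k d ≤ Hd d := fun _ h => h.1

instance (k d : ℕ) : FiniteDimensional ℂ (VV f Φ e s k d) :=
  have : Module.Finite ℂ (Hd d) := Module.Finite.iff_fg.mpr (homogeneousSubmodule_fg _ _ d)
  Submodule.finiteDimensional_of_le (VV_le k d)

theorem sec_mul {ψ : Fin 3 → Fin 3 → Matrix n n (Lr ℂ)} {k : ℕ} {e : ℤ} {y : Fin 3 → n → Lr ℂ}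
    (h : Sec f ψ k e y) {b : Pol ℂ} {m : ℕ} (hb : b.IsHomogeneous m) :
    Sec f ψ k (e + m) fun i => io ℂ b • y i := by
  refine ⟨fun i a => ?_, fun i j a => ?_⟩
  · rw [add_comm]
    exact T_mul (io_mem hb _) (h.1 i a)
  · convert Ideal.mul_mem_left _ (io ℂ b) (h.2 i j a) using 1
    simp only [Pi.smul_apply, mulVec_smul, smul_eq_mul, mul_sub]

theorem mul_mem_VV {k d m : ℕ} {a b : Pol ℂ} (ha : a ∈ VV f Φ e s k d)
    (hb : b.IsHomogeneous m) : a * b ∈ VV f Φ e s k (d + m) := by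
  obtain ⟨h0, y, h1, h2⟩ := ha
  refine ⟨h0.mul hb, fun i => io ℂ b • y i, ?_, fun i c => ?_⟩
  · have := sec_mul h1 hb
    rwa [add_assoc, ← Nat.cast_add] at this
  · convert Ideal.mul_mem_left _ (io ℂ b) (h2 i c) using 1
    simp only [Pi.smul_apply, map_mul, smul_eq_mul]
    ring

theorem le_VV_zero (hT : Tow f φ Φ) (hs : Sec f φ 1 e s) (d : ℕ) : Hd d ≤ VV f Φ e s 0 d :=
  fun a ha => ⟨ha, fun i => io ℂ a • s i, hT.zero ▸ sec_mul hs ha, fun i c => by simp⟩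

theorem VV_anti (hT : Tow f φ Φ) (k d : ℕ) : VV f Φ e s (k + 1) d ≤ VV f Φ e s k d := by
  rintro a ⟨h0, y, ⟨h1, h2⟩, h3⟩
  refine ⟨h0, y, ⟨h1, fun i j => (mem_PJ (v := y i - Φ k i j *ᵥ y j)).1 ?_⟩, h3⟩
  have h4 : y i - Φ (k + 1) i j *ᵥ y j ∈ PJ n (Ideal.span {f ^ (k + 1)}) :=
    PJ_mono (Nat.le_succ _) (mem_PJ.2 (h2 i j))
  convert add_mem h4 (cong_PJ (hT.cmp k i j) (y j)) using 1
  abel

theorem cong_zero (hT : Tow f φ Φ) (k : ℕ) (i j : Fin 3) :
    Cong (Ideal.span {f}) (Φ k i j) (φ i j) := by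
  induction k with
  | zero => rw [hT.zero]; exact Cong.refl _ _
  | succ k ih =>
    exact ((hT.cmp k i j).mono
      (Ideal.span_singleton_le_span_singleton.2 (dvd_pow_self f k.succ_ne_zero))).trans ih

theorem ent_T (hT : Tow f φ Φ) (k : ℕ) (i : Fin 3) (a b : n) : Φ k i i a b ∈ T ℂ {i} 0 :=
  T_mono (by simp) 0 (hT.ent k i i a b)

theorem VV_le_map (hT : Tow f φ Φ) (k d : ℕ) :
    VV f Φ e s k d ≤ (WW f Φ e s k d).map (LinearMap.fst ℂ _ _) := by
  rintro a ⟨h0, y, ⟨h1, h2⟩, h3⟩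
  have h4 : ∀ i, Φ (k + 1) i i *ᵥ y i - y i ∈ PJ n (Ideal.span {f ^ (k + 1)}) := fun i => by
    convert sub_mem (cong_PJ (hT.cmp k i i) (y i))
      ((mem_PJ (v := y i - Φ k i i *ᵥ y i)).2 (h2 i i)) using 1
    abel
  have h5 : ∀ i j c, ∃ z, (Φ (k + 1) i i *ᵥ y i - Φ (k + 1) i j *ᵥ Φ (k + 1) j j *ᵥ y j) c =
      f ^ (k + 1) * z := fun i j c => by
    refine Ideal.mem_span_singleton.1 (mem_PJ.1 ?_ c)
    convert sub_mem (sub_mem (add_mem (h4 i) ((mem_PJ (v := y i - Φ k i j *ᵥ y j)).2 (h2 i j)))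
      (cong_PJ (hT.cmp k i j) (y j))) (mulVec_PJ (Φ (k + 1) i j) (h4 j)) using 1
    rw [mulVec_sub]
    abel
  choose z hz using h5
  refine ⟨(a, fun i => Φ (k + 1) i i *ᵥ y i, z), ⟨h0, fun i => mulVec_T (ent_T hT _ i) (h1 i),
    fun i => ?_, fun i j => funext (hz i j), fun i => ?_⟩, rfl⟩
  · have h6 := PJ_mono (Nat.succ_le_succ (Nat.zero_le k)) (h4 i)
    rw [Nat.succ_eq_add_one, zero_add, pow_one] at h6
    convert add_mem h6 ((mem_PJ (v := y i - io ℂ a • s i)).2 (h3 i)) using 1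
    simp only
    abel
  · have := neg_mem (cong_PJ ((hT.coc (k + 1)).mul i i i) (y i))
    rwa [neg_sub, ← mulVec_mulVec] at this

theorem z1_of_mem (hT : Tow f φ Φ) {k d : ℕ} (hf : ∀ q, f ^ (k + 1) * q = 0 → q = 0) {m : ℤ}
    (hq : ∀ S e q, f ^ (k + 1) * q ∈ T ℂ S e → q ∈ T ℂ S (e - m))
    {w : Pol ℂ × (Fin 3 → n → Lr ℂ) × (Fin 3 → Fin 3 → n → Lr ℂ)} (hw : w ∈ WW f Φ e s k d) :
    Z1 f φ (e + d - m) w.2.2 := by
  obtain ⟨a, y, z⟩ := w
  obtain ⟨-, h1, -, h3, h4⟩ := hw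
  simp only at h1 h3 h4 ⊢
  have hc : ∀ i j l, z i l - (z i j + φ i j *ᵥ z j l) ∈ PJ n (Ideal.span {f}) := fun i j l => by
    have h5 : z i l - (z i j + Φ (k + 1) i j *ᵥ z j l) ∈ PJ n (Ideal.span {f}) := by
      refine cancel hf ?_
      convert cong_PJ ((hT.coc (k + 1)).mul i j l) (y l) using 1
      rw [smul_sub, smul_add, ← mulVec_smul, ← h3, ← h3, ← h3, mulVec_sub, mulVec_mulVec]
      abel
    convert add_mem h5 (cong_PJ (cong_zero hT (k + 1) i j) (z j l)) using 1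
    abel
  refine ⟨fun i j c => hq _ _ _ ?_, fun i j => (mem_PJ (v := z i j - φ i i *ᵥ z i j)).1 ?_,
    fun i j l => mem_PJ.1 (hc i j l)⟩
  · have h5 : f ^ (k + 1) * z i j c = y i c - (Φ (k + 1) i j *ᵥ y j) c :=
      (congrFun (h3 i j) c).symm
    rw [h5]
    exact sub_mem (T_mono (by simp) _ (h1 i c))
      (mulVec_T (hT.ent _ i j) (fun b => T_mono (by simp) _ (h1 j b)) c)
  · have h5 : z i i ∈ PJ n (Ideal.span {f}) := cancel hf (h3 i i ▸ h4 i)
    convert add_mem (hc i i j) h5 using 1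
    abel

theorem mem_succ (hT : Tow f φ Φ) {k d : ℕ} {m : ℤ} (hm : ∀ S, f ^ (k + 1) ∈ T ℂ S m)
    {w : Pol ℂ × (Fin 3 → n → Lr ℂ) × (Fin 3 → Fin 3 → n → Lr ℂ)} (hw : w ∈ WW f Φ e s k d)
    (hB : B1 f φ (e + d - m) w.2.2) : w.1 ∈ VV f Φ e s (k + 1) d := by
  obtain ⟨a, y, z⟩ := w
  obtain ⟨h0, h1, h2, h3, -⟩ := hw
  obtain ⟨u, hu1, hu2⟩ := hB
  simp only at h0 h1 h2 h3 hu2 ⊢
  refine ⟨h0, fun i => y i - f ^ (k + 1) • u i, ⟨fun i c => sub_mem (h1 i c) ?_,
    fun i j c => ?_⟩, fun i => (mem_PJ (v := y i - f ^ (k + 1) • u i - io ℂ a • s i)).1 ?_⟩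
  · have := T_mul (hm {i}) (hu1 i c)
    rwa [add_sub_cancel] at this
  · have h5 : z i j - (u i - Φ (k + 1) i j *ᵥ u j) ∈ PJ n (Ideal.span {f}) := by
      convert add_mem ((mem_PJ (v := z i j - (u i - φ i j *ᵥ u j))).2 (hu2 i j))
        (cong_PJ (cong_zero hT (k + 1) i j) (u j)) using 1
      abel
    have h6 : y i - f ^ (k + 1) • u i - Φ (k + 1) i j *ᵥ (y j - f ^ (k + 1) • u j) =
        f ^ (k + 1) • (z i j - (u i - Φ (k + 1) i j *ᵥ u j)) := by
      rw [smul_sub, smul_sub, ← h3, mulVec_sub, mulVec_smul]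
      abel
    have h7 := congrFun h6 c
    obtain ⟨r, hr⟩ := Ideal.mem_span_singleton.1 (mem_PJ.1 h5 c)
    refine Ideal.mem_span_singleton.2 ⟨r, h7.trans ?_⟩
    rw [Pi.smul_apply, hr, smul_eq_mul]
    ring
  · have h5 : f ^ (k + 1) • u i ∈ PJ n (Ideal.span {f}) := mem_PJ.2 fun c =>
      Ideal.mul_mem_right _ _ (Ideal.mem_span_singleton.2 (dvd_pow_self f k.succ_ne_zero))
    convert sub_mem (h2 i) h5 using 1
    abel

variable (f Φ e s) in
/-- the ideal of the forms whose multiples of `s` lift to all thickenings -/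
def II : Ideal (Pol ℂ) where
  carrier := {a | ∀ d k, homogeneousComponent d a ∈ VV f Φ e s k d}
  zero_mem' d k := by rw [map_zero]; exact zero_mem _
  add_mem' ha hb d k := by rw [map_add]; exact add_mem (ha d k) (hb d k)
  smul_mem' b a ha d k := by
    rw [smul_eq_mul, ← sum_homogeneousComponent b, ← sum_homogeneousComponent a,
      Finset.sum_mul_sum, map_sum]
    refine sum_mem fun i _ => ?_
    rw [map_sum]
    refine sum_mem fun j _ => ?_
    rw [homogeneousComponent_of_mem ((homogeneousComponent_isHomogeneous i b).mul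
      (homogeneousComponent_isHomogeneous j a))]
    split_ifs with h
    · rw [h, mul_comm, add_comm]
      exact mul_mem_VV (ha j k) (homogeneousComponent_isHomogeneous i b)
    · exact zero_mem _

theorem mem_II {d : ℕ} {a : Pol ℂ} (h : ∀ k, a ∈ VV f Φ e s k d) : a ∈ II f Φ e s := by
  intro d' k
  rw [homogeneousComponent_of_mem (h 0).1]
  split_ifs with h1
  · exact h1 ▸ h k
  · exact zero_mem _

end NLiftP

open NLiftP

theorem lift (hC : S_CDiv) : S_Lift := by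
  intro F hF n _ _ φ Φ hT ⟨a₀, b₀, L, hH⟩ e s hs
  have hD : ∀ k, CDiv (F ^ k) (k * 6) := fun k => (hC ℂ _ _ ((hC ℂ F 6 hF).2 k)).1
  have hf : ∀ k q, io ℂ F ^ (k + 1) * q = 0 → q = 0 := fun k q h =>
    (hD (k + 1)).uniq q (by
      rw [map_pow, h, Polynomial.degree_zero]
      exact WithBot.bot_lt_coe _)
  have hq : ∀ (k : ℕ) S e q, io ℂ F ^ k * q ∈ T ℂ S e → q ∈ T ℂ S (e - (k * 6 : ℕ)) :=
    fun k S e q h => (hD k).quot S e q (by rwa [map_pow])
  have hm : ∀ (k : ℕ) S, io ℂ F ^ k ∈ T ℂ S (k * 6 : ℕ) := fun k S => by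
    rw [← map_pow]
    exact io_mem ((hC ℂ F 6 hF).2 k).hom S
  have step1 : ∀ k d : ℕ,
      finrank ℂ (VV (io ℂ F) Φ e s k d) ≤ finrank ℂ (VV (io ℂ F) Φ e s (k + 1) d) + L := by
    intro k d
    obtain ⟨U, hU⟩ := (hH (e + d - ((k + 1) * 6 : ℕ))).2
    exact finrank_le (LinearMap.fst ℂ _ _) (LinearMap.snd ℂ _ _ ∘ₗ LinearMap.snd ℂ _ _)
      (WW (io ℂ F) Φ e s k d) (Bs (io ℂ F) φ _) _ _ U (VV_le_map hT k d)
      (fun w hw => hU _ (z1_of_mem hT (hf k) (hq (k + 1)) hw))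
      fun w hw hB => mem_succ hT (hm (k + 1)) hw hB
  have step2 : ∀ k d : ℕ, e + d - ((k + 1) * 6 : ℕ) ∉ Finset.Icc a₀ b₀ →
      VV (io ℂ F) Φ e s k d ≤ VV (io ℂ F) Φ e s (k + 1) d := by
    intro k d h a ha
    obtain ⟨w, hw, rfl⟩ := VV_le_map hT k d ha
    refine mem_succ hT (hm (k + 1)) hw ((hH _).1 ?_ _ (z1_of_mem hT (hf k) (hq (k + 1)) hw))
    rw [Finset.mem_Icc] at h
    omega
  refine ⟨II (io ℂ F) Φ e s, fun b hb d => mem_II (hb d), ⟨L * (Finset.Icc a₀ b₀).card,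
    fun d => ?_⟩, fun a ha d hd k => ?_⟩
  · have count : ∀ K : ℕ, finrank ℂ (Hd d) ≤ finrank ℂ (VV (io ℂ F) Φ e s K d) +
        L * ((Finset.range K).filter
          fun k => e + d - ((k + 1) * 6 : ℕ) ∈ Finset.Icc a₀ b₀).card := by
      intro K
      induction K with
      | zero => simpa using Submodule.finrank_mono (le_VV_zero hT hs d)
      | succ K ih =>
        rw [Finset.range_add_one, Finset.filter_insert]
        split_ifs with h
        · rw [Finset.card_insert_of_notMem (by simp), mul_add, mul_one]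
          have := step1 K d
          omega
        · have := Submodule.finrank_mono (step2 K d h)
          omega
    obtain ⟨K, hK⟩ : ∃ K : ℕ, e + d - a₀ ≤ K := ⟨(e + d - a₀).toNat, Int.self_le_toNat _⟩
    have hall : ∀ k, VV (io ℂ F) Φ e s K d ≤ VV (io ℂ F) Φ e s k d := by
      intro k
      rcases le_total k K with h | h
      · exact antitone_nat_of_succ_le (f := fun k => VV (io ℂ F) Φ e s k d)
          (fun k => VV_anti hT k d) h
      · induction k, h using Nat.le_induction with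
        | base => exact le_rfl
        | succ k h ih =>
          refine ih.trans (step2 k d ?_)
          rw [Finset.mem_Icc]
          omega
    have hle : VV (io ℂ F) Φ e s K d ≤ Id (II (io ℂ F) Φ e s) d := fun a ha =>
      mem_Id.2 ⟨mem_II fun k => hall k ha, ha.1⟩
    have : Module.Finite ℂ (Hd d) := Module.Finite.iff_fg.mpr (homogeneousSubmodule_fg _ _ d)
    have : Module.Finite ℂ (Id (II (io ℂ F) Φ e s) d) :=
      Submodule.finiteDimensional_of_le inf_le_right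
    have h1 := Submodule.finrank_mono hle
    have h2 := HilbP.hilb_add_Id (II (io ℂ F) Φ e s) d
    have h3 := count K
    have h4 : ((Finset.range K).filter
        fun k => e + d - ((k + 1) * 6 : ℕ) ∈ Finset.Icc a₀ b₀).card ≤ (Finset.Icc a₀ b₀).card :=
      Finset.card_le_card_of_injOn (fun k : ℕ => e + d - ((k + 1) * 6 : ℕ))
        (fun k hk => (Finset.mem_filter.1 hk).2) fun k _ k' _ h => by
          simp only at h
          omega
    have h5 := Nat.mul_le_mul_left L h4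
    omega
  · have := ha d k
    rw [homogeneousComponent_eq_self hd] at this
    exact this.2

end Pool.Agent.P.MP_2b2d3b_ag
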