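import Pool.Agent.P.MP_2b2d3b_ag.StN
import Pool.Agent.P.MP_2b2d3b_ag.FinC

/-!
Package Loc: a homogeneous prime of height one of the cone over a smooth surface is locally
principal at every point.
-/

namespace Pool.Agent.P.MP_2b2d3b_ag

open MvPolynomial

namespace NLocP

section Local

open IsLocalRing

variable {O : Type} [CommRing O] [IsLocalRing O] [IsNoetherianRing O] {u v : O}

theorem prin (hm : maximalIdeal O = Ideal.span {u, v}) (Q : Ideal O) (hQ : Q.IsPrime)
    (hu : u ∉ Q) : ∃ a ∈ Q, Q ≤ Ideal.span {a} := by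
  obtain ⟨a, ha, H⟩ := FinCP.ideal_gen hm Q
  refine ⟨a, ha, Submodule.le_of_le_smul_of_le_jacobson_bot (I := Ideal.span {u})
    (IsNoetherian.noetherian Q) ?_ fun b hb => ?_⟩
  · refine le_trans ?_ (maximalIdeal_le_jacobson _)
    rw [hm]
    exact Ideal.span_mono (by simp)
  · obtain ⟨r, x, hx⟩ := H b hb
    have h1 : u * x ∈ Q := hx ▸ Q.sub_mem hb (Q.mul_mem_left _ ha)
    have h2 : x ∈ Q := (hQ.mem_or_mem h1).resolve_left hu
    have e : b = r * a + u • x := by rw [smul_eq_mul, ← hx]; ring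
    rw [e]
    exact Submodule.add_mem_sup (Ideal.mul_mem_left _ _ (Ideal.mem_span_singleton_self a))
      (Submodule.smul_mem_smul (Ideal.mem_span_singleton_self u) h2)

theorem prin_gen {S : Set O} {a : O} (ha : a ∈ Ideal.span S)
    (h : Ideal.span S ≤ Ideal.span {a}) : ∃ s ∈ insert 0 S, Ideal.span S ≤ Ideal.span {s} := by
  by_cases hs : ∃ s ∈ S, ∃ r, IsUnit r ∧ s = r * a
  · obtain ⟨s, hs, r, ⟨r, rfl⟩, e⟩ := hs
    refine ⟨s, Or.inr hs, h.trans ?_⟩
    rw [Ideal.span_singleton_le_span_singleton, e]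
    exact ⟨(r⁻¹ : Oˣ), by rw [mul_right_comm, r.mul_inv, one_mul]⟩
  · refine ⟨0, Or.inl rfl, ?_⟩
    have : Ideal.span S = ⊥ := by
      refine Submodule.eq_bot_of_le_smul_of_le_jacobson_bot (maximalIdeal O) _
        (IsNoetherian.noetherian _) ?_ (maximalIdeal_le_jacobson _)
      refine Ideal.span_le.2 fun s hs' => ?_
      obtain ⟨r, hr⟩ := Ideal.mem_span_singleton'.1 (h (Ideal.subset_span hs'))
      have hr' : r ∈ maximalIdeal O := fun hu => hs ⟨s, hs', r, hu, hr.symm⟩
      rw [← hr]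
      exact Submodule.smul_mem_smul hr' ha
    rw [this]
    exact bot_le

end Local

theorem loc_gen {A : Type} [CommRing A] [IsNoetherianRing A] {F u v t0 : A} {I : Ideal A}
    {S : Set A} (hI : I.IsPrime) (hP : (Ideal.span S).IsPrime) (hF : F ∈ Ideal.span S)
    (hPI : Ideal.span S ≤ I) (hu : u ∈ I) (hv : v ∈ I) (ht0 : t0 ∉ I)
    (hg : ∀ x ∈ I, t0 * x ∈ Ideal.span {F, u, v}) (hu' : u ∉ Ideal.span S) :
    ∃ s ∈ insert 0 S, ∀ y ∈ Ideal.span S, ∃ t, t ∉ I ∧ t * y ∈ Ideal.span {F, s} := by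
  let π := Ideal.Quotient.mk (Ideal.span {F})
  have hπ : Function.Surjective π := Ideal.Quotient.mk_surjective
  have back : ∀ J : Ideal A, F ∈ J → ∀ x, π x ∈ J.map π → x ∈ J := fun J hJ x hx => by
    have : x ∈ (J.map π).comap π := hx
    rw [Ideal.comap_map_of_surjective' π hπ, Ideal.mk_ker] at this
    exact (sup_le le_rfl ((Ideal.span_singleton_le_iff_mem _).2 hJ) : _ ≤ J) this
  have prime : ∀ J : Ideal A, J.IsPrime → F ∈ J → (J.map π).IsPrime := fun J hJ hF' =>
    Ideal.map_isPrime_of_surjective hπ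
      (by rw [Ideal.mk_ker]; exact (Ideal.span_singleton_le_iff_mem _).2 hF')
  let m := I.map π
  have : m.IsPrime := prime I hI (hPI hF)
  let O := Localization.AtPrime m
  let φ : A →+* O := (algebraMap _ O).comp π
  have mm : ∀ J : Ideal A, J.map φ = (J.map π).map (algebraMap _ O) := fun J =>
    (Ideal.map_map _ _).symm
  have key : ∀ J : Ideal A, F ∈ J → ∀ a, φ a ∈ J.map φ → ∃ t, t ∉ I ∧ t * a ∈ J := by
    intro J hJ a ha
    rw [mm] at ha
    obtain ⟨t, ht, h⟩ :=
      (IsLocalization.algebraMap_mem_map_algebraMap_iff m.primeCompl O _ (π a)).1 ha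
    obtain ⟨t, rfl⟩ := hπ t
    exact ⟨t, fun h' => ht (Ideal.mem_map_of_mem π h'), back J hJ _ (by rwa [map_mul])⟩
  have hφF : φ F = 0 := by
    have : π F = 0 := Ideal.Quotient.eq_zero_iff_mem.2 (Ideal.mem_span_singleton_self F)
    simp only [φ, RingHom.comp_apply, this, map_zero]
  have hmax : IsLocalRing.maximalIdeal O = I.map φ := by
    rw [mm]
    exact (IsLocalization.AtPrime.map_eq_maximalIdeal m O).symm
  have hunit : IsUnit (φ t0) :=
    IsLocalization.map_units O (⟨π t0, fun h => ht0 (back I (hPI hF) _ h)⟩ : m.primeCompl)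
  have hm : IsLocalRing.maximalIdeal O = Ideal.span {φ u, φ v} := by
    rw [hmax]
    apply le_antisymm
    · refine Ideal.map_le_iff_le_comap.2 fun x hx => ?_
      have h1 := Ideal.mem_map_of_mem φ (hg x hx)
      rw [Ideal.map_span, Set.image_insert_eq, Set.image_pair, hφF, Ideal.span_insert_zero,
        map_mul] at h1
      exact (Ideal.unit_mul_mem_iff_mem _ hunit).1 h1
    · rw [Ideal.span_le, Set.pair_subset_iff]
      exact ⟨Ideal.mem_map_of_mem _ hu, Ideal.mem_map_of_mem _ hv⟩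
  have hQ : ((Ideal.span S).map φ).IsPrime := by
    rw [mm]
    refine IsLocalization.isPrime_of_isPrime_disjoint m.primeCompl O _ (prime _ hP hF) ?_
    exact Set.disjoint_left.2 fun x hx hx' => hx (Ideal.map_mono hPI hx')
  have huQ : φ u ∉ (Ideal.span S).map φ := fun h => by
    obtain ⟨t, ht, h'⟩ := key _ hF u h
    exact (hP.mem_or_mem h').elim (fun h'' => ht (hPI h'')) hu'
  obtain ⟨a, ha, H⟩ := prin hm _ hQ huQ
  rw [Ideal.map_span] at ha H
  obtain ⟨s', hs', H'⟩ := prin_gen ha H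
  obtain ⟨s, hs, rfl⟩ : ∃ s ∈ insert 0 S, φ s = s' := by
    rcases hs' with rfl | ⟨s, hs, rfl⟩
    · exact ⟨0, Or.inl rfl, map_zero φ⟩
    · exact ⟨s, Or.inr hs, rfl⟩
  refine ⟨s, hs, fun y hy => key _ (Ideal.subset_span (by simp)) y ?_⟩
  have h1 := Ideal.mem_map_of_mem φ hy
  rw [Ideal.map_span] at h1
  refine Ideal.span_mono ?_ (H' h1) |> fun h => by rwa [Ideal.map_span]
  rintro _ rfl
  exact ⟨s, by simp, rfl⟩

theorem sub_mem (σ : Pol ℂ →ₐ[ℂ] Pol ℂ) (J : Ideal (Pol ℂ)) (h : ∀ i, X i - σ (X i) ∈ J)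
    (b : Pol ℂ) : b - σ b ∈ J := by
  induction b using MvPolynomial.induction_on with
  | C a => rw [algHom_C, algebraMap_eq, sub_self]; exact J.zero_mem
  | add a b ha hb =>
    convert J.add_mem ha hb using 1
    rw [map_add]
    ring
  | mul_X a i ha =>
    convert J.add_mem (J.mul_mem_right (X i) ha) (J.mul_mem_left (σ a) (h i)) using 1
    rw [map_mul]
    ring

/-- substitution of `c i * x j` for the variables in `S` -/
noncomputable def sb (j : Fin 4) (c : Fin 4 → ℂ) (S : Finset (Fin 4)) : Pol ℂ →ₐ[ℂ] Pol ℂ :=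
  aeval fun i => if i ∈ S then C (c i) * X j else X i

theorem ker_le {j : Fin 4} {c : Fin 4 → ℂ} {S : Finset (Fin 4)} {J : Ideal (Pol ℂ)}
    (h : ∀ i ∈ S, X i - C (c i) * X j ∈ J) : RingHom.ker (sb j c S) ≤ J := fun b hb => by
  have := sub_mem (sb j c S) J (fun i => by
    rw [sb, aeval_X]
    split_ifs with hi
    · exact h i hi
    · rw [sub_self]; exact J.zero_mem) b
  rwa [RingHom.mem_ker.1 hb, sub_zero] at this

theorem mem_ker {j : Fin 4} {c : Fin 4 → ℂ} {S : Finset (Fin 4)} (hj : j ∉ S) {i : Fin 4}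
    (hi : i ∈ S) : X i - C (c i) * X j ∈ RingHom.ker (sb j c S) := by
  rw [RingHom.mem_ker, map_sub, map_mul, algHom_C, algebraMap_eq, sb, aeval_X, aeval_X, if_pos hi,
    if_neg hj, sub_self]

theorem ker_lt {j : Fin 4} {c : Fin 4 → ℂ} {S : Finset (Fin 4)} (hj : j ∉ S) {i : Fin 4}
    (hi : i ∉ S) (hij : i ≠ j) : RingHom.ker (sb j c S) < RingHom.ker (sb j c (insert i S)) := by
  have hj' : j ∉ insert i S := by simp [hj, hij.symm]
  refine lt_of_le_of_ne (ker_le fun k hk => mem_ker hj' (by simp [hk])) fun e => ?_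
  have h1 : X i - C (c i) * X j ∈ RingHom.ker (sb j c S) := e ▸ mem_ker hj' (by simp)
  rw [RingHom.mem_ker, map_sub, map_mul, algHom_C, algebraMap_eq, sb, aeval_X, aeval_X, if_neg hi,
    if_neg hj] at h1
  have h2 := congrArg (eval (Pi.single i (1 : ℂ))) h1
  simp [hij.symm] at h2

end NLocP

open NLocP

theorem ht : S_Ht := by
  classical
  intro F π P hP j c
  by_contra hcon
  push Not at hcon
  have h2 : P.height ≤ 2 := by
    have h := Ideal.height_le_card_of_mem_minimalPrimes_span_finset (p := P) (s := {F, π})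
      (by simpa using hP)
    exact h.trans (by exact_mod_cast Finset.card_le_two)
  have pr : ∀ S, (RingHom.ker (sb j c S)).IsPrime := fun S => RingHom.ker_isPrime _
  have ne : ∀ k, j.succAbove k ≠ j := fun k => Fin.succAbove_ne j k
  have inj : ∀ k k', j.succAbove k = j.succAbove k' ↔ k = k' := fun k k' =>
    Fin.succAbove_right_inj
  have s1 := Ideal.height_add_one_le_of_lt_of_isPrime
    (ker_lt (j := j) (c := c) (S := ∅) (i := j.succAbove 0) (by simp) (by simp) (ne 0))
  have s2 := Ideal.height_add_one_le_of_lt_of_isPrime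
    (ker_lt (j := j) (c := c) (S := insert (j.succAbove 0) ∅) (i := j.succAbove 1)
      (by simp [(ne _).symm]) (by simp [inj]) (ne 1))
  have s3 := Ideal.height_add_one_le_of_lt_of_isPrime
    (ker_lt (j := j) (c := c) (S := insert (j.succAbove 1) (insert (j.succAbove 0) ∅))
      (i := j.succAbove 2) (by simp [(ne _).symm]) (by simp [inj]) (ne 2))
  have s4 : (RingHom.ker (sb j c (insert (j.succAbove 2) (insert (j.succAbove 1)
      (insert (j.succAbove 0) ∅))))).height ≤ P.height := by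
    refine Ideal.height_mono (ker_le fun i hi => hcon i ?_)
    simp only [Finset.mem_insert, Finset.notMem_empty, or_false] at hi
    rcases hi with rfl | rfl | rfl <;> exact ne _
  have s5 : ∀ a b d e f : ℕ∞, a + 1 ≤ b → b + 1 ≤ d → d + 1 ≤ e → e ≤ f → f ≤ 2 → False := by
    intro a b d e f k1 k2 k3 k4 k5
    have k6 : (0 : ℕ∞) + 1 + 1 + 1 ≤ 2 :=
      calc (0 : ℕ∞) + 1 + 1 + 1 ≤ a + 1 + 1 + 1 := by gcongr; exact bot_le
        _ ≤ b + 1 + 1 := by gcongr
        _ ≤ d + 1 := by gcongr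
        _ ≤ 2 := k3.trans (k4.trans k5)
    exact absurd k6 (by decide)
  exact s5 _ _ _ _ _ s1 s2 s3 s4 h2

theorem loc (hH : S_Ht) : S_Loc := by
  classical
  intro F hF π P hP hom p hp hpF
  obtain ⟨j, hj⟩ := Function.ne_iff.1 hp
  have hj : p j ≠ 0 := hj
  have hPp : P.IsPrime := hP.isPrime
  have hFP : F ∈ P := hP.le (Ideal.subset_span (by simp))
  let c : Fin 4 → ℂ := fun i => p i / p j
  have cj : c j = 1 := div_self hj
  let l : Fin 4 → Pol ℂ := fun i => X i - C (c i) * X j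
  have lj : l j = 0 := by simp [l, cj]
  have lp : ∀ i, eval p (l i) = 0 := fun i => by simp [l, c, hj]
  let I := RingHom.ker (sb j c (Finset.univ.erase j))
  have hI : I.IsPrime := RingHom.ker_isPrime _
  have lI : ∀ i, i ≠ j → l i ∈ I := fun i hi => mem_ker (by simp) (by simp [hi])
  have Ile : I ≤ Ideal.span (Set.range l) := ker_le fun i _ => Ideal.subset_span ⟨i, rfl⟩
  have Iev : I ≤ RingHom.ker (eval p) := ker_le fun i _ => lp i
  have form : ∀ (w : Pol ℂ) (m : ℕ), w.IsHomogeneous m → w ∉ I → eval p w ≠ 0 := by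
    intro w m hw hwI h0
    apply hwI
    have e1 : (fun i => if i ∈ Finset.univ.erase j then C (c i) * X j else X i) =
        fun i => (X j * C (c i) : Pol ℂ) := by
      funext i
      by_cases hi : i = j
      · simp [hi, cj]
      · simp [hi, mul_comm]
    have e2 : p = fun i => p j * c i := by
      funext i
      simp only [c]
      field_simp
    have e3 : eval c w = 0 := by
      rw [e2, eval_scale _ _ hw] at h0
      exact (mul_eq_zero.1 h0).resolve_left (pow_ne_zero _ hj)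
    have e4 : eval₂ (C : ℂ →+* Pol ℂ) (fun i => C (c i)) w = C (eval c w) :=
      (eval₂_comp_left (C : ℂ →+* Pol ℂ) (RingHom.id ℂ) c w).symm
    rw [RingHom.mem_ker, sb, e1, aeval_def, algebraMap_eq, eval₂_scale _ _ _ hw, e4, e3, map_zero,
      mul_zero]
  have comp : ∀ t : Pol ℂ, t ∉ I → ∃ d, homogeneousComponent d t ∉ I := fun t ht => by
    by_contra hc
    push Not at hc
    apply ht
    rw [← sum_homogeneousComponent t]
    exact I.sum_mem fun d _ => hc d
  by_cases hPI : P ≤ I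
  swap
  · obtain ⟨y, hy, hyI⟩ := Set.not_subset.1 hPI
    obtain ⟨d, hd⟩ := comp y hyI
    have hh := homogeneousComponent_isHomogeneous d y
    exact ⟨_, _, d, d, hh, hh, form _ d hh hd, hom y hy d, fun z _ =>
      Ideal.mul_mem_right _ _ (Ideal.subset_span (by simp))⟩
  obtain ⟨G, hG⟩ := Ideal.mem_span_range_iff_exists_fun.1 (Ile (hPI hFP))
  obtain ⟨i0, hi0, hG0⟩ : ∃ i, i ≠ j ∧ eval p (G i) ≠ 0 := by
    by_contra hc
    push Not at hc
    obtain ⟨k, hk⟩ := hF.smooth p hp hpF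
    apply hk
    rw [← hG, map_sum, map_sum]
    refine Finset.sum_eq_zero fun i _ => ?_
    by_cases hi : i = j
    · rw [hi, lj, mul_zero, map_zero, map_zero]
    · rw [Derivation.leibniz, smul_eq_mul, smul_eq_mul, map_add, map_mul, map_mul, hc i hi, lp i,
        zero_mul, zero_mul, add_zero]
  have hGI : G i0 ∉ I := fun h => hG0 (Iev h)
  have idx : ∀ j i0 : Fin 4, i0 ≠ j → ∃ a b, a ≠ j ∧ b ≠ j ∧
      ∀ i, i ≠ i0 → i = j ∨ i = a ∨ i = b := by decide
  obtain ⟨a, b, ha, hb, hab⟩ := idx j i0 hi0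
  have gen : ∀ J : Ideal (Pol ℂ), F ∈ J → l a ∈ J → l b ∈ J → ∀ x ∈ I, G i0 * x ∈ J := by
    intro J h1 h2 h3 x hx
    have h4 : ∀ i, i ≠ i0 → l i ∈ J := fun i hi => by
      rcases hab i hi with rfl | rfl | rfl
      · rw [lj]; exact J.zero_mem
      · exact h2
      · exact h3
    have h5 : G i0 * l i0 ∈ J := by
      rw [← hG, ← Finset.add_sum_erase _ _ (Finset.mem_univ i0)] at h1
      exact (J.add_mem_iff_left (J.sum_mem fun i hi =>
        J.mul_mem_left _ (h4 i (Finset.ne_of_mem_erase hi)))).1 h1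
    obtain ⟨K, rfl⟩ := Ideal.mem_span_range_iff_exists_fun.1 (Ile hx)
    rw [Finset.mul_sum]
    refine J.sum_mem fun i _ => ?_
    rw [mul_left_comm]
    refine J.mul_mem_left _ ?_
    by_cases hi : i = i0
    · rw [hi]; exact h5
    · exact J.mul_mem_left _ (h4 i hi)
  let S : Set (Pol ℂ) := {y | y ∈ P ∧ ∃ d, y.IsHomogeneous d}
  have hS : Ideal.span S = P := by
    refine le_antisymm (Ideal.span_le.2 fun y hy => hy.1) fun y hy => ?_
    rw [← sum_homogeneousComponent y]
    exact Ideal.sum_mem _ fun d _ =>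
      Ideal.subset_span ⟨hom y hy d, d, homogeneousComponent_isHomogeneous d y⟩
  obtain ⟨s, hs, H⟩ : ∃ s ∈ insert 0 S, ∀ y ∈ Ideal.span S, ∃ t, t ∉ I ∧
      t * y ∈ Ideal.span {F, s} := by
    by_cases h1 : l a ∈ P
    · by_cases h2 : l b ∈ P
      · obtain ⟨i, hi, h3⟩ := hH F π P hP j c
        exact absurd ((hPp.mem_or_mem (gen P hFP h1 h2 _ (lI i hi))).resolve_left
          fun h => hGI (hPI h)) h3
      · exact loc_gen (u := l b) (v := l a) hI (hS ▸ hPp) (hS ▸ hFP) (hS ▸ hPI) (lI b hb) (lI a ha)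
          hGI (gen _ (Ideal.subset_span (by simp)) (Ideal.subset_span (by simp))
            (Ideal.subset_span (by simp))) (hS ▸ h2)
    · exact loc_gen (u := l a) (v := l b) hI (hS ▸ hPp) (hS ▸ hFP) (hS ▸ hPI) (lI a ha) (lI b hb)
        hGI (gen _ (Ideal.subset_span (by simp)) (Ideal.subset_span (by simp))
          (Ideal.subset_span (by simp))) (hS ▸ h1)
  obtain ⟨hsP, m', hs'⟩ : s ∈ P ∧ ∃ d, s.IsHomogeneous d := by
    rcases hs with rfl | hs
    · exact ⟨P.zero_mem, 0, isHomogeneous_zero _ _ _⟩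
    · exact hs
  have H' : ∀ y : Pol ℂ, ∃ (w : Pol ℂ) (m : ℕ), w.IsHomogeneous m ∧ eval p w ≠ 0 ∧
      (y ∈ S → w * y ∈ Ideal.span {F, s}) := by
    intro y
    by_cases hy : y ∈ S
    · obtain ⟨t, ht, h1⟩ := H y (Ideal.subset_span hy)
      obtain ⟨d, hd⟩ := comp t ht
      obtain ⟨e, he⟩ := hy.2
      have hh := homogeneousComponent_isHomogeneous d t
      refine ⟨_, d, hh, form _ d hh hd, fun _ => ?_⟩
      have := comp_mem_two hF.homog hs' h1 (d + e)
      rwa [comp_mul he] at this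
    · exact ⟨1, 0, isHomogeneous_one _ _, by simp, fun h => absurd h hy⟩
  choose w m hw hwp hwy using H'
  obtain ⟨T, hT, hT'⟩ := (Submodule.fg_span_iff_fg_span_finset_subset (R := Pol ℂ) S).1
    (IsNoetherian.noetherian _)
  refine ⟨∏ y ∈ T, w y, s, ∑ y ∈ T, m y, m', IsHomogeneous.prod T w m fun y _ => hw y, hs', ?_,
    hsP, fun y hy => ?_⟩
  · rw [map_prod]
    exact Finset.prod_ne_zero_iff.2 fun y _ => hwp y
  · rw [← hS] at hy
    change y ∈ Submodule.span (Pol ℂ) S at hy
    rw [hT'] at hy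
    induction hy using Submodule.span_induction with
    | mem x hx =>
      rw [← Finset.prod_erase_mul _ _ hx, mul_assoc]
      exact Ideal.mul_mem_left _ _ (hwy x (hT hx))
    | zero => rw [mul_zero]; exact Ideal.zero_mem _
    | add x z _ _ hx hz => rw [mul_add]; exact Ideal.add_mem _ hx hz
    | smul r x _ hx => rw [smul_eq_mul, mul_left_comm]; exact Ideal.mul_mem_left _ _ hx

end Pool.Agent.P.MP_2b2d3b_ag
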