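import Pool.Agent.P.MP_2b2d3b_ag.St

/-! Points of schemes locally of finite type over the complex numbers. -/

namespace Pool.Agent.P.MP_2b2d3b_ag

open CategoryTheory AlgebraicGeometry Set Topology TopologicalSpace

theorem comp : S_Comp := by
  intro X _ Z₁ Z₂ c1 c2 i1 i2 hu n12 n21
  have key : ∀ s : Set X, IsIrreducible s → s ⊆ Z₁ ∨ s ⊆ Z₂ := fun s hs =>
    (isPreirreducible_iff_isClosed_union_isClosed.1 hs.2) Z₁ Z₂ c1 c2 (by rw [hu]; exact subset_univ _)
  ext s
  constructor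
  · intro hs
    rcases key s hs.1 with h | h
    · exact Or.inl (h.antisymm (hs.2 i1 h))
    · exact Or.inr (h.antisymm (hs.2 i2 h))
  · rintro (rfl | rfl)
    · exact ⟨i1, fun t ht hle => (key t ht).elim id fun h => absurd (hle.trans h) n12⟩
    · exact ⟨i2, fun t ht hle => (key t ht).elim (fun h => absurd (hle.trans h) n21) id⟩

namespace SchP

theorem map_apply {D D' : Type} [CommRing D] [CommRing D'] (φ : D →+* D') (q : PrimeSpectrum D') :
    Spec.map (CommRingCat.ofHom φ) q = PrimeSpectrum.comap φ q := rfl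

theorem kp_comp {D D' : Type} [CommRing D] [CommRing D'] [Algebra ℂ D] [Algebra ℂ D']
    (φ : D →ₐ[ℂ] D') (t : D' →ₐ[ℂ] ℂ) :
    Spec.map (CommRingCat.ofHom (φ : D →+* D')) (kp t) = kp (t.comp φ) :=
  PrimeSpectrum.ext (by ext a; rfl)

theorem kp_inj {D : Type} [CommRing D] [Algebra ℂ D] {t t' : D →ₐ[ℂ] ℂ} (h : kp t = kp t') :
    t = t' := by
  have h1 : RingHom.ker (t : D →+* ℂ) = RingHom.ker (t' : D →+* ℂ) :=
    congrArg PrimeSpectrum.asIdeal h
  ext a
  have h2 : a - algebraMap ℂ D (t a) ∈ RingHom.ker (t : D →+* ℂ) := by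
    simp [RingHom.mem_ker]
  rw [h1] at h2
  have h3 : t' a - t a = 0 := by simpa [RingHom.mem_ker] using h2
  exact (sub_eq_zero.1 h3).symm

theorem closed_pt {X : Scheme.{0}} (D : Type) [CommRing D] [Algebra ℂ D] (g : Spec (.of D) ⟶ X)
    (t : D →ₐ[ℂ] ℂ) :
    (Spec.map (CommRingCat.ofHom (t : D →+* ℂ)) ≫ g) (IsLocalRing.closedPoint ℂ) = g (kp t) := by
  refine (Scheme.Hom.comp_apply _ _ _).trans (congrArg g ?_)
  refine PrimeSpectrum.ext ?_
  ext a
  change t a ∈ IsLocalRing.maximalIdeal ℂ ↔ t a = 0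
  rw [IsLocalRing.maximalIdeal_eq_bot, Ideal.mem_bot]

theorem ov_comp {X : Scheme.{0}} {π : X ⟶ Spec (.of ℂ)} {D D' : Type} [CommRing D] [CommRing D']
    [Algebra ℂ D] [Algebra ℂ D'] (φ : D →ₐ[ℂ] D') {g : Spec (.of D) ⟶ X} (hg : Ov π D g) :
    Ov π D' (Spec.map (CommRingCat.ofHom (φ : D →+* D')) ≫ g) := by
  unfold Ov at *
  rw [Category.assoc, hg, ← Spec.map_comp, ← CommRingCat.ofHom_comp, AlgHom.comp_algebraMap]

theorem dense_pts (hNS : S_NS) (D : Type) [CommRing D] [Algebra ℂ D] [Algebra.FiniteType ℂ D]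
    (δ : D) (hδ : ∀ x, δ * x = 0 → x = 0) :
    Dense {q : PrimeSpectrum D | ∃ t : D →ₐ[ℂ] ℂ, t δ ≠ 0 ∧ kp t = q} := by
  refine PrimeSpectrum.isTopologicalBasis_basic_opens.dense_iff.2 ?_
  rintro _ ⟨f, rfl⟩ ⟨q, hq⟩
  have h1 : f * δ ∉ (⊥ : Ideal D).radical := by
    rintro ⟨n, hn⟩
    rw [Ideal.mem_bot, mul_pow] at hn
    have h2 : ∀ (m : ℕ) (x : D), x * δ ^ m = 0 → x = 0 := by
      intro m
      induction m with
      | zero => intro x hx; simpa using hx
      | succ m ih => intro x hx; exact ih x (hδ _ (by rw [← hx]; ring))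
    have h3 : f ^ n ∈ q.asIdeal := by rw [h2 n _ hn]; exact zero_mem _
    exact hq (q.isPrime.mem_of_pow_mem n h3)
  obtain ⟨t, -, ht⟩ := hNS D ⊥ _ h1
  rw [map_mul] at ht
  exact ⟨kp t, left_ne_zero_of_mul ht, t, right_ne_zero_of_mul ht, rfl⟩

theorem lift {X : Scheme.{0}} {π : X ⟶ Spec (.of ℂ)} {A C : Type} [CommRing A] [Algebra ℂ A]
    [CommRing C] [Algebra ℂ C] (j : Spec (.of A) ⟶ X) (f : Spec (.of C) ⟶ X) [IsOpenImmersion j]
    (hj : Ov π A j) (hf : Ov π C f) (h : range f ⊆ range j) :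
    ∃ τ : A →ₐ[ℂ] C, Spec.map (CommRingCat.ofHom (τ : A →+* C)) ≫ j = f := by
  set l := IsOpenImmersion.lift j f h with hl
  have h1 : l ≫ j = f := IsOpenImmersion.lift_fac j f h
  have h2 : CommRingCat.ofHom (algebraMap ℂ A) ≫ Spec.preimage l =
      CommRingCat.ofHom (algebraMap ℂ C) := by
    apply Spec.map_injective
    rw [Spec.map_comp, Spec.map_preimage, ← hj, ← Category.assoc, h1]
    exact hf
  refine ⟨⟨(Spec.preimage l).hom, fun c => congr(($h2).hom c)⟩, ?_⟩
  rw [← h1]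
  congr 1
  exact Spec.map_preimage l

theorem chart {X : Scheme.{0}} (π : X ⟶ Spec (.of ℂ)) [LocallyOfFiniteType π] (x : X) :
    ∃ (A : Type) (_ : CommRing A) (_ : Algebra ℂ A) (_ : Algebra.FiniteType ℂ A)
      (j : Spec (.of A) ⟶ X), IsOpenImmersion j ∧ Ov π A j ∧ x ∈ Set.range j := by
  obtain ⟨R, j, hj, hx, -⟩ := Scheme.exists_affine_mem_range_and_range_subset (U := ⊤) (x := x)
    trivial
  let φ : CommRingCat.of ℂ ⟶ R := Spec.preimage (j ≫ π)
  let _ : Algebra ℂ R := φ.hom.toAlgebra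
  have h1 : LocallyOfFiniteType (Spec.map φ) := by
    rw [Spec.map_preimage]; infer_instance
  have h2 : φ.hom.FiniteType := (HasRingHomProperty.Spec_iff (P := @LocallyOfFiniteType)).1 h1
  exact ⟨R, inferInstance, inferInstance, h2, j, hj, (Spec.map_preimage _).symm, hx⟩

theorem closure_range {X : Scheme.{0}} (D D' : Type) [CommRing D] [CommRing D'] (φ : D →+* D')
    (g : Spec (.of D) ⟶ X) (hφ : Function.Injective φ) :
    closure (range (Spec.map (CommRingCat.ofHom φ) ≫ g)) = closure (range g) := by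
  have hd : DenseRange (PrimeSpectrum.comap φ) := by
    rw [PrimeSpectrum.denseRange_comap_iff_ker_le_nilRadical, (RingHom.injective_iff_ker_eq_bot φ).1 hφ]
    exact bot_le
  have hd' : DenseRange (Spec.map (CommRingCat.ofHom φ)) := hd
  have e : range (Spec.map (CommRingCat.ofHom φ) ≫ g) =
      g '' range (Spec.map (CommRingCat.ofHom φ)) := (range_comp g _)
  rw [e, ← image_univ (f := g), ← hd'.closure_range]
  exact (closure_image_closure g.continuous).symm

end SchP

open SchP in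
theorem pts (hNS : S_NS) : S_Pts := by
  intro X π hπ
  refine ⟨fun D _ _ g t => closed_pt D g t, fun f f' hf hf' h => ?_, fun Z hZ h => ?_,
    fun D _ _ _ g δ hδ => ?_, fun D _ _ g => ?_, fun D D' _ _ φ g hφ => closure_range D D' φ g hφ,
    fun A C _ _ _ _ _ j f hj hj' hf h => lift j f hj' hf ?_, chart π⟩
  · refine ext_of_apply_closedPoint_eq π (hf.trans ?_) (hf'.trans ?_) h <;> exact Spec.map_id _
  · refine eq_univ_of_forall fun x => ?_
    obtain ⟨A, _, _, _, j, hj, ho, q, rfl⟩ := chart π x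
    have h1 := dense_pts hNS A 1 (fun x hx => by simpa using hx) q
    refine (hZ.preimage j.continuous).closure_subset_iff.2 ?_ h1
    rintro _ ⟨t, -, rfl⟩
    have h2 := h _ (ov_comp t ho)
    rwa [closed_pt] at h2
  · rintro _ ⟨q, rfl⟩
    refine closure_mono ?_ (mem_closure_image g.continuous.continuousAt (dense_pts hNS D δ hδ q))
    rintro _ ⟨_, ⟨t, ht, rfl⟩, rfl⟩
    exact ⟨t, ht, rfl⟩
  · have : IrreducibleSpace (Spec (.of D)) := inferInstanceAs (IrreducibleSpace (PrimeSpectrum D))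
    rw [← image_univ]
    exact ((IrreducibleSpace.isIrreducible_univ _).image _ g.continuous.continuousOn).closure
  · rintro _ ⟨q, rfl⟩
    exact ((IsLocalRing.specializes_closedPoint q).map f.continuous).mem_open
      j.isOpenEmbedding.isOpen_range h

end Pool.Agent.P.MP_2b2d3b_ag
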