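import Pool.Agent.P.MP_2b2d3b_ag.Sp1C

/-!
Schemes on two skew lines or a double line are limits of reduced ones on two skew lines.
-/

namespace Pool.Agent.P.MP_2b2d3b_ag

namespace Sp1P

open Polynomial

variable {B : Type} [CommRing B] {B' : Type} [CommRing B']

/-- the variables -/
abbrev Vr : Type := Fin 6 ⊕ Fin 5 ⊕ Fin 6 ⊕ (Fin 3 × Fin 4) ⊕ (Fin 11 × Mon 6)

/-- parameters from values of the variables -/
def ofV (v : Vr → B) : Dat B :=
  ⟨v (.inl 0), v (.inl 1), v (.inl 2), v (.inl 3), v (.inl 4), v (.inl 5),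
    fun i => v (.inr (.inl i)), fun i => v (.inr (.inr (.inl i))),
    fun i k => v (.inr (.inr (.inr (.inl (i, k))))),
    fun i m => v (.inr (.inr (.inr (.inr (i, m)))))⟩

/-- values of the variables -/
def val (d : Dat B) : Vr → B :=
  Sum.elim ![d.k0, d.k1, d.r, d.a1, d.b0, d.b1] (Sum.elim d.σ (Sum.elim d.f
    (Sum.elim (fun x => d.h x.1 x.2) fun x => d.bc x.1 x.2)))

theorem ofV_val (d : Dat B) : ofV (val d) = d := rfl

theorem ofV_map (φ : B →+* B') (v : Vr → B) : (ofV v).map φ = ofV fun i => φ (v i) := rfl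

theorem univ_map (d : Dat ℂ) :
    (ofV MvPolynomial.X).map (MvPolynomial.eval₂Hom (algebraMap ℚ ℂ) (val d)) = d := by
  rw [ofV_map]
  simp only [MvPolynomial.eval₂Hom_X']
  exact ofV_val d

theorem example_ne (c : ℕ) : ∃ d : Dat ℂ, d.δ c ≠ 0 := by
  let d0 : Dat ℂ := ⟨0, 1, 0, 1, 0, 0, fun i => ((i : ℕ) : ℂ), 0,
    ![![0, 1, 0, 0], ![0, 0, 1, 0], ![0, 0, 0, 1]], 0⟩
  let w : ℂ[X] := X ^ 6 - 1 - d0.u
  have hm : (X ^ 6 - 1 : ℂ[X]).Monic := monic_X_pow_sub_C (1 : ℂ) (by norm_num)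
  have h6 : (X ^ 6 - 1 : ℂ[X]).natDegree = 6 := natDegree_X_pow_sub_C
  have hw : w.natDegree < 6 := by
    by_cases h0 : w = 0
    · rw [h0, natDegree_zero]; norm_num
    · rw [← h6]
      refine natDegree_lt_natDegree h0 (degree_sub_lt_left ?_ hm.ne_zero ?_)
      · rw [degree_eq_natDegree hm.ne_zero, degree_eq_natDegree d0.u_monic.ne_zero, h6, d0.u_deg]
      · rw [hm.leadingCoeff, d0.u_monic.leadingCoeff]
  let d : Dat ℂ := { d0 with f := fun i => w.coeff i }
  have hf : d.f1 = w := sum_coeff hw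
  have hu : d.u = d0.u := rfl
  have hγ : d.γ1 = X ^ 6 - 1 := by
    rw [Dat.γ1, hf, hu]
    simp [d, d0, w]
  have hp : d.p1 = X := by simp [Dat.p1, Dat.p0, Dat.q1, d, d0]
  have hres : resultant d.γ1 (derivative d.γ1 * d.p1) 6 6 ≠ 0 := by
    rw [res_iff d.γ1_spec.1 d.γ1_spec.2 d.res_deg, hγ, hp]
    refine ⟨-1, C (1 / 6), ?_⟩
    have h1 : (C (1 / 6) : ℂ[X]) * 6 = 1 := by
      rw [← map_ofNat (C : ℂ →+* ℂ[X]) 6, ← map_mul]
      norm_num
    simp only [derivative_sub, derivative_X_pow, derivative_one, sub_zero, Nat.cast_ofNat,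
      map_ofNat]
    linear_combination X ^ 6 * h1
  have hH : (d.H c).det ≠ 0 := by
    simp [Dat.H, d, d0, Matrix.det_succ_row_zero, Fin.sum_univ_succ, Fin.succAbove]
  have hσ : (Matrix.vandermonde d.σ).det ≠ 0 :=
    Matrix.det_vandermonde_ne_zero_iff.2 fun i j hij => Fin.ext (Nat.cast_injective (R := ℂ) hij)
  refine ⟨d, mul_ne_zero (mul_ne_zero (mul_ne_zero ?_ hH) hσ) hres⟩
  simp [d, d0]

end Sp1P

open Sp1P

theorem sp1 : S_Sp1 := by
  intro A _ _ ev c lam F h11 S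
  obtain ⟨d0, hΛ, hg⟩ := special ev c lam F h11 S
  obtain ⟨d1, hδ⟩ := example_ne c
  let R := MvPolynomial Vr ℚ
  let dU : Dat R := ofV MvPolynomial.X
  let e0 : R →+* ℂ := MvPolynomial.eval₂Hom (algebraMap ℚ ℂ) (val d0)
  have hG : e0 (dU.gram c) = d0.gram c := by rw [← Dat.map_gram, univ_map]
  have hG0 : dU.gram c ≠ 0 := fun h => hg (by rw [← hG, h, map_zero])
  have hδ0 : dU.δ c ≠ 0 := fun h => hδ (by rw [← univ_map d1, Dat.map_δ, h, map_zero])
  have hle : Submonoid.powers (dU.gram c) ≤ nonZeroDivisors R :=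
    powers_le_nonZeroDivisors_of_noZeroDivisors hG0
  let Q := Localization.Away (dU.gram c)
  have : IsDomain Q := IsLocalization.isDomain_localization hle
  have hinj : Function.Injective (algebraMap R Q) := IsLocalization.injective Q hle
  have : Algebra.FiniteType ℚ Q := Algebra.FiniteType.trans (S := R) inferInstance inferInstance
  let dQ : Dat Q := dU.map (algebraMap R Q)
  have hu : IsUnit (e0 (dU.gram c)) := by rw [hG]; exact hg.isUnit
  let t0 : Q →+* ℂ := IsLocalization.Away.lift (dU.gram c) hu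
  have ht0 : dQ.map t0 = d0 := by
    rw [← univ_map d0]
    simp only [dQ, dU, ofV_map, t0, IsLocalization.Away.lift_eq]
    rfl
  refine ⟨Q, inferInstance, inferInstance, inferInstance, inferInstance, dQ.Λ c, dQ.b, dQ.δ c, t0,
    dQ.gor c ?_, ?_, ?_, fun t ht => ?_⟩
  · rw [Dat.map_gram]
    exact IsLocalization.Away.algebraMap_isUnit _
  · rw [Dat.map_δ]
    exact fun h => hδ0 (hinj (by rw [h, map_zero]))
  · rw [Dat.bcL_Λ, ht0, hΛ]
  · rw [Dat.bcL_Λ]
    exact Dat.twoLines _ c (by rwa [Dat.map_δ])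

end Pool.Agent.P.MP_2b2d3b_ag
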