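import Pool.Agent.P.MP_2b2d3b_ag.Sp2A

/-!
Eleven points on a twisted cubic specialise to five and six points on two skew lines.
-/

namespace Pool.Agent.P.MP_2b2d3b_ag

open MvPolynomial

namespace Sp2P

theorem lagr {K : Type} [Field K] {ι : Type} [Fintype ι] [DecidableEq ι] (hc : Fintype.card ι = 11)
    {t : ι → K} (ht : Function.Injective t) (m : Fin 4 → K) (E : Fin 4 → Fin 4 → K) {a : Pol K}
    (ha : a.IsHomogeneous 3) :
    ∑ n, eval (fun l => ∑ k : Fin 4, m k * t n ^ (k : ℕ) * E k l) a /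
      ∏ n' ∈ Finset.univ.erase n, (t n - t n') = 0 := by
  let γ : Fin 4 → Polynomial K := fun l =>
    ∑ k : Fin 4, Polynomial.C (m k * E k l) * Polynomial.X ^ (k : ℕ)
  have hγ : ∀ l, (γ l).natDegree ≤ 3 := fun l =>
    Polynomial.natDegree_sum_le_of_forall_le _ _ fun k _ =>
      (Polynomial.natDegree_C_mul_X_pow_le _ _).trans (by omega)
  have h1 : (aeval γ a).natDegree ≤ 3 * 3 := aeval_natDegree_le a ha.totalDegree_le γ hγ
  have h2 : (aeval γ a).degree < (Finset.univ : Finset ι).card := by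
    rw [Finset.card_univ, hc]
    exact Polynomial.degree_le_natDegree.trans_lt (by exact_mod_cast h1.trans_lt (by norm_num))
  have h3 := Lagrange.coeff_eq_sum (s := Finset.univ) ht.injOn h2
  rw [Finset.card_univ, hc, Polynomial.coeff_eq_zero_of_natDegree_lt (by omega)] at h3
  rw [h3]
  refine Finset.sum_congr rfl fun n _ => ?_
  congr 1
  have h4 := comp_aeval_apply (f := γ) (Polynomial.aeval (t n) : Polynomial K →ₐ[K] K) a
  rw [Polynomial.coe_aeval_eq_eval] at h4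
  rw [h4, aeval_eq_eval]
  congr 2
  funext l
  simp only [γ, Polynomial.eval_finsetSum, Polynomial.eval_mul, Polynomial.eval_C,
    Polynomial.eval_pow, Polynomial.eval_X]
  exact Finset.sum_congr rfl fun k _ => by ring

theorem prod_erase_inl {M : Type} [CommMonoid M] (f : Fin 5 ⊕ Fin 6 → M) (i : Fin 5) :
    ∏ n ∈ Finset.univ.erase (Sum.inl i), f n =
      (∏ k ∈ Finset.univ.erase i, f (.inl k)) * ∏ j, f (.inr j) := by
  simp only [← Finset.filter_ne', Finset.prod_filter, Fintype.prod_sum_type, ne_eq, Sum.inl.injEq,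
    reduceCtorEq, not_false_eq_true, if_true]

theorem prod_erase_inr {M : Type} [CommMonoid M] (f : Fin 5 ⊕ Fin 6 → M) (j : Fin 6) :
    ∏ n ∈ Finset.univ.erase (Sum.inr j), f n =
      (∏ i, f (.inl i)) * ∏ k ∈ Finset.univ.erase j, f (.inr k) := by
  simp only [← Finset.filter_ne', Finset.prod_filter, Fintype.prod_sum_type, ne_eq, Sum.inr.injEq,
    reduceCtorEq, not_false_eq_true, if_true]

/-- coordinates in the basis `e` -/
noncomputable def yy (e : Matrix (Fin 4) (Fin 4) ℂ) (k : Fin 4) : Pol ℂ := linForm fun l => e⁻¹ l k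

theorem eval_yy {B : Type} [CommRing B] (ψ : ℂ →+* B) {e : Matrix (Fin 4) (Fin 4) ℂ}
    (he : e.det ≠ 0) (x : Fin 4 → B) (k : Fin 4) :
    eval (fun l => ∑ k', x k' * ψ (e k' l)) (map ψ (yy e k)) = x k := by
  have h1 : ∀ k', ∑ l, ψ (e k' l) * ψ (e⁻¹ l k) = if k' = k then 1 else 0 := fun k' => by
    have := congrFun (congrFun (e.mul_nonsing_inv he.isUnit) k') k
    rw [Matrix.mul_apply, Matrix.one_apply] at this
    simp only [← map_mul, ← map_sum, this]
    split_ifs <;> simp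
  rw [yy, map_linForm, linForm]
  simp only [map_sum, map_mul, eval_C, eval_X, Finset.mul_sum]
  rw [Finset.sum_comm]
  have h2 : ∀ k', ∑ l, ψ (e⁻¹ l k) * (x k' * ψ (e k' l)) = x k' * if k' = k then 1 else 0 :=
    fun k' => by
      rw [← h1, Finset.mul_sum]
      exact Finset.sum_congr rfl fun l _ => by ring
  simp [h2]

theorem eval_wc_comb {B : Type} [CommRing B] (ψ : ℂ →+* B) {e : Matrix (Fin 4) (Fin 4) ℂ} {c : ℕ}
    (hw : ∀ k, eval (e k) (wc ℂ c) = ![1, 0, 1, 0] k) (x : Fin 4 → B) :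
    eval (fun l => ∑ k', x k' * ψ (e k' l)) (wc B c) = x 0 + x 2 := by
  have h := fun k => congrArg ψ (hw k)
  have h0 := h 0
  have h1 := h 1
  have h2 := h 2
  have h3 := h 3
  simp [eval_wc] at h0 h1 h2 h3
  simp only [eval_wc, Fin.sum_univ_four]
  linear_combination x 0 * h0 + x 1 * h1 + x 2 * h2 + x 3 * h3

/-- the separating sextics -/
noncomputable def bb (e : Matrix (Fin 4) (Fin 4) ℂ) (σ : Fin 5 → ℂ) (r : Fin 6 → ℂ) :
    Fin 5 ⊕ Fin 6 → Pol ℂ
  | .inl i => yy e 0 ^ 2 * ∏ k ∈ Finset.univ.erase i, (yy e 1 - C (σ k) * yy e 0)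
  | .inr j => yy e 2 * ∏ k ∈ Finset.univ.erase j, (yy e 3 - C (r k) * yy e 2)

theorem yy_hom (e : Matrix (Fin 4) (Fin 4) ℂ) (k : Fin 4) : (yy e k).IsHomogeneous 1 :=
  linForm_hom _

theorem bb_hom (e : Matrix (Fin 4) (Fin 4) ℂ) (σ : Fin 5 → ℂ) (r : Fin 6 → ℂ) (n) :
    (bb e σ r n).IsHomogeneous 6 := by
  rcases n with i | j
  · have := ((yy_hom e 0).pow 2).mul (IsHomogeneous.prod (Finset.univ.erase i) _ (fun _ => 1)
      fun k _ => (yy_hom e 1).sub ((yy_hom e 0).C_mul (σ k)))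
    simpa [bb, Finset.card_erase_of_mem] using this
  · have := (yy_hom e 2).mul (IsHomogeneous.prod (Finset.univ.erase j) _ (fun _ => 1)
      fun k _ => (yy_hom e 3).sub ((yy_hom e 2).C_mul (r k)))
    simpa [bb, Finset.card_erase_of_mem] using this

/-- coordinates of the special points -/
def cf0 (σ : Fin 5 → ℂ) (r : Fin 6 → ℂ) : Fin 5 ⊕ Fin 6 → Fin 4 → ℂ
  | .inl i => ![1, σ i, 0, 0]
  | .inr j => ![0, 0, 1, r j]

theorem det_bb {e : Matrix (Fin 4) (Fin 4) ℂ} (he : e.det ≠ 0) {σ : Fin 5 → ℂ} {r : Fin 6 → ℂ}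
    (hσ : Function.Injective σ) (hr : Function.Injective r) :
    (Matrix.of fun i n => eval (fun l => ∑ k, cf0 σ r n k * e k l) (bb e σ r i)).det ≠ 0 := by
  have hy : ∀ n k, eval (fun l => ∑ k, cf0 σ r n k * e k l) (yy e k) = cf0 σ r n k := fun n k => by
    simpa using eval_yy (RingHom.id ℂ) he (cf0 σ r n) k
  have h1 : (Matrix.of fun i n => eval (fun l => ∑ k, cf0 σ r n k * e k l) (bb e σ r i)) =
      Matrix.diagonal (Sum.elim (fun i => ∏ k ∈ Finset.univ.erase i, (σ i - σ k))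
        fun j => ∏ k ∈ Finset.univ.erase j, (r j - r k)) := by
    ext i n
    rw [Matrix.of_apply, Matrix.diagonal_apply]
    rcases i with i | i <;> rcases n with n | n <;>
      simp only [bb, map_mul, map_pow, map_prod, map_sub, eval_C, hy] <;> simp [cf0]
    · split_ifs with h
      · rw [h]
      · exact Finset.prod_eq_zero (i := n) (by simp [Ne.symm h]) (sub_self _)
    · split_ifs with h
      · rw [h]
      · exact Finset.prod_eq_zero (i := n) (by simp [Ne.symm h]) (sub_self _)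
  rw [h1, Matrix.det_diagonal, Finset.prod_ne_zero_iff]
  rintro (i | j) -
  · exact Finset.prod_ne_zero_iff.2 fun k hk =>
      sub_ne_zero.2 fun h => (Finset.ne_of_mem_erase hk) (hσ h).symm
  · exact Finset.prod_ne_zero_iff.2 fun k hk =>
      sub_ne_zero.2 fun h => (Finset.ne_of_mem_erase hk) (hr h).symm

section gen

variable {B : Type} [CommRing B] (ψ : ℂ →+* B) (ε : B) (κ α' : ℂ) (σ : Fin 5 → ℂ) (r : Fin 6 → ℂ)

/-- coordinates of the moving points -/
noncomputable def cf : Fin 5 ⊕ Fin 6 → Fin 4 → B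
  | .inl i => ![1, ψ (σ i), ψ κ * ε ^ 2 * ψ (σ i) ^ 2, ψ κ ^ 2 * ε ^ 5 * ψ (σ i) ^ 3]
  | .inr j => ![ψ κ * ε ^ 4 * ψ (r j)⁻¹ ^ 2, ε * ψ (r j)⁻¹, 1, ψ (r j)]

/-- denominators of the weights -/
noncomputable def den : Fin 5 ⊕ Fin 6 → B
  | .inl i => (∏ k ∈ Finset.univ.erase i, (ψ (σ i) - ψ (σ k))) *
      ∏ j, (ψ κ * ε ^ 3 * ψ (σ i) - ψ (r j))
  | .inr j => (∏ i, (ψ (r j) - ψ κ * ε ^ 3 * ψ (σ i))) *
      ∏ k ∈ Finset.univ.erase j, (ψ (r j) - ψ (r k))

/-- numerators of the weights -/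
noncomputable def nu : Fin 5 ⊕ Fin 6 → ℂ
  | .inl _ => α'
  | .inr j => α' * κ * r j ^ 6

theorem map_cf {B' : Type} [CommRing B'] (φ : B →+* B') (n k) :
    φ (cf ψ ε κ σ r n k) = cf (φ.comp ψ) (φ ε) κ σ r n k := by
  rcases n with i | j <;> fin_cases k <;> simp [cf]

theorem map_den {B' : Type} [CommRing B'] (φ : B →+* B') (n) :
    φ (den ψ ε κ σ r n) = den (φ.comp ψ) (φ ε) κ σ r n := by
  rcases n with i | j <;> simp [den, map_prod]

theorem cf_zero (n) : cf (RingHom.id ℂ) 0 κ σ r n = cf0 σ r n := by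
  rcases n with i | j <;> simp [cf, cf0]

end gen

section fld

variable {K : Type} [Field K] (ψ : ℂ →+* K) (ε : K) (κ α' : ℂ) (σ : Fin 5 → ℂ) (r : Fin 6 → ℂ)

/-- the parameters of the points on the twisted cubic -/
noncomputable def nd : Fin 5 ⊕ Fin 6 → K
  | .inl i => ψ (σ i)
  | .inr j => ψ (r j) / (ψ κ * ε ^ 3)

/-- scaling factors -/
noncomputable def mu : Fin 5 ⊕ Fin 6 → K
  | .inl _ => 1
  | .inr j => ψ κ * ε ^ 4 / ψ (r j) ^ 2

/-- scaling of the basis -/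
noncomputable def mm : Fin 4 → K := ![1, 1, ψ κ * ε ^ 2, ψ κ ^ 2 * ε ^ 5]

variable {ψ ε κ σ r}

theorem cf_eq (hε : ε ≠ 0) (hκ : κ ≠ 0) (hr : ∀ j, r j ≠ 0) (n) (k : Fin 4) :
    cf ψ ε κ σ r n k = mu ψ ε κ r n * (mm ψ ε κ k * nd ψ ε κ σ r n ^ (k : ℕ)) := by
  have h1 : ψ κ ≠ 0 := (map_ne_zero ψ).2 hκ
  rcases n with i | j
  · fin_cases k <;> simp [cf, mu, mm, nd]
  · have h2 : ψ (r j) ≠ 0 := (map_ne_zero ψ).2 (hr j)
    fin_cases k <;> simp [cf, mu, mm, nd] <;> field_simp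

theorem den_inl (hε : ε ≠ 0) (hκ : κ ≠ 0) (i : Fin 5) : den ψ ε κ σ r (.inl i) = (ψ κ * ε ^ 3) ^ 6 *
    ∏ n ∈ Finset.univ.erase (.inl i), (nd ψ ε κ σ r (.inl i) - nd ψ ε κ σ r n) := by
  have h1 : ψ κ ≠ 0 := (map_ne_zero ψ).2 hκ
  have h2 : ∀ j, ψ κ * ε ^ 3 * ψ (σ i) - ψ (r j) =
      ψ κ * ε ^ 3 * (ψ (σ i) - ψ (r j) / (ψ κ * ε ^ 3)) := fun j => by field_simp
  rw [prod_erase_inl]
  simp only [den, nd, h2, Finset.prod_mul_distrib, Finset.prod_const, Finset.card_univ,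
    Fintype.card_fin]
  ring

theorem den_inr (hε : ε ≠ 0) (hκ : κ ≠ 0) (j : Fin 6) : den ψ ε κ σ r (.inr j) = (ψ κ * ε ^ 3) ^ 10 *
    ∏ n ∈ Finset.univ.erase (.inr j), (nd ψ ε κ σ r (.inr j) - nd ψ ε κ σ r n) := by
  have h1 : ψ κ ≠ 0 := (map_ne_zero ψ).2 hκ
  have h2 : ∀ i, ψ (r j) - ψ κ * ε ^ 3 * ψ (σ i) =
      ψ κ * ε ^ 3 * (ψ (r j) / (ψ κ * ε ^ 3) - ψ (σ i)) := fun j => by field_simp
  have h3 : ∀ k, ψ (r j) - ψ (r k) =
      ψ κ * ε ^ 3 * (ψ (r j) / (ψ κ * ε ^ 3) - ψ (r k) / (ψ κ * ε ^ 3)) := fun j => by field_simp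
  rw [prod_erase_inr]
  simp only [den, nd, h2, h3, Finset.prod_mul_distrib, Finset.prod_const, Finset.card_univ,
    Fintype.card_fin, Finset.card_erase_of_mem (Finset.mem_univ j)]
  ring

theorem nd_inj (hε : ε ≠ 0) (hκ : κ ≠ 0) (hd : ∀ n, den ψ ε κ σ r n ≠ 0) :
    Function.Injective (nd ψ ε κ σ r) := by
  intro n n' h
  by_contra hn
  have h0 : ∏ k ∈ Finset.univ.erase n, (nd ψ ε κ σ r n - nd ψ ε κ σ r k) = 0 :=
    Finset.prod_eq_zero (i := n') (by simp [Ne.symm hn]) (by rw [h, sub_self])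
  apply hd n
  rcases n with i | j
  · rw [den_inl hε hκ, h0, mul_zero]
  · rw [den_inr hε hκ, h0, mul_zero]

theorem kills (hε : ε ≠ 0) (hκ : κ ≠ 0) (hr : ∀ j, r j ≠ 0) (hd : ∀ n, den ψ ε κ σ r n ≠ 0)
    (E : Fin 4 → Fin 4 → K) {a : Pol K} (ha : a.IsHomogeneous 3) :
    ∑ n, ψ (nu κ α' r n) * (den ψ ε κ σ r n)⁻¹ *
      eval (fun l => ∑ k, cf ψ ε κ σ r n k * E k l) a = 0 := by
  have h0 := lagr (by simp) (nd_inj hε hκ hd) (mm ψ ε κ) E ha
  have h1 : ψ κ ≠ 0 := (map_ne_zero ψ).2 hκ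
  rw [← mul_zero (ψ α' / (ψ κ * ε ^ 3) ^ 6), ← h0, Finset.mul_sum]
  refine Finset.sum_congr rfl fun n _ => ?_
  have h2 : (fun l => ∑ k, cf ψ ε κ σ r n k * E k l) = fun l => mu ψ ε κ r n *
      ∑ k : Fin 4, mm ψ ε κ k * nd ψ ε κ σ r n ^ (k : ℕ) * E k l := by
    funext l
    rw [Finset.mul_sum]
    exact Finset.sum_congr rfl fun k _ => by rw [cf_eq hε hκ hr, mul_assoc]
  rw [h2, eval_smul_pt _ _ ha]
  have h3 := hd n
  rcases n with i | j
  · rw [den_inl hε hκ] at h3 ⊢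
    have h4 := right_ne_zero_of_mul h3
    simp only [nu, mu]
    field_simp
  · rw [den_inr hε hκ] at h3 ⊢
    have h4 := right_ne_zero_of_mul h3
    have h5 : ψ (r j) ≠ 0 := (map_ne_zero ψ).2 (hr j)
    simp only [nu, mu, map_mul, map_pow]
    field_simp

/-- first factors of the seven quadrics -/
def qa : Fin 7 → Fin 4 := ![0, 0, 0, 0, 1, 2, 3]

/-- second factors of the seven quadrics -/
def qb : Fin 7 → Fin 4 := ![0, 1, 2, 3, 3, 3, 3]

theorem quad (hε : ε ≠ 0) (hκ : κ ≠ 0) (hr : ∀ j, r j ≠ 0) (hd : ∀ n, den ψ ε κ σ r n ≠ 0)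
    {f : Fin 7 → Fin 5 ⊕ Fin 6} (hf : Function.Injective f) {s : Fin 7 → K} (hs : ∀ j, s j ≠ 0) :
    (Matrix.of fun i j => s j * (cf ψ ε κ σ r (f j) (qa i) * cf ψ ε κ σ r (f j) (qb i))).det ≠ 0 := by
  have h1 : ψ κ ≠ 0 := (map_ne_zero ψ).2 hκ
  have h2 : (Matrix.of fun i j => s j * (cf ψ ε κ σ r (f j) (qa i) * cf ψ ε κ σ r (f j) (qb i))) =
      Matrix.diagonal (fun i => mm ψ ε κ (qa i) * mm ψ ε κ (qb i)) *
        (Matrix.vandermonde fun j => nd ψ ε κ σ r (f j)).transpose *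
        Matrix.diagonal fun j => s j * mu ψ ε κ r (f j) ^ 2 := by
    ext i j
    have h3 : (i : ℕ) = (qa i : ℕ) + (qb i : ℕ) := by fin_cases i <;> rfl
    rw [Matrix.mul_diagonal, Matrix.diagonal_mul, Matrix.of_apply, Matrix.transpose_apply,
      Matrix.vandermonde_apply, cf_eq hε hκ hr, cf_eq hε hκ hr, h3]
    ring
  have hm : ∀ k, mm ψ ε κ k ≠ 0 := fun k => by fin_cases k <;> simp [mm, hε, hκ]
  have hmu : ∀ n, mu ψ ε κ r n ≠ 0 := fun n => by rcases n with i | j <;> simp [mu, hε, hκ, hr]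
  rw [h2, Matrix.det_mul, Matrix.det_mul, Matrix.det_transpose, Matrix.det_diagonal,
    Matrix.det_diagonal]
  refine mul_ne_zero (mul_ne_zero ?_ ?_) ?_
  · exact Finset.prod_ne_zero_iff.2 fun i _ => mul_ne_zero (hm _) (hm _)
  · exact Matrix.det_vandermonde_ne_zero_iff.2 ((nd_inj hε hκ hd).comp hf)
  · exact Finset.prod_ne_zero_iff.2 fun j _ => mul_ne_zero (hs j) (pow_ne_zero _ (hmu _))

end fld

end Sp2P

open Sp2P

theorem sp2 : S_Sp2 := by
  rintro c Λ0 ⟨e, σ, r, α, β, he, hσ, hr, hr0, hα, hβ, hw, hΛ⟩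
  set α' : ℂ := α * ∏ j, r j with hα'
  have hR : ∏ j, r j ≠ 0 := Finset.prod_ne_zero_iff.2 fun j _ => hr0 j
  have hα0 : α' ≠ 0 := mul_ne_zero hα hR
  set κ : ℂ := β / α' with hκ
  have hκ0 : κ ≠ 0 := div_ne_zero hβ hα0
  let O := PowerSeries ℂ
  let K := FractionRing O
  let ψ : ℂ →+* O := PowerSeries.C
  let ε : O := PowerSeries.X
  let t0 : O →+* ℂ := PowerSeries.constantCoeff
  let φ : O →+* K := algebraMap O K
  have hφ : Function.Injective φ := IsFractionRing.injective O K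
  have ht : t0.comp ψ = RingHom.id ℂ := PowerSeries.constantCoeff_comp_C
  have ht' : ∀ z, t0 (ψ z) = z := fun z => RingHom.congr_fun ht z
  have hε : t0 ε = 0 := PowerSeries.constantCoeff_X
  have hε' : φ ε ≠ 0 := fun h => PowerSeries.X_ne_zero (hφ (h.trans (map_zero φ).symm))
  have hun : ∀ x : O, t0 x ≠ 0 → IsUnit x := fun x h =>
    PowerSeries.isUnit_iff_constantCoeff.2 h.isUnit
  have hinv : ∀ x : O, t0 x ≠ 0 → ∃ y : O, x * y = 1 := fun x h => (hun x h).exists_right_inv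
  have hg1 : ∀ i, ∏ k ∈ Finset.univ.erase i, (σ i - σ k) ≠ 0 := fun i =>
    Finset.prod_ne_zero_iff.2 fun k hk =>
      sub_ne_zero.2 fun h => (Finset.ne_of_mem_erase hk) (hσ h).symm
  have hg2 : ∀ j, ∏ k ∈ Finset.univ.erase j, (r j - r k) ≠ 0 := fun j =>
    Finset.prod_ne_zero_iff.2 fun k hk =>
      sub_ne_zero.2 fun h => (Finset.ne_of_mem_erase hk) (hr h).symm
  have hd1 : ∀ i, t0 (den ψ ε κ σ r (.inl i)) =
      (∏ k ∈ Finset.univ.erase i, (σ i - σ k)) * ∏ j, r j := fun i => by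
    rw [map_den, ht, hε]
    simp [den, Finset.prod_neg, Even.neg_one_pow (by decide : Even 6)]
  have hd2 : ∀ j, t0 (den ψ ε κ σ r (.inr j)) =
      r j ^ 5 * ∏ k ∈ Finset.univ.erase j, (r j - r k) := fun j => by
    rw [map_den, ht, hε]
    simp [den]
  have hd : ∀ n, t0 (den ψ ε κ σ r n) ≠ 0 := by
    rintro (i | j)
    · rw [hd1]; exact mul_ne_zero (hg1 i) hR
    · rw [hd2]; exact mul_ne_zero (pow_ne_zero _ (hr0 j)) (hg2 j)
  have hcf : ∀ n k, t0 (cf ψ ε κ σ r n k) = cf0 σ r n k := fun n k => by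
    rw [map_cf, ht, hε, cf_zero]
  let P : Fin 5 ⊕ Fin 6 → Fin 4 → O := fun n l => ∑ k, cf ψ ε κ σ r n k * ψ (e k l)
  let N : Fin 5 ⊕ Fin 6 → O := fun n => cf ψ ε κ σ r n 0 + cf ψ ε κ σ r n 2
  have hN : ∀ n, t0 (N n) = 1 := fun n => by
    simp only [N, map_add, hcf]
    rcases n with i | j <;> simp [cf0]
  choose Ni hNi using fun n => hinv (N n) (by rw [hN]; exact one_ne_zero)
  choose Di hDi using fun n => hinv _ (hd n)
  have hNi0 : ∀ n, t0 (Ni n) = 1 := fun n => by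
    have := congrArg t0 (hNi n)
    rwa [map_mul, hN, one_mul, map_one] at this
  have hDi0 : ∀ n, t0 (Di n) = (t0 (den ψ ε κ σ r n))⁻¹ := fun n =>
    eq_inv_of_mul_eq_one_right (by rw [← map_mul, hDi, map_one])
  have hDK : ∀ n, φ (Di n) = (den (φ.comp ψ) (φ ε) κ σ r n)⁻¹ := fun n =>
    eq_inv_of_mul_eq_one_right (by rw [← map_den, ← map_mul, hDi, map_one])
  have hdK : ∀ n, den (φ.comp ψ) (φ ε) κ σ r n ≠ 0 := fun n => by
    rw [← map_den]; exact ((hun _ (hd n)).map φ).ne_zero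
  have hp0 : ∀ n, (fun l => t0 (Ni n * P n l)) = fun l => ∑ k, cf0 σ r n k * e k l := fun n => by
    funext l
    simp only [P, map_mul, map_sum, hNi0, hcf, ht', one_mul]
  let f : Fin 7 → Fin 5 ⊕ Fin 6 := fun j => finSumFinEquiv.symm (Fin.castLE (by norm_num) j)
  have hf : Function.Injective f := finSumFinEquiv.symm.injective.comp (Fin.castLE_injective _)
  have key := desc t0 (c := c) (finSumFinEquiv (m := 5) (n := 6)).symm
    (lam := fun n => ψ (nu κ α' r n) * Di n * N n ^ 3) (p := fun n l => Ni n * P n l)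
    (b := fun n => map ψ (bb e σ r n)) (q := fun i => map ψ (yy e (qa i) * yy e (qb i))) f
    (fun n => ?_) (fun a ha => hφ ?_) (fun n => (bb_hom e σ r n).map ψ)
    (fun i => ((yy_hom e _).mul (yy_hom e _)).map ψ) (hun _ ?_) (hun _ ?_) (fun h => ?_)
  · change Concl c Λ0
    convert key using 1
    refine LinearMap.ext fun a => ?_
    rw [hΛ, ptL_apply, Fintype.sum_sum_type]
    simp only [hp0]
    congr 1 <;> refine Finset.sum_congr rfl fun i _ => ?_
    · have := hg1 i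
      congr 1
      · simp only [map_mul, map_pow, hN, hDi0, hd1, ht', nu, hα']
        field_simp
      · congr 2
        funext l
        simp [cf0, Fin.sum_univ_four]
    · have := hg2 i
      have := hr0 i
      congr 1
      · simp only [map_mul, map_pow, hN, hDi0, hd2, ht', nu]
        rw [hκ]
        field_simp
      · congr 2
        funext l
        simp [cf0, Fin.sum_univ_four]
  · rw [eval_smul_pt _ _ (wc_hom c), eval_wc_comb ψ hw, pow_one, mul_comm]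
    exact hNi n
  · refine Eq.trans ?_ ((kills α' hε' hκ0 hr0 hdK (fun k l => φ (ψ (e k l))) (ha.map φ)).trans
      (map_zero φ).symm)
    rw [map_sum]
    refine Finset.sum_congr rfl fun n _ => ?_
    have h1 : ψ (nu κ α' r n) * Di n * N n ^ 3 * (Ni n ^ 3 * eval (P n) a) =
        ψ (nu κ α' r n) * Di n * eval (P n) a := by
      rw [mul_assoc, ← mul_assoc (N n ^ 3), ← mul_pow, hNi, one_pow, one_mul]
    rw [eval_smul_pt _ _ ha, h1, map_mul, map_mul, hDK, ← eval_map']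
    simp only [P, map_sum, map_mul, map_cf]
    rfl
  · rw [map_prod, Finset.prod_ne_zero_iff]
    intro n _
    simp only [map_mul, map_pow, hN, hDi0, ht', one_pow, mul_one]
    refine mul_ne_zero ?_ (inv_ne_zero (hd n))
    rcases n with i | j <;> simp [nu, hα0, hκ0, hr0]
  · rw [← det_map]
    simp only [hp0, map_map, ht, map_id]
    exact det_bb he hσ hr
  · refine quad hε' hκ0 hr0 hdK hf (s := fun j => φ (Ni (f j)) ^ 2) (fun j => pow_ne_zero _ ?_) ?_
    · exact ((IsUnit.of_mul_eq_one_right _ (hNi (f j))).map φ).ne_zero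
    · rw [← map_zero φ, ← h, RingHom.map_det]
      congr 1
      ext i j
      simp only [Matrix.of_apply, RingHom.mapMatrix_apply, Matrix.map_apply]
      rw [eval_smul_pt _ _ (((yy_hom e _).mul (yy_hom e _)).map ψ)]
      simp only [map_mul, P, eval_yy ψ he, map_pow, map_cf]

end Pool.Agent.P.MP_2b2d3b_ag
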