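import Pool.Agent.P.MP_2b2d3b_ag.St

/-!
A Macaulay type bound and a divisibility lemma in factorial rings.
-/

namespace Pool.Agent.P.MP_2b2d3b_ag

open Module

namespace MacP

variable {A : Type} [CommRing A] [Algebra ℂ A]

theorem finrank_map_comap (N K : Submodule ℂ A) [Module.Finite ℂ N] (f : A →ₗ[ℂ] A) :
    finrank ℂ (N.map (K.comap f).mkQ) = finrank ℂ ((N.map f).map K.mkQ) := by
  have h1 := LinearMap.finrank_range_add_finrank_ker ((K.comap f).mkQ.domRestrict N)
  have h2 := LinearMap.finrank_range_add_finrank_ker ((K.mkQ.comp f).domRestrict N)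
  have hk : LinearMap.ker ((K.comap f).mkQ.domRestrict N) =
      LinearMap.ker ((K.mkQ.comp f).domRestrict N) := by
    ext a
    simp [LinearMap.mem_ker, Submodule.Quotient.mk_eq_zero]
  rw [LinearMap.range_domRestrict] at h1 h2
  rw [hk] at h1
  rw [← Submodule.map_comp]
  omega

theorem vander {n : ℕ} (x : Fin n → A) (c : Fin n → ℂ) (hc : Function.Injective c)
    (N : Submodule ℂ A) (h : ∀ j, ∑ i : Fin n, c j ^ (i : ℕ) • x i ∈ N) :
    Submodule.span ℂ (Set.range x) ≤ N := by
  rw [Submodule.span_le]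
  rintro _ ⟨i, rfl⟩
  have hd : IsUnit (Matrix.vandermonde c).det :=
    (Matrix.det_vandermonde_ne_zero_iff.2 hc).isUnit
  have h1 := Matrix.nonsing_inv_mul _ hd
  have : x i = ∑ j, (Matrix.vandermonde c)⁻¹ i j • ∑ k : Fin n, c j ^ (k : ℕ) • x k := by
    simp only [Finset.smul_sum, smul_smul]
    rw [Finset.sum_comm]
    have h2 : ∀ k : Fin n, ∑ j, ((Matrix.vandermonde c)⁻¹ i j * c j ^ (k : ℕ)) • x k =
        (1 : Matrix (Fin n) (Fin n) ℂ) i k • x k := by
      intro k
      rw [← Finset.sum_smul, ← h1, Matrix.mul_apply]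
      simp [Matrix.vandermonde_apply]
    simp only [h2]
    simp [Matrix.one_apply]
  rw [SetLike.mem_coe, this]
  exact N.sum_mem fun j _ => N.smul_mem _ (h j)

/-- the multiples of `w` in degree `d` -/
def M (L : Submodule ℂ A) (w : A) : ℕ → Submodule ℂ A
  | 0 => ⊥
  | d + 1 => (L ^ d).map (LinearMap.mulLeft ℂ w)

theorem mul_mem_M (L : Submodule ℂ A) (w y a : A) (d : ℕ) (hy : y ∈ L) (ha : a ∈ M L w d) :
    y * a ∈ M L w (d + 1) := by
  cases d with
  | zero =>
    have : a = 0 := by simpa [M] using ha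
    simp [this]
  | succ d =>
    obtain ⟨b, hb, rfl⟩ := ha
    refine ⟨y * b, ?_, by simp; ring⟩
    rw [pow_succ']
    exact Submodule.mul_mem_mul hy hb

theorem aux {n : ℕ} (x : Fin n → A) (d : ℕ) : ∀ K : Submodule ℂ A,
    finrank ℂ ((Submodule.span ℂ (Set.range x) ^ d).map K.mkQ) ≤ d →
    {c : ℂ | ¬ Submodule.span ℂ (Set.range x) ^ d ≤
      K ⊔ M (Submodule.span ℂ (Set.range x)) (∑ i : Fin n, c ^ (i : ℕ) • x i) d}.Finite := by
  set L := Submodule.span ℂ (Set.range x) with hL
  have hfg : L.FG := Submodule.fg_span (Set.finite_range x)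
  have hfin : ∀ d, Module.Finite ℂ (L ^ d : Submodule ℂ A) := fun d =>
    Module.Finite.iff_fg.2 (hfg.pow d)
  have hw : ∀ c : ℂ, ∑ i : Fin n, c ^ (i : ℕ) • x i ∈ L := fun c =>
    L.sum_mem fun i _ => L.smul_mem _ (Submodule.subset_span ⟨i, rfl⟩)
  induction d with
  | zero =>
    intro K hK
    have := hfin 0
    have h0 : (L ^ 0).map K.mkQ = ⊥ := Submodule.finrank_eq_zero.1 (Nat.le_zero.1 hK)
    have h1 : L ^ 0 ≤ K := by
      have := Submodule.map_le_iff_le_comap.1 h0.le
      simpa using this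
    refine Set.Finite.subset Set.finite_empty fun c hc => hc (h1.trans le_sup_left)
  | succ d ih =>
    intro K hK
    have := hfin d
    have := hfin (d + 1)
    by_contra hinf
    have hinf' : Set.Infinite _ := hinf
    let e := hinf'.natEmbedding
    let c : Fin n → ℂ := fun j => (e j : ℂ)
    have hc : Function.Injective c := fun j k hjk =>
      Fin.ext (e.injective (Subtype.ext hjk))
    have hbad : ∀ j, ¬ L ^ (d + 1) ≤ K ⊔ M L (∑ i : Fin n, c j ^ (i : ℕ) • x i) (d + 1) :=
      fun j => (e j).2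
    have hr : ∀ j, finrank ℂ ((L ^ d).map
        (K.comap (LinearMap.mulLeft ℂ (∑ i : Fin n, c j ^ (i : ℕ) • x i))).mkQ) ≤ d := by
      intro j
      rw [finrank_map_comap]
      have hlt : ((L ^ d).map (LinearMap.mulLeft ℂ (∑ i : Fin n, c j ^ (i : ℕ) • x i))).map K.mkQ <
          (L ^ (d + 1)).map K.mkQ := by
        refine lt_of_le_of_ne (Submodule.map_mono ?_) fun heq => hbad j ?_
        · rintro _ ⟨b, hb, rfl⟩
          rw [pow_succ']
          exact Submodule.mul_mem_mul (hw _) hb
        · have := Submodule.map_le_iff_le_comap.1 heq.ge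
          rw [Submodule.comap_map_mkQ] at this
          exact this
      have := Submodule.finrank_lt_finrank_of_lt hlt
      omega
    refine hinf (Set.Finite.subset (Set.finite_iUnion fun j => ih _ (hr j)) ?_)
    intro t ht
    by_contra hn
    simp only [Set.mem_iUnion, Set.mem_ofPred_eq, not_exists, not_not] at hn
    apply ht
    rw [pow_succ', Submodule.mul_le]
    intro y hy a ha
    have hv := vander x c hc ((K ⊔ M L (∑ i : Fin n, t ^ (i : ℕ) • x i) (d + 1)).comap
      (LinearMap.mulRight ℂ a)) (fun j => by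
        obtain ⟨k, hk, m, hm, rfl⟩ := Submodule.mem_sup.1 (hn j ha)
        rw [Submodule.mem_comap, LinearMap.mulRight_apply, mul_add]
        exact Submodule.add_mem_sup hk (mul_mem_M L _ _ _ d (hw _) hm))
    exact hv hy

end MacP

theorem mac : S_Mac := fun _ _ _ _ x d K hK => MacP.aux x (d + 1) K hK

theorem div : S_Div := by
  intro R _ _ _ C a b hC ha
  induction a using UniqueFactorizationMonoid.induction_on_prime generalizing b with
  | h₁ => exact absurd rfl ha
  | h₂ u hu => exact fun _ => hu.dvd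
  | h₃ a p ha0 hp ih =>
    intro h
    obtain ⟨c0, hc0, hn⟩ := hC p hp
    have hpb : p ∣ b := (hp.dvd_or_dvd ((dvd_mul_right p a).trans (h c0 hc0))).resolve_right hn
    obtain ⟨b', rfl⟩ := hpb
    refine mul_dvd_mul_left p (ih b' ha0 fun c hc => ?_)
    have := h c hc
    rw [mul_assoc] at this
    exact (mul_dvd_mul_iff_left hp.ne_zero).1 this

end Pool.Agent.P.MP_2b2d3b_ag
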