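import Pool.Agent.P.MP_2b2d3b_ag.Bas
import Pool.Agent.P.MP_2b2d3b_ag.Mac

/-!
Divisibility in the homogeneous coordinate ring of the sextic.
-/

namespace Pool.Agent.P.MP_2b2d3b_ag

open MvPolynomial Module

namespace UfdP

theorem comp_prod (I : Ideal (Pol ℂ)) (a b : Pol ℂ) (m k : ℕ)
    (h : ∀ i j, i + j = m + k → (i, j) ≠ (m, k) →
      homogeneousComponent i a ∈ I ∨ homogeneousComponent j b ∈ I) :
    homogeneousComponent (m + k) (a * b) -
      homogeneousComponent m a * homogeneousComponent k b ∈ I := by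
  obtain ⟨N, ha, hb, hm, hk⟩ : ∃ N, a.totalDegree < N ∧ b.totalDegree < N ∧ m < N ∧ k < N :=
    ⟨a.totalDegree + b.totalDegree + m + k + 1, by omega, by omega, by omega, by omega⟩
  have e : a * b = ∑ p ∈ Finset.range N ×ˢ Finset.range N,
      homogeneousComponent p.1 a * homogeneousComponent p.2 b := by
    rw [Finset.sum_product]
    simp only
    rw [← Finset.sum_mul_sum, sum_comp a ha, sum_comp b hb]
  rw [e, map_sum, ← Ideal.Quotient.eq, map_sum, Finset.sum_eq_single (m, k)]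
  · rw [homogeneousComponent_eq_self
      ((homogeneousComponent_isHomogeneous m a).mul (homogeneousComponent_isHomogeneous k b))]
  · rintro ⟨i, j⟩ _ hne
    rw [homogeneousComponent_of_mem
      ((homogeneousComponent_isHomogeneous i a).mul (homogeneousComponent_isHomogeneous j b))]
    split_ifs with hij
    · rw [Ideal.Quotient.eq_zero_iff_mem]
      rcases h i j hij.symm hne with h1 | h1
      · exact I.mul_mem_right _ h1
      · exact I.mul_mem_left _ h1
    · simp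
  · intro hn
    exact absurd (by simp [hm, hk]) hn

theorem exists_comp (I : Ideal (Pol ℂ)) {a : Pol ℂ} (ha : a ∉ I) :
    ∃ m m', m ≤ m' ∧ homogeneousComponent m a ∉ I ∧ homogeneousComponent m' a ∉ I ∧
      ∀ i, homogeneousComponent i a ∉ I → m ≤ i ∧ i ≤ m' := by
  classical
  let S := (Finset.range (a.totalDegree + 1)).filter fun i => homogeneousComponent i a ∉ I
  have hS : ∀ i, i ∈ S ↔ homogeneousComponent i a ∉ I := by
    intro i
    simp only [S, Finset.mem_filter, Finset.mem_range, and_iff_right_iff_imp]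
    intro hi
    by_contra hn
    exact hi (by rw [homogeneousComponent_eq_zero i a (by omega)]; exact I.zero_mem)
  have hne : S.Nonempty := by
    by_contra hn
    apply ha
    rw [← sum_homogeneousComponent a]
    refine I.sum_mem fun i _ => ?_
    by_contra hi
    exact hn ⟨i, (hS i).2 hi⟩
  exact ⟨S.min' hne, S.max' hne, S.min'_le_max' hne, (hS _).1 (S.min'_mem hne),
    (hS _).1 (S.max'_mem hne), fun i hi => ⟨S.min'_le _ ((hS i).2 hi), S.le_max' _ ((hS i).2 hi)⟩⟩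

theorem sub_comp (I : Ideal (Pol ℂ)) (a : Pol ℂ) (m : ℕ)
    (h : ∀ i, homogeneousComponent i a ∉ I → i = m) : a - homogeneousComponent m a ∈ I := by
  have hN : a.totalDegree < a.totalDegree + m + 1 := by omega
  rw [← Ideal.Quotient.eq]
  conv_lhs => rw [← sum_comp a hN]
  rw [map_sum, Finset.sum_eq_single m]
  · intro i _ hi
    rw [Ideal.Quotient.eq_zero_iff_mem]
    by_contra hn
    exact hi (h i hn)
  · intro hn
    exact absurd (by simp) hn

theorem hilb_mono {I I' : Ideal (Pol ℂ)} {d : ℕ}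
    (h : ∀ x : Pol ℂ, x.IsHomogeneous d → x ∈ I → x ∈ I') : hilb I' d ≤ hilb I d := by
  have h1 := rank_null (Ideal.Quotient.mkₐ ℂ I).toLinearMap (Hd d)
  have h2 := rank_null (Ideal.Quotient.mkₐ ℂ I').toLinearMap (Hd d)
  have : Module.Finite ℂ
      (LinearMap.ker (Ideal.Quotient.mkₐ ℂ I').toLinearMap ⊓ Hd d : Submodule ℂ (Pol ℂ)) :=
    Module.Finite.of_injective (Submodule.inclusion inf_le_right) (Submodule.inclusion_injective _)
  have h3 : finrank ℂ
      (LinearMap.ker (Ideal.Quotient.mkₐ ℂ I).toLinearMap ⊓ Hd d : Submodule ℂ (Pol ℂ)) ≤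
      finrank ℂ
      (LinearMap.ker (Ideal.Quotient.mkₐ ℂ I').toLinearMap ⊓ Hd d : Submodule ℂ (Pol ℂ)) := by
    refine Submodule.finrank_mono fun x hx => ⟨?_, hx.2⟩
    have h0 := hx.1
    simp only [SetLike.mem_coe, LinearMap.mem_ker, AlgHom.toLinearMap_apply,
      Ideal.Quotient.mkₐ_eq_mk, Ideal.Quotient.eq_zero_iff_mem] at h0 ⊢
    exact h x hx.2 h0
  unfold hilb
  change finrank ℂ ((Hd d).map _) ≤ finrank ℂ ((Hd d).map _)
  omega

theorem homI_one {F : Pol ℂ} {k : ℕ} (hF : F.IsHomogeneous k) : HomI (Ideal.span {F}) :=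
  fun _ hb d => comp_mem_one hF hb d

theorem homI_two {F l : Pol ℂ} {k j : ℕ} (hF : F.IsHomogeneous k) (hl : l.IsHomogeneous j) :
    HomI (Ideal.span {F} ⊔ Ideal.span {l}) := by
  rw [← Ideal.span_insert]
  exact fun _ hb d => comp_mem_two hF hl hb d

theorem exists_prime {F : Pol ℂ} (hF : F.IsHomogeneous 6)
    [UniqueFactorizationMonoid (Pol ℂ ⧸ Ideal.span {F})] :
    ∃ ρ : Pol ℂ ⧸ Ideal.span {F}, Prime ρ := by
  have h0 : Ideal.Quotient.mk (Ideal.span {F}) (X 3) ≠ 0 := fun h =>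
    X_ne_zero (R := ℂ) (3 : Fin 4) (eq_zero_of_hom hF (isHomogeneous_X ℂ 3) (by omega)
      (Ideal.Quotient.eq_zero_iff_mem.1 h))
  have h1 : ¬ IsUnit (Ideal.Quotient.mk (Ideal.span {F}) (X 3)) := by
    intro hu
    obtain ⟨y, hy⟩ := hu.exists_right_inv
    obtain ⟨y, rfl⟩ := Ideal.Quotient.mk_surjective y
    rw [← map_mul, ← map_one (Ideal.Quotient.mk (Ideal.span {F})), Ideal.Quotient.eq,
      Ideal.mem_span_singleton] at hy
    have h2 := map_dvd constantCoeff hy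
    have h3 : constantCoeff F = 0 := by
      rw [constantCoeff_eq]
      exact hF.coeff_eq_zero (by simp)
    simp [h3] at h2
  obtain ⟨ρ, hρ, -⟩ := WfDvdMonoid.exists_irreducible_factor h1 h0
  exact ⟨ρ, UniqueFactorizationMonoid.irreducible_iff_prime.1 hρ⟩

theorem wc_eq (c : ℕ) :
    ∑ i : Fin 4, (c : ℂ) ^ (i : ℕ) • (![X 3, X 2, X 1, X 0] : Fin 4 → Pol ℂ) i = wc ℂ c := by
  simp [Fin.sum_univ_four, wc, smul_eq_C_mul]

theorem span_X : Submodule.span ℂ (Set.range (![X 3, X 2, X 1, X 0] : Fin 4 → Pol ℂ)) = Hd 1 := by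
  rw [Hd, homogeneousSubmodule_one_eq_span_X]
  congr 1
  ext a
  simp only [Set.mem_range]
  constructor
  · rintro ⟨i, rfl⟩
    fin_cases i
    exacts [⟨3, rfl⟩, ⟨2, rfl⟩, ⟨1, rfl⟩, ⟨0, rfl⟩]
  · rintro ⟨i, rfl⟩
    fin_cases i
    exacts [⟨3, rfl⟩, ⟨2, rfl⟩, ⟨1, rfl⟩, ⟨0, rfl⟩]

/-- if the Hilbert function in degree `d + 1` is at most `d + 1`, almost all `wc` generate -/
theorem mac_hilb (I : Ideal (Pol ℂ)) (d : ℕ) (h : hilb I (d + 1) ≤ d + 1) :
    {c : ℕ | ¬ ∀ a : Pol ℂ, a.IsHomogeneous (d + 1) → a ∈ I ⊔ Ideal.span {wc ℂ c}}.Finite := by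
  have h1 := mac (Pol ℂ) 4 ![X 3, X 2, X 1, X 0] d (I.restrictScalars ℂ) (by
    rw [span_X, homogeneousSubmodule_one_pow]
    refine le_of_eq_of_le (finrank_map_eq_of_ker _ (Ideal.Quotient.mkₐ ℂ I).toLinearMap _
      fun x _ => ?_) h
    simp [Submodule.Quotient.mk_eq_zero, Ideal.Quotient.eq_zero_iff_mem])
  refine (h1.preimage (f := fun c : ℕ => (c : ℂ)) Nat.cast_injective.injOn).subset fun c hc => ?_
  intro hle
  apply hc
  intro a ha
  rw [wc_eq, span_X, homogeneousSubmodule_one_pow] at hle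
  obtain ⟨k, hk, _, ⟨y, -, rfl⟩, rfl⟩ := Submodule.mem_sup.1 (hle ha)
  exact Submodule.add_mem_sup hk (Ideal.mul_mem_right _ _ (Ideal.mem_span_singleton_self _))

end UfdP

open UfdP

theorem homDvd : S_HomDvd := by
  intro F a b c n hF hp hc hc0 hab
  have hab' : a * b ∉ Ideal.span {F} := fun h => hc0 (by
    simpa using (Ideal.span {F}).sub_mem h hab)
  have ha : a ∉ Ideal.span {F} := fun h => hab' (Ideal.mul_mem_right _ _ h)
  have hb : b ∉ Ideal.span {F} := fun h => hab' (Ideal.mul_mem_left _ _ h)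
  obtain ⟨m, m', hmm, hm, hm', hma⟩ := exists_comp _ ha
  obtain ⟨k, k', hkk, hk, hk', hkb⟩ := exists_comp _ hb
  have key : ∀ i j, homogeneousComponent i a ∉ Ideal.span {F} →
      homogeneousComponent j b ∉ Ideal.span {F} →
      (∀ i' j', i' + j' = i + j → (i', j') ≠ (i, j) → homogeneousComponent i' a ∈ Ideal.span {F} ∨
        homogeneousComponent j' b ∈ Ideal.span {F}) → i + j = n := by
    intro i j hi hj h
    by_contra hne
    have h1 := comp_prod _ a b i j h
    have h2 := comp_mem_one hF hab (i + j)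
    rw [map_sub, homogeneousComponent_of_mem hc, if_neg hne, sub_zero] at h2
    have h3 := (Ideal.span {F}).sub_mem h2 h1
    rw [sub_sub_cancel] at h3
    exact (hp.mem_or_mem h3).elim hi hj
  have e1 := key m k hm hk fun i j hij hne => by
    by_contra hn
    rw [not_or] at hn
    have := hma i hn.1
    have := hkb j hn.2
    exact hne (Prod.ext (by simp only; omega) (by simp only; omega))
  have e2 := key m' k' hm' hk' fun i j hij hne => by
    by_contra hn
    rw [not_or] at hn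
    have := hma i hn.1
    have := hkb j hn.2
    exact hne (Prod.ext (by simp only; omega) (by simp only; omega))
  refine ⟨_, _, m, k, homogeneousComponent_isHomogeneous m a,
    homogeneousComponent_isHomogeneous k b, e1, sub_comp _ _ _ fun i hi => ?_,
    sub_comp _ _ _ fun i hi => ?_⟩
  · have := hma i hi
    omega
  · have := hkb i hi
    omega

theorem avoid (h1 : S_HilbAdd) (h2 : S_HilbF) : S_Avoid := by
  classical
  intro F e J hF hF0 hp hufd hJ hρ
  have := hp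
  obtain ⟨ρ0, hρ0⟩ := exists_prime hF
  obtain ⟨b1, hb1, hn1⟩ := hρ ρ0 hρ0
  have hb10 : Ideal.Quotient.mk (Ideal.span {F}) b1 ≠ 0 := fun h => hn1 (h ▸ dvd_zero _)
  let T := (UniqueFactorizationMonoid.factors (Ideal.Quotient.mk (Ideal.span {F}) b1)).toFinset
  let p : T → Submodule ℂ J := fun t =>
    ((Ideal.span {(t : Pol ℂ ⧸ Ideal.span {F})}).restrictScalars ℂ).comap
      ((Ideal.Quotient.mkₐ ℂ (Ideal.span {F})).toLinearMap.comp J.subtype)
  have hmem : ∀ (t : T) (x : J), x ∈ p t ↔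
      (t : Pol ℂ ⧸ Ideal.span {F}) ∣ Ideal.Quotient.mk _ (x : Pol ℂ) := fun t x => by
    simp [p, Ideal.mem_span_singleton]
  obtain ⟨b2, hb2⟩ := Submodule.exists_forall_notMem_of_forall_ne_top p fun t ht => by
    obtain ⟨b, hb, hn⟩ := hρ t (UniqueFactorizationMonoid.prime_of_factor _
      (Multiset.mem_toFinset.1 t.2))
    exact hn ((hmem t ⟨b, hb⟩).1 (ht ▸ Submodule.mem_top))
  have hom1 : b1.IsHomogeneous e := hJ hb1
  have hom2 : (b2 : Pol ℂ).IsHomogeneous e := hJ b2.2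
  have r1 : ∀ a, b1 * a ∈ Ideal.span {F} → a ∈ Ideal.span {F} := fun a ha =>
    (hp.mem_or_mem ha).resolve_left fun h => hb10 (Ideal.Quotient.eq_zero_iff_mem.2 h)
  have hdv : ∀ a : Pol ℂ, a ∈ Ideal.span {F} ⊔ Ideal.span {b1} ↔
      Ideal.Quotient.mk (Ideal.span {F}) b1 ∣ Ideal.Quotient.mk _ a := by
    intro a
    constructor
    · intro ha
      obtain ⟨u, hu, v, hv, rfl⟩ := Submodule.mem_sup.1 ha
      rw [map_add, Ideal.Quotient.eq_zero_iff_mem.2 hu, zero_add]
      exact map_dvd _ (Ideal.mem_span_singleton.1 hv)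
    · rintro ⟨y, hy⟩
      obtain ⟨y, rfl⟩ := Ideal.Quotient.mk_surjective y
      rw [← map_mul, Ideal.Quotient.eq] at hy
      have := Submodule.add_mem_sup hy
        (Ideal.mul_mem_right y _ (Ideal.mem_span_singleton_self b1))
      simpa using this
  have r2 : ∀ a, (b2 : Pol ℂ) * a ∈ Ideal.span {F} ⊔ Ideal.span {b1} →
      a ∈ Ideal.span {F} ⊔ Ideal.span {b1} := by
    intro a ha
    rw [hdv] at ha ⊢
    refine div _ {Ideal.Quotient.mk _ b1, Ideal.Quotient.mk _ (b2 : Pol ℂ)} _ _ ?_ hb10 ?_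
    · intro ρ hρ'
      by_cases hd : ρ ∣ Ideal.Quotient.mk (Ideal.span {F}) b1
      · obtain ⟨q, hq, hass⟩ :=
          UniqueFactorizationMonoid.exists_mem_factors_of_dvd hb10 hρ'.irreducible hd
        refine ⟨_, Or.inr rfl, fun h => hb2 ⟨q, Multiset.mem_toFinset.2 hq⟩ ?_⟩
        exact (hmem _ _).2 (hass.symm.dvd.trans h)
      · exact ⟨_, Or.inl rfl, hd⟩
    · rintro _ (rfl | rfl)
      · exact dvd_mul_left _ _
      · rwa [map_mul, mul_comm] at ha
  obtain ⟨a1, -⟩ := h1 _ b1 e (homI_one hF) hom1 r1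
  obtain ⟨a2, -⟩ := h1 _ b2 e (homI_two hF hom1) hom2 r2
  obtain ⟨a0, -⟩ := h2 F hF hF0
  have hval : hilb (Ideal.span {F} ⊔ Ideal.span {b1} ⊔ Ideal.span {(b2 : Pol ℂ)})
      (6 * e ^ 2 + 2 + 2 * e + 1) ≤ 6 * e ^ 2 + 2 + 2 * e + 1 := by
    have e1 := a2 (6 * e ^ 2 + 3 + e)
    have e2 := a1 (6 * e ^ 2 + 3 + e)
    have e3 := a1 (6 * e ^ 2 + 3)
    have e4 := a0 (6 * e ^ 2 + 3) (by omega)
    have e5 := a0 (6 * e ^ 2 + 3 + e) (by omega)
    have e6 := a0 (6 * e ^ 2 + 3 + e + e) (by omega)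
    rw [show 6 * e ^ 2 + 2 + 2 * e + 1 = 6 * e ^ 2 + 3 + e + e by ring]
    have e7 : hilb (Ideal.span {F} ⊔ Ideal.span {b1} ⊔ Ideal.span {(b2 : Pol ℂ)})
        (6 * e ^ 2 + 3 + e + e) = 6 * e ^ 2 := by
      zify at e1 e2 e3 e4 e5 e6 ⊢
      linear_combination e1 + e2 - e3 + e6 - 2 * e5 + e4
    omega
  refine (mac_hilb _ _ hval).subset fun c hc hall =>
    hc ⟨6 * e ^ 2 + 2 + 2 * e + 1, fun a ha => ?_⟩
  refine SetLike.le_def.1 (sup_le_sup_right ?_ _) (hall a ha)
  refine sup_le (sup_le le_sup_left ?_) ?_ <;> refine le_sup_of_le_right (Ideal.span_mono ?_)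
  · simpa using hb1
  · simp

theorem cop6 (h1 : S_HilbAdd) (h2 : S_HilbF) : S_Cop6 := by
  intro F I hF hF0 hp _ hI ρ hρ
  by_contra hn
  push Not at hn
  obtain ⟨a0, a0'⟩ := h2 F hF hF0
  have e6 := a0 6 (by omega)
  by_cases hall : ∀ x : Pol ℂ, x.IsHomogeneous 6 → x ∈ I → x ∈ Ideal.span {F}
  · have := hilb_mono hall
    omega
  push Not at hall
  obtain ⟨b0, hb0, hb0I, hb0F⟩ := hall
  obtain ⟨σ, hσ⟩ := hn b0 hb0I hb0
  obtain ⟨a, rfl⟩ := Ideal.Quotient.mk_surjective ρ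
  obtain ⟨b, rfl⟩ := Ideal.Quotient.mk_surjective σ
  rw [← map_mul, eq_comm, Ideal.Quotient.eq] at hσ
  obtain ⟨a', b', m, k, ha', -, hmk, haa, -⟩ := homDvd F a b b0 6 hF hp hb0 hb0F hσ
  rw [Ideal.Quotient.eq.2 haa] at hρ hn
  have ha0 : a' ∉ Ideal.span {F} := fun h => hρ.ne_zero (Ideal.Quotient.eq_zero_iff_mem.2 h)
  have hm : m ≠ 0 := by
    rintro rfl
    have hC := totalDegree_eq_zero_iff_eq_C.1 ((totalDegree_zero_iff_isHomogeneous _).2 ha')
    apply hρ.not_isUnit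
    have hu : coeff 0 a' ≠ 0 := fun h => ha0 (by rw [hC, h, C_0]; exact Ideal.zero_mem _)
    rw [hC]
    exact (hu.isUnit.map C).map _
  obtain ⟨a1, -⟩ := h1 _ a' m (homI_one hF) ha' fun x hx => (hp.mem_or_mem hx).resolve_left ha0
  have e1 := a1 k
  rw [show k + m = 6 by omega] at e1
  have e2 := a0' k (by omega)
  have e3 : (k + 3).choose 3 ≤ (5 + 3).choose 3 := Nat.choose_le_choose 3 (by omega)
  have e4 : (5 + 3).choose 3 = 56 := by decide
  have e5 : hilb (Ideal.span {F} ⊔ Ideal.span {a'}) 6 ≤ hilb I 6 := by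
    refine hilb_mono fun x hx hxI => ?_
    obtain ⟨y, hy⟩ := hn x hxI hx
    obtain ⟨y, rfl⟩ := Ideal.Quotient.mk_surjective y
    rw [← map_mul, Ideal.Quotient.eq] at hy
    have := Submodule.add_mem_sup hy (Ideal.mul_mem_right y _ (Ideal.mem_span_singleton_self a'))
    simpa using this
  omega

end Pool.Agent.P.MP_2b2d3b_ag
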