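import Pool.Agent.P.MP_2b2d3b_ag.St2
import Pool.Agent.P.MP_2b2d3b_ag.Sp1
import Pool.Agent.P.MP_2b2d3b_ag.Sp2
import Pool.Agent.P.MP_2b2d3b_ag.FiltB
import Pool.Agent.P.MP_2b2d3b_ag.Sch
import Pool.Agent.P.MP_2b2d3b_ag.DimP
import Pool.Agent.P.MP_2b2d3b_ag.Ufd

/-!
Package NP: every non planar point lies in the closure of the general non planar points.
-/

namespace Pool.Agent.P.MP_2b2d3b_ag

open MvPolynomial CategoryTheory AlgebraicGeometry Module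

namespace NPP

theorem isFun_of_rep {F : Pol ℂ} {E : Bundle F ℂ} {c j : ℕ} {s : E.M →ₗ[Pol ℂ] Rq F ℂ}
    {Λ : Pol ℂ →ₗ[ℂ] ℂ} (h : Rep c E j s Λ) : IsFun E j s := by
  obtain ⟨x, ω, t1, t2, d1, d2, G, -, -, -, -, -, hs, -⟩ := h
  exact hs.fn

/-- specialisation along a family of Gorenstein schemes -/
theorem special (hNZD : S_NZD) (hGor : S_GorFam) (hUq : S_Uq) (hPt : S_Pt) (hTr : S_Tr)
    (hRad : S_RepRad) {F : Pol ℂ} (hF : Hyp F) (𝓜 : ModuliSpace F) {Z : Set 𝓜.M}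
    (hZ : IsClosed Z) {c : ℕ} (Q : Type) [CommRing Q] [IsDomain Q] [Algebra ℚ Q]
    [Algebra.FiniteType ℚ Q] {Λ : Pol Q →ₗ[Q] Q} {b : Fin 11 → Pol Q} {δ : Q} {t0 : Q →+* ℂ}
    (hg : Gor c 6 Λ b) (hδ : δ ≠ 0)
    (hgen : ∀ t : Q →+* ℂ, t δ ≠ 0 → ∀ (E : Family F ℂ) s, s ≠ 0 →
      Rep c E.toBundle 1 s (bcL t Λ) → 𝓜.pt E ∈ Z)
    (E0 : Family F ℂ) {s0 : E0.M →ₗ[Pol ℂ] Rq F ℂ} (h0 : Rep c E0.toBundle 1 s0 (bcL t0 Λ)) :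
    𝓜.pt E0 ∈ Z := by
  obtain ⟨B, _, _, _, j, hB, hnz, hlift⟩ := hNZD F hF.ind Q c (Fin 11) Λ b hg
  have hFr : F ∈ rad (bcL t0 Λ) := by
    refine ((hRad F hF.rg ℂ E0.toBundle c 1 s0 _ h0).2.2 F 6 hF.hom).2 (mem_satI.2 fun i => ?_)
    refine ⟨0, 0, ?_⟩
    rw [map_zero, pow_zero, one_mul, eq_comm, Ideal.Quotient.eq_zero_iff_mem, bc_self]
    exact Ideal.mem_span_singleton_self F
  obtain ⟨t, ht⟩ := hlift t0 hFr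
  have : Nontrivial B := (t : B →+* ℂ).domain_nontrivial
  obtain ⟨𝓔, s, -, hfib⟩ := hGor F hF B c 6 (bcL j Λ) _ (hg.map j) hB
  obtain ⟨hP1, hP2, -⟩ := hPt F hF 𝓜
  obtain ⟨-, hT2, hT3, -⟩ := hTr F hF
  have key : ∀ t' : B →ₐ[ℂ] ℂ, ∃ (E : Family F ℂ) (s' : _), s' ≠ 0 ∧
      Rep c E.toBundle 1 s' (bcL ((t' : B →+* ℂ).comp j) Λ) ∧ 𝓜.pt E = 𝓜.cl B 𝓔 (kp t') := by
    intro t'
    obtain ⟨E, s', hp, hgood, -, hs', hr⟩ := hfib t'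
    obtain ⟨E', rfl⟩ := hT3 E hgood
    rw [bcL_comp] at hr
    exact ⟨E', s', hs', hr, hP1 B 𝓔 t' E' hp⟩
  obtain ⟨E1, s1, -, hr1, hpt1⟩ := key t
  have e : (t : B →+* ℂ).comp j = t0 := RingHom.ext ht
  rw [e] at hr1
  have hiso : Iso E0.toBundle E1.toBundle :=
    hUq F hF _ _ c s0 s1 _ 1 (hT2 E0).1 (hT2 E1).1 one_ne_zero h0 (by rwa [one_smul])
  rw [(hP2 E0 E1).2 hiso, hpt1]
  have hcl := (pts nS 𝓜.M 𝓜.π 𝓜.lft).2.2.2.1 B (𝓜.cl B 𝓔) (j δ) (hnz δ hδ) ⟨kp t, rfl⟩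
  refine closure_minimal ?_ hZ hcl
  rintro _ ⟨t', ht', rfl⟩
  obtain ⟨E, s', hs', hr, hpt⟩ := key t'
  rw [← hpt]
  exact hgen _ ht' E s' hs' hr

end NPP

open NPP in
theorem nP (hNZD : S_NZD) (hGor : S_GorFam) (hUq : S_Uq) (hLen : S_Len) (hPt : S_Pt)
    (hTr : S_Tr) (hRad : S_RepRad) : S_NP := by
  intro F hF 𝓜 Z hZ h7 E s hs hs0 h4
  have two : ∀ (c : ℕ) (Λ0 : Pol ℂ →ₗ[ℂ] ℂ), TwoLines c Λ0 → ∀ (E : Family F ℂ) s,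
      Rep c E.toBundle 1 s Λ0 → 𝓜.pt E ∈ Z := by
    intro c Λ0 hl E s hr
    obtain ⟨Q, _, _, _, _, Λ, b, δ, t0, hg, hδ, rfl, hgen⟩ := sp2 c Λ0 hl
    refine special hNZD hGor hUq hPt hTr hRad hF 𝓜 hZ Q hg hδ (fun t ht E' s' hs' hr' => ?_) E hr
    refine h7 E' s' (isFun_of_rep hr') hs' ((hgen t ht).trans (UfdP.hilb_mono fun x hx h => ?_))
    exact ((hRad F hF.rg ℂ E'.toBundle c 1 s' _ hr').2.2 x 2 hx).2 h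
  obtain ⟨-, -, -, hfin⟩ := hLen F hF E.toBundle s ((hTr F hF).2.1 E) hs hs0
  obtain ⟨c, hc⟩ := hfin.infinite_compl.nonempty
  obtain ⟨Λ0, lam, hR⟩ : ∃ Λ lam, RepF c E.toBundle s Λ lam := not_not.1 hc
  obtain ⟨-, h | h | h⟩ := tri _ _ _ lam hR.filt hR.len hR.av
  · rw [hR.hilb] at h
    omega
  · refine h7 E s hs hs0 ?_
    rw [← hR.hilb, h.d2]
  · obtain ⟨Q, _, _, _, _, Λ, b, δ, t0, hg, hδ, e, hgen⟩ := sp1 _ _ c lam hR.filt hR.len h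
    rw [hR.comp] at e
    refine special hNZD hGor hUq hPt hTr hRad hF 𝓜 hZ Q hg hδ (t0 := t0)
      (fun t ht E' s' _ hr' => two c _ (hgen t ht) E' s' hr') E (s0 := s) ?_
    rw [e]
    exact hR.rep

end Pool.Agent.P.MP_2b2d3b_ag
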