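import Pool.Agent.P.MP_2b2d3b_ag.St2
import Pool.Agent.P.MP_2b2d3b_ag.Ufd
import Pool.Agent.P.MP_2b2d3b_ag.Box
import Pool.Agent.P.MP_2b2d3b_ag.FiltA

/-!
Serre data in a box.
-/

namespace Pool.Agent.P.MP_2b2d3b_ag

open MvPolynomial Module

namespace RepP

section Filt

variable {A : Type} [CommRing A] [Algebra ℂ A] {ev : Pol ℂ →ₐ[ℂ] A} {w : Pol ℂ}

theorem V_mono (h1 : w.IsHomogeneous 1) (hw : ev w = 1) : Monotone (V ev) :=
  monotone_nat_of_le_succ fun d a ha => by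
    have : (1 : A) ∈ V ev 1 := hw ▸ FiltP.mem_V h1
    simpa using FiltP.mul_mem ha this

theorem exists_mem (h1 : w.IsHomogeneous 1) (hw : ev w = 1) (hs : Function.Surjective ev) (a : A) :
    ∃ d, a ∈ V ev d := by
  obtain ⟨b, rfl⟩ := hs a
  refine ⟨b.totalDegree, ?_⟩
  rw [← sum_homogeneousComponent b, map_sum]
  refine Submodule.sum_mem _ fun i hi => ?_
  rw [sum_homogeneousComponent b]
  exact V_mono h1 hw (Nat.lt_succ_iff.mp (Finset.mem_range.mp hi))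
    (FiltP.mem_V (homogeneousComponent_isHomogeneous i b))

theorem V_top (h1 : w.IsHomogeneous 1) (hw : ev w = 1) (hs : Function.Surjective ev) {d : ℕ}
    (hd : V ev (d + 1) ≤ V ev d) : V ev d = ⊤ := by
  have key : ∀ n, V ev (d + n) ≤ V ev d := by
    intro n
    induction n with
    | zero => exact le_rfl
    | succ n ih =>
      rw [← add_assoc, ← FiltP.V_mul]
      refine le_trans ?_ hd
      rw [← FiltP.V_mul d 1]
      exact Submodule.mul_le.mpr fun a ha b hb => Submodule.mul_mem_mul (ih ha) hb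
  rw [eq_top_iff]
  intro a _
  obtain ⟨n, hn⟩ := exists_mem h1 hw hs a
  exact key n (V_mono h1 hw (Nat.le_add_left n d) hn)

theorem fin_of_top {d : ℕ} (h : V ev d = ⊤) : Module.Finite ℂ A := by
  have := FiltP.finite_V (ev := ev) d
  rw [h] at this
  exact Module.Finite.equiv (Submodule.topEquiv (R := ℂ) (M := A))

end Filt

/-- a monic binary form in an ideal that has no zero on `w = 0` -/
theorem exists_monic {I : Ideal (Pol ℂ)} (hI : HomI I) {w : Pol ℂ} (h1 : w.IsHomogeneous 1) {D : ℕ}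
    (hD : ∀ a : Pol ℂ, a.IsHomogeneous D → a ∈ I ⊔ Ideal.span {w}) (i : Fin 4) (j : ℕ) :
    ∃ (p : Polynomial ℂ) (n d : ℕ), p.Monic ∧ p.natDegree = n + 1 ∧ d + j = n + 1 ∧
      hm (X i) w p (n + 1) ∈ I := by
  let K := I ⊔ Ideal.span {w - 1}
  let ev := Ideal.Quotient.mkₐ ℂ K
  have hs : Function.Surjective ev := Ideal.Quotient.mkₐ_surjective ℂ K
  have hw : ev w = 1 := by
    rw [← map_one ev]
    exact Ideal.Quotient.eq.mpr (Ideal.mem_sup_right (Ideal.mem_span_singleton_self _))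
  have hV : V ev (D + 1) ≤ V ev D := by
    rw [← FiltP.V_mul]
    refine Submodule.mul_le.mpr ?_
    rintro _ ⟨a, ha, rfl⟩ _ ⟨l, hl, rfl⟩
    obtain ⟨x, hx, z, hz, e⟩ := Submodule.mem_sup.mp (Ideal.mul_mem_right l _ (hD a ha))
    obtain ⟨c, rfl⟩ := Ideal.mem_span_singleton'.mp hz
    have hal : (a * l).IsHomogeneous (D + 1) := IsHomogeneous.mul ha hl
    have e2 := congrArg (homogeneousComponent (D + 1)) e
    rw [map_add, comp_mul h1, homogeneousComponent_eq_self hal] at e2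
    have e3 : ev (homogeneousComponent (D + 1) x) = 0 :=
      Ideal.Quotient.eq_zero_iff_mem.mpr (Ideal.mem_sup_left (hI x hx _))
    change ev a * ev l ∈ _
    rw [← map_mul, ← e2, map_add, e3, zero_add, map_mul, hw, mul_one]
    exact FiltP.mem_V (homogeneousComponent_isHomogeneous D c)
  have := fin_of_top (V_top h1 hw hs hV)
  obtain ⟨p, hp, hp0⟩ := IsIntegral.of_finite ℂ (ev (X i))
  have hX : (X i : Pol ℂ).IsHomogeneous 1 := isHomogeneous_X ℂ i
  have hg : hm (X i) w p p.natDegree ∈ K := by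
    rw [← Ideal.Quotient.eq_zero_iff_mem]
    change ev _ = 0
    rw [aeval_hm ev hw le_rfl]
    exact hp0
  obtain ⟨k, hk⟩ := dehom ℂ I w _ _ hI h1 (hm_hom hX h1 p _) hg
  obtain ⟨x, hx, z, hz, e⟩ := Submodule.mem_sup.mp (hD (X i ^ D) (by simpa using hX.pow D))
  obtain ⟨c, rfl⟩ := Ideal.mem_span_singleton'.mp hz
  have h2 : X i ^ (D * k) * hm (X i) w p p.natDegree ∈ I := by
    rw [← Ideal.Quotient.eq_zero_iff_mem] at hk hx ⊢
    rw [pow_mul, ← e]
    simp only [map_mul, map_pow, map_add, hx, zero_add, mul_pow] at hk ⊢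
    rw [mul_assoc, hk, mul_zero]
  refine ⟨Polynomial.X ^ (D * k + j + 1) * p, D * k + j + p.natDegree, D * k + p.natDegree + 1,
    (Polynomial.monic_X_pow _).mul hp, ?_, by omega, ?_⟩
  · rw [(Polynomial.monic_X_pow _).natDegree_mul hp, Polynomial.natDegree_X_pow]; omega
  · rw [show D * k + j + p.natDegree + 1 = D * k + j + 1 + p.natDegree by omega,
      hm_mul _ _ (Polynomial.natDegree_X_pow_le _) le_rfl, hm_X_pow,
      show D * k + j + 1 = j + 1 + D * k by omega, pow_add, mul_assoc]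
    exact I.mul_mem_left _ h2

variable {F : Pol ℂ} {B : Type} [CommRing B] [Algebra ℂ B] {E : Bundle F B}

theorem cp_mq (hF : F.IsHomogeneous 6) (d : ℕ) (b : Pol B) :
    (grR hF B).cp d (mq F B b) = mq F B (homogeneousComponent d b) := by
  conv_lhs => rw [← sum_homogeneousComponent b, map_sum, map_sum]
  conv_rhs => rw [← sum_homogeneousComponent b, map_sum, map_sum]
  refine Finset.sum_congr rfl fun i _ => ?_
  have hi := homogeneousComponent_isHomogeneous i b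
  rw [Grading.cp_of_mem (G := grR hF B) (mq_mem hi), homogeneousComponent_of_mem hi]
  split_ifs <;> simp

theorem fun_cp (hF : F.IsHomogeneous 6) {j : ℕ} {s : E.M →ₗ[Pol B] Rq F B} (hs : IsFun E j s)
    (d : ℕ) (u : E.M) : s (E.gr.cp d u) = (grR hF B).cp (d + j) (s u) := by
  induction u using E.gr.induction with
  | h0 => simp
  | hadd u v hu hv => simp only [map_add, hu, hv]
  | hom e u hu =>
    rw [Grading.cp_of_mem hu, Grading.cp_of_mem (G := grR hF B) (hs e u hu)]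
    by_cases h : d = e <;> simp [h]

theorem fun_cp_lt (hF : F.IsHomogeneous 6) {j : ℕ} {s : E.M →ₗ[Pol B] Rq F B} (hs : IsFun E j s)
    {d : ℕ} (hd : d < j) (u : E.M) : (grR hF B).cp d (s u) = 0 := by
  induction u using E.gr.induction with
  | h0 => simp
  | hadd u v hu hv => simp only [map_add, hu, hv, add_zero]
  | hom e u hu => exact Grading.cp_ne (G := grR hF B) (hs e u hu) (by omega)

/-- the ideal of values of a functional -/
noncomputable def vals (s : E.M →ₗ[Pol B] Rq F B) : Ideal (Pol B) :=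
  (LinearMap.range s).comap (Algebra.linearMap (Pol B) (Rq F B))

theorem mem_vals {s : E.M →ₗ[Pol B] Rq F B} {b : Pol B} : b ∈ vals s ↔ ∃ u, s u = mq F B b :=
  Iff.rfl

theorem homI_vals (hF : F.IsHomogeneous 6) {j : ℕ} {s : E.M →ₗ[Pol B] Rq F B} (hs : IsFun E j s) :
    HomI (vals s) := by
  rintro b ⟨u, hu⟩ d
  change s u = mq F B b at hu
  rw [mem_vals, ← cp_mq hF, ← hu]
  by_cases hd : d < j
  · exact ⟨0, by rw [fun_cp_lt hF hs hd, map_zero]⟩
  · obtain ⟨e, rfl⟩ := Nat.exists_eq_add_of_le' (not_lt.mp hd)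
    exact ⟨_, fun_cp hF hs e u⟩

theorem exists_hom (hF : F.IsHomogeneous 6) {j : ℕ} {s : E.M →ₗ[Pol B] Rq F B} (hs : IsFun E j s)
    {g : Pol B} {d : ℕ} (hg : g.IsHomogeneous (d + j)) (h : g ∈ vals s) :
    ∃ t ∈ E.gr.piece d, s t = mq F B g := by
  obtain ⟨u, hu⟩ := mem_vals.mp h
  exact ⟨_, E.gr.cp_mem d u, by rw [fun_cp hF hs, hu, cp_mq, homogeneousComponent_eq_self hg]⟩

theorem not_dvd_X (hR : Rg F) {ρ : Rq F B} (hρ : ¬IsUnit ρ) : ∃ i : Fin 4, ¬ρ ∣ mq F B (X i) := by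
  by_contra h
  push Not at h
  obtain ⟨α, hα⟩ := h 2
  obtain ⟨β, hβ⟩ := h 3
  obtain ⟨x, hx⟩ := hR.regR 1 (r := β) (r' := α) (by rw [pow_one, pow_one, hα, hβ]; ring)
  have := hR.nzdR (i := 3) (by decide) 1 (1 - ρ * x) (by
    rw [pow_one] at hx ⊢
    linear_combination hβ + ρ * hx)
  exact hρ (IsUnit.of_mul_eq_one x (sub_eq_zero.mp this).symm)

theorem good_c (hF : Hyp F) {E : Bundle F ℂ} {j : ℕ} {s : E.M →ₗ[Pol ℂ] Rq F ℂ} (hs : IsFun E j s)
    (hp : Prim s) : {c : ℕ | ¬ ∃ D, ∀ a : Pol ℂ, a.IsHomogeneous D →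
      a ∈ vals s ⊔ Ideal.span {wc ℂ c}}.Finite := by
  have := E.rankTwo.finite
  obtain ⟨n, a, m, hm, hspan⟩ := E.gr.exists_gens
  let A := ∑ i, a i
  have hA : ∀ i, a i ≤ A := fun i =>
    Finset.single_le_sum (f := a) (fun _ _ => Nat.zero_le _) (Finset.mem_univ i)
  refine (avoid hilbAdd hilbF (bc F ℂ) (A + j) (Id (vals s) (A + j)) hF.bc.hom hF.bc.ne_zero
    hF.prime' hF.ufd' inf_le_right fun ρ hρ => ?_).subset fun c hc => ?_
  · obtain ⟨u, hu⟩ := hp ρ hρ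
    have : ∃ i, ¬ρ ∣ s (m i) := by
      by_contra h
      push Not at h
      apply hu
      have hu' : u ∈ Submodule.span (Pol ℂ) (Set.range m) := hspan ▸ Submodule.mem_top
      refine Submodule.span_induction (p := fun u _ => ρ ∣ s u) ?_ ?_ ?_ ?_ hu'
      · rintro _ ⟨i, rfl⟩; exact h i
      · simp
      · intro x y _ _ hx hy; rw [map_add]; exact dvd_add hx hy
      · intro r x _ hx; rw [map_smul, smul_mq]; exact Dvd.dvd.mul_left hx _
    obtain ⟨i, hi⟩ := this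
    obtain ⟨b, hb, e⟩ := hs _ _ (hm i)
    obtain ⟨k, hk⟩ := not_dvd_X hF.rg hρ.not_isUnit
    refine ⟨X k ^ (A - a i) * b, mem_Id.mpr ⟨Ideal.mul_mem_left _ _ ⟨m i, e⟩, ?_⟩, fun h => ?_⟩
    · have := ((isHomogeneous_X ℂ k).pow (A - a i)).mul hb
      have h2 := hA i
      rwa [show 1 * (A - a i) + (a i + j) = A + j by omega] at this
    · rw [map_mul, map_pow] at h
      rcases hρ.dvd_or_dvd h with h | h
      · exact hk (hρ.dvd_of_dvd_pow h)
      · exact hi (e ▸ h)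
  · rintro ⟨D, hD⟩
    refine hc ⟨D, fun x hx => SetLike.le_def.mp (sup_le_sup_right (sup_le ?_ ?_) _) (hD x hx)⟩
    · rw [Ideal.span_singleton_le_iff_mem]
      exact ⟨0, by rw [map_zero]; exact mq_F.symm⟩
    · exact Ideal.span_le.mpr fun y hy => hy.1

omit [Algebra ℂ B] in
theorem wc_lin (c : ℕ) : wc B c = linForm ![(c : B) ^ 3, (c : B) ^ 2, c, 1] := by
  simp [wc, linForm, Fin.sum_univ_four]
  ring

end RepP

open RepP

theorem repEx : S_RepEx := by
  intro F hF E j s hs hp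
  refine (good_c hF hs hp).subset fun c hc h => hc ?_
  obtain ⟨D, hD⟩ := h
  have hI := homI_vals hF.hom hs
  obtain ⟨a1, n1, d1, m1, e1, f1, k1⟩ := exists_monic hI (wc_hom c) hD 2 j
  obtain ⟨a2, n2, d2, m2, e2, f2, k2⟩ := exists_monic hI (wc_hom c) hD 1 j
  let x : Box ℂ := ⟨c, (eval ![1, 0, 0, -(c : ℂ) ^ 3] (bc F ℂ))⁻¹, bc F ℂ, a1, a2, n1, n2⟩
  have hx : x.Ok := ⟨hF.bc.hom, inv_mul_cancel₀ (hF.bc.eval_ne c), m1, e1, m2, e2⟩
  have g1 : x.g1.IsHomogeneous (d1 + j) := f1 ▸ hm_hom (isHomogeneous_X ℂ 2) (wc_hom c) a1 _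
  have g2 : x.g2.IsHomogeneous (d2 + j) := f2 ▸ hm_hom (isHomogeneous_X ℂ 1) (wc_hom c) a2 _
  obtain ⟨t1, ht1, s1⟩ := RepP.exists_hom hF.hom hs g1 k1
  obtain ⟨t2, ht2, s2⟩ := RepP.exists_hom hF.hom hs g2 k2
  obtain ⟨ω, hω⟩ := E.exists_pairing
  obtain ⟨G, hG, eG⟩ := hω.hom _ _ t1 ht1 t2 ht2
  obtain ⟨r1, r2, -⟩ := box ℂ x hx
  exact ⟨x.mu.comp (LinearMap.mulLeft ℂ G), x, ω, t1, t2, d1, d2, G, hx, rfl, rfl, f1, f2,
    ⟨hω, hs, ht1, ht2, g1, g2, hG, s1, s2, eG, r1, r2⟩, fun _ => rfl⟩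

theorem repRad (hL : S_Lam) : S_RepRad := by
  rintro F hR B _ _ E c j s Λ ⟨x, ω, t1, t2, d1, d2, G, hx, rfl, hF, f1, f2, hS, hΛ⟩
  obtain ⟨-, -, b3, b4, b5, -⟩ := box B x hx
  obtain ⟨-, l2, l3, -⟩ := hL F hR B E ω j s t1 t2 d1 d2 x.g1 x.g2 G hS
  refine ⟨fun a => ?_, fun a ha => ?_, fun b d hb => ⟨fun h => ?_, fun h a => ?_⟩⟩
  · rw [hΛ, hΛ, mul_left_comm, (b3 _).2.2.2]
  · rw [hΛ]
    exact b4 _ _ (hS.hG.mul ha) (by omega)
  · refine l2 b ?_
    rw [← hF]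
    refine b5 _ _ (hb.mul hS.hG) fun a => ?_
    rw [← h a, hΛ]
    congr 1
    ring
  · obtain ⟨k, hk⟩ := pow_U_mem (Ideal.span {bc F B, x.g1, x.g2}) (b * G)
      ![(x.c : B) ^ 3, (x.c : B) ^ 2, x.c, 1] fun i => by
        obtain ⟨k, u, hu⟩ := mem_satI.mp h i
        exact ⟨k, by rw [← mul_assoc]; exact l3 _ u hu⟩
    rw [← wc_lin, ← hF] at hk
    have h1 : ∀ (k : ℕ) (y : Pol B), x.mu (wc B x.c ^ k * y) = x.mu y := by
      intro k y
      induction k with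
      | zero => rw [pow_zero, one_mul]
      | succ k ih => rw [pow_succ', mul_assoc, (b3 _).2.2.2, ih]
    have h2 : ∀ y ∈ Ideal.span {x.F, x.g1, x.g2}, ∀ z, x.mu (y * z) = 0 := by
      intro y hy
      refine (Ideal.span_le (I := rad x.mu)).mpr ?_ hy
      rintro _ (rfl | rfl | rfl) z
      exacts [(b3 z).1, (b3 z).2.1, (b3 z).2.2.1]
    rw [hΛ, ← h1 k, ← h2 _ hk a]
    congr 1
    ring

theorem filtOf : S_FiltOf := by
  intro Λ w r n h1 hw hr hn
  let ev := Ideal.Quotient.mkₐ ℂ (rad Λ)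
  have hs : Function.Surjective ev := Ideal.Quotient.mkₐ_surjective ℂ _
  have hw1 : ev w = 1 := by
    rw [← map_one ev]
    exact Ideal.Quotient.eq.mpr fun b => by rw [sub_mul, one_mul, map_sub, hw, sub_self]
  obtain ⟨d, hd⟩ := Filter.eventually_atTop.mp hn
  have e1 : finrank ℂ (V ev d) = n := hd d le_rfl
  have e2 : finrank ℂ (V ev (d + 1)) = n := hd (d + 1) (Nat.le_succ d)
  have ht : V ev d = ⊤ := V_top h1 hw1 hs
    (Submodule.eq_of_le_of_finrank_eq (V_mono h1 hw1 (Nat.le_succ d)) (e1.trans e2.symm)).ge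
  let lam : (Pol ℂ ⧸ rad Λ) →ₗ[ℂ] ℂ :=
    (Submodule.liftQ ((rad Λ).restrictScalars ℂ) Λ fun a ha => by simpa using ha 1).comp
      (Submodule.Quotient.restrictScalarsEquiv ℂ (rad Λ)).symm.toLinearMap
  have hl : ∀ a, lam (ev a) = Λ a := fun a => rfl
  refine ⟨lam, ⟨fin_of_top ht, hs, h1, hw1, fun a ha => ?_, fun a ha => (hl a).trans (hr a ha)⟩,
    ?_, LinearMap.ext hl⟩
  · obtain ⟨a, rfl⟩ := hs a
    exact Ideal.Quotient.eq_zero_iff_mem.mpr fun b => by rw [← hl, map_mul, ha]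
  · rw [← e1, ht, finrank_top]

end Pool.Agent.P.MP_2b2d3b_ag
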