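import Pool.Agent.P.MP_2b2d3b_ag.StN
import Pool.Agent.P.MP_2b2d3b_ag.Rep

/-!
Package Rk1: a regular pair in finitely many ideals, and factorisation of rank one matrices.
-/

namespace Pool.Agent.P.MP_2b2d3b_ag

open MvPolynomial

namespace NRk1P

theorem exists_common {κ : Type} [Fintype κ] {I : κ → Ideal (Pol ℂ)} (hI : ∀ b, HomI (I b))
    {w : Pol ℂ} (h1 : w.IsHomogeneous 1) {D : ℕ}
    (hD : ∀ b, ∀ a : Pol ℂ, a.IsHomogeneous D → a ∈ I b ⊔ Ideal.span {w}) (i : Fin 4) :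
    ∃ (a : Polynomial ℂ) (n : ℕ), a.Monic ∧ a.natDegree = n + 1 ∧
      ∀ b, hm (X i) w a (n + 1) ∈ I b := by
  choose p n d hp hn _ hmem using fun b => RepP.exists_monic (hI b) h1 (hD b) i 0
  have hprod : (∏ b, p b).Monic := Polynomial.monic_prod_of_monic _ _ fun b _ => hp b
  have hmon : ((∏ b, p b) * Polynomial.X).Monic := hprod.mul Polynomial.monic_X
  have hdeg : ((∏ b, p b) * Polynomial.X).natDegree = (∏ b, p b).natDegree + 1 :=
    Polynomial.natDegree_mul_X hprod.ne_zero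
  refine ⟨_, _, hmon, hdeg, fun b => ?_⟩
  obtain ⟨q, hq⟩ : p b ∣ (∏ b, p b) * Polynomial.X :=
    (Finset.dvd_prod_of_mem p (Finset.mem_univ b)).mul_right _
  have hq0 : q ≠ 0 := by
    rintro rfl
    exact hmon.ne_zero (by rw [hq, mul_zero])
  rw [← hdeg, hq, Polynomial.natDegree_mul (hp b).ne_zero hq0, hm_mul _ _ le_rfl le_rfl, hn]
  exact Ideal.mul_mem_right _ _ (hmem b)

/-- a matrix of rank one over a factorial domain is a product of a column and a row -/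
theorem factor {R α β : Type} [CommRing R] [IsDomain R] [UniqueFactorizationMonoid R] [Fintype α]
    (P : α → β → R) (h : ∀ x x' y y', P x y * P x' y' = P x y' * P x' y) :
    ∃ (ρ : α → R) (ρ' : β → R), ∀ x y, P x y = ρ x * ρ' y := by
  classical
  by_cases h0 : ∀ x y, P x y = 0
  · exact ⟨0, 0, fun x y => by simp [h0]⟩
  push Not at h0
  obtain ⟨x0, y0, h0⟩ := h0
  let _ := UniqueFactorizationMonoid.strongNormalizationMonoid (α := R)
  let _ := UniqueFactorizationMonoid.toNormalizedGCDMonoid R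
  obtain ⟨ρ, hρ, hg⟩ := Finset.extract_gcd (s := Finset.univ) (fun x => P x y0)
    ⟨x0, Finset.mem_univ _⟩
  set d := Finset.univ.gcd fun x => P x y0
  have e0 := hρ x0 (Finset.mem_univ _)
  have hd : d ≠ 0 := fun hd => h0 (by rw [e0, hd, zero_mul])
  have hx0 : ρ x0 ≠ 0 := fun hd => h0 (by rw [e0, hd, mul_zero])
  have key : ∀ x x' y, P x y * ρ x' = ρ x * P x' y := fun x x' y => by
    apply mul_left_cancel₀ hd
    have := h x x' y y0
    rw [hρ x (Finset.mem_univ _), hρ x' (Finset.mem_univ _)] at this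
    linear_combination this
  have hdvd : ∀ y, ρ x0 ∣ P x0 y := fun y => by
    have h1 : ρ x0 ∣ Finset.univ.gcd fun x => P x0 y * ρ x :=
      Finset.dvd_gcd fun x _ => ⟨_, key x0 x y⟩
    have h2 := h1.trans (Finset.gcd_mul_left' Finset.univ ρ (P x0 y)).dvd
    rwa [hg, mul_one] at h2
  choose ρ' hρ' using hdvd
  refine ⟨ρ, ρ', fun x y => ?_⟩
  apply mul_right_cancel₀ hx0
  rw [key x x0 y, hρ' y]
  ring

end NRk1P

theorem two : S_Two := by
  intro F hF κ _ I hI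
  choose L hL using fun b => (hI b).2
  have hfin := Set.finite_iUnion fun b => UfdP.mac_hilb (I b) (Finset.univ.sup L)
    ((hL b _).trans ((Finset.le_sup (f := L) (Finset.mem_univ b)).trans (Nat.le_succ _)))
  obtain ⟨c, hc⟩ := hfin.exists_notMem
  have hD : ∀ b, ∀ a : Pol ℂ, a.IsHomogeneous (Finset.univ.sup L + 1) →
      a ∈ I b ⊔ Ideal.span {wc ℂ c} := fun b => by
    by_contra hn
    exact hc (Set.mem_iUnion.mpr ⟨b, hn⟩)
  obtain ⟨a1, n1, m1, d1, h1⟩ := NRk1P.exists_common (fun b => (hI b).1) (wc_hom c) hD 2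
  obtain ⟨a2, n2, m2, d2, h2⟩ := NRk1P.exists_common (fun b => (hI b).1) (wc_hom c) hD 1
  let x : Box ℂ := ⟨c, (eval ![1, 0, 0, -(c : ℂ) ^ 3] F)⁻¹, F, a1, a2, n1, n2⟩
  have hx : x.Ok := ⟨hF.1, inv_mul_cancel₀ (hF.eval_wc_ne c), m1, d1, m2, d2⟩
  refine ⟨![x.g1, x.g2], ![n1 + 1, n2 + 1], fun r => ?_, fun hg => ?_, boxA2 x hx⟩
  · fin_cases r
    · exact ⟨hm_hom (isHomogeneous_X _ _) (wc_hom _) _ _, h1⟩
    · exact ⟨hm_hom (isHomogeneous_X _ _) (wc_hom _) _ _, h2⟩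
  · exact hF.prime.ne_top ((Ideal.eq_top_iff_one _).mpr
      (boxA1 x hx 1 (by rw [mul_one]; exact hg)))

theorem rk1 : S_Rk1 := by
  intro F hF α β _ _ h g P hg0 hg1 hrk hP
  by_cases h0 : ∀ a b, h a b ∈ Ideal.span {F}
  · exact ⟨0, 0, fun a b => by simpa using h0 a b⟩
  push Not at h0
  obtain ⟨a0, b0, h0⟩ := h0
  obtain ⟨ρ, ρ', hρ⟩ := NRk1P.factor P hrk
  simp only [hρ] at hP
  have cancel : ∀ u v : Pol ℂ, u ∉ Ideal.span {F} → u * v ∈ Ideal.span {F} →
      v ∈ Ideal.span {F} := fun u v hu huv => (hF.mem_or_mem huv).resolve_left hu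
  have hne : ρ (0, a0) * ρ' (0, b0) ∉ Ideal.span {F} := fun hm => by
    refine h0 (cancel _ _ hg0 (cancel _ _ hg0 ?_))
    have := Ideal.sub_mem _ hm (hP 0 a0 0 b0)
    convert this using 1
    ring
  have hl : ρ (0, a0) ∉ Ideal.span {F} := fun hm => hne (Ideal.mul_mem_right _ _ hm)
  have hr : ρ' (0, b0) ∉ Ideal.span {F} := fun hm => hne (Ideal.mul_mem_left _ _ hm)
  have div : ∀ u v : Pol ℂ, g 1 * u - g 0 * v ∈ Ideal.span {F} →
      ∃ s, u - g 0 * s ∈ Ideal.span {F} := fun u v huv => by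
    obtain ⟨t, ht⟩ := Ideal.mem_span_singleton'.mp huv
    obtain ⟨r, s, hs⟩ := Ideal.mem_span_pair.mp (hg1 u (Ideal.mem_span_pair.mpr
      ⟨t, v, by linear_combination ht⟩))
    exact ⟨s, Ideal.mem_span_singleton'.mpr ⟨r, by linear_combination hs⟩⟩
  choose σ hσ using fun a => div (ρ (0, a)) (ρ (1, a)) (cancel _ _ hr (by
    have := Ideal.sub_mem _ (Ideal.mul_mem_left _ (g 1) (hP 0 a 0 b0))
      (Ideal.mul_mem_left _ (g 0) (hP 1 a 0 b0))
    convert this using 1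
    ring))
  choose σ' hσ' using fun b => div (ρ' (0, b)) (ρ' (1, b)) (cancel _ _ hl (by
    have := Ideal.sub_mem _ (Ideal.mul_mem_left _ (g 1) (hP 0 a0 0 b))
      (Ideal.mul_mem_left _ (g 0) (hP 0 a0 1 b))
    convert this using 1
    ring))
  refine ⟨σ, σ', fun a b => cancel _ _ hg0 (cancel _ _ hg0 ?_)⟩
  have := Ideal.sub_mem _ (Ideal.add_mem _ (Ideal.mul_mem_right (ρ' (0, b)) _ (hσ a))
    (Ideal.mul_mem_left _ (g 0 * σ a) (hσ' b))) (hP 0 a 0 b)
  convert this using 1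
  ring

end Pool.Agent.P.MP_2b2d3b_ag
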