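import Pool.Agent.P.MP_2b2d3b_ag.StN

/-!
One parameter formal deformations of the coefficients of a very general sextic.
-/

namespace Pool.Agent.P.MP_2b2d3b_ag

open MvPolynomial

namespace NSigP

open scoped IntermediateField.algebraAdjoinAdjoin in
/-- lifting of a homomorphism from a field of characteristic zero to a complete ring, with
prescribed values on an algebraically independent family -/
theorem lift {K S ι : Type} [Field K] [CharZero K] [CommRing S] [Algebra ℚ S] (I : Ideal S)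
    [IsAdicComplete I S] (e : K →+* S ⧸ I) {κ : ι → K} (hκ : AlgebraicIndependent ℚ κ)
    (v : ι → S) (hv : ∀ i, Ideal.Quotient.mk I (v i) = e (κ i)) :
    ∃ σ : K →+* S, (∀ a, Ideal.Quotient.mk I (σ a) = e a) ∧ ∀ i, σ (κ i) = v i := by
  classical
  have h1 : AlgebraicIndepOn ℚ id (Set.range κ) := hκ.to_subtype_range
  obtain ⟨t, hzt, ht⟩ := exists_isTranscendenceBasis_superset h1
  have hb : AlgebraicIndependent ℚ ((↑) : t → K) := ht.1
  set A0 := Algebra.adjoin ℚ (Set.range ((↑) : t → K))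
  set E := IntermediateField.adjoin ℚ (Set.range ((↑) : t → K))
  have halg : Algebra.IsAlgebraic E K := ht.isAlgebraic_field
  have hsep : Algebra.IsSeparable E K := inferInstance
  have s1 : Algebra.FormallySmooth A0 E := .of_isLocalization (nonZeroDivisors _)
  have s2 : Algebra.FormallyEtale E K := Algebra.FormallyEtale.of_isSeparable _ K
  have s3 : Algebra.FormallySmooth A0 K := .comp _ E _
  have hu : ∀ s : K, ∃ u : S, Ideal.Quotient.mk I u = e s ∧ ∀ i, κ i = s → u = v i := by
    intro s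
    by_cases h : ∃ i, κ i = s
    · obtain ⟨i, rfl⟩ := h
      exact ⟨v i, hv i, fun j hj => by rw [hκ.injective hj]⟩
    · obtain ⟨u, hu⟩ := Ideal.Quotient.mk_surjective (e s)
      exact ⟨u, hu, fun i hi => absurd ⟨i, hi⟩ h⟩
  choose u hu1 hu2 using hu
  let j0 : MvPolynomial t ℚ →ₐ[ℚ] S := MvPolynomial.aeval fun s => u s
  let j1 : A0 →+* S := (j0.comp hb.aevalEquiv.symm.toAlgHom).toRingHom
  let _ : Algebra A0 S := j1.toAlgebra
  have hj0 : ∀ p : MvPolynomial t ℚ,
      Ideal.Quotient.mk I (j0 p) = e (MvPolynomial.aeval ((↑) : t → K) p) := by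
    intro p
    have h2 : (Ideal.Quotient.mk I).comp j0.toRingHom
        = e.comp (MvPolynomial.aeval ((↑) : t → K) : MvPolynomial t ℚ →ₐ[ℚ] K).toRingHom := by
      refine MvPolynomial.ringHom_ext' (RingHom.ext_rat _ _) fun s => ?_
      simp only [j0, RingHom.comp_apply, AlgHom.toRingHom_eq_coe, RingHom.coe_coe,
        MvPolynomial.aeval_X, hu1]
    exact RingHom.congr_fun h2 p
  let f : K →ₐ[A0] S ⧸ I :=
    { toRingHom := e
      commutes' := fun a => by
        obtain ⟨p, rfl⟩ := hb.aevalEquiv.surjective a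
        change _ = Ideal.Quotient.mk I (j0 (hb.aevalEquiv.symm (hb.aevalEquiv p)))
        rw [AlgEquiv.symm_apply_apply, hj0]
        rfl }
  obtain ⟨g, hg⟩ := Algebra.FormallySmooth.exists_mkₐ_comp_eq_of_isAdicComplete f
  refine ⟨g.toRingHom, fun a => AlgHom.congr_fun hg a, fun i => ?_⟩
  have h3 := g.commutes (hb.aevalEquiv (MvPolynomial.X ⟨κ i, hzt ⟨i, rfl⟩⟩))
  change g (MvPolynomial.aeval ((↑) : t → K) (MvPolynomial.X ⟨κ i, hzt ⟨i, rfl⟩⟩)) =
    j0 (hb.aevalEquiv.symm (hb.aevalEquiv _)) at h3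
  rw [AlgEquiv.symm_apply_apply, MvPolynomial.aeval_X] at h3
  simp only [j0, MvPolynomial.aeval_X] at h3
  exact h3.trans (hu2 _ i rfl)

theorem linForm_hom (c : Fin 4 → ℂ) : (linForm c).IsHomogeneous 1 :=
  IsHomogeneous.sum _ _ _ fun i _ => (isHomogeneous_X ℂ i).C_mul _

end NSigP

open NSigP

theorem sig : S_Sig := by
  intro F hF l
  set G : Pol ℂ := linForm (fun i => (l i : ℂ)) ^ 6 with hG
  have hGh : G.IsHomogeneous 6 := by simpa using (linForm_hom fun i => (l i : ℂ)).pow 6
  set I : Ideal (PowerSeries ℂ) := Ideal.span {PowerSeries.X} with hI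
  obtain ⟨σ, h1, h2⟩ := lift I ((Ideal.Quotient.mk I).comp PowerSeries.C) hF.2
    (fun m => PowerSeries.C (coeff m.1 F) + PowerSeries.X * PowerSeries.C (coeff m.1 G))
    (fun m => by
      rw [RingHom.comp_apply, Ideal.Quotient.eq, add_sub_cancel_left]
      exact Ideal.mul_mem_right _ _ (Ideal.mem_span_singleton_self _))
  refine ⟨σ, fun a => ?_, ?_⟩
  · have h3 := h1 a
    rw [RingHom.comp_apply, Ideal.Quotient.eq, hI, Ideal.mem_span_singleton,
      PowerSeries.X_dvd_iff, map_sub, PowerSeries.constantCoeff_C, sub_eq_zero] at h3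
    exact h3
  · refine MvPolynomial.ext _ _ fun m => ?_
    rw [coeff_add, coeff_C_mul, coeff_map, coeff_map, coeff_map]
    by_cases hm : m.degree = 6
    · exact h2 ⟨m, hm⟩
    · rw [hF.1.coeff_eq_zero hm, hGh.coeff_eq_zero hm]
      simp

end Pool.Agent.P.MP_2b2d3b_ag
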