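import Pool.Agent.P.MP_2b2d3b_ag.StN

/-!
A cocycle of rank one on the very general sextic lifts to all the thickenings.
-/

namespace Pool.Agent.P.MP_2b2d3b_ag

open MvPolynomial

namespace NTowerP

variable {n : Type} [Fintype n] [DecidableEq n]

theorem jj_le (G : Pol (PowerSeries ℂ)) (k : ℕ) : JJ G (k + 1) ≤ JJ G k := by
  rw [JJ, Ideal.span_le]
  rintro x (rfl | rfl)
  · exact Ideal.subset_span (by simp)
  · rw [pow_succ]
    exact Ideal.mul_mem_right _ _ (Ideal.subset_span (by simp))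

theorem g_mem (G : Pol (PowerSeries ℂ)) (k : ℕ) : io _ G ∈ JJ G k :=
  Ideal.subset_span (by simp)

theorem t_mem (G : Pol (PowerSeries ℂ)) (k : ℕ) : tt ^ k ∈ JJ G k :=
  Ideal.subset_span (by simp)

theorem span_le_jj (G : Pol (PowerSeries ℂ)) (k : ℕ) : Ideal.span {io _ G} ≤ JJ G k := by
  rw [Ideal.span_le, Set.singleton_subset_iff]
  exact g_mem G k

theorem jj_mul (G : Pol (PowerSeries ℂ)) (k : ℕ) :
    JJ G (k + 1) * JJ G (k + 1) ≤ JJ G (k + 1 + 1) := by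
  rw [Ideal.mul_le]
  intro r hr s hs
  obtain ⟨a, b, rfl⟩ := Ideal.mem_span_pair.mp hr
  obtain ⟨c, d, rfl⟩ := Ideal.mem_span_pair.mp hs
  refine Ideal.mem_span_pair.mpr
    ⟨a * (c * io _ G + d * tt ^ (k + 1)) + b * tt ^ (k + 1) * c, b * d * tt ^ k, ?_⟩
  ring

theorem pw_le (f : Lr ℂ) (k : ℕ) : Ideal.span {f ^ (k + 1)} ≤ Ideal.span {f ^ k} :=
  Ideal.span_singleton_le_span_singleton.mpr (pow_dvd_pow f (Nat.le_succ k))

theorem pw_mul (f : Lr ℂ) (k : ℕ) :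
    Ideal.span {f ^ (k + 1)} * Ideal.span {f ^ (k + 1)} ≤ Ideal.span {f ^ (k + 1 + 1)} := by
  rw [Ideal.span_singleton_mul_span_singleton, ← pow_add]
  exact Ideal.span_singleton_le_span_singleton.mpr (pow_dvd_pow f (by omega))

theorem two_unit : IsUnit (2 : Lr ℂ) := by
  have := (IsUnit.mk0 (2 : ℂ) two_ne_zero).map (algebraMap ℂ (Lr ℂ))
  rwa [map_ofNat] at this

omit [DecidableEq n] in
theorem ob_mem {B : Type} [CommRing B] {φ : Fin 3 → Fin 3 → Matrix n n (Lr B)}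
    (h : Ent (R0 B) φ) : ob φ ∈ T B Finset.univ 0 := by
  have h1 : ∀ i j a b, φ i j a b ∈ T B Finset.univ 0 := fun i j a b =>
    T_mono (Finset.subset_univ _) 0 (h i j a b)
  refine sub_mem ?_ (one_mem_T _)
  simp only [Matrix.trace, Matrix.diag, Matrix.mul_apply]
  refine Submodule.sum_mem _ fun a _ => Submodule.sum_mem _ fun b _ => ?_
  have h2 : ∑ c, φ 0 1 a c * φ 1 2 c b ∈ T B Finset.univ 0 :=
    Submodule.sum_mem _ fun c _ => by simpa using T_mul (h1 0 1 a c) (h1 1 2 c b)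
  simpa using T_mul h2 (h1 2 0 b a)

/-- the data of a first order direction -/
structure Dir (F : Pol ℂ) (σ : ℂ →+* PowerSeries ℂ) (L : Lr ℂ) : Prop where
  cc : ∀ a, PowerSeries.constantCoeff (σ a) = a
  eq : io _ (map σ F) = cst (io ℂ F) + tt * cst (L ^ 6)

theorem Dir.comp {F : Pol ℂ} {σ : ℂ →+* PowerSeries ℂ} {L : Lr ℂ} (h : Dir F σ L) :
    (PowerSeries.constantCoeff : PowerSeries ℂ →+* ℂ).comp σ = RingHom.id ℂ :=
  RingHom.ext h.cc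

theorem Dir.map_cc {F : Pol ℂ} {σ : ℂ →+* PowerSeries ℂ} {L : Lr ℂ} (h : Dir F σ L) :
    map (PowerSeries.constantCoeff : PowerSeries ℂ →+* ℂ) (map σ F) = F := by
  rw [map_map, h.comp, map_id]

theorem Dir.pow_sub {F : Pol ℂ} {σ : ℂ →+* PowerSeries ℂ} {L : Lr ℂ} (h : Dir F σ L) (m k : ℕ) :
    cst (io ℂ F ^ m) - tt ^ m * cst ((-1) ^ m * L ^ (m * 6)) ∈ JJ (map σ F) k := by
  refine span_le_jj _ k (Ideal.mem_span_singleton.mpr ?_)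
  have h1 := sub_dvd_pow_sub_pow (cst (io ℂ F)) (-(tt * cst (L ^ 6))) m
  rw [sub_neg_eq_add, ← h.eq] at h1
  convert h1 using 2
  · rw [map_pow]
  · rw [neg_pow (tt * cst (L ^ 6)), mul_comm m 6, pow_mul, map_mul, map_pow,
      map_pow cst (L ^ 6), map_neg, map_one]
    ring

theorem Dir.cst_mem {F : Pol ℂ} {σ : ℂ →+* PowerSeries ℂ} {L : Lr ℂ} (h : Dir F σ L) (m : ℕ) :
    ∀ a ∈ Ideal.span {io ℂ F ^ m}, cst a ∈ JJ (map σ F) m := by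
  intro a ha
  obtain ⟨b, rfl⟩ := Ideal.mem_span_singleton.mp ha
  rw [map_mul]
  refine Ideal.mul_mem_right _ _ ?_
  simpa using add_mem (h.pow_sub m m) (Ideal.mul_mem_right (cst ((-1) ^ m * L ^ (m * 6))) _
    (t_mem (map σ F) m))

omit [DecidableEq n] in
theorem coc_jj {F : Pol ℂ} {σ : ℂ →+* PowerSeries ℂ}
    {φ : Fin 3 → Fin 3 → Matrix n n (Lr ℂ)} (hφ : Coc (Ideal.span {io ℂ F}) φ) (k : ℕ) :
    Coc (JJ (map σ F) k) (mp (mapL σ) φ) := by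
  refine hφ.map (mapL σ) fun a ha => ?_
  obtain ⟨b, rfl⟩ := Ideal.mem_span_singleton.mp ha
  rw [map_mul, mapL_io]
  exact Ideal.mul_mem_right _ _ (g_mem _ k)

theorem exists_dir (Sig : S_Sig) {F : Pol ℂ} (hF : IndepCoeff F) (l : Fin 4 → ℕ) :
    ∃ σ : ℂ →+* PowerSeries ℂ, Dir F σ (io ℂ (linForm fun i => (l i : ℂ))) := by
  obtain ⟨σ, h1, h2⟩ := Sig F hF l
  refine ⟨σ, h1, ?_⟩
  rw [h2, map_add, map_mul, ← mapL_io, ← mapL_io, map_pow (io ℂ)]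
  have : io (PowerSeries ℂ) (C PowerSeries.X) = tt := (io (PowerSeries ℂ)).commutes _
  rw [this]
  rfl

/-- the invariant of the construction -/
structure Inv (F : Pol ℂ) (σ : (Fin 4 → ℕ) → ℂ →+* PowerSeries ℂ)
    (φ : Fin 3 → Fin 3 → Matrix n n (Lr ℂ)) (k : ℕ)
    (Φ : Fin 3 → Fin 3 → Matrix n n (Lr ℂ)) : Prop where
  ent : Ent (R0 ℂ) Φ
  coc : Coc (Ideal.span {io ℂ F ^ (k + 1)}) Φ
  iso : ∀ l, IsoM (R0 _) (JJ (map (σ l) F) (k + 1)) (mp cst Φ) (mp (mapL (σ l)) φ)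

theorem inv_zero (TA : S_TA) {F : Pol ℂ} (hF : Mn F 6)
    {σ : (Fin 4 → ℕ) → ℂ →+* PowerSeries ℂ}
    (hσ : ∀ l, Dir F (σ l) (io ℂ (linForm fun i => (l i : ℂ))))
    {φ : Fin 3 → Fin 3 → Matrix n n (Lr ℂ)} (he : Ent (R0 ℂ) φ)
    (hφ : Coc (Ideal.span {io ℂ F}) φ) : Inv F σ φ 0 φ := by
  refine ⟨he, by simpa using hφ, fun l => IsoM.of_cong fun i j => Cong.symm fun a b => ?_⟩
  obtain ⟨-, -, h3, -⟩ := TA _ F (hF.map (σ l)) (hσ l).map_cc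
  obtain ⟨c, hc⟩ := h3 (mapL (σ l) (φ i j a b))
  rw [mapL_mapL, (hσ l).comp, mapL_id] at hc
  have h4 : mapL (σ l) (φ i j a b) - cst (φ i j a b) ∈ JJ (map (σ l) F) (0 + 1) := by
    rw [hc]
    exact Ideal.mul_mem_right _ _ (by simpa using t_mem (map (σ l) F) 1)
  exact h4

theorem inv_step (CDiv : S_CDiv) (H2 : S_H2) (TA : S_TA) (CocA0 : S_CocA0) (CocA1 : S_CocA1)
    (CocA2 : S_CocA2) (CocB : S_CocB) {F : Pol ℂ} (hF : Mn F 6)
    {σ : (Fin 4 → ℕ) → ℂ →+* PowerSeries ℂ}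
    (hσ : ∀ l, Dir F (σ l) (io ℂ (linForm fun i => (l i : ℂ))))
    {φ : Fin 3 → Fin 3 → Matrix n n (Lr ℂ)} (he : Ent (R0 ℂ) φ)
    (hφ : Coc (Ideal.span {io ℂ F}) φ) (k : ℕ) (Φ : Fin 3 → Fin 3 → Matrix n n (Lr ℂ))
    (h : Inv F σ φ k Φ) : ∃ Φ', Inv F σ φ (k + 1) Φ' ∧
      ∀ i j, Cong (Ideal.span {io ℂ F ^ (k + 1)}) (Φ' i j) (Φ i j) := by
  obtain ⟨φ1, e1, c1, p1⟩ := CocA0 _ n _ _ _ Φ two_unit (sys3_R0 ℂ) (pw_le (io ℂ F) (k + 1))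
    (pw_mul (io ℂ F) k) h.ent h.coc
  obtain ⟨c, hc⟩ := Ideal.mem_span_singleton.mp (h.coc.congr c1).ob_mem
  have hM : Mn (F ^ (k + 1)) ((k + 1) * 6) := (CDiv ℂ F 6 hF).2 (k + 1)
  have hcT : c ∈ T ℂ Finset.univ (-(((k + 1) * 6 : ℕ) : ℤ)) := by
    have := (CDiv ℂ _ _ hM).1.quot Finset.univ 0 c (by rw [map_pow, ← hc]; exact ob_mem e1)
    rwa [zero_sub] at this
  have hiso : ∀ (l : Fin 4 → ℕ) (φ2 : Fin 3 → Fin 3 → Matrix n n (Lr ℂ)),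
      (∀ i j, Cong (Ideal.span {io ℂ F ^ (k + 1)}) (φ2 i j) (Φ i j)) →
      IsoM (R0 _) (JJ (map (σ l) F) (k + 1)) (mp cst φ2) (mp (mapL (σ l)) φ) := fun l φ2 h2 =>
    (h.iso l).congr fun i j => (h2 i j).map cst ((hσ l).cst_mem (k + 1))
  obtain ⟨x, hx, hcx⟩ := H2 F hF ((k + 1) * 6) (by omega) c hcT fun l => by
    obtain ⟨ta, tb, -, -⟩ := TA _ F (hF.map (σ l)) (hσ l).map_cc
    obtain ⟨c01, c12, c20, r01, r12, r20, j01, j12, j20, hob⟩ := CocA2 _ n _ _ _ (mp cst φ1)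
      (mp (mapL (σ l)) φ) (sys3_R0 _) (jj_le (map (σ l) F) (k + 1)) (jj_mul (map (σ l) F) k)
      (e1.mapL _) (he.mapL _) (p1.map cst ((hσ l).cst_mem (k + 1 + 1)))
      (coc_jj hφ _) (hiso l φ1 c1)
    obtain ⟨d01, t01, s01⟩ := ta (k + 1) _ _ c01 r01 j01
    obtain ⟨d12, t12, s12⟩ := ta (k + 1) _ _ c12 r12 j12
    obtain ⟨d20, t20, s20⟩ := ta (k + 1) _ _ c20 r20 j20
    rw [ob_mp, hc, map_mul] at hob
    have h5 := Ideal.mul_mem_right (cst c) _ ((hσ l).pow_sub (k + 1) (k + 1 + 1))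
    have h6 : (-1) ^ (k + 1) * io ℂ (linForm fun i => (l i : ℂ)) ^ ((k + 1) * 6) * c -
        (d01 + d12 + d20) ∈ Ideal.span {io ℂ F} := by
      rw [← tb (k + 1)]
      convert sub_mem (add_mem (add_mem (add_mem hob s01) s12) s20) h5 using 1
      simp only [map_sub, map_add, map_mul]
      ring
    have h7 : d01 + d12 + d20 ∈ BB ℂ 0 :=
      add_mem (add_mem (Submodule.mem_sup_left (Submodule.mem_sup_left t01))
        (Submodule.mem_sup_left (Submodule.mem_sup_right t12))) (Submodule.mem_sup_right t20)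
    rcases neg_one_pow_eq_or (Lr ℂ) (k + 1) with h8 | h8
    · exact ⟨_, h7, by simpa [h8] using h6⟩
    · refine ⟨_, neg_mem h7, ?_⟩
      convert neg_mem h6 using 1
      rw [h8]
      ring
  obtain ⟨y, hy, x20, h20, rfl⟩ := Submodule.mem_sup.mp hx
  obtain ⟨x01, h01, x12, h12, rfl⟩ := Submodule.mem_sup.mp hy
  have hR : ∀ (S : Finset (Fin 3)) (z : Lr ℂ), z ∈ T ℂ S (-(((k + 1) * 6 : ℕ) : ℤ)) →
      io ℂ F ^ (k + 1) * z ∈ T ℂ S 0 := fun S z hz => by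
    have := T_mul (io_mem hM.hom S) hz
    rwa [add_neg_cancel, map_pow] at this
  have hJ : ∀ z : Lr ℂ, io ℂ F ^ (k + 1) * z ∈ Ideal.span {io ℂ F ^ (k + 1)} := fun z =>
    Ideal.mul_mem_right _ _ (Ideal.mem_span_singleton_self _)
  obtain ⟨φ2, e2, c2, k2⟩ := CocA1 _ n _ _ _ φ1 _ _ _ (sys3_R0 ℂ) (pw_le (io ℂ F) (k + 1))
    (pw_mul (io ℂ F) k) e1 p1 (hR _ _ h01) (hR _ _ h12) (hR _ _ h20) (hJ _) (hJ _) (hJ _) (by
      obtain ⟨u, hu⟩ := Ideal.mem_span_singleton.mp hcx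
      refine Ideal.mem_span_singleton.mpr ⟨u, ?_⟩
      rw [hc, ← mul_add, ← mul_add, ← mul_sub, hu]
      ring)
  have c3 : ∀ i j, Cong (Ideal.span {io ℂ F ^ (k + 1)}) (φ2 i j) (Φ i j) := fun i j =>
    (c2 i j).trans (c1 i j)
  refine ⟨φ2, ⟨e2, k2, fun l => ?_⟩, c3⟩
  exact CocB _ n _ _ _ _ _ (sys3_R0 _) (jj_le (map (σ l) F) (k + 1)) (jj_mul (map (σ l) F) k)
    (e2.mapL _) (he.mapL _) (k2.map cst ((hσ l).cst_mem (k + 1 + 1))) (coc_jj hφ _)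
    (hiso l φ2 c3) ((TA _ F (hF.map (σ l)) (hσ l).map_cc).2.2.2 (k + 1))

end NTowerP

open NTowerP in
theorem tower (Sig : S_Sig) (CDiv : S_CDiv) (H2 : S_H2) (TA : S_TA) (CocA0 : S_CocA0)
    (CocA1 : S_CocA1) (CocA2 : S_CocA2) (CocB : S_CocB) : S_Tower := by
  intro F hF n _ _ φ he hφ
  choose σ hσ using exists_dir Sig hF
  choose nx h1 h2 using inv_step CDiv H2 TA CocA0 CocA1 CocA2 CocB hF.mn hσ he hφ
  let s : ∀ k : ℕ, {Φ // Inv F σ φ k Φ} := fun k =>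
    Nat.rec ⟨φ, inv_zero TA hF.mn hσ he hφ⟩ (fun k p => ⟨nx k p.1 p.2, h1 k p.1 p.2⟩) k
  exact ⟨fun k => (s k).1, rfl, fun k => (s k).2.ent, fun k => (s k).2.coc,
    fun k => h2 k (s k).1 (s k).2⟩

end Pool.Agent.P.MP_2b2d3b_ag
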