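import Pool.Agent.P.MP_2b2d3b_ag.StN
import Pool.Agent.P.MP_2b2d3b_ag.Ufd

/-!
A graded domain in which the homogeneous primes of height one are principal is factorial.
-/

namespace Pool.Agent.P.MP_2b2d3b_ag

open MvPolynomial

namespace NUfdP

section Abs

variable {R : Type} [CommRing R]

/-- components of a grading -/
structure Cp (c : ℕ → R →+ R) (H : ℕ → R → Prop) : Prop where
  sum : ∀ r, ∃ N, (∀ d, N ≤ d → c d r = 0) ∧ ∑ d ∈ Finset.range N, c d r = r
  mem : ∀ d r, H d (c d r)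
  one : H 0 1
  mul : ∀ {m n x y}, H m x → H n y → H (m + n) (x * y)
  cmul : ∀ {n x}, H n x → ∀ d r, c (d + n) (x * r) = x * c d r
  clt : ∀ {n x}, H n x → ∀ d r, d < n → c d (x * r) = 0

/-- all components lie in the window of width `w` starting at `k` -/
def Win (c : ℕ → R →+ R) (k w : ℕ) (r : R) : Prop :=
  ∀ d, d < k ∨ k + w ≤ d → c d r = 0

variable {c : ℕ → R →+ R} {H : ℕ → R → Prop}

theorem Cp.exists_win (h : Cp c H) (r : R) : ∃ w k, Win c k w r := by
  obtain ⟨N, hN, -⟩ := h.sum r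
  exact ⟨N, 0, fun d hd => hN d (by omega)⟩

theorem Cp.zero_of_win (h : Cp c H) {r : R} {k : ℕ} (hr : Win c k 0 r) : r = 0 := by
  obtain ⟨N, -, hN⟩ := h.sum r
  rw [← hN]
  exact Finset.sum_eq_zero fun d _ => hr d (by omega)

theorem Cp.win_mul (h : Cp c H) {n k w : ℕ} {x r : R} (hx : H n x) (hr : Win c k w r) :
    Win c (k + n) w (x * r) := by
  intro d hd
  by_cases hn : d < n
  · exact h.clt hx d r hn
  · obtain ⟨e, rfl⟩ : ∃ e, d = e + n := ⟨d - n, by omega⟩
    rw [h.cmul hx, hr e (by omega), mul_zero]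

theorem Cp.win_cancel [IsDomain R] (h : Cp c H) {n k w : ℕ} {x r : R} (hx : H n x) (h0 : x ≠ 0)
    (hr : Win c k w (x * r)) : Win c (k - n) w r := by
  intro d hd
  have := hr (d + n) (by omega)
  rw [h.cmul hx] at this
  exact (mul_eq_zero.1 this).resolve_left h0

/-- pseudo-division by an element of minimal width -/
theorem Cp.pseudo [IsDomain R] (h : Cp c H) (q : Ideal R) {a : R} {m l : ℕ} (ha : a ∈ q)
    (hw : Win c m (l + 1) a) (ht : c (m + l) a ≠ 0)
    (hmin : ∀ b ∈ q, ∀ k, Win c k l b → b = 0) :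
    ∀ w k, ∀ b ∈ q, Win c k w b → ∃ n x, H n x ∧ x ≠ 0 ∧ a ∣ x * b := by
  intro w
  induction w with
  | zero =>
    intro k b _ hb
    exact ⟨0, 1, h.one, one_ne_zero, by rw [h.zero_of_win hb]; simp⟩
  | succ j ih =>
    intro k b hbq hb
    by_cases hj : j < l
    · refine ⟨0, 1, h.one, one_ne_zero, ?_⟩
      rw [hmin b hbq k fun d hd => hb d (by omega)]
      simp
    · have h1 := h.win_mul (h.mem (m + l) a) hb
      have h2 := h.win_mul (h.mem (k + j) b) hw
      obtain ⟨n, x, hx, hx0, hd⟩ := ih (k + (m + l)) (c (m + l) a * b - c (k + j) b * a)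
        (q.sub_mem (q.mul_mem_left _ hbq) (q.mul_mem_left _ ha)) (by
          intro d hd
          rw [map_sub]
          by_cases he : d = k + (m + l) + j
          · have e1 : c d (c (m + l) a * b) = c (m + l) a * c (k + j) b := by
              rw [← h.cmul (h.mem (m + l) a)]
              congr 2
              omega
            have e2 : c d (c (k + j) b * a) = c (k + j) b * c (m + l) a := by
              rw [← h.cmul (h.mem (k + j) b)]
              congr 2
              omega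
            rw [e1, e2, mul_comm, sub_self]
          · rw [h1 d (by omega), h2 d (by omega), sub_self])
      refine ⟨n + (m + l), x * c (m + l) a, h.mul hx (h.mem _ _), mul_ne_zero hx0 ht, ?_⟩
      have : x * c (m + l) a * b = x * (c (m + l) a * b - c (k + j) b * a) +
          x * c (k + j) b * a := by ring
      rw [this]
      exact dvd_add hd (dvd_mul_left _ _)

/-- induction over homogeneous elements -/
theorem hom_ind [IsDomain R] [WfDvdMonoid R]
    (hd : ∀ x y n, H n (x * y) → x * y ≠ 0 → (∃ m, H m x) ∧ ∃ m, H m y)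
    (hp : ∀ x n, H n x → Irreducible x → Prime x) (P : R → Prop) (hu : ∀ x, IsUnit x → P x)
    (hm : ∀ p x n, H n p → Prime p → P x → P (p * x)) :
    ∀ x : R, x ≠ 0 → (∃ n, H n x) → P x := by
  intro x
  induction x using WfDvdMonoid.induction_on_irreducible with
  | zero => exact fun h => absurd rfl h
  | unit u hu' => exact fun _ _ => hu u hu'
  | mul a i ha hi ih =>
    rintro h0 ⟨n, hn⟩
    obtain ⟨⟨m, h1⟩, h2⟩ := hd i a n hn h0
    exact hm i a m h1 (hp i m h1 hi) (ih ha h2)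

theorem Cp.ufd [IsDomain R] [WfDvdMonoid R] (h : Cp c H)
    (hd : ∀ x y n, H n (x * y) → x * y ≠ 0 → (∃ m, H m x) ∧ ∃ m, H m y)
    (hp : ∀ x n, H n x → Irreducible x → Prime x) : UniqueFactorizationMonoid R := by
  classical
  refine UniqueFactorizationMonoid.iff_exists_prime_mem_of_isPrime.2 fun q hq0 hq => ?_
  by_contra hno
  have hnh : ∀ x : R, x ≠ 0 → (∃ n, H n x) → x ∉ q :=
    hom_ind hd hp (fun x => x ∉ q) (fun x hx hxq => hq.ne_top (q.eq_top_of_isUnit_mem hxq hx))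
      fun p x _ _ hpp hx hpx => (hq.mem_or_mem hpx).elim (fun h1 => hno ⟨p, h1, hpp⟩) hx
  have hex : ∃ w, ∃ b ∈ q, b ≠ 0 ∧ ∃ k, Win c k w b := by
    obtain ⟨b, hb, hb0⟩ := Submodule.exists_mem_ne_zero_of_ne_bot hq0
    obtain ⟨w, k, hw⟩ := h.exists_win b
    exact ⟨w, b, hb, hb0, k, hw⟩
  have hs := Nat.find_spec hex
  have hmin := fun w => Nat.find_min hex (m := w)
  obtain ⟨l, hl⟩ : ∃ l, Nat.find hex = l + 1 := by
    refine Nat.exists_eq_succ_of_ne_zero fun h0 => ?_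
    obtain ⟨b, -, hb0, k, hw⟩ := hs
    rw [h0] at hw
    exact hb0 (h.zero_of_win hw)
  rw [hl] at hs hmin
  obtain ⟨a, ⟨haq, ha0, m, hw⟩, hamin⟩ := (wellFounded_dvdNotUnit (α := R)).has_min
    {b | b ∈ q ∧ b ≠ 0 ∧ ∃ k, Win c k (l + 1) b} hs
  have hz : ∀ b ∈ q, ∀ k, Win c k l b → b = 0 := fun b hb k hk => by
    by_contra hb0
    exact hmin l (Nat.lt_succ_self l) ⟨b, hb, hb0, k, hk⟩
  have ht : c (m + l) a ≠ 0 := fun h0 => ha0 (hz a haq m fun d hd => by
    by_cases he : d = m + l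
    · rw [he, h0]
    · exact hw d (by omega))
  have hcan : ∀ x : R, x ≠ 0 → (∃ n, H n x) → ∀ b, a ∣ x * b → a ∣ b := by
    refine hom_ind hd hp (fun x => ∀ b, a ∣ x * b → a ∣ b)
      (fun x hx b hb => hx.dvd_mul_left.1 hb) fun p x n hn hpp hx b hb => hx b ?_
    obtain ⟨y, hy⟩ := hb
    rcases hpp.dvd_or_dvd (a := a) (b := y) ⟨x * b, by rw [← hy, mul_assoc]⟩ with h1 | h1
    · obtain ⟨a', rfl⟩ := h1
      have ha' : a' ≠ 0 := right_ne_zero_of_mul ha0
      refine absurd ⟨ha', p, hpp.not_isUnit, mul_comm _ _⟩ (hamin a' ⟨?_, ha', m - n, ?_⟩)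
      · exact (hq.mem_or_mem haq).resolve_left (hnh p hpp.ne_zero ⟨n, hn⟩)
      · exact h.win_cancel hn hpp.ne_zero hw
    · obtain ⟨z, rfl⟩ := h1
      exact ⟨z, mul_left_cancel₀ hpp.ne_zero (by rw [← mul_assoc, hy]; ring)⟩
  have hqa : q = Ideal.span {a} := by
    refine le_antisymm (fun b hb => ?_) ((Ideal.span_singleton_le_iff_mem q).2 haq)
    obtain ⟨w, k, hk⟩ := h.exists_win b
    obtain ⟨n, x, hx, hx0, hxb⟩ := h.pseudo q haq hw ht hz w k b hb hk
    exact Ideal.mem_span_singleton.2 (hcan x hx0 ⟨n, hx⟩ b hxb)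
  exact hno ⟨a, haq, (Ideal.span_singleton_prime ha0).1 (hqa ▸ hq)⟩

end Abs

/-- the components in the quotient ring -/
noncomputable def cq {F : Pol ℂ} (hF : F.IsHomogeneous 6) (d : ℕ) :
    (Pol ℂ ⧸ Ideal.span {F}) →+ (Pol ℂ ⧸ Ideal.span {F}) :=
  QuotientAddGroup.map (Ideal.span {F}).toAddSubgroup (Ideal.span {F}).toAddSubgroup
    (homogeneousComponent d).toAddMonoidHom fun _ hx => comp_mem_one hF hx d

theorem cq_mk {F : Pol ℂ} (hF : F.IsHomogeneous 6) (d : ℕ) (a : Pol ℂ) :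
    cq hF d (Ideal.Quotient.mk _ a) = Ideal.Quotient.mk _ (homogeneousComponent d a) := rfl

/-- homogeneous elements of the quotient ring -/
def Hq (F : Pol ℂ) (n : ℕ) (x : Pol ℂ ⧸ Ideal.span {F}) : Prop :=
  ∃ a : Pol ℂ, a.IsHomogeneous n ∧ Ideal.Quotient.mk _ a = x

theorem cp_cq {F : Pol ℂ} (hF : F.IsHomogeneous 6) : Cp (cq hF) (Hq F) where
  sum r := by
    obtain ⟨a, rfl⟩ := Ideal.Quotient.mk_surjective r
    refine ⟨a.totalDegree + 1, fun d hd => ?_, ?_⟩
    · rw [cq_mk, homogeneousComponent_eq_zero d a (by omega), map_zero]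
    · simp only [cq_mk]
      rw [← map_sum, sum_homogeneousComponent]
  mem d r := by
    obtain ⟨a, rfl⟩ := Ideal.Quotient.mk_surjective r
    exact ⟨_, homogeneousComponent_isHomogeneous d a, rfl⟩
  one := ⟨1, isHomogeneous_one _ _, map_one _⟩
  mul := by
    rintro m n _ _ ⟨a, ha, rfl⟩ ⟨b, hb, rfl⟩
    exact ⟨a * b, ha.mul hb, map_mul _ _ _⟩
  cmul := by
    rintro n _ ⟨a, ha, rfl⟩ d r
    obtain ⟨b, rfl⟩ := Ideal.Quotient.mk_surjective r
    rw [← map_mul, cq_mk, cq_mk, mul_comm a b, comp_mul ha, map_mul, mul_comm]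
  clt := by
    rintro n _ ⟨a, ha, rfl⟩ d r hd
    obtain ⟨b, rfl⟩ := Ideal.Quotient.mk_surjective r
    rw [← map_mul, cq_mk, mul_comm a b, HilbP.comp_mul_lt ha b hd, map_zero]

attribute [local instance] MvPolynomial.gradedAlgebra in
/-- a minimal prime over an ideal spanned by two forms is homogeneous -/
theorem homI_min {F p : Pol ℂ} {k n : ℕ} (hF : F.IsHomogeneous k) (hp : p.IsHomogeneous n)
    {P : Ideal (Pol ℂ)} (hP : P ∈ (Ideal.span {F, p}).minimalPrimes) : HomI P := by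
  have h1 : P ≤ (P.homogeneousCore (homogeneousSubmodule (Fin 4) ℂ)).toIdeal := by
    refine hP.2 ⟨hP.1.1.homogeneousCore, ?_⟩ (Ideal.toIdeal_homogeneousCore_le _ _)
    rw [Ideal.span_le]
    rintro _ (rfl | rfl)
    · exact Ideal.mem_homogeneousCore_of_homogeneous_of_mem ⟨k, hF⟩
        (hP.1.2 (Ideal.subset_span (Or.inl rfl)))
    · exact Ideal.mem_homogeneousCore_of_homogeneous_of_mem ⟨n, hp⟩
        (hP.1.2 (Ideal.subset_span (Or.inr rfl)))
  intro b hb d
  have h2 := (P.homogeneousCore (homogeneousSubmodule (Fin 4) ℂ)).isHomogeneous d (h1 hb)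
  rw [← decomposition.decompose'_apply]
  exact Ideal.toIdeal_homogeneousCore_le _ _ h2

end NUfdP

open NUfdP

theorem nL : S_Inv → S_NL := by
  intro hI F hF
  have hpr := hF.prime
  have : IsDomain (Pol ℂ ⧸ Ideal.span {F}) := Ideal.Quotient.isDomain _
  refine (cp_cq hF.1).ufd ?_ ?_
  · rintro x y n ⟨e, he, hxy⟩ h0
    obtain ⟨a, rfl⟩ := Ideal.Quotient.mk_surjective x
    obtain ⟨b, rfl⟩ := Ideal.Quotient.mk_surjective y
    obtain ⟨a', b', m, k, ha, hb, -, haa, hbb⟩ := homDvd F a b e n hF.1 hpr he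
      (fun h => h0 (by rw [← hxy]; exact Ideal.Quotient.eq_zero_iff_mem.2 h))
      (by rw [← Ideal.Quotient.eq, map_mul, hxy])
    exact ⟨⟨m, a', ha, (Ideal.Quotient.eq.2 haa).symm⟩, k, b', hb, (Ideal.Quotient.eq.2 hbb).symm⟩
  · rintro _ n ⟨p, hp, rfl⟩ hi
    have hmem : ∀ v a : Pol ℂ, a ∈ Ideal.span {F, v} ↔
        Ideal.Quotient.mk (Ideal.span {F}) v ∣ Ideal.Quotient.mk _ a := by
      intro v a
      rw [Ideal.mem_span_pair]
      constructor
      · rintro ⟨s, t, rfl⟩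
        rw [map_add, map_mul, map_mul, Ideal.Quotient.eq_zero_iff_mem.2
          (Ideal.mem_span_singleton_self F), mul_zero, zero_add]
        exact dvd_mul_left _ _
      · rintro ⟨y, hy⟩
        obtain ⟨y, rfl⟩ := Ideal.Quotient.mk_surjective y
        rw [← map_mul, Ideal.Quotient.eq, Ideal.mem_span_singleton'] at hy
        obtain ⟨s, hs⟩ := hy
        exact ⟨s, y, by rw [hs]; ring⟩
    have hne : Ideal.span {F, p} ≠ ⊤ := fun h => hi.not_isUnit (isUnit_of_dvd_one (by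
      have := (hmem p 1).1 (h ▸ Submodule.mem_top)
      rwa [map_one] at this))
    obtain ⟨M, hM, hle⟩ := Ideal.exists_le_maximal _ hne
    have := hM.isPrime
    obtain ⟨P, hP, -⟩ := Ideal.exists_minimalPrimes_le hle
    obtain ⟨v, hv⟩ := hI F hF p P (fun h => hi.ne_zero (Ideal.Quotient.eq_zero_iff_mem.2 h)) hP
      (homI_min hF.1 hp hP)
    have hPp : P.IsPrime := hP.1.1
    have hnu : ¬ IsUnit (Ideal.Quotient.mk (Ideal.span {F}) v) := fun hu => hPp.ne_top (by
      rw [Ideal.eq_top_iff_one, hv, hmem]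
      exact hu.dvd)
    have hd : Ideal.Quotient.mk (Ideal.span {F}) v ∣ Ideal.Quotient.mk _ p := by
      rw [← hmem, ← hv]
      exact hP.1.2 (Ideal.subset_span (Or.inr rfl))
    have has : Associated (Ideal.Quotient.mk (Ideal.span {F}) v) (Ideal.Quotient.mk _ p) :=
      ((hi.dvd_iff.1 hd).resolve_left hnu).symm
    refine has.prime ⟨has.ne_zero_iff.2 hi.ne_zero, hnu, fun x y hxy => ?_⟩
    obtain ⟨a, rfl⟩ := Ideal.Quotient.mk_surjective x
    obtain ⟨b, rfl⟩ := Ideal.Quotient.mk_surjective y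
    rw [← map_mul, ← hmem, ← hv] at hxy
    rw [← hmem, ← hmem, ← hv]
    exact hPp.mem_or_mem hxy

end Pool.Agent.P.MP_2b2d3b_ag
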