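import Pool.Agent.P.MP_2b2d3b_ag.St2
import Pool.Agent.P.MP_2b2d3b_ag.Sch
import Pool.Agent.P.MP_2b2d3b_ag.Cover
import Pool.Agent.P.MP_2b2d3b_ag.DimP

/-! Semicontinuity of the second section and non reducedness of the planar component. -/

namespace Pool.Agent.P.MP_2b2d3b_ag

open CategoryTheory AlgebraicGeometry Module

namespace NonRedP

variable {F : Pol ℂ}

theorem two_ker {m n : Type} [Fintype m] [Fintype n] (Φ : Matrix m n ℂ)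
    (h : 2 ≤ finrank ℂ (LinearMap.ker Φ.mulVecLin)) :
    ∃ y1 y2 : n → ℂ, Φ.mulVec y1 = 0 ∧ Φ.mulVec y2 = 0 ∧ LinearIndependent ℂ ![y1, y2] := by
  obtain ⟨f, hf⟩ := exists_linearIndependent_of_le_finrank h
  refine ⟨f 0, f 1, (f 0).2, (f 1).2, ?_⟩
  have := hf.map' (LinearMap.ker Φ.mulVecLin).subtype (Submodule.ker_subtype _)
  have e : ![(f 0 : n → ℂ), f 1] = (LinearMap.ker Φ.mulVecLin).subtype ∘ f := by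
    funext i
    fin_cases i <;> rfl
  rwa [e]

/-- a complex point of the moduli space in a chart -/
theorem toPt (𝓜 : ModuliSpace F) {A : Type} [CommRing A] [Algebra ℂ A]
    {j : Spec (.of A) ⟶ 𝓜.M} (hj : IsOpenImmersion j) (ho : Ov 𝓜.π A j) (E : Family F ℂ)
    (h : 𝓜.pt E ∈ Set.range j) : ∃ t : A →ₐ[ℂ] ℂ, j (kp t) = 𝓜.pt E := by
  obtain ⟨t, ht⟩ := (pts nS 𝓜.M 𝓜.π 𝓜.lft).2.2.2.2.2.2.1 A ℂ j (𝓜.cl ℂ E) hj ho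
    (𝓜.overC ℂ E) h
  refine ⟨t, ?_⟩
  rw [← SchP.closed_pt, ht]
  rfl

/-- the fibre of the local family -/
theorem fib (hTr : S_Tr) (hPt : S_Pt) (hF : Hyp F) (𝓜 : ModuliSpace F) {A A' : Type} [CommRing A]
    [Algebra ℂ A] [CommRing A'] [Algebra ℂ A'] [Algebra.FiniteType ℂ A'] {ψ : A →ₐ[ℂ] A'}
    {j : Spec (.of A) ⟶ 𝓜.M} {E' : Family F A'}
    (hcl : 𝓜.cl A' E' = Spec.map (CommRingCat.ofHom (ψ : A →+* A')) ≫ j) (E : Family F ℂ)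
    (t' : A' →ₐ[ℂ] ℂ) (h : j (kp (t'.comp ψ)) = 𝓜.pt E) :
    ∃ E1 : Bundle F ℂ, IsPull t' E'.toBundle E1 ∧ Iso E.toBundle E1 := by
  obtain ⟨E1, h1⟩ := (hTr F hF).2.2.2.2.1 A' ℂ t' E'
  refine ⟨E1.toBundle, h1, ((hPt F hF 𝓜).2.1 E E1).1 ?_⟩
  rw [(hPt F hF 𝓜).1 A' E' t' E1 h1, hcl, Scheme.Hom.comp_apply, SchP.kp_comp, h]

theorem lift_ker {m n R : Type} [Fintype m] [Fintype n] [CommRing R] [Algebra ℂ R]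
    (χ : R →ₐ[ℂ] ℂ) (Φ : Matrix m n R) (Ψ : Matrix n m R) (u : R) (hu : IsUnit u)
    (h : u • Φ = Φ * Ψ * Φ) (y : n → ℂ) (hy : (Φ.map χ).mulVec y = 0) :
    ∃ z : n → R, Φ.mulVec z = 0 ∧ χ ∘ z = y := by
  obtain ⟨v, hv⟩ := hu.exists_left_inv
  set y' : n → R := fun i => algebraMap ℂ R (y i) with hy'
  have e0 : χ ∘ y' = y := by
    funext i
    simp [hy']
  have e1 : ∀ k, χ (Φ.mulVec y' k) = 0 := fun k => by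
    have := RingHom.map_mulVec (χ : R →+* ℂ) Φ y' k
    have e2 : (χ : R →+* ℂ) ∘ y' = y := e0
    rw [e2] at this
    exact this.trans (congrFun hy k)
  refine ⟨y' - v • Ψ.mulVec (Φ.mulVec y'), ?_, ?_⟩
  · rw [Matrix.mulVec_sub, Matrix.mulVec_smul, Matrix.mulVec_mulVec, Matrix.mulVec_mulVec, ← h,
      Matrix.smul_mulVec, smul_smul, hv, one_smul, sub_self]
  · funext i
    have e3 : χ (Ψ.mulVec (Φ.mulVec y') i) = 0 := by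
      rw [Matrix.mulVec, dotProduct, map_sum]
      exact Finset.sum_eq_zero fun k _ => by rw [map_mul, e1, mul_zero]
    simp only [Function.comp_apply, Pi.sub_apply, Pi.smul_apply, smul_eq_mul, map_sub, map_mul, e3,
      mul_zero, sub_zero]
    exact congrFun e0 i

theorem finiteType_dual : Algebra.FiniteType ℂ (DualNumber ℂ) :=
  have : Module.Finite ℂ (DualNumber ℂ) := inferInstanceAs (Module.Finite ℂ (ℂ × ℂ))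
  inferInstance

theorem closed_dual : IsLocalRing.closedPoint (DualNumber ℂ) = kp fstE := by
  refine PrimeSpectrum.ext ?_
  ext a
  change ¬ IsUnit a ↔ a.fst = 0
  rw [TrivSqZeroExt.isUnit_iff_isUnit_fst, isUnit_iff_ne_zero, not_not]

end NonRedP

open NonRedP

theorem j (hSys : S_Sys) (hTr : S_Tr) (hPt : S_Pt) : S_J := by
  intro F hF 𝓜 E0 h0 hcl
  obtain ⟨A, _, _, _, j, hj, ho, hx⟩ := (pts nS 𝓜.M 𝓜.π 𝓜.lft).2.2.2.2.2.2.2 (𝓜.pt E0)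
  obtain ⟨A', _, _, _, ψ, E', hψ, hE'⟩ := 𝓜.locSurj A j ho
  obtain ⟨m, n, _, _, Φ, hΦ1, hΦ2⟩ := hSys F hF.rg A' E'.toBundle
  obtain ⟨-, c2, -, c4⟩ := cover nS A A' ψ hψ
  obtain ⟨t0, ht0⟩ := toPt 𝓜 hj ho E0 hx
  obtain ⟨t0', rfl⟩ := c2 t0
  obtain ⟨h, hh, hsemi⟩ := semi A' m n Φ t0'
  obtain ⟨U, hU, hU1, hU2⟩ := c4 𝓜.M j hj h
  have hmem : 𝓜.pt E0 ∈ U := by
    rw [← ht0, ← SchP.kp_comp]
    exact hU1 (kp t0') hh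
  obtain ⟨_, ⟨hxU, hxj⟩, E, hE, rfl⟩ := mem_closure_iff.1 hcl _
    (hU.inter j.isOpenEmbedding.isOpen_range) ⟨hmem, hx⟩
  obtain ⟨t, ht⟩ := toPt 𝓜 hj ho E hxj
  obtain ⟨t', rfl, ht'⟩ := hU2 t (ht ▸ hxU)
  obtain ⟨E1, p1, i1⟩ := fib hTr hPt hF 𝓜 hE' E t' ht
  obtain ⟨E2, p2, i2⟩ := fib hTr hPt hF 𝓜 hE' E0 t0' ht0
  have iso := (hTr F hF).2.2.2.2.2.1
  obtain ⟨y1, y2, k1, k2, hy⟩ := two_ker _
    ((hΦ1 t' E1 p1 ((iso _ _ i1).2.1 hE)).trans (hsemi t' ht'))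
  exact h0 ((iso _ _ i2.symm).2.1 (hΦ2 ℂ t0' (AlgHom.id ℂ ℂ) E2 p2 y1 y2 k1 k2 hy))

theorem nonRed (hSys : S_Sys) (hTr : S_Tr) (hPt : S_Pt) : S_NonRed := by
  intro F hF 𝓜 η hη hcl hred
  have := finiteType_dual
  obtain ⟨A, _, _, _, j, hj, ho, p, rfl⟩ := (pts nS 𝓜.M 𝓜.π 𝓜.lft).2.2.2.2.2.2.2 η
  obtain ⟨A', _, _, _, ψ, E', hψ, hE'⟩ := 𝓜.locSurj A j ho
  obtain ⟨m, n, _, _, Φ, hΦ1, hΦ2⟩ := hSys F hF.rg A' E'.toBundle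
  obtain ⟨-, -, c3, c4⟩ := cover nS A A' ψ hψ
  obtain ⟨q, h, Ψ, hq, hh, hΨ⟩ := red 𝓜.M A A' ψ j p hψ hj hη hred m n Φ
  obtain ⟨U, hU, hU1, hU2⟩ := c4 𝓜.M j hj h
  have hmem : j p ∈ U := hq ▸ hU1 q hh
  obtain ⟨_, ⟨hxU, hxj⟩, E, hE, ⟨𝓔, E'', hn, pE, iE⟩, rfl⟩ := mem_closure_iff.1 hcl _
    (hU.inter j.isOpenEmbedding.isOpen_range) ⟨hmem, p, rfl⟩
  obtain ⟨t, ht⟩ := toPt 𝓜 hj ho E hxj
  obtain ⟨t', rfl, ht'⟩ := hU2 t (ht ▸ hxU)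
  obtain ⟨E1, p1, i1⟩ := fib hTr hPt hF 𝓜 hE' E t' ht
  obtain ⟨-, good, fam, -, pull, iso, sec⟩ := hTr F hF
  obtain ⟨y1, y2, k1, k2, hy⟩ := two_ker _ (hΦ1 t' E1 p1 ((iso _ _ i1).2.1 hE))
  obtain ⟨E3, rfl⟩ := fam E'' ((iso _ _ iE.symm).1 (good E))
  have hpt : 𝓜.cl (DualNumber ℂ) 𝓔 (kp fstE) = 𝓜.pt E := by
    rw [← (hPt F hF 𝓜).1 _ 𝓔 fstE E3 pE]
    exact ((hPt F hF 𝓜).2.1 E3 E).2 iE
  obtain ⟨τ, hτ⟩ := (pts nS 𝓜.M 𝓜.π 𝓜.lft).2.2.2.2.2.2.1 A (DualNumber ℂ) j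
    (𝓜.cl (DualNumber ℂ) 𝓔) hj ho (𝓜.overC _ 𝓔) (by rw [closed_dual, hpt]; exact hxj)
  have hτ1 : t'.comp ψ = fstE.comp τ := by
    refine SchP.kp_inj (j.isOpenEmbedding.injective ?_)
    rw [ht, ← hpt, ← hτ, Scheme.Hom.comp_apply, SchP.kp_comp]
  obtain ⟨τ', rfl, rfl⟩ := c3 τ t' hτ1
  have hu : IsUnit (τ' h) := by
    rw [TrivSqZeroExt.isUnit_iff_isUnit_fst, isUnit_iff_ne_zero]
    exact ht'
  have hΨ' : τ' h • Φ.map τ' = Φ.map τ' * Ψ.map τ' * Φ.map τ' := by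
    have := congrArg (fun M => M.map (τ' : A' →+* DualNumber ℂ)) hΨ
    simp only [Matrix.map_mul] at this
    refine Eq.trans ?_ this
    ext a b <;> simp
  obtain ⟨z1, l1, rfl⟩ := lift_ker fstE _ _ _ hu hΨ' y1 k1
  obtain ⟨z2, l2, rfl⟩ := lift_ker fstE _ _ _ hu hΨ' y2 k2
  obtain ⟨E2, p2⟩ := pull A' (DualNumber ℂ) τ' E'
  have two := hΦ2 (DualNumber ℂ) τ' fstE E2.toBundle p2 z1 z2 l1 l2 hy
  have e : 𝓜.cl (DualNumber ℂ) E2 = 𝓜.cl (DualNumber ℂ) 𝓔 := by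
    rw [𝓜.natural A' _ τ' E' E2 p2, hE', ← hτ, ← Category.assoc, ← Spec.map_comp]
    rfl
  obtain ⟨B, _, _, φ, E4, hφ, q1, q2⟩ := 𝓜.locInj _ E2 𝓔 e
  obtain ⟨-, d2, d3, -⟩ := cover nS (DualNumber ℂ) B φ hφ
  obtain ⟨s, hs⟩ := d2 fstE
  obtain ⟨σ, hσ, -⟩ := d3 (AlgHom.id ℂ _) s hs
  exact hn (sec _ B φ σ fstE _ _ E4 hσ q1 q2 two)

end Pool.Agent.P.MP_2b2d3b_ag
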