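import Pool.Agent.P.MP_2b2d3b_ag.St2

/-!
The obstruction space of a bundle with a section does not vanish.
-/

namespace Pool.Agent.P.MP_2b2d3b_ag

open MvPolynomial

namespace ObsP

/-- polynomials in the last three variables -/
abbrev P3 : Type := MvPolynomial (Fin 3) ℂ

theorem fs_rename (g : P3) : finSuccEquiv ℂ 3 (rename Fin.succ g) = Polynomial.C g := by
  induction g using MvPolynomial.induction_on with
  | C a =>
    rw [rename_C]
    exact (finSuccEquiv ℂ 3).commutes a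
  | add p q hp hq => rw [map_add, map_add, hp, hq, map_add]
  | mul_X p i hp => rw [map_mul, map_mul, hp, rename_X, finSuccEquiv_X_succ, map_mul]

theorem monic_six {F : Pol ℂ} (hF : F.IsHomogeneous 6) (h0 : coeff (Finsupp.single 0 6) F ≠ 0) :
    ∃ u v : ℂ, u * v = 1 ∧ (finSuccEquiv ℂ 3 (C v * F)).Monic ∧
      6 ≤ (finSuccEquiv ℂ 3 (C v * F)).natDegree := by
  obtain ⟨u, v, huv, hm⟩ := HilbP.exists_monic hF (IsUnit.mk0 _ h0)
  refine ⟨u, v, huv, hm, Polynomial.le_natDegree_of_ne_zero fun h => ?_⟩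
  have h1 := congrArg (coeff (0 : Fin 3 →₀ ℕ)) h
  have e : Finsupp.cons 6 (0 : Fin 3 →₀ ℕ) = Finsupp.single (0 : Fin 4) 6 := by
    ext i
    refine Fin.cases ?_ (fun j => ?_) i
    · simp
    · simp
  rw [finSuccEquiv_coeff_coeff, e, coeff_C_mul, coeff_zero] at h1
  exact mul_ne_zero (right_ne_zero_of_mul_eq_one huv) h0 h1

theorem coeff_X_pow_mul {δ : Fin 3 →₀ ℕ} {i : Fin 3} {N : ℕ} (h : δ i < N) (p : P3) :
    coeff δ (X i ^ N * p) = 0 := by
  classical
  rw [X_pow_eq_monomial, coeff_monomial_mul', if_neg]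
  rw [Finsupp.single_le_iff]
  omega

theorem tau_C_mul {R : Type} [CommRing R] (f : Polynomial R) (n : ℕ) (a : R) (p : Polynomial R) :
    tau f n (Polynomial.C a * p) = a * tau f n p := by
  rw [← Polynomial.smul_eq_C_mul, map_smul, smul_eq_mul]

/-- the socle computation -/
theorem not_mem {F : Pol ℂ} (hF : F.IsHomogeneous 6) (h0 : coeff (Finsupp.single 0 6) F ≠ 0)
    {a : P3} {δ : Fin 3 →₀ ℕ} {N : ℕ} (hδ : ∀ i, δ i < N) (ha : coeff δ a ≠ 0)
    (b1 b2 b3 : Pol ℂ) :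
    rename Fin.succ a * X 0 ^ 5 - (X 1 ^ N * b1 + X 2 ^ N * b2 + X 3 ^ N * b3) ∉
      Ideal.span {F} := by
  intro h
  obtain ⟨c, hc⟩ := Ideal.mem_span_singleton'.mp h
  obtain ⟨u, v, huv, hm, hd⟩ := monic_six hF h0
  have e0 : c * F = (C v * F) * (C u * c) := by
    rw [show (C v * F) * (C u * c) = C (u * v) * (c * F) by rw [map_mul]; ring, huv, map_one,
      one_mul]
  have e1 : finSuccEquiv ℂ 3 (X 1 ^ N) = Polynomial.C (X 0 ^ N) := by
    rw [map_pow, map_pow]; exact congrArg (· ^ N) (finSuccEquiv_X_succ (j := 0))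
  have e2 : finSuccEquiv ℂ 3 (X 2 ^ N) = Polynomial.C (X 1 ^ N) := by
    rw [map_pow, map_pow]; exact congrArg (· ^ N) (finSuccEquiv_X_succ (j := 1))
  have e3 : finSuccEquiv ℂ 3 (X 3 ^ N) = Polynomial.C (X 2 ^ N) := by
    rw [map_pow, map_pow]; exact congrArg (· ^ N) (finSuccEquiv_X_succ (j := 2))
  have e4 : tau (finSuccEquiv ℂ 3 (C v * F)) 5 (finSuccEquiv ℂ 3 (X 0 ^ 5)) = 1 := by
    rw [map_pow, finSuccEquiv_X_zero, tau_of_lt hm, Polynomial.coeff_X_pow_self]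
    rw [Polynomial.degree_X_pow, Polynomial.degree_eq_natDegree hm.ne_zero]
    exact_mod_cast hd
  have h1 := congrArg (fun p => tau (finSuccEquiv ℂ 3 (C v * F)) 5 (finSuccEquiv ℂ 3 p)) hc
  rw [e0, map_mul (finSuccEquiv ℂ 3) (C v * F), tau_mul_self hm, map_sub, map_add, map_add,
    map_mul _ (rename Fin.succ a), map_mul _ (X 1 ^ N), map_mul _ (X 2 ^ N), map_mul _ (X 3 ^ N),
    e1, e2, e3, fs_rename, map_sub, map_add, map_add, tau_C_mul, tau_C_mul, tau_C_mul, tau_C_mul,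
    e4, mul_one] at h1
  have h2 := congrArg (coeff δ) h1
  rw [coeff_zero, coeff_sub, coeff_add, coeff_add, coeff_X_pow_mul (hδ 0), coeff_X_pow_mul (hδ 1),
    coeff_X_pow_mul (hδ 2)] at h2
  exact ha (by simpa using h2.symm)

/-- the exponent of the `i`-th binary monomial -/
noncomputable def ex (i : Fin 12) : Fin 3 →₀ ℕ :=
  Finsupp.single (1 : Fin 3) (i : ℕ) + Finsupp.single (2 : Fin 3) (11 - (i : ℕ))

theorem ex_inj : Function.Injective ex := fun i j h => by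
  have := congrArg (fun m => m 1) h
  simp [ex] at this
  exact Fin.ext this

theorem ex_deg (i : Fin 12) : (ex i).degree = 11 := by
  have := i.2
  simp only [ex, map_add, Finsupp.degree_single]
  omega

/-- a form in the last three variables that lies in the ideal -/
theorem exists_form {I : Ideal (Pol ℂ)} (h : hilb I 11 ≤ 11) :
    ∃ g : P3, g ≠ 0 ∧ g.IsHomogeneous 11 ∧ rename Fin.succ g ∈ I := by
  classical
  have hh : ∀ i : Fin 12, (monomial (ex i) (1 : ℂ) : P3).IsHomogeneous 11 := fun i =>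
    isHomogeneous_monomial _ (ex_deg i)
  let v : Fin 12 → (homogeneousSubmodule (Fin 4) ℂ 11).map (Ideal.Quotient.mkₐ ℂ I).toLinearMap :=
    fun i => ⟨_, rename Fin.succ (monomial (ex i) (1 : ℂ)), (hh i).rename_isHomogeneous, rfl⟩
  have hv : ¬ LinearIndependent ℂ v := fun hl => by
    have := hl.fintype_card_le_finrank
    rw [Fintype.card_fin] at this
    unfold hilb at h
    omega
  obtain ⟨c, hc, i, hi⟩ := Fintype.not_linearIndependent_iff.mp hv
  refine ⟨∑ j, c j • monomial (ex j) (1 : ℂ), fun h0 => hi ?_, ?_, ?_⟩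
  · have := congrArg (coeff (ex i)) h0
    rw [coeff_sum, Finset.sum_eq_single i] at this
    · simpa using this
    · intro j _ hj
      rw [coeff_smul, coeff_monomial, if_neg fun e => hj (ex_inj e), smul_zero]
    · simp
  · exact Submodule.sum_mem (homogeneousSubmodule (Fin 3) ℂ 11) fun j _ =>
      Submodule.smul_mem _ _ (hh j)
  · rw [← Ideal.Quotient.eq_zero_iff_mem, ← Ideal.Quotient.mkₐ_eq_mk ℂ, map_sum, map_sum]
    have := congrArg Subtype.val hc
    simpa [v] using this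

variable {F : Pol ℂ} {E : Bundle F ℂ} {ω : E.M →ₗ[Pol ℂ] E.M →ₗ[Pol ℂ] Rq F ℂ}

theorem fun_cp (hF : F.IsHomogeneous 6) {j : ℕ} {s : E.M →ₗ[Pol ℂ] Rq F ℂ}
    (hs : IsFun E j s) (d : ℕ) (u : E.M) :
    s (E.gr.cp d u) = (grR hF ℂ).cp (d + j) (s u) := by
  induction u using E.gr.induction with
  | h0 => simp
  | hadd u v hu hv => simp only [map_add, hu, hv]
  | hom e u hu =>
    rw [Grading.cp_of_mem hu, Grading.cp_of_mem (G := grR hF ℂ) (hs e u hu)]
    by_cases h : d = e <;> simp [h]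

/-- a homogeneous section whose value is a form in the last three variables -/
theorem exists_sec (hF : F.IsHomogeneous 6) {s : E.M →ₗ[Pol ℂ] Rq F ℂ} (hs : IsFun E 1 s)
    (h : hilb (satI s) 11 ≤ 11) : ∃ (d : ℕ) (t : E.M) (g : P3), t ∈ E.gr.piece d ∧ g ≠ 0 ∧
      g.IsHomogeneous (d + 1) ∧ s t = mq F ℂ (rename Fin.succ g) := by
  obtain ⟨g, h0, hg, hI⟩ := exists_form h
  obtain ⟨k, u, e⟩ := mem_satI.mp hI 3
  have hg' : (X 2 ^ k * g : P3).IsHomogeneous (k + 10 + 1) := by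
    have := ((isHomogeneous_X ℂ (2 : Fin 3)).pow k).mul hg
    rwa [one_mul] at this
  have e' : (X 3 ^ k * rename Fin.succ g : Pol ℂ) = rename Fin.succ (X 2 ^ k * g) := by
    rw [map_mul, map_pow, rename_X]; rfl
  refine ⟨k + 10, E.gr.cp (k + 10) u, X 2 ^ k * g, E.gr.cp_mem _ _,
    mul_ne_zero (pow_ne_zero _ (X_ne_zero _)) h0, hg', ?_⟩
  rw [fun_cp hF hs, e, e']
  exact Grading.cp_self (G := grR hF ℂ) (mq_mem hg'.rename_isHomogeneous)

/-- the action of the coordinate ring on a section -/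
noncomputable def act (t : E.M) : Rq F ℂ →ₗ[Pol ℂ] E.M :=
  Submodule.liftQ (Ideal.span {bc F ℂ}) (LinearMap.toSpanSingleton (Pol ℂ) E.M t) fun _ ha =>
    E.kill (mq_zero.mpr ha) t

theorem act_mq (t : E.M) (a : Pol ℂ) : act t (mq F ℂ a) = a • t := rfl

theorem fun_act (l : E.M →ₗ[Pol ℂ] Rq F ℂ) (t : E.M) (r : Rq F ℂ) : l (act t r) = r * l t := by
  obtain ⟨a, rfl⟩ := mq_surj r
  rw [act_mq, map_smul, smul_mq]

theorem pair_ne (hH : Hyp F) (h : Pairing E ω) {m₁ m₂ : E.M}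
    (hi : ∀ x y : Pol ℂ, x • m₁ + y • m₂ = 0 →
      x ∈ Ideal.span {bc F ℂ} ∧ y ∈ Ideal.span {bc F ℂ}) : ω m₁ m₂ ≠ 0 := by
  intro h0
  have h1 : ∀ w, ω m₂ w = 0 := fun w => by
    obtain ⟨a, ha⟩ := mq_surj (ω m₂ w)
    obtain ⟨b, hb⟩ := mq_surj (ω w m₁)
    obtain ⟨k, hk⟩ := h.tor_pl hH.rg ha.symm hb.symm (c := 0) (by rw [h0, map_zero]) 3
    rw [zero_smul, add_zero, smul_add, ← mul_smul, ← mul_smul] at hk
    rw [← ha, mq_zero]
    exact hH.rg.nzd ℂ 3 k a (by decide) (hi _ _ hk).1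
  obtain ⟨k, hk⟩ := h.tor h1 3
  have h2 := (hi 0 (X 3 ^ k) (by rw [zero_smul, zero_add, hk])).2
  have h3 := hH.rg.nzd ℂ 3 k 1 (by decide) (by rwa [mul_one])
  exact hH.prime'.ne_top ((Ideal.eq_top_iff_one _).mpr h3)

theorem end0 (hH : Hyp F) (h : Pairing E ω) {t : E.M} {d m : ℕ} (ht : t ∈ E.gr.piece d)
    {μ : Pol ℂ} (hμ : μ.IsHomogeneous m) :
    E.gr.End0 (bc F ℂ) (2 * d + 1 + m) (μ • (act t).comp (ω t)) where
  deg e u hu := by
    obtain ⟨b, hb, eb⟩ := h.hom d e t ht u hu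
    rw [LinearMap.smul_apply, LinearMap.comp_apply, eb, act_mq]
    have := E.gr.smul_mem _ _ _ _ hμ (E.gr.smul_mem _ _ _ _ hb ht)
    rwa [show d + (d + e + 1) + m = e + (2 * d + 1 + m) by omega] at this
  trace m₁ m₂ σ a b c d' hi e1 e2 := by
    have := hH.dom
    have f1 := congrArg (ω.flip m₂) e1
    have f2 := congrArg (ω m₁) e2
    simp only [LinearMap.smul_apply, LinearMap.comp_apply, map_smul, map_add, fun_act,
      smul_mq] at f1 f2
    simp only [LinearMap.flip_apply, h.alt, h.skew t m₁] at f1 f2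
    rw [← mq_zero, map_add]
    refine (mul_eq_zero.mp ?_).resolve_right (pair_ne hH h hi)
    linear_combination -f1 - f2

/-- the wedge product of `s ∘ ψ` with `s` -/
theorem exists_wedge (hR : Rg F) (h : Pairing E ω) (s : E.M →ₗ[Pol ℂ] Rq F ℂ)
    (ψ : E.M →ₗ[Pol ℂ] E.M) :
    ∃ b : Pol ℂ, ∀ u v, s (ψ v) * s u - s (ψ u) * s v = mq F ℂ b * ω u v := by
  let β : E.M →ₗ[Pol ℂ] E.M →ₗ[Pol ℂ] Rq F ℂ := LinearMap.mk₂ (Pol ℂ)
    (fun u v => s (ψ v) * s u - s (ψ u) * s v)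
    (fun u u' v => by simp only [map_add]; ring)
    (fun c u v => by simp only [map_smul, smul_mq]; ring)
    (fun u v v' => by simp only [map_add]; ring)
    (fun c u v => by simp only [map_smul, smul_mq]; ring)
  obtain ⟨b, hb⟩ := h.wedge hR (β := β) fun u => sub_self _
  obtain ⟨b, rfl⟩ := mq_surj b
  exact ⟨b, hb⟩

end ObsP

open ObsP

theorem obs : S_Obs := by
  classical
  intro F hH E s hs _ hh
  obtain ⟨ω, hω⟩ := E.exists_pairing
  obtain ⟨d, t, g, ht, hg0, hg, hst⟩ := exists_sec hH.hom hs (hh 11)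
  obtain ⟨γ, hγ⟩ := ne_zero_iff.mp (mul_ne_zero hg0 hg0)
  have hγd : γ 0 + γ 1 + γ 2 = 2 * d + 2 := by
    by_contra hne
    refine hγ ((hg.mul hg).coeff_eq_zero ?_)
    rw [Finsupp.degree_eq_sum, Fin.sum_univ_three]
    omega
  let ν : Fin 3 →₀ ℕ := Finsupp.equivFunOnFinite.symm
    ![2 * d + 2 - γ 0, 2 * d + 3 - γ 1, 2 * d + 3 - γ 2]
  have hν : (monomial ν (1 : ℂ) : P3).IsHomogeneous (4 * d + 6) := isHomogeneous_monomial _ (by
    rw [Finsupp.degree_eq_sum, Fin.sum_univ_three]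
    simp [ν]
    omega)
  have hμ : (rename Fin.succ (monomial ν (1 : ℂ)) * X 0 ^ 5 : Pol ℂ).IsHomogeneous
      (4 * d + 6 + 1 * 5) := hν.rename_isHomogeneous.mul ((isHomogeneous_X ℂ 0).pow 5)
  have h0 := end0 hH hω ht hμ
  rw [show 2 * d + 1 + (4 * d + 6 + 1 * 5) = 3 * (2 * d + 4) by omega] at h0
  refine ⟨2 * d + 4, _, h0, ?_⟩
  rintro ⟨r, ψ₁, ψ₂, ψ₃, -, -, -, e⟩
  obtain ⟨b1, h1⟩ := exists_wedge hH.rg hω s ψ₁
  obtain ⟨b2, h2⟩ := exists_wedge hH.rg hω s ψ₂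
  obtain ⟨b3, h3⟩ := exists_wedge hH.rg hω s ψ₃
  let ρ : Fin 3 →₀ ℕ := Finsupp.equivFunOnFinite.symm ![r, r, r]
  have eρ : (X 1 * X 2 * X 3 : Pol ℂ) ^ r = rename Fin.succ (monomial ρ (1 : ℂ)) := by
    rw [monomial_eq, Finsupp.prod_fintype _ _ (by simp), Fin.prod_univ_three]
    simp [ρ, mul_pow]
  refine not_mem hH.hom (hH.ind.2.ne_zero ⟨Finsupp.single 0 6, by simp⟩)
    (a := monomial (ρ + ν) 1 * (g * g)) (δ := ρ + ν + γ) (N := 2 * d + 4 + r) (fun i => ?_)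
    (by rwa [coeff_monomial_mul, one_mul]) b1 b2 b3 ?_
  · fin_cases i <;> simp [ρ, ν] <;> omega
  · have key : mq F ℂ (rename Fin.succ (monomial (ρ + ν) 1 * (g * g)) * X 0 ^ 5 -
        (X 1 ^ (2 * d + 4 + r) * b1 + X 2 ^ (2 * d + 4 + r) * b2 + X 3 ^ (2 * d + 4 + r) * b3)) =
        0 := by
      refine hω.zero_of_mul' hH.rg fun u v => ?_
      have f1 := congrArg s (LinearMap.congr_fun e u)
      have f2 := congrArg s (LinearMap.congr_fun e v)
      have f3 := pluecker hH.rg hω.alt s u v t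
      rw [eρ] at f1 f2
      simp only [LinearMap.smul_apply, LinearMap.comp_apply, LinearMap.add_apply, map_smul,
        map_add, fun_act, smul_mq, hst] at f1 f2
      rw [hst, hω.skew t v] at f3
      rw [show (monomial (ρ + ν) 1 : P3) = monomial ρ 1 * monomial ν 1 by
        rw [monomial_mul, one_mul]]
      simp only [map_mul, map_sub, map_add] at f1 f2 ⊢
      linear_combination (s u) * f2 - (s v) * f1 +
        mq F ℂ (X 1 ^ (2 * d + 4 + r)) * h1 u v + mq F ℂ (X 2 ^ (2 * d + 4 + r)) * h2 u v +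
        mq F ℂ (X 3 ^ (2 * d + 4 + r)) * h3 u v +
        (mq F ℂ (rename Fin.succ (monomial ρ 1)) * mq F ℂ (rename Fin.succ (monomial ν 1)) *
          mq F ℂ (X 0 ^ 5) * mq F ℂ (rename Fin.succ g)) * f3
    rwa [mq_zero, bc_self] at key

end Pool.Agent.P.MP_2b2d3b_ag
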