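import Pool.Agent.P.MP_2b2d3b_ag.PfAlg
import Pool.Agent.P.MP_2b2d3b_ag.Hilb

/-!
The cubics in the Pfaffian ideal.
-/

namespace Pool.Agent.P.MP_2b2d3b_ag

open MvPolynomial Module

namespace PfAlgP

/-- the multiples of the quadrics by linear forms -/
noncomputable def Lq (p : Pf ℂ) : (Fin 3 → Hd 1) →ₗ[ℂ] Pol ℂ :=
  ∑ i, (LinearMap.mulRight ℂ (p.q i)).comp ((Hd 1).subtype.comp (LinearMap.proj i))

theorem Lq_apply (p : Pf ℂ) (a : Fin 3 → Hd 1) : Lq p a = ∑ i, (a i : Pol ℂ) * p.q i := by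
  simp [Lq]

theorem Id_le {p : Pf ℂ} (h : p.Hom) : Id p.I 3 ≤ LinearMap.range (Lq p) := by
  rintro b ⟨hb, hb3⟩
  obtain ⟨x, hx, y, hy, rfl⟩ := Submodule.mem_sup.1 (show b ∈ p.I from hb)
  obtain ⟨c, rfl⟩ := (Submodule.mem_span_range_iff_exists_fun _).1 hx
  obtain ⟨d, rfl⟩ := (Submodule.mem_span_range_iff_exists_fun _).1 hy
  refine ⟨fun i => ⟨homogeneousComponent 1 (c i), homogeneousComponent_isHomogeneous 1 _⟩, ?_⟩
  rw [← homogeneousComponent_eq_self (show IsHomogeneous _ 3 from hb3), map_add, map_sum, map_sum,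
    Lq_apply]
  simp only [smul_eq_mul]
  rw [Finset.sum_eq_zero (s := Finset.univ) fun j _ =>
      HilbP.comp_mul_lt (u_hom h j) (d j) (show 3 < 4 by norm_num), add_zero]
  exact Finset.sum_congr rfl fun i _ => (comp_mul (q_hom h i) (c i) 1).symm

theorem rank_le {p : Pf ℂ} (h : p.Hom) : finrank ℂ (LinearMap.range (Lq p)) ≤ 10 := by
  let v : Fin 2 → Fin 3 → Hd 1 := fun j i => ⟨p.φ i j, h.φ i j⟩
  have hk : ∀ j, v j ∈ LinearMap.ker (Lq p) := by
    intro j
    rw [LinearMap.mem_ker, Lq_apply, Fin.sum_univ_three, q0, q1, q2]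
    fin_cases j <;> simp only [v, Fin.zero_eta, Fin.mk_one] <;> ring
  by_cases hl : LinearIndependent ℂ v
  · have h1 := Submodule.finrank_mono (Submodule.span_le.2 (Set.range_subset_iff.2 hk))
    rw [finrank_span_eq_card hl] at h1
    have h2 := (Lq p).finrank_range_add_finrank_ker
    rw [Module.finrank_pi_fintype] at h2
    simp only [hd 1, Fintype.card_fin, Finset.sum_const, Finset.card_univ, smul_eq_mul] at h1 h2
    norm_num at h2
    omega
  · obtain ⟨g, hst, hne⟩ := Fintype.not_linearIndependent_iff.1 hl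
    obtain ⟨s, hs⟩ : ∃ s, s = g 0 := ⟨_, rfl⟩
    obtain ⟨t, ht⟩ : ∃ t, t = g 1 := ⟨_, rfl⟩
    rw [Fin.exists_fin_two, ← hs, ← ht] at hne
    rw [Fin.sum_univ_two, ← hs, ← ht] at hst
    have e : ∀ i, C s * p.φ i 0 + C t * p.φ i 1 = 0 := fun i => by
      have := congrArg (fun z : Fin 3 → Hd 1 => (z i : Pol ℂ)) hst
      simpa [v, smul_eq_C_mul] using this
    have hq : ∀ i, C s * p.q i = 0 ∧ C t * p.q i = 0 := by
      intro i
      fin_cases i
      · exact ⟨by
          change C s * p.q 0 = 0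
          rw [q0]; linear_combination p.φ 2 1 * e 1 - p.φ 1 1 * e 2, by
          change C t * p.q 0 = 0
          rw [q0]; linear_combination p.φ 1 0 * e 2 - p.φ 2 0 * e 1⟩
      · exact ⟨by
          change C s * p.q 1 = 0
          rw [q1]; linear_combination p.φ 0 1 * e 2 - p.φ 2 1 * e 0, by
          change C t * p.q 1 = 0
          rw [q1]; linear_combination p.φ 2 0 * e 0 - p.φ 0 0 * e 2⟩
      · exact ⟨by
          change C s * p.q 2 = 0
          rw [q2]; linear_combination p.φ 1 1 * e 0 - p.φ 0 1 * e 1, by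
          change C t * p.q 2 = 0
          rw [q2]; linear_combination p.φ 0 0 * e 1 - p.φ 1 0 * e 0⟩
    have hq0 : ∀ i, p.q i = 0 := fun i => by
      rcases hne with h0 | h0
      · exact (mul_eq_zero.1 (hq i).1).resolve_left (C_ne_zero.2 h0)
      · exact (mul_eq_zero.1 (hq i).2).resolve_left (C_ne_zero.2 h0)
    have : LinearMap.range (Lq p) = ⊥ :=
      LinearMap.range_eq_bot.2 (LinearMap.ext fun a => by simp [Lq_apply, hq0])
    rw [this, finrank_bot]
    norm_num

end PfAlgP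

open PfAlgP

theorem pfCub : S_PfCub := fun p h => by
  have h1 := HilbP.hilb_add_Id p.I 3
  have h2 := (Submodule.finrank_mono (Id_le h)).trans (rank_le h)
  rw [hd 3] at h1
  norm_num [Nat.choose] at h1
  omega

end Pool.Agent.P.MP_2b2d3b_ag
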