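import Pool.Agent.P.MP_2b2d3b_ag.St2
import Pool.Agent.P.MP_2b2d3b_ag.Box

/-!
Package PfFam: the bundles given by a Pfaffian presentation.
-/

namespace Pool.Agent.P.MP_2b2d3b_ag.PfFamP

open MvPolynomial Module Matrix

variable {F : Pol ℂ}

/-- the algebraic facts on a Pfaffian presentation -/
structure PfD (F : Pol ℂ) (p : Pf ℂ) : Prop where
  ne : bc F ℂ ≠ 0
  hom : (bc F ℂ).IsHomogeneous 6
  pf : p.pf = bc F ℂ
  tO : p.Th * p.Om = bc F ℂ • (1 : Matrix (Fin 6) (Fin 6) (Pol ℂ))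
  oT : p.Om * p.Th = bc F ℂ • (1 : Matrix (Fin 6) (Fin 6) (Pol ℂ))
  hT : ∀ i j, p.Th i j = 0 ∨ ∃ e, pfDeg i + pfDeg j + e = 5 ∧ (p.Th i j).IsHomogeneous e

theorem hom_div {G z : Pol ℂ} {k : ℕ} (hG : G.IsHomogeneous 6) (h0 : G ≠ 0)
    (h : (G * z).IsHomogeneous (k + 6)) : z.IsHomogeneous k := by
  have e := comp_mul hG z k
  rw [mul_comm z, homogeneousComponent_eq_self h, mul_comm G] at e
  rw [mul_right_cancel₀ h0 e]
  exact homogeneousComponent_isHomogeneous _ _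

theorem zero_of_lt {G z : Pol ℂ} {k : ℕ} (hG : G.IsHomogeneous 6) (h0 : G ≠ 0)
    (h : (G * z).IsHomogeneous k) (hk : k < 6) : z = 0 :=
  (mul_eq_zero.1 (eq_zero_of_hom hG h hk
    (Ideal.mul_mem_right _ _ (Ideal.mem_span_singleton_self _)))).resolve_left h0

theorem cp_smul_left {M : Type} [AddCommGroup M] [Module (Pol ℂ) M] (G : Grading ℂ M) {u : M}
    {e : ℕ} (hu : u ∈ G.piece e) (a : Pol ℂ) (k : ℕ) :
    G.cp (e + k) (a • u) = homogeneousComponent k a • u := by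
  induction a using MvPolynomial.induction_on' with
  | monomial s c =>
    have h : (monomial s c : Pol ℂ).IsHomogeneous s.degree := isHomogeneous_monomial _ rfl
    rw [Grading.cp_of_mem (G.smul_mem _ _ _ _ h hu), homogeneousComponent_of_mem h]
    by_cases hk : k = s.degree
    · rw [if_pos (by rw [hk]), if_pos hk]
    · rw [if_neg (by omega), if_neg hk, zero_smul]
  | add a b ha hb => rw [add_smul, map_add, ha, hb, map_add, add_smul]

theorem om_zero {B : Type} [CommRing B] (p : Pf B) (j : Fin 6) :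
    p.Om 0 j = ![0, p.q 0, p.q 1, p.q 2, p.u 1, -p.u 0] j := by
  fin_cases j <;> simp [Pf.Om, Pf.up]

theorem pf_mem {B : Type} [CommRing B] (p : Pf B) : p.pf ∈ p.I :=
  Ideal.add_mem _
    (Ideal.sum_mem _ fun i _ => Ideal.mul_mem_left _ _
      (Ideal.mem_sup_left (Ideal.subset_span ⟨i, rfl⟩)))
    (Ideal.sum_mem _ fun j _ => Ideal.mul_mem_left _ _
      (Ideal.mem_sup_right (Ideal.subset_span ⟨j, rfl⟩)))

theorem om_zero_mem {B : Type} [CommRing B] (p : Pf B) (j : Fin 6) : p.Om 0 j ∈ p.I := by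
  have hq : ∀ i, p.q i ∈ p.I := fun i => Ideal.mem_sup_left (Ideal.subset_span ⟨i, rfl⟩)
  have hu : ∀ i, p.u i ∈ p.I := fun i => Ideal.mem_sup_right (Ideal.subset_span ⟨i, rfl⟩)
  rw [om_zero]
  fin_cases j
  exacts [p.I.zero_mem, hq 0, hq 1, hq 2, hu 1, p.I.neg_mem (hu 0)]

variable {p : Pf ℂ} {E : Bundle F ℂ} {ω : E.M →ₗ[Pol ℂ] E.M →ₗ[Pol ℂ] Rq F ℂ} {m : Fin 6 → E.M}

theorem om_left (G : GramD E ω pfDeg p.Om m) (v : Fin 6 → Pol ℂ) (j : Fin 6) :
    ω (∑ i, v i • m i) (m j) = mq F ℂ ((v ᵥ* p.Om) j) := by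
  simp only [map_sum, map_smul, LinearMap.sum_apply, LinearMap.smul_apply, smul_mq, G.val,
    vecMul, dotProduct, map_mul]

theorem om_right (G : GramD E ω pfDeg p.Om m) (v : Fin 6 → Pol ℂ) (i : Fin 6) :
    ω (m i) (∑ j, v j • m j) = mq F ℂ ((p.Om *ᵥ v) i) := by
  simp only [map_sum, map_smul, smul_mq, G.val, mulVec, dotProduct, map_mul, mul_comm]

theorem exists_sum (G : GramD E ω pfDeg p.Om m) (u : E.M) :
    ∃ v : Fin 6 → Pol ℂ, ∑ i, v i • m i = u := by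
  have : u ∈ Submodule.span (Pol ℂ) (Set.range m) := by
    rw [G.span]
    trivial
  exact (Submodule.mem_span_range_iff_exists_fun _).1 this

theorem ker_of (D : PfD F p) (G : GramD E ω pfDeg p.Om m) (nd : ∀ u, (∀ v, ω u v = 0) → u = 0)
    (z : Fin 6 → Pol ℂ) : ∑ i, (z ᵥ* p.Th) i • m i = 0 := by
  refine nd _ fun v => ?_
  have : ω (∑ i, (z ᵥ* p.Th) i • m i) = 0 := LinearMap.ext_on_range G.span fun j => by
    rw [om_left G, vecMul_vecMul, D.tO, vecMul_smul, vecMul_one, Pi.smul_apply, smul_eq_mul,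
      map_mul, mq_F, zero_mul, LinearMap.zero_apply]
  rw [this, LinearMap.zero_apply]

theorem of_ker (D : PfD F p) (G : GramD E ω pfDeg p.Om m) {v : Fin 6 → Pol ℂ}
    (h : ∑ i, v i • m i = 0) : ∃ z, v ᵥ* p.Om = bc F ℂ • z ∧ v = z ᵥ* p.Th := by
  have h1 : ∀ j, ∃ c, c * bc F ℂ = (v ᵥ* p.Om) j := fun j => by
    rw [← Ideal.mem_span_singleton', ← mq_zero, ← om_left G, h, map_zero, LinearMap.zero_apply]
  choose z hz using h1
  have h2 : v ᵥ* p.Om = bc F ℂ • z := funext fun j => by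
    rw [← hz, Pi.smul_apply, smul_eq_mul, mul_comm]
  refine ⟨z, h2, funext fun i => mul_left_cancel₀ D.ne ?_⟩
  have h3 := congrArg (fun x => (x ᵥ* p.Th) i) h2
  simp only [vecMul_vecMul, D.oT, vecMul_smul, vecMul_one, smul_vecMul] at h3
  exact h3

theorem th_inj (D : PfD F p) {z : Fin 6 → Pol ℂ} (h : z ᵥ* p.Th = 0) : z = 0 := by
  funext i
  have h3 := congrArg (fun x => (x ᵥ* p.Om) i) h
  simp only [vecMul_vecMul, D.tO, vecMul_smul, vecMul_one, zero_vecMul] at h3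
  exact (mul_eq_zero.1 h3).resolve_left D.ne

/-- vectors of forms of prescribed degrees -/
noncomputable def HV (k : Fin 6 → ℕ) : Submodule ℂ (Fin 6 → Pol ℂ) :=
  Submodule.pi Set.univ fun i => Hd (k i)

theorem mem_HV {k : Fin 6 → ℕ} {v : Fin 6 → Pol ℂ} : v ∈ HV k ↔ ∀ i, (v i).IsHomogeneous (k i) :=
  ⟨fun h i => h i trivial, fun h i _ => h i⟩

/-- coordinates -/
noncomputable def hvEquiv (k : Fin 6 → ℕ) : HV k ≃ₗ[ℂ] ∀ i, Hd (k i) where
  toFun v i := ⟨v.1 i, mem_HV.1 v.2 i⟩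
  invFun v := ⟨fun i => v i, mem_HV.2 fun i => (v i).2⟩
  map_add' _ _ := rfl
  map_smul' _ _ := rfl
  left_inv _ := rfl
  right_inv _ := rfl

instance finite_Hd (d : ℕ) : Module.Finite ℂ (Hd d) :=
  Module.finite_of_finrank_pos (by rw [hd d]; exact Nat.choose_pos (by omega))

instance finite_HV (k : Fin 6 → ℕ) : Module.Finite ℂ (HV k) :=
  Module.Finite.equiv (hvEquiv k).symm

theorem finrank_HV (k : Fin 6 → ℕ) : finrank ℂ (HV k) = ∑ i, (k i + 3).choose 3 := by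
  rw [(hvEquiv k).finrank_eq, finrank_pi_fintype]
  exact Finset.sum_congr rfl fun i _ => hd _

theorem six_choose (n : ℕ) : 6 * (n + 3).choose 3 = (n + 1) * (n + 2) * (n + 3) := by
  induction n with
  | zero => rfl
  | succ n ih =>
    have h2 : 2 * (n + 3).choose 2 = (n + 2) * (n + 3) := by
      rw [Nat.choose_two_right, Nat.mul_div_cancel' (Nat.even_mul_pred_self _).two_dvd, mul_comm]
      rfl
    rw [show n + 1 + 3 = (n + 3) + 1 by ring, Nat.choose_succ_succ' (n + 3) 2, mul_add, ih]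
    nlinarith

theorem pfDeg_le (i : Fin 6) : pfDeg i ≤ 3 := by
  fin_cases i <;> simp [pfDeg]

theorem hasC2 (D : PfD F p) (G : GramD E ω pfDeg p.Om m) (nd : ∀ u, (∀ v, ω u v = 0) → u = 0) :
    E.HasC2 := by
  refine Filter.eventually_atTop.2 ⟨5, fun d hd5 => ?_⟩
  obtain ⟨n, rfl⟩ := Nat.exists_eq_add_of_le' hd5
  let : Module ℂ E.M := Module.compHom E.M (C : ℂ →+* Pol ℂ)
  let f2 : (Fin 6 → Pol ℂ) →ₗ[ℂ] E.M :=
    { toFun := fun v => ∑ i, v i • m i
      map_add' := fun v w => by simp only [Pi.add_apply, add_smul, Finset.sum_add_distrib]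
      map_smul' := fun c v => by
        change ∑ i, (c • v i) • m i = (C c : Pol ℂ) • ∑ i, v i • m i
        simp only [smul_eq_C_mul, mul_smul, Finset.smul_sum] }
  let f1 : (Fin 6 → Pol ℂ) →ₗ[ℂ] (Fin 6 → Pol ℂ) := (vecMulLinear p.Th).restrictScalars ℂ
  have h1 := rank_null f2 (HV fun i => n + 5 - pfDeg i)
  have e1 : (HV fun i => n + 5 - pfDeg i).map f2 =
      Submodule.span ℂ {u | u ∈ (⊤ : Submodule (Pol ℂ) E.M) ∧ u ∈ E.gr.piece (n + 5)} := by
    refine le_antisymm ?_ (Submodule.span_le.2 ?_)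
    · rintro _ ⟨v, hv, rfl⟩
      refine Submodule.subset_span ⟨trivial, ?_⟩
      change ∑ i, v i • m i ∈ _
      refine sum_mem fun i _ => ?_
      have := E.gr.smul_mem _ _ _ _ (mem_HV.1 hv i) (G.mem i)
      rwa [show pfDeg i + (n + 5 - pfDeg i) = n + 5 by have := pfDeg_le i; omega] at this
    · rintro u ⟨-, hu⟩
      obtain ⟨v, rfl⟩ := exists_sum G u
      refine ⟨fun i => homogeneousComponent (n + 5 - pfDeg i) (v i),
        mem_HV.2 fun i => homogeneousComponent_isHomogeneous _ _, ?_⟩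
      rw [← Grading.cp_self hu, map_sum]
      change ∑ i, homogeneousComponent (n + 5 - pfDeg i) (v i) • m i = _
      refine Finset.sum_congr rfl fun i _ => ?_
      rw [← cp_smul_left E.gr (G.mem i),
        show pfDeg i + (n + 5 - pfDeg i) = n + 5 by have := pfDeg_le i; omega]
  have e2 : LinearMap.ker f2 ⊓ (HV fun i => n + 5 - pfDeg i) =
      (HV fun i => n + pfDeg i).map f1 := by
    refine le_antisymm ?_ ?_
    · rintro v ⟨h0, hv⟩
      obtain ⟨z, hz, rfl⟩ := of_ker D G (v := v) h0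
      refine ⟨z, mem_HV.2 fun j => hom_div D.hom D.ne ?_, rfl⟩
      have := congrFun hz j
      rw [Pi.smul_apply, smul_eq_mul] at this
      rw [← this]
      refine IsHomogeneous.sum _ _ _ fun i _ => ?_
      have h := (mem_HV.1 hv i).mul (G.hom i j)
      rwa [show n + 5 - pfDeg i + (pfDeg i + pfDeg j + 1) = n + pfDeg j + 6 by
        have := pfDeg_le i; omega] at h
    · rintro _ ⟨z, hz, rfl⟩
      refine ⟨ker_of D G nd z, mem_HV.2 fun i => IsHomogeneous.sum _ _ _ fun j _ => ?_⟩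
      change (z j * p.Th j i).IsHomogeneous _
      rcases D.hT j i with h | ⟨e, he, h⟩
      · rw [h, mul_zero]
        exact isHomogeneous_zero _ _ _
      · have h' := (mem_HV.1 hz j).mul h
        rwa [show n + pfDeg j + e = n + 5 - pfDeg i by omega] at h'
  have inj : Function.Injective f1 := (injective_iff_map_eq_zero f1).2 fun z hz => th_inj D hz
  rw [e1, e2, ← (Submodule.equivMapOfInjective f1 inj _).finrank_eq, finrank_HV, finrank_HV,
    Fin.sum_univ_six, Fin.sum_univ_six] at h1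
  change E.hf ⊤ (n + 5) + ((n + 3).choose 3 + (n + 1 + 3).choose 3 + (n + 1 + 3).choose 3 +
    (n + 1 + 3).choose 3 + (n + 3 + 3).choose 3 + (n + 3 + 3).choose 3) = (n + 5 + 3).choose 3 +
    (n + 4 + 3).choose 3 + (n + 4 + 3).choose 3 + (n + 4 + 3).choose 3 + (n + 2 + 3).choose 3 +
    (n + 2 + 3).choose 3 at h1
  have c0 := six_choose n
  have c1 := six_choose (n + 1)
  have c2 := six_choose (n + 2)
  have c3 := six_choose (n + 3)
  have c4 := six_choose (n + 4)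
  have c5 := six_choose (n + 5)
  nlinarith

/-- every functional is the pairing with a section -/
theorem fun_rep (D : PfD F p) (G : GramD E ω pfDeg p.Om m) (nd : ∀ u, (∀ v, ω u v = 0) → u = 0)
    (l : E.M →ₗ[Pol ℂ] Rq F ℂ) (x : Fin 6 → Pol ℂ) (hx : ∀ i, mq F ℂ (x i) = l (m i)) :
    ∃ z, p.Th *ᵥ x = bc F ℂ • z ∧ l = ω.flip (∑ j, z j • m j) := by
  have h1 : ∀ j, ∃ c, c * bc F ℂ = (p.Th *ᵥ x) j := fun j => by
    have h := congrArg l (ker_of D G nd (Pi.single j 1))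
    rw [single_one_vecMul, map_zero] at h
    rw [← Ideal.mem_span_singleton', ← mq_zero, ← h]
    simp only [map_sum, map_smul, smul_mq, ← hx, mulVec, dotProduct, map_mul, row_apply]
  choose z hz using h1
  have h2 : p.Th *ᵥ x = bc F ℂ • z := funext fun j => by
    rw [← hz, Pi.smul_apply, smul_eq_mul, mul_comm]
  refine ⟨z, h2, LinearMap.ext_on_range G.span fun i => ?_⟩
  have h3 := congrArg (fun y => (p.Om *ᵥ y) i) h2
  simp only [mulVec_mulVec, D.oT, smul_mulVec, one_mulVec, mulVec_smul] at h3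
  rw [LinearMap.flip_apply, om_right G, ← hx, mul_left_cancel₀ D.ne h3]

theorem fun_rep_hom (D : PfD F p) (G : GramD E ω pfDeg p.Om m)
    (nd : ∀ u, (∀ v, ω u v = 0) → u = 0) {k : ℕ} {l : E.M →ₗ[Pol ℂ] Rq F ℂ} (hl : IsFun E k l) :
    ∃ z : Fin 6 → Pol ℂ, (∀ j n, pfDeg j + n = 5 + k → (bc F ℂ * z j).IsHomogeneous n) ∧
      l = ω.flip (∑ j, z j • m j) := by
  choose x h1 h2 using fun i => hl _ _ (G.mem i)
  obtain ⟨z, hz, e⟩ := fun_rep D G nd l x fun i => (h2 i).symm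
  refine ⟨z, fun j n hn => ?_, e⟩
  have := congrFun hz j
  rw [Pi.smul_apply, smul_eq_mul] at this
  rw [← this]
  refine IsHomogeneous.sum _ _ _ fun i _ => ?_
  change (p.Th j i * x i).IsHomogeneous _
  rcases D.hT j i with h | ⟨e, he, h⟩
  · rw [h, zero_mul]
    exact isHomogeneous_zero _ _ _
  · have h' := h.mul (h1 i)
    rwa [show e + (pfDeg i + k) = n by omega] at h'

theorem noFun (D : PfD F p) (G : GramD E ω pfDeg p.Om m) (nd : ∀ u, (∀ v, ω u v = 0) → u = 0) :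
    NoFun E 0 := fun l hl => by
  obtain ⟨z, hz, rfl⟩ := fun_rep_hom D G nd hl
  have : ∀ j, z j = 0 := fun j => zero_of_lt D.hom D.ne
    (hz j (5 - pfDeg j) (by have := pfDeg_le j; omega)) (by omega)
  simp [this]

theorem fun_one (D : PfD F p) (G : GramD E ω pfDeg p.Om m) (nd : ∀ u, (∀ v, ω u v = 0) → u = 0)
    {l : E.M →ₗ[Pol ℂ] Rq F ℂ} (hl : IsFun E 1 l) :
    ∃ κ : ℂ, ∀ u, l u = mq F ℂ (C κ) * ω u (m 0) := by
  obtain ⟨z, hz, rfl⟩ := fun_rep_hom D G nd hl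
  have h0 : (z 0).IsHomogeneous 0 := hom_div D.hom D.ne (hz 0 (0 + 6) rfl)
  have h1 : ∀ j, j ≠ 0 → z j = 0 := fun j hj => by
    have : 1 ≤ pfDeg j := by
      fin_cases j
      · exact absurd rfl hj
      all_goals simp [pfDeg]
    exact zero_of_lt D.hom D.ne (hz j (6 - pfDeg j) (by have := pfDeg_le j; omega)) (by omega)
  refine ⟨coeff 0 (z 0), fun u => ?_⟩
  rw [← totalDegree_eq_zero_iff_eq_C.1 (Nat.le_zero.1 h0.totalDegree_le),
    Finset.sum_eq_single 0 (fun j _ hj => by rw [h1 j hj, zero_smul]) (by simp),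
    LinearMap.flip_apply, map_smul, smul_mq]

theorem not_two (D : PfD F p) (G : GramD E ω pfDeg p.Om m) (nd : ∀ u, (∀ v, ω u v = 0) → u = 0) :
    ¬ Two E := by
  rintro ⟨s1, s2, h1, h2, h⟩
  obtain ⟨k1, e1⟩ := fun_one D G nd h1
  obtain ⟨k2, e2⟩ := fun_one D G nd h2
  have h3 := h k2 (-k1) fun u => by
    rw [mapR_id, mapR_id, e1, e2, map_neg, map_neg]
    ring
  have h4 := h 1 0 fun u => by
    rw [mapR_id, mapR_id, e1, neg_eq_zero.1 h3.2]
    simp
  exact one_ne_zero h4.1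

theorem s_ne (D : PfD F p) (G : GramD E ω pfDeg p.Om m) : ω (m 0) ≠ 0 := fun h => by
  have h1 : ∀ j, p.Om 0 j = 0 := fun j => eq_zero_of_hom D.hom (G.hom 0 j)
    (by have := pfDeg_le j; change 0 + pfDeg j + 1 < 6; omega)
    (by rw [← mq_zero, ← G.val, h, LinearMap.zero_apply])
  simp only [om_zero] at h1
  have q0 : p.q 0 = 0 := h1 1
  have q1 : p.q 1 = 0 := h1 2
  have q2 : p.q 2 = 0 := h1 3
  have u1 : p.u 1 = 0 := h1 4
  have u0 : p.u 0 = 0 := neg_eq_zero.1 (h1 5)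
  refine D.ne ?_
  rw [← D.pf, Pf.pf, Fin.sum_univ_three, Fin.sum_univ_two, q0, q1, q2, u0, u1]
  simp

theorem mem_of_val (D : PfD F p) (G : GramD E ω pfDeg p.Om m) {u : E.M} {b : Pol ℂ}
    (h : ω (m 0) u = mq F ℂ b) : b ∈ p.I := by
  obtain ⟨v, rfl⟩ := exists_sum G u
  rw [om_right G, mq_eq] at h
  have h1 : (p.Om *ᵥ v) 0 ∈ p.I := by
    change ∑ j, p.Om 0 j * v j ∈ p.I
    exact Ideal.sum_mem _ fun j _ => Ideal.mul_mem_right _ _ (om_zero_mem p j)
  have h2 : Ideal.span {bc F ℂ} ≤ p.I := by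
    rw [Ideal.span_singleton_le_iff_mem, ← D.pf]
    exact pf_mem p
  simpa using p.I.sub_mem h1 (h2 h)

theorem le_satI (G : GramD E ω pfDeg p.Om m) : p.I ≤ satI (ω (m 0)) := by
  have h : ∀ j, p.Om 0 j ∈ satI (ω (m 0)) := fun j =>
    mem_satI.2 fun _ => ⟨0, m j, by rw [pow_zero, one_mul, G.val]⟩
  simp only [om_zero] at h
  refine sup_le (Ideal.span_le.2 ?_) (Ideal.span_le.2 ?_)
  · rintro _ ⟨i, rfl⟩
    fin_cases i
    exacts [h 1, h 2, h 3]
  · rintro _ ⟨i, rfl⟩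
    fin_cases i
    exacts [neg_mem_iff.1 (h 5), h 4]

theorem gd (hA : S_PfAlg) (hF : Hyp F) {B : Type} [CommRing B] [Algebra ℂ B] {p : Pf B}
    (hp : p.Hom) (e : p.pf = bc F B) : GD F pfDeg p.Om := by
  obtain ⟨-, -, h3, h4, h5, -⟩ := hA B p
  rw [e] at h3 h4
  refine ⟨(h5 hp).2.1, fun i j => ?_, fun i => ?_, h3, fun q hq hm hi => ?_⟩
  · simp [Pf.Om]
  · simp [Pf.Om]
  · by_contra hn
    push Not at hn
    obtain ⟨j, hj⟩ := smooth_prime hF.good q hq hi hm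
    exact hj (h4 q hn j)

end Pool.Agent.P.MP_2b2d3b_ag.PfFamP

namespace Pool.Agent.P.MP_2b2d3b_ag

open MvPolynomial PfFamP

theorem pfBun (hA : S_PfAlg) (hLow : S_Lower) (hEx : S_RepEx) (hRad : S_RepRad) (hLam : S_Lam) :
    S_PfBun := by
  intro F hF p hp e E ω m G nd
  obtain ⟨h1, h2, -, -, h5, -⟩ := hA ℂ p
  rw [e] at h1 h2
  have D : PfD F p := ⟨hF.bc.ne_zero, hF.bc.hom, e, h1, h2, (h5 hp).2.2⟩
  refine ⟨⟨noFun D G nd, hasC2 D G nd⟩, not_two D G nd, s_ne D G, le_antisymm ?_ (le_satI G)⟩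
  have hs : IsFun E (0 + 1) (ω (m 0)) := G.pair.isFun (G.mem 0)
  have hP : Prim (ω (m 0)) := by
    by_contra hn
    obtain ⟨s', k1, k2, -⟩ := hLow F hF E 0 _ hs (s_ne D G) hn
    exact k2 (noFun D G nd s' k1)
  obtain ⟨c, hc⟩ := (hEx F hF E _ _ hs hP).infinite_compl.nonempty
  obtain ⟨Λ, hR⟩ := not_not.1 hc
  have r3 := (hRad F hF.rg ℂ E c _ _ Λ hR).2.2
  obtain ⟨x, ω', t1, t2, d1, d2, G', hx, -, xF, -, -, S, hΛ⟩ := hR
  obtain ⟨l1, -, -, l4, -⟩ := hLam F hF.rg ℂ E ω' _ _ _ _ _ _ _ _ _ S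
  have key : ∀ (b : Pol ℂ) (d : ℕ), b.IsHomogeneous d → b ∈ satI (ω (m 0)) → b ∈ p.I := by
    intro b d hb hm
    have k1 := (box ℂ x hx).2.2.2.2.1 (b * G') _ (hb.mul S.hG) fun a => by
      rw [mul_comm b, mul_assoc, ← hΛ]
      exact (r3 b d hb).2 hm a
    rw [xF] at k1
    obtain ⟨l, -, hl⟩ := l1 b d d hb (by omega) k1
    choose y hy using fun i => mq_surj (l (m i))
    obtain ⟨z, -, rfl⟩ := fun_rep D G nd l y hy
    obtain ⟨r, hr⟩ := S.pair.wedge hF.rg G.pair.alt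
    obtain ⟨r, rfl⟩ := mq_surj r
    set y := ∑ j, z j • m j
    refine mem_of_val D G (u := r • y) ?_
    rw [map_smul, smul_mq, ← sub_eq_zero]
    refine S.pair.zero_of_mul' hF.rg fun u v => ?_
    have k2 := hl u v
    have k3 := pluecker hF.rg G.pair.alt (ω (m 0)) u v y
    simp only [LinearMap.flip_apply] at k2
    rw [G.pair.skew u y, hr u v] at k3
    linear_combination k2 + k3
  intro b hb
  rw [← sum_homogeneousComponent b]
  exact Ideal.sum_mem _ fun d _ =>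
    key _ d (homogeneousComponent_isHomogeneous _ _) (l4 b hb d)

theorem pfFam (hA : S_PfAlg) (hB : S_PfBun) (hG : S_Gram) (hGP : S_GramPull) (hT : S_Tr) :
    S_PfFam := by
  intro F hF B _ _ p hp e
  obtain ⟨E, ω, m, G, -⟩ := hG F hF.rg B _ _ _ (gd hA hF hp e)
  have fib : ∀ t : B →ₐ[ℂ] ℂ, ∃ (E0 : Bundle F ℂ) (s : _), IsPull t E E0 ∧ Good E0 ∧ ¬ Two E0 ∧
      IsFun E0 1 s ∧ s ≠ 0 ∧ satI s = (p.map (t : B →+* ℂ)).I := fun t => by
    obtain ⟨k1, k2, k3⟩ := (hA B p).2.2.2.2.2 ℂ (t : B →+* ℂ)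
    rw [e, map_bc] at k1
    obtain ⟨E0, ω0, m0, G0, nd⟩ := hG F hF.rg ℂ _ _ _ (gd hA hF (k3 hp) k1)
    obtain ⟨j1, j2, j3, j4⟩ := hB F hF _ (k3 hp) k1 E0 ω0 m0 G0 nd
    refine ⟨E0, ω0 (m0 0), ?_, j1, j2, G0.pair.isFun (G0.mem 0), j3, j4⟩
    rw [k2] at G0
    exact hGP F hF.rg B ℂ t _ _ _ E E0 ω ω0 m m0 G G0 nd
  obtain ⟨-, -, t3, t4, -⟩ := hT F hF
  obtain ⟨𝓔, rfl⟩ := t4 B E fun t => by
    obtain ⟨E0, -, h1, h2, -⟩ := fib t
    exact ⟨E0, h1, h2⟩
  refine ⟨𝓔, fun t => ?_⟩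
  obtain ⟨E0, s, h1, h2, h3⟩ := fib t
  obtain ⟨E1, rfl⟩ := t3 E0 h2
  exact ⟨E1, s, h1, h3⟩

end Pool.Agent.P.MP_2b2d3b_ag
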