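import Pool.Agent.P.MP_2b2d3b_ag.St2

/-!
The base of the planar family, with a finite type ring carrying the eleven points.
-/

namespace Pool.Agent.P.MP_2b2d3b_ag

open Polynomial

namespace PlBaseP

theorem ai_congr {ι A : Type} [CommRing A] [Algebra ℂ A] {x y : ι → A}
    (h : AlgebraicIndependent ℂ x) (e : ∀ k, x k = y k) : AlgebraicIndependent ℂ y :=
  funext e ▸ h

theorem gen_frame {F : Pol ℂ} (hF : GoodSextic F) :
    ∃ (K : Type) (_ : Field K) (_ : IsAlgClosed K) (_ : Algebra ℂ K)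
      (g g' : Matrix (Fin 4) (Fin 4) K) (xs : Fin 11 → K), g * g' = 1 ∧
      MvPolynomial.eval (fun i => g i 2) (MvPolynomial.map (algebraMap ℂ K) F) ≠ 0 ∧
      AlgebraicIndependent ℂ (Sum.elim (fun p : Fin 4 × Fin 4 => g' p.1 p.2) xs) := by
  let P := MvPolynomial ((Fin 4 × Fin 4) ⊕ Fin 11) ℂ
  let G' : Matrix (Fin 4) (Fin 4) P := fun i j => MvPolynomial.X (.inl (i, j))
  obtain ⟨g0, g0', h1, h2⟩ := exists_frame hF.irred.ne_zero
  let ev : P →ₐ[ℂ] ℂ := MvPolynomial.aeval (Sum.elim (fun p => g0' p.1 p.2) fun _ => 0)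
  have hdet : ev G'.det ≠ 0 := by
    have h3 : G'.map (ev : P →+* ℂ) = g0' := by
      ext i j; exact MvPolynomial.aeval_X _ _
    have h4 : ev G'.det = g0'.det := by
      conv_rhs => rw [← h3]
      exact RingHom.map_det (ev : P →+* ℂ) G'
    rw [h4]
    exact (Matrix.isUnit_det_of_left_inverse h1).ne_zero
  obtain ⟨W, _, _, _, ι, hi, hu, U⟩ := exists_loc P G'.det fun h => hdet (by rw [h, map_zero])
  let g1' := G'.map (ι : P →+* W)
  have e1 : g1'⁻¹ * g1' = 1 := Matrix.nonsing_inv_mul _ (by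
    have := RingHom.map_det (ι : P →+* W) G'
    change IsUnit ((ι : P →+* W).mapMatrix G').det
    rw [← this]; exact hu)
  let z := MvPolynomial.eval (fun i => g1'⁻¹ i 2) (MvPolynomial.map (algebraMap ℂ W) F)
  have hz : ∀ (K : Type) [CommRing K] [Algebra ℂ K] (φ : W →ₐ[ℂ] K), φ z =
      MvPolynomial.eval (fun i => g1'⁻¹.map (φ : W →+* K) i 2)
        (MvPolynomial.map (algebraMap ℂ K) F) := fun K _ _ φ => by
    rw [← map_map_alg φ]
    exact (eval_map_col (φ : W →+* K) _ _).symm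
  have z0 : z ≠ 0 := fun h => by
    obtain ⟨φ, hφ⟩ := U ℂ ev hdet
    have h3 : g0' = g1'.map (φ : W →+* ℂ) := by
      ext i j
      exact ((hφ (G' i j)).trans (MvPolynomial.aeval_X _ _)).symm
    have h4 := map_e1 (φ : W →+* ℂ) e1
    rw [← h3] at h4
    have := hz ℂ φ
    rw [← Matrix.left_inv_eq_left_inv h1 h4, h, map_zero, map_alg_self] at this
    exact h2 this.symm
  let K := AlgebraicClosure (FractionRing W)
  let a : W →ₐ[ℂ] K := (IsScalarTower.toAlgHom ℂ (FractionRing W) K).comp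
    (IsScalarTower.toAlgHom ℂ W (FractionRing W))
  have ha : Function.Injective a :=
    (algebraMap (FractionRing W) K).injective.comp (IsFractionRing.injective W _)
  refine ⟨K, inferInstance, inferInstance, inferInstance, g1'⁻¹.map (a : W →+* K),
    g1'.map (a : W →+* K), fun i => a (ι (MvPolynomial.X (.inr i))), map_e1 _ e1, ?_, ?_⟩
  · rw [← hz]
    exact fun h => z0 (ha (by rw [h, map_zero]))
  · have := (MvPolynomial.algebraicIndependent_X ((Fin 4 × Fin 4) ⊕ Fin 11) ℂ).map'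
      (f := a.comp ι) (ha.comp hi)
    refine ai_congr this fun k => ?_
    rcases k with p | i <;> rfl

theorem sd_ind {F : Pol ℂ} (hF : GoodSextic F) {W : Type} [CommRing W] [Algebra ℂ W] {s : SD W}
    (h : s.Gen F 11) : AlgebraicIndependent ℂ
      (Sum.elim (fun p : Fin 4 × Fin 4 => s.g' p.1 p.2) fun i : Fin 11 => s.xs i) := by
  obtain ⟨K, _, _, _, g, g', xs, e1, e2, hind⟩ := gen_frame hF
  let v : Pt K := ⟨g, g', (MvPolynomial.eval (fun i => g i 2)
    (MvPolynomial.map (algebraMap ℂ K) F))⁻¹, 0, 0, 0, 0⟩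
  have e2' : v.tau * MvPolynomial.eval (fun i => v.g i 2)
    (MvPolynomial.map (algebraMap ℂ K) F) = 1 := inv_mul_cancel₀ e2
  have hm := Pt.f_monic (hF.homog.map _) e2'
  have hd := Pt.natDegree_f (hF.homog.map _) e2'
  have hy : ∀ x : K, ∃ y, (v.f (MvPolynomial.map (algebraMap ℂ K) F)).evalEval x y = 0 := by
    intro x
    obtain ⟨y, hy⟩ := IsAlgClosed.exists_root
      ((v.f (MvPolynomial.map (algebraMap ℂ K) F)).map (evalRingHom x)) (by
        rw [degree_eq_natDegree (hm.map _).ne_zero, hm.natDegree_map, hd]; norm_num)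
    exact ⟨y, by rw [← map_evalRingHom_eval]; exact hy⟩
  choose y hy using hy
  let X' : ℕ → K := fun i => if h : i < 11 then xs ⟨i, h⟩ else 0
  obtain ⟨φ, hφ⟩ := h.univ K ⟨g, g', v.tau, 0, X', fun i => y (X' i)⟩ ⟨e1, e2', fun i _ => hy _⟩
  refine AlgebraicIndependent.of_comp φ ?_
  convert hind using 1
  funext k
  rcases k with p | i
  · exact (congrFun (congrFun hφ.g' p.1) p.2).symm
  · exact (hφ.xs i i.2).symm.trans (by simp [X'])

theorem sd_fy {F : Pol ℂ} (hF : GoodSextic F) {W : Type} [CommRing W] [Algebra ℂ W] {s : SD W}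
    (h : s.Gen F 11) (i : Fin 11) : (derivative (s.f F)).evalEval (s.xs i) (s.ys i) ≠ 0 := by
  obtain ⟨g, g', e1, e2⟩ := exists_frame hF.irred.ne_zero
  let v : Pt ℂ := ⟨g, g', (MvPolynomial.eval (fun i => g i 2) F)⁻¹, 0, 0, 0, 0⟩
  have e2' : v.tau * MvPolynomial.eval (fun i => v.g i 2) F = 1 := inv_mul_cancel₀ e2
  have hp := prime_C hF v e1 e2'
  have hm := Pt.f_monic hF.homog e2'
  have hd := Pt.natDegree_f hF.homog e2'
  let A := AdjoinRoot (v.f F)
  have : IsDomain A := AdjoinRoot.isDomain_of_prime hp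
  let K := FractionRing A
  let x : K := algebraMap A K (AdjoinRoot.mk (v.f F) (C X))
  let y : K := algebraMap A K (AdjoinRoot.mk (v.f F) X)
  have hev : ∀ p : ℂ[X][X], (p.map (mapRingHom (algebraMap ℂ K))).evalEval x y =
      algebraMap A K (AdjoinRoot.mk (v.f F) p) := by
    intro p
    have : (evalEvalRingHom x y).comp (mapRingHom (mapRingHom (algebraMap ℂ K))) =
        (algebraMap A K).comp (AdjoinRoot.mk (v.f F)) := by
      refine Polynomial.ringHom_ext' (Polynomial.ringHom_ext (fun a => ?_) ?_) ?_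
      · simp only [RingHom.comp_apply, coe_mapRingHom, map_C, coe_evalRingHom, eval_C]
        rfl
      · simp only [RingHom.comp_apply, coe_mapRingHom, map_C, coe_evalRingHom, eval_C, map_X,
          eval_X]
        rfl
      · simp only [RingHom.comp_apply, coe_mapRingHom, coe_evalRingHom, eval_C, map_X, eval_X]
        rfl
    exact RingHom.congr_fun this p
  let s' : SD K := ⟨g.map (algebraMap ℂ K), g'.map (algebraMap ℂ K), algebraMap ℂ K v.tau, 0,
    fun _ => x, fun _ => y⟩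
  have hf : s'.f F = (v.f F).map (mapRingHom (algebraMap ℂ K)) := Pt.map_f (algebraMap ℂ K) F v
  obtain ⟨φ, hφ⟩ := h.univ K s' ⟨map_e1 _ e1, by
    have := congrArg (algebraMap ℂ K) e2'
    rw [map_mul, ← eval_map_col, map_one] at this
    exact this, fun i _ => by rw [hf, hev, AdjoinRoot.mk_self, map_zero]⟩
  intro h0
  have h1 : (derivative (s'.f F)).evalEval (s'.xs i) (s'.ys i) = 0 := by
    rw [hφ.f, hφ.xs i i.2, hφ.ys i i.2, derivative_map]
    exact (map_mapRingHom_evalEval (φ : W →+* K) _ _ _).trans (by rw [h0, map_zero])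
  rw [hf, derivative_map, hev] at h1
  have h2 := AdjoinRoot.mk_eq_zero.mp (IsFractionRing.injective A K (h1.trans (map_zero _).symm))
  have h3 := eq_zero_of_dvd_of_natDegree_lt hm h2 (natDegree_derivative_lt (by omega))
  have h4 := derivative_eq_zero.1 h3
  omega

theorem map_fy {B B' : Type} [CommRing B] [CommRing B'] (φ : B →+* B') (F : Pol B) (r : RD B)
    (i : Fin 11) : (r.map φ).fy (MvPolynomial.map φ F) i = φ (r.fy F i) := by
  rw [RD.fy, RD.map_f, derivative_map]
  exact map_mapRingHom_evalEval φ _ _ _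

theorem field_RD {F : Pol ℂ} (hF : GoodSextic F) :
    ∃ (K : Type) (_ : Field K) (_ : Algebra ℂ K) (r : RD K),
      r.Valid (MvPolynomial.map (algebraMap ℂ K) F) ∧
      AlgebraicIndependent ℂ (Sum.elim (fun p : Fin 4 × Fin 4 => r.g' p.1 p.2) r.xs) ∧
      ∀ i, r.fy (MvPolynomial.map (algebraMap ℂ K) F) i ≠ 0 := by
  obtain ⟨W, _, _, _, s, h⟩ := gen hF 11
  let r0 : RD W := ⟨s.g, s.g', s.tau, fun i => s.xs i, fun i => s.ys i, s.c, 0⟩
  let F0 := MvPolynomial.map (algebraMap ℂ W) F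
  let u : Fin 11 → W := fun i => r0.c * r0.m F0 i * r0.w i * r0.w i
  have hw : ∀ i, r0.w i ≠ 0 := fun i => by
    rw [RD.w, nod, eval_prod, Finset.prod_ne_zero_iff]
    intro j hj
    simp only [eval_sub, eval_X, eval_C, sub_ne_zero]
    exact fun h' => (Finset.ne_of_mem_erase hj) (Fin.ext (h.inj _ i.2 _ j.2 h')).symm
  have hm : ∀ i, r0.m F0 i ≠ 0 := fun i =>
    mul_ne_zero (pow_ne_zero _ (neg_ne_zero.mpr one_ne_zero))
      (h.minors 10 (fun a => (i.succAbove a : Fin 11)) idx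
        (Fin.val_injective.comp Fin.succAbove_right_injective) (fun a => (i.succAbove a).2)
        idx.injective)
  have hu : ∀ i, u i ≠ 0 := fun i => mul_ne_zero (mul_ne_zero (mul_ne_zero h.c (hm i)) (hw i)) (hw i)
  let K := FractionRing W
  let ι : W →ₐ[ℂ] K := IsScalarTower.toAlgHom ℂ W K
  have hi : Function.Injective ι := IsFractionRing.injective W K
  have hmap : ∀ i : Fin 11, ι (u i) =
      (r0.map (ι : W →+* K)).c * (r0.map (ι : W →+* K)).m (MvPolynomial.map (algebraMap ℂ K) F) i *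
        (r0.map (ι : W →+* K)).w i * (r0.map (ι : W →+* K)).w i := fun i => by
    rw [← map_map_alg ι, RD.map_m, RD.map_w]
    simp [u, RD.map, F0]
  let r : RD K := { r0.map (ι : W →+* K) with b := fun i => (ι (u i))⁻¹ }
  refine ⟨K, inferInstance, inferInstance, r, ⟨map_e1 _ h.ok.e1, ?_, fun i => ?_,
    fun i => ?_⟩, ?_, fun i => ?_⟩
  · have := congrArg (ι : W →+* K) h.ok.e2
    rw [map_mul, ← eval_map_col, map_map_alg, map_one] at this
    exact this
  · change evalEval (ι _) (ι _) ((r0.map (ι : W →+* K)).f _) = 0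
    rw [← map_map_alg ι, RD.map_f]
    refine (map_mapRingHom_evalEval (ι : W →+* K) _ _ _).trans ?_
    have : (r0.f F0).evalEval (s.xs i) (s.ys i) = 0 := h.ok.e3 i i.2
    rw [this, map_zero]
  · have := inv_mul_cancel₀ (a := ι (u i)) fun h0 => hu i (hi (by rw [h0, map_zero]))
    nth_rewrite 2 [hmap] at this
    rw [← this]
    simp only [mul_assoc]
    rfl
  · refine ai_congr ((sd_ind hF h).map' (f := ι) hi) fun k => ?_
    rcases k with p | i <;> rfl
  · change (r0.map (ι : W →+* K)).fy _ i ≠ 0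
    rw [← map_map_alg ι, map_fy]
    exact fun h0 => sd_fy hF h i (hi (h0.trans (map_zero _).symm))

theorem valid_of_map {B B' : Type} [CommRing B] [CommRing B'] (φ : B →+* B')
    (hφ : Function.Injective φ) {F : Pol B} {r : RD B}
    (h : (r.map φ).Valid (MvPolynomial.map φ F)) : r.Valid F := by
  refine ⟨?_, hφ ?_, fun i => hφ ?_, fun i => hφ ?_⟩
  · apply Matrix.map_injective hφ
    simp only [Matrix.map_mul]
    rw [Matrix.map_one _ (map_zero _) (map_one _)]
    exact h.e1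
  · rw [map_mul, ← eval_map_col, map_one]
    exact h.e2
  · have := h.e3 i
    rw [RD.map_f] at this
    rw [map_zero, ← this]
    exact (map_mapRingHom_evalEval φ _ _ _).symm
  · have := h.e4 i
    rw [RD.map_m, RD.map_w] at this
    simp only [map_mul, map_one]
    exact this

theorem fin_RD {F : Pol ℂ} (hF : GoodSextic F) :
    ∃ (W : Type) (_ : CommRing W) (_ : IsDomain W) (_ : Algebra ℂ W) (_ : Algebra.FiniteType ℂ W)
      (r : RD W), r.Valid (MvPolynomial.map (algebraMap ℂ W) F) ∧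
      ∀ (K : Type) [Field K] [Algebra ℂ K] (r' : RD K),
        r'.Valid (MvPolynomial.map (algebraMap ℂ K) F) →
        ∃ φ : W →ₐ[ℂ] K, r.map (φ : W →+* K) = r' := by
  obtain ⟨W, _, _, _, r, hr, -, U⟩ := gen_RD hF
  let c : ((Fin 4 × Fin 4) ⊕ (Fin 4 × Fin 4)) ⊕ (Fin 11 ⊕ Fin 11 ⊕ Fin 11) ⊕ Bool → W :=
    Sum.elim (Sum.elim (fun p => r.g p.1 p.2) fun p => r.g' p.1 p.2)
      (Sum.elim (Sum.elim r.xs (Sum.elim r.ys r.b)) fun b => bif b then r.tau else r.c)
  let D := Algebra.adjoin ℂ (Set.range c)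
  have : Algebra.FiniteType ℂ D := (Subalgebra.fg_iff_finiteType _).mp
    (Subalgebra.fg_def.2 ⟨_, Set.finite_range _, rfl⟩)
  let d := fun k => (⟨c k, Algebra.subset_adjoin ⟨k, rfl⟩⟩ : D)
  let r1 : RD D := ⟨fun i j => d (.inl (.inl (i, j))), fun i j => d (.inl (.inr (i, j))),
    d (.inr (.inr true)), fun i => d (.inr (.inl (.inl i))),
    fun i => d (.inr (.inl (.inr (.inl i)))), d (.inr (.inr false)),
    fun i => d (.inr (.inl (.inr (.inr i))))⟩
  have e : r1.map (D.val : D →+* W) = r := rfl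
  refine ⟨D, inferInstance, inferInstance, inferInstance, this, r1,
    valid_of_map (D.val : D →+* W) Subtype.val_injective (by rw [e, map_map_alg]; exact hr),
    fun K _ _ r' hr' => ?_⟩
  obtain ⟨φ, rfl⟩ := U K r' hr'
  exact ⟨φ.comp D.val, rfl⟩

theorem base_of {F : Pol ℂ} (hF : GoodSextic F) {W : Type} [CommRing W] [IsDomain W] [Algebra ℂ W]
    {r : RD W} (hr : r.Valid (MvPolynomial.map (algebraMap ℂ W) F))
    (U : ∀ (K : Type) [Field K] [Algebra ℂ K] (r' : RD K),
        r'.Valid (MvPolynomial.map (algebraMap ℂ K) F) →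
        ∃ φ : W →ₐ[ℂ] K, r.map (φ : W →+* K) = r') :
    ∃ (B : Type) (_ : CommRing B) (_ : IsDomain B) (_ : Algebra ℂ B) (_ : Algebra.FiniteType ℂ B)
      (v : Pt B) (j : B →ₐ[ℂ] W), Function.Injective j ∧
      v.Eqs (MvPolynomial.map (algebraMap ℂ B) F) ∧
      v.map (j : B →+* W) = r.pt (MvPolynomial.map (algebraMap ℂ W) F) ∧
      ∀ w : Pt ℂ, w.Eqs F → ∃ t : B →ₐ[ℂ] ℂ, v.map (t : B →+* ℂ) = w := by
  classical
  let v0 := r.pt (MvPolynomial.map (algebraMap ℂ W) F)
  let e0 : MvPolynomial Var ℂ →ₐ[ℂ] W := MvPolynomial.aeval v0.coord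
  let p0 := RingHom.ker e0
  have : p0.IsPrime := RingHom.ker_isPrime _
  let u : Pt (MvPolynomial Var ℂ) := Pt.ofCoord MvPolynomial.X
  let v := u.map (Ideal.Quotient.mkₐ ℂ p0 : MvPolynomial Var ℂ →+* MvPolynomial Var ℂ ⧸ p0)
  have hlift : ∀ (R : Type) [CommRing R] [Algebra ℂ R] (w : Pt R),
      (∀ a ∈ p0, MvPolynomial.aeval w.coord a = 0) →
      ∃ t : (MvPolynomial Var ℂ ⧸ p0) →ₐ[ℂ] R, v.map (t : _ →+* R) = w ∧
        ∀ a, t (Ideal.Quotient.mk _ a) = MvPolynomial.aeval w.coord a := fun R _ _ w hw =>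
    ⟨Ideal.Quotient.liftₐ p0 (MvPolynomial.aeval w.coord) hw, map_univ w, fun a => rfl⟩
  obtain ⟨j, hj, hj'⟩ := hlift W v0 fun a ha => ha
  have hinj : Function.Injective j := by
    rw [injective_iff_map_eq_zero]
    intro a ha
    obtain ⟨a, rfl⟩ := Ideal.Quotient.mk_surjective a
    rw [hj'] at ha
    exact Ideal.Quotient.eq_zero_iff_mem.mpr ha
  refine ⟨MvPolynomial Var ℂ ⧸ p0, inferInstance, inferInstance, inferInstance, inferInstance, v, j,
    hinj, Pt.Eqs.of_map (j : _ →+* W) hinj ?_, hj, fun w hw => ?_⟩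
  · rw [hj, map_map_alg]
    exact hr.eqs (hF.homog.map _)
  suffices h : ∀ a ∈ p0, MvPolynomial.aeval w.coord a = 0 by
    obtain ⟨t, ht, -⟩ := hlift ℂ w h
    exact ⟨t, ht⟩
  let E : Finset (MvPolynomial Var ℂ) :=
    Finset.univ.image (u.eqn (MvPolynomial.map (algebraMap ℂ _) F))
  have hE : ∀ (R : Type) [CommRing R] [Algebra ℂ R] (z : Pt R) (k : EqI),
      MvPolynomial.aeval z.coord (u.eqn (MvPolynomial.map (algebraMap ℂ _) F) k) =
        z.eqn (MvPolynomial.map (algebraMap ℂ R) F) k := fun R _ _ z k => by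
    have := Pt.map_eqn ((MvPolynomial.aeval z.coord : MvPolynomial Var ℂ →ₐ[ℂ] R) :
      MvPolynomial Var ℂ →+* R)
      (MvPolynomial.map (algebraMap ℂ _) F) u k
    rw [map_map_alg, map_univ] at this
    exact this.symm
  have hm : (RingHom.ker (MvPolynomial.aeval w.coord : MvPolynomial Var ℂ →ₐ[ℂ] ℂ)).IsPrime :=
    RingHom.ker_isPrime _
  obtain ⟨p, hp, hpm⟩ := Ideal.exists_minimalPrimes_le (I := Ideal.span (E : Set _))
    (J := RingHom.ker (MvPolynomial.aeval w.coord : MvPolynomial Var ℂ →ₐ[ℂ] ℂ)) (by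
      rw [Ideal.span_le]
      intro a ha
      obtain ⟨k, -, rfl⟩ := Finset.mem_image.mp ha
      change MvPolynomial.aeval w.coord _ = 0
      rw [hE, map_alg_self]
      exact (Pt.eqs_iff _ _).mp hw k)
  have hpp : p.IsPrime := hp.1.1
  let K := AlgebraicClosure (FractionRing (MvPolynomial Var ℂ ⧸ p))
  let ψ : MvPolynomial Var ℂ →ₐ[ℂ] K :=
    ((IsScalarTower.toAlgHom ℂ (FractionRing (MvPolynomial Var ℂ ⧸ p)) K).comp
      (IsScalarTower.toAlgHom ℂ (MvPolynomial Var ℂ ⧸ p) _)).comp (Ideal.Quotient.mkₐ ℂ p)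
  let z := u.map (ψ : _ →+* K)
  have hψ : MvPolynomial.aeval z.coord = ψ := by
    ext i
    simp [z, u, Pt.coord_map, Pt.coord_ofCoord]
  have hker : ∀ a, ψ a = 0 ↔ a ∈ p := fun a => by
    simp [ψ, Ideal.Quotient.eq_zero_iff_mem]
  have hz : z.Eqs (MvPolynomial.map (algebraMap ℂ K) F) := by
    rw [Pt.eqs_iff]
    intro k
    rw [← hE, hψ, hker]
    exact hp.1.2 (Ideal.subset_span (Finset.mem_image_of_mem _ (Finset.mem_univ k)))
  have : CharZero K := algebraRat.charZero K
  rcases Pt.good_or_bad hz hF.homog (irreducible_f hF z hz.e1 hz.e2) (smooth_field hF) with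
    ⟨h1, h2⟩ | ⟨S, hS, hbad⟩
  · obtain ⟨r', hr', h3⟩ := hz.exists_RD (hF.homog.map _) h1 h2
    obtain ⟨φ, rfl⟩ := U K r' hr'
    rw [← map_map_alg φ, RD.map_pt] at h3
    intro a ha
    apply hpm
    rw [← hker, ← hψ, ← h3]
    have : MvPolynomial.aeval (v0.map (φ : W →+* K)).coord = φ.comp e0 := by
      ext i
      simp [e0, Pt.coord_map]
    rw [this, AlgHom.comp_apply, RingHom.mem_ker.mp ha, map_zero]
  · obtain ⟨d, hd, h1, h2, i, hi⟩ := exists_der (k := ℂ) z.coord E (by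
      convert hp
      ext a
      rw [hψ, RingHom.mem_ker]
      exact hker a) S (by
        have : E.card ≤ _ := Finset.card_image_le
        rw [Finset.card_univ, card_EqI] at this
        rw [card_Var]
        omega)
    exact absurd (hbad d hd h1 h2 i) hi

end PlBaseP

open PlBaseP in
theorem plBase : S_PlBase := by
  intro F hF
  obtain ⟨D, _, _, _, _, r, hr, U⟩ := fin_RD hF.good
  obtain ⟨B, _, _, _, _, v, j, hj, h1, h2, h3⟩ := base_of hF.good hr U
  obtain ⟨K, _, _, r', hr', hind, hy⟩ := field_RD hF.good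
  obtain ⟨φ, rfl⟩ := U K r' hr'
  refine ⟨B, inferInstance, inferInstance, inferInstance, inferInstance, D, inferInstance,
    inferInstance, inferInstance, inferInstance, v, r, j, hj, h1, hr, h2,
    AlgebraicIndependent.of_comp φ ?_, fun i h0 => hy i ?_, fun w hw => h3 w (bc_self F ▸ hw)⟩
  · convert hind using 1
    funext k
    rcases k with p | i <;> rfl
  · rw [← map_map_alg φ, map_fy]
    exact (congrArg φ h0).trans (map_zero φ)

end Pool.Agent.P.MP_2b2d3b_ag
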