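import Pool.Agent.P.MP_2b2d3b_ag.St2
import Pool.Agent.P.MP_2b2d3b_ag.Box
import Pool.Agent.P.MP_2b2d3b_ag.Def

/-!
A first order deformation of a planar bundle along which the second section does not extend.
-/

namespace Pool.Agent.P.MP_2b2d3b_ag

open MvPolynomial

namespace PlDefP

theorem ok_map {B B' : Type} [CommRing B] [CommRing B'] [Nontrivial B'] (φ : B →+* B') {x : Box B}
    (h : x.Ok) : (x.map φ).Ok where
  hF := h.hF.map _
  hu := by
    have := congrArg φ h.hu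
    rw [map_mul, map_one, MvPolynomial.eval, coe_eval₂Hom, eval₂_comp_left] at this
    change φ x.u * eval _ (map φ x.F) = 1
    have e : (![1, 0, 0, -((x.map φ).c : B') ^ 3] : Fin 4 → B') =
        φ ∘ ![1, 0, 0, -(x.c : B) ^ 3] := by
      funext i
      fin_cases i <;> simp [Box.map]
    rw [eval_map, e]
    exact this
  m1 := h.m1.map _
  d1 := (h.m1.natDegree_map φ).trans h.d1
  m2 := h.m2.map _
  d2 := (h.m2.natDegree_map φ).trans h.d2

theorem g1_map {B B' : Type} [CommRing B] [CommRing B'] (φ : B →+* B') (x : Box B) :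
    (x.map φ).g1 = map φ x.g1 := by
  simp [Box.g1, Box.map, map_hm, map_wc]

theorem g2_map {B B' : Type} [CommRing B] [CommRing B'] (φ : B →+* B') (x : Box B) :
    (x.map φ).g2 = map φ x.g2 := by
  simp [Box.g2, Box.map, map_hm, map_wc]

/-- finitely many hyperplanes contain a given point -/
theorem fin_wc {p : Fin 4 → ℂ} (hp : p ≠ 0) : {c : ℕ | eval p (wc ℂ c) = 0}.Finite := by
  let q : Polynomial ℂ := Polynomial.C (p 0) * Polynomial.X ^ 3 +
    Polynomial.C (p 1) * Polynomial.X ^ 2 + Polynomial.C (p 2) * Polynomial.X + Polynomial.C (p 3)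
  have hq : q ≠ 0 := by
    intro h
    apply hp
    have c0 := congrArg (fun t => t.coeff 0) h
    have c1 := congrArg (fun t => t.coeff 1) h
    have c2 := congrArg (fun t => t.coeff 2) h
    have c3 := congrArg (fun t => t.coeff 3) h
    simp [q, Polynomial.coeff_X, Polynomial.coeff_C] at c0 c1 c2 c3
    funext i
    fin_cases i <;> simp [c0, c1, c2, c3]
  refine ((q.rootSet_finite ℂ).preimage (f := fun c : ℕ => (c : ℂ))
    Nat.cast_injective.injOn).subset fun c hc => ?_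
  rw [Set.mem_preimage, Polynomial.mem_rootSet]
  refine ⟨hq, ?_⟩
  rw [Set.mem_ofPred_eq, eval_wc] at hc
  simp only [q, Polynomial.coe_aeval_eq_eval, Polynomial.eval_add, Polynomial.eval_mul,
    Polynomial.eval_C, Polynomial.eval_pow, Polynomial.eval_X]
  linear_combination hc

/-- a functional whose radical is the ideal of finitely many points -/
theorem lam_sum {ι : Type} [Fintype ι] {Λ : Pol ℂ →ₗ[ℂ] ℂ} {w : Pol ℂ} (hw : w.IsHomogeneous 1)
    (hΛ : ∀ a, Λ (w * a) = Λ a) {q : ι → Fin 4 → ℂ} (hq : ∀ i, eval (q i) w = 1)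
    (hr : ∀ (b : Pol ℂ) (d : ℕ), b.IsHomogeneous d → (b ∈ rad Λ ↔ ∀ i, eval (q i) b = 0))
    {b : ι → Pol ℂ} {D : ℕ} (hb : ∀ i, (b i).IsHomogeneous D ∧ ∀ j, eval (q j) (b i) = 0 ↔ i ≠ j) :
    ∃ lam : ι → ℂ, (∀ i, lam i ≠ 0) ∧ ∀ a, Λ a = ∑ i, lam i * eval (q i) a := by
  classical
  have hp : ∀ (k : ℕ) a, Λ (w ^ k * a) = Λ a := by
    intro k a
    induction k with
    | zero => simp
    | succ k ih => rw [pow_succ', mul_assoc, hΛ, ih]
  have h0 : ∀ i, eval (q i) (b i) ≠ 0 := fun i h => ((hb i).2 i).1 h rfl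
  have key : ∀ a, Λ a = ∑ i, Λ (b i) / eval (q i) (b i) * eval (q i) a := by
    intro a
    rw [← sum_homogeneousComponent a]
    simp only [map_sum, Finset.mul_sum]
    rw [Finset.sum_comm]
    refine Finset.sum_congr rfl fun d _ => ?_
    have ha := homogeneousComponent_isHomogeneous d a
    generalize homogeneousComponent d a = a at ha
    have h1 : (w ^ D * a - ∑ i, C (eval (q i) a / eval (q i) (b i)) *
        (w ^ d * b i)).IsHomogeneous (D + d) := by
      refine IsHomogeneous.sub ?_ (IsHomogeneous.sum _ _ _ fun i _ => ?_)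
      · simpa using (hw.pow D).mul ha
      · have := (isHomogeneous_C (Fin 4) (eval (q i) a / eval (q i) (b i))).mul
          ((hw.pow d).mul (hb i).1)
        simpa [add_comm] using this
    have h2 := (hr _ _ h1).2 (fun j => by
      rw [map_sub, map_sum, Finset.sum_eq_single j]
      · simp [hq, h0]
      · intro i _ hi
        simp [((hb i).2 j).2 hi]
      · simp) 1
    rw [mul_one, map_sub, hp, map_sum, sub_eq_zero] at h2
    rw [h2]
    refine Finset.sum_congr rfl fun i _ => ?_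
    rw [← smul_eq_C_mul, map_smul, hp, smul_eq_mul]
    ring
  refine ⟨_, fun i h => h0 i ?_, key⟩
  refine (hr _ _ (hb i).1).1 (fun a => ?_) i
  rw [key, Finset.sum_eq_single i, h, zero_mul]
  · intro j _ hj
    simp [((hb i).2 j).2 hj.symm]
  · simp

/-- the second section does not extend -/
theorem not_two (hW : S_Wedge) (hRad : S_RepRad) {F : Pol ℂ} (hF : Hyp F) {B : Type} [CommRing B]
    [Algebra ℂ B] (χ : B →ₐ[ℂ] ℂ) {E : Bundle F B} {c : ℕ} {s} {Λ : Pol B →ₗ[B] B}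
    (h : Rep c E 1 s Λ)
    (hl : ∀ a ∈ rad Λ, a.IsHomogeneous 1 → map (χ : B →+* ℂ) a = 0) : ¬ TwoAt E χ := by
  have hrad := (hRad F hF.rg B E c 1 s Λ h).2.2
  obtain ⟨x, ω, t1, t2, d1, d2, G, hx, -, hxF, -, -, S, -⟩ := h
  have hx' := ok_map (χ : B →+* ℂ) hx
  obtain ⟨b1, b2, -⟩ := box ℂ _ hx'
  have eF : (x.map (χ : B →+* ℂ)).F = bc F ℂ := by
    change map _ x.F = _
    rw [hxF, map_bc]
  rw [eF, g1_map] at b1 b2
  rw [g2_map] at b2
  have nz : ∀ r : Rq F ℂ, mq F ℂ (map (χ : B →+* ℂ) x.g1) * r = 0 → r = 0 := by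
    intro r hr
    obtain ⟨a, rfl⟩ := mq_surj r
    rw [← map_mul, mq_zero] at hr
    exact mq_zero.2 (b1 a hr)
  have key : ∀ s', IsFun E 1 s' → ∃ κ : ℂ,
      ∀ u, mapR F χ (s' u) = mq F ℂ (C κ) * mapR F χ (s u) := by
    intro s' hs'
    obtain ⟨b, e, hb, hd⟩ := hW F hF.rg B E ω S.pair s' s
    obtain ⟨b', hb', eb⟩ := hd 1 1 1 hs' S.fn rfl
    have m1 : b' ∈ satI s := by
      rw [mem_satI] at hb ⊢
      intro i
      obtain ⟨k, u, hu⟩ := hb i
      exact ⟨k, u, by rw [hu, map_mul, map_mul, eb]⟩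
    have z := hl b' ((hrad b' 1 hb').2 m1) hb'
    have par : ∀ u v, mapR F χ (s' u) * mapR F χ (s v) = mapR F χ (s' v) * mapR F χ (s u) := by
      intro u v
      have := congrArg (mapR F χ) (e u v)
      rw [eb, map_sub, map_mul, map_mul, map_mul, mapR_mq, z, map_zero, zero_mul] at this
      exact sub_eq_zero.1 this
    obtain ⟨a1, ha1⟩ := mq_surj (mapR F χ (s' t1))
    obtain ⟨a2, ha2⟩ := mq_surj (mapR F χ (s' t2))
    have p12 := par t1 t2
    rw [S.e1, S.e2, mapR_mq, mapR_mq, ← ha1, ← ha2, ← map_mul, ← map_mul, mq_eq,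
      Ideal.mem_span_singleton'] at p12
    obtain ⟨y, hy⟩ := p12
    obtain ⟨y1, y2, hy12⟩ := Ideal.mem_span_pair.1 (b2 a1
      (Ideal.mem_span_pair.2 ⟨y, a2, by linear_combination hy⟩))
    have e1 : mapR F χ (s' t1) = mq F ℂ (map (χ : B →+* ℂ) x.g1) * mq F ℂ y2 := by
      rw [← ha1, ← hy12, map_add, map_mul, map_mul, mq_F]
      ring
    obtain ⟨k, hk, ek⟩ := (HomR.cancel hF.hom (mq_mem (S.h1.map (χ : B →+* ℂ))) nz
      (e1 ▸ HomR.map χ (hs' d1 t1 S.m1))).1 0 (zero_add _)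
    refine ⟨coeff 0 k, fun u => ?_⟩
    rw [← totalDegree_eq_zero_iff_eq_C.1 ((totalDegree_zero_iff_isHomogeneous _).2 hk), ← ek,
      ← sub_eq_zero]
    apply nz
    have := par u t1
    rw [S.e1, mapR_mq, e1] at this
    linear_combination this
  rintro ⟨s1, s2, h1, h2, hi⟩
  obtain ⟨κ1, e1⟩ := key s1 h1
  obtain ⟨κ2, e2⟩ := key s2 h2
  obtain ⟨-, z1⟩ := hi κ2 (-κ1) fun u => by
    rw [e1, e2, map_neg, map_neg]
    ring
  obtain ⟨z, -⟩ := hi 1 0 fun u => by
    rw [e1, neg_eq_zero.1 z1]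
    simp
  exact one_ne_zero z

instance : Module.Finite ℂ (DualNumber ℂ) := inferInstanceAs (Module.Finite ℂ (ℂ × ℂ))

end PlDefP

open PlDefP

theorem plDef (hEx : S_PlEx) (hFun : S_PlFun) (hLen : S_Len) (hRad : S_RepRad) (hGor : S_GorFam)
    (hUq : S_Uq) (hW : S_Wedge) : S_PlDef := by
  intro F hF r E hr hfy ⟨ω, s, t1, t2, G, hD⟩
  obtain ⟨hGood, -, hs0, -, -⟩ := (hEx F hF).2.2 E _ ω s t1 t2 G hD
  obtain ⟨f1, f2, -, -⟩ := hFun F hF r E ω s t1 t2 G hr hD
  have hp0 : ∀ i, r.p i ≠ 0 := fun i h => by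
    have := eval_U hr.e1 1 (r.xs i) (r.ys i) 0
    rw [← RD.p, h] at this
    simp [linForm] at this
  obtain ⟨c, hc⟩ := ((hLen F hF E s hGood hD.ser.fn hs0).2.2.2.union
    (Set.finite_iUnion fun i => fin_wc (hp0 i))).exists_notMem
  obtain ⟨Λ, lam0, hR⟩ := not_not.1 fun h => hc (Or.inl h)
  have hw : ∀ i, eval (r.p i) (wc ℂ c) ≠ 0 := fun i h => hc (Or.inr (Set.mem_iUnion.2 ⟨i, h⟩))
  obtain ⟨R1, R2, -⟩ := hRad F hF.rg ℂ E c 1 s Λ hR.rep
  set q : Fin 11 → Fin 4 → ℂ := fun i k => (eval (r.p i) (wc ℂ c))⁻¹ * r.p i k with hq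
  have sc : ∀ i (a : Pol ℂ) (d : ℕ), a.IsHomogeneous d →
      eval (q i) a = (eval (r.p i) (wc ℂ c))⁻¹ ^ d * eval (r.p i) a := fun i a d ha =>
    eval_scale _ _ ha
  have sz : ∀ i (a : Pol ℂ) (d : ℕ), a.IsHomogeneous d →
      (eval (q i) a = 0 ↔ eval (r.p i) a = 0) := fun i a d ha => by
    rw [sc i a d ha, mul_eq_zero, or_iff_right (pow_ne_zero _ (inv_ne_zero (hw i)))]
  have q1 : ∀ i, eval (q i) (wc ℂ c) = 1 := fun i => by
    rw [sc i _ 1 (wc_hom c), pow_one, inv_mul_cancel₀ (hw i)]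
  have hx : Function.Injective r.xs := fun i j hij => by
    by_contra hne
    have h0 : r.w j = 0 := by
      rw [RD.w, ← hij]
      exact eval_nod_ne _ hne
    simpa [h0] using hr.e4 j
  let b : Fin 11 → Pol ℂ := fun i =>
    ∏ j ∈ Finset.univ.erase i, (linForm (r.g' 1) - C (r.xs j) * linForm (r.g' 0))
  have hb1 : ∀ i, (b i).IsHomogeneous 10 := fun i => by
    have := IsHomogeneous.prod (Finset.univ.erase i)
      (fun j => linForm (r.g' 1) - C (r.xs j) * linForm (r.g' 0)) (fun _ => 1)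
      fun j _ => (linForm_hom _).sub ((linForm_hom _).C_mul _)
    simpa using this
  have hb : ∀ i, (b i).IsHomogeneous 10 ∧ ∀ j, eval (q j) (b i) = 0 ↔ i ≠ j := fun i =>
    ⟨hb1 i, fun j => by
      rw [sz j _ _ (hb1 i), map_prod, Finset.prod_eq_zero_iff]
      simp only [map_sub, map_mul, eval_C, RD.p, eval_U hr.e1, Finset.mem_erase, Finset.mem_univ,
        and_true, Matrix.cons_val_one, Matrix.cons_val_zero, mul_one, sub_eq_zero, hx.eq_iff]
      exact ⟨fun ⟨k, h1, h2⟩ h => h1 (h2 ▸ h ▸ rfl), fun h => ⟨j, Ne.symm h, rfl⟩⟩⟩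
  obtain ⟨lam, hlam, eΛ⟩ := lam_sum (wc_hom c) R1 q1 (fun a d ha => by
    rw [hR.mem a d ha, f1 a d ha]
    exact forall_congr' fun i => (sz i a d ha).symm) hb
  have htau : r.tau ≠ 0 := left_ne_zero_of_mul_eq_one hr.e2
  have a1 : ∀ i, eval (q i) (linForm (r.g' 3)) = 0 := fun i => by
    rw [sz i _ 1 (linForm_hom _), RD.p, eval_U hr.e1]
    rfl
  have a2 : ∀ i, eval (q i) F = 0 := fun i => by
    rw [sz i _ 6 hF.hom]
    have := hr.e3 i
    rw [RD.f, Polynomial.evalEval_mul, Polynomial.evalEval_CC, evalEval_cpt, bc_self] at this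
    exact (mul_eq_zero.1 this).resolve_left htau
  have a3 : ∀ i, ∑ k, eval (q i) (pderiv k F) * r.g k 2 ≠ 0 := fun i => by
    have := hfy i
    rw [RD.fy, RD.f, Polynomial.derivative_C_mul, Polynomial.evalEval_mul, Polynomial.evalEval_CC,
      evalEval_derivative, bc_self, dir] at this
    have e : ∀ k, eval (q i) (pderiv k F) =
        (eval (r.p i) (wc ℂ c))⁻¹ ^ 5 * eval (r.p i) (pderiv k F) := fun k =>
      sc i _ 5 (hF.hom.pderiv)
    simp only [e, mul_assoc, ← Finset.mul_sum]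
    exact mul_ne_zero (pow_ne_zero _ (inv_ne_zero (hw i))) (right_ne_zero_of_mul this)
  obtain ⟨Λe, hG, hFe, eq1, hlin⟩ := deform F (linForm (r.g' 3)) c 10 q (fun k => r.g k 2)
    (fun k => r.g k 3) lam b hF.hom (linForm_hom _) (fun i => ⟨q1 i, a1 i, a2 i, hlam i, a3 i⟩)
    (by simpa [linForm] using sum_inv hr.e1 3 2) (by simpa [linForm] using sum_inv hr.e1 3 3)
    (fun a ha => by rw [← eΛ]; exact R2 a ha)
    (fun a ha h => f2 a ha fun i => (sz i a 3 ha).1 (h i)) hb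
  obtain ⟨𝓔, se, hRe, hfib⟩ := hGor F hF (DualNumber ℂ) c 10 Λe _ hG hFe
  obtain ⟨E', s', hP, hG', -, -, hR'⟩ := hfib fstE
  refine ⟨𝓔, E', not_two hW hRad hF fstE hRe hlin, hP,
    hUq F hF E' E c s' s _ 1 hG'.1 hGood.1 one_ne_zero hR' ?_⟩
  have : bcL (fstE : DualNumber ℂ →+* ℂ) Λe = Λ := LinearMap.ext fun a => by rw [eq1, eΛ]
  rw [one_smul, this]
  exact hR.rep

end Pool.Agent.P.MP_2b2d3b_ag
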