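import Pool.Agent.P.MP_2b2d3b_ag.St2

/-!
The planar models.
-/

namespace Pool.Agent.P.MP_2b2d3b_ag

open MvPolynomial

namespace PlExP

variable {F : Pol ℂ} {B B' : Type} [CommRing B] [Algebra ℂ B] [CommRing B'] [Algebra ℂ B']

theorem span3 {R : Type} [CommRing R] (a b c : R) :
    Ideal.span {a, b, c} = Ideal.span {a, b} ⊔ Ideal.span {c} := by
  rw [Ideal.span_insert, Ideal.span_insert, Ideal.span_insert, sup_assoc]

theorem mem_snds3 {l H G b : Pol B} :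
    b ∈ snds (Nt (bc F B) l H G) ↔ b * G ∈ Ideal.span {bc F B, l, H} := by
  rw [mem_snds_Nt, span3]

theorem adm2 {l H G : Pol B} (h : Adm (bc F B) l H G) : Adm2 F 0 10 l H G where
  h1 := h.hl
  h2 := h.hH
  hG := h.hG
  r1 := h.h1
  r2 := h.h2
  h0 b hb := by
    obtain ⟨a, ha⟩ := mem_snds.1 (mem_snds3.2 hb)
    have h1 := h.comp_mem _ _ ha 0
    rw [homogeneousComponent_zero, homogeneousComponent_zero] at h1
    simpa using (h.h0 _ _ h1).2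
  lf q hq _ hi := h.lf q hq hi

theorem adm (hF : Hyp F) [Nontrivial B] {v : Pt B} (hv : v.Eqs (bc F B)) {G : Pol B}
    (hG : G.IsHomogeneous 11) (eG : rho v.g G = v.G (bc F B)) :
    Adm (bc F B) (linForm (v.g' 3)) v.H G :=
  hv.adm (hF.hom.map _) (smooth_prime hF.good) hG eG

theorem model (hNB : S_NB) (hF : Hyp F) [Nontrivial B] [IsNoetherianRing B] {v : Pt B}
    (hv : v.Eqs (bc F B)) : ∃ E : Bundle F B, PlM E v := by
  obtain ⟨G, hG, eG⟩ := hv.exists_G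
  obtain ⟨E, ω, s, t1, t2, h1, h2⟩ := hNB F hF.rg B 0 10 _ _ G (adm2 (adm hF hv hG eG))
  exact ⟨E, ω, s, t1, t2, G, hv, eG, h1, h2⟩

theorem pull (hNP : S_NPull) (hF : Hyp F) (φ : B →ₐ[ℂ] B') {E : Bundle F B} {E' : Bundle F B'}
    {v : Pt B} (h : PlM E v) (h' : PlM E' (v.map (φ : B →+* B'))) : IsPull φ E E' := by
  obtain ⟨ω, s, t1, t2, G, h⟩ := h
  obtain ⟨ω', s', t1', t2', G', h'⟩ := h'
  have e1 : linForm ((v.map (φ : B →+* B')).g' 3) = map (φ : B →+* B') (linForm (v.g' 3)) :=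
    (map_linForm _ _).symm
  have e2 := Pt.map_H (φ : B →+* B') v
  have h1 := h'.ser
  have h2 := h'.refl
  have h3 := mem_of_rho_eq_zero h'.eqs.e1 (h1.hG.sub (h.ser.hG.map (φ : B →+* B'))) (by
    rw [map_sub, h'.eG, ← map_bc φ, Pt.map_G, ← h.eG, ← rho_map]
    exact sub_self _)
  rw [e1, ← e2] at h1 h2
  rw [e1] at h3
  obtain ⟨θ, hθ, -⟩ := hNP F hF.rg B B' φ E E' ω ω' 1 s s' t1 t2 t1' t2' 0 10 _ _ G G' h.ser h1 h2
    (Ideal.span_mono (by simp) h3)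
  exact hθ.isPull

theorem fibD (hL : S_Lam) (hS : S_SerAdm) (hH : S_HfSer) (hF : Hyp F) (E : Bundle F ℂ)
    (w : Pt ℂ) (ω : E.M →ₗ[Pol ℂ] E.M →ₗ[Pol ℂ] Rq F ℂ) (s : E.M →ₗ[Pol ℂ] Rq F ℂ) (t1 t2 : E.M)
    (G : Pol ℂ) (h : PlD E w ω s t1 t2 G) :
    Good E ∧ Two E ∧ s ≠ 0 ∧ linForm (w.g' 3) ∈ satI s ∧
      ∀ (b : Pol ℂ) (d : ℕ), b.IsHomogeneous d →
        (b ∈ satI s ↔ w.chi ∣ (rho w.g b).eval w.eta) := by
  have ha := adm hF h.eqs h.ser.hG h.eG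
  obtain ⟨hE, hl⟩ := h.eqs.extension h.eG ha
  obtain ⟨-, l2, l3, -⟩ := hL F hF.rg ℂ E ω 1 s t1 t2 0 10 _ _ G h.ser
  have hI : satI s = snds (Nt (bc F ℂ) (linForm (w.g' 3)) w.H G) := by
    ext b
    refine ⟨fun hb => hE.sat b fun i => ?_, fun hb => l2 b (mem_snds3.1 hb)⟩
    obtain ⟨k, u, e⟩ := mem_satI.1 hb i
    exact ⟨k, mem_snds3.2 (l3 _ u e)⟩
  have h0 := (adm2 ha).h0
  have hc : ∀ κ : ℂ, mq F ℂ (C κ) * s t1 = 0 → κ = 0 := fun κ e => by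
    rw [h.ser.e1, ← map_mul, mq_zero, mul_comm] at e
    exact h0 κ (Ideal.mul_mem_right _ _ (Ideal.span_mono (by simp) (h.ser.r1 _ e)))
  refine ⟨⟨(hS F hF.rg ℂ E ω s t1 t2 0 10 _ _ G h.ser).2.1 h0, ?_⟩,
    ⟨ω.flip t1, s, fun d u hu => h.ser.pair.hom d 0 u hu t1 h.ser.m1, h.ser.fn,
      fun κ1 κ2 e => ?_⟩, fun e => ?_, hI ▸ hl, fun b d hb => ?_⟩
  · obtain ⟨d0, hd0⟩ := hE.length
    filter_upwards [hH F hF.rg E ω 0 s t1 t2 0 10 _ _ G h.ser, Filter.eventually_ge_atTop d0,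
      Filter.eventually_ge_atTop 3] with e h1 h2 h3
    have h4 := (hilbF F hF.hom hF.ne_zero).1 e h3
    have h5 := (hilbF F hF.hom hF.ne_zero).1 (e + 1) (by omega)
    simp only [mul_zero, add_zero] at h1
    rw [hI, hd0 _ (by omega)] at h1
    nlinarith
  · simp only [mapR_id, LinearMap.flip_apply] at e
    have h2 : κ2 = 0 := hc κ2 (by simpa only [h.ser.pair.alt, mul_zero, zero_add] using e t1)
    have h3 := e t2
    rw [h2, map_zero, map_zero, zero_mul, add_zero, h.ser.pair.skew t1 t2, h.ser.eG, ← map_neg,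
      ← map_mul, mq_zero, mul_neg, Ideal.neg_mem_iff] at h3
    exact ⟨h0 κ1 (Ideal.span_mono (by simp) h3), h2⟩
  · exact one_ne_zero (hc 1 (by rw [e, LinearMap.zero_apply, mul_zero]))
  · rw [hI]
    exact h.eqs.hom_mem_iff ha.hF ha.hG h.eG hb

theorem exists_lin {I : Ideal (Pol ℂ)} (h : hilb I 1 ≤ 3) :
    ∃ l : Pol ℂ, l.IsHomogeneous 1 ∧ l ≠ 0 ∧ l ∈ I := by
  have h1 := HilbP.hilb_add_Id I 1
  rw [hd 1] at h1
  have h2 : Id I 1 ≠ ⊥ := fun e => by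
    rw [e, finrank_bot] at h1
    have h3 : (1 + 3).choose 3 = 4 := rfl
    omega
  obtain ⟨l, hl, h0⟩ := Submodule.exists_mem_ne_zero_of_ne_bot h2
  exact ⟨l, hl.2, h0, hl.1⟩

theorem to_pairs (hF : Hyp F) {N : Bundle F ℂ} {ω : N.M →ₗ[Pol ℂ] N.M →ₗ[Pol ℂ] Rq F ℂ}
    {s : N.M →ₗ[Pol ℂ] Rq F ℂ} {t1 t2 : N.M} {l H G : Pol ℂ} (ha : Adm (bc F ℂ) l H G)
    (h : Ser N ω 1 s t1 t2 0 10 l H G) (hr : Refl N ω s t1 l H G) :
    ∃ θ : N.M →ₗ[Pol ℂ] Qm (bc F ℂ) (Nt (bc F ℂ) l H G), Function.Surjective θ ∧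
      ∀ d, ∀ u ∈ N.gr.piece d, θ u ∈ ha.gr.piece d := by
  have key : ∀ u a b, ω u t1 = mq F ℂ a → s u = mq F ℂ b → (a, b) ∈ Nt (bc F ℂ) l H G := by
    intro u a b e1 e2
    have h1 := pluecker hF.rg h.pair.alt s u t1 t2
    obtain ⟨c, hc⟩ := mq_surj (ω t2 u)
    rw [e1, e2, h.e1, h.e2, h.eG, ← hc, ← map_mul, ← map_mul, ← map_mul, ← map_add, ← map_add,
      mq_zero] at h1
    obtain ⟨x, hx⟩ := Ideal.mem_span_singleton'.1 h1
    exact Ideal.mem_span_pair.2 ⟨x, -c, by dsimp only; linear_combination hx⟩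
  choose A hA using fun u => mq_surj (ω u t1)
  choose S hS using fun u => mq_surj (s u)
  let θ : N.M →ₗ[Pol ℂ] Qm (bc F ℂ) (Nt (bc F ℂ) l H G) :=
    { toFun := fun u => el (A u) (S u) (key u _ _ (hA u).symm (hS u).symm)
      map_add' := fun u v => by
        rw [el_add, el_eq, ← mq_eq, ← mq_eq]
        simp only [map_add, hA, hS, LinearMap.add_apply, and_self]
      map_smul' := fun c u => by
        rw [RingHom.id_apply, smul_el, el_eq, ← mq_eq, ← mq_eq]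
        simp only [map_mul, hA, hS, map_smul, LinearMap.smul_apply, smul_mq, and_self] }
  have hθ : ∀ u a b (e1 : ω u t1 = mq F ℂ a) (e2 : s u = mq F ℂ b),
      θ u = el a b (key u a b e1 e2) := fun u a b e1 e2 =>
    el_eq.2 ⟨mq_eq.1 ((hA u).trans e1), mq_eq.1 ((hS u).trans e2)⟩
  refine ⟨θ, fun x => ?_, fun d u hu => ?_⟩
  · obtain ⟨a, b, hab, rfl⟩ := el_surj x
    obtain ⟨u, e1, e2⟩ := hr.surj a b hab
    exact ⟨u, hθ u a b e1 e2⟩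
  · obtain ⟨a, ha, e1⟩ := h.pair.hom d 0 u hu t1 h.m1
    obtain ⟨b, hb, e2⟩ := h.fn d u hu
    exact ⟨a, b, _, ha, hb, hθ u a b e1 e2⟩

end PlExP

open PlExP

theorem plEx (hNB : S_NB) (hNP : S_NPull) (hL : S_Lam) (hS : S_SerAdm) (hH : S_HfSer)
    (hT : S_Tr) : S_PlEx := fun F hF => by
  refine ⟨fun B _ _ _ _ v hv => ?_, fun B B' _ _ _ _ φ E E' v => pull hNP hF φ,
    fibD hL hS hH hF⟩
  have : IsNoetherianRing B := Algebra.FiniteType.isNoetherianRing ℂ B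
  obtain ⟨E, hE⟩ := model hNB hF hv
  obtain ⟨E', rfl⟩ := (hT F hF).2.2.2.1 B E fun t => by
    obtain ⟨E0, h0⟩ := model hNB hF (v := v.map (t : B →+* ℂ)) (map_bc t ▸ hv.map _)
    refine ⟨E0, pull hNP hF t hE h0, ?_⟩
    obtain ⟨ω, s, t1, t2, G, h⟩ := h0
    exact (fibD hL hS hH hF E0 _ ω s t1 t2 G h).1
  exact ⟨E', hE⟩

theorem plCover (hNB : S_NB) (hX : S_Ext) : S_PlCover := fun F hF E s hE hs h0 h1 => by
  obtain ⟨N0, hp, hN0⟩ := (hX F hF E).1 s hE hs h0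
  obtain ⟨l, l1, l2, l3⟩ := exists_lin h1
  obtain ⟨w, hw, h⟩ := hN0.exists_pt hF.bc.good l1 l2 l3
  obtain ⟨N, ω, s', t1, t2, G, hN⟩ := model hNB hF hw
  have ha := adm hF hw hN.ser.hG hN.eG
  obtain ⟨e, he, he'⟩ := h G hN.eG ha
  obtain ⟨θ, hθ, hθ'⟩ := to_pairs hF ha hN.ser hN.refl
  have h2 : Pull (AlgHom.id ℂ ℂ) N N0 (e.comp θ).toAddMonoidHom :=
    ⟨semi_id _, fun d u hu => he' d _ (hθ' d u hu), fun u _ => ⟨0, Submodule.subset_span (by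
      rw [pow_zero, one_smul]
      exact (he.2.comp hθ) u)⟩⟩
  exact ⟨w, N, ⟨ω, s', t1, t2, G, hN⟩, hp.iso.trans h2.isPull.iso.symm⟩

end Pool.Agent.P.MP_2b2d3b_ag
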