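import Pool.Agent.P.MP_2b2d3b_ag.St2

/-!
The functionals of shift one on a planar model.
-/

namespace Pool.Agent.P.MP_2b2d3b_ag

namespace PlFunP

section Plane

open Polynomial

/-- exponents of `x` in the ten monomials -/
def ex : Fin 10 → ℕ := ![0, 1, 2, 3, 0, 1, 2, 0, 1, 0]

/-- exponents of `y` in the ten monomials -/
def ey : Fin 10 → ℕ := ![0, 0, 0, 0, 1, 1, 1, 2, 2, 3]

theorem TD_three {p : ℂ[X][X]} (hp : TD 3 p) :
    p = ∑ q : Fin 10, C (C ((p.coeff (ey q)).coeff (ex q))) * C X ^ ex q * X ^ ey q := by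
  conv_lhs => rw [hp.eq_sum]
  simp only [Finset.sum_range_succ, Finset.range_zero, Finset.sum_empty, Fin.sum_univ_succ,
    Finset.univ_eq_empty, ex, ey, Matrix.cons_val_zero, Matrix.cons_val_succ]
  ring

theorem evalEval_three {p : ℂ[X][X]} (hp : TD 3 p) (x y : ℂ) :
    p.evalEval x y = ∑ q : Fin 10, x ^ ex q * y ^ ey q * (p.coeff (ey q)).coeff (ex q) := by
  conv_lhs => rw [TD_three hp]
  rw [evalEval_finsetSum]
  refine Finset.sum_congr rfl fun q _ => ?_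
  simp only [evalEval_mul, evalEval_pow, evalEval_C, evalEval_X, eval_C, eval_X]
  ring

variable {F G : Pol ℂ}

theorem cubic_zero {r : RD ℂ} (h : r.Valid F) (hF : F.IsHomogeneous 6) {p : ℂ[X][X]}
    (hp : TD 3 p) (h0 : ∀ i, p.evalEval (r.xs i) (r.ys i) = 0) : p = 0 := by
  let N : Matrix (Fin 10) (Fin 10) ℂ := fun i q =>
    r.xs ((0 : Fin 11).succAbove i) ^ ex q * r.ys ((0 : Fin 11).succAbove i) ^ ey q
  let Cf : Matrix (Fin 10) (Fin 10) ℂ := fun q k =>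
    ((cub (r.f F) (idx k)).coeff (ey q)).coeff (ex q)
  have hf : TD 6 (r.f F) := (TD_rho _ hF).smul _
  have e : (cubMat (r.f F) r.xs r.ys).submatrix (0 : Fin 11).succAbove id = N * Cf := by
    ext i k
    rw [Matrix.mul_apply, Matrix.submatrix_apply, cubMat, evalEval_three (TD_cub hf _)]
    rfl
  have hm : r.m F 0 ≠ 0 := fun h0 => by simpa [h0] using h.e4 0
  have hN : N.det ≠ 0 := fun h0 => hm (by rw [RD.m, minor, e, Matrix.det_mul, h0]; simp)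
  have hc := Matrix.eq_zero_of_mulVec_eq_zero hN
    (v := fun q => (p.coeff (ey q)).coeff (ex q)) (by
      funext i
      have := h0 ((0 : Fin 11).succAbove i)
      rw [evalEval_three hp] at this
      exact this)
  rw [TD_three hp]
  refine Finset.sum_eq_zero fun q _ => ?_
  have := congrFun hc q
  simp only [Pi.zero_apply] at this
  simp [this]

theorem chi_dvd_iff {r : RD ℂ} (h : r.Valid F) (b : Pol ℂ) :
    (r.pt F).chi ∣ (rho r.g b).eval (r.pt F).eta ↔ ∀ i, MvPolynomial.eval (r.p i) b = 0 := by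
  have hw : ∀ i, r.w i ≠ 0 := fun i h0 => by simpa [h0] using h.e4 i
  have hx : Function.Injective r.xs := fun i j hij => by
    by_contra hne
    apply hw j
    rw [RD.w, ← hij]
    exact eval_nod_ne _ hne
  have he : ∀ i, (r.pt F).eta.eval (r.xs i) = r.ys i := fun i => by
    rw [Pt.eta, RD.pt, pol_coeff (degree_interp _ _), eval_interp, ← RD.w]
    linear_combination r.ys i * h.e4 i
  rw [RD.chi_pt, prod_dvd_iff hx]
  refine forall_congr' fun i => ?_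
  rw [eval_eval', he, evalEval_cpt, RD.p]

theorem dvd_of_vanish {r : RD ℂ} (h : r.Valid F) (hF : F.IsHomogeneous 6) {b : Pol ℂ} {d : ℕ}
    (hb : b.IsHomogeneous d) (hd : d ≤ 3) (h0 : ∀ i, MvPolynomial.eval (r.p i) b = 0) :
    linForm (r.g' 3) ∣ b :=
  Ideal.mem_span_singleton.mp (mem_of_rho_eq_zero h.e1 hb (cubic_zero h hF
    ((TD_rho _ hb).mono hd) fun i => by rw [evalEval_cpt]; exact h0 i))

variable {v : Pt ℂ}

theorem const_rel (h : v.Eqs F) (hF : F.IsHomogeneous 6) (eG : rho v.g G = v.G F) {a b : ℂ}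
    (hab : MvPolynomial.C a * v.H + MvPolynomial.C b * G ∈ Ideal.span {F, linForm (v.g' 3)}) :
    a = 0 ∧ b = 0 := by
  have e := rho_mem h.e1 hab
  rw [map_add, map_mul, map_mul, rho_C, rho_C, Pt.rho_H h.e1, eG, Pt.rho_F h.e2] at e
  have e0 := eq_zero_of_dvd_of_natDegree_lt (Pt.f_monic hF h.e2) (dvd_of_mul_right_dvd e) (by
    rw [Pt.natDegree_f hF h.e2]
    refine lt_of_le_of_lt (natDegree_add_le _ _) (max_lt ?_ ?_)
    · rw [← map_mul, natDegree_C]; omega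
    · exact lt_of_le_of_lt (natDegree_C_mul_le _ _) (Nat.lt_succ_of_le Pt.natDegree_G))
  have e5 := congrArg (fun p => p.coeff 5) e0
  simp only [coeff_add, coeff_C_mul, coeff_C, Pt.coeff_G, coeff_zero, Pt.Gc_five hF h.e2] at e5
  have e6 : C b * v.eps = 0 := by
    rw [← e5]
    simp
  obtain ⟨k, hk⟩ := h.e4
  have hb : C b = 0 := eq_zero_of_dvd_of_natDegree_lt v.chi_monic
    ⟨-C b * k, by linear_combination v.eps' * e6 - C b * hk⟩
    (by rw [natDegree_C, Pt.natDegree_chi]; omega)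
  rw [hb, map_zero, zero_mul, add_zero, ← map_mul, C_eq_zero,
    v.chi_monic.mul_left_eq_zero_iff] at e0
  exact ⟨C_eq_zero.mp e0, C_eq_zero.mp hb⟩

theorem U1_not_mem (h : v.Eqs F) (hF : F.IsHomogeneous 6) :
    linForm (v.g' 1) ∉ Ideal.span {F, linForm (v.g' 3)} := fun h0 =>
  X_ne_zero (Frame.C_eq_zero ⟨h.e1, h.e2, rfl⟩ hF h0 (rho_U1 h.e1))

theorem U01_cancel (h : v.Eqs F) (hF : F.IsHomogeneous 6) (k m : ℕ) {P : Pol ℂ}
    (hP : linForm (v.g' 0) ^ k * P ∈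
      Ideal.span {F, linForm (v.g' 3)} ⊔ Ideal.span {linForm (v.g' 1) ^ m}) :
    P ∈ Ideal.span {F, linForm (v.g' 3)} ⊔ Ideal.span {linForm (v.g' 1) ^ m} :=
  U_cancel h.e1 hF h.e2 (u := C (X ^ k)) (v := X ^ m) (by simp [rhoh_U h.e1])
    (by simp [rhoh_U h.e1])
    (fun a s e => dvd_of_C_mul (monic_X_pow m)
      (fun a ha => (monic_X_pow k).mul_right_eq_zero_iff.mp ha) ⟨s, e⟩) hP

end Plane

open MvPolynomial

variable {F G : Pol ℂ} {v : Pt ℂ}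

/-- the pairs are saturated in the plane -/
theorem sat_pair (h : v.Eqs F) (hF : F.IsHomogeneous 6)
    (hp : (Ideal.span {F, linForm (v.g' 3)}).IsPrime) (eG : rho v.g G = v.G F) {κ1 κ2 : ℂ}
    (hκ : κ1 ≠ 0 ∨ κ2 ≠ 0) {b a0 a0' a1 a1' : Pol ℂ} {k m : ℕ}
    (h0 : a0 * v.H + a0' * G ∈ Ideal.span {F, linForm (v.g' 3)})
    (h1 : a1 * v.H + a1' * G ∈ Ideal.span {F, linForm (v.g' 3)})
    (e0 : linForm (v.g' 0) ^ k * b - (C κ1 * a0 + C κ2 * a0') ∈ Ideal.span {F, linForm (v.g' 3)})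
    (e1 : linForm (v.g' 1) ^ m * b - (C κ1 * a1 + C κ2 * a1') ∈ Ideal.span {F, linForm (v.g' 3)}) :
    ∃ a a', a * v.H + a' * G ∈ Ideal.span {F, linForm (v.g' 3)} ∧
      b - (C κ1 * a + C κ2 * a') ∈ Ideal.span {F, linForm (v.g' 3)} := by
  set I : Ideal (Pol ℂ) := Ideal.span {F, linForm (v.g' 3)} with hI
  set U0 := linForm (v.g' 0)
  set U1 := linForm (v.g' 1)
  have hD : C κ2 * v.H + C (-κ1) * G ∉ I := fun hD => by
    obtain ⟨h2, h3⟩ := const_rel h hF eG hD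
    rcases hκ with h | h
    exacts [h (neg_eq_zero.mp h3), h h2]
  have hU : U1 ^ m ∉ I := fun hU => U1_not_mem h hF (hp.mem_of_pow_mem _ hU)
  have k1 : (U0 ^ k * a1 - U1 ^ m * a0) * v.H + (U0 ^ k * a1' - U1 ^ m * a0') * G ∈ I := by
    convert I.sub_mem (I.mul_mem_left (U0 ^ k) h1) (I.mul_mem_left (U1 ^ m) h0) using 1
    ring
  have k2 : C κ1 * (U0 ^ k * a1 - U1 ^ m * a0) + C κ2 * (U0 ^ k * a1' - U1 ^ m * a0') ∈ I := by
    convert I.sub_mem (I.mul_mem_left (U1 ^ m) e0) (I.mul_mem_left (U0 ^ k) e1) using 1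
    ring
  have k3 : U0 ^ k * a1 - U1 ^ m * a0 ∈ I := (hp.mem_or_mem (by
    convert I.sub_mem (I.mul_mem_left (C κ2) k1) (I.mul_mem_left G k2) using 1
    rw [map_neg]; ring)).resolve_left hD
  have k4 : U0 ^ k * a1' - U1 ^ m * a0' ∈ I := (hp.mem_or_mem (by
    convert I.sub_mem (I.mul_mem_left v.H k2) (I.mul_mem_left (C κ1) k1) using 1
    rw [map_neg]; ring)).resolve_left hD
  have key : ∀ x y, U0 ^ k * x - U1 ^ m * y ∈ I → ∃ a, x - U1 ^ m * a ∈ I := fun x y hxy => by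
    obtain ⟨p, a, q, e⟩ := mem_three.mp (U01_cancel h hF k m (P := x) (by
      have := Submodule.add_mem_sup hxy
        (Ideal.mul_mem_right y _ (Ideal.mem_span_singleton_self (U1 ^ m)))
      rwa [sub_add_cancel] at this))
    exact ⟨a, Ideal.mem_span_pair.mpr ⟨p, q, by rw [e]; ring⟩⟩
  obtain ⟨a, ha⟩ := key _ _ k3
  obtain ⟨a', ha'⟩ := key _ _ k4
  refine ⟨a, a', (hp.mem_or_mem ?_).resolve_left hU, (hp.mem_or_mem ?_).resolve_left hU⟩
  · convert I.sub_mem (I.sub_mem h1 (I.mul_mem_right v.H ha)) (I.mul_mem_right G ha') using 1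
    ring
  · convert I.add_mem (I.add_mem e1 (I.mul_mem_left (C κ1) ha)) (I.mul_mem_left (C κ2) ha')
      using 1
    ring

/-- passage to homogeneous pairs modulo `F` -/
theorem hom_pair (hF : F.IsHomogeneous 6) (hG : G.IsHomogeneous 11) {κ1 κ2 : ℂ}
    (hκ : κ1 ≠ 0 ∨ κ2 ≠ 0) {b a a' : Pol ℂ} {d : ℕ} (hb : b.IsHomogeneous d)
    (h1 : a * v.H + a' * G ∈ Ideal.span {F, linForm (v.g' 3)})
    (h2 : b - (C κ1 * a + C κ2 * a') ∈ Ideal.span {F, linForm (v.g' 3)}) :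
    ∃ a a' : Pol ℂ, a.IsHomogeneous d ∧ a'.IsHomogeneous d ∧
      a * v.H + a' * G ∈ Ideal.span {F, linForm (v.g' 3)} ∧
      b - (C κ1 * a + C κ2 * a') ∈ Ideal.span {F} := by
  obtain ⟨α, β, e⟩ : ∃ α β : ℂ, κ1 * α + κ2 * β = 1 := by
    rcases hκ with h | h
    exacts [⟨κ1⁻¹, 0, by simp [h]⟩, ⟨0, κ2⁻¹, by simp [h]⟩]
  have e' : (C κ1 * C α + C κ2 * C β : Pol ℂ) = 1 := by
    rw [← map_mul, ← map_mul, ← map_add, e, map_one]
  obtain ⟨x, y, hxy⟩ := Ideal.mem_span_pair.mp h2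
  set l := linForm (v.g' 3)
  have h3 : (a + C α * y * l) * v.H + (a' + C β * y * l) * G ∈ Ideal.span {F, l} := by
    convert Ideal.add_mem _ h1 (Ideal.mul_mem_left _ (C α * y * v.H + C β * y * G)
      (right_mem F l)) using 1
    ring
  have h4 : b - (C κ1 * (a + C α * y * l) + C κ2 * (a' + C β * y * l)) ∈ Ideal.span {F} :=
    Ideal.mem_span_singleton'.mpr ⟨x, by linear_combination hxy + y * l * e'⟩
  refine ⟨_, _, homogeneousComponent_isHomogeneous d (a + C α * y * l),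
    homogeneousComponent_isHomogeneous d (a' + C β * y * l), ?_, ?_⟩
  · have := comp_mem_two hF (linForm_hom _) h3 (d + 11)
    rwa [map_add, comp_mul v.H_hom, comp_mul hG] at this
  · have := comp_mem_one hF h4 d
    rwa [map_sub, map_add, homogeneousComponent_C_mul, homogeneousComponent_C_mul,
      homogeneousComponent_eq_self hb] at this

theorem dvd_of_mem {l a : Pol ℂ} (hF : F.IsHomogeneous 6) (hl : l.IsHomogeneous 1) {d : ℕ}
    (ha : a.IsHomogeneous d) (hd : d < 6) (h : a ∈ Ideal.span {F, l}) : l ∣ a := by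
  obtain ⟨x, y, e⟩ := Ideal.mem_span_pair.mp h
  have := comp_mem_one hl (Ideal.mul_mem_left _ y (Ideal.mem_span_singleton_self l)) d
  rw [← homogeneousComponent_eq_self ha, ← e, map_add, HilbP.comp_mul_lt hF x hd, zero_add]
  exact Ideal.mem_span_singleton.mp this

theorem eq_C_mul {l a : Pol ℂ} (hl : l.IsHomogeneous 1) (ha : a.IsHomogeneous 1) (h : l ∣ a) :
    ∃ κ : ℂ, a = C κ * l := by
  obtain ⟨c, e⟩ := h
  refine ⟨coeff 0 c, ?_⟩
  rw [← homogeneousComponent_zero, ← comp_mul hl, mul_comm, ← e,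
    homogeneousComponent_eq_self ha]

theorem pair_iff {r : RD ℂ} (h : r.Valid F) (hF : F.IsHomogeneous 6) (hG : G.IsHomogeneous 11)
    (eG : rho r.g G = (r.pt F).G F) {b : Pol ℂ} {d : ℕ} (hb : b.IsHomogeneous d) :
    (∃ a, a * (r.pt F).H + b * G ∈ Ideal.span {F, linForm (r.g' 3)}) ↔
      ∀ i, eval (r.p i) b = 0 := by
  rw [← chi_dvd_iff h]
  exact mem_snds.symm.trans ((h.eqs_field hF).hom_mem_iff hF hG eG hb)

/-- pairs of low degree are trivial -/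
theorem low {r : RD ℂ} (h : r.Valid F) (hF : F.IsHomogeneous 6) (hG : G.IsHomogeneous 11)
    (eG : rho r.g G = (r.pt F).G F) {a a' : Pol ℂ} {d : ℕ} (ha : a.IsHomogeneous d)
    (ha' : a'.IsHomogeneous d) (hd : d ≤ 3)
    (e : a * (r.pt F).H + a' * G ∈ Ideal.span {F, linForm (r.g' 3)}) :
    linForm (r.g' 3) ∣ a ∧ linForm (r.g' 3) ∣ a' := by
  have h1 := dvd_of_vanish h hF ha' hd ((pair_iff h hF hG eG ha').mp ⟨a, e⟩)
  refine ⟨dvd_of_mem hF (linForm_hom _) ha (by omega)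
    (Pt.H_cancel (h.eqs_field hF) hF a ?_), h1⟩
  obtain ⟨c, rfl⟩ := h1
  have := Ideal.sub_mem _ e (Ideal.mul_mem_right (c * G) _ (right_mem F (linForm (r.g' 3))))
  rwa [mul_assoc, add_sub_cancel_right, mul_comm] at this

theorem hilb_three {I : Ideal (Pol ℂ)} {l : Pol ℂ} (hl : l.IsHomogeneous 1)
    (h : ∀ b ∈ I, b.IsHomogeneous 3 → l ∣ b) : 10 ≤ hilb I 3 := by
  have h1 := HilbP.hilb_add_Id I 3
  have h2 : Id I 3 ≤ (Hd 2).map (LinearMap.mulRight ℂ l) := fun b hb => by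
    obtain ⟨c, e⟩ := h b hb.1 hb.2
    refine ⟨_, homogeneousComponent_isHomogeneous 2 c, ?_⟩
    rw [LinearMap.mulRight_apply, ← comp_mul hl, mul_comm, ← e]
    exact homogeneousComponent_eq_self hb.2
  have h3 := (Submodule.finrank_mono h2).trans (Submodule.finrank_map_le _ _)
  rw [hd] at h1 h3
  have e1 : (3 + 3).choose 3 = 20 := by decide
  have e2 : (2 + 3).choose 3 = 10 := by decide
  omega

theorem fun_cp {B : Type} [CommRing B] [Algebra ℂ B] (hF : F.IsHomogeneous 6) {E : Bundle F B}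
    {j : ℕ} {s : E.M →ₗ[Pol B] Rq F B} (hs : IsFun E j s) (d : ℕ) (u : E.M) :
    s (E.gr.cp d u) = (grR hF B).cp (d + j) (s u) := by
  induction u using E.gr.induction with
  | h0 => simp
  | hadd u v hu hv => simp only [map_add, hu, hv]
  | hom e u hu =>
    rw [Grading.cp_of_mem hu, Grading.cp_of_mem (G := grR hF B) (hs e u hu)]
    by_cases hde : d = e <;> simp [hde]

section Model

variable {E : Bundle F ℂ} {ω : E.M →ₗ[Pol ℂ] E.M →ₗ[Pol ℂ] Rq F ℂ} {s : E.M →ₗ[Pol ℂ] Rq F ℂ}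
  {t1 t2 : E.M}

theorem l_nzd (h : PlD E v ω s t1 t2 G) (x : Rq F ℂ)
    (hx : mq F ℂ (linForm (v.g' 3)) * x = 0) : x = 0 := by
  obtain ⟨a, rfl⟩ := mq_surj x
  rw [← map_mul, mq_zero] at hx
  exact mq_zero.mpr (h.ser.r1 a hx)

theorem flip_fun (h : PlD E v ω s t1 t2 G) : IsFun E 1 (ω.flip t1) := fun d u hu =>
  h.ser.pair.hom d 0 u hu t1 h.ser.m1

/-- the second section -/
theorem exists_e (hR : Rg F) (h : PlD E v ω s t1 t2 G) : ∃ e ∈ E.gr.piece 0,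
    ω e t1 = mq F ℂ (linForm (v.g' 3)) ∧ ∀ u, ω u e = -s u := by
  obtain ⟨e, e1, e2⟩ := h.refl.surj (linForm (v.g' 3)) 0 (by
    simpa using Ideal.mul_mem_right v.H _ (right_mem _ _))
  have h1 : ω (E.gr.cp 0 e) t1 = mq F ℂ (linForm (v.g' 3)) := by
    have := fun_cp hR.hom (flip_fun h) 0 e
    rw [LinearMap.flip_apply, LinearMap.flip_apply, e1] at this
    rw [this]
    exact Grading.cp_self (G := grR hR.hom ℂ) (mq_mem (linForm_hom _))
  have h2 : s (E.gr.cp 0 e) = 0 := by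
    rw [fun_cp hR.hom h.ser.fn, e2, map_zero, map_zero]
  refine ⟨_, E.gr.cp_mem 0 e, h1, fun u => ?_⟩
  have := pluecker hR h.ser.pair.alt s (E.gr.cp 0 e) t1 u
  rw [h1, h2, h.ser.e1] at this
  rw [← add_eq_zero_iff_eq_neg]
  exact l_nzd h _ (by linear_combination this)

theorem pair_of (hR : Rg F) (h : PlD E v ω s t1 t2 G) {u : E.M} {a a' : Pol ℂ}
    (ha : ω u t1 = mq F ℂ a) (ha' : s u = mq F ℂ a') :
    a * v.H + a' * G ∈ Ideal.span {bc F ℂ, linForm (v.g' 3)} := by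
  have := pluecker hR h.ser.pair.alt s u t1 t2
  obtain ⟨c, hc⟩ := mq_surj (ω t2 u)
  rw [ha, ha', ← hc, h.ser.e1, h.ser.e2, h.ser.eG, ← map_mul, ← map_mul, ← map_mul, ← map_add,
    ← map_add, mq_zero] at this
  convert Ideal.sub_mem _ (mem_pair_left (l := linForm (v.g' 3)) this)
    (Ideal.mul_mem_right c _ (right_mem _ _)) using 1
  ring

theorem mem_sat_iff (hF : Hyp F) (h : PlD E v ω s t1 t2 G) {κ1 κ2 : ℂ} (hκ : κ1 ≠ 0 ∨ κ2 ≠ 0)
    {s' : E.M →ₗ[Pol ℂ] Rq F ℂ}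
    (hs : ∀ u, s' u = mq F ℂ (C κ1) * ω u t1 + mq F ℂ (C κ2) * s u) {b : Pol ℂ} {d : ℕ}
    (hb : b.IsHomogeneous d) : b ∈ satI s' ↔
      ∃ a a' : Pol ℂ, a.IsHomogeneous d ∧ a'.IsHomogeneous d ∧
        a * v.H + a' * G ∈ Ideal.span {bc F ℂ, linForm (v.g' 3)} ∧
        b - (C κ1 * a + C κ2 * a') ∈ Ideal.span {bc F ℂ} := by
  constructor
  · intro hm
    have key : ∀ c : Fin 4 → ℂ, ∃ (k : ℕ) (a a' : Pol ℂ),
        a * v.H + a' * G ∈ Ideal.span {bc F ℂ, linForm (v.g' 3)} ∧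
        linForm c ^ k * b - (C κ1 * a + C κ2 * a') ∈ Ideal.span {bc F ℂ, linForm (v.g' 3)} := by
      intro c
      obtain ⟨k, u, hu⟩ := pow_U_mem
        ((LinearMap.range s').comap (Algebra.linearMap (Pol ℂ) (Rq F ℂ))) b c (mem_satI.mp hm)
      obtain ⟨a, ha⟩ := mq_surj (ω u t1)
      obtain ⟨a', ha'⟩ := mq_surj (s u)
      refine ⟨k, a, a', pair_of hF.rg h ha.symm ha'.symm, mem_pair_left (mq_eq.mp ?_)⟩
      rw [map_add, map_mul, map_mul, map_mul, ha, ha', ← hs, hu, ← map_mul]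
      rfl
    obtain ⟨k, a0, a0', h0, e0⟩ := key (v.g' 0)
    obtain ⟨m, a1, a1', h1, e1⟩ := key (v.g' 1)
    obtain ⟨a, a', h2, h3⟩ := sat_pair h.eqs hF.bc.hom
      (hF.bc.good.sections _ (linForm_hom _) (linForm_ne_zero h.eqs.e1 3)) h.eG hκ h0 h1 e0 e1
    exact hom_pair hF.bc.hom h.ser.hG hκ hb h2 h3
  · rintro ⟨a, a', -, -, h1, h2⟩
    obtain ⟨u, e1, e2⟩ := h.refl.surj a a' h1
    refine mem_satI.mpr fun i => ⟨0, u, ?_⟩
    rw [pow_zero, one_mul, mq_eq.mpr h2, hs, e1, e2, map_add, map_mul, map_mul]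

theorem val_e (h : PlD E v ω s t1 t2 G) {e : E.M} (e2 : ∀ u, ω u e = -s u) : s e = 0 := by
  rw [← neg_eq_zero, ← e2, h.ser.pair.alt]

theorem exists_fun (h : PlD E v ω s t1 t2 G) (κ1 κ2 : ℂ) : ∃ s', IsFun E 1 s' ∧
    ∀ u, s' u = mq F ℂ (C κ1) * ω u t1 + mq F ℂ (C κ2) * s u := by
  have hs : ∀ u, ((C κ1 : Pol ℂ) • ω.flip t1 + (C κ2 : Pol ℂ) • s) u =
      mq F ℂ (C κ1) * ω u t1 + mq F ℂ (C κ2) * s u := fun u => by
    rw [LinearMap.add_apply, LinearMap.smul_apply, LinearMap.smul_apply, smul_mq, smul_mq,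
      LinearMap.flip_apply]
  refine ⟨_, fun d u hu => ?_, hs⟩
  rw [hs]
  have c0 : ∀ κ : ℂ, mq F ℂ (C κ) ∈ HomR F ℂ 0 := fun κ => mq_mem (isHomogeneous_C _ κ)
  have h1 := HomR.mul (c0 κ1) (flip_fun h d u hu)
  have h2 := HomR.mul (c0 κ2) (h.ser.fn d u hu)
  rw [zero_add] at h1 h2
  exact add_mem h1 h2

theorem fun_ne (hF : Hyp F) (h : PlD E v ω s t1 t2 G) {κ1 κ2 : ℂ} (hκ : κ1 ≠ 0 ∨ κ2 ≠ 0)
    {s' : E.M →ₗ[Pol ℂ] Rq F ℂ}
    (hs : ∀ u, s' u = mq F ℂ (C κ1) * ω u t1 + mq F ℂ (C κ2) * s u) : s' ≠ 0 := fun h0 => by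
  obtain ⟨e, -, e1, e2⟩ := exists_e hF.rg h
  have hC : ∀ κ : ℂ, mq F ℂ (C κ) * mq F ℂ (linForm (v.g' 3)) = 0 → κ = 0 := fun κ h0 => by
    have := l_nzd h _ (by rwa [mul_comm])
    exact C_eq_zero.mp (eq_zero_of_hom hF.bc.hom (isHomogeneous_C _ κ) (by omega)
      (mq_zero.mp this))
  have f1 := hs e
  have f2 := hs t1
  rw [h0, LinearMap.zero_apply] at f1 f2
  rw [e1, val_e h e2, mul_zero, add_zero] at f1
  rw [h.ser.e1, h.ser.pair.alt, mul_zero, zero_add] at f2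
  exact hκ.elim (fun h => h (hC _ f1.symm)) fun h => h (hC _ f2.symm)

theorem l_mem (hF : Hyp F) (h : PlD E v ω s t1 t2 G) {κ1 κ2 : ℂ} (hκ : κ1 ≠ 0 ∨ κ2 ≠ 0)
    {s' : E.M →ₗ[Pol ℂ] Rq F ℂ}
    (hs : ∀ u, s' u = mq F ℂ (C κ1) * ω u t1 + mq F ℂ (C κ2) * s u) :
    linForm (v.g' 3) ∈ satI s' := by
  obtain ⟨α, β, e⟩ : ∃ α β : ℂ, κ1 * α + κ2 * β = 1 := by
    rcases hκ with h | h
    exacts [⟨κ1⁻¹, 0, by simp [h]⟩, ⟨0, κ2⁻¹, by simp [h]⟩]
  have e' : (C κ1 * C α + C κ2 * C β : Pol ℂ) = 1 := by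
    rw [← map_mul, ← map_mul, ← map_add, e, map_one]
  refine (mem_sat_iff hF h hκ hs (linForm_hom _)).mpr ⟨C α * linForm (v.g' 3),
    C β * linForm (v.g' 3), (linForm_hom _).C_mul _, (linForm_hom _).C_mul _, ?_, ?_⟩
  · exact add_mem (Ideal.mul_mem_right _ _ (Ideal.mul_mem_left _ _ (right_mem _ _)))
      (Ideal.mul_mem_right _ _ (Ideal.mul_mem_left _ _ (right_mem _ _)))
  · rw [← mul_assoc, ← mul_assoc, ← add_mul, e', one_mul, sub_self]
    exact zero_mem _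

theorem sat_iff (hF : Hyp F) (h : PlD E v ω s t1 t2 G) {b : Pol ℂ} {d : ℕ}
    (hb : b.IsHomogeneous d) :
    b ∈ satI s ↔ ∃ a, a * v.H + b * G ∈ Ideal.span {bc F ℂ, linForm (v.g' 3)} := by
  rw [mem_sat_iff hF h (κ1 := 0) (κ2 := 1) (Or.inr one_ne_zero) (fun u => by simp) hb]
  constructor
  · rintro ⟨a, a', -, -, h1, h2⟩
    refine ⟨a, ?_⟩
    convert Ideal.add_mem _ h1 (Ideal.mul_mem_right G _ (mem_pair_left h2)) using 1
    simp only [map_zero, map_one]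
    ring
  · rintro ⟨a, h1⟩
    exact hom_pair hF.bc.hom h.ser.hG (Or.inr one_ne_zero) hb h1 (by simp)

theorem fun_eq (hF : Hyp F) (h : PlD E v ω s t1 t2 G)
    (hlow : ∀ a a' : Pol ℂ, a.IsHomogeneous 1 → a'.IsHomogeneous 1 →
      a * v.H + a' * G ∈ Ideal.span {bc F ℂ, linForm (v.g' 3)} →
      linForm (v.g' 3) ∣ a ∧ linForm (v.g' 3) ∣ a')
    {s' : E.M →ₗ[Pol ℂ] Rq F ℂ} (hs' : IsFun E 1 s') :
    ∃ κ1 κ2 : ℂ, ∀ u, s' u = mq F ℂ (C κ1) * ω u t1 + mq F ℂ (C κ2) * s u := by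
  have hR := hF.rg
  obtain ⟨e, he, e1, e2⟩ := exists_e hR h
  obtain ⟨a', ha', f1⟩ := hs' 0 e he
  obtain ⟨a, ha, f2⟩ := hs' 0 t1 h.ser.m1
  obtain ⟨c, hc⟩ := mq_surj (s' t2)
  have p1 := pluecker hR h.ser.pair.alt s' e t1 t2
  rw [f1, f2, ← hc, e1, e2, h.ser.e2, h.ser.eG, ← map_neg, ← map_mul, ← map_mul, ← map_mul,
    ← map_add, ← map_add, mq_zero] at p1
  obtain ⟨d1, d2⟩ := hlow _ _ ha.neg ha' (by
    convert Ideal.sub_mem _ (mem_pair_left (l := linForm (v.g' 3)) p1)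
      (Ideal.mul_mem_left _ c (right_mem _ _)) using 1
    ring)
  obtain ⟨κ2, rfl⟩ := eq_C_mul (linForm_hom _) ha (dvd_neg.mp d1)
  obtain ⟨κ1, rfl⟩ := eq_C_mul (linForm_hom _) ha' d2
  refine ⟨κ1, κ2, fun u => ?_⟩
  have p2 := pluecker hR h.ser.pair.alt s' e t1 u
  rw [f1, f2, e1, e2, h.ser.pair.skew u t1, map_mul, map_mul] at p2
  rw [← sub_eq_zero]
  exact l_nzd h _ (by linear_combination p2)

end Model

end PlFunP

open PlFunP MvPolynomial in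
theorem plFun : S_PlFun := by
  intro F hF r E ω s t1 t2 G hr h
  have h6 := hF.bc.hom
  have hG : G.IsHomogeneous 11 := h.ser.hG
  refine ⟨fun b d hb => (sat_iff hF h hb).trans (pair_iff hr h6 hG h.eG hb),
    fun b hb => dvd_of_vanish hr h6 hb le_rfl,
    fun s' hs' => fun_eq hF h (fun a a' ha ha' => low hr h6 hG h.eG ha ha' (by omega)) hs',
    fun κ1 κ2 hκ => ?_⟩
  obtain ⟨s', hs', hs⟩ := exists_fun h κ1 κ2
  have hlow : ∀ (b : Pol ℂ) (d : ℕ), d ≤ 3 → b.IsHomogeneous d → b ∈ satI s' →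
      linForm (r.g' 3) ∣ b := fun b d hd hb hm => by
    obtain ⟨a, a', ha, ha', h1, h2⟩ := (mem_sat_iff hF h hκ hs hb).mp hm
    obtain ⟨d1, d2⟩ := low hr h6 hG h.eG ha ha' hd h1
    rw [sub_eq_zero.mp (eq_zero_of_hom h6 (hb.sub ((ha.C_mul _).add (ha'.C_mul _)))
      (by omega) h2)]
    exact dvd_add (d1.mul_left _) (d2.mul_left _)
  exact ⟨s', hs', fun_ne hF h hκ hs, hs, l_mem hF h hκ hs,
    hilb_three (linForm_hom _) fun b hm hb => hlow b 3 le_rfl hb hm,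
    fun l hl hm => hlow l 1 (by omega) hl hm, fun b d hb => mem_sat_iff hF h hκ hs hb⟩

end Pool.Agent.P.MP_2b2d3b_ag
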