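import Pool.Agent.P.MP_2b2d3b_ag.PlUp

/-!
The planar component has dimension at least thirteen.
-/

namespace Pool.Agent.P.MP_2b2d3b_ag

open MvPolynomial CategoryTheory AlgebraicGeometry Module

namespace PlLowP

variable {g g' : Matrix (Fin 4) (Fin 4) ℂ}

theorem dir_mul (k : Fin 4) (p : Fin 4 → ℂ) (a b : Pol ℂ) :
    dir g k p (a * b) = eval p a * dir g k p b + eval p b * dir g k p a := by
  simp only [dir, Derivation.leibniz, smul_eq_mul, map_add, map_mul, Finset.mul_sum,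
    ← Finset.sum_add_distrib]
  exact Finset.sum_congr rfl fun i _ => by ring

theorem dir_sub (k : Fin 4) (p : Fin 4 → ℂ) (a b : Pol ℂ) :
    dir g k p (a - b) = dir g k p a - dir g k p b := by
  simp [dir, sub_mul, Finset.sum_sub_distrib]

theorem dir_lin (hg : g * g' = 1) (k j : Fin 4) (p : Fin 4 → ℂ) :
    dir g k p (linForm (g' j)) = if j = k then 1 else 0 := by
  rw [← sum_inv hg, dir]
  refine Finset.sum_congr rfl fun i _ => ?_
  congr 1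
  fin_cases i <;> simp [linForm, Fin.sum_univ_four, pderiv_X]

/-- at a smooth point of the plane section some pair does not vanish -/
theorem exists_pair (hg : g * g' = 1) {F H G : Pol ℂ} {p : Fin 4 → ℂ}
    (hA : Adm2 F 0 10 (linForm (g' 3)) H G) (hF : F.IsHomogeneous 6) (pF : eval p F = 0)
    (pl : eval p (linForm (g' 3)) = 0) (p0 : eval p (linForm (g' 0)) = 1)
    (hy : dir g 2 p F ≠ 0) :
    ∃ (d : ℕ) (a a' : Pol ℂ), a.IsHomogeneous (d + 1) ∧ a'.IsHomogeneous (d + 1) ∧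
      a * H + a' * G ∈ Ideal.span {bc F ℂ, linForm (g' 3)} ∧ (eval p a ≠ 0 ∨ eval p a' ≠ 0) := by
  have hq : (RingHom.ker (eval p : Pol ℂ →+* ℂ)).IsPrime := RingHom.ker_isPrime _
  obtain ⟨a1, b1, a2, b2, c, e1, e2, hc, e3⟩ := hA.lf _ hq (by rw [bc_self]; exact pF) (by
    by_contra hcon
    push Not at hcon
    have : ∀ i, p i = 0 := fun i => by simpa [RingHom.mem_ker] using hcon i
    simp [linForm, this] at p0)
  have key : ∃ a a' : Pol ℂ, a * H + a' * G ∈ Ideal.span {bc F ℂ, linForm (g' 3)} ∧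
      (eval p a ≠ 0 ∨ eval p a' ≠ 0) := by
    by_contra hcon
    push Not at hcon
    obtain ⟨x1, y1⟩ := hcon a1 b1 e1
    obtain ⟨x2, y2⟩ := hcon a2 b2 e2
    rw [bc_self] at e3
    obtain ⟨z, hz⟩ := Ideal.mem_span_singleton'.1 e3
    have d2 := congrArg (dir g 2 p) hz
    have d3 := congrArg (dir g 3 p) hz
    simp only [dir_sub, dir_mul, dir_lin hg, x1, x2, y1, y2, pF, pl] at d2 d3
    simp only [Fin.reduceEq, if_false, if_true, zero_mul, mul_zero, add_zero, sub_zero,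
      mul_one] at d2 d3
    rw [(mul_eq_zero.1 d2).resolve_right hy] at d3
    exact hc (by rw [RingHom.mem_ker]; linear_combination d3)
  obtain ⟨a, a', e, hne⟩ := key
  obtain ⟨d, hd⟩ : ∃ d, eval p (homogeneousComponent d a) ≠ 0 ∨
      eval p (homogeneousComponent d a') ≠ 0 := by
    by_contra hcon
    push Not at hcon
    rcases hne with h | h
    · exact h (by rw [← sum_homogeneousComponent a, map_sum]; simp [fun d => (hcon d).1])
    · exact h (by rw [← sum_homogeneousComponent a', map_sum]; simp [fun d => (hcon d).2])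
  have e' := comp_mem_two (hF.map (algebraMap ℂ ℂ)) (linForm_hom (g' 3)) e (d + 11)
  rw [map_add, comp_mul hA.h2, comp_mul hA.hG] at e'
  refine ⟨d, homogeneousComponent d a * linForm (g' 0), homogeneousComponent d a' * linForm (g' 0),
    (homogeneousComponent_isHomogeneous d a).mul (linForm_hom _),
    (homogeneousComponent_isHomogeneous d a').mul (linForm_hom _), ?_, by simpa [p0] using hd⟩
  convert Ideal.mul_mem_left _ (linForm (g' 0)) e' using 1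
  ring

/-- the relation between two frames with points that give the same bundle -/
def Rel (F : Pol ℂ) (r0 : RD ℂ) (G : Pol ℂ) (r : RD ℂ) : Prop :=
  ∃ κ1 κ2 : ℂ, (κ1 ≠ 0 ∨ κ2 ≠ 0) ∧ linForm (r0.g' 3) ∣ linForm (r.g' 3) ∧
    ∀ (b : Pol ℂ) (d : ℕ), b.IsHomogeneous (d + 1) → ((∀ i, eval (r.p i) b = 0) ↔
      ∃ a a' : Pol ℂ, a.IsHomogeneous (d + 1) ∧ a'.IsHomogeneous (d + 1) ∧
        a * (r0.pt (bc F ℂ)).H + a' * G ∈ Ideal.span {bc F ℂ, linForm (r0.g' 3)} ∧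
        b - (C κ1 * a + C κ2 * a') ∈ Ideal.span {bc F ℂ})

variable {F : Pol ℂ}

theorem rel_of_iso (hEx : S_PlEx) (hFun : S_PlFun) (hTr : S_Tr) (hF : Hyp F) {r0 r : RD ℂ}
    {E0 E : Bundle F ℂ} {ω0 s0 t10 t20 G0 ω s t1 t2 G} (hr0 : r0.Valid (bc F ℂ))
    (hr : r.Valid (bc F ℂ)) (hP0 : PlD E0 (r0.pt (bc F ℂ)) ω0 s0 t10 t20 G0)
    (hP : PlD E (r.pt (bc F ℂ)) ω s t1 t2 G) (h : Iso E E0) : Rel F r0 G0 r := by
  obtain ⟨-, -, hs0, hl, -⟩ := (hEx F hF).2.2 _ _ _ _ _ _ _ hP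
  obtain ⟨s', hs', hI, hne⟩ := ((hTr F hF).2.2.2.2.2.1 E E0 h).2.2 1 s hP.ser.fn
  obtain ⟨-, -, f3, f4⟩ := hFun F hF r0 E0 ω0 s0 t10 t20 G0 hr0 hP0
  obtain ⟨κ1, κ2, hκ⟩ := f3 s' hs'
  have hk : κ1 ≠ 0 ∨ κ2 ≠ 0 := by
    by_contra hcon
    push Not at hcon
    exact hne hs0 (LinearMap.ext fun u => by simp [hκ, hcon.1, hcon.2])
  obtain ⟨s'', -, -, e, -, -, m1, m2⟩ := f4 κ1 κ2 hk
  obtain rfl : s'' = s' := LinearMap.ext fun u => (e u).trans (hκ u).symm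
  refine ⟨κ1, κ2, hk, m1 _ (linForm_hom _) (hI ▸ hl), fun b d hb => ?_⟩
  rw [← m2 b d hb, hI]
  exact ((hFun F hF r E ω s t1 t2 G hr hP).1 b _ hb).symm

theorem frame_eq {g1' : Matrix (Fin 4) (Fin 4) ℂ} (hg : g * g' = 1)
    (hd : linForm (g' 3) ∣ linForm (g1' 3)) (h3 : g' 3 3 ≠ 0) (e3 : g1' 3 3 = g' 3 3)
    (e : ∀ (i : Fin 3) (j : Fin 4), g1' i.castSucc j = g' i.castSucc j) : g1' = g' := by
  obtain ⟨q, hq⟩ := hd
  have h0 : ∀ w x y : ℂ, eval (cpt g w x y) (linForm (g1' 3)) = 0 := fun w x y => by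
    rw [hq, map_mul, eval_U hg]
    simp
  have hX : ∀ j, g1' 3 j = (∑ i, g1' 3 i * g i 3) * g' 3 j := by
    intro j
    have a0 := h0 1 0 0
    have a1 := h0 0 1 0
    have a2 := h0 0 0 1
    have b := fun i => congrFun (congrFun hg i) j
    have b0 := b 0
    have b1 := b 1
    have b2 := b 2
    have b3 := b 3
    simp only [linForm, cpt, Fin.sum_univ_four, map_add, map_mul, eval_C, eval_X, Matrix.mul_apply,
      Matrix.one_apply] at a0 a1 a2 b0 b1 b2 b3 ⊢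
    fin_cases j <;> simp at b0 b1 b2 b3 ⊢ <;>
      linear_combination (-g1' 3 0) * b0 - g1' 3 1 * b1 - g1' 3 2 * b2 - g1' 3 3 * b3 +
        g' 0 _ * a0 + g' 1 _ * a1 + g' 2 _ * a2
  have hc : ∑ i, g1' 3 i * g i 3 = 1 :=
    mul_right_cancel₀ h3 (by rw [← hX, e3, one_mul])
  ext i j
  refine Fin.lastCases ?_ (fun i => e i j) i
  have := hX j
  rwa [hc, one_mul] at this

theorem prop_of {κ1 κ2 μ1 μ2 α β : ℂ} (hκ : κ1 ≠ 0 ∨ κ2 ≠ 0) (hα : α ≠ 0 ∨ β ≠ 0)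
    (e1 : κ1 * α + κ2 * β = 0) (e2 : μ1 * α + μ2 * β = 0) : ∃ ν, μ1 = κ1 * ν ∧ μ2 = κ2 * ν := by
  have h : κ1 * μ2 = κ2 * μ1 := by
    rcases hα with h | h
    · exact mul_right_cancel₀ h (by linear_combination μ2 * e1 - κ2 * e2)
    · exact mul_right_cancel₀ h (by linear_combination κ1 * e2 - μ1 * e1)
  rcases hκ with k | k
  · exact ⟨μ1 / κ1, by field_simp, by field_simp; linear_combination h⟩
  · exact ⟨μ2 / κ2, by field_simp; linear_combination -h, by field_simp⟩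

theorem eval_p {r : RD ℂ} (hr : r.Valid (bc F ℂ)) (i : Fin 11) : eval (r.p i) F = 0 := by
  have h := hr.e3 i
  rw [RD.f, Polynomial.evalEval_mul, evalEval_cpt, bc_self] at h
  refine (mul_eq_zero.1 h).resolve_left ?_
  simpa [Polynomial.evalEval_C] using left_ne_zero_of_mul_eq_one hr.e2

theorem dir_p {r : RD ℂ} {i : Fin 11} (h : r.fy (bc F ℂ) i ≠ 0) : dir r.g 2 (r.p i) F ≠ 0 := by
  intro e
  apply h
  rw [RD.fy, RD.f, Polynomial.derivative_C_mul, Polynomial.evalEval_mul, evalEval_derivative,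
    bc_self]
  exact mul_eq_zero_of_right _ e

/-- the first point determines all points -/
theorem xs_mem (hF : F.IsHomogeneous 6) {r0 r1 r2 : RD ℂ} {G : Pol ℂ}
    (hA : Adm2 F 0 10 (linForm (r0.g' 3)) (r0.pt (bc F ℂ)).H G) (h1 : r1.Valid (bc F ℂ))
    (h2 : r2.Valid (bc F ℂ)) (e1 : r1.g' = r0.g') (e2 : r2.g' = r0.g') (R1 : Rel F r0 G r1)
    (R2 : Rel F r0 G r2) (ex : r1.xs 0 = r2.xs 0) (ey : r1.ys 0 = r2.ys 0)
    (hy : r1.fy (bc F ℂ) 0 ≠ 0) (i : Fin 11) : r1.xs i ∈ Set.range r2.xs := by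
  have g1 : r1.g * r0.g' = 1 := e1 ▸ h1.e1
  have g2 : r2.g * r0.g' = 1 := e2 ▸ h2.e1
  have eg : r1.g = r2.g := by
    rw [← one_mul r1.g, ← g2, mul_assoc, mul_eq_one_comm.1 g1, mul_one]
  have ep : r1.p 0 = r2.p 0 := by rw [RD.p, RD.p, eg, ex, ey]
  obtain ⟨d, a, a', ha, ha', e, hne⟩ := exists_pair g1 (p := r1.p 0) hA hF (eval_p h1 0)
    (by rw [RD.p, eval_U g1]; rfl) (by rw [RD.p, eval_U g1]; rfl) (dir_p hy)
  obtain ⟨κ1, κ2, hκ, -, m1⟩ := R1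
  obtain ⟨μ1, μ2, -, -, m2⟩ := R2
  have z1 := (m1 _ d ((ha.C_mul κ1).add (ha'.C_mul κ2))).2 ⟨a, a', ha, ha', e, by simp⟩ 0
  have z2 := (m2 _ d ((ha.C_mul μ1).add (ha'.C_mul μ2))).2 ⟨a, a', ha, ha', e, by simp⟩ 0
  rw [← ep] at z2
  simp only [map_add, map_mul, eval_C] at z1 z2
  obtain ⟨ν, n1, n2⟩ := prop_of hκ hne z1 z2
  let b : Pol ℂ := ∏ j : Fin 11, (linForm (r0.g' 1) - C (r2.xs j) * linForm (r0.g' 0))
  have hb : b.IsHomogeneous (10 + 1) := by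
    have := IsHomogeneous.prod (Finset.univ : Finset (Fin 11))
      (fun j => linForm (r0.g' 1) - C (r2.xs j) * linForm (r0.g' 0)) (fun _ => 1)
      fun j _ => (linForm_hom _).sub ((linForm_hom _).C_mul _)
    simpa using this
  have ev : ∀ (x y : ℂ), eval (cpt r1.g 1 x y) b = ∏ j, (x - r2.xs j) := by
    intro x y
    simp only [b, map_prod, map_sub, map_mul, eval_C, eval_U g1]
    simp
  obtain ⟨c, c', hc, hc', f1, f2⟩ := (m2 b 10 hb).1 fun k => by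
    rw [RD.p, ← eg, ev]
    exact Finset.prod_eq_zero (Finset.mem_univ k) (sub_self _)
  have := (m1 b 10 hb).2 ⟨C ν * c, C ν * c', hc.C_mul ν, hc'.C_mul ν, by
    convert Ideal.mul_mem_left _ (C ν) f1 using 1
    ring, by
    convert f2 using 2
    rw [n1, n2, map_mul, map_mul]
    ring⟩ i
  rw [RD.p, ev, Finset.prod_eq_zero_iff] at this
  obtain ⟨j, -, hj⟩ := this
  exact ⟨j, (sub_eq_zero.1 hj).symm⟩

/-- the data that give the same bundle and have the same fourteen parameters -/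
def Fib (F : Pol ℂ) (r0 : RD ℂ) (G : Pol ℂ) : Set (RD ℂ) :=
  {r | r.Valid (bc F ℂ) ∧ Rel F r0 G r ∧ r.g' = r0.g' ∧ r.xs 0 = r0.xs 0 ∧
    r.fy (bc F ℂ) 0 ≠ 0}

theorem finite_xs (hF : F.IsHomogeneous 6) {r0 : RD ℂ} {G : Pol ℂ} (h0 : r0.Valid (bc F ℂ))
    (hA : Adm2 F 0 10 (linForm (r0.g' 3)) (r0.pt (bc F ℂ)).H G) (i : Fin 11) :
    ((fun r : RD ℂ => r.xs i) '' Fib F r0 G).Finite := by
  have hm : (r0.f (bc F ℂ)).Monic := Pt.f_monic (v := r0.pt (bc F ℂ)) (hF.map _) h0.e2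
  have hY : {y : ℂ | (r0.f (bc F ℂ)).evalEval (r0.xs 0) y = 0}.Finite := by
    refine (Polynomial.finite_setOfPred_isRoot
      (hm.map (Polynomial.evalRingHom (r0.xs 0))).ne_zero).subset fun y hy => ?_
    change Polynomial.eval y _ = 0
    rw [Polynomial.map_evalRingHom_eval]
    exact hy
  refine (hY.biUnion (t := fun y => (fun r : RD ℂ => r.xs i) '' {r ∈ Fib F r0 G | r.ys 0 = y})
    fun y _ => ?_).subset ?_
  · by_cases hne : {r ∈ Fib F r0 G | r.ys 0 = y}.Nonempty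
    · obtain ⟨r2, ⟨a1, a2, a3, a4, -⟩, a6⟩ := hne
      refine (Set.finite_range r2.xs).subset ?_
      rintro _ ⟨r1, ⟨⟨b1, b2, b3, b4, b5⟩, b6⟩, rfl⟩
      exact xs_mem hF hA b1 a1 b3 a3 b2 a2 (b4.trans a4.symm) (b6.trans a6.symm) b5 i
    · rw [Set.not_nonempty_iff_eq_empty.1 hne, Set.image_empty]
      exact Set.finite_empty
  · rintro _ ⟨r, hr, rfl⟩
    refine Set.mem_biUnion (x := r.ys 0) ?_ ⟨r, ⟨hr, rfl⟩, rfl⟩
    obtain ⟨b1, -, b3, b4, -⟩ := hr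
    have g1 : r.g * r0.g' = 1 := b3 ▸ b1.e1
    have eg : r.g = r0.g := by
      rw [← one_mul r.g, ← h0.e1, mul_assoc, mul_eq_one_comm.1 g1, mul_one]
    change (r0.f (bc F ℂ)).evalEval (r0.xs 0) (r.ys 0) = 0
    rw [RD.f, Polynomial.evalEval_mul, evalEval_cpt, bc_self, ← eg, ← b4]
    exact mul_eq_zero_of_right _ (eval_p b1 0)

theorem map_fy {D : Type} [CommRing D] [Algebra ℂ D] (t : D →ₐ[ℂ] ℂ) (r : RD D) (i : Fin 11) :
    (r.map (t : D →+* ℂ)).fy (bc F ℂ) i = t (r.fy (bc F D) i) := by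
  rw [RD.fy, RD.fy, ← map_bc t, RD.map_f, Polynomial.derivative_map]
  exact Polynomial.map_mapRingHom_evalEval (t : D →+* ℂ) _ _ _

theorem arith {d : WithBot ℕ∞} (h : ((27 : ℕ) : WithBot ℕ∞) ≤ d + (14 : ℕ)) : 13 ≤ d := by
  induction d using WithBot.recBotCoe with
  | bot => simp at h
  | coe d =>
    induction d using ENat.recTopCoe with
    | top => exact le_top
    | coe n =>
      have h1 : (((27 : ℕ) : ℕ∞) : WithBot ℕ∞) ≤ (((n + 14 : ℕ) : ℕ∞) : WithBot ℕ∞) := by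
        rw [Nat.cast_add, WithBot.coe_add]
        exact h
      have h' : 27 ≤ n + 14 := ENat.natCast_le_natCast.1 (WithBot.coe_le_coe.1 h1)
      have h2 : (((13 : ℕ) : ℕ∞) : WithBot ℕ∞) ≤ ((n : ℕ∞) : WithBot ℕ∞) :=
        WithBot.coe_le_coe.2 (ENat.natCast_le_natCast.2 (by omega))
      exact h2

end PlLowP

open PlLowP in
theorem plLow (hEx : S_PlEx) (hFun : S_PlFun) (hPt : S_Pt) (hTr : S_Tr) (hSA : S_SerAdm) :
    S_PlLow := by
  rintro F hF 𝓜 D _ _ _ _ r 𝓔 hr hind hfy ⟨ω, s, t1, t2, G, hP⟩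
  let e : Fin 27 ≃ (Fin 4 × Fin 4) ⊕ Fin 11 := (Fintype.equivFinOfCardEq (by simp)).symm
  let e' : Fin 14 ≃ (Fin 3 × Fin 4) ⊕ Fin 2 := (Fintype.equivFinOfCardEq (by simp)).symm
  let Y : (Fin 3 × Fin 4) ⊕ Fin 2 → D :=
    Sum.elim (fun p => r.g' p.1.castSucc p.2) ![r.g' 3 3, r.xs 0]
  have hval : ∀ t : D →ₐ[ℂ] ℂ, (r.map (t : D →+* ℂ)).Valid (bc F ℂ) := fun t =>
    map_bc (F := F) t ▸ hr.map _
  refine arith (schGe dimGe 𝓜.M 𝓜.π 𝓜.lft D (𝓜.cl D 𝓔) (r.g' 3 3 * r.fy (bc F D) 0) 27 14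
    (Sum.elim (fun p : Fin 4 × Fin 4 => r.g' p.1 p.2) r.xs ∘ e) (Y ∘ e') (𝓜.overC D 𝓔)
    (mul_ne_zero (hind.linearIndependent.ne_zero (Sum.inl ((3 : Fin 4), (3 : Fin 4))) :) (hfy 0))
    (hind.comp _ e.injective) fun t0 i h0 => ?_)
  obtain ⟨E0, ω0, s0, t10, t20, G0, hP0, hE0, hpt0, -⟩ := PlUpP.fibreP hEx hPt hF 𝓜 hP t0
  have hA := (hSA F hF.rg ℂ _ _ _ _ _ _ _ _ _ _ hP0.ser).1 hE0.1
  have key : ∀ t : D →ₐ[ℂ] ℂ, t (r.g' 3 3 * r.fy (bc F D) 0) ≠ 0 →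
      𝓜.cl D 𝓔 (kp t) = 𝓜.cl D 𝓔 (kp t0) → (∀ j, t ((Y ∘ e') j) = t0 ((Y ∘ e') j)) →
      r.map (t : D →+* ℂ) ∈ Fib F (r.map (t0 : D →+* ℂ)) G0 := by
    intro t ht hc hy
    have hY : ∀ k, t (Y k) = t0 (Y k) := fun k => by simpa using hy (e'.symm k)
    obtain ⟨E, ω', s', t1', t2', G', hP', -, hpt, -⟩ := PlUpP.fibreP hEx hPt hF 𝓜 hP t
    have hR := rel_of_iso hEx hFun hTr hF (hval t0) (hval t) hP0 hP'
      (((hPt F hF 𝓜).2.1 E E0).1 (hpt.trans (hc.trans hpt0.symm)))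
    rw [map_mul] at ht h0
    refine ⟨hval t, hR, ?_, hY (.inr 1), by rw [map_fy]; exact right_ne_zero_of_mul ht⟩
    obtain ⟨-, -, -, hd, -⟩ := hR
    exact frame_eq (hval t0).e1 hd (left_ne_zero_of_mul h0) (hY (.inr 0)) fun i j =>
      hY (.inl (i, j))
  rcases hi : e i with p | k
  · refine (Set.finite_singleton (t0 (r.g' p.1 p.2))).subset ?_
    rintro _ ⟨t, ht, hc, hy, rfl⟩
    have := congrFun (congrFun (key t ht hc hy).2.2.1 p.1) p.2
    simpa [hi, RD.map] using this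
  · refine (finite_xs hF.hom (hval t0) hA k).subset ?_
    rintro _ ⟨t, ht, hc, hy, rfl⟩
    exact ⟨_, key t ht hc hy, by simp [hi, RD.map]⟩

end Pool.Agent.P.MP_2b2d3b_ag
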