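import Pool.Agent.P.MP_2b2d3b_ag.PlUpA
import Pool.Agent.P.MP_2b2d3b_ag.FinA

/-!
The planar component has dimension at most thirteen.
-/

namespace Pool.Agent.P.MP_2b2d3b_ag

open MvPolynomial CategoryTheory AlgebraicGeometry Module

namespace PlUpP

/-- a line meets a sextic -/
theorem exists_root {F : Pol ℂ} (hF : F.IsHomogeneous 6) (a b : Fin 4 → ℂ) (hb : eval b F ≠ 0) :
    ∃ τ : ℂ, eval (fun i => a i + b i * τ) F = 0 := by
  let g : Matrix (Fin 4) (Fin 4) ℂ := fun i => ![a i, 0, b i, 0]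
  let q : Polynomial ℂ := (rho g F).map (Polynomial.evalRingHom 0)
  have h6 : q.coeff 6 = eval b F := by
    rw [Polynomial.coeff_map, coeff_rho g hF]
    simp [g]
  have hd : q.degree ≠ 0 := by
    intro h
    rw [Polynomial.eq_C_of_degree_eq_zero h, Polynomial.coeff_C] at h6
    exact hb (by simpa using h6.symm)
  obtain ⟨τ, hτ⟩ := IsAlgClosed.exists_root q hd
  refine ⟨τ, ?_⟩
  have := evalEval_rho g 0 τ F
  rw [← Polynomial.map_evalRingHom_eval] at this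
  have h2 := this.symm.trans hτ
  simpa [g] using h2

/-- twelve binary forms of degree eleven -/
theorem exists_chi (I : Ideal (Pol ℂ)) (h : hilb I 11 ≤ 11) :
    ∃ χ : Polynomial ℂ, χ ≠ 0 ∧ χ.natDegree ≤ 11 ∧ hm (X 1) (X 0) χ 11 ∈ I := by
  let L : Polynomial.degreeLT ℂ 12 →ₗ[ℂ] (Hd 11).map (Ideal.Quotient.mkₐ ℂ I).toLinearMap :=
    { toFun := fun χ => ⟨Ideal.Quotient.mk I (hm (X 1) (X 0) χ.1 11),
        _, hm_hom (isHomogeneous_X _ _) (isHomogeneous_X _ _) _ _, rfl⟩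
      map_add' := fun p q => Subtype.ext (by simp [hm_add])
      map_smul' := fun c p => Subtype.ext (by
        have : hm (X 1) (X 0) (c • p.1) 11 = c • hm (X 1) (X 0) p.1 11 := by
          simp [hm_eq_sum, Finset.smul_sum, smul_eq_C_mul, mul_assoc]
        simp only [SetLike.val_smul, this, RingHom.id_apply]
        rfl) }
  have hfin : Module.Finite ℂ ((Hd 11).map (Ideal.Quotient.mkₐ ℂ I).toLinearMap) := inferInstance
  have h12 : finrank ℂ (Polynomial.degreeLT ℂ 12) = 12 := by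
    rw [(Polynomial.degreeLTEquiv ℂ 12).finrank_eq]
    simp
  have hlt : finrank ℂ ((Hd 11).map (Ideal.Quotient.mkₐ ℂ I).toLinearMap) <
      finrank ℂ (Polynomial.degreeLT ℂ 12) := by
    rw [h12]
    exact Nat.lt_succ_of_le h
  obtain ⟨χ, hχ, h0⟩ := Submodule.exists_mem_ne_zero_of_ne_bot
    (LinearMap.ker_ne_bot_of_finrank_lt (f := L) hlt)
  refine ⟨χ.1, fun e => h0 (Subtype.ext e), ?_, ?_⟩
  · exact Nat.le_of_lt_succ ((Polynomial.natDegree_lt_iff_degree_lt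
      (fun e => h0 (Subtype.ext e))).2 (Polynomial.mem_degreeLT.1 χ.2))
  · exact Ideal.Quotient.eq_zero_iff_mem.1 (congrArg Subtype.val (LinearMap.mem_ker.1 hχ))

theorem eval_pol (cc : Fin 11 → ℂ) (x : ℂ) : (pol cc).eval x = ∑ i, cc i * x ^ (i : ℕ) := by
  simp [pol, Polynomial.eval_finsetSum]

/-- normalisation of a binary form through the point -/
theorem exists_norm {χ : Polynomial ℂ} (h0 : χ ≠ 0) (hd : χ.natDegree ≤ 11)
    (hc : χ.coeff 0 = 0) : ∃ (κ : ℂ) (cc : Fin 11 → ℂ) (k : Fin 11),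
      Polynomial.X * pol cc = Polynomial.C κ * χ ∧ (pol cc).eval ((k : ℕ) : ℂ) = 1 := by
  obtain ⟨ψ, rfl⟩ := Polynomial.X_dvd_iff.2 hc
  have hψ : ψ ≠ 0 := right_ne_zero_of_mul h0
  have hd' : ψ.natDegree < 11 := by
    rw [Polynomial.natDegree_X_mul hψ] at hd
    omega
  obtain ⟨k, hk⟩ : ∃ k : Fin 11, ψ.eval ((k : ℕ) : ℂ) ≠ 0 := by
    by_contra hcon
    push Not at hcon
    exact hψ (Polynomial.eq_zero_of_natDegree_lt_card_of_eval_eq_zero ψ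
      (f := fun k : Fin 11 => ((k : ℕ) : ℂ))
      (fun a b hab => Fin.ext (Nat.cast_injective hab)) hcon (by simpa using hd'))
  have hdeg : (Polynomial.C (ψ.eval ((k : ℕ) : ℂ))⁻¹ * ψ).degree < 11 :=
    (Polynomial.degree_le_of_natDegree_le (n := 10)
      ((Polynomial.natDegree_C_mul_le _ _).trans (by omega))).trans_lt (by norm_num)
  refine ⟨(ψ.eval ((k : ℕ) : ℂ))⁻¹, fun i => (Polynomial.C (ψ.eval ((k : ℕ) : ℂ))⁻¹ * ψ).coeff i,
    k, ?_, ?_⟩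
  · rw [pol_coeff hdeg]
    ring
  · rw [pol_coeff hdeg, Polynomial.eval_mul, Polynomial.eval_C, inv_mul_cancel₀ hk]

theorem eval_of_mem {p : Fin 4 → ℂ} {s : Set (Pol ℂ)} (hs : ∀ b ∈ s, eval p b = 0) {b : Pol ℂ}
    (hb : b ∈ Ideal.span s) : eval p b = 0 :=
  (Ideal.span_le.2 hs : Ideal.span s ≤ RingHom.ker (eval p)) hb

variable {F : Pol ℂ}

/-- every planar model gives a solution -/
theorem exists_sol (hFun : S_PlFun) (hLen : S_Len) (hF : Hyp F) {r : RD ℂ} {E : Bundle F ℂ}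
    {ω s t1 t2 G} (hr : r.Valid (bc F ℂ)) (hP : PlD E (r.pt (bc F ℂ)) ω s t1 t2 G)
    (hE : Good E) (h3 : r.g' 3 3 ≠ 0) (hq : eval ![0, 0, r.g' 3 3, -r.g' 3 2] F ≠ 0) :
    ∃ z1 z2, Sol (bc F ℂ) (r.pt (bc F ℂ)).H G (r.g' 3) z1 z2 := by
  obtain ⟨τ, hτ⟩ := exists_root hF.hom ![r.g' 3 3, 0, 0, -r.g' 3 0] _ hq
  set p : Fin 4 → ℂ := fun i => ![r.g' 3 3, 0, 0, -r.g' 3 0] i +
    ![0, 0, r.g' 3 3, -r.g' 3 2] i * τ with hp
  have hpF : eval p (bc F ℂ) = 0 := by rw [bc_self]; exact hτ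
  have hpl : eval p (linForm (r.g' 3)) = 0 := by
    rw [FinBP.eval_lin]
    simp [hp]
    ring
  have hp2 : ∀ b ∈ Ideal.span {bc F ℂ, linForm (r.g' 3)}, eval p b = 0 := fun b hb =>
    eval_of_mem (by rintro _ (rfl | rfl); exacts [hpF, hpl]) hb
  obtain ⟨κ1, κ2, hκ, hk⟩ : ∃ κ1 κ2 : ℂ, (κ1 ≠ 0 ∨ κ2 ≠ 0) ∧ ∀ a a' : Pol ℂ,
      a * (r.pt (bc F ℂ)).H + a' * G ∈ Ideal.span {bc F ℂ, linForm (r.g' 3)} →
      κ1 * eval p a + κ2 * eval p a' = 0 := by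
    by_cases hz : ∀ a a' : Pol ℂ,
        a * (r.pt (bc F ℂ)).H + a' * G ∈ Ideal.span {bc F ℂ, linForm (r.g' 3)} → eval p a = 0
    · exact ⟨1, 0, Or.inl one_ne_zero, fun a a' h => by simp [hz a a' h]⟩
    · push Not at hz
      obtain ⟨a0, a0', h0, h0'⟩ := hz
      refine ⟨eval p a0', -eval p a0, Or.inr (neg_ne_zero.2 h0'), fun a a' h => ?_⟩
      have h1 : (r.pt (bc F ℂ)).H * (a0' * a - a0 * a') ∈
          Ideal.span {bc F ℂ, linForm (r.g' 3)} := by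
        have := Ideal.sub_mem _ (Ideal.mul_mem_left _ a0' h) (Ideal.mul_mem_left _ a' h0)
        convert this using 1
        ring
      have h2 := hp2 _ (hP.ser.r2 _ h1)
      rw [map_sub, map_mul, map_mul] at h2
      linear_combination h2
  obtain ⟨s', hs', hs0, -, -, -, -, hmem⟩ := (hFun F hF r E ω s t1 t2 G hr hP).2.2.2 κ1 κ2 hκ
  obtain ⟨χ, hχ0, hχd, hχ⟩ := exists_chi (satI s') ((hLen F hF E s' hE hs' hs0).2.1 11)
  have hh : ∀ ψ : Polynomial ℂ, (hm (X 1) (X 0) ψ 11 : Pol ℂ).IsHomogeneous (10 + 1) := fun ψ =>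
    hm_hom (isHomogeneous_X _ _) (isHomogeneous_X _ _) _ _
  have hc0 : χ.coeff 0 = 0 := by
    obtain ⟨a, a', -, -, e1, e2⟩ := (hmem _ 10 (hh χ)).1 hχ
    have e3 := eval_of_mem (p := p) (by rintro _ rfl; exact hpF) e2
    rw [map_sub, map_add, map_mul, map_mul, eval_C, eval_C, hk a a' e1, sub_zero,
      hm_eq_sum] at e3
    have p0 : p 0 = r.g' 3 3 := by simp [hp]
    have p1 : p 1 = 0 := by simp [hp]
    simpa [Finset.sum_range_succ, p0, p1, h3] using e3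
  obtain ⟨κ, cc, k, e1, e2⟩ := exists_norm hχ0 hχd hc0
  have hχ' : hm (X 1) (X 0) (Polynomial.X * pol cc) 11 ∈ satI s' := by
    rw [e1, show 11 = 0 + 11 from rfl, hm_mul _ _ (Polynomial.natDegree_C κ).le hχd]
    exact Ideal.mul_mem_left _ _ hχ
  obtain ⟨a, a', ha, ha', e3, e4⟩ := (hmem _ 10 (hh _)).1 hχ'
  exact ⟨_, _, κ1, κ2, (r.g' 3 3)⁻¹, cc, a, a', hκ, inv_mul_cancel₀ h3, ha, ha', e3, e4, ⟨k, e2⟩,
    fun _ => rfl, fun _ => rfl⟩

/-- the ideals that occur for given values of the thirteen parameters -/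
def Ids (F : Pol ℂ) (z1 : Fin 3 → ℂ) (z2 : Fin 10 → ℂ) : Set (Ideal (Pol ℂ)) :=
  {I | ∃ (c : Fin 4 → ℂ) (cc : Fin 11 → ℂ), c 3 = 1 ∧ (∀ i, z1 i = c i.castSucc) ∧
    (∀ j, z2 j = cc j.succ) ∧ (∃ k : Fin 11, (pol cc).eval ((k : ℕ) : ℂ) = 1) ∧
    eval ![0, 0, c 3, -c 2] F ≠ 0 ∧ SmoothSec F c ∧ HomI I ∧ SatI I ∧ F ∈ I ∧ linForm c ∈ I ∧
    hm (X 1) (X 0) (Polynomial.X * pol cc) 11 ∈ I}

theorem finite_Ids (hF : F.IsHomogeneous 6) (z1 : Fin 3 → ℂ) (z2 : Fin 10 → ℂ) :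
    (Ids F z1 z2).Finite := by
  let c : Fin 4 → ℂ := ![z1 0, z1 1, z1 2, 1]
  let cc : Fin 11 → Fin 11 → ℂ := fun k =>
    Fin.cons (1 - ∑ j : Fin 10, z2 j * ((k : ℕ) : ℂ) ^ (j.succ : ℕ)) z2
  have hcc : ∀ k, (pol (cc k)).eval ((k : ℕ) : ℂ) = 1 := by
    intro k
    rw [eval_pol, Fin.sum_univ_succ]
    simp [cc]
  by_cases hc : eval ![0, 0, c 3, -c 2] F ≠ 0 ∧ SmoothSec F c
  · refine (Set.finite_iUnion fun k : Fin 11 => plFin F c (Polynomial.X * pol (cc k)) hF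
      (by simp [c]) hc.1 hc.2 (mul_ne_zero Polynomial.X_ne_zero fun e => ?_) ?_).subset ?_
    · simpa [e] using hcc k
    · refine Polynomial.natDegree_mul_le.trans ?_
      have := natDegree_pol (cc k)
      have := Polynomial.natDegree_X_le (R := ℂ)
      omega
    · rintro I ⟨c', cc', h1, h2, h3, ⟨k, hk⟩, -, -, h6⟩
      have e1 : c' = c := by
        funext i
        fin_cases i
        · exact (h2 0).symm
        · exact (h2 1).symm
        · exact (h2 2).symm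
        · exact h1
      have e2 : cc' = cc k := by
        funext i
        refine Fin.cases ?_ (fun j => (h3 j).symm) i
        rw [eval_pol, Fin.sum_univ_succ] at hk
        simp only [cc, Fin.cons_zero, h3, ← hk]
        simp
      rw [e1, e2] at h6
      exact Set.mem_iUnion.2 ⟨k, h6⟩
  · refine Set.finite_empty.subset ?_
    rintro I ⟨c', cc', h1, h2, -, -, h4, h5, -⟩
    have e1 : c' = c := by
      funext i
      fin_cases i
      · exact (h2 0).symm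
      · exact (h2 1).symm
      · exact (h2 2).symm
      · exact h1
    rw [e1] at h4 h5
    exact hc ⟨h4, h5⟩

/-- a solution determines a section with ideal in a finite set -/
theorem of_sol (hFun : S_PlFun) (hExt : S_Ext) (hF : Hyp F) {r : RD ℂ} {E : Bundle F ℂ}
    {ω s t1 t2 G} (hr : r.Valid (bc F ℂ)) (hP : PlD E (r.pt (bc F ℂ)) ω s t1 t2 G)
    (hE : Good E) (hq : eval ![0, 0, r.g' 3 3, -r.g' 3 2] F ≠ 0) (hS : SmoothSec F (r.g' 3))
    {z1 z2} (h : Sol (bc F ℂ) (r.pt (bc F ℂ)).H G (r.g' 3) z1 z2) :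
    ∃ s', IsFun E 1 s' ∧ s' ≠ 0 ∧ 10 ≤ hilb (satI s') 3 ∧ satI s' ∈ Ids F z1 z2 := by
  obtain ⟨al, be, ga, cc, a, a', h1, h2, h3, h4, h5, h6, h7, h8, h9⟩ := h
  obtain ⟨s', hs', hs0, -, hl, h10, -, hmem⟩ := (hFun F hF r E ω s t1 t2 G hr hP).2.2.2 al be h1
  obtain ⟨N, -, hN⟩ := (hExt F hF E).1 s' hE hs' hs0
  have hga : ga ≠ 0 := left_ne_zero_of_mul_eq_one h2
  refine ⟨s', hs', hs0, h10, fun i => ga * r.g' 3 i, cc, h2, h8, h9, h7, ?_, ?_, hN.homog, hN.sat,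
    (bc_self F).subst (motive := fun G => G ∈ satI s') hN.mem, ?_, (hmem _ 10 (hm_hom (isHomogeneous_X _ _) (isHomogeneous_X _ _) _ _)).2
      ⟨a, a', h3, h4, h5, h6⟩⟩
  · have e := eval_scale ga ![0, 0, r.g' 3 3, -r.g' 3 2] hF.hom
    have e' : (fun i => ga * ![0, 0, r.g' 3 3, -r.g' 3 2] i) =
        ![0, 0, ga * r.g' 3 3, -(ga * r.g' 3 2)] := by
      funext i
      fin_cases i <;> simp
    rw [← e', e]
    exact mul_ne_zero (pow_ne_zero _ hga) hq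
  · intro p hp hpF μ hμ
    exact hS p hp hpF (μ * ga) fun i => by rw [hμ i, mul_assoc]
  · have e : linForm (fun i => ga * r.g' 3 i) = C ga * linForm (r.g' 3) := by
      simp [linForm, Finset.mul_sum, mul_assoc]
    rw [e]
    exact Ideal.mul_mem_left _ _ hl

theorem eval_e2 (hF : Hyp F) : eval ![0, 0, 1, 0] F ≠ 0 := by
  intro e
  have hl := Fintype.linearIndependent_iff.mp hF.ind.2.linearIndependent
    (fun m : Mon 6 => ∏ i, (![0, 0, 1, 0] : Fin 4 → ℚ) i ^ m.1 i) (by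
      rw [← e]
      conv_rhs => rw [← form_coeff hF.hom, form, map_sum]
      refine Finset.sum_congr rfl fun m _ => ?_
      rw [eval_monomial, Finsupp.prod_fintype _ _ (by simp), Rat.smul_def, mul_comm]
      push_cast
      simp [Fin.prod_univ_four]) ⟨Finsupp.single 2 6, by simp⟩
  simp [Fin.prod_univ_four] at hl

/-- the open condition on the plane -/
theorem exists_open (hF : Hyp F) : ∃ h : Pol ℂ, h ≠ 0 ∧ ∀ c : Fin 4 → ℂ, eval c h ≠ 0 →
    c 3 ≠ 0 ∧ eval ![0, 0, c 3, -c 2] F ≠ 0 ∧ SmoothSec F c := by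
  obtain ⟨h, h0, hh⟩ := bertini F hF.good
  have key : ∀ c : Fin 4 → ℂ, eval c (aeval (![0, 0, X 3, -X 2] : Fin 4 → Pol ℂ) F) =
      eval ![0, 0, c 3, -c 2] F := by
    intro c
    rw [FinAP.eval_aeval]
    congr 2
    funext i
    fin_cases i <;> simp
  refine ⟨X 3 * aeval (![0, 0, X 3, -X 2] : Fin 4 → Pol ℂ) F * h,
    mul_ne_zero (mul_ne_zero (X_ne_zero _) fun e => ?_) h0, fun c hc => ?_⟩
  · have := key ![0, 0, 0, 1]
    rw [e, map_zero] at this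
    exact eval_e2 hF (by simpa using this.symm)
  · rw [map_mul, map_mul, key, eval_X] at hc
    exact ⟨left_ne_zero_of_mul (left_ne_zero_of_mul hc),
      right_ne_zero_of_mul (left_ne_zero_of_mul hc), hh c (right_ne_zero_of_mul hc)⟩

/-- the fibres of the planar family -/
theorem fibreP (hEx : S_PlEx) (hPt : S_Pt) (hF : Hyp F) (𝓜 : ModuliSpace F) {D : Type}
    [CommRing D] [Algebra ℂ D] [Algebra.FiniteType ℂ D] {r : RD D} {𝓔 : Family F D}
    {ω s t1 t2 G} (hP : PlD 𝓔.toBundle (r.pt (bc F D)) ω s t1 t2 G) (t : D →ₐ[ℂ] ℂ) :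
    ∃ (E : Family F ℂ) (ω' s' : _) (t1' t2' : E.M) (G' : Pol ℂ),
      PlD E.toBundle ((r.map (t : D →+* ℂ)).pt (bc F ℂ)) ω' s' t1' t2' G' ∧ Good E.toBundle ∧
      𝓜.pt E = 𝓜.cl D 𝓔 (kp t) ∧
      G' - map (t : D →+* ℂ) G ∈ Ideal.span {linForm ((r.map (t : D →+* ℂ)).g' 3)} ∧
      map (t : D →+* ℂ) (r.pt (bc F D)).H = ((r.map (t : D →+* ℂ)).pt (bc F ℂ)).H := by
  obtain ⟨x1, x2, x3⟩ := hEx F hF
  have e : (r.map (t : D →+* ℂ)).pt (bc F ℂ) = (r.pt (bc F D)).map (t : D →+* ℂ) := by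
    rw [← RD.map_pt, map_bc]
  have hq : ((r.pt (bc F D)).map (t : D →+* ℂ)).Eqs (bc F ℂ) := by
    rw [← map_bc t]
    exact hP.eqs.map _
  obtain ⟨E, hE⟩ := x1 ℂ _ hq
  have hpull := x2 D ℂ t 𝓔.toBundle E.toBundle _ ⟨_, _, _, _, _, hP⟩ hE
  obtain ⟨ω', s', t1', t2', G', hP'⟩ := hE
  refine ⟨E, ω', s', t1', t2', G', e ▸ hP', (x3 _ _ _ _ _ _ _ hP').1,
    (hPt F hF 𝓜).1 D 𝓔 t E hpull, ?_, by rw [e, Pt.map_H]⟩
  refine mem_of_rho_eq_zero hq.e1 (hP'.ser.hG.sub (hP.ser.hG.map _)) ?_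
  rw [map_sub, hP'.eG, ← map_bc t, Pt.map_G, ← hP.eG, ← rho_map, sub_eq_zero]
  rfl

end PlUpP

open PlUpP in
theorem plUp (hEx : S_PlEx) (hFun : S_PlFun) (hPt : S_Pt) (hLen : S_Len) (hUq : S_UqFree)
    (hExt : S_Ext) : S_PlUp := by
  rintro F hF 𝓜 D _ _ _ _ r 𝓔 hr hind ⟨ω, s, t1, t2, G, hP⟩
  obtain ⟨h, h0, hh⟩ := exists_open hF
  have hFD : (bc F D).IsHomogeneous 6 := hF.hom.map _
  obtain ⟨T, y1, y2, hl, hs⟩ := univ_sol (r.g' 3) hFD (r.pt (bc F D)).H_hom hP.ser.hG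
  have hev : ∀ t : D →ₐ[ℂ] ℂ, t (aeval (r.g' 3) h) = eval (fun i => t (r.g' 3 i)) h := by
    intro t
    rw [← AlgHom.comp_apply, comp_aeval]
    rfl
  have hval : ∀ t : D →ₐ[ℂ] ℂ, (r.map (t : D →+* ℂ)).Valid (bc F ℂ) := fun t =>
    map_bc (F := F) t ▸ hr.map _
  have main := schLe' 𝓜.lft (𝓜.cl D 𝓔) (IsScalarTower.toAlgHom ℂ D (MvPolynomial Vr D)) T
    (aeval (r.g' 3) h) (3 + 10) (Fin.append y1 y2) (𝓜.overC D 𝓔)
    (fun e => h0 (algebraicIndependent_iff.1 hind h e)) ?_ ?_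
  · simpa using main
  · intro t ht
    rw [hev] at ht
    obtain ⟨c3, cq, -⟩ := hh _ ht
    obtain ⟨E, ω', s', t1', t2', G', hP', hE, -, eG, eH⟩ := fibreP hEx hPt hF 𝓜 hP t
    obtain ⟨z1, z2, hz⟩ := exists_sol hFun hLen hF (hval t) hP' hE c3 cq
    refine hl t z1 z2 ?_
    rw [map_bc, eH]
    exact hz.congr eG
  · intro y0
    refine ((finite_Ids hF.hom (fun i => y0 (Fin.castAdd 10 i)) fun j => y0 (Fin.natAdd 3 j)).biUnion
      (t := fun I => {x | ∃ (E : Family F ℂ) (s' : _), Good E.toBundle ∧ IsFun E.toBundle 1 s' ∧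
        s' ≠ 0 ∧ 10 ≤ hilb (satI s') 3 ∧ satI s' = I ∧ 𝓜.pt E = x}) fun I _ => ?_).subset ?_
    · refine Set.Subsingleton.finite ?_
      rintro _ ⟨E, s', a1, a2, a3, a4, a5, rfl⟩ _ ⟨E', s'', b1, b2, b3, -, b5, rfl⟩
      exact ((hPt F hF 𝓜).2.1 E E').2
        (hUq F hF _ _ s' s'' a1 b1 a2 a3 b2 b3 (a5.trans b5.symm) a4)
    · rintro x ⟨t', hT, ht, hy, rfl⟩
      set t := t'.comp (IsScalarTower.toAlgHom ℂ D (MvPolynomial Vr D)) with htd
      have ht' : t (aeval (r.g' 3) h) ≠ 0 := ht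
      rw [hev] at ht'
      obtain ⟨-, cq, cS⟩ := hh _ ht'
      obtain ⟨E, ω', s', t1', t2', G', hP', hE, hpt, eG, eH⟩ := fibreP hEx hPt hF 𝓜 hP t
      have hz := hs t' t hT rfl
      rw [map_bc, eH] at hz
      obtain ⟨s'', a2, a3, a4, a5⟩ := of_sol hFun hExt hF (hval t) hP' hE cq cS
        (hz.congr (by rw [← neg_sub]; exact neg_mem eG))
      have e1 : (fun i => t' (y1 i)) = fun i => y0 (Fin.castAdd 10 i) := by
        funext i
        rw [← hy, Fin.append_left]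
      have e2 : (fun j => t' (y2 j)) = fun j => y0 (Fin.natAdd 3 j) := by
        funext j
        rw [← hy, Fin.append_right]
      rw [e1, e2] at a5
      exact Set.mem_biUnion a5 ⟨E, s'', hE, a2, a3, a4, rfl, hpt⟩

end Pool.Agent.P.MP_2b2d3b_ag
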