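import Pool.Agent.P.MP_2b2d3b_ag.St2
import Pool.Agent.P.MP_2b2d3b_ag.Sch
import Pool.Agent.P.MP_2b2d3b_ag.Cover
import Pool.Agent.P.MP_2b2d3b_ag.DimP

/-!
Complex points of the moduli space.
-/

namespace Pool.Agent.P.MP_2b2d3b_ag

open MvPolynomial CategoryTheory AlgebraicGeometry

theorem spec_id_comp {X : Scheme.{0}} (f : Spec (.of ℂ) ⟶ X) :
    Spec.map (CommRingCat.ofHom (AlgHom.id ℂ ℂ : ℂ →+* ℂ)) ≫ f = f := by
  have : CommRingCat.ofHom (AlgHom.id ℂ ℂ : ℂ →+* ℂ) = 𝟙 _ := rfl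
  rw [this, Spec.map_id, Category.id_comp]

theorem ptM (hT : S_Tr) (hP : S_PullEx) : S_Pt := by
  intro F hF 𝓜
  obtain ⟨-, t2, t3, -, t5, t6, -⟩ := hT F hF
  obtain ⟨p1, p2, p3, -⟩ := pts nS 𝓜.M 𝓜.π 𝓜.lft
  have k1 : ∀ (B : Type) [CommRing B] [Algebra ℂ B] [Algebra.FiniteType ℂ B] (𝓔 : Family F B)
      (t : B →ₐ[ℂ] ℂ) (E : Family F ℂ), IsPull t 𝓔.toBundle E.toBundle →
      𝓜.pt E = 𝓜.cl B 𝓔 (kp t) := fun B _ _ _ 𝓔 t E h => by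
    rw [ModuliSpace.pt, 𝓜.natural B ℂ t 𝓔 E h, p1]
  have k2 : ∀ E E' : Family F ℂ, IsPull (AlgHom.id ℂ ℂ) E.toBundle E'.toBundle →
      𝓜.pt E = 𝓜.pt E' := fun E E' h => by
    rw [ModuliSpace.pt, ModuliSpace.pt, 𝓜.natural ℂ ℂ _ E E' h, spec_id_comp]
  refine ⟨k1, fun E E' => ⟨fun h => ?_, fun h => ?_⟩, fun Z hZ h => p3 Z hZ fun f hf => ?_⟩
  · obtain ⟨B', _, _, ψ, N, hψ, h1, h2⟩ :=
      𝓜.locInj ℂ E E' (p2 _ _ (𝓜.overC ℂ E) (𝓜.overC ℂ E') h)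
    obtain ⟨σ, hσ⟩ := (cover nS ℂ B' ψ hψ).2.1 (AlgHom.id ℂ ℂ)
    obtain ⟨N', h3⟩ := hP F hF.rg B' ℂ σ N
    have h4 := h1.comp h3
    have h5 := h2.comp h3
    rw [hσ] at h4 h5
    exact h4.iso.trans h5.iso.symm
  · suffices ∀ N N' : Bundle F ℂ, Iso N N' → ∀ E E' : Family F ℂ, E.toBundle = N →
        E'.toBundle = N' → 𝓜.pt E = 𝓜.pt E' from this _ _ h E E' rfl rfl
    intro N N' h
    induction h with
    | rel N N' h => rintro E E' rfl rfl; exact k2 E E' h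
    | refl N =>
      rintro E E' rfl h
      exact k2 E E' (h ▸ IsPull.refl _)
    | symm N N' _ ih => exact fun E E' h h' => (ih E' E h' h).symm
    | trans N N' N'' h _ ih ih' =>
      rintro E E'' rfl rfl
      obtain ⟨E', rfl⟩ := t3 N' ((t6 _ _ h).1 (t2 E))
      exact (ih E E' rfl rfl).trans (ih' E' E'' rfl rfl)
  · obtain ⟨B', _, _, _, ψ, E', hψ, e⟩ := 𝓜.locSurj ℂ f hf
    obtain ⟨σ, hσ⟩ := (cover nS ℂ B' ψ hψ).2.1 (AlgHom.id ℂ ℂ)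
    obtain ⟨E, hE⟩ := t5 B' ℂ σ E'
    have := h E
    rw [ModuliSpace.pt, 𝓜.natural B' ℂ σ E' E hE, e, ← Category.assoc, ← Spec.map_comp,
      ← CommRingCat.ofHom_comp] at this
    have e2 : (σ : B' →+* ℂ).comp (ψ : ℂ →+* B') = (AlgHom.id ℂ ℂ : ℂ →+* ℂ) := by
      rw [← hσ]; rfl
    rwa [e2, spec_id_comp] at this

end Pool.Agent.P.MP_2b2d3b_ag
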