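import Pool.Agent.P.MP_2b2d3b_ag.St2
import Pool.Agent.P.MP_2b2d3b_ag.Ufd
import Pool.Agent.P.MP_2b2d3b_ag.Box
import Pool.Agent.P.MP_2b2d3b_ag.FiltB

/-!
Package Serre: a stable bundle has a section, whose zero scheme has length eleven.
-/

namespace Pool.Agent.P.MP_2b2d3b_ag

open MvPolynomial Module

namespace SerreP

variable {F : Pol ℂ}

/-- a nonzero graded functional exists -/
theorem exists_fun (hF : Hyp F) (E : Bundle F ℂ) : ∃ j s, IsFun E j s ∧ s ≠ 0 := by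
  obtain ⟨ω, hω⟩ := E.exists_pairing
  by_contra hn
  push Not at hn
  have h0 : ∀ u, ω u = 0 := fun u =>
    E.gr.induction (p := fun u => ω u = 0) (map_zero _)
      (fun u v hu hv => by rw [map_add, hu, hv, add_zero])
      (fun d u hu => hn _ _ (hω.isFun hu)) u
  have := hF.dom
  exact one_ne_zero (hω.zero_of_mul' hF.rg (r := 1) fun u v => by rw [h0]; simp)

/-- the eventual value of the Hilbert function of the zero scheme -/
theorem ev_len (hS : S_HfSer) (hF : Hyp F) {E : Bundle F ℂ} (hc : E.HasC2) {c i : ℕ} {s Λ}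
    (h : Rep c E (i + 1) s Λ) :
    ∀ᶠ d in Filter.atTop, hilb (satI s) d = 6 * i ^ 2 + 6 * i + 11 := by
  obtain ⟨x, ω, t1, t2, d1, d2, G, -, -, -, -, -, hser, -⟩ := h
  obtain ⟨a, ha⟩ := Filter.eventually_atTop.mp (hS F hF.rg E ω i s t1 t2 d1 d2 _ _ G hser)
  obtain ⟨b, hb⟩ := Filter.eventually_atTop.mp hc
  obtain ⟨hH, -⟩ := hilbF F hF.hom hF.ne_zero
  refine Filter.eventually_atTop.mpr ⟨a + b + 2 * i + 4, fun d hd => ?_⟩
  obtain ⟨e, rfl⟩ : ∃ e, d = e + 2 * i + 1 := ⟨d - (2 * i + 1), by omega⟩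
  have h1 := ha e (by omega)
  have h2 := hb (e + i) (by omega)
  have h3 := hH e (by omega)
  have h4 := hH (e + 2 * i + 1) (by omega)
  zify at h1 h2 h3 h4 ⊢
  linear_combination h1 - h2 + h3 + h4

/-- forms of low degree in the ideal of the zero scheme are multiples of `F` -/
theorem low (hR : S_RepRad) (hL : S_Lam) (hF : Hyp F) {E : Bundle F ℂ} {c i : ℕ} {s Λ}
    (h : Rep c E (i + 1) s Λ) (hn : NoFun E i) {m : ℕ} (hm : m ≤ 2 * i) :
    hilb (Ideal.span {F}) m ≤ hilb (satI s) m := by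
  have hr := (hR F hF.rg ℂ E c (i + 1) s Λ h).2.2
  obtain ⟨x, ω, t1, t2, d1, d2, G, hx, -, hxF, -, -, hser, hΛ⟩ := h
  have key : ∀ b : Pol ℂ, b.IsHomogeneous (2 * i) → b ∈ satI s → mq F ℂ b = 0 := by
    intro b hb hbs
    have h1 := (hr b _ hb).mpr hbs
    have h2 := (box ℂ x hx).2.2.2.2.1 (b * G) _ (hb.mul hser.hG) fun a => by
      have := h1 a
      rw [hΛ] at this
      rw [← this]
      congr 1
      ring
    rw [hxF] at h2
    obtain ⟨l, hl, e⟩ := (hL F hF.rg ℂ E ω (i + 1) s t1 t2 d1 d2 _ _ G hser).1 b (2 * i) i hb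
      (by omega) h2
    refine hser.pair.zero_of_mul' hF.rg fun u v => ?_
    rw [mul_comm, ← e, hn l hl]
    simp
  refine UfdP.hilb_mono fun b hb hbs => ?_
  have h1 := key (X 3 ^ (2 * i - m) * b) (by
    have := ((isHomogeneous_X ℂ (3 : Fin 4)).pow (2 * i - m)).mul hb
    rwa [show 1 * (2 * i - m) + m = 2 * i by omega] at this) (Ideal.mul_mem_left _ _ hbs)
  have h2 := hF.rg.nzd ℂ 3 _ b (by decide) (mq_zero.mp h1)
  rwa [bc_self] at h2

theorem mem_F (hL : S_Lam) (hF : Hyp F) {E : Bundle F ℂ} {c j : ℕ} {s Λ}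
    (h : Rep c E j s Λ) : F ∈ satI s := by
  obtain ⟨x, ω, t1, t2, d1, d2, G, -, -, -, -, -, hser, -⟩ := h
  have := (hL F hF.rg ℂ E ω j s t1 t2 d1 d2 _ _ G hser).2.2.2.2.2
  rwa [bc_self] at this

/-- the Gorenstein algebra of a representation -/
theorem filt (hR : S_RepRad) (hO : S_FiltOf) (hS : S_HfSer) (hF : Hyp F) {E : Bundle F ℂ}
    (hc : E.HasC2) {c i : ℕ} {s Λ} (h : Rep c E (i + 1) s Λ) :
    ∃ lam : (Pol ℂ ⧸ rad Λ) →ₗ[ℂ] ℂ,
      Filt (Ideal.Quotient.mkₐ ℂ (rad Λ)) (wc ℂ c) lam (2 * (i + 1) + 1) ∧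
      finrank ℂ (Pol ℂ ⧸ rad Λ) = 6 * i ^ 2 + 6 * i + 11 ∧
      lam.comp (Ideal.Quotient.mkₐ ℂ (rad Λ)).toLinearMap = Λ ∧
      ∀ d, finrank ℂ (V (Ideal.Quotient.mkₐ ℂ (rad Λ)) d) = hilb (satI s) d := by
  obtain ⟨h1, h2, h3⟩ := hR F hF.rg ℂ E c (i + 1) s Λ h
  have he : ∀ d, hilb (rad Λ) d = hilb (satI s) d := fun d => le_antisymm
    (UfdP.hilb_mono fun b hb hbs => (h3 b d hb).mpr hbs)
    (UfdP.hilb_mono fun b hb hbs => (h3 b d hb).mp hbs)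
  obtain ⟨lam, f1, f2, f3⟩ := hO Λ (wc ℂ c) _ (6 * i ^ 2 + 6 * i + 11) (wc_hom c) h1 h2
    ((ev_len hS hF hc h).mono fun d hd => by rw [he, hd])
  exact ⟨lam, f1, f2, f3, he⟩

theorem le_len (hR : S_RepRad) (hO : S_FiltOf) (hS : S_HfSer) (hF : Hyp F) {E : Bundle F ℂ}
    (hc : E.HasC2) {c i : ℕ} {s Λ} (h : Rep c E (i + 1) s Λ) (d : ℕ) :
    hilb (satI s) d ≤ 6 * i ^ 2 + 6 * i + 11 := by
  obtain ⟨lam, f1, f2, -, f4⟩ := filt hR hO hS hF hc h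
  have := f1.fin
  rw [← f4, ← f2]
  exact Submodule.finrank_le _

/-- for almost all hyperplanes the sextic equations have no common zero at infinity -/
theorem av (hE : S_RepEx) (hR : S_RepRad) (hL : S_Lam) (hF : Hyp F) {E : Bundle F ℂ} {j : ℕ} {s}
    (hs : IsFun E j s) (hp : Prim s) (h6 : hilb (satI s) 6 ≤ 26) :
    {c : ℕ | ¬ ∃ Λ, Rep c E j s Λ ∧
      Av6 (Ideal.Quotient.mkₐ ℂ (rad Λ)) (wc ℂ c)}.Finite := by
  have h1 := hE F hF E j s hs hp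
  obtain ⟨c0, hc0⟩ := h1.exists_notMem
  simp only [Set.mem_ofPred_eq, not_not] at hc0
  obtain ⟨Λ0, hΛ0⟩ := hc0
  have hFm := mem_F hL hF hΛ0
  have h2 := avoid hilbAdd hilbF F 6 ((satI s).restrictScalars ℂ ⊓ Hd 6) hF.hom hF.ne_zero hF.prime
    hF.ufd inf_le_right fun ρ hρ => by
      obtain ⟨b, hb, hb6, hn⟩ :=
        cop6 hilbAdd hilbF F (satI s) hF.hom hF.ne_zero hF.prime hFm h6 ρ hρ
      exact ⟨b, ⟨hb, hb6⟩, hn⟩
  refine (h1.union h2).subset fun c hc => ?_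
  by_contra hn
  simp only [Set.mem_union, Set.mem_ofPred_eq, not_or, not_not] at hn
  obtain ⟨⟨Λ, hΛ⟩, D, hD⟩ := hn
  have h3 := (hR F hF.rg ℂ E c j s Λ hΛ).2.2
  refine hc ⟨Λ, hΛ, D, fun a ha => ?_⟩
  refine SetLike.le_def.mp (sup_le_sup_right (sup_le ?_ ?_) _) (hD a ha)
  · rw [Ideal.span_singleton_le_iff_mem]
    exact Ideal.subset_span ⟨hF.hom, Ideal.Quotient.eq_zero_iff_mem.mpr ((h3 F 6 hF.hom).mpr hFm)⟩
  · refine Ideal.span_mono fun b hb => ?_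
    exact ⟨hb.2, Ideal.Quotient.eq_zero_iff_mem.mpr ((h3 b 6 hb.2).mpr hb.1)⟩

theorem prim (hLo : S_Lower) (hF : Hyp F) {E : Bundle F ℂ} {i : ℕ} {s} (hs : IsFun E (i + 1) s)
    (hs0 : s ≠ 0) (hn : NoFun E i) : Prim s := by
  by_contra hp
  obtain ⟨s', h1, h2, -⟩ := hLo F hF E i s hs hs0 hp
  exact h2 (hn s' h1)

end SerreP

open SerreP

theorem cStep (hLo : S_Lower) (hE : S_RepEx) (hR : S_RepRad) (hO : S_FiltOf) (hS : S_HfSer)
    (hL : S_Lam) : S_CStep := by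
  classical
  intro F hF E hG
  have hex := exists_fun hF E
  obtain ⟨s, hs, hs0⟩ := Nat.find_spec hex
  have hmin : ∀ k < Nat.find hex, NoFun E k := fun k hk s' h' => by
    by_contra h0
    exact Nat.find_min hex hk ⟨s', h', h0⟩
  generalize Nat.find hex = j at hs hmin
  rcases j with _ | i
  · exact absurd (hG.1 s hs) hs0
  have hn : NoFun E i := hmin i (by omega)
  have hp := prim hLo hF hs hs0 hn
  obtain ⟨hH, hH'⟩ := hilbF F hF.hom hF.ne_zero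
  rcases i with _ | _ | i
  · exact ⟨s, hs, hs0⟩
  · exfalso
    obtain ⟨c0, hc0⟩ := (hE F hF E _ s hs hp).exists_notMem
    simp only [Set.mem_ofPred_eq, not_not] at hc0
    obtain ⟨Λ0, hΛ0⟩ := hc0
    obtain ⟨c, hc⟩ := (av hE hR hL hF hs hp
      ((le_len hR hO hS hF hG.2 hΛ0 6).trans (by norm_num))).exists_notMem
    simp only [Set.mem_ofPred_eq, not_not] at hc
    obtain ⟨Λ, hΛ, hav⟩ := hc
    obtain ⟨lam, f1, f2, -, f4⟩ := filt hR hO hS hF hG.2 hΛ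
    refine k1 _ _ _ lam f1 f2 ?_ hav
    have h1 := low hR hL hF hΛ hn (m := 2) (by omega)
    have h2 : hilb (satI s) 2 ≤ hilb (Ideal.span {F}) 2 := UfdP.hilb_mono fun b _ hb =>
      (Ideal.span_singleton_le_iff_mem _).mpr (mem_F hL hF hΛ) hb
    rw [hH' 2 (by omega)] at h1 h2
    rw [f4]
    exact le_antisymm h2 h1
  · exfalso
    obtain ⟨c, hc⟩ := (hE F hF E _ s hs hp).exists_notMem
    simp only [Set.mem_ofPred_eq, not_not] at hc
    obtain ⟨Λ, hΛ⟩ := hc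
    obtain ⟨lam, f1, f2, -, f4⟩ := filt hR hO hS hF hG.2 hΛ
    have h0 := orth _ _ _ lam 3 (2 * (i + 1 + 1)) (by
      rwa [show 3 + 2 * (i + 1 + 1) = 2 * (i + 1 + 1 + 1) + 1 by omega])
    have h1 := low hR hL hF hΛ hn (m := 3) (by omega)
    have h2 := low hR hL hF hΛ hn (m := 2 * (i + 1 + 1)) le_rfl
    have h3 := hH (2 * (i + 1 + 1)) (by omega)
    have h4 := hH 3 le_rfl
    rw [f4, f4, f2] at h0
    nlinarith

theorem len (hLo : S_Lower) (hE : S_RepEx) (hR : S_RepRad) (hO : S_FiltOf) (hS : S_HfSer)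
    (hL : S_Lam) : S_Len := by
  intro F hF E s hG hs hs0
  have hp := prim (i := 0) hLo hF hs hs0 hG.1
  obtain ⟨c0, hc0⟩ := (hE F hF E _ s hs hp).exists_notMem
  simp only [Set.mem_ofPred_eq, not_not] at hc0
  obtain ⟨Λ0, hΛ0⟩ := hc0
  have hle : ∀ d, hilb (satI s) d ≤ 11 := le_len (i := 0) hR hO hS hF hG.2 hΛ0
  have hfin : {c : ℕ | ¬ ∃ Λ lam, RepF c E s Λ lam}.Finite := by
    refine (av hE hR hL hF hs hp ((hle 6).trans (by norm_num))).subset fun c hc => ?_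
    rintro ⟨Λ, hΛ, hav⟩
    obtain ⟨lam, f1, f2, f3, f4⟩ := filt (i := 0) hR hO hS hF hG.2 hΛ
    exact hc ⟨Λ, lam, hΛ, f1, f2, f3, hav, (hR F hF.rg ℂ E c 1 s Λ hΛ).2.2, f4⟩
  refine ⟨ev_len (i := 0) hS hF hG.2 hΛ0, hle, ?_, hfin⟩
  obtain ⟨c, hc⟩ := hfin.exists_notMem
  simp only [Set.mem_ofPred_eq, not_not] at hc
  obtain ⟨Λ, lam, h⟩ := hc
  rw [← h.hilb]
  exact (tri _ _ _ lam h.filt h.len h.av).1

end Pool.Agent.P.MP_2b2d3b_ag
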