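import Pool.Agent.P.MP_2b2d3b_ag.Hf
import Pool.Agent.P.MP_2b2d3b_ag.Ufd

/-!
Stability and functionals of shift zero.
-/

namespace Pool.Agent.P.MP_2b2d3b_ag

open MvPolynomial Module

attribute [local instance] HfP.cm

namespace StabP

open HfP

variable {F : Pol ℂ}

theorem ex_hom {E : Bundle F ℂ} {s : E.M →ₗ[Pol ℂ] Rq F ℂ} (hs : s ≠ 0) :
    ∃ d, ∃ v ∈ E.gr.piece d, s v ≠ 0 := by
  by_contra h
  push Not at h
  refine hs (LinearMap.ext fun u => ?_)
  induction u using E.gr.induction with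
  | h0 => simp
  | hadd u v hu hv => rw [map_add, hu, hv]; simp
  | hom d u hu => exact h d u hu

theorem X3_mem (k : ℕ) : mq F ℂ (X 3 ^ k) ∈ HomR F ℂ k :=
  mq_mem (by simpa using (isHomogeneous_X ℂ (3 : Fin 4)).pow k)

/-- the degree `d` part of a submodule -/
def pcN (E : Bundle F ℂ) (N : Submodule (Pol ℂ) E.M) (d : ℕ) : Submodule ℂ E.M where
  carrier := {u | u ∈ N ∧ u ∈ E.gr.piece d}
  add_mem' hu hv := ⟨add_mem hu.1 hv.1, add_mem hu.2 hv.2⟩
  zero_mem' := ⟨zero_mem _, zero_mem _⟩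
  smul_mem' c _ hu := ⟨N.smul_mem _ hu.1, E.gr.C_smul_mem c hu.2⟩

theorem hf_eq (E : Bundle F ℂ) (N : Submodule (Pol ℂ) E.M) (d : ℕ) :
    E.hf N d = finrank ℂ (pcN E N d) := by
  have e : {u | u ∈ N ∧ u ∈ E.gr.piece d} = (pcN E N d : Set E.M) := rfl
  unfold Bundle.hf Grading.hf
  rw [e, Submodule.span_eq]

theorem rank_RH (d : ℕ) : finrank ℂ ((Hd d).map (mk F)) = hilb (Ideal.span {F}) d := by
  have e3 : hilb (Ideal.span {F}) d = hilb (Ideal.span {bc F ℂ}) d := by rw [bc_self]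
  rw [e3]
  rfl

theorem dep (hF : Hyp F) {E : Bundle F ℂ} {s : E.M →ₗ[Pol ℂ] Rq F ℂ} (hs : s ≠ 0) {u v : E.M}
    (hu : s u = 0) (hv : s v = 0) : ∃ a b : Pol ℂ,
      (a ∉ Ideal.span {bc F ℂ} ∨ b ∉ Ideal.span {bc F ℂ}) ∧ a • u + b • v = 0 := by
  have := hF.dom
  obtain ⟨ω, hω⟩ := E.exists_pairing
  obtain ⟨_, x, -, hx⟩ := ex_hom hs
  have h1 := pluecker hF.rg hω.alt s u v x
  rw [hu, hv, zero_mul, zero_mul, zero_add, zero_add] at h1
  have h2 : ω u v = mq F ℂ 0 := by rw [map_zero]; exact (mul_eq_zero.mp h1).resolve_left hx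
  by_cases ht : ∀ m, ω u m = 0
  · obtain ⟨k, hk⟩ := hω.tor ht 3
    refine ⟨X 3 ^ k, 0, Or.inl fun h => ?_, by rw [hk, zero_smul, add_zero]⟩
    exact one_ne_zero (hF.rg.nzdR (i := 3) (by decide) k (1 : Rq F ℂ) (by
      rw [mq_zero.mpr h, zero_mul]))
  · push Not at ht
    obtain ⟨m, hm⟩ := ht
    obtain ⟨a, ha⟩ := mq_surj (ω v m)
    obtain ⟨b, hb⟩ := mq_surj (ω m u)
    obtain ⟨k, hk⟩ := hω.tor_pl hF.rg ha.symm hb.symm h2 3
    refine ⟨X 3 ^ k * a, X 3 ^ k * b, Or.inr fun h => hm ?_, ?_⟩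
    · rw [← mq_zero, map_mul] at h
      rw [hω.skew, ← hb, hF.rg.nzdR (by decide) k _ h, neg_zero]
    · rw [zero_smul, add_zero, smul_add, ← mul_smul, ← mul_smul] at hk
      exact hk

theorem bound (hF : Hyp F) {E : Bundle F ℂ} {j : ℕ} {s : E.M →ₗ[Pol ℂ] Rq F ℂ}
    (hs : IsFun E (j + 1) s) (h0 : s ≠ 0) (hp : Prim s) (N : Submodule (Pol ℂ) E.M)
    (hN : ∀ d, ∀ u ∈ N, u ∈ E.gr.piece d → s u = 0) :
    ∃ d0, ∀ d ≥ d0, E.hf N d ≤ hilb (Ideal.span {F}) d := by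
  have := hF.dom
  have := hF.ufd'
  obtain ⟨ω, hω⟩ := E.exists_pairing
  obtain ⟨e, v, hv, hsv⟩ := ex_hom h0
  obtain ⟨d0, hd0⟩ := tor_large E
  refine ⟨d0, fun d hd => ?_⟩
  have pl : ∀ u, s u = 0 → ∀ x, s x * ω v u + s v * ω u x = 0 := fun u hu x => by
    have := pluecker hF.rg hω.alt s u x v
    rw [hu] at this
    linear_combination this
  let μ : Rq F ℂ →ₗ[ℂ] Rq F ℂ := LinearMap.mulLeft ℂ (s v)
  let φ : E.M →ₗ[ℂ] Rq F ℂ := (LinearMap.mulLeft ℂ (mq F ℂ (X 3 ^ j))).comp (lc (ω v))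
  have hφ : ∀ u, φ u = mq F ℂ (X 3 ^ j) * ω v u := fun _ => rfl
  have key : (pcN E N d).map φ ≤ ((Hd d).map (mk F)).map μ := by
    rintro _ ⟨u, ⟨h1, h2⟩, rfl⟩
    obtain ⟨r, hr⟩ := div (Rq F ℂ) (Set.range s) (s v) (ω v u) (fun ρ hρ => by
      obtain ⟨x, hx⟩ := hp ρ hρ
      exact ⟨_, ⟨x, rfl⟩, hx⟩) hsv (by
      rintro _ ⟨x, rfl⟩
      exact ⟨-ω u x, by linear_combination pl u (hN d u h1 h2) x⟩)
    have a1 := HomR.mul (X3_mem (F := F) j) (hω.hom e d v hv u h2)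
    have a2 : mq F ℂ (X 3 ^ j) * ω v u = s v * (mq F ℂ (X 3 ^ j) * r) := by rw [hr]; ring
    rw [a2] at a1
    refine ⟨mq F ℂ (X 3 ^ j) * r, mem_RH.mpr ((HomR.cancel hF.hom (hs e v hv)
      (fun x hx => (mul_eq_zero.mp hx).resolve_left hsv) a1).1 d (by omega)), ?_⟩
    rw [hφ, a2]
    rfl
  have hinj : Function.Injective (φ.domRestrict (pcN E N d)) := by
    rw [injective_iff_map_eq_zero]
    rintro ⟨u, h1, h2⟩ h3
    have h4 : ω v u = 0 := hF.rg.nzdR (i := 3) (by decide) j _ h3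
    refine Subtype.ext (hd0 d hd u h2 (hω.tor fun x => ?_))
    have a1 := pl u (hN d u h1 h2) x
    rw [h4, mul_zero, zero_add] at a1
    exact (mul_eq_zero.mp a1).resolve_left hsv
  rw [hf_eq, ← rank_RH, ← LinearMap.finrank_range_of_inj hinj, LinearMap.range_domRestrict]
  exact (Submodule.finrank_mono key).trans (Submodule.finrank_map_le _ _)

end StabP

open StabP HfP

theorem lower : S_Lower := by
  intro F hF E j s hs h0 hp
  have := hF.dom
  simp only [Prim, not_forall, not_exists, not_not] at hp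
  obtain ⟨ρ, hρ, hd⟩ := hp
  choose q hq using hd
  have hc : ∀ x, ρ * x = 0 → x = 0 := fun x hx => (mul_eq_zero.mp hx).resolve_left hρ.ne_zero
  obtain ⟨e, v, hv, hsv⟩ := ex_hom h0
  obtain ⟨a, ha⟩ := mq_surj ρ
  obtain ⟨b, hb⟩ := mq_surj (q v)
  obtain ⟨c, hc1, hc2⟩ := hs e v hv
  obtain ⟨a', b', m, k, h1, -, -, h4, -⟩ := homDvd (bc F ℂ) a b c _ hF.bc.hom hF.prime' hc1
    (fun h => hsv (hc2.trans (mq_zero.mpr h))) (by
      rw [← mq_eq, map_mul, ha, hb, ← hq, hc2])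
  have hρm : ρ ∈ HomR F ℂ m := ⟨a', h1, ha.symm.trans (mq_eq.mpr h4)⟩
  obtain _ | m := m
  · exfalso
    obtain ⟨x, hx, e⟩ := hρm
    rw [← totalDegree_zero_iff_isHomogeneous, totalDegree_eq_zero_iff_eq_C] at hx
    by_cases hz : coeff 0 x = 0
    · exact hρ.ne_zero (by rw [e, hx, hz, map_zero, map_zero])
    · exact hρ.not_isUnit (by rw [e, hx]; exact ((IsUnit.mk0 _ hz).map C).map _)
  let s' : E.M →ₗ[Pol ℂ] Rq F ℂ :=
    { toFun := fun u => mq F ℂ (X 3 ^ m) * q u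
      map_add' := fun u w => by
        rw [← mul_add]
        congr 1
        rw [← sub_eq_zero]
        refine hc _ ?_
        rw [mul_sub, mul_add, ← hq, ← hq, ← hq, map_add, sub_self]
      map_smul' := fun a u => by
        rw [RingHom.id_apply, smul_mq, mul_left_comm]
        congr 1
        rw [← sub_eq_zero]
        refine hc _ ?_
        rw [mul_sub, mul_left_comm, ← hq, ← hq, map_smul, smul_mq, sub_self] }
  have hs' : ∀ u, s' u = mq F ℂ (X 3 ^ m) * q u := fun _ => rfl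
  refine ⟨s', fun d u hu => ?_, fun h => hsv ?_, fun u hu => ?_⟩
  · have a1 := HomR.mul (X3_mem (F := F) m) (hs d u hu)
    rw [hq, mul_left_comm] at a1
    exact (HomR.cancel hF.hom hρm hc a1).1 _ (by omega)
  · have a1 := hs' v
    rw [h, LinearMap.zero_apply] at a1
    rw [hq, hF.rg.nzdR (i := 3) (by decide) m _ a1.symm, mul_zero]
  · rw [hs', hc (q u) (by rw [← hq, hu]), mul_zero]

theorem stab : S_Stab := by
  classical
  intro F hF E hC
  have := hF.dom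
  obtain ⟨d1, hd1⟩ := Filter.eventually_atTop.mp hC
  have hH := (hilbF F hF.hom hF.ne_zero).1
  constructor
  · intro hS s hs
    by_contra h0
    obtain ⟨d2, hd2⟩ := Filter.eventually_atTop.mp
      (hS (LinearMap.ker s) (fun u hu v hv => dep hF h0 hu hv) 0)
    obtain ⟨d, e1, e2, e3⟩ : ∃ d, d ≥ d1 ∧ d ≥ d2 ∧ d ≥ 3 := ⟨d1 + d2 + 3, by omega, by omega, by omega⟩
    have a1 := hd1 d e1
    have a2 := hd2 d e2
    have a3 := hH d e3
    rw [hf_top] at a1 a2
    have : Module.Finite ℂ (pc E d) := Module.finite_of_finrank_pos (by nlinarith)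
    have a4 := rank_null (lc s) (pc E d)
    have a5 : LinearMap.ker (lc s) ⊓ pc E d = pcN E (LinearMap.ker s) d := rfl
    have a6 : (pc E d).map (lc s) ≤ (Hd d).map (mk F) := by
      rintro _ ⟨u, hu, rfl⟩
      exact mem_RH.mpr (hs d u hu)
    have a7 := Submodule.finrank_mono a6
    rw [rank_RH] at a7
    rw [a5, ← hf_eq] at a4
    omega
  · intro hN N hdep c
    suffices h : ∃ d0, ∀ d ≥ d0, E.hf N d ≤ hilb (Ideal.span {F}) d by
      obtain ⟨d0, hd0⟩ := h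
      refine Filter.eventually_atTop.mpr ⟨d0 + d1 + c + 3, fun d hd => ?_⟩
      have a1 := hd1 d (by omega)
      have a2 := hd0 d (by omega)
      have a3 := hH d (by omega)
      omega
    obtain ⟨ω, hω⟩ := E.exists_pairing
    by_cases ht : ∀ d, ∀ u ∈ N, u ∈ E.gr.piece d → ω u = 0
    · obtain ⟨d0, hd0⟩ := tor_large E
      refine ⟨d0, fun d hd => ?_⟩
      have : pcN E N d = ⊥ := (Submodule.eq_bot_iff _).mpr fun u hu =>
        hd0 d hd u hu.2 (hω.tor fun v => by rw [ht d u hu.1 hu.2, LinearMap.zero_apply])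
      rw [hf_eq, this, finrank_bot]
      exact Nat.zero_le _
    · push Not at ht
      obtain ⟨e, u0, h1, h2, h3⟩ := ht
      have hk : ∀ u ∈ N, ω u0 u = 0 := fun u hu => by
        obtain ⟨a, b, hab, e⟩ := hdep u0 h1 u hu
        have b1 := congrArg (ω u0) e
        have b2 := congrArg (fun x => ω x u) e
        simp only [map_add, map_smul, LinearMap.add_apply, LinearMap.smul_apply, hω.alt, smul_mq,
          map_zero, LinearMap.zero_apply, mul_zero, zero_add, add_zero] at b1 b2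
        rcases hab with h | h
        · exact (mul_eq_zero.mp b2).resolve_left fun z => h (mq_zero.mp z)
        · exact (mul_eq_zero.mp b1).resolve_left fun z => h (mq_zero.mp z)
      have ex : ∃ j, ∃ s, IsFun E j s ∧ s ≠ 0 ∧ ∀ u ∈ N, s u = 0 :=
        ⟨e + 1, ω u0, hω.isFun h2, h3, hk⟩
      obtain ⟨s, b1, b2, b3⟩ := Nat.find_spec ex
      have hmin := fun j => Nat.find_min ex (m := j)
      generalize Nat.find ex = j at b1 hmin
      obtain _ | j := j
      · exact absurd (hN s b1) b2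
      refine bound hF b1 b2 ?_ N fun _ u hu _ => b3 u hu
      by_contra hp
      obtain ⟨s', c1, c2, c3⟩ := lower F hF E j s b1 b2 hp
      exact hmin j (by omega) ⟨s', c1, c2, fun u hu => c3 u (b3 u hu)⟩

end Pool.Agent.P.MP_2b2d3b_ag
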