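import Pool.Agent.P.MP_2b2d3b_ag.St2

/-!
The linear system whose solutions are the functionals of shift one.
-/

namespace Pool.Agent.P.MP_2b2d3b_ag

open MvPolynomial Module

namespace SysP

/-- coordinates on the degree `d` part of the coordinate ring -/
structure Co (F : Pol ℂ) (d : ℕ) where
  r : ℕ
  b : Fin r → Pol ℂ
  Q : Fin r → Pol ℂ →ₗ[ℂ] ℂ
  hb : ∀ k, (b k).IsHomogeneous d
  kill : ∀ k a, Q k (F * a) = 0
  dual : ∀ k l, Q k (b l) = if l = k then 1 else 0
  span : ∀ p : Pol ℂ, p.IsHomogeneous d → p - ∑ k, C (Q k p) * b k ∈ Ideal.span {F}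

theorem exists_co (F : Pol ℂ) (d : ℕ) : Nonempty (Co F d) := by
  let π := (Ideal.Quotient.mkₐ ℂ (Ideal.span {F})).toLinearMap
  let W := (homogeneousSubmodule (Fin 4) ℂ d).map π
  have : Module.Finite ℂ W := Module.Finite.map _ _
  let β := Module.finBasis ℂ W
  choose b hb e using fun k => Submodule.mem_map.1 (β k).2
  choose Q hQ using fun k => LinearMap.exists_extend (β.coord k)
  have hQ' : ∀ k (x : W), Q k x.1 = β.repr x k := fun k x => LinearMap.congr_fun (hQ k) x
  refine ⟨⟨_, b, fun k => (Q k).comp π, hb, fun k a => ?_, fun k l => ?_, fun p hp => ?_⟩⟩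
  · have : π (F * a) = 0 := Ideal.Quotient.eq_zero_iff_mem.2
      (Ideal.mul_mem_right _ _ (Ideal.mem_span_singleton_self F))
    rw [LinearMap.comp_apply, this, map_zero]
  · rw [LinearMap.comp_apply, e, hQ', β.repr_self, Finsupp.single_apply]
  · rw [← Ideal.Quotient.eq]
    change π p = π _
    have h1 := congrArg Subtype.val (β.sum_repr ⟨π p, Submodule.mem_map_of_mem hp⟩)
    rw [Submodule.coe_sum] at h1
    rw [map_sum]
    refine h1.symm.trans (Finset.sum_congr rfl fun k _ => ?_)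
    rw [← smul_eq_C_mul, map_smul, e, LinearMap.comp_apply, Submodule.coe_smul, ← hQ']

variable {F : Pol ℂ} {B : Type} [CommRing B] [Algebra ℂ B] {B' : Type} [CommRing B'] [Algebra ℂ B']

namespace Co

variable {d : ℕ} (c : Co F d)

/-- the coordinates over `B` -/
noncomputable def PB (B : Type) [CommRing B] [Algebra ℂ B] (k : Fin c.r) : Pol B →ₗ[B] B :=
  bcL (algebraMap ℂ B) (c.Q k)

/-- the form with given coordinates -/
noncomputable def W (B : Type) [CommRing B] [Algebra ℂ B] : (Fin c.r → B) →ₗ[B] Pol B :=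
  Fintype.linearCombination B fun k => bc (c.b k) B

theorem W_apply (y : Fin c.r → B) : c.W B y = ∑ k, C (y k) * bc (c.b k) B := by
  simp only [W, Fintype.linearCombination_apply, smul_eq_C_mul]

theorem W_hom (y : Fin c.r → B) : (c.W B y).IsHomogeneous d := by
  rw [W_apply]
  exact IsHomogeneous.sum _ _ _ fun k _ => ((c.hb k).map _).C_mul _

theorem map_W (φ : B →ₐ[ℂ] B') (y : Fin c.r → B) :
    map (φ : B →+* B') (c.W B y) = c.W B' (φ ∘ y) := by
  simp only [W_apply, map_sum, map_mul, map_C, map_map_alg]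
  rfl

theorem PB_map (φ : B →ₐ[ℂ] B') (k : Fin c.r) (p : Pol B) :
    c.PB B' k (map (φ : B →+* B') p) = φ (c.PB B k p) := by
  rw [PB, ← φ.comp_algebraMap, ← bcL_comp, bcL_map]
  rfl

theorem PB_kill (k : Fin c.r) {p : Pol B} (hp : p ∈ Ideal.span {bc F B}) : c.PB B k p = 0 := by
  obtain ⟨a, rfl⟩ := Ideal.mem_span_singleton.1 hp
  have : (c.PB B k).comp (LinearMap.mulLeft B (bc F B)) = 0 :=
    lin_ext_map (algebraMap ℂ B) fun a => by
      rw [LinearMap.comp_apply, LinearMap.mulLeft_apply, ← map_mul, PB, bcL_map, c.kill, map_zero,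
        LinearMap.zero_apply]
  exact LinearMap.congr_fun this a

theorem PB_W (y : Fin c.r → B) (k : Fin c.r) : c.PB B k (c.W B y) = y k := by
  simp only [W, Fintype.linearCombination_apply, map_sum, map_smul, PB, bcL_map, c.dual,
    smul_eq_mul]
  rw [Finset.sum_eq_single k] <;> simp +contextual

theorem W_PB {p : Pol B} (hp : p.IsHomogeneous d) :
    mq F B (c.W B fun k => c.PB B k p) = mq F B p := by
  let L : Pol B →ₗ[B] Pol B := LinearMap.id - (c.W B).comp (LinearMap.pi (c.PB B))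
  have key : L p ∈ (Ideal.span {bc F B}).restrictScalars B := by
    rw [← form_coeff hp, form, map_sum]
    refine Submodule.sum_mem _ fun m _ => ?_
    have e : (monomial m.1 (coeff m.1 p) : Pol B) =
        coeff m.1 p • map (algebraMap ℂ B) (monomial m.1 1) := by simp [smul_monomial]
    rw [e, map_smul]
    refine Submodule.smul_mem _ _ ?_
    have h1 := map_mem_one (map (algebraMap ℂ B)) (c.span _ (isHomogeneous_monomial 1 m.2))
    rw [map_sub, map_sum] at h1
    simp only [map_mul, map_C] at h1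
    simp only [L, LinearMap.sub_apply, LinearMap.id_apply, LinearMap.comp_apply, W_apply,
      LinearMap.pi_apply, PB, bcL_map]
    exact h1
  exact (mq_eq.2 key).symm

theorem zero_iff {p : Pol B} (hp : p.IsHomogeneous d) :
    (∀ k, c.PB B k p = 0) ↔ mq F B p = 0 := by
  refine ⟨fun h => ?_, fun h k => c.PB_kill k (mq_zero.1 h)⟩
  rw [← c.W_PB hp, show (fun k => c.PB B k p) = 0 from funext h, map_zero, map_zero]

end Co

variable {N : ℕ} (c : ∀ d, Co F d) (a : Fin N → ℕ)

/-- unknowns -/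
abbrev Un : Type := Σ i : Fin N, Fin (c (a i + 1)).r

/-- equations -/
abbrev Eq : Type := Σ t : Fin N × Fin N × Fin N, Fin (c (a t.1 + a t.2.1 + a t.2.2 + 2)).r

/-- the value at the `i`-th generator -/
noncomputable def w (B : Type) [CommRing B] [Algebra ℂ B] (i : Fin N) :
    (Un c a → B) →ₗ[B] Pol B :=
  ((c (a i + 1)).W B).comp (LinearMap.funLeft B B fun k => ⟨i, k⟩)

theorem w_apply (i : Fin N) (y : Un c a → B) :
    w c a B i y = (c (a i + 1)).W B fun k => y ⟨i, k⟩ := rfl

theorem map_w (φ : B →ₐ[ℂ] B') (i : Fin N) (y : Un c a → B) :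
    map (φ : B →+* B') (w c a B i y) = w c a B' i (φ ∘ y) := Co.map_W _ φ _

theorem w_inj {y : Un c a → B} (h : ∀ i, mq F B (w c a B i y) = 0) : y = 0 := by
  funext ⟨i, k⟩
  have := (c (a i + 1)).PB_kill k (mq_zero.1 (h i))
  rwa [w_apply, Co.PB_W] at this

/-- the Pluecker expression -/
noncomputable def pl (Ω : Matrix (Fin N) (Fin N) (Pol B)) (i j l : Fin N) :
    (Un c a → B) →ₗ[B] Pol B :=
  (LinearMap.mulRight B (Ω j l)).comp (w c a B i) +
    (LinearMap.mulRight B (Ω l i)).comp (w c a B j) +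
    (LinearMap.mulRight B (Ω i j)).comp (w c a B l)

theorem pl_apply (Ω : Matrix (Fin N) (Fin N) (Pol B)) (i j l : Fin N) (y : Un c a → B) :
    pl c a Ω i j l y = w c a B i y * Ω j l + w c a B j y * Ω l i + w c a B l y * Ω i j := rfl

/-- the system -/
noncomputable def L (Ω : Matrix (Fin N) (Fin N) (Pol B)) : (Un c a → B) →ₗ[B] (Eq c a → B) :=
  LinearMap.pi fun e => ((c _).PB B e.2).comp (pl c a Ω e.1.1 e.1.2.1 e.1.2.2)

theorem L_apply (Ω : Matrix (Fin N) (Fin N) (Pol B)) (y : Un c a → B) (e : Eq c a) :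
    L c a Ω y e = (c _).PB B e.2 (pl c a Ω e.1.1 e.1.2.1 e.1.2.2 y) := rfl

theorem map_L (φ : B →ₐ[ℂ] B') (Ω : Matrix (Fin N) (Fin N) (Pol B)) (y : Un c a → B)
    (e : Eq c a) : φ (L c a Ω y e) = L c a (Ω.map (map (φ : B →+* B'))) (φ ∘ y) e := by
  rw [L_apply, L_apply, ← Co.PB_map]
  simp only [pl_apply, map_add, map_mul, map_w, Matrix.map_apply]

theorem map_mat (φ : B →ₐ[ℂ] B') (Ω : Matrix (Fin N) (Fin N) (Pol B)) :
    (LinearMap.toMatrix' (L c a Ω)).map φ =
      LinearMap.toMatrix' (L c a (Ω.map (map (φ : B →+* B')))) := by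
  ext e u
  rw [Matrix.map_apply, LinearMap.toMatrix'_apply, LinearMap.toMatrix'_apply, map_L]
  refine congrFun (congrArg _ (funext fun v => ?_)) e
  simp only [Function.comp_apply, Pi.single_apply]
  split_ifs <;> simp

theorem mulVec_iff (φ : B →ₐ[ℂ] B') {Ω : Matrix (Fin N) (Fin N) (Pol B)}
    (hΩ : ∀ i j, (Ω i j).IsHomogeneous (a i + a j + 1)) (y : Un c a → B') :
    ((LinearMap.toMatrix' (L c a Ω)).map φ).mulVec y = 0 ↔ ∀ i j l,
      mq F B' (w c a B' i y) * mapR F φ (mq F B (Ω j l)) +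
        mq F B' (w c a B' j y) * mapR F φ (mq F B (Ω l i)) +
        mq F B' (w c a B' l y) * mapR F φ (mq F B (Ω i j)) = 0 := by
  rw [map_mat, LinearMap.toMatrix'_mulVec]
  have hw : ∀ i, (w c a B' i y).IsHomogeneous (a i + 1) := fun i => Co.W_hom _ _
  have hp : ∀ i j l, (pl c a (Ω.map (map (φ : B →+* B'))) i j l y).IsHomogeneous
      (a i + a j + a l + 2) := fun i j l => by
    rw [pl_apply]
    refine (IsHomogeneous.add ?_ ?_).add ?_
    · rw [show a i + a j + a l + 2 = a i + 1 + (a j + a l + 1) by omega]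
      exact (hw i).mul ((hΩ j l).map _)
    · rw [show a i + a j + a l + 2 = a j + 1 + (a l + a i + 1) by omega]
      exact (hw j).mul ((hΩ l i).map _)
    · rw [show a i + a j + a l + 2 = a l + 1 + (a i + a j + 1) by omega]
      exact (hw l).mul ((hΩ i j).map _)
  simp only [mapR_mq, ← map_mul, ← map_add]
  exact ⟨fun h i j l => ((c _).zero_iff (hp i j l)).1 fun k => congrFun h ⟨(i, j, l), k⟩,
    fun h => funext fun e => ((c _).zero_iff (hp _ _ _)).2 (h _ _ _) e.2⟩

variable {E : Bundle F B} {ω : E.M →ₗ[Pol B] E.M →ₗ[Pol B] Rq F B} {m : Fin N → E.M}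

theorem semi_span {φ : B →ₐ[ℂ] B'} {σ : E.M →+ Rq F B'} (hσ : Semi φ σ)
    (hm : Submodule.span (Pol B) (Set.range m) = ⊤) {r : Rq F B'} (h : ∀ i, σ (m i) * r = 0)
    (u : E.M) : σ u * r = 0 := by
  have hu : u ∈ Submodule.span (Pol B) (Set.range m) := by rw [hm]; trivial
  induction hu using Submodule.span_induction with
  | mem x hx =>
    obtain ⟨i, rfl⟩ := hx
    exact h i
  | zero => simp
  | add x y _ _ hx hy => rw [map_add, add_mul, hx, hy, add_zero]
  | smul p x _ hx => rw [hσ, smul_mq, mul_assoc, hx, mul_zero]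

theorem zero_of_gens (hR : Rg F) (hω : Pairing E ω) (φ : B →ₐ[ℂ] B')
    (hm : Submodule.span (Pol B) (Set.range m) = ⊤) {r : Rq F B'}
    (h : ∀ j l, mapR F φ (ω (m j) (m l)) * r = 0) : r = 0 :=
  hω.zero_of_mul hR φ fun u v =>
    semi_span ((semi_id (ω.flip v)).comp (semi_mapR φ)) hm
      (fun j => semi_span ((semi_id (ω (m j))).comp (semi_mapR φ)) hm (h j) v) u

/-- values that satisfy the Pluecker relations define a semilinear functional -/
theorem exists_semi (hR : Rg F) (hω : Pairing E ω) (φ : B →ₐ[ℂ] B')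
    (hm : Submodule.span (Pol B) (Set.range m) = ⊤) (hma : ∀ i, m i ∈ E.gr.piece (a i))
    (x : Fin N → Rq F B') (hx : ∀ i, x i ∈ HomR F B' (a i + 1))
    (h : ∀ i j l, x i * mapR F φ (ω (m j) (m l)) + x j * mapR F φ (ω (m l) (m i)) +
      x l * mapR F φ (ω (m i) (m j)) = 0) :
    ∃ σ : E.M →+ Rq F B', Semi φ σ ∧ (∀ i, σ (m i) = x i) ∧
      ∀ d, ∀ u ∈ E.gr.piece d, σ u ∈ HomR F B' (d + 1) := by
  let π := Fintype.linearCombination (Pol B) m
  have hπ : Function.Surjective π.toAddMonoidHom := by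
    change Function.Surjective π
    rw [← LinearMap.range_eq_top, Fintype.range_linearCombination, hm]
  let g : (Fin N → Pol B) →+ Rq F B' := AddMonoidHom.mk'
    (fun v => ∑ i, mapR F φ (mq F B (v i)) * x i) fun u v => by
      simp only [Pi.add_apply, map_add, add_mul, Finset.sum_add_distrib]
  have hg : ∀ v, g v = ∑ i, mapR F φ (mq F B (v i)) * x i := fun _ => rfl
  have hker : π.toAddMonoidHom.ker ≤ g.ker := fun v hv => by
    have h0 : ∑ i, v i • m i = 0 := (Fintype.linearCombination_apply (Pol B) m v).symm.trans hv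
    refine zero_of_gens hR hω φ hm fun j l => ?_
    have h1 := congrArg (fun u => mapR F φ (ω (m l) u)) h0
    have h2 := congrArg (fun u => mapR F φ (ω.flip (m j) u)) h0
    simp only [map_sum, map_smul, smul_mq, map_mul, map_zero, LinearMap.flip_apply] at h1 h2
    rw [hg, Finset.mul_sum, ← neg_zero, ← add_zero (0 : Rq F B')]
    nth_rewrite 1 [← mul_zero (x j), ← h1]
    rw [← mul_zero (x l), ← h2, Finset.mul_sum, Finset.mul_sum, ← Finset.sum_add_distrib,
      ← Finset.sum_neg_distrib]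
    exact Finset.sum_congr rfl fun i _ => by
      linear_combination mapR F φ (mq F B (v i)) * h i j l
  let σ := π.toAddMonoidHom.liftOfSurjective hπ ⟨g, hker⟩
  have hσ : ∀ v, σ (π v) = g v := fun v =>
    π.toAddMonoidHom.liftOfRightInverse_comp_apply _ _ ⟨g, hker⟩ v
  have hs : Semi φ σ := fun p u => by
    obtain ⟨v, rfl⟩ := hπ u
    change σ (p • π v) = _ • σ (π v)
    rw [← map_smul, hσ, hσ, hg, hg, smul_mq, Finset.mul_sum]
    refine Finset.sum_congr rfl fun i _ => ?_
    rw [Pi.smul_apply, smul_eq_mul, map_mul, map_mul, mapR_mq, mul_assoc]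
  have hv : ∀ i, σ (m i) = x i := fun i => by
    have : m i = π (Pi.single i 1) := by simp [π]
    rw [this, hσ, hg, Finset.sum_eq_single i] <;> simp +contextual
  refine ⟨σ, hs, hv, fun d u hu => ?_⟩
  let K := E.gr.sub (fun d => (HomR F B' (d + 1)).comap σ) fun n d p hp u _ h => by
    change σ (p • u) ∈ HomR F B' (d + n + 1)
    rw [hs, smul_mq, show d + n + 1 = n + (d + 1) by omega]
    exact HomR.mul (mq_mem (hp.map _)) h
  have h1 : Submodule.span (Pol B) (Set.range m) ≤ K := by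
    rw [Submodule.span_le]
    rintro _ ⟨i, rfl⟩
    refine (E.gr.mem_sub_of_mem (hma i)).2 ?_
    change σ (m i) ∈ HomR F B' (a i + 1)
    rw [hv]
    exact hx i
  exact (E.gr.mem_sub_of_mem hu).1 (h1 (by rw [hm]; trivial))

end SysP

open SysP in
theorem sys : S_Sys := by
  intro F hR B _ _ E
  obtain ⟨ω, hω⟩ := E.exists_pairing
  have := E.rankTwo.finite
  obtain ⟨N, a, m, hma, hm⟩ := E.gr.exists_gens
  choose Ω hΩ eΩ using fun i j => hω.hom _ _ _ (hma i) _ (hma j)
  let c : ∀ d, Co F d := fun d => (exists_co F d).some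
  refine ⟨SysP.Eq c a, Un c a, inferInstance, inferInstance,
    LinearMap.toMatrix' (L c a (Matrix.of Ω)), fun t E0 hp h2 => ?_,
    fun B1 _ _ τ χ E1 hp y1 y2 h1 h2 hi => ?_⟩
  · obtain ⟨θ, hθ⟩ := hp.exists
    have key : ∀ s, IsFun E0 1 s → ∃ y : LinearMap.ker
        ((LinearMap.toMatrix' (L c a (Matrix.of Ω))).map t).mulVecLin,
        ∀ i, mq F ℂ (w c a ℂ i y.1) = s (θ (m i)) := fun s hs => by
      choose p hp ep using fun i => hs _ _ (hθ.hom _ _ (hma i))
      have e : ∀ i, mq F ℂ (w c a ℂ i fun u => (c _).PB ℂ u.2 (p u.1)) = s (θ (m i)) :=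
        fun i => ((c _).W_PB (hp i)).trans (ep i).symm
      refine ⟨⟨_, (mulVec_iff c a t hΩ _).2 fun i j l => ?_⟩, e⟩
      simp only [e, ← eΩ]
      have := pluecker_semi hR hω.alt _ (hθ.semi.comp (semi_id s)) (m i) (m j) (m l)
      rwa [AlgHom.id_comp] at this
    obtain ⟨s1, s2, f1, f2, hind⟩ := h2
    obtain ⟨y1, e1⟩ := key s1 f1
    obtain ⟨y2, e2⟩ := key s2 f2
    have hli : LinearIndependent ℂ ![y1, y2] := by
      rw [LinearIndependent.pair_iff]
      intro k1 k2 hk
      have h0 : (C k1 : Pol ℂ) • s1 + (C k2 : Pol ℂ) • s2 = 0 := by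
        refine hθ.fun_zero hR fun u => ?_
        refine (mul_one _).symm.trans (semi_span (hθ.semi.comp
          (semi_id ((C k1 : Pol ℂ) • s1 + (C k2 : Pol ℂ) • s2))) hm (r := 1) (fun i => ?_) u)
        change ((C k1 : Pol ℂ) • s1 (θ (m i)) + (C k2 : Pol ℂ) • s2 (θ (m i))) * 1 = 0
        have h3 := congrArg (fun y => mq F ℂ (w c a ℂ i y.1)) hk
        simp only [Submodule.coe_add, Submodule.coe_smul, map_add, map_smul, smul_eq_C_mul,
          map_mul, e1, e2, Submodule.coe_zero, map_zero] at h3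
        rw [mul_one, smul_mq, smul_mq, h3]
      refine hind k1 k2 fun u => ?_
      rw [mapR_id, mapR_id]
      exact LinearMap.congr_fun h0 u
    simpa using hli.fintype_card_le_finrank
  · obtain ⟨θ, hθ⟩ := hp.exists
    have key : ∀ y, ((LinearMap.toMatrix' (L c a (Matrix.of Ω))).map τ).mulVec y = 0 →
        ∃ s, IsFun E1 1 s ∧ ∀ i, s (θ (m i)) = mq F B1 (w c a B1 i y) := fun y hy => by
      obtain ⟨σ, hs, hv, hd⟩ := exists_semi a hR hω τ hm hma (fun i => mq F B1 (w c a B1 i y))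
        (fun i => mq_mem (Co.W_hom _ _)) fun i j l => by
          simpa only [eΩ, Matrix.of_apply] using (mulVec_iff c a τ hΩ y).1 hy i j l
      obtain ⟨s, e, hf⟩ := hθ.ext hR hs
      exact ⟨s, hf 1 hd, fun i => (e _).trans (hv i)⟩
    obtain ⟨s1, f1, e1⟩ := key y1 h1
    obtain ⟨s2, f2, e2⟩ := key y2 h2
    refine ⟨s1, s2, f1, f2, fun k1 k2 hk => LinearIndependent.pair_iff.1 hi k1 k2 ?_⟩
    refine w_inj c a fun i => ?_
    have h3 := hk (θ (m i))
    rw [e1, e2, mapR_mq, mapR_mq, map_w, map_w] at h3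
    simpa only [map_add, map_smul, smul_eq_C_mul, map_mul] using h3

end Pool.Agent.P.MP_2b2d3b_ag
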