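import Pool.Agent.P.MP_2b2d3b_ag.St2

/-!
Transfer of properties along pull backs.
-/

namespace Pool.Agent.P.MP_2b2d3b_ag

open MvPolynomial

namespace TrP

variable {F : Pol ℂ} {B : Type} [CommRing B] [Algebra ℂ B] {B' : Type} [CommRing B'] [Algebra ℂ B']

theorem noFun (hR : Rg F) {t : B →ₐ[ℂ] B'} {E : Bundle F B} {E1 E2 : Bundle F B'} {j : ℕ}
    (h1 : IsPull t E E1) (h2 : IsPull t E E2) (h : NoFun E1 j) : NoFun E2 j := by
  obtain ⟨θ1, h1⟩ := h1.exists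
  obtain ⟨θ2, h2⟩ := h2.exists
  intro s hs
  have hσ : Semi t (s.toAddMonoidHom.comp θ2) := fun a u => by
    change s (θ2 _) = _ • s (θ2 u)
    rw [h2.semi, map_smul]
  obtain ⟨s1, e1, e2⟩ := h1.ext hR hσ
  have := h s1 (e2 j fun d u hu => hs d _ (h2.hom d u hu))
  refine h2.fun_zero hR fun u => ?_
  have e3 := e1 u
  rw [this] at e3
  exact e3.symm

theorem good (hH : S_HfEq) (hR : Rg F) {t : B →ₐ[ℂ] ℂ} {E : Bundle F B} {E1 E2 : Bundle F ℂ}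
    (h1 : IsPull t E E1) (h2 : IsPull t E E2) (h : Good E1) : Good E2 := by
  refine ⟨noFun hR h1 h2 h.1, ?_⟩
  filter_upwards [hH F B t E E1 E2 h1 h2, h.2] with d e1 e2
  rwa [← e1]

theorem twoAt (hR : Rg F) {B'' : Type} [CommRing B''] [Algebra ℂ B''] (ψ : B →ₐ[ℂ] B'')
    (σ : B'' →ₐ[ℂ] B) (χ : B →ₐ[ℂ] ℂ) {E1 E2 : Bundle F B} {E'' : Bundle F B''}
    (hσ : σ.comp ψ = AlgHom.id ℂ B) (h1 : IsPull ψ E1 E'') (h2 : IsPull ψ E2 E'')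
    (h : TwoAt E1 χ) : TwoAt E2 χ := by
  obtain ⟨θ1, h1⟩ := h1.exists
  obtain ⟨θ2, h2⟩ := h2.exists
  obtain ⟨s1, s2, f1, f2, hi⟩ := h
  obtain ⟨r1, g1, e1⟩ := h1.ext_fun hR f1
  obtain ⟨r2, g2, e2⟩ := h1.ext_fun hR f2
  have key : ∀ r, IsFun E'' 1 r → ∃ s, IsFun E2 1 s ∧ ∀ u, s u = mapR F σ (r (θ2 u)) := by
    intro r hr
    have h3 : Semi (σ.comp ((AlgHom.id ℂ B'').comp ψ))
        ((mapR F σ : Rq F B'' →+ Rq F B).comp (r.toAddMonoidHom.comp θ2)) :=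
      (h2.semi.comp (semi_id r)).comp (semi_mapR σ)
    exact ⟨h3.lin (by rw [AlgHom.id_comp, hσ]),
      fun d u hu => HomR.map σ (hr d _ (h2.hom d u hu)), fun u => rfl⟩
  obtain ⟨p1, k1, l1⟩ := key r1 g1
  obtain ⟨p2, k2, l2⟩ := key r2 g2
  refine ⟨p1, p2, k1, k2, fun κ1 κ2 h0 => hi κ1 κ2 fun u => ?_⟩
  let ρ : E''.M →+ Rq F ℂ :=
    (AddMonoidHom.mulLeft (mq F ℂ (C κ1))).comp
      ((mapR F (χ.comp σ) : Rq F B'' →+ Rq F ℂ).comp r1.toAddMonoidHom) +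
    (AddMonoidHom.mulLeft (mq F ℂ (C κ2))).comp
      ((mapR F (χ.comp σ) : Rq F B'' →+ Rq F ℂ).comp r2.toAddMonoidHom)
  have hρ : ∀ x, ρ x = mq F ℂ (C κ1) * mapR F (χ.comp σ) (r1 x) +
      mq F ℂ (C κ2) * mapR F (χ.comp σ) (r2 x) := fun x => rfl
  have h4 : Semi (χ.comp σ) ρ := fun a x => by
    rw [hρ, hρ, r1.map_smul, r2.map_smul, smul_mq, smul_mq, smul_mq, map_mul, map_mul, mapR_mq]
    ring
  have h5 := h2.semi_zero hR h4 (fun v => by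
    rw [hρ, ← mapR_mapR, ← mapR_mapR, ← l1, ← l2]
    exact h0 v) (θ1 u)
  rwa [hρ, e1, e2, mapR_mapR, mapR_mapR, AlgHom.comp_assoc, hσ, AlgHom.comp_id] at h5

theorem satI_pull {E E' : Bundle F B} {θ : E.M →+ E'.M} (h : Pull (AlgHom.id ℂ B) E E' θ)
    {s : E.M →ₗ[Pol B] Rq F B} {s' : E'.M →ₗ[Pol B] Rq F B} (e : ∀ u, s' (θ u) = s u) :
    satI s' = satI s := by
  ext b
  rw [mem_satI, mem_satI]
  refine forall_congr' fun i => ⟨?_, ?_⟩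
  · rintro ⟨k, u, hu⟩
    obtain ⟨l, hl⟩ := h.surj u i
    have : Submodule.span (Pol B) (Set.range θ) ≤ LinearMap.range (h.semi.lin rfl) :=
      Submodule.span_le.mpr fun x hx => hx
    obtain ⟨v, hv⟩ := this hl
    refine ⟨l + k, v, ?_⟩
    have hv' : θ v = _ := hv
    rw [← e, hv', map_smul, hu, smul_mq, ← map_mul, pow_add, mul_assoc]
  · rintro ⟨k, u, hu⟩
    exact ⟨k, θ u, by rw [e, hu]⟩

theorem fun_pull (hR : Rg F) {E E' : Bundle F B} (h : IsPull (AlgHom.id ℂ B) E E') (j : ℕ) :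
    (∀ s, IsFun E j s → ∃ s', IsFun E' j s' ∧ satI s' = satI s ∧ (s ≠ 0 → s' ≠ 0)) ∧
    ∀ s', IsFun E' j s' → ∃ s, IsFun E j s ∧ satI s = satI s' ∧ (s' ≠ 0 → s ≠ 0) := by
  obtain ⟨θ, h⟩ := h.exists
  refine ⟨fun s hs => ?_, fun s' hs' => ?_⟩
  · obtain ⟨s', h1, h2⟩ := h.ext_fun hR hs
    simp only [mapR_id] at h2
    exact ⟨s', h1, satI_pull h h2, fun h0 h3 => h0 (LinearMap.ext fun u => by
      rw [← h2, h3]; rfl)⟩
  · exact ⟨s'.comp (h.semi.lin rfl), fun d u hu => hs' d _ (h.hom d u hu),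
      (satI_pull h fun u => rfl).symm,
      fun h0 h3 => h0 (h.fun_zero hR fun u => LinearMap.congr_fun h3 u)⟩

theorem alg_id (t : ℂ →ₐ[ℂ] ℂ) : t = AlgHom.id ℂ ℂ := Subsingleton.elim _ _

end TrP

open TrP in
theorem tr (hH : S_HfEq) (hS : S_Stab) (hP : S_PullEx) : S_Tr := by
  intro F hF
  have hR := hF.rg
  have fam : ∀ (B : Type) [CommRing B] [Algebra ℂ B] (E : Bundle F B),
      (∀ t : B →ₐ[ℂ] ℂ, ∃ E0, IsPull t E E0 ∧ Good E0) → ∃ E' : Family F B, E'.toBundle = E :=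
    fun B _ _ E h => ⟨⟨E, fun t => by
      obtain ⟨E0, h1, h2⟩ := h t
      exact ⟨E0, h1, (hS F hF E0 h2.2).mpr h2.1, h2.2⟩⟩, rfl⟩
  have fib : ∀ (B : Type) [CommRing B] [Algebra ℂ B] (E : Family F B) (t : B →ₐ[ℂ] ℂ),
      ∃ E0, IsPull t E.toBundle E0 ∧ Good E0 := fun B _ _ E t => by
    obtain ⟨E0, h1, h2, h3⟩ := E.fibre t
    exact ⟨E0, h1, (hS F hF E0 h3).mp h2, h3⟩
  refine ⟨fun B _ _ t E E1 E2 => good hH hR, fun E => ?_, fun E h => fam ℂ E fun t => ?_, fam,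
    fun B B' _ _ _ _ φ E => ?_, fun E E' h => ?_,
    fun B B'' _ _ _ _ ψ σ χ E1 E2 E'' => twoAt hR ψ σ χ⟩
  · obtain ⟨E0, h1, h2⟩ := fib ℂ E (AlgHom.id ℂ ℂ)
    exact good hH hR h1 (IsPull.refl _) h2
  · exact ⟨E, by rw [alg_id t]; exact IsPull.refl E, h⟩
  · obtain ⟨E', h⟩ := hP F hR B B' φ E.toBundle
    obtain ⟨E'', rfl⟩ := fam B' E' fun t => by
      obtain ⟨E1, h1⟩ := hP F hR B' ℂ t E'
      obtain ⟨E0, h2, h3⟩ := fib B E (t.comp φ)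
      exact ⟨E1, h1, good hH hR h2 (h.comp h1) h3⟩
    exact ⟨E'', h⟩
  · let P : Bundle F ℂ → Bundle F ℂ → Prop := fun E E' => (Good E → Good E') ∧ (Two E → Two E') ∧
      ∀ j s, IsFun E j s → ∃ s', IsFun E' j s' ∧ satI s' = satI s ∧ (s ≠ 0 → s' ≠ 0)
    have ptr : ∀ E E' E'', P E E' → P E' E'' → P E E'' := fun E E' E'' h h' =>
      ⟨h'.1 ∘ h.1, h'.2.1 ∘ h.2.1, fun j s hs => by
        obtain ⟨s', h1, h2, h3⟩ := h.2.2 j s hs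
        obtain ⟨s'', h4, h5, h6⟩ := h'.2.2 j s' h1
        exact ⟨s'', h4, h5.trans h2, h6 ∘ h3⟩⟩
    suffices P E E' ∧ P E' E from this.1
    induction h with
    | rel E E' h =>
      exact ⟨⟨good hH hR (IsPull.refl _) h,
        twoAt hR _ _ _ (AlgHom.comp_id _) h (IsPull.refl _), fun j => (fun_pull hR h j).1⟩,
        good hH hR h (IsPull.refl _), twoAt hR _ _ _ (AlgHom.comp_id _) (IsPull.refl _) h,
        fun j => (fun_pull hR h j).2⟩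
    | refl E => exact ⟨⟨id, id, fun j s hs => ⟨s, hs, rfl, id⟩⟩, id, id,
        fun j s hs => ⟨s, hs, rfl, id⟩⟩
    | symm E E' _ ih => exact ih.symm
    | trans E E' E'' _ _ ih ih' => exact ⟨ptr _ _ _ ih.1 ih'.1, ptr _ _ _ ih'.2 ih.2⟩

end Pool.Agent.P.MP_2b2d3b_ag
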