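import Pool.Agent.P.MP_2b2d3b_ag.St2
import Pool.Agent.P.MP_2b2d3b_ag.Box

/-!
Uniqueness of the bundle attached to Serre data, and the link with extensions.
-/

namespace Pool.Agent.P.MP_2b2d3b_ag

open MvPolynomial Module

namespace UqP

variable {F : Pol ℂ} {B : Type} [CommRing B] [Algebra ℂ B]

theorem fun_cp (hF : F.IsHomogeneous 6) {E : Bundle F B} {j : ℕ} {s : E.M →ₗ[Pol B] Rq F B}
    (hs : IsFun E j s) (d : ℕ) (u : E.M) :
    s (E.gr.cp d u) = (grR hF B).cp (d + j) (s u) := by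
  induction u using E.gr.induction with
  | h0 => simp
  | hadd u v hu hv => simp only [map_add, hu, hv]
  | hom e u hu =>
    rw [Grading.cp_of_mem hu, Grading.cp_of_mem (G := grR hF B) (hs e u hu)]
    by_cases h : d = e <;> simp [h]

theorem cancel {g : Pol B} (h : ∀ a, g * a ∈ Ideal.span {bc F B} → a ∈ Ideal.span {bc F B})
    {r : Rq F B} (hr : mq F B g * r = 0) : r = 0 := by
  obtain ⟨a, rfl⟩ := mq_surj r
  rw [← map_mul, mq_zero] at hr
  exact mq_zero.mpr (h a hr)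

theorem mem2 {g a : Pol B} :
    a ∈ Ideal.span {bc F B, g} ↔ ∃ r : Pol B, mq F B a = mq F B r * mq F B g := by
  rw [Ideal.mem_span_pair]
  constructor
  · rintro ⟨y, r, rfl⟩
    exact ⟨r, by rw [map_add, map_mul, map_mul, mq_F, mul_zero, zero_add]⟩
  · rintro ⟨r, h⟩
    rw [← map_mul, mq_eq] at h
    obtain ⟨y, hy⟩ := Ideal.mem_span_singleton'.mp h
    exact ⟨y, r, by rw [hy]; ring⟩

theorem of_mem3 {g1 g2 a : Pol B} (h : a ∈ Ideal.span {bc F B, g1, g2}) :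
    ∃ y0 y1 y2 : Pol B, a = y0 * bc F B + y1 * g1 + y2 * g2 := by
  obtain ⟨y0, z, hz, rfl⟩ := Ideal.mem_span_insert.mp h
  obtain ⟨y1, y2, rfl⟩ := Ideal.mem_span_pair.mp hz
  exact ⟨y0, y1, y2, by ring⟩

section Ser

variable {E : Bundle F B} {ω : E.M →ₗ[Pol B] E.M →ₗ[Pol B] Rq F B} {s : E.M →ₗ[Pol B] Rq F B}
  {t1 t2 : E.M} {d1 d2 : ℕ} {g1 g2 G : Pol B}

/-- the section of degree zero of a model -/
theorem exists_e (hR : Rg F) (h : Ser E ω 1 s t1 t2 d1 d2 g1 g2 G) (hr : Refl E ω s t1 g1 g2 G) :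
    ∃ e ∈ E.gr.piece 0, ω e t1 = mq F B g1 ∧ s e = 0 ∧ ω e t2 = mq F B g2 := by
  obtain ⟨u, h1, h2⟩ := hr.surj g1 0 (by
    rw [zero_mul, add_zero]
    exact Ideal.mul_mem_right _ _ (Ideal.subset_span (by simp)))
  have e1 : ω (E.gr.cp 0 u) t1 = mq F B g1 := by
    rw [h.pair.skew, fun_cp hR.hom (h.pair.isFun h.m1), h.pair.skew, h1, map_neg, neg_neg,
      zero_add]
    exact Grading.cp_self (G := grR hR.hom B) (mq_mem h.h1)
  have e2 : s (E.gr.cp 0 u) = 0 := by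
    rw [fun_cp hR.hom h.fn, h2, map_zero, map_zero]
  refine ⟨_, E.gr.cp_mem 0 u, e1, e2, ?_⟩
  have := pluecker hR h.pair.alt s (E.gr.cp 0 u) t1 t2
  rw [e1, e2, h.e1, h.e2, h.pair.skew _ t2] at this
  rw [← sub_eq_zero]
  apply cancel h.r1
  linear_combination -this

/-- change of the first section and of the pairing -/
theorem change (hR : Rg F) (h : Ser E ω 1 s t1 t2 d1 d2 g1 g2 G) (hr : Refl E ω s t1 g1 g2 G)
    {k k' : B} (hk : k * k' = 1) {y : Pol B} (hy : y.IsHomogeneous d1) :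
    ∃ ω' t1', Ser E ω' 1 s t1' t2 d1 d2 g1 g2 (C k * (G + y * g2)) := by
  obtain ⟨e, he, e1, e2, e3⟩ := exists_e hR h hr
  have hC : (C k : Pol B).IsHomogeneous 0 := isHomogeneous_C _ k
  refine ⟨(C k : Pol B) • ω, t1 + y • e, ⟨fun u => ?_, fun d d' u hu v hv => ?_,
    fun q hq hF hi => ?_⟩, h.fn, add_mem h.m1 ?_, h.m2, h.h1, h.h2, ?_, ?_, h.e2, ?_, h.r1, h.r2⟩
  · simp only [LinearMap.smul_apply, h.pair.alt, smul_zero]
  · simp only [LinearMap.smul_apply, smul_mq]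
    simpa using HomR.mul (mq_mem hC) (h.pair.hom d d' u hu v hv)
  · obtain ⟨u, v, b, hb, e⟩ := h.pair.unit q hq hF hi
    refine ⟨u, v, C k * b, fun h' => hb ?_, by
      simp only [LinearMap.smul_apply, smul_mq, e, map_mul]⟩
    have := q.mul_mem_left (C k') h'
    rwa [← mul_assoc, ← map_mul, mul_comm k', hk, map_one, one_mul] at this
  · simpa using E.gr.smul_mem d1 0 y e hy he
  · have := hy.mul h.h2
    rw [← add_assoc] at this
    simpa using hC.mul (h.hG.add this)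
  · rw [map_add, map_smul, e2, smul_zero, add_zero, h.e1]
  · simp only [LinearMap.smul_apply, map_add, map_smul, LinearMap.add_apply, smul_mq, h.eG, e3,
      map_mul]
    ring

theorem npull_id (hP : S_NPull) (hR : Rg F) {E' : Bundle F B}
    {ω' : E'.M →ₗ[Pol B] E'.M →ₗ[Pol B] Rq F B} {s' : E'.M →ₗ[Pol B] Rq F B} {t1' t2' : E'.M}
    {G' : Pol B} (h : Ser E ω 1 s t1 t2 d1 d2 g1 g2 G)
    (h' : Ser E' ω' 1 s' t1' t2' d1 d2 g1 g2 G') (hr : Refl E' ω' s' t1' g1 g2 G')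
    (hG : G' - G ∈ Ideal.span {bc F B, g1}) : IsPull (AlgHom.id ℂ B) E E' := by
  obtain ⟨θ, hθ, -⟩ := hP F hR B B (AlgHom.id ℂ B) E E' ω ω' 1 s s' t1 t2 t1' t2' d1 d2 g1 g2 G G'
    h (by simpa only [map_algId] using h') (by simpa only [map_algId] using hr)
    (by simpa only [map_algId] using hG)
  exact hθ.isPull

end Ser

omit [Algebra ℂ B] in
theorem ok_mul {x : Box B} (hx : x.Ok) {h1 h2 : Polynomial B} (m1 : h1.Monic) (m2 : h2.Monic) :
    (x.mul h1 h2).Ok where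
  hF := hx.hF
  hu := hx.hu
  m1 := hx.m1.mul m1
  d1 := by
    change (x.a1 * h1).natDegree = x.n1 + h1.natDegree + 1
    rw [hx.m1.natDegree_mul m1, hx.d1]
    ring
  m2 := hx.m2.mul m2
  d2 := by
    change (x.a2 * h2).natDegree = x.n2 + h2.natDegree + 1
    rw [hx.m2.natDegree_mul m2, hx.d2]
    ring

omit [Algebra ℂ B] in
theorem g1_mul {x : Box B} (hx : x.Ok) (h1 h2 : Polynomial B) :
    (x.mul h1 h2).g1 = hm (X 2) (wc B x.c) h1 h1.natDegree * x.g1 := by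
  change hm (X 2) (wc B x.c) (x.a1 * h1) (x.n1 + h1.natDegree + 1) = _
  rw [show x.n1 + h1.natDegree + 1 = x.n1 + 1 + h1.natDegree by ring,
    hm_mul _ _ hx.d1.le le_rfl, mul_comm]
  rfl

omit [Algebra ℂ B] in
theorem g2_mul {x : Box B} (hx : x.Ok) (h1 h2 : Polynomial B) :
    (x.mul h1 h2).g2 = hm (X 1) (wc B x.c) h2 h2.natDegree * x.g2 := by
  change hm (X 1) (wc B x.c) (x.a2 * h2) (x.n2 + h2.natDegree + 1) = _
  rw [show x.n2 + h2.natDegree + 1 = x.n2 + 1 + h2.natDegree by ring,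
    hm_mul _ _ hx.d2.le le_rfl, mul_comm]
  rfl

/-- Serre data in a larger box -/
theorem enlarge {E : Bundle F B} {ω : E.M →ₗ[Pol B] E.M →ₗ[Pol B] Rq F B}
    {s : E.M →ₗ[Pol B] Rq F B} {t1 t2 : E.M} {x : Box B} {G : Pol B} (hx : x.Ok)
    (hF : x.F = bc F B) (h : Ser E ω 1 s t1 t2 x.n1 x.n2 x.g1 x.g2 G) {h1 h2 : Polynomial B}
    (m1 : h1.Monic) (m2 : h2.Monic) {y : Box B} (hy : x.mul h1 h2 = y) :
    ∃ t1' t2' G', Ser E ω 1 s t1' t2' y.n1 y.n2 y.g1 y.g2 G' ∧ ∀ a, y.mu (G' * a) = x.mu (G * a) := by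
  subst hy
  have H1 := hm_hom (isHomogeneous_X B 2) (wc_hom x.c) h1 h1.natDegree
  have H2 := hm_hom (isHomogeneous_X B 1) (wc_hom x.c) h2 h2.natDegree
  obtain ⟨b1, b2, -⟩ := box B _ (ok_mul hx m1 m2)
  have hF' : (x.mul h1 h2).F = bc F B := hF
  rw [hF'] at b1 b2
  refine ⟨hm (X 2) (wc B x.c) h1 h1.natDegree • t1, hm (X 1) (wc B x.c) h2 h2.natDegree • t2,
    hm (X 2) (wc B x.c) h1 h1.natDegree * hm (X 1) (wc B x.c) h2 h2.natDegree * G,
    ⟨h.pair, h.fn, E.gr.smul_mem _ _ _ _ H1 h.m1, E.gr.smul_mem _ _ _ _ H2 h.m2,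
      hm_hom (isHomogeneous_X B 2) (wc_hom x.c) _ _, hm_hom (isHomogeneous_X B 1) (wc_hom x.c) _ _,
      ?_, ?_, ?_, ?_, b1, b2⟩, fun a => ?_⟩
  · have := (H1.mul H2).mul h.hG
    change _root_.MvPolynomial.IsHomogeneous _ (x.n1 + h1.natDegree + (x.n2 + h2.natDegree) + 1)
    convert this using 1
    ring
  · rw [map_smul, h.e1, g1_mul hx, map_mul, smul_mq]
  · rw [map_smul, h.e2, g2_mul hx, map_mul, smul_mq]
  · simp only [map_smul, LinearMap.smul_apply, smul_mq, h.eG, map_mul]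
    ring
  · rw [mul_assoc]
    exact (box B x hx).2.2.2.2.2.2.2 h1 h2 m1 m2 _

omit [Algebra ℂ B] in
/-- every polynomial is homogeneous modulo `w - 1` -/
theorem exists_hom {w : Pol B} (hw : w.IsHomogeneous 1) (a : Pol B) :
    ∃ (d : ℕ) (b : Pol B), b.IsHomogeneous d ∧ a - b ∈ Ideal.span {w - 1} := by
  let N := a.totalDegree
  refine ⟨N, ∑ d ∈ Finset.range (N + 1), w ^ (N - d) * homogeneousComponent d a, ?_, ?_⟩
  · refine IsHomogeneous.sum _ _ _ fun d hd => ?_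
    have := (hw.pow (N - d)).mul (homogeneousComponent_isHomogeneous d a)
    have h := Finset.mem_range.mp hd
    rwa [show 1 * (N - d) + d = N by omega] at this
  · nth_rewrite 1 [← sum_homogeneousComponent a]
    rw [← Finset.sum_sub_distrib]
    refine Ideal.sum_mem _ fun d _ => ?_
    obtain ⟨z, hz⟩ := sub_one_dvd_pow_sub_one w (N - d)
    refine Ideal.mem_span_singleton'.mpr ⟨-(z * homogeneousComponent d a), ?_⟩
    linear_combination homogeneousComponent d a * hz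

omit [Algebra ℂ B] in
theorem rad_le {Λ Λ' : Pol B →ₗ[B] B} {w : Pol B} (hw : w.IsHomogeneous 1) (h : w - 1 ∈ rad Λ)
    (h' : w - 1 ∈ rad Λ')
    (hh : ∀ (b : Pol B) (d : ℕ), b.IsHomogeneous d → b ∈ rad Λ → b ∈ rad Λ') : rad Λ ≤ rad Λ' := by
  intro a ha
  obtain ⟨d, b, hb, e⟩ := exists_hom hw a
  have e1 := (Ideal.span_singleton_le_iff_mem _).mpr h e
  have e2 := (Ideal.span_singleton_le_iff_mem _).mpr h' e
  have h1 := hh b d hb (by simpa using (rad Λ).sub_mem ha e1)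
  simpa using (rad Λ').add_mem e2 h1

section RepF

variable {E : Bundle F ℂ} {c : ℕ} {s : E.M →ₗ[Pol ℂ] Rq F ℂ} {Λ : Pol ℂ →ₗ[ℂ] ℂ}
  {lam : (Pol ℂ ⧸ rad Λ) →ₗ[ℂ] ℂ}

theorem lam_ev (h : RepF c E s Λ lam) (a : Pol ℂ) :
    lam (Ideal.Quotient.mkₐ ℂ (rad Λ) a) = Λ a := LinearMap.congr_fun h.comp a

theorem w_mem (h : RepF c E s Λ lam) : wc ℂ c - 1 ∈ rad Λ := by
  rw [← Ideal.Quotient.eq]
  exact h.filt.hw

theorem lam_ne (h : RepF c E s Λ lam) : lam ≠ 0 := by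
  intro h0
  have : Subsingleton (Pol ℂ ⧸ rad Λ) :=
    ⟨fun a b => by
      rw [h.filt.perf a fun _ => by rw [h0]; rfl, h.filt.perf b fun _ => by rw [h0]; rfl]⟩
  have h1 := h.len
  rw [finrank_zero_of_subsingleton] at h1
  omega

theorem exists_one (h : RepF c E s Λ lam) : ∃ a, Λ a ≠ 0 := by
  by_contra h0
  push Not at h0
  refine lam_ne h (LinearMap.ext fun z => ?_)
  obtain ⟨a, rfl⟩ := h.filt.surj z
  rw [lam_ev h, h0]
  rfl

theorem ker_eq (h : RepF c E s Λ lam) (h3 : 10 ≤ hilb (satI s) 3) {a : Pol ℂ} (ha : Λ a = 0) :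
    ∃ b : Pol ℂ, b.IsHomogeneous 3 ∧ a - b ∈ rad Λ := by
  have := h.filt.fin
  have h1 : V (Ideal.Quotient.mkₐ ℂ (rad Λ)) 3 ≤ LinearMap.ker lam := by
    rintro _ ⟨b, hb, rfl⟩
    exact h.filt.kill b hb
  have h2 : finrank ℂ (LinearMap.ker lam) < 11 := by
    rw [← h.len]
    exact Submodule.finrank_lt fun e => lam_ne h (LinearMap.ker_eq_top.mp e)
  have h4 := Submodule.eq_of_le_of_finrank_le h1 (by rw [h.hilb]; omega)
  have h5 : Ideal.Quotient.mkₐ ℂ (rad Λ) a ∈ LinearMap.ker lam := by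
    rw [LinearMap.mem_ker, lam_ev h, ha]
  rw [← h4] at h5
  obtain ⟨b, hb, e⟩ := h5
  exact ⟨b, hb, Ideal.Quotient.eq.mp e.symm⟩

end RepF

end UqP

open UqP

theorem uq (hNB : S_NB) (hP : S_NPull) (hA : S_SerAdm) : S_Uq := by
  intro F hF E E' c s s' Λ κ h0 h0' hκ hr hr'
  have hR := hF.rg
  obtain ⟨x, ω, t1, t2, d1, d2, G, hx, hc, hxF, e1, e2, hs, hΛ⟩ := hr
  obtain ⟨x', ω', t1', t2', d1', d2', G', hx', hc', hxF', e1', e2', hs', hΛ'⟩ := hr'
  obtain rfl : d1 = x.n1 := by omega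
  obtain rfl : d2 = x.n2 := by omega
  obtain rfl : d1' = x'.n1 := by omega
  obtain rfl : d2' = x'.n2 := by omega
  have hu : x'.u = x.u := by
    have f := hx.hu
    have f' := hx'.hu
    rw [hc', hxF'] at f'
    rw [hc, hxF] at f
    linear_combination x.u * f' - x'.u * f
  have hy : x'.mul x.a1 x.a2 = x.mul x'.a1 x'.a2 := by
    simp only [Box.mul, hc, hc', hu, hxF, hxF', hx.d1, hx.d2, hx'.d1, hx'.d2, mul_comm x'.a1,
      mul_comm x'.a2]
    congr 1 <;> ring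
  obtain ⟨u1, u2, H, hH, m⟩ := enlarge hx hxF hs hx'.m1 hx'.m2 rfl
  obtain ⟨u1', u2', H', hH', m'⟩ := enlarge hx' hxF' hs' hx.m1 hx.m2 hy
  have hyo := ok_mul hx hx'.m1 hx'.m2
  have hyF : (x.mul x'.a1 x'.a2).F = bc F ℂ := hxF
  generalize x.mul x'.a1 x'.a2 = y at hH m hH' m' hyo hyF
  have hhom : (H' - C κ * H).IsHomogeneous (y.n1 + y.n2 + 1) :=
    hH'.hG.sub (by simpa using (isHomogeneous_C (Fin 4) κ).mul hH.hG)
  have hJ := (box ℂ y hyo).2.2.2.2.1 _ _ hhom fun b => by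
    rw [sub_mul, map_sub, mul_assoc, ← smul_eq_C_mul, map_smul, m, m', ← hΛ, ← hΛ',
      LinearMap.smul_apply, sub_self]
  rw [hyF] at hJ
  obtain ⟨y0, y1, y2, e⟩ := of_mem3 hJ
  have e' := congrArg (homogeneousComponent (y.n1 + y.n2 + 1)) e
  rw [homogeneousComponent_eq_self hhom, map_add, add_assoc, comp_mul hH.h2] at e'
  have hm2 : homogeneousComponent (y.n1 + (y.n2 + 1)) (y0 * bc F ℂ + y1 * y.g1) ∈
      Ideal.span {bc F ℂ, y.g1} :=
    comp_mem_two hF.bc.hom hH.h1 (Ideal.mem_span_pair.mpr ⟨y0, y1, rfl⟩) _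
  obtain ⟨N, η, σ, v1, v2, hN, rN⟩ := hNB F hR ℂ _ _ _ _ _
    ((hA F hR ℂ E ω s u1 u2 _ _ _ _ H hH).1 h0)
  obtain ⟨N', η', σ', v1', v2', hN', rN'⟩ := hNB F hR ℂ _ _ _ _ _
    ((hA F hR ℂ E' ω' s' u1' u2' _ _ _ _ H' hH').1 h0')
  obtain ⟨η'', v1'', hN''⟩ := change hR hN' rN' (inv_mul_cancel₀ hκ)
    (homogeneousComponent_isHomogeneous y.n1 y2).neg
  have p1 := npull_id hP hR hH hN rN (by simp)
  have p2 := npull_id hP hR hH' hN' rN' (by simp)
  have p3 := npull_id hP hR hN'' hN rN (by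
    have hk : (C κ⁻¹ * C κ : Pol ℂ) = 1 := by rw [← map_mul, inv_mul_cancel₀ hκ, map_one]
    have := Ideal.mul_mem_left _ (-C κ⁻¹) hm2
    convert this using 1
    linear_combination (-C κ⁻¹) * e' - H * hk)
  exact p1.iso.trans (p3.iso.symm.trans p2.iso.symm)

theorem uqFree (hU : S_Uq) (hL : S_Len) : S_UqFree := by
  intro F hF E E' s s' hE hE' hs h0 hs' h0' hI h3
  obtain ⟨c, -, hc⟩ := Set.infinite_univ.exists_notMem_finite
    ((hL F hF E s hE hs h0).2.2.2.union (hL F hF E' s' hE' hs' h0').2.2.2)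
  simp only [Set.mem_union, Set.mem_ofPred_eq, not_or, not_not] at hc
  obtain ⟨⟨Λ, lam, h⟩, ⟨Λ', lam', h'⟩⟩ := hc
  have hle : rad Λ ≤ rad Λ' := rad_le (wc_hom c) (w_mem h) (w_mem h') fun b d hb hm => by
    rw [h'.mem b d hb, ← hI, ← h.mem b d hb]
    exact hm
  have hk : ∀ a, Λ a = 0 → Λ' a = 0 := fun a ha => by
    obtain ⟨b, hb, e⟩ := ker_eq h h3 ha
    have e1 := hle e 1
    have e2 := h'.filt.kill b hb
    rw [lam_ev h'] at e2
    rwa [mul_one, map_sub, e2, sub_zero] at e1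
  obtain ⟨a0, ha0⟩ := exists_one h
  have hκ : Λ' = (Λ' a0 / Λ a0) • Λ := LinearMap.ext fun a => by
    have := hk (Λ a0 • a - Λ a • a0) (by simp [mul_comm])
    rw [map_sub, map_smul, map_smul, smul_eq_mul, smul_eq_mul] at this
    rw [LinearMap.smul_apply, smul_eq_mul]
    field_simp
    linear_combination this
  refine hU F hF E E' c s s' Λ (Λ' a0 / Λ a0) hE.1 hE'.1 (fun e => ?_) h.rep (hκ ▸ h'.rep)
  obtain ⟨a, ha⟩ := exists_one h'
  rw [hκ, e, zero_smul] at ha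
  exact ha rfl

theorem ext (hNB : S_NB) (hP : S_NPull) (hLam : S_Lam) (hA : S_SerAdm) (hRR : S_RepRad)
    (hL : S_Len) : S_Ext := by
  intro F hF E
  have hR := hF.rg
  refine ⟨fun s hE hs h0 => ?_, fun I hI => ?_⟩
  · obtain ⟨hlen, -, -, hfin⟩ := hL F hF E s hE hs h0
    obtain ⟨c, -, hc⟩ := Set.infinite_univ.exists_notMem_finite hfin
    simp only [Set.mem_ofPred_eq, not_not] at hc
    obtain ⟨Λ, lam, h⟩ := hc
    have hrad := (hRR F hR ℂ E c 1 s Λ h.rep).2.2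
    obtain ⟨x, ω, t1, t2, d1, d2, G, hx, -, hxF, -, -, hS, hΛ⟩ := h.rep
    obtain ⟨N, η, σ, v1, v2, hN, rN⟩ := hNB F hR ℂ _ _ _ _ _
      ((hA F hR ℂ E ω s t1 t2 _ _ _ _ G hS).1 hE.1)
    obtain ⟨-, l2, -, l4, l5, l6⟩ := hLam F hR ℂ E ω 1 s t1 t2 _ _ _ _ G hS
    obtain ⟨-, -, l3, -⟩ := hLam F hR ℂ N η 1 σ v1 v2 _ _ _ _ G hN
    obtain ⟨e, he, e1, e2, -⟩ := exists_e hR hN rN
    have hJ : ∀ b ∈ satI s, b * G ∈ Ideal.span {bc F ℂ, x.g1, x.g2} := fun b hb => by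
      rw [← sum_homogeneousComponent b, Finset.sum_mul]
      refine Ideal.sum_mem _ fun d _ => ?_
      have hd := homogeneousComponent_isHomogeneous d b
      have h1 := (hrad _ d hd).mpr (l4 b hb d)
      rw [← hxF]
      refine (box ℂ x hx).2.2.2.2.1 _ _ (hd.mul hS.hG) fun a => ?_
      rw [← h1 a, hΛ]
      congr 1
      ring
    refine ⟨N, npull_id hP hR hS hN rN (by simp), N.rankTwo, l6, l4, l5,
      Filter.eventually_atTop.mp hlen, e, he, σ, fun a ha => ?_, fun m => ⟨fun hm => ?_, ?_⟩,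
      fun b => ⟨fun hb => ?_, ?_⟩, fun d m hm => hN.fn d m hm⟩
    · have := congrArg (fun u => η u v1) ha
      simp only [map_smul, LinearMap.smul_apply, e1, smul_mq, map_zero,
        LinearMap.zero_apply] at this
      exact mq_zero.mp (cancel hN.r1 (by rw [mul_comm]; exact this))
    · have hp := pluecker hR hN.pair.alt σ m v1 v2
      obtain ⟨a, ha⟩ := mq_surj (η m v1)
      obtain ⟨a', ha'⟩ := mq_surj (η v2 m)
      rw [hm, hN.e1, hN.e2, ← ha, ← ha'] at hp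
      obtain ⟨r, hr⟩ := mem2.mp (hN.r2 a (mem2.mpr ⟨-a', by
        rw [map_mul, map_neg]
        linear_combination hp⟩))
      refine ⟨r, sub_eq_zero.mp (rN.inj _ ?_ ?_)⟩
      · rw [map_sub, map_smul, LinearMap.sub_apply, LinearMap.smul_apply, e1, ← ha, hr, smul_mq,
          sub_self]
      · rw [map_sub, map_smul, hm, e2, smul_zero, sub_self]
    · rintro ⟨a, rfl⟩
      rw [map_smul, e2, smul_zero]
    · obtain ⟨y0, y1, y2, e⟩ := of_mem3 (hJ b hb)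
      obtain ⟨u, -, hu⟩ := rN.surj (-y2) b (Ideal.mem_span_pair.mpr ⟨y0, y1, by
        linear_combination -e⟩)
      exact ⟨u, hu⟩
    · rintro ⟨m, hm⟩
      exact l2 b (l3 b m hm)
  · obtain ⟨e, -, π, -, h2, h3, h4⟩ := hI.seq
    refine ⟨π, fun d m hm => h4 d m hm, fun h0 => ?_, Ideal.ext fun b => ?_⟩
    · obtain ⟨ω, hω⟩ := E.exists_pairing
      have := hF.dom
      refine one_ne_zero (hω.zero_of_mul' hR (r := 1) fun u v => ?_)
      obtain ⟨a, rfl⟩ := (h2 u).mp (by rw [h0]; rfl)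
      obtain ⟨a', rfl⟩ := (h2 v).mp (by rw [h0]; rfl)
      simp only [map_smul, LinearMap.smul_apply, hω.alt, smul_zero, zero_mul]
    · rw [mem_satI]
      refine ⟨fun h => hI.sat b fun i => ?_, fun h i => ?_⟩
      · obtain ⟨k, u, hu⟩ := h i
        exact ⟨k, (h3 _).mpr ⟨u, hu⟩⟩
      · obtain ⟨u, hu⟩ := (h3 b).mp h
        exact ⟨0, u, by rw [pow_zero, one_mul]; exact hu⟩

end Pool.Agent.P.MP_2b2d3b_ag
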