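import Pool.Agent.P.MP_2b2d3b_ag.Sch

/-! Dimension of the closure of the image of an affine variety. -/

namespace Pool.Agent.P.MP_2b2d3b_ag

open CategoryTheory AlgebraicGeometry Set Topology TopologicalSpace

namespace SchP

theorem dim_le_of_cover (Y : Type) [TopologicalSpace Y] (n : WithBot ℕ∞)
    (h : ∀ y : Y, ∃ (T : Type) (_ : TopologicalSpace T) (f : T → Y),
      IsOpenEmbedding f ∧ y ∈ range f ∧ topologicalKrullDim T ≤ n) :
    topologicalKrullDim Y ≤ n := by
  unfold topologicalKrullDim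
  rw [Order.krullDim_eq_iSup_coheight]
  refine iSup_le fun V => ?_
  obtain ⟨y, hy⟩ := V.isIrreducible.nonempty
  obtain ⟨T, _, f, hf, ⟨x, rfl⟩, hT⟩ := h y
  let W := (IrreducibleCloseds.orderIsoOfIsOpenEmbedding f hf).symm ⟨V, x, hy⟩
  have e : IrreducibleCloseds.map f hf.continuous W = V :=
    congrArg Subtype.val ((IrreducibleCloseds.orderIsoOfIsOpenEmbedding f hf).apply_symm_apply ⟨V, x, hy⟩)
  rw [← e, hf.coheight_map]
  exact (Order.coheight_le_krullDim W).trans hT

/-- lifting to a chart on a basic open set -/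
theorem lift_away {X : Scheme.{0}} {π : X ⟶ Spec (.of ℂ)} {A D : Type} [CommRing A] [Algebra ℂ A]
    [CommRing D] [IsDomain D] [Algebra ℂ D] (j : Spec (.of A) ⟶ X) (g : Spec (.of D) ⟶ X)
    [IsOpenImmersion j] (hj : Ov π A j) (hg : Ov π D g)
    (h : (closure (range g) ∩ range j).Nonempty) :
    ∃ (h' : D) (ψ : A →ₐ[ℂ] Localization.Away h'), h' ≠ 0 ∧
      Spec.map (CommRingCat.ofHom (ψ : A →+* Localization.Away h')) ≫ j =
        Spec.map (CommRingCat.ofHom ((IsScalarTower.toAlgHom ℂ D (Localization.Away h') :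
          D →ₐ[ℂ] Localization.Away h') : D →+* Localization.Away h')) ≫ g := by
  have ho : IsOpen (range j) := j.isOpenEmbedding.isOpen_range
  obtain ⟨x, hx, hxj⟩ := h
  obtain ⟨_, hq, q, rfl⟩ := mem_closure_iff.1 hx _ ho hxj
  have ho' : IsOpen (g ⁻¹' range j : Set (PrimeSpectrum D)) := ho.preimage g.continuous
  obtain ⟨_, ⟨h', rfl⟩, hq', hsub⟩ :=
    PrimeSpectrum.isTopologicalBasis_basic_opens.exists_subset_of_mem_open (a := q) hq ho'
  have h0 : h' ≠ 0 := by
    rintro rfl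
    exact hq' (zero_mem _)
  obtain ⟨ψ, hψ⟩ := lift j _ hj (ov_comp (IsScalarTower.toAlgHom ℂ D (Localization.Away h')) hg) (by
    rintro _ ⟨r, rfl⟩
    refine hsub (a := PrimeSpectrum.comap (algebraMap D (Localization.Away h')) r) ?_
    exact (PrimeSpectrum.localization_away_comap_range (Localization.Away h') h').subset ⟨r, rfl⟩)
  exact ⟨h', ψ, h0, hψ⟩

theorem emb {X : Scheme.{0}} {A D' : Type} [CommRing A] [CommRing D'] (ψ : A →+* D')
    (j : Spec (.of A) ⟶ X) [IsOpenImmersion j] (Z : Set X)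
    (hZ : closure (range (Spec.map (CommRingCat.ofHom ψ) ≫ j)) = Z) :
    ∃ f : PrimeSpectrum (A ⧸ RingHom.ker ψ) → Z, IsOpenEmbedding f ∧
      ∀ z : Z, z.1 ∈ range j → z ∈ range f := by
  have hj : IsOpenEmbedding (fun q : PrimeSpectrum A => j q) := j.isOpenEmbedding
  have e0 : range (Spec.map (CommRingCat.ofHom ψ) ≫ j) =
      (fun q : PrimeSpectrum A => j q) '' range (PrimeSpectrum.comap ψ) :=
    range_comp (fun q : PrimeSpectrum A => j q) (PrimeSpectrum.comap ψ)
  have e1 : (fun q : PrimeSpectrum A => j q) ⁻¹' Z =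
      range (PrimeSpectrum.comap (Ideal.Quotient.mk (RingHom.ker ψ))) := by
    rw [← hZ, e0, hj.isOpenMap.preimage_closure_eq_closure_preimage hj.continuous,
      preimage_image_eq _ hj.injective, PrimeSpectrum.closure_range_comap,
      range_comap_of_surjective _ _ Ideal.Quotient.mk_surjective, Ideal.mk_ker]
  have hm : ∀ q : PrimeSpectrum (A ⧸ RingHom.ker ψ),
      j (PrimeSpectrum.comap (Ideal.Quotient.mk (RingHom.ker ψ)) q) ∈ Z := fun q =>
    e1.symm.subset ⟨q, rfl⟩
  have he : IsEmbedding fun q : PrimeSpectrum (A ⧸ RingHom.ker ψ) =>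
      j (PrimeSpectrum.comap (Ideal.Quotient.mk (RingHom.ker ψ)) q) :=
    hj.isEmbedding.comp (PrimeSpectrum.isClosedEmbedding_comap_of_surjective _ _
      Ideal.Quotient.mk_surjective).isEmbedding
  have hr : range (fun q => (⟨_, hm q⟩ : Z)) = Subtype.val ⁻¹' range j := by
    ext z
    constructor
    · rintro ⟨q, rfl⟩
      exact ⟨_, rfl⟩
    · rintro ⟨p, hp⟩
      have h1 : p ∈ (fun q : PrimeSpectrum A => j q) ⁻¹' Z := by
        change j p ∈ Z
        rw [hp]; exact z.2
      obtain ⟨q, rfl⟩ := e1.subset h1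
      exact ⟨q, Subtype.ext hp⟩
  refine ⟨fun q => ⟨_, hm q⟩, ⟨he.codRestrict Z hm, ?_⟩, fun z hz => hr.symm.subset hz⟩
  rw [hr]
  exact j.isOpenEmbedding.isOpen_range.preimage continuous_subtype_val

theorem away_inj {D : Type} [CommRing D] [IsDomain D] {h : D} (h0 : h ≠ 0) :
    Function.Injective (algebraMap D (Localization.Away h)) :=
  IsLocalization.injective _ (powers_le_nonZeroDivisors_of_noZeroDivisors h0)

theorem eval_eq {X : Scheme.{0}} {A D D' : Type} [CommRing A] [Algebra ℂ A] [CommRing D]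
    [Algebra ℂ D] [CommRing D'] [Algebra ℂ D'] {j : Spec (.of A) ⟶ X} {g : Spec (.of D) ⟶ X}
    {ψ : A →ₐ[ℂ] D'} {ι : D →ₐ[ℂ] D'}
    (h : Spec.map (CommRingCat.ofHom (ψ : A →+* D')) ≫ j =
      Spec.map (CommRingCat.ofHom (ι : D →+* D')) ≫ g) (t : D' →ₐ[ℂ] ℂ) :
    j (kp (t.comp ψ)) = g (kp (t.comp ι)) := by
  rw [← kp_comp, ← kp_comp, ← Scheme.Hom.comp_apply, ← Scheme.Hom.comp_apply, h]

end SchP

open SchP in
theorem schLe (hLe : S_DimLe) : S_SchLe := by
  intro X π hπ D W _ _ _ _ _ _ _ g ρ h k y hg h0 hs hf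
  refine dim_le_of_cover _ _ fun z => ?_
  obtain ⟨A, _, _, _, j, hj, ho, hz⟩ := chart π z.1
  obtain ⟨h', ψ, h0', hψ⟩ := lift_away j g ho hg ⟨z.1, z.2, hz⟩
  obtain ⟨f, hf1, hf2⟩ := emb (ψ : A →+* Localization.Away h') j (closure (range g))
    (by rw [hψ]; exact closure_range _ _ _ g (away_inj h0'))
  refine ⟨_, inferInstance, f, hf1, hf2 z hz, ?_⟩
  rw [PrimeSpectrum.topologicalKrullDim_eq_ringKrullDim]
  set ι := IsScalarTower.toAlgHom ℂ D (Localization.Away h') with hι
  set κ := IsScalarTower.toAlgHom ℂ W (Localization.Away (ρ h')) with hκ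
  have hD : IsDomain (Localization.Away h') :=
    IsLocalization.isDomain_localization (powers_le_nonZeroDivisors_of_noZeroDivisors h0')
  let ρ' : Localization.Away h' →ₐ[ℂ] Localization.Away (ρ h') :=
    IsLocalization.Away.liftAlgHom (f := κ.comp ρ) h'
      (IsLocalization.Away.algebraMap_isUnit (S := Localization.Away (ρ h')) (ρ h'))
  have hρ : ρ'.comp ι = κ.comp ρ := by
    ext a
    exact IsLocalization.Away.lift_eq (S := Localization.Away h') h'
      (g := (κ.comp ρ : D →+* Localization.Away (ρ h')))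
      (IsLocalization.Away.algebraMap_isUnit (S := Localization.Away (ρ h')) (ρ h')) a
  have hρ' : ∀ a, ρ' (ι a) = κ (ρ a) := fun a => congr($hρ a)
  refine hLe A (Localization.Away h') (Localization.Away (ρ h')) ψ ρ' (ι h) k (fun i => κ (y i))
    (fun e => h0 (away_inj h0' (e.trans (map_zero _).symm))) (fun t ht => ?_) fun y0 a => ?_
  · obtain ⟨t1, ht1⟩ := hs (t.comp ι) ht
    have hu : IsUnit (t1 (ρ h')) := by
      have e : t1 (ρ h') = t (ι h') := congr($ht1 h')
      rw [e]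
      exact (IsLocalization.Away.algebraMap_isUnit (S := Localization.Away h') h').map t
    refine ⟨IsLocalization.Away.liftAlgHom (f := t1) (ρ h') hu, ?_⟩
    refine IsLocalization.algHom_ext (Submonoid.powers h') ?_
    ext a
    have e : t1 (ρ a) = t (ι a) := congr($ht1 a)
    change IsLocalization.Away.liftAlgHom (f := t1) (ρ h') hu (ρ' (ι a)) = t (ι a)
    rw [hρ', ← e]
    exact IsLocalization.Away.lift_eq (S := Localization.Away (ρ h')) (ρ h')
      (g := (t1 : W →+* ℂ)) hu _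
  · classical
    refine ((hf y0).image fun x => if hx : ∃ s : A →ₐ[ℂ] ℂ, j (kp s) = x then hx.choose a
      else 0).subset ?_
    rintro _ ⟨t', h1, h2, rfl⟩
    have e : j (kp ((t'.comp ρ').comp ψ)) = g (kp ((t'.comp κ).comp ρ)) := by
      rw [eval_eq hψ, AlgHom.comp_assoc, hρ, AlgHom.comp_assoc]
    refine ⟨_, ⟨t'.comp κ, by rwa [hρ'] at h1, h2, rfl⟩, ?_⟩
    have hx : ∃ s : A →ₐ[ℂ] ℂ, j (kp s) = g (kp ((t'.comp κ).comp ρ)) := ⟨_, e⟩
    simp only [dif_pos hx]
    rw [kp_inj (j.isOpenEmbedding.injective (hx.choose_spec.trans e.symm))]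
    rfl

open SchP in
theorem schGe (hGe : S_DimGe) : S_SchGe := by
  intro X π hπ D _ _ _ _ g h s k ζ y hg h0 hζ hf
  obtain ⟨A, _, _, _, j, hj, ho, hz⟩ := chart π (g (⊥ : PrimeSpectrum D))
  obtain ⟨h', ψ, h0', hψ⟩ := lift_away j g ho hg ⟨_, subset_closure ⟨_, rfl⟩, hz⟩
  obtain ⟨f, hf1, -⟩ := emb (ψ : A →+* Localization.Away h') j (closure (range g))
    (by rw [hψ]; exact closure_range _ _ _ g (away_inj h0'))
  have h1 := hf1.isInducing.topologicalKrullDim_le
  rw [PrimeSpectrum.topologicalKrullDim_eq_ringKrullDim] at h1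
  set ι := IsScalarTower.toAlgHom ℂ D (Localization.Away h') with hι
  have hD : IsDomain (Localization.Away h') :=
    IsLocalization.isDomain_localization (powers_le_nonZeroDivisors_of_noZeroDivisors h0')
  refine le_trans (hGe A (Localization.Away h') ψ (ι h) s k (fun i => ι (ζ i)) (fun i => ι (y i))
    (fun e => h0 (away_inj h0' (e.trans (map_zero _).symm))) (hζ.map' (away_inj h0'))
    fun t0 i ht0 => (hf (t0.comp ι) i ht0).subset ?_) (add_le_add_left h1 _)
  rintro _ ⟨t, h2, h3, h4, rfl⟩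
  exact ⟨t.comp ι, h2, by rw [← eval_eq hψ, ← eval_eq hψ, h3], h4, rfl⟩

end Pool.Agent.P.MP_2b2d3b_ag
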