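import Pool.Agent.P.MP_2b2d3b_ag.St

/-!
Normal forms of a three by two matrix of linear forms.
-/

namespace Pool.Agent.P.MP_2b2d3b_ag

open MvPolynomial

namespace TCP

section Gen

variable {S : Type} [CommRing S]

/-- the ideal of the maximal minors -/
def Q (φ : Matrix (Fin 3) (Fin 2) S) : Ideal S :=
  Ideal.span (Set.range ![φ 1 0 * φ 2 1 - φ 1 1 * φ 2 0, φ 2 0 * φ 0 1 - φ 2 1 * φ 0 0,
    φ 0 0 * φ 1 1 - φ 0 1 * φ 1 0])

theorem comb (φ : Matrix (Fin 3) (Fin 2) S) (a b c : S) :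
    a * (φ 1 0 * φ 2 1 - φ 1 1 * φ 2 0) + b * (φ 2 0 * φ 0 1 - φ 2 1 * φ 0 0) +
      c * (φ 0 0 * φ 1 1 - φ 0 1 * φ 1 0) ∈ Q φ :=
  add_mem (add_mem (Ideal.mul_mem_left _ _ (Ideal.subset_span ⟨0, rfl⟩))
    (Ideal.mul_mem_left _ _ (Ideal.subset_span ⟨1, rfl⟩)))
    (Ideal.mul_mem_left _ _ (Ideal.subset_span ⟨2, rfl⟩))

theorem Q_left (α : Matrix (Fin 3) (Fin 3) S) (φ : Matrix (Fin 3) (Fin 2) S) :
    Q (α * φ) ≤ Q φ := by
  refine Ideal.span_le.2 ?_
  rintro _ ⟨i, rfl⟩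
  fin_cases i
  · convert comb φ (α 1 1 * α 2 2 - α 1 2 * α 2 1) (α 1 2 * α 2 0 - α 1 0 * α 2 2)
      (α 1 0 * α 2 1 - α 1 1 * α 2 0) using 1
    simp [Matrix.mul_apply, Fin.sum_univ_three]; ring
  · convert comb φ (α 2 1 * α 0 2 - α 2 2 * α 0 1) (α 2 2 * α 0 0 - α 2 0 * α 0 2)
      (α 2 0 * α 0 1 - α 2 1 * α 0 0) using 1
    simp [Matrix.mul_apply, Fin.sum_univ_three]; ring
  · convert comb φ (α 0 1 * α 1 2 - α 0 2 * α 1 1) (α 0 2 * α 1 0 - α 0 0 * α 1 2)
      (α 0 0 * α 1 1 - α 0 1 * α 1 0) using 1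
    simp [Matrix.mul_apply, Fin.sum_univ_three]; ring

theorem Q_right (φ : Matrix (Fin 3) (Fin 2) S) (β : Matrix (Fin 2) (Fin 2) S) :
    Q (φ * β) ≤ Q φ := by
  refine Ideal.span_le.2 ?_
  rintro _ ⟨i, rfl⟩
  fin_cases i
  · convert comb φ (β 0 0 * β 1 1 - β 0 1 * β 1 0) 0 0 using 1
    simp [Matrix.mul_apply, Fin.sum_univ_two]; ring
  · convert comb φ 0 (β 0 0 * β 1 1 - β 0 1 * β 1 0) 0 using 1
    simp [Matrix.mul_apply, Fin.sum_univ_two]; ring
  · convert comb φ 0 0 (β 0 0 * β 1 1 - β 0 1 * β 1 0) using 1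
    simp [Matrix.mul_apply, Fin.sum_univ_two]; ring

theorem Q_left_eq {α : Matrix (Fin 3) (Fin 3) S} (h : IsUnit α.det)
    (φ : Matrix (Fin 3) (Fin 2) S) : Q (α * φ) = Q φ := by
  refine le_antisymm (Q_left _ _) ?_
  have := Q_left α⁻¹ (α * φ)
  rwa [Matrix.nonsing_inv_mul_cancel_left _ _ h] at this

theorem Q_right_eq {β : Matrix (Fin 2) (Fin 2) S} (h : IsUnit β.det)
    (φ : Matrix (Fin 3) (Fin 2) S) : Q (φ * β) = Q φ := by
  refine le_antisymm (Q_right _ _) ?_
  have := Q_right (φ * β) β⁻¹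
  rwa [Matrix.mul_nonsing_inv_cancel_right _ _ h] at this

end Gen

variable {B : Type} [CommRing B] {B' : Type} [CommRing B']

/-- coefficient arrays -/
abbrev Co (B : Type) : Type := Fin 3 → Fin 2 → Fin 4 → B

/-- generalised cross product -/
def cr (a b c : Fin 4 → B) : Fin 4 → B :=
  ![a 1 * (b 2 * c 3 - b 3 * c 2) - a 2 * (b 1 * c 3 - b 3 * c 1) + a 3 * (b 1 * c 2 - b 2 * c 1),
    -(a 0 * (b 2 * c 3 - b 3 * c 2) - a 2 * (b 0 * c 3 - b 3 * c 0) +
      a 3 * (b 0 * c 2 - b 2 * c 0)),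
    a 0 * (b 1 * c 3 - b 3 * c 1) - a 1 * (b 0 * c 3 - b 3 * c 0) + a 3 * (b 0 * c 1 - b 1 * c 0),
    -(a 0 * (b 1 * c 2 - b 2 * c 1) - a 1 * (b 0 * c 2 - b 2 * c 0) +
      a 2 * (b 0 * c 1 - b 1 * c 0))]

theorem map_cr (ψ : B →+* B') (a b c : Fin 4 → B) (r : Fin 4) :
    cr (fun k => ψ (a k)) (fun k => ψ (b k)) (fun k => ψ (c k)) r = ψ (cr a b c r) := by
  fin_cases r <;> simp [cr]

def Gam (c : Co B) : Matrix (Fin 4) (Fin 4) B := Matrix.of fun r =>
  ![cr (c 0 0) (c 1 0) (c 2 0) r,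
    cr (c 0 1) (c 1 0) (c 2 0) r + cr (c 0 0) (c 1 1) (c 2 0) r + cr (c 0 0) (c 1 0) (c 2 1) r,
    cr (c 0 0) (c 1 1) (c 2 1) r + cr (c 0 1) (c 1 0) (c 2 1) r + cr (c 0 1) (c 1 1) (c 2 0) r,
    cr (c 0 1) (c 1 1) (c 2 1) r]

def Nm (c : Co B) : Matrix (Fin 3) (Fin 3) B :=
  Matrix.of fun i k => ∑ r, c i 0 r * Gam c r k.succ

def Kv (c : Co B) : Fin 4 → B :=
  cr (fun k => ![c 0 0 2, c 0 1 2, c 0 0 3, c 0 1 3] k)
    (fun k => ![c 1 0 2, c 1 1 2, c 1 0 3, c 1 1 3] k)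
    (fun k => ![c 2 0 2, c 2 1 2, c 2 0 3, c 2 1 3] k)

def Be (c : Co B) : Matrix (Fin 2) (Fin 2) B := !![Kv c 0, Kv c 2; Kv c 1, Kv c 3]

def cb (c : Co B) : Co B := fun i j k => ∑ l, c i l k * Be c l j

def Am (c : Co B) : Matrix (Fin 3) (Fin 3) B :=
  Matrix.of fun i => ![cb c i 1 2, cb c i 0 3, cb c i 0 2]

def nf (d : B) (c : Co B) : Co B := fun i j k => ∑ l, (d • (Am c).adjugate) i l * cb c l j k

def mp (ψ : B →+* B') (c : Co B) : Co B' := fun i j k => ψ (c i j k)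

theorem map_Gam (ψ : B →+* B') (c : Co B) : Gam (mp ψ c) = (Gam c).map ψ := by
  ext r k
  unfold mp
  fin_cases k <;> simp [Gam, map_cr]

theorem map_Nm (ψ : B →+* B') (c : Co B) : Nm (mp ψ c) = (Nm c).map ψ := by
  ext i k
  simp [Nm, map_Gam, mp]

theorem map_Kv (ψ : B →+* B') (c : Co B) (r : Fin 4) : Kv (mp ψ c) r = ψ (Kv c r) := by
  unfold Kv
  rw [← map_cr]
  congr 1 <;> funext k <;> fin_cases k <;> rfl

theorem map_Be (ψ : B →+* B') (c : Co B) : Be (mp ψ c) = (Be c).map ψ := by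
  ext i j
  fin_cases i <;> fin_cases j <;> simp [Be, map_Kv]

theorem map_cb (ψ : B →+* B') (c : Co B) : cb (mp ψ c) = mp ψ (cb c) := by
  funext i j k
  simp [cb, map_Be, mp]

theorem map_Am (ψ : B →+* B') (c : Co B) : Am (mp ψ c) = (Am c).map ψ := by
  ext i k
  fin_cases k <;> simp [Am, map_cb, mp]

theorem map_nf (ψ : B →+* B') (d : B) (c : Co B) : nf (ψ d) (mp ψ c) = mp ψ (nf d c) := by
  funext i j k
  have := RingHom.map_adjugate ψ (Am c)
  simp only [RingHom.mapMatrix_apply] at this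
  simp [nf, map_Am, map_cb, mp, ← this]

theorem det_map {n : ℕ} (ψ : B →+* B') (M : Matrix (Fin n) (Fin n) B) :
    (M.map ψ).det = ψ M.det := (RingHom.map_det ψ M).symm

/-- coefficients of the linear forms -/
noncomputable def co (p : Pf B) : Co B := fun i j k => coeff (Finsupp.single k 1) (p.φ i j)

theorem co_map (ψ : B →+* B') (p : Pf B) : co (p.map ψ) = mp ψ (co p) := by
  funext i j k
  simp [co, Pf.map, mp, coeff_map]

theorem pf_map (ψ : B →+* B') (p : Pf B) : (p.map ψ).pf = map ψ p.pf := by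
  simp only [Pf.pf, Pf.q, Pf.u, Pf.map, Fin.sum_univ_three, Fin.sum_univ_two]
  simp

theorem hom_map (ψ : B →+* B') {p : Pf B} (h : p.Hom) : (p.map ψ).Hom :=
  ⟨fun i j => (h.φ i j).map ψ, fun i => (h.ξ i).map ψ, fun i => (h.G i).map ψ,
    fun j => (h.H j).map ψ⟩

noncomputable def hf (B : Type) [CommRing B] (p : Pf B) : B :=
  (Gam (co p)).det * (Nm (co p)).det * ((Am (co p)).det * (Be (co p)).det) *
    eval (fun i => Gam (co p) i 3) p.pf

theorem hf_map (ψ : B →+* B') (p : Pf B) : hf B' (p.map ψ) = ψ (hf B p) := by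
  have e : eval (fun i => (Gam (co p)).map ψ i 3) (map ψ p.pf) =
      ψ (eval (fun i => Gam (co p) i 3) p.pf) := by
    rw [eval_map, eval₂_comp]; rfl
  simp only [hf, co_map, map_Gam, map_Nm, map_Am, map_Be, det_map, pf_map, e, map_mul]

theorem coeff_linForm (c : Fin 4 → B) (k : Fin 4) :
    coeff (Finsupp.single k 1) (linForm c) = c k := by
  simp [linForm, coeff_sum, coeff_X, Finsupp.single_left_inj]

/-- matrix of linear forms -/
noncomputable def Lm (c : Co B) : Matrix (Fin 3) (Fin 2) (Pol B) :=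
  Matrix.of fun i j => linForm (c i j)

theorem qI_eq {p : Pf ℂ} (h : p.Hom) : p.qI = Q (Lm (co p)) := by
  have : Lm (co p) = Matrix.of p.φ := by
    ext1 i j
    obtain ⟨c, hc⟩ := exists_linForm (h.φ i j)
    have : co p i j = c := by funext k; simp only [co]; rw [← hc, coeff_linForm]
    simp only [Lm, Matrix.of_apply, this, hc]
  rw [this]; rfl

/-- constant matrices -/
noncomputable def mC {n : ℕ} (M : Matrix (Fin n) (Fin n) B) : Matrix (Fin n) (Fin n) (Pol B) :=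
  Matrix.of fun i j => C (M i j)

theorem Lm_left (α : Matrix (Fin 3) (Fin 3) B) (c : Co B) :
    Lm (fun i j k => ∑ l, α i l * c l j k) = mC α * Lm c := by
  ext1 i j
  simp only [Lm, linForm, Matrix.of_apply, Matrix.mul_apply, mC,
    Fin.sum_univ_three, Fin.sum_univ_four, map_add, map_mul]
  ring

theorem Lm_right (β : Matrix (Fin 2) (Fin 2) B) (c : Co B) :
    Lm (fun i j k => ∑ l, c i l k * β l j) = Lm c * mC β := by
  ext1 i j
  simp only [Lm, linForm, Matrix.of_apply, Matrix.mul_apply, mC,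
    Fin.sum_univ_two, Fin.sum_univ_four, map_add, map_mul]
  ring

theorem unit_C {n : ℕ} {M : Matrix (Fin n) (Fin n) B} (h : IsUnit M.det) :
    IsUnit (mC M).det := by
  have : mC M = M.map (C : B →+* Pol B) := rfl
  rw [this, det_map]; exact h.map _

theorem cb_tr (c : Co B) (i : Fin 3) : cb c i 1 3 = -cb c i 0 2 := by
  fin_cases i <;> simp [cb, Be, Kv, cr, Fin.sum_univ_two] <;> ring

theorem Q_nf {d : B} {c : Co B} (hd : d * (Am c).det = 1) (hb : IsUnit (Be c).det) :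
    Q (Lm (nf d c)) = Q (Lm c) := by
  have h1 : d • (Am c).adjugate * Am c = 1 := by
    rw [Matrix.smul_mul, Matrix.adjugate_mul, smul_smul, hd, one_smul]
  have h2 : IsUnit (d • (Am c).adjugate).det := Matrix.isUnit_det_of_right_inverse h1
  unfold nf
  rw [Lm_left, Q_left_eq (unit_C h2)]
  unfold cb
  rw [Lm_right, Q_right_eq (unit_C hb)]

theorem nf_top {d d' : B} {c c' : Co B} (hd : d * (Am c).det = 1) (hd' : d' * (Am c').det = 1)
    (h : ∀ (i : Fin 3) (j : Fin 2) (k : Fin 2), nf d c i j (k.castLE (by norm_num)) =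
      nf d' c' i j (k.castLE (by norm_num))) : nf d c = nf d' c' := by
  have key : ∀ {d : B} {c : Co B}, d * (Am c).det = 1 → ∀ i,
      nf d c i 1 2 = (1 : Matrix (Fin 3) (Fin 3) B) i 0 ∧
      nf d c i 0 3 = (1 : Matrix (Fin 3) (Fin 3) B) i 1 ∧
      nf d c i 0 2 = (1 : Matrix (Fin 3) (Fin 3) B) i 2 ∧
      nf d c i 1 3 = -(1 : Matrix (Fin 3) (Fin 3) B) i 2 := by
    intro d c hd i
    have h1 : d • (Am c).adjugate * Am c = 1 := by
      rw [Matrix.smul_mul, Matrix.adjugate_mul, smul_smul, hd, one_smul]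
    rw [← h1]
    refine ⟨rfl, rfl, rfl, ?_⟩
    simp only [nf, cb_tr, mul_neg, Finset.sum_neg_distrib]
    rfl
  funext i j k
  obtain ⟨a1, a2, a3, a4⟩ := key hd i
  obtain ⟨b1, b2, b3, b4⟩ := key hd' i
  fin_cases k
  · exact h i j 0
  · exact h i j 1
  · fin_cases j
    · exact a3.trans b3.symm
    · exact a1.trans b1.symm
  · fin_cases j
    · exact a2.trans b2.symm
    · exact a4.trans b4.symm

theorem col0 (c : Co B) (i : Fin 3) : ∑ r, c i 0 r * Gam c r 0 = 0 := by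
  fin_cases i <;> simp [Gam, cr, Fin.sum_univ_four] <;> ring

theorem col3 (c : Co B) (i : Fin 3) : ∑ r, c i 1 r * Gam c r 3 = 0 := by
  fin_cases i <;> simp [Gam, cr, Fin.sum_univ_four] <;> ring

theorem colk (c : Co B) (i k : Fin 3) : ∑ r, c i 1 r * Gam c r k.castSucc = -Nm c i k := by
  fin_cases i <;> fin_cases k <;> simp [Nm, Gam, cr, Fin.sum_univ_four] <;> ring

theorem tc_form {c : Co B} {g : Matrix (Fin 4) (Fin 4) B} (hg : Gam c * g = 1)
    (hN : IsUnit (Nm c).det) : Q (Lm c) = tcI g := by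
  have hl : ∀ a : Fin 4 → B, linForm a = ∑ k, C (∑ r, a r * Gam c r k) * linForm (g k) := by
    intro a
    conv_lhs => rw [linForm]
    simp_rw [X_eq_sum hg]
    simp only [Fin.sum_univ_four, map_add, map_mul]
    ring
  have e : Lm c = mC (Nm c) * !![linForm (g 1), -linForm (g 0); linForm (g 2), -linForm (g 1);
      linForm (g 3), -linForm (g 2)] := by
    ext1 i j
    fin_cases j
    · have := hl (c i 0)
      rw [Fin.sum_univ_four, col0] at this
      simp only [Lm, Matrix.of_apply, Fin.zero_eta, this, Matrix.mul_apply, Fin.sum_univ_three,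
        mC, Nm]
      simp
    · have := hl (c i 1)
      have h0 := colk c i 0
      have h1 := colk c i 1
      have h2 := colk c i 2
      change ∑ r, c i 1 r * Gam c r 0 = _ at h0
      change ∑ r, c i 1 r * Gam c r 1 = _ at h1
      change ∑ r, c i 1 r * Gam c r 2 = _ at h2
      rw [Fin.sum_univ_four, col3, h0, h1, h2] at this
      simp only [Lm, Matrix.of_apply, Fin.mk_one, this, Matrix.mul_apply, Fin.sum_univ_three,
        mC]
      simp
  rw [e, Q_left_eq (unit_C hN)]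
  unfold Q tcI
  apply le_antisymm
  · refine Ideal.span_le.2 ?_
    rintro _ ⟨i, rfl⟩
    fin_cases i
    · refine Ideal.subset_span (Or.inr (Or.inr ?_))
      simp; ring
    · refine (Ideal.neg_mem_iff _).1 (Ideal.subset_span (Or.inr (Or.inl ?_)))
      simp; ring
    · refine Ideal.subset_span (Or.inl ?_)
      simp; ring
  · refine Ideal.span_le.2 ?_
    rintro _ (rfl | rfl | rfl)
    · refine Ideal.subset_span ⟨2, ?_⟩
      simp; ring
    · refine (Ideal.neg_mem_iff _).1 (Ideal.subset_span ⟨1, ?_⟩)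
      simp; ring
    · refine Ideal.subset_span ⟨0, ?_⟩
      simp; ring

/-- coefficients of the example -/
def c0 : Co ℤ := ![![![0, 0, 0, 1], ![-1, 0, 0, 0]], ![![0, 0, 1, 0], ![0, 0, 0, -1]],
  ![![0, 1, 0, 0], ![0, 0, -1, 0]]]

/-- the example -/
noncomputable def p0 : Pf ℤ where
  φ i j := linForm (c0 i j)
  ξ := ![0, 0, X 1 ^ 3]
  G := 0
  H := ![X 1 ^ 2, 0]

theorem p0_hom : p0.Hom := by
  refine ⟨fun i j => linForm_hom _, fun i => ?_, fun i => isHomogeneous_zero _ _ _, fun j => ?_⟩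
  · fin_cases i
    · exact isHomogeneous_zero _ _ _
    · exact isHomogeneous_zero _ _ _
    · exact isHomogeneous_X_pow 1 3
  · fin_cases j
    · exact isHomogeneous_X_pow 1 2
    · exact isHomogeneous_zero _ _ _

theorem p0_hf : hf ℤ p0 ≠ 0 := by
  have e : co p0 = c0 := by funext i j k; exact coeff_linForm _ _
  have g : Gam c0 = !![-1, 0, 0, 0; 0, 0, 0, -1; 0, 0, -1, 0; 0, -1, 0, 0] := by decide
  have n : Nm c0 = !![-1, 0, 0; 0, -1, 0; 0, 0, -1] := by decide
  have b : Be c0 = !![1, 0; 0, 1] := by decide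
  have a : Am c0 = !![0, 1, 0; 0, 0, 1; -1, 0, 0] := by decide
  have g' : Gam c0 * Gam c0 = 1 := by rw [g]; decide
  have v : eval (fun i => Gam c0 i 3) p0.pf = 1 := by
    rw [g]
    simp [Pf.pf, Pf.u, p0, linForm, c0, Fin.sum_univ_three, Fin.sum_univ_two, Fin.sum_univ_four]
  unfold hf
  rw [e, v, n, b, a]
  refine mul_ne_zero (mul_ne_zero (mul_ne_zero
    (Matrix.isUnit_det_of_right_inverse g').ne_zero ?_) (mul_ne_zero ?_ ?_)) one_ne_zero
  · simp [Matrix.det_fin_three]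
  · simp [Matrix.det_fin_three]
  · simp [Matrix.det_fin_two]

end TCP

open TCP in
theorem tC : S_TC := by
  refine ⟨hf, fun B B' _ _ ψ p => hf_map ψ p, ⟨p0.map (Int.castRingHom ℂ), hom_map _ p0_hom, ?_⟩,
    fun p hp h => ?_, fun B _ _ _ p hp => ?_⟩
  · rw [hf_map]
    simpa using p0_hf
  · simp only [hf, ne_eq, mul_eq_zero, not_or] at h
    obtain ⟨⟨⟨h1, h2⟩, -⟩, h3⟩ := h
    have u : IsUnit (Gam (co p)).det := isUnit_iff_ne_zero.2 h1
    refine ⟨(Gam (co p))⁻¹, Gam (co p), Matrix.nonsing_inv_mul _ u, ?_, h3⟩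
    rw [qI_eq hp, tc_form (Matrix.mul_nonsing_inv _ u) (isUnit_iff_ne_zero.2 h2)]
  · set δ : B := (Am (co p)).det * (Be (co p)).det with hδ
    let W := Localization.Away δ
    let ρ : B →ₐ[ℂ] W := IsScalarTower.toAlgHom ℂ B W
    let d : W := IsLocalization.Away.invSelf δ * ρ (Be (co p)).det
    have e : Fin 12 ≃ Fin 3 × Fin 2 × Fin 2 := Fintype.equivOfCardEq (by simp)
    have hW : Algebra.FiniteType ℂ W :=
      Algebra.FiniteType.trans (inferInstance : Algebra.FiniteType ℂ B) inferInstance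
    have h1 : ρ δ * IsLocalization.Away.invSelf δ = 1 := IsLocalization.Away.mul_invSelf δ
    refine ⟨W, inferInstance, inferInstance, hW, ρ,
      fun n => nf d (mp (ρ : B →+* W) (co p)) (e n).1 (e n).2.1 ((e n).2.2.castLE (by norm_num)),
      fun t ht => ?_, fun t' t'' hy => ?_⟩
    · have u : IsUnit (t δ) := by
        rw [hf_map] at ht
        simp only [hf, map_mul, ne_eq, mul_eq_zero, not_or] at ht
        rw [isUnit_iff_ne_zero, hδ, map_mul]
        exact mul_ne_zero ht.1.2.1 ht.1.2.2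
      refine ⟨IsLocalization.liftAlgHom (M := Submonoid.powers δ) (f := t) ?_, ?_⟩
      · rintro ⟨_, n, rfl⟩
        simpa using u.pow n
      · ext b
        simp [ρ]
    · have key : ∀ t : W →ₐ[ℂ] ℂ,
          t d * (Am (co (p.map (t.comp ρ : B →+* ℂ)))).det = 1 ∧
          IsUnit (Be (co (p.map (t.comp ρ : B →+* ℂ)))).det ∧
          nf (t d) (co (p.map (t.comp ρ : B →+* ℂ))) =
            mp (t : W →+* ℂ) (nf d (mp (ρ : B →+* W) (co p))) := by
        intro t
        have h2 : t (ρ (Am (co p)).det) * t (ρ (Be (co p)).det) *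
            t (IsLocalization.Away.invSelf δ) = 1 := by
          rw [← map_mul, ← map_mul, ← map_mul]
          exact (congrArg t h1).trans (map_one t)
        rw [co_map, map_Am, map_Be, det_map, det_map]
        refine ⟨?_, ?_, ?_⟩
        · simp only [d, map_mul]
          exact (by simp only [RingHom.coe_coe, AlgHom.comp_apply]; ring : _ = _).trans h2
        · refine IsUnit.of_mul_eq_one (t (ρ (Am (co p)).det) *
            t (IsLocalization.Away.invSelf δ)) ?_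
          exact (by simp only [RingHom.coe_coe, AlgHom.comp_apply]; ring : _ = _).trans h2
        · rw [← map_nf]; rfl
      obtain ⟨a1, a2, a3⟩ := key t'
      obtain ⟨b1, b2, b3⟩ := key t''
      rw [qI_eq (hom_map _ hp), qI_eq (hom_map _ hp), ← Q_nf a1 a2, ← Q_nf b1 b2,
        nf_top a1 b1 fun i j k => ?_]
      rw [a3, b3]
      simpa [mp] using hy (e.symm (i, j, k))

end Pool.Agent.P.MP_2b2d3b_ag
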