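import Pool.Agent.P.MP_2b2d3b_ag.St2
import Pool.Agent.P.MP_2b2d3b_ag.Ufd
import Pool.Agent.P.MP_2b2d3b_ag.TC
import Pool.Agent.P.MP_2b2d3b_ag.FinA
import Pool.Agent.P.MP_2b2d3b_ag.DimP
import Pool.Agent.P.MP_2b2d3b_ag.Sch2
import Pool.Agent.P.MP_2b2d3b_ag.AG
import Pool.Agent.P.MP_2b2d3b_ag.FiltB

/-!
The component of the moduli space that is swept out by the Pfaffian bundles.
-/

namespace Pool.Agent.P.MP_2b2d3b_ag

open MvPolynomial CategoryTheory AlgebraicGeometry Module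

namespace Z1P

/-- a scheme in a plane lies on at least four quadrics -/
theorem hilb_two_le {I : Ideal (Pol ℂ)} (h : hilb I 1 ≤ 3) : hilb I 2 ≤ 6 := by
  have h1 := HilbP.hilb_add_Id I 1
  rw [hd 1] at h1
  have h2 : Id I 1 ≠ ⊥ := fun e => by
    rw [e, finrank_bot] at h1
    have : (1 + 3).choose 3 = 4 := by decide
    omega
  obtain ⟨l, hl, hl0⟩ := (Submodule.ne_bot_iff _).mp h2
  have h3 := (hilbAdd ⊥ l 1 (fun b hb d => by
    rw [Ideal.mem_bot] at hb ⊢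
    rw [hb, map_zero]) (mem_Id.mp hl).2 (fun a ha => by
    rw [Ideal.mem_bot] at ha ⊢
    exact (mul_eq_zero.mp ha).resolve_left hl0)).1 1
  rw [HilbP.hilb_bot, HilbP.hilb_bot, hd, hd] at h3
  have h4 : hilb I 2 ≤ hilb (⊥ ⊔ Ideal.span {l}) 2 := UfdP.hilb_mono fun x _ hx => by
    rw [bot_sup_eq] at hx
    exact (Ideal.span_singleton_le_iff_mem _).mpr (mem_Id.mp hl).1 hx
  have e1 : (1 + 3).choose 3 = 4 := by decide
  have e2 : (1 + 1 + 3).choose 3 = 10 := by decide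
  have e3 : hilb (⊥ ⊔ Ideal.span {l}) (1 + 1) = hilb (⊥ ⊔ Ideal.span {l}) 2 := rfl
  omega

theorem le_of_hom {I J : Ideal (Pol ℂ)} (hI : HomI I)
    (h : ∀ (b : Pol ℂ) (d : ℕ), b.IsHomogeneous d → b ∈ I → b ∈ J) : I ≤ J := by
  intro b hb
  rw [← sum_homogeneousComponent b]
  exact J.sum_mem fun d _ => h _ d (homogeneousComponent_isHomogeneous d b) (hI b hb d)

variable {F : Pol ℂ}

theorem sat_props (hExt : S_Ext) (hF : Hyp F) {E : Bundle F ℂ} {s} (hE : Good E)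
    (hs : IsFun E 1 s) (h0 : s ≠ 0) : HomI (satI s) ∧ SatI (satI s) ∧ F ∈ satI s := by
  obtain ⟨N, -, hN⟩ := (hExt F hF E).1 s hE hs h0
  have := hN.mem
  rw [bc_self] at this
  exact ⟨hN.homog, hN.sat, this⟩

/-- a bundle whose scheme lies on at most three quadrics has a Pfaffian ideal -/
theorem exists_pf (hLen : S_Len) (hExt : S_Ext) (hF : Hyp F) {E : Bundle F ℂ} {s} (hE : Good E)
    (hs : IsFun E 1 s) (h0 : s ≠ 0) (h7 : 7 ≤ hilb (satI s) 2) :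
    ∃ p : Pf ℂ, p.Hom ∧ p.pf = F ∧ (HomI p.I → SatI p.I → satI s = p.I) := by
  obtain ⟨-, -, -, hfin⟩ := hLen F hF E s hE hs h0
  obtain ⟨c, hc⟩ := hfin.exists_notMem
  obtain ⟨Λ, lam, R⟩ := not_not.mp hc
  obtain ⟨hH, -, hm⟩ := sat_props hExt hF hE hs h0
  have hev : ∀ (b : Pol ℂ) (d : ℕ), b.IsHomogeneous d →
      (Ideal.Quotient.mkₐ ℂ (rad Λ) b = 0 ↔ b ∈ satI s) := fun b d hb => by
    rw [← R.mem b d hb, Ideal.Quotient.mkₐ_eq_mk, Ideal.Quotient.eq_zero_iff_mem]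
  rcases (tri _ _ _ _ R.filt R.len R.av).2 with h | h | h
  · rw [R.hilb] at h
    have := hilb_two_le h
    omega
  · obtain ⟨p, hp, hpf, h1, h2⟩ := aG _ _ _ _ F R.filt R.len h hF.hom ((hev F 6 hF.hom).mpr hm)
    refine ⟨p, hp, hpf, fun hH' hS' => le_antisymm (le_of_hom hH fun b d hb hbI => ?_)
      (le_of_hom hH' fun b d hb hbI => (hev b d hb).mp (h1 b hbI))⟩
    refine hS' b fun i => ⟨4, ?_⟩
    have hb' : (X i ^ 4 * b : Pol ℂ).IsHomogeneous (1 * 4 + d) :=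
      ((isHomogeneous_X ℂ i).pow 4).mul hb
    exact h2 _ (by omega) _ hb' ((hev _ _ hb').mpr (Ideal.mul_mem_left _ _ hbI))
  · have := h.d2
    rw [R.hilb] at this
    omega

theorem bc_map {B : Type} [CommRing B] [Algebra ℂ B] (t : B →ₐ[ℂ] ℂ) :
    map (t : B →+* ℂ) (bc F B) = F := by
  rw [bc, map_map]
  have : (t : B →+* ℂ).comp (algebraMap ℂ B) = RingHom.id ℂ := by
    ext x
    simp
  rw [this, map_id]

end Z1P

open Z1P in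
theorem z1 (hPfBase : S_PfBase) (hPfFam : S_PfFam) (hPfCub : S_PfCub) (hPt : S_Pt) (hTr : S_Tr)
    (hLen : S_Len) (hUq : S_UqFree) (hExt : S_Ext) : S_Z1 := by
  intro F hF 𝓜
  obtain ⟨B, _, _, _, _, D, _, p, j, hp, hj, hpf, hD, hB⟩ := hPfBase F hF.ind
  have hq := TCP.hom_map j hp
  set q := p.map j with hqdef
  obtain ⟨𝓔, h𝓔⟩ := hPfFam F hF B q hq hpf
  obtain ⟨hf, hnat, ⟨p0, hp0, hp0'⟩, hnf, hW⟩ := tC
  obtain ⟨hpt1, hpt2, -⟩ := hPt F hF 𝓜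
  obtain ⟨-, hgood, hfam, -, -, hiso, -⟩ := hTr F hF
  obtain ⟨-, -, -, hdense, hirr, -⟩ := pts nS 𝓜.M 𝓜.π 𝓜.lft
  have hh : hf B q ≠ 0 := by
    obtain ⟨ψ, rfl⟩ := hD p0 hp0
    rw [hnat] at hp0'
    rw [hqdef, hnat]
    intro e
    rw [hj (e.trans (map_zero j).symm), map_zero] at hp0'
    exact hp0' rfl
  have hcub : ∀ t : B →ₐ[ℂ] ℂ, t (hf B q) ≠ 0 → ∃ g Γ : Matrix (Fin 4) (Fin 4) ℂ, g * Γ = 1 ∧
      (q.map (t : B →+* ℂ)).qI = tcI g ∧ eval (fun i => Γ i 3) F ≠ 0 := fun t ht => by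
    obtain ⟨g, Γ, h1, h2, h3⟩ := hnf (q.map (t : B →+* ℂ)) (TCP.hom_map _ hq)
      (by rw [hnat]; exact ht)
    rw [TCP.pf_map, hpf, bc_map] at h3
    exact ⟨g, Γ, h1, h2, h3⟩
  have hin : ∀ t : B →ₐ[ℂ] ℂ, 𝓜.cl B 𝓔 (kp t) ∈ closure (Set.range (𝓜.cl B 𝓔)) := fun t =>
    subset_closure ⟨_, rfl⟩
  refine ⟨closure (Set.range (𝓜.cl B 𝓔)), isClosed_closure, hirr B _, ?_, ?_, ?_, ?_⟩
  · obtain ⟨W, _, _, _, ρ, y, hlift, hy⟩ := hW B q hq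
    refine schLe dimLe 𝓜.M 𝓜.π 𝓜.lft B W (𝓜.cl B 𝓔) ρ (hf B q) 12 y (𝓜.overC B 𝓔) hh
      (fun t ht => hlift t (by rw [hnat]; exact ht)) fun y0 => ?_
    by_cases hne : ∃ t' : W →ₐ[ℂ] ℂ, t' (ρ (hf B q)) ≠ 0 ∧ ∀ i, t' (y i) = y0 i
    · obtain ⟨t0, ht0, hy0⟩ := hne
      obtain ⟨g, Γ, h1, h2, h3⟩ := hcub (t0.comp ρ) ht0
      have hfin := tcFin F g Γ hF.hom h1 h3
      refine (hfin.biUnion (t := fun I => {x | ∃ (E : Family F ℂ) (s : _),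
        IsFun E.toBundle 1 s ∧ s ≠ 0 ∧ satI s = I ∧ 10 ≤ hilb I 3 ∧ 𝓜.pt E = x})
        fun I _ => Set.Subsingleton.finite ?_).subset ?_
      · rintro _ ⟨E, s, a1, a2, a3, a4, rfl⟩ _ ⟨E', s', b1, b2, b3, -, rfl⟩
        exact (hpt2 E E').mpr (hUq F hF _ _ s s' (hgood E) (hgood E') a1 a2 b1 b2
          (a3.trans b3.symm) (a3 ▸ a4))
      · rintro _ ⟨t', -, hy', rfl⟩
        obtain ⟨E, s, a1, -, a3, a4, a5⟩ := h𝓔 (t'.comp ρ)
        obtain ⟨c1, c2, c3⟩ := sat_props hExt hF (hgood E) a3 a4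
        refine Set.mem_iUnion₂.mpr ⟨satI s, ⟨c1, c2, c3, ?_⟩, E, s, a3, a4, rfl, ?_,
          hpt1 B 𝓔 _ E a1⟩
        · rw [a5, ← h2, hy t0 t' fun i => (hy0 i).trans (hy' i).symm]
          exact le_sup_left
        · rw [a5]
          exact hPfCub _ (TCP.hom_map _ hq)
    · refine Set.Finite.subset Set.finite_empty ?_
      rintro _ ⟨t', h1, h2, -⟩
      exact hne ⟨t', h1, h2⟩
  · refine closure_minimal ((hdense B (𝓜.cl B 𝓔) (hf B q) fun x hx =>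
      (mul_eq_zero.mp hx).resolve_left hh).trans (closure_mono ?_)) isClosed_closure
    rintro _ ⟨t, ht, rfl⟩
    obtain ⟨g, Γ, h1, h2, -⟩ := hcub t ht
    obtain ⟨E, s, a1, -, a3, a4, a5⟩ := h𝓔 t
    obtain ⟨N, hN, hN'⟩ := (hExt F hF E.toBundle).1 s (hgood E) a3 a4
    obtain ⟨E', rfl⟩ := hfam N ((hiso _ _ hN.iso).1 (hgood E))
    have hle : tcI g ≤ satI s := by
      rw [a5, ← h2]
      exact le_sup_left
    refine ⟨E', satI s, g, hN', ?_, hle (Ideal.subset_span (by simp)),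
      hle (Ideal.subset_span (by simp)), hle (Ideal.subset_span (by simp)), ?_⟩
    · intro e
      have := congrArg Matrix.det h1
      rw [Matrix.det_mul, e, zero_mul, Matrix.det_one] at this
      exact zero_ne_one this
    · rw [← hpt1 B 𝓔 t E a1]
      exact (hpt2 E' E).mpr hN.iso.symm
  · intro E s hs h0 h7
    obtain ⟨p1, hp1, hpf1, heq⟩ := exists_pf hLen hExt hF (hgood E) hs h0 h7
    obtain ⟨t, rfl⟩ := hB p1 hp1 hpf1
    obtain ⟨E1, s1, a1, -, a3, a4, a5⟩ := h𝓔 t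
    obtain ⟨c1, c2, -⟩ := sat_props hExt hF (hgood E1) a3 a4
    have e := heq (a5 ▸ c1) (a5 ▸ c2)
    rw [(hpt2 E E1).mpr (hUq F hF _ _ s s1 (hgood E) (hgood E1) hs h0 a3 a4 (e.trans a5.symm)
      (e ▸ hPfCub _ hp1)), hpt1 B 𝓔 t E1 a1]
    exact hin t
  · obtain ⟨t, -⟩ := DimP.pt_of_ne_zero B hh
    obtain ⟨E, s, a1, a2, -⟩ := h𝓔 t
    exact ⟨E, a2, hpt1 B 𝓔 t E a1 ▸ hin t⟩

end Pool.Agent.P.MP_2b2d3b_ag
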