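import Pool.Agent.P.MP_2b2d3b_ag.Asm
import Pool.Agent.P.MP_2b2d3b_ag.PtM
import Pool.Agent.P.MP_2b2d3b_ag.Tr
import Pool.Agent.P.MP_2b2d3b_ag.GIa
import Pool.Agent.P.MP_2b2d3b_ag.GIc2
import Pool.Agent.P.MP_2b2d3b_ag.NSig
import Pool.Agent.P.MP_2b2d3b_ag.NCech
import Pool.Agent.P.MP_2b2d3b_ag.NH2
import Pool.Agent.P.MP_2b2d3b_ag.NCocA
import Pool.Agent.P.MP_2b2d3b_ag.NCocB
import Pool.Agent.P.MP_2b2d3b_ag.NTower
import Pool.Agent.P.MP_2b2d3b_ag.NH1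
import Pool.Agent.P.MP_2b2d3b_ag.NLift
import Pool.Agent.P.MP_2b2d3b_ag.NRk1
import Pool.Agent.P.MP_2b2d3b_ag.NFact
import Pool.Agent.P.MP_2b2d3b_ag.NLoc
import Pool.Agent.P.MP_2b2d3b_ag.NInv
import Pool.Agent.P.MP_2b2d3b_ag.NUfd
import Pool.Agent.P.MP_2b2d3b_ag.GorAdm
import Pool.Agent.P.MP_2b2d3b_ag.GorFam
import Pool.Agent.P.MP_2b2d3b_ag.Gram
import Pool.Agent.P.MP_2b2d3b_ag.Hf
import Pool.Agent.P.MP_2b2d3b_ag.Lam
import Pool.Agent.P.MP_2b2d3b_ag.NB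
import Pool.Agent.P.MP_2b2d3b_ag.NP
import Pool.Agent.P.MP_2b2d3b_ag.NonRed
import Pool.Agent.P.MP_2b2d3b_ag.Obs
import Pool.Agent.P.MP_2b2d3b_ag.PfAlgCub
import Pool.Agent.P.MP_2b2d3b_ag.PfFam
import Pool.Agent.P.MP_2b2d3b_ag.PlBase
import Pool.Agent.P.MP_2b2d3b_ag.PlDef
import Pool.Agent.P.MP_2b2d3b_ag.PlEx
import Pool.Agent.P.MP_2b2d3b_ag.PlFun
import Pool.Agent.P.MP_2b2d3b_ag.PlLow
import Pool.Agent.P.MP_2b2d3b_ag.PlUp
import Pool.Agent.P.MP_2b2d3b_ag.Rep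
import Pool.Agent.P.MP_2b2d3b_ag.Serre
import Pool.Agent.P.MP_2b2d3b_ag.Stab
import Pool.Agent.P.MP_2b2d3b_ag.Sys
import Pool.Agent.P.MP_2b2d3b_ag.Uq
import Pool.Agent.P.MP_2b2d3b_ag.Z1

/-!
All packages put together.
-/

namespace Pool.Agent.P.MP_2b2d3b_ag

open MvPolynomial AlgebraicGeometry

namespace FinalP

theorem hTr : S_Tr := tr hfEq stab pullEx

theorem hPt : S_Pt := ptM hTr pullEx

theorem hRad : S_RepRad := repRad lam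

theorem hLen : S_Len := len lower repEx hRad filtOf hfSer lam

theorem hC : S_CStep := cStep lower repEx hRad filtOf hfSer lam

theorem hUq : S_Uq := uq nB nPull serAdm

theorem hUqF : S_UqFree := uqFree hUq hLen

theorem hExt : S_Ext := ext nB nPull lam serAdm hRad hLen

theorem hGor : S_GorFam := gorFam gorAdm nB nPull serAdm hRad hfSer stab

theorem hPfF : S_PfFam := pfFam pfAlg (pfBun pfAlg lower repEx hRad lam) gram gramPull hTr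

theorem hPlEx : S_PlEx := plEx nB nPull lam serAdm hfSer hTr

theorem hNL : S_NL :=
  nL (inv ht (loc ht) (fact cDiv (tower sig cDiv (h2 cDiv) (tA cDiv) cocA0 cocA1 cocA2 cocB)
    (h1 cDiv clear) (lift cDiv) two rk1))

end FinalP

open FinalP

theorem final (F : Pol ℂ) (hF : IndepCoeff F)
    (𝓜 : ModuliSpace F) (U : Set (Fin 4 → ℂ))
    (hU0 : ∃ h : Pol ℂ, h ≠ 0 ∧ ∀ c, eval c h ≠ 0 → c ∈ U) :
    irreducibleComponents 𝓜.M = {closure 𝓜.F₁, closure (𝓜.F₂ U)} ∧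
    topologicalKrullDim (closure (𝓜.F₂ U)) = 13 ∧
    (∃ η : 𝓜.M, IsGenericPoint η (closure (𝓜.F₂ U)) ∧
      ¬ IsReduced (𝓜.M.presheaf.stalk η)) ∧
    ∀ E : Family F ℂ, 𝓜.pt E ∈ closure (𝓜.F₂ U) → E.Obstructed :=
  asm hTr hPt hC hLen hExt (z1 pfBase hPfF pfCub hPt hTr hLen hUqF hExt)
    (nP nzd hGor hUq hLen hPt hTr hRad) (j sys hTr hPt) (nonRed sys hTr hPt) obs plBase hPlEx
    (plCover nB hExt) (plDef hPlEx plFun hLen hRad hGor hUq wedge)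
    (plLow hPlEx plFun hPt hTr serAdm) (plUp hPlEx plFun hPt hLen hUqF hExt) F
    ⟨hF, hNL F hF⟩ 𝓜 U hU0

end Pool.Agent.P.MP_2b2d3b_ag
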