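import Pool.Agent.P.MP_2b2d3b_ag.Final
import Pool.Agent.P.MP_2b2d3b_ag.AsmE
import Pool.Agent.P.MP_2b2d3b_ag.EC1
import Pool.Agent.P.MP_2b2d3b_ag.EC4
import Pool.Agent.P.MP_2b2d3b_ag.EC6
import Pool.Agent.P.MP_2b2d3b_ag.EC7
import Pool.Agent.P.MP_2b2d3b_ag.EFr1
import Pool.Agent.P.MP_2b2d3b_ag.EFr2
import Pool.Agent.P.MP_2b2d3b_ag.EFrSat
import Pool.Agent.P.MP_2b2d3b_ag.EGA1
import Pool.Agent.P.MP_2b2d3b_ag.EGA3
import Pool.Agent.P.MP_2b2d3b_ag.EGA4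
import Pool.Agent.P.MP_2b2d3b_ag.EGC1
import Pool.Agent.P.MP_2b2d3b_ag.EGC2
import Pool.Agent.P.MP_2b2d3b_ag.EGood
import Pool.Agent.P.MP_2b2d3b_ag.EIdem
import Pool.Agent.P.MP_2b2d3b_ag.ELin
import Pool.Agent.P.MP_2b2d3b_ag.EMEx
import Pool.Agent.P.MP_2b2d3b_ag.EMIso
import Pool.Agent.P.MP_2b2d3b_ag.EMLift
import Pool.Agent.P.MP_2b2d3b_ag.EMPar
import Pool.Agent.P.MP_2b2d3b_ag.EMRel
import Pool.Agent.P.MP_2b2d3b_ag.EMSplit
import Pool.Agent.P.MP_2b2d3b_ag.ENbA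
import Pool.Agent.P.MP_2b2d3b_ag.ENbB
import Pool.Agent.P.MP_2b2d3b_ag.EProd
import Pool.Agent.P.MP_2b2d3b_ag.ERepFam
import Pool.Agent.P.MP_2b2d3b_ag.ERepP
import Pool.Agent.P.MP_2b2d3b_ag.ESep
import Pool.Agent.P.MP_2b2d3b_ag.ESpan
import Pool.Agent.P.MP_2b2d3b_ag.EUniv
import Pool.Agent.P.MP_2b2d3b_ag.EGA2
import Pool.Agent.P.MP_2b2d3b_ag.EGB
import Pool.Agent.P.MP_2b2d3b_ag.EBurn
import Pool.Agent.P.MP_2b2d3b_ag.EPrim
import Pool.Agent.P.MP_2b2d3b_ag.EFunLift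
import Pool.Agent.P.MP_2b2d3b_ag.EFrame0

/-!
Existence of the moduli space: all packages put together.
-/

namespace Pool.Agent.P.MP_2b2d3b_ag

namespace FinalEP

theorem h0 : S_C0 := c0 frPull frTr

theorem hSp : S_SpanO := spanO linA

theorem hFib : S_FibPt := fibPt frPull frSat frSp

theorem hRP : S_RepPull := repPull frPull

theorem hRF : S_RepFam := repFam nak hRP

theorem hRel : S_MRel := mRel regRep

theorem hEq : S_NbEq := nbEq nbCov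

theorem hHom : S_NbHom := nbHom nbCov

theorem hA3 : S_GA3 := gA3 nbBC hEq nbCov piNb desc prod

theorem h1 : S_C1 := c1 nbBC h0

theorem h4 : S_C4 := c4 hEq nbBC h0 frPull hFib hSp frTwo mConj mEx

theorem h5 : S_C5 := c5 nbBC h0 frPull (mIso regRep) frChg frSat

theorem h6 (hP : S_Prim) : S_C6 :=
  c6 h0 univ (mSplit idem regRep) (mLift regRep sN) hRel unit frGD frSat frPull hFib hSp
    (goodO hP hRF (ell hRP) nbImg hSp)

theorem h7 (hP : S_Prim) (hL : S_FunLift) : S_C7 :=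
  c7 h0 hFib (lift2 hP hRF (ell hRP) frTr hL) frTr frG frPull frTwo mConj mEx hRel univ unit
    frGD hSp

theorem h8 (hF : S_Frame0) (hB : S_Burn) : S_C8 :=
  c8 hF sep frG frGD mPar hB hRel univ mEx

theorem hB : S_GB :=
  gB hA3 (gAU hEq) (gAL nbImg) (gA4 hA3 (gAU hEq) (gAL nbImg)) hHom

theorem hC2 : S_GC2 :=
  gC2 (gC1 (gA2 nbCov piNb desc) nbImg nbBC hHom) hHom nbCov piNb prod

end FinalEP

open FinalEP

theorem moduli_exists (F : Pol ℂ) (hF : IndepCoeff F) : Nonempty (ModuliSpace F) :=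
  exists_moduli FinalEP.h1 h4 h5 (h6 (prim frPull)) (h7 (prim frPull) (funLift frPull hRP linA))
    (h8 frame0 burn) (gA1 nbImg) hB hC2 ⟨hF, FinalP.hNL F hF⟩

end Pool.Agent.P.MP_2b2d3b_ag
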