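import Pool.Agent.P.MP_2b2d3b_ag.Mod

/-!
The pencil of sections of a bundle whose zero scheme lies in a plane.
-/

namespace Pool.Agent.P.MP_2b2d3b_ag

open MvPolynomial

theorem eq_zero_of_hom {B : Type} [CommRing B] {F a : Pol B} {k n : ℕ} (hF : F.IsHomogeneous k)
    (ha : a.IsHomogeneous n) (hn : n < k) (h : a ∈ Ideal.span {F}) : a = 0 := by
  obtain ⟨c, hc⟩ := Ideal.mem_span_singleton'.mp h
  rw [← homogeneousComponent_eq_self ha, ← hc, ← sum_homogeneousComponent c, Finset.sum_mul,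
    map_sum]
  refine Finset.sum_eq_zero fun i _ => ?_
  rw [homogeneousComponent_of_mem ((homogeneousComponent_isHomogeneous i c).mul hF),
    if_neg (by omega)]

theorem l_reg {F l : Pol ℂ} (hF : F.IsHomogeneous 6) (hirr : Irreducible F)
    (hl : l.IsHomogeneous 1) (hl0 : l ≠ 0) (a : Pol ℂ) (h : l * a ∈ Ideal.span {F}) :
    a ∈ Ideal.span {F} := by
  rw [Ideal.mem_span_singleton] at *
  exact (hirr.prime.dvd_or_dvd h).resolve_left fun h' =>
    hl0 (eq_zero_of_hom hF hl (by omega) (Ideal.mem_span_singleton.mpr h'))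

section

variable {M : Type} [AddCommGroup M] [Module (Pol ℂ) M]

theorem Grading.span_ge (G : Grading ℂ M) (u : M) : ∃ (N : ℕ) (c : ℕ → M),
    (∀ d, c d ∈ G.piece d) ∧ (∀ d ≥ N, c d = 0) ∧ ∀ n ≥ N, u = ∑ d ∈ Finset.range n, c d := by
  obtain ⟨N, c, hc, rfl⟩ := G.span u
  refine ⟨N, fun d => if d < N then c d else 0, fun d => ?_, fun d hd => if_neg (by omega),
    fun n hn => ?_⟩
  · dsimp only
    split_ifs
    exacts [hc d, zero_mem _]
  · rw [← Finset.sum_subset (Finset.range_subset_range.mpr hn) fun i _ hi =>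
      if_neg (by simpa using hi)]
    exact Finset.sum_congr rfl fun i hi => (if_pos (Finset.mem_range.mp hi)).symm

/-- pairs `(a, b)` with `a s + b m` divisible by `l` -/
noncomputable def Nof (l : Pol ℂ) (s m : M) : Submodule (Pol ℂ) (Pol ℂ × Pol ℂ) where
  carrier := {p | ∃ u : M, l • u = p.1 • s + p.2 • m}
  zero_mem' := ⟨0, by simp⟩
  add_mem' := by
    rintro p q ⟨u, hu⟩ ⟨u', hu'⟩
    exact ⟨u + u', by rw [smul_add, hu, hu', Prod.fst_add, Prod.snd_add]; module⟩
  smul_mem' := by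
    rintro c p ⟨u, hu⟩
    exact ⟨c • u, by rw [smul_comm, hu, Prod.smul_fst, Prod.smul_snd]; module⟩

theorem mem_Nof {l : Pol ℂ} {s m : M} {a b : Pol ℂ} :
    (a, b) ∈ Nof l s m ↔ ∃ u : M, l • u = a • s + b • m := Iff.rfl

/-- two sections whose determinant is `l` -/
structure Pencil (F l : Pol ℂ) (G : Grading ℂ M) (s m : M) : Prop where
  hF : F.IsHomogeneous 6
  hl : l.IsHomogeneous 1
  hs : s ∈ G.piece 0
  hm : m ∈ G.piece 0
  kill : ∀ u : M, F • u = 0
  all : ∀ u : M, ∃ a b : Pol ℂ, l • u = a • s + b • m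
  ind : ∀ a b : Pol ℂ, a • s + b • m = 0 → a ∈ Ideal.span {F} ∧ b ∈ Ideal.span {F}
  reg : ∀ u : M, l • u = 0 → u = 0

namespace Pencil

variable {F l : Pol ℂ} {G : Grading ℂ M} {s m : M}

theorem kill' (h : Pencil F l G s m) {a : Pol ℂ} (ha : a ∈ Ideal.span {F}) (u : M) :
    a • u = 0 := by
  obtain ⟨c, rfl⟩ := Ideal.mem_span_singleton'.mp ha
  rw [mul_smul, h.kill, smul_zero]

theorem piece (h : Pencil F l G s m) {a b : Pol ℂ} {d : ℕ} (ha : a.IsHomogeneous d)
    (hb : b.IsHomogeneous d) : a • s + b • m ∈ G.piece d := by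
  have h1 := G.smul_mem _ _ _ _ ha h.hs
  have h2 := G.smul_mem _ _ _ _ hb h.hm
  rw [zero_add] at h1 h2
  exact add_mem h1 h2

theorem comp (h : Pencil F l G s m) {u : M} {a b : Pol ℂ} (e : l • u = a • s + b • m)
    {N : ℕ} {c : ℕ → M} (hc : ∀ d, c d ∈ G.piece d) (h0 : ∀ d ≥ N, c d = 0)
    (hu : ∀ n ≥ N, u = ∑ d ∈ Finset.range n, c d) :
    homogeneousComponent 0 a • s + homogeneousComponent 0 b • m = 0 ∧
    ∀ d, l • c d = homogeneousComponent (d + 1) a • s + homogeneousComponent (d + 1) b • m := by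
  let z : ℕ → M := fun k => homogeneousComponent k a • s + homogeneousComponent k b • m -
    Nat.casesOn k 0 fun d => l • c d
  have hz : ∀ k, z k ∈ G.piece k := fun k => by
    refine sub_mem (h.piece (homogeneousComponent_isHomogeneous _ _)
      (homogeneousComponent_isHomogeneous _ _)) ?_
    cases k with
    | zero => exact zero_mem _
    | succ d => exact G.smul_mem _ _ _ _ h.hl (hc d)
  have key : ∀ k, z k = 0 := fun k => by
    refine G.indep (N + a.totalDegree + b.totalDegree + k + 1) z hz ?_ k (by omega)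
    simp only [z, Finset.sum_sub_distrib, Finset.sum_add_distrib, ← Finset.sum_smul]
    rw [sum_comp a (by omega), sum_comp b (by omega), Finset.sum_range_succ', ← e,
      hu (N + a.totalDegree + b.totalDegree + k) (by omega), Finset.smul_sum]
    simp
  exact ⟨by simpa [z] using key 0, fun d => (sub_eq_zero.mp (key (d + 1))).symm⟩

theorem comp_mem (h : Pencil F l G s m) (a b : Pol ℂ) (hab : (a, b) ∈ Nof l s m) (d : ℕ) :
    (homogeneousComponent d a, homogeneousComponent d b) ∈ Nof l s m := by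
  obtain ⟨u, e⟩ := hab
  obtain ⟨N, c, hc, h0, hu⟩ := G.span_ge u
  obtain ⟨h1, h2⟩ := h.comp e hc h0 hu
  cases d with
  | zero => exact ⟨0, by rw [smul_zero]; exact h1.symm⟩
  | succ d => exact ⟨c d, h2 d⟩

theorem of_piece (h : Pencil F l G s m) {u : M} {d : ℕ} (hd : u ∈ G.piece d) :
    ∃ a b : Pol ℂ, a.IsHomogeneous (d + 1) ∧ b.IsHomogeneous (d + 1) ∧ l • u = a • s + b • m := by
  obtain ⟨a, b, e⟩ := h.all u
  have := (h.comp e (N := d + 1) (c := fun k => if k = d then u else 0) (fun k => by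
    split_ifs with hk
    exacts [hk ▸ hd, zero_mem _]) (fun k hk => if_neg (by omega)) (fun n hn => by
      rw [Finset.sum_ite_eq', if_pos (Finset.mem_range.mpr (by omega))])).2 d
  rw [if_pos rfl] at this
  exact ⟨_, _, homogeneousComponent_isHomogeneous _ _, homogeneousComponent_isHomogeneous _ _, this⟩

theorem to_piece (h : Pencil F l G s m) {u : M} {a b : Pol ℂ} {d : ℕ}
    (ha : a.IsHomogeneous (d + 1)) (hb : b.IsHomogeneous (d + 1)) (e : l • u = a • s + b • m) :
    u ∈ G.piece d := by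
  obtain ⟨N, c, hc, h0, hu⟩ := G.span_ge u
  have h2 := (h.comp e hc h0 hu).2 d
  rw [homogeneousComponent_eq_self ha, homogeneousComponent_eq_self hb, ← e, ← sub_eq_zero,
    ← smul_sub] at h2
  rw [← sub_eq_zero.mp (h.reg _ h2)]
  exact hc d

theorem exists_equiv (h : Pencil F l G s m) {N : Submodule (Pol ℂ) (Pol ℂ × Pol ℂ)}
    (hN : Nof l s m = N) : ∃ e : Qm F N →ₗ[Pol ℂ] M, Function.Bijective e ∧
      ∀ a b hab, l • e (el a b hab) = a • s + b • m := by
  subst hN
  have hreg : ∀ u u' : M, l • u = l • u' → u = u' := fun u u' e =>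
    sub_eq_zero.mp (h.reg _ (by rw [smul_sub, e, sub_self]))
  have : ∀ p : Nof l s m, ∃ u : M, l • u = p.1.1 • s + p.1.2 • m := fun p => p.2
  choose φ hφ using this
  let φ' : Nof l s m →ₗ[Pol ℂ] M :=
    { toFun := φ
      map_add' := fun p q => hreg _ _ (by
        rw [smul_add, hφ, hφ, hφ, Submodule.coe_add, Prod.fst_add, Prod.snd_add]; module)
      map_smul' := fun c p => hreg _ _ (by
        rw [RingHom.id_apply, smul_comm, hφ, hφ, Submodule.coe_smul, Prod.smul_fst, Prod.smul_snd]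
        module) }
  let e : Qm F (Nof l s m) →ₗ[Pol ℂ] M := Submodule.liftQ _ φ' fun p hp => h.reg _ (by
    change l • φ p = 0
    rw [hφ, h.kill' (a := p.1.1) hp.1, h.kill' (a := p.1.2) hp.2, add_zero])
  have he : ∀ a b hab, l • e (el a b hab) = a • s + b • m := fun a b hab => hφ ⟨(a, b), hab⟩
  refine ⟨e, ⟨(injective_iff_map_eq_zero e).mpr fun u hu => ?_, fun u => ?_⟩, he⟩
  · obtain ⟨a, b, hab, rfl⟩ := el_surj u
    have := he a b hab
    rw [hu, smul_zero] at this
    exact el_eq_zero.mpr (h.ind a b this.symm)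
  · obtain ⟨a, b, hab⟩ := h.all u
    exact ⟨el a b ⟨u, hab⟩, hreg _ _ (by rw [he, hab])⟩

theorem lin (h : Pencil F l G s m) (p q r w : ℂ) (hd : p * w - q * r = 1) :
    Pencil F l G ((C p : Pol ℂ) • s + (C r : Pol ℂ) • m) ((C q : Pol ℂ) • s + (C w : Pol ℂ) • m) where
  hF := h.hF
  hl := h.hl
  hs := h.piece (isHomogeneous_C _ _) (isHomogeneous_C _ _)
  hm := h.piece (isHomogeneous_C _ _) (isHomogeneous_C _ _)
  kill := h.kill
  all u := by
    obtain ⟨a, b, e⟩ := h.all u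
    have hd' : (C p * C w - C q * C r : Pol ℂ) = 1 := by
      rw [← map_mul, ← map_mul, ← map_sub, hd, map_one]
    refine ⟨C w * a - C q * b, C p * b - C r * a, ?_⟩
    rw [e]
    linear_combination (norm := module) (-hd') • (a • s + b • m)
  ind a b e := by
    have hd' : (C p * C w - C q * C r : Pol ℂ) = 1 := by
      rw [← map_mul, ← map_mul, ← map_sub, hd, map_one]
    obtain ⟨h1, h2⟩ := h.ind (C p * a + C q * b) (C r * a + C w * b) (by rw [← e]; module)
    constructor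
    · convert Ideal.sub_mem _ (Ideal.mul_mem_left _ (C w) h1) (Ideal.mul_mem_left _ (C q) h2)
        using 1
      linear_combination (-a) * hd'
    · convert Ideal.sub_mem _ (Ideal.mul_mem_left _ (C p) h2) (Ideal.mul_mem_left _ (C r) h1)
        using 1
      linear_combination (-b) * hd'
  reg := h.reg

end Pencil

theorem IsFibre.trans {B : Type} [CommRing B] [Algebra ℂ B] {t : B →ₐ[ℂ] ℂ}
    {N : Type} [AddCommGroup N] [Module (Pol B) N] {GN : Grading B N}
    {M' : Type} [AddCommGroup M'] [Module (Pol ℂ) M'] {G' : Grading ℂ M'} (h : IsFibre t GN G')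
    {G : Grading ℂ M} (e : M' →ₗ[Pol ℂ] M) (he : Function.Bijective e)
    (hd : ∀ d u, u ∈ G'.piece d → e u ∈ G.piece d) : IsFibre t GN G := by
  obtain ⟨θ, h1, h2, h3, h4⟩ := h
  refine ⟨e.toAddMonoidHom.comp θ, fun a u => by simp [h1], fun d u hu => hd _ _ (h2 d u hu),
    fun m i => ?_, fun u i hu => h4 u i (he.1 (by simpa using hu))⟩
  obtain ⟨m, rfl⟩ := he.2 m
  obtain ⟨k, u, hu⟩ := h3 m i
  exact ⟨k, u, by simp [← hu]⟩

theorem IsExtension.pencil {F l : Pol ℂ} (hF : F.IsHomogeneous 6) (hirr : Irreducible F)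
    (hl : l.IsHomogeneous 1) (hl0 : l ≠ 0) {G : Grading ℂ M} {I : Ideal (Pol ℂ)}
    (h : IsExtension F G I) (hI : l ∈ I) :
    ∃ s m : M, Pencil F l G s m ∧ (∀ b, b ∈ I ↔ ∃ a, (a, b) ∈ Nof l s m) ∧
      ∀ a, (a, 0) ∈ Nof l s m → a ∈ Ideal.span {F, l} := by
  obtain ⟨s, hs, π, h1, h2, h3, h4⟩ := h.seq
  have hr := l_reg hF hirr hl hl0
  obtain ⟨m, hm, hπ⟩ : ∃ m ∈ G.piece 0, π m = Ideal.Quotient.mk _ l := by
    obtain ⟨m', hm'⟩ := (h3 l).mp hI
    obtain ⟨N, c, hc, -, hu⟩ := G.span_ge m'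
    choose b hb hb' using fun d => h4 d (c d) (hc d)
    rw [hu (N + 1) (by omega), map_sum] at hm'
    simp only [hb'] at hm'
    rw [← map_sum, Ideal.Quotient.eq] at hm'
    have := comp_mem_one hF hm' (0 + 1)
    rw [map_sub, comp_sum hb (by omega), homogeneousComponent_eq_self hl] at this
    exact ⟨c 0, hc 0, by rw [hb', Ideal.Quotient.eq]; exact this⟩
  have hπs : π s = 0 := (h2 s).mpr ⟨1, by simp⟩
  have hsm : ∀ (a : Pol ℂ) (u : M) (b : Pol ℂ), π u = Ideal.Quotient.mk _ b →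
      π (a • u) = Ideal.Quotient.mk _ (a * b) := fun a u b e => by
    rw [map_smul, e]; rfl
  have hk : ∀ a ∈ Ideal.span {F}, ∀ u : M, a • u = 0 := fun a ha u => by
    obtain ⟨c, rfl⟩ := Ideal.mem_span_singleton'.mp ha
    rw [mul_smul, h.bundle.kill, smul_zero]
  have key : ∀ (u : M) (b : Pol ℂ), π u = Ideal.Quotient.mk _ b ↔
      ∃ a : Pol ℂ, l • u = a • s + b • m := fun u b => by
    obtain ⟨b', hb'⟩ := Ideal.Quotient.mk_surjective (π u)
    constructor
    · intro e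
      obtain ⟨a, ha⟩ := (h2 (l • u - b • m)).mp (by
        rw [map_sub, hsm _ _ _ e, hsm _ _ _ hπ, mul_comm, sub_self])
      exact ⟨a, by rw [← ha]; abel⟩
    · rintro ⟨a, e⟩
      have := congrArg π e
      rw [map_add, map_smul π a, hπs, smul_zero, zero_add, hsm _ _ _ hb'.symm, hsm _ _ _ hπ,
        Ideal.Quotient.eq] at this
      rw [← hb', Ideal.Quotient.eq]
      exact hr _ (by convert this using 1; ring)
  have hind : ∀ a b : Pol ℂ, a • s + b • m = 0 → a ∈ Ideal.span {F} ∧ b ∈ Ideal.span {F} := by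
    intro a b e
    have hb := (key 0 b).mpr ⟨a, by rw [smul_zero, e]⟩
    rw [map_zero, eq_comm, Ideal.Quotient.eq_zero_iff_mem] at hb
    rw [hk b hb, add_zero] at e
    exact ⟨h1 a e, hb⟩
  have hz : ∀ (u : M) (a : Pol ℂ), l • u = a • s → ∃ a', u = a' • s ∧
      l * a' - a ∈ Ideal.span {F} := fun u a e => by
    obtain ⟨a', rfl⟩ := (h2 u).mp ((key u 0).mpr ⟨a, by rw [e, zero_smul, add_zero]⟩)
    exact ⟨a', rfl, h1 _ (by rw [sub_smul, mul_smul, e, sub_self])⟩
  refine ⟨s, m, ⟨hF, hl, hs, hm, h.bundle.kill, fun u => ?_, hind, fun u e => ?_⟩,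
    fun b => ?_, fun a ⟨u, e⟩ => ?_⟩
  · obtain ⟨b, hb⟩ := Ideal.Quotient.mk_surjective (π u)
    obtain ⟨a, e⟩ := (key u b).mp hb.symm
    exact ⟨a, b, e⟩
  · obtain ⟨a', rfl, ha⟩ := hz u 0 (by rw [e, zero_smul])
    exact hk _ (hr _ (by simpa using ha)) _
  · rw [h3]
    exact ⟨fun ⟨u, hu⟩ => ((key u b).mp hu).imp fun a e => ⟨u, e⟩,
      fun ⟨a, u, e⟩ => ⟨u, (key u b).mpr ⟨a, e⟩⟩⟩
  · obtain ⟨a', -, ha⟩ := hz u a (by simpa using e)
    convert Ideal.sub_mem _ (Ideal.mul_mem_right a' _ (right_mem F l)) (mem_pair_left ha) using 1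
    ring

end

end Pool.Agent.P.MP_2b2d3b_ag
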