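import Pool.Agent.P.MP_2b2d3b_ag.Ext
import Pool.Agent.P.MP_2b2d3b_ag.Pen

/-!
Frames adapted to a plane.
-/

namespace Pool.Agent.P.MP_2b2d3b_ag

open Polynomial

/-- a frame adapted to the plane `l = 0` -/
structure Frame (F l : Pol ℂ) (v : Pt ℂ) : Prop where
  e1 : v.g * v.g' = 1
  e2 : v.tau * MvPolynomial.eval (fun i => v.g i 2) F = 1
  e3 : linForm (v.g' 3) = l

theorem exists_linForm {l : Pol ℂ} (hl : l.IsHomogeneous 1) : ∃ c, linForm c = l := by
  have : l ∈ MvPolynomial.homogeneousSubmodule (Fin 4) ℂ 1 := hl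
  rw [MvPolynomial.homogeneousSubmodule_one_eq_span_X,
    Submodule.mem_span_range_iff_exists_fun] at this
  obtain ⟨c, hc⟩ := this
  exact ⟨c, by simpa [linForm, MvPolynomial.smul_eq_C_mul] using hc⟩

theorem frame_change {F l : Pol ℂ} {g g' T T' : Matrix (Fin 4) (Fin 4) ℂ} (e1 : g * g' = 1)
    (e3 : linForm (g' 3) = l) (hT : T * T' = 1) (h3 : T' 3 = ![0, 0, 0, 1])
    (h : MvPolynomial.eval (fun i => (g * T) i 2) F ≠ 0) :
    ∃ v, Frame F l v ∧ v.g = g * T ∧ v.g' = T' * g' := by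
  refine ⟨⟨g * T, T' * g', (MvPolynomial.eval (fun i => (g * T) i 2) F)⁻¹, 0, 0, 0, 0⟩,
    ⟨?_, inv_mul_cancel₀ h, ?_⟩, rfl, rfl⟩
  · change g * T * (T' * g') = 1
    rw [Matrix.mul_assoc, ← Matrix.mul_assoc T, hT, Matrix.one_mul, e1]
  · rw [← e3]
    congr 1
    funext j
    change (T' * g') 3 j = _
    simp [Matrix.mul_apply, Fin.sum_univ_four, h3]

theorem exists_evalEval {p : ℂ[X][X]} (hp : p ≠ 0) : ∃ x y, p.evalEval x y ≠ 0 := by
  by_contra h
  push Not at h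
  apply hp
  ext1 n
  refine Polynomial.funext fun x => ?_
  have : p.map (evalRingHom x) = 0 := Polynomial.funext fun y => by
    rw [map_evalRingHom_eval, h, eval_zero]
  simpa using congrArg (fun q => q.coeff n) this

theorem exists_frame_l {F l : Pol ℂ} (hF : F.IsHomogeneous 6) (hirr : Irreducible F)
    (hl : l.IsHomogeneous 1) (hl0 : l ≠ 0) : ∃ v, Frame F l v := by
  obtain ⟨c, rfl⟩ := exists_linForm hl
  obtain ⟨j, hj⟩ : ∃ j, c j ≠ 0 := by
    by_contra h
    push Not at h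
    exact hl0 (by simp [linForm, h])
  let g' : Matrix (Fin 4) (Fin 4) ℂ :=
    ((1 : Matrix (Fin 4) (Fin 4) ℂ).updateRow j c).submatrix (Equiv.swap j 3) id
  have hd : IsUnit g'.det := by
    have h1 : ((1 : Matrix (Fin 4) (Fin 4) ℂ).updateRow j c).det = c j := by
      rw [← Matrix.cramer_transpose_apply, Matrix.transpose_one, Matrix.cramer_one]; rfl
    rw [Matrix.det_permute, h1]
    exact (IsUnit.mk0 _ (by simp)).mul hj.isUnit
  have e1 : g'⁻¹ * g' = 1 := Matrix.nonsing_inv_mul _ hd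
  have e3 : linForm (g' 3) = linForm c := by
    congr 1
    funext i
    simp [g']
  have h0 : rho g'⁻¹ F ≠ 0 := fun h => by
    have := mem_of_rho_eq_zero e1 hF h
    rw [e3, Ideal.mem_span_singleton] at this
    have h2 := (hirr.dvd_iff.mp this).resolve_left fun hu => by
      obtain ⟨w, hw⟩ := hu.exists_right_inv
      have := congrArg (rho g'⁻¹) hw
      rw [map_mul, ← e3, rho_U3 e1] at this
      simp at this
    exact hl0 (eq_zero_of_hom hF hl (by omega) (Ideal.mem_span_singleton.mpr h2.dvd))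
  obtain ⟨x, y, hxy⟩ := exists_evalEval h0
  rw [evalEval_rho] at hxy
  obtain ⟨v, hv, -⟩ := frame_change (F := F) e1 e3
    (T := !![0, 0, 1, 0; 0, 1, x, 0; 1, 0, y, 0; 0, 0, 0, 1])
    (T' := !![-y, 0, 1, 0; -x, 1, 0, 0; 1, 0, 0, 0; 0, 0, 0, 1])
    (by ext i j; fin_cases i <;> fin_cases j <;> simp [Matrix.mul_apply, Fin.sum_univ_four])
    rfl (by simpa [Matrix.mul_apply, Fin.sum_univ_four] using hxy)
  exact ⟨v, hv⟩

namespace Frame

variable {F l : Pol ℂ} {v : Pt ℂ}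

theorem dvd (h : Frame F l v) {P : Pol ℂ} (hP : P ∈ Ideal.span {F, l}) : v.f F ∣ rho v.g P := by
  have := rho_mem h.e1 (h.e3 ▸ hP)
  rw [Pt.rho_F h.e2] at this
  exact dvd_of_mul_right_dvd this

theorem C_eq_zero (h : Frame F l v) (hF : F.IsHomogeneous 6) {P : Pol ℂ}
    (hP : P ∈ Ideal.span {F, l}) {p : ℂ[X]} (e : rho v.g P = C p) : p = 0 := by
  have := h.dvd hP
  rw [e] at this
  exact Polynomial.C_eq_zero.mp (eq_zero_of_dvd_of_natDegree_lt (Pt.f_monic hF h.e2) this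
    (by rw [Pt.natDegree_f hF h.e2, natDegree_C]; omega))

theorem U0_not_mem (h : Frame F l v) (hF : F.IsHomogeneous 6) :
    linForm (v.g' 0) ∉ Ideal.span {F, l} := fun h0 =>
  one_ne_zero (h.C_eq_zero hF h0 (rho_U0 h.e1))

theorem mem_of_dvd (h : Frame F l v) (hF : F.IsHomogeneous 6) (hp : (Ideal.span {F, l}).IsPrime)
    {P : Pol ℂ} {d : ℕ} (hP : P.IsHomogeneous d) (e : v.f F ∣ rho v.g P) :
    P ∈ Ideal.span {F, l} := by
  obtain ⟨s, hs⟩ := e
  obtain ⟨k, R, S, T, e', -⟩ := hom_mem h.e1 hP hF (MvPolynomial.isHomogeneous_zero _ _ 0)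
    (r := C (C v.tau) * s) (s := 0) (by rw [hs, Pt.f]; ring)
  have : linForm (v.g' 0) ^ k * P ∈ Ideal.span {F, l} :=
    Ideal.mem_span_pair.mpr ⟨R, T, by rw [e', h.e3]; ring⟩
  exact (hp.mem_or_mem this).resolve_left fun h0 => h.U0_not_mem hF (hp.mem_of_pow_mem _ h0)

end Frame

instance finite_hom (d : ℕ) : Module.Finite ℂ (MvPolynomial.homogeneousSubmodule (Fin 4) ℂ d) :=
  Module.Finite.iff_fg.mpr (MvPolynomial.homogeneousSubmodule_fg _ _ d)

theorem exists_not_mem {F l : Pol ℂ} (hF : F.IsHomogeneous 6) (hirr : Irreducible F)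
    (hl : l.IsHomogeneous 1) (hl0 : l ≠ 0) {I : Ideal (Pol ℂ)}
    (hI : ∃ d₀, ∀ d ≥ d₀, hilb I d = 11) : ∃ b ∈ I, b ∉ Ideal.span {F, l} := by
  obtain ⟨v, hv⟩ := exists_frame_l hF hirr hl hl0
  obtain ⟨d0, hd⟩ := hI
  by_contra hne
  push Not at hne
  let w : Fin 12 → Pol ℂ := fun i => linForm (v.g' 0) ^ (d0 + 11 - i) * linForm (v.g' 1) ^ (i : ℕ)
  have hw : ∀ i, (w i).IsHomogeneous (d0 + 11) := fun i => by
    convert ((linForm_hom (v.g' 0)).pow (d0 + 11 - i)).mul ((linForm_hom (v.g' 1)).pow i) using 1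
    omega
  have hli : LinearIndependent ℂ fun i => (⟨Ideal.Quotient.mk I (w i), w i, hw i, rfl⟩ :
      (MvPolynomial.homogeneousSubmodule (Fin 4) ℂ (d0 + 11)).map
        (Ideal.Quotient.mkₐ ℂ I).toLinearMap) := by
    rw [Fintype.linearIndependent_iff]
    intro c hc i
    have h1 : Ideal.Quotient.mkₐ ℂ I (∑ i, c i • w i) = 0 := by
      have := congrArg Subtype.val hc
      simpa using this
    have h2 := hv.C_eq_zero hF (hne _ (Ideal.Quotient.eq_zero_iff_mem.mp h1))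
      (p := ∑ i : Fin 12, monomial (i : ℕ) (c i)) (by
        simp [w, rho_U0 hv.e1, rho_U1 hv.e1, ← C_mul_X_pow_eq_monomial, Algebra.smul_def])
    have := congrArg (fun p => p.coeff i) h2
    simpa [coeff_monomial, Fin.val_inj] using this
  have := hli.fintype_card_le_finrank
  have h2 := hd (d0 + 11) (by omega)
  rw [hilb] at h2
  rw [h2] at this
  simp at this

end Pool.Agent.P.MP_2b2d3b_ag
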