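import Pool.Agent.P.MP_2b2d3b_ag.Bas

/-!
General commutative algebra for the generic fibre: flatness, regular extensions, base change.
-/

namespace Pool.Agent.P.MP_2b2d3b_ag.GIP

open TensorProduct

theorem flat_of_inj (A C : Type) [CommRing A] [IsDomain A] [Field C] [Algebra A C]
    (h : Function.Injective (algebraMap A C)) : Module.Flat A C := by
  have : FaithfulSMul A C := (faithfulSMul_iff_algebraMap_injective A C).2 h
  let _ : Algebra (FractionRing A) C := FractionRing.liftAlgebra A C
  have : IsScalarTower A (FractionRing A) C := FractionRing.isScalarTower_liftAlgebra A C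
  have : Module.Flat A (FractionRing A) := IsLocalization.flat _ (nonZeroDivisors A)
  exact Module.Flat.trans A (FractionRing A) C

theorem nzd_tmul (A M S : Type) [CommRing A] [CommRing M] [CommRing S] [Algebra A M]
    [Algebra A S] [Module.Flat A M] {δ : S} (hδ : ∀ x, δ * x = 0 → x = 0) (x : M ⊗[A] S)
    (hx : (1 : M) ⊗ₜ[A] δ * x = 0) : x = 0 := by
  have h1 : Function.Injective (LinearMap.mulLeft A δ) :=
    (injective_iff_map_eq_zero _).2 hδ
  have h2 := Module.Flat.lTensor_preserves_injective_linearMap (M := M) _ h1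
  have h3 : ∀ y : M ⊗[A] S, (LinearMap.mulLeft A δ).lTensor M y = (1 : M) ⊗ₜ[A] δ * y := fun y => by
    induction y using TensorProduct.induction_on with
    | zero => simp
    | tmul a b => simp
    | add a b ha hb => rw [map_add, mul_add, ha, hb]
  exact (injective_iff_map_eq_zero _).1 h2 x (by rw [h3, hx])

section field

variable (K L : Type) [Field K] [Field L] [Algebra K L] [CharZero K]

theorem closed_of_domain [IsDomain (L ⊗[K] L)] {a : L} (ha : IsIntegral K a) :
    ∃ c : K, algebraMap K L c = a := by
  have hroot : ((minpoly K a).map (algebraMap K L)).IsRoot a := by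
    rw [Polynomial.IsRoot, Polynomial.eval_map_algebraMap, minpoly.aeval]
  obtain ⟨h, hh⟩ := Polynomial.dvd_iff_isRoot.2 hroot
  have hne : h.eval a ≠ 0 := by
    have h1 := (minpoly.irreducible ha).separable.aeval_derivative_ne_zero (minpoly.aeval K a)
    rw [← Polynomial.eval_map_algebraMap, ← Polynomial.derivative_map, hh] at h1
    simpa using h1
  let i1 : L →+* L ⊗[K] L := Algebra.TensorProduct.includeLeftRingHom
  let i2 : L →ₐ[K] L ⊗[K] L := Algebra.TensorProduct.includeRight
  have h2 : ((minpoly K a).map (algebraMap K L)).eval₂ i1 (i2 a) = 0 := by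
    rw [Polynomial.eval₂_map]
    have e : i1.comp (algebraMap K L) = algebraMap K (L ⊗[K] L) := rfl
    rw [e, ← Polynomial.aeval_def, Polynomial.aeval_algHom_apply, minpoly.aeval, map_zero]
  rw [hh, Polynomial.eval₂_mul, Polynomial.eval₂_sub, Polynomial.eval₂_X, Polynomial.eval₂_C] at h2
  have h3 : h.eval₂ i1 (i2 a) ≠ 0 := fun e => hne (by
    have h4 := congrArg (Algebra.TensorProduct.lmul' K (S := L)).toRingHom e
    rw [Polynomial.hom_eval₂, map_zero] at h4
    have e1 : (Algebra.TensorProduct.lmul' K (S := L)).toRingHom.comp i1 = RingHom.id L := by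
      ext x
      simp [i1]
    have e2 : (Algebra.TensorProduct.lmul' K (S := L)).toRingHom (i2 a) = a := by simp [i2]
    rwa [e1, e2] at h4)
  have h5 : (1 : L) ⊗ₜ[K] a = a ⊗ₜ[K] (1 : L) := sub_eq_zero.1 ((mul_eq_zero.1 h2).resolve_right h3)
  obtain ⟨lam, hlam⟩ := LinearMap.exists_leftInverse_of_injective (Algebra.linearMap K L)
    (LinearMap.ker_eq_bot.2 (algebraMap K L).injective)
  have h6 : lam 1 = 1 := by simpa using LinearMap.congr_fun hlam 1
  have h7 := congrArg (fun t => TensorProduct.lid K L (lam.rTensor L t)) h5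
  simp only [LinearMap.rTensor_tmul, TensorProduct.lid_tmul, h6, one_smul] at h7
  exact ⟨lam a, by rw [Algebra.algebraMap_eq_smul_one, ← h7]⟩

theorem domain_of_closed (hc : ∀ a : L, IsIntegral K a → ∃ c : K, algebraMap K L c = a)
    (C : Type) [Field C] [Algebra K C] [Algebra.IsAlgebraic K C] : IsDomain (C ⊗[K] L) := by
  let Ω := AlgebraicClosure L
  let f : C →ₐ[K] Ω := IsAlgClosed.lift
  let g : L →ₐ[K] Ω := IsScalarTower.toAlgHom K L Ω
  refine Subalgebra.LinearDisjoint.isDomain_of_injective (fa := f) (fb := g) f.injective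
    g.injective ?_
  have : Algebra.IsIntegral K f.range := by
    refine ⟨fun x => ?_⟩
    obtain ⟨x, c, rfl⟩ := x
    exact (isIntegral_algHom_iff f.range.val Subtype.val_injective).1
      ((Algebra.IsIntegral.isIntegral c).map f)
  refine Subalgebra.LinearDisjoint.of_linearDisjoint_finite_left _ _ fun A' _ hfin => ?_
  have halg : A'.IsAlgebraic := fun x hx =>
    ((isIntegral_algHom_iff A'.val Subtype.val_injective).2
      (IsIntegral.of_finite K (⟨x, hx⟩ : A'))).isAlgebraic
  let E : IntermediateField K Ω := halg.toIntermediateField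
  have : FiniteDimensional K E := hfin
  let pb := Field.powerBasisOfFiniteOfSeparable K E
  have hint : IsIntegral K (pb.gen : Ω) := pb.isIntegral_gen.map E.val
  have hdeg : pb.dim ≤ (minpoly L (pb.gen : Ω)).natDegree := by
    have h1 := integralClosure.mem_lifts_of_monic_of_dvd_map L (minpoly.monic hint)
      (minpoly.monic hint.tower_top) (minpoly.dvd_map_of_isScalarTower K L (pb.gen : Ω))
    have h2 : minpoly L (pb.gen : Ω) ∈ Polynomial.lifts (algebraMap K L) := by
      rw [Polynomial.lifts_iff_coeff_lifts] at h1 ⊢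
      intro n
      obtain ⟨c, hc'⟩ := h1 n
      obtain ⟨c', hc''⟩ := hc c.1 c.2
      exact ⟨c', hc''.trans hc'⟩
    obtain ⟨q, hq, hqd, hqm⟩ := Polynomial.lifts_and_natDegree_eq_and_monic h2
      (minpoly.monic hint.tower_top)
    have h3 : Polynomial.aeval (pb.gen : Ω) q = 0 := by
      rw [← Polynomial.aeval_map_algebraMap L, hq, minpoly.aeval]
    have h4 := Polynomial.natDegree_le_natDegree (minpoly.min K _ hqm h3)
    rw [← hqd, ← pb.natDegree_minpoly, IntermediateField.minpoly_eq]
    exact h4
  have hli := (linearIndependent_pow (K := L) (pb.gen : Ω)).comp (Fin.castLE hdeg)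
    (Fin.castLE_injective hdeg)
  refine IntermediateField.LinearDisjoint.of_basis_left (A := E) (L := L) pb.basis ?_
  convert hli using 1
  funext i
  simp

end field

open MvPolynomial

/-- the hypothesis that makes the generic fibre geometrically integral -/
def GInt (k ι D : Type) [Field k] [CommRing D] [Algebra k D] (g : ι → D) : Prop :=
  ∀ (K L : Type) [Field K] [Field L] [Algebra (MvPolynomial ι k) K]
    [IsFractionRing (MvPolynomial ι k) K] [Algebra D L] [IsFractionRing D L] [Algebra K L],
    (∀ a, algebraMap K L (algebraMap (MvPolynomial ι k) K a) = algebraMap D L (aeval g a)) →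
    IsDomain (L ⊗[K] L)

theorem domain_tensor (A D C : Type) [CommRing A] [IsDomain A] [CharZero A] [CommRing D]
    [IsDomain D] [Field C] [Algebra A D] [Algebra A C] (hD : Function.Injective (algebraMap A D))
    (hC : Function.Injective (algebraMap A C)) [Algebra.IsAlgebraic A C]
    (hT : ∀ [Algebra (FractionRing A) (FractionRing D)],
      (∀ a, algebraMap (FractionRing A) (FractionRing D) (algebraMap A (FractionRing A) a) =
        algebraMap D (FractionRing D) (algebraMap A D a)) →
      IsDomain (FractionRing D ⊗[FractionRing A] FractionRing D)) :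
    IsDomain (C ⊗[A] D) ∧
      Function.Injective (Algebra.TensorProduct.includeRight : D →ₐ[A] C ⊗[A] D) := by
  let K := FractionRing A
  let L := FractionRing D
  have hL : Function.Injective (algebraMap A L) := by
    rw [IsScalarTower.algebraMap_eq A D L]
    exact (IsFractionRing.injective D L).comp hD
  have : FaithfulSMul A C := (faithfulSMul_iff_algebraMap_injective A C).2 hC
  have : FaithfulSMul A L := (faithfulSMul_iff_algebraMap_injective A L).2 hL
  let _ : Algebra K C := FractionRing.liftAlgebra A C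
  let _ : Algebra K L := FractionRing.liftAlgebra A L
  have : IsScalarTower A K C := FractionRing.isScalarTower_liftAlgebra A C
  have : IsScalarTower A K L := FractionRing.isScalarTower_liftAlgebra A L
  have : Algebra.IsAlgebraic K C := Algebra.IsAlgebraic.extendScalars (IsFractionRing.injective A K)
  have : IsDomain (L ⊗[K] L) := hT fun a => by
    rw [← IsScalarTower.algebraMap_apply, ← IsScalarTower.algebraMap_apply]
  have : IsDomain (C ⊗[K] L) := domain_of_closed K L (fun a ha => closed_of_domain K L ha) C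
  have : Module.Flat A C := flat_of_inj A C hC
  let e := IsLocalization.algebraTensorEquiv (nonZeroDivisors A) K C L
  let f : C ⊗[A] D →ₐ[A] C ⊗[A] L :=
    Algebra.TensorProduct.map (AlgHom.id A C) (IsScalarTower.toAlgHom A D L)
  have hf : Function.Injective f :=
    Module.Flat.lTensor_preserves_injective_linearMap (M := C)
      (IsScalarTower.toAlgHom A D L).toLinearMap (IsFractionRing.injective D L)
  have : IsDomain (C ⊗[A] L) := e.symm.injective.isDomain e.symm.toRingEquiv.toRingHom
  refine ⟨hf.isDomain f.toRingHom, (injective_iff_map_eq_zero _).2 fun d hd => ?_⟩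
  have h1 : (Algebra.TensorProduct.includeRight : L →ₐ[A] C ⊗[A] L) (algebraMap D L d) = 0 := by
    have h2 := congrArg f hd
    rw [map_zero] at h2
    exact h2
  exact IsFractionRing.injective D L (by
    rw [map_zero]
    exact (map_eq_zero_iff _ (AlgHom.toRingHom _).injective).1 h1)

theorem bc_exists (k ι D : Type) [Field k] [CharZero k] [Algebra k ℂ] [CommRing D] [Algebra k D]
    [Algebra.FiniteType k D] (κ : ι → ℂ) (hκ : AlgebraicIndependent k κ) (g : ι → D) :
    ∃ (B : Type) (_ : CommRing B) (_ : Algebra ℂ B) (_ : Algebra.FiniteType ℂ B) (j : D →+* B),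
      (∀ m, j (g m) = algebraMap ℂ B (κ m)) ∧
      (∀ δ : D, (∀ x, δ * x = 0 → x = 0) → ∀ x, j δ * x = 0 → x = 0) ∧
      (∀ t0 : D →ₐ[k] ℂ, (∀ m, t0 (g m) = κ m) → ∃ t : B →ₐ[ℂ] ℂ, ∀ d, t (j d) = t0 d) ∧
      (IsDomain D → AlgebraicIndependent k g →
        (∀ z : ℂ, ∃ p : Polynomial (MvPolynomial ι k), p ≠ 0 ∧
          p.eval₂ (aeval κ : MvPolynomial ι k →ₐ[k] ℂ) z = 0) →
        GInt k ι D g → IsDomain B ∧ Function.Injective j) := by
  let A := MvPolynomial ι k
  let _ : Algebra A ℂ := (aeval κ : A →ₐ[k] ℂ).toRingHom.toAlgebra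
  let _ : Algebra A D := (aeval g : A →ₐ[k] D).toRingHom.toAlgebra
  have hAC : ∀ a : A, algebraMap A ℂ a = aeval κ a := fun _ => rfl
  have hAD : ∀ a : A, algebraMap A D a = aeval g a := fun _ => rfl
  have : IsScalarTower k A D := IsScalarTower.of_algebraMap_eq fun c => by
    rw [hAD, AlgHom.commutes]
  have : Algebra.FiniteType A D := Algebra.FiniteType.of_restrictScalars_finiteType k A D
  have : Module.Flat A ℂ := flat_of_inj A ℂ hκ
  refine ⟨ℂ ⊗[A] D, inferInstance, inferInstance, inferInstance,
    (Algebra.TensorProduct.includeRight : D →ₐ[A] ℂ ⊗[A] D).toRingHom, fun m => ?_,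
    fun δ hδ x hx => nzd_tmul A ℂ D hδ x hx, fun t0 ht0 => ?_, fun _ hg halg hT => ?_⟩
  · have h1 : g m = algebraMap A D (X m) := by rw [hAD, aeval_X]
    have h2 : κ m = algebraMap A ℂ (X m) := by rw [hAC, aeval_X]
    rw [h1, h2, ← IsScalarTower.algebraMap_apply]
    exact AlgHom.commutes _ _
  · let t1 : D →ₐ[A] ℂ :=
      { t0.toRingHom with
        commutes' := fun a => by
          have h1 : t0.comp (aeval g) = aeval κ := algHom_ext fun m => by simp [ht0]
          exact AlgHom.congr_fun h1 a }
    refine ⟨Algebra.TensorProduct.lift (AlgHom.id ℂ ℂ) t1 fun _ _ => Commute.all _ _, fun d => ?_⟩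
    show Algebra.TensorProduct.lift (AlgHom.id ℂ ℂ) t1 _ ((1 : ℂ) ⊗ₜ[A] d) = _
    rw [Algebra.TensorProduct.lift_tmul, map_one, one_mul]
    rfl
  · have : Algebra.IsAlgebraic A ℂ := ⟨fun z => halg z⟩
    exact domain_tensor A D ℂ hg hκ fun h => hT _ _ h

end Pool.Agent.P.MP_2b2d3b_ag.GIP
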