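import Pool.Agent.P.MP_2b2d3b_ag.GIb

/-!
Retractions, the Jacobian criterion, and integrality of the square of the generic fibre.
-/

namespace Pool.Agent.P.MP_2b2d3b_ag.GIP

open TensorProduct MvPolynomial

theorem retract {R W Ω : Type} [CommRing R] [CommRing Ω] (ι0 ρ : MvPolynomial W R →+* Ω)
    (hinj : Function.Injective ι0) (J : Ideal (MvPolynomial W R)) (δ : MvPolynomial W R)
    (hC : ∀ r, ρ (C r) = ι0 (C r))
    (hX : ∀ w, ∃ σ ∈ J, ι0 δ * ρ (X w) = ι0 (δ * X w - σ)) {u : MvPolynomial W R}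
    (hu : ρ u = 0) : ∃ N : ℕ, δ ^ N * u ∈ J := by
  have key : ∀ u : MvPolynomial W R, ∃ (N : ℕ) (u' : MvPolynomial W R),
      ι0 δ ^ N * ρ u = ι0 u' ∧ δ ^ N * u - u' ∈ J := fun u => by
    induction u using MvPolynomial.induction_on with
    | C r => exact ⟨0, C r, by simp [hC], by simp⟩
    | add p q hp hq =>
      obtain ⟨N, p', h1, h2⟩ := hp
      obtain ⟨M, q', h3, h4⟩ := hq
      refine ⟨N + M, δ ^ M * p' + δ ^ N * q', ?_, ?_⟩
      · rw [map_add, map_add, map_mul, map_mul, map_pow, map_pow, ← h1, ← h3]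
        ring
      · convert J.add_mem (J.mul_mem_left (δ ^ M) h2) (J.mul_mem_left (δ ^ N) h4) using 1
        ring
    | mul_X p w hp =>
      obtain ⟨N, p', h1, h2⟩ := hp
      obtain ⟨σ, hσ, h3⟩ := hX w
      refine ⟨N + 1, p' * (δ * X w - σ), ?_, ?_⟩
      · rw [map_mul, map_mul, ← h1, ← h3]
        ring
      · convert J.add_mem (J.mul_mem_left (δ * X w) h2) (J.mul_mem_left p' hσ) using 1
        ring
  obtain ⟨N, u', h1, h2⟩ := key u
  rw [hu, mul_zero] at h1
  rw [hinj (h1.symm.trans (map_zero ι0).symm), sub_zero] at h2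
  exact ⟨N, h2⟩

theorem der_aeval {k D ι : Type} [CommRing k] [CommRing D] [Algebra k D] [Fintype ι] (g : ι → D)
    (dd : Derivation k D D) (Q : MvPolynomial ι k) :
    dd (aeval g Q) = ∑ i, dd (g i) * aeval g (pderiv i Q) := by
  classical
  induction Q using MvPolynomial.induction_on with
  | C a => simp
  | add Q R hQ hR => simp only [map_add, hQ, hR, mul_add, Finset.sum_add_distrib]
  | mul_X Q j hQ =>
    have h1 : ∀ i, dd (g i) * aeval g (pderiv i (Q * X j)) =
        g j * (dd (g i) * aeval g (pderiv i Q)) +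
          if j = i then aeval g Q * dd (g j) else 0 := fun i => by
      rw [pderiv_mul, pderiv_X, Pi.single_apply]
      split_ifs with hji
      · subst hji
        simp only [map_add, map_mul, aeval_X, map_one]
        ring
      · simp only [map_add, map_mul, aeval_X, map_zero]
        ring
    simp only [h1, Finset.sum_add_distrib, Finset.sum_ite_eq, Finset.mem_univ, if_true]
    rw [← Finset.mul_sum, ← hQ, map_mul, aeval_X, Derivation.leibniz]
    simp only [smul_eq_mul]
    ring

theorem jac {k D ι : Type} [Field k] [CharZero k] [CommRing D] [IsDomain D] [Algebra k D]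
    [Fintype ι] [DecidableEq ι] (g : ι → D) (ε : D →+* k) (dd : ι → Derivation k D D)
    (h : ∀ i j, ε (dd i (g j)) = if i = j then 1 else 0) : AlgebraicIndependent k g := by
  let M : Matrix ι ι D := Matrix.of fun i j => dd i (g j)
  have hM : M.det ≠ 0 := fun e => by
    have h1 : ε.mapMatrix M = 1 := by
      ext i j
      simp [M, h, Matrix.one_apply]
    have h2 := ε.map_det M
    rw [e, h1, map_zero, Matrix.det_one] at h2
    exact zero_ne_one h2
  have key : ∀ (N : ℕ) (Q : MvPolynomial ι k),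
      (∀ m : ι →₀ ℕ, N ≤ m.degree → Q.coeff m = 0) → aeval g Q = 0 → Q = 0 := by
    intro N
    induction N with
    | zero => exact fun Q hQ _ => MvPolynomial.ext _ _ fun m => hQ m (Nat.zero_le _)
    | succ N ih =>
      intro Q hQ h0
      have h00 : (fun i => aeval g (pderiv i Q)) = 0 := by
        refine Matrix.eq_zero_of_mulVec_eq_zero hM (funext fun i => ?_)
        have h1 := der_aeval g (dd i) Q
        rw [h0, map_zero] at h1
        exact h1.symm
      have h1 : ∀ i, pderiv i Q = 0 := fun i => by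
        refine ih _ (fun m hm => ?_) (congrFun h00 i)
        rw [coeff_pderiv, hQ _ (by simpa using hm), zero_mul]
      have h2 : Q = MvPolynomial.C (Q.coeff 0) := by
        ext m
        rw [coeff_C]
        split_ifs with hm
        · rw [hm]
        · obtain ⟨i, hi⟩ : ∃ i, m i ≠ 0 := by
            by_contra hc
            push Not at hc
            exact hm (Finsupp.ext hc).symm
          have h3 := congrArg (coeff (m - Finsupp.single i 1)) (h1 i)
          have h4 : m - Finsupp.single i 1 + Finsupp.single i 1 = m :=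
            tsub_add_cancel_of_le (Finsupp.single_le_iff.2 (Nat.one_le_iff_ne_zero.2 hi))
          rw [coeff_pderiv, h4, coeff_zero] at h3
          have h5 := (mul_eq_zero.1 h3).resolve_right (Nat.cast_add_one_ne_zero _)
          rw [h5]
      rw [h2, aeval_C] at h0
      rw [h2, (algebraMap k D).injective (h0.trans (map_zero _).symm), map_zero]
  rw [algebraicIndependent_iff]
  intro Q hQ
  refine key (Q.totalDegree + 1) Q (fun m hm => ?_) hQ
  refine coeff_eq_zero_of_totalDegree_lt ?_
  rw [← Finsupp.degree_apply]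
  omega

/-- a nonzero polynomial in two copies of independent elements is regular -/
theorem nzd_two (k K L Φ : Type) [CommRing k] [Field K] [Field L] [Algebra K L] (c : k →+* K)
    (hc : Function.Injective c) (x : Φ → L) (hx : AlgebraicIndependent K x)
    (θ : MvPolynomial (Φ ⊕ Φ) k →+* L ⊗[K] L) (hC : ∀ r, θ (C r) = algebraMap K _ (c r))
    (h1 : ∀ f, θ (X (Sum.inl f)) = x f ⊗ₜ 1) (h2 : ∀ f, θ (X (Sum.inr f)) = 1 ⊗ₜ x f)
    {δ : MvPolynomial (Φ ⊕ Φ) k} (hδ : δ ≠ 0) (t : L ⊗[K] L) (ht : θ δ * t = 0) : t = 0 := by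
  let P := MvPolynomial Φ K
  let _ : Algebra P L := (aeval x : P →ₐ[K] L).toRingHom.toAlgebra
  have hPL : ∀ a : P, algebraMap P L a = aeval x a := fun _ => rfl
  have : IsScalarTower K P L := IsScalarTower.of_algebraMap_eq fun a => by
    rw [hPL, AlgHom.commutes]
  have : Module.Flat P L := flat_of_inj P L hx
  let e2 : P ⊗[K] L ≃+* MvPolynomial Φ L :=
    (Algebra.TensorProduct.comm K P L).toRingEquiv.trans (algebraTensorAlgEquiv K L).toRingEquiv
  have he2 : ∀ (p : P) (l : L), e2 (p ⊗ₜ l) = l • map (algebraMap K L) p := fun p l =>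
    algebraTensorAlgEquiv_tmul K L l p
  let η : MvPolynomial (Φ ⊕ Φ) k →+* P ⊗[K] L :=
    eval₂Hom ((algebraMap K _).comp c) (Sum.elim (fun f => X f ⊗ₜ 1) fun f => 1 ⊗ₜ x f)
  let ψ : MvPolynomial Φ k →+* L := (aeval x : P →ₐ[K] L).toRingHom.comp (map c)
  have hψ : Function.Injective ψ := fun a b h => map_injective c hc (hx h)
  have h3 : e2.toRingHom.comp η =
      (map ψ).comp (sumAlgEquiv k Φ Φ).toRingEquiv.toRingHom := by
    refine ringHom_ext (fun r => ?_) fun w => ?_
    · have h4 := he2 (C (c r)) 1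
      rw [one_smul, map_C] at h4
      have h5 : e2 (algebraMap K (P ⊗[K] L) (c r)) = C (algebraMap K L (c r)) := h4
      simpa [η, ψ] using h5
    · rcases w with f | f
      · simp [η, he2, P]
      · simp [η, ψ, he2, smul_eq_C_mul]
  have h4 : e2 (η δ) ≠ 0 := by
    have h5 := RingHom.congr_fun h3 δ
    simp only [RingHom.comp_apply, RingEquiv.toRingHom_eq_coe, RingHom.coe_coe] at h5
    rw [h5]
    exact fun e => hδ ((sumAlgEquiv k Φ Φ).injective
      ((map_injective ψ hψ (e.trans (map_zero _).symm)).trans (map_zero _).symm))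
  have h6 : ∀ y, η δ * y = 0 → y = 0 := fun y hy => by
    have h7 := congrArg e2 hy
    rw [map_mul, map_zero] at h7
    exact e2.injective (((mul_eq_zero.1 h7).resolve_left h4).trans (map_zero _).symm)
  let e := Algebra.TensorProduct.cancelBaseChange K P L L L
  have h8 : (e.toRingEquiv.toRingHom.comp (Algebra.TensorProduct.includeRight :
      P ⊗[K] L →ₐ[P] L ⊗[P] (P ⊗[K] L)).toRingHom).comp η = θ := by
    refine ringHom_ext (fun r => ?_) fun w => ?_
    · simp [η, e, hC, Algebra.TensorProduct.one_def]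
    · rcases w with f | f
      · simp [η, e, h1, Algebra.smul_def, hPL, P]
      · simp [η, e, h2]
  have h9 : e ((1 : L) ⊗ₜ[P] η δ) = θ δ := RingHom.congr_fun h8 δ
  have h10 := nzd_tmul P L (P ⊗[K] L) h6 (e.symm t) (e.injective (by
    rw [map_mul, h9, AlgEquiv.apply_symm_apply, ht, map_zero]))
  exact e.symm.injective (h10.trans (map_zero _).symm)

theorem gint_of_retract (k ι V Φ Ω : Type) [Field k] [Field Ω] (g : ι → MvPolynomial V k)
    (φ : Φ → V) (hind : AlgebraicIndependent k (Sum.elim (fun f => X (φ f)) g))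
    (δ0 : MvPolynomial (Φ ⊕ Φ) k) (hδ0 : δ0 ≠ 0) (ι0 ρ : MvPolynomial (V ⊕ V) k →+* Ω)
    (hinj : Function.Injective ι0) (hC : ∀ r, ρ (C r) = ι0 (C r))
    (hE : ∀ m, ρ (rename Sum.inl (g m)) = ρ (rename Sum.inr (g m)))
    (hX : ∀ w, ∃ σ ∈ Ideal.span (Set.range fun m =>
        (rename Sum.inl (g m) - rename Sum.inr (g m) : MvPolynomial (V ⊕ V) k)),
      ι0 (rename (Sum.map φ φ) δ0) * ρ (X w) = ι0 (rename (Sum.map φ φ) δ0 * X w - σ)) :
    GInt k ι (MvPolynomial V k) g := by
  intro K L _ _ _ _ _ _ _ hKL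
  let A := MvPolynomial ι k
  let D := MvPolynomial V k
  let S := MvPolynomial (V ⊕ V) k
  let i1 : D →+* L ⊗[K] L := Algebra.TensorProduct.includeLeftRingHom.comp (algebraMap D L)
  let i2 : D →+* L ⊗[K] L := (Algebra.TensorProduct.includeRight :
    L →ₐ[K] L ⊗[K] L).toRingHom.comp (algebraMap D L)
  have hi1 : ∀ a : A, i1 (aeval g a) = algebraMap K _ (algebraMap A K a) := fun a => by
    show algebraMap D L (aeval g a) ⊗ₜ 1 = _
    rw [← hKL]
    rfl
  have hi2 : ∀ a : A, i2 (aeval g a) = algebraMap K _ (algebraMap A K a) := fun a => by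
    show (Algebra.TensorProduct.includeRight : L →ₐ[K] L ⊗[K] L) (algebraMap D L (aeval g a)) = _
    rw [← hKL, AlgHom.commutes]
  have hgC : ∀ r : k, (C r : D) = aeval g (C r : A) := fun r => by rw [aeval_C]; rfl
  let θ : S →+* L ⊗[K] L := eval₂Hom (i1.comp C) (Sum.elim (fun v => i1 (X v)) fun v => i2 (X v))
  have hθ1 : ∀ d : D, θ (rename Sum.inl d) = i1 d := fun d =>
    RingHom.congr_fun (f := θ.comp (rename Sum.inl : D →ₐ[k] S).toRingHom) (g := i1)
      (ringHom_ext (fun r => by simp [θ, D, S]) fun v => by simp [θ, D, S]) d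
  have hθ2 : ∀ d : D, θ (rename Sum.inr d) = i2 d := fun d =>
    RingHom.congr_fun (f := θ.comp (rename Sum.inr : D →ₐ[k] S).toRingHom) (g := i2)
      (ringHom_ext (fun r => by
        have h1 : i1 (C r) = i2 (C r) := by rw [hgC, hi1, hi2]
        simpa [θ, D, S] using h1) fun v => by simp [θ, D, S]) d
  have hx : AlgebraicIndependent K fun f => algebraMap D L (X (φ f)) := by
    let _ : Algebra A L := ((algebraMap D L).comp (aeval g : A →ₐ[k] D).toRingHom).toAlgebra
    have hAL : ∀ a : A, algebraMap A L a = algebraMap D L (aeval g a) := fun _ => rfl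
    have : IsScalarTower A K L := IsScalarTower.of_algebraMap_eq fun a => (hKL a).symm
    have : Algebra.IsAlgebraic A K := IsLocalization.isAlgebraic K (nonZeroDivisors A)
    refine AlgebraicIndependent.extendScalars (R := A) K ?_
    have h1 : (aeval fun f => algebraMap D L (X (φ f)) : MvPolynomial Φ A →ₐ[A] L).toRingHom.comp
        (sumAlgEquiv k Φ ι).toRingEquiv.toRingHom = (algebraMap D L).comp
        (aeval (Sum.elim (fun f => X (φ f)) g) : MvPolynomial (Φ ⊕ ι) k →ₐ[k] D).toRingHom := by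
      refine ringHom_ext (fun r => ?_) fun w => ?_
      · simp [hAL, A, D]
      · rcases w with f | m
        · simp [A, D]
        · simp [hAL, A, D]
    have h2 : Function.Injective ((aeval fun f => algebraMap D L (X (φ f)) :
        MvPolynomial Φ A →ₐ[A] L).toRingHom.comp (sumAlgEquiv k Φ ι).toRingEquiv.toRingHom) := by
      rw [h1]
      exact (IsFractionRing.injective D L).comp hind
    exact Function.Injective.of_comp_right h2 (sumAlgEquiv k Φ ι).surjective
  have hnzd : ∀ t, θ (rename (Sum.map φ φ) δ0) * t = 0 → t = 0 :=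
    nzd_two k K L Φ ((algebraMap A K).comp C) ((IsFractionRing.injective A K).comp (C_injective ι k))
      _ hx (θ.comp (rename (Sum.map φ φ) : MvPolynomial (Φ ⊕ Φ) k →ₐ[k] S).toRingHom)
      (fun r => by
        have h1 := hi1 (C r)
        rw [← hgC] at h1
        simpa [θ, D, S] using h1)
      (fun f => by simp [θ, i1, D, S]) (fun f => by simp [θ, i2, D, S]) hδ0
  have key : ∀ u : S, ρ u = 0 → θ u = 0 := fun u hu => by
    obtain ⟨N, hN⟩ := retract ι0 ρ hinj _ _ hC hX hu
    have h1 : θ (rename (Sum.map φ φ) δ0 ^ N * u) = 0 := by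
      refine (Ideal.span_le (I := RingHom.ker θ)).2 ?_ hN
      rintro _ ⟨m, rfl⟩
      have h2 : g m = aeval g (X m : A) := (aeval_X g m).symm
      show θ (rename Sum.inl (g m) - rename Sum.inr (g m)) = 0
      rw [map_sub, hθ1, hθ2, h2, hi1, hi2, sub_self]
    rw [map_mul, map_pow] at h1
    clear hN
    induction N with
    | zero => simpa using h1
    | succ N ih => exact ih (hnzd _ (by rw [← mul_assoc, ← pow_succ', h1]))
  have hj1 : Function.Injective i1 := fun a b h => IsFractionRing.injective D L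
    ((Algebra.TensorProduct.includeLeftRingHom : L →+* L ⊗[K] L).injective h)
  have hj2 : Function.Injective i2 := fun a b h => IsFractionRing.injective D L
    ((Algebra.TensorProduct.includeRight : L →ₐ[K] L ⊗[K] L).toRingHom.injective h)
  let r1 : D →+* Ω := ρ.comp (rename Sum.inl : D →ₐ[k] S).toRingHom
  let r2 : D →+* Ω := ρ.comp (rename Sum.inr : D →ₐ[k] S).toRingHom
  have hr1 : Function.Injective r1 := (injective_iff_map_eq_zero _).2 fun d hd =>
    hj1 (by rw [← hθ1, map_zero]; exact key _ hd)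
  have hr2 : Function.Injective r2 := (injective_iff_map_eq_zero _).2 fun d hd =>
    hj2 (by rw [← hθ2, map_zero]; exact key _ hd)
  let χ1 : L →+* Ω := IsFractionRing.lift hr1
  let χ2 : L →+* Ω := IsFractionRing.lift hr2
  have hχ1 : ∀ d, χ1 (algebraMap D L d) = r1 d := IsFractionRing.lift_algebraMap hr1
  have hχ2 : ∀ d, χ2 (algebraMap D L d) = r2 d := IsFractionRing.lift_algebraMap hr2
  have h12 : χ2.comp (algebraMap K L) = χ1.comp (algebraMap K L) := by
    refine IsLocalization.ringHom_ext (nonZeroDivisors A) (ringHom_ext (fun r => ?_) fun m => ?_)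
    · simp only [RingHom.comp_apply]
      rw [hKL, hχ1, hχ2, ← hgC]
      simp [r1, r2, D]
    · simp only [RingHom.comp_apply]
      rw [hKL, hχ1, hχ2, aeval_X]
      exact (hE m).symm
  let _ : Algebra K Ω := (χ1.comp (algebraMap K L)).toAlgebra
  let c1 : L →ₐ[K] Ω := { χ1 with commutes' := fun _ => rfl }
  let c2 : L →ₐ[K] Ω := { χ2 with commutes' := fun a => RingHom.congr_fun h12 a }
  let χ : L ⊗[K] L →ₐ[K] Ω := Algebra.TensorProduct.productMap c1 c2
  have hχ : ∀ a b : L, χ (a ⊗ₜ b) = χ1 a * χ2 b := fun a b =>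
    Algebra.TensorProduct.productMap_apply_tmul c1 c2 a b
  have hχθ : χ.toRingHom.comp θ = ρ := by
    refine ringHom_ext (fun r => ?_) fun w => ?_
    · simp [θ, i1, hχ, hχ1, r1, D, S]
    · rcases w with v | v
      · simp [θ, i1, hχ, hχ1, r1, D, S]
      · simp [θ, i2, hχ, hχ2, r2, D, S]
  have hden : ∀ t : L ⊗[K] L, ∃ s u : S, IsUnit (θ s) ∧ θ s * t = θ u := fun t => by
    induction t using TensorProduct.induction_on with
    | zero => exact ⟨1, 0, by simp, by simp⟩
    | tmul a b =>
      obtain ⟨a1, a2, ha2, rfl⟩ := IsFractionRing.div_surjective (A := D) a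
      obtain ⟨b1, b2, hb2, rfl⟩ := IsFractionRing.div_surjective (A := D) b
      have ha := IsFractionRing.to_map_ne_zero_of_mem_nonZeroDivisors (K := L) ha2
      have hb := IsFractionRing.to_map_ne_zero_of_mem_nonZeroDivisors (K := L) hb2
      refine ⟨rename Sum.inl a2 * rename Sum.inr b2, rename Sum.inl a1 * rename Sum.inr b1, ?_, ?_⟩
      · rw [map_mul, hθ1, hθ2]
        exact ((Ne.isUnit ha).map (Algebra.TensorProduct.includeLeftRingHom : L →+* L ⊗[K] L)).mul
          ((Ne.isUnit hb).map (Algebra.TensorProduct.includeRight : L →ₐ[K] L ⊗[K] L))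
      · rw [map_mul, map_mul, hθ1, hθ2, hθ1, hθ2]
        simp [i1, i2, mul_div_cancel₀ _ ha, mul_div_cancel₀ _ hb]
    | add a b ha hb =>
      obtain ⟨s, u, h1, h2⟩ := ha
      obtain ⟨s', u', h3, h4⟩ := hb
      refine ⟨s * s', s' * u + s * u', by rw [map_mul]; exact h1.mul h3, ?_⟩
      rw [map_add, map_mul, map_mul, map_mul, ← h2, ← h4]
      ring
  have hinjχ : Function.Injective χ.toRingHom := (injective_iff_map_eq_zero _).2 fun t ht => by
    obtain ⟨s, u, h1, h2⟩ := hden t
    have h3 : ρ u = 0 := by rw [← hχθ, RingHom.comp_apply, ← h2, map_mul, ht, mul_zero]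
    rw [key u h3] at h2
    exact h1.mul_right_eq_zero.1 h2
  exact hinjχ.isDomain _

/-- the field over which the given family is a transcendence basis -/
theorem exists_base {ι : Type} (κ : ι → ℂ) (hκ : AlgebraicIndependent ℚ κ) :
    ∃ k : IntermediateField ℚ ℂ, AlgebraicIndependent k κ ∧
      ∀ z : ℂ, ∃ p : Polynomial (MvPolynomial ι k), p ≠ 0 ∧
        p.eval₂ (aeval κ : MvPolynomial ι k →ₐ[k] ℂ) z = 0 := by
  obtain ⟨t, ht, hb⟩ := exists_isTranscendenceBasis_superset (R := ℚ) (s := Set.range κ)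
    hκ.to_subtype_range
  let s : Set t := {i | i.1 ∉ Set.range κ}
  refine ⟨IntermediateField.adjoin ℚ (Subtype.val '' s), ?_, fun z => ?_⟩
  · rw [IntermediateField.algebraicIndependent_adjoin_iff]
    have h1 := ((AlgebraicIndependent.iff_adjoin_image s).1 hb.1).2
    exact h1.comp (fun m => (⟨⟨κ m, ht ⟨m, rfl⟩⟩, fun h => h ⟨m, rfl⟩⟩ : (sᶜ : Set t)))
      fun m m' e => hκ.injective (congrArg (fun x : (sᶜ : Set t) => x.1.1) e)
  · obtain ⟨p, hp0, hp⟩ := hb.isAlgebraic.1 z
    let k := IntermediateField.adjoin ℚ (Subtype.val '' s)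
    let ev : MvPolynomial ι k →+* ℂ := (aeval κ : MvPolynomial ι k →ₐ[k] ℂ)
    have h1 : ∀ y ∈ Algebra.adjoin ℚ (Set.range (Subtype.val : t → ℂ)), y ∈ ev.range := by
      intro y hy
      induction hy using Algebra.adjoin_induction with
      | mem y hy =>
        obtain ⟨i, rfl⟩ := hy
        by_cases h2 : i.1 ∈ Set.range κ
        · obtain ⟨m, hm⟩ := h2
          exact ⟨X m, by simp [ev, hm]⟩
        · exact ⟨C ⟨i.1, IntermediateField.subset_adjoin _ _ ⟨i, h2, rfl⟩⟩, by simp [ev]⟩
      | algebraMap r => exact ⟨C (algebraMap ℚ k r), by simp [ev]⟩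
      | add a b _ _ ha hb => exact add_mem ha hb
      | mul a b _ _ ha hb => exact mul_mem ha hb
    have h2 : p.map (algebraMap _ ℂ) ∈ Polynomial.lifts ev := by
      rw [Polynomial.lifts_iff_coeff_lifts]
      intro n
      rw [Polynomial.coeff_map]
      exact h1 _ (p.coeff n).2
    obtain ⟨q, hq⟩ := (Polynomial.mem_lifts _).1 h2
    refine ⟨q, fun e => hp0 ?_, ?_⟩
    · rw [e, Polynomial.map_zero] at hq
      exact (Polynomial.map_eq_zero_iff Subtype.val_injective).1 hq.symm
    · show q.eval₂ ev z = 0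
      rw [Polynomial.eval₂_eq_eval_map, hq, Polynomial.eval_map_algebraMap, hp]

end Pool.Agent.P.MP_2b2d3b_ag.GIP
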