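import Pool.Agent.P.MP_2b2d3b_ag.GIb2

/-!
The universal Pfaffian presentation: coordinates, the Jacobian point and the two special points.
-/

namespace Pool.Agent.P.MP_2b2d3b_ag.GIP

open MvPolynomial

abbrev IP : Type := Fin 3 × Fin 2 × Mon 1

abbrev IV : Type := IP ⊕ (Fin 3 × Mon 3) ⊕ (Fin 3 × Mon 4) ⊕ (Fin 2 × Mon 2)

variable {B : Type} [CommRing B] {B' : Type} [CommRing B']

/-- the presentation with given coefficients -/
noncomputable def mkPf (x : IV → B) : Pf B where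
  φ i j := form fun m => x (.inl (i, j, m))
  ξ i := form fun m => x (.inr (.inl (i, m)))
  G i := form fun m => x (.inr (.inr (.inl (i, m))))
  H j := form fun m => x (.inr (.inr (.inr (j, m))))

/-- the coefficients of a presentation -/
noncomputable def cf (p : Pf B) : IV → B :=
  Sum.elim (fun t => coeff t.2.2.1 (p.φ t.1 t.2.1)) (Sum.elim (fun t => coeff t.2.1 (p.ξ t.1))
    (Sum.elim (fun t => coeff t.2.1 (p.G t.1)) fun t => coeff t.2.1 (p.H t.1)))

theorem mkPf_hom (x : IV → B) : (mkPf x).Hom :=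
  ⟨fun _ _ => form_hom _, fun _ => form_hom _, fun _ => form_hom _, fun _ => form_hom _⟩

theorem mkPf_map (x : IV → B) (ψ : B →+* B') : (mkPf x).map ψ = mkPf fun v => ψ (x v) := by
  simp only [mkPf, Pf.map, map_form]

theorem mkPf_cf {p : Pf B} (h : p.Hom) : mkPf (cf p) = p := by
  obtain ⟨φ, ξ, G, H⟩ := p
  simp only [mkPf, cf, Sum.elim_inl, Sum.elim_inr, Pf.mk.injEq]
  exact ⟨funext fun i => funext fun j => form_coeff (h.φ i j), funext fun i => form_coeff (h.ξ i),
    funext fun i => form_coeff (h.G i), funext fun i => form_coeff (h.H i)⟩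

theorem q_map (p : Pf B) (ψ : B →+* B') (i : Fin 3) : (p.map ψ).q i = map ψ (p.q i) := by
  fin_cases i <;> simp [Pf.q, Pf.map]

theorem pf_map (p : Pf B) (ψ : B →+* B') : (p.map ψ).pf = map ψ p.pf := by
  simp only [Pf.pf, q_map, map_add, map_sum, map_mul, Pf.u]
  rfl

theorem q_hom {p : Pf B} (h : ∀ i j, (p.φ i j).IsHomogeneous 1) (i : Fin 3) :
    (p.q i).IsHomogeneous 2 := by
  fin_cases i <;> exact ((h _ _).mul (h _ _)).sub ((h _ _).mul (h _ _))

theorem u_hom {p : Pf B} (h : p.Hom) (j : Fin 2) : (p.u j).IsHomogeneous 4 :=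
  IsHomogeneous.sum _ _ _ fun i _ => (h.ξ i).mul (h.φ i j)

theorem pf_hom {p : Pf B} (h : p.Hom) : p.pf.IsHomogeneous 6 :=
  (IsHomogeneous.sum _ _ _ fun i _ => (h.G i).mul (q_hom h.φ i)).add
    (IsHomogeneous.sum _ _ _ fun j _ => (h.H j).mul (u_hom h j))

/-- the coefficients of the universal Pfaffian -/
noncomputable def gU (k : Type) [CommRing k] (m : Mon 6) : MvPolynomial IV k :=
  coeff m.1 (mkPf (X : IV → MvPolynomial IV k)).pf

theorem map_gU {k : Type} [CommRing k] (χ : MvPolynomial IV k →+* B) (m : Mon 6) :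
    χ (gU k m) = coeff m.1 (mkPf fun v => χ (X v)).pf := by
  rw [gU, ← coeff_map, ← pf_map, mkPf_map]

theorem exists_hom_coeffs {τ : Type} [Fintype τ] (f : τ → Pol B) (e : τ → ℕ) {d : ℕ}
    (hf : ∀ t, (f t).IsHomogeneous (e t)) (he : ∀ t, e t ≤ d) {a : Pol B} (ha : a.IsHomogeneous d)
    (h : a ∈ Ideal.span (Set.range f)) :
    ∃ c : τ → Pol B, (∀ t, (c t).IsHomogeneous (d - e t)) ∧ ∑ t, c t * f t = a := by
  obtain ⟨c, hc⟩ := Ideal.mem_span_range_iff_exists_fun.1 h
  refine ⟨fun t => homogeneousComponent (d - e t) (c t),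
    fun t => homogeneousComponent_isHomogeneous _ _, ?_⟩
  rw [← homogeneousComponent_eq_self ha, ← hc, map_sum]
  refine Finset.sum_congr rfl fun t _ => ?_
  rw [← comp_mul (hf t), Nat.sub_add_cancel (he t)]

theorem mono_mem (I : Ideal (Pol B)) (n : Fin 4 →₀ ℕ) (a b c d : ℕ)
    (h : X 0 ^ a * X 1 ^ b * X 2 ^ c * X 3 ^ d ∈ I)
    (hh : a ≤ n 0 ∧ b ≤ n 1 ∧ c ≤ n 2 ∧ d ≤ n 3) : monomial n 1 ∈ I := by
  obtain ⟨h0, h1, h2, h3⟩ := hh
  refine Ideal.mem_of_dvd I ?_ h
  rw [monomial_eq, Finsupp.prod_fintype _ _ (by simp), Fin.prod_univ_four, map_one, one_mul]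
  exact mul_dvd_mul (mul_dvd_mul (mul_dvd_mul (pow_dvd_pow _ h0) (pow_dvd_pow _ h1))
    (pow_dvd_pow _ h2)) (pow_dvd_pow _ h3)

theorem deg_four (n : Mon 6) : n.1 0 + n.1 1 + n.1 2 + n.1 3 = 6 := by
  have h := n.2
  rwa [Finsupp.degree_eq_sum, Fin.sum_univ_four] at h

/-- the point at which the Jacobian criterion is applied -/
noncomputable def p0 (B : Type) [CommRing B] : Pf B where
  φ := ![![X 0, 0], ![X 1, X 2], ![0, X 3]]
  ξ := ![X 0 ^ 3, X 2 ^ 3, 0]
  G := 0
  H := ![X 1 ^ 2, X 3 ^ 2]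

theorem p0_hom : (p0 B).Hom := by
  refine ⟨fun i j => ?_, fun i => ?_, fun i => isHomogeneous_zero _ _ _, fun j => ?_⟩
  · fin_cases i <;> fin_cases j <;>
      first | exact isHomogeneous_X _ _ | exact isHomogeneous_zero _ _ _
  · fin_cases i <;> first | exact isHomogeneous_X_pow _ _ | exact isHomogeneous_zero _ _ _
  · fin_cases j <;> exact isHomogeneous_X_pow _ _

theorem surj_p0 (n : Mon 6) : ∃ p : Pf B, p.Hom ∧ (∀ i j, p.φ i j = 0) ∧
    ∑ i, p.G i * (p0 B).q i + ∑ j, (p.H j * (p0 B).u j +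
      (p0 B).H j * ∑ i, p.ξ i * (p0 B).φ i j) = monomial n.1 1 := by
  let f : Fin 8 → Pol B := ![X 1 * X 3, X 0 * X 3, X 0 * X 2, X 0 ^ 4 + X 2 ^ 3 * X 1, X 2 ^ 4,
    X 1 ^ 2 * X 0, X 1 ^ 3 + X 3 ^ 2 * X 2, X 3 ^ 3]
  let I := Ideal.span (Set.range f)
  have hf : ∀ t, f t ∈ I := fun t => Ideal.subset_span ⟨t, rfl⟩
  have hn := deg_four n
  have hI : monomial n.1 1 ∈ I := by
    have m0 := mono_mem I n.1 0 1 0 1 (by simpa [f] using hf 0)
    have m1 := mono_mem I n.1 1 0 0 1 (by simpa [f] using hf 1)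
    have m2 := mono_mem I n.1 1 0 1 0 (by simpa [f] using hf 2)
    have m3 := mono_mem I n.1 0 0 4 0 (by simpa [f] using hf 4)
    have m4 := mono_mem I n.1 1 2 0 0 (by simpa [f, mul_comm] using hf 5)
    have m5 := mono_mem I n.1 0 0 0 3 (by simpa [f] using hf 7)
    have m6 := mono_mem I n.1 0 4 0 0 (by
      convert I.sub_mem (I.mul_mem_left (X 1) (hf 6)) (I.mul_mem_left (X 3 * X 2) (hf 0)) using 1
      simp [f]
      ring)
    have m7 := mono_mem I n.1 5 0 0 0 (by
      convert I.sub_mem (I.mul_mem_left (X 0) (hf 3)) (I.mul_mem_left (X 2 ^ 2 * X 1) (hf 2))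
        using 1
      simp [f]
      ring)
    have m8 := mono_mem I n.1 0 3 3 0 (by
      convert I.sub_mem (I.mul_mem_left (X 1 ^ 2) (hf 3)) (I.mul_mem_left (X 0 ^ 3) (hf 5)) using 1
      simp [f]
      ring)
    by_contra hc
    simp only [hc, imp_false] at m0 m1 m2 m3 m4 m5 m6 m7 m8
    omega
  have hX : ∀ i, (X i : Pol B).IsHomogeneous 1 := isHomogeneous_X B
  have hP : ∀ i m, (X i ^ m : Pol B).IsHomogeneous m := fun i m => isHomogeneous_X_pow i m
  obtain ⟨c, hc, hs⟩ := exists_hom_coeffs f ![2, 2, 2, 4, 4, 3, 3, 3] (d := 6)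
    (fun t => by
      fin_cases t
      exacts [(hX _).mul (hX _), (hX _).mul (hX _), (hX _).mul (hX _),
        (hP _ _).add ((hP _ _).mul (hX _)), hP _ _, (hP _ _).mul (hX _),
        (hP _ _).add ((hP _ _).mul (hX _)), hP _ _])
    (fun t => by fin_cases t <;> simp) (isHomogeneous_monomial _ n.2) hI
  refine ⟨⟨0, ![c 5, c 6, c 7], ![c 0, -c 1, c 2], ![c 3, c 4]⟩,
    ⟨fun _ _ => isHomogeneous_zero _ _ _, fun i => ?_, fun i => ?_, fun j => ?_⟩,
    fun _ _ => rfl, ?_⟩
  · fin_cases i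
    exacts [hc 5, hc 6, hc 7]
  · fin_cases i
    exacts [hc 0, (hc 1).neg, hc 2]
  · fin_cases j
    exacts [hc 3, hc 4]
  · rw [← hs]
    simp [Fin.sum_univ_succ, f, p0, Pf.q, Pf.u]
    ring

theorem exists_cw {D k : Type} [CommRing D] [CommRing k] (ε : D →+* k) (lam : D →+ k)
    (hl : ∀ a b, lam (a * b) = lam a * ε b + ε a * lam b) :
    ∃ T : Pol D →+ Pol k, (∀ a m, coeff m (T a) = lam (coeff m a)) ∧
      (∀ a b, T (a * b) = T a * map ε b + map ε a * T b) ∧
      ∀ (d : ℕ) (c : Mon d → D), T (form c) = form fun m => lam (c m) := by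
  classical
  let T0 : Pol D → Pol k := fun a => ∑ m ∈ a.support, monomial m (lam (coeff m a))
  have h0 : ∀ a m, coeff m (T0 a) = lam (coeff m a) := fun a m => by
    simp only [T0, coeff_sum, coeff_monomial, Finset.sum_ite_eq']
    split_ifs with h
    · rfl
    · rw [notMem_support_iff.1 h, map_zero]
  refine ⟨AddMonoidHom.mk' T0 fun a b => MvPolynomial.ext _ _ fun m => by simp [h0], h0,
    fun a b => MvPolynomial.ext _ _ fun m => ?_, fun d c => MvPolynomial.ext _ _ fun m => ?_⟩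
  · simp only [AddMonoidHom.mk'_apply, h0, coeff_add, coeff_mul, map_sum, hl, coeff_map,
      Finset.sum_add_distrib]
  · rw [AddMonoidHom.mk'_apply, h0]
    by_cases h : m.degree = d
    · rw [coeff_form c ⟨m, h⟩, coeff_form (fun m => lam (c m)) ⟨m, h⟩]
    · rw [(form_hom _).coeff_eq_zero h, (form_hom _).coeff_eq_zero h, map_zero]

theorem exists_der (k : Type) [CommRing k] (n : Mon 6) :
    ∃ dd : Derivation k (MvPolynomial IV k) (MvPolynomial IV k),
      (∀ f : IP, dd (X (Sum.inl f)) = 0) ∧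
      ∀ m : Mon 6, eval (cf (p0 k)) (dd (gU k m)) = coeff m.1 (monomial n.1 1 : Pol k) := by
  obtain ⟨p, hp, hφ, hs⟩ := surj_p0 (B := k) n
  let dd := mkDerivation k fun v => (C (cf p v) : MvPolynomial IV k)
  have hd : ∀ v, dd (X v) = C (cf p v) := mkDerivation_X k _
  refine ⟨dd, fun f => by simp [hd, cf, hφ], fun m => ?_⟩
  obtain ⟨T, h1, h2, h3⟩ := exists_cw (eval (cf (p0 k)))
    ((eval (cf (p0 k))).toAddMonoidHom.comp dd.toLinearMap.toAddMonoidHom) fun a b => by
      simp [Derivation.leibniz]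
      ring
  let u : Pf (MvPolynomial IV k) := mkPf X
  have hu : u.map (eval (cf (p0 k))) = p0 k := by
    rw [mkPf_map]
    simp only [eval_X]
    exact mkPf_cf p0_hom
  have e1 : ∀ i j, map (eval (cf (p0 k))) (u.φ i j) = (p0 k).φ i j := fun i j =>
    congrArg (fun p : Pf k => p.φ i j) hu
  have e2 : ∀ j, map (eval (cf (p0 k))) (u.H j) = (p0 k).H j := fun j =>
    congrArg (fun p : Pf k => p.H j) hu
  have e3 : ∀ i, map (eval (cf (p0 k))) (u.q i) = (p0 k).q i := fun i => by rw [← q_map, hu]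
  have e4 : ∀ j, map (eval (cf (p0 k))) (u.u j) = (p0 k).u j := fun j => by
    refine Eq.trans ?_ (congrArg (fun p : Pf k => p.u j) hu)
    simp only [Pf.u, Pf.map, map_sum, map_mul]
  have t1 : ∀ i j, T (u.φ i j) = 0 := fun i j => by
    rw [← hφ i j, ← form_coeff (hp.φ i j)]
    exact (h3 _ _).trans (by simp [hd, cf])
  have t2 : ∀ i, T (u.ξ i) = p.ξ i := fun i => by
    rw [← form_coeff (hp.ξ i)]
    exact (h3 _ _).trans (by simp [hd, cf])
  have t3 : ∀ i, T (u.G i) = p.G i := fun i => by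
    rw [← form_coeff (hp.G i)]
    exact (h3 _ _).trans (by simp [hd, cf])
  have t4 : ∀ i, T (u.H i) = p.H i := fun i => by
    rw [← form_coeff (hp.H i)]
    exact (h3 _ _).trans (by simp [hd, cf])
  have t5 : ∀ i, T (u.q i) = 0 := fun i => by
    fin_cases i <;> simp [Pf.q, h2, t1]
  have t6 : ∀ j, T (u.u j) = ∑ i, p.ξ i * (p0 k).φ i j := fun j => by
    simp only [Pf.u, map_sum, h2, t1, t2, e1, mul_zero, add_zero]
  have t7 : T u.pf = monomial n.1 1 := by
    rw [← hs]
    simp only [Pf.pf, map_add, map_sum, h2, t3, t4, t5, t6, e2, e3, e4, mul_zero, add_zero]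
  rw [← t7, h1]
  rfl

theorem der_sum_apply {k D ι : Type} [CommRing k] [CommRing D] [Algebra k D] (s : Finset ι)
    (dd : ι → Derivation k D D) (z : D) : (∑ i ∈ s, dd i) z = ∑ i ∈ s, dd i z := by
  induction s using Finset.cons_induction with
  | empty => simp
  | cons a s ha ih => simp only [Finset.sum_cons, Derivation.add_apply, ih]

theorem indep_gU (k : Type) [Field k] [CharZero k] : AlgebraicIndependent k
    (Sum.elim (fun f : IP => (X (Sum.inl f) : MvPolynomial IV k)) (gU k)) := by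
  classical
  choose dd h1 h2 using exists_der k
  have h3 : ∀ n m : Mon 6, eval (cf (p0 k)) (dd n (gU k m)) = if n = m then 1 else 0 := fun n m => by
    rw [h2, coeff_monomial]
    exact if_congr Subtype.val_inj rfl rfl
  refine jac _ (eval (cf (p0 k))) (Sum.elim (fun f => pderiv (Sum.inl f) -
    ∑ n, eval (cf (p0 k)) (pderiv (Sum.inl f) (gU k n)) • dd n) dd) ?_
  rintro (f | n) (f' | m)
  · simp [der_sum_apply, h1, pderiv_X, Pi.single_apply, eq_comm]
  · simp [der_sum_apply, h3, smul_eq_C_mul]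
  · simp [h1]
  · simp [h3]

theorem exists_section {S k : Type} [CommRing S] [CommRing k] (ε : S →+* k)
    (N : Submodule S (Pol S)) (y : Mon 6 → Pol S) (hN : ∀ n, y n ∈ N)
    (hy : ∀ n, (y n).IsHomogeneous 6) (hε : ∀ n, map ε (y n) = monomial n.1 1) :
    ∃ δ : S, ε δ = 1 ∧ ∀ n : Mon 6, δ • (monomial n.1 1 : Pol S) ∈ N := by
  classical
  let M : Matrix (Mon 6) (Mon 6) S := Matrix.of fun n m => coeff m.1 (y n)
  refine ⟨M.det, ?_, fun n => ?_⟩
  · have h1 : ε.mapMatrix M = 1 := by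
      ext n m
      simp only [RingHom.mapMatrix_apply, Matrix.map_apply, M, Matrix.of_apply, ← coeff_map, hε,
        coeff_monomial, Matrix.one_apply, Subtype.val_inj]
    rw [ε.map_det, h1, Matrix.det_one]
  · have h1 : M.det • (monomial n.1 1 : Pol S) = ∑ l, M.adjugate n l • y l := by
      ext m
      by_cases h : m.degree = 6
      · have h2 := congrFun (congrFun (Matrix.adjugate_mul M) n) ⟨m, h⟩
        rw [Matrix.mul_apply, Matrix.smul_apply, Matrix.one_apply] at h2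
        rw [coeff_smul, coeff_monomial, coeff_sum]
        simp only [coeff_smul, smul_eq_mul] at h2 ⊢
        refine Eq.trans ?_ h2.symm
        simp only [Subtype.ext_iff]
      · rw [coeff_smul, (isHomogeneous_monomial _ n.2).coeff_eq_zero h, smul_zero, coeff_sum]
        exact (Finset.sum_eq_zero fun l _ => by
          rw [coeff_smul, (hy l).coeff_eq_zero h, smul_zero]).symm
    rw [h1]
    exact N.sum_mem fun l _ => N.smul_mem _ (hN l)

/-- the matrix whose minors are the square of the ideal of a line -/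
noncomputable def pL (B : Type) [CommRing B] (i j : Fin 4) : Pf B where
  φ := ![![X i, 0], ![X j, X i], ![0, X j]]
  ξ := 0
  G := 0
  H := 0

theorem pL_hom (i j : Fin 4) : (pL B i j).Hom := by
  refine ⟨fun i j => ?_, fun _ => isHomogeneous_zero _ _ _, fun _ => isHomogeneous_zero _ _ _,
    fun _ => isHomogeneous_zero _ _ _⟩
  fin_cases i <;> fin_cases j <;>
    first | exact isHomogeneous_X _ _ | exact isHomogeneous_zero _ _ _

theorem surj_pL (n : Mon 6) : ∃ a a' : Fin 3 → Pol B,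
    (∀ i, (a i).IsHomogeneous 4 ∧ (a' i).IsHomogeneous 4) ∧
    ∑ i, a i * (pL B 0 1).q i - ∑ i, a' i * (pL B 2 3).q i = monomial n.1 1 := by
  let f : Fin 6 → Pol B := ![X 1 * X 1, X 0 * X 1, X 0 * X 0, X 3 * X 3, X 2 * X 3, X 2 * X 2]
  let I := Ideal.span (Set.range f)
  have hf : ∀ t, f t ∈ I := fun t => Ideal.subset_span ⟨t, rfl⟩
  have hn := deg_four n
  have hI : monomial n.1 1 ∈ I := by
    have m0 := mono_mem I n.1 0 2 0 0 (by simpa [f, pow_two] using hf 0)
    have m1 := mono_mem I n.1 1 1 0 0 (by simpa [f] using hf 1)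
    have m2 := mono_mem I n.1 2 0 0 0 (by simpa [f, pow_two] using hf 2)
    have m3 := mono_mem I n.1 0 0 0 2 (by simpa [f, pow_two] using hf 3)
    have m4 := mono_mem I n.1 0 0 1 1 (by simpa [f] using hf 4)
    have m5 := mono_mem I n.1 0 0 2 0 (by simpa [f, pow_two] using hf 5)
    by_contra hc
    simp only [hc, imp_false] at m0 m1 m2 m3 m4 m5
    omega
  have hX : ∀ i, (X i : Pol B).IsHomogeneous 1 := isHomogeneous_X B
  obtain ⟨c, hc, hs⟩ := exists_hom_coeffs f (fun _ => 2) (d := 6)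
    (fun t => by fin_cases t <;> exact (hX _).mul (hX _))
    (fun t => by norm_num) (isHomogeneous_monomial _ n.2) hI
  refine ⟨![c 0, -c 1, c 2], ![-c 3, c 4, -c 5], fun i => ?_, ?_⟩
  · fin_cases i
    exacts [⟨hc 0, (hc 3).neg⟩, ⟨(hc 1).neg, hc 4⟩, ⟨hc 2, (hc 5).neg⟩]
  · rw [← hs]
    simp [Fin.sum_univ_succ, f, pL, Pf.q]
    ring

end Pool.Agent.P.MP_2b2d3b_ag.GIP
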