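import Pool.Agent.P.MP_2b2d3b_ag.Cub

/-!
Points of the parameter space given by eleven distinct points of the plane section.
-/

namespace Pool.Agent.P.MP_2b2d3b_ag

open Polynomial

variable {B : Type} [CommRing B] {B' : Type} [CommRing B']

/-- a frame, eleven points, a scalar and inverses -/
structure RD (B : Type) where
  g : Matrix (Fin 4) (Fin 4) B
  g' : Matrix (Fin 4) (Fin 4) B
  tau : B
  xs : Fin 11 → B
  ys : Fin 11 → B
  c : B
  b : Fin 11 → B

/-- enumeration of the cubics -/
noncomputable def idx : Fin 10 ≃ Idx := (Fintype.equivFinOfCardEq card_Idx).symm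

/-- values of the cubics at the points -/
noncomputable def cubMat (f : B[X][X]) (xs ys : Fin 11 → B) : Matrix (Fin 11) (Fin 10) B :=
  fun i r => (cub f (idx r)).evalEval (xs i) (ys i)

/-- signed maximal minors -/
noncomputable def minor (M : Matrix (Fin 11) (Fin 10) B) (i : Fin 11) : B :=
  (-1) ^ (i : ℕ) * (M.submatrix i.succAbove id).det

theorem sum_minor (M : Matrix (Fin 11) (Fin 10) B) (r : Fin 10) :
    ∑ i, minor M i * M i r = 0 := by
  let N : Matrix (Fin 11) (Fin 11) B := fun i => Fin.cons (M i r) (M i)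
  have h0 : N.det = 0 := Matrix.det_zero_of_column_eq (i := 0) (j := r.succ)
    (Fin.succ_ne_zero r).symm fun i => by simp [N]
  rw [Matrix.det_succ_column_zero] at h0
  rw [← h0]
  refine Finset.sum_congr rfl fun i _ => ?_
  have : N.submatrix i.succAbove Fin.succ = M.submatrix i.succAbove id := by
    ext a b; simp [N]
  rw [this, minor]
  simp only [N, Fin.cons_zero]
  ring

theorem map_minor (φ : B →+* B') (M : Matrix (Fin 11) (Fin 10) B) (i : Fin 11) :
    minor (M.map φ) i = φ (minor M i) := by
  rw [minor, minor, map_mul, RingHom.map_det]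
  simp
  rfl

theorem map_cubMat (φ : B →+* B') (f : B[X][X]) (xs ys : Fin 11 → B) :
    cubMat (f.map (mapRingHom φ)) (fun i => φ (xs i)) (fun i => φ (ys i)) =
      (cubMat f xs ys).map φ := by
  ext i r
  simp [cubMat, map_cub, map_mapRingHom_evalEval]

/-- `∏_{j ≠ i} (x - x_j)` -/
noncomputable def nod (xs : Fin 11 → B) (i : Fin 11) : B[X] :=
  ∏ j ∈ Finset.univ.erase i, (X - C (xs j))

theorem map_nod (φ : B →+* B') (xs : Fin 11 → B) (i : Fin 11) :
    nod (fun i => φ (xs i)) i = (nod xs i).map φ := by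
  simp [nod, Polynomial.map_prod]

theorem eval_nod_ne (xs : Fin 11 → B) {i j : Fin 11} (h : j ≠ i) : (nod xs i).eval (xs j) = 0 := by
  rw [nod, eval_prod]
  exact Finset.prod_eq_zero (i := j) (by simp [h]) (by simp)

/-- interpolation -/
noncomputable def interp (xs a : Fin 11 → B) : B[X] := ∑ i, C (a i) * nod xs i

theorem eval_interp (xs a : Fin 11 → B) (i : Fin 11) :
    (interp xs a).eval (xs i) = a i * (nod xs i).eval (xs i) := by
  rw [interp, eval_finsetSum, Finset.sum_eq_single i]
  · simp
  · intro j _ hj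
    simp [eval_nod_ne xs hj.symm]
  · simp

theorem degree_interp (xs a : Fin 11 → B) : (interp xs a).degree < 11 := by
  refine lt_of_le_of_lt (degree_le_of_natDegree_le (n := 10) ?_) (by norm_num)
  refine natDegree_sum_le_of_forall_le _ _ fun i _ => (natDegree_C_mul_le _ _).trans ?_
  refine (natDegree_prod_le _ _).trans ?_
  refine (Finset.sum_le_card_nsmul _ _ 1 fun j _ => natDegree_X_sub_C_le _).trans ?_
  simp

theorem map_interp (φ : B →+* B') (xs a : Fin 11 → B) :
    interp (fun i => φ (xs i)) (fun i => φ (a i)) = (interp xs a).map φ := by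
  simp [interp, Polynomial.map_sum, map_nod]

theorem chi_eq {p : B[X]} (hp : p.Monic) (hd : p.natDegree = 11) :
    X ^ 11 + pol (fun i => p.coeff i) = p := by
  ext n
  rw [coeff_add, coeff_X_pow]
  rcases lt_trichotomy n 11 with h | h | h
  · rw [if_neg h.ne, zero_add]
    exact coeff_pol (fun i : Fin 11 => p.coeff i) ⟨n, h⟩
  · rw [if_pos h, coeff_pol_ge _ h.ge, h, ← hd, hp.coeff_natDegree, add_zero]
  · rw [if_neg h.ne', coeff_pol_ge _ h.le, coeff_eq_zero_of_natDegree_lt (hd ▸ h), add_zero]

namespace RD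

/-- image of the data -/
def map (φ : B →+* B') (r : RD B) : RD B' where
  g := r.g.map φ
  g' := r.g'.map φ
  tau := φ r.tau
  xs i := φ (r.xs i)
  ys i := φ (r.ys i)
  c := φ r.c
  b i := φ (r.b i)

/-- the plane section -/
noncomputable def f (F : Pol B) (r : RD B) : B[X][X] := C (C r.tau) * rho r.g F

/-- the minors -/
noncomputable def m (F : Pol B) (r : RD B) (i : Fin 11) : B := minor (cubMat (r.f F) r.xs r.ys) i

/-- the weights -/
noncomputable def w (r : RD B) (i : Fin 11) : B := (nod r.xs i).eval (r.xs i)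

/-- the associated point of the parameter space -/
noncomputable def pt (F : Pol B) (r : RD B) : Pt B where
  g := r.g
  g' := r.g'
  tau := r.tau
  cc i := (∏ j, (X - C (r.xs j))).coeff i
  ce i := (interp r.xs fun j => r.ys j * (r.b j * r.c * r.m F j * r.w j)).coeff i
  cp i := (interp r.xs fun j => r.c * r.m F j).coeff i
  cq i := (interp r.xs r.b).coeff i

/-- the relations between the data -/
structure Valid (F : Pol B) (r : RD B) : Prop where
  e1 : r.g * r.g' = 1
  e2 : r.tau * MvPolynomial.eval (fun i => r.g i 2) F = 1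
  e3 : ∀ i, (r.f F).evalEval (r.xs i) (r.ys i) = 0
  e4 : ∀ i, r.b i * r.c * r.m F i * r.w i * r.w i = 1

variable (φ : B →+* B') (F : Pol B) (r : RD B)

theorem map_f : (r.map φ).f (MvPolynomial.map φ F) = (r.f F).map (mapRingHom φ) := by
  simp [f, map, rho_map]

theorem map_m (i : Fin 11) : (r.map φ).m (MvPolynomial.map φ F) i = φ (r.m F i) := by
  rw [m, m, map_f, ← map_minor, ← map_cubMat]; rfl

theorem map_w (i : Fin 11) : (r.map φ).w i = φ (r.w i) := by
  rw [w, w]
  change (nod (fun i => φ (r.xs i)) i).eval (φ (r.xs i)) = _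
  rw [map_nod, eval_map, eval₂_hom]

theorem map_pt : (r.map φ).pt (MvPolynomial.map φ F) = (r.pt F).map φ := by
  refine Pt.ext rfl rfl rfl ?_ ?_ ?_ ?_
  · funext i
    simp [pt, Pt.map, map, ← coeff_map, Polynomial.map_prod]
  · funext i
    simp only [pt, Pt.map, map_m, map_w]
    rw [← coeff_map, ← map_interp]
    simp [map]
  · funext i
    simp only [pt, Pt.map, map_m]
    rw [← coeff_map, ← map_interp]
    simp [map]
  · funext i
    simp only [pt, Pt.map]
    rw [← coeff_map, ← map_interp]
    simp [map]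

variable {F r}

theorem Valid.map (h : r.Valid F) : (r.map φ).Valid (MvPolynomial.map φ F) where
  e1 := by
    change r.g.map φ * r.g'.map φ = 1
    rw [← Matrix.map_mul, h.e1, Matrix.map_one _ (map_zero φ) (map_one φ)]
  e2 := by
    have := congrArg φ h.e2
    rw [map_mul, map_one, MvPolynomial.eval, MvPolynomial.coe_eval₂Hom,
      MvPolynomial.eval₂_comp_left] at this
    rw [MvPolynomial.eval_map]
    exact this
  e3 i := by
    rw [map_f]
    change evalEval (φ _) (φ _) _ = _
    rw [map_mapRingHom_evalEval, h.e3, map_zero]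
  e4 i := by
    rw [map_m, map_w]
    have := congrArg φ (h.e4 i)
    simp only [map_mul, map_one] at this
    exact this

theorem chi_pt [Nontrivial B] : (r.pt F).chi = ∏ j, (X - C (r.xs j)) := by
  have h1 : (∏ j, (X - C (r.xs j))).Monic := monic_prod_of_monic _ _ fun _ _ => monic_X_sub_C _
  have h2 : (∏ j, (X - C (r.xs j))).natDegree = 11 := by
    rw [natDegree_finsetProd_X_sub_C_eq_card, Finset.card_univ, Fintype.card_fin]
  exact chi_eq h1 h2

end RD

section Field

variable {K : Type} [Field K]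

theorem pr_eq_sum {v : Pt K} {xs : Fin 11 → K} (hx : Function.Injective xs)
    (hc : v.chi = ∏ j, (X - C (xs j))) (e h : K[X]) :
    v.pr e h = ∑ i, e.eval (xs i) / (nod xs i).eval (xs i) * h.eval (xs i) := by
  classical
  have := Lagrange.coeff_eq_sum (s := Finset.univ) (v := xs) hx.injOn
    (P := (e * h) %ₘ v.chi) (by simpa using v.degree_mod _)
  rw [Pt.pr]
  simp only [Finset.card_univ, Fintype.card_fin] at this
  rw [this]
  refine Finset.sum_congr rfl fun i _ => ?_
  have h0 : v.chi.eval (xs i) = 0 := by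
    rw [hc, eval_prod]
    exact Finset.prod_eq_zero (Finset.mem_univ i) (by simp)
  rw [modByMonic_eq_sub_mul_div, eval_sub, eval_mul, eval_mul, h0, nod, eval_prod]
  simp only [eval_sub, eval_X, eval_C]
  ring

theorem prod_dvd_iff {xs : Fin 11 → K} (hx : Function.Injective xs) (p : K[X]) :
    ∏ j, (X - C (xs j)) ∣ p ↔ ∀ i, p.eval (xs i) = 0 := by
  constructor
  · intro h i
    have h1 : X - C (xs i) ∣ p :=
      (Finset.dvd_prod_of_mem (fun j => X - C (xs j)) (Finset.mem_univ i)).trans h
    exact dvd_iff_isRoot.mp h1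
  · intro h
    have h1 : ∀ i, X - C (xs i) ∣ p := fun i => dvd_iff_isRoot.mpr (h i)
    exact Finset.prod_dvd_of_coprime (s := fun j => X - C (xs j))
      (fun i _ j _ hij => pairwise_coprime_X_sub_C hx hij) fun i _ => h1 i

theorem eval_eval' {R : Type} [CommRing R] (p : R[X][X]) (q : R[X]) (a : R) :
    (p.eval q).eval a = p.evalEval a (q.eval a) := by
  induction p using Polynomial.induction_on' with
  | add p p' ih ih' => simp [evalEval_add, ih, ih']
  | monomial n c => simp [evalEval, eval_monomial]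

theorem eval_cub {F : Pol K} {v : Pt K} (hF : F.IsHomogeneous 6)
    (e2 : v.tau * MvPolynomial.eval (fun i => v.g i 2) F = 1) (p : Idx) (a : K) :
    (X ^ (10 - (p.1.2 : ℕ)) * (v.beta F).coeff p.1.1).eval a =
      (cub (v.f F) p).evalEval a (v.eta.eval a) := by
  rw [← eval_eval', cub, eval_mul (p := C _), eval_C, Pt.eval_tail hF e2]

theorem RD.Valid.eqs_field {F : Pol K} {r : RD K} (h : r.Valid F) (hF : F.IsHomogeneous 6) :
    (r.pt F).Eqs F := by
  have hw : ∀ i, r.w i ≠ 0 := fun i h0 => by simpa [h0] using h.e4 i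
  have hx : Function.Injective r.xs := fun i j hij => by
    by_contra hne
    apply hw j
    rw [RD.w, ← hij]
    exact eval_nod_ne _ hne
  have he : ∀ i, (r.pt F).eta.eval (r.xs i) = r.ys i := fun i => by
    rw [Pt.eta, RD.pt, pol_coeff (degree_interp _ _), eval_interp, ← RD.w]
    linear_combination r.ys i * h.e4 i
  have hp : ∀ i, (r.pt F).eps.eval (r.xs i) = r.c * r.m F i * r.w i := fun i => by
    rw [Pt.eps, RD.pt, pol_coeff (degree_interp _ _), eval_interp]; rfl
  have hq : ∀ i, (r.pt F).eps'.eval (r.xs i) = r.b i * r.w i := fun i => by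
    rw [Pt.eps', RD.pt, pol_coeff (degree_interp _ _), eval_interp]; rfl
  refine ⟨h.e1, h.e2, ?_, ?_, ?_⟩
  · rw [RD.chi_pt, prod_dvd_iff hx]
    intro i
    rw [eval_eval', he]
    exact h.e3 i
  · rw [RD.chi_pt, prod_dvd_iff hx]
    intro i
    rw [eval_sub, eval_mul, hp, hq, eval_one]
    linear_combination h.e4 i
  · refine ((r.pt F).cond_iff _ fun j => ((r.pt F).beta F).coeff j).mpr fun p => ?_
    rw [pr_eq_sum hx RD.chi_pt]
    have := sum_minor (cubMat (r.f F) r.xs r.ys) (idx.symm p)
    rw [← mul_zero r.c, ← this, Finset.mul_sum]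
    refine Finset.sum_congr rfl fun i _ => ?_
    rw [eval_cub hF h.e2, he, hp, ← RD.w, mul_div_cancel_right₀ _ (hw i), mul_assoc]
    simp only [cubMat, Equiv.apply_symm_apply]
    rfl

theorem Pt.Eqs.exists_RD [IsAlgClosed K] {F : Pol K} {v : Pt K} (h : v.Eqs F)
    (hF : F.IsHomogeneous 6) (hn : v.chi.roots.Nodup) (hW : v.Wsp F = ⊥) :
    ∃ r : RD K, r.Valid F ∧ r.pt F = v := by
  classical
  have hcard : v.chi.roots.toFinset.card = 11 := by
    rw [Multiset.toFinset_card_of_nodup hn, ← (IsAlgClosed.splits v.chi).natDegree_eq_card_roots,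
      v.natDegree_chi]
  let en := (Finset.equivFinOfCardEq hcard).symm
  let xs : Fin 11 → K := fun i => en i
  have hx : Function.Injective xs := Subtype.val_injective.comp en.injective
  have hc : v.chi = ∏ j, (X - C (xs j)) := by
    rw [(IsAlgClosed.splits v.chi).eq_prod_roots_of_monic v.chi_monic,
      en.prod_comp fun a => X - C (a : K), Finset.prod_coe_sort _ fun a => X - C a,
      Finset.prod_eq_multiset_prod, Multiset.toFinset_val, hn.dedup]
  let ys : Fin 11 → K := fun i => v.eta.eval (xs i)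
  let M := cubMat (v.f F) xs ys
  have hw : ∀ i, (nod xs i).eval (xs i) ≠ 0 := fun i => by
    rw [nod, eval_prod, Finset.prod_ne_zero_iff]
    intro j hj
    simpa [sub_eq_zero] using fun h' => (Finset.ne_of_mem_erase hj) (hx h').symm
  have hu : ∀ i, v.eps.eval (xs i) * v.eps'.eval (xs i) = 1 := fun i => by
    have := (prod_dvd_iff hx _).mp (hc ▸ h.e4) i
    rwa [eval_sub, eval_mul, eval_one, sub_eq_zero] at this
  let e : Fin 11 → K := fun i => v.eps.eval (xs i) / (nod xs i).eval (xs i)
  have he0 : ∀ i, e i ≠ 0 := fun i => div_ne_zero (left_ne_zero_of_mul_eq_one (hu i)) (hw i)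
  have hsum : ∀ r, ∑ i, e i * M i r = 0 := fun r => by
    have := (v.cond_iff _ fun j => (v.beta F).coeff j).mp h.e5 (idx r)
    rw [pr_eq_sum hx hc] at this
    simp only [eval_cub hF h.e2] at this
    exact this
  have hdet : ∀ i : Fin 11, (M.submatrix i.succAbove id).det ≠ 0 := fun i h0 => by
    obtain ⟨c, hc0, hc1⟩ := Matrix.exists_mulVec_eq_zero_iff.mpr h0
    have h1 : ∀ j, M.mulVec c (i.succAbove j) = 0 := fun j => congrFun hc1 j
    have h2 : ∑ j, e j * M.mulVec c j = 0 := by
      simp only [Matrix.mulVec, dotProduct, Finset.mul_sum, ← mul_assoc]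
      rw [Finset.sum_comm]
      simp [← Finset.sum_mul, hsum]
    rw [Fin.sum_univ_succAbove _ i] at h2
    simp only [h1, mul_zero, Finset.sum_const_zero, add_zero] at h2
    have h3 : ∀ j, M.mulVec c j = 0 := fun j =>
      Fin.succAboveCases i ((mul_eq_zero.mp h2).resolve_left (he0 i)) h1 j
    have h4 : c ∘ idx.symm ∈ v.Wsp F := by
      change v.chi ∣ _
      rw [hc, prod_dvd_iff hx]
      intro j
      rw [eval_eval', cubic, evalEval_finsetSum, ← h3 j, ← idx.sum_comp]
      simp [evalEval_mul, evalEval_C, Matrix.mulVec, dotProduct, M, cubMat, ys, mul_comm]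
    rw [hW, Submodule.mem_bot] at h4
    exact hc0 (funext fun j => by simpa using congrFun h4 (idx j))
  have hm : ∀ i, minor M i ≠ 0 := fun i => mul_ne_zero (by simp) (hdet i)
  let c := e 0 / minor M 0
  have hce : ∀ i, e i = c * minor M i := by
    have h0 : e 0 = c * minor M 0 := (div_mul_cancel₀ _ (hm 0)).symm
    have h1 : (fun j : Fin 10 => e j.succ - c * minor M j.succ) = 0 := by
      by_contra hne
      refine hdet 0 (Matrix.exists_vecMul_eq_zero_iff.mp ⟨_, hne, ?_⟩)
      funext r
      have a1 := hsum r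
      have a2 := sum_minor M r
      rw [Fin.sum_univ_succ] at a1 a2
      simp only [Matrix.vecMul, dotProduct, Matrix.submatrix_apply, Fin.succAbove_zero, id,
        sub_mul, Finset.sum_sub_distrib, mul_assoc, ← Finset.mul_sum, Pi.zero_apply]
      linear_combination a1 - c * a2 - M 0 r * h0
    intro i
    refine Fin.cases h0 (fun j => ?_) i
    exact sub_eq_zero.mp (congrFun h1 j)
  have hp : ∀ i, v.eps.eval (xs i) = c * minor M i * (nod xs i).eval (xs i) := fun i => by
    rw [← hce, div_mul_cancel₀ _ (hw i)]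
  let r : RD K := ⟨v.g, v.g', v.tau, xs, ys, c,
    fun i => v.eps'.eval (xs i) / (nod xs i).eval (xs i)⟩
  have h4 : ∀ i, r.b i * r.c * r.m F i * r.w i * r.w i = 1 := fun i => by
    change v.eps'.eval (xs i) / (nod xs i).eval (xs i) * c * minor M i * (nod xs i).eval (xs i) *
      (nod xs i).eval (xs i) = 1
    rw [← hu i, hp]
    field_simp [hw i]
  have key : ∀ (a c' : Fin 11 → K), (∀ i, a i * (nod xs i).eval (xs i) = (pol c').eval (xs i)) →
      (fun i : Fin 11 => (interp xs a).coeff i) = c' := fun a c' ha => by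
    have : interp xs a = pol c' :=
      eq_of_degrees_lt_of_eval_index_eq Finset.univ hx.injOn (by simpa using degree_interp _ _)
        (by simpa using degree_pol _) fun i _ => by rw [eval_interp, ha]
    funext i
    rw [this, coeff_pol]
  refine ⟨r, ⟨h.e1, h.e2, fun i => ?_, h4⟩, Pt.ext rfl rfl rfl ?_ ?_ ?_ ?_⟩
  · have := (prod_dvd_iff hx _).mp (hc ▸ h.e3) i
    rwa [eval_eval'] at this
  · funext i
    change (∏ j, (X - C (xs j))).coeff i = _
    rw [← hc, Pt.chi, coeff_add, coeff_pol, coeff_X_pow, if_neg i.2.ne, zero_add]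
  · refine key _ _ fun i => ?_
    change ys i * (r.b i * r.c * r.m F i * r.w i) * r.w i = ys i
    rw [mul_assoc, h4, mul_one]
  · exact key _ _ fun i => (hp i).symm
  · exact key _ _ fun i => div_mul_cancel₀ _ (hw i)

end Field

theorem RD.Valid.eqs [IsDomain B] {F : Pol B} {r : RD B} (h : r.Valid F)
    (hF : F.IsHomogeneous 6) : (r.pt F).Eqs F := by
  refine Pt.Eqs.of_map (algebraMap B (FractionRing B)) (IsFractionRing.injective _ _) ?_
  rw [← RD.map_pt]
  exact (h.map _).eqs_field (hF.map _)

end Pool.Agent.P.MP_2b2d3b_ag
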