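import Pool.Agent.P.MP_2b2d3b_ag.Irr
import Pool.Agent.P.MP_2b2d3b_ag.Red

/-!
The generic configuration of eleven points on a plane section.
-/

namespace Pool.Agent.P.MP_2b2d3b_ag

open Polynomial

theorem exists_loc (W : Type) [CommRing W] [IsDomain W] [Algebra ℂ W] (h : W) (h0 : h ≠ 0) :
    ∃ (W' : Type) (_ : CommRing W') (_ : IsDomain W') (_ : Algebra ℂ W') (ι : W →ₐ[ℂ] W'),
      Function.Injective ι ∧ IsUnit (ι h) ∧
      ∀ (K : Type) [Field K] [Algebra ℂ K] (φ : W →ₐ[ℂ] K), φ h ≠ 0 →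
        ∃ φ' : W' →ₐ[ℂ] K, ∀ a, φ' (ι a) = φ a := by
  have hle : Submonoid.powers h ≤ nonZeroDivisors W := powers_le_nonZeroDivisors_of_noZeroDivisors h0
  refine ⟨Localization.Away h, inferInstance, IsLocalization.isDomain_localization hle,
    inferInstance, IsScalarTower.toAlgHom ℂ W _, IsLocalization.injective _ hle,
    IsLocalization.Away.algebraMap_isUnit h, fun K _ _ φ hφ => ?_⟩
  have hu : ∀ y : Submonoid.powers h, IsUnit (φ y) := by
    rintro ⟨_, n, rfl⟩
    simpa using (IsUnit.mk0 _ hφ).pow n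
  exact ⟨IsLocalization.liftAlgHom (M := Submonoid.powers h) (f := φ) hu, fun a => by simp⟩

/-- a frame, a scalar and a sequence of points -/
structure SD (W : Type) where
  g : Matrix (Fin 4) (Fin 4) W
  g' : Matrix (Fin 4) (Fin 4) W
  tau : W
  c : W
  xs : ℕ → W
  ys : ℕ → W

namespace SD

variable {W : Type} [CommRing W] [Algebra ℂ W]

/-- the plane section -/
noncomputable def f (F : Pol ℂ) (s : SD W) : W[X][X] :=
  C (C s.tau) * rho s.g (MvPolynomial.map (algebraMap ℂ W) F)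

/-- the relations -/
structure Ok (F : Pol ℂ) (n : ℕ) (s : SD W) : Prop where
  e1 : s.g * s.g' = 1
  e2 : s.tau * MvPolynomial.eval (fun i => s.g i 2) (MvPolynomial.map (algebraMap ℂ W) F) = 1
  e3 : ∀ i < n, (s.f F).evalEval (s.xs i) (s.ys i) = 0

/-- specialisation -/
structure Sp {K : Type} [CommRing K] [Algebra ℂ K] (n : ℕ) (φ : W →ₐ[ℂ] K) (s : SD W)
    (s' : SD K) : Prop where
  g : s'.g = s.g.map (φ : W →+* K)
  g' : s'.g' = s.g'.map (φ : W →+* K)
  tau : s'.tau = φ s.tau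
  c : s'.c = φ s.c
  xs : ∀ i < n, s'.xs i = φ (s.xs i)
  ys : ∀ i < n, s'.ys i = φ (s.ys i)

/-- genericity -/
structure Gen (F : Pol ℂ) (n : ℕ) (s : SD W) : Prop where
  ok : s.Ok F n
  ind : AlgebraicIndependent ℂ (s.g' 3)
  c : s.c ≠ 0
  inj : ∀ i < n, ∀ j < n, s.xs i = s.xs j → i = j
  minors : ∀ (r : ℕ) (σ : Fin r → ℕ) (τ : Fin r → Idx), Function.Injective σ → (∀ i, σ i < n) →
    Function.Injective τ →
    (Matrix.of fun i j => (cub (s.f F) (τ j)).evalEval (s.xs (σ i)) (s.ys (σ i))).det ≠ 0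
  univ : ∀ (K : Type) [Field K] [Algebra ℂ K] (s' : SD K), s'.Ok F n →
    ∃ φ : W →ₐ[ℂ] K, Sp n φ s s'

theorem Sp.f {K : Type} [CommRing K] [Algebra ℂ K] {n : ℕ} {φ : W →ₐ[ℂ] K} {s : SD W}
    {s' : SD K} (h : Sp n φ s s') (F : Pol ℂ) :
    s'.f F = (s.f F).map (mapRingHom (φ : W →+* K)) := by
  rw [SD.f, SD.f, h.g, h.tau, ← map_map_alg φ, rho_map]
  simp

end SD

theorem exists_frame {F : Pol ℂ} (hF : F ≠ 0) :
    ∃ g g' : Matrix (Fin 4) (Fin 4) ℂ, g * g' = 1 ∧
      MvPolynomial.eval (fun i => g i 2) F ≠ 0 := by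
  obtain ⟨p, hp⟩ : ∃ p : Fin 4 → ℂ, MvPolynomial.eval p (F * MvPolynomial.X 2) ≠ 0 := by
    by_contra h
    push Not at h
    exact mul_ne_zero hF (MvPolynomial.X_ne_zero 2) (MvPolynomial.funext fun p => by simp [h p])
  rw [map_mul, MvPolynomial.eval_X] at hp
  let g : Matrix (Fin 4) (Fin 4) ℂ := (1 : Matrix (Fin 4) (Fin 4) ℂ).updateCol 2 p
  have hd : g.det = p 2 := by
    rw [← Matrix.cramer_apply, Matrix.cramer_one]; rfl
  refine ⟨g, g⁻¹, Matrix.mul_nonsing_inv _ (by rw [hd]; exact (right_ne_zero_of_mul hp).isUnit), ?_⟩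
  simpa [g] using left_ne_zero_of_mul hp

/-- polynomials in the entries of the inverse frame and the scalar -/
abbrev P0 : Type := MvPolynomial ((Fin 4 × Fin 4) ⊕ Unit) ℂ

theorem gen_zero {F : Pol ℂ} (hF : GoodSextic F) :
    ∃ (W : Type) (_ : CommRing W) (_ : IsDomain W) (_ : Algebra ℂ W) (s : SD W), s.Gen F 0 := by
  let G' : Matrix (Fin 4) (Fin 4) P0 := fun i j => MvPolynomial.X (.inl (i, j))
  let ev : ∀ (K : Type) [Field K] [Algebra ℂ K], Matrix (Fin 4) (Fin 4) K → K → P0 →ₐ[ℂ] K :=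
    fun K _ _ g' c => MvPolynomial.aeval (Sum.elim (fun p => g' p.1 p.2) fun _ => c)
  have hev : ∀ (K : Type) [Field K] [Algebra ℂ K] (g' : Matrix (Fin 4) (Fin 4) K) (c : K),
      G'.map (ev K g' c : P0 →+* K) = g' := fun K _ _ g' c => by
    ext i j; simp [G', ev]
  have hdet : ∀ (K : Type) [Field K] [Algebra ℂ K] (g g' : Matrix (Fin 4) (Fin 4) K) (c : K),
      g * g' = 1 → ev K g' c G'.det ≠ 0 := fun K _ _ g g' c h => by
    have h1 : ev K g' c G'.det = g'.det := by
      conv_rhs => rw [← hev K g' c]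
      exact RingHom.map_det (ev K g' c : P0 →+* K) G'
    rw [h1]
    exact (Matrix.isUnit_det_of_left_inverse h).ne_zero
  obtain ⟨W1, _, _, _, ι1, hi1, hu1, U1⟩ := exists_loc P0 G'.det fun h =>
    hdet ℂ 1 1 0 (mul_one _) (by rw [h, map_zero])
  let g1' := G'.map (ι1 : P0 →+* W1)
  have e1 : g1'⁻¹ * g1' = 1 := Matrix.nonsing_inv_mul _ (by
    have := RingHom.map_det (ι1 : P0 →+* W1) G'
    change IsUnit ((ι1 : P0 →+* W1).mapMatrix G').det
    rw [← this]; exact hu1)
  have V1 : ∀ (K : Type) [Field K] [Algebra ℂ K] (g g' : Matrix (Fin 4) (Fin 4) K) (c : K),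
      g * g' = 1 → ∃ φ : W1 →ₐ[ℂ] K, g = g1'⁻¹.map (φ : W1 →+* K) ∧
        g' = g1'.map (φ : W1 →+* K) ∧ c = φ (ι1 (MvPolynomial.X (.inr ()))) := by
    intro K _ _ g g' c h
    obtain ⟨φ, hφ⟩ := U1 K (ev K g' c) (hdet K g g' c h)
    have h2 : g' = g1'.map (φ : W1 →+* K) := by
      ext i j
      simp [g1', hφ, G', ev]
    refine ⟨φ, ?_, h2, by simp [hφ, ev]⟩
    have h3 := map_e1 (φ : W1 →+* K) e1
    rw [← h2] at h3
    exact Matrix.left_inv_eq_left_inv h h3
  let z := MvPolynomial.eval (fun i => g1'⁻¹ i 2) (MvPolynomial.map (algebraMap ℂ W1) F)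
  have hz : ∀ (K : Type) [CommRing K] [Algebra ℂ K] (φ : W1 →ₐ[ℂ] K), φ z =
      MvPolynomial.eval (fun i => g1'⁻¹.map (φ : W1 →+* K) i 2)
        (MvPolynomial.map (algebraMap ℂ K) F) := fun K _ _ φ => by
    rw [← map_map_alg φ]
    exact (eval_map_col (φ : W1 →+* K) _ _).symm
  obtain ⟨W2, _, _, _, ι2, hi2, hu2, U2⟩ := exists_loc W1 z fun h => by
    obtain ⟨g, g', h1, h2⟩ := exists_frame hF.irred.ne_zero
    obtain ⟨φ, h3, -⟩ := V1 ℂ g g' 0 h1
    have := hz ℂ φ
    rw [← h3, h, map_zero, map_alg_self] at this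
    exact h2 this.symm
  obtain ⟨tau, htau⟩ := hu2.exists_left_inv
  refine ⟨W2, inferInstance, inferInstance, inferInstance,
    ⟨g1'⁻¹.map (ι2 : W1 →+* W2), g1'.map (ι2 : W1 →+* W2), tau,
      ι2 (ι1 (MvPolynomial.X (.inr ()))), 0, 0⟩,
    ⟨map_e1 _ e1, by rw [← hz]; exact htau, fun i hi => absurd hi (by omega)⟩, ?_, ?_,
    fun i hi => absurd hi (by omega), ?_, ?_⟩
  · have h1 := (MvPolynomial.algebraicIndependent_X ((Fin 4 × Fin 4) ⊕ Unit) ℂ).comp
      (fun j : Fin 4 => Sum.inl ((3 : Fin 4), j)) (fun a b h => by simpa using h)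
    exact h1.map' (f := ι2.comp ι1) (hi2.comp hi1)
  · exact fun h => MvPolynomial.X_ne_zero _ (hi1 (hi2 (by simpa using h)))
  · intro r σ τ _ h _
    rcases r with _ | r
    · simp
    · exact absurd (h 0) (by omega)
  · intro K _ _ s' h
    obtain ⟨φ, h1, h2, h3⟩ := V1 K s'.g s'.g' s'.c h.e1
    have h4 := h.e2
    rw [h1, ← hz] at h4
    obtain ⟨φ', hφ'⟩ := U2 K φ (right_ne_zero_of_mul_eq_one h4)
    refine ⟨φ', ?_, ?_, ?_, by simp [hφ', h3], fun i hi => absurd hi (by omega),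
      fun i hi => absurd hi (by omega)⟩
    · rw [h1]; ext i j; simp [hφ']
    · rw [h2]; ext i j; simp [hφ']
    · have := congrArg φ' htau
      rw [map_mul, hφ', map_one] at this
      exact mul_right_cancel₀ (right_ne_zero_of_mul_eq_one h4) (h4.trans this.symm)

theorem gen_succ {F : Pol ℂ} (hF : GoodSextic F) {W : Type} [CommRing W] [IsDomain W]
    [Algebra ℂ W] {n : ℕ} {s : SD W} (h : s.Gen F n) :
    ∃ (W' : Type) (_ : CommRing W') (_ : IsDomain W') (_ : Algebra ℂ W') (s' : SD W'),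
      s'.Gen F (n + 1) := by
  classical
  let v : Pt W := ⟨s.g, s.g', s.tau, 0, 0, 0, 0⟩
  have hp : Prime (s.f F) := prime_f hF v h.ok.e1 h.ok.e2
  have hm : (s.f F).Monic := Pt.f_monic (v := v) (hF.homog.map _) h.ok.e2
  have hd : (s.f F).natDegree = 6 := Pt.natDegree_f (v := v) (hF.homog.map _) h.ok.e2
  have hT : TD 6 (s.f F) := Pt.TD_f (v := v) (hF.homog.map _)
  have h6 : (s.f F).coeff 6 = 1 := Pt.coeff_f (v := v) (hF.homog.map _) h.ok.e2
  let W' := AdjoinRoot (s.f F)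
  have : IsDomain W' := AdjoinRoot.isDomain_of_prime hp
  let ι : W →ₐ[ℂ] W' := IsScalarTower.toAlgHom ℂ W W'
  have hι : ∀ a, ι a = AdjoinRoot.mk (s.f F) (C (C a)) := fun a => rfl
  have hz : ∀ p : W[X][X], p.natDegree < 6 → AdjoinRoot.mk (s.f F) p = 0 → p = 0 :=
    fun p h1 h2 => eq_zero_of_dvd_of_natDegree_lt hm (AdjoinRoot.mk_eq_zero.mp h2) (by omega)
  have hinj : Function.Injective ι := by
    rw [injective_iff_map_eq_zero]
    intro a ha
    simpa using hz _ (by simp) ha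
  let x : W' := AdjoinRoot.mk (s.f F) (C X)
  let y : W' := AdjoinRoot.mk (s.f F) X
  have hev : ∀ p : W[X][X], (p.map (mapRingHom (ι : W →+* W'))).evalEval x y =
      AdjoinRoot.mk (s.f F) p := by
    intro p
    have : (evalEvalRingHom x y).comp (mapRingHom (mapRingHom (ι : W →+* W'))) =
        AdjoinRoot.mk (s.f F) := by
      refine Polynomial.ringHom_ext' (Polynomial.ringHom_ext (fun a => ?_) ?_) ?_
      · simp [hι, evalEval_C, W']
      · simp [x, evalEval_C, W']
      · simp [y, W']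
    exact RingHom.congr_fun this p
  let s' : SD W' := ⟨s.g.map (ι : W →+* W'), s.g'.map (ι : W →+* W'), ι s.tau, ι s.c,
    fun i => if i = n then x else ι (s.xs i), fun i => if i = n then y else ι (s.ys i)⟩
  have hsp : SD.Sp n ι s s' := ⟨rfl, rfl, rfl, rfl, fun i hi => if_neg hi.ne,
    fun i hi => if_neg hi.ne⟩
  have hx : s'.xs n = x := if_pos rfl
  have hy : s'.ys n = y := if_pos rfl
  have hold : ∀ (p : W[X][X]), ∀ i < n, (p.map (mapRingHom (ι : W →+* W'))).evalEval (s'.xs i)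
      (s'.ys i) = ι (p.evalEval (s.xs i) (s.ys i)) := fun p i hi => by
    rw [hsp.xs i hi, hsp.ys i hi]
    exact map_mapRingHom_evalEval (ι : W →+* W') p _ _
  refine ⟨W', inferInstance, inferInstance, inferInstance, s', ⟨map_e1 _ h.ok.e1, ?_, ?_⟩,
    h.ind.map' (f := ι) hinj, fun h0 => h.c (hinj (by simpa using h0)), ?_, ?_, ?_⟩
  · have := congrArg (ι : W →+* W') h.ok.e2
    rw [map_mul, ← eval_map_col, map_map_alg, map_one] at this
    exact this
  · intro i hi
    rw [hsp.f]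
    rcases Nat.lt_succ_iff_lt_or_eq.mp hi with hi | rfl
    · rw [hold _ i hi, h.ok.e3 i hi, map_zero]
    · rw [hx, hy, hev, AdjoinRoot.mk_self]
  · have key : ∀ a, x ≠ ι a := fun a ha => by
      have := hz (C (X - C a)) (by simp) (by rw [map_sub, map_sub, ← hι, ← ha, sub_self])
      exact X_sub_C_ne_zero a (C_eq_zero.mp this)
    intro i hi j hj hij
    rcases Nat.lt_succ_iff_lt_or_eq.mp hi with hi | rfl <;>
      rcases Nat.lt_succ_iff_lt_or_eq.mp hj with hj | hj
    · rw [hsp.xs i hi, hsp.xs j hj] at hij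
      exact h.inj i hi j hj (hinj hij)
    · rw [hsp.xs i hi, hj, hx] at hij
      exact absurd hij.symm (key _)
    · rw [hsp.xs j hj, hx] at hij
      exact absurd hij (key _)
    · exact hj.symm
  · intro r σ τ hσ hn hτ
    have hold' : ∀ (r : ℕ) (σ : Fin r → ℕ) (τ : Fin r → Idx), (∀ i, σ i < n) →
        (Matrix.of fun i j => (cub (s'.f F) (τ j)).evalEval (s'.xs (σ i)) (s'.ys (σ i))).det =
        ι (Matrix.of fun i j => (cub (s.f F) (τ j)).evalEval (s.xs (σ i)) (s.ys (σ i))).det := by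
      intro r σ τ hn
      refine Eq.trans ?_ (RingHom.map_det (ι : W →+* W') _).symm
      congr 1
      ext i j
      simp [hsp.f, map_cub, hold _ _ (hn i)]
    by_cases hi : ∃ i0, σ i0 = n
    · obtain ⟨i0, hi0⟩ := hi
      rcases r with _ | r
      · exact i0.elim0
      have hlt : ∀ i, (σ ∘ i0.succAbove) i < n := fun i => by
        have h1 := hn (i0.succAbove i)
        have h2 : σ (i0.succAbove i) ≠ n := fun h3 =>
          Fin.succAbove_ne i0 i (hσ (h3.trans hi0.symm))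
        simp only [Function.comp]; omega
      let d : Fin (r + 1) → W := fun j => (-1) ^ ((i0 : ℕ) + j) *
        (Matrix.of fun a b => (cub (s.f F) ((τ ∘ j.succAbove) b)).evalEval
          (s.xs ((σ ∘ i0.succAbove) a)) (s.ys ((σ ∘ i0.succAbove) a))).det
      let c : Idx → W := fun p => ∑ j, if τ j = p then d j else 0
      have hc : cubic (s.f F) c = ∑ j, C (C (d j)) * cub (s.f F) (τ j) := by
        simp only [cubic, c, map_sum, Finset.sum_mul]
        rw [Finset.sum_comm]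
        refine Finset.sum_congr rfl fun j _ => ?_
        rw [Finset.sum_eq_single (τ j)]
        · simp
        · intro b _ hb
          simp [hb.symm]
        · simp
      intro h0
      rw [Matrix.det_succ_row _ i0] at h0
      have h1 : AdjoinRoot.mk (s.f F) (cubic (s.f F) c) = 0 := by
        rw [hc, map_sum, ← h0]
        refine Finset.sum_congr rfl fun j _ => ?_
        rw [map_mul, ← hι, map_mul, ← hold' r _ _ hlt, Matrix.of_apply, hi0, hx, hy, hsp.f,
          map_cub, hev]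
        simp only [map_pow, map_neg, map_one]
        rw [mul_right_comm]
        rfl
      have h2 := cubic_eq_zero h6 (hz _ (by have := (TD_cubic hT c).natDegree_le; omega) h1)
      have h3 := congrFun h2 (τ 0)
      simp only [c, hτ.eq_iff, Finset.sum_ite_eq', Finset.mem_univ, if_true, Pi.zero_apply,
        d] at h3
      exact h.minors r _ _ (hσ.comp Fin.succAbove_right_injective) hlt
        (hτ.comp Fin.succAbove_right_injective) ((mul_eq_zero.mp h3).resolve_left (by simp))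
    · push Not at hi
      have hlt : ∀ i, σ i < n := fun i => by have := hn i; have := hi i; omega
      rw [hold' r σ τ hlt]
      exact fun h0 => h.minors r σ τ hσ hlt hτ (hinj (by simpa using h0))
  · intro K _ _ t ht
    obtain ⟨φ, hφ⟩ := h.univ K t ⟨ht.e1, ht.e2, fun i hi => ht.e3 i (by omega)⟩
    have h0 : (s.f F).eval₂ (eval₂RingHom (φ : W →+* K) (t.xs n)) (t.ys n) = 0 := by
      have := ht.e3 n (by omega)
      rw [hφ.f] at this
      rw [eval₂_eval₂RingHom_apply, this]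
    let ψ : W' →+* K := AdjoinRoot.lift _ _ h0
    have hψ : ∀ a, ψ (ι a) = φ a := fun a => by
      rw [hι]; exact (AdjoinRoot.lift_mk h0 _).trans (by simp)
    let ψ' : W' →ₐ[ℂ] K := AlgHom.mk ψ fun a => by
      change ψ _ = _
      rw [← ι.commutes, hψ, φ.commutes]
    have hψ' : ∀ a, ψ' (ι a) = φ a := hψ
    refine ⟨ψ', ?_, ?_, by rw [hφ.tau, ← hψ'], by rw [hφ.c, ← hψ'], fun i hi => ?_,
      fun i hi => ?_⟩
    · rw [hφ.g]; ext i j; exact (hψ' _).symm
    · rw [hφ.g']; ext i j; exact (hψ' _).symm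
    · rcases Nat.lt_succ_iff_lt_or_eq.mp hi with hi | rfl
      · rw [hsp.xs i hi, hψ', hφ.xs i hi]
      · rw [hx]; exact ((AdjoinRoot.lift_mk h0 _).trans (by simp)).symm
    · rcases Nat.lt_succ_iff_lt_or_eq.mp hi with hi | rfl
      · rw [hsp.ys i hi, hψ', hφ.ys i hi]
      · rw [hy]; exact ((AdjoinRoot.lift_mk h0 _).trans (by simp)).symm

theorem gen {F : Pol ℂ} (hF : GoodSextic F) (n : ℕ) :
    ∃ (W : Type) (_ : CommRing W) (_ : IsDomain W) (_ : Algebra ℂ W) (s : SD W), s.Gen F n := by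
  induction n with
  | zero => exact gen_zero hF
  | succ n ih =>
    obtain ⟨W, _, _, _, s, h⟩ := ih
    exact gen_succ hF h

end Pool.Agent.P.MP_2b2d3b_ag
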