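import Pool.Agent.P.MP_2b2d3b_ag.Bas

/-!
Graded modules: components, torsion in large degree, the coordinate ring of `S × Spec B`.
-/

namespace Pool.Agent.P.MP_2b2d3b_ag

open MvPolynomial

section Comp

variable {B : Type} [CommRing B] {M : Type} [AddCommGroup M] [Module (Pol B) M]

theorem Grading.ext' {G G' : Grading B M} (h : ∀ d u, u ∈ G.piece d ↔ u ∈ G'.piece d) :
    G = G' := by
  obtain ⟨p, _, _, _⟩ := G
  obtain ⟨p', _, _, _⟩ := G'
  obtain rfl : p = p' := funext fun d => AddSubgroup.ext (h d)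
  rfl

theorem Grading.exists_comp (G : Grading B M) (u : M) : ∃ c : ℕ → M, (∀ d, c d ∈ G.piece d) ∧
    ∃ N, (∀ d ≥ N, c d = 0) ∧ ∀ n ≥ N, ∑ d ∈ Finset.range n, c d = u := by
  obtain ⟨N, c, hc, rfl⟩ := G.span u
  refine ⟨fun d => if d < N then c d else 0, fun d => ?_, N, fun d hd => if_neg (by omega),
    fun n hn => ?_⟩
  · dsimp only
    split_ifs
    exacts [hc d, zero_mem _]
  · rw [← Finset.sum_subset (Finset.range_subset_range.mpr hn) fun i _ hi =>
      if_neg (by simpa using hi)]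
    exact Finset.sum_congr rfl fun i hi => if_pos (Finset.mem_range.mp hi)

theorem Grading.comp_unique (G : Grading B M) {u : M} {c c' : ℕ → M} (hc : ∀ d, c d ∈ G.piece d)
    (hc' : ∀ d, c' d ∈ G.piece d) {N N' : ℕ} (h : ∀ n ≥ N, ∑ d ∈ Finset.range n, c d = u)
    (h' : ∀ n ≥ N', ∑ d ∈ Finset.range n, c' d = u) (d : ℕ) : c d = c' d := by
  have := G.indep (N + N' + d + 1) (fun d => c d - c' d) (fun d => sub_mem (hc d) (hc' d))
    (by rw [Finset.sum_sub_distrib, h _ (by omega), h' _ (by omega), sub_self]) d (by omega)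
  exact sub_eq_zero.mp this

/-- the component of degree `d` -/
noncomputable def Grading.cp (G : Grading B M) (d : ℕ) : M →+ M :=
  AddMonoidHom.mk' (fun u => (G.exists_comp u).choose d) fun u v => by
    obtain ⟨h1, N1, -, e1⟩ := (G.exists_comp u).choose_spec
    obtain ⟨h2, N2, -, e2⟩ := (G.exists_comp v).choose_spec
    obtain ⟨h3, N3, -, e3⟩ := (G.exists_comp (u + v)).choose_spec
    exact G.comp_unique h3 (c' := fun d => _ + _) (fun d => add_mem (h1 d) (h2 d)) e3
      (N' := N1 + N2) (fun n hn => by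
        rw [Finset.sum_add_distrib, e1 n (by omega), e2 n (by omega)]) d

namespace Grading

variable (G : Grading B M)

theorem cp_mem (d : ℕ) (u : M) : G.cp d u ∈ G.piece d := (G.exists_comp u).choose_spec.1 d

theorem sum_cp (u : M) : ∃ N, (∀ d ≥ N, G.cp d u = 0) ∧
    ∀ n ≥ N, ∑ d ∈ Finset.range n, G.cp d u = u := (G.exists_comp u).choose_spec.2

variable {G}

theorem cp_of_mem {u : M} {e : ℕ} (hu : u ∈ G.piece e) (d : ℕ) :
    G.cp d u = if d = e then u else 0 := by
  obtain ⟨N, -, h⟩ := G.sum_cp u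
  refine G.comp_unique (fun d => G.cp_mem d u) (c' := fun d => if d = e then u else 0)
    (fun d => ?_) h (N' := e + 1) (fun n hn => ?_) d
  · split_ifs with h
    exacts [h ▸ hu, zero_mem _]
  · rw [Finset.sum_ite_eq', if_pos (Finset.mem_range.mpr hn)]

theorem cp_self {u : M} {e : ℕ} (hu : u ∈ G.piece e) : G.cp e u = u := by
  rw [cp_of_mem hu, if_pos rfl]

theorem cp_ne {u : M} {e d : ℕ} (hu : u ∈ G.piece e) (h : d ≠ e) : G.cp d u = 0 := by
  rw [cp_of_mem hu, if_neg h]

variable (G)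

/-- an additive property that holds for homogeneous elements holds for all elements -/
theorem induction {p : M → Prop} (h0 : p 0) (hadd : ∀ u v, p u → p v → p (u + v))
    (hom : ∀ d, ∀ u ∈ G.piece d, p u) (u : M) : p u := by
  obtain ⟨N, c, hc, rfl⟩ := G.span u
  exact Finset.sum_induction _ p hadd h0 fun d _ => hom d _ (hc d)

theorem cp_smul {a : Pol B} {n : ℕ} (ha : a.IsHomogeneous n) (d : ℕ) (u : M) :
    G.cp (d + n) (a • u) = a • G.cp d u := by
  induction u using G.induction with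
  | h0 => simp
  | hadd u v hu hv => simp only [smul_add, map_add, hu, hv]
  | hom e u hu =>
    rw [cp_of_mem hu, cp_of_mem (G.smul_mem n e a u ha hu)]
    by_cases h : d = e <;> simp [h]

theorem cp_smul_lt {a : Pol B} {n : ℕ} (ha : a.IsHomogeneous n) {d : ℕ} (hd : d < n) (u : M) :
    G.cp d (a • u) = 0 := by
  induction u using G.induction with
  | h0 => simp
  | hadd u v hu hv => simp only [smul_add, map_add, hu, hv, add_zero]
  | hom e u hu => exact cp_ne (G.smul_mem n e a u ha hu) (by omega)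

theorem C_smul_mem (r : B) {d : ℕ} {u : M} (hu : u ∈ G.piece d) : (C r : Pol B) • u ∈ G.piece d :=
  G.smul_mem 0 d _ u (isHomogeneous_C _ r) hu

/-- the elements all of whose components satisfy a graded condition form a submodule -/
def sub (T : ℕ → AddSubgroup M)
    (hT : ∀ (n d : ℕ) (a : Pol B), a.IsHomogeneous n → ∀ u ∈ G.piece d, u ∈ T d →
      a • u ∈ T (d + n)) : Submodule (Pol B) M where
  carrier := {u | ∀ d, G.cp d u ∈ T d}
  zero_mem' d := by simp
  add_mem' := fun hu hv d => by simpa using add_mem (hu d) (hv d)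
  smul_mem' a u hu d := by
    rw [← sum_homogeneousComponent a, Finset.sum_smul, map_sum]
    refine sum_mem fun n _ => ?_
    have ha := homogeneousComponent_isHomogeneous n a
    by_cases h : d < n
    · rw [G.cp_smul_lt ha h]; exact zero_mem _
    · obtain ⟨e, rfl⟩ := Nat.exists_eq_add_of_le' (not_lt.mp h)
      rw [G.cp_smul ha]
      exact hT n e _ ha _ (G.cp_mem e u) (hu e)

theorem mem_sub {T : ℕ → AddSubgroup M} {hT} {u : M} :
    u ∈ G.sub T hT ↔ ∀ d, G.cp d u ∈ T d := Iff.rfl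

theorem mem_sub_of_mem {T : ℕ → AddSubgroup M} {hT} {u : M} {e : ℕ} (hu : u ∈ G.piece e) :
    u ∈ G.sub T hT ↔ u ∈ T e := by
  refine ⟨fun h => by simpa only [cp_self hu] using h e, fun h d => ?_⟩
  rw [cp_of_mem hu]
  split_ifs with hd
  exacts [hd ▸ h, zero_mem _]

end Grading

theorem hom_mem_pow {a : Pol B} {n k : ℕ} (ha : a.IsHomogeneous n) (hn : 4 * k ≤ n) :
    a ∈ Ideal.span (Set.range fun i : Fin 4 => (X i : Pol B) ^ k) := by
  classical
  rw [← form_coeff ha, form]
  refine Ideal.sum_mem _ fun m _ => ?_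
  have : ∃ i, k ≤ m.1 i := by
    by_contra h
    push Not at h
    have h2 := m.2
    rw [Finsupp.degree_eq_sum, Fin.sum_univ_four] at h2
    have := h 0
    have := h 1
    have := h 2
    have := h 3
    omega
  obtain ⟨i, hi⟩ := this
  have e : (monomial m.1 (coeff m.1 a) : Pol B) =
      monomial (m.1 - Finsupp.single i k) (coeff m.1 a) * X i ^ k := by
    rw [X_pow_eq_monomial, monomial_mul, mul_one, tsub_add_cancel_of_le]
    exact Finsupp.single_le_iff.mpr hi
  rw [e]
  exact Ideal.mul_mem_left _ _ (Ideal.subset_span ⟨i, rfl⟩)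

/-- In large degree a finitely generated submodule that is torsion modulo `S` lies in `S`. -/
theorem Grading.large (G : Grading B M) (T S : Submodule (Pol B) M) (hT : T.FG)
    (h : ∀ u ∈ T, ∀ (e : ℕ) (i : Fin 4), ∃ k : ℕ, (X i : Pol B) ^ k • G.cp e u ∈ S) :
    ∃ d0, ∀ d ≥ d0, ∀ u ∈ T, u ∈ G.piece d → u ∈ S := by
  have key : ∀ u ∈ T, ∃ d0, ∀ d ≥ d0, ∀ a : Pol B, G.cp d (a • u) ∈ S := by
    intro u hu
    obtain ⟨N, -, hN⟩ := G.sum_cp u
    choose k hk using h u hu
    let K := ∑ e ∈ Finset.range N, ∑ i, k e i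
    refine ⟨N + 4 * K, fun d hd a => ?_⟩
    rw [← hN N le_rfl, Finset.smul_sum, map_sum]
    refine S.sum_mem fun e he => ?_
    rw [← sum_homogeneousComponent a, Finset.sum_smul, map_sum]
    refine S.sum_mem fun n _ => ?_
    have ha := homogeneousComponent_isHomogeneous n a
    rw [Grading.cp_of_mem (G.smul_mem n e _ _ ha (G.cp_mem e u))]
    split_ifs with h1
    · have h2 := Finset.mem_range.mp he
      obtain ⟨c, hc⟩ := Ideal.mem_span_range_iff_exists_fun.mp
        (hom_mem_pow ha (k := K) (by omega))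
      rw [← hc, Finset.sum_smul]
      refine S.sum_mem fun i _ => ?_
      have h3 : k e i ≤ K := le_trans
        (Finset.single_le_sum (f := fun i => k e i) (fun _ _ => Nat.zero_le _) (Finset.mem_univ i))
        (Finset.single_le_sum (f := fun e => ∑ i, k e i) (fun _ _ => Nat.zero_le _) he)
      obtain ⟨j, hj⟩ := Nat.exists_eq_add_of_le' h3
      rw [hj, pow_add, ← mul_assoc, mul_smul]
      exact S.smul_mem _ (hk e i)
    · exact S.zero_mem
  obtain ⟨t, rfl⟩ := hT
  choose! d0 hd0 using key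
  refine ⟨∑ x ∈ t, d0 x, fun d hd u hu hud => ?_⟩
  obtain ⟨c, -, rfl⟩ := Submodule.mem_span_finset.mp hu
  rw [← Grading.cp_self hud, map_sum]
  refine S.sum_mem fun x hx => hd0 x (Submodule.subset_span hx) d ?_ _
  exact le_trans (Finset.single_le_sum (f := d0) (fun _ _ => Nat.zero_le _) hx) hd

/-- homogeneous generators -/
theorem Grading.exists_gens (G : Grading B M) [Module.Finite (Pol B) M] :
    ∃ (n : ℕ) (a : Fin n → ℕ) (m : Fin n → M), (∀ i, m i ∈ G.piece (a i)) ∧
      Submodule.span (Pol B) (Set.range m) = ⊤ := by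
  obtain ⟨t, ht⟩ := Module.Finite.fg_top (R := Pol B) (M := M)
  choose N _ hN using G.sum_cp
  let ι := Σ x : t, Fin (N x)
  let e := Fintype.equivFin ι
  refine ⟨_, fun i => (e.symm i).2, fun i => G.cp (e.symm i).2 (e.symm i).1,
    fun i => G.cp_mem _ _, ?_⟩
  rw [eq_top_iff, ← ht, Submodule.span_le]
  intro x hx
  rw [SetLike.mem_coe, ← hN x (N x) le_rfl]
  refine Submodule.sum_mem _ fun d hd => Submodule.subset_span
    ⟨e ⟨⟨x, hx⟩, ⟨d, Finset.mem_range.mp hd⟩⟩, ?_⟩
  dsimp only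
  rw [e.symm_apply_apply]

end Comp

/-- the coordinate ring of `S × Spec B` -/
abbrev Rq (F : Pol ℂ) (B : Type) [CommRing B] [Algebra ℂ B] : Type :=
  Pol B ⧸ Ideal.span {bc F B}

/-- the class of a polynomial -/
noncomputable abbrev mq (F : Pol ℂ) (B : Type) [CommRing B] [Algebra ℂ B] : Pol B →+* Rq F B :=
  Ideal.Quotient.mk _

/-- the regularity properties of `F` -/
structure Rg (F : Pol ℂ) : Prop where
  hom : F.IsHomogeneous 6
  nzd : ∀ (B : Type) [CommRing B] [Algebra ℂ B] (i : Fin 4) (k : ℕ) (a : Pol B), i ≠ 0 →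
    X i ^ k * a ∈ Ideal.span {bc F B} → a ∈ Ideal.span {bc F B}
  reg : ∀ (B : Type) [CommRing B] [Algebra ℂ B] (k : ℕ) (a b : Pol B),
    X 2 ^ k * a - X 3 ^ k * b ∈ Ideal.span {bc F B} →
      ∃ r : Pol B, a - X 3 ^ k * r ∈ Ideal.span {bc F B}

theorem Rg.of (h : S_Reg) {F : Pol ℂ} (hF : F.IsHomogeneous 6)
    (h0 : coeff (Finsupp.single 0 6) F ≠ 0) : Rg F := by
  have key := fun (B : Type) [CommRing B] [Algebra ℂ B] => h B (bc F B) (hF.map _) (by
    rw [coeff_map]; exact (IsUnit.mk0 _ h0).map _)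
  exact ⟨hF, fun B _ _ => (key B).1, fun B _ _ => (key B).2⟩

section R

variable {F : Pol ℂ} {B : Type} [CommRing B] [Algebra ℂ B] {B' : Type} [CommRing B'] [Algebra ℂ B']

theorem smul_mq (a : Pol B) (r : Rq F B) : a • r = mq F B a * r := rfl

theorem mq_zero {a : Pol B} : mq F B a = 0 ↔ a ∈ Ideal.span {bc F B} :=
  Ideal.Quotient.eq_zero_iff_mem

theorem mq_eq {a b : Pol B} : mq F B a = mq F B b ↔ a - b ∈ Ideal.span {bc F B} :=
  Ideal.Quotient.eq

theorem mq_surj (r : Rq F B) : ∃ a, mq F B a = r := Ideal.Quotient.mk_surjective r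

theorem mq_F : mq F B (bc F B) = 0 := mq_zero.mpr (Ideal.mem_span_singleton_self _)

theorem map_bc (φ : B →ₐ[ℂ] B') : map (φ : B →+* B') (bc F B) = bc F B' := map_map_alg φ F

theorem bc_self (F : Pol ℂ) : bc F ℂ = F := map_alg_self F

/-- base change on the coordinate rings -/
noncomputable def mapR (F : Pol ℂ) (φ : B →ₐ[ℂ] B') : Rq F B →+* Rq F B' :=
  Ideal.Quotient.lift _ ((mq F B').comp (map (φ : B →+* B'))) fun a ha => by
    rw [RingHom.comp_apply, mq_zero, ← map_bc φ]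
    exact map_mem_one _ ha

theorem mapR_mq (φ : B →ₐ[ℂ] B') (a : Pol B) :
    mapR F φ (mq F B a) = mq F B' (map (φ : B →+* B') a) := rfl

theorem mapR_mapR {B'' : Type} [CommRing B''] [Algebra ℂ B''] (φ : B →ₐ[ℂ] B') (ψ : B' →ₐ[ℂ] B'')
    (r : Rq F B) : mapR F ψ (mapR F φ r) = mapR F (ψ.comp φ) r := by
  obtain ⟨a, rfl⟩ := mq_surj r
  rw [mapR_mq, mapR_mq, mapR_mq, map_map]
  rfl

theorem map_algId (a : Pol B) : map (AlgHom.id ℂ B : B →+* B) a = a := map_id a

theorem mapR_id (r : Rq F B) : mapR F (AlgHom.id ℂ B) r = r := by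
  obtain ⟨a, rfl⟩ := mq_surj r
  rw [mapR_mq, map_algId]

/-- homogeneous elements of the coordinate ring -/
def HomR (F : Pol ℂ) (B : Type) [CommRing B] [Algebra ℂ B] (d : ℕ) : AddSubgroup (Rq F B) where
  carrier := {r | ∃ b : Pol B, b.IsHomogeneous d ∧ r = mq F B b}
  zero_mem' := ⟨0, isHomogeneous_zero _ _ _, (map_zero _).symm⟩
  add_mem' := by
    rintro _ _ ⟨a, ha, rfl⟩ ⟨b, hb, rfl⟩
    exact ⟨a + b, ha.add hb, (map_add _ _ _).symm⟩
  neg_mem' := by
    rintro _ ⟨a, ha, rfl⟩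
    exact ⟨-a, ha.neg, (map_neg _ _).symm⟩

theorem mq_mem {a : Pol B} {d : ℕ} (ha : a.IsHomogeneous d) : mq F B a ∈ HomR F B d := ⟨a, ha, rfl⟩

theorem HomR.mul {r r' : Rq F B} {d e : ℕ} (h : r ∈ HomR F B d) (h' : r' ∈ HomR F B e) :
    r * r' ∈ HomR F B (d + e) := by
  obtain ⟨a, ha, rfl⟩ := h
  obtain ⟨b, hb, rfl⟩ := h'
  exact ⟨a * b, ha.mul hb, (map_mul _ _ _).symm⟩

theorem HomR.map (φ : B →ₐ[ℂ] B') {r : Rq F B} {d : ℕ} (h : r ∈ HomR F B d) :
    mapR F φ r ∈ HomR F B' d := by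
  obtain ⟨a, ha, rfl⟩ := h
  exact ⟨_, ha.map _, mapR_mq φ a⟩

/-- the grading of the coordinate ring -/
noncomputable def grR (hF : F.IsHomogeneous 6) (B : Type) [CommRing B] [Algebra ℂ B] :
    Grading B (Rq F B) where
  piece := HomR F B
  span r := by
    obtain ⟨a, rfl⟩ := mq_surj r
    exact ⟨_, fun d => mq F B (homogeneousComponent d a),
      fun d => mq_mem (homogeneousComponent_isHomogeneous d a),
      by rw [← map_sum, sum_homogeneousComponent]⟩
  indep N c hc h d hd := by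
    choose b hb e using hc
    obtain rfl : c = _ := funext e
    rw [← map_sum, mq_zero] at h
    have := comp_mem_one (hF.map _) h d
    rw [map_sum, Finset.sum_eq_single d, homogeneousComponent_eq_self (hb d)] at this
    · exact mq_zero.mpr this
    · intro i _ hi
      rw [homogeneousComponent_of_mem (hb i), if_neg hi.symm]
    · intro h; exact absurd (Finset.mem_range.mpr hd) h
  smul_mem n d a r ha hr := by
    rw [smul_mq, add_comm]
    exact HomR.mul (mq_mem ha) hr

/-- cancellation of a homogeneous non zero divisor -/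
theorem HomR.cancel (hF : F.IsHomogeneous 6) {a r : Rq F B} {m n : ℕ} (ha : a ∈ HomR F B m)
    (hz : ∀ x, a * x = 0 → x = 0) (h : a * r ∈ HomR F B n) :
    (∀ e, e + m = n → r ∈ HomR F B e) ∧ (n < m → r = 0) := by
  obtain ⟨a, ha, rfl⟩ := ha
  have key : ∀ e, e + m ≠ n → (grR hF B).cp e r = 0 := fun e he => hz _ (by
    rw [← smul_mq, ← (grR hF B).cp_smul ha]
    exact Grading.cp_ne (G := grR hF B) h he)
  obtain ⟨N, -, hN⟩ := (grR hF B).sum_cp r
  refine ⟨fun e he => ?_, fun hn => ?_⟩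
  · rw [← hN N le_rfl]
    refine sum_mem fun d _ => ?_
    by_cases hd : d = e
    · exact hd ▸ (grR hF B).cp_mem d r
    · rw [key d (by omega)]; exact zero_mem _
  · rw [← hN N le_rfl]
    exact Finset.sum_eq_zero fun d _ => key d (by omega)

theorem Rg.nzdR (hR : Rg F) {i : Fin 4} (hi : i ≠ 0) (k : ℕ) (r : Rq F B)
    (h : mq F B (X i ^ k) * r = 0) : r = 0 := by
  obtain ⟨a, rfl⟩ := mq_surj r
  rw [← map_mul, mq_zero] at h
  exact mq_zero.mpr (hR.nzd B i k a hi h)

theorem Rg.regR (hR : Rg F) (k : ℕ) {r r' : Rq F B}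
    (h : mq F B (X 2 ^ k) * r = mq F B (X 3 ^ k) * r') : ∃ x, r = mq F B (X 3 ^ k) * x := by
  obtain ⟨a, rfl⟩ := mq_surj r
  obtain ⟨b, rfl⟩ := mq_surj r'
  rw [← map_mul, ← map_mul, mq_eq] at h
  obtain ⟨x, hx⟩ := hR.reg B k a b h
  exact ⟨mq F B x, by rw [← map_mul, mq_eq]; exact hx⟩

/-- an element that vanishes near every point vanishes -/
theorem Rg.zero_of_loc (hR : Rg F) {r : Rq F B}
    (h : ∀ q : Ideal (Pol B), q.IsPrime → bc F B ∈ q → X 3 ∉ q → ∃ c ∉ q, mq F B c * r = 0) :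
    r = 0 := by
  obtain ⟨k, hk⟩ := exists_pow_mem (LinearMap.ker (LinearMap.toSpanSingleton (Pol B) _ r)) (X 3)
    fun q hq h3 => by
      by_cases hF : bc F B ∈ q
      · obtain ⟨c, hc, e⟩ := h q hq hF h3
        exact ⟨c, e, hc⟩
      · exact ⟨bc F B, by
          change mq F B (bc F B) * r = 0
          rw [mq_F, zero_mul], hF⟩
  exact hR.nzdR (by decide) k r hk

theorem HomR.cancelX (hR : Rg F) {r : Rq F B} {k e : ℕ}
    (h : mq F B (X 3 ^ k) * r ∈ HomR F B (e + k)) : r ∈ HomR F B e :=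
  (HomR.cancel hR.hom (mq_mem (by simpa using (isHomogeneous_X B 3).pow k))
    (hR.nzdR (by decide) k) h).1 e rfl

end R

end Pool.Agent.P.MP_2b2d3b_ag
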