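import Pool.Agent.P.MP_2b2d3b_ag.StE
import Pool.Agent.P.MP_2b2d3b_ag.Tr
import Pool.Agent.P.MP_2b2d3b_ag.Gram
import Pool.Agent.P.MP_2b2d3b_ag.Lam
import Pool.Agent.P.MP_2b2d3b_ag.Rep
import Pool.Agent.P.MP_2b2d3b_ag.Stab
import Pool.Agent.P.MP_2b2d3b_ag.Serre
import Pool.Agent.P.MP_2b2d3b_ag.DimP

/-!
Facts from the earlier packages, without hypotheses.
-/

namespace Pool.Agent.P.MP_2b2d3b_ag

open MvPolynomial

namespace Kn

theorem hTr : S_Tr := tr hfEq stab pullEx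

theorem hRad : S_RepRad := repRad lam

theorem hLen : S_Len := len lower repEx hRad filtOf hfSer lam

theorem hC : S_CStep := cStep lower repEx hRad filtOf hfSer lam

variable {F : Pol ℂ} {B : Type} [CommRing B] [Algebra ℂ B] {B' : Type} [CommRing B'] [Algebra ℂ B']

theorem pull (hR : Rg F) (φ : B →ₐ[ℂ] B') (E : Bundle F B) :
    ∃ (E' : Bundle F B') (θ : _), Pull φ E E' θ := by
  obtain ⟨E', h⟩ := pullEx F hR B B' φ E
  exact ⟨E', h.exists⟩

/-- every fibre of a family is good -/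
theorem good_fibre (hF : Hyp F) (E : Family F B) {t : B →ₐ[ℂ] ℂ} {E0 : Bundle F ℂ}
    (h : IsPull t E.toBundle E0) : Good E0 := by
  obtain ⟨E1, h1, h2, h3⟩ := E.fibre t
  exact (hTr F hF).1 B t _ E1 E0 h1 h ⟨(stab F hF E1 h3).1 h2, h3⟩

/-- a bundle with good fibres is a family -/
theorem family (hF : Hyp F) (E : Bundle F B)
    (h : ∀ (t : B →ₐ[ℂ] ℂ) (E0 : Bundle F ℂ), IsPull t E E0 → Good E0) :
    ∃ E' : Family F B, E'.toBundle = E :=
  (hTr F hF).2.2.2.1 B E fun t => by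
    obtain ⟨E0, h0⟩ := pullEx F hF.rg B ℂ t E
    exact ⟨E0, h0, h t E0 h0⟩

theorem good_iso (hF : Hyp F) {E E' : Bundle F ℂ} (h : Iso E E') (hE : Good E) : Good E' :=
  ((hTr F hF).2.2.2.2.2.1 E E' h).1 hE

theorem pbk (hF : Hyp F) : PBk F where
  ex φ E := pullEx F hF.rg _ _ φ E
  fam _ E E' h := family hF E' fun _ _ h0 => good_fibre hF E (h.comp h0)

end Kn

end Pool.Agent.P.MP_2b2d3b_ag
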