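import Pool.Agent.P.MP_2b2d3b_ag.Defs

/-!
The module of pairs `(a, b)` modulo `F` with `a H + b G ∈ (F, l)`.
-/

namespace Pool.Agent.P.MP_2b2d3b_ag

open MvPolynomial

variable {B : Type} [CommRing B]

theorem comp_mul {F : Pol B} {k : ℕ} (hF : F.IsHomogeneous k) (a : Pol B) (n : ℕ) :
    homogeneousComponent (n + k) (a * F) = homogeneousComponent n a * F := by
  conv_lhs => rw [← sum_homogeneousComponent a, Finset.sum_mul, map_sum]
  rw [Finset.sum_eq_single n]
  · exact homogeneousComponent_eq_self ((homogeneousComponent_isHomogeneous n a).mul hF)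
  · intro i _ hi
    rw [homogeneousComponent_of_mem ((homogeneousComponent_isHomogeneous i a).mul hF),
      if_neg (by omega)]
  · intro hn
    rw [homogeneousComponent_eq_zero (φ := a) (n := n) (by simpa using hn), zero_mul, map_zero]

attribute [local instance] MvPolynomial.gradedAlgebra in
theorem comp_mem_span {s : Set (Pol B)} (hs : ∀ x ∈ s, ∃ n, x.IsHomogeneous n) {x : Pol B}
    (hx : x ∈ Ideal.span s) (n : ℕ) : homogeneousComponent n x ∈ Ideal.span s :=
  homogeneousComponent_mem_of_mem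
    (Ideal.homogeneous_span (homogeneousSubmodule (Fin 4) B) s fun x hx => hs x hx) hx n

theorem comp_mem_one {F : Pol B} {k : ℕ} (hF : F.IsHomogeneous k) {x : Pol B}
    (hx : x ∈ Ideal.span {F}) (n : ℕ) : homogeneousComponent n x ∈ Ideal.span {F} :=
  comp_mem_span (by rintro _ rfl; exact ⟨_, hF⟩) hx n

theorem comp_mem_two {F l : Pol B} {k j : ℕ} (hF : F.IsHomogeneous k) (hl : l.IsHomogeneous j)
    {x : Pol B} (hx : x ∈ Ideal.span {F, l}) (n : ℕ) :
    homogeneousComponent n x ∈ Ideal.span {F, l} :=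
  comp_mem_span (by rintro _ (rfl | rfl); exacts [⟨_, hF⟩, ⟨_, hl⟩]) hx n

theorem sum_comp (a : Pol B) {N : ℕ} (hN : a.totalDegree < N) :
    ∑ i ∈ Finset.range N, homogeneousComponent i a = a := by
  conv_rhs => rw [← sum_homogeneousComponent a]
  symm
  refine Finset.sum_subset (Finset.range_subset_range.mpr hN) fun i _ hi => ?_
  exact homogeneousComponent_eq_zero _ _ (by simpa using hi)

theorem comp_sum {c : ℕ → Pol B} (hc : ∀ d, (c d).IsHomogeneous (d + 1)) {N d : ℕ} (hd : d < N) :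
    homogeneousComponent (d + 1) (∑ i ∈ Finset.range N, c i) = c d := by
  rw [map_sum, Finset.sum_eq_single d]
  · exact homogeneousComponent_eq_self (hc d)
  · intro i _ hi
    rw [homogeneousComponent_of_mem (hc i), if_neg (by omega)]
  · intro h; exact absurd (Finset.mem_range.mpr hd) h

theorem exists_pow_mem {R : Type} [CommRing R] (J : Ideal R) (x : R)
    (h : ∀ q : Ideal R, q.IsPrime → x ∉ q → ∃ c ∈ J, c ∉ q) : ∃ k : ℕ, x ^ k ∈ J := by
  have : x ∈ J.radical := by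
    rw [Ideal.radical_eq_sInf, Submodule.mem_sInf]
    rintro q ⟨h1, h2⟩
    by_contra hx
    obtain ⟨c, hc, hc'⟩ := h q h2 hx
    exact hc' (h1 hc)
  exact this

theorem mem_pair_left {R : Type} [CommRing R] {F l : R} {a : R} (h : a ∈ Ideal.span {F}) :
    a ∈ Ideal.span {F, l} := Ideal.span_mono (by simp) h

theorem left_mem {R : Type} [CommRing R] (F l : R) : F ∈ Ideal.span {F, l} :=
  Ideal.subset_span (by simp)

theorem right_mem {R : Type} [CommRing R] (F l : R) : l ∈ Ideal.span {F, l} :=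
  Ideal.subset_span (by simp)

/-- Cramer's rule -/
theorem cramer {R : Type} [CommRing R] {F l : R} (h1 : ∀ a, l * a ∈ Ideal.span {F} → a ∈ Ideal.span {F})
    {a b a1 b1 a2 b2 c : R} (hc : a1 * b2 - a2 * b1 - c * l ∈ Ideal.span {F})
    (e1 : a * b2 - a2 * b ∈ Ideal.span {F, l}) (e2 : a1 * b - a * b1 ∈ Ideal.span {F, l}) :
    ∃ α β, c * a - (α * a1 + β * a2) ∈ Ideal.span {F} ∧
      c * b - (α * b1 + β * b2) ∈ Ideal.span {F} := by
  obtain ⟨x, α, hα⟩ := Ideal.mem_span_pair.mp e1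
  obtain ⟨y, β, hβ⟩ := Ideal.mem_span_pair.mp e2
  obtain ⟨z, hz⟩ := Ideal.mem_span_singleton'.mp hc
  exact ⟨α, β, h1 _ (Ideal.mem_span_singleton'.mpr ⟨x * a1 + y * a2 - z * a, by
      linear_combination a1 * hα + a2 * hβ - a * hz⟩),
    h1 _ (Ideal.mem_span_singleton'.mpr ⟨x * b1 + y * b2 - z * b, by
      linear_combination b1 * hα + b2 * hβ - b * hz⟩)⟩

theorem cramer_indep {R : Type} [CommRing R] {F l : R}
    (h1 : ∀ a, l * a ∈ Ideal.span {F} → a ∈ Ideal.span {F})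
    {α β a1 b1 a2 b2 c : R} (hc : a1 * b2 - a2 * b1 - c * l ∈ Ideal.span {F})
    (e1 : α * a1 + β * a2 ∈ Ideal.span {F}) (e2 : α * b1 + β * b2 ∈ Ideal.span {F}) :
    c * α ∈ Ideal.span {F} ∧ c * β ∈ Ideal.span {F} := by
  obtain ⟨x, hx⟩ := Ideal.mem_span_singleton'.mp e1
  obtain ⟨y, hy⟩ := Ideal.mem_span_singleton'.mp e2
  obtain ⟨z, hz⟩ := Ideal.mem_span_singleton'.mp hc
  exact ⟨h1 _ (Ideal.mem_span_singleton'.mpr ⟨x * b2 - y * a2 - z * α, by
      linear_combination b2 * hx - a2 * hy - α * hz⟩),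
    h1 _ (Ideal.mem_span_singleton'.mpr ⟨y * a1 - x * b1 - z * β, by
      linear_combination a1 * hy - b1 * hx - β * hz⟩)⟩

/-- pairs `(a, b)` with `a H + b G ∈ (F, l)` -/
noncomputable def Nt (F l H G : Pol B) : Submodule (Pol B) (Pol B × Pol B) where
  carrier := {p | p.1 * H + p.2 * G ∈ Ideal.span {F, l}}
  zero_mem' := by simp
  add_mem' := fun {p q} hp hq => by
    have := Ideal.add_mem (Ideal.span {F, l}) hp hq
    simp only [Set.mem_ofPred_eq, Prod.fst_add, Prod.snd_add]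
    convert this using 1; ring
  smul_mem' := fun c p hp => by
    have := Ideal.mul_mem_left (Ideal.span {F, l}) c hp
    simp only [Set.mem_ofPred_eq, Prod.smul_fst, Prod.smul_snd, smul_eq_mul]
    convert this using 1; ring

theorem mem_Nt {F l H G : Pol B} {p : Pol B × Pol B} :
    p ∈ Nt F l H G ↔ p.1 * H + p.2 * G ∈ Ideal.span {F, l} := Iff.rfl

/-- a submodule of pairs modulo `F` -/
abbrev Qm (F : Pol B) (N : Submodule (Pol B) (Pol B × Pol B)) : Type :=
  N ⧸ Submodule.comap N.subtype (Submodule.prod (Ideal.span {F}) (Ideal.span {F}))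

section El

variable {F : Pol B} {N : Submodule (Pol B) (Pol B × Pol B)}

/-- the class of a pair -/
noncomputable def el (a b : Pol B) (h : (a, b) ∈ N) : Qm F N := Submodule.Quotient.mk ⟨(a, b), h⟩

theorem el_surj (u : Qm F N) : ∃ a b h, u = el a b h := by
  obtain ⟨⟨⟨a, b⟩, h⟩, rfl⟩ := Submodule.Quotient.mk_surjective _ u
  exact ⟨a, b, h, rfl⟩

theorem el_eq {a b a' b' : Pol B} {h : (a, b) ∈ N} {h' : (a', b') ∈ N} :
    (el a b h : Qm F N) = el a' b' h' ↔ a - a' ∈ Ideal.span {F} ∧ b - b' ∈ Ideal.span {F} :=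
  Submodule.Quotient.eq _

theorem el_eq_zero {a b : Pol B} {h : (a, b) ∈ N} :
    (el a b h : Qm F N) = 0 ↔ a ∈ Ideal.span {F} ∧ b ∈ Ideal.span {F} :=
  Submodule.Quotient.mk_eq_zero _

theorem el_add {a b a' b' : Pol B} (h : (a, b) ∈ N) (h' : (a', b') ∈ N) :
    (el a b h : Qm F N) + el a' b' h' = el (a + a') (b + b') (N.add_mem h h') := rfl

theorem mul_pair (c : Pol B) {a b : Pol B} (h : (a, b) ∈ N) : (c * a, c * b) ∈ N := by
  have := N.smul_mem c h
  rwa [Prod.smul_mk, smul_eq_mul, smul_eq_mul] at this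

theorem smul_el (c : Pol B) {a b : Pol B} (h : (a, b) ∈ N) :
    c • (el a b h : Qm F N) = el (c * a) (c * b) (mul_pair c h) := by
  rw [el, ← Submodule.Quotient.mk_smul]
  refine congrArg _ (Subtype.ext ?_)
  rw [Submodule.coe_smul, Prod.smul_mk, smul_eq_mul, smul_eq_mul]

theorem neg_el {a b : Pol B} (h : (a, b) ∈ N) :
    -(el a b h : Qm F N) = el (-a) (-b) (N.neg_mem h) := rfl

theorem sum_el (s : Finset ℕ) (a b : ℕ → Pol B) (h : ∀ i, (a i, b i) ∈ N)
    (h' : (∑ i ∈ s, a i, ∑ i ∈ s, b i) ∈ N) :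
    ∑ i ∈ s, (el (a i) (b i) (h i) : Qm F N) = el _ _ h' := by
  have : ∀ i, (el (a i) (b i) (h i) : Qm F N) = Submodule.mkQ _ ⟨(a i, b i), h i⟩ := fun _ => rfl
  simp only [this]
  rw [← map_sum]
  refine congrArg (Submodule.mkQ _) (Subtype.ext ?_)
  rw [Submodule.coe_sum]
  exact Prod.ext (Prod.fst_sum ..) (Prod.snd_sum ..)

theorem kill_el (u : Qm F N) : F • u = 0 := by
  obtain ⟨a, b, h, rfl⟩ := el_surj u
  rw [smul_el, el_eq_zero]
  exact ⟨Ideal.mul_mem_right _ _ (Ideal.mem_span_singleton_self F),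
    Ideal.mul_mem_right _ _ (Ideal.mem_span_singleton_self F)⟩

/-- the grading, with a shift by one -/
noncomputable def grad (hF : F.IsHomogeneous 6)
    (hN : ∀ a b, (a, b) ∈ N → ∀ d, (homogeneousComponent d a, homogeneousComponent d b) ∈ N)
    (h0 : ∀ a b : B, (C a, C b) ∈ N → a = 0 ∧ b = 0) : Grading B (Qm F N) where
  piece d :=
    { carrier := {u | ∃ a b h, a.IsHomogeneous (d + 1) ∧ b.IsHomogeneous (d + 1) ∧ u = el a b h}
      zero_mem' := ⟨0, 0, N.zero_mem, isHomogeneous_zero _ _ _, isHomogeneous_zero _ _ _, rfl⟩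
      add_mem' := by
        rintro _ _ ⟨a, b, h, ha, hb, rfl⟩ ⟨a', b', h', ha', hb', rfl⟩
        exact ⟨_, _, _, ha.add ha', hb.add hb', el_add h h'⟩
      neg_mem' := by
        rintro _ ⟨a, b, h, ha, hb, rfl⟩
        exact ⟨_, _, _, ha.neg, hb.neg, neg_el h⟩ }
  span u := by
    obtain ⟨a, b, h, rfl⟩ := el_surj u
    have h1 := hN a b h 0
    rw [homogeneousComponent_zero, homogeneousComponent_zero] at h1
    obtain ⟨ha, hb⟩ := h0 _ _ h1
    have key : ∀ (x : Pol B) (n : ℕ), x.totalDegree ≤ n → coeff 0 x = 0 →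
        ∑ i ∈ Finset.range n, homogeneousComponent (i + 1) x = x := fun x n hn hx => by
      have := sum_comp x (N := n + 1) (by omega)
      rwa [Finset.sum_range_succ', homogeneousComponent_zero, hx, map_zero, add_zero] at this
    have e1 := key a (a.totalDegree + b.totalDegree) (by omega) ha
    have e2 := key b (a.totalDegree + b.totalDegree) (by omega) hb
    refine ⟨a.totalDegree + b.totalDegree, fun d => el _ _ (hN a b h (d + 1)),
      fun d => ⟨_, _, _, homogeneousComponent_isHomogeneous _ _,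
        homogeneousComponent_isHomogeneous _ _, rfl⟩, ?_⟩
    rw [sum_el _ _ _ _ (by rw [e1, e2]; exact h), el_eq, e1, e2]
    simp
  indep n c hc h d hd := by
    choose a b hab ha hb e using hc
    obtain rfl : c = _ := funext e
    rw [sum_el _ _ _ _ (by
      have := N.sum_mem (t := Finset.range n) (f := fun i => (a i, b i)) fun i _ => hab i
      convert this using 1
      exact Prod.ext (by rw [Prod.fst_sum]) (by rw [Prod.snd_sum])), el_eq_zero] at h
    have h1 := comp_mem_one hF h.1 (d + 1)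
    have h2 := comp_mem_one hF h.2 (d + 1)
    rw [comp_sum ha hd] at h1
    rw [comp_sum hb hd] at h2
    exact el_eq_zero.mpr ⟨h1, h2⟩
  smul_mem n d c := by
    rintro _ hc ⟨a, b, h, ha, hb, rfl⟩
    exact ⟨_, _, _, by convert hc.mul ha using 1; omega, by convert hc.mul hb using 1; omega,
      smul_el c h⟩

end El

/-- admissible data -/
structure Adm (F l H G : Pol B) : Prop where
  hF : F.IsHomogeneous 6
  hl : l.IsHomogeneous 1
  hH : H.IsHomogeneous 11
  hG : G.IsHomogeneous 11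
  h1 : ∀ a, l * a ∈ Ideal.span {F} → a ∈ Ideal.span {F}
  h2 : ∀ a, H * a ∈ Ideal.span {F, l} → a ∈ Ideal.span {F, l}
  h0 : ∀ a b : B, (C a, C b) ∈ Nt F l H G → a = 0 ∧ b = 0
  lf : ∀ q : Ideal (Pol B), q.IsPrime → (∃ i, X i ∉ q) → ∃ a1 b1 a2 b2 c,
    (a1, b1) ∈ Nt F l H G ∧ (a2, b2) ∈ Nt F l H G ∧ c ∉ q ∧
      a1 * b2 - a2 * b1 - c * l ∈ Ideal.span {F}

namespace Adm

variable {F l H G : Pol B}

theorem comp_mem (h : Adm F l H G) (a b : Pol B) (hab : (a, b) ∈ Nt F l H G) (d : ℕ) :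
    (homogeneousComponent d a, homogeneousComponent d b) ∈ Nt F l H G := by
  have := comp_mem_two h.hF h.hl hab (d + 11)
  rwa [map_add, comp_mul h.hH, comp_mul h.hG] at this

/-- the grading -/
noncomputable def gr (h : Adm F l H G) : Grading B (Qm F (Nt F l H G)) := grad h.hF h.comp_mem h.h0

theorem det_mem (h : Adm F l H G) {a b a' b' : Pol B} (e : (a, b) ∈ Nt F l H G)
    (e' : (a', b') ∈ Nt F l H G) : a * b' - a' * b ∈ Ideal.span {F, l} := by
  apply h.h2
  have := Ideal.sub_mem _ (Ideal.mul_mem_left _ b' (mem_Nt.mp e))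
    (Ideal.mul_mem_left _ b (mem_Nt.mp e'))
  convert this using 1; ring

theorem gen (h : Adm F l H G) {a1 b1 a2 b2 c : Pol B} (n1 : (a1, b1) ∈ Nt F l H G)
    (n2 : (a2, b2) ∈ Nt F l H G) (hc : a1 * b2 - a2 * b1 - c * l ∈ Ideal.span {F})
    (u : Qm F (Nt F l H G)) : ∃ α β : Pol B, c • u = α • el a1 b1 n1 + β • el a2 b2 n2 := by
  obtain ⟨a, b, hab, rfl⟩ := el_surj u
  obtain ⟨α, β, e⟩ := cramer h.h1 hc (h.det_mem hab n2) (h.det_mem n1 hab)
  exact ⟨α, β, by rw [smul_el, smul_el, smul_el, el_add, el_eq]; exact e⟩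

theorem bundle [IsNoetherianRing B] (h : Adm F l H G) :
    IsRankTwoBundle F (Qm F (Nt F l H G)) where
  finite := inferInstance
  kill := kill_el
  locFree q hq hi := by
    obtain ⟨a1, b1, a2, b2, c, n1, n2, hcq, hc⟩ := h.lf q hq hi
    refine ⟨el a1 b1 n1, el a2 b2 n2, fun u => ⟨c, hcq, h.gen n1 n2 hc u⟩, fun α β e => ?_⟩
    rw [smul_el, smul_el, el_add, el_eq_zero] at e
    exact ⟨c, hcq, cramer_indep h.h1 hc e.1 e.2⟩

end Adm

section Fibre

variable [Algebra ℂ B] (t : B →ₐ[ℂ] ℂ) {F l H G : Pol B}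

theorem map_mem_pair {R S : Type} [CommRing R] [CommRing S] (φ : R →+* S) {F l a : R}
    (h : a ∈ Ideal.span {F, l}) : φ a ∈ Ideal.span {φ F, φ l} := by
  obtain ⟨x, y, rfl⟩ := Ideal.mem_span_pair.mp h
  exact Ideal.mem_span_pair.mpr ⟨φ x, φ y, by simp⟩

theorem map_mem_one {R S : Type} [CommRing R] [CommRing S] (φ : R →+* S) {F a : R}
    (h : a ∈ Ideal.span {F}) : φ a ∈ Ideal.span {φ F} := by
  obtain ⟨x, rfl⟩ := Ideal.mem_span_singleton'.mp h
  exact Ideal.mem_span_singleton'.mpr ⟨φ x, by simp⟩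

theorem fibre {F' l' H' G' : Pol ℂ} (h : Adm F l H G) (h' : Adm F' l' H' G')
    (eF : map (t : B →+* ℂ) F = F') (el' : map (t : B →+* ℂ) l = l')
    (eH : map (t : B →+* ℂ) H = H') (eG : map (t : B →+* ℂ) G = G') :
    IsFibre t h.gr h'.gr := by
  subst eF el' eH eG
  set φ : Pol B →+* Pol ℂ := map (t : B →+* ℂ)
  have hs : Function.Surjective φ := map_surjective _ fun c => ⟨algebraMap ℂ B c, by simp⟩
  have hm : ∀ {a b}, (a, b) ∈ Nt F l H G → (φ a, φ b) ∈ Nt (φ F) (φ l) (φ H) (φ G) :=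
    fun hab => by simpa [mem_Nt] using map_mem_pair φ hab
  let θ0 : Nt F l H G →+ Qm (φ F) (Nt (φ F) (φ l) (φ H) (φ G)) :=
    { toFun := fun p => el (φ p.1.1) (φ p.1.2) (hm p.2)
      map_zero' := el_eq_zero.mpr (by simp)
      map_add' := fun p q => by rw [el_add, el_eq]; simp }
  let θ : Qm F (Nt F l H G) →+ Qm (φ F) (Nt (φ F) (φ l) (φ H) (φ G)) :=
    QuotientAddGroup.lift _ θ0 fun p hp => el_eq_zero.mpr ⟨map_mem_one φ hp.1, map_mem_one φ hp.2⟩
  have hθ : ∀ a b hab, θ (el a b hab) = el (φ a) (φ b) (hm hab) := fun _ _ _ => rfl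
  have hsm : ∀ (a : Pol B) u, θ (a • u) = φ a • θ u := fun c u => by
    obtain ⟨a, b, hab, rfl⟩ := el_surj u
    rw [smul_el, hθ, hθ, smul_el, el_eq]; simp
  refine ⟨θ, hsm, ?_, fun m i => ?_, fun u i hu => ?_⟩
  · rintro d _ ⟨a, b, hab, ha, hb, rfl⟩
    exact ⟨_, _, _, ha.map _, hb.map _, hθ a b hab⟩
  · let J : Ideal (Pol ℂ) :=
      { carrier := {c | ∃ u, c • m = θ u}
        zero_mem' := ⟨0, by simp⟩
        add_mem' := by
          rintro _ _ ⟨u, hu⟩ ⟨u', hu'⟩
          exact ⟨u + u', by rw [add_smul, hu, hu', map_add]⟩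
        smul_mem' := by
          rintro c _ ⟨u, hu⟩
          obtain ⟨c, rfl⟩ := hs c
          exact ⟨c • u, by rw [smul_eq_mul, mul_smul, hu, hsm]⟩ }
    refine exists_pow_mem J _ fun q hq hi => ?_
    obtain ⟨a1, b1, a2, b2, c, n1, n2, hcq, hc⟩ := h.lf (q.comap φ) inferInstance
      ⟨i, by simpa [φ] using hi⟩
    obtain ⟨α, β, e⟩ := h'.gen (hm n1) (hm n2) (c := φ c) (by simpa using map_mem_one φ hc) m
    obtain ⟨α, rfl⟩ := hs α
    obtain ⟨β, rfl⟩ := hs β
    exact ⟨φ c, ⟨α • el a1 b1 n1 + β • el a2 b2 n2, by rw [e, map_add, hsm, hsm, hθ, hθ]⟩, hcq⟩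
  · rw [← ker_map]
    refine exists_pow_mem (((RingHom.ker φ) • (⊤ : Submodule (Pol B) _)).comap
      (LinearMap.toSpanSingleton (Pol B) _ u)) _ fun q hq hi => ?_
    obtain ⟨a1, b1, a2, b2, c, n1, n2, hcq, hc⟩ := h.lf q hq ⟨i, hi⟩
    obtain ⟨α, β, e⟩ := h.gen n1 n2 hc u
    have e2 := congrArg θ e
    rw [hsm, hu, smul_zero, map_add, hsm, hsm, hθ, hθ, smul_el, smul_el, el_add, eq_comm,
      el_eq_zero] at e2
    obtain ⟨e3, e4⟩ := cramer_indep h'.h1 (c := φ c) (by simpa using map_mem_one φ hc) e2.1 e2.2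
    have key : ∀ (x : Pol B) (n : Qm F (Nt F l H G)), φ c * φ x ∈ Ideal.span {φ F} →
        (c * x) • n ∈ (RingHom.ker φ) • (⊤ : Submodule (Pol B) _) := fun x n hx => by
      obtain ⟨y, hy⟩ := Ideal.mem_span_singleton'.mp hx
      obtain ⟨y, rfl⟩ := hs y
      have : (c * x) • n = (c * x - y * F) • n := by
        rw [sub_smul, mul_smul y, kill_el, smul_zero, sub_zero]
      rw [this]
      exact Submodule.smul_mem_smul (by simp [RingHom.mem_ker, hy]) trivial
    refine ⟨c * c, ?_, fun hcc => hcq ((hq.mem_or_mem hcc).elim id id)⟩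
    change (c * c) • u ∈ (RingHom.ker φ) • (⊤ : Submodule (Pol B) (Qm F (Nt F l H G)))
    rw [mul_smul, e, smul_add, ← mul_smul, ← mul_smul]
    exact Submodule.add_mem _ (key _ _ e3) (key _ _ e4)

end Fibre

end Pool.Agent.P.MP_2b2d3b_ag
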