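import Pool.Agent.P.MP_2b2d3b_ag.Defs

/-!
The moduli space of stable rank two bundles with `det = O(1)` and `c₂ = 11` on the sextic surface
`S = {F = 0}`.  Coherent sheaves on `S × Spec B` are finitely generated graded modules over
`B[x₀,…,x₃]` killed by `F`, up to modules killed by a power of every variable.
-/

namespace Pool.Agent.P.MP_2b2d3b_ag

open MvPolynomial CategoryTheory AlgebraicGeometry

/-- The equation of `S × Spec B`. -/
noncomputable abbrev bc (F : Pol ℂ) (B : Type) [CommRing B] [Algebra ℂ B] : Pol B :=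
  map (algebraMap ℂ B) F

section Modules

variable {B : Type} [CommRing B] {M : Type} [AddCommGroup M] [Module (Pol B) M]

/-- `Λ² E ≅ O(1)`: there is an alternating pairing `ω : M × M → R(1)`, which is graded and takes a
unit value near every point of `F = 0`.  It is used with `R = B[x]/(F)`. -/
def Grading.HasDet (G : Grading B M) (F : Pol B) (R : Type) [CommRing R] [Algebra (Pol B) R] :
    Prop :=
  ∃ ω : M →ₗ[Pol B] M →ₗ[Pol B] R, (∀ u, ω u u = 0) ∧
    (∀ (d e : ℕ), ∀ u ∈ G.piece d, ∀ v ∈ G.piece e,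
      ∃ b : Pol B, b.IsHomogeneous (d + e + 1) ∧ ω u v = algebraMap (Pol B) R b) ∧
    ∀ q : Ideal (Pol B), q.IsPrime → F ∈ q → (∃ i, X i ∉ q) →
      ∃ (u v : M) (b : Pol B), b ∉ q ∧ ω u v = algebraMap (Pol B) R b

/-- There is a graded map `θ : M → M'` over `φ : B → B'` whose image generates `M'` after inverting
any variable. -/
def Grading.MapsOnto {B' : Type} [CommRing B'] {M' : Type} [AddCommGroup M'] [Module (Pol B') M']
    (φ : B →+* B') (G : Grading B M) (G' : Grading B' M') : Prop :=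
  ∃ θ : M →+ M', (∀ (a : Pol B) (u : M), θ (a • u) = map φ a • θ u) ∧
    (∀ d, ∀ u ∈ G.piece d, θ u ∈ G'.piece d) ∧
    ∀ (u : M') (i : Fin 4), ∃ k : ℕ,
      (X i : Pol B') ^ k • u ∈ Submodule.span (Pol B') (Set.range θ)

/-- Any two elements of `N` are dependent over `B[x]/(F)`. -/
def RankLeOne (F : Pol B) (N : Submodule (Pol B) M) : Prop :=
  ∀ u ∈ N, ∀ v ∈ N, ∃ a b : Pol B, (a ∉ Ideal.span {F} ∨ b ∉ Ideal.span {F}) ∧ a • u + b • v = 0

/-- `ψ` is a traceless endomorphism of degree `e`: whenever `m₁, m₂` are independent over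
`R = B[x]/(F)` and `σ ψ` acts on them by the matrix `(a b; c d)`, the trace `a + d` vanishes in
`R`. -/
structure Grading.End0 (G : Grading B M) (F : Pol B) (e : ℕ) (ψ : M →ₗ[Pol B] M) : Prop where
  deg : ∀ d, ∀ u ∈ G.piece d, ψ u ∈ G.piece (d + e)
  trace : ∀ (m₁ m₂ : M) (σ a b c d : Pol B),
    (∀ x y : Pol B, x • m₁ + y • m₂ = 0 → x ∈ Ideal.span {F} ∧ y ∈ Ideal.span {F}) →
    σ • ψ m₁ = a • m₁ + c • m₂ → σ • ψ m₂ = b • m₁ + d • m₂ → a + d ∈ Ideal.span {F}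

/-- `H²(S, End⁰ E) ≠ 0`, computed by the Čech complex of the affine cover `D(x₁), D(x₂), D(x₃)` of
`S` (the point `(1:0:0:0)` is not on `S`): some section `ψ / (x₁x₂x₃)ⁿ` of `End⁰ E` on the triple
intersection is not a sum of sections `ψ₁ / (x₂x₃)ᵐ + ψ₂ / (x₁x₃)ᵐ + ψ₃ / (x₁x₂)ᵐ`. -/
def Grading.Obstructed (G : Grading B M) (F : Pol B) : Prop :=
  ∃ (n : ℕ) (ψ : M →ₗ[Pol B] M), G.End0 F (3 * n) ψ ∧
    ¬ ∃ (r : ℕ) (ψ₁ ψ₂ ψ₃ : M →ₗ[Pol B] M), G.End0 F (2 * (n + r)) ψ₁ ∧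
      G.End0 F (2 * (n + r)) ψ₂ ∧ G.End0 F (2 * (n + r)) ψ₃ ∧
      (X 1 * X 2 * X 3 : Pol B) ^ r • ψ = (X 1 : Pol B) ^ (n + r) • ψ₁ +
        (X 2 : Pol B) ^ (n + r) • ψ₂ + (X 3 : Pol B) ^ (n + r) • ψ₃

/-- The Hilbert function of a submodule `N`: the complex dimension of its degree `d` part. -/
noncomputable def Grading.hf {M : Type} [AddCommGroup M] [Module (Pol ℂ) M] (G : Grading ℂ M)
    (N : Submodule (Pol ℂ) M) (d : ℕ) : ℕ :=
  letI : Module ℂ M := Module.compHom M (C : ℂ →+* Pol ℂ)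
  Module.finrank ℂ (Submodule.span ℂ {u | u ∈ N ∧ u ∈ G.piece d})

end Modules

/-- A rank two vector bundle `E` on `S × Spec B` with `Λ² E ≅ O(1)`: a graded module that is
locally free of rank two and has a determinant pairing with values in `R(1)`, `R = B[x]/(F)`. -/
structure Bundle (F : Pol ℂ) (B : Type) [CommRing B] [Algebra ℂ B] where
  M : Type
  [grp : AddCommGroup M]
  [mod : Module (Pol B) M]
  gr : Grading B M
  rankTwo : IsRankTwoBundle (bc F B) M
  det : gr.HasDet (bc F B) (Pol B ⧸ Ideal.span {bc F B})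

attribute [instance] Bundle.grp Bundle.mod

variable {F : Pol ℂ}

/-- `E'` is the pullback of `E` along `φ : B → B'`: there is a graded map `θ` over `φ` whose image
generates `E'` after inverting any variable.  It induces a surjection `φ^* E → E'` of rank two
bundles, that is, an isomorphism. -/
def IsPull {B B' : Type} [CommRing B] [Algebra ℂ B] [CommRing B'] [Algebra ℂ B']
    (φ : B →ₐ[ℂ] B') (E : Bundle F B) (E' : Bundle F B') : Prop :=
  Grading.MapsOnto (φ : B →+* B') E.gr E'.gr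

/-- The Hilbert function of a submodule of the module of `E`. -/
noncomputable def Bundle.hf (E : Bundle F ℂ) (N : Submodule (Pol ℂ) E.M) (d : ℕ) : ℕ :=
  E.gr.hf N d

/-- `c₂(E) = 11`: by Riemann-Roch, `χ(E(d)) = 6 d² - 6 d + 19 - c₂` when `det E = O(1)`. -/
def Bundle.HasC2 (E : Bundle F ℂ) : Prop :=
  ∀ᶠ d in Filter.atTop, E.hf ⊤ d + 6 * d = 6 * d ^ 2 + 8

/-- Slope stability: for every subsheaf `N` of rank at most one (any two sections are dependent
over `R`), `χ(E(d)) - 2 χ(N(d))` tends to `+∞`, that is `μ(N) < μ(E)`. -/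
def Bundle.Stable (E : Bundle F ℂ) : Prop :=
  ∀ N : Submodule (Pol ℂ) E.M, RankLeOne (bc F ℂ) N →
    ∀ c : ℕ, ∀ᶠ d in Filter.atTop, 2 * E.hf N d + c ≤ E.hf ⊤ d

/-- A family over `B` of stable rank two bundles with `det = O(1)` and `c₂ = 11`. -/
structure Family (F : Pol ℂ) (B : Type) [CommRing B] [Algebra ℂ B] extends Bundle F B where
  fibre : ∀ t : B →ₐ[ℂ] ℂ, ∃ E : Bundle F ℂ, IsPull t toBundle E ∧ E.Stable ∧ E.HasC2

/-- An étale cover of `Spec B`. -/
def IsCover {B B' : Type} [CommRing B] [Algebra ℂ B] [CommRing B'] [Algebra ℂ B']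
    (ψ : B →ₐ[ℂ] B') : Prop :=
  (ψ : B →+* B').Etale ∧ (ψ : B →+* B').FaithfullyFlat

/-- The moduli space `𝓜(H, 11)` with its scheme structure: a scheme locally of finite type over `ℂ`
that represents the étale sheafification of the functor of families up to isomorphism.  `cl B E` is
the classifying map of the family `E`. -/
structure ModuliSpace (F : Pol ℂ) where
  M : Scheme.{0}
  π : M ⟶ Spec (.of ℂ)
  lft : LocallyOfFiniteType π
  cl : ∀ (B : Type) [CommRing B] [Algebra ℂ B] [Algebra.FiniteType ℂ B],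
    Family F B → (Spec (.of B) ⟶ M)
  overC : ∀ (B : Type) [CommRing B] [Algebra ℂ B] [Algebra.FiniteType ℂ B] (E : Family F B),
    cl B E ≫ π = Spec.map (CommRingCat.ofHom (algebraMap ℂ B))
  natural : ∀ (B B' : Type) [CommRing B] [Algebra ℂ B] [Algebra.FiniteType ℂ B]
    [CommRing B'] [Algebra ℂ B'] [Algebra.FiniteType ℂ B'] (φ : B →ₐ[ℂ] B')
    (E : Family F B) (E' : Family F B'), IsPull φ E.toBundle E'.toBundle →
    cl B' E' = Spec.map (CommRingCat.ofHom (φ : B →+* B')) ≫ cl B E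
  locInj : ∀ (B : Type) [CommRing B] [Algebra ℂ B] [Algebra.FiniteType ℂ B]
    (E₁ E₂ : Family F B), cl B E₁ = cl B E₂ →
    ∃ (B' : Type) (_ : CommRing B') (_ : Algebra ℂ B') (ψ : B →ₐ[ℂ] B') (E' : Bundle F B'),
      IsCover ψ ∧ IsPull ψ E₁.toBundle E' ∧ IsPull ψ E₂.toBundle E'
  locSurj : ∀ (B : Type) [CommRing B] [Algebra ℂ B] [Algebra.FiniteType ℂ B]
    (f : Spec (.of B) ⟶ M), f ≫ π = Spec.map (CommRingCat.ofHom (algebraMap ℂ B)) →
    ∃ (B' : Type) (_ : CommRing B') (_ : Algebra ℂ B') (_ : Algebra.FiniteType ℂ B')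
      (ψ : B →ₐ[ℂ] B') (E' : Family F B'),
      IsCover ψ ∧ cl B' E' = Spec.map (CommRingCat.ofHom (ψ : B →+* B')) ≫ f

/-- The point of the moduli space given by a bundle on `S`. -/
noncomputable def ModuliSpace.pt (𝓜 : ModuliSpace F) (E : Family F ℂ) : 𝓜.M :=
  𝓜.cl ℂ E (IsLocalRing.closedPoint ℂ)

/-- `𝓕₁`: extensions with `P` on a twisted cubic, which is `y₀ y₂ = y₁², y₀ y₃ = y₁ y₂,
y₁ y₃ = y₂²` in some linear coordinates `y = g x`. -/
def ModuliSpace.F₁ (𝓜 : ModuliSpace F) : Set 𝓜.M :=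
  {x | ∃ (E : Family F ℂ) (I : Ideal (Pol ℂ)) (g : Matrix (Fin 4) (Fin 4) ℂ),
    IsExtension (bc F ℂ) E.gr I ∧ g.det ≠ 0 ∧
    linForm (g 0) * linForm (g 2) - linForm (g 1) ^ 2 ∈ I ∧
    linForm (g 0) * linForm (g 3) - linForm (g 1) * linForm (g 2) ∈ I ∧
    linForm (g 1) * linForm (g 3) - linForm (g 2) ^ 2 ∈ I ∧ 𝓜.pt E = x}

/-- `𝓕₂`: extensions with `P` in a plane `∑ cᵢ xᵢ = 0` with `c ≠ 0` in the set `U`. -/
def ModuliSpace.F₂ (𝓜 : ModuliSpace F) (U : Set (Fin 4 → ℂ)) : Set 𝓜.M :=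
  {x | ∃ (E : Family F ℂ) (I : Ideal (Pol ℂ)) (c : Fin 4 → ℂ),
    IsExtension (bc F ℂ) E.gr I ∧ c ∈ U ∧ c ≠ 0 ∧ linForm c ∈ I ∧ 𝓜.pt E = x}

/-- `H²(S, End⁰ E) ≠ 0`. -/
def Bundle.Obstructed (E : Bundle F ℂ) : Prop := E.gr.Obstructed (bc F ℂ)

end Pool.Agent.P.MP_2b2d3b_ag
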