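import Pool.Agent.P.MP_2b2d3b_ag.StN

/-!
Package H1: the first cohomology of a line bundle on the sextic has finite length.
-/

namespace Pool.Agent.P.MP_2b2d3b_ag

open MvPolynomial Matrix

namespace NH1P

section Alg

variable {Q : Type} [CommRing Q] {n κ : Type} [Fintype n] [Fintype κ] [DecidableEq κ]
  {Φ : Fin 3 → Fin 3 → Matrix n n Q} {τ : Fin 3 → Matrix κ n Q} {υ : Fin 3 → Matrix n κ Q}

theorem alg_rel (hT : ∀ i j, τ j = τ i * Φ i j) (hU : ∀ i, υ i * τ i = Φ i i) (k i : Fin 3) :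
    (τ k * υ k - 1) * τ i = 0 := by
  rw [hT k i, ← Matrix.mul_assoc, Matrix.sub_mul, Matrix.mul_assoc (τ k), hU, ← hT, Matrix.one_mul,
    sub_self, Matrix.zero_mul]

theorem alg_key (hΦ : ∀ i j l, Φ i j * Φ j l = Φ i l) (hT : ∀ i j, τ j = τ i * Φ i j)
    (hU : ∀ i, υ i * τ i = Φ i i) {ζ : Fin 3 → Fin 3 → n → Q} {ω : Fin 3 → κ → Q}
    (hz : ∀ i j, ζ i j = Φ i i *ᵥ ζ i j) (hc : ∀ i j, τ i *ᵥ ζ i j = ω i - ω j)
    (hq : ∀ i, (τ i * υ i - 1) *ᵥ ω i = 0) (i j : Fin 3) :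
    ζ i j = Φ i i *ᵥ (υ i *ᵥ ω i) - Φ i j *ᵥ (Φ j j *ᵥ (υ j *ᵥ ω j)) := by
  have h1 : ∀ i, τ i *ᵥ (υ i *ᵥ ω i) = ω i := fun i => by
    have := hq i
    rwa [Matrix.sub_mulVec, Matrix.one_mulVec, sub_eq_zero, ← Matrix.mulVec_mulVec] at this
  have h2 : Φ i j = υ i * τ j := by rw [hT i j, ← Matrix.mul_assoc, hU, hΦ]
  rw [Matrix.mulVec_mulVec (υ j *ᵥ ω j), hΦ, h2, hz i j, ← hU i]
  simp only [← Matrix.mulVec_mulVec, h1, hc, Matrix.mulVec_sub]

end Alg

section Lin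

theorem fin_span {E G : Type} [AddCommGroup E] [Module ℂ E] [AddCommGroup G] [Module ℂ G]
    (W : Submodule ℂ E) (p : E →ₗ[ℂ] G) (G' : Submodule ℂ G) (hG : G'.FG)
    (h : ∀ x ∈ W, p x ∈ G') : ∃ (L : ℕ) (U : Fin L → E), (∀ r, U r ∈ W) ∧
      ∀ x ∈ W, ∃ c : Fin L → ℂ, p (x - ∑ r, c r • U r) = 0 := by
  obtain ⟨L, s, hs⟩ := Submodule.fg_iff_exists_fin_generating_family.mp
    (hG.of_le (S := W.map p) (by rintro _ ⟨x, hx, rfl⟩; exact h x hx))
  have : ∀ r, ∃ x ∈ W, p x = s r := fun r =>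
    Submodule.mem_map.mp (hs ▸ Submodule.subset_span ⟨r, rfl⟩)
  choose U hU hU' using this
  refine ⟨L, U, hU, fun x hx => ?_⟩
  obtain ⟨c, hc⟩ := (Submodule.mem_span_range_iff_exists_fun ℂ).mp
    (hs ▸ Submodule.mem_map_of_mem hx : p x ∈ Submodule.span ℂ (Set.range s))
  exact ⟨c, by simp only [map_sub, map_sum, map_smul, hU', hc, sub_self]⟩

theorem pad {V : Type} [AddCommGroup V] [Module ℂ V] (Z B : V → Prop) {L L' : ℕ} (hL : L ≤ L')
    (h : ∃ U : Fin L → V, ∀ z, Z z → ∃ c : Fin L → ℂ, B (z - ∑ r, c r • U r)) :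
    ∃ U : Fin L' → V, ∀ z, Z z → ∃ c : Fin L' → ℂ, B (z - ∑ r, c r • U r) := by
  induction L', hL using Nat.le_induction with
  | base => exact h
  | succ L' _ ih =>
    obtain ⟨U, hU⟩ := ih
    refine ⟨Fin.cons 0 U, fun z hz => ?_⟩
    obtain ⟨c, hc⟩ := hU z hz
    exact ⟨Fin.cons 0 c, by simpa [Fin.sum_univ_succ] using hc⟩

/-- the grading of a free module -/
noncomputable def gN (ι : Type) [Fintype ι] : Grading ℂ (ι → Pol ℂ) where
  piece d :=
    { carrier := {v | ∀ p, (v p).IsHomogeneous d}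
      zero_mem' := fun _ => isHomogeneous_zero _ _ _
      add_mem' := fun h h' p => (h p).add (h' p)
      neg_mem' := fun h p => (h p).neg }
  span v := ⟨(∑ p, (v p).totalDegree) + 1, fun d p => homogeneousComponent d (v p),
    fun d p => homogeneousComponent_isHomogeneous d _, funext fun p => by
      rw [Finset.sum_apply, sum_comp _ (Nat.lt_succ_of_le (Finset.single_le_sum
        (f := fun p => (v p).totalDegree) (fun _ _ => Nat.zero_le _) (Finset.mem_univ p)))]⟩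
  indep N c hc h d hd := funext fun p => by
    have := congrArg (homogeneousComponent d) (congrFun h p)
    rw [Finset.sum_apply, map_sum, Finset.sum_eq_single d,
      homogeneousComponent_eq_self (hc d p), Pi.zero_apply, map_zero] at this
    · exact this
    · intro i _ hi
      rw [homogeneousComponent_of_mem (hc i p), if_neg hi.symm]
    · intro h; exact absurd (Finset.mem_range.mpr hd) h
  smul_mem n d a v ha hv p := add_comm n d ▸ ha.mul (hv p)

/-- elements killed modulo `S` by a power of each variable -/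
def tor {N : Type} [AddCommGroup N] [Module (Pol ℂ) N] (S : Submodule (Pol ℂ) N) :
    Submodule (Pol ℂ) N where
  carrier := {v | ∀ i : Fin 4, ∃ k : ℕ, (X i : Pol ℂ) ^ k • v ∈ S}
  zero_mem' i := ⟨0, by simp⟩
  add_mem' := fun {u v} hu hv i => by
    obtain ⟨k, hk⟩ := hu i
    obtain ⟨l, hl⟩ := hv i
    refine ⟨k + l, ?_⟩
    rw [smul_add]
    refine add_mem ?_ ?_
    · rw [add_comm, pow_add, mul_smul]; exact S.smul_mem _ hk
    · rw [pow_add, mul_smul]; exact S.smul_mem _ hl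
  smul_mem' a v hv i := by
    obtain ⟨k, hk⟩ := hv i
    exact ⟨k, by rw [smul_comm]; exact S.smul_mem _ hk⟩

theorem large {ι : Type} [Fintype ι] (S : Submodule (Pol ℂ) (ι → Pol ℂ)) :
    ∃ d0, ∀ d ≥ d0, ∀ v ∈ tor S, (∀ p, (v p).IsHomogeneous d) → v ∈ S := by
  obtain ⟨d0, h⟩ := (gN ι).large ((gN ι).sub (fun _ => (tor S).toAddSubgroup)
    fun _ _ a _ _ _ hu => (tor S).smul_mem a hu) S (IsNoetherian.noetherian _)
    fun u hu e i => (gN ι).mem_sub.mp hu e i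
  exact ⟨d0, fun d hd v hv hh => h d hd v ((Grading.mem_sub_of_mem (G := gN ι) hh).mpr hv) hh⟩

theorem mem_tor {N : Type} [AddCommGroup N] [Module (Pol ℂ) N] {S : Submodule (Pol ℂ) N}
    {F : Pol ℂ} (hF : Mn F 6) {v : N} (h0 : F • v ∈ S)
    (h : ∀ i : Fin 3, ∃ k : ℕ, (X i.succ : Pol ℂ) ^ k • v ∈ S) : v ∈ tor S := by
  classical
  intro i
  refine Fin.cases ?_ h i
  let I : Ideal (Pol ℂ) := S.comap (LinearMap.toSpanSingleton (Pol ℂ) N v)
  have h1 : Ideal.span (X '' {i : Fin 4 | i ≠ 0}) ≤ I.radical := by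
    rw [Ideal.span_le]
    rintro _ ⟨i, hi, rfl⟩
    obtain ⟨j, rfl⟩ := Fin.exists_succ_eq.mpr hi
    exact h j
  have h2 : F - monomial (Finsupp.single 0 6) (coeff (Finsupp.single 0 6) F) ∈
      Ideal.span (X '' {i : Fin 4 | i ≠ 0}) := by
    rw [mem_ideal_span_X_image]
    intro m hm
    by_contra hn
    push Not at hn
    rw [mem_support_iff, coeff_sub, coeff_monomial] at hm
    by_cases e : Finsupp.single 0 6 = m
    · rw [if_pos e, e, sub_self] at hm
      exact hm rfl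
    · rw [if_neg e, sub_zero] at hm
      have h3 : m.degree = 6 := by
        by_contra h3
        exact hm (hF.hom.coeff_eq_zero h3)
      rw [Finsupp.degree_eq_sum, Fin.sum_univ_four, hn 1 (by simp), hn 2 (by simp),
        hn 3 (by simp)] at h3
      refine e (Finsupp.ext fun i => ?_)
      by_cases hi : i = 0
      · subst hi; simpa using h3.symm
      · rw [hn i hi, Finsupp.single_eq_of_ne hi]
  have h3 := I.radical.sub_mem (Ideal.le_radical (show F ∈ I from h0)) (h1 h2)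
  rw [sub_sub_cancel, ← C_mul_X_pow_eq_monomial] at h3
  exact Ideal.mem_radical_of_pow_mem ((Ideal.unit_mul_mem_iff_mem _ (hF.unit.map C)).mp h3)

end Lin

variable {n κ : Type} [Fintype n] [DecidableEq n] [Fintype κ] [DecidableEq κ]

section Pr

variable {A Q : Type} [CommRing A] [CommRing Q] (π : A →+* Q)

omit [DecidableEq n] [DecidableEq κ] [Fintype κ] in
theorem pr_mv (M : Matrix κ n A) (v : n → A) :
    π ∘ (M *ᵥ v) = M.map π *ᵥ (π ∘ v) := funext (RingHom.map_mulVec _ M v)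

omit [DecidableEq n] [Fintype n] in
theorem pr_sub (u v : n → A) : π ∘ (u - v) = π ∘ u - π ∘ v :=
  funext fun _ => map_sub _ _ _

omit [DecidableEq n] [Fintype n] in
theorem pr_add (u v : n → A) : π ∘ (u + v) = π ∘ u + π ∘ v :=
  funext fun _ => map_add _ _ _

omit [DecidableEq n] [Fintype n] in
theorem pr_iff {π : A →+* Q} {J : Ideal A} (h : ∀ a b, a - b ∈ J ↔ π a = π b) {u v : n → A} :
    (∀ a, u a - v a ∈ J) ↔ π ∘ u = π ∘ v := by
  simp only [funext_iff, Function.comp_apply, h]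

theorem exists_quot (J : Ideal A) : ∃ (Q : Type) (_ : CommRing Q) (π : A →+* Q),
    ∀ a b, a - b ∈ J ↔ π a = π b :=
  ⟨A ⧸ J, inferInstance, Ideal.Quotient.mk J, fun _ _ => Ideal.Quotient.eq.symm⟩

end Pr

omit [DecidableEq n] [DecidableEq κ] [Fintype κ] in
theorem mv_mem {S : Finset (Fin 3)} {d e : ℤ} {A : Matrix κ n (Lr ℂ)} {v : n → Lr ℂ}
    (hA : ∀ b a, A b a ∈ T ℂ S d) (hv : ∀ a, v a ∈ T ℂ S e) (b : κ) :
    (A *ᵥ v) b ∈ T ℂ S (d + e) :=
  Submodule.sum_mem _ fun a _ => T_mul (hA b a) (hv a)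

/-- the standing hypotheses -/
structure Dat {Q : Type} [CommRing Q] (π : Lr ℂ →+* Q) (F : Pol ℂ)
    (φ : Fin 3 → Fin 3 → Matrix n n (Lr ℂ)) (δ : ℤ)
    (t : Fin 3 → Matrix κ n (Lr ℂ)) (u : Fin 3 → Matrix n κ (Lr ℂ)) (M : ℕ)
    (g : Fin 3 × κ → κ → Pol ℂ) : Prop where
  ker : ∀ a b, a - b ∈ Ideal.span {io ℂ F} ↔ π a = π b
  ent : Ent (R0 ℂ) φ
  tm : ∀ i b a, t i b a ∈ T ℂ {i} δ
  um : ∀ i a b, u i a b ∈ T ℂ {i} (-δ)
  hΦ : ∀ i j l, (φ i j).map π * (φ j l).map π = (φ i l).map π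
  hT : ∀ i j, (t j).map π = (t i).map π * (φ i j).map π
  hU : ∀ i, (u i).map π * (t i).map π = (φ i i).map π
  gh : ∀ p b, (g p b).IsHomogeneous M
  gio : ∀ i c b, io ℂ (g (i, c) b) = xv ℂ i M * (t i * u i - 1 : Matrix κ κ (Lr ℂ)) c b

/-- the space of triples -/
abbrev Tr (n κ : Type) : Type :=
  (Fin 3 → Fin 3 → n → Lr ℂ) × (Fin 3 → κ → Lr ℂ) × (Fin 3 × κ → Pol ℂ)

/-- the relations between a cocycle, its splitting and its class -/
structure Rel (F : Pol ℂ) (φ : Fin 3 → Fin 3 → Matrix n n (Lr ℂ)) (t : Fin 3 → Matrix κ n (Lr ℂ))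
    (g : Fin 3 × κ → κ → Pol ℂ) (d : ℤ) (D : ℕ) (x : Tr n κ) : Prop where
  z : ∀ i j a, x.1 i j a - (φ i i *ᵥ x.1 i j) a ∈ Ideal.span {io ℂ F}
  w : ∀ i b, x.2.1 i b ∈ T ℂ {i} d
  c : ∀ i j b, (t i *ᵥ x.1 i j) b - (x.2.1 i b - x.2.1 j b) ∈ Ideal.span {io ℂ F}
  q : ∀ p i, io ℂ (x.2.2 p) - ∑ b, io ℂ (g p b) * x.2.1 i b ∈ Ideal.span {io ℂ F}
  h : ∀ p, (x.2.2 p).IsHomogeneous D

/-- the triples form a subspace -/
noncomputable def W (F : Pol ℂ) (φ : Fin 3 → Fin 3 → Matrix n n (Lr ℂ))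
    (t : Fin 3 → Matrix κ n (Lr ℂ)) (g : Fin 3 × κ → κ → Pol ℂ) (d : ℤ) (D : ℕ) :
    Submodule ℂ (Tr n κ) where
  carrier := {x | Rel F φ t g d D x}
  zero_mem' := ⟨by simp, by simp, by simp, by simp, fun _ => isHomogeneous_zero _ _ _⟩
  add_mem' := fun {x y} hx hy => by
    refine ⟨fun i j a => ?_, fun i b => add_mem (hx.w i b) (hy.w i b), fun i j b => ?_,
      fun p i => ?_, fun p => (hx.h p).add (hy.h p)⟩
    · convert add_mem (hx.z i j a) (hy.z i j a) using 1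
      simp only [Prod.fst_add, Pi.add_apply, Matrix.mulVec_add]
      ring
    · convert add_mem (hx.c i j b) (hy.c i j b) using 1
      simp only [Prod.fst_add, Prod.snd_add, Pi.add_apply, Matrix.mulVec_add]
      ring
    · convert add_mem (hx.q p i) (hy.q p i) using 1
      simp only [Prod.fst_add, Prod.snd_add, Pi.add_apply, map_add, mul_add,
        Finset.sum_add_distrib]
      ring
  smul_mem' r x hx := by
    refine ⟨fun i j a => ?_, fun i b => Submodule.smul_mem _ r (hx.w i b), fun i j b => ?_,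
      fun p i => ?_, fun p => (homogeneousSubmodule _ ℂ D).smul_mem r (hx.h p)⟩
    · convert Submodule.smul_of_tower_mem _ r (hx.z i j a) using 1
      simp only [Prod.smul_fst, Pi.smul_apply, Matrix.mulVec_smul, smul_sub]
    · convert Submodule.smul_of_tower_mem _ r (hx.c i j b) using 1
      simp only [Prod.smul_fst, Prod.smul_snd, Pi.smul_apply, Matrix.mulVec_smul, smul_sub]
    · convert Submodule.smul_of_tower_mem _ r (hx.q p i) using 1
      simp only [Prod.smul_fst, Prod.smul_snd, Pi.smul_apply, map_smul, smul_sub, mul_smul_comm,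
        Finset.smul_sum]

variable {Q : Type} [CommRing Q] {π : Lr ℂ →+* Q} {F : Pol ℂ}
  {φ : Fin 3 → Fin 3 → Matrix n n (Lr ℂ)} {δ : ℤ}
  {t : Fin 3 → Matrix κ n (Lr ℂ)} {u : Fin 3 → Matrix n κ (Lr ℂ)} {M : ℕ}
  {g : Fin 3 × κ → κ → Pol ℂ}

omit [DecidableEq n] in
theorem Dat.sum (h : Dat π F φ δ t u M g) (k : Fin 3) (c : κ) (w : κ → Lr ℂ) :
    π (∑ b, io ℂ (g (k, c) b) * w b) = π (xv ℂ k M) *
      (((t k).map π * (u k).map π - 1) *ᵥ (π ∘ w)) c := by
  have : (t k).map π * (u k).map π - 1 = (t k * u k - 1).map π := by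
    rw [Matrix.map_sub _ (map_sub _), Matrix.map_mul, Matrix.map_one _ (map_zero _) (map_one _)]
  rw [this, ← RingHom.map_mulVec, ← map_mul]
  simp only [h.gio, Matrix.mulVec, dotProduct, Finset.mul_sum, mul_assoc]

omit [DecidableEq n] in
theorem Dat.key (h : Dat π F φ δ t u M g) {e : ℤ} {D : ℕ} {x : Tr n κ}
    (hx : Rel F φ t g (δ + e) D x) (h0 : x.2.2 = 0) : B1 (io ℂ F) φ e x.1 := by
  refine ⟨fun i => φ i i *ᵥ (u i *ᵥ x.2.1 i), fun i a => ?_, fun i j => ?_⟩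
  · have := mv_mem (S := {i}) (d := 0) (A := φ i i)
      (fun a b => by simpa [mem_R0] using h.ent i i a b) (mv_mem (h.um i) (hx.w i)) a
    rwa [show 0 + (-δ + (δ + e)) = e by ring] at this
  · refine (pr_iff h.ker (u := x.1 i j) (v := _ - _)).mpr ?_
    simp only [pr_sub, pr_mv]
    refine alg_key (ζ := fun i j => π ∘ x.1 i j) (ω := fun i => π ∘ x.2.1 i) h.hΦ h.hT h.hU
      (fun i j => ?_) (fun i j => ?_) (fun i => funext fun c => ?_) i j
    · rw [← pr_mv]; exact (pr_iff h.ker).mp (hx.z i j)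
    · rw [← pr_mv, ← pr_sub]; exact (pr_iff h.ker).mp (hx.c i j)
    · have h1 := (h.ker _ _).mp (hx.q (i, c) i)
      rw [h.sum, h0, Pi.zero_apply, map_zero, map_zero] at h1
      have h2 : π (xv ℂ i (-M)) * π (xv ℂ i M) = 1 := by
        rw [← map_mul, ← xv_add, neg_add_cancel, xv_zero, map_one]
      rw [Pi.zero_apply, ← one_mul (Matrix.mulVec _ _ c), ← h2, mul_assoc, ← h1, mul_zero]

omit [DecidableEq n] in
theorem Dat.ex (h : Dat π F φ δ t u M g) (hd : CDiv F 6) {e : ℤ} {z : Fin 3 → Fin 3 → n → Lr ℂ}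
    (hz : Z1 (io ℂ F) φ e z) : ∃ w q, Rel F φ t g (δ + e) (M + (δ + e)).toNat (z, w, q) ∧
      (M + (δ + e) < 0 → q = 0) := by
  have h1 : ∀ i j l, π ∘ (t i *ᵥ z i l) = π ∘ (t i *ᵥ z i j + t j *ᵥ z j l) := by
    intro i j l
    have := (pr_iff h.ker (u := z i l) (v := z i j + φ i j *ᵥ z j l)).mp (hz.2.2 i j l)
    simp only [pr_add, pr_mv] at this ⊢
    rw [this, Matrix.mulVec_add, Matrix.mulVec_mulVec, ← h.hT]
  have h2 := fun b => hd.h1 (δ + e) (fun i j => (t i *ᵥ z i j) b)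
    (fun i j => mv_mem (fun b a => T_mono (by simp) _ (h.tm i b a)) (hz.1 i j) b)
    fun i j l => (pr_iff h.ker).mpr (h1 i j l) b
  choose w hw hw' using h2
  have h3 := fun p : Fin 3 × κ => hd.h0 (M + (δ + e)) (fun i => ∑ b, io ℂ (g p b) * w b i)
    (fun i => Submodule.sum_mem _ fun b _ => T_mul (io_mem (h.gh p b) _) (hw b i)) fun i j => by
      have a1 := (pr_iff h.ker (u := t i *ᵥ z i j) (v := (fun b => w b i) - fun b => w b j)).mp
        fun b => hw' b i j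
      rw [pr_sub, pr_mv] at a1
      rw [h.ker, h.sum p.1 p.2 fun b => w b i, h.sum p.1 p.2 fun b => w b j,
        ← sub_eq_zero, ← mul_sub, ← Pi.sub_apply, ← Matrix.mulVec_sub, ← a1, Matrix.mulVec_mulVec,
        alg_rel h.hT h.hU, Matrix.zero_mulVec, Pi.zero_apply, mul_zero]
  choose q hq1 hq2 hq3 using h3
  refine ⟨fun i b => w b i, q, ⟨hz.2.1, fun i b => hw b i, fun i j b => hw' b i j, hq3,
    fun p => ?_⟩, fun h0 => funext fun p => hq2 p h0⟩
  by_cases h0 : M + (δ + e) < 0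
  · change (q p).IsHomogeneous _
    rw [hq2 p h0]
    exact isHomogeneous_zero _ _ _
  · exact hq1 p _ (Int.toNat_of_nonneg (not_lt.mp h0))

omit [DecidableEq n] in
theorem Dat.mid (h : Dat π F φ δ t u M g) (hd : CDiv F 6) (e : ℤ) : ∃ (L : ℕ)
    (U : Fin L → Fin 3 → Fin 3 → n → Lr ℂ), ∀ z, Z1 (io ℂ F) φ e z →
      ∃ c : Fin L → ℂ, B1 (io ℂ F) φ e (z - ∑ r, c r • U r) := by
  obtain ⟨L, U, hU, hL⟩ := fin_span (W F φ t g (δ + e) (M + (δ + e)).toNat)
    ((LinearMap.snd ℂ _ _).comp (LinearMap.snd ℂ _ _))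
    (Submodule.pi Set.univ fun _ => homogeneousSubmodule (Fin 4) ℂ (M + (δ + e)).toNat)
    (Submodule.fg_pi fun _ => homogeneousSubmodule_fg _ _ _) fun x hx p _ => hx.h p
  refine ⟨L, fun r => (U r).1, fun z hz => ?_⟩
  obtain ⟨w, q, hx, -⟩ := h.ex hd hz
  obtain ⟨c, hc⟩ := hL _ hx
  have := h.key (Submodule.sub_mem (W F φ t g (δ + e) (M + (δ + e)).toNat) hx
    (Submodule.sum_mem _ fun r _ => Submodule.smul_mem _ (c r) (hU r))) hc
  exact ⟨c, by simpa only [Prod.fst_sub, Prod.fst_sum, Prod.smul_fst] using this⟩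

/-- the submodule generated by the relations -/
def SS (F : Pol ℂ) (g : Fin 3 × κ → κ → Pol ℂ) : Submodule (Pol ℂ) (Fin 3 × κ → Pol ℂ) where
  carrier := {v | ∃ m : κ → Pol ℂ, ∀ p, v p - ∑ b, m b * g p b ∈ Ideal.span {F}}
  zero_mem' := ⟨0, by simp⟩
  add_mem' := by
    rintro x y ⟨m, hm⟩ ⟨m', hm'⟩
    refine ⟨m + m', fun p => ?_⟩
    convert add_mem (hm p) (hm' p) using 1
    simp only [Pi.add_apply, add_mul, Finset.sum_add_distrib]
    ring
  smul_mem' := by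
    rintro r x ⟨m, hm⟩
    refine ⟨r • m, fun p => ?_⟩
    convert Ideal.mul_mem_left _ r (hm p) using 1
    simp only [Pi.smul_apply, smul_eq_mul, mul_sub, Finset.mul_sum, mul_assoc]

theorem clear_fam (hc : S_Clear) {ι : Type} [Fintype ι] (k : ι → Fin 3) {e : ℤ} (p : ι → Lr ℂ)
    (hp : ∀ j, p j ∈ T ℂ {k j} e) : ∃ (K : ℕ) (m : ι → Pol ℂ),
      ∀ j, io ℂ (m j) = xv ℂ (k j) K * p j ∧ ∀ d : ℕ, (d : ℤ) = e + K → (m j).IsHomogeneous d := by
  choose K hK using fun j => hc ℂ _ e (p j) (k j) (hp j)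
  have := fun j => exists_io (B := ℂ) (e := e + (∑ j, K j : ℕ))
    (p := xv ℂ (k j) (∑ j, K j : ℕ) * p j) (by
      simpa only [Finset.erase_singleton] using hK j _ (Finset.single_le_sum (f := K)
        (fun _ _ => Nat.zero_le _) (Finset.mem_univ j)))
  choose m h1 h2 _ using this
  exact ⟨_, m, fun j => ⟨h1 j, h2 j⟩⟩

omit [DecidableEq n] in
theorem Dat.high (h : Dat π F φ δ t u M g) (hF : Mn F 6) (hd : CDiv F 6) (hc : S_Clear) :
    ∃ b : ℤ, ∀ e, b < e → ∀ z, Z1 (io ℂ F) φ e z → B1 (io ℂ F) φ e z := by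
  obtain ⟨d0, hd0⟩ := large (SS F g)
  refine ⟨d0 - δ, fun e he z hz => ?_⟩
  obtain ⟨w, q, hx, -⟩ := h.ex hd hz
  obtain ⟨d, hde⟩ : ∃ d : ℕ, δ + e = d := ⟨(δ + e).toNat, by omega⟩
  have hD : (M + (δ + e)).toNat = d + M := by omega
  rw [hD] at hx
  have h1 : q ∈ tor (SS F g) := by
    refine mem_tor hF ⟨0, fun p => by simpa using Ideal.mem_span_singleton.mpr ⟨_, rfl⟩⟩
      fun i => ?_
    obtain ⟨K, m, hm⟩ := clear_fam hc (fun _ : κ => i) (w i) (hx.w i)
    refine ⟨K, m, fun p => hd.pol _ ?_⟩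
    have a1 : io ℂ (q p) - ∑ b, io ℂ (g p b) * w i b ∈ Ideal.span {io ℂ F} := hx.q p i
    have a2 : io ℂ (X i.succ ^ K * q p - ∑ b, m b * g p b) =
        xv ℂ i K * (io ℂ (q p) - ∑ b, io ℂ (g p b) * w i b) := by
      rw [map_sub, map_mul, map_pow, map_sum, io_X_succ, xv_pow, mul_one, mul_sub, Finset.mul_sum]
      refine congrArg _ (Finset.sum_congr rfl fun b _ => ?_)
      rw [map_mul, (hm b).1, mul_assoc, mul_comm (w i b)]
    exact a2 ▸ Ideal.mul_mem_left _ _ a1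
  obtain ⟨m, hm⟩ := hd0 _ (by omega) q h1 hx.h
  refine h.key (D := 0) (x := (z, fun i b => w i b - io ℂ (homogeneousComponent d (m b)), 0))
    ⟨hx.z, fun i b => sub_mem (hx.w i b)
      (hde ▸ io_mem (homogeneousComponent_isHomogeneous d (m b)) _), fun i j b => ?_,
      fun p i => ?_, fun p => isHomogeneous_zero _ _ _⟩ rfl
  · simpa only [sub_sub_sub_cancel_right] using hx.c i j b
  · have h2 := comp_mem_one hF.hom (hm p) (d + M)
    rw [map_sub, map_sum, homogeneousComponent_eq_self (hx.h p),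
      Finset.sum_congr rfl fun b _ => comp_mul (h.gh p b) (m b) d] at h2
    have h3 := Ideal.mem_map_of_mem (io ℂ) h2
    rw [Ideal.map_span, Set.image_singleton] at h3
    convert sub_mem (hx.q p i) h3 using 1
    simp only [Pi.zero_apply, map_zero, map_sub, map_sum, map_mul, mul_sub, Finset.sum_sub_distrib,
      mul_comm]
    ring

end NH1P

open NH1P in
theorem h1 (hdiv : S_CDiv) (hc : S_Clear) : S_H1 := by
  intro F hF n _ _ φ hent hcoc κ _ δ t u ht hu htu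
  classical
  have hd := (hdiv ℂ F 6 hF).1
  let tm : Fin 3 → Matrix κ n (Lr ℂ) := fun i => Matrix.of fun b a => t b i a
  let um : Fin 3 → Matrix n κ (Lr ℂ) := fun i => Matrix.of fun a b => u b i a
  obtain ⟨M, g, hg⟩ := clear_fam hc (ι := (Fin 3 × κ) × κ) (fun j => j.1.1) (e := 0)
    (fun j => (tm j.1.1 * um j.1.1 - 1 : Matrix κ κ (Lr ℂ)) j.1.2 j.2) fun j => by
      rw [Matrix.sub_apply, Matrix.mul_apply]
      refine sub_mem (Submodule.sum_mem _ fun a _ => ?_) ?_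
      · simpa [tm, um] using T_mul ((ht j.1.2).1 j.1.1 a) (hu j.2 j.1.1 a)
      · rw [Matrix.one_apply]
        split_ifs
        exacts [one_mem_T _, zero_mem _]
  obtain ⟨Q, _, π, hπ⟩ := exists_quot (Ideal.span {io ℂ F})
  have h : Dat π F φ δ tm um M fun p b => g (p, b) := by
    refine ⟨hπ, hent, fun i b a => (ht b).1 i a, fun i a b => hu b i a, fun i j l => ?_,
      fun i j => ?_, fun i => ?_, fun p b => (hg (p, b)).2 M (by simp),
      fun i c b => (hg ((i, c), b)).1⟩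
    · rw [← Matrix.map_mul]
      ext a c
      exact (hπ _ _).mp (hcoc.mul i j l a c)
    · rw [← Matrix.map_mul]
      ext b c
      have := (ht b).2 j i c
      rw [pow_one, tp, Matrix.mulVec_transpose] at this
      exact (hπ _ _).mp this
    · rw [← Matrix.map_mul]
      ext a c
      exact (hπ _ _).mp (htu i a c)
  obtain ⟨b, hb⟩ := h.high hF hd hc
  choose L hL using h.mid hd
  have hout : ∀ e, e < -(M + δ) ∨ b < e → ∀ z, Z1 (io ℂ F) φ e z → B1 (io ℂ F) φ e z := by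
    rintro e (he | he) z hz
    · obtain ⟨w, q, hx, h0⟩ := h.ex hd hz
      have := h.key hx (h0 (by omega))
      exact this
    · exact hb e he z hz
  refine ⟨-(M + δ), b, ∑ e ∈ Finset.Icc (-(M + δ)) b, L e, fun e => ⟨hout e, ?_⟩⟩
  by_cases he : e < -(M + δ) ∨ b < e
  · exact ⟨0, fun z hz => ⟨0, by simpa using hout e he z hz⟩⟩
  · exact pad _ _ (Finset.single_le_sum (f := L) (fun _ _ => Nat.zero_le _)
      (Finset.mem_Icc.mpr (by omega))) (hL e)

end Pool.Agent.P.MP_2b2d3b_ag
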