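import Pool.Agent.P.MP_2b2d3b_ag.Rho

/-!
The parameter space: a frame `g`, a curvilinear scheme `χ(x) = 0, y = η(x)` of length `11` on the
plane section and an extension class `ε`.
-/

namespace Pool.Agent.P.MP_2b2d3b_ag

open Polynomial

variable {B : Type} [CommRing B] {B' : Type} [CommRing B']

/-- the polynomial of degree `< 11` with coefficients `c` -/
noncomputable def pol (c : Fin 11 → B) : B[X] := ∑ i : Fin 11, monomial (i : ℕ) (c i)

theorem coeff_pol (c : Fin 11 → B) (i : Fin 11) : (pol c).coeff i = c i := by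
  simp only [pol, finsetSum_coeff, coeff_monomial]
  rw [Finset.sum_eq_single i]
  · simp
  · intro j _ hj
    rw [if_neg (fun h => hj (Fin.ext h))]
  · simp

theorem coeff_pol_ge (c : Fin 11 → B) {n : ℕ} (hn : 11 ≤ n) : (pol c).coeff n = 0 := by
  simp only [pol, finsetSum_coeff, coeff_monomial]
  exact Finset.sum_eq_zero fun j _ => if_neg (by have := j.2; omega)

theorem degree_pol (c : Fin 11 → B) : (pol c).degree < 11 :=
  (degree_lt_iff_coeff_zero _ 11).mpr fun _ hm => coeff_pol_ge c hm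

theorem natDegree_pol (c : Fin 11 → B) : (pol c).natDegree ≤ 10 :=
  natDegree_le_iff_coeff_eq_zero.mpr fun _ hm => coeff_pol_ge c hm

theorem map_pol (φ : B →+* B') (c : Fin 11 → B) : (pol c).map φ = pol fun i => φ (c i) := by
  simp [pol, Polynomial.map_sum]

theorem pol_coeff {p : B[X]} (hp : p.degree < 11) : pol (fun i => p.coeff i) = p := by
  ext n
  by_cases hn : n < 11
  · exact coeff_pol (fun i : Fin 11 => p.coeff i) ⟨n, hn⟩
  · rw [coeff_pol_ge _ (by omega), (degree_lt_iff_coeff_zero _ 11).mp hp n (by omega)]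

theorem eq_zero_of_coeff {p : B[X]} (hp : p.degree < 11) (h : ∀ i : Fin 11, p.coeff i = 0) :
    p = 0 := by
  rw [← pol_coeff hp]
  simp [pol, h]

/-- a point of the ambient affine space -/
@[ext] structure Pt (B : Type) where
  g : Matrix (Fin 4) (Fin 4) B
  g' : Matrix (Fin 4) (Fin 4) B
  tau : B
  cc : Fin 11 → B
  ce : Fin 11 → B
  cp : Fin 11 → B
  cq : Fin 11 → B

/-- the coordinates -/
abbrev Var : Type := (Fin 4 × Fin 4) ⊕ (Fin 4 × Fin 4) ⊕ Unit ⊕ Fin 11 ⊕ Fin 11 ⊕ Fin 11 ⊕ Fin 11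

/-- indices of the ten degree conditions -/
abbrev Idx : Type := {p : Fin 6 × Fin 11 // 11 < (p.1 : ℕ) + p.2}

/-- the equations -/
abbrev EqI : Type := (Fin 4 × Fin 4) ⊕ Unit ⊕ Fin 11 ⊕ Fin 11 ⊕ Idx

theorem card_Var : Fintype.card Var = 77 := by simp

theorem card_Idx : Fintype.card Idx = 10 := by decide +kernel

theorem card_EqI : Fintype.card EqI = 49 := by simp [card_Idx]

namespace Pt

/-- coordinates of a point -/
def coord (v : Pt B) : Var → B :=
  Sum.elim (fun p => v.g p.1 p.2) <| Sum.elim (fun p => v.g' p.1 p.2) <|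
    Sum.elim (fun _ => v.tau) <| Sum.elim v.cc <| Sum.elim v.ce <| Sum.elim v.cp v.cq

/-- the point with given coordinates -/
def ofCoord (c : Var → B) : Pt B where
  g i j := c (.inl (i, j))
  g' i j := c (.inr (.inl (i, j)))
  tau := c (.inr (.inr (.inl ())))
  cc i := c (.inr (.inr (.inr (.inl i))))
  ce i := c (.inr (.inr (.inr (.inr (.inl i)))))
  cp i := c (.inr (.inr (.inr (.inr (.inr (.inl i))))))
  cq i := c (.inr (.inr (.inr (.inr (.inr (.inr i))))))

/-- image of a point -/
def map (φ : B →+* B') (v : Pt B) : Pt B' where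
  g := v.g.map φ
  g' := v.g'.map φ
  tau := φ v.tau
  cc i := φ (v.cc i)
  ce i := φ (v.ce i)
  cp i := φ (v.cp i)
  cq i := φ (v.cq i)

omit [CommRing B] in
theorem ofCoord_coord (v : Pt B) : ofCoord v.coord = v := rfl

omit [CommRing B] in
theorem coord_ofCoord (c : Var → B) : (ofCoord c).coord = c := by
  ext i
  rcases i with _ | _ | _ | _ | _ | _ | _ <;> rfl

theorem map_ofCoord (φ : B →+* B') (c : Var → B) :
    (ofCoord c).map φ = ofCoord fun i => φ (c i) := rfl

theorem coord_map (φ : B →+* B') (v : Pt B) (i : Var) : (v.map φ).coord i = φ (v.coord i) := by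
  rcases i with _ | _ | _ | _ | _ | _ | _ <;> rfl

theorem map_map {B'' : Type} [CommRing B''] (φ : B →+* B') (ψ : B' →+* B'') (v : Pt B) :
    (v.map φ).map ψ = v.map (ψ.comp φ) := rfl

/-- `χ` -/
noncomputable def chi (v : Pt B) : B[X] := X ^ 11 + pol v.cc
/-- `η` -/
noncomputable def eta (v : Pt B) : B[X] := pol v.ce
/-- `ε` -/
noncomputable def eps (v : Pt B) : B[X] := pol v.cp
/-- inverse of `ε` modulo `χ` -/
noncomputable def eps' (v : Pt B) : B[X] := pol v.cq
/-- the affine equation of the plane section -/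
noncomputable def f (F : Pol B) (v : Pt B) : B[X][X] := C (C v.tau) * rho v.g F
/-- `f / (y - η)` -/
noncomputable def beta (F : Pol B) (v : Pt B) : B[X][X] := v.f F /ₘ (X - C v.eta)
/-- coefficients of `G` -/
noncomputable def Gc (F : Pol B) (v : Pt B) (j : ℕ) : B[X] :=
  (v.eps * (v.beta F).coeff j) %ₘ v.chi
/-- the numerator of the rational function `G / χ` -/
noncomputable def G (F : Pol B) (v : Pt B) : B[X][X] :=
  ∑ j ∈ Finset.range 6, C (v.Gc F j) * X ^ j

theorem chi_monic (v : Pt B) : v.chi.Monic := monic_X_pow_add (degree_pol _)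

theorem degree_chi [Nontrivial B] (v : Pt B) : v.chi.degree = 11 := by
  rw [chi, degree_add_eq_left_of_degree_lt] <;> rw [degree_X_pow]
  · rfl
  · exact degree_pol _

theorem natDegree_chi [Nontrivial B] (v : Pt B) : v.chi.natDegree = 11 :=
  natDegree_eq_of_degree_eq_some v.degree_chi

theorem degree_mod (v : Pt B) (p : B[X]) : (p %ₘ v.chi).degree < 11 := by
  rcases subsingleton_or_nontrivial B with hB | hB
  · rw [Subsingleton.elim (p %ₘ v.chi) 0]
    exact WithBot.bot_lt_coe 11
  rw [← v.degree_chi]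
  exact degree_modByMonic_lt _ v.chi_monic

variable (φ : B →+* B') (F : Pol B) (v : Pt B)

theorem map_chi : (v.map φ).chi = v.chi.map φ := by simp [chi, map_pol, map]
theorem map_eta : (v.map φ).eta = v.eta.map φ := by simp [eta, map_pol, map]
theorem map_eps : (v.map φ).eps = v.eps.map φ := by simp [eps, map_pol, map]
theorem map_eps' : (v.map φ).eps' = v.eps'.map φ := by simp [eps', map_pol, map]

theorem map_f : (v.map φ).f (MvPolynomial.map φ F) = (v.f F).map (mapRingHom φ) := by
  simp [f, map, rho_map]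

theorem map_beta : (v.map φ).beta (MvPolynomial.map φ F) = (v.beta F).map (mapRingHom φ) := by
  rw [beta, beta, map_divByMonic _ (monic_X_sub_C _), map_f, map_eta]
  simp

theorem map_Gc (j : ℕ) : (v.map φ).Gc (MvPolynomial.map φ F) j = (v.Gc F j).map φ := by
  rw [Gc, Gc, map_modByMonic _ v.chi_monic, map_beta, map_chi, map_eps]
  simp [coeff_map]

theorem map_G : (v.map φ).G (MvPolynomial.map φ F) = (v.G F).map (mapRingHom φ) := by
  simp [G, map_Gc, Polynomial.map_sum]

/-- values of the equations -/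
noncomputable def eqn : EqI → B :=
  Sum.elim (fun p => (v.g * v.g' - 1) p.1 p.2) <|
    Sum.elim (fun _ => v.tau * MvPolynomial.eval (fun i => v.g i 2) F - 1) <|
      Sum.elim (fun i => ((v.f F).eval v.eta %ₘ v.chi).coeff i) <|
        Sum.elim (fun i => ((v.eps * v.eps' - 1) %ₘ v.chi).coeff i)
          fun p => (v.Gc F p.1.1).coeff p.1.2

theorem map_eqn (k : EqI) : (v.map φ).eqn (MvPolynomial.map φ F) k = φ (v.eqn F k) := by
  rcases k with p | _ | i | i | p
  · simp [eqn, map, Matrix.mul_apply, Matrix.one_apply, apply_ite φ]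
  · simp only [eqn, map, Sum.elim_inr, Sum.elim_inl, map_sub, map_mul, map_one,
      MvPolynomial.eval_map]
    rw [MvPolynomial.eval, MvPolynomial.coe_eval₂Hom, MvPolynomial.eval₂_comp_left]
    rfl
  · simp only [eqn, Sum.elim_inr, Sum.elim_inl]
    rw [map_f, map_eta, map_chi, map_mapRingHom_eval_map, ← map_modByMonic _ v.chi_monic,
      coeff_map]
  · simp only [eqn, Sum.elim_inr, Sum.elim_inl]
    rw [map_eps, map_eps', map_chi, ← coeff_map, map_modByMonic _ v.chi_monic]
    simp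
  · simp only [eqn, Sum.elim_inr]
    rw [map_Gc, coeff_map]

/-- the equations of the parameter space -/
structure Eqs : Prop where
  e1 : v.g * v.g' = 1
  e2 : v.tau * MvPolynomial.eval (fun i => v.g i 2) F = 1
  e3 : v.chi ∣ (v.f F).eval v.eta
  e4 : v.chi ∣ v.eps * v.eps' - 1
  e5 : ∀ p : Idx, (v.Gc F p.1.1).coeff p.1.2 = 0

theorem eqs_iff : v.Eqs F ↔ ∀ k, v.eqn F k = 0 := by
  constructor
  · rintro ⟨e1, e2, e3, e4, e5⟩ (p | _ | i | i | p)
    · simp [eqn, e1]
    · simp [eqn, e2]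
    · simp [eqn, (modByMonic_eq_zero_iff_dvd v.chi_monic).mpr e3]
    · simp [eqn, (modByMonic_eq_zero_iff_dvd v.chi_monic).mpr e4]
    · simpa [eqn] using e5 p
  · intro h
    refine ⟨?_, ?_, ?_, ?_, fun p => h (.inr (.inr (.inr (.inr p))))⟩
    · rw [← sub_eq_zero]
      ext i j
      exact h (.inl (i, j))
    · rw [← sub_eq_zero]
      exact h (.inr (.inl ()))
    · rw [← modByMonic_eq_zero_iff_dvd v.chi_monic]
      exact eq_zero_of_coeff (v.degree_mod _) fun i => h (.inr (.inr (.inl i)))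
    · rw [← modByMonic_eq_zero_iff_dvd v.chi_monic]
      exact eq_zero_of_coeff (v.degree_mod _) fun i => h (.inr (.inr (.inr (.inl i))))

variable {F v}

theorem Eqs.map (h : v.Eqs F) : (v.map φ).Eqs (MvPolynomial.map φ F) := by
  rw [eqs_iff] at *
  intro k
  rw [map_eqn, h, map_zero]

theorem Eqs.of_map (hφ : Function.Injective φ) (h : (v.map φ).Eqs (MvPolynomial.map φ F)) :
    v.Eqs F := by
  rw [eqs_iff] at *
  intro k
  apply hφ
  rw [← map_eqn, h, map_zero]

theorem TD_f (hF : F.IsHomogeneous 6) : TD 6 (v.f F) := (TD_rho _ hF).smul _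

theorem coeff_f (hF : F.IsHomogeneous 6)
    (e2 : v.tau * MvPolynomial.eval (fun i => v.g i 2) F = 1) : (v.f F).coeff 6 = 1 := by
  rw [f, coeff_C_mul, coeff_rho _ hF, ← map_mul, e2, map_one]

theorem f_monic (hF : F.IsHomogeneous 6)
    (e2 : v.tau * MvPolynomial.eval (fun i => v.g i 2) F = 1) : (v.f F).Monic :=
  monic_of_natDegree_le_of_coeff_eq_one 6 (TD_f hF).natDegree_le (coeff_f hF e2)

theorem natDegree_f [Nontrivial B] (hF : F.IsHomogeneous 6)
    (e2 : v.tau * MvPolynomial.eval (fun i => v.g i 2) F = 1) : (v.f F).natDegree = 6 :=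
  natDegree_eq_of_le_of_coeff_ne_zero (TD_f hF).natDegree_le
    (by rw [coeff_f hF e2]; exact one_ne_zero)

theorem f_eq : v.f F = (X - C v.eta) * v.beta F + C ((v.f F).eval v.eta) := by
  rw [beta, add_comm, ← modByMonic_X_sub_C_eq_C_eval, modByMonic_add_div]

theorem natDegree_beta (hF : F.IsHomogeneous 6) : (v.beta F).natDegree ≤ 5 := by
  nontriviality B
  rw [beta, natDegree_divByMonic _ (monic_X_sub_C _), natDegree_X_sub_C]
  have := (TD_f (v := v) hF).natDegree_le
  omega

theorem coeff_beta (hF : F.IsHomogeneous 6)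
    (e2 : v.tau * MvPolynomial.eval (fun i => v.g i 2) F = 1) : (v.beta F).coeff 5 = 1 := by
  have := congrArg (fun p => p.coeff 6) (f_eq (F := F) (v := v))
  simp only [coeff_f hF e2, coeff_add, sub_mul, coeff_sub, coeff_X_mul, coeff_C_mul, coeff_C]
    at this
  rw [coeff_eq_zero_of_natDegree_lt (p := v.beta F) (n := 6)
    (Nat.lt_succ_of_le (natDegree_beta hF))] at this
  simpa using this.symm

theorem beta_monic (hF : F.IsHomogeneous 6)
    (e2 : v.tau * MvPolynomial.eval (fun i => v.g i 2) F = 1) : (v.beta F).Monic :=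
  monic_of_natDegree_le_of_coeff_eq_one 5 (natDegree_beta hF) (coeff_beta hF e2)

theorem coeff_G (j : ℕ) : (v.G F).coeff j = if j < 6 then v.Gc F j else 0 := by
  simp only [G, finsetSum_coeff, coeff_C_mul, coeff_X_pow, mul_ite, mul_one, mul_zero]
  rw [Finset.sum_ite_eq]
  simp

theorem natDegree_G : (v.G F).natDegree ≤ 5 :=
  natDegree_le_iff_coeff_eq_zero.mpr fun n hn => by rw [coeff_G, if_neg (by omega)]

theorem Gc_five (hF : F.IsHomogeneous 6)
    (e2 : v.tau * MvPolynomial.eval (fun i => v.g i 2) F = 1) : v.Gc F 5 = v.eps := by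
  nontriviality B
  rw [Gc, coeff_beta hF e2, mul_one, modByMonic_eq_self_iff v.chi_monic, degree_chi]
  exact degree_pol _

theorem Eqs.TD_G (h : v.Eqs F) : TD 11 (v.G F) := by
  intro i j hij
  rw [coeff_G]
  split_ifs with hj
  · by_cases hi : i < 11
    · exact h.e5 ⟨(⟨j, hj⟩, ⟨i, hi⟩), by simp only; omega⟩
    · exact (degree_lt_iff_coeff_zero _ 11).mp (v.degree_mod _) i (by omega)
  · simp

theorem map_mk_eq_zero_iff (χ : B[X]) (p : B[X][X]) :
    p.map (AdjoinRoot.mk χ) = 0 ↔ C χ ∣ p := by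
  rw [C_dvd_iff_dvd_coeff, Polynomial.ext_iff]
  simp [coeff_map, AdjoinRoot.mk_eq_zero]

theorem G_sub (hF : F.IsHomogeneous 6) : C v.chi ∣ v.G F - C v.eps * v.beta F := by
  rw [C_dvd_iff_dvd_coeff]
  intro j
  rw [coeff_sub, coeff_G, coeff_C_mul]
  split_ifs with hj
  · rw [Gc, modByMonic_eq_sub_mul_div]
    simp
  · rw [coeff_eq_zero_of_natDegree_lt (p := v.beta F) (by have := natDegree_beta (v := v) hF; omega)]
    simp

theorem Eqs.f_sub (h : v.Eqs F) : C v.chi ∣ v.f F - (X - C v.eta) * v.beta F := by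
  rw [sub_eq_of_eq_add' f_eq]
  exact map_dvd C h.e3

/-- the polar scheme of `G / χ` is `χ = y - η = 0` -/
theorem Eqs.mem_iff (h : v.Eqs F) (hF : F.IsHomogeneous 6) (b : B[X][X]) :
    (∃ r s, b * v.G F = C v.chi * r + v.f F * s) ↔ v.chi ∣ b.eval v.eta := by
  obtain ⟨u, hu⟩ := G_sub (v := v) hF
  obtain ⟨q, hq⟩ := h.f_sub
  constructor
  · rintro ⟨r, s, hrs⟩
    have e : C v.chi ∣ v.beta F * (b * C v.eps - (X - C v.eta) * s) :=
      ⟨r + q * s - b * u, by linear_combination hrs - b * hu + s * hq⟩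
    rw [← map_mk_eq_zero_iff, Polynomial.map_mul,
      ((beta_monic hF h.e2).map _).mul_right_eq_zero_iff, map_mk_eq_zero_iff] at e
    have e2 := eval_dvd (x := v.eta) e
    simp only [eval_C, eval_sub, eval_mul, eval_X, sub_self, zero_mul, sub_zero] at e2
    obtain ⟨k, hk⟩ := h.e4
    obtain ⟨l, hl⟩ := e2
    exact ⟨l * v.eps' - b.eval v.eta * k, by linear_combination v.eps' * hl - b.eval v.eta * hk⟩
  · rintro ⟨k, hk⟩
    have e := modByMonic_add_div b (X - C v.eta)
    rw [modByMonic_X_sub_C_eq_C_eval, hk, map_mul] at e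
    refine ⟨C k * v.G F + (b /ₘ (X - C v.eta)) * ((X - C v.eta) * u - C v.eps * q),
      (b /ₘ (X - C v.eta)) * C v.eps, ?_⟩
    linear_combination (-v.G F) * e + (b /ₘ (X - C v.eta)) * (X - C v.eta) * hu -
      (b /ₘ (X - C v.eta)) * C v.eps * hq

end Pt

end Pool.Agent.P.MP_2b2d3b_ag
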