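import Pool.Agent.P.MP_2b2d3b_ag.Frame

/-!
Properties of the module of pairs attached to a pencil.
-/

namespace Pool.Agent.P.MP_2b2d3b_ag

open MvPolynomial Module

theorem rank_null {V W : Type} [AddCommGroup V] [AddCommGroup W] [Module ℂ V] [Module ℂ W]
    (φ : V →ₗ[ℂ] W) (S : Submodule ℂ V) [Module.Finite ℂ S] :
    finrank ℂ (S.map φ) + finrank ℂ (LinearMap.ker φ ⊓ S : Submodule ℂ V) = finrank ℂ S := by
  rw [← (φ.domRestrict S).finrank_range_add_finrank_ker, LinearMap.range_domRestrict,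
    LinearMap.ker_domRestrict, ← Submodule.finrank_map_subtype_eq S (Submodule.comap _ _),
    Submodule.map_comap_subtype, inf_comm]

/-- forms of degree `d` -/
abbrev Hd (d : ℕ) : Submodule ℂ (Pol ℂ) := homogeneousSubmodule (Fin 4) ℂ d

/-- pairs of forms of degree `d` in `N` -/
noncomputable def Nd (N : Submodule (Pol ℂ) (Pol ℂ × Pol ℂ)) (d : ℕ) :
    Submodule ℂ (Pol ℂ × Pol ℂ) := N.restrictScalars ℂ ⊓ (Hd d).prod (Hd d)

/-- forms of degree `d` in `I` -/
noncomputable def Id (I : Ideal (Pol ℂ)) (d : ℕ) : Submodule ℂ (Pol ℂ) :=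
  I.restrictScalars ℂ ⊓ Hd d

theorem mem_Nd {N : Submodule (Pol ℂ) (Pol ℂ × Pol ℂ)} {d : ℕ} {p : Pol ℂ × Pol ℂ} :
    p ∈ Nd N d ↔ p ∈ N ∧ p.1.IsHomogeneous d ∧ p.2.IsHomogeneous d := Iff.rfl

theorem mem_Id {I : Ideal (Pol ℂ)} {d : ℕ} {p : Pol ℂ} :
    p ∈ Id I d ↔ p ∈ I ∧ p.IsHomogeneous d := Iff.rfl

theorem count_eq {N : Submodule (Pol ℂ) (Pol ℂ × Pol ℂ)} {P : Ideal (Pol ℂ)}
    (hK : ∀ a, (a, 0) ∈ N ↔ a ∈ P)
    (hc : ∀ a b, (a, b) ∈ N → ∀ d, (homogeneousComponent d a, homogeneousComponent d b) ∈ N)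
    (d : ℕ) : finrank ℂ (Nd N d) + hilb (snds N) d = finrank ℂ (Hd d) + finrank ℂ (Id P d) := by
  have h1 := rank_null (Ideal.Quotient.mkₐ ℂ (snds N)).toLinearMap (Hd d)
  have e1 : LinearMap.ker (Ideal.Quotient.mkₐ ℂ (snds N)).toLinearMap ⊓ Hd d = Id (snds N) d := by
    ext b
    simp [mem_Id, Ideal.Quotient.eq_zero_iff_mem]
  have : Module.Finite ℂ ((Hd d).prod (Hd d)) := Module.Finite.iff_fg.mpr
    (Submodule.FG.prod (homogeneousSubmodule_fg _ _ d) (homogeneousSubmodule_fg _ _ d))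
  have : Module.Finite ℂ (Nd N d) := Submodule.finiteDimensional_of_le inf_le_right
  have h2 := rank_null (LinearMap.snd ℂ (Pol ℂ) (Pol ℂ)) (Nd N d)
  have e2 : (Nd N d).map (LinearMap.snd ℂ (Pol ℂ) (Pol ℂ)) = Id (snds N) d := by
    ext b
    constructor
    · rintro ⟨p, ⟨h1, -, h3⟩, rfl⟩
      exact ⟨mem_snds.mpr ⟨p.1, h1⟩, h3⟩
    · rintro ⟨h1, h2⟩
      obtain ⟨a, ha⟩ := mem_snds.mp h1
      have := hc a b ha d
      rw [homogeneousComponent_eq_self h2] at this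
      exact ⟨_, mem_Nd.mpr ⟨this, homogeneousComponent_isHomogeneous _ _, h2⟩, rfl⟩
  have e3 : LinearMap.ker (LinearMap.snd ℂ (Pol ℂ) (Pol ℂ)) ⊓ Nd N d =
      (Id P d).map (LinearMap.inl ℂ (Pol ℂ) (Pol ℂ)) := by
    ext ⟨a, b⟩
    constructor
    · rintro ⟨h1, h2, h3, -⟩
      obtain rfl : b = 0 := h1
      exact ⟨a, ⟨(hK a).mp h2, h3⟩, rfl⟩
    · rintro ⟨a', ⟨h1, h2⟩, e⟩
      rw [← e]
      exact ⟨rfl, (hK a').mpr h1, h2, isHomogeneous_zero _ _ _⟩
  rw [e1] at h1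
  rw [e2, e3, ← (Submodule.equivMapOfInjective _ LinearMap.inl_injective _).finrank_eq] at h2
  change _ + finrank ℂ ((Hd d).map (Ideal.Quotient.mkₐ ℂ (snds N)).toLinearMap) = _
  omega

/-- the properties of the module of pairs -/
structure Pen (F l : Pol ℂ) (N : Submodule (Pol ℂ) (Pol ℂ × Pol ℂ)) : Prop where
  base : ∀ a ∈ Ideal.span {F, l}, ∀ b ∈ Ideal.span {F, l}, (a, b) ∈ N
  comp : ∀ a b, (a, b) ∈ N → ∀ d, (homogeneousComponent d a, homogeneousComponent d b) ∈ N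
  det : ∀ a b a' b', (a, b) ∈ N → (a', b') ∈ N → a * b' - a' * b ∈ Ideal.span {F, l}
  max : ∀ a b a' b', (a', b') ∈ N → (a' ∉ Ideal.span {F, l} ∨ b' ∉ Ideal.span {F, l}) →
    a * b' - a' * b ∈ Ideal.span {F, l} → (a, b) ∈ N
  lf : ∀ q : Ideal (Pol ℂ), q.IsPrime → (∃ i, X i ∉ q) → F ∈ q → ∃ d1 d2 n1 n2 c,
    n1 ∈ Nd N d1 ∧ n2 ∈ Nd N d2 ∧ c ∉ q ∧ n1.1 * n2.2 - n2.1 * n1.2 - c * l ∈ Ideal.span {F}
  count : ∃ d₀, ∀ d ≥ d₀, finrank ℂ (Nd N d) + 11 =
    finrank ℂ (Hd d) + finrank ℂ (Id (Ideal.span {F, l}) d)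

theorem IsExtension.pen {M : Type} [AddCommGroup M] [Module (Pol ℂ) M] {F l : Pol ℂ}
    (hirr : Irreducible F) (hl0 : l ≠ 0) (hp : (Ideal.span {F, l}).IsPrime)
    {G : Grading ℂ M} {I : Ideal (Pol ℂ)} (h : IsExtension F G I) {s m : M}
    (hP : Pencil F l G s m) (hI : ∀ b, b ∈ I ↔ ∃ a, (a, b) ∈ Nof l s m)
    (hK : ∀ a, (a, 0) ∈ Nof l s m → a ∈ Ideal.span {F, l}) : Pen F l (Nof l s m) := by
  have hr := l_reg hP.hF hirr hP.hl hl0
  have base : ∀ a ∈ Ideal.span {F, l}, ∀ b ∈ Ideal.span {F, l}, (a, b) ∈ Nof l s m := by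
    intro a ha b hb
    obtain ⟨x, y, rfl⟩ := Ideal.mem_span_pair.mp ha
    obtain ⟨x', y', rfl⟩ := Ideal.mem_span_pair.mp hb
    exact ⟨y • s + y' • m, by
      linear_combination (norm := module) -(x • hP.kill s) - x' • hP.kill m⟩
  have det : ∀ a b a' b', (a, b) ∈ Nof l s m → (a', b') ∈ Nof l s m →
      a * b' - a' * b ∈ Ideal.span {F, l} := by
    rintro a b a' b' ⟨u, e⟩ ⟨u', e'⟩
    exact hK _ ⟨b' • u - b • u', by linear_combination (norm := module) b' • e - b • e'⟩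
  have hX : ∃ i, X i ∉ Ideal.span {F, l} := by
    obtain ⟨v, hv⟩ := exists_frame_l hP.hF hirr hP.hl hl0
    by_contra hne
    push Not at hne
    exact hv.U0_not_mem hP.hF (Ideal.sum_mem _ fun i _ => Ideal.mul_mem_left _ _ (hne i))
  have sat : ∀ a b, (∀ i, ∃ k : ℕ, (X i ^ k * a, X i ^ k * b) ∈ Nof l s m) →
      (a, b) ∈ Nof l s m := by
    intro a b hab
    obtain ⟨a', ha'⟩ := (hI b).mp (h.sat b fun i => (hab i).imp fun k hk => (hI _).mpr ⟨_, hk⟩)
    obtain ⟨i, hi⟩ := hX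
    obtain ⟨k, hk⟩ := hab i
    have h1 := hK (X i ^ k * (a - a')) (by
      convert Submodule.sub_mem _ hk (mul_pair (X i ^ k) ha') using 1
      ext1 <;> simp [mul_sub])
    have h2 := (hp.mem_or_mem h1).resolve_left fun h => hi (hp.mem_of_pow_mem _ h)
    convert Submodule.add_mem _ ha' (base _ h2 0 (zero_mem _)) using 1
    ext1 <;> simp
  obtain ⟨b0, hb0, hb0'⟩ := exists_not_mem hP.hF hirr hP.hl hl0 h.length
  have lf0 : ∀ q : Ideal (Pol ℂ), q.IsPrime → (∃ i, X i ∉ q) → ∃ a1 b1 a2 b2 c,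
      (a1, b1) ∈ Nof l s m ∧ (a2, b2) ∈ Nof l s m ∧ c ∉ q ∧
      a1 * b2 - a2 * b1 - c * l ∈ Ideal.span {F} := by
    intro q hq hi
    by_cases c1 : l ∈ q
    swap
    · exact ⟨l, 0, 0, l, l, base _ (right_mem _ _) _ (zero_mem _),
        base _ (zero_mem _) _ (right_mem _ _), c1, by simp⟩
    by_cases c2 : F ∈ q
    swap
    · exact ⟨0, 0, 0, 0, F, zero_mem _, zero_mem _, c2,
        Ideal.mem_span_singleton'.mpr ⟨-l, by ring⟩⟩
    have hle : Ideal.span {F, l} ≤ q := by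
      rw [Ideal.span_le]; rintro _ (rfl | rfl); exacts [c2, c1]
    obtain ⟨m₁, m₂, hg, -⟩ := h.bundle.locFree q hq hi
    obtain ⟨a1, b1, f1⟩ := hP.all m₁
    obtain ⟨a2, b2, f2⟩ := hP.all m₂
    obtain ⟨z, c, hc⟩ := Ideal.mem_span_pair.mp (det _ _ _ _ ⟨_, f1⟩ ⟨_, f2⟩)
    refine ⟨a1, b1, a2, b2, c, ⟨_, f1⟩, ⟨_, f2⟩, fun hcq => ?_,
      Ideal.mem_span_singleton'.mpr ⟨z, by linear_combination hc⟩⟩
    have loc : ∀ a b, (a, b) ∈ Nof l s m → ∃ σ ∉ q, ∃ α β,
        σ * a - (α * a1 + β * a2) ∈ Ideal.span {F} ∧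
        σ * b - (α * b1 + β * b2) ∈ Ideal.span {F} := by
      rintro a b ⟨u, e⟩
      obtain ⟨σ, hσ, α, β, e'⟩ := hg u
      exact ⟨σ, hσ, α, β, hP.ind _ _ (by
        linear_combination (norm := module) l • e' - σ • e + α • f1 + β • f2)⟩
    obtain ⟨σ, hσ, α1, α2, k1, k2⟩ := loc l 0 (base _ (right_mem _ _) _ (zero_mem _))
    obtain ⟨x1, k1⟩ := Ideal.mem_span_singleton'.mp k1
    obtain ⟨x2, k2⟩ := Ideal.mem_span_singleton'.mp k2
    obtain ⟨y1, j1⟩ := Ideal.mem_span_singleton'.mp (hr (σ * b1 + α2 * c)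
      (Ideal.mem_span_singleton'.mpr ⟨b1 * x1 - a1 * x2 - α2 * z, by
        linear_combination b1 * k1 - a1 * k2 - α2 * hc⟩))
    obtain ⟨y2, j2⟩ := Ideal.mem_span_singleton'.mp (hr (σ * b2 - α1 * c)
      (Ideal.mem_span_singleton'.mpr ⟨b2 * x1 - a2 * x2 + α1 * z, by
        linear_combination b2 * k1 - a2 * k2 + α1 * hc⟩))
    have loc2 : ∀ a b, (a, b) ∈ Nof l s m → ∃ τ ∉ q, ∃ b', τ * b - c * b' ∈ Ideal.span {F} := by
      intro a b hab
      obtain ⟨σ', hσ', α, β, -, k⟩ := loc a b hab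
      obtain ⟨x, k⟩ := Ideal.mem_span_singleton'.mp k
      exact ⟨σ * σ', fun h => (hq.mem_or_mem h).elim hσ hσ', β * α1 - α * α2,
        Ideal.mem_span_singleton'.mpr ⟨σ * x + α * y1 + β * y2, by
          linear_combination σ * k + α * j1 + β * j2⟩⟩
    obtain ⟨τ1, h1, l', k3⟩ := loc2 0 l (base _ (zero_mem _) _ (right_mem _ _))
    obtain ⟨a0, ha0⟩ := (hI b0).mp hb0
    obtain ⟨τ2, h2, b', k4⟩ := loc2 a0 b0 ha0
    have k5 : c * l' ∈ Ideal.span {F, l} := by
      convert Ideal.sub_mem _ (Ideal.mul_mem_left _ τ1 (right_mem F l)) (mem_pair_left k3) using 1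
      ring
    rcases hp.mem_or_mem k5 with k6 | k6
    · have : τ2 * b0 ∈ Ideal.span {F, l} := by
        convert Ideal.add_mem _ (Ideal.mul_mem_right b' _ k6) (mem_pair_left k4) using 1
        ring
      exact (hp.mem_or_mem this).elim (fun h => h2 (hle h)) hb0'
    · obtain ⟨x, y, rfl⟩ := Ideal.mem_span_pair.mp k6
      have := hr (τ1 - c * y) (by
        convert Ideal.add_mem _ k3 (Ideal.mul_mem_left _ (c * x)
          (Ideal.mem_span_singleton_self F)) using 1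
        ring)
      refine h1 ?_
      convert q.add_mem (hle (mem_pair_left this)) (q.mul_mem_right y hcq) using 1
      ring
  refine ⟨base, hP.comp_mem, det, fun a b a' b' hab' hne hd => sat a b fun i => ?_,
    fun q hq hi hF => ?_, ?_⟩
  · have hdet : ∀ a1 b1, (a1, b1) ∈ Nof l s m → a1 * b - a * b1 ∈ Ideal.span {F, l} := by
      intro a1 b1 h1
      have h2 := det _ _ _ _ h1 hab'
      rcases hne with hne | hne
      · refine (hp.mem_or_mem (x := a') ?_).resolve_left hne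
        convert Ideal.sub_mem _ (Ideal.mul_mem_left _ a h2) (Ideal.mul_mem_left _ a1 hd) using 1
        ring
      · refine (hp.mem_or_mem (x := b') ?_).resolve_left hne
        convert Ideal.sub_mem _ (Ideal.mul_mem_left _ b h2) (Ideal.mul_mem_left _ b1 hd) using 1
        ring
    obtain ⟨k, hk⟩ := exists_pow_mem ((Nof l s m).comap
      (LinearMap.toSpanSingleton (Pol ℂ) _ (a, b))) (X i) fun q hq hi => by
        obtain ⟨a1, b1, a2, b2, c, n1, n2, hcq, hc⟩ := lf0 q hq ⟨i, hi⟩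
        obtain ⟨α, β, e1, e2⟩ := cramer hr hc (a := a) (b := b)
          (by simpa using neg_mem (hdet _ _ n2)) (hdet _ _ n1)
        refine ⟨c, ?_, hcq⟩
        have := Submodule.add_mem _ (base _ (mem_pair_left e1) _ (mem_pair_left e2))
          (Submodule.add_mem _ (mul_pair α n1) (mul_pair β n2))
        simpa using this
    exact ⟨k, by simpa using hk⟩
  · obtain ⟨a1, b1, a2, b2, c, n1, n2, hcq, hc⟩ := lf0 q hq hi
    by_contra hne
    push Not at hne
    have hd : ∀ i j, homogeneousComponent i a1 * homogeneousComponent j b2 -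
        homogeneousComponent j a2 * homogeneousComponent i b1 ∈
        Ideal.span {F} ⊔ q * Ideal.span {l} := fun i j => by
      have k1 := hP.comp_mem _ _ n1 i
      have k2 := hP.comp_mem _ _ n2 j
      obtain ⟨z, c', hc'⟩ := Ideal.mem_span_pair.mp (det _ _ _ _ k1 k2)
      have : c' ∈ q := by
        by_contra h'
        exact hne i j _ _ c' ⟨k1, homogeneousComponent_isHomogeneous _ _,
          homogeneousComponent_isHomogeneous _ _⟩ ⟨k2, homogeneousComponent_isHomogeneous _ _,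
          homogeneousComponent_isHomogeneous _ _⟩ h'
          (Ideal.mem_span_singleton'.mpr ⟨z, by linear_combination hc'⟩)
      rw [← hc']
      exact Submodule.add_mem_sup (Ideal.mul_mem_left _ _ (Ideal.mem_span_singleton_self F))
        (Ideal.mul_mem_mul this (Ideal.mem_span_singleton_self l))
    have hs : a1 * b2 - a2 * b1 ∈ Ideal.span {F} ⊔ q * Ideal.span {l} := by
      let n := a1.totalDegree + b1.totalDegree + a2.totalDegree + b2.totalDegree + 1
      rw [← sum_comp a1 (N := n) (by omega), ← sum_comp b1 (N := n) (by omega),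
        ← sum_comp a2 (N := n) (by omega), ← sum_comp b2 (N := n) (by omega),
        Finset.sum_mul_sum, Finset.sum_mul_sum, Finset.sum_comm (f := fun i j =>
          homogeneousComponent i a2 * homogeneousComponent j b1), ← Finset.sum_sub_distrib]
      refine Ideal.sum_mem _ fun i _ => ?_
      rw [← Finset.sum_sub_distrib]
      exact Ideal.sum_mem _ fun j _ => hd i j
    obtain ⟨x, hx, y, hy, e⟩ := Submodule.mem_sup.mp hs
    obtain ⟨c', hc', rfl⟩ := Ideal.mem_mul_span_singleton.mp hy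
    have := hr (c' - c) (by
      convert Ideal.sub_mem _ hc hx using 1
      linear_combination e)
    refine hcq ?_
    convert q.sub_mem hc' ((Ideal.span_singleton_le_iff_mem q).mpr hF this) using 1
    ring
  · obtain ⟨d0, hd⟩ := h.length
    refine ⟨d0, fun d h' => ?_⟩
    have : snds (Nof l s m) = I := by
      ext b; rw [mem_snds, hI]
    rw [← hd d h', ← this]
    exact count_eq (fun a => ⟨hK a, fun ha => base _ ha _ (zero_mem _)⟩) hP.comp_mem d

/-- a linear change of the pencil -/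
noncomputable def lin (p q r w : ℂ) (N : Submodule (Pol ℂ) (Pol ℂ × Pol ℂ)) :
    Submodule (Pol ℂ) (Pol ℂ × Pol ℂ) :=
  N.comap (LinearMap.prod ((C p : Pol ℂ) • LinearMap.fst _ _ _ + (C q : Pol ℂ) • LinearMap.snd _ _ _)
    ((C r : Pol ℂ) • LinearMap.fst _ _ _ + (C w : Pol ℂ) • LinearMap.snd _ _ _))

theorem mem_lin {p q r w : ℂ} {N : Submodule (Pol ℂ) (Pol ℂ × Pol ℂ)} {a b : Pol ℂ} :
    (a, b) ∈ lin p q r w N ↔ (C p * a + C q * b, C r * a + C w * b) ∈ N := Iff.rfl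

theorem Nof_lin {M : Type} [AddCommGroup M] [Module (Pol ℂ) M] (l : Pol ℂ) (s m : M)
    (p q r w : ℂ) :
    Nof l ((C p : Pol ℂ) • s + (C r : Pol ℂ) • m) ((C q : Pol ℂ) • s + (C w : Pol ℂ) • m) =
      lin p q r w (Nof l s m) := by
  ext ⟨a, b⟩
  rw [mem_lin, mem_Nof, mem_Nof]
  refine exists_congr fun u => ?_
  exact iff_of_eq (congrArg _ (by module))

theorem Pen.lin {F l : Pol ℂ} {N : Submodule (Pol ℂ) (Pol ℂ × Pol ℂ)} (h : Pen F l N)
    {p q r w : ℂ} (hd : p * w - q * r = 1) : Pen F l (lin p q r w N) := by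
  have hd' : (C p * C w - C q * C r : Pol ℂ) = 1 := by
    rw [← map_mul, ← map_mul, ← map_sub, hd, map_one]
  have hinv : ∀ {d n}, n ∈ Nd N d →
      (C w * n.1 - C q * n.2, C p * n.2 - C r * n.1) ∈ Nd (MP_2b2d3b_ag.lin p q r w N) d := by
    rintro d ⟨a, b⟩ ⟨h1, h2, h3⟩
    refine ⟨mem_lin.mpr ?_, (h2.C_mul _).sub (h3.C_mul _), (h3.C_mul _).sub (h2.C_mul _)⟩
    have h1' : (a, b) ∈ N := h1
    convert h1' using 2
    · linear_combination a * hd'
    · linear_combination b * hd'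
  refine ⟨fun a ha b hb => mem_lin.mpr (h.base _ (add_mem (Ideal.mul_mem_left _ _ ha)
    (Ideal.mul_mem_left _ _ hb)) _ (add_mem (Ideal.mul_mem_left _ _ ha)
    (Ideal.mul_mem_left _ _ hb))), fun a b hab d => ?_, fun a b a' b' h1 h2 => ?_,
    fun a b a' b' h1 hne h2 => ?_, fun q' hq hi hF => ?_, ?_⟩
  · have := h.comp _ _ (mem_lin.mp hab) d
    simpa only [mem_lin, map_add, homogeneousComponent_C_mul] using this
  · convert h.det _ _ _ _ (mem_lin.mp h1) (mem_lin.mp h2) using 1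
    linear_combination (a' * b - a * b') * hd'
  · refine mem_lin.mpr (h.max _ _ _ _ (mem_lin.mp h1) ?_ ?_)
    · by_contra hc
      push Not at hc
      rcases hne with hne | hne <;> apply hne
      · convert Ideal.sub_mem _ (Ideal.mul_mem_left _ (C w) hc.1)
          (Ideal.mul_mem_left _ (C q) hc.2) using 1
        linear_combination (-a') * hd'
      · convert Ideal.sub_mem _ (Ideal.mul_mem_left _ (C p) hc.2)
          (Ideal.mul_mem_left _ (C r) hc.1) using 1
        linear_combination (-b') * hd'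
    · convert h2 using 1
      linear_combination (a * b' - a' * b) * hd'
  · obtain ⟨d1, d2, n1, n2, c, k1, k2, hc, e⟩ := h.lf q' hq hi hF
    refine ⟨d1, d2, _, _, c, hinv k1, hinv k2, hc, ?_⟩
    convert e using 1
    linear_combination (n1.1 * n2.2 - n2.1 * n1.2) * hd'
  · obtain ⟨d0, hd0⟩ := h.count
    refine ⟨d0, fun d h' => ?_⟩
    rw [← hd0 d h']
    congr 1
    let e : (Pol ℂ × Pol ℂ) ≃ₗ[ℂ] (Pol ℂ × Pol ℂ) :=
      { toFun := fun n => (C p * n.1 + C q * n.2, C r * n.1 + C w * n.2)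
        invFun := fun n => (C w * n.1 - C q * n.2, C p * n.2 - C r * n.1)
        map_add' := fun x y => by ext1 <;> simp <;> ring
        map_smul' := fun c x => by ext1 <;> simp [smul_eq_C_mul] <;> ring
        left_inv := fun n => by
          ext1
          · linear_combination n.1 * hd'
          · linear_combination n.2 * hd'
        right_inv := fun n => by
          ext1
          · linear_combination n.1 * hd'
          · linear_combination n.2 * hd' }
    suffices hs : Submodule.map (e : (Pol ℂ × Pol ℂ) →ₗ[ℂ] (Pol ℂ × Pol ℂ))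
        (Nd (MP_2b2d3b_ag.lin p q r w N) d) = Nd N d by rw [← hs, e.finrank_map_eq]
    ext n
    constructor
    · rintro ⟨⟨a, b⟩, ⟨h1, h2, h3⟩, rfl⟩
      exact ⟨mem_lin.mp h1, (h2.C_mul _).add (h3.C_mul _), (h2.C_mul _).add (h3.C_mul _)⟩
    · intro hn
      exact ⟨_, hinv hn, e.right_inv n⟩

end Pool.Agent.P.MP_2b2d3b_ag
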