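import Pool.Agent.P.MP_2b2d3b_ag.St

/-!
Identities for the Pfaffian presentation.
-/

namespace Pool.Agent.P.MP_2b2d3b_ag

open MvPolynomial Module

namespace PfAlgP

variable {B : Type} [CommRing B] (p : Pf B)

theorem q0 : p.q 0 = p.φ 1 0 * p.φ 2 1 - p.φ 1 1 * p.φ 2 0 := rfl

theorem q1 : p.q 1 = p.φ 2 0 * p.φ 0 1 - p.φ 2 1 * p.φ 0 0 := rfl

theorem q2 : p.q 2 = p.φ 0 0 * p.φ 1 1 - p.φ 0 1 * p.φ 1 0 := rfl

theorem u_eq (j : Fin 2) :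
    p.u j = p.ξ 0 * p.φ 0 j + p.ξ 1 * p.φ 1 j + p.ξ 2 * p.φ 2 j := Fin.sum_univ_three _

theorem pf_eq : p.pf = p.G 0 * p.q 0 + p.G 1 * p.q 1 + p.G 2 * p.q 2 +
    (p.H 0 * p.u 0 + p.H 1 * p.u 1) := by
  rw [Pf.pf, Fin.sum_univ_three, Fin.sum_univ_two]

theorem Om_apply (i j : Fin 6) : p.Om i j = p.up i j - p.up j i := rfl

theorem Om_swap (i j : Fin 6) : p.Om j i = -p.Om i j := by
  rw [Om_apply, Om_apply, neg_sub]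

theorem Om_eq : p.Om =
    !![0, p.q 0, p.q 1, p.q 2, p.u 1, -p.u 0;
    -p.q 0, 0, -(p.H 0 * p.φ 2 0) - p.H 1 * p.φ 2 1, p.H 0 * p.φ 1 0 + p.H 1 * p.φ 1 1,
      p.G 1 * p.φ 2 1 - p.G 2 * p.φ 1 1 - p.H 0 * p.ξ 0,
      p.G 2 * p.φ 1 0 - p.G 1 * p.φ 2 0 - p.H 1 * p.ξ 0;
    -p.q 1, -(-(p.H 0 * p.φ 2 0) - p.H 1 * p.φ 2 1), 0, -(p.H 0 * p.φ 0 0) - p.H 1 * p.φ 0 1,
      p.G 2 * p.φ 0 1 - p.G 0 * p.φ 2 1 - p.H 0 * p.ξ 1,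
      p.G 0 * p.φ 2 0 - p.G 2 * p.φ 0 0 - p.H 1 * p.ξ 1;
    -p.q 2, -(p.H 0 * p.φ 1 0 + p.H 1 * p.φ 1 1), -(-(p.H 0 * p.φ 0 0) - p.H 1 * p.φ 0 1), 0,
      p.G 0 * p.φ 1 1 - p.G 1 * p.φ 0 1 - p.H 0 * p.ξ 2,
      p.G 1 * p.φ 0 0 - p.G 0 * p.φ 1 0 - p.H 1 * p.ξ 2;
    -p.u 1, -(p.G 1 * p.φ 2 1 - p.G 2 * p.φ 1 1 - p.H 0 * p.ξ 0),
      -(p.G 2 * p.φ 0 1 - p.G 0 * p.φ 2 1 - p.H 0 * p.ξ 1),
      -(p.G 0 * p.φ 1 1 - p.G 1 * p.φ 0 1 - p.H 0 * p.ξ 2), 0,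
      p.G 0 * p.ξ 0 + p.G 1 * p.ξ 1 + p.G 2 * p.ξ 2;
    p.u 0, -(p.G 2 * p.φ 1 0 - p.G 1 * p.φ 2 0 - p.H 1 * p.ξ 0),
      -(p.G 0 * p.φ 2 0 - p.G 2 * p.φ 0 0 - p.H 1 * p.ξ 1),
      -(p.G 1 * p.φ 0 0 - p.G 0 * p.φ 1 0 - p.H 1 * p.ξ 2),
      -(p.G 0 * p.ξ 0 + p.G 1 * p.ξ 1 + p.G 2 * p.ξ 2), 0] := by
  ext1 i j
  rw [Om_apply]
  fin_cases i <;> fin_cases j <;> simp [Pf.up]

theorem Th_transpose : p.Th.transpose = -p.Th := by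
  ext1 i j
  fin_cases i <;> fin_cases j <;> simp [Pf.Th]

theorem Om_transpose : p.Om.transpose = -p.Om := by
  ext1 i j
  exact Om_swap p i j

theorem Th_mul_Om : p.Th * p.Om = p.pf • (1 : Matrix (Fin 6) (Fin 6) (Pol B)) := by
  ext1 i j
  rw [Matrix.mul_apply, Fin.sum_univ_six, Om_eq]
  fin_cases i <;> fin_cases j <;> simp [Pf.Th, pf_eq, u_eq, q0, q1, q2] <;> ring

theorem Om_mul_Th : p.Om * p.Th = p.pf • (1 : Matrix (Fin 6) (Fin 6) (Pol B)) := by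
  have h := congrArg Matrix.transpose (Th_mul_Om p)
  rwa [Matrix.transpose_mul, Th_transpose, Om_transpose, neg_mul_neg, Matrix.transpose_smul,
    Matrix.transpose_one] at h

theorem sort4 {P : Fin 6 → Fin 6 → Fin 6 → Fin 6 → Prop}
    (h1 : ∀ {i j k l}, P i j k l → P j i k l) (h2 : ∀ {i j k l}, P i j k l → P i k j l)
    (h3 : ∀ {i j k l}, P i j k l → P i j l k) (h0 : ∀ i k l, P i i k l)
    (hs : ∀ i j k l, i < j → j < k → k < l → P i j k l) (i j k l : Fin 6) : P i j k l := by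
  have hA : ∀ i j k l, i ≤ j → j ≤ k → k ≤ l → P i j k l := by
    intro i j k l a b c
    rcases a.eq_or_lt with rfl | a
    · exact h0 _ _ _
    rcases b.eq_or_lt with rfl | b
    · exact h1 (h2 (h0 j i l))
    rcases c.eq_or_lt with rfl | c
    · exact h2 (h3 (h1 (h2 (h0 k i j))))
    exact hs i j k l a b c
  have hB : ∀ i j k l, i ≤ j → j ≤ k → P i j k l := by
    intro i j k l a b
    rcases le_total k l with c | c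
    · exact hA i j k l a b c
    rcases le_total j l with d | d
    · exact h3 (hA i j l k a d c)
    rcases le_total i l with e | e
    · exact h3 (h2 (hA i l j k e d b))
    · exact h3 (h2 (h1 (hA l i j k e a b)))
  have hC : ∀ i j k l, i ≤ j → P i j k l := by
    intro i j k l a
    rcases le_total j k with b | b
    · exact hB i j k l a b
    rcases le_total i k with c | c
    · exact h2 (hB i k j l c b)
    · exact h2 (h1 (hB k i j l c a))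
  rcases le_total i j with a | a
  · exact hC i j k l a
  · exact h1 (hC j i k l a)

theorem sorted_cases : ∀ i j k l : Fin 6, i < j → j < k → k < l →
    (i, j, k, l) ∈ ([(0, 1, 2, 3), (0, 1, 2, 4), (0, 1, 2, 5), (0, 1, 3, 4), (0, 1, 3, 5), (0, 1, 4, 5), (0, 2,
      3, 4), (0, 2, 3, 5), (0, 2, 4, 5), (0, 3, 4, 5), (1, 2, 3, 4), (1, 2, 3, 5), (1, 2, 4, 5),
      (1, 3, 4, 5), (2, 3, 4, 5)] : List (Fin 6 × Fin 6 × Fin 6 × Fin 6)) := by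
  decide

theorem plucker_sorted (i j k l : Fin 6) (a : i < j) (b : j < k) (c : k < l) :
    p.Om i j * p.Om l k + p.Om j k * p.Om l i + p.Om k i * p.Om l j ∈ Ideal.span {p.pf} := by
  have h := sorted_cases i j k l a b c
  simp only [List.mem_cons, Prod.mk.injEq, List.not_mem_nil, or_false] at h
  rcases h with ⟨rfl, rfl, rfl, rfl⟩ | ⟨rfl, rfl, rfl, rfl⟩ | ⟨rfl, rfl, rfl, rfl⟩ |
    ⟨rfl, rfl, rfl, rfl⟩ | ⟨rfl, rfl, rfl, rfl⟩ | ⟨rfl, rfl, rfl, rfl⟩ |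
    ⟨rfl, rfl, rfl, rfl⟩ | ⟨rfl, rfl, rfl, rfl⟩ | ⟨rfl, rfl, rfl, rfl⟩ |
    ⟨rfl, rfl, rfl, rfl⟩ | ⟨rfl, rfl, rfl, rfl⟩ | ⟨rfl, rfl, rfl, rfl⟩ |
    ⟨rfl, rfl, rfl, rfl⟩ | ⟨rfl, rfl, rfl, rfl⟩ | ⟨rfl, rfl, rfl, rfl⟩
  · refine Ideal.mem_span_singleton'.2 ⟨-p.Th 4 5, ?_⟩
    simp [Om_eq, Pf.Th, pf_eq, u_eq, q0, q1, q2]
    ring
  · refine Ideal.mem_span_singleton'.2 ⟨p.Th 3 5, ?_⟩
    simp [Om_eq, Pf.Th, pf_eq, u_eq, q0, q1, q2]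
    ring
  · refine Ideal.mem_span_singleton'.2 ⟨-p.Th 3 4, ?_⟩
    simp [Om_eq, Pf.Th, pf_eq, u_eq, q0, q1, q2]
    ring
  · refine Ideal.mem_span_singleton'.2 ⟨-p.Th 2 5, ?_⟩
    simp [Om_eq, Pf.Th, pf_eq, u_eq, q0, q1, q2]
    ring
  · refine Ideal.mem_span_singleton'.2 ⟨p.Th 2 4, ?_⟩
    simp [Om_eq, Pf.Th, pf_eq, u_eq, q0, q1, q2]
    ring
  · refine Ideal.mem_span_singleton'.2 ⟨-p.Th 2 3, ?_⟩
    simp [Om_eq, Pf.Th, pf_eq, u_eq, q0, q1, q2]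
    ring
  · refine Ideal.mem_span_singleton'.2 ⟨p.Th 1 5, ?_⟩
    simp [Om_eq, Pf.Th, pf_eq, u_eq, q0, q1, q2]
    ring
  · refine Ideal.mem_span_singleton'.2 ⟨-p.Th 1 4, ?_⟩
    simp [Om_eq, Pf.Th, pf_eq, u_eq, q0, q1, q2]
    ring
  · refine Ideal.mem_span_singleton'.2 ⟨p.Th 1 3, ?_⟩
    simp [Om_eq, Pf.Th, pf_eq, u_eq, q0, q1, q2]
    ring
  · refine Ideal.mem_span_singleton'.2 ⟨-p.Th 1 2, ?_⟩
    simp [Om_eq, Pf.Th, pf_eq, u_eq, q0, q1, q2]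
    ring
  · refine Ideal.mem_span_singleton'.2 ⟨-p.Th 0 5, ?_⟩
    simp [Om_eq, Pf.Th, pf_eq, u_eq, q0, q1, q2]
    ring
  · refine Ideal.mem_span_singleton'.2 ⟨p.Th 0 4, ?_⟩
    simp [Om_eq, Pf.Th, pf_eq, u_eq, q0, q1, q2]
    ring
  · refine Ideal.mem_span_singleton'.2 ⟨-p.Th 0 3, ?_⟩
    simp [Om_eq, Pf.Th, pf_eq, u_eq, q0, q1, q2]
    ring
  · refine Ideal.mem_span_singleton'.2 ⟨p.Th 0 2, ?_⟩
    simp [Om_eq, Pf.Th, pf_eq, u_eq, q0, q1, q2]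
    ring
  · refine Ideal.mem_span_singleton'.2 ⟨-p.Th 0 1, ?_⟩
    simp [Om_eq, Pf.Th, pf_eq, u_eq, q0, q1, q2]
    ring

theorem plucker (i j k l : Fin 6) :
    p.Om i j * p.Om l k + p.Om j k * p.Om l i + p.Om k i * p.Om l j ∈ Ideal.span {p.pf} := by
  refine sort4 (P := fun i j k l =>
    p.Om i j * p.Om l k + p.Om j k * p.Om l i + p.Om k i * p.Om l j ∈ Ideal.span {p.pf})
    (fun {i j k l} h => ?_) (fun {i j k l} h => ?_) (fun {i j k l} h => ?_) (fun i k l => ?_)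
    (plucker_sorted p) i j k l
  · convert neg_mem h using 1
    rw [Om_swap p i j, Om_swap p i k, Om_swap p j k]
    ring
  · convert neg_mem h using 1
    rw [Om_swap p i j, Om_swap p i k, Om_swap p j k]
    ring
  · convert neg_mem h using 1
    rw [Om_swap p k l, Om_swap p j l, Om_swap p j k, Om_swap p i l, Om_swap p i k]
    ring
  · convert (Ideal.span {p.pf}).zero_mem using 1
    rw [Om_swap p i k, Om_apply p i i]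
    ring

theorem pderiv_mem (q : Ideal (Pol B)) (h : ∀ i j, p.Om i j ∈ q) (k : Fin 4) :
    pderiv k p.pf ∈ q := by
  have e : pderiv k p.pf = pderiv k (p.G 0) * p.Om 0 1 + pderiv k (p.G 1) * p.Om 0 2 +
      pderiv k (p.G 2) * p.Om 0 3 + pderiv k (p.H 1) * p.Om 0 4 + pderiv k (p.H 0) * p.Om 5 0 +
      pderiv k (p.ξ 2) * p.Om 2 1 + pderiv k (p.ξ 1) * p.Om 1 3 + pderiv k (p.ξ 0) * p.Om 3 2 +
      pderiv k (p.φ 0 0) * p.Om 4 1 + pderiv k (p.φ 0 1) * p.Om 5 1 +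
      pderiv k (p.φ 1 0) * p.Om 4 2 + pderiv k (p.φ 1 1) * p.Om 5 2 +
      pderiv k (p.φ 2 0) * p.Om 4 3 + pderiv k (p.φ 2 1) * p.Om 5 3 := by
    simp [Om_eq, pf_eq, u_eq, q0, q1, q2]
    ring
  rw [e]
  repeat' refine add_mem ?_ ?_
  all_goals exact q.mul_mem_left _ (h _ _)

variable {p}

theorem q_hom (h : p.Hom) (i : Fin 3) : (p.q i).IsHomogeneous 2 := by
  fin_cases i <;> exact ((h.φ _ _).mul (h.φ _ _)).sub ((h.φ _ _).mul (h.φ _ _))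

theorem u_hom (h : p.Hom) (j : Fin 2) : (p.u j).IsHomogeneous 4 :=
  IsHomogeneous.sum _ _ _ fun i _ => (h.ξ i).mul (h.φ i j)

theorem pf_hom (h : p.Hom) : p.pf.IsHomogeneous 6 :=
  (IsHomogeneous.sum _ _ _ fun i _ => (h.G i).mul (q_hom h i)).add
    (IsHomogeneous.sum _ _ _ fun j _ => (h.H j).mul (u_hom h j))

theorem up_hom (h : p.Hom) (i j : Fin 6) :
    (p.up i j).IsHomogeneous (pfDeg i + pfDeg j + 1) := by
  have a : ∀ j i k, (p.H j * p.φ i k).IsHomogeneous 3 := fun j i k => (h.H j).mul (h.φ i k)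
  have b : ∀ j i k, (p.G j * p.φ i k).IsHomogeneous 5 := fun j i k => (h.G j).mul (h.φ i k)
  have c : ∀ j i, (p.H j * p.ξ i).IsHomogeneous 5 := fun j i => (h.H j).mul (h.ξ i)
  have d : ∀ j i, (p.G j * p.ξ i).IsHomogeneous 7 := fun j i => (h.G j).mul (h.ξ i)
  have z : ∀ n, (0 : Pol B).IsHomogeneous n := fun n => isHomogeneous_zero _ _ n
  fin_cases i <;> fin_cases j
  exacts [z _, q_hom h 0, q_hom h 1, q_hom h 2, u_hom h 1, (u_hom h 0).neg,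
    z _, z _, (a 0 2 0).neg.sub (a 1 2 1), (a 0 1 0).add (a 1 1 1), ((b 1 2 1).sub (b 2 1 1)).sub (c 0 0), ((b 2 1 0).sub (b 1 2 0)).sub (c 1 0),
    z _, z _, z _, (a 0 0 0).neg.sub (a 1 0 1), ((b 2 0 1).sub (b 0 2 1)).sub (c 0 1), ((b 0 2 0).sub (b 2 0 0)).sub (c 1 1),
    z _, z _, z _, z _, ((b 0 1 1).sub (b 1 0 1)).sub (c 0 2), ((b 1 0 0).sub (b 0 1 0)).sub (c 1 2),
    z _, z _, z _, z _, z _, ((d 0 0).add (d 1 1)).add (d 2 2),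
    z _, z _, z _, z _, z _, z _]

theorem Om_hom (h : p.Hom) (i j : Fin 6) :
    (p.Om i j).IsHomogeneous (pfDeg i + pfDeg j + 1) :=
  (up_hom h i j).sub (by rw [add_comm (pfDeg i)]; exact up_hom h j i)

theorem Th_hom (h : p.Hom) (i j : Fin 6) :
    p.Th i j = 0 ∨ ∃ e, pfDeg i + pfDeg j + e = 5 ∧ (p.Th i j).IsHomogeneous e := by
  fin_cases i <;> fin_cases j
  exacts [.inl rfl, .inr ⟨4, rfl, (h.G 0).neg⟩, .inr ⟨4, rfl, (h.G 1).neg⟩,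
    .inr ⟨4, rfl, (h.G 2).neg⟩, .inr ⟨2, rfl, (h.H 1).neg⟩, .inr ⟨2, rfl, h.H 0⟩,
    .inr ⟨4, rfl, h.G 0⟩, .inl rfl, .inr ⟨3, rfl, h.ξ 2⟩,
    .inr ⟨3, rfl, (h.ξ 1).neg⟩, .inr ⟨1, rfl, h.φ 0 0⟩, .inr ⟨1, rfl, h.φ 0 1⟩,
    .inr ⟨4, rfl, h.G 1⟩, .inr ⟨3, rfl, (h.ξ 2).neg⟩, .inl rfl,
    .inr ⟨3, rfl, h.ξ 0⟩, .inr ⟨1, rfl, h.φ 1 0⟩, .inr ⟨1, rfl, h.φ 1 1⟩,
    .inr ⟨4, rfl, h.G 2⟩, .inr ⟨3, rfl, h.ξ 1⟩, .inr ⟨3, rfl, (h.ξ 0).neg⟩,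
    .inl rfl, .inr ⟨1, rfl, h.φ 2 0⟩, .inr ⟨1, rfl, h.φ 2 1⟩,
    .inr ⟨2, rfl, h.H 1⟩, .inr ⟨1, rfl, (h.φ 0 0).neg⟩, .inr ⟨1, rfl, (h.φ 1 0).neg⟩,
    .inr ⟨1, rfl, (h.φ 2 0).neg⟩, .inl rfl, .inl rfl,
    .inr ⟨2, rfl, (h.H 0).neg⟩, .inr ⟨1, rfl, (h.φ 0 1).neg⟩, .inr ⟨1, rfl, (h.φ 1 1).neg⟩,
    .inr ⟨1, rfl, (h.φ 2 1).neg⟩, .inl rfl, .inl rfl]

variable (p) {B' : Type} [CommRing B'] (ψ : B →+* B')

theorem map_q (i : Fin 3) : (p.map ψ).q i = map ψ (p.q i) := by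
  fin_cases i <;> simp [Pf.q, Pf.map]

theorem map_u (j : Fin 2) : (p.map ψ).u j = map ψ (p.u j) := by
  simp [Pf.u, Pf.map]

theorem map_pf : (p.map ψ).pf = map ψ p.pf := by
  simp only [Pf.pf, map_q, map_u, map_add, map_sum, map_mul]
  rfl

theorem map_up (i j : Fin 6) : (p.map ψ).up i j = map ψ (p.up i j) := by
  fin_cases i <;> fin_cases j <;> simp [Pf.up, map_q, map_u] <;> simp [Pf.map]

theorem map_Om : (p.map ψ).Om = p.Om.map (map ψ) := by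
  ext1 i j
  rw [Matrix.map_apply, Om_apply, Om_apply, map_up, map_up, map_sub]

theorem map_hom (h : p.Hom) : (p.map ψ).Hom :=
  ⟨fun i j => (h.φ i j).map ψ, fun i => (h.ξ i).map ψ, fun i => (h.G i).map ψ,
    fun j => (h.H j).map ψ⟩

end PfAlgP

open PfAlgP

theorem pfAlg : S_PfAlg := fun _ _ p =>
  ⟨Th_mul_Om p, Om_mul_Th p, plucker p, pderiv_mem p,
    fun h => ⟨pf_hom h, Om_hom h, Th_hom h⟩,
    fun _ _ ψ => ⟨map_pf p ψ, map_Om p ψ, map_hom p ψ⟩⟩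

end Pool.Agent.P.MP_2b2d3b_ag
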