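import Pool.Agent.P.MP_2b2d3b_ag.St2
import Pool.Agent.P.MP_2b2d3b_ag.Sch2
import Pool.Agent.P.MP_2b2d3b_ag.DimP
import Pool.Agent.P.MP_2b2d3b_ag.FinB

/-!
The incidence variety used for the upper bound of the dimension of the planar component.
-/

namespace Pool.Agent.P.MP_2b2d3b_ag

open MvPolynomial CategoryTheory AlgebraicGeometry Module

namespace PlUpP

/-- the upper bound for the dimension, with explicit equations -/
theorem schLe' {X : Scheme.{0}} {π : X ⟶ Spec (.of ℂ)} (hπ : LocallyOfFiniteType π)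
    {D P : Type} [CommRing D] [IsDomain D] [Algebra ℂ D] [Algebra.FiniteType ℂ D] [CommRing P]
    [Algebra ℂ P] [Algebra.FiniteType ℂ P] (g : Spec (.of D) ⟶ X) (ρ : D →ₐ[ℂ] P) (T : Set P)
    (h : D) (k : ℕ) (y : Fin k → P) (hg : Ov π D g) (h0 : h ≠ 0)
    (hl : ∀ t : D →ₐ[ℂ] ℂ, t h ≠ 0 → ∃ t' : P →ₐ[ℂ] ℂ, (∀ e ∈ T, t' e = 0) ∧ t'.comp ρ = t)
    (hf : ∀ y0 : Fin k → ℂ, {x | ∃ t' : P →ₐ[ℂ] ℂ, (∀ e ∈ T, t' e = 0) ∧ t' (ρ h) ≠ 0 ∧
      (∀ i, t' (y i) = y0 i) ∧ g (kp (t'.comp ρ)) = x}.Finite) :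
    topologicalKrullDim (closure (Set.range g)) ≤ k := by
  refine schLe dimLe X π hπ D (P ⧸ Ideal.span T) g ((Ideal.Quotient.mkₐ ℂ _).comp ρ) h k
    (fun i => Ideal.Quotient.mk _ (y i)) hg h0 ?_ ?_
  · intro t ht
    obtain ⟨t', h1, h2⟩ := hl t ht
    have hle : Ideal.span T ≤ RingHom.ker (t' : P →+* ℂ) := Ideal.span_le.2 fun e he => h1 e he
    refine ⟨Ideal.Quotient.liftₐ _ t' (fun a ha => hle ha), ?_⟩
    rw [← h2]
    ext a
    simp
  · intro y0
    refine (hf y0).subset ?_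
    rintro x ⟨t', h1, h2, h3⟩
    refine ⟨t'.comp (Ideal.Quotient.mkₐ ℂ _), fun e he => ?_, h1, h2, h3⟩
    have : Ideal.Quotient.mk (Ideal.span T) e = 0 :=
      Ideal.Quotient.eq_zero_iff_mem.2 (Ideal.subset_span he)
    simp [this]

/-- a member of the pencil together with a normalised binary form through the subscheme -/
def Sol (F H G : Pol ℂ) (c : Fin 4 → ℂ) (z1 : Fin 3 → ℂ) (z2 : Fin 10 → ℂ) : Prop :=
  ∃ (al be ga : ℂ) (cc : Fin 11 → ℂ) (a a' : Pol ℂ), (al ≠ 0 ∨ be ≠ 0) ∧ ga * c 3 = 1 ∧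
    a.IsHomogeneous 11 ∧ a'.IsHomogeneous 11 ∧ a * H + a' * G ∈ Ideal.span {F, linForm c} ∧
    hm (X 1) (X 0) (Polynomial.X * pol cc) 11 - (C al * a + C be * a') ∈ Ideal.span {F} ∧
    (∃ k : Fin 11, (pol cc).eval ((k : ℕ) : ℂ) = 1) ∧ (∀ i, z1 i = ga * c i.castSucc) ∧
    ∀ j, z2 j = cc j.succ

theorem Sol.congr {F H G G' : Pol ℂ} {c : Fin 4 → ℂ} {z1 : Fin 3 → ℂ} {z2 : Fin 10 → ℂ}
    (h : Sol F H G c z1 z2) (hG : G - G' ∈ Ideal.span {linForm c}) : Sol F H G' c z1 z2 := by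
  obtain ⟨al, be, ga, cc, a, a', h1, h2, h3, h4, h5, h6⟩ := h
  refine ⟨al, be, ga, cc, a, a', h1, h2, h3, h4, ?_, h6⟩
  obtain ⟨x, y, e⟩ := Ideal.mem_span_pair.1 h5
  obtain ⟨w, e'⟩ := Ideal.mem_span_singleton'.1 hG
  exact Ideal.mem_span_pair.2 ⟨x, y - a' * w, by linear_combination e - a' * e'⟩

/-- the unknowns -/
abbrev Vr : Type := Fin 5 ⊕ Fin 11 ⊕ Mon 11 ⊕ Mon 11 ⊕ Mon 16 ⊕ Mon 21 ⊕ Mon 5

section Eqn

variable {B B' : Type} [CommRing B] [CommRing B']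

/-- first equation -/
noncomputable def E1 (F H G : Pol B) (c : Fin 4 → B) (u : Vr → B) : Pol B :=
  form (fun m => u (.inr (.inr (.inl m)))) * H +
    form (fun m => u (.inr (.inr (.inr (.inl m))))) * G -
    (form (fun m => u (.inr (.inr (.inr (.inr (.inl m)))))) * F +
      form (fun m => u (.inr (.inr (.inr (.inr (.inr (.inl m))))))) * linForm c)

/-- second equation -/
noncomputable def E2 (F : Pol B) (u : Vr → B) : Pol B :=
  hm (X 1) (X 0) (Polynomial.X * pol fun i => u (.inr (.inl i))) 11 -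
    (C (u (.inl 0)) * form (fun m => u (.inr (.inr (.inl m)))) +
      C (u (.inl 1)) * form (fun m => u (.inr (.inr (.inr (.inl m)))))) -
    form (fun m => u (.inr (.inr (.inr (.inr (.inr (.inr m))))))) * F

/-- normalisation of the binary form -/
noncomputable def E3 (u : Vr → B) : B :=
  ∏ k : Fin 11, ((pol fun i => u (.inr (.inl i))).eval ((k : ℕ) : B) - 1)

theorem map_E1 (φ : B →+* B') (F H G : Pol B) (c : Fin 4 → B) (u : Vr → B) :
    map φ (E1 F H G c u) =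
      E1 (map φ F) (map φ H) (map φ G) (fun i => φ (c i)) (fun v => φ (u v)) := by
  simp only [E1, map_sub, map_add, map_mul, map_form, map_linForm]

theorem map_E2 (φ : B →+* B') (F : Pol B) (u : Vr → B) :
    map φ (E2 F u) = E2 (map φ F) (fun v => φ (u v)) := by
  simp only [E2, map_sub, map_add, map_mul, map_form, map_hm, map_X, map_C, Polynomial.map_mul,
    Polynomial.map_X, map_pol]

theorem map_E3 (φ : B →+* B') (u : Vr → B) : φ (E3 u) = E3 (fun v => φ (u v)) := by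
  simp only [E3, map_prod, map_sub, map_one]
  refine Finset.prod_congr rfl fun k _ => ?_
  rw [← map_pol, Polynomial.eval_map, ← map_natCast φ, Polynomial.eval₂_hom]

end Eqn

theorem hom_two {F l b : Pol ℂ} (hF : F.IsHomogeneous 6) (hl : l.IsHomogeneous 1)
    (hb : b.IsHomogeneous 22) (h : b ∈ Ideal.span {F, l}) :
    ∃ x y : Pol ℂ, x.IsHomogeneous 16 ∧ y.IsHomogeneous 21 ∧ b = x * F + y * l := by
  obtain ⟨x, y, e⟩ := Ideal.mem_span_pair.1 h
  refine ⟨homogeneousComponent 16 x, homogeneousComponent 21 y,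
    homogeneousComponent_isHomogeneous _ _, homogeneousComponent_isHomogeneous _ _, ?_⟩
  rw [← comp_mul hF, ← comp_mul hl, ← map_add, e, homogeneousComponent_eq_self hb]

theorem hom_one {F b : Pol ℂ} (hF : F.IsHomogeneous 6)
    (hb : b.IsHomogeneous 11) (h : b ∈ Ideal.span {F}) :
    ∃ z : Pol ℂ, z.IsHomogeneous 5 ∧ b = z * F := by
  obtain ⟨z, e⟩ := Ideal.mem_span_singleton'.1 h
  refine ⟨homogeneousComponent 5 z, homogeneousComponent_isHomogeneous _ _, ?_⟩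
  rw [← comp_mul hF, e, homogeneousComponent_eq_self hb]

/-- solutions in terms of the unknowns -/
theorem sol_iff {F H G : Pol ℂ} {c : Fin 4 → ℂ} (hF : F.IsHomogeneous 6)
    (hH : H.IsHomogeneous 11) (hG : G.IsHomogeneous 11) (z1 : Fin 3 → ℂ) (z2 : Fin 10 → ℂ) :
    Sol F H G c z1 z2 ↔ ∃ u : Vr → ℂ, E1 F H G c u = 0 ∧ E2 F u = 0 ∧ E3 u = 0 ∧
      u (.inl 0) * u (.inl 2) + u (.inl 1) * u (.inl 3) - 1 = 0 ∧ u (.inl 4) * c 3 - 1 = 0 ∧
      (∀ i, z1 i = u (.inl 4) * c i.castSucc) ∧ ∀ j, z2 j = u (.inr (.inl j.succ)) := by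
  constructor
  · rintro ⟨al, be, ga, cc, a, a', h1, h2, h3, h4, h5, h6, ⟨k, hk⟩, h8, h9⟩
    obtain ⟨x, y, hx, hy, e1⟩ := hom_two hF (linForm_hom c) ((h3.mul hH).add (h4.mul hG)) h5
    obtain ⟨z, hz, e2⟩ := hom_one hF ((hm_hom (isHomogeneous_X _ _) (isHomogeneous_X _ _) _ _).sub
      ((h3.C_mul _).add (h4.C_mul _))) h6
    obtain ⟨al', be', e3⟩ : ∃ al' be' : ℂ, al * al' + be * be' - 1 = 0 := by
      rcases h1 with h | h
      · exact ⟨al⁻¹, 0, by field_simp; ring⟩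
      · exact ⟨0, be⁻¹, by field_simp; ring⟩
    refine ⟨Sum.elim ![al, be, al', be', ga] (Sum.elim cc (Sum.elim (fun m => coeff m.1 a)
      (Sum.elim (fun m => coeff m.1 a') (Sum.elim (fun m => coeff m.1 x)
        (Sum.elim (fun m => coeff m.1 y) fun m => coeff m.1 z))))), ?_, ?_, ?_, e3, ?_, h8, h9⟩
    · simp only [E1, Sum.elim_inr, Sum.elim_inl, form_coeff h3, form_coeff h4, form_coeff hx,
        form_coeff hy]
      rw [e1, sub_self]
    · simp only [E2, Sum.elim_inr, Sum.elim_inl, form_coeff h3, form_coeff h4, form_coeff hz]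
      change _ - (C al * a + C be * a') - _ = 0
      rw [e2, sub_self]
    · exact Finset.prod_eq_zero (Finset.mem_univ k) (sub_eq_zero.2 hk)
    · exact sub_eq_zero.2 h2
  · rintro ⟨u, e1, e2, e3, e4, e5, h8, h9⟩
    refine ⟨u (.inl 0), u (.inl 1), u (.inl 4), fun i => u (.inr (.inl i)), _, _, ?_,
      sub_eq_zero.1 e5, form_hom (fun m => u (.inr (.inr (.inl m)))),
      form_hom (fun m => u (.inr (.inr (.inr (.inl m))))),
      Ideal.mem_span_pair.2 ⟨_, _, (sub_eq_zero.1 e1).symm⟩,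
      Ideal.mem_span_singleton'.2 ⟨_, (sub_eq_zero.1 e2).symm⟩, ?_, h8, h9⟩
    · by_contra hc
      push Not at hc
      rw [hc.1, hc.2] at e4
      simp at e4
    · obtain ⟨k, -, hk⟩ := Finset.prod_eq_zero_iff.1 e3
      exact ⟨k, sub_eq_zero.1 hk⟩

/-- the universal solution -/
theorem univ_sol {D : Type} [CommRing D] [Algebra ℂ D] {F H G : Pol D} (c : Fin 4 → D)
    (hF : F.IsHomogeneous 6) (hH : H.IsHomogeneous 11) (hG : G.IsHomogeneous 11) :
    ∃ (T : Set (MvPolynomial Vr D)) (y1 : Fin 3 → MvPolynomial Vr D)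
      (y2 : Fin 10 → MvPolynomial Vr D),
      (∀ (t : D →ₐ[ℂ] ℂ) z1 z2, Sol (map (t : D →+* ℂ) F) (map (t : D →+* ℂ) H)
        (map (t : D →+* ℂ) G) (fun i => t (c i)) z1 z2 →
        ∃ t' : MvPolynomial Vr D →ₐ[ℂ] ℂ, (∀ e ∈ T, t' e = 0) ∧
          t'.comp (IsScalarTower.toAlgHom ℂ D (MvPolynomial Vr D)) = t) ∧
      ∀ (t' : MvPolynomial Vr D →ₐ[ℂ] ℂ) (t : D →ₐ[ℂ] ℂ), (∀ e ∈ T, t' e = 0) →
        t'.comp (IsScalarTower.toAlgHom ℂ D (MvPolynomial Vr D)) = t →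
        Sol (map (t : D →+* ℂ) F) (map (t : D →+* ℂ) H) (map (t : D →+* ℂ) G) (fun i => t (c i))
          (fun i => t' (y1 i)) (fun j => t' (y2 j)) := by
  let ι : D →+* MvPolynomial Vr D := C
  let e1 := E1 (map ι F) (map ι H) (map ι G) (fun i => ι (c i)) X
  let e2 := E2 (map ι F) X
  let e3 : MvPolynomial Vr D := E3 X
  let e4 : MvPolynomial Vr D := X (.inl 0) * X (.inl 2) + X (.inl 1) * X (.inl 3) - 1
  let e5 : MvPolynomial Vr D := X (.inl 4) * ι (c 3) - 1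
  have key : ∀ (t' : MvPolynomial Vr D →ₐ[ℂ] ℂ) (t : D →ₐ[ℂ] ℂ),
      t'.comp (IsScalarTower.toAlgHom ℂ D (MvPolynomial Vr D)) = t →
      (∀ d, t' (ι d) = t d) ∧
      map (t' : MvPolynomial Vr D →+* ℂ) e1 = E1 (map (t : D →+* ℂ) F) (map (t : D →+* ℂ) H)
        (map (t : D →+* ℂ) G) (fun i => t (c i)) (fun v => t' (X v)) ∧
      map (t' : MvPolynomial Vr D →+* ℂ) e2 = E2 (map (t : D →+* ℂ) F) (fun v => t' (X v)) ∧
      t' e3 = E3 fun v => t' (X v) := by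
    intro t' t ht
    have h0 : ∀ d, t' (ι d) = t d := fun d => by rw [← ht]; rfl
    have h1 : (t' : MvPolynomial Vr D →+* ℂ).comp ι = (t : D →+* ℂ) := RingHom.ext h0
    refine ⟨h0, ?_, ?_, map_E3 (t' : MvPolynomial Vr D →+* ℂ) X⟩
    · rw [map_E1, map_map, map_map, map_map, h1]
      simp only [RingHom.coe_coe, h0]
    · rw [map_E2, map_map, h1]
      rfl
  refine ⟨(Set.range fun m => coeff m e1) ∪ (Set.range fun m => coeff m e2) ∪ {e3, e4, e5},
    fun i => X (.inl 4) * ι (c i.castSucc), fun j => X (.inr (.inl j.succ)), ?_, ?_⟩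
  · intro t z1 z2 hs
    obtain ⟨u, a1, a2, a3, a4, a5, -⟩ := (sol_iff (hF.map _) (hH.map _) (hG.map _) _ _).1 hs
    have ht := aevalTower_comp_toAlgHom (σ := Vr) t u
    obtain ⟨k0, k1, k2, k3⟩ := key _ _ ht
    simp only [aevalTower_X] at k1 k2 k3
    refine ⟨aevalTower t u, ?_, ht⟩
    rintro e ((⟨m, rfl⟩ | ⟨m, rfl⟩) | rfl | rfl | rfl)
    · have := congrArg (coeff m) (k1.trans a1)
      rwa [coeff_map, coeff_zero] at this
    · have := congrArg (coeff m) (k2.trans a2)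
      rwa [coeff_map, coeff_zero] at this
    · exact k3.trans a3
    · simpa only [e4, map_sub, map_add, map_mul, map_one, aevalTower_X] using a4
    · simpa only [e5, map_sub, map_mul, map_one, aevalTower_X, k0] using a5
  · intro t' t hT ht
    obtain ⟨k0, k1, k2, k3⟩ := key _ _ ht
    refine (sol_iff (hF.map _) (hH.map _) (hG.map _) _ _).2 ⟨fun v => t' (X v), ?_, ?_, ?_, ?_, ?_,
      fun i => ?_, fun j => rfl⟩
    · rw [← k1]
      ext m
      rw [coeff_map, coeff_zero]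
      exact hT _ (Or.inl (Or.inl ⟨m, rfl⟩))
    · rw [← k2]
      ext m
      rw [coeff_map, coeff_zero]
      exact hT _ (Or.inl (Or.inr ⟨m, rfl⟩))
    · rw [← k3]
      exact hT _ (Or.inr (Or.inl rfl))
    · simpa only [e4, map_sub, map_add, map_mul, map_one] using
        hT e4 (Or.inr (Or.inr (Or.inl rfl)))
    · simpa only [e5, map_sub, map_mul, map_one, k0] using hT e5 (Or.inr (Or.inr (Or.inr rfl)))
    · simp only [map_mul, k0]

end PlUpP

end Pool.Agent.P.MP_2b2d3b_ag
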