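import Pool.Agent.P.MP_2b2d3b_ag.Bun

/-!
Pull backs of bundles and extension of functionals.
-/

namespace Pool.Agent.P.MP_2b2d3b_ag

open MvPolynomial

variable {F : Pol ℂ} {B : Type} [CommRing B] [Algebra ℂ B] {B' : Type} [CommRing B'] [Algebra ℂ B']
  {B'' : Type} [CommRing B''] [Algebra ℂ B'']

/-- elements with a multiple by a power of `x` in `S` -/
def satM {R M : Type} [CommRing R] [AddCommGroup M] [Module R M] (S : Submodule R M) (x : R) :
    Submodule R M where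
  carrier := {u | ∃ k : ℕ, x ^ k • u ∈ S}
  zero_mem' := ⟨0, by simp⟩
  add_mem' := by
    rintro u v ⟨k, hk⟩ ⟨l, hl⟩
    refine ⟨k + l, ?_⟩
    rw [smul_add]
    refine S.add_mem ?_ ?_
    · rw [pow_add, mul_comm, mul_smul]; exact S.smul_mem _ hk
    · rw [pow_add, mul_smul]; exact S.smul_mem _ hl
  smul_mem' := by
    rintro a u ⟨k, hk⟩
    exact ⟨k, by rw [smul_comm]; exact S.smul_mem _ hk⟩

theorem satM_of_pow {R M : Type} [CommRing R] [AddCommGroup M] [Module R M] {S : Submodule R M}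
    {x : R} {u : M} {k : ℕ} (h : x ^ k • u ∈ satM S x) : ∃ k : ℕ, x ^ k • u ∈ S := by
  obtain ⟨l, hl⟩ := h
  exact ⟨l + k, by rwa [pow_add, mul_smul]⟩

/-- the map that exhibits a pull back -/
structure Pull (φ : B →ₐ[ℂ] B') (E : Bundle F B) (E' : Bundle F B') (θ : E.M →+ E'.M) : Prop where
  semi : Semi φ θ
  hom : ∀ d, ∀ u ∈ E.gr.piece d, θ u ∈ E'.gr.piece d
  surj : ∀ (u : E'.M) (i : Fin 4), ∃ k : ℕ,
    (X i : Pol B') ^ k • u ∈ Submodule.span (Pol B') (Set.range θ)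

theorem IsPull.exists {φ : B →ₐ[ℂ] B'} {E : Bundle F B} {E' : Bundle F B'} (h : IsPull φ E E') :
    ∃ θ, Pull φ E E' θ := by
  obtain ⟨θ, h1, h2, h3⟩ := h
  exact ⟨θ, h1, h2, h3⟩

theorem Pull.isPull {φ : B →ₐ[ℂ] B'} {E : Bundle F B} {E' : Bundle F B'} {θ : E.M →+ E'.M}
    (h : Pull φ E E' θ) : IsPull φ E E' := ⟨θ, h.semi, h.hom, h.surj⟩

theorem Pull.refl (E : Bundle F B) : Pull (AlgHom.id ℂ B) E E (AddMonoidHom.id _) where
  semi a u := by rw [map_algId]; rfl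
  hom _ _ h := h
  surj u _ := ⟨0, Submodule.subset_span ⟨u, by simp⟩⟩

theorem IsPull.refl (E : Bundle F B) : IsPull (AlgHom.id ℂ B) E E := (Pull.refl E).isPull

theorem Semi.comp {φ : B →ₐ[ℂ] B'} {ψ : B' →ₐ[ℂ] B''} {M M' M'' : Type} [AddCommGroup M]
    [Module (Pol B) M] [AddCommGroup M'] [Module (Pol B') M'] [AddCommGroup M'']
    [Module (Pol B'') M''] {θ : M →+ M'} {θ' : M' →+ M''} (h : Semi φ θ) (h' : Semi ψ θ') :
    Semi (ψ.comp φ) (θ'.comp θ) := fun a u => by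
  rw [AddMonoidHom.comp_apply, h, h', map_map]
  rfl

theorem semi_mapR (φ : B →ₐ[ℂ] B') : Semi φ (mapR F φ : Rq F B →+ Rq F B') := fun a u => by
  simp only [smul_mq, AddMonoidHom.coe_coe, map_mul, mapR_mq]

/-- a semilinear map over the identity is linear -/
def Semi.lin {M M' : Type} [AddCommGroup M] [Module (Pol B) M] [AddCommGroup M']
    [Module (Pol B) M'] {θ : M →+ M'} {φ : B →ₐ[ℂ] B} (h : Semi φ θ) (hφ : φ = AlgHom.id ℂ B) :
    M →ₗ[Pol B] M' where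
  toFun := θ
  map_add' := θ.map_add
  map_smul' a u := by rw [h, hφ, map_algId]; rfl

theorem Pull.comp {φ : B →ₐ[ℂ] B'} {ψ : B' →ₐ[ℂ] B''} {E : Bundle F B} {E' : Bundle F B'}
    {E'' : Bundle F B''} {θ : E.M →+ E'.M} {θ' : E'.M →+ E''.M} (h : Pull φ E E' θ)
    (h' : Pull ψ E' E'' θ') : Pull (ψ.comp φ) E E'' (θ'.comp θ) where
  semi := h.semi.comp h'.semi
  hom d u hu := h'.hom d _ (h.hom d u hu)
  surj u i := by
    obtain ⟨k, hk⟩ := h'.surj u i
    refine satM_of_pow (Submodule.span_le.mpr ?_ hk)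
    rintro _ ⟨v, rfl⟩
    obtain ⟨l, hl⟩ := h.surj v i
    refine ⟨l, ?_⟩
    have : (X i : Pol B'') ^ l • θ' v = θ' ((X i : Pol B') ^ l • v) := by
      rw [h'.semi]; simp
    rw [this]
    refine Submodule.span_induction
      (p := fun x _ => θ' x ∈ Submodule.span (Pol B'') (Set.range (θ'.comp θ))) ?_ ?_ ?_ ?_ hl
    · rintro _ ⟨w, rfl⟩
      exact Submodule.subset_span ⟨w, rfl⟩
    · simp
    · intro x y _ _ hx hy
      rw [map_add]; exact Submodule.add_mem _ hx hy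
    · intro a x _ hx
      rw [h'.semi]; exact Submodule.smul_mem _ _ hx

theorem IsPull.comp {φ : B →ₐ[ℂ] B'} {ψ : B' →ₐ[ℂ] B''} {E : Bundle F B} {E' : Bundle F B'}
    {E'' : Bundle F B''} (h : IsPull φ E E') (h' : IsPull ψ E' E'') :
    IsPull (ψ.comp φ) E E'' := by
  obtain ⟨θ, h⟩ := h.exists
  obtain ⟨θ', h'⟩ := h'.exists
  exact (h.comp h').isPull

theorem IsPull.trans {E E' E'' : Bundle F B} (h : IsPull (AlgHom.id ℂ B) E E')
    (h' : IsPull (AlgHom.id ℂ B) E' E'') : IsPull (AlgHom.id ℂ B) E E'' := by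
  have := h.comp h'
  rwa [AlgHom.comp_id] at this

/-- the pairs that are locally combinations of two pairs -/
def locSub {R M : Type} [CommRing R] [AddCommGroup M] [Module R M] {q : Ideal R} (hq : q.IsPrime)
    (m1 m2 : M) : Submodule R M where
  carrier := {u | ∃ c ∉ q, ∃ α β : R, c • u = α • m1 + β • m2}
  zero_mem' := ⟨1, (Ideal.ne_top_iff_one q).mp hq.ne_top, 0, 0, by simp⟩
  add_mem' := by
    rintro u v ⟨c, hc, α, β, e⟩ ⟨c', hc', α', β', e'⟩
    refine ⟨c * c', not_mem_mul hq hc hc', c' * α + c * α', c' * β + c * β', ?_⟩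
    have : (c * c') • (u + v) = c' • (c • u) + c • (c' • v) := by
      simp only [smul_add, smul_smul, mul_comm c c']
    rw [this, e, e']
    simp only [smul_add, add_smul, smul_smul]
    abel
  smul_mem' := by
    rintro a u ⟨c, hc, α, β, e⟩
    exact ⟨c, hc, a * α, a * β, by rw [smul_comm, e, smul_add, smul_smul, smul_smul]⟩

section

variable {φ : B →ₐ[ℂ] B'} {E : Bundle F B} {E' : Bundle F B'} {θ : E.M →+ E'.M}

theorem Semi.loc {M' : Type} [AddCommGroup M'] [Module (Pol B') M'] {σ : E.M →+ M'}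
    (h : Semi φ σ) {q : Ideal (Pol B')} (hq : q.IsPrime) {m1 m2 : E.M}
    (hg : Gens E (q.comap (map (φ : B →+* B'))) m1 m2) :
    Submodule.span (Pol B') (Set.range σ) ≤ locSub hq (σ m1) (σ m2) := by
  rw [Submodule.span_le]
  rintro _ ⟨u, rfl⟩
  obtain ⟨c, hc, α, β, e⟩ := hg u
  exact ⟨_, hc, _, _, by rw [← h, e, map_add, h, h]⟩

theorem Pull.gens (h : Pull φ E E' θ) {q : Ideal (Pol B')} (hq : q.IsPrime) (hi : ∃ i, X i ∉ q)
    {m1 m2 : E.M} (hg : Gens E (q.comap (map (φ : B →+* B'))) m1 m2) :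
    Gens E' q (θ m1) (θ m2) := fun u => by
  obtain ⟨i, hi⟩ := hi
  obtain ⟨k, hk⟩ := h.surj u i
  obtain ⟨c, hc, α, β, e⟩ := h.semi.loc hq hg hk
  exact ⟨c * X i ^ k, not_mem_mul hq hc fun h => hi (hq.mem_of_pow_mem _ h), α, β,
    by rw [mul_smul, e]⟩

theorem Gens.indep {q : Ideal (Pol B)} (hq : q.IsPrime) (hF : bc F B ∈ q) (hi : ∃ i, X i ∉ q)
    {m1 m2 : E.M} (hg : Gens E q m1 m2) : ∃ b ∉ q, ∀ α β : Pol B, α • m1 + β • m2 = 0 →
      mq F B b * mq F B α = 0 ∧ mq F B b * mq F B β = 0 := by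
  obtain ⟨ω, hω⟩ := E.exists_pairing
  obtain ⟨b, hb, e⟩ := hω.unit_gens hq hF hi hg
  refine ⟨b, hb, fun α β h => ?_⟩
  have h1 := congrArg (fun x => ω x m2) h
  have h2 := congrArg (fun x => ω x m1) h
  simp only [map_add, map_smul, LinearMap.add_apply, LinearMap.smul_apply, hω.alt, smul_mq,
    hω.skew m1 m2, e, map_zero, LinearMap.zero_apply] at h1 h2
  exact ⟨by linear_combination h1, by linear_combination -h2⟩

theorem comap_X {q : Ideal (Pol B')} (hi : ∃ i, X i ∉ q) :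
    ∃ i, X i ∉ q.comap (map (φ : B →+* B')) := by
  obtain ⟨i, hi⟩ := hi
  exact ⟨i, by simpa using hi⟩

/-- two pull backs have the same kernel up to torsion -/
theorem Pull.tor {E₂ : Bundle F B'} {θ₂ : E.M →+ E₂.M} (h : Pull φ E E' θ) (h₂ : Semi φ θ₂)
    {u : E.M} (hu : θ u = 0) : Tor B' (θ₂ u) := fun i =>
  exists_pow_mem (LinearMap.ker (LinearMap.toSpanSingleton (Pol B') _ (θ₂ u))) (X i)
    fun q hq hi => by
    by_cases hF : bc F B' ∈ q
    · obtain ⟨m1, m2, hg⟩ := E.exists_gens (Ideal.comap_isPrime (map (φ : B →+* B')) q)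
        (comap_X ⟨i, hi⟩)
      obtain ⟨b, hb, e⟩ := (h.gens hq ⟨i, hi⟩ hg).indep hq hF ⟨i, hi⟩
      obtain ⟨c, hc, α, β, e1⟩ := hg u
      have e2 := congrArg θ e1
      rw [h.semi, hu, smul_zero, map_add, h.semi, h.semi] at e2
      obtain ⟨f1, f2⟩ := e _ _ e2.symm
      refine ⟨b * map (φ : B →+* B') c, ?_, not_mem_mul hq hb hc⟩
      change (b * map (φ : B →+* B') c) • θ₂ u = 0
      rw [mul_smul, ← h₂, e1, map_add, h₂, h₂, smul_add, ← mul_smul, ← mul_smul, E₂.kill,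
        E₂.kill, add_zero]
      · rw [map_mul, f2]
      · rw [map_mul, f1]
    · exact ⟨_, E₂.rankTwo.kill _, hF⟩

/-- a functional that vanishes on the image vanishes -/
theorem Pull.semi_zero (hR : Rg F) (h : Pull φ E E' θ) {ψ : B' →ₐ[ℂ] B''} {σ : E'.M →+ Rq F B''}
    (hσ : Semi ψ σ) (h0 : ∀ u, σ (θ u) = 0) (u : E'.M) : σ u = 0 := by
  obtain ⟨k, hk⟩ := h.surj u 3
  apply hR.nzdR (i := 3) (by decide) k
  have : mq F B'' (X 3 ^ k) * σ u = σ ((X 3 : Pol B') ^ k • u) := by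
    rw [hσ, smul_mq]; simp
  rw [this]
  refine Submodule.span_induction (p := fun x _ => σ x = 0) ?_ ?_ ?_ ?_ hk
  · rintro _ ⟨w, rfl⟩
    exact h0 w
  · simp
  · intro x y _ _ hx hy
    rw [map_add, hx, hy, add_zero]
  · intro a x _ hx
    rw [hσ, hx, smul_zero]

theorem Pull.fun_zero (hR : Rg F) (h : Pull φ E E' θ) {s : E'.M →ₗ[Pol B'] Rq F B'}
    (h0 : ∀ u, s (θ u) = 0) : s = 0 :=
  LinearMap.ext fun u => h.semi_zero hR (semi_id s) h0 u

/-- a functional is graded if it is graded on generators -/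
theorem isFun_of_gens (hR : Rg F) {s : E'.M →ₗ[Pol B'] Rq F B'} {j : ℕ} {T : Set E'.M}
    (hT : ∀ u ∈ T, ∀ d, s (E'.gr.cp d u) ∈ HomR F B' (d + j))
    (hs : ∀ u, ∃ k : ℕ, (X 3 : Pol B') ^ k • u ∈ Submodule.span (Pol B') T) : IsFun E' j s := by
  intro d u hu
  obtain ⟨k, hk⟩ := hs u
  let K := E'.gr.sub (fun d => (HomR F B' (d + j)).comap s.toAddMonoidHom) fun n d a ha u _ h => by
    change s (a • u) ∈ HomR F B' (d + n + j)
    rw [map_smul, smul_mq, show d + n + j = n + (d + j) by omega]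
    exact HomR.mul (mq_mem ha) h
  have h1 : Submodule.span (Pol B') T ≤ K := Submodule.span_le.mpr hT
  have h2 := (E'.gr.mem_sub_of_mem (E'.gr.smul_mem k d _ u
    (by simpa using (isHomogeneous_X B' 3).pow k) hu)).mp (h1 hk)
  change s (_ • u) ∈ HomR F B' (d + k + j) at h2
  rw [map_smul, smul_mq, show d + k + j = d + j + k by omega] at h2
  exact HomR.cancelX hR h2

theorem Pull.cp (h : Pull φ E E' θ) (d : ℕ) (u : E.M) : E'.gr.cp d (θ u) = θ (E.gr.cp d u) := by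
  induction u using E.gr.induction with
  | h0 => simp
  | hadd u v hu hv => simp only [map_add, hu, hv]
  | hom e u hu =>
    rw [Grading.cp_of_mem hu, Grading.cp_of_mem (h.hom e u hu)]
    split_ifs <;> simp

/-- extension of a semilinear functional to the pull back -/
theorem Pull.ext (hR : Rg F) (h : Pull φ E E' θ) {σ : E.M →+ Rq F B'} (hσ : Semi φ σ) :
    ∃ s : E'.M →ₗ[Pol B'] Rq F B', (∀ u, s (θ u) = σ u) ∧
      ∀ j, (∀ d, ∀ u ∈ E.gr.piece d, σ u ∈ HomR F B' (d + j)) → IsFun E' j s := by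
  let Θ : E.M →+ E'.M × Rq F B' := θ.prod σ
  have hΘ : Semi φ Θ := fun a u => Prod.ext (h.semi a u) (hσ a u)
  let Γ := Submodule.span (Pol B') (Set.range Θ)
  have c1 : ∀ r, ((0 : E'.M), r) ∈ Γ → r = 0 := fun r hr => hR.zero_of_loc fun q hq hF h3 => by
    obtain ⟨m1, m2, hg⟩ := E.exists_gens (Ideal.comap_isPrime (map (φ : B →+* B')) q)
      (comap_X ⟨3, h3⟩)
    obtain ⟨b, hb, e⟩ := (h.gens hq ⟨3, h3⟩ hg).indep hq hF ⟨3, h3⟩
    obtain ⟨c, hc, α, β, e1⟩ := hΘ.loc hq hg hr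
    have e2 : c • (0 : E'.M) = α • θ m1 + β • θ m2 := congrArg Prod.fst e1
    have e3 : c • r = α • σ m1 + β • σ m2 := congrArg Prod.snd e1
    rw [smul_zero] at e2
    obtain ⟨f1, f2⟩ := e _ _ e2.symm
    refine ⟨b * c, not_mem_mul hq hb hc, ?_⟩
    simp only [smul_mq] at e3
    rw [map_mul]
    linear_combination mq F B' b * e3 + σ m1 * f1 + σ m2 * f2
  have c2 : ∀ x ∈ Submodule.span (Pol B') (Set.range θ), ∃ r, (x, r) ∈ Γ := fun x hx => by
    have : Submodule.span (Pol B') (Set.range θ) ≤ Γ.map (LinearMap.fst _ _ _) := by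
      rw [Submodule.span_le]
      rintro _ ⟨u, rfl⟩
      exact ⟨Θ u, Submodule.subset_span ⟨u, rfl⟩, rfl⟩
    obtain ⟨p, hp, rfl⟩ := this hx
    exact ⟨p.2, hp⟩
  have uniq : ∀ x r r', (x, r) ∈ satM Γ (X 3) → (x, r') ∈ satM Γ (X 3) → r = r' := by
    intro x r r' h1 h2
    obtain ⟨k, hk⟩ := Submodule.sub_mem _ h1 h2
    rw [Prod.mk_sub_mk, sub_self, Prod.smul_mk, smul_zero] at hk
    exact sub_eq_zero.mp (hR.nzdR (i := 3) (by decide) k _ (c1 _ hk))
  have ex : ∀ x, ∃ r, (x, r) ∈ satM Γ (X 3) := fun x => by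
    obtain ⟨k, hk⟩ := h.surj x 2
    obtain ⟨l, hl⟩ := h.surj x 3
    obtain ⟨r2, h2⟩ := c2 _ hk
    obtain ⟨r3, h3⟩ := c2 _ hl
    have h4 := Γ.sub_mem (Γ.smul_mem ((X 2 : Pol B') ^ (k + l) * X 3 ^ k) h3)
      (Γ.smul_mem ((X 3 : Pol B') ^ (k + l) * X 2 ^ l) h2)
    rw [Prod.smul_mk, Prod.smul_mk, Prod.mk_sub_mk, ← mul_smul, ← mul_smul,
      show (X 2 : Pol B') ^ (k + l) * X 3 ^ k * X 3 ^ l = X 3 ^ (k + l) * X 2 ^ l * X 2 ^ k by ring,
      sub_self] at h4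
    have h5 := c1 _ h4
    rw [sub_eq_zero, smul_mq, smul_mq, map_mul, map_mul, mul_assoc, mul_assoc] at h5
    obtain ⟨r, hr⟩ := hR.regR (k + l) h5
    refine ⟨r, k + l, ?_⟩
    have h6 := Γ.smul_mem ((X 3 : Pol B') ^ k) h3
    rwa [Prod.smul_mk, ← mul_smul, ← pow_add, smul_mq, hr, ← smul_mq, ← Prod.smul_mk] at h6
  choose f hf using ex
  let s : E'.M →ₗ[Pol B'] Rq F B' :=
    { toFun := f
      map_add' := fun x y => uniq _ _ _ (hf _) (Submodule.add_mem _ (hf x) (hf y))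
      map_smul' := fun a x => uniq _ _ _ (hf _) (Submodule.smul_mem _ a (hf x)) }
  have hs : ∀ u, s (θ u) = σ u := fun u =>
    uniq _ _ _ (hf _) ⟨0, by rw [pow_zero, one_smul]; exact Submodule.subset_span ⟨u, rfl⟩⟩
  refine ⟨s, hs, fun j hj => isFun_of_gens hR (T := Set.range θ) ?_ fun u => h.surj u 3⟩
  rintro _ ⟨u, rfl⟩ d
  rw [h.cp, hs]
  exact hj d _ (E.gr.cp_mem d u)

/-- pull back of a functional -/
theorem Pull.ext_fun (hR : Rg F) (h : Pull φ E E' θ) {j : ℕ} {s : E.M →ₗ[Pol B] Rq F B}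
    (hs : IsFun E j s) : ∃ s' : E'.M →ₗ[Pol B'] Rq F B', IsFun E' j s' ∧
      ∀ u, s' (θ u) = mapR F φ (s u) := by
  obtain ⟨s', h1, h2⟩ := h.ext hR (σ := (mapR F φ : Rq F B →+ Rq F B').comp s.toAddMonoidHom)
    ((semi_id s).comp (semi_mapR φ))
  exact ⟨s', h2 j fun d u hu => HomR.map φ (hs d u hu), h1⟩

end

end Pool.Agent.P.MP_2b2d3b_ag
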