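import Pool.Agent.P.MP_2b2d3b_ag.Defs
import Pool.Agent.P.MP_2b2d3b_ag.Biv
import Pool.Agent.P.MP_2b2d3b_ag.Der

/-!
Restriction of forms to an affine chart of a plane, and homogenisation.
-/

namespace Pool.Agent.P.MP_2b2d3b_ag

open Polynomial

variable {B : Type} [CommRing B]

/-- the point `g₀ + x g₁ + y g₂` -/
noncomputable def pt (g : Matrix (Fin 4) (Fin 4) B) (i : Fin 4) : B[X][X] :=
  C (C (g i 0)) + C (C (g i 1)) * C X + C (C (g i 2)) * X

/-- restriction to the affine chart -/
noncomputable def rho (g : Matrix (Fin 4) (Fin 4) B) : Pol B →ₐ[B] B[X][X] :=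
  MvPolynomial.aeval (pt g)

@[simp] theorem rho_X (g : Matrix (Fin 4) (Fin 4) B) (i : Fin 4) :
    rho g (MvPolynomial.X i) = pt g i := by simp [rho]

@[simp] theorem rho_C (g : Matrix (Fin 4) (Fin 4) B) (c : B) :
    rho g (MvPolynomial.C c) = C (C c) := by
  simp [rho]

theorem linForm_hom (c : Fin 4 → B) : (linForm c).IsHomogeneous 1 :=
  MvPolynomial.IsHomogeneous.sum _ _ _ fun i _ => MvPolynomial.isHomogeneous_C_mul_X _ _

theorem map_linForm {B' : Type} [CommRing B'] (φ : B →+* B') (c : Fin 4 → B) :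
    MvPolynomial.map φ (linForm c) = linForm fun i => φ (c i) := by
  simp [linForm]

theorem rho_map {B' : Type} [CommRing B'] (φ : B →+* B') (g : Matrix (Fin 4) (Fin 4) B)
    (P : Pol B) : rho (g.map φ) (MvPolynomial.map φ P) = (rho g P).map (mapRingHom φ) := by
  induction P using MvPolynomial.induction_on with
  | C a => simp
  | add p q ih ih' => simp [ih, ih']
  | mul_X p i ih => simp [ih, pt]

theorem TD_pt (g : Matrix (Fin 4) (Fin 4) B) (i : Fin 4) : TD 1 (pt g i) :=
  (((TD.CC _).mono (by omega)).add ((TD.C_of_natDegree natDegree_X_le).smul _)).add (TD.Y.smul _)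

theorem hom_induction {R : Type} [CommRing R] (φ : Pol B →+* R) (T : ℕ → R → Prop)
    (h0 : ∀ d, T d 0) (hadd : ∀ d a b, T d a → T d b → T d (a + b))
    (hC : ∀ c, T 0 (φ (MvPolynomial.C c)))
    (hX : ∀ d a i, T d a → T (d + 1) (a * φ (MvPolynomial.X i)))
    {P : Pol B} {d : ℕ} (hP : P.IsHomogeneous d) : T d (φ P) := by
  classical
  have key : ∀ (n : ℕ) (s : Fin 4 →₀ ℕ) (c : B), s.degree = n →
      T n (φ (MvPolynomial.monomial s c)) := by
    intro n
    induction n with
    | zero =>
      intro s c hs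
      rw [Finsupp.degree_eq_zero_iff] at hs
      subst hs
      exact hC c
    | succ n ih =>
      intro s c hs
      obtain ⟨i, hi⟩ : ∃ i, s i ≠ 0 := by
        by_contra hcon
        push Not at hcon
        have : s = 0 := Finsupp.ext hcon
        rw [this] at hs
        simp at hs
      obtain ⟨s', rfl⟩ : ∃ s', s = s' + Finsupp.single i 1 :=
        ⟨s - Finsupp.single i 1, by
          rw [tsub_add_cancel_of_le]
          rw [Finsupp.single_le_iff]; omega⟩
      rw [MvPolynomial.monomial_add_single, pow_one, map_mul]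
      refine hX _ _ _ (ih _ _ ?_)
      rw [map_add, Finsupp.degree_single] at hs
      omega
  rw [P.as_sum, map_sum]
  refine Finset.sum_induction _ (T d) (hadd d) (h0 d) fun s hs => key _ _ _ ?_
  by_contra hne
  exact (MvPolynomial.mem_support_iff.mp hs) (hP.coeff_eq_zero hne)

theorem TD_rho (g : Matrix (Fin 4) (Fin 4) B) {P : Pol B} {d : ℕ} (hP : P.IsHomogeneous d) :
    TD d (rho g P) :=
  hom_induction (rho g : Pol B →+* B[X][X]) TD (fun _ => TD.zero) (fun _ _ _ => TD.add)
    (fun c => by simpa using TD.CC c) (fun _ _ i h => by simpa using h.mul (TD_pt g i)) hP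

/-- scaling the argument of a form -/
theorem eval₂_scale {R : Type} [CommRing R] (φ : B →+* R) (q : Fin 4 → R) (w : R) {P : Pol B}
    {d : ℕ} (hP : P.IsHomogeneous d) :
    MvPolynomial.eval₂ φ (fun i => w * q i) P = w ^ d * MvPolynomial.eval₂ φ q P := by
  have := hom_induction
    ((MvPolynomial.eval₂Hom φ fun i => w * q i).prod (MvPolynomial.eval₂Hom φ q))
    (fun d a => a.1 = w ^ d * a.2) (fun _ => by simp)
    (fun d a b ha hb => by simp only [Prod.fst_add, Prod.snd_add, ha, hb]; ring)
    (fun c => by simp)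
    (fun d a i ha => by simp [ha]; ring) hP
  simpa using this

/-- the coefficient of `y ^ d` -/
theorem coeff_rho (g : Matrix (Fin 4) (Fin 4) B) {P : Pol B} {d : ℕ} (hP : P.IsHomogeneous d) :
    (rho g P).coeff d = C (MvPolynomial.eval (fun i => g i 2) P) := by
  have := hom_induction
    ((rho g : Pol B →+* B[X][X]).prod (MvPolynomial.eval fun i => g i 2))
    (fun d a => a.1.natDegree ≤ d ∧ a.1.coeff d = C a.2) (fun _ => by simp)
    (fun d a b ha hb => ⟨(natDegree_add_le _ _).trans (max_le ha.1 hb.1), by simp [ha.2, hb.2]⟩)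
    (fun c => by simp)
    (fun d a i ha => by
      have h1 : (pt g i).natDegree ≤ 1 := (TD_pt g i).natDegree_le
      refine ⟨natDegree_mul_le.trans (add_le_add ha.1 (by simpa using h1)), ?_⟩
      simp only [RingHom.prod_apply, Prod.fst_mul, Prod.snd_mul, RingHom.coe_coe, rho_X,
        MvPolynomial.eval_X]
      rw [coeff_mul_add_eq_of_natDegree_le ha.1 h1, ha.2]
      simp [pt, coeff_C, ← map_mul]) hP
  simpa using this.2

section Coord

variable {g g' : Matrix (Fin 4) (Fin 4) B}

theorem rho_linForm (g : Matrix (Fin 4) (Fin 4) B) (c : Fin 4 → B) :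
    rho g (linForm c) = C (C (∑ j, c j * g j 0)) + C (C (∑ j, c j * g j 1)) * C X +
      C (C (∑ j, c j * g j 2)) * X := by
  simp only [linForm, map_sum, map_mul, rho_C, rho_X, pt, Finset.sum_mul,
    ← Finset.sum_add_distrib]
  exact Finset.sum_congr rfl fun j _ => by ring

theorem sum_inv (hg : g * g' = 1) (k l : Fin 4) :
    ∑ j, g' k j * g j l = if k = l then 1 else 0 := by
  have h : g' * g = 1 := mul_eq_one_comm.mp hg
  have := congrFun (congrFun h k) l
  rwa [Matrix.mul_apply, Matrix.one_apply] at this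

theorem rho_U0 (hg : g * g' = 1) : rho g (linForm (g' 0)) = 1 := by
  simp [rho_linForm, sum_inv hg]

theorem rho_U1 (hg : g * g' = 1) : rho g (linForm (g' 1)) = C X := by
  simp [rho_linForm, sum_inv hg]

theorem rho_U2 (hg : g * g' = 1) : rho g (linForm (g' 2)) = X := by
  simp [rho_linForm, sum_inv hg]

theorem rho_U3 (hg : g * g' = 1) : rho g (linForm (g' 3)) = 0 := by
  simp [rho_linForm, sum_inv hg]

theorem X_eq_sum (hg : g * g' = 1) (i : Fin 4) :
    (MvPolynomial.X i : Pol B) = ∑ k, MvPolynomial.C (g i k) * linForm (g' k) := by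
  simp only [linForm, Finset.mul_sum, ← mul_assoc, ← map_mul]
  rw [Finset.sum_comm]
  simp only [← Finset.sum_mul, ← map_sum]
  have : ∀ j, ∑ k, g i k * g' k j = if i = j then 1 else 0 := fun j => by
    have := congrFun (congrFun hg i) j
    rwa [Matrix.mul_apply, Matrix.one_apply] at this
  simp [this, apply_ite MvPolynomial.C]

theorem X_eq (hg : g * g' = 1) (i : Fin 4) :
    (MvPolynomial.X i : Pol B) = MvPolynomial.C (g i 0) * linForm (g' 0) +
      MvPolynomial.C (g i 1) * linForm (g' 1) + MvPolynomial.C (g i 2) * linForm (g' 2) +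
      MvPolynomial.C (g i 3) * linForm (g' 3) := by
  rw [X_eq_sum hg, Fin.sum_univ_four]

theorem U_regular (hg : g * g' = 1) (k : Fin 4) (p : Pol B) (h : linForm (g' k) * p = 0) :
    p = 0 := by
  let κ : Pol B →ₐ[B] Pol B := MvPolynomial.aeval fun i => linForm (g i)
  let κ' : Pol B →ₐ[B] Pol B := MvPolynomial.aeval fun i => linForm (g' i)
  have h1 : κ'.comp κ = AlgHom.id B _ := by
    apply MvPolynomial.algHom_ext
    intro i
    simp only [κ, κ', AlgHom.comp_apply, MvPolynomial.aeval_X, AlgHom.id_apply]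
    rw [X_eq_sum hg i, linForm]
    simp
  have h2 : κ (linForm (g' k)) = MvPolynomial.X k := by
    rw [X_eq_sum (mul_eq_one_comm.mp hg) k, linForm]
    simp [κ]
  have h3 := congrArg κ h
  rw [map_mul, h2, map_zero] at h3
  have h4 : κ p = 0 := (MvPolynomial.isRegular_X (n := k)).left (by simpa using h3)
  have h5 := AlgHom.congr_fun h1 p
  rw [AlgHom.comp_apply, h4, map_zero] at h5
  exact h5.symm

theorem exists_hom (hg : g * g' = 1) {d : ℕ} {p : B[X][X]} (hp : TD d p) :
    ∃ P : Pol B, P.IsHomogeneous d ∧ rho g P = p := by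
  refine ⟨∑ j ∈ Finset.range (d + 1), ∑ i ∈ Finset.range (d + 1 - j),
    MvPolynomial.C ((p.coeff j).coeff i) *
      (linForm (g' 0) ^ (d - j - i) * linForm (g' 1) ^ i * linForm (g' 2) ^ j), ?_, ?_⟩
  · refine MvPolynomial.IsHomogeneous.sum _ _ _ fun j hj =>
      MvPolynomial.IsHomogeneous.sum _ _ _ fun i hi => MvPolynomial.IsHomogeneous.C_mul ?_ _
    have hj' := Finset.mem_range.mp hj
    have hi' := Finset.mem_range.mp hi
    have := (((linForm_hom (g' 0)).pow (d - j - i)).mul ((linForm_hom (g' 1)).pow i)).mul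
      ((linForm_hom (g' 2)).pow j)
    convert this using 1
    omega
  · conv_rhs => rw [hp.eq_sum]
    simp [rho_U0 hg, rho_U1 hg, rho_U2 hg, mul_assoc]

theorem exists_hom_ge (hg : g * g' = 1) (p : B[X][X]) :
    ∃ N, ∀ d ≥ N, ∃ P : Pol B, P.IsHomogeneous d ∧ rho g P = p := by
  obtain ⟨N, hN⟩ := exists_TD p
  exact ⟨N, fun d hd => exists_hom hg (hN.mono hd)⟩

theorem rho_surjective (hg : g * g' = 1) : Function.Surjective (rho g) := fun p => by
  obtain ⟨N, hN⟩ := exists_hom_ge hg p
  obtain ⟨P, -, hP⟩ := hN N le_rfl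
  exact ⟨P, hP⟩

theorem sub_mem_of_X {R : Type} [CommRing R] (φ ψ : Pol B →+* R) (I : Ideal R)
    (hC : ∀ c, φ (MvPolynomial.C c) = ψ (MvPolynomial.C c))
    (hX : ∀ i, φ (MvPolynomial.X i) - ψ (MvPolynomial.X i) ∈ I) (P : Pol B) :
    φ P - ψ P ∈ I := by
  have : (Ideal.Quotient.mk I).comp φ = (Ideal.Quotient.mk I).comp ψ := by
    apply MvPolynomial.ringHom_ext
    · intro c; simp [hC]
    · intro i; simpa [Ideal.Quotient.eq] using hX i
  have := RingHom.congr_fun this P
  simpa [Ideal.Quotient.eq] using this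

/-- a form vanishing on the chart is divisible by the equation of the plane -/
theorem mem_of_rho_eq_zero (hg : g * g' = 1) {d : ℕ} {P : Pol B} (hP : P.IsHomogeneous d)
    (h : rho g P = 0) : P ∈ Ideal.span {linForm (g' 3)} := by
  set U0 := linForm (g' 0)
  let L := Localization.Away U0
  let a : Pol B →+* L := algebraMap _ L
  let w : L := IsLocalization.Away.invSelf U0
  have hw : a U0 * w = 1 := IsLocalization.Away.mul_invSelf U0
  let ψ : B[X][X] →+* L := eval₂RingHom (eval₂RingHom (a.comp MvPolynomial.C)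
    (a (linForm (g' 1)) * w)) (a (linForm (g' 2)) * w)
  let q : Fin 4 → Pol B := fun i => MvPolynomial.X i - MvPolynomial.C (g i 3) * linForm (g' 3)
  have e1 : ψ.comp (rho g : Pol B →+* B[X][X]) =
      MvPolynomial.eval₂Hom (a.comp MvPolynomial.C) fun i => w * a (q i) := by
    apply MvPolynomial.ringHom_ext
    · intro c; simp [ψ]
    · intro i
      have := congrArg a (X_eq hg i)
      simp only [map_add, map_mul] at this
      simp only [ψ, q, RingHom.comp_apply, RingHom.coe_coe, rho_X, pt, map_add, map_mul,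
        coe_eval₂RingHom, eval₂_C, eval₂_X, MvPolynomial.eval₂Hom_X', map_sub, this]
      linear_combination (-a (MvPolynomial.C (g i 0))) * hw
  have e2 := RingHom.congr_fun e1 P
  rw [RingHom.comp_apply, RingHom.coe_coe, h, map_zero, MvPolynomial.coe_eval₂Hom,
    eval₂_scale _ _ _ hP] at e2
  have e3 : MvPolynomial.eval₂ (a.comp MvPolynomial.C) (fun i => a (q i)) P =
      a (MvPolynomial.eval₂ MvPolynomial.C q P) := by
    rw [MvPolynomial.eval₂_comp_left]; rfl
  have e4 : a (MvPolynomial.eval₂ MvPolynomial.C q P) = 0 := by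
    rw [← e3]
    have : IsUnit (w ^ d) := (IsUnit.of_mul_eq_one_right _ hw).pow d
    exact this.mul_right_eq_zero.mp e2.symm
  obtain ⟨⟨_, k, rfl⟩, hk⟩ := (IsLocalization.map_eq_zero_iff (Submonoid.powers U0) L _).mp e4
  have e5 : ∀ (k : ℕ) (p : Pol B), U0 ^ k * p = 0 → p = 0 := by
    intro k
    induction k with
    | zero => intro p hp; simpa using hp
    | succ k ih =>
      intro p hp
      exact U_regular hg 0 p (ih _ (by rw [← hp]; ring))
  have e6 := e5 _ _ hk
  have e7 := sub_mem_of_X (RingHom.id _) (MvPolynomial.eval₂Hom MvPolynomial.C q)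
    (Ideal.span {linForm (g' 3)}) (by simp)
    (fun i => by simpa [q] using Ideal.mul_mem_left _ _ (Ideal.mem_span_singleton_self _)) P
  rw [MvPolynomial.coe_eval₂Hom, e6] at e7
  simpa using e7

/-- the matrix of the homogeneous chart `w g₀ + x g₁ + y g₂` over `B[w]` -/
noncomputable def gw (g : Matrix (Fin 4) (Fin 4) B) : Matrix (Fin 4) (Fin 4) B[X] :=
  fun i k => if k = 0 then C (g i 0) * X else C (g i k)

/-- restriction to the plane -/
noncomputable def rhoh (g : Matrix (Fin 4) (Fin 4) B) : Pol B →+* B[X][X][X] :=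
  (rho (gw g) : Pol B[X] →+* B[X][X][X]).comp (MvPolynomial.map C)

theorem rhoh_apply (g : Matrix (Fin 4) (Fin 4) B) (P : Pol B) :
    rhoh g P = rho (gw g) (MvPolynomial.map C P) := rfl

theorem rhoh_C (g : Matrix (Fin 4) (Fin 4) B) (c : B) :
    rhoh g (MvPolynomial.C c) = C (C (C c)) := by simp [rhoh_apply]

theorem rhoh_U (hg : g * g' = 1) (k : Fin 4) :
    rhoh g (linForm (g' k)) = ![C (C X), C X, X, 0] k := by
  have h0 : ∑ j, C (g' k j) * gw g j 0 = C (∑ j, g' k j * g j 0) * X := by
    simp [gw, Finset.sum_mul, mul_assoc]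
  have h1 : ∑ j, C (g' k j) * gw g j 1 = C (∑ j, g' k j * g j 1) := by simp [gw]
  have h2 : ∑ j, C (g' k j) * gw g j 2 = C (∑ j, g' k j * g j 2) := by simp [gw]
  rw [rhoh_apply, map_linForm, rho_linForm, h0, h1, h2]
  simp only [sum_inv hg]
  fin_cases k <;> simp

theorem mem_iff_rhoh (hg : g * g' = 1) (s : Set (Pol B)) (P : Pol B) :
    P ∈ Ideal.span s ⊔ Ideal.span {linForm (g' 3)} ↔
      rhoh g P ∈ (Ideal.span s).map (rhoh g) := by
  constructor
  · intro h
    obtain ⟨a, ha, b, hb, rfl⟩ := Submodule.mem_sup.mp h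
    obtain ⟨c, rfl⟩ := Ideal.mem_span_singleton'.mp hb
    rw [map_add, map_mul, rhoh_U hg]
    simpa using Ideal.mem_map_of_mem _ ha
  · intro h
    let ι : B[X][X][X] →+* Pol B := eval₂RingHom (eval₂RingHom (eval₂RingHom MvPolynomial.C
      (linForm (g' 0))) (linForm (g' 1))) (linForm (g' 2))
    have e : ∀ Q, Q - ι (rhoh g Q) ∈ Ideal.span {linForm (g' 3)} := fun Q =>
      sub_mem_of_X (RingHom.id _) (ι.comp (rhoh g)) _ (fun c => by simp [ι, rhoh_C])
        (fun i => by
          have : ι (rhoh g (MvPolynomial.X i)) =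
              MvPolynomial.X i - MvPolynomial.C (g i 3) * linForm (g' 3) := by
            conv_rhs => rw [X_eq hg i]
            simp [ι, rhoh_apply, pt, gw]
          simpa [this] using Ideal.mul_mem_left _ _ (Ideal.mem_span_singleton_self _)) Q
    have h2 : ι (rhoh g P) ∈ Ideal.span s ⊔ Ideal.span {linForm (g' 3)} := by
      have : (Ideal.span s).map (rhoh g) ≤
          (Ideal.span s ⊔ Ideal.span {linForm (g' 3)}).comap ι := by
        rw [Ideal.map_le_iff_le_comap]
        intro Q hQ
        have := Submodule.sub_mem _ (Submodule.mem_sup_left hQ) (Submodule.mem_sup_right (e Q))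
        simpa using this
      exact this h
    have := Submodule.add_mem _ h2 (Submodule.mem_sup_right (e P))
    simpa using this

/-- evaluation of the restriction at a point of the chart -/
theorem evalEval_rho (g : Matrix (Fin 4) (Fin 4) B) (x y : B) (P : Pol B) :
    (rho g P).evalEval x y = MvPolynomial.eval (fun i => g i 0 + g i 1 * x + g i 2 * y) P := by
  induction P using MvPolynomial.induction_on with
  | C a => simp
  | add p q ih ih' => simp [evalEval_add, ih, ih']
  | mul_X p i ih => simp [evalEval_mul, ih, pt, evalEval_add, evalEval_C]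

theorem derivative_rho (g : Matrix (Fin 4) (Fin 4) B) (P : Pol B) :
    derivative (rho g P) = ∑ i, rho g (MvPolynomial.pderiv i P) * C (C (g i 2)) := by
  have := (isDer_derivative (R := B[X])).aeval (A := B) (fun a => by
    change derivative (C (C a)) = 0
    simp) (pt g) P
  simpa [rho, pt] using this

theorem PD_derivative_rho (g : Matrix (Fin 4) (Fin 4) B) (P : Pol B) :
    PD (fun p : B[X] => derivative p) (rho g P) =
      ∑ i, rho g (MvPolynomial.pderiv i P) * C (C (g i 1)) := by
  have hd := isDer_derivative (R := B)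
  have := hd.pd.aeval (A := B) (fun a => by
    change PD _ (C (C a)) = 0
    simp [PD_C hd]) (pt g) P
  rw [rho, this]
  refine Finset.sum_congr rfl fun i _ => ?_
  congr 1
  simp [pt, hd.pd.add, hd.pd.mul, PD_C hd, PD_X hd]

end Coord

end Pool.Agent.P.MP_2b2d3b_ag
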