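import Pool.Agent.P.MP_2b2d3b_ag.Bas

/-!
The family of schemes on two skew lines or a double line.
-/

namespace Pool.Agent.P.MP_2b2d3b_ag.Sp1P

open Polynomial

variable {B : Type} [CommRing B] {B' : Type} [CommRing B']

theorem span_top [Nontrivial B] {g : B[X]} {γ : B[X][X]} (hg : g.Monic) (hg2 : g.natDegree = 2)
    (hγ : γ.Monic) (hγ6 : γ.natDegree = 6) (S : Submodule B B[X][X]) (h1 : ∀ h, γ * h ∈ S)
    (h2 : ∀ h, C g * h ∈ S) (h3 : ∀ i < 6, (X : B[X][X]) ^ i ∈ S)
    (h4 : ∀ i < 6, C X * (X : B[X][X]) ^ i ∈ S) (o : B[X][X]) : o ∈ S := by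
  rw [← modByMonic_add_div o γ]
  refine add_mem ?_ (h1 _)
  have hlt : (o %ₘ γ).natDegree < 6 := by
    rw [← hγ6]
    refine natDegree_modByMonic_lt o hγ fun h => ?_
    rw [h, natDegree_one] at hγ6
    omega
  rw [(o %ₘ γ).as_sum_range_C_mul_X_pow' hlt]
  refine sum_mem fun i hi => ?_
  have hi' := Finset.mem_range.1 hi
  set c := (o %ₘ γ).coeff i
  have hlt2 : (c %ₘ g).natDegree < 2 := by
    rw [← hg2]
    refine natDegree_modByMonic_lt c hg fun h => ?_
    rw [h, natDegree_one] at hg2
    omega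
  have h5 := eq_X_add_C_of_natDegree_le_one (p := c %ₘ g) (by omega)
  have h6 : C c * (X : B[X][X]) ^ i = (c %ₘ g).coeff 1 • (C X * X ^ i) + (c %ₘ g).coeff 0 • X ^ i +
      C g * (C (c /ₘ g) * X ^ i) := by
    conv_lhs => rw [← modByMonic_add_div c g, h5]
    simp only [Algebra.smul_def, Polynomial.algebraMap_apply, Algebra.algebraMap_self,
      RingHom.id_apply, map_add, map_mul]
    ring
  rw [h6]
  exact add_mem (add_mem (S.smul_mem _ (h4 i hi')) (S.smul_mem _ (h3 i hi'))) (h2 _)

theorem sum_coeff {q : B[X]} (hq : q.natDegree < 6) :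
    ∑ i : Fin 6, C (q.coeff i) * X ^ (i : ℕ) = q := by
  rw [Fin.sum_univ_eq_sum_range (fun i => C (q.coeff i) * X ^ i) 6]
  exact (q.as_sum_range_C_mul_X_pow' hq).symm

/-- the parameters of the family -/
structure Dat (B : Type) where
  k0 : B
  k1 : B
  r : B
  a1 : B
  b0 : B
  b1 : B
  σ : Fin 5 → B
  f : Fin 6 → B
  h : Fin 3 → Fin 4 → B
  bc : Fin 11 → Mon 6 → B

namespace Dat

/-- base change -/
def map (φ : B →+* B') (d : Dat B) : Dat B' :=
  ⟨φ d.k0, φ d.k1, φ d.r, φ d.a1, φ d.b0, φ d.b1, fun i => φ (d.σ i), fun i => φ (d.f i),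
    fun i k => φ (d.h i k), fun i m => φ (d.bc i m)⟩

variable (d : Dat B) (c : ℕ)

/-- the equation of the two lines -/
noncomputable def g : B[X] := (X - C d.k0) * (X - C d.k1)

/-- the five points -/
noncomputable def s : B[X] := ∏ i, (X - C (d.σ i))

/-- the sextic on the first line -/
noncomputable def u : B[X] := (X - C d.r) * d.s

/-- the first order term of the sextic -/
noncomputable def f1 : B[X] := ∑ i : Fin 6, C (d.f i) * X ^ (i : ℕ)

/-- the sextic -/
noncomputable def γ : B[X][X] := d.u.map C + C (X - C d.k0) * d.f1.map C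

/-- the numerator on the first line -/
noncomputable def p0 : B[X] := C d.a1 * (X - C d.r)

/-- the first order term of the numerator -/
noncomputable def q1 : B[X] := C d.b1 * X + C d.b0

/-- the numerator -/
noncomputable def p : B[X][X] := d.p0.map C + C (X - C d.k0) * d.q1.map C

/-- the coordinates -/
def H : Matrix (Fin 4) (Fin 4) B := Matrix.of fun k =>
  ![d.h 0 k, d.h 1 k, d.h 2 k, (![1, 0, 0, 0] : Fin 4 → B) k - c * d.h 2 k - (c : B) ^ 2 * d.h 1 k -
    (c : B) ^ 3 * d.h 0 k]

/-- the universal point of the quadric -/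
noncomputable def pt (i : Fin 4) : B[X][X] :=
  C (C (d.H c 0 i)) + C (C (d.H c 1 i)) * X + C (C (d.H c 2 i)) * C X +
    C (C (d.H c 3 i)) * (X * C X)

/-- evaluation at the universal point -/
noncomputable def ev : Pol B →ₐ[B] B[X][X] := MvPolynomial.aeval (d.pt c)

/-- the double residue -/
noncomputable def lamO : B[X][X] →ₗ[B] B :=
  (tau d.g 1).comp (((tau d.γ 5).restrictScalars B).comp (LinearMap.mulLeft B d.p))

/-- the functional -/
noncomputable def Λ : Pol B →ₗ[B] B := d.lamO.comp (d.ev c).toLinearMap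

/-- the sextic forms -/
noncomputable def b (i : Fin 11) : Pol B := form (d.bc i)

/-- the Gram determinant -/
noncomputable def gram : B := (Matrix.of fun i j => d.Λ c (d.b i * d.b j)).det

/-- the sextic on the second line -/
noncomputable def γ1 : B[X] := d.u + C (d.k1 - d.k0) * d.f1

/-- the numerator on the second line -/
noncomputable def p1 : B[X] := d.p0 + C (d.k1 - d.k0) * d.q1

/-- the discriminant of the family -/
noncomputable def δ : B := (d.k1 - d.k0) * d.a1 * (d.a1 + (d.k1 - d.k0) * d.b1) * (d.H c).det *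
  (Matrix.vandermonde d.σ).det * resultant d.γ1 (derivative d.γ1 * d.p1) 6 6

theorem lamO_apply (o : B[X][X]) : d.lamO o = tau d.g 1 (tau d.γ 5 (d.p * o)) := rfl

theorem Λ_apply (a : Pol B) : d.Λ c a = d.lamO (d.ev c a) := rfl

theorem g_monic : d.g.Monic := (monic_X_sub_C _).mul (monic_X_sub_C _)

theorem g_deg [Nontrivial B] : d.g.natDegree = 2 := by
  rw [g, (monic_X_sub_C _).natDegree_mul (monic_X_sub_C _), natDegree_X_sub_C, natDegree_X_sub_C]

theorem s_monic : d.s.Monic := monic_prod_of_monic _ _ fun _ _ => monic_X_sub_C _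

theorem s_deg [Nontrivial B] : d.s.natDegree = 5 := by
  rw [s, natDegree_prod_of_monic _ _ fun _ _ => monic_X_sub_C _]
  simp

theorem u_monic : d.u.Monic := (monic_X_sub_C _).mul d.s_monic

theorem u_deg [Nontrivial B] : d.u.natDegree = 6 := by
  rw [u, (monic_X_sub_C _).natDegree_mul d.s_monic, natDegree_X_sub_C, s_deg]

theorem f1_deg : d.f1.natDegree ≤ 5 :=
  natDegree_sum_le_of_forall_le _ _ fun i _ =>
    (natDegree_C_mul_X_pow_le _ _).trans (by have := i.2; omega)

theorem monic_add {R : Type} [CommRing R] {v w : R[X]} (hv : v.Monic) (h6 : v.natDegree = 6)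
    (hw : w.natDegree ≤ 5) : (v + w).Monic ∧ (v + w).natDegree = 6 :=
  ⟨hv.add_of_left (degree_lt_degree (by omega)),
    (natDegree_add_eq_left_of_natDegree_lt (by omega)).trans h6⟩

theorem γ_spec [Nontrivial B] : d.γ.Monic ∧ d.γ.natDegree = 6 :=
  monic_add (d.u_monic.map _) ((d.u_monic.natDegree_map _).trans d.u_deg)
    ((natDegree_C_mul_le _ _).trans (natDegree_map_le.trans d.f1_deg))

theorem γ1_spec [Nontrivial B] : d.γ1.Monic ∧ d.γ1.natDegree = 6 :=
  monic_add d.u_monic d.u_deg ((natDegree_C_mul_le _ _).trans d.f1_deg)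

theorem p0_deg : d.p0.natDegree ≤ 1 := (natDegree_C_mul_le _ _).trans (natDegree_X_sub_C_le _)

theorem q1_deg : d.q1.natDegree ≤ 1 := natDegree_linear_le

theorem p_deg : d.p.natDegree ≤ 1 :=
  (natDegree_add_le _ _).trans (max_le (natDegree_map_le.trans d.p0_deg)
    ((natDegree_C_mul_le _ _).trans (natDegree_map_le.trans d.q1_deg)))

theorem p1_deg : d.p1.natDegree ≤ 1 :=
  (natDegree_add_le _ _).trans (max_le d.p0_deg ((natDegree_C_mul_le _ _).trans d.q1_deg))

theorem pt_deg (i : Fin 4) : (d.pt c i).natDegree ≤ 1 := by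
  unfold pt
  compute_degree

theorem ev_deg {a : Pol B} {n : ℕ} (ha : a.IsHomogeneous n) : (d.ev c a).natDegree ≤ n :=
  hom_induction (d.ev c : Pol B →+* B[X][X]) (fun n o => o.natDegree ≤ n) (fun _ => by simp)
    (fun _ _ _ h h' => (natDegree_add_le _ _).trans (max_le h h'))
    (fun r => by simp [ev, Polynomial.algebraMap_apply])
    (fun _ _ i h => natDegree_mul_le.trans (add_le_add h (by simpa [ev] using d.pt_deg c i))) ha

theorem ev_wc : d.ev c (wc B c) = 1 := by
  simp [ev, wc, pt, H]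
  ring

section map

variable (φ : B →+* B')

theorem map_g : (d.map φ).g = d.g.map φ := by simp [g, map]

theorem map_s : (d.map φ).s = d.s.map φ := by simp [s, map, Polynomial.map_prod]

theorem map_u : (d.map φ).u = d.u.map φ := by simp [u, map_s]; simp [map]

theorem map_f1 : (d.map φ).f1 = d.f1.map φ := by simp [f1, map, Polynomial.map_sum]

theorem map_p0 : (d.map φ).p0 = d.p0.map φ := by simp [p0, map]

theorem map_q1 : (d.map φ).q1 = d.q1.map φ := by simp [q1, map]

theorem map_CC (v : B[X]) : (v.map C).map (mapRingHom φ) = (v.map φ).map C := by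
  rw [Polynomial.map_map, Polynomial.map_map]
  congr 1
  ext r
  simp

theorem map_γ : (d.map φ).γ = d.γ.map (mapRingHom φ) := by
  rw [γ, γ, map_u, map_f1, Polynomial.map_add, Polynomial.map_mul, map_CC, map_CC]
  simp [map]

theorem map_p : (d.map φ).p = d.p.map (mapRingHom φ) := by
  rw [p, p, map_p0, map_q1, Polynomial.map_add, Polynomial.map_mul, map_CC, map_CC]
  simp [map]

theorem map_γ1 : (d.map φ).γ1 = d.γ1.map φ := by
  rw [γ1, γ1, map_u, map_f1]
  simp [map]

theorem map_p1 : (d.map φ).p1 = d.p1.map φ := by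
  rw [p1, p1, map_p0, map_q1]
  simp [map]

theorem map_H : (d.map φ).H c = (d.H c).map φ := by
  ext k i
  fin_cases k <;> fin_cases i <;> simp [H, map]

theorem map_pt (i : Fin 4) : (d.map φ).pt c i = (d.pt c i).map (mapRingHom φ) := by
  simp [pt, map_H]

theorem map_ev (a : Pol B) :
    (d.map φ).ev c (MvPolynomial.map φ a) = (d.ev c a).map (mapRingHom φ) := by
  induction a using MvPolynomial.induction_on with
  | C r => simp [ev, Polynomial.algebraMap_apply]
  | add p q hp hq => simp only [map_add, hp, hq, Polynomial.map_add]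
  | mul_X p i hp =>
    simp only [map_mul, hp, Polynomial.map_mul, MvPolynomial.map_X]
    simp [ev, map_pt]

theorem map_lamO [Nontrivial B] (o : B[X][X]) :
    (d.map φ).lamO (o.map (mapRingHom φ)) = φ (d.lamO o) := by
  rw [lamO_apply, lamO_apply, map_p, map_γ, ← Polynomial.map_mul, tau_map _ d.γ_spec.1, map_g,
    coe_mapRingHom, tau_map _ d.g_monic]

theorem map_Λ [Nontrivial B] (a : Pol B) :
    (d.map φ).Λ c (MvPolynomial.map φ a) = φ (d.Λ c a) := by
  rw [Λ_apply, Λ_apply, map_ev, map_lamO]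

theorem bcL_Λ [Nontrivial B] : bcL φ (d.Λ c) = (d.map φ).Λ c := bcL_eq φ (d.map_Λ c φ)

theorem map_b (i : Fin 11) : (d.map φ).b i = MvPolynomial.map φ (d.b i) := by
  rw [b, b, map_form]
  rfl

theorem map_gram [Nontrivial B] : (d.map φ).gram c = φ (d.gram c) := by
  rw [gram, gram, RingHom.map_det]
  congr 1
  ext i j
  simp only [Matrix.of_apply, RingHom.mapMatrix_apply, Matrix.map_apply, map_b]
  rw [← map_mul, map_Λ]

theorem map_δ : (d.map φ).δ c = φ (d.δ c) := by
  rw [δ, δ, map_γ1, map_p1, derivative_map, ← Polynomial.map_mul, resultant_map_map, map_H]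
  simp only [map_mul, RingHom.map_det, map_add, map_sub]
  congr 3
  ext i j
  simp [map]

end map

theorem lamO_γ [Nontrivial B] (o : B[X][X]) : d.lamO (d.γ * o) = 0 := by
  rw [lamO_apply, mul_left_comm, tau_mul_self d.γ_spec.1, map_zero]

theorem tau_C_mul {R : Type} [CommRing R] (f : R[X]) (n : ℕ) (r : R) (o : R[X]) :
    tau f n (C r * o) = r * tau f n o := by
  rw [← smul_eq_C_mul, map_smul, smul_eq_mul]

theorem lamO_g (o : B[X][X]) : d.lamO (C d.g * o) = 0 := by
  rw [lamO_apply, mul_left_comm, tau_C_mul, tau_mul_self d.g_monic]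

theorem lamO_n [Nontrivial B] (o : B[X][X]) : d.lamO (C (X - C d.k1) * d.s.map C * o) = 0 := by
  have key : d.p * (C (X - C d.k1) * d.s.map C * o) =
      d.γ * (C (C d.a1) * C (X - C d.k1) * o) +
        C d.g * ((d.q1.map C * d.s.map C - C (C d.a1) * d.f1.map C) * o) := by
    simp only [p, γ, g, p0, u, Polynomial.map_mul, map_mul, map_C, Polynomial.map_sub, map_X]
    ring
  rw [lamO_apply, key, map_add, tau_mul_self d.γ_spec.1, zero_add, tau_C_mul,
    tau_mul_self d.g_monic]

/-- the spanning family -/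
noncomputable def β (B : Type) [CommRing B] (i : Fin 11) : B[X][X] :=
  if (i : ℕ) < 6 then X ^ (i : ℕ) else C X * X ^ ((i : ℕ) - 6)

theorem span_β [Nontrivial B] (o : B[X][X]) :
    ∃ r : Fin 11 → B, o - ∑ i, r i • β B i ∈ rad d.lamO := by
  let S : Submodule B B[X][X] :=
    Submodule.span B (Set.range (β B)) ⊔ (rad d.lamO).restrictScalars B
  have hX : ∀ i < 6, (X : B[X][X]) ^ i ∈ S := fun i hi =>
    Submodule.mem_sup_left (Submodule.subset_span ⟨⟨i, by omega⟩, by simp [β, hi]⟩)
  have hY : ∀ i < 5, C X * (X : B[X][X]) ^ i ∈ S := fun i hi =>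
    Submodule.mem_sup_left (Submodule.subset_span ⟨⟨i + 6, by omega⟩, by simp [β]⟩)
  have ho : o ∈ S := by
    refine span_top d.g_monic d.g_deg d.γ_spec.1 d.γ_spec.2 S (fun h => ?_) (fun h => ?_) hX
      (fun i hi => ?_) o
    · exact Submodule.mem_sup_right fun e => by rw [mul_assoc]; exact d.lamO_γ _
    · exact Submodule.mem_sup_right fun e => by rw [mul_assoc]; exact d.lamO_g _
    · rcases Nat.lt_succ_iff_lt_or_eq.1 hi with hi | rfl
      · exact hY i hi
      · have h1 : C (X - C d.k1) * d.s.map C ∈ S := Submodule.mem_sup_right fun e => d.lamO_n e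
        have h2 : d.s.map (C : B →+* B[X]) =
            X ^ 5 + ∑ i ∈ Finset.range 5, d.s.coeff i • (X : B[X][X]) ^ i := by
          conv_lhs => rw [d.s_monic.as_sum, d.s_deg]
          simp [Polynomial.map_sum, Algebra.smul_def, Polynomial.algebraMap_apply]
        have h3 : C X * (X : B[X][X]) ^ 5 = C (X - C d.k1) * d.s.map C + d.k1 • X ^ 5 -
            ∑ i ∈ Finset.range 5, d.s.coeff i • (C X * (X : B[X][X]) ^ i - d.k1 • X ^ i) := by
          rw [h2]
          simp only [Finset.sum_range_succ, Finset.range_zero, Finset.sum_empty, Algebra.smul_def,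
            Polynomial.algebraMap_apply, Algebra.algebraMap_self, RingHom.id_apply, map_sub]
          ring
        rw [h3]
        refine sub_mem (add_mem h1 (S.smul_mem _ (hX 5 (by omega)))) (sum_mem fun i hi => ?_)
        have := Finset.mem_range.1 hi
        exact S.smul_mem _ (sub_mem (hY i this) (S.smul_mem _ (hX i (by omega))))
  obtain ⟨y, hy, z, hz, rfl⟩ := Submodule.mem_sup.1 ho
  obtain ⟨r, rfl⟩ := (Submodule.mem_span_range_iff_exists_fun B).1 hy
  exact ⟨r, by rw [add_sub_cancel_left]; exact hz⟩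

theorem Λ_cubic [Nontrivial B] {a : Pol B} (ha : a.IsHomogeneous 3) : d.lamO (d.ev c a) = 0 := by
  have h1 : (d.p * d.ev c a).natDegree ≤ 4 :=
    natDegree_mul_le.trans (add_le_add d.p_deg (d.ev_deg c ha))
  rw [lamO_apply, tau_of_lt d.γ_spec.1 _ (degree_lt_degree (by rw [d.γ_spec.2]; omega)),
    coeff_eq_zero_of_natDegree_lt (by omega), map_zero]

theorem gor [Nontrivial B] (hg : IsUnit (d.gram c)) : Gor c 6 (d.Λ c) d.b :=
  Gor.of_algebra d.lamO (d.ev c) (β B) d.b (d.ev_wc c) (fun _ ha => d.Λ_cubic c ha)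
    (fun _ => form_hom _) d.span_β (by simpa [gram, Λ_apply] using hg)

end Dat

end Pool.Agent.P.MP_2b2d3b_ag.Sp1P
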