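import Pool.Agent.P.MP_2b2d3b_ag.Sp1A

/-!
The general member of the family lies on two skew lines.
-/

namespace Pool.Agent.P.MP_2b2d3b_ag.Sp1P

open Polynomial

theorem tau_prod {n : ℕ} {v : Fin (n + 1) → ℂ} (hv : Function.Injective v) (h : ℂ[X]) :
    tau (∏ i, (X - C (v i))) n h =
      ∑ i, h.eval (v i) / ∏ k ∈ Finset.univ.erase i, (v i - v k) := by
  set f : ℂ[X] := ∏ i, (X - C (v i)) with hf
  have hm : f.Monic := monic_prod_of_monic _ _ fun _ _ => monic_X_sub_C _
  have hd : f.degree = (n + 1 : ℕ) := by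
    rw [degree_eq_natDegree hm.ne_zero, hf, natDegree_prod_of_monic _ _ fun _ _ => monic_X_sub_C _]
    simp
  have h1 := Lagrange.coeff_eq_sum (s := Finset.univ) (v := v) hv.injOn (P := h %ₘ f) (by
    rw [Finset.card_univ, Fintype.card_fin, ← hd]
    exact degree_modByMonic_lt h hm)
  rw [Finset.card_univ, Fintype.card_fin, Nat.add_sub_cancel] at h1
  rw [tau_apply, h1]
  refine Finset.sum_congr rfl fun i _ => ?_
  congr 1
  have h2 : f.eval (v i) = 0 := by
    rw [hf, eval_prod]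
    exact Finset.prod_eq_zero (Finset.mem_univ i) (by simp)
  conv_rhs => rw [← modByMonic_add_div h f]
  rw [eval_add, eval_mul, h2, zero_mul, add_zero]

theorem tau_lin {s : ℂ[X]} (hs : s.Monic) (h5 : s.natDegree = 5) (r : ℂ) (h : ℂ[X]) :
    tau ((X - C r) * s) 5 ((X - C r) * h) = tau s 4 h := by
  have hm : ((X - C r) * s).Monic := (monic_X_sub_C r).mul hs
  have hlt : (h %ₘ s).natDegree < 5 := by
    rw [← h5]
    refine natDegree_modByMonic_lt h hs fun e => ?_
    rw [e, natDegree_one] at h5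
    omega
  have h1 : (X - C r) * h = (X - C r) * (h %ₘ s) + (X - C r) * s * (h /ₘ s) := by
    conv_lhs => rw [← modByMonic_add_div h s]
    ring
  have h2 : ((X - C r) * (h %ₘ s)).natDegree < ((X - C r) * s).natDegree := by
    rw [(monic_X_sub_C r).natDegree_mul hs, natDegree_X_sub_C, h5]
    refine natDegree_mul_le.trans_lt ?_
    rw [natDegree_X_sub_C]
    omega
  rw [h1, map_add, tau_mul_self hm, add_zero, tau_of_lt hm _ (degree_lt_degree h2), tau_apply,
    sub_mul, coeff_sub, coeff_X_mul, coeff_C_mul, coeff_eq_zero_of_natDegree_lt hlt, mul_zero,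
    sub_zero]

theorem tau_two {k0 k1 : ℂ} (hk : k1 - k0 ≠ 0) (h : ℂ[X]) :
    tau ((X - C k0) * (X - C k1)) 1 h = (h.eval k1 - h.eval k0) / (k1 - k0) := by
  have hv : Function.Injective ![k0, k1] := by
    intro i j hij
    fin_cases i <;> fin_cases j
    · rfl
    · exact absurd (sub_eq_zero.2 (Eq.symm hij)) hk
    · exact absurd (sub_eq_zero.2 hij) hk
    · rfl
  have h1 := tau_prod (n := 1) hv h
  rw [Fin.prod_univ_two, Fin.sum_univ_two] at h1
  have e0 : Finset.univ.erase (0 : Fin 2) = {1} := by decide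
  have e1 : Finset.univ.erase (1 : Fin 2) = {0} := by decide
  rw [e0, e1] at h1
  simp only [Matrix.cons_val_zero, Matrix.cons_val_one, Finset.prod_singleton] at h1
  have hk' : k0 - k1 ≠ 0 := fun e => hk (by linear_combination -e)
  rw [h1]
  field_simp
  ring

theorem exists_roots (n : ℕ) (f : ℂ[X]) (hf : f.Monic) (hn : f.natDegree = n) :
    ∃ v : Fin n → ℂ, f = ∏ i, (X - C (v i)) := by
  induction n generalizing f with
  | zero => exact ⟨fun i => i.elim0, by rw [eq_one_of_monic_natDegree_zero hf hn]; simp⟩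
  | succ n ih =>
    obtain ⟨r, hr⟩ := IsAlgClosed.exists_root f (by
      rw [degree_eq_natDegree hf.ne_zero, hn]
      exact_mod_cast Nat.succ_ne_zero n)
    obtain ⟨q, rfl⟩ := dvd_iff_isRoot.2 hr
    have hq : q.Monic := (monic_X_sub_C r).of_mul_monic_left hf
    rw [(monic_X_sub_C r).natDegree_mul hq, natDegree_X_sub_C] at hn
    obtain ⟨v, rfl⟩ := ih q hq (by omega)
    exact ⟨Fin.cons r v, by rw [Fin.prod_univ_succ]; simp⟩

theorem res_iff {f g : ℂ[X]} (hf : f.Monic) (h6 : f.natDegree = 6) (hg : g.natDegree ≤ 6) :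
    resultant f g 6 6 ≠ 0 ↔ IsCoprime f g := by
  obtain ⟨k, hk⟩ := Nat.exists_eq_add_of_le hg
  have h1 := resultant_add_right_deg f g 6 g.natDegree k le_rfl
  have h2 : f.coeff 6 = 1 := by rw [← h6]; exact hf.coeff_natDegree
  rw [← hk, h2, one_pow, one_mul] at h1
  rw [h1, ← isUnit_resultant_iff_isCoprime hf, isUnit_iff_ne_zero, h6]

namespace Dat

variable (d : Dat ℂ) (c : ℕ)

theorem res_deg : (derivative d.γ1 * d.p1).natDegree ≤ 6 := by
  refine natDegree_mul_le.trans ?_
  have h1 := natDegree_derivative_le d.γ1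
  have h2 := d.p1_deg
  rw [d.γ1_spec.2] at h1
  omega

theorem map_eval_C (k : ℂ) (v : ℂ[X]) : (v.map C).map (evalRingHom k) = v := by
  rw [Polynomial.map_map]
  have : (evalRingHom k).comp C = RingHom.id ℂ := by
    ext r
    simp
  rw [this, Polynomial.map_id]

theorem eval_ev (k x : ℂ) (a : Pol ℂ) : ((d.ev c a).map (evalRingHom k)).eval x =
    MvPolynomial.eval (d.H c 0 + x • d.H c 1 + k • d.H c 2 + (x * k) • d.H c 3) a := by
  induction a using MvPolynomial.induction_on with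
  | C r => simp [ev, Polynomial.algebraMap_apply]
  | add p q hp hq => simp only [map_add, Polynomial.map_add, eval_add, hp, hq]
  | mul_X p i hp =>
    simp only [map_mul, Polynomial.map_mul, eval_mul, hp]
    congr 1
    simp [ev, pt]
    ring

theorem Λ_formula (hk : d.k1 - d.k0 ≠ 0) (a : Pol ℂ) : d.Λ c a =
    (tau d.γ1 5 (d.p1 * (d.ev c a).map (evalRingHom d.k1)) -
      d.a1 * tau d.s 4 ((d.ev c a).map (evalRingHom d.k0))) / (d.k1 - d.k0) := by
  have h0 := tau_map (evalRingHom d.k0) d.γ_spec.1 5 (d.p * d.ev c a)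
  have h1 := tau_map (evalRingHom d.k1) d.γ_spec.1 5 (d.p * d.ev c a)
  rw [coe_evalRingHom] at h0 h1
  have e0 : d.γ.map (evalRingHom d.k0) = (X - C d.r) * d.s := by
    rw [γ, Polynomial.map_add, Polynomial.map_mul, map_eval_C, map_eval_C]
    simp [u]
  have e1 : d.γ.map (evalRingHom d.k1) = d.γ1 := by
    rw [γ, Polynomial.map_add, Polynomial.map_mul, map_eval_C, map_eval_C]
    simp [γ1]
  have e2 : d.p.map (evalRingHom d.k0) = C d.a1 * (X - C d.r) := by
    rw [p, Polynomial.map_add, Polynomial.map_mul, map_eval_C, map_eval_C]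
    simp [p0]
  have e3 : d.p.map (evalRingHom d.k1) = d.p1 := by
    rw [p, Polynomial.map_add, Polynomial.map_mul, map_eval_C, map_eval_C]
    simp [p1]
  rw [Polynomial.map_mul, e0, e2, mul_assoc, tau_C_mul, tau_lin d.s_monic d.s_deg] at h0
  rw [Polynomial.map_mul, e1, e3] at h1
  rw [Λ_apply, lamO_apply, g, tau_two hk, ← h0, ← h1]

theorem twoLines (hδ : d.δ c ≠ 0) : TwoLines c (d.Λ c) := by
  simp only [δ, ne_eq, mul_eq_zero, not_or] at hδ
  obtain ⟨⟨⟨⟨⟨hk, ha⟩, hA⟩, hH⟩, hσ⟩, hres⟩ := hδ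
  have hσ' : Function.Injective d.σ := Matrix.det_vandermonde_ne_zero_iff.1 hσ
  have hcop := (res_iff d.γ1_spec.1 d.γ1_spec.2 d.res_deg).1 hres
  obtain ⟨ρ, hρ⟩ := exists_roots 6 d.γ1 d.γ1_spec.1 d.γ1_spec.2
  have hsep : d.γ1.Separable := hcop.of_mul_right_left
  have hρ' : Function.Injective ρ := by
    rw [hρ] at hsep
    exact separable_prod_X_sub_C_iff.1 hsep
  set A : ℂ := d.a1 + (d.k1 - d.k0) * d.b1 with hAdef
  set ρ0 : ℂ := (d.a1 * d.r - (d.k1 - d.k0) * d.b0) / A with hρ0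
  have hp1 : ∀ x, d.p1.eval x = A * (x - ρ0) := fun x => by
    simp only [p1, p0, q1, eval_add, eval_mul, eval_C, eval_sub, eval_X]
    rw [hρ0, mul_sub A, mul_div_cancel₀ _ hA, hAdef]
    ring
  have hr0 : ∀ j, ρ j - ρ0 ≠ 0 := fun j hj => by
    obtain ⟨a, b, hab⟩ := hcop.of_mul_right_right
    have h1 := congrArg (eval (ρ j)) hab
    have h2 : d.γ1.eval (ρ j) = 0 := by
      rw [hρ, eval_prod]
      exact Finset.prod_eq_zero (Finset.mem_univ j) (by simp)
    rw [eval_add, eval_mul, eval_mul, h2, hp1, hj] at h1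
    simp at h1
  let M : Matrix (Fin 4) (Fin 4) ℂ :=
    !![1, 0, d.k0, 0; 0, 1, 0, d.k0; 1, ρ0, d.k1, ρ0 * d.k1; 0, 1, 0, d.k1]
  have hM : M.det = (d.k1 - d.k0) ^ 2 := by
    simp [M, Matrix.det_succ_row_zero, Fin.sum_univ_succ, Fin.succAbove]
    ring
  have hrow : ∀ k, (M * d.H c) k = ∑ l, M k l • d.H c l := fun k => by
    funext i
    simp [Matrix.mul_apply]
  have hk' : d.k0 - d.k1 ≠ 0 := fun e => hk (by linear_combination -e)
  refine ⟨M * d.H c, d.σ, fun j => ρ j - ρ0, d.a1 / (d.k0 - d.k1), A / (d.k1 - d.k0), ?_, hσ',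
    fun i j hij => hρ' (sub_left_injective hij), hr0, div_ne_zero ha hk', div_ne_zero hA hk,
    fun k => ?_, fun a => ?_⟩
  · rw [Matrix.det_mul, hM]
    exact mul_ne_zero (pow_ne_zero _ hk) hH
  · rw [eval_wc, hrow]
    fin_cases k <;> simp [M, H, Fin.sum_univ_four] <;> ring
  · rw [d.Λ_formula c hk, hρ, tau_prod (n := 5) hρ', s, tau_prod (n := 4) hσ', sub_div, sub_eq_neg_add,
      Finset.mul_sum, Finset.sum_div, Finset.sum_div, ← Finset.sum_neg_distrib]
    congr 1
    · refine Finset.sum_congr rfl fun i _ => ?_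
      have e1 : (M * d.H c) 0 + d.σ i • (M * d.H c) 1 =
          d.H c 0 + d.σ i • d.H c 1 + d.k0 • d.H c 2 + (d.σ i * d.k0) • d.H c 3 := by
        rw [hrow, hrow]
        simp [M, Fin.sum_univ_four, smul_smul]
        abel
      rw [eval_ev, e1]
      field_simp
      ring
    · refine Finset.sum_congr rfl fun j _ => ?_
      have e1 : (M * d.H c) 2 + (ρ j - ρ0) • (M * d.H c) 3 =
          d.H c 0 + ρ j • d.H c 1 + d.k1 • d.H c 2 + (ρ j * d.k1) • d.H c 3 := by
        rw [hrow, hrow]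
        simp [M, Fin.sum_univ_four]
        module
      rw [eval_mul, eval_ev, e1, hp1]
      simp only [sub_sub_sub_cancel_right]
      ring

end Dat

end Pool.Agent.P.MP_2b2d3b_ag.Sp1P
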