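import Pool.Agent.P.MP_2b2d3b_ag.Sp1B

/-!
The given scheme is a member of the family.
-/

namespace Pool.Agent.P.MP_2b2d3b_ag.Sp1P

open Polynomial Module

theorem red_one (k : ℂ) (o : ℂ[X][X]) : ∃ o' : ℂ[X][X], o'.natDegree ≤ o.natDegree ∧
    o = (o.map (evalRingHom k)).map C + C (X - C k) * o' := by
  have h1 : C (X - C k) ∣ o - (o.map (evalRingHom k)).map C := by
    rw [C_dvd_iff_dvd_coeff]
    intro i
    rw [coeff_sub, coeff_map, coeff_map, coe_evalRingHom]
    exact X_sub_C_dvd_sub_C_eval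
  obtain ⟨o', ho'⟩ := h1
  refine ⟨o', ?_, by rw [← ho']; ring⟩
  rw [← natDegree_C_mul (p := o') (X_sub_C_ne_zero k), ← ho']
  exact (natDegree_sub_le _ _).trans (max_le le_rfl (natDegree_map_le.trans natDegree_map_le))

theorem red_two (k0 k1 : ℂ) (o : ℂ[X][X]) : ∃ (o0 o1 : ℂ[X]) (e : ℂ[X][X]),
    o0.natDegree ≤ o.natDegree ∧ o1.natDegree ≤ o.natDegree ∧
    o = o0.map C + C (X - C k0) * o1.map C + C ((X - C k0) * (X - C k1)) * e := by
  obtain ⟨o', h1, h2⟩ := red_one k0 o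
  obtain ⟨e, -, h3⟩ := red_one k1 o'
  refine ⟨o.map (evalRingHom k0), o'.map (evalRingHom k1), e, natDegree_map_le,
    natDegree_map_le.trans h1, ?_⟩
  rw [map_mul]
  linear_combination h2 + C (X - C k0) * h3

/-- the quadratic equation of `y` -/
noncomputable def g0 (k : ℂ) : ℂ[X] := (X - C 0) * (X - C k)

theorem g0_monic (k : ℂ) : (g0 k).Monic := (monic_X_sub_C _).mul (monic_X_sub_C _)

theorem g0_deg (k : ℂ) : (g0 k).natDegree = 2 := by
  rw [g0, (monic_X_sub_C _).natDegree_mul (monic_X_sub_C _), natDegree_X_sub_C, natDegree_X_sub_C]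

theorem tau_g0 (k a b : ℂ) : tau (g0 k) 1 (C a + X * C b) = b := by
  rw [tau_of_lt (g0_monic k) _ (degree_lt_degree (by
    rw [g0_deg]
    exact Nat.lt_succ_of_le (by compute_degree)))]
  simp

theorem tau_g0' (k a b : ℂ) : tau (g0 k) 1 (X * (C a + X * C b)) = a + k * b := by
  have h : X * (C a + X * C b) = (C 0 + X * C (a + k * b)) + g0 k * C b := by
    simp only [g0, map_add, map_mul, map_zero]
    ring
  rw [h, map_add, tau_g0, tau_mul_self (g0_monic k), add_zero]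

theorem exists_rep (k : ℂ) {γ : ℂ[X][X]} (hγ : γ.Monic) (h6 : γ.natDegree = 6)
    (L : ℂ[X][X] →ₗ[ℂ] ℂ) (h1 : ∀ o, L (γ * o) = 0) (h2 : ∀ o, L (C (g0 k) * o) = 0)
    (h3 : ∀ i < 4, L (X ^ i) = 0 ∧ L (C X * X ^ i) = 0) :
    ∃ p : ℂ[X][X], p.natDegree ≤ 1 ∧ ∀ o, L o = tau (g0 k) 1 (tau γ 5 (p * o)) := by
  set P1 : ℂ[X] := C (L (C X * X ^ 4) - k * L (X ^ 4)) + X * C (L (X ^ 4)) with hP1
  set M : ℂ[X] := C (L (C X * X ^ 5) - k * L (X ^ 5)) + X * C (L (X ^ 5)) with hM
  set p : ℂ[X][X] := C P1 * X + C (M + P1 * γ.coeff 5) with hp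
  have hp1 : p.natDegree ≤ 1 := natDegree_linear_le
  have hlow : ∀ i < 5, tau γ 5 (p * X ^ i) = (p * X ^ i).coeff 5 := fun i hi =>
    tau_of_lt hγ _ (degree_lt_degree (by
      rw [h6]
      refine natDegree_mul_le.trans_lt ?_
      rw [natDegree_X_pow]
      omega))
  have t3 : ∀ i < 4, tau γ 5 (p * X ^ i) = 0 := fun i hi => by
    rw [hlow i (by omega)]
    refine coeff_eq_zero_of_natDegree_lt (natDegree_mul_le.trans_lt ?_)
    rw [natDegree_X_pow]
    omega
  have t4 : tau γ 5 (p * X ^ 4) = P1 := by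
    rw [hlow 4 (by omega), show 5 = 1 + 4 from rfl, coeff_mul_X_pow]
    simp [hp]
  have t6 : tau γ 5 (X ^ 6) = -γ.coeff 5 := by
    have e : (X : ℂ[X][X]) ^ 6 = (X ^ 6 - γ) + γ * 1 := by ring
    have hd : (X ^ 6 - γ : ℂ[X][X]).degree < γ.degree := by
      rw [← degree_neg, neg_sub]
      refine degree_sub_lt_left ?_ hγ.ne_zero ?_
      · rw [degree_X_pow, degree_eq_natDegree hγ.ne_zero, h6]
      · rw [hγ.leadingCoeff, leadingCoeff_X_pow]
    rw [e, map_add, tau_mul_self hγ, add_zero, tau_of_lt hγ _ hd]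
    simp [coeff_X_pow]
  have t5' : tau γ 5 (X ^ 5) = 1 := by
    rw [tau_of_lt hγ _ (degree_lt_degree (by rw [h6, natDegree_X_pow]; omega))]
    simp
  have t5 : tau γ 5 (p * X ^ 5) = M := by
    have e : p * X ^ 5 = C P1 * X ^ 6 + C (M + P1 * γ.coeff 5) * X ^ 5 := by rw [hp]; ring
    rw [e, map_add, Dat.tau_C_mul, Dat.tau_C_mul, t6, t5']
    ring
  let F : ℂ[X][X] →ₗ[ℂ] ℂ :=
    (tau (g0 k) 1).comp (((tau γ 5).restrictScalars ℂ).comp (LinearMap.mulLeft ℂ p))
  have hF : ∀ o, F o = tau (g0 k) 1 (tau γ 5 (p * o)) := fun _ => rfl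
  refine ⟨p, hp1, fun o => ?_⟩
  refine span_top (g0_monic k) (g0_deg k) hγ h6 (LinearMap.eqLocus L F) (fun h => ?_) (fun h => ?_)
    (fun i hi => ?_) (fun i hi => ?_) o
  · rw [LinearMap.mem_eqLocus, h1, hF, mul_left_comm, tau_mul_self hγ, map_zero]
  · rw [LinearMap.mem_eqLocus, h2, hF, mul_left_comm, Dat.tau_C_mul, tau_mul_self (g0_monic k)]
  · rw [LinearMap.mem_eqLocus, hF]
    by_cases h4 : i < 4
    · rw [(h3 i h4).1, t3 i h4, map_zero]
    · obtain rfl | rfl : i = 4 ∨ i = 5 := by omega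
      · rw [t4, hP1, tau_g0]
      · rw [t5, hM, tau_g0]
  · rw [LinearMap.mem_eqLocus, hF, mul_left_comm, Dat.tau_C_mul]
    by_cases h4 : i < 4
    · rw [(h3 i h4).2, t3 i h4, mul_zero, map_zero]
    · obtain rfl | rfl : i = 4 ∨ i = 5 := by omega
      · rw [t4, hP1, tau_g0']
        ring
      · rw [t5, hM, tau_g0']
        ring

theorem perf_rep (k : ℂ) {γ : ℂ[X][X]} (hγ : γ.Monic) (h6 : γ.natDegree = 6) {h0 h1 : ℂ[X]}
    (d0 : h0.natDegree ≤ 5) (d1 : h1.natDegree ≤ 5)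
    (H : ∀ o, tau (g0 k) 1 (tau γ 5 ((h0.map C + C X * h1.map C) * o)) = 0) : h0 = 0 ∧ h1 = 0 := by
  set h : ℂ[X][X] := h0.map C + C X * h1.map C with hh
  have hco : ∀ n, h.coeff n = C (h0.coeff n) + X * C (h1.coeff n) := fun n => by simp [hh]
  have hd : h.natDegree ≤ 5 := (natDegree_add_le _ _).trans (max_le (natDegree_map_le.trans d0)
    ((natDegree_C_mul_le _ _).trans (natDegree_map_le.trans d1)))
  have hz : h = 0 := by
    obtain ⟨m, hm⟩ := Nat.exists_eq_add_of_le hd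
    have t : tau γ 5 (h * X ^ m) = h.coeff h.natDegree := by
      rw [tau_of_lt hγ _ (degree_lt_degree (by
        rw [h6]
        refine natDegree_mul_le.trans_lt ?_
        rw [natDegree_X_pow]
        omega))]
      conv_lhs => rw [hm]
      rw [coeff_mul_X_pow]
    have e1 := H (X ^ m)
    have e2 := H (C X * X ^ m)
    rw [t, hco, tau_g0] at e1
    rw [mul_left_comm, Dat.tau_C_mul, t, hco, tau_g0', e1, mul_zero, add_zero] at e2
    rw [← leadingCoeff_eq_zero, leadingCoeff, hco, e1, e2]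
    simp
  have key : ∀ n, h0.coeff n = 0 ∧ h1.coeff n = 0 := fun n => by
    have e := hco n
    rw [hz, coeff_zero] at e
    have e0 := congrArg (fun q => coeff q 0) e
    have e1 := congrArg (fun q => coeff q 1) e
    simp at e0 e1
    exact ⟨e0.symm, e1.symm⟩
  exact ⟨Polynomial.ext fun n => (key n).1, Polynomial.ext fun n => (key n).2⟩

theorem coeff_sum_fin (a : Fin 6 → ℂ) (j : Fin 6) :
    (∑ i : Fin 6, C (a i) * X ^ (i : ℕ)).coeff j = a j := by
  rw [finsetSum_coeff, Finset.sum_eq_single j]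
  · simp
  · intro i _ hi
    rw [coeff_C_mul_X_pow, if_neg fun e => hi (Fin.ext e).symm]
  · simp

theorem deg_sum_fin (a : Fin 6 → ℂ) : (∑ i : Fin 6, C (a i) * X ^ (i : ℕ)).natDegree ≤ 5 :=
  natDegree_sum_le_of_forall_le _ _ fun i _ =>
    (natDegree_C_mul_X_pow_le _ _).trans (by have := i.2; omega)

variable {A : Type} [CommRing A] [Algebra ℂ A]

theorem gram_ne {lam : A →ₗ[ℂ] ℂ} (hp : ∀ a, (∀ b, lam (a * b) = 0) → a = 0) {n : ℕ}
    (e : Basis (Fin n) ℂ A) : (Matrix.of fun i j => lam (e i * e j)).det ≠ 0 := by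
  intro h
  obtain ⟨v, hv, h0⟩ := Matrix.exists_vecMul_eq_zero_iff.2 h
  have h1 : ∑ i, v i • e i = 0 := by
    refine hp _ fun b => ?_
    have h2 : lam.comp (LinearMap.mulLeft ℂ (∑ i, v i • e i)) = 0 := by
      refine e.ext fun j => ?_
      have := congrFun h0 j
      simpa [Matrix.vecMul, dotProduct, Finset.sum_mul] using this
    exact LinearMap.congr_fun h2 b
  exact hv (funext (Fintype.linearIndependent_iff.1 e.linearIndependent v h1))

theorem pi_map (x y : A) (v : ℂ[X]) : aevalTower (aeval y) x (v.map C) = aeval x v := by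
  induction v using Polynomial.induction_on' with
  | add p q hp hq => simp only [Polynomial.map_add, map_add, hp, hq]
  | monomial n a => simp [← C_mul_X_pow_eq_monomial]

theorem special (ev : Pol ℂ →ₐ[ℂ] A) (c : ℕ) (lam : A →ₗ[ℂ] ℂ) (F : Filt ev (wc ℂ c) lam 3)
    (h11 : finrank ℂ A = 11) (S : Spd ev) :
    ∃ d : Dat ℂ, d.Λ c = lam.comp ev.toLinearMap ∧ d.gram c ≠ 0 := by
  have := F.fin
  obtain ⟨x, y, k, hy, -, hV⟩ := S.str
  let π : ℂ[X][X] →ₐ[ℂ] A := aevalTower (aeval y) x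
  have hπX : π X = x := aevalTower_X _ _
  have hπC : ∀ q, π (C q) = aeval y q := fun q => aevalTower_C _ _ q
  have hπm : ∀ v : ℂ[X], π (v.map C) = aeval x v := pi_map x y
  have hco : ∀ i : Fin 4, ∃ co : Fin 4 → ℂ,
      ∑ l, co l • (![1, x, y, x * y] : Fin 4 → A) l = ev (MvPolynomial.X i) := fun i =>
    (Submodule.mem_span_range_iff_exists_fun ℂ).1
      (hV ▸ ⟨MvPolynomial.X i, MvPolynomial.isHomogeneous_X ℂ i, rfl⟩)
  choose co hco using hco
  have hev : ∀ d : Dat ℂ, (d.h = fun i => co i.castSucc) → ∀ a, π (d.ev c a) = ev a := by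
    intro d hd
    have h0 : π (d.pt c 0) = ev (MvPolynomial.X 0) := by
      rw [← hco]
      simp [Dat.pt, Dat.H, hd, hπX, hπC, Fin.sum_univ_four, Algebra.smul_def, mul_comm y x]
    have h1 : π (d.pt c 1) = ev (MvPolynomial.X 1) := by
      rw [← hco]
      simp [Dat.pt, Dat.H, hd, hπX, hπC, Fin.sum_univ_four, Algebra.smul_def, mul_comm y x]
    have h2 : π (d.pt c 2) = ev (MvPolynomial.X 2) := by
      rw [← hco]
      simp [Dat.pt, Dat.H, hd, hπX, hπC, Fin.sum_univ_four, Algebra.smul_def, mul_comm y x]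
    have h3 : π (d.pt c 3) = ev (MvPolynomial.X 3) := by
      have e1 := congrArg π (d.ev_wc c)
      have e2 := F.hw
      simp only [wc, Dat.ev, map_add, map_mul, map_pow, map_natCast, MvPolynomial.aeval_X, h0, h1,
        h2, map_one] at e1 e2
      linear_combination e1 - e2
    have : π.comp (d.ev c) = ev := MvPolynomial.algHom_ext fun i => by
      rw [AlgHom.comp_apply, Dat.ev, MvPolynomial.aeval_X]
      fin_cases i
      exacts [h0, h1, h2, h3]
    exact fun a => AlgHom.congr_fun this a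
  have hπg : π (C (g0 k)) = 0 := by
    rw [hπC]
    simp only [g0, map_mul, map_sub, aeval_X, aeval_C, map_zero, sub_zero]
    rw [mul_sub, hy, Algebra.smul_def]
    ring
  -- the sextic
  obtain ⟨U, W, hU, hU6, hW, hγ0⟩ : ∃ U W : ℂ[X], U.Monic ∧ U.natDegree = 6 ∧ W.natDegree ≤ 5 ∧
      π (U.map C + C X * W.map C) = 0 := by
    let d : Dat ℂ := ⟨0, 0, 0, 0, 0, 0, 0, 0, fun i => co i.castSucc, 0⟩
    obtain ⟨a, ha, hx⟩ : x ^ 6 ∈ V ev 5 := S.d5 ▸ Submodule.mem_top
    have hd := d.ev_deg c ha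
    obtain ⟨o0, o1, e, e0, e1, ho⟩ := red_two 0 k (d.ev c a)
    have hm := Dat.monic_add (monic_X_pow (R := ℂ) 6) (natDegree_X_pow 6) (w := -o0)
      (by rw [natDegree_neg]; omega)
    refine ⟨X ^ 6 + -o0, -o1, hm.1, hm.2, by rw [natDegree_neg]; omega, ?_⟩
    have h1 := congrArg π ho
    rw [hev d rfl, map_add, map_mul _ (C _) e] at h1
    change ev a = _ + π (C (g0 k)) * _ at h1
    change ev a = _ at hx
    rw [hπg, hx] at h1
    simp only [map_add, map_mul, hπm, map_neg, map_pow, aeval_X, map_zero, sub_zero] at h1 ⊢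
    linear_combination h1
  set γ : ℂ[X][X] := U.map C + C X * W.map C with hγ
  have hγs : γ.Monic ∧ γ.natDegree = 6 :=
    Dat.monic_add (hU.map _) ((hU.natDegree_map _).trans hU6)
      ((natDegree_C_mul_le _ _).trans (natDegree_map_le.trans hW))
  -- the functional
  have hcub : ∀ a ∈ V ev 1, ∀ b ∈ V ev 1, ∀ e ∈ V ev 1, lam (a * b * e) = 0 := by
    rintro _ ⟨a, ha, rfl⟩ _ ⟨b, hb, rfl⟩ _ ⟨e, he, rfl⟩
    have := F.kill (a * b * e) ((MvPolynomial.IsHomogeneous.mul ha hb).mul he)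
    simpa using this
  have m0 : (1 : A) ∈ V ev 1 := hV ▸ Submodule.subset_span ⟨0, rfl⟩
  have m1 : x ∈ V ev 1 := hV ▸ Submodule.subset_span ⟨1, rfl⟩
  have m2 : y ∈ V ev 1 := hV ▸ Submodule.subset_span ⟨2, rfl⟩
  have m3 : x * y ∈ V ev 1 := hV ▸ Submodule.subset_span ⟨3, rfl⟩
  obtain ⟨p, hp1, hL⟩ := exists_rep k hγs.1 hγs.2 (lam.comp π.toLinearMap)
    (fun o => by simp [hγ0]) (fun o => by simp [hπg]) (fun i hi => by
      simp only [LinearMap.comp_apply, AlgHom.toLinearMap_apply, map_pow, map_mul, hπX, hπC,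
        aeval_X]
      interval_cases i
      · exact ⟨by simpa using hcub _ m0 _ m0 _ m0, by simpa using hcub _ m2 _ m0 _ m0⟩
      · exact ⟨by simpa using hcub _ m1 _ m0 _ m0, by simpa using hcub _ m2 _ m1 _ m0⟩
      · exact ⟨by simpa [pow_two] using hcub _ m1 _ m1 _ m0,
          by simpa [pow_two, mul_assoc] using hcub _ m2 _ m1 _ m1⟩
      · exact ⟨by simpa [pow_three, mul_assoc] using hcub _ m1 _ m1 _ m1,
          by convert hcub _ m3 _ m1 _ m1 using 2; ring⟩)
  have hL' : ∀ o, lam (π o) = tau (g0 k) 1 (tau γ 5 (p * o)) := hL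
  -- a common zero
  have hI : Ideal.span {γ, C (g0 k), p} ≠ ⊤ := by
    intro hI
    have h1 : (1 : ℂ[X][X]) ∈ Ideal.span {γ, C (g0 k), p} := hI ▸ Submodule.mem_top
    obtain ⟨a, z, hz, h1⟩ := Ideal.mem_span_insert.1 h1
    obtain ⟨b, e, rfl⟩ := Ideal.mem_span_pair.1 hz
    have hdep : ¬ LinearIndependent ℂ
        (Sum.elim (fun i : Fin 6 => x ^ (i : ℕ)) fun i : Fin 6 => y * x ^ (i : ℕ)) := by
      intro h
      have := h.fintype_card_le_finrank
      simp [h11] at this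
    obtain ⟨t, ht, i, hi⟩ := Fintype.not_linearIndependent_iff.1 hdep
    have hz : π ((∑ i : Fin 6, C (t (Sum.inl i)) * X ^ (i : ℕ)).map C +
        C X * (∑ i : Fin 6, C (t (Sum.inr i)) * X ^ (i : ℕ)).map C) = 0 := by
      rw [map_add, map_mul, hπm, hπm, hπC, ← ht, Fintype.sum_sum_type]
      simp only [map_sum, map_mul, map_pow, aeval_C, aeval_X, Sum.elim_inl, Sum.elim_inr,
        Algebra.smul_def, Finset.mul_sum]
      congr 1
      exact Finset.sum_congr rfl fun i _ => by ring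
    have key := perf_rep k hγs.1 hγs.2 (deg_sum_fin fun i => t (Sum.inl i))
      (deg_sum_fin fun i => t (Sum.inr i)) fun o => by
        set h := (∑ i : Fin 6, C (t (Sum.inl i)) * X ^ (i : ℕ)).map C +
          C X * (∑ i : Fin 6, C (t (Sum.inr i)) * X ^ (i : ℕ)).map (C : ℂ →+* ℂ[X])
        have e1 : h * o = γ * (a * h * o) + C (g0 k) * (b * h * o) + p * (h * (e * o)) := by
          linear_combination h * o * h1
        rw [e1, map_add (tau γ 5), map_add (tau γ 5), tau_mul_self hγs.1, zero_add, Dat.tau_C_mul,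
          map_add, tau_mul_self (g0_monic k), zero_add, ← hL', map_mul, hz, zero_mul, map_zero]
    apply hi
    rcases i with i | i
    · rw [← coeff_sum_fin (fun i => t (Sum.inl i)) i, key.1, coeff_zero]
    · rw [← coeff_sum_fin (fun i => t (Sum.inr i)) i, key.2, coeff_zero]
  obtain ⟨χ, hχ⟩ := exists_algHom ℂ[X][X] _ hI
  set k0 : ℂ := χ (C X) with hk0
  set r : ℂ := χ X with hr
  have hχC : ∀ q : ℂ[X], χ (C q) = q.eval k0 := fun q => by
    have : χ.comp (CAlgHom : ℂ[X] →ₐ[ℂ] ℂ[X][X]) = aeval k0 := Polynomial.algHom_ext (by simp [hk0])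
    have h2 := AlgHom.congr_fun this q
    rwa [coe_aeval_eq_eval] at h2
  have hχm : ∀ v : ℂ[X], χ (v.map C) = v.eval r := fun v => by
    induction v using Polynomial.induction_on' with
    | add p q hp hq => simp only [Polynomial.map_add, map_add, eval_add, hp, hq]
    | monomial n a => simp [← C_mul_X_pow_eq_monomial, hχC, hr]
  have z1 := hχ γ (Ideal.subset_span (by simp))
  have z2 := hχ (C (g0 k)) (Ideal.subset_span (by simp))
  have z3 := hχ p (Ideal.subset_span (by simp))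
  have hg : g0 k = (X - C k0) * (X - C (k - k0)) := by
    rw [hχC] at z2
    simp only [g0, eval_mul, eval_sub, eval_X, eval_C, sub_zero] at z2
    have := congrArg (C : ℂ →+* ℂ[X]) z2
    simp only [g0, map_mul, map_sub, map_zero] at this ⊢
    linear_combination this
  obtain ⟨p0, q1, e, dp0, dq1, hp⟩ := red_two k0 (k - k0) p
  rw [← hg] at hp
  have hp0 : p0 = C (p0.coeff 1) * (X - C r) := by
    have h1 := eq_X_add_C_of_natDegree_le_one (dp0.trans hp1)
    rw [hp, map_add, map_add, map_mul, map_mul, z2, hχm, hχC, h1] at z3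
    simp only [eval_add, eval_mul, eval_C, eval_X, eval_sub, sub_self, zero_mul, add_zero] at z3
    have h2 := congrArg (C : ℂ →+* ℂ[X]) z3
    simp only [map_add, map_mul, map_zero] at h2
    linear_combination h1 + h2
  have hu := Dat.monic_add hU hU6 (w := C k0 * W) ((natDegree_C_mul_le _ _).trans hW)
  have hroot : (U + C k0 * W).IsRoot r := by
    rw [hγ, map_add, map_mul, hχm, hχm] at z1
    simpa using z1
  obtain ⟨s, hs⟩ := dvd_iff_isRoot.2 hroot
  have hsm : s.Monic := (monic_X_sub_C r).of_mul_monic_left (hs ▸ hu.1)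
  have hs5 : s.natDegree = 5 := by
    have := hu.2
    rw [hs, (monic_X_sub_C r).natDegree_mul hsm, natDegree_X_sub_C] at this
    omega
  obtain ⟨σ, hσ⟩ := exists_roots 5 s hsm hs5
  let bA : Basis (Fin 11) ℂ A := Module.finBasisOfFinrankEq ℂ A h11
  have hb : ∀ i, ∃ a : Pol ℂ, a.IsHomogeneous 6 ∧ ev a = bA i := fun i => by
    obtain ⟨a, ha, hx⟩ : bA i ∈ V ev 5 := S.d5 ▸ Submodule.mem_top
    refine ⟨wc ℂ c * a, (wc_hom c).mul ha, ?_⟩
    rw [map_mul, F.hw, one_mul]
    exact hx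
  choose fm hfm hfm' using hb
  let d : Dat ℂ := ⟨k0, k - k0, r, p0.coeff 1, q1.coeff 0, q1.coeff 1, σ, fun i => W.coeff i,
    fun i => co i.castSucc, fun i m => MvPolynomial.coeff m.1 (fm i)⟩
  have hdg : d.g = g0 k := hg.symm
  have hdu : d.u = U + C k0 * W := by rw [hs, hσ]; rfl
  have hdf : d.f1 = W := sum_coeff (by omega)
  have hdγ : d.γ = γ := by
    rw [Dat.γ, hdu, hdf, hγ]
    simp only [Polynomial.map_add, Polynomial.map_mul, map_C, map_sub, d]
    ring
  have hdp0 : d.p0 = p0 := hp0.symm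
  have hdq : d.q1 = q1 := (eq_X_add_C_of_natDegree_le_one (dq1.trans hp1)).symm
  have hdp : p = d.p + C (g0 k) * e := by
    rw [Dat.p, hdp0, hdq]
    exact hp
  have hΛ : ∀ a, d.Λ c a = lam (ev a) := fun a => by
    rw [← hev d rfl, hL', hdp, add_mul, map_add, map_add, mul_assoc, Dat.tau_C_mul,
      tau_mul_self (g0_monic k), add_zero, Dat.Λ_apply, Dat.lamO_apply, hdg, hdγ]
  refine ⟨d, LinearMap.ext hΛ, ?_⟩
  have hdb : ∀ i, d.b i = fm i := fun i => form_coeff (hfm i)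
  have := gram_ne F.perf bA
  simpa only [Dat.gram, hΛ, hdb, map_mul, hfm'] using this

end Pool.Agent.P.MP_2b2d3b_ag.Sp1P
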