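import Pool.Agent.P.MP_2b2d3b_ag.Bas

/-!
Families of weighted points, and descent to a finitely generated ring.
-/

namespace Pool.Agent.P.MP_2b2d3b_ag.Sp2P

open MvPolynomial

variable {B : Type} [CommRing B] {B' : Type} [CommRing B'] {ι : Type} [Fintype ι]

/-- weighted sum of evaluations -/
noncomputable def ptL (lam : ι → B) (p : ι → Fin 4 → B) : Pol B →ₗ[B] B :=
  ∑ n, lam n • (aeval (p n) : Pol B →ₐ[B] B).toLinearMap

theorem ptL_apply (lam : ι → B) (p : ι → Fin 4 → B) (a : Pol B) :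
    ptL lam p a = ∑ n, lam n * eval (p n) a := by
  simp [ptL, LinearMap.sum_apply]

theorem eval_map' (φ : B →+* B') (p : Fin 4 → B) (a : Pol B) :
    eval (fun k => φ (p k)) (map φ a) = φ (eval p a) := by
  induction a using MvPolynomial.induction_on with
  | C r => simp
  | add p q hp hq => simp only [map_add, hp, hq]
  | mul_X p i hp => simp only [map_mul, hp, map_X, eval_X]

theorem eval_smul_pt (w : B) (p : Fin 4 → B) {a : Pol B} {d : ℕ} (ha : a.IsHomogeneous d) :
    eval (fun i => w * p i) a = w ^ d * eval p a := eval₂_scale (RingHom.id B) p w ha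

theorem bcL_ptL (φ : B →+* B') (lam : ι → B) (p : ι → Fin 4 → B) :
    bcL φ (ptL lam p) = ptL (fun n => φ (lam n)) fun n k => φ (p n k) :=
  bcL_eq φ fun a => by simp only [ptL_apply, eval_map', map_sum, map_mul]

variable [DecidableEq ι]

theorem gor_ptL {c D : ℕ} {lam : ι → B} {p : ι → Fin 4 → B} {b : ι → Pol B}
    (hw : ∀ n, eval (p n) (wc B c) = 1)
    (h3 : ∀ a : Pol B, a.IsHomogeneous 3 → ∑ n, lam n * eval (p n) a = 0)
    (hb : ∀ i, (b i).IsHomogeneous D) (hl : IsUnit (∏ n, lam n))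
    (hd : IsUnit (Matrix.of fun i n => eval (p n) (b i)).det) : Gor c D (ptL lam p) b where
  hw a := by simp [ptL_apply, hw]
  h3 a ha := by rw [ptL_apply, h3 a ha]
  hb := hb
  span a := by
    set M : Matrix ι ι B := Matrix.of fun i n => eval (p n) (b i) with hM
    refine ⟨Matrix.vecMul (fun n => eval (p n) a) M⁻¹, fun e => ?_⟩
    have h1 : Matrix.vecMul (Matrix.vecMul (fun n => eval (p n) a) M⁻¹) M =
        fun n => eval (p n) a := by
      rw [Matrix.vecMul_vecMul, Matrix.nonsing_inv_mul _ hd, Matrix.vecMul_one]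
    rw [ptL_apply]
    refine Finset.sum_eq_zero fun n _ => ?_
    have h2 : ∑ i, Matrix.vecMul (fun n => eval (p n) a) M⁻¹ i * eval (p n) (b i) =
        eval (p n) a := congrFun h1 n
    simp only [map_mul, map_sub, map_sum, eval_C, h2, sub_self, zero_mul, mul_zero]
  gram := by
    have : (Matrix.of fun i j => ptL lam p (b i * b j)) =
        (Matrix.of fun i n => eval (p n) (b i)) * Matrix.diagonal lam *
          (Matrix.of fun i n => eval (p n) (b i)).transpose := by
      ext i j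
      rw [Matrix.mul_apply]
      simp only [Matrix.of_apply, ptL_apply, Matrix.mul_diagonal, Matrix.transpose_apply, map_mul]
      exact Finset.sum_congr rfl fun n _ => by ring
    rw [this, Matrix.det_mul, Matrix.det_mul, Matrix.det_transpose, Matrix.det_diagonal]
    exact (hd.mul hl).mul hd

theorem hilb_ge {lam : ι → ℂ} {p : ι → Fin 4 → ℂ} {b : ι → Pol ℂ} (hl : ∏ n, lam n ≠ 0)
    (hd : (Matrix.of fun i n => eval (p n) (b i)).det ≠ 0) {q : Fin 7 → Pol ℂ}
    (hq : ∀ i, (q i).IsHomogeneous 2) (f : Fin 7 → ι)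
    (hf : (Matrix.of fun i j => eval (p (f j)) (q i)).det ≠ 0) :
    7 ≤ hilb (rad (ptL lam p)) 2 := by
  set I := rad (ptL lam p) with hI
  have hv : ∀ a ∈ I, ∀ n, eval (p n) a = 0 := by
    intro a ha n
    have h1 : (Matrix.of fun i n => eval (p n) (b i)).mulVec
        (fun n => lam n * eval (p n) a) = 0 := by
      funext i
      have := ha (b i)
      rw [ptL_apply] at this
      rw [Pi.zero_apply, ← this]
      exact Finset.sum_congr rfl fun n _ => by simp only [Matrix.of_apply, map_mul]; ring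
    have h2 := congrFun (Matrix.eq_zero_of_mulVec_eq_zero hd h1) n
    exact (mul_eq_zero.1 h2).resolve_left (Finset.prod_ne_zero_iff.1 hl n (Finset.mem_univ n))
  have hli : LinearIndependent ℂ fun i => (⟨Ideal.Quotient.mk I (q i), q i, hq i, rfl⟩ :
      (homogeneousSubmodule (Fin 4) ℂ 2).map (Ideal.Quotient.mkₐ ℂ I).toLinearMap) := by
    rw [Fintype.linearIndependent_iff]
    intro c hc i
    have h1 : Ideal.Quotient.mkₐ ℂ I (∑ i, c i • q i) = 0 := by
      have := congrArg Subtype.val hc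
      simpa using this
    have h2 := hv _ (Ideal.Quotient.eq_zero_iff_mem.mp h1)
    have h3 : Matrix.vecMul c (Matrix.of fun i j => eval (p (f j)) (q i)) = 0 := by
      funext j
      have := h2 (f j)
      simpa [Matrix.vecMul, dotProduct, smul_eval] using this
    exact congrFun (Matrix.eq_zero_of_vecMul_eq_zero hf h3) i
  simpa [hilb] using hli.fintype_card_le_finrank

/-- the conclusion of the package -/
def Concl (c : ℕ) (Λ0 : Pol ℂ →ₗ[ℂ] ℂ) : Prop :=
  ∃ (Q : Type) (_ : CommRing Q) (_ : IsDomain Q) (_ : Algebra ℚ Q) (_ : Algebra.FiniteType ℚ Q)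
    (Λ : Pol Q →ₗ[Q] Q) (b : Fin 11 → Pol Q) (δ : Q) (t0 : Q →+* ℂ), Gor c 6 Λ b ∧ δ ≠ 0 ∧
    bcL t0 Λ = Λ0 ∧ ∀ t : Q →+* ℂ, t δ ≠ 0 → 7 ≤ hilb (rad (bcL t Λ)) 2

theorem det_map (φ : B →+* B') {κ : Type} [Fintype κ] [DecidableEq κ] (p : κ → Fin 4 → B)
    (b : κ → Pol B) : (Matrix.of fun i n => eval (fun k => φ (p n k)) (map φ (b i))).det =
      φ (Matrix.of fun i n => eval (p n) (b i)).det := by
  rw [RingHom.map_det]
  congr 1
  ext i n
  exact eval_map' φ (p n) (b i)

theorem desc0 {O : Type} [CommRing O] [IsDomain O] [Algebra ℚ O] (t0 : O →+* ℂ) {c : ℕ}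
    {lam : Fin 11 → O} {p : Fin 11 → Fin 4 → O} {b : Fin 11 → Pol O} {q : Fin 7 → Pol O}
    (f : Fin 7 → Fin 11) (hw : ∀ n, eval (p n) (wc O c) = 1)
    (h3 : ∀ a : Pol O, a.IsHomogeneous 3 → ∑ n, lam n * eval (p n) a = 0)
    (hb : ∀ i, (b i).IsHomogeneous 6) (hq : ∀ i, (q i).IsHomogeneous 2)
    (hl : IsUnit (∏ n, lam n)) (hd : IsUnit (Matrix.of fun i n => eval (p n) (b i)).det)
    (hf : (Matrix.of fun i j => eval (p (f j)) (q i)).det ≠ 0) :
    Concl c (ptL (fun n => t0 (lam n)) fun n k => t0 (p n k)) := by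
  obtain ⟨u, hu⟩ := (hl.mul hd).exists_right_inv
  let z : (Fin 11 ⊕ Fin 11 × Fin 4) ⊕ (Fin 11 × Mon 6 ⊕ Fin 7 × Mon 2) ⊕ Unit → O :=
    Sum.elim (Sum.elim lam fun x => p x.1 x.2)
      (Sum.elim (Sum.elim (fun x => coeff x.2.1 (b x.1)) fun x => coeff x.2.1 (q x.1)) fun _ => u)
  let Q := Algebra.adjoin ℚ (Set.range z)
  have hz : ∀ j, z j ∈ Q := fun j => Algebra.subset_adjoin ⟨j, rfl⟩
  let lam' : Fin 11 → Q := fun n => ⟨lam n, hz (.inl (.inl n))⟩
  let p' : Fin 11 → Fin 4 → Q := fun n k => ⟨p n k, hz (.inl (.inr (n, k)))⟩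
  let b' : Fin 11 → Pol Q := fun i =>
    form fun m : Mon 6 => ⟨coeff m.1 (b i), hz (.inr (.inl (.inl (i, m))))⟩
  let q' : Fin 7 → Pol Q := fun i =>
    form fun m : Mon 2 => ⟨coeff m.1 (q i), hz (.inr (.inl (.inr (i, m))))⟩
  let u' : Q := ⟨u, hz (.inr (.inr ()))⟩
  let φ : Q →+* O := Q.val.toRingHom
  have hφ : Function.Injective φ := Subtype.val_injective
  have e1 : ∀ n, φ (lam' n) = lam n := fun _ => rfl
  have e2 : ∀ n, (fun k => φ (p' n k)) = p n := fun _ => rfl
  have e3 : ∀ i, map φ (b' i) = b i := fun i => (map_form φ _).trans (form_coeff (hb i))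
  have e4 : ∀ i, map φ (q' i) = q i := fun i => (map_form φ _).trans (form_coeff (hq i))
  have hu' : (∏ n, lam' n) * (Matrix.of fun i n => eval (p' n) (b' i)).det * u' = 1 := by
    apply hφ
    rw [map_mul, map_mul, ← det_map φ p' b', map_prod, map_one]
    simp only [e1, e2, e3]
    exact hu
  have hun := IsUnit.of_mul_eq_one _ hu'
  have hl' := isUnit_of_mul_isUnit_left hun
  have hd' := isUnit_of_mul_isUnit_right hun
  refine ⟨Q, inferInstance, inferInstance, inferInstance,
    .adjoin_of_finite (Set.finite_range z), ptL lam' p', b',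
    (Matrix.of fun i j => eval (p' (f j)) (q' i)).det, t0.comp φ,
    gor_ptL (fun n => hφ ?_) (fun a ha => hφ ?_) (fun i => form_hom _) hl' hd', fun h => hf ?_,
    bcL_ptL _ _ _, fun t ht => ?_⟩
  · rw [← eval_map', e2, map_wc, hw, map_one]
  · rw [map_sum, map_zero, ← h3 _ (ha.map φ)]
    exact Finset.sum_congr rfl fun n _ => by rw [map_mul, ← eval_map', e1, e2]
  · have := det_map φ (fun j => p' (f j)) q'
    rw [h, map_zero] at this
    simpa only [e2, e4] using this
  · rw [bcL_ptL]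
    refine hilb_ge (b := fun i => map t (b' i)) (q := fun i => map t (q' i)) ?_ ?_
      (fun i => (form_hom _).map t) f ?_
    · rw [← map_prod]; exact (hl'.map t).ne_zero
    · rw [det_map]; exact (hd'.map t).ne_zero
    · rw [det_map t (fun j => p' (f j)) q']; exact ht

theorem desc {O : Type} [CommRing O] [IsDomain O] [Algebra ℚ O] (t0 : O →+* ℂ) {c : ℕ}
    (g : Fin 11 ≃ ι) {lam : ι → O} {p : ι → Fin 4 → O} {b : ι → Pol O} {q : Fin 7 → Pol O}
    (f : Fin 7 → ι) (hw : ∀ n, eval (p n) (wc O c) = 1)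
    (h3 : ∀ a : Pol O, a.IsHomogeneous 3 → ∑ n, lam n * eval (p n) a = 0)
    (hb : ∀ i, (b i).IsHomogeneous 6) (hq : ∀ i, (q i).IsHomogeneous 2)
    (hl : IsUnit (∏ n, lam n)) (hd : IsUnit (Matrix.of fun i n => eval (p n) (b i)).det)
    (hf : (Matrix.of fun i j => eval (p (f j)) (q i)).det ≠ 0) :
    Concl c (ptL (fun n => t0 (lam n)) fun n k => t0 (p n k)) := by
  have := desc0 t0 (c := c) (lam := fun n => lam (g n)) (p := fun n => p (g n))
    (b := fun n => b (g n)) (q := q) (fun j => g.symm (f j)) (fun n => hw _)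
    (fun a ha => (g.sum_comp fun n => lam n * eval (p n) a).trans (h3 a ha)) (fun i => hb _) hq
    (by rwa [g.prod_comp lam]) (by
      rwa [← Matrix.det_submatrix_equiv_self g] at hd) (by simpa using hf)
  convert this using 1
  refine LinearMap.ext fun a => ?_
  rw [ptL_apply, ptL_apply]
  exact (g.sum_comp fun n => t0 (lam n) * eval (fun k => t0 (p n k)) a).symm

end Pool.Agent.P.MP_2b2d3b_ag.Sp2P
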