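import Pool.Agent.P.MP_2b2d3b_ag.Api

/-!
Statements of the independent packages of the proof.
-/

namespace Pool.Agent.P.MP_2b2d3b_ag

open MvPolynomial CategoryTheory AlgebraicGeometry Module

/-! ### Package Hilb -/

def S_Hd : Prop := ∀ d : ℕ, finrank ℂ (Hd d) = (d + 3).choose 3

def S_HilbAdd : Prop :=
  ∀ (I : Ideal (Pol ℂ)) (b : Pol ℂ) (e : ℕ), HomI I → b.IsHomogeneous e →
    (∀ a, b * a ∈ I → a ∈ I) →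
    (∀ d, hilb (I ⊔ Ideal.span {b}) (d + e) + hilb I d = hilb I (d + e)) ∧
      ∀ d < e, hilb (I ⊔ Ideal.span {b}) d = hilb I d

def S_HilbF : Prop :=
  ∀ F : Pol ℂ, F.IsHomogeneous 6 → F ≠ 0 →
    (∀ d ≥ 3, hilb (Ideal.span {F}) d + 6 * d = 3 * d ^ 2 + 11) ∧
      ∀ d < 6, hilb (Ideal.span {F}) d = (d + 3).choose 3

def S_Dehom : Prop :=
  ∀ (B : Type) [CommRing B] (I : Ideal (Pol B)) (w a : Pol B) (d : ℕ), HomI I →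
    w.IsHomogeneous 1 → a.IsHomogeneous d → a ∈ I ⊔ Ideal.span {w - 1} → ∃ k : ℕ, w ^ k * a ∈ I

def S_Reg : Prop :=
  ∀ (B : Type) [CommRing B] (F : Pol B), F.IsHomogeneous 6 →
    IsUnit (coeff (Finsupp.single 0 6) F) →
    (∀ (i : Fin 4) (k : ℕ) (a : Pol B), i ≠ 0 → X i ^ k * a ∈ Ideal.span {F} →
      a ∈ Ideal.span {F}) ∧
    ∀ (k : ℕ) (a b : Pol B), X 2 ^ k * a - X 3 ^ k * b ∈ Ideal.span {F} →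
      ∃ r : Pol B, a - X 3 ^ k * r ∈ Ideal.span {F}

/-! ### Package Ufd -/

def S_Mac : Prop :=
  ∀ (A : Type) [CommRing A] [Algebra ℂ A] (n : ℕ) (x : Fin n → A) (d : ℕ) (K : Submodule ℂ A),
    finrank ℂ ((Submodule.span ℂ (Set.range x) ^ (d + 1)).map K.mkQ) ≤ d + 1 →
    {c : ℂ | ¬ Submodule.span ℂ (Set.range x) ^ (d + 1) ≤
      K ⊔ (Submodule.span ℂ (Set.range x) ^ d).map
        (LinearMap.mulLeft ℂ (∑ i : Fin n, c ^ (i : ℕ) • x i))}.Finite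

def S_HomDvd : Prop :=
  ∀ (F a b c : Pol ℂ) (n : ℕ), F.IsHomogeneous 6 → (Ideal.span {F}).IsPrime →
    c.IsHomogeneous n → c ∉ Ideal.span {F} → a * b - c ∈ Ideal.span {F} →
    ∃ (a' b' : Pol ℂ) (m k : ℕ), a'.IsHomogeneous m ∧ b'.IsHomogeneous k ∧ m + k = n ∧
      a - a' ∈ Ideal.span {F} ∧ b - b' ∈ Ideal.span {F}

def S_Div : Prop :=
  ∀ (R : Type) [CommRing R] [IsDomain R] [UniqueFactorizationMonoid R] (C : Set R) (a b : R),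
    (∀ ρ : R, Prime ρ → ∃ c ∈ C, ¬ ρ ∣ c) → a ≠ 0 → (∀ c ∈ C, a ∣ b * c) → a ∣ b

def S_Avoid : Prop :=
  ∀ (F : Pol ℂ) (e : ℕ) (J : Submodule ℂ (Pol ℂ)), F.IsHomogeneous 6 → F ≠ 0 →
    (Ideal.span {F}).IsPrime → UniqueFactorizationMonoid (Pol ℂ ⧸ Ideal.span {F}) → J ≤ Hd e →
    (∀ ρ : Pol ℂ ⧸ Ideal.span {F}, Prime ρ → ∃ b ∈ J, ¬ ρ ∣ Ideal.Quotient.mk _ b) →
    {c : ℕ | ¬ ∃ D, ∀ a : Pol ℂ, a.IsHomogeneous D →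
      a ∈ Ideal.span {F} ⊔ Ideal.span (J : Set (Pol ℂ)) ⊔ Ideal.span {wc ℂ c}}.Finite

def S_Cop6 : Prop :=
  ∀ (F : Pol ℂ) (I : Ideal (Pol ℂ)), F.IsHomogeneous 6 → F ≠ 0 → (Ideal.span {F}).IsPrime →
    F ∈ I → hilb I 6 ≤ 26 → ∀ ρ : Pol ℂ ⧸ Ideal.span {F}, Prime ρ →
      ∃ b ∈ I, b.IsHomogeneous 6 ∧ ¬ ρ ∣ Ideal.Quotient.mk _ b

/-! ### Package Box -/

def S_Box : Prop :=
  ∀ (B : Type) [CommRing B] (x : Box B), x.Ok →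
    (∀ a, x.g1 * a ∈ Ideal.span {x.F} → a ∈ Ideal.span {x.F}) ∧
    (∀ a, x.g2 * a ∈ Ideal.span {x.F, x.g1} → a ∈ Ideal.span {x.F, x.g1}) ∧
    (∀ a, x.mu (x.F * a) = 0 ∧ x.mu (x.g1 * a) = 0 ∧ x.mu (x.g2 * a) = 0 ∧
      x.mu (wc B x.c * a) = x.mu a) ∧
    (∀ (a : Pol B) (d : ℕ), a.IsHomogeneous d → d < x.n1 + x.n2 + 5 → x.mu a = 0) ∧
    (∀ (a : Pol B) (d : ℕ), a.IsHomogeneous d → (∀ b, x.mu (a * b) = 0) →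
      a ∈ Ideal.span {x.F, x.g1, x.g2}) ∧
    (∀ (Λ : Pol B →ₗ[B] B) (r s : ℕ), r + 1 + s = x.n1 + x.n2 + 5 →
      (∀ a, Λ (x.F * a) = 0 ∧ Λ (x.g1 * a) = 0 ∧ Λ (x.g2 * a) = 0 ∧ Λ (wc B x.c * a) = Λ a) →
      (∀ a : Pol B, a.IsHomogeneous r → Λ a = 0) →
      ∃ G : Pol B, G.IsHomogeneous s ∧ ∀ a, x.mu (G * a) = Λ a) ∧
    (∀ (B' : Type) [CommRing B'] (φ : B →+* B') (a : Pol B),
      (x.map φ).mu (map φ a) = φ (x.mu a)) ∧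
    (∀ h1 h2 : Polynomial B, h1.Monic → h2.Monic → ∀ a,
      (x.mul h1 h2).mu (hm (X 2) (wc B x.c) h1 h1.natDegree *
        hm (X 1) (wc B x.c) h2 h2.natDegree * a) = x.mu a)

def S_BoxAff : Prop :=
  ∀ (B : Type) [CommRing B] (x : Box B), x.Ok →
    (∀ a, x.g1 * a ∈ Ideal.span {x.F, wc B x.c - 1} → a ∈ Ideal.span {x.F, wc B x.c - 1}) ∧
    (∀ a, x.g2 * a ∈ Ideal.span {x.F, x.g1, wc B x.c - 1} →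
      a ∈ Ideal.span {x.F, x.g1, wc B x.c - 1}) ∧
    ∀ (κ y : B) (a : Pol B),
      (X 1 - C κ * X 2 - C y) * a ∈ Ideal.span {x.F, x.g1, wc B x.c - 1} →
      a ∈ Ideal.span {x.F, x.g1, wc B x.c - 1}

/-! ### Package Filt -/

def S_Orth : Prop :=
  ∀ (A : Type) [CommRing A] [Algebra ℂ A] (ev : Pol ℂ →ₐ[ℂ] A) (w : Pol ℂ) (lam : A →ₗ[ℂ] ℂ)
    (i j : ℕ), Filt ev w lam (i + j) → finrank ℂ (V ev i) + finrank ℂ (V ev j) ≤ finrank ℂ A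

def S_K1 : Prop :=
  ∀ (A : Type) [CommRing A] [Algebra ℂ A] (ev : Pol ℂ →ₐ[ℂ] A) (w : Pol ℂ) (lam : A →ₗ[ℂ] ℂ),
    Filt ev w lam 5 → finrank ℂ A = 23 → finrank ℂ (V ev 2) = 10 → Av6 ev w → False

def S_Tri : Prop :=
  ∀ (A : Type) [CommRing A] [Algebra ℂ A] (ev : Pol ℂ →ₐ[ℂ] A) (w : Pol ℂ) (lam : A →ₗ[ℂ] ℂ),
    Filt ev w lam 3 → finrank ℂ A = 11 → Av6 ev w →
    4 ≤ finrank ℂ (V ev 2) ∧ (finrank ℂ (V ev 1) ≤ 3 ∨ AGd ev ∨ Spd ev)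

/-! ### Package AG -/

def S_AG : Prop :=
  ∀ (A : Type) [CommRing A] [Algebra ℂ A] (ev : Pol ℂ →ₐ[ℂ] A) (w : Pol ℂ) (lam : A →ₗ[ℂ] ℂ)
    (F : Pol ℂ), Filt ev w lam 3 → finrank ℂ A = 11 → AGd ev → F.IsHomogeneous 6 → ev F = 0 →
    ∃ p : Pf ℂ, p.Hom ∧ p.pf = F ∧ (∀ b ∈ p.I, ev b = 0) ∧
      ∀ d ≥ 4, ∀ b : Pol ℂ, b.IsHomogeneous d → ev b = 0 → b ∈ p.I

/-! ### Package PfAlg -/

def S_PfAlg : Prop :=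
  ∀ (B : Type) [CommRing B] (p : Pf B),
    p.Th * p.Om = p.pf • (1 : Matrix (Fin 6) (Fin 6) (Pol B)) ∧
    p.Om * p.Th = p.pf • (1 : Matrix (Fin 6) (Fin 6) (Pol B)) ∧
    (∀ i j k l, p.Om i j * p.Om l k + p.Om j k * p.Om l i + p.Om k i * p.Om l j ∈
      Ideal.span {p.pf}) ∧
    (∀ q : Ideal (Pol B), (∀ i j, p.Om i j ∈ q) → ∀ k, pderiv k p.pf ∈ q) ∧
    (p.Hom → p.pf.IsHomogeneous 6 ∧ (∀ i j, (p.Om i j).IsHomogeneous (pfDeg i + pfDeg j + 1)) ∧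
      ∀ i j, p.Th i j = 0 ∨ ∃ e, pfDeg i + pfDeg j + e = 5 ∧ (p.Th i j).IsHomogeneous e) ∧
    ∀ (B' : Type) [CommRing B'] (ψ : B →+* B'), (p.map ψ).pf = map ψ p.pf ∧
      (p.map ψ).Om = p.Om.map (map ψ) ∧ (p.Hom → (p.map ψ).Hom)

/-- the cubics in the Pfaffian ideal have dimension at most ten -/
def S_PfCub : Prop := ∀ p : Pf ℂ, p.Hom → 10 ≤ hilb p.I 3

def S_TC : Prop :=
  ∃ hf : ∀ (B : Type) [CommRing B], Pf B → B,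
    (∀ (B B' : Type) [CommRing B] [CommRing B'] (ψ : B →+* B') (p : Pf B),
      hf B' (p.map ψ) = ψ (hf B p)) ∧
    (∃ p : Pf ℂ, p.Hom ∧ hf ℂ p ≠ 0) ∧
    (∀ p : Pf ℂ, p.Hom → hf ℂ p ≠ 0 → ∃ g Γ : Matrix (Fin 4) (Fin 4) ℂ, g * Γ = 1 ∧
      p.qI = tcI g ∧ eval (fun i => Γ i 3) p.pf ≠ 0) ∧
    ∀ (B : Type) [CommRing B] [Algebra ℂ B] [Algebra.FiniteType ℂ B] (p : Pf B), p.Hom →
      ∃ (W : Type) (_ : CommRing W) (_ : Algebra ℂ W) (_ : Algebra.FiniteType ℂ W)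
        (ρ : B →ₐ[ℂ] W) (y : Fin 12 → W),
        (∀ t : B →ₐ[ℂ] ℂ, hf ℂ (p.map (t : B →+* ℂ)) ≠ 0 → ∃ t' : W →ₐ[ℂ] ℂ, t'.comp ρ = t) ∧
        ∀ t' t'' : W →ₐ[ℂ] ℂ, (∀ i, t' (y i) = t'' (y i)) →
          (p.map (t'.comp ρ : B →+* ℂ)).qI = (p.map (t''.comp ρ : B →+* ℂ)).qI

/-! ### Package GI -/

def S_NZD : Prop :=
  ∀ (F : Pol ℂ), IndepCoeff F → ∀ (Q : Type) [CommRing Q] [IsDomain Q] [Algebra ℚ Q]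
    [Algebra.FiniteType ℚ Q] (c : ℕ) (ι : Type) [Fintype ι] [DecidableEq ι]
    (Λ : Pol Q →ₗ[Q] Q) (b : ι → Pol Q), Gor c 6 Λ b →
    ∃ (B : Type) (_ : CommRing B) (_ : Algebra ℂ B) (_ : Algebra.FiniteType ℂ B) (j : Q →+* B),
      bc F B ∈ rad (bcL j Λ) ∧ (∀ δ : Q, δ ≠ 0 → ∀ x : B, j δ * x = 0 → x = 0) ∧
      ∀ t0 : Q →+* ℂ, F ∈ rad (bcL t0 Λ) → ∃ t : B →ₐ[ℂ] ℂ, ∀ q, t (j q) = t0 q

def S_PfBase : Prop :=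
  ∀ (F : Pol ℂ), IndepCoeff F →
    ∃ (B : Type) (_ : CommRing B) (_ : IsDomain B) (_ : Algebra ℂ B) (_ : Algebra.FiniteType ℂ B)
      (D : Type) (_ : CommRing D) (p : Pf D) (j : D →+* B), p.Hom ∧ Function.Injective j ∧
      (p.map j).pf = bc F B ∧
      (∀ p1 : Pf ℂ, p1.Hom → ∃ ψ : D →+* ℂ, p.map ψ = p1) ∧
      ∀ p1 : Pf ℂ, p1.Hom → p1.pf = F → ∃ t : B →ₐ[ℂ] ℂ, (p.map j).map (t : B →+* ℂ) = p1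

/-! ### Package Fin -/

def S_TcFin : Prop :=
  ∀ (F : Pol ℂ) (g Γ : Matrix (Fin 4) (Fin 4) ℂ), F.IsHomogeneous 6 → g * Γ = 1 →
    eval (fun i => Γ i 3) F ≠ 0 →
    {I : Ideal (Pol ℂ) | HomI I ∧ SatI I ∧ F ∈ I ∧ tcI g ≤ I}.Finite

def S_TcPlane : Prop :=
  ∀ (g : Matrix (Fin 4) (Fin 4) ℂ) (I : Ideal (Pol ℂ)) (l : Pol ℂ), g.det ≠ 0 → tcI g ≤ I →
    l.IsHomogeneous 1 → l ≠ 0 → l ∈ I → hilb I 2 ≤ 3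

def S_Bertini : Prop :=
  ∀ F : Pol ℂ, GoodSextic F → ∃ h : Pol ℂ, h ≠ 0 ∧ ∀ c, eval c h ≠ 0 → SmoothSec F c

def S_PlFin : Prop :=
  ∀ (F : Pol ℂ) (c : Fin 4 → ℂ) (χ : Polynomial ℂ), F.IsHomogeneous 6 → c 3 ≠ 0 →
    eval ![0, 0, c 3, -c 2] F ≠ 0 → SmoothSec F c → χ ≠ 0 → χ.natDegree ≤ 11 →
    {I : Ideal (Pol ℂ) | HomI I ∧ SatI I ∧ F ∈ I ∧ linForm c ∈ I ∧
      hm (X 1) (X 0) χ 11 ∈ I}.Finite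

def S_LocFree : Prop :=
  ∀ (x : Box ℂ) (G : Pol ℂ) (p : Fin 4 → ℂ), x.Ok → eval p (wc ℂ x.c) = 1 → eval p x.F = 0 →
    (∃ i, eval p (pderiv i x.F) ≠ 0) →
    ∃ a1 b1 a2 b2 c : Pol ℂ, G * b1 - x.g2 * a1 ∈ Ideal.span {x.F, x.g1, wc ℂ x.c - 1} ∧
      G * b2 - x.g2 * a2 ∈ Ideal.span {x.F, x.g1, wc ℂ x.c - 1} ∧
      a1 * b2 - a2 * b1 - c * x.g1 ∈ Ideal.span {x.F, wc ℂ x.c - 1} ∧ eval p c ≠ 0

/-! ### Packages Sp1, Sp2, Def -/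

def S_Sp1 : Prop :=
  ∀ (A : Type) [CommRing A] [Algebra ℂ A] (ev : Pol ℂ →ₐ[ℂ] A) (c : ℕ) (lam : A →ₗ[ℂ] ℂ),
    Filt ev (wc ℂ c) lam 3 → finrank ℂ A = 11 → Spd ev →
    ∃ (Q : Type) (_ : CommRing Q) (_ : IsDomain Q) (_ : Algebra ℚ Q) (_ : Algebra.FiniteType ℚ Q)
      (Λ : Pol Q →ₗ[Q] Q) (b : Fin 11 → Pol Q) (δ : Q) (t0 : Q →+* ℂ), Gor c 6 Λ b ∧ δ ≠ 0 ∧
      bcL t0 Λ = lam.comp ev.toLinearMap ∧ ∀ t : Q →+* ℂ, t δ ≠ 0 → TwoLines c (bcL t Λ)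

def S_Sp2 : Prop :=
  ∀ (c : ℕ) (Λ0 : Pol ℂ →ₗ[ℂ] ℂ), TwoLines c Λ0 →
    ∃ (Q : Type) (_ : CommRing Q) (_ : IsDomain Q) (_ : Algebra ℚ Q) (_ : Algebra.FiniteType ℚ Q)
      (Λ : Pol Q →ₗ[Q] Q) (b : Fin 11 → Pol Q) (δ : Q) (t0 : Q →+* ℂ), Gor c 6 Λ b ∧ δ ≠ 0 ∧
      bcL t0 Λ = Λ0 ∧ ∀ t : Q →+* ℂ, t δ ≠ 0 → 7 ≤ hilb (rad (bcL t Λ)) 2

def S_Def : Prop :=
  ∀ (F l : Pol ℂ) (c D : ℕ) (p : Fin 11 → Fin 4 → ℂ) (v2 v3 : Fin 4 → ℂ) (lam : Fin 11 → ℂ)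
    (b : Fin 11 → Pol ℂ), F.IsHomogeneous 6 → l.IsHomogeneous 1 →
    (∀ i, eval (p i) (wc ℂ c) = 1 ∧ eval (p i) l = 0 ∧ eval (p i) F = 0 ∧ lam i ≠ 0 ∧
      ∑ k, eval (p i) (pderiv k F) * v2 k ≠ 0) →
    eval v2 l = 0 → eval v3 l = 1 →
    (∀ a : Pol ℂ, a.IsHomogeneous 3 → ∑ i, lam i * eval (p i) a = 0) →
    (∀ a : Pol ℂ, a.IsHomogeneous 3 → (∀ i, eval (p i) a = 0) → l ∣ a) →
    (∀ i, (b i).IsHomogeneous D ∧ ∀ j, eval (p j) (b i) = 0 ↔ i ≠ j) →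
    ∃ Λ : Pol (DualNumber ℂ) →ₗ[DualNumber ℂ] DualNumber ℂ,
      Gor c D Λ (fun i => bc (b i) (DualNumber ℂ)) ∧ bc F (DualNumber ℂ) ∈ rad Λ ∧
      (∀ a, bcL (TrivSqZeroExt.fstHom ℂ ℂ ℂ : DualNumber ℂ →+* ℂ) Λ a =
        ∑ i, lam i * eval (p i) a) ∧
      ∀ a ∈ rad Λ, a.IsHomogeneous 1 →
        map (TrivSqZeroExt.fstHom ℂ ℂ ℂ : DualNumber ℂ →+* ℂ) a = 0

/-! ### Package Dim -/

def S_Alg : Prop :=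
  ∀ (D : Type) [CommRing D] [IsDomain D] [Algebra ℂ D] [Algebra.FiniteType ℂ D] (h ζ : D)
    (ι : Type) [Finite ι] (y : ι → D), h ≠ 0 →
    (∀ y0 : ι → ℂ, {z | ∃ t : D →ₐ[ℂ] ℂ, t h ≠ 0 ∧ (∀ i, t (y i) = y0 i) ∧ t ζ = z}.Finite) →
    IsAlgebraic (Algebra.adjoin ℂ (Set.range y)) ζ

def S_DimLe : Prop :=
  ∀ (A D W : Type) [CommRing A] [Algebra ℂ A] [Algebra.FiniteType ℂ A] [CommRing D] [IsDomain D]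
    [Algebra ℂ D] [Algebra.FiniteType ℂ D] [CommRing W] [Algebra ℂ W] [Algebra.FiniteType ℂ W]
    (ψ : A →ₐ[ℂ] D) (ρ : D →ₐ[ℂ] W) (h : D) (k : ℕ) (y : Fin k → W), h ≠ 0 →
    (∀ t : D →ₐ[ℂ] ℂ, t h ≠ 0 → ∃ t' : W →ₐ[ℂ] ℂ, t'.comp ρ = t) →
    (∀ (y0 : Fin k → ℂ) (a : A), {z | ∃ t' : W →ₐ[ℂ] ℂ, t' (ρ h) ≠ 0 ∧ (∀ i, t' (y i) = y0 i) ∧
      t' (ρ (ψ a)) = z}.Finite) →
    ringKrullDim (A ⧸ RingHom.ker ψ) ≤ k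

def S_DimGe : Prop :=
  ∀ (A D : Type) [CommRing A] [Algebra ℂ A] [Algebra.FiniteType ℂ A] [CommRing D] [IsDomain D]
    [Algebra ℂ D] [Algebra.FiniteType ℂ D] (ψ : A →ₐ[ℂ] D) (h : D) (s k : ℕ) (ζ : Fin s → D)
    (y : Fin k → D), h ≠ 0 → AlgebraicIndependent ℂ ζ →
    (∀ (t0 : D →ₐ[ℂ] ℂ) (i : Fin s), t0 h ≠ 0 → {z | ∃ t : D →ₐ[ℂ] ℂ, t h ≠ 0 ∧
      t.comp ψ = t0.comp ψ ∧ (∀ j, t (y j) = t0 (y j)) ∧ t (ζ i) = z}.Finite) →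
    (s : WithBot ℕ∞) ≤ ringKrullDim (A ⧸ RingHom.ker ψ) + k

/-- every complex point off the radical -/
def S_NS : Prop :=
  ∀ (A : Type) [CommRing A] [Algebra ℂ A] [Algebra.FiniteType ℂ A] (J : Ideal A) (h : A),
    h ∉ J.radical → ∃ t : A →ₐ[ℂ] ℂ, (∀ a ∈ J, t a = 0) ∧ t h ≠ 0

/-! ### Package Sch -/

/-- the prime ideal of a complex point -/
def kp {D : Type} [CommRing D] [Algebra ℂ D] (t : D →ₐ[ℂ] ℂ) : Spec (.of D) :=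
  (⟨RingHom.ker (t : D →+* ℂ), RingHom.ker_isPrime _⟩ : PrimeSpectrum D)

/-- a morphism over `ℂ` -/
def Ov {X : Scheme.{0}} (π : X ⟶ Spec (.of ℂ)) (D : Type) [CommRing D] [Algebra ℂ D]
    (g : Spec (.of D) ⟶ X) : Prop :=
  g ≫ π = Spec.map (CommRingCat.ofHom (algebraMap ℂ D))

def S_Comp : Prop :=
  ∀ (X : Type) [TopologicalSpace X] (Z₁ Z₂ : Set X), IsClosed Z₁ → IsClosed Z₂ →
    IsIrreducible Z₁ → IsIrreducible Z₂ → Z₁ ∪ Z₂ = Set.univ → ¬ Z₁ ⊆ Z₂ → ¬ Z₂ ⊆ Z₁ →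
    irreducibleComponents X = {Z₁, Z₂}

def S_Pts : Prop :=
  ∀ (X : Scheme.{0}) (π : X ⟶ Spec (.of ℂ)), LocallyOfFiniteType π →
    (∀ (D : Type) [CommRing D] [Algebra ℂ D] (g : Spec (.of D) ⟶ X) (t : D →ₐ[ℂ] ℂ),
      (Spec.map (CommRingCat.ofHom (t : D →+* ℂ)) ≫ g) (IsLocalRing.closedPoint ℂ) = g (kp t)) ∧
    (∀ f f' : Spec (.of ℂ) ⟶ X, Ov π ℂ f → Ov π ℂ f' →
      f (IsLocalRing.closedPoint ℂ) = f' (IsLocalRing.closedPoint ℂ) → f = f') ∧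
    (∀ Z : Set X, IsClosed Z →
      (∀ f : Spec (.of ℂ) ⟶ X, Ov π ℂ f → f (IsLocalRing.closedPoint ℂ) ∈ Z) → Z = Set.univ) ∧
    (∀ (D : Type) [CommRing D] [Algebra ℂ D] [Algebra.FiniteType ℂ D] (g : Spec (.of D) ⟶ X)
      (δ : D), (∀ x, δ * x = 0 → x = 0) →
      Set.range g ⊆ closure {x | ∃ t : D →ₐ[ℂ] ℂ, t δ ≠ 0 ∧ g (kp t) = x}) ∧
    (∀ (D : Type) [CommRing D] [IsDomain D] (g : Spec (.of D) ⟶ X),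
      IsIrreducible (closure (Set.range g))) ∧
    (∀ (D D' : Type) [CommRing D] [CommRing D'] (φ : D →+* D') (g : Spec (.of D) ⟶ X),
      Function.Injective φ →
      closure (Set.range (Spec.map (CommRingCat.ofHom φ) ≫ g)) = closure (Set.range g)) ∧
    (∀ (A C : Type) [CommRing A] [Algebra ℂ A] [CommRing C] [Algebra ℂ C] [IsLocalRing C]
      (j : Spec (.of A) ⟶ X) (f : Spec (.of C) ⟶ X), IsOpenImmersion j → Ov π A j → Ov π C f →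
      f (IsLocalRing.closedPoint C) ∈ Set.range j →
      ∃ τ : A →ₐ[ℂ] C, Spec.map (CommRingCat.ofHom (τ : A →+* C)) ≫ j = f) ∧
    ∀ x : X, ∃ (A : Type) (_ : CommRing A) (_ : Algebra ℂ A) (_ : Algebra.FiniteType ℂ A)
      (j : Spec (.of A) ⟶ X), IsOpenImmersion j ∧ Ov π A j ∧ x ∈ Set.range j

def S_SchLe : Prop :=
  ∀ (X : Scheme.{0}) (π : X ⟶ Spec (.of ℂ)), LocallyOfFiniteType π →
    ∀ (D W : Type) [CommRing D] [IsDomain D] [Algebra ℂ D] [Algebra.FiniteType ℂ D] [CommRing W]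
      [Algebra ℂ W] [Algebra.FiniteType ℂ W] (g : Spec (.of D) ⟶ X) (ρ : D →ₐ[ℂ] W) (h : D)
      (k : ℕ) (y : Fin k → W), Ov π D g → h ≠ 0 →
      (∀ t : D →ₐ[ℂ] ℂ, t h ≠ 0 → ∃ t' : W →ₐ[ℂ] ℂ, t'.comp ρ = t) →
      (∀ y0 : Fin k → ℂ, {x | ∃ t' : W →ₐ[ℂ] ℂ, t' (ρ h) ≠ 0 ∧ (∀ i, t' (y i) = y0 i) ∧
        g (kp (t'.comp ρ)) = x}.Finite) →
      topologicalKrullDim (closure (Set.range g)) ≤ k

def S_SchGe : Prop :=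
  ∀ (X : Scheme.{0}) (π : X ⟶ Spec (.of ℂ)), LocallyOfFiniteType π →
    ∀ (D : Type) [CommRing D] [IsDomain D] [Algebra ℂ D] [Algebra.FiniteType ℂ D]
      (g : Spec (.of D) ⟶ X) (h : D) (s k : ℕ) (ζ : Fin s → D) (y : Fin k → D), Ov π D g →
      h ≠ 0 → AlgebraicIndependent ℂ ζ →
      (∀ (t0 : D →ₐ[ℂ] ℂ) (i : Fin s), t0 h ≠ 0 → {z | ∃ t : D →ₐ[ℂ] ℂ, t h ≠ 0 ∧
        g (kp t) = g (kp t0) ∧ (∀ j, t (y j) = t0 (y j)) ∧ t (ζ i) = z}.Finite) →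
      (s : WithBot ℕ∞) ≤ topologicalKrullDim (closure (Set.range g)) + k

/-- facts about étale covers -/
def S_Cover : Prop :=
  ∀ (A A' : Type) [CommRing A] [Algebra ℂ A] [Algebra.FiniteType ℂ A] [CommRing A'] [Algebra ℂ A']
    (ψ : A →ₐ[ℂ] A'), IsCover ψ →
    Algebra.FiniteType ℂ A' ∧ (∀ t : A →ₐ[ℂ] ℂ, ∃ t' : A' →ₐ[ℂ] ℂ, t'.comp ψ = t) ∧
    (∀ (τ : A →ₐ[ℂ] DualNumber ℂ) (t' : A' →ₐ[ℂ] ℂ),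
      t'.comp ψ = (TrivSqZeroExt.fstHom ℂ ℂ ℂ).comp τ →
      ∃ τ' : A' →ₐ[ℂ] DualNumber ℂ, τ'.comp ψ = τ ∧ (TrivSqZeroExt.fstHom ℂ ℂ ℂ).comp τ' = t') ∧
    ∀ (X : Scheme.{0}) (j : Spec (.of A) ⟶ X), IsOpenImmersion j → ∀ h' : A',
      ∃ U : Set X, IsOpen U ∧
        (∀ q : PrimeSpectrum A', h' ∉ q.asIdeal →
          j (PrimeSpectrum.comap (ψ : A →+* A') q) ∈ U) ∧
        ∀ t : A →ₐ[ℂ] ℂ, j (kp t) ∈ U → ∃ t' : A' →ₐ[ℂ] ℂ, t'.comp ψ = t ∧ t' h' ≠ 0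

/-- at a reduced generic point matrices have generalised inverses étale locally -/
def S_Red : Prop :=
  ∀ (X : Scheme.{0}) (A A' : Type) [CommRing A] [Algebra ℂ A] [Algebra.FiniteType ℂ A]
    [CommRing A'] [Algebra ℂ A'] (ψ : A →ₐ[ℂ] A') (j : Spec (.of A) ⟶ X) (p : PrimeSpectrum A),
    IsCover ψ → IsOpenImmersion j → closure {j p} ∈ irreducibleComponents X →
    IsReduced (X.presheaf.stalk (j p)) →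
    ∀ (m n : Type) [Fintype m] [Fintype n] (Φ : Matrix m n A'),
      ∃ (q : PrimeSpectrum A') (h' : A') (Ψ : Matrix n m A'),
        PrimeSpectrum.comap (ψ : A →+* A') q = p ∧ h' ∉ q.asIdeal ∧ h' • Φ = Φ * Ψ * Φ

/-- semicontinuity of the kernel -/
def S_Semi : Prop :=
  ∀ (A : Type) [CommRing A] [Algebra ℂ A] (m n : Type) [Fintype m] [Fintype n]
    (Φ : Matrix m n A) (t0 : A →ₐ[ℂ] ℂ), ∃ h : A, t0 h ≠ 0 ∧ ∀ t : A →ₐ[ℂ] ℂ, t h ≠ 0 →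
      finrank ℂ (LinearMap.ker (Φ.map t).mulVecLin) ≤
        finrank ℂ (LinearMap.ker (Φ.map t0).mulVecLin)

end Pool.Agent.P.MP_2b2d3b_ag
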