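import Pool.Agent.P.MP_2b2d3b_ag.Api2

/-!
Statements of the bundle level packages.
-/

namespace Pool.Agent.P.MP_2b2d3b_ag

open MvPolynomial CategoryTheory AlgebraicGeometry Module

/-! ### Package Hf -/

def S_HfEq : Prop :=
  ∀ (F : Pol ℂ) (B : Type) [CommRing B] [Algebra ℂ B] (t : B →ₐ[ℂ] ℂ) (E : Bundle F B)
    (E1 E2 : Bundle F ℂ), IsPull t E E1 → IsPull t E E2 →
    ∀ᶠ d in Filter.atTop, E1.hf ⊤ d = E2.hf ⊤ d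

def S_HfSer : Prop :=
  ∀ (F : Pol ℂ), Rg F → ∀ (E : Bundle F ℂ) ω (i : ℕ) s t1 t2 d1 d2 g1 g2 G,
    Ser E ω (i + 1) s t1 t2 d1 d2 g1 g2 G →
    ∀ᶠ e in Filter.atTop, E.hf ⊤ (e + i) + hilb (satI s) (e + 2 * i + 1) =
      hilb (Ideal.span {F}) e + hilb (Ideal.span {F}) (e + 2 * i + 1)

/-! ### Package Stab -/

def S_Lower : Prop :=
  ∀ (F : Pol ℂ), Hyp F → ∀ (E : Bundle F ℂ) (j : ℕ) s, IsFun E (j + 1) s → s ≠ 0 → ¬ Prim s →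
    ∃ s', IsFun E j s' ∧ s' ≠ 0 ∧ ∀ u, s u = 0 → s' u = 0

def S_Stab : Prop :=
  ∀ (F : Pol ℂ), Hyp F → ∀ E : Bundle F ℂ, E.HasC2 → (E.Stable ↔ NoFun E 0)

/-! ### Package Gram -/

def S_Gram : Prop :=
  ∀ (F : Pol ℂ), Rg F → ∀ (B : Type) [CommRing B] [Algebra ℂ B] (ι : Type) [Fintype ι]
    (a : ι → ℕ) (Ω : Matrix ι ι (Pol B)), GD F a Ω →
    ∃ (E : Bundle F B) (ω : _) (m : ι → E.M), GramD E ω a Ω m ∧ ∀ u, (∀ v, ω u v = 0) → u = 0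

def S_GramPull : Prop :=
  ∀ (F : Pol ℂ), Rg F → ∀ (B B' : Type) [CommRing B] [Algebra ℂ B] [CommRing B'] [Algebra ℂ B']
    (φ : B →ₐ[ℂ] B') (ι : Type) [Fintype ι] (a : ι → ℕ) (Ω : Matrix ι ι (Pol B))
    (E : Bundle F B) (E' : Bundle F B') ω ω' (m : ι → E.M) (m' : ι → E'.M), GramD E ω a Ω m →
    GramD E' ω' a (Ω.map (map (φ : B →+* B'))) m' → (∀ u, (∀ v, ω' u v = 0) → u = 0) →
    IsPull φ E E'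

def S_PullEx : Prop :=
  ∀ (F : Pol ℂ), Rg F → ∀ (B B' : Type) [CommRing B] [Algebra ℂ B] [CommRing B'] [Algebra ℂ B']
    (φ : B →ₐ[ℂ] B') (E : Bundle F B), ∃ E' : Bundle F B', IsPull φ E E'

/-! ### Package NB -/

def S_NB : Prop :=
  ∀ (F : Pol ℂ), Rg F → ∀ (B : Type) [CommRing B] [Algebra ℂ B] [IsNoetherianRing B]
    (n1 n2 : ℕ) (g1 g2 G : Pol B), Adm2 F n1 n2 g1 g2 G →
    ∃ (E : Bundle F B) (ω : _) (s : _) (t1 t2 : E.M),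
      Ser E ω 1 s t1 t2 n1 n2 g1 g2 G ∧ Refl E ω s t1 g1 g2 G

def S_NPull : Prop :=
  ∀ (F : Pol ℂ), Rg F → ∀ (B B' : Type) [CommRing B] [Algebra ℂ B] [CommRing B'] [Algebra ℂ B']
    (φ : B →ₐ[ℂ] B') (E : Bundle F B) (E' : Bundle F B') ω ω' (j : ℕ) s s' t1 t2 t1' t2' d1 d2
    g1 g2 G G', Ser E ω j s t1 t2 d1 d2 g1 g2 G →
    Ser E' ω' j s' t1' t2' d1 d2 (map (φ : B →+* B') g1) (map (φ : B →+* B') g2) G' →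
    Refl E' ω' s' t1' (map (φ : B →+* B') g1) (map (φ : B →+* B') g2) G' →
    G' - map (φ : B →+* B') G ∈ Ideal.span {bc F B', map (φ : B →+* B') g1} →
    ∃ θ, Pull φ E E' θ ∧ (∀ u, s' (θ u) = mapR F φ (s u)) ∧
      ∀ u, ω' (θ u) t1' = mapR F φ (ω u t1)

/-! ### Package Lam -/

/-- the wedge product of two functionals -/
def S_Wedge : Prop :=
  ∀ (F : Pol ℂ), Rg F → ∀ (B : Type) [CommRing B] [Algebra ℂ B] (E : Bundle F B) ω,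
    Pairing E ω → ∀ l s : E.M →ₗ[Pol B] Rq F B, ∃ b : Pol B,
      (∀ u v, l u * s v - l v * s u = mq F B b * ω u v) ∧ b ∈ satI s ∧
      ∀ k j i : ℕ, IsFun E k l → IsFun E j s → i + 1 = j + k → mq F B b ∈ HomR F B i

/-- every element of the linked ideal is a wedge product -/
def S_Lam : Prop :=
  ∀ (F : Pol ℂ), Rg F → ∀ (B : Type) [CommRing B] [Algebra ℂ B] (E : Bundle F B) ω (j : ℕ) s
    t1 t2 d1 d2 g1 g2 G, Ser E ω j s t1 t2 d1 d2 g1 g2 G →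
    (∀ (b : Pol B) (i k : ℕ), b.IsHomogeneous i → i + 1 = j + k →
      b * G ∈ Ideal.span {bc F B, g1, g2} → ∃ l, IsFun E k l ∧
        ∀ u v, l u * s v - l v * s u = mq F B b * ω u v) ∧
    (∀ b : Pol B, b * G ∈ Ideal.span {bc F B, g1, g2} → b ∈ satI s) ∧
    (∀ (b : Pol B) (u : E.M), s u = mq F B b → b * G ∈ Ideal.span {bc F B, g1, g2}) ∧
    HomI (satI s) ∧ SatI (satI s) ∧ bc F B ∈ satI s

/-- Serre data of shift one versus admissible data -/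
def S_SerAdm : Prop :=
  ∀ (F : Pol ℂ), Rg F → ∀ (B : Type) [CommRing B] [Algebra ℂ B] (E : Bundle F B) ω s
    t1 t2 d1 d2 g1 g2 G, Ser E ω 1 s t1 t2 d1 d2 g1 g2 G →
    (NoFun E 0 → Adm2 F d1 d2 g1 g2 G) ∧
    ((∀ b : B, C b * G ∈ Ideal.span {bc F B, g1, g2} → b = 0) → NoFun E 0) ∧
    ∀ s', IsFun E 1 s' → (∀ u v, s' u * s v = s' v * s u) →
      ∃ κ : B, ∀ u, s' u = mq F B (C κ) * s u

/-! ### Package Rep -/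

def S_RepEx : Prop :=
  ∀ (F : Pol ℂ), Hyp F → ∀ (E : Bundle F ℂ) (j : ℕ) s, IsFun E j s → Prim s →
    {c : ℕ | ¬ ∃ Λ, Rep c E j s Λ}.Finite

def S_RepRad : Prop :=
  ∀ (F : Pol ℂ), Rg F → ∀ (B : Type) [CommRing B] [Algebra ℂ B] (E : Bundle F B) (c j : ℕ) s Λ,
    Rep c E j s Λ → (∀ a, Λ (wc B c * a) = Λ a) ∧
      (∀ a : Pol B, a.IsHomogeneous (2 * j + 1) → Λ a = 0) ∧
      ∀ (b : Pol B) (d : ℕ), b.IsHomogeneous d → (b ∈ rad Λ ↔ b ∈ satI s)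

def S_FiltOf : Prop :=
  ∀ (Λ : Pol ℂ →ₗ[ℂ] ℂ) (w : Pol ℂ) (r n : ℕ), w.IsHomogeneous 1 → (∀ a, Λ (w * a) = Λ a) →
    (∀ a : Pol ℂ, a.IsHomogeneous r → Λ a = 0) → (∀ᶠ d in Filter.atTop, hilb (rad Λ) d = n) →
    ∃ lam : (Pol ℂ ⧸ rad Λ) →ₗ[ℂ] ℂ, Filt (Ideal.Quotient.mkₐ ℂ (rad Λ)) w lam r ∧
      finrank ℂ (Pol ℂ ⧸ rad Λ) = n ∧
      lam.comp (Ideal.Quotient.mkₐ ℂ (rad Λ)).toLinearMap = Λ

/-! ### Package Serre -/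

def S_CStep : Prop :=
  ∀ (F : Pol ℂ), Hyp F → ∀ E : Bundle F ℂ, Good E → ∃ s, IsFun E 1 s ∧ s ≠ 0

def S_Len : Prop :=
  ∀ (F : Pol ℂ), Hyp F → ∀ (E : Bundle F ℂ) s, Good E → IsFun E 1 s → s ≠ 0 →
    (∀ᶠ d in Filter.atTop, hilb (satI s) d = 11) ∧ (∀ d, hilb (satI s) d ≤ 11) ∧
    4 ≤ hilb (satI s) 2 ∧
    {c : ℕ | ¬ ∃ Λ lam, RepF c E s Λ lam}.Finite

/-! ### Package Uq -/

def S_Uq : Prop :=
  ∀ (F : Pol ℂ), Hyp F → ∀ (E E' : Bundle F ℂ) (c : ℕ) s s' (Λ : Pol ℂ →ₗ[ℂ] ℂ) (κ : ℂ),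
    NoFun E 0 → NoFun E' 0 → κ ≠ 0 → Rep c E 1 s Λ → Rep c E' 1 s' (κ • Λ) → Iso E E'

def S_UqFree : Prop :=
  ∀ (F : Pol ℂ), Hyp F → ∀ (E E' : Bundle F ℂ) s s', Good E → Good E' → IsFun E 1 s → s ≠ 0 →
    IsFun E' 1 s' → s' ≠ 0 → satI s = satI s' → 10 ≤ hilb (satI s) 3 → Iso E E'

def S_Ext : Prop :=
  ∀ (F : Pol ℂ), Hyp F → ∀ (E : Bundle F ℂ),
    (∀ s, Good E → IsFun E 1 s → s ≠ 0 → ∃ N : Bundle F ℂ, IsPull (AlgHom.id ℂ ℂ) E N ∧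
      IsExtension (bc F ℂ) N.gr (satI s)) ∧
    ∀ I, IsExtension (bc F ℂ) E.gr I → ∃ s, IsFun E 1 s ∧ s ≠ 0 ∧ satI s = I

/-! ### Package Tr (transfer) -/

def S_Tr : Prop :=
  ∀ (F : Pol ℂ), Hyp F →
    (∀ (B : Type) [CommRing B] [Algebra ℂ B] (t : B →ₐ[ℂ] ℂ) (E : Bundle F B)
      (E1 E2 : Bundle F ℂ), IsPull t E E1 → IsPull t E E2 → Good E1 → Good E2) ∧
    (∀ E : Family F ℂ, Good E.toBundle) ∧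
    (∀ E : Bundle F ℂ, Good E → ∃ E' : Family F ℂ, E'.toBundle = E) ∧
    (∀ (B : Type) [CommRing B] [Algebra ℂ B] (E : Bundle F B),
      (∀ t : B →ₐ[ℂ] ℂ, ∃ E0, IsPull t E E0 ∧ Good E0) → ∃ E' : Family F B, E'.toBundle = E) ∧
    (∀ (B B' : Type) [CommRing B] [Algebra ℂ B] [CommRing B'] [Algebra ℂ B'] (φ : B →ₐ[ℂ] B')
      (E : Family F B), ∃ E' : Family F B', IsPull φ E.toBundle E'.toBundle) ∧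
    (∀ E E' : Bundle F ℂ, Iso E E' → (Good E → Good E') ∧ (Two E → Two E') ∧
      ∀ j s, IsFun E j s → ∃ s', IsFun E' j s' ∧ satI s' = satI s ∧ (s ≠ 0 → s' ≠ 0)) ∧
    ∀ (B B'' : Type) [CommRing B] [Algebra ℂ B] [CommRing B''] [Algebra ℂ B''] (ψ : B →ₐ[ℂ] B'')
      (σ : B'' →ₐ[ℂ] B) (χ : B →ₐ[ℂ] ℂ) (E1 E2 : Bundle F B) (E'' : Bundle F B''),
      σ.comp ψ = AlgHom.id ℂ B → IsPull ψ E1 E'' → IsPull ψ E2 E'' → TwoAt E1 χ → TwoAt E2 χ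

/-! ### Package Pt -/

def S_Pt : Prop :=
  ∀ (F : Pol ℂ), Hyp F → ∀ 𝓜 : ModuliSpace F,
    (∀ (B : Type) [CommRing B] [Algebra ℂ B] [Algebra.FiniteType ℂ B] (𝓔 : Family F B)
      (t : B →ₐ[ℂ] ℂ) (E : Family F ℂ), IsPull t 𝓔.toBundle E.toBundle →
      𝓜.pt E = 𝓜.cl B 𝓔 (kp t)) ∧
    (∀ E E' : Family F ℂ, 𝓜.pt E = 𝓜.pt E' ↔ Iso E.toBundle E'.toBundle) ∧
    ∀ Z : Set 𝓜.M, IsClosed Z → (∀ E : Family F ℂ, 𝓜.pt E ∈ Z) → Z = Set.univ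

/-! ### Package GorFam -/

def S_GorFam : Prop :=
  ∀ (F : Pol ℂ), Hyp F → ∀ (B : Type) [CommRing B] [Algebra ℂ B] [Algebra.FiniteType ℂ B]
    [Nontrivial B] (c D : ℕ) (Λ : Pol B →ₗ[B] B) (b : Fin 11 → Pol B), Gor c D Λ b →
    bc F B ∈ rad Λ → ∃ (𝓔 : Family F B) (s : _), Rep c 𝓔.toBundle 1 s Λ ∧
      ∀ t : B →ₐ[ℂ] ℂ, ∃ (E : Bundle F ℂ) (s' : _), IsPull t 𝓔.toBundle E ∧ Good E ∧
        IsFun E 1 s' ∧ s' ≠ 0 ∧ Rep c E 1 s' (bcL (t : B →+* ℂ) Λ)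

/-- the local freeness part of `S_GorFam` -/
def S_GorAdm : Prop :=
  ∀ (F : Pol ℂ), Hyp F → ∀ (B : Type) [CommRing B] [Algebra ℂ B] [Algebra.FiniteType ℂ B]
    (D : ℕ) (Λ : Pol B →ₗ[B] B) (b : Fin 11 → Pol B) (x : Box B) (G : Pol B), x.Ok →
    x.F = bc F B → Gor x.c D Λ b → G.IsHomogeneous (x.n1 + x.n2 + 1) →
    (∀ a, Λ a = x.mu (G * a)) → Adm2 F x.n1 x.n2 x.g1 x.g2 G

/-! ### Package PfFam -/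

def S_PfBun : Prop :=
  ∀ (F : Pol ℂ), Hyp F → ∀ (p : Pf ℂ), p.Hom → p.pf = bc F ℂ →
    ∀ (E : Bundle F ℂ) ω (m : Fin 6 → E.M), GramD E ω pfDeg p.Om m →
      (∀ u, (∀ v, ω u v = 0) → u = 0) →
      Good E ∧ ¬ Two E ∧ ω (m 0) ≠ 0 ∧ satI (ω (m 0)) = p.I

def S_PfFam : Prop :=
  ∀ (F : Pol ℂ), Hyp F → ∀ (B : Type) [CommRing B] [Algebra ℂ B] (p : Pf B), p.Hom →
    p.pf = bc F B → ∃ 𝓔 : Family F B, ∀ t : B →ₐ[ℂ] ℂ, ∃ (E : Family F ℂ) (s : _),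
      IsPull t 𝓔.toBundle E.toBundle ∧ ¬ Two E.toBundle ∧ IsFun E.toBundle 1 s ∧ s ≠ 0 ∧
      satI s = (p.map (t : B →+* ℂ)).I

/-! ### Package Z1 -/

def S_Z1 : Prop :=
  ∀ (F : Pol ℂ), Hyp F → ∀ 𝓜 : ModuliSpace F, ∃ Z : Set 𝓜.M, IsClosed Z ∧ IsIrreducible Z ∧
    topologicalKrullDim Z ≤ 12 ∧ Z ⊆ closure 𝓜.F₁ ∧
    (∀ (E : Family F ℂ) s, IsFun E.toBundle 1 s → s ≠ 0 → 7 ≤ hilb (satI s) 2 → 𝓜.pt E ∈ Z) ∧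
    ∃ E : Family F ℂ, ¬ Two E.toBundle ∧ 𝓜.pt E ∈ Z

def S_NP : Prop :=
  ∀ (F : Pol ℂ), Hyp F → ∀ (𝓜 : ModuliSpace F) (Z : Set 𝓜.M), IsClosed Z →
    (∀ (E : Family F ℂ) s, IsFun E.toBundle 1 s → s ≠ 0 → 7 ≤ hilb (satI s) 2 → 𝓜.pt E ∈ Z) →
    ∀ (E : Family F ℂ) s, IsFun E.toBundle 1 s → s ≠ 0 → 4 ≤ hilb (satI s) 1 → 𝓜.pt E ∈ Z

/-! ### Package Sys -/

def S_Sys : Prop :=
  ∀ (F : Pol ℂ), Rg F → ∀ (B : Type) [CommRing B] [Algebra ℂ B] (E : Bundle F B),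
    ∃ (m n : Type) (_ : Fintype m) (_ : Fintype n) (Φ : Matrix m n B),
      (∀ (t : B →ₐ[ℂ] ℂ) (E0 : Bundle F ℂ), IsPull t E E0 → Two E0 →
        2 ≤ finrank ℂ (LinearMap.ker (Φ.map t).mulVecLin)) ∧
      ∀ (B1 : Type) [CommRing B1] [Algebra ℂ B1] (τ : B →ₐ[ℂ] B1) (χ : B1 →ₐ[ℂ] ℂ)
        (E1 : Bundle F B1), IsPull τ E E1 → ∀ y1 y2 : n → B1, (Φ.map τ).mulVec y1 = 0 →
        (Φ.map τ).mulVec y2 = 0 → LinearIndependent ℂ ![χ ∘ y1, χ ∘ y2] → TwoAt E1 χ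

/-! ### Package NonRed -/

def S_J : Prop :=
  ∀ (F : Pol ℂ), Hyp F → ∀ (𝓜 : ModuliSpace F) (E0 : Family F ℂ), ¬ Two E0.toBundle →
    𝓜.pt E0 ∉ closure {x | ∃ E : Family F ℂ, Two E.toBundle ∧ 𝓜.pt E = x}

def S_NonRed : Prop :=
  ∀ (F : Pol ℂ), Hyp F → ∀ (𝓜 : ModuliSpace F) (η : 𝓜.M),
    closure {η} ∈ irreducibleComponents 𝓜.M →
    η ∈ closure {x | ∃ E : Family F ℂ, Two E.toBundle ∧ Obs1 E.toBundle ∧ 𝓜.pt E = x} →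
    ¬ IsReduced (𝓜.M.presheaf.stalk η)

/-! ### Package Obs -/

def S_Obs : Prop :=
  ∀ (F : Pol ℂ), Hyp F → ∀ (E : Bundle F ℂ) s, IsFun E 1 s → s ≠ 0 →
    (∀ d, hilb (satI s) d ≤ 11) → E.Obstructed

/-! ### Planar packages -/

def S_PlBase : Prop :=
  ∀ (F : Pol ℂ), Hyp F →
    ∃ (B : Type) (_ : CommRing B) (_ : IsDomain B) (_ : Algebra ℂ B) (_ : Algebra.FiniteType ℂ B)
      (D : Type) (_ : CommRing D) (_ : IsDomain D) (_ : Algebra ℂ D) (_ : Algebra.FiniteType ℂ D)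
      (v : Pt B) (r : RD D) (j : B →ₐ[ℂ] D), Function.Injective j ∧ v.Eqs (bc F B) ∧
      r.Valid (bc F D) ∧ v.map (j : B →+* D) = r.pt (bc F D) ∧
      AlgebraicIndependent ℂ (Sum.elim (fun p : Fin 4 × Fin 4 => r.g' p.1 p.2) r.xs) ∧
      (∀ i, r.fy (bc F D) i ≠ 0) ∧
      ∀ w : Pt ℂ, w.Eqs (bc F ℂ) → ∃ t : B →ₐ[ℂ] ℂ, v.map (t : B →+* ℂ) = w

def S_PlEx : Prop :=
  ∀ (F : Pol ℂ), Hyp F →
    (∀ (B : Type) [CommRing B] [Algebra ℂ B] [Algebra.FiniteType ℂ B] [Nontrivial B] (v : Pt B),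
      v.Eqs (bc F B) → ∃ 𝓔 : Family F B, PlM 𝓔.toBundle v) ∧
    (∀ (B B' : Type) [CommRing B] [Algebra ℂ B] [CommRing B'] [Algebra ℂ B'] (φ : B →ₐ[ℂ] B')
      (E : Bundle F B) (E' : Bundle F B') (v : Pt B), PlM E v → PlM E' (v.map (φ : B →+* B')) →
      IsPull φ E E') ∧
    ∀ (E : Bundle F ℂ) (w : Pt ℂ) ω s t1 t2 G, PlD E w ω s t1 t2 G →
      Good E ∧ Two E ∧ s ≠ 0 ∧ linForm (w.g' 3) ∈ satI s ∧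
      ∀ (b : Pol ℂ) (d : ℕ), b.IsHomogeneous d →
        (b ∈ satI s ↔ w.chi ∣ (rho w.g b).eval w.eta)

def S_PlCover : Prop :=
  ∀ (F : Pol ℂ), Hyp F → ∀ (E : Bundle F ℂ) s, Good E → IsFun E 1 s → s ≠ 0 →
    hilb (satI s) 1 ≤ 3 → ∃ (w : Pt ℂ) (N : Bundle F ℂ), PlM N w ∧ Iso E N

def S_PlFun : Prop :=
  ∀ (F : Pol ℂ), Hyp F → ∀ (r : RD ℂ) (E : Bundle F ℂ) ω s t1 t2 G, r.Valid (bc F ℂ) →
    PlD E (r.pt (bc F ℂ)) ω s t1 t2 G →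
    (∀ (b : Pol ℂ) (d : ℕ), b.IsHomogeneous d → (b ∈ satI s ↔ ∀ i, eval (r.p i) b = 0)) ∧
    (∀ b : Pol ℂ, b.IsHomogeneous 3 → (∀ i, eval (r.p i) b = 0) → linForm (r.g' 3) ∣ b) ∧
    (∀ s', IsFun E 1 s' → ∃ κ1 κ2 : ℂ,
      ∀ u, s' u = mq F ℂ (C κ1) * ω u t1 + mq F ℂ (C κ2) * s u) ∧
    ∀ (κ1 κ2 : ℂ), (κ1 ≠ 0 ∨ κ2 ≠ 0) → ∃ s', IsFun E 1 s' ∧ s' ≠ 0 ∧
      (∀ u, s' u = mq F ℂ (C κ1) * ω u t1 + mq F ℂ (C κ2) * s u) ∧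
      linForm (r.g' 3) ∈ satI s' ∧ 10 ≤ hilb (satI s') 3 ∧
      (∀ l : Pol ℂ, l.IsHomogeneous 1 → l ∈ satI s' → linForm (r.g' 3) ∣ l) ∧
      ∀ (b : Pol ℂ) (d : ℕ), b.IsHomogeneous (d + 1) → (b ∈ satI s' ↔
        ∃ a a' : Pol ℂ, a.IsHomogeneous (d + 1) ∧ a'.IsHomogeneous (d + 1) ∧
          a * (r.pt (bc F ℂ)).H + a' * G ∈ Ideal.span {bc F ℂ, linForm (r.g' 3)} ∧
          b - (C κ1 * a + C κ2 * a') ∈ Ideal.span {bc F ℂ})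

def S_PlDef : Prop :=
  ∀ (F : Pol ℂ), Hyp F → ∀ (r : RD ℂ) (E : Bundle F ℂ), r.Valid (bc F ℂ) →
    (∀ i, r.fy (bc F ℂ) i ≠ 0) → PlM E (r.pt (bc F ℂ)) → Obs1 E

def S_PlLow : Prop :=
  ∀ (F : Pol ℂ), Hyp F → ∀ (𝓜 : ModuliSpace F) (D : Type) [CommRing D] [IsDomain D] [Algebra ℂ D]
    [Algebra.FiniteType ℂ D] (r : RD D) (𝓔 : Family F D), r.Valid (bc F D) →
    AlgebraicIndependent ℂ (Sum.elim (fun p : Fin 4 × Fin 4 => r.g' p.1 p.2) r.xs) →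
    (∀ i, r.fy (bc F D) i ≠ 0) → PlM 𝓔.toBundle (r.pt (bc F D)) →
    13 ≤ topologicalKrullDim (closure (Set.range (𝓜.cl D 𝓔)))

def S_PlUp : Prop :=
  ∀ (F : Pol ℂ), Hyp F → ∀ (𝓜 : ModuliSpace F) (D : Type) [CommRing D] [IsDomain D] [Algebra ℂ D]
    [Algebra.FiniteType ℂ D] (r : RD D) (𝓔 : Family F D), r.Valid (bc F D) →
    AlgebraicIndependent ℂ (r.g' 3) → PlM 𝓔.toBundle (r.pt (bc F D)) →
    topologicalKrullDim (closure (Set.range (𝓜.cl D 𝓔))) ≤ 13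

end Pool.Agent.P.MP_2b2d3b_ag
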