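import Pool.Agent.P.MP_2b2d3b_ag.ApiE

/-!
Statements of the packages for the construction of the moduli space.
-/

namespace Pool.Agent.P.MP_2b2d3b_ag

open MvPolynomial CategoryTheory AlgebraicGeometry Matrix

/-! ### Package NbA -/

/-- base change of a neighbourhood -/
def S_NbBC : Prop :=
  ∀ (B B1 : Type) [CommRing B] [Algebra ℂ B] [CommRing B1] [Algebra ℂ B1] [Algebra.FiniteType ℂ B1]
    (φ : B →ₐ[ℂ] B1) (t : B →ₐ[ℂ] ℂ) (t1 : B1 →ₐ[ℂ] ℂ) (U : Nb B t), t1.comp φ = t →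
    ∃ (V : Nb B1 t1) (χ : U.A →ₐ[ℂ] V.A), χ.comp U.ψ = V.ψ.comp φ ∧ V.p.comp χ = U.p

/-- the image of a neighbourhood is open -/
def S_NbImg : Prop :=
  ∀ (B : Type) [CommRing B] [Algebra ℂ B] [Algebra.FiniteType ℂ B] (t : B →ₐ[ℂ] ℂ) (U : Nb B t),
    ∃ h : B, t h ≠ 0 ∧ ∀ t' : B →ₐ[ℂ] ℂ, t' h ≠ 0 → ∃ p' : U.A →ₐ[ℂ] ℂ, p'.comp U.ψ = t'

/-- points of a finite product -/
def S_PiNb : Prop :=
  ∀ (m : ℕ) (A : Fin m → Type) [∀ i, CommRing (A i)] [∀ i, Algebra ℂ (A i)],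
    (∀ i, (Pi.evalAlgHom ℂ A i : (∀ i, A i) →+* A i).Etale) ∧
    ∀ p : (∀ i, A i) →ₐ[ℂ] ℂ, ∃ (i : Fin m) (p' : A i →ₐ[ℂ] ℂ), p'.comp (Pi.evalAlgHom ℂ A i) = p

/-- finitely many neighbourhoods give an etale cover -/
def S_NbCov : Prop :=
  ∀ (B : Type) [CommRing B] [Algebra ℂ B] [Algebra.FiniteType ℂ B]
    (U : ∀ t : B →ₐ[ℂ] ℂ, Nb B t), ∃ (m : ℕ) (ts : Fin m → (B →ₐ[ℂ] ℂ)),
      IsCover (AlgHom.pi fun i => (U (ts i)).ψ) ∧ Algebra.FiniteType ℂ (∀ i, (U (ts i)).A) ∧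
      ∀ t : B →ₐ[ℂ] ℂ, ∃ (i : Fin m) (p' : (U (ts i)).A →ₐ[ℂ] ℂ), p'.comp (U (ts i)).ψ = t

/-! ### Package NbB -/

/-- elements that vanish locally vanish -/
def S_NbEq : Prop :=
  ∀ (B : Type) [CommRing B] [Algebra ℂ B] [Algebra.FiniteType ℂ B] (Y : Type) (y y' : Y → B),
    (∀ t : B →ₐ[ℂ] ℂ, ∃ U : Nb B t, ∀ a, U.ψ (y a) = U.ψ (y' a)) → y = y'

/-- morphisms that agree locally agree -/
def S_NbHom : Prop :=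
  ∀ (B : Type) [CommRing B] [Algebra ℂ B] [Algebra.FiniteType ℂ B] (X : Scheme.{0})
    (g g' : Spec (.of B) ⟶ X), (∀ t : B →ₐ[ℂ] ℂ, ∃ U : Nb B t, spA U.ψ ≫ g = spA U.ψ ≫ g') →
    g = g'

/-- descent of algebra maps -/
def S_Desc : Prop :=
  ∀ (Y B B' : Type) [CommRing Y] [Algebra ℂ Y] [CommRing B] [Algebra ℂ B] [CommRing B']
    [Algebra ℂ B'] [Algebra.FiniteType ℂ B'] (ψ : B →ₐ[ℂ] B') (y' : Y →ₐ[ℂ] B'), IsCover ψ →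
    (∀ (C : Type) [CommRing C] [Algebra ℂ C] [Algebra.FiniteType ℂ C] (i1 i2 : B' →ₐ[ℂ] C),
      i1.comp ψ = i2.comp ψ → i1.comp y' = i2.comp y') →
    ∃ y : Y →ₐ[ℂ] B, ψ.comp y = y'

/-! ### Package Prod -/

def S_Prod : Prop :=
  ∀ (F : Pol ℂ) (m : ℕ) (A : Fin m → Type) [∀ i, CommRing (A i)] [∀ i, Algebra ℂ (A i)]
    (E : ∀ i, Bundle F (A i)), ∃ 𝓔 : Bundle F (∀ i, A i),
      (∀ i, IsPull (Pi.evalAlgHom ℂ A i) 𝓔 (E i)) ∧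
      ∀ (B : Type) [CommRing B] [Algebra ℂ B] (ψ : ∀ i, B →ₐ[ℂ] A i) (E0 : Bundle F B),
        (∀ i, IsPull (ψ i) E0 (E i)) → IsPull (AlgHom.pi ψ) E0 𝓔

/-! ### Packages GA1 to GA4, GB, GC -/

def S_GA1 : Prop := ∀ F : Pol ℂ, PBk F → PreAtlas F → ∃ 𝒜 : Atlas F, 𝒜.Basis

def S_GA2 : Prop := ∀ F : Pol ℂ, PBk F → ∀ 𝒜 : Atlas F, 𝒜.Desc

/-- existence of the transition maps -/
def S_GA3 : Prop :=
  ∀ F : Pol ℂ, PBk F → ∀ (𝒜 : Atlas F) (i j : 𝒜.ι), 𝒜.le i j →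
    ∃ τ : 𝒜.Y j →ₐ[ℂ] 𝒜.Y i, 𝒜.Tau τ

/-- transition maps are unique and epimorphisms -/
def S_GAU : Prop :=
  ∀ F : Pol ℂ, ∀ (𝒜 : Atlas F) (i j : 𝒜.ι) (τ : 𝒜.Y j →ₐ[ℂ] 𝒜.Y i), 𝒜.Tau τ →
    (∀ τ' : 𝒜.Y j →ₐ[ℂ] 𝒜.Y i, 𝒜.Tau τ' → τ = τ') ∧
    ∀ (C : Type) [CommRing C] [Algebra ℂ C] [Algebra.FiniteType ℂ C] (y y' : 𝒜.Y i →ₐ[ℂ] C),
      y.comp τ = y'.comp τ → y = y'

/-- the intersection of two charts is open -/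
def S_GAL : Prop :=
  ∀ F : Pol ℂ, PBk F → ∀ (𝒜 : Atlas F) (i j : 𝒜.ι) (E0 : Bundle F ℂ) (y0 : 𝒜.Y i →ₐ[ℂ] ℂ)
    (y0' : 𝒜.Y j →ₐ[ℂ] ℂ), 𝒜.Cl i E0 y0 → 𝒜.Cl j E0 y0' → ∃ h : 𝒜.Y i, y0 h ≠ 0 ∧
      ∀ (E : Bundle F ℂ) (y : 𝒜.Y i →ₐ[ℂ] ℂ), y h ≠ 0 → 𝒜.Cl i E y → ∃ y', 𝒜.Cl j E y'

def S_GA4 : Prop :=
  ∀ F : Pol ℂ, PBk F → ∀ 𝒜 : Atlas F, 𝒜.Basis → ∀ (i j : 𝒜.ι) (τ : 𝒜.Y j →ₐ[ℂ] 𝒜.Y i),
    𝒜.Tau τ → IsOpenImmersion (spA τ)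

def S_GB : Prop := ∀ F : Pol ℂ, PBk F → ∀ 𝒜 : Atlas F, 𝒜.Basis → Nonempty (Glued 𝒜)

/-- `f` is the classifying map of `E` -/
def Glued.Cls {F : Pol ℂ} {𝒜 : Atlas F} (G : Glued 𝒜) {B : Type} [CommRing B] [Algebra ℂ B]
    (E : Family F B) (f : Spec (.of B) ⟶ G.M) : Prop :=
  ∀ (C : Type) [CommRing C] [Algebra ℂ C] [Algebra.FiniteType ℂ C] (φ : B →ₐ[ℂ] C)
    (E' : Family F C) (i : 𝒜.ι) (y : 𝒜.Y i →ₐ[ℂ] C), IsPull φ E.toBundle E'.toBundle →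
    𝒜.Cl i E'.toBundle y → spA φ ≫ f = spA y ≫ G.ι i

/-- existence of the classifying maps -/
def S_GC1 : Prop :=
  ∀ F : Pol ℂ, PBk F → ∀ (𝒜 : Atlas F) (G : Glued 𝒜) (B : Type) [CommRing B] [Algebra ℂ B]
    [Algebra.FiniteType ℂ B] (E : Family F B), ∃ f, G.Cls E f

def S_GC2 : Prop := ∀ F : Pol ℂ, PBk F → ∀ 𝒜 : Atlas F, Glued 𝒜 → Nonempty (ModuliSpace F)

/-! ### Package MRel -/

def S_MEx : Prop :=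
  ∀ (B Ψ n : Type) [CommRing B] [Fintype n] [DecidableEq n] (w : n × n → List Ψ)
    (A : Ψ → Matrix n n B), (IsUnit (wdet w A) → ∃ L e, Bs w A L e) ∧
      ∀ L e L' e', Bs w A L e → Bs w A L' e' → L = L' ∧ e = e'

/-- the regular representation -/
def S_RegRep : Prop :=
  ∀ (B Ψ n : Type) [CommRing B] [Fintype n] [DecidableEq n] (w : n × n → List Ψ)
    (A : Ψ → Matrix n n B) L e, Bs w A L e →
    ∃ lam : Matrix n n B →ₐ[B] Matrix (n × n) (n × n) B, Function.Injective lam ∧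
      (∀ ψ, lam (A ψ) = L ψ) ∧ (∀ x, ∑ p, (lam x).mulVec e p • wd A (w p) = x) ∧
      (∀ c : n × n → B, ∑ p, c p • wd A (w p) = 0 → c = 0) ∧
      ∀ x, (lam x).trace = (Fintype.card n : B) * x.trace

def S_MConj : Prop :=
  ∀ (B Ψ n : Type) [CommRing B] [Algebra ℂ B] [Fintype Ψ] [Fintype n] [DecidableEq n] (φ : Ψ → ℂ)
    (w : n × n → List Ψ) (G : Ψ → Matrix n n B) L e (g : Matrix n n B) (κ : B),
    Inv φ w G L e → IsUnit (Hm φ (cj g κ G)).det → Inv φ w (cj g κ G) L e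

def S_MRel : Prop :=
  ∀ (F : Pol ℂ) (B Ψ n : Type) [CommRing B] [Algebra ℂ B] [Fintype Ψ] [Fintype n] [DecidableEq n]
    (φ : Ψ → ℂ) (β : Ψ → Pol ℂ) (w : n × n → List Ψ) (G : Ψ → Matrix n n B) L e,
    Inv φ w G L e → Rel1 φ w L e ∧ (PlG F (Og β G) ↔ RelP F β w L e)

/-! ### Package MIso -/

/-- local Skolem-Noether -/
def S_SN : Prop :=
  ∀ (B n : Type) [CommRing B] [Algebra ℂ B] [Fintype n] [DecidableEq n]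
    (τ : Matrix n n B →ₐ[B] Matrix n n B) (t : B →ₐ[ℂ] ℂ),
    ∃ g : Matrix n n B, t g.det ≠ 0 ∧ ∀ x, τ x * g = g * x

def S_MIso : Prop :=
  ∀ (B Ψ n : Type) [CommRing B] [Algebra ℂ B] [Algebra.FiniteType ℂ B] [Fintype Ψ] [Fintype n]
    [DecidableEq n] (φ : Ψ → ℂ) (w : n × n → List Ψ) (G G' : Ψ → Matrix n n B) L e
    (t : B →ₐ[ℂ] ℂ), Inv φ w G L e → Inv φ w G' L e →
    ∃ (U : Nb B t) (g : Matrix n n U.A) (κ : U.A), IsUnit κ ∧ mpM U.ψ G' = cj g κ (mpM U.ψ G)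

/-! ### Package MLift -/

def S_MLift : Prop :=
  ∀ (B Ψ n : Type) [CommRing B] [Algebra ℂ B] [Algebra.FiniteType ℂ B] [Fintype Ψ] [Fintype n]
    [DecidableEq n] (φ : Ψ → ℂ) (w : n × n → List Ψ) (A : Ψ → Matrix n n B) L e (t : B →ₐ[ℂ] ℂ)
    (G0 : Ψ → Matrix n n ℂ), Rel1 φ w L e → Bs w A L e → (∀ ψ, (G0 ψ)ᵀ = -G0 ψ) →
    IsUnit (Hm φ G0).det → Am φ G0 = mpM t A →
    ∃ (U : Nb B t) (G : Ψ → Matrix n n U.A), Inv φ w G (mpM U.ψ L) (U.ψ ∘ e) ∧ mpM U.p G = G0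

/-! ### Packages Idem, MSplit -/

def S_Idem : Prop :=
  ∀ (B m : Type) [CommRing B] [Algebra ℂ B] [Algebra.FiniteType ℂ B] [Fintype m] [DecidableEq m]
    (x : Matrix m m B) (t : B →ₐ[ℂ] ℂ), IsIdempotentElem (x.map t) →
    ∃ (U : Nb B t) (q : Polynomial U.A), IsIdempotentElem (Polynomial.aeval (x.map U.ψ) q) ∧
      (Polynomial.aeval (x.map U.ψ) q).map U.p = x.map t

def S_MSplit : Prop :=
  ∀ (B Ψ n : Type) [CommRing B] [Algebra ℂ B] [Algebra.FiniteType ℂ B] [Fintype n]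
    [DecidableEq n] [Nonempty n] (w : n × n → List Ψ) (L : Ψ → Matrix (n × n) (n × n) B)
    (e : n × n → B) (t : B →ₐ[ℂ] ℂ) (A0 : Ψ → Matrix n n ℂ), Rel0 w L e →
    Bs w A0 (mpM t L) (t ∘ e) →
    ∃ (U : Nb B t) (A : Ψ → Matrix n n U.A), Bs w A (mpM U.ψ L) (U.ψ ∘ e) ∧ mpM U.p A = A0

/-! ### Packages Burn, MPar -/

def S_Burn : Prop :=
  ∀ (Ψ n : Type) [Fintype n] [DecidableEq n] (A : Ψ → Matrix n n ℂ),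
    (∀ W : Submodule ℂ (n → ℂ), (∀ ψ, ∀ v ∈ W, (A ψ).mulVec v ∈ W) → W = ⊥ ∨ W = ⊤) →
    ∃ w : n × n → List Ψ, IsUnit (wdet w A)

def S_MPar : Prop :=
  ∀ (F : Pol ℂ) (Ψ n : Type) [Fintype Ψ] [Fintype n] [DecidableEq n] (β : Ψ → Pol ℂ)
    (G : Ψ → Matrix n n ℂ), (Ideal.span {bc F ℂ}).IsPrime → Even (Fintype.card n) →
    (∀ ψ, (G ψ)ᵀ = -G ψ) → PlG F (Og β G) → Sep F (Og β G) →
    (∃ φ : Ψ → ℂ, IsUnit (Hm φ G).det) ∧ ∀ φ : Ψ → ℂ, IsUnit (Hm φ G).det →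
      ∀ W : Submodule ℂ (n → ℂ), (∀ ψ, ∀ v ∈ W, (Am φ G ψ).mulVec v ∈ W) → W = ⊥ ∨ W = ⊤

/-! ### Package Univ -/

def S_Univ : Prop :=
  ∀ (F : Pol ℂ) (D : CD F) (B : Type) [CommRing B] [Algebra ℂ B],
    (∀ y : D.Y →ₐ[ℂ] B, D.Rel (mpM y D.L) (y ∘ D.e)) ∧
    ∀ L e, D.Rel L e → ∃ y : D.Y →ₐ[ℂ] B, mpM y D.L = L ∧ y ∘ D.e = e

/-! ### Package Fr1 -/

def S_FrPull : Prop :=
  ∀ (F : Pol ℂ), Rg F → ∀ (B B' n : Type) [CommRing B] [Algebra ℂ B] [CommRing B'] [Algebra ℂ B']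
    (φ : B →ₐ[ℂ] B') (E : Bundle F B) (E' : Bundle F B') θ (j : ℕ) ω (s : n → _) Ω,
    Pull φ E E' θ → Frm E j ω s Ω → ∃ ω' s', Frm E' j ω' s' (Ω.map (map (φ : B →+* B'))) ∧
      (∀ u v, ω' (θ u) (θ v) = mapR F φ (ω u v)) ∧ ∀ a u, s' a (θ u) = mapR F φ (s a u)

def S_FrTr : Prop :=
  ∀ (F : Pol ℂ), Rg F → ∀ (B B' n : Type) [CommRing B] [Algebra ℂ B] [CommRing B'] [Algebra ℂ B']
    [Fintype n] (φ : B →ₐ[ℂ] B') (E : Bundle F B) (E1 E2 : Bundle F B') (j : ℕ) (s : n → _),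
    IsPull φ E E1 → IsPull φ E E2 →
    (∀ ω Ω, Frm E1 j ω s Ω → ∃ ω' s', Frm E2 j ω' s' Ω ∧ (Spans E1 j s → Spans E2 j s')) ∧
    (Spans E1 j s → ∃ s' : n → _, Spans E2 j s')

def S_FrSp : Prop :=
  ∀ (F : Pol ℂ), Rg F → ∀ (B n : Type) [CommRing B] [Algebra ℂ B] [Fintype n]
    (E E' : Bundle F B) (j : ℕ) (s : n → _) s', FP (AlgHom.id ℂ B) E E' s s' →
    (Spans E j s ↔ Spans E' j s')

/-! ### Package Fr2 -/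

def S_FrChg : Prop :=
  ∀ (F : Pol ℂ) (B Ψ n : Type) [CommRing B] [Algebra ℂ B] [Fintype Ψ] [Fintype n]
    (β : Ψ → Pol ℂ) (E : Bundle F B) (j : ℕ) ω (s : n → _) (G : Ψ → Matrix n n B)
    (g : Matrix n n B) (κ : B), Frm E j ω s (Og β G) → IsUnit κ →
    ∃ ω', Frm E j ω' (fun b => ∑ a, (C (g a b) : Pol B) • s a) (Og β (cj g κ G))

def S_FrTwo : Prop :=
  ∀ (F : Pol ℂ), Rg F → ∀ (B n : Type) [CommRing B] [Algebra ℂ B] [Fintype n] (d : ℕ)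
    (c : SysP.Co F d) (E : Bundle F B) (j : ℕ) ω ω' (s s' : n → _)
    (G G' : Fin c.r → Matrix n n B) (g : Matrix n n B), Frm E j ω s (Og c.b G) →
    Frm E j ω' s' (Og c.b G') → (∀ b u, s' b u = ∑ a, mq F B (C (g a b)) * s a u) →
    ∃ κ : B, IsUnit κ ∧ G' = cj g κ G

def S_FrG : Prop :=
  ∀ (F : Pol ℂ), Rg F → ∀ (B n : Type) [CommRing B] [Algebra ℂ B] (k : ℕ)
    (c : SysP.Co F (k + k + 1)) (E : Bundle F B) ω (s : n → _),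
    (Pairing E ω → (∀ a, IsFun E (k + 1) (s a)) → ∃ G, Frm E (k + 1) ω s (Og c.b G)) ∧
    ∀ G, Frm E (k + 1) ω s (Og c.b G) → (∀ ψ, (G ψ)ᵀ = -G ψ) ∧ PlG F (Og c.b G)

def S_FrGD : Prop :=
  ∀ (F : Pol ℂ) (B n : Type) [CommRing B] [Algebra ℂ B] (k : ℕ) (c : SysP.Co F (k + k + 1))
    (G : Fin c.r → Matrix n n B), (∀ ψ, (G ψ)ᵀ = -G ψ) → PlG F (Og c.b G) → NoZ F (Og c.b G) →
    GD F (fun _ => k) (Og c.b G)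

/-! ### Package FrSat -/

def S_FrSat : Prop :=
  ∀ (F : Pol ℂ), Rg F → ∀ (B n : Type) [CommRing B] [Algebra ℂ B] [IsNoetherianRing B] [Fintype n]
    (k : ℕ) (Ω : Matrix n n (Pol B)), GD F (fun _ => k) Ω →
    ∃ (N : Bundle F B) (ωN : _) (sN : n → _), Frm N (k + 1) ωN sN Ω ∧
      ∀ (E : Bundle F B) ω s, Frm E (k + 1) ω s Ω → FP (AlgHom.id ℂ B) E N s sN

/-! ### Package Lin -/

def S_LinA : Prop :=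
  ∀ (B l m n : Type) [CommRing B] [Algebra ℂ B] [Fintype l] [Fintype m] [Fintype n]
    (V : Matrix m l B) (Φ : Matrix n m B) (t : B →ₐ[ℂ] ℂ), Φ * V = 0 →
    (∀ y, (Φ.map t).mulVec y = 0 → ∃ c, y = (V.map t).mulVec c) →
    (∃ h : B, t h ≠ 0 ∧ ∀ (B1 : Type) [CommRing B1] [Algebra ℂ B1] (τ : B →ₐ[ℂ] B1),
      IsUnit (τ h) → ∀ y, (Φ.map τ).mulVec y = 0 → ∃ c, y = (V.map τ).mulVec c) ∧
    ∀ v0 : l → ℂ, (V.map t).mulVec v0 = 0 → ∃ v : l → B, V.mulVec v = 0 ∧ t ∘ v = v0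

def S_Nak : Prop :=
  ∀ (B : Type) [CommRing B] [Algebra ℂ B] (t : B →ₐ[ℂ] ℂ) (D : ℕ),
    (∀ N : Submodule B (Pol B), (∀ a : Pol ℂ, a.IsHomogeneous D →
        ∃ a' ∈ N, a'.IsHomogeneous D ∧ map (t : B →+* ℂ) a' = a) →
      ∃ h : B, t h ≠ 0 ∧ ∀ a : Pol B, a.IsHomogeneous D → C h * a ∈ N) ∧
    ∀ I : Ideal (Pol B), HomI I →
      (∀ a : Pol ℂ, a.IsHomogeneous D → a ∈ I.map (map (t : B →+* ℂ))) →
      ∃ h : B, t h ≠ 0 ∧ ∀ a : Pol B, a.IsHomogeneous D → C h * a ∈ I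

def S_Unit : Prop :=
  ∀ (F : Pol ℂ), F.IsHomogeneous 6 → ∀ (B n : Type) [CommRing B] [Algebra ℂ B] (d : ℕ)
    (Ω : Matrix n n (Pol B)) (t : B →ₐ[ℂ] ℂ), (∀ i j, (Ω i j).IsHomogeneous d) →
    NoZ F (Ω.map (map (t : B →+* ℂ))) →
    ∃ h : B, t h ≠ 0 ∧ ∀ (B1 : Type) [CommRing B1] [Algebra ℂ B1] (τ : B →ₐ[ℂ] B1),
      IsUnit (τ h) → NoZ F (Ω.map (map (τ : B →+* B1)))

/-! ### Package SpanO -/

def S_SpanO : Prop :=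
  ∀ (F : Pol ℂ), Rg F → ∀ (B n : Type) [CommRing B] [Algebra ℂ B] [Fintype n] (E : Bundle F B)
    (j : ℕ) (s : n → _) (t : B →ₐ[ℂ] ℂ) (E0 : Bundle F ℂ) s0, (∀ a, IsFun E j (s a)) →
    FP t E E0 s s0 → Spans E0 j s0 →
    ∃ h : B, t h ≠ 0 ∧ ∀ (B1 : Type) [CommRing B1] [Algebra ℂ B1] (τ : B →ₐ[ℂ] B1)
      (E1 : Bundle F B1) s1, IsUnit (τ h) → FP τ E E1 s s1 → Spans E1 j s1

/-! ### Package Prim -/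

def S_Prim : Prop :=
  ∀ (F : Pol ℂ), Hyp F → ∀ (B : Type) [CommRing B] [Algebra ℂ B] (E : Bundle F B)
    (t : B →ₐ[ℂ] ℂ) (E0 : Bundle F ℂ) θ, Pull t E E0 θ → ∀ D0 : ℕ, ∃ i ≥ D0, ∃ s s0,
      IsFun E (i + 1) s ∧ IsFun E0 (i + 1) s0 ∧ (∀ u, s0 (θ u) = mapR F t (s u)) ∧ Prim s0

/-! ### Package RepP -/

def S_RepPull : Prop :=
  ∀ (F : Pol ℂ), Rg F → ∀ (B B' : Type) [CommRing B] [Algebra ℂ B] [CommRing B'] [Algebra ℂ B']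
    [Nontrivial B'] (φ : B →ₐ[ℂ] B') (Λ : Pol B →ₗ[B] B),
    (∀ (E : Bundle F B) (E' : Bundle F B') θ (c j : ℕ) s s', Pull φ E E' θ → Rep c E j s Λ →
      (∀ u, s' (θ u) = mapR F φ (s u)) → Rep c E' j s' (bcL (φ : B →+* B') Λ)) ∧
    ∀ (D l : ℕ) (b : Fin l → Pol ℂ), Gor' D Λ b → Gor' D (bcL (φ : B →+* B') Λ) b

/-- the length of the zero scheme determines the second Chern class -/
def S_Ell : Prop :=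
  ∀ (F : Pol ℂ), Hyp F → ∀ (B : Type) [CommRing B] [Algebra ℂ B] (E : Bundle F B) (c i D l : ℕ)
    s Λ (b : Fin l → Pol ℂ) (p : B →ₐ[ℂ] ℂ) (E1 : Bundle F ℂ), Rep c E (i + 1) s Λ →
    Gor' D Λ b → IsPull p E E1 → (E1.HasC2 ↔ l = 6 * i ^ 2 + 6 * i + 11)

/-! ### Package RepFam -/

def S_RepFam : Prop :=
  ∀ (F : Pol ℂ), Hyp F → ∀ (B : Type) [CommRing B] [Algebra ℂ B] [Algebra.FiniteType ℂ B]
    (E : Bundle F B) (j : ℕ) s (t : B →ₐ[ℂ] ℂ) (E0 : Bundle F ℂ) θ s0, Pull t E E0 θ →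
    IsFun E j s → IsFun E0 j s0 → (∀ u, s0 (θ u) = mapR F t (s u)) → Prim s0 →
    ∃ (U : Nb B t) (E' : Bundle F U.A) (s' : _) (c D l : ℕ) (Λ : _) (b : Fin l → Pol ℂ),
      IsPull U.ψ E E' ∧ Rep c E' j s' Λ ∧ Gor' D Λ b

/-! ### Package FunLift -/

def S_FunLift : Prop :=
  ∀ (F : Pol ℂ), Hyp F → ∀ (B : Type) [CommRing B] [Algebra ℂ B] (E : Bundle F B)
    (c i D k : ℕ) s Λ (b : Fin (6 * i ^ 2 + 6 * i + 11) → Pol ℂ) (p : B →ₐ[ℂ] ℂ)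
    (E1 : Bundle F ℂ) θ (s1 : Fin (NN k) → _), 2 ≤ k → k < i → Rep c E (i + 1) s Λ →
    Gor' D Λ b → Pull p E E1 θ → NoFun E1 0 → Spans E1 (k + 1) s1 →
    ∀ l1, IsFun E1 (k + 1) l1 → ∃ l, IsFun E (k + 1) l ∧ ∀ u, l1 (θ u) = mapR F p (l u)

/-! ### Package Chart -/

def S_Frame0 : Prop :=
  ∀ (F : Pol ℂ), Hyp F → ∀ E : Bundle F ℂ, Good E → ∃ k ≥ 3, ∃ s : Fin (NN k) → _,
    (∀ a, IsFun E (k + 1) (s a)) ∧ Spans E (k + 1) s ∧ Indep s ∧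
    ∀ ω Ω, Frm E (k + 1) ω s Ω → NoZ F Ω

def S_Sep : Prop :=
  ∀ (F : Pol ℂ), Hyp F → ∀ (E : Bundle F ℂ) (k : ℕ) ω (s : Fin (NN k) → _) Ω, NoFun E 0 → 3 ≤ k →
    Frm E (k + 1) ω s Ω → Indep s → NoZ F Ω → Sep F Ω

/-! ### Package GoodO -/

def S_GoodO : Prop :=
  ∀ (F : Pol ℂ), Hyp F → ∀ (B : Type) [CommRing B] [Algebra ℂ B] [Algebra.FiniteType ℂ B]
    (E : Bundle F B) (t : B →ₐ[ℂ] ℂ) (E0 : Bundle F ℂ), IsPull t E E0 → Good E0 →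
    ∃ h : B, t h ≠ 0 ∧ ∀ (t' : B →ₐ[ℂ] ℂ) (E1 : Bundle F ℂ), t' h ≠ 0 → IsPull t' E E1 → Good E1

/-- functionals on a fibre lift to a neighbourhood -/
def S_Lift2 : Prop :=
  ∀ (F : Pol ℂ), Hyp F → ∀ (B : Type) [CommRing B] [Algebra ℂ B] [Algebra.FiniteType ℂ B]
    (E : Bundle F B) (t : B →ₐ[ℂ] ℂ) (E0 : Bundle F ℂ) (k : ℕ) (s0 : Fin (NN k) → _), 2 ≤ k →
    IsPull t E E0 → Good E0 → Spans E0 (k + 1) s0 →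
    ∃ (U : Nb B t) (E' : Bundle F U.A), IsPull U.ψ E E' ∧ ∀ (E1 : Bundle F ℂ) θ,
      Pull U.p E' E1 θ → ∀ l1, IsFun E1 (k + 1) l1 →
        ∃ l, IsFun E' (k + 1) l ∧ ∀ u, l1 (θ u) = mapR F U.p (l u)

/-- the actual fibre of a frame is complete and stable -/
def S_FibPt : Prop :=
  ∀ (F : Pol ℂ), Hyp F → ∀ (B n : Type) [CommRing B] [Algebra ℂ B] [Fintype n] (E : Bundle F B)
    (k : ℕ) ω (s : n → _) Ω (t : B →ₐ[ℂ] ℂ) (E0 E1 : Bundle F ℂ) ω0 s0 s1,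
    Frm E (k + 1) ω s Ω → GD F (fun _ => k) (Ω.map (map (t : B →+* ℂ))) →
    Frm E0 (k + 1) ω0 s0 (Ω.map (map (t : B →+* ℂ))) → Spans E0 (k + 1) s0 → Good E0 →
    FP t E E1 s s1 → Spans E1 (k + 1) s1 ∧ Good E1

/-! ### Packages C0 to C8 -/

def S_C0 : Prop :=
  ∀ (F : Pol ℂ), Hyp F → ∀ (D : CD F) (B B' : Type) [CommRing B] [Algebra ℂ B] [CommRing B']
    [Algebra ℂ B'] (φ : B →ₐ[ℂ] B') (E : Bundle F B),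
    (∀ (E' : Bundle F B') y, D.Cl0 E y → IsPull φ E E' → D.Cl0 E' (φ.comp y)) ∧
    ∀ (E1 E2 : Bundle F B') y, IsPull φ E E1 → IsPull φ E E2 → D.Cl0 E1 y → D.Cl0 E2 y

def S_C1 : Prop :=
  ∀ (F : Pol ℂ), Hyp F → ∀ (D : CD F) (B B' : Type) [CommRing B] [Algebra ℂ B] [CommRing B']
    [Algebra ℂ B'] [Algebra.FiniteType ℂ B'] (φ : B →ₐ[ℂ] B') (E : Bundle F B),
    (∀ (E' : Bundle F B') y, D.Cl E y → IsPull φ E E' → D.Cl E' (φ.comp y)) ∧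
    ∀ (E1 E2 : Bundle F B') y, IsPull φ E E1 → IsPull φ E E2 → D.Cl E1 y → D.Cl E2 y

def S_C4 : Prop :=
  ∀ (F : Pol ℂ), Hyp F → ∀ (D : CD F) (B : Type) [CommRing B] [Algebra ℂ B]
    [Algebra.FiniteType ℂ B] (E : Bundle F B) (y y' : D.Y →ₐ[ℂ] B), D.Cl E y → D.Cl E y' → y = y'

def S_C5 : Prop :=
  ∀ (F : Pol ℂ), Hyp F → ∀ (D : CD F) (B : Type) [CommRing B] [Algebra ℂ B]
    [Algebra.FiniteType ℂ B] (E1 E2 : Bundle F B) (y : D.Y →ₐ[ℂ] B), D.Cl E1 y → D.Cl E2 y →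
    ∀ t : B →ₐ[ℂ] ℂ, ∃ (U : Nb B t) (E' : Bundle F U.A), IsPull U.ψ E1 E' ∧ IsPull U.ψ E2 E'

def S_C6 : Prop :=
  ∀ (F : Pol ℂ), Hyp F → ∀ (D : CD F) (B : Type) [CommRing B] [Algebra ℂ B]
    [Algebra.FiniteType ℂ B] (y : D.Y →ₐ[ℂ] B) (t : B →ₐ[ℂ] ℂ) (E0 : Bundle F ℂ),
    D.Cl E0 (t.comp y) → ∃ (U : Nb B t) (E' : Family F U.A), D.Cl E'.toBundle (U.ψ.comp y)

def S_C7 : Prop :=
  ∀ (F : Pol ℂ), Hyp F → ∀ (D : CD F) (B : Type) [CommRing B] [Algebra ℂ B]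
    [Algebra.FiniteType ℂ B] (E : Family F B) (t : B →ₐ[ℂ] ℂ) (E0 : Bundle F ℂ)
    (y0 : D.Y →ₐ[ℂ] ℂ), IsPull t E.toBundle E0 → D.Cl E0 y0 →
    ∃ (U : Nb B t) (E' : Bundle F U.A) (y' : D.Y →ₐ[ℂ] U.A),
      IsPull U.ψ E.toBundle E' ∧ D.Cl E' y' ∧ U.p.comp y' = y0

def S_C8 : Prop :=
  ∀ (F : Pol ℂ), Hyp F → ∀ E0 : Bundle F ℂ, Good E0 →
    ∃ (D : CD F) (y0 : D.Y →ₐ[ℂ] ℂ), D.Cl E0 y0

end Pool.Agent.P.MP_2b2d3b_ag
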