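import Pool.Agent.P.MP_2b2d3b_ag.ApiN

/-!
Statements of the packages of the proof of the Noether-Lefschetz theorem.
-/

namespace Pool.Agent.P.MP_2b2d3b_ag

open MvPolynomial

/-! ### Package Sig -/

def S_Sig : Prop :=
  ∀ F : Pol ℂ, IndepCoeff F → ∀ l : Fin 4 → ℕ, ∃ σ : ℂ →+* PowerSeries ℂ,
    (∀ a, PowerSeries.constantCoeff (σ a) = a) ∧
    map σ F = map (PowerSeries.C : ℂ →+* PowerSeries ℂ) F + C PowerSeries.X *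
      map (PowerSeries.C : ℂ →+* PowerSeries ℂ) (linForm (fun i => (l i : ℂ)) ^ 6)

/-! ### Package Cech -/

/-- division with remainder and its consequences -/
structure CDiv {B : Type} [CommRing B] (G : Pol B) (n : ℕ) : Prop where
  div : ∀ (S : Finset (Fin 3)) (e : ℤ) (p : Lr B), p ∈ T B S e →
    ∃ q ∈ T B S (e - n), ∃ r ∈ T B S e, r.degree < n ∧ p = io B G * q + r
  div' : ∀ p : Lr B, ∃ q r : Lr B, r.degree < n ∧ p = io B G * q + r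
  uniq : ∀ q : Lr B, (io B G * q).degree < n → q = 0
  quot : ∀ (S : Finset (Fin 3)) (e : ℤ) (q : Lr B), io B G * q ∈ T B S e → q ∈ T B S (e - n)
  pol : ∀ b : Pol B, io B b ∈ Ideal.span {io B G} → b ∈ Ideal.span {G}
  h0 : ∀ (e : ℤ) (p : Fin 3 → Lr B), (∀ i, p i ∈ T B {i} e) →
    (∀ i j, p i - p j ∈ Ideal.span {io B G}) →
    ∃ b : Pol B, (∀ m : ℕ, (m : ℤ) = e → b.IsHomogeneous m) ∧ (e < 0 → b = 0) ∧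
      ∀ i, io B b - p i ∈ Ideal.span {io B G}
  h1 : ∀ (e : ℤ) (c : Fin 3 → Fin 3 → Lr B), (∀ i j, c i j ∈ T B {i, j} e) →
    (∀ i j l, c i l - (c i j + c j l) ∈ Ideal.span {io B G}) →
    ∃ b : Fin 3 → Lr B, (∀ i, b i ∈ T B {i} e) ∧
      ∀ i j, c i j - (b i - b j) ∈ Ideal.span {io B G}

def S_CDiv : Prop :=
  ∀ (B : Type) [CommRing B] (G : Pol B) (n : ℕ), Mn G n →
    CDiv G n ∧ ∀ k : ℕ, Mn (G ^ k) (k * n)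

def S_Clear : Prop :=
  ∀ (B : Type) [CommRing B] (S : Finset (Fin 3)) (e : ℤ) (p : Lr B) (i : Fin 3), p ∈ T B S e →
    ∃ K0 : ℕ, ∀ K : ℕ, K0 ≤ K → xv B i K * p ∈ T B (S.erase i) (e + K)

/-! ### Package H2 -/

def S_H2 : Prop :=
  ∀ F : Pol ℂ, Mn F 6 → ∀ n : ℕ, 3 ≤ n → ∀ c ∈ T ℂ Finset.univ (-(n : ℤ)),
    (∀ l : Fin 4 → ℕ, ∃ x ∈ BB ℂ 0,
      io ℂ (linForm fun i => (l i : ℂ)) ^ n * c - x ∈ Ideal.span {io ℂ F}) →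
    ∃ x ∈ BB ℂ (-(n : ℤ)), c - x ∈ Ideal.span {io ℂ F}

/-- the parameter -/
noncomputable def tt : Lr (PowerSeries ℂ) := algebraMap (PowerSeries ℂ) _ PowerSeries.X

/-- the constant family -/
noncomputable def cst : Lr ℂ →+* Lr (PowerSeries ℂ) := mapL PowerSeries.C

/-- the ideal of the family modulo `t ^ k` -/
noncomputable def JJ (G : Pol (PowerSeries ℂ)) (k : ℕ) : Ideal (Lr (PowerSeries ℂ)) :=
  Ideal.span {io _ G, tt ^ k}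

def S_TA : Prop :=
  ∀ (G : Pol (PowerSeries ℂ)) (F : Pol ℂ), Mn G 6 →
    map (PowerSeries.constantCoeff : PowerSeries ℂ →+* ℂ) G = F →
    (∀ (k : ℕ) (S : Finset (Fin 3)) (e : ℤ) (p : Lr (PowerSeries ℂ)), p ∈ T _ S e → p ∈ JJ G k →
      ∃ d ∈ T ℂ S e, p - tt ^ k * cst d ∈ JJ G (k + 1)) ∧
    (∀ (k : ℕ) (d : Lr ℂ), tt ^ k * cst d ∈ JJ G (k + 1) ↔ d ∈ Ideal.span {io ℂ F}) ∧
    (∀ w : Lr (PowerSeries ℂ), tt ∣ w - cst (mapL PowerSeries.constantCoeff w)) ∧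
    ∀ k : ℕ, H1J (R0 (PowerSeries ℂ)) (JJ G k) (JJ G (k + 1))

/-! ### Packages CocA, CocB -/

def S_CocA0 : Prop :=
  ∀ (A : Type) [CommRing A] (n : Type) [Fintype n] [DecidableEq n]
    (R : Fin 3 → Fin 3 → Subring A) (J J' : Ideal A) (φ : Fin 3 → Fin 3 → Matrix n n A),
    IsUnit (2 : A) → Sys3 R → J' ≤ J → J * J ≤ J' → Ent R φ → Coc J φ →
    ∃ φ' : Fin 3 → Fin 3 → Matrix n n A, Ent R φ' ∧ (∀ i j, Cong J (φ' i j) (φ i j)) ∧ Pre J' φ'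

def S_CocA1 : Prop :=
  ∀ (A : Type) [CommRing A] (n : Type) [Fintype n] [DecidableEq n]
    (R : Fin 3 → Fin 3 → Subring A) (J J' : Ideal A) (φ : Fin 3 → Fin 3 → Matrix n n A)
    (c01 c12 c20 : A), Sys3 R → J' ≤ J → J * J ≤ J' → Ent R φ → Pre J' φ →
    c01 ∈ R 0 1 → c12 ∈ R 1 2 → c20 ∈ R 2 0 → c01 ∈ J → c12 ∈ J → c20 ∈ J →
    ob φ - (c01 + c12 + c20) ∈ J' →
    ∃ φ' : Fin 3 → Fin 3 → Matrix n n A, Ent R φ' ∧ (∀ i j, Cong J (φ' i j) (φ i j)) ∧ Coc J' φ'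

def S_CocA2 : Prop :=
  ∀ (A : Type) [CommRing A] (n : Type) [Fintype n] [DecidableEq n]
    (R : Fin 3 → Fin 3 → Subring A) (J J' : Ideal A) (φ ψ : Fin 3 → Fin 3 → Matrix n n A),
    Sys3 R → J' ≤ J → J * J ≤ J' → Ent R φ → Ent R ψ → Pre J' φ → Coc J' ψ → IsoM R J φ ψ →
    ∃ c01 c12 c20 : A, c01 ∈ R 0 1 ∧ c12 ∈ R 1 2 ∧ c20 ∈ R 2 0 ∧ c01 ∈ J ∧ c12 ∈ J ∧ c20 ∈ J ∧
      ob φ - (c01 + c12 + c20) ∈ J'

def S_CocB : Prop :=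
  ∀ (A : Type) [CommRing A] (n : Type) [Fintype n] [DecidableEq n]
    (R : Fin 3 → Fin 3 → Subring A) (J J' : Ideal A) (φ ψ : Fin 3 → Fin 3 → Matrix n n A),
    Sys3 R → J' ≤ J → J * J ≤ J' → Ent R φ → Ent R ψ → Coc J' φ → Coc J' ψ → IsoM R J φ ψ →
    H1J R J J' → IsoM R J' φ ψ

/-! ### Package Tower -/

def S_Tower : Prop :=
  ∀ F : Pol ℂ, IndepCoeff F → ∀ (n : Type) [Fintype n] [DecidableEq n]
    (φ : Fin 3 → Fin 3 → Matrix n n (Lr ℂ)), Ent (R0 ℂ) φ → Coc (Ideal.span {io ℂ F}) φ →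
    ∃ Φ, Tow (io ℂ F) φ Φ

/-! ### Package H1 -/

def S_H1 : Prop :=
  ∀ F : Pol ℂ, Mn F 6 → ∀ (n : Type) [Fintype n] [DecidableEq n]
    (φ : Fin 3 → Fin 3 → Matrix n n (Lr ℂ)), Ent (R0 ℂ) φ → Coc (Ideal.span {io ℂ F}) φ →
    ∀ (κ : Type) [Fintype κ] (δ : ℤ) (t u : κ → Fin 3 → n → Lr ℂ),
      (∀ b, Sec (io ℂ F) (tp φ) 1 δ (t b)) → (∀ b i a, u b i a ∈ T ℂ {i} (-δ)) →
      (∀ i a c, ∑ b, u b i a * t b i c - φ i i a c ∈ Ideal.span {io ℂ F}) →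
      H1fin (io ℂ F) φ

/-! ### Package Lift -/

def S_Lift : Prop :=
  ∀ F : Pol ℂ, Mn F 6 → ∀ (n : Type) [Fintype n] [DecidableEq n]
    (φ : Fin 3 → Fin 3 → Matrix n n (Lr ℂ)) (Φ : ℕ → Fin 3 → Fin 3 → Matrix n n (Lr ℂ)),
    Tow (io ℂ F) φ Φ → H1fin (io ℂ F) φ → ∀ (e : ℤ) (s : Fin 3 → n → Lr ℂ),
    Sec (io ℂ F) φ 1 e s →
    ∃ I : Ideal (Pol ℂ), HomI I ∧ (∃ L : ℕ, ∀ d, hilb I d ≤ L) ∧
      ∀ a ∈ I, ∀ d : ℕ, a.IsHomogeneous d → ∀ k : ℕ, ∃ s' : Fin 3 → n → Lr ℂ,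
        Sec (io ℂ F) (Φ k) (k + 1) (e + d) s' ∧
        ∀ i c, s' i c - io ℂ a * s i c ∈ Ideal.span {io ℂ F}

/-! ### Packages Rk1, Fact -/

def S_Two : Prop :=
  ∀ F : Pol ℂ, IndepCoeff F → ∀ (κ : Type) [Fintype κ] (I : κ → Ideal (Pol ℂ)),
    (∀ b, HomI (I b) ∧ ∃ L : ℕ, ∀ d, hilb (I b) d ≤ L) →
    ∃ (g : Fin 2 → Pol ℂ) (d : Fin 2 → ℕ), (∀ r, (g r).IsHomogeneous (d r) ∧ ∀ b, g r ∈ I b) ∧
      g 0 ∉ Ideal.span {F} ∧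
      ∀ a, g 1 * a ∈ Ideal.span {F, g 0} → a ∈ Ideal.span {F, g 0}

def S_Rk1 : Prop :=
  ∀ F : Pol ℂ, (Ideal.span {F}).IsPrime → ∀ (α β : Type) [Fintype α] [Fintype β]
    (h : α → β → Pol ℂ) (g : Fin 2 → Pol ℂ) (P : Fin 2 × α → Fin 2 × β → Pol ℂ),
    g 0 ∉ Ideal.span {F} → (∀ a, g 1 * a ∈ Ideal.span {F, g 0} → a ∈ Ideal.span {F, g 0}) →
    (∀ x x' y y', P x y * P x' y' = P x y' * P x' y) →
    (∀ r a r' b, P (r, a) (r', b) - g r * g r' * h a b ∈ Ideal.span {F}) →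
    ∃ (ρ : α → Pol ℂ) (ρ' : β → Pol ℂ), ∀ a b, h a b - ρ a * ρ' b ∈ Ideal.span {F}

def S_Fact : Prop :=
  ∀ F : Pol ℂ, IndepCoeff F → ∀ (ι : Type) [Fintype ι] [DecidableEq ι] (N : ℕ)
    (h : ι → Fin 3 × ι → Pol ℂ), InvD F N h →
    ∃ (ρ : ι → Pol ℂ) (ρ' : Fin 3 × ι → Pol ℂ), ∀ a b, h a b - ρ a * ρ' b ∈ Ideal.span {F}

/-! ### Packages Loc, Inv, UFD -/

def S_Ht : Prop :=
  ∀ (F π : Pol ℂ) (P : Ideal (Pol ℂ)), P ∈ (Ideal.span {F, π}).minimalPrimes →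
    ∀ (j : Fin 4) (c : Fin 4 → ℂ), ∃ i, i ≠ j ∧ X i - C (c i) * X j ∉ P

def S_Loc : Prop :=
  ∀ F : Pol ℂ, GoodSextic F → ∀ (π : Pol ℂ) (P : Ideal (Pol ℂ)),
    P ∈ (Ideal.span {F, π}).minimalPrimes → HomI P →
    ∀ p : Fin 4 → ℂ, p ≠ 0 → eval p F = 0 →
    ∃ (w s : Pol ℂ) (m m' : ℕ), w.IsHomogeneous m ∧ s.IsHomogeneous m' ∧ eval p w ≠ 0 ∧ s ∈ P ∧
      ∀ y ∈ P, w * y ∈ Ideal.span {F, s}

def S_Inv : Prop :=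
  ∀ F : Pol ℂ, IndepCoeff F → ∀ (π : Pol ℂ) (P : Ideal (Pol ℂ)), π ∉ Ideal.span {F} →
    P ∈ (Ideal.span {F, π}).minimalPrimes → HomI P → ∃ ϖ, P = Ideal.span {F, ϖ}

def S_NL : Prop :=
  ∀ F : Pol ℂ, IndepCoeff F → UniqueFactorizationMonoid (Pol ℂ ⧸ Ideal.span {F})

end Pool.Agent.P.MP_2b2d3b_ag
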