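import Pool.Agent.P.MP_2b2d3b_ag.Pts

/-!
A sextic with algebraically independent coefficients has the properties that are used.
-/

namespace Pool.Agent.P.MP_2b2d3b_ag

open Polynomial

theorem card_le_of_indep {ι : Type} [Fintype ι] {x : ι → ℂ} (hx : AlgebraicIndependent ℚ x)
    (S : Finset ℂ) (h : ∀ i, x i ∈ Algebra.adjoin ℚ (S : Set ℂ)) : Fintype.card ι ≤ S.card := by
  have h1 : AlgebraicIndependent ℚ fun i => (⟨x i, h i⟩ : Algebra.adjoin ℚ (S : Set ℂ)) :=
    AlgebraicIndependent.of_comp (Subalgebra.val _) hx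
  have h2 := h1.cardinalMk_le_trdeg
  rw [Algebra.adjoin_eq_range] at h2
  have h3 := trdeg_le_of_surjective _
    (MvPolynomial.aeval (R := ℚ) (fun x : (S : Set ℂ) => (x : ℂ))).rangeRestrict_surjective
  rw [MvPolynomial.trdeg_of_isDomain] at h3
  have := h2.trans h3
  simpa using this

/-- the linear change of coordinates -/
noncomputable def kap (g : Matrix (Fin 4) (Fin 4) ℂ) : Pol ℂ →ₐ[ℂ] Pol ℂ :=
  MvPolynomial.aeval fun i => linForm (g i)

variable {g g' : Matrix (Fin 4) (Fin 4) ℂ}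

theorem kap_kap (hg : g * g' = 1) (P : Pol ℂ) : kap g' (kap g P) = P := by
  have h1 : (kap g').comp (kap g) = AlgHom.id ℂ _ := by
    apply MvPolynomial.algHom_ext
    intro i
    simp only [kap, AlgHom.comp_apply, MvPolynomial.aeval_X, AlgHom.id_apply]
    rw [X_eq_sum hg i, linForm]
    simp
  exact AlgHom.congr_fun h1 P

theorem kap_hom (g : Matrix (Fin 4) (Fin 4) ℂ) {P : Pol ℂ} {d : ℕ} (hP : P.IsHomogeneous d) :
    (kap g P).IsHomogeneous d := by
  have := hP.aeval _ fun i => linForm_hom (g i)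
  rwa [one_mul] at this

theorem rho_kap (g : Matrix (Fin 4) (Fin 4) ℂ) (P : Pol ℂ) :
    rho (1 : Matrix (Fin 4) (Fin 4) ℂ) (kap g P) = rho g P := by
  have : (rho (1 : Matrix (Fin 4) (Fin 4) ℂ)).comp (kap g) = rho g := by
    apply MvPolynomial.algHom_ext
    intro i
    simp [kap, rho_linForm, pt, Matrix.one_apply]
  exact AlgHom.congr_fun this P

theorem coeff_rho_one {P : Pol ℂ} {d : ℕ} (hP : P.IsHomogeneous d) {m : Fin 4 →₀ ℕ}
    (hm : m.degree = d) (h3 : m 3 = 0) :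
    MvPolynomial.coeff m P = ((rho (1 : Matrix (Fin 4) (Fin 4) ℂ) P).coeff (m 2)).coeff (m 1) := by
  classical
  conv_rhs => rw [P.as_sum]
  have key : ∀ (s : Fin 4 →₀ ℕ) (c : ℂ), s.degree = d →
      ((rho (1 : Matrix (Fin 4) (Fin 4) ℂ) (MvPolynomial.monomial s c)).coeff (m 2)).coeff (m 1) =
        if s = m then c else 0 := fun s c hs => by
    have e : rho (1 : Matrix (Fin 4) (Fin 4) ℂ) (MvPolynomial.monomial s c) =
        C (C c * X ^ s 1 * 0 ^ s 3) * X ^ s 2 := by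
      rw [rho, MvPolynomial.aeval_monomial, Finsupp.prod_fintype _ _ (by simp), Fin.prod_univ_four]
      simp [pt, Matrix.one_apply]
      ring
    rw [e, coeff_C_mul_X_pow]
    rw [Finsupp.degree_eq_sum, Fin.sum_univ_four] at hs hm
    by_cases h : s = m
    · subst h; simp [h3]
    · rw [if_neg h]
      split_ifs with h2
      · by_cases h4 : s 3 = 0
        · rw [h4, pow_zero, mul_one, coeff_C_mul_X_pow, if_neg]
          intro h1
          apply h
          ext i
          fin_cases i <;> simp <;> omega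
        · simp [h4]
      · simp
  rw [map_sum, finsetSum_coeff, finsetSum_coeff, Finset.sum_congr rfl fun s hs => key s _ (by
    by_contra hne
    exact MvPolynomial.mem_support_iff.mp hs (hP.coeff_eq_zero hne)), Finset.sum_ite_eq']
  split_ifs with h
  · rfl
  · exact MvPolynomial.notMem_support_iff.mp h

/-- The coefficients of the sextic form `F` are algebraically independent over `ℚ`. -/
def IndepCoeff (F : Pol ℂ) : Prop :=
  F.IsHomogeneous 6 ∧
    AlgebraicIndependent ℚ fun m : {m : Fin 4 →₀ ℕ // m.degree = 6} => MvPolynomial.coeff m.1 F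

namespace IndepCoeff

variable {F : Pol ℂ}

theorem key (hF : IndepCoeff F) (hg : g * g' = 1) (S : Finset ℂ) (K : Finset (Fin 4 →₀ ℕ))
    (hK : ∀ m ∈ K, m.degree = 6) (hS : S.card < K.card)
    (h1 : ∀ i j, g' i j ∈ Algebra.adjoin ℚ (S : Set ℂ))
    (h2 : ∀ m ∈ K, MvPolynomial.coeff m (kap g F) ∈ Algebra.adjoin ℚ (S : Set ℂ)) : False := by
  classical
  let M : Finset (Fin 4 →₀ ℕ) := Finset.univ.finsuppAntidiag 6
  have hM : ∀ m, m ∈ M ↔ m.degree = 6 := fun m => by
    simp [M, Finset.mem_finsuppAntidiag, Finsupp.degree_eq_sum]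
  let S' : Finset ℂ := S ∪ (M \ K).image fun m => MvPolynomial.coeff m (kap g F)
  let R := Algebra.adjoin ℚ (S' : Set ℂ)
  have hle : Algebra.adjoin ℚ (S : Set ℂ) ≤ R :=
    Algebra.adjoin_mono (Finset.coe_subset.mpr Finset.subset_union_left)
  have h3 : ∀ m, MvPolynomial.coeff m (kap g F) ∈ R := fun m => by
    by_cases hm : m ∈ K
    · exact hle (h2 m hm)
    by_cases hm' : m ∈ M
    · exact Algebra.subset_adjoin (Finset.mem_union_right _
        (Finset.mem_image_of_mem _ (Finset.mem_sdiff.mpr ⟨hm', hm⟩)))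
    · rw [(kap_hom g hF.1).coeff_eq_zero (fun e => hm' ((hM m).mpr e))]
      exact zero_mem _
  let T := (MvPolynomial.map (σ := Fin 4) (R.val : R →+* ℂ)).range
  have hC : ∀ c ∈ R, MvPolynomial.C c ∈ T := fun c hc => ⟨MvPolynomial.C ⟨c, hc⟩, by simp⟩
  have hX : ∀ i, MvPolynomial.X i ∈ T := fun i => ⟨MvPolynomial.X i, by simp⟩
  have h4 : F ∈ T := by
    rw [← kap_kap hg F, (kap g F).as_sum, map_sum]
    refine sum_mem fun m _ => ?_
    rw [kap, MvPolynomial.aeval_monomial]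
    exact mul_mem (hC _ (h3 m)) (prod_mem fun i _ => pow_mem
      (sum_mem fun j _ => mul_mem (hC _ (hle (h1 i j))) (hX j)) _)
  obtain ⟨F0, e⟩ := h4
  have h5 := card_le_of_indep (hF.2.comp (fun m : M => ⟨m.1, (hM _).mp m.2⟩)
    fun a b h => Subtype.ext (by simpa using h)) S' fun m => by
      simp only [Function.comp]
      rw [← e, MvPolynomial.coeff_map]
      exact (MvPolynomial.coeff _ F0).2
  have h6 : S'.card ≤ S.card + (M \ K).card :=
    (Finset.card_union_le _ _).trans (add_le_add_right Finset.card_image_le _)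
  have h7 := Finset.card_sdiff_add_card_eq_card (s := K) (t := M) fun m hm => (hM m).mpr (hK m hm)
  rw [Fintype.card_coe] at h5
  omega

/-- pairs of exponents of total degree at most `k` -/
def tri (k : ℕ) : Finset (ℕ × ℕ) :=
  (Finset.range (k + 1) ×ˢ Finset.range (k + 1)).filter fun p => p.1 + p.2 ≤ k

theorem mem_tri {k : ℕ} {p : ℕ × ℕ} : p ∈ tri k ↔ p.1 + p.2 ≤ k := by
  simp only [tri, Finset.mem_filter, Finset.mem_product, Finset.mem_range]
  omega

theorem key2 (hF : IndepCoeff F) (hg : g * g' = 1) (S : Finset ℂ) {k : ℕ} (hk : k ≤ 6)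
    (hS : S.card < (tri k).card) (h1 : ∀ i j, g' i j ∈ Algebra.adjoin ℚ (S : Set ℂ))
    (h2 : ∀ i j, i + j ≤ k → ((rho g F).coeff j).coeff i ∈ Algebra.adjoin ℚ (S : Set ℂ)) :
    False := by
  classical
  let φ : ℕ × ℕ → (Fin 4 →₀ ℕ) := fun p => Finsupp.equivFunOnFinite.symm ![6 - p.1 - p.2, p.1, p.2, 0]
  have hφ : Function.Injective φ := fun p q h =>
    Prod.ext (by simpa [φ] using DFunLike.congr_fun h 1) (by simpa [φ] using DFunLike.congr_fun h 2)
  have hd : ∀ p ∈ tri k, (φ p).degree = 6 := fun p hp => by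
    have := mem_tri.mp hp
    simp [φ, Finsupp.degree_eq_sum, Fin.sum_univ_four]
    omega
  refine hF.key hg S ((tri k).image φ) ?_ (by rwa [Finset.card_image_of_injective _ hφ]) h1 ?_
  · intro m hm
    obtain ⟨p, hp, rfl⟩ := Finset.mem_image.mp hm
    exact hd p hp
  · intro m hm
    obtain ⟨p, hp, rfl⟩ := Finset.mem_image.mp hm
    rw [coeff_rho_one (kap_hom g hF.1) (hd p hp) (by simp [φ]), rho_kap]
    simpa [φ] using h2 p.1 p.2 (mem_tri.mp hp)

end IndepCoeff

/-- an explicit inverse frame -/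
def gmat (σ : Equiv.Perm (Fin 4)) (z r1 r2 : ℂ) (c : Fin 4 → ℂ) : Matrix (Fin 4) (Fin 4) ℂ :=
  ![Pi.single (σ 0) z, Pi.single (σ 1) 1 - Pi.single (σ 0) r1,
    Pi.single (σ 2) 1 - Pi.single (σ 0) r2, c]

theorem gmat_mulVec (σ : Equiv.Perm (Fin 4)) (z r1 r2 : ℂ) (c p : Fin 4 → ℂ) :
    (gmat σ z r1 r2 c).mulVec p =
      ![z * p (σ 0), p (σ 1) - r1 * p (σ 0), p (σ 2) - r2 * p (σ 0), ∑ i, c i * p i] := by
  funext k
  fin_cases k <;> simp [gmat, Matrix.mulVec, dotProduct, sub_mul, Pi.single_apply]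

theorem exists_g (σ : Equiv.Perm (Fin 4)) {z : ℂ} (hz : z ≠ 0) (r1 r2 : ℂ) {c : Fin 4 → ℂ}
    (hc : c (σ 3) ≠ 0) : ∃ g, g * gmat σ z r1 r2 c = 1 := by
  refine ⟨_, Matrix.nonsing_inv_mul _ (IsUnit.mk0 _ fun h => ?_)⟩
  obtain ⟨p, hp, e⟩ := Matrix.exists_mulVec_eq_zero_iff.mpr h
  rw [gmat_mulVec] at e
  have e0 := congrFun e 0
  have e1 := congrFun e 1
  have e2 := congrFun e 2
  have e3 := congrFun e 3
  simp only [Matrix.cons_val, Pi.zero_apply, mul_eq_zero, hz, false_or] at e0 e1 e2 e3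
  rw [e0, mul_zero, sub_zero] at e1 e2
  rw [← Equiv.sum_comp σ, Fin.sum_univ_four, e0, e1, e2] at e3
  simp only [mul_zero, zero_add, mul_eq_zero, hc, false_or] at e3
  apply hp
  funext i
  obtain ⟨i, rfl⟩ := σ.surjective i
  fin_cases i
  exacts [e0, e1, e2, e3]

theorem gmat_mem (R : Subalgebra ℚ ℂ) (σ : Equiv.Perm (Fin 4)) {z r1 r2 : ℂ} {c : Fin 4 → ℂ}
    (hz : z ∈ R) (h1 : r1 ∈ R) (h2 : r2 ∈ R) (hc : ∀ i, c i ∈ R) (i j : Fin 4) :
    gmat σ z r1 r2 c i j ∈ R := by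
  have key : ∀ (a : Fin 4) (x : ℂ), x ∈ R → (Pi.single a x : Fin 4 → ℂ) j ∈ R := fun a x hx => by
    rw [Pi.single_apply]
    split_ifs
    exacts [hx, zero_mem _]
  fin_cases i
  exacts [key _ _ hz, sub_mem (key _ _ (one_mem _)) (key _ _ h1),
    sub_mem (key _ _ (one_mem _)) (key _ _ h2), hc j]

theorem col_zero (hg : g * g' = 1) {p : Fin 4 → ℂ} {w : ℂ} (h : g'.mulVec p = ![w, 0, 0, 0]) :
    p = fun i => w * g i 0 := by
  have := congrArg g.mulVec h
  rw [Matrix.mulVec_mulVec, hg, Matrix.one_mulVec] at this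
  rw [this]
  funext i
  simp [Matrix.mulVec, dotProduct, Fin.sum_univ_four, mul_comm]

end Pool.Agent.P.MP_2b2d3b_ag
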